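import Pool.Agent.H53.DfB

/-! Weyl equidistribution for piecewise continuous functions; existence of autocorrelations. -/

namespace H53.Df

open MeasureTheory Set Real Filter Topology
open scoped ENNReal NNReal CompactlySupported

/-- averages converge -/
def Av (v : ℕ → ℝ) (L : ℝ) : Prop := Tendsto (fun N : ℕ => (∑ n ∈ Finset.range N, v n) / N) atTop (𝓝 L)

lemma intg {E : Type*} [NormedAddCommGroup E] {g : UnitAddCircle → E} (hg : Continuous g) :
    Integrable g := hg.integrable_of_hasCompactSupport (HasCompactSupport.of_compactSpace g)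

lemma weylC {θ : ℝ} (hθ : Irrational θ) (c : ℝ) (f : C(UnitAddCircle, ℝ)) :
    Av (fun n => f ((c + n * θ : ℝ) : UnitAddCircle)) (∫ x, f x) := by
  haveI : IsProbabilityMeasure (volume : Measure UnitAddCircle) := ⟨UnitAddCircle.measure_univ⟩
  have k : ∀ g : C(UnitAddCircle, ℂ), Tendsto (fun N : ℕ =>
      (∑ n ∈ Finset.range N, g ((c + n * θ : ℝ) : UnitAddCircle)) / N) atTop (𝓝 (∫ x, g x)) := by
    intro g
    have l1 : ∀ N : ℕ, LipschitzWith 1 fun g : C(UnitAddCircle, ℂ) =>
        (∑ n ∈ Finset.range N, g ((c + n * θ : ℝ) : UnitAddCircle)) / N := fun N => by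
      refine LipschitzWith.of_dist_le_mul fun f g => ?_
      rw [dist_eq_norm, ← sub_div, ← Finset.sum_sub_distrib, norm_div, Complex.norm_natCast,
        NNReal.coe_one, one_mul]
      refine div_le_of_le_mul₀ (Nat.cast_nonneg _) dist_nonneg
        ((norm_sum_le _ _).trans ((Finset.sum_le_card_nsmul _ _ (dist f g) fun n _ => ?_).trans ?_))
      · rw [← dist_eq_norm]; exact ContinuousMap.dist_apply_le_dist _
      · simp [mul_comm]
    have l2 : LipschitzWith 1 fun g : C(UnitAddCircle, ℂ) => ∫ x, g x := by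
      refine LipschitzWith.of_dist_le_mul fun f g => ?_
      rw [dist_eq_norm, ← integral_sub (intg f.continuous) (intg g.continuous)]
      refine (norm_integral_le_of_norm_le_const (C := dist f g)
        (.of_forall fun x => ?_)).trans (by simp)
      rw [← dist_eq_norm]; exact ContinuousMap.dist_apply_le_dist _
    have hc := (LipschitzWith.uniformEquicontinuous _ 1 l1).equicontinuous.isClosed_setOfPred_tendsto
      (l := atTop) l2.continuous
    have hg : g ∈ closure (Submodule.span ℂ (Set.range (@fourier 1)) : Set _) := by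
      rw [← Submodule.topologicalClosure_coe, span_fourier_closure_eq_top]; trivial
    refine closure_minimal (fun g hg => ?_) hc hg
    induction hg using Submodule.span_induction with
    | mem g hg =>
      obtain ⟨a, rfl⟩ := hg
      by_cases ha : a = 0
      · subst ha
        simp only [Set.mem_setOf_eq, fourier_zero, integral_const, probReal_univ, one_smul]
        refine tendsto_const_nhds.congr' ?_
        filter_upwards [eventually_gt_atTop 0] with N hN
        have : (N : ℂ) ≠ 0 := by exact_mod_cast hN.ne'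
        simp [this]
      · simp only [Set.mem_setOf_eq]
        rw [integral_eq_zero_of_add_right_eq_neg (fourier_add_half_inv_index ha one_pos)]
        set z : ℂ := Complex.exp ((2 * π * a * θ : ℝ) * Complex.I) with hz
        have hz1 : z ≠ 1 := by
          rw [hz, Ne, Complex.exp_eq_one_iff]
          rintro ⟨n, hn⟩
          have h1 : ((2 * π * a * θ : ℝ) : ℂ) = ((n * (2 * π) : ℝ) : ℂ) := by
            apply mul_right_cancel₀ Complex.I_ne_zero; rw [hn]; push_cast; ring
          have h2 : (a : ℝ) * θ = n := by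
            apply mul_left_cancel₀ (show 2 * π ≠ 0 by positivity)
            have := Complex.ofReal_injective h1
            linarith
          exact (hθ.intCast_mul ha).ne_int n h2
        have hn : ‖z‖ = 1 := Complex.norm_exp_ofReal_mul_I _
        have e : ∀ n : ℕ, fourier a ((c + n * θ : ℝ) : UnitAddCircle) =
            Complex.exp ((2 * π * a * c : ℝ) * Complex.I) * z ^ n := fun n => by
          rw [fourier_coe_apply, hz, ← Complex.exp_nat_mul, ← Complex.exp_add]
          congr 1; push_cast; ring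
        refine squeeze_zero_norm (fun N => ?_) (tendsto_const_div_atTop_nhds_zero_nat (2 / ‖z - 1‖))
        simp_rw [e]
        rw [← Finset.mul_sum, geom_sum_eq hz1, norm_div, norm_mul, norm_div,
          Complex.norm_exp_ofReal_mul_I, one_mul, Complex.norm_natCast]
        gcongr
        refine (norm_sub_le _ _).trans ?_
        rw [norm_pow, hn]; norm_num
    | zero => simp
    | add g g' _ _ h1 h2 =>
      simp only [Set.mem_setOf_eq, ContinuousMap.add_apply, Finset.sum_add_distrib, add_div]
      rw [integral_add (intg g.continuous) (intg g'.continuous)]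
      exact Tendsto.add h1 h2
    | smul a g _ h1 =>
      simp only [Set.mem_setOf_eq, ContinuousMap.smul_apply, integral_smul, smul_eq_mul,
        ← Finset.mul_sum, mul_div_assoc, integral_const_mul]
      exact Tendsto.const_mul a h1
  have := (Complex.continuous_re.tendsto _).comp (k ⟨fun x => f x, by fun_prop⟩)
  simp only [Function.comp_def, ContinuousMap.coe_mk, integral_complex_ofReal, Complex.ofReal_re,
    ← Complex.ofReal_sum, ← Complex.ofReal_natCast, ← Complex.ofReal_div] at this
  exact this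

/-- bounded and continuous off a finite set -/
def Nice (F : UnitAddCircle → ℝ) : Prop :=
  (∃ M, ∀ y, |F y| ≤ M) ∧ {y | ¬ ContinuousAt F y}.Finite

lemma Nice.add {F G : UnitAddCircle → ℝ} (hF : Nice F) (hG : Nice G) : Nice fun y => F y + G y := by
  obtain ⟨⟨M, hM⟩, h1⟩ := hF
  obtain ⟨⟨M', hM'⟩, h2⟩ := hG
  refine ⟨⟨M + M', fun y => (abs_add_le _ _).trans (add_le_add (hM y) (hM' y))⟩,
    (h1.union h2).subset fun y hy => ?_⟩
  by_contra h
  simp only [mem_union, mem_setOf_eq, not_or, not_not] at h
  exact hy (h.1.add h.2)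

lemma Nice.comp {F : UnitAddCircle → ℝ} (hF : Nice F) {φ : ℝ → ℝ} (hφ : Continuous φ) :
    Nice fun y => φ (F y) := by
  obtain ⟨⟨M, hM⟩, h1⟩ := hF
  obtain ⟨C, hC⟩ := (isCompact_Icc (a := -M) (b := M)).exists_bound_of_continuousOn hφ.continuousOn
  exact ⟨⟨C, fun y => hC _ (abs_le.1 (hM y))⟩, h1.subset fun y hy h => hy (hφ.continuousAt.comp h)⟩

lemma Nice.shift {F : UnitAddCircle → ℝ} (hF : Nice F) (a : UnitAddCircle) :
    Nice fun y => F (y + a) := by
  obtain ⟨⟨M, hM⟩, h1⟩ := hF
  refine ⟨⟨M, fun y => hM _⟩, (h1.preimage (add_left_injective a).injOn).subset fun y hy h => hy ?_⟩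
  exact ContinuousAt.comp (f := fun y => y + a) h (by fun_prop)

lemma Nice.sum {ι : Type*} (s : Finset ι) {F : ι → UnitAddCircle → ℝ} (h : ∀ i, Nice (F i)) :
    Nice fun y => ∑ i ∈ s, F i y := by
  classical
  induction s using Finset.induction_on with
  | empty => exact ⟨⟨0, by simp⟩, by simp [continuousAt_const]⟩
  | insert i s hi ih => simpa [Finset.sum_insert hi] using (h i).add ih

lemma Nice.weyl {F : UnitAddCircle → ℝ} (hF : Nice F) {θ : ℝ} (hθ : Irrational θ) (c : ℝ) :
    Av (fun n => F ((c + n * θ : ℝ) : UnitAddCircle)) (∫ x, F x) := by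
  haveI : IsProbabilityMeasure (volume : Measure UnitAddCircle) := ⟨UnitAddCircle.measure_univ⟩
  haveI : NullSingletonClass (volume : Measure UnitAddCircle) := ⟨fun y => by
    simpa using AddCircle.volume_closedBall (T := 1) (x := y) 0⟩
  obtain ⟨⟨M, hM⟩, hZ⟩ := hF
  have hM0 : 0 ≤ M := (abs_nonneg _).trans (hM 0)
  have hFi : Integrable F := Integrable.of_bound
    (measurable_of_countable_not_continuousAt hZ.countable).aestronglyMeasurable M (ae_of_all _ hM)
  refine Metric.tendsto_atTop.2 fun ε hε => ?_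
  set δ := ε / (4 * (M + 1)) with hδ
  have hδ0 : 0 < δ := by positivity
  have hδ1 : δ * (4 * (M + 1)) = ε := by rw [hδ]; field_simp
  obtain ⟨U, hZU, hU, hUv⟩ := Set.exists_isOpen_lt_of_lt _ (ENNReal.ofReal δ)
    (show volume {y | ¬ ContinuousAt F y} < ENNReal.ofReal δ by
      rw [hZ.measure_zero]; simpa)
  obtain ⟨K, hK, hZK, hKU⟩ := exists_compact_between hZ.isCompact hU hZU
  obtain ⟨ρ, h1, h0, -, hρ⟩ := exists_continuous_one_zero_of_isCompact hK hU.isClosed_compl
    (disjoint_compl_right_iff_subset.2 hKU)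
  have hρi : ∫ y, ρ y ≤ δ := by
    calc ∫ y, ρ y ≤ ∫ y, U.indicator (fun _ => (1 : ℝ)) y := by
          refine integral_mono (intg ρ.continuous) ((integrable_const _).indicator hU.measurableSet)
            fun y => ?_
          by_cases hy : y ∈ U
          · simpa [hy] using (hρ y).2
          · simp [hy, h0 hy]
      _ ≤ δ := by
          rw [integral_indicator hU.measurableSet]
          simpa [Measure.real] using ENNReal.toReal_le_of_le_ofReal hδ0.le hUv.le
  have hfc : Continuous fun y => F y * (1 - ρ y) := by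
    rw [continuous_iff_continuousAt]
    intro y
    by_cases hy : ContinuousAt F y
    · exact hy.mul (by fun_prop)
    · refine continuousAt_const.congr (f := fun _ => 0) ?_
      filter_upwards [mem_interior_iff_mem_nhds.1 (hZK hy)] with w hw
      simp [h1 hw]
  have hd : ∀ y, |F y - F y * (1 - ρ y)| ≤ M * ρ y := fun y => by
    rw [show F y - F y * (1 - ρ y) = F y * ρ y by ring, abs_mul, abs_of_nonneg (hρ y).1]
    exact mul_le_mul_of_nonneg_right (hM y) (hρ y).1
  have hI : |(∫ y, F y) - ∫ y, F y * (1 - ρ y)| ≤ M * δ := by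
    rw [← integral_sub hFi (intg hfc)]
    refine (abs_integral_le_integral_abs).trans ((integral_mono (hFi.sub (intg hfc)).abs
      ((intg ρ.continuous).const_mul M) hd).trans ?_)
    rw [integral_const_mul]; gcongr
  obtain ⟨N1, hN1⟩ := Metric.tendsto_atTop.1 (weylC hθ c ⟨_, hfc⟩) δ hδ0
  obtain ⟨N2, hN2⟩ := Metric.tendsto_atTop.1 (weylC hθ c ρ) δ hδ0
  refine ⟨max N1 N2, fun N hN => ?_⟩
  have a1 := hN1 N (le_of_max_le_left hN)
  have a2 := hN2 N (le_of_max_le_right hN)
  simp only [ContinuousMap.coe_mk, Real.dist_eq] at a1 a2 ⊢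
  have a3 : |(∑ n ∈ Finset.range N, F ((c + n * θ : ℝ) : UnitAddCircle)) / N -
      (∑ n ∈ Finset.range N, F ((c + n * θ : ℝ) : UnitAddCircle) *
        (1 - ρ ((c + n * θ : ℝ) : UnitAddCircle))) / N| ≤
      M * ((∑ n ∈ Finset.range N, ρ ((c + n * θ : ℝ) : UnitAddCircle)) / N) := by
    rw [← sub_div, ← Finset.sum_sub_distrib, abs_div, Nat.abs_cast, ← mul_div_assoc, Finset.mul_sum]
    gcongr
    exact (Finset.abs_sum_le_sum_abs _ _).trans (Finset.sum_le_sum fun n _ => hd _)
  have a4 : M * ((∑ n ∈ Finset.range N, ρ ((c + n * θ : ℝ) : UnitAddCircle)) / N) ≤ M * (2 * δ) :=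
    mul_le_mul_of_nonneg_left (by linarith [(abs_lt.1 a2).2]) hM0
  rw [abs_lt] at a1 ⊢
  rw [abs_le] at a3 hI
  constructor <;> nlinarith [a1.1, a1.2, a3.1, a3.2, hI.1, hI.2]

lemma one_side {y : ℕ → ℝ} (hm : Monotone y) (h1 : ∀ n, y (n + 1) - y n ≤ 1) {a : ℝ} (ha : 0 < a)
    (hy : Tendsto (fun N : ℕ => y N / N) atTop (𝓝 a)) :
    ∃ P : ℝ → ℕ, (∀ T n, y n ≤ T ↔ n < P T) ∧ ∀ v L, Av v L →
      Tendsto (fun T => (∑ n ∈ Finset.range (P T), v n) / T) atTop (𝓝 (L / a)) := by
  classical
  have hinf : Tendsto y atTop atTop :=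
    (hy.pos_mul_atTop ha tendsto_natCast_atTop_atTop).congr' (by
      filter_upwards [eventually_gt_atTop 0] with N hN
      have : (N : ℝ) ≠ 0 := by exact_mod_cast hN.ne'
      field_simp)
  have ex : ∀ T, ∃ n, T < y n := fun T => (hinf.eventually_gt_atTop T).exists
  have hP : ∀ T n, y n ≤ T ↔ n < Nat.find (ex T) := fun T n => by
    rw [Nat.lt_find_iff]
    exact ⟨fun h m hmn => not_lt.2 ((hm hmn).trans h), fun h => not_lt.1 (h n le_rfl)⟩
  refine ⟨fun T => Nat.find (ex T), hP, fun v L hv => ?_⟩
  have hPt : Tendsto (fun T => Nat.find (ex T)) atTop atTop :=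
    tendsto_atTop.2 fun n => (eventually_ge_atTop (y n)).mono fun T hT => ((hP T n).1 hT).le
  have hq : Tendsto (fun T => T / (Nat.find (ex T) : ℝ)) atTop (𝓝 a) := by
    have l1 := hy.comp hPt
    have l2 := l1.sub (tendsto_one_div_atTop_nhds_zero_nat.comp hPt)
    rw [sub_zero] at l2
    refine tendsto_of_tendsto_of_tendsto_of_le_of_le' l2 l1 ?_ (Eventually.of_forall fun T => ?_)
    · filter_upwards [eventually_ge_atTop (y 0)] with T hT
      have h0 := (hP T 0).1 hT
      obtain ⟨k, hk⟩ := Nat.exists_eq_succ_of_ne_zero h0.ne'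
      have h2 := (hP T k).2 (by omega)
      simp only [Function.comp_apply, ← sub_div]
      gcongr
      rw [hk]; linarith [h1 k]
    · simp only [Function.comp_apply]
      gcongr
      exact (Nat.find_spec (ex T)).le
  refine ((hv.comp hPt).div hq ha.ne').congr' ?_
  filter_upwards [hPt.eventually_gt_atTop 0] with T hT
  have : (Nat.find (ex T) : ℝ) ≠ 0 := by exact_mod_cast hT.ne'
  simp only [Pi.div_apply, Function.comp_apply]
  rw [div_div_div_cancel_right₀ this]

end H53.Df
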