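import Mathlib

namespace Pool.Agent.H53.DivBound

open Finset

/-- the divisor bound `τ(n) ≤ C n ^ δ` -/
theorem card_divisors_le (δ : ℝ) (hδ : 0 < δ) :
    ∃ C : ℝ, 0 < C ∧ ∀ n : ℕ, n ≠ 0 → (n.divisors.card : ℝ) ≤ C * (n : ℝ) ^ δ := by
  have hl : 0 < δ * Real.log 2 := mul_pos hδ (Real.log_pos (by norm_num))
  set K : ℝ := 1 + 1 / (δ * Real.log 2) with hK
  have hK1 : 1 ≤ K := by
    have : 0 < 1 / (δ * Real.log 2) := by positivity
    linarith
  obtain ⟨L, hL⟩ := exists_nat_ge ((2 : ℝ) ^ (δ⁻¹))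
  refine ⟨K ^ L, by positivity, fun n hn => ?_⟩
  rw [Nat.card_divisors hn]
  push_cast
  have h1 : ∀ p ∈ n.primeFactors, ((n.factorization p : ℝ) + 1) ≤
      (if p < L then K else 1) * ((p : ℝ) ^ n.factorization p) ^ δ := by
    intro p hp
    have hp2 : (2 : ℝ) ≤ p := by exact_mod_cast (Nat.prime_of_mem_primeFactors hp).two_le
    set k := n.factorization p
    split_ifs with h
    · have e1 : ((2 : ℝ) ^ k) ^ δ ≤ ((p : ℝ) ^ k) ^ δ :=
        Real.rpow_le_rpow (by positivity) (pow_le_pow_left₀ (by norm_num) hp2 k) hδ.le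
      have e2 : 1 + k * (δ * Real.log 2) ≤ ((2 : ℝ) ^ k) ^ δ := by
        rw [Real.rpow_def_of_pos (by positivity), Real.log_pow]
        have := Real.add_one_le_exp (k * Real.log 2 * δ)
        linarith
      have e3 : (k : ℝ) + 1 ≤ K * (1 + k * (δ * Real.log 2)) := by
        have : K * (1 + k * (δ * Real.log 2)) = K + k * (δ * Real.log 2) + k := by
          rw [hK]; field_simp; ring
        rw [this]
        have : 0 ≤ k * (δ * Real.log 2) := by positivity
        linarith
      exact e3.trans (mul_le_mul_of_nonneg_left (e2.trans e1) (by linarith))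
    · have e1 : (2 : ℝ) ≤ (p : ℝ) ^ δ := by
        have h2 : (2 : ℝ) ^ (δ⁻¹) ≤ p := hL.trans (by exact_mod_cast not_lt.mp h)
        have := Real.rpow_le_rpow (by positivity) h2 hδ.le
        rwa [Real.rpow_inv_rpow (by norm_num) hδ.ne'] at this
      rw [one_mul, ← Real.rpow_pow_comm (by positivity)]
      refine le_trans ?_ (pow_le_pow_left₀ (by norm_num) e1 k)
      exact_mod_cast Nat.lt_two_pow_self
  refine (Finset.prod_le_prod (fun _ _ => by positivity) h1).trans ?_
  rw [Finset.prod_mul_distrib, Real.finsetProd_rpow _ _ (fun _ _ => by positivity)]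
  have h2 : ∏ p ∈ n.primeFactors, (p : ℝ) ^ n.factorization p = n := by
    conv_rhs => rw [← Nat.factorization_prod_pow_eq_self hn]
    rw [Finsupp.prod, Nat.support_factorization]
    push_cast; rfl
  rw [h2]
  apply mul_le_mul_of_nonneg_right _ (by positivity)
  rw [Finset.prod_ite, Finset.prod_const, Finset.prod_const_one, mul_one]
  apply pow_le_pow_right₀ hK1
  calc _ ≤ (Finset.range L).card := Finset.card_le_card fun p hp => by
        simpa using (Finset.mem_filter.mp hp).2
    _ = L := Finset.card_range L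

/-- `∑ (∏ B) ^ (-s)` over multisets of integers `≥ 2` is bounded when `s > 1` -/
theorem multiset_sum_le (s : ℝ) (hs : 1 < s) : ∃ K : ℝ, ∀ T : Finset (Multiset ℕ),
    (∀ B ∈ T, ∀ a ∈ B, 2 ≤ a) → ∑ B ∈ T, (B.prod : ℝ) ^ (-s) ≤ K := by
  classical
  have hsum : Summable fun a : ℕ => (a : ℝ) ^ (-s) := Real.summable_nat_rpow.mpr (by linarith)
  refine ⟨Real.exp (2 * ∑' a : ℕ, (a : ℝ) ^ (-s)), fun T hT => ?_⟩
  let U : Finset ℕ := T.biUnion Multiset.toFinset
  let M : ℕ := T.sup Multiset.card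
  have hU : ∀ B ∈ T, B.toFinset ⊆ U := fun B hB => Finset.subset_biUnion_of_mem _ hB
  have hU2 : ∀ a ∈ U, 2 ≤ a := by
    intro a ha
    obtain ⟨B, hB, h⟩ := Finset.mem_biUnion.mp ha
    exact hT B hB a (Multiset.mem_toFinset.mp h)
  let φ : Multiset ℕ → (U → ℕ) := fun B a => B.count a.1
  let w : (U → ℕ) → ℝ := fun g => ∏ a : U, (((a : ℕ) : ℝ) ^ (-s)) ^ g a
  have hw : ∀ B ∈ T, (B.prod : ℝ) ^ (-s) = w (φ B) := by
    intro B hB
    rw [Finset.prod_multiset_count_of_subset B U (hU B hB)]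
    push_cast
    rw [← Real.finsetProd_rpow _ _ (fun _ _ => by positivity), ← Finset.prod_coe_sort U]
    refine Finset.prod_congr rfl fun a _ => ?_
    rw [Real.rpow_pow_comm (by positivity)]
  have hinj : Set.InjOn φ T := by
    intro B hB B' hB' h
    ext a
    by_cases ha : a ∈ U
    · exact congrFun h ⟨a, ha⟩
    · rw [Multiset.count_eq_zero.mpr fun h => ha (hU B hB (Multiset.mem_toFinset.mpr h)),
        Multiset.count_eq_zero.mpr fun h => ha (hU B' hB' (Multiset.mem_toFinset.mpr h))]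
  rw [Finset.sum_congr rfl hw, ← Finset.sum_image (f := w) hinj]
  have hsub : T.image φ ⊆ Fintype.piFinset fun _ : U => range (M + 1) := by
    intro g hg
    obtain ⟨B, hB, rfl⟩ := Finset.mem_image.mp hg
    rw [Fintype.mem_piFinset]
    intro a
    rw [mem_range, Nat.lt_succ_iff]
    exact (Multiset.count_le_card _ _).trans (Finset.le_sup (f := Multiset.card) hB)
  refine (Finset.sum_le_sum_of_subset_of_nonneg hsub fun g _ _ =>
    Finset.prod_nonneg fun a _ => by positivity).trans ?_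
  rw [← Finset.prod_univ_sum (fun _ : U => range (M + 1))
    (fun a k => (((a : ℕ) : ℝ) ^ (-s)) ^ k)]
  have h1 : ∀ a : U, ∑ k ∈ range (M + 1), (((a : ℕ) : ℝ) ^ (-s)) ^ k ≤
      Real.exp (2 * ((a : ℕ) : ℝ) ^ (-s)) := by
    intro a
    have h2 : (2 : ℝ) ≤ (a : ℕ) := by exact_mod_cast hU2 a a.2
    set x : ℝ := ((a : ℕ) : ℝ) ^ (-s) with hx
    have hx0 : 0 ≤ x := by positivity
    have hx1 : x ≤ 1 / 2 := by
      calc x ≤ ((a : ℕ) : ℝ) ^ (-1 : ℝ) :=
            Real.rpow_le_rpow_of_exponent_le (by linarith) (by linarith)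
        _ = 1 / (a : ℕ) := by rw [Real.rpow_neg_one, one_div]
        _ ≤ 1 / 2 := one_div_le_one_div_of_le (by norm_num) h2
    have h3 := (hasSum_geometric_of_lt_one hx0 (by linarith)).summable.sum_le_tsum (range (M + 1))
      (fun k _ => by positivity)
    rw [tsum_geometric_of_lt_one hx0 (by linarith)] at h3
    refine h3.trans (le_trans ?_ (Real.add_one_le_exp _))
    rw [inv_le_comm₀ (by linarith) (by linarith), inv_eq_one_div, div_le_iff₀ (by linarith)]
    nlinarith
  refine (Finset.prod_le_prod (fun a _ => Finset.sum_nonneg fun k _ => by positivity)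
    (fun a _ => h1 a)).trans ?_
  rw [← Real.exp_sum, Real.exp_le_exp, ← Finset.mul_sum,
    Finset.sum_coe_sort U (fun a => (a : ℝ) ^ (-s))]
  exact mul_le_mul_of_nonneg_left (hsum.sum_le_tsum U fun a _ => by positivity) (by norm_num)

end Pool.Agent.H53.DivBound
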