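import Mathlib

namespace Pool.Agent.H53.KmA

open Polynomial MeasureTheory Metric

lemma sep_pts (A : Set ℝ) (δ : ℝ) (hδ : 0 < δ) (j : ℕ)
    (h : ENNReal.ofReal (2 * j * δ) < volume A) :
    ∃ t : Finset ℝ, t.card = j + 1 ∧ (∀ a ∈ t, a ∈ A) ∧ ∀ a ∈ t, ∀ b ∈ t, a ≠ b → δ ≤ |a - b| := by
  induction j with
  | zero =>
    obtain ⟨a, ha⟩ := nonempty_of_measure_ne_zero (zero_le.trans_lt h).ne'
    exact ⟨{a}, by simp, by simpa, by simp⟩
  | succ j ih =>
    obtain ⟨t, t1, t2, t3⟩ := ih (lt_of_le_of_lt (ENNReal.ofReal_le_ofReal (by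
      push_cast; nlinarith)) h)
    have : ¬ A ⊆ ⋃ a ∈ t, ball a δ := fun hA => by
      refine h.not_ge ((measure_mono hA).trans ((measure_biUnion_finset_le _ _).trans ?_))
      simp only [Real.volume_ball, Finset.sum_const, t1, nsmul_eq_mul]
      rw [← ENNReal.ofReal_natCast, ← ENNReal.ofReal_mul (by positivity)]
      exact le_of_eq (by congr 1; ring)
    obtain ⟨x, x1, x2⟩ := Set.not_subset.mp this
    simp only [Set.mem_iUnion, mem_ball, not_exists, not_lt, Real.dist_eq] at x2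
    have x3 : x ∉ t := fun hx => by have := x2 x hx; simp at this; linarith
    refine ⟨insert x t, by rw [Finset.card_insert_of_notMem x3, t1], by simpa [x1] using t2, ?_⟩
    intro a ha b hb hab
    rcases Finset.mem_insert.mp ha with rfl | ha' <;> rcases Finset.mem_insert.mp hb with rfl | hb'
    · exact absurd rfl hab
    · exact x2 b hb'
    · rw [abs_sub_comm]; exact x2 a ha'
    · exact t3 a ha' b hb' hab

lemma good (d : ℕ) (f : ℝ[X]) (hf : f.natDegree ≤ d) (y r ε η : ℝ) (hr : 0 < r) (hη : 0 < η)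
    (hε : (d + 1) * ε < η ^ d) (z : ℝ) (hz : z ∈ closedBall y r) (h1 : 1 ≤ |f.eval z|) :
    volume {x ∈ closedBall y r | |f.eval x| < ε} ≤ ENNReal.ofReal (4 * d * η * r) := by
  by_contra! h
  obtain ⟨t, t1, t2, t3⟩ := sep_pts _ (2 * r * η) (by positivity) d
    (lt_of_eq_of_lt (by congr 1; ring) h)
  have e := congrArg (eval z) (Lagrange.eq_interpolate (s := t) (v := id) (f := f)
    Function.injective_id.injOn (degree_le_natDegree.trans_lt (by rw [t1]; exact_mod_cast by omega)))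
  rw [Lagrange.interpolate_apply, eval_finset_sum] at e
  have a1 : |f.eval z| ≤ t.card • (ε * η⁻¹ ^ d) := by
    rw [e]
    refine (Finset.abs_sum_le_sum_abs _ _).trans (Finset.sum_le_card_nsmul _ _ _ fun a ha => ?_)
    rw [eval_mul, eval_C, abs_mul]
    refine mul_le_mul (t2 a ha).2.le ?_ (abs_nonneg _) ((abs_nonneg _).trans (t2 a ha).2.le)
    simp only [Lagrange.basis, Lagrange.basisDivisor, eval_prod, Finset.abs_prod]
    refine (Finset.prod_le_prod (fun _ _ => abs_nonneg _) (g := fun _ => η⁻¹) fun b hb => ?_).trans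
      (by rw [Finset.prod_const, Finset.card_erase_of_mem ha, t1]; rfl)
    obtain ⟨b1, b2⟩ := Finset.mem_erase.mp hb
    have b3 := t3 a ha b b2 b1.symm
    have b4 := dist_triangle_right z b y
    have b5 : dist b y ≤ r := (t2 b b2).1
    have b6 : dist z y ≤ r := hz
    rw [Real.dist_eq] at b4
    simp only [eval_mul, eval_C, eval_sub, eval_X, id, abs_mul, abs_inv]
    rw [inv_mul_le_iff₀ (lt_of_lt_of_le (by positivity) b3), le_mul_inv_iff₀ hη]
    nlinarith
  rw [t1, nsmul_eq_mul, inv_pow, ← mul_assoc, ← div_eq_mul_inv, le_div_iff₀ (by positivity)] at a1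
  push_cast at a1
  nlinarith [pow_pos hη d]

lemma growth (d : ℕ) : ∃ M : ℝ, 1 ≤ M ∧ ∀ f : ℝ[X], f.natDegree ≤ d → ∀ y r : ℝ, 0 < r →
    (∀ x ∈ closedBall y r, |f.eval x| < 1) → ∀ z ∈ closedBall y (4 * r), |f.eval z| ≤ M := by
  refine ⟨(d + 1) * (16 * (d + 1)) ^ d, one_le_mul_of_one_le_of_one_le (by simp)
    (one_le_pow₀ (by linarith [(Nat.cast_nonneg d : (0 : ℝ) ≤ d)])), fun f hf y r hr h z hz => ?_⟩
  by_contra! hM
  have h0 : 0 < |f.eval z| := lt_trans (by positivity) hM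
  have := good d (C |f.eval z|⁻¹ * f) ((natDegree_C_mul_le _ _).trans hf) y (4 * r) |f.eval z|⁻¹
    (16 * (d + 1))⁻¹ (by positivity) (by positivity) (by
      rwa [inv_pow, ← div_eq_mul_inv, ← one_div, div_lt_div_iff₀ h0 (by positivity), one_mul]) z hz
    (by rw [eval_mul, eval_C, abs_mul, abs_inv, abs_abs, inv_mul_cancel₀ h0.ne'])
  have h2 := le_trans (measure_mono (s := closedBall y r) fun x hx => Set.mem_sep
    (closedBall_subset_closedBall (by linarith) hx) (by
      rw [eval_mul, eval_C, abs_mul, abs_inv, abs_abs]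
      exact mul_lt_of_lt_one_right (by positivity) (h x hx))) this
  rw [Real.volume_closedBall, ENNReal.ofReal_le_ofReal_iff (by positivity)] at h2
  have h3 : 4 * (d : ℝ) * (16 * (d + 1 : ℝ))⁻¹ ≤ 1 / 4 := by
    rw [← div_eq_mul_inv, div_le_iff₀ (by positivity)]; linarith
  nlinarith

/-- marked points -/
def Marked {ι : Type} (ψ : ι → ℝ[X]) (R : ι → ι → Prop) (ε M : ℝ) (S : Set ι) (x : ℝ) : Prop :=
  ∃ T : Finset ι, ↑T ⊆ S ∧ (T : Set ι).Pairwise R ∧
    (∀ s ∈ T, ε ≤ |(ψ s).eval x| ∧ |(ψ s).eval x| ≤ M) ∧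
    ∀ s ∈ S, s ∉ T → (∀ t ∈ T, R s t) → 1 ≤ |(ψ s).eval x|

lemma absKM (d k : ℕ) : ∃ M c : ℝ, 1 ≤ M ∧ 0 ≤ c ∧ ∀ {ι : Type} (ψ : ι → ℝ[X]) (R : ι → ι → Prop)
    (ε η : ℝ), (∀ s, (ψ s).natDegree ≤ d) → (∀ s t, R s t → R t s) → 0 < η →
    (d + 1) * ε < η ^ d → ∀ (S : Set ι) (y r : ℝ), 0 < r →
    (∀ T : Finset ι, ↑T ⊆ S → (T : Set ι).Pairwise R → T.card ≤ k) →
    (∀ s ∈ S, ∃ z ∈ closedBall y r, 1 ≤ |(ψ s).eval z|) →
    volume {x ∈ closedBall y r | ¬ Marked ψ R ε M S x} ≤ ENNReal.ofReal (c * η * r) := by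
  classical
  obtain ⟨M, hM, hG⟩ := growth d
  refine ⟨M, ?_⟩
  simp only [hM, true_and]
  induction k with
  | zero =>
    refine ⟨0, le_rfl, fun ψ R ε η _ _ _ _ S y r _ h _ => ?_⟩
    exact (measure_mono_null (t := ∅) (fun x hx => hx.2 ⟨∅, by simp, by simp, by simp,
      fun s hs => by simpa using h {s} (by simpa) (by simp)⟩) measure_empty).trans_le zero_le
  | succ k ih =>
    obtain ⟨c, hc, ih⟩ := ih
    refine ⟨12 * (c + 4 * d), by positivity, fun {ι} ψ R ε η hd hR hη hε S y r hr hk hS => ?_⟩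
    let E := {x ∈ closedBall y r | ∃ s ∈ S, |(ψ s).eval x| < 1}
    have h1 : ∀ x ∈ E, ∃ s ∈ S, ∃ ρ, 0 < ρ ∧ ρ ≤ 2 * r ∧ (∀ z ∈ closedBall x ρ, |(ψ s).eval z| < 1) ∧
        ∀ s' ∈ S, ∃ z ∈ closedBall x (4 * ρ), 1 ≤ |(ψ s').eval z| := by
      rintro x ⟨x1, s, hs, x2⟩
      let A := {ρ : ℝ | 0 < ρ ∧ ∃ s ∈ S, ∀ z ∈ closedBall x ρ, |(ψ s).eval z| < 1}
      have a1 : ∀ ρ ∈ A, ρ ≤ 2 * r := by
        rintro ρ ⟨-, s, hs, h⟩
        obtain ⟨z, z1, z2⟩ := hS s hs
        by_contra! h'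
        refine z2.not_gt (h z ?_)
        have := dist_triangle_right z x y
        rw [mem_closedBall] at *
        linarith
      obtain ⟨ρ0, b1, b2⟩ := nhds_basis_closedBall.mem_iff.mp
        ((isOpen_lt (ψ s).continuous.abs continuous_const).mem_nhds x2)
      have a2 : ρ0 ∈ A := ⟨b1, s, hs, fun z hz => b2 hz⟩
      have a3 := le_csSup ⟨_, a1⟩ a2
      obtain ⟨ρ, ⟨r1, t, ht, r2⟩, r3⟩ := exists_lt_of_lt_csSup ⟨_, a2⟩
        (show sSup A / 2 < sSup A by linarith)
      refine ⟨t, ht, ρ, r1, a1 ρ ⟨r1, t, ht, r2⟩, r2, fun s' hs' => ?_⟩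
      by_contra! h
      have := le_csSup ⟨_, a1⟩ (show 4 * ρ ∈ A from ⟨by linarith, s', hs', h⟩)
      linarith
    rcases isEmpty_or_nonempty ι with hι | hι
    · exact (measure_mono_null (t := ∅) (fun x hx => hx.2 ⟨∅, by simp, by simp, by simp,
        fun s => isEmptyElim s⟩) measure_empty).trans_le zero_le
    choose! s hs ρ r1 r2 r3 r4 using h1
    obtain ⟨u, u1, u2, u3⟩ := Vitali.exists_disjoint_subfamily_covering_enlargement_closedBall
      E id ρ _ r2 4 (by norm_num)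
    have u4 : u.Countable := u2.countable_of_nonempty_interior fun b hb =>
      ⟨b, mem_interior_iff_mem_nhds.mpr (closedBall_mem_nhds _ (r1 b (u1 hb)))⟩
    refine (measure_mono (t := ⋃ b ∈ u, {x ∈ closedBall b (4 * ρ b) |
      ¬ Marked ψ R ε M {t ∈ S | t ≠ s b ∧ R t (s b)} x} ∪
      {x ∈ closedBall b (4 * ρ b) | |(ψ (s b)).eval x| < ε}) ?_).trans ?_
    · rintro x ⟨x1, x2⟩
      have x3 : x ∈ E := by
        refine ⟨x1, ?_⟩
        by_contra! h
        exact x2 ⟨∅, by simp, by simp, by simp, fun s hs _ _ => h s hs⟩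
      obtain ⟨b, b1, b2⟩ := u3 x x3
      have x4 : x ∈ closedBall b (4 * ρ b) := b2 (mem_closedBall_self (r1 x x3).le)
      refine Set.mem_biUnion b1 ?_
      by_contra h
      simp only [Set.mem_union, Set.mem_setOf_eq, x4, true_and, not_or, not_not, not_lt] at h
      obtain ⟨⟨T, t1, t2, t3, t4⟩, h⟩ := h
      refine x2 ⟨insert (s b) T, ?_, ?_, ?_, fun t ht h1 h2 => ?_⟩
      · rw [Finset.coe_insert]
        exact Set.insert_subset (hs b (u1 b1)) fun t ht => (t1 ht).1
      · rw [Finset.coe_insert]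
        exact t2.insert fun t ht _ => ⟨hR _ _ (t1 ht).2.2, (t1 ht).2.2⟩
      · intro t ht
        rcases Finset.mem_insert.mp ht with rfl | ht
        · exact ⟨h, hG _ (hd _) _ _ (r1 b (u1 b1)) (r3 b (u1 b1)) x x4⟩
        · exact t3 t ht
      · rw [Finset.mem_insert, not_or] at h1
        exact t4 t ⟨ht, h1.1, h2 _ (Finset.mem_insert_self _ _)⟩ h1.2
          fun t' ht' => h2 _ (Finset.mem_insert_of_mem ht')
    refine (measure_biUnion_le _ u4 _).trans ((ENNReal.tsum_le_tsum (g := fun b : u =>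
      ENNReal.ofReal (2 * (c + 4 * d) * η) * volume (closedBall b.1 (ρ b))) fun b => ?_).trans ?_)
    · have hb := u1 b.2
      have a0 := r1 b hb
      obtain ⟨z, z1, z2⟩ := r4 b hb _ (hs b hb)
      refine (measure_union_le _ _).trans ((add_le_add (ih ψ R ε η hd hR hη hε _ _ _ (by linarith)
        (fun T t1 t2 => ?_) fun t ht => r4 b hb t ht.1)
        (good d _ (hd _) _ _ ε η (by linarith) hη hε z z1 z2)).trans ?_)
      · have t3 : s b ∉ T := fun h => (t1 h).2.1 rfl
        have := hk (insert (s b) T) (by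
          rw [Finset.coe_insert]
          exact Set.insert_subset (hs b hb) fun t ht => (t1 ht).1) (by
          rw [Finset.coe_insert]
          exact t2.insert fun t ht _ => ⟨hR _ _ (t1 ht).2.2, (t1 ht).2.2⟩)
        rw [Finset.card_insert_of_notMem t3] at this
        omega
      · rw [Real.volume_closedBall, ← ENNReal.ofReal_add (by positivity) (by positivity),
          ← ENNReal.ofReal_mul (by positivity)]
        exact le_of_eq (by congr 1; ring)
    · rw [ENNReal.tsum_mul_left, ← measure_biUnion (f := fun b => closedBall b (ρ b)) u4 u2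
        fun _ _ => measurableSet_closedBall]
      refine (mul_le_mul_right (measure_mono (t := closedBall y (3 * r)) ?_) _).trans ?_
      · refine Set.iUnion₂_subset fun b hb => closedBall_subset_closedBall' ?_
        have : dist b y ≤ r := (u1 hb).1
        linarith [r2 b (u1 hb)]
      · rw [Real.volume_closedBall, ← ENNReal.ofReal_mul (by positivity)]
        exact le_of_eq (by congr 1; ring)

end Pool.Agent.H53.KmA
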