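import Mathlib
import Pool.Agent.H53.KmA

namespace Pool.Agent.H53.KmB

open Polynomial MeasureTheory Metric Module Submodule Pool.Agent.H53.KmA

variable {V : Type} [AddCommGroup V] [Module.Free ℤ V] [Module.Finite ℤ V]

/-- saturated submodules -/
def Sat (W : Submodule ℤ V) : Prop := ∀ c : ℤ, c ≠ 0 → ∀ v, c • v ∈ W → v ∈ W

/-- saturation -/
def sat (W : Submodule ℤ V) : Submodule ℤ V where
  carrier := {v | ∃ c : ℤ, c ≠ 0 ∧ c • v ∈ W}
  add_mem' := by
    rintro a b ⟨c, h1, h2⟩ ⟨d, h3, h4⟩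
    refine ⟨c * d, mul_ne_zero h1 h3, ?_⟩
    rw [smul_add, mul_smul c d b, mul_comm, mul_smul]
    exact W.add_mem (W.smul_mem _ h2) (W.smul_mem _ h4)
  zero_mem' := ⟨1, one_ne_zero, by simp⟩
  smul_mem' := by
    rintro a b ⟨c, h1, h2⟩
    exact ⟨c, h1, by rw [smul_comm]; exact W.smul_mem _ h2⟩

/-- a basis of a submodule -/
noncomputable def bs (W : Submodule ℤ V) : Fin (finrank ℤ W) → V := fun i => finBasis ℤ W i

lemma bs_li (W : Submodule ℤ V) : LinearIndependent ℤ (bs W) :=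
  (finBasis ℤ W).linearIndependent.map' W.subtype (ker_subtype W)

lemma bs_span (W : Submodule ℤ V) : span ℤ (Set.range (bs W)) = W := by
  rw [show bs W = W.subtype ∘ finBasis ℤ W from rfl, Set.range_comp, ← map_span, Basis.span_eq,
    map_subtype_top]

lemma card_le {k : ℕ} {u : Fin k → V} (hu : LinearIndependent ℤ u) {W : Submodule ℤ V}
    (h : ∀ i, u i ∈ W) : k ≤ finrank ℤ W := by
  simpa using (LinearIndependent.of_comp W.subtype (v := fun i => (⟨u i, h i⟩ : W))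
    hu).fintype_card_le_finrank

lemma cons_li {W : Submodule ℤ V} (hW : Sat W) {v : V} (hv : v ∉ W) :
    LinearIndependent ℤ (Fin.cons v (bs W) : Fin (finrank ℤ W + 1) → V) := by
  refine (bs_li W).finCons' v _ fun c y hy h => ?_
  by_contra h0
  rw [bs_span] at hy
  exact hv (hW c h0 v (by rw [eq_neg_of_add_eq_zero_left h]; exact W.neg_mem hy))

lemma eq_of_le {W W' : Submodule ℤ V} (hW : Sat W) (h : W ≤ W') (h' : finrank ℤ W' ≤ finrank ℤ W) :
    W = W' := by
  refine le_antisymm h fun v hv => by_contra fun hv' => ?_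
  have := card_le (cons_li hW hv') (W := W') (Fin.cases hv fun i => h (finBasis ℤ W i).2)
  omega

lemma rank_sat {k : ℕ} {u : Fin k → V} (hu : LinearIndependent ℤ u) :
    k = finrank ℤ (sat (span ℤ (Set.range u))) := by
  refine le_antisymm (card_le hu fun i => ⟨1, one_ne_zero, by
    simpa using subset_span (Set.mem_range_self i)⟩) ?_
  choose c h1 h2 using fun i => (finBasis ℤ (sat (span ℤ (Set.range u))) i).2
  refine (card_le (Fintype.linearIndependent_iff.mpr fun g hg i => ?_) h2).trans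
    (by rw [finrank_span_eq_card hu, Fintype.card_fin])
  simp only [← mul_smul] at hg
  exact (mul_eq_zero.mp (Fintype.linearIndependent_iff.mp (bs_li _) _ hg i)).resolve_right (h1 i)

variable {J : Type} [Fintype J] [DecidableEq J]

/-- sum of the squares of the maximal minors -/
noncomputable def Psi (L : V →ₗ[ℤ] J → ℝ[X]) {k : ℕ} (b : Fin k → V) : ℝ[X] :=
  ∑ I : Fin k → J, (Matrix.of fun i j => L (b i) (I j)).det ^ 2

lemma Psi_eval (L : V →ₗ[ℤ] J → ℝ[X]) {k : ℕ} (b : Fin k → V) (x : ℝ) : (Psi L b).eval x =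
    ∑ I : Fin k → J, (Matrix.of fun i j => (L (b i) (I j)).eval x).det ^ 2 := by
  rw [Psi, eval_finset_sum]
  refine Finset.sum_congr rfl fun I _ => ?_
  rw [eval_pow, ← coe_evalRingHom, RingHom.map_det]
  rfl

lemma Psi_nonneg (L : V →ₗ[ℤ] J → ℝ[X]) {k : ℕ} (b : Fin k → V) (x : ℝ) : 0 ≤ (Psi L b).eval x := by
  rw [Psi_eval]; positivity

lemma le_Psi (L : V →ₗ[ℤ] J → ℝ[X]) {k : ℕ} (b : Fin k → V) (x : ℝ) (I : Fin k → J) :
    (Matrix.of fun i j => (L (b i) (I j)).eval x).det ^ 2 ≤ (Psi L b).eval x := by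
  rw [Psi_eval]
  exact Finset.single_le_sum (f := fun I : Fin k → J =>
    (Matrix.of fun i j => (L (b i) (I j)).eval x).det ^ 2) (fun _ _ => sq_nonneg _)
    (Finset.mem_univ I)

lemma det_deg {k e : ℕ} (A : Matrix (Fin k) (Fin k) ℝ[X]) (h : ∀ i j, (A i j).natDegree ≤ e) :
    A.det.natDegree ≤ k * e := by
  rw [Matrix.det_apply]
  refine natDegree_sum_le_of_forall_le _ _ fun σ _ => (natDegree_smul_le _ _).trans
    ((natDegree_prod_le _ _).trans ((Finset.sum_le_card_nsmul _ _ e fun i _ => h _ _).trans (by simp)))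

lemma Psi_deg (L : V →ₗ[ℤ] J → ℝ[X]) {k e : ℕ} (b : Fin k → V) (h : ∀ v j, (L v j).natDegree ≤ e) :
    (Psi L b).natDegree ≤ 2 * (k * e) :=
  natDegree_sum_le_of_forall_le _ _ fun _ _ => natDegree_pow_le.trans
    (Nat.mul_le_mul_left _ (det_deg _ fun _ _ => h _ _))

lemma Psi_mono (L : V →ₗ[ℤ] J → ℝ[X]) {k : ℕ} {u : Fin k → V} (hu : LinearIndependent ℤ u)
    (W : Submodule ℤ V) (h : ∀ i, u i ∈ W) (hk : k = finrank ℤ W) (x : ℝ) :
    (Psi L (bs W)).eval x ≤ (Psi L u).eval x := by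
  subst hk
  choose U hU using fun i => (mem_span_range_iff_exists_fun ℤ).mp ((bs_span W).symm ▸ h i)
  have h0 : (Matrix.of U).det ≠ 0 := fun h0 => by
    obtain ⟨g, g1, g2⟩ := Matrix.exists_vecMul_eq_zero_iff.mpr h0
    refine g1 (funext (Fintype.linearIndependent_iff.mp hu g ?_))
    simp only [← hU, Finset.smul_sum, ← mul_smul]
    rw [Finset.sum_comm]
    refine Finset.sum_eq_zero fun j _ => ?_
    rw [← Finset.sum_smul, show ∑ i, g i * U i j = 0 from congrFun g2 j, zero_smul]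
  have h1 : (1 : ℝ) ≤ ((Matrix.of U).det : ℝ) ^ 2 := by
    rw [one_le_sq_iff_one_le_abs]; exact_mod_cast Int.one_le_abs h0
  rw [Psi_eval, Psi_eval]
  refine Finset.sum_le_sum fun I _ => ?_
  have : (Matrix.of fun i j => (L (u i) (I j)).eval x) = (Matrix.of U).map (Int.castRingHom ℝ) *
      Matrix.of fun i j => (L (bs W i) (I j)).eval x := by
    ext i j
    simp [Matrix.mul_apply, ← hU, eval_finset_sum]
  rw [this, Matrix.det_mul, ← RingHom.mapMatrix_apply, ← RingHom.map_det, mul_pow]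
  exact le_mul_of_one_le_left (sq_nonneg _) h1

lemma Psi_cons (L : V →ₗ[ℤ] J → ℝ[X]) {k : ℕ} (b : Fin k → V) (v : V) (x σ : ℝ) (hσ : 0 ≤ σ)
    (h : ∀ j, |(L v j).eval x| ≤ σ) : (Psi L (Fin.cons v b : Fin (k + 1) → V)).eval x ≤
      Fintype.card J ^ (k + 1) * ((k + 1) ^ 2 * σ ^ 2 * (Psi L b).eval x) := by
  rw [Psi_eval]
  refine (Finset.sum_le_card_nsmul _ _ _ fun I _ => ?_).trans (by simp; rfl)
  rw [← Real.sq_sqrt (Psi_nonneg L b x), ← mul_pow, ← mul_pow, sq_le_sq, Matrix.det_succ_row_zero]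
  refine (Finset.abs_sum_le_sum_abs _ _).trans ((Finset.sum_le_card_nsmul _ _
    (σ * √((Psi L b).eval x)) fun j _ => ?_).trans (le_trans (by simp [mul_assoc])
    (le_abs_self _)))
  rw [abs_mul, abs_mul, abs_neg_one_pow, one_mul]
  exact mul_le_mul (h _) (Real.abs_le_sqrt (le_Psi L b x (I ∘ j.succAbove))) (abs_nonneg _) hσ

variable (V J) in
lemma latKM [Nonempty J] (e : ℕ) : ∃ (d : ℕ) (K c : ℝ), 0 ≤ c ∧ ∀ (L : V →ₗ[ℤ] J → ℝ[X]) (T : Set V)
    (y r η σ : ℝ), (∀ v j, (L v j).natDegree ≤ e) → 0 ∉ T → 0 < r → 0 < η → η ≤ 1 → 0 ≤ σ →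
    K * σ ^ 2 < η ^ d → (∀ (k : ℕ) (b : Fin k → V), LinearIndependent ℤ b →
      (∃ v ∈ T, v ∈ span ℤ (Set.range b)) → ∃ z ∈ closedBall y r, ∃ I : Fin k → J,
        1 ≤ |(Matrix.of fun i j => (L (b i) (I j)).eval z).det|) →
    volume {x ∈ closedBall y r | ∃ v ∈ T, ∀ j, |(L v j).eval x| ≤ σ} ≤
      ENNReal.ofReal (c * η * r) := by
  classical
  set m := finrank ℤ V
  obtain ⟨M, c, hM, hc, h⟩ := absKM (2 * (m * e)) (m + 1)
  refine ⟨2 * (m * e), ((2 * (m * e) : ℕ) + 2) * (Fintype.card J ^ m * (m ^ 2 * M)), c, hc,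
    fun L T y r η σ hL hT hr hη hη1 hσ hK hyp => ?_⟩
  set d := 2 * (m * e)
  have hd : η ^ d ≤ 1 := pow_le_one₀ hη.le hη1
  refine le_trans (measure_mono ?_) (h (fun W => Psi L (bs W)) (fun W W' => W ≤ W' ∨ W' ≤ W)
    (η ^ d / (d + 2)) η (fun W => (Psi_deg L _ hL).trans (Nat.mul_le_mul_left _
      (Nat.mul_le_mul_right _ W.finrank_le))) (fun _ _ => Or.symm) hη (by
      rw [mul_div_assoc', div_lt_iff₀ (by positivity)]; nlinarith [pow_pos hη d])
    {W | Sat W ∧ ∃ v ∈ T, v ∈ W} y r hr (fun C c1 c2 => ?_) fun W hW => ?_)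
  · rintro x ⟨x1, v, v1, v2⟩
    refine ⟨x1, ?_⟩
    rintro ⟨C, c1, c2, c3, c4⟩
    have c5 : ∀ W ∈ C, ∀ W' ∈ C, W ≤ W' ∨ W' ≤ W := fun W hW W' hW' => by
      by_cases h : W = W'
      · exact .inl h.le
      · exact c2 hW hW' h
    obtain ⟨W, w1, w2, w3, w4⟩ : ∃ W : Submodule ℤ V, Sat W ∧ v ∉ W ∧ (Psi L (bs W)).eval x ≤ M ∧
        ∀ W' ∈ C, (v ∉ W' → W' ≤ W) ∧ (v ∈ W' → W ≤ W') := by
      rcases (C.filter (v ∉ ·)).eq_empty_or_nonempty with h0 | h0
      · refine ⟨⊥, fun c h1 u h2 => (smul_eq_zero.mp h2).resolve_left h1, fun h => hT (h ▸ v1),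
          le_trans ?_ hM, fun W' hW' => ⟨fun h => absurd h (Finset.filter_eq_empty_iff.mp h0 hW'),
          fun _ => bot_le⟩⟩
        refine (Psi_mono L (k := 0) (u := Fin.elim0) linearIndependent_empty_type ⊥
          (fun i => i.elim0) (finrank_bot _ _).symm x).trans (by simp [Psi_eval])
      · obtain ⟨W, hW⟩ := Finset.exists_maximal h0
        obtain ⟨a1, a2⟩ := Finset.mem_filter.mp hW.1
        exact ⟨W, (c1 a1).1, a2, (le_abs_self _).trans (c3 W a1).2, fun W' hW' => ⟨fun h =>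
          (c5 W' hW' W a1).elim id (hW.2 (Finset.mem_filter.mpr ⟨hW', h⟩)), fun h =>
          (c5 W a1 W' hW').resolve_right fun h' => a2 (h' h)⟩⟩
    have u1 := cons_li w1 w2
    set u : Fin (finrank ℤ W + 1) → V := Fin.cons v (bs W) with hu
    have u2 : ∀ i, u i ∈ sat (span ℤ (Set.range u)) := fun i => ⟨1, one_ne_zero, by
      simpa using subset_span (Set.mem_range_self i)⟩
    have u3 : W ≤ sat (span ℤ (Set.range u)) := by
      conv_lhs => rw [← bs_span W]
      exact span_le.mpr (Set.range_subset_iff.mpr fun i => u2 i.succ)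
    have u4 := (Psi_mono L u1 _ u2 (rank_sat u1) x).trans (Psi_cons L _ v x σ hσ v2)
    have u5 : η ^ d / (d + 2) ≤ |(Psi L (bs (sat (span ℤ (Set.range u))))).eval x| := by
      by_cases hC : sat (span ℤ (Set.range u)) ∈ C
      · exact (c3 _ hC).1
      · refine le_trans ((div_le_one (by positivity)).mpr (by linarith [(d.cast_nonneg : (0 : ℝ) ≤ d)]))
          (c4 _ ⟨?_, v, v1, u2 0⟩ hC fun W' hW' => ?_)
        · rintro a ha w ⟨b, hb, h⟩
          exact ⟨b * a, mul_ne_zero hb ha, by rwa [mul_smul]⟩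
        · by_cases hv : v ∈ W'
          · refine .inl ?_
            rintro w ⟨b, hb, h⟩
            refine (c1 hW').1 b hb w (span_le.mpr (Set.range_subset_iff.mpr ?_) h)
            exact Fin.cases hv fun i => (w4 W' hW').2 hv (finBasis ℤ W i).2
          · exact .inr (((w4 W' hW').1 hv).trans u3)
    rw [abs_of_nonneg (Psi_nonneg _ _ _), div_le_iff₀ (by positivity)] at u5
    have u6 : finrank ℤ W + 1 ≤ m := by simpa using u1.fintype_card_le_finrank
    have u7 : (Fintype.card J : ℝ) ^ (finrank ℤ W + 1) * ((finrank ℤ W + 1) ^ 2 * σ ^ 2 *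
        (Psi L (bs W)).eval x) ≤ Fintype.card J ^ m * (m ^ 2 * σ ^ 2 * M) := by
      have := Psi_nonneg L (bs W) x
      gcongr
      · exact_mod_cast Fintype.card_pos
      · exact_mod_cast u6
    have := mul_le_mul_of_nonneg_right (u4.trans u7) (show (0 : ℝ) ≤ d + 2 by positivity)
    linarith
  · rw [← Finset.card_range (m + 1)]
    refine Finset.card_le_card_of_injOn (fun W => finrank ℤ W) (fun W _ => by
      simpa using Nat.lt_succ_of_le W.finrank_le) fun W hW W' hW' h => by_contra fun h' => ?_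
    rcases c2 hW hW' h' with h1 | h1
    · exact h' (eq_of_le (c1 hW).1 h1 h.ge)
    · exact h' (eq_of_le (c1 hW').1 h1 h.le).symm
  · obtain ⟨z, z1, I, z2⟩ := hyp _ _ (bs_li W) (by rw [bs_span]; exact hW.2)
    exact ⟨z, z1, ((one_le_sq_iff_one_le_abs _).mpr z2).trans ((le_Psi L _ z I).trans
      (le_abs_self _))⟩

end Pool.Agent.H53.KmB
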