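import Mathlib

namespace Pool.Agent.H53.KmC

open Polynomial MeasureTheory Metric Module Matrix

lemma maxminor {k : ℕ} {J : Type} [Fintype J] [Nonempty J] (M : Matrix (Fin k) J ℝ) :
    ∃ I0 : Fin k → J, (∀ I, |(M.submatrix id I).det| ≤ |(M.submatrix id I0).det|) ∧
      ((M.submatrix id I0).det ≠ 0 → ∃ N : Matrix (Fin k) J ℝ, M = M.submatrix id I0 * N ∧
        (∀ i l, |N i l| ≤ 1) ∧ N.submatrix id I0 = 1) := by
  classical
  obtain ⟨I0, -, h⟩ := Finset.exists_max_image Finset.univ
    (fun I : Fin k → J => |(M.submatrix id I).det|) Finset.univ_nonempty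
  refine ⟨I0, fun I => h I (Finset.mem_univ _), fun h0 => ⟨(M.submatrix id I0)⁻¹ * M,
    (mul_nonsing_inv_cancel_left _ _ h0.isUnit).symm, fun i l => ?_, nonsing_inv_mul _ h0.isUnit⟩⟩
  have e := congrFun (det_smul_inv_mulVec_eq_cramer (M.submatrix id I0) (M.col l) h0.isUnit) i
  have e2 : (M.submatrix id I0).updateCol i (M.col l) = M.submatrix id (Function.update I0 i l) := by
    ext a b
    by_cases hb : b = i <;> simp [updateCol_apply, hb]
  rw [cramer_apply, e2] at e
  have := h (Function.update I0 i l) (Finset.mem_univ _)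
  rw [← e, Pi.smul_apply, smul_eq_mul, abs_mul] at this
  exact (mul_le_iff_le_one_right (abs_pos.mpr h0)).mp this

lemma minor_ne {k : ℕ} {J : Type} [Fintype J] (M : Matrix (Fin k) J ℝ)
    (h : LinearIndependent ℝ M.row) : ∃ I : Fin k → J, (M.submatrix id I).det ≠ 0 := by
  obtain ⟨κ, a, a1, a2, a3⟩ := exists_linearIndependent' ℝ M.col
  haveI := Fintype.ofInjective a a1
  have h1 := h.rank_matrix
  rw [rank_eq_finrank_span_cols, ← a2, finrank_span_eq_card a3] at h1
  let e := Fintype.equivOfCardEq h1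
  exact ⟨a ∘ e.symm, ((isUnit_iff_isUnit_det _).mp (linearIndependent_cols_iff_isUnit.mp
    (a3.comp _ e.symm.injective))).ne_zero⟩

lemma mink {k : ℕ} {J : Type} [Fintype J] [Nonempty J] (M : Matrix (Fin k) J ℝ)
    (h : LinearIndependent ℝ M.row) (σ : ℝ) (hσ : 0 < σ)
    (h1 : ∀ I, |(M.submatrix id I).det| < σ ^ k) :
    ∃ u : Fin k → ℤ, u ≠ 0 ∧ ∀ l, |∑ i, u i * M i l| ≤ k * σ := by
  classical
  obtain ⟨I0, h2, h3⟩ := maxminor M
  obtain ⟨I1, h4⟩ := minor_ne M h
  have h5 : (M.submatrix id I0).det ≠ 0 := abs_pos.mp ((abs_pos.mpr h4).trans_le (h2 I1))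
  obtain ⟨N, n1, n2, -⟩ := h3 h5
  let b := basisOfPiSpaceOfLinearIndependent (linearIndependent_rows_of_det_ne_zero h5)
  have hb : ⇑b = (M.submatrix id I0).row := coe_basisOfPiSpaceOfLinearIndependent _
  haveI : Countable (Submodule.span ℤ (Set.range b)).toAddSubgroup :=
    inferInstanceAs (Countable (Submodule.span ℤ (Set.range b)))
  obtain ⟨⟨x, x1⟩, x2, x3⟩ := exists_ne_zero_mem_lattice_of_measure_mul_two_pow_lt_measure
    (ZSpan.isAddFundamentalDomain' b volume) (s := closedBall 0 σ) (by simp) (convex_closedBall _ _)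
    (by
      rw [ZSpan.volume_fundamentalDomain, Real.volume_pi_closedBall _ hσ.le, finrank_fin_fun,
        Fintype.card_fin, ← ENNReal.ofReal_ofNat, ← ENNReal.ofReal_pow (by norm_num),
        ← ENNReal.ofReal_mul (abs_nonneg _), ENNReal.ofReal_lt_ofReal_iff (by positivity), mul_pow,
        mul_comm, hb]
      exact mul_lt_mul_of_pos_left (h1 I0) (by positivity))
  obtain ⟨u, rfl⟩ := (Submodule.mem_span_range_iff_exists_fun ℤ).mp x1
  refine ⟨u, fun h => x2 (by ext; simp [h]), fun l => ?_⟩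
  have e : ∑ i, u i * M i l = ∑ j, (∑ i, u i • b i) j * N j l := by
    conv_lhs => rw [n1]
    simp only [mul_apply, Finset.mul_sum, Finset.sum_apply, Finset.sum_mul, hb]
    rw [Finset.sum_comm]
    simp [mul_assoc]
  rw [e]
  refine (Finset.abs_sum_le_sum_abs _ _).trans ((Finset.sum_le_card_nsmul _ _ σ fun j _ => ?_).trans
    (by simp))
  rw [abs_mul]
  exact (mul_le_of_le_one_right (abs_nonneg _) (n2 j l)).trans
    ((norm_le_pi_norm _ j).trans (mem_closedBall_zero_iff.mp x3))

lemma wr_deg {a c : ℝ[X]} (ha : a ≠ 0) (hc : c ≠ 0) (h : derivative a * c = a * derivative c) :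
    a.natDegree = c.natDegree := by
  have h1 : ∀ (p : ℝ[X]) i, (X * derivative p).coeff i = i * p.coeff i := fun p i => by
    cases i <;> simp [coeff_derivative, mul_comm]
  have h2 : ∀ p : ℝ[X], (X * derivative p).natDegree ≤ p.natDegree := fun p =>
    natDegree_le_iff_coeff_eq_zero.mpr fun i hi => by
      rw [h1, coeff_eq_zero_of_natDegree_lt hi, mul_zero]
  have h3 : X * derivative a * c = a * (X * derivative c) := by linear_combination X * h
  have h4 := congrArg (coeff · (a.natDegree + c.natDegree)) h3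
  simp only [coeff_mul_add_eq_of_natDegree_le (h2 a) le_rfl,
    coeff_mul_add_eq_of_natDegree_le le_rfl (h2 c), h1, coeff_natDegree] at h4
  have h5 : (a.natDegree - c.natDegree : ℝ) * (a.leadingCoeff * c.leadingCoeff) = 0 := by
    linear_combination h4
  exact_mod_cast sub_eq_zero.mp ((mul_eq_zero.mp h5).resolve_right
    (mul_ne_zero (leadingCoeff_ne_zero.mpr ha) (leadingCoeff_ne_zero.mpr hc)))

lemma wr_prop {a c : ℝ[X]} (hc : c ≠ 0) (h : derivative a * c = a * derivative c) :
    ∃ l : ℝ, a = C l * c := by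
  refine ⟨a.coeff c.natDegree / c.leadingCoeff, by_contra fun h0 => ?_⟩
  have h1 := sub_ne_zero.mpr h0
  have h2 := wr_deg h1 hc (by rw [derivative_sub, derivative_C_mul]; linear_combination h)
  refine leadingCoeff_ne_zero.mpr h1 ?_
  rw [leadingCoeff, h2, coeff_sub, coeff_C_mul, coeff_natDegree,
    div_mul_cancel₀ _ (leadingCoeff_ne_zero.mpr hc), sub_self]

lemma wron {k : ℕ} : ∀ f : Fin k → ℝ[X], LinearIndependent ℝ f →
    (Matrix.of fun i (j : Fin k) => derivative^[j] (f i)).det ≠ 0 := by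
  induction k with
  | zero => simp
  | succ k ih =>
    intro f hf h0
    obtain ⟨c, c1, c2⟩ := exists_vecMul_eq_zero_iff.mpr h0
    have c3 : ∀ j : ℕ, j ≤ k → ∑ i, c i * derivative^[j] (f i) = 0 := fun j hj =>
      congrFun c2 ⟨j, by omega⟩
    have h1 : ∀ g : Fin (k + 1) → ℝ[X], g 0 = 0 →
        (∀ j : ℕ, j < k → ∑ i, g i * derivative^[j] (f i) = 0) → g = 0 := by
      intro g g1 g2
      have : (g ∘ Fin.succ) = 0 := by
        by_contra h
        refine ih _ (hf.comp _ (Fin.succ_injective k)) (exists_vecMul_eq_zero_iff.mp ⟨_, h, ?_⟩)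
        funext j
        have := g2 j j.2
        rwa [Fin.sum_univ_succ, g1, zero_mul, zero_add] at this
      exact funext (Fin.cases g1 (congrFun this))
    have c0 : c 0 ≠ 0 := fun h => c1 (h1 c h fun j hj => c3 j hj.le)
    have h2 := h1 (fun i => derivative (c i) * c 0 - c i * derivative (c 0)) (by ring) fun j hj => by
      have a1 := congrArg derivative (c3 j hj.le)
      have a2 := c3 (j + 1) hj
      simp only [Function.iterate_succ_apply'] at a2
      simp only [derivative_sum, derivative_mul, Finset.sum_add_distrib, a2, add_zero,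
        derivative_zero] at a1
      have a3 := congrArg (· * c 0) a1
      have a4 := congrArg (· * derivative (c 0)) (c3 j hj.le)
      simp only [Finset.sum_mul, zero_mul] at a3 a4
      rw [← sub_self (0 : ℝ[X])]
      nth_rw 1 [← a3, ← a4]
      rw [← Finset.sum_sub_distrib]
      exact Finset.sum_congr rfl fun i _ => by ring
    choose l hl using fun i => wr_prop c0 (sub_eq_zero.mp (congrFun h2 i))
    have h3 := Fintype.linearIndependent_iff.mp hf l (mul_left_cancel₀ c0 (by
      rw [mul_zero, ← c3 0 k.zero_le, Finset.mul_sum]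
      refine Finset.sum_congr rfl fun i _ => ?_
      rw [hl i, smul_eq_C_mul, Function.iterate_zero_apply]
      ring)) 0
    exact c0 (by rw [hl 0, h3, C_0, zero_mul])

/-- matrix of derivatives of monomials -/
noncomputable def dm (n k : ℕ) (x : ℝ) : Matrix (Fin (n + 1)) (Fin k) ℝ :=
  Matrix.of fun l j => (derivative^[j] (X ^ (l : ℕ))).eval x

lemma dm_mul {n k m : ℕ} (N : Matrix (Fin m) (Fin (n + 1)) ℝ) (x : ℝ) : N * dm n k x =
    Matrix.of fun i (j : Fin k) => (derivative^[j] (∑ l, C (N i l) * X ^ (l : ℕ))).eval x := by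
  ext i j
  simp [mul_apply, dm, iterate_derivative_sum, eval_finset_sum, iterate_derivative_C_mul]

lemma glem (n k : ℕ) : ∃ c : ℝ, 0 < c ∧ ∀ (P : Fin k → ℝ[X]) (δ : ℝ), (∀ i, (P i).natDegree ≤ n) →
    (∀ x ∈ closedBall (0 : ℝ) 2,
      |(Matrix.of fun i (j : Fin k) => (derivative^[j] (P i)).eval x).det| ≤ δ) →
    ∀ I : Fin k → Fin (n + 1), c * |(Matrix.of fun i j => (P i).coeff (I j)).det| ≤ δ := by
  have hc : Continuous fun p : Matrix (Fin k) (Fin (n + 1)) ℝ × ℝ => |(p.1 * dm n k p.2).det| :=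
    (continuous_fst.matrix_mul (continuous_pi fun l : Fin (n + 1) => continuous_pi fun j : Fin k =>
      (derivative^[j] (X ^ (l : ℕ) : ℝ[X])).continuous.comp continuous_snd)).matrix_det.abs
  have hb : ∀ N : Matrix (Fin k) (Fin (n + 1)) ℝ,
      BddAbove ((fun x => |(N * dm n k x).det|) '' closedBall 0 2) := fun N =>
    (isCompact_closedBall _ _).bddAbove_image (hc.comp (Continuous.prodMk_right N)).continuousOn
  obtain ⟨c, c1, c2⟩ := IsCompact.exists_forall_le' (a := 0) (isCompact_iUnion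
    fun I0 : Fin k → Fin (n + 1) => (isCompact_Icc (a := fun _ _ => (-1 : ℝ))
      (b := fun _ _ => 1)).inter_right (isClosed_eq (Continuous.matrix_submatrix continuous_id id I0)
      (continuous_const (y := (1 : Matrix (Fin k) (Fin k) ℝ)))))
    ((isCompact_closedBall (0 : ℝ) 2).continuous_sSup
      (f := fun (N : Matrix (Fin k) (Fin (n + 1)) ℝ) x => |(N * dm n k x).det|) hc).continuousOn (by
      intro N hN
      obtain ⟨I0, -, hN⟩ := Set.mem_iUnion.mp hN
      have h1 := wron (fun i => ∑ l, C (N i l) * X ^ (l : ℕ)) (Fintype.linearIndependent_iff.mpr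
        fun g hg j => by
          have a1 := congrArg (coeff · (I0 j)) hg
          have a2 : ∀ i, N i (I0 j) = (1 : Matrix (Fin k) (Fin k) ℝ) i j := fun i =>
            congrFun (congrFun hN i) j
          simpa [Fin.val_inj, a2, one_apply] using a1)
      obtain ⟨x, x1, x2⟩ := (Set.Icc_infinite (show (0 : ℝ) - 2 < 0 + 2 by norm_num)).exists_notMem_finset
        (roots _).toFinset
      rw [Multiset.mem_toFinset, mem_roots h1, IsRoot, ← coe_evalRingHom, RingHom.map_det] at x2
      refine lt_of_lt_of_le ?_ (le_csSup (hb N) ⟨x, by rwa [Real.closedBall_eq_Icc], rfl⟩)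
      exact abs_pos.mpr fun h => x2 ((congrArg det (dm_mul N x)).symm.trans h))
  refine ⟨c, c1, fun P δ hP h I => ?_⟩
  let M : Matrix (Fin k) (Fin (n + 1)) ℝ := Matrix.of fun i l => (P i).coeff l
  have h0 : 0 ≤ δ := (abs_nonneg _).trans (h 0 (by simp))
  obtain ⟨I0, h2, h3⟩ := maxminor M
  refine (mul_le_mul_of_nonneg_left (h2 I) c1.le).trans ?_
  by_cases h4 : (M.submatrix id I0).det = 0
  · simpa [h4]
  obtain ⟨N, n1, n2, n3⟩ := h3 h4
  rw [← le_div_iff₀ (abs_pos.mpr h4)]
  refine (c2 N (Set.mem_iUnion.mpr ⟨I0, ⟨fun i l => (abs_le.mp (n2 i l)).1,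
    fun i l => (abs_le.mp (n2 i l)).2⟩, n3⟩)).trans (csSup_le (by simp) ?_)
  rintro _ ⟨x, x1, rfl⟩
  rw [le_div_iff₀ (abs_pos.mpr h4), ← abs_mul, mul_comm, ← det_mul, ← Matrix.mul_assoc, ← n1, dm_mul]
  have e : ∀ i, ∑ l : Fin (n + 1), C (M i l) * X ^ (l : ℕ) = P i := fun i =>
    (Fin.sum_univ_eq_sum_range (fun l => C ((P i).coeff l) * X ^ l) _).trans
      (as_sum_range_C_mul_X_pow' _ (Nat.lt_succ_of_le (hP i))).symm
  simpa only [e] using h x x1

lemma red {k : ℕ} (τ : Fin (k + 1) → ℝ) (a : Fin (k + 1)) (ha : τ a ≠ 0)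
    (A : Fin (k + 1) → Fin k → ℝ) : |(Matrix.of fun i => Fin.cons (τ i) (A i) :
      Matrix (Fin (k + 1)) (Fin (k + 1)) ℝ).det| = |τ a| *
      |(Matrix.of fun i j => A (a.succAbove i) j - τ (a.succAbove i) / τ a * A a j).det| := by
  rw [det_eq_of_forall_row_eq_smul_add_const (B := Matrix.of fun i => if i = a then
    Fin.cons (τ a) (A a) else Fin.cons 0 fun j => A i j - τ i / τ a * A a j)
    (fun i => if i = a then 0 else τ i / τ a) a (by simp) (fun i j => by
      by_cases h : i = a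
      · simp [h]
      · refine Fin.cases ?_ (fun j => ?_) j <;> simp [h, ha]),
    det_succ_column_zero, Finset.sum_eq_single a (fun i _ h => by simp [h]) (by simp), abs_mul,
    abs_mul, abs_neg_one_pow, one_mul]
  congr 3
  · simp
  · ext i j
    simp

lemma glem' (n k : ℕ) : ∃ c : ℝ, 0 < c ∧ ∀ (P : Fin (k + 1) → ℝ[X]) (τ : Fin (k + 1) → ℝ) (δ : ℝ),
    (∀ i, (P i).natDegree ≤ n) → (∀ x ∈ closedBall (0 : ℝ) 2, |(Matrix.of fun i =>
      Fin.cons (τ i) fun j : Fin k => (derivative^[j] (P i)).eval x :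
      Matrix (Fin (k + 1)) (Fin (k + 1)) ℝ).det| ≤ δ) → ∀ I : Fin k → Fin (n + 1),
      c * |(Matrix.of fun i => Fin.cons (τ i) fun j => (P i).coeff (I j) :
      Matrix (Fin (k + 1)) (Fin (k + 1)) ℝ).det| ≤ δ := by
  obtain ⟨c, c1, c2⟩ := glem n k
  refine ⟨c, c1, fun P τ δ hP h I => ?_⟩
  by_cases h0 : ∀ a, τ a = 0
  · rw [det_eq_zero_of_column_eq_zero 0 (by simpa using h0)]
    simpa using (abs_nonneg _).trans (h 0 (by simp))
  obtain ⟨a, ha⟩ := not_forall.mp h0
  have := c2 (fun i => P (a.succAbove i) - C (τ (a.succAbove i) / τ a) * P a) (δ / |τ a|)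
    (fun i => (natDegree_sub_le _ _).trans (max_le (hP _) ((natDegree_C_mul_le _ _).trans (hP _))))
    (fun x hx => by
      have := h x hx
      rw [red τ a ha] at this
      rw [le_div_iff₀' (abs_pos.mpr ha)]
      simpa only [iterate_derivative_sub, iterate_derivative_C_mul, eval_sub, eval_mul, eval_C]
        using this) I
  rw [le_div_iff₀' (abs_pos.mpr ha)] at this
  rw [red τ a ha, mul_left_comm]
  simpa only [coeff_sub, coeff_C_mul] using this

end Pool.Agent.H53.KmC
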