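import Mathlib

namespace Pool.Agent.H53.Abcd

lemma vieta (k : ℤ) : ∀ (s : ℕ) (a b : ℤ), 0 < a → a ≤ b → (a + b).toNat ≤ s →
    a ^ 2 + b ^ 2 + 1 = k * a * b → k = 3 := by
  intro s
  induction s with
  | zero => intro a b ha hab hs _; omega
  | succ s ih =>
    intro a b ha hab hs h
    rcases eq_or_lt_of_le hab with rfl | hlt
    · have h1 : a * (k * a - 2 * a) = 1 := by linarith
      have := Int.eq_one_of_mul_eq_one_right ha.le h1
      subst this
      linarith
    · have hb : 0 < b := by linarith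
      have h1 : b * (k * a - b) = a ^ 2 + 1 := by linarith
      have h2 : 0 < k * a - b := by
        by_contra hc
        push Not at hc
        nlinarith
      have h3 : k * a - b ≤ a := by
        by_contra hc
        push Not at hc
        nlinarith
      exact ih (k * a - b) a h2 h3 (by omega) (by linear_combination h)

lemma square (n a b : ℤ) (ha : 0 < a) (hb : 0 < b) (h : n * (a * b) = (a ^ 2 + 1) * (b ^ 2 + 1)) :
    n - 4 = (a - b) ^ 2 := by
  have h1 : a ^ 2 + b ^ 2 + 1 = (n - a * b) * a * b := by linear_combination -h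
  have h3 : n - a * b = 3 := by
    rcases le_total a b with hab | hab
    · exact vieta _ _ a b ha hab le_rfl h1
    · exact vieta _ _ b a hb hab le_rfl (by linear_combination h1)
  rw [h3] at h1
  linear_combination h3 - h1

/-- one step of the recurrence `u w = v ^ 4 + 1` -/
def step (x : ℤ × ℤ) : ℤ × ℤ := (x.2, (x.2 ^ 4 + 1) / x.1)

/-- the same step modulo `11` -/
def stepM (x : ZMod 11 × ZMod 11) : ZMod 11 × ZMod 11 := (x.2, (x.2 ^ 4 + 1) * x.1 ^ 9)

/-- the invariant of adjacent pairs -/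
def Good (x : ℤ × ℤ) : Prop := 0 < x.1 ∧ x.1 < x.2 ∧ x.1 ∣ x.2 ^ 4 + 1 ∧ x.2 ∣ x.1 ^ 4 + 1

lemma good_step (x : ℤ × ℤ) (h : Good x) : Good (step x) := by
  obtain ⟨c, d⟩ := x
  obtain ⟨h1, h2, ⟨e, he⟩, ⟨f, hf⟩⟩ := h
  simp only at h1 h2 he hf
  have : (d ^ 4 + 1) / c = e := by rw [he, Int.mul_ediv_cancel_left _ h1.ne']
  simp only [Good, step, this]
  have hd : 1 < d := by linarith
  refine ⟨by linarith, ?_, ?_, ⟨c, by linarith⟩⟩
  · by_contra hc
    push Not at hc
    have h3 : c * e ≤ c * d := mul_le_mul_of_nonneg_left hc h1.le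
    have h4 : c * d < d * d := mul_lt_mul_of_pos_right h2 (by linarith)
    have h5 : 1 ≤ d * d := by nlinarith
    nlinarith
  · refine ⟨f * e ^ 4 - d ^ 3 * (4 + 6 * d ^ 4 + 4 * d ^ 8 + d ^ 12), ?_⟩
    have h6 : (c * e) ^ 4 = (d ^ 4 + 1) ^ 4 := by rw [he]
    linear_combination (e ^ 4) * hf - h6

lemma cast_step (x : ℤ × ℤ) (h : Good x) :
    (((step x).1 : ZMod 11), ((step x).2 : ZMod 11)) = stepM ((x.1 : ZMod 11), (x.2 : ZMod 11)) := by
  obtain ⟨c, d⟩ := x
  obtain ⟨h1, h2, ⟨e, he⟩, _⟩ := h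
  simp only at h1 h2 he
  have : (d ^ 4 + 1) / c = e := by rw [he, Int.mul_ediv_cancel_left _ h1.ne']
  simp only [step, stepM, this, Prod.mk.injEq, true_and]
  have h3 : (d : ZMod 11) ^ 4 + 1 = c * e := by exact_mod_cast congrArg (Int.cast : ℤ → ZMod 11) he
  generalize (c : ZMod 11) = C at *
  generalize (d : ZMod 11) = D at *
  generalize (e : ZMod 11) = E at *
  revert C D E
  decide +kernel

lemma iter (k : ℕ) : Good (step^[k] (2, 17)) ∧ (k : ℤ) < (step^[k] (2, 17)).1 ∧
    (((step^[k] (2, 17)).1 : ZMod 11), ((step^[k] (2, 17)).2 : ZMod 11)) = stepM^[k] (2, 6) := by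
  induction k with
  | zero => exact ⟨⟨by norm_num, by norm_num, by norm_num, by norm_num⟩, by norm_num, by decide⟩
  | succ k ih =>
    rw [Function.iterate_succ_apply', Function.iterate_succ_apply']
    refine ⟨good_step _ ih.1, ?_, by rw [cast_step _ ih.1, ih.2.2]⟩
    have := ih.1.2.1
    have := ih.2.1
    simp only [step] at *
    push_cast
    linarith

lemma period (j : ℕ) : stepM^[12 * j] (2, 6) = (2, 6) := by
  rw [Function.iterate_mul]
  exact Function.iterate_fixed (by decide +kernel) j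

lemma main (N : ℕ) : ∃ n c d : ℤ, N < n ∧ 0 < c ∧ 0 < d ∧ n * (c * d) = (c ^ 2 + d ^ 2) ^ 2 + 1 ∧
    ∀ y : ℤ, n - 4 ≠ y ^ 2 := by
  obtain ⟨⟨h1, h2, ⟨e, he⟩, ⟨f, hf⟩⟩, h3, h4⟩ := iter (12 * N)
  rw [period] at h4
  generalize (step^[12 * N] (2, 17)).1 = c at *
  generalize (step^[12 * N] (2, 17)).2 = d at *
  have hcop : IsCoprime c d := ⟨e, -d ^ 3, by linear_combination -he⟩
  have : c * d ∣ (c ^ 2 + d ^ 2) ^ 2 + 1 :=
    hcop.mul_dvd ⟨e + c ^ 3 + 2 * c * d ^ 2, by linear_combination he⟩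
      ⟨f + d ^ 3 + 2 * d * c ^ 2, by linear_combination hf⟩
  obtain ⟨n, hn⟩ := this
  have hd : 0 < d := by linarith
  refine ⟨n, c, d, ?_, h1, hd, by linarith, fun y hy => ?_⟩
  · by_contra hc
    push Not at hc
    push_cast at h3
    have hN : (0 : ℤ) ≤ N := Int.natCast_nonneg N
    have h5 : n ≤ c := by linarith
    have h6 : c * d * n ≤ c * d * c := mul_le_mul_of_nonneg_left h5 (by positivity)
    have h7 : c * c ≤ d * d := by nlinarith
    have h8 : c * d * c ≤ d * d * d := by nlinarith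
    have h9 : d * d * d ≤ d * d * d * d := by nlinarith [mul_pos (mul_pos hd hd) hd]
    nlinarith [mul_pos hd hd, mul_pos h1 h1, mul_pos (mul_pos hd hd) (mul_pos h1 h1)]
  · have e1 : ((c : ZMod 11) ^ 2 + d ^ 2) ^ 2 + 1 = c * d * n := by
      exact_mod_cast congrArg (Int.cast : ℤ → ZMod 11) hn
    have e2 : (n : ZMod 11) - 4 = y ^ 2 := by
      exact_mod_cast congrArg (Int.cast : ℤ → ZMod 11) hy
    rw [Prod.mk.injEq] at h4
    rw [h4.1, h4.2] at e1
    generalize (n : ZMod 11) = A at *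
    generalize (y : ZMod 11) = B at *
    revert A B
    decide +kernel

end Pool.Agent.H53.Abcd
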