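import Mathlib

namespace Pool.Agent.H53.AdmDefs

open Matrix

/-- an integer vector viewed as a real vector (with the supremum norm) -/
def re {k : ℕ} (y : Fin k → ℤ) : Fin k → ℝ := fun j => (y j : ℝ)

/-- a rational matrix viewed as a real matrix -/
def reM {k l : ℕ} (R : Matrix (Fin k) (Fin l) ℚ) : Matrix (Fin k) (Fin l) ℝ :=
  R.map (fun x => (x : ℝ))

/-- Liouville matrices.  In the second condition we ask `1 < ‖q‖` (as for Liouville numbers, where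
the denominator is `> 1`); without it the condition would be met trivially by a unit vector `q`. -/
def IsLiouvilleMat {m n : ℕ} (A : Matrix (Fin m) (Fin n) ℝ) : Prop :=
  (∀ (q : Fin n → ℤ) (p : Fin m → ℤ), (q ≠ 0 ∨ p ≠ 0) → A *ᵥ re q ≠ re p) ∧
  ∀ N : ℝ, 0 < N → ∃ (p : Fin m → ℤ) (q : Fin n → ℤ),
    1 < ‖re q‖ ∧ ‖A *ᵥ re q - re p‖ < ‖re q‖ ^ (-N)

/-- constant on no non-empty open set -/
def NowhereConstant {X : Type} [TopologicalSpace X] (g : X → ℝ) : Prop :=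
  ∀ U : Set X, IsOpen U → U.Nonempty → ¬ ∃ c : ℝ, ∀ x ∈ U, g x = c

/-- the LIC property -/
def LIC {m n : ℕ} (f : Matrix (Fin m) (Fin n) ℝ → Matrix (Fin m) (Fin n) ℝ) : Prop :=
  ¬ ∃ Ω : Set (Matrix (Fin m) (Fin n) ℝ), (interior Ω).Nonempty ∧
    ∃ (p : Fin m → ℤ) (q : Fin n → ℤ), q ≠ 0 ∧ ∀ B ∈ f '' Ω, B *ᵥ re q = re p

/-- strongly nowhere constant -/
def StronglyNC {m n : ℕ} (f : Matrix (Fin m) (Fin n) ℝ → Matrix (Fin m) (Fin n) ℝ) : Prop :=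
  ∀ (R₁ : Matrix (Fin m) (Fin m) ℚ) (R₂ : Matrix (Fin n) (Fin n) ℚ) (T : Matrix (Fin m) (Fin n) ℚ),
    IsUnit R₁ → IsUnit R₂ → ∀ i j, NowhereConstant (fun A => (reM R₁ * f A * reM R₂ + reM T) i j)

/-- the pair `(m, n)` is admissible -/
def Admissible (m n : ℕ) : Prop :=
  ∃ f : Matrix (Fin m) (Fin n) ℝ → Matrix (Fin m) (Fin n) ℝ,
    Continuous f ∧ StronglyNC f ∧ LIC f ∧ ∀ A, ¬ IsLiouvilleMat (f A)

end Pool.Agent.H53.AdmDefs
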