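import Mathlib
import Pool.Agent.H53.AdmDefs

namespace Pool.Agent.H53.AdmOne

open Matrix Pool.Agent.H53.AdmDefs

theorem not_adm (n : ℕ) (hn : 1 ≤ n) : ¬ Admissible 1 n := by
  rintro ⟨f, hf, hs, hl, hA⟩
  let X := Matrix (Fin 1) (Fin n) ℝ
  have : BaireSpace X := inferInstanceAs (BaireSpace (Fin 1 → Fin n → ℝ))
  have : LocallyConnectedSpace X := inferInstanceAs (LocallyConnectedSpace (Fin 1 → Fin n → ℝ))
  have : Nonempty X := ⟨0⟩
  let j0 : Fin n := ⟨0, hn⟩
  have hc : ∀ q : Fin n → ℤ, Continuous fun A : X => f A *ᵥ re q := fun q =>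
    hf.matrix_mulVec continuous_const
  let V : (Fin n → ℤ) × (Fin 1 → ℤ) → Set X := fun w =>
    {A | (w.1 ≠ 0 ∨ w.2 ≠ 0) → f A *ᵥ re w.1 ≠ re w.2}
  let W : ℕ → Set X := fun N => {A | ∃ (p : Fin 1 → ℤ) (q : Fin n → ℤ),
    1 < ‖re q‖ ∧ ‖f A *ᵥ re q - re p‖ < ‖re q‖ ^ (-(N : ℝ))}
  have hVo : ∀ w, IsOpen (V w) := by
    intro w
    by_cases h : w.1 ≠ 0 ∨ w.2 ≠ 0
    · simp only [V, h, true_imp_iff]
      exact isOpen_ne_fun (hc w.1) continuous_const
    · simp only [V, h, false_imp_iff]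
      exact isOpen_univ
  have hVd : ∀ w, Dense (V w) := by
    intro w
    rw [← compl_compl (V w), ← interior_eq_empty_iff_dense_compl, ← Set.not_nonempty_iff_eq_empty]
    intro hne
    by_cases h1 : w.1 = 0
    · obtain ⟨A, hA⟩ := hne
      have := interior_subset hA
      simp only [V, Set.mem_compl_iff, Set.mem_ofPred_eq, Classical.not_imp, not_not] at this
      obtain ⟨h2, h3⟩ := this
      rcases h2 with h2 | h2
      · exact h2 h1
      · apply h2
        funext i
        have h4 := congrFun h3 i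
        have h5 : re w.1 = 0 := by rw [h1]; funext j; simp [re]
        rw [h5, mulVec_zero] at h4
        simp only [re, Pi.zero_apply] at h4 ⊢
        exact_mod_cast h4.symm
    · apply hl
      refine ⟨_, hne, w.2, w.1, h1, ?_⟩
      rintro _ ⟨A, hA, rfl⟩
      by_contra h
      exact hA (fun _ => h)
  have hWo : ∀ N, IsOpen (W N) := by
    intro N
    simp only [W, Set.ofPred_exists]
    refine isOpen_iUnion fun p => isOpen_iUnion fun q => ?_
    by_cases h : 1 < ‖re q‖
    · simp only [h, true_and]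
      exact isOpen_lt ((hc q).sub continuous_const).norm continuous_const
    · simp only [h, false_and]
      exact isOpen_empty
  have hWd : ∀ N, Dense (W N) := by
    intro N
    rw [dense_iff_inter_open]
    rintro U hU ⟨A0, hA0⟩
    have hg := hs 1 1 0 isUnit_one isUnit_one 0 j0
    have hg' : NowhereConstant fun A : X => f A 0 j0 := by
      have e1 : ∀ k, reM (1 : Matrix (Fin k) (Fin k) ℚ) = 1 := fun k => by
        ext a b; simp [reM, Matrix.one_apply]; split_ifs <;> simp
      have e0 : reM (0 : Matrix (Fin 1) (Fin n) ℚ) = 0 := by ext a b; simp [reM]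
      simpa [e1, e0] using hg
    let C := connectedComponentIn U A0
    have hCo : IsOpen C := hU.connectedComponentIn
    have hCm : A0 ∈ C := mem_connectedComponentIn hA0
    have hCc : IsPreconnected C := isPreconnected_connectedComponentIn
    have hCU : C ⊆ U := connectedComponentIn_subset _ _
    have h1 := hg' C hCo ⟨A0, hCm⟩
    push Not at h1
    obtain ⟨A1, hA1, hne⟩ := h1 (f A0 0 j0)
    have hgc : Continuous fun A : X => f A 0 j0 := hf.matrix_elem 0 j0
    obtain ⟨r, A2, hA2, hr⟩ : ∃ r : ℚ, ∃ A2 ∈ C, f A2 0 j0 = r := by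
      rcases lt_or_gt_of_ne hne with h | h
      · obtain ⟨r, h2, h3⟩ := exists_rat_btwn h
        obtain ⟨A2, h4, h5⟩ := hCc.intermediate_value hA1 hCm hgc.continuousOn ⟨h2.le, h3.le⟩
        exact ⟨r, A2, h4, h5⟩
      · obtain ⟨r, h2, h3⟩ := exists_rat_btwn h
        obtain ⟨A2, h4, h5⟩ := hCc.intermediate_value hCm hA1 hgc.continuousOn ⟨h2.le, h3.le⟩
        exact ⟨r, A2, h4, h5⟩
    have hd : (1 : ℝ) ≤ r.den := by exact_mod_cast r.den_pos
    have hq : 1 < ‖re (Pi.single j0 (2 * (r.den : ℤ)) : Fin n → ℤ)‖ := by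
      refine lt_of_lt_of_le ?_ (norm_le_pi_norm _ j0)
      simp only [re, Pi.single_eq_same, Real.norm_eq_abs]
      push_cast
      rw [abs_of_pos (by linarith)]
      linarith
    refine ⟨A2, hCU hA2, fun _ => 2 * r.num, Pi.single j0 (2 * (r.den : ℤ)), hq, ?_⟩
    have : f A2 *ᵥ re (Pi.single j0 (2 * (r.den : ℤ)) : Fin n → ℤ) - re (fun _ => 2 * r.num) = 0 := by
      funext i
      have hi : i = 0 := Subsingleton.elim _ _
      subst hi
      have e : re (Pi.single j0 (2 * (r.den : ℤ)) : Fin n → ℤ) = Pi.single j0 (2 * (r.den : ℝ)) := by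
        funext j
        by_cases hj : j = j0
        · subst hj; simp [re]
        · simp [re, hj]
      rw [e, Pi.sub_apply, mulVec_single]
      simp only [re, Pi.smul_apply, col_apply, hr, MulOpposite.smul_eq_mul_unop,
        MulOpposite.unop_op, Pi.zero_apply]
      push_cast
      rw [Rat.cast_def]
      field_simp
      ring
    rw [this, norm_zero]
    exact Real.rpow_pos_of_pos (by linarith) _
  have hd1 := dense_iInter_of_isOpen hVo hVd
  have hd2 := dense_iInter_of_isOpen hWo hWd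
  have hd := Dense.inter_of_Gδ (IsGδ.iInter_of_isOpen hVo) (IsGδ.iInter_of_isOpen hWo) hd1 hd2
  obtain ⟨A, h1, h2⟩ := hd.nonempty
  rw [Set.mem_iInter] at h1 h2
  refine hA A ⟨fun q p h => h1 (q, p) h, fun N _ => ?_⟩
  obtain ⟨p, q, h3, h4⟩ := h2 ⌈N⌉₊
  refine ⟨p, q, h3, h4.trans_le (Real.rpow_le_rpow_of_exponent_le h3.le ?_)⟩
  have := Nat.le_ceil N
  linarith

end Pool.Agent.H53.AdmOne
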