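import Mathlib

namespace Pool.Agent.H53.LinForm

open Polynomial NumberField IntermediateField

/-- Liouville inequality for linear forms in the powers of a real algebraic integer -/
lemma liouville_form (θ : ℝ) (hθ : IsIntegral ℤ θ) (D : ℕ) (hD : D ≤ (minpoly ℚ θ).natDegree) :
    ∃ c : ℝ, 0 < c ∧ ∃ τ : ℕ, ∀ (z : Fin D → ℤ) (H : ℝ), z ≠ 0 → (∀ i, |(z i : ℝ)| ≤ H) →
      c ≤ |∑ i, (z i : ℝ) * θ ^ (i : ℕ)| * H ^ τ := by
  have hθQ : IsIntegral ℚ θ := hθ.tower_top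
  have : FiniteDimensional ℚ ℚ⟮θ⟯ := adjoin.finiteDimensional hθQ
  have : NumberField ℚ⟮θ⟯ := {}
  let g : ℚ⟮θ⟯ := AdjoinSimple.gen ℚ θ
  have hg : IsIntegral ℤ g := by
    rw [← isIntegral_algHom_iff (IsScalarTower.toAlgHom ℤ ℚ⟮θ⟯ ℝ) Subtype.val_injective]
    exact hθ
  set C : ℝ := 1 + ∑ i : Fin D, house g ^ (i : ℕ) with hC
  have hCpos : 0 < C := by
    have : 0 ≤ ∑ i : Fin D, house g ^ (i : ℕ) :=
      Finset.sum_nonneg fun i _ => pow_nonneg (house_nonneg _) _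
    linarith
  set τ := Module.finrank ℚ ℚ⟮θ⟯ - 1 with hτ
  refine ⟨1 / C ^ τ, by positivity, τ, fun z H hz hH => ?_⟩
  let α : ℚ⟮θ⟯ := ∑ i, (z i : ℚ⟮θ⟯) * g ^ (i : ℕ)
  have hαv : (α : ℝ) = ∑ i, (z i : ℝ) * θ ^ (i : ℕ) := by
    simp [α, g]
  have hαi : IsIntegral ℤ α := by
    apply IsIntegral.sum
    intro i _
    exact (isIntegral_algebraMap (x := z i)).mul (hg.pow _)
  have hα0 : α ≠ 0 := by
    intro h0
    have li := (linearIndependent_pow (K := ℚ) θ).comp (Fin.castLE hD) (Fin.castLE_injective hD)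
    rw [Fintype.linearIndependent_iff] at li
    have := li (fun i => (z i : ℚ)) (by
      rw [h0] at hαv
      simpa [Rat.smul_def] using hαv.symm)
    apply hz
    funext i
    exact_mod_cast this i
  have hN : (1 : ℝ) ≤ ‖Algebra.norm ℚ α‖ := by
    obtain ⟨k, hk⟩ := IsIntegrallyClosed.isIntegral_iff.mp (Algebra.isIntegral_norm ℚ hαi)
    have hk0 : k ≠ 0 := by
      rintro rfl
      apply (Algebra.norm_ne_zero_iff (R := ℚ)).mpr hα0
      rw [← hk]; simp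
    rw [← hk, ← Rat.norm_cast_real]
    simp only [eq_intCast, Rat.cast_intCast, Real.norm_eq_abs]
    exact_mod_cast Int.one_le_abs hk0
  let σ : ℚ⟮θ⟯ →+* ℂ := Complex.ofRealHom.comp (algebraMap ℚ⟮θ⟯ ℝ)
  have h1 := norm_norm_le_norm_mul_house_pow α σ
  have h2 : ‖σ α‖ = |∑ i, (z i : ℝ) * θ ^ (i : ℕ)| := by
    rw [← hαv]
    simp [σ]
  obtain ⟨j, hj⟩ := Function.ne_iff.mp hz
  have hH0 : 0 ≤ H := (abs_nonneg _).trans (hH j)
  have h3 : house α ≤ C * H := by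
    refine (house_sum_le_sum_house _ _).trans ?_
    have : ∑ i : Fin D, house ((z i : ℚ⟮θ⟯) * g ^ (i : ℕ)) ≤
        ∑ i : Fin D, house g ^ (i : ℕ) * H := by
      apply Finset.sum_le_sum
      intro i _
      refine (house_mul_le _ _).trans ?_
      rw [house_intCast, mul_comm]
      push_cast
      exact mul_le_mul (house_pow_le _ _) (hH i) (abs_nonneg _) (pow_nonneg (house_nonneg _) _)
    rw [← Finset.sum_mul] at this
    rw [hC]
    nlinarith
  rw [h2, ← hτ] at h1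
  have h4 : house α ^ τ ≤ (C * H) ^ τ := pow_le_pow_left₀ (house_nonneg _) h3 τ
  rw [div_le_iff₀ (by positivity), mul_assoc, ← mul_pow, mul_comm H C]
  exact hN.trans (h1.trans (mul_le_mul_of_nonneg_left h4 (abs_nonneg _)))

lemma exists_alg (D : ℕ) : ∃ θ : ℝ, IsIntegral ℤ θ ∧ D ≤ (minpoly ℚ θ).natDegree := by
  obtain ⟨p, hp, hpp⟩ := Nat.exists_infinite_primes D
  let θ : ℝ := (2 : ℝ) ^ ((p : ℝ)⁻¹)
  have hθ : θ ^ p = 2 := Real.rpow_inv_natCast_pow (by norm_num) hpp.ne_zero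
  have hirr : Irreducible (X ^ p - C (2 : ℚ)) := by
    apply X_pow_sub_C_irreducible_of_prime hpp
    intro b hb
    have : Fact (Nat.Prime 2) := ⟨Nat.prime_two⟩
    have hb0 : b ≠ 0 := by
      rintro rfl
      rw [zero_pow hpp.ne_zero] at hb
      norm_num at hb
    have h1 := congrArg (padicValRat 2) hb
    rw [padicValRat.pow] at h1
    have h2 : padicValRat 2 (2 : ℚ) = 1 := by
      have := padicValRat.self (p := 2) (by norm_num)
      simpa using this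
    rw [h2] at h1
    have h3 : (p : ℤ) ∣ 1 := ⟨_, h1.symm⟩
    have h4 : p ∣ 1 := by exact_mod_cast h3
    exact hpp.one_lt.ne' (Nat.dvd_one.mp h4)
  refine ⟨θ, ⟨X ^ p - C 2, monic_X_pow_sub_C _ hpp.ne_zero, by simp [hθ]⟩, ?_⟩
  have : X ^ p - C (2 : ℚ) = minpoly ℚ θ :=
    minpoly.eq_of_irreducible_of_monic hirr (by simp [hθ]) (monic_X_pow_sub_C _ hpp.ne_zero)
  rw [← this, natDegree_X_pow_sub_C]
  exact hp

/-- a real number whose first `D` powers satisfy a Liouville-type lower bound -/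
lemma exists_dioph (D : ℕ) : ∃ θ c : ℝ, 0 < c ∧ ∃ τ : ℕ, ∀ (z : Fin D → ℤ) (H : ℝ), z ≠ 0 →
    (∀ i, |(z i : ℝ)| ≤ H) → c ≤ |∑ i, (z i : ℝ) * θ ^ (i : ℕ)| * H ^ τ := by
  obtain ⟨θ, h1, h2⟩ := exists_alg D
  exact ⟨θ, liouville_form θ h1 D h2⟩

end Pool.Agent.H53.LinForm
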