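import Mathlib
import Pool.Agent.H53.AdmDefs
import Pool.Agent.H53.LinForm

namespace Pool.Agent.H53.AdmTwo

open Matrix Pool.Agent.H53.AdmDefs

lemma nc_affine {m n : ℕ} (i : Fin m) (j : Fin n) (α β : ℝ) (hβ : β ≠ 0) :
    NowhereConstant fun A : Matrix (Fin m) (Fin n) ℝ => α + A i j * β := by
  rintro U hU ⟨A0, hA0⟩ ⟨c, hc⟩
  let E : Matrix (Fin m) (Fin n) ℝ := Matrix.of fun _ _ => 1
  have hcont : Continuous fun t : ℝ => A0 + t • E := by fun_prop
  have hmem : (fun t : ℝ => A0 + t • E) ⁻¹' U ∈ nhds (0 : ℝ) :=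
    (hU.preimage hcont).mem_nhds (by simpa using hA0)
  obtain ⟨ε, hε, hb⟩ := Metric.mem_nhds_iff.mp hmem
  have h1 : A0 + (ε / 2) • E ∈ U := hb (by
    rw [Metric.mem_ball, Real.dist_eq, sub_zero, abs_of_pos (by linarith)]; linarith)
  have h2 := hc _ h1
  have h3 := hc _ hA0
  simp only [E, Matrix.add_apply, Matrix.smul_apply, of_apply, smul_eq_mul, mul_one] at h2 h3
  have : ε / 2 * β = 0 := by linarith
  rcases mul_eq_zero.mp this with h | h
  · linarith
  · exact hβ h

lemma indep (θ : ℝ) (D : ℕ) (hD : D ≤ (minpoly ℚ θ).natDegree) (u : Fin D → ℚ)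
    (h : ∑ i, (u i : ℝ) * θ ^ (i : ℕ) = 0) : u = 0 := by
  have li := (linearIndependent_pow (K := ℚ) θ).comp (Fin.castLE hD) (Fin.castLE_injective hD)
  rw [Fintype.linearIndependent_iff] at li
  funext i
  exact li u (by simpa [Rat.smul_def] using h) i

lemma two_le {k : ℕ} (y : Fin k → ℤ) (hy : 1 < ‖re y‖) : 2 ≤ ‖re y‖ := by
  by_contra hc
  push Not at hc
  have : ‖re y‖ ≤ 1 := by
    rw [pi_norm_le_iff_of_nonneg zero_le_one]
    intro i
    have h1 : |(y i : ℝ)| < 2 := lt_of_le_of_lt (norm_le_pi_norm (re y) i) hc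
    have h2 : |y i| < 2 := by exact_mod_cast h1
    have h3 : |y i| ≤ 1 := by omega
    show |(y i : ℝ)| ≤ 1
    exact_mod_cast h3
  linarith

theorem adm (m n : ℕ) (hm : 2 ≤ m) (hn : 1 ≤ n) : Admissible m n := by
  obtain ⟨θ, hθ, hD⟩ := LinForm.exists_alg (m + n + 2)
  obtain ⟨c, hc, τ, hL⟩ := LinForm.liouville_form θ hθ (n + 2) (by omega)
  let i0 : Fin m := ⟨0, by omega⟩
  let i1 : Fin m := ⟨1, by omega⟩
  let j0 : Fin n := ⟨0, by omega⟩
  let a : Fin m → ℝ := fun i => θ ^ (i : ℕ)
  let b : Fin n → ℝ := fun j => θ ^ (j : ℕ)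
  let M : Matrix (Fin m) (Fin n) ℝ := Matrix.of fun i j => if i = i1 then θ ^ (j.val + 2) else 0
  let f : Matrix (Fin m) (Fin n) ℝ → Matrix (Fin m) (Fin n) ℝ :=
    fun A => M + A i0 j0 • vecMulVec a b
  have h01 : i0 ≠ i1 := by simp [i0, i1]
  have row0 : ∀ A (v : Fin n → ℝ), (f A *ᵥ v) i0 = A i0 j0 * ∑ j, v j * θ ^ (j : ℕ) := by
    intro A v
    simp only [f, M, a, b, mulVec, dotProduct, Matrix.add_apply, of_apply, h01, if_false, Matrix.smul_apply,
      vecMulVec_apply, smul_eq_mul, Finset.mul_sum]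
    refine Finset.sum_congr rfl fun j _ => ?_
    simp [i0]; ring
  have row1 : ∀ A (v : Fin n → ℝ), (f A *ᵥ v) i1 =
      ∑ j, v j * θ ^ (j.val + 2) + θ * (A i0 j0 * ∑ j, v j * θ ^ (j : ℕ)) := by
    intro A v
    simp only [f, M, a, b, mulVec, dotProduct, Matrix.add_apply, of_apply, if_true, Matrix.smul_apply,
      vecMulVec_apply, smul_eq_mul, Finset.mul_sum, ← Finset.sum_add_distrib]
    refine Finset.sum_congr rfl fun j _ => ?_
    simp [i1]; ring
  refine ⟨f, ?_, ?_, ?_, ?_⟩
  · exact continuous_const.add ((continuous_id.matrix_elem i0 j0).smul continuous_const)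
  · intro R₁ R₂ T h1 h2 i j
    have hu : (reM R₁ *ᵥ a) i ≠ 0 := by
      intro h
      have := indep θ m (by omega) (R₁ i) (by simpa [reM, mulVec, dotProduct, a] using h)
      have hdet := det_eq_zero_of_row_eq_zero (A := R₁) i (fun k => congrFun this k)
      exact ((isUnit_iff_isUnit_det _).mp h1).ne_zero hdet
    have hv : (b ᵥ* reM R₂) j ≠ 0 := by
      intro h
      have := indep θ n (by omega) (fun k => R₂ k j)
        (by simpa [reM, vecMul, dotProduct, b, mul_comm] using h)
      have hdet := det_eq_zero_of_column_eq_zero (A := R₂) j (fun k => congrFun this k)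
      exact ((isUnit_iff_isUnit_det _).mp h2).ne_zero hdet
    have := nc_affine i0 j0 ((reM R₁ * M * reM R₂ + reM T) i j) _ (mul_ne_zero hu hv)
    convert this using 2 with A
    simp only [f, Matrix.mul_add, Matrix.add_mul, Matrix.mul_smul, Matrix.smul_mul,
      mul_vecMulVec, vecMulVec_mul, Matrix.add_apply, Matrix.smul_apply, vecMulVec_apply, smul_eq_mul]
    ring
  · rintro ⟨Ω, hne, p, q, hq, h⟩
    have hb : ∑ j, re q j * θ ^ (j : ℕ) ≠ 0 := by
      intro h0
      have := indep θ n (by omega) (fun k => (q k : ℚ)) (by simpa [re] using h0)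
      apply hq
      funext k
      simpa using congrFun this k
    refine nc_affine i0 j0 0 _ hb (interior Ω) isOpen_interior hne ⟨re p i0, fun A hA => ?_⟩
    have := congrFun (h _ ⟨A, interior_subset hA, rfl⟩) i0
    rw [row0] at this
    simpa using this
  · intro A h
    set K : ℝ := 1 + ∑ i, ∑ j, |f A i j| with hK
    have hK1 : ∀ i, 1 + ∑ j, |f A i j| ≤ K := by
      intro i
      have := Finset.single_le_sum (f := fun i => ∑ j, |f A i j|)
        (fun i _ => Finset.sum_nonneg fun j _ => abs_nonneg _) (Finset.mem_univ i)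
      linarith
    have hK2 : 1 ≤ K := by
      have := hK1 i0
      have : 0 ≤ ∑ j, |f A i0 j| := Finset.sum_nonneg fun j _ => abs_nonneg _
      linarith
    obtain ⟨k, hk⟩ := pow_unbounded_of_one_lt ((1 + |θ|) * K ^ τ / c) (one_lt_two (α := ℝ))
    obtain ⟨p, q, hq, hlt⟩ := h.2 ((τ + k + 1 : ℕ) : ℝ) (by positivity)
    have hH2 := two_le q hq
    set H := ‖re q‖ with hH
    have hH0 : 0 < H := by linarith
    set e := f A *ᵥ re q - re p with he
    rw [Real.rpow_neg hH0.le, Real.rpow_natCast] at hlt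
    have he1 : ‖e‖ ≤ 1 := hlt.le.trans (inv_le_one_of_one_le₀ (one_le_pow₀ hq.le))
    have hqj : ∀ j, |(q j : ℝ)| ≤ H := fun j => norm_le_pi_norm (re q) j
    have hei : ∀ i, |e i| ≤ ‖e‖ := fun i => norm_le_pi_norm e i
    have hp : ∀ i, |(p i : ℝ)| ≤ K * H := by
      intro i
      have h1 : (p i : ℝ) = (f A *ᵥ re q) i - e i := by simp [he, re]
      have h2 : |(f A *ᵥ re q) i| ≤ (∑ j, |f A i j|) * H := by
        simp only [mulVec, dotProduct]
        refine (Finset.abs_sum_le_sum_abs _ _).trans ?_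
        rw [Finset.sum_mul]
        refine Finset.sum_le_sum fun j _ => ?_
        rw [abs_mul]
        exact mul_le_mul_of_nonneg_left (hqj j) (abs_nonneg _)
      rw [h1]
      refine (abs_sub _ _).trans ?_
      have := hei i
      have := mul_le_mul_of_nonneg_right (hK1 i) hH0.le
      nlinarith
    let z : Fin (n + 2) → ℤ := Fin.cons (-p i1) (Fin.cons (p i0) q)
    have hz : z ≠ 0 := by
      intro h0
      have : re q = 0 := by
        funext j
        have := congrFun h0 j.succ.succ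
        simp only [z, Fin.cons_succ, Pi.zero_apply] at this
        simp [re, this]
      rw [hH, this, norm_zero] at hH0
      exact lt_irrefl _ hH0
    have hzb : ∀ i, |(z i : ℝ)| ≤ K * H := by
      intro i
      refine Fin.cases ?_ (fun i => Fin.cases ?_ (fun j => ?_) i) i
      · simpa [z] using hp i1
      · simpa [z] using hp i0
      · simp only [z, Fin.cons_succ]
        have := hqj j
        nlinarith
    have key := hL z (K * H) hz hzb
    have hsum : ∑ i, (z i : ℝ) * θ ^ (i : ℕ) = e i1 - θ * e i0 := by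
      rw [Fin.sum_univ_succ, Fin.sum_univ_succ]
      simp only [he, Pi.sub_apply, row0, row1, z, Fin.cons_zero, Fin.cons_succ, re, Fin.val_succ,
        Fin.val_zero]
      push_cast
      ring
    have hb : |e i1 - θ * e i0| ≤ (1 + |θ|) * ‖e‖ := by
      refine (abs_sub _ _).trans ?_
      rw [abs_mul]
      have := hei i1
      have := mul_le_mul_of_nonneg_left (hei i0) (abs_nonneg θ)
      linarith
    rw [hsum] at key
    have h5 : ‖e‖ * H ^ (τ + k + 1) ≤ 1 := by
      rw [← le_div_iff₀ (by positivity), one_div]; exact hlt.le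
    have h6 : (2 : ℝ) ^ k ≤ H ^ (k + 1) :=
      (pow_le_pow_left₀ (by norm_num) hH2 k).trans (pow_le_pow_right₀ hq.le (by omega))
    rw [div_lt_iff₀ hc] at hk
    have h7 : c ≤ (1 + |θ|) * ‖e‖ * (K * H) ^ τ :=
      key.trans (mul_le_mul_of_nonneg_right hb (by positivity))
    have h8 : c * H ^ (k + 1) ≤ (1 + |θ|) * K ^ τ := by
      calc c * H ^ (k + 1) ≤ (1 + |θ|) * ‖e‖ * (K * H) ^ τ * H ^ (k + 1) :=
            mul_le_mul_of_nonneg_right h7 (by positivity)
        _ = (1 + |θ|) * K ^ τ * (‖e‖ * H ^ (τ + k + 1)) := by ring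
        _ ≤ (1 + |θ|) * K ^ τ * 1 := mul_le_mul_of_nonneg_left h5 (by positivity)
        _ = _ := mul_one _
    nlinarith

end Pool.Agent.H53.AdmTwo
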