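import Mathlib

open MeasureTheory Filter Set Topology Metric

namespace Pool.Agent.H53.Aff

/-- interval around a rational point -/
def BB (v : ℕ × ℤ) (t : ℝ) : Set ℝ := ball ((v.2:ℝ) / v.1) (t / v.1)

lemma BB_mem (v : ℕ × ℤ) (hv : 1 ≤ v.1) (t x : ℝ) : x ∈ BB v t ↔ |v.1 * x - v.2| < t := by
  have h : (0:ℝ) < v.1 := by exact_mod_cast hv
  unfold BB
  rw [mem_ball, Real.dist_eq, lt_div_iff₀ h]
  have : (v.1:ℝ) * x - v.2 = (x - v.2 / v.1) * v.1 := by field_simp
  rw [this, abs_mul, abs_of_pos h]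

lemma BB_mono (v : ℕ × ℤ) {t t' : ℝ} (h : t ≤ t') : BB v t ⊆ BB v t' :=
  ball_subset_ball (div_le_div_of_nonneg_right h (Nat.cast_nonneg _))

lemma ball_fin (c r : ℝ) : volume (ball c r) ≠ ⊤ := measure_ball_lt_top.ne

lemma disj_sum {ι : Type*} (D : Finset ι) (x r : ι → ℝ) (hr : ∀ i ∈ D, 0 ≤ r i)
    (hd : (D : Set ι).PairwiseDisjoint fun i => ball (x i) (r i)) :
    volume.real (⋃ i ∈ D, ball (x i) (r i)) = ∑ i ∈ D, 2 * r i := by
  rw [measureReal_biUnion_finset hd (fun _ _ => measurableSet_ball) (fun _ _ => ball_fin _ _)]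
  exact Finset.sum_congr rfl fun i hi => Real.volume_real_ball (hr i hi)

lemma disj_le {ι : Type*} (D : Finset ι) (x r : ι → ℝ) (hr : ∀ i ∈ D, 0 ≤ r i)
    (hd : (D : Set ι).PairwiseDisjoint fun i => ball (x i) (r i)) (c R : ℝ) (hR : 0 ≤ R)
    (hs : ∀ i ∈ D, ball (x i) (r i) ⊆ ball c R) : ∑ i ∈ D, 2 * r i ≤ 2 * R := by
  rw [← disj_sum D x r hr hd, ← Real.volume_real_ball (a := c) hR]
  exact measureReal_mono (iUnion₂_subset hs) (ball_fin _ _)

/-- a good selection of rational points at one scale -/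
structure Sel (Res : ℕ × ℤ → Prop) (δ η c R : ℝ) (D : Finset (ℕ × ℤ)) : Prop where
  res : ∀ v ∈ D, Res v
  und : ∀ v ∈ D, ∀ v', Res v' → (BB v δ ∩ BB v' δ).Nonempty → v.1 < 2 * v'.1
  sub : ∀ v ∈ D, BB v η ⊆ ball c (2 * R)
  disj : (D : Set (ℕ × ℤ)).PairwiseDisjoint fun v => BB v η
  big : 2 * R ≤ 5 * ∑ v ∈ D, 2 * (η / v.1)

lemma select (Res : ℕ × ℤ → Prop) (Q : ℕ) (hR : ∀ v, Res v → 1 ≤ v.1 ∧ v.1 ≤ Q) (δ η c R : ℝ)
    (hδ : 0 < δ) (hη : 4 * δ ≤ η) (hηR : 2 * η ≤ R) (cover : ∀ x, ∃ v, Res v ∧ x ∈ BB v η) :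
    ∃ D, Sel Res δ η c R D := by
  classical
  set t : Set (ℕ × ℤ) := {v | Res v ∧ (∀ v', Res v' → (BB v δ ∩ BB v' δ).Nonempty → v.1 < 2 * v'.1) ∧
    BB v η ⊆ ball c (2 * R)} with ht
  have hη0 : 0 < η := by linarith
  have hle : ∀ v, Res v → η / v.1 ≤ η := fun v hv =>
    div_le_self hη0.le (by exact_mod_cast (hR v hv).1)
  have hcov : ∀ x ∈ ball c R, ∃ v ∈ t, x ∈ BB v η := by
    intro x hx
    have hex : ∃ q, ∃ v, v.1 = q ∧ Res v ∧ x ∈ BB v η := by
      obtain ⟨v, h⟩ := cover x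
      exact ⟨v.1, v, rfl, h⟩
    obtain ⟨v, h1, h2, h3⟩ := Nat.find_spec hex
    refine ⟨v, ⟨h2, ?_, ?_⟩, h3⟩
    · rintro v' h4 ⟨y, hy, hy'⟩
      by_contra hc
      have a1 := (hR v h2).1
      have a2 := (hR v' h4).1
      refine Nat.find_min hex (m := v'.1) (by omega) ⟨v', rfl, h4, ?_⟩
      have b1 : (0:ℝ) < v'.1 := by exact_mod_cast a2
      have b2 : 2 * (v'.1:ℝ) ≤ v.1 := by exact_mod_cast not_lt.1 hc
      unfold BB at h3 hy hy' ⊢
      rw [mem_ball] at h3 hy hy' ⊢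
      have c1 := dist_triangle4 x ((v.2:ℝ) / v.1) y ((v'.2:ℝ) / v'.1)
      rw [dist_comm _ y] at c1
      have c2 : η / v.1 ≤ η / v'.1 / 2 := by
        rw [div_div]; exact div_le_div_of_nonneg_left hη0.le (by positivity) (by linarith)
      have c3 : δ / v.1 ≤ δ / v'.1 / 2 := by
        rw [div_div]; exact div_le_div_of_nonneg_left hδ.le (by positivity) (by linarith)
      have c4 : 4 * (δ / v'.1) ≤ η / v'.1 := by
        rw [← mul_div_assoc]; exact div_le_div_of_nonneg_right hη b1.le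
      have c5 : 0 < δ / v'.1 := by positivity
      linarith
    · intro y hy
      unfold BB at h3 hy
      rw [mem_ball] at h3 hy hx ⊢
      have c1 := dist_triangle4 y ((v.2:ℝ) / v.1) x c
      rw [dist_comm _ x] at c1
      have := hle v h2
      linarith
  have hfin : t.Finite := by
    refine (Finset.Icc 1 Q ×ˢ Finset.Icc (-⌈Q * (|c| + 2 * R)⌉) ⌈Q * (|c| + 2 * R)⌉).finite_toSet.subset ?_
    rintro v ⟨h1, _, h3⟩
    obtain ⟨a1, a2⟩ := hR v h1
    have b1 : (0:ℝ) < v.1 := by exact_mod_cast a1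
    have b2 : (v.1:ℝ) ≤ Q := by exact_mod_cast a2
    rw [Finset.mem_coe, Finset.mem_product, Finset.mem_Icc, Finset.mem_Icc, ← abs_le]
    refine ⟨⟨a1, a2⟩, ?_⟩
    have h4 := h3 (mem_ball_self (by positivity))
    rw [mem_ball, Real.dist_eq] at h4
    have h5 : |(v.2:ℝ) / v.1| ≤ |c| + 2 * R := by linarith [abs_sub_abs_le_abs_sub ((v.2:ℝ) / v.1) c]
    rw [abs_div, abs_of_pos b1, div_le_iff₀ b1] at h5
    have h6 : |(v.2:ℝ)| ≤ Q * (|c| + 2 * R) := by
      have : 0 ≤ |c| + 2 * R := by have := abs_nonneg c; linarith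
      nlinarith
    have h7 := h6.trans (Int.le_ceil _)
    exact_mod_cast h7
  obtain ⟨u, hu, hd, hc⟩ := Vitali.exists_disjoint_subfamily_covering_enlargement_ball t
    (fun v => (v.2:ℝ) / v.1) (fun v => η / v.1) η (fun v hv => hle v hv.1) 5 (by norm_num)
  have hufin := hfin.subset hu
  refine ⟨hufin.toFinset, fun v hv => (hu (hufin.mem_toFinset.1 hv)).1,
    fun v hv => (hu (hufin.mem_toFinset.1 hv)).2.1, fun v hv => (hu (hufin.mem_toFinset.1 hv)).2.2,
    by rw [hufin.coe_toFinset]; exact hd, ?_⟩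
  have hsub : ball c R ⊆ ⋃ v ∈ hufin.toFinset, ball ((v.2:ℝ) / v.1) (5 * (η / v.1)) := by
    intro x hx
    obtain ⟨v, hv, hx'⟩ := hcov x hx
    obtain ⟨b, hb, hb'⟩ := hc v hv
    exact mem_biUnion (hufin.mem_toFinset.2 hb) (hb' hx')
  rw [← Real.volume_real_ball (a := c) (by linarith), Finset.mul_sum]
  refine (measureReal_mono hsub ?_).trans ((measureReal_biUnion_finset_le _ _).trans_eq ?_)
  · exact (measure_biUnion_lt_top (Finset.finite_toSet _) fun x _ => (ball_fin _ _).lt_top).ne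
  · refine Finset.sum_congr rfl fun v _ => ?_
    rw [Real.volume_real_ball (by positivity)]
    ring

/-- shrunk union -/
def AA (D : Finset (ℕ × ℤ)) (δ : ℝ) : Set ℝ := ⋃ v ∈ D, BB v δ

lemma AA_fin (D : Finset (ℕ × ℤ)) (δ : ℝ) : volume (AA D δ) ≠ ⊤ :=
  (measure_biUnion_lt_top (Finset.finite_toSet _) fun x _ => (ball_fin _ _).lt_top).ne

lemma AA_meas (D : Finset (ℕ × ℤ)) (δ : ℝ) : MeasurableSet (AA D δ) :=
  Finset.measurableSet_biUnion _ fun _ _ => measurableSet_ball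

lemma AA_vol {Res : ℕ × ℤ → Prop} {δ η c R : ℝ} {D : Finset (ℕ × ℤ)} (h : Sel Res δ η c R D)
    (hδ : 0 < δ) (hη : δ ≤ η) : volume.real (AA D δ) = ∑ v ∈ D, 2 * (δ / v.1) :=
  disj_sum D _ _ (fun _ _ => by positivity) (h.disj.mono fun v => BB_mono v hη)

lemma AA_low {Res : ℕ × ℤ → Prop} {δ η c R : ℝ} {D : Finset (ℕ × ℤ)} (h : Sel Res δ η c R D)
    (hδ : 0 < δ) (hη : δ ≤ η) : δ / η * (2 * R / 5) ≤ volume.real (AA D δ) := by
  have hη0 : 0 < η := by linarith
  rw [AA_vol h hδ hη]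
  have : ∑ v ∈ D, 2 * (δ / v.1) = δ / η * ∑ v ∈ D, 2 * (η / v.1) := by
    rw [Finset.mul_sum]
    exact Finset.sum_congr rfl fun v _ => by field_simp
  rw [this]
  exact mul_le_mul_of_nonneg_left (by linarith [h.big]) (by positivity)

lemma overlap {Res Res' : ℕ × ℤ → Prop} {δ η δ' η' c R : ℝ} {D D' : Finset (ℕ × ℤ)}
    (h : Sel Res δ η c R D) (h' : Sel Res' δ' η' c R D') (hδ' : 0 < δ') (hδ : 2 * δ' ≤ δ) (hη : δ ≤ η)
    (hη' : δ' ≤ η') (h1 : ∀ v, Res v → 1 ≤ v.1) (h1' : ∀ v, Res' v → 1 ≤ v.1)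
    (h2 : ∀ v v', Res v → Res' v' → v'.1 ≤ v.1 → Res v') :
    volume.real (AA D δ ∩ AA D' δ') ≤ 3 * (δ' / η' + 2 * (δ' / δ)) * volume.real (AA D δ) := by
  classical
  have hδ0 : 0 < δ := by linarith
  have hη0 : 0 < η' := by linarith
  rw [AA_vol h hδ0 hη, Finset.mul_sum]
  have e : AA D δ ∩ AA D' δ' = ⋃ v ∈ D, (BB v δ ∩ AA D' δ') := by
    rw [AA, iUnion₂_inter]
  rw [e]
  refine (measureReal_biUnion_finset_le _ _).trans (Finset.sum_le_sum fun v hv => ?_)
  set s := δ / v.1 with hs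
  have hq : (0:ℝ) < v.1 := by exact_mod_cast h1 v (h.res v hv)
  have hs0 : 0 < s := by positivity
  set F := D'.filter fun v' => (BB v δ ∩ BB v' δ').Nonempty with hF
  have hsub : BB v δ ∩ AA D' δ' ⊆ AA F δ' := by
    rintro x ⟨hx, hx'⟩
    simp only [AA, mem_iUnion] at hx' ⊢
    obtain ⟨v', a1, a2⟩ := hx'
    exact ⟨v', Finset.mem_filter.2 ⟨a1, x, hx, a2⟩, a2⟩
  have key : ∀ v' ∈ F, δ' / v'.1 ≤ 2 * (δ' / δ) * s := by
    intro v' hv'
    obtain ⟨a1, a2⟩ := Finset.mem_filter.1 hv'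
    have hq' : (0:ℝ) < v'.1 := by exact_mod_cast h1' v' (h'.res v' a1)
    have a3 : v.1 < 2 * v'.1 := by
      by_contra hc
      exact hc (h.und v hv v' (h2 v v' (h.res v hv) (h'.res v' a1) (by omega))
        (a2.mono (inter_subset_inter_right _ (BB_mono v' (by linarith)))))
    have a4 : (v.1:ℝ) ≤ 2 * v'.1 := by exact_mod_cast a3.le
    rw [hs, show 2 * (δ' / δ) * (δ / v.1) = 2 * δ' / v.1 by field_simp, div_le_div_iff₀ hq' hq]
    nlinarith
  have hr : δ' / δ ≤ 1 / 2 := by rw [div_le_iff₀ hδ0]; linarith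
  have hd := disj_le F (fun v' => (v'.2:ℝ) / v'.1) (fun v' => min (η' / v'.1) s)
    (fun _ _ => le_min (by positivity) hs0.le)
    ((h'.disj.subset (Finset.coe_subset.2 (Finset.filter_subset _ _))).mono fun v' =>
      ball_subset_ball (min_le_left _ _)) ((v.2:ℝ) / v.1) (3 * s) (by positivity) (by
      intro v' hv' y hy
      obtain ⟨_, z, a2, a3⟩ := Finset.mem_filter.1 hv'
      have a4 := key v' hv'
      unfold BB at a2 a3
      rw [mem_ball] at hy a2 a3 ⊢
      have c1 := dist_triangle4 y ((v'.2:ℝ) / v'.1) z ((v.2:ℝ) / v.1)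
      rw [dist_comm _ z] at c1
      have := min_le_right (η' / v'.1) s
      nlinarith)
  refine (measureReal_mono hsub (AA_fin _ _)).trans ((measureReal_biUnion_finset_le _ _).trans ?_)
  calc ∑ v' ∈ F, volume.real (BB v' δ') ≤ ∑ v' ∈ F, (δ' / η' + 2 * (δ' / δ)) * (2 * min (η' / v'.1) s) := by
        refine Finset.sum_le_sum fun v' hv' => ?_
        rw [BB, Real.volume_real_ball (by positivity)]
        have p1 : 0 < δ' / η' := by positivity
        have p2 : 0 < δ' / δ := by positivity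
        rcases le_total (η' / v'.1) s with hh | hh
        · rw [min_eq_left hh]
          have : δ' / v'.1 = δ' / η' * (η' / v'.1) := by field_simp
          have p3 : 0 ≤ η' / v'.1 := by positivity
          nlinarith
        · rw [min_eq_right hh]
          nlinarith [key v' hv']
    _ ≤ (δ' / η' + 2 * (δ' / δ)) * (2 * (3 * s)) := by
        rw [← Finset.mul_sum]
        exact mul_le_mul_of_nonneg_left hd (by positivity)
    _ = _ := by ring

lemma bonf (A : ℕ → Set ℝ) (hm : ∀ j, MeasurableSet (A j)) (hf : ∀ j, volume (A j) ≠ ⊤) (T : Finset ℕ)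
    (h : ∀ j ∈ T, ∑ j' ∈ T.filter (j < ·), volume.real (A j ∩ A j') ≤ 3 / 4 * volume.real (A j)) :
    1 / 4 * ∑ j ∈ T, volume.real (A j) ≤ volume.real (⋃ j ∈ T, A j) := by
  induction T using Finset.induction_on_min with
  | empty => simp
  | insert a s ha ih =>
    have hna : a ∉ s := fun hh => lt_irrefl _ (ha a hh)
    have ih' := ih fun j hj => le_trans (Finset.sum_le_sum_of_subset_of_nonneg
      (Finset.filter_subset_filter _ (Finset.subset_insert _ _)) fun _ _ _ => measureReal_nonneg)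
      (h j (Finset.mem_insert_of_mem hj))
    rw [Finset.sum_insert hna, Finset.set_biUnion_insert]
    set U := ⋃ i ∈ s, A i with hU
    have hUm : MeasurableSet U := Finset.measurableSet_biUnion s fun i _ => hm i
    have e1 : volume.real (A a ∪ U) + volume.real (A a ∩ U) = volume.real (A a) + volume.real U :=
      measureReal_union_add_inter hUm (hf a)
        (measure_biUnion_lt_top (Finset.finite_toSet _) fun x _ => (hf x).lt_top).ne
    have e2 : volume.real (A a ∩ U) ≤ ∑ j ∈ s, volume.real (A a ∩ A j) := by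
      rw [hU, inter_iUnion₂]
      exact measureReal_biUnion_finset_le s _
    have e3 : ∑ j ∈ s, volume.real (A a ∩ A j) ≤ ∑ j' ∈ (insert a s).filter (a < ·), volume.real (A a ∩ A j') :=
      Finset.sum_le_sum_of_subset_of_nonneg (fun j hj => Finset.mem_filter.2
        ⟨Finset.mem_insert_of_mem hj, ha j hj⟩) fun _ _ _ => measureReal_nonneg
    have e4 := h a (Finset.mem_insert_self _ _)
    linarith

end Pool.Agent.H53.Aff
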