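import Mathlib
import Pool.Agent.H53.AffA

open MeasureTheory Filter Set Topology Metric

namespace Pool.Agent.H53.Aff

lemma local_bound (Res : ℕ → ℕ × ℤ → Prop) (Q : ℕ → ℕ) (η : ℕ → ℝ) (G : ℕ → Prop) [DecidablePred G]
    (hR : ∀ j v, Res j v → 1 ≤ v.1 ∧ v.1 ≤ Q j)
    (h2 : ∀ j j' v v', j < j' → Res j v → Res j' v' → v'.1 ≤ v.1 → Res j v')
    (cover : ∀ j, G j → ∀ x, ∃ v, Res j v ∧ x ∈ BB v (η j))
    (hη : ∀ j, G j → 16 * (1 / 32 : ℝ) ^ j ≤ η j)
    (hη0 : ∀ ε > 0, ∀ᶠ j in atTop, G j → η j ≤ ε)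
    (hdiv : ¬ Summable fun j => if G j then (1 / 32 : ℝ) ^ j / η j else 0)
    (N : ℕ) (c R : ℝ) (hR0 : 0 < R) :
    R / 160 ≤ volume.real ((⋃ j ≥ N, ⋃ v ∈ {v | Res j v}, BB v ((1 / 32) ^ j)) ∩ ball c (2 * R)) := by
  set δ : ℕ → ℝ := fun j => (1 / 32) ^ j with hδ
  have hδ0 : ∀ j, 0 < δ j := fun j => by positivity
  obtain ⟨N1, hN1⟩ := eventually_atTop.1 (hη0 (R / 2) (by positivity))
  set N' := max N N1 with hN'
  set a : ℕ → ℝ := fun i => if G i then δ i / η i else 0 with ha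
  have hηp : ∀ j, G j → 0 < η j := fun j hj => lt_of_lt_of_le (by positivity) (hη j hj)
  have a0 : ∀ i, 0 ≤ a i := fun i => by
    simp only [ha]; split_ifs with h
    · exact div_nonneg (hδ0 i).le (hηp i h).le
    · exact le_rfl
  have a1 : ∀ i, a i ≤ 1 / 16 := fun i => by
    simp only [ha]; split_ifs with h
    · rw [div_le_iff₀ (hηp i h)]; linarith [hη i h]
    · norm_num
  have hex : ∃ M, (1 / 16 : ℝ) ≤ ∑ i ∈ Finset.Ico N' M, a i := by
    have ht := (not_summable_iff_tendsto_nat_atTop_of_nonneg a0).1 hdiv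
    obtain ⟨M, hM1, hM2⟩ := ((ht.eventually_ge_atTop (∑ i ∈ Finset.range N', a i + 1 / 16)).and
      (eventually_ge_atTop N')).exists
    refine ⟨M, ?_⟩
    rw [Finset.sum_Ico_eq_sub _ hM2]
    linarith
  classical
  set M := Nat.find hex with hM
  have hM1 : (1 / 16 : ℝ) ≤ ∑ i ∈ Finset.Ico N' M, a i := Nat.find_spec hex
  have hNM : N' < M := by
    by_contra hc
    rw [Finset.Ico_eq_empty_of_le (not_lt.1 hc)] at hM1
    norm_num at hM1
  have hM2 : ∑ i ∈ Finset.Ico N' M, a i ≤ 1 / 8 := by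
    obtain ⟨M', hM'⟩ : ∃ M', M = M' + 1 := ⟨M - 1, by omega⟩
    have h3 := Nat.find_min hex (m := M') (by omega)
    rw [hM', Finset.sum_Ico_succ_top (by omega)]
    linarith [not_le.1 h3, a1 M']
  set T := (Finset.Ico N' M).filter G with hT
  have hTs : ∑ i ∈ T, δ i / η i = ∑ i ∈ Finset.Ico N' M, a i := Finset.sum_filter _ _
  have hsel : ∀ j, ∃ D, j ∈ T → Sel (Res j) (δ j) (η j) c R D := by
    intro j
    by_cases hj : j ∈ T
    · obtain ⟨b1, b2⟩ := Finset.mem_filter.1 hj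
      have b3 : N1 ≤ j := (le_max_right _ _).trans (Finset.mem_Ico.1 b1).1
      obtain ⟨D, hD⟩ := select (Res j) (Q j) (hR j) (δ j) (η j) c R (hδ0 j)
        (by linarith [hη j b2, hδ0 j]) (by linarith [hN1 j b3 b2]) (cover j b2)
      exact ⟨D, fun _ => hD⟩
    · exact ⟨∅, fun h => absurd h hj⟩
  choose D hD using hsel
  have hle : ∀ j ∈ T, δ j ≤ η j := fun j hj => by
    linarith [hη j (Finset.mem_filter.1 hj).2, hδ0 j]
  have hb := bonf (fun j => AA (D j) (δ j)) (fun j => AA_meas _ _) (fun j => AA_fin _ _) T (by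
    intro j hj
    have step : ∀ j' ∈ T.filter (j < ·), volume.real (AA (D j) (δ j) ∩ AA (D j') (δ j')) ≤
        3 * (δ j' / η j' + 2 * (δ j' / δ j)) * volume.real (AA (D j) (δ j)) := by
      intro j' hj'
      obtain ⟨b1, b2⟩ := Finset.mem_filter.1 hj'
      refine overlap (hD j hj) (hD j' b1) (hδ0 j') ?_ (hle j hj) (hle j' b1) (fun v h => (hR j v h).1)
        (fun v h => (hR j' v h).1) (fun v v' => h2 j j' v v' b2)
      have : δ j' ≤ (1 / 32) ^ (j + 1) := pow_le_pow_of_le_one (by norm_num) (by norm_num) b2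
      rw [pow_succ] at this
      linarith [hδ0 j]
    refine (Finset.sum_le_sum step).trans ?_
    rw [← Finset.sum_mul, ← Finset.mul_sum, Finset.sum_add_distrib, ← Finset.mul_sum, ← Finset.sum_div]
    refine mul_le_mul_of_nonneg_right ?_ measureReal_nonneg
    have c1 : ∑ j' ∈ T.filter (j < ·), δ j' / η j' ≤ 1 / 8 := by
      refine le_trans (Finset.sum_le_sum_of_subset_of_nonneg (Finset.filter_subset _ _) fun i hi _ => ?_)
        (hTs.le.trans hM2)
      exact div_nonneg (hδ0 i).le (hηp i (Finset.mem_filter.1 hi).2).le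
    have c2 : ∑ j' ∈ T.filter (j < ·), δ j' ≤ δ j / 31 := by
      refine le_trans (Finset.sum_le_sum_of_subset_of_nonneg (t := Finset.Ico (j + 1) M) ?_
        fun i _ _ => (hδ0 i).le) ((geom_sum_Ico_le_of_lt_one (by norm_num) (by norm_num)).trans_eq ?_)
      · intro i hi
        obtain ⟨b1, b2⟩ := Finset.mem_filter.1 hi
        exact Finset.mem_Ico.2 ⟨b2, (Finset.mem_Ico.1 (Finset.mem_filter.1 b1).1).2⟩
      · simp only [hδ, pow_succ]; ring
    have c3 : (∑ j' ∈ T.filter (j < ·), δ j') / δ j ≤ 1 / 31 := by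
      rw [div_le_iff₀ (hδ0 j)]; linarith
    linarith)
  have hlow : 1 / 16 * (2 * R / 5) ≤ ∑ j ∈ T, volume.real (AA (D j) (δ j)) := by
    refine le_trans ?_ (Finset.sum_le_sum fun j hj => AA_low (hD j hj) (hδ0 j) (hle j hj))
    rw [← Finset.sum_mul, hTs]
    exact mul_le_mul_of_nonneg_right hM1 (by positivity)
  refine le_trans (by linarith) (hb.trans (measureReal_mono ?_
    (ne_top_of_le_ne_top (ball_fin _ _) (measure_mono inter_subset_right))))
  intro x hx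
  simp only [AA, mem_iUnion] at hx
  obtain ⟨j, hj, v, hv, hx⟩ := hx
  refine ⟨?_, (hD j hj).sub v hv (BB_mono v (hle j hj) hx)⟩
  simp only [mem_iUnion]
  exact ⟨j, (le_max_left _ _).trans (Finset.mem_Ico.1 (Finset.mem_filter.1 hj).1).1, v, (hD j hj).res v hv, hx⟩

lemma dens (U : Set ℝ) (hU : MeasurableSet U)
    (h : ∀ c R : ℝ, 0 < R → R / 160 ≤ volume.real (U ∩ ball c (2 * R))) : ∀ᵐ x, x ∈ U := by
  filter_upwards [Besicovitch.ae_tendsto_measure_inter_div_of_measurableSet volume hU] with x hx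
  by_contra hn
  rw [indicator_of_notMem hn] at hx
  have h1 := hx.eventually_lt_const (show (0:ENNReal) < ENNReal.ofReal (1 / 640) by simp)
  obtain ⟨r, hr, hr0⟩ := (h1.and self_mem_nhdsWithin).exists
  have hr0 : 0 < r := hr0
  refine absurd hr (not_lt.2 ?_)
  rw [ENNReal.le_div_iff_mul_le (by simp [hr0]) (Or.inl measure_closedBall_lt_top.ne), Real.volume_closedBall,
    ← ENNReal.ofReal_mul (by norm_num)]
  have h2 := h x (r / 2) (by positivity)
  rw [show 2 * (r / 2) = r by ring] at h2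
  refine le_trans ?_ (measure_mono (inter_subset_inter_right U ball_subset_closedBall))
  rw [ENNReal.ofReal_le_iff_le_toReal (ne_top_of_le_ne_top (ball_fin _ _) (measure_mono inter_subset_right))]
  refine le_trans (by linarith) h2

lemma abstr (Res : ℕ → ℕ × ℤ → Prop) (Q : ℕ → ℕ) (η : ℕ → ℝ) (G : ℕ → Prop) [DecidablePred G]
    (hR : ∀ j v, Res j v → 1 ≤ v.1 ∧ v.1 ≤ Q j)
    (h2 : ∀ j j' v v', j < j' → Res j v → Res j' v' → v'.1 ≤ v.1 → Res j v')
    (cover : ∀ j, G j → ∀ x, ∃ v, Res j v ∧ x ∈ BB v (η j))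
    (hη : ∀ j, G j → 16 * (1 / 32 : ℝ) ^ j ≤ η j)
    (hη0 : ∀ ε > 0, ∀ᶠ j in atTop, G j → η j ≤ ε)
    (hdiv : ¬ Summable fun j => if G j then (1 / 32 : ℝ) ^ j / η j else 0) :
    ∀ᵐ x : ℝ, ∀ N : ℕ, ∃ j ≥ N, ∃ v, Res j v ∧ |v.1 * x - v.2| < (1 / 32) ^ j := by
  rw [ae_all_iff]
  intro N
  have := dens _ (isOpen_iUnion fun j => isOpen_iUnion fun _ => isOpen_biUnion fun _ _ => isOpen_ball).measurableSet
    (local_bound Res Q η G hR h2 cover hη hη0 hdiv N)
  filter_upwards [this] with x hx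
  simp only [mem_iUnion] at hx
  obtain ⟨j, hj, v, hv, hx⟩ := hx
  exact ⟨j, hj, v, hv, (BB_mem v (hR j v hv).1 _ _).1 hx⟩

end Pool.Agent.H53.Aff
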