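import Mathlib
import Pool.Agent.H53.AffB

open MeasureTheory Filter Set Topology Metric

namespace Pool.Agent.H53.Aff

lemma box (M : ℕ) (hM : 0 < M) (y : ℝ) : ⌊Int.fract y * M⌋₊ < M := by
  have hM0 : (0:ℝ) < M := by exact_mod_cast hM
  rw [Nat.floor_lt (mul_nonneg (Int.fract_nonneg _) hM0.le)]
  nlinarith [Int.fract_lt_one y]

lemma box_close (M : ℕ) (hM : 0 < M) (y z : ℝ) (h : ⌊Int.fract y * M⌋₊ = ⌊Int.fract z * M⌋₊) :
    |y - z - ((⌊y⌋ - ⌊z⌋ : ℤ) : ℝ)| < 1 / M := by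
  have hM0 : (0:ℝ) < M := by exact_mod_cast hM
  have a1 := Nat.floor_le (mul_nonneg (Int.fract_nonneg y) hM0.le)
  have a2 := Nat.lt_floor_add_one (Int.fract y * M)
  have a3 := Nat.floor_le (mul_nonneg (Int.fract_nonneg z) hM0.le)
  have a4 := Nat.lt_floor_add_one (Int.fract z * M)
  rw [h] at a1 a2
  have : y - z - ((⌊y⌋ - ⌊z⌋ : ℤ) : ℝ) = Int.fract y - Int.fract z := by
    simp only [Int.fract]; push_cast; ring
  rw [this, lt_div_iff₀ hM0, ← abs_of_pos hM0, ← abs_mul, abs_lt]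
  constructor <;> nlinarith

lemma pigeon {ι : Type*} [Fintype ι] (a b : ι → ℝ) (x : ℝ) (M L Q : ℕ) (hM : 0 < M) (hL : 0 < L)
    (hQ : M * L ^ Fintype.card ι ≤ Q) :
    ∃ v : ℕ × ℤ, (1 ≤ v.1 ∧ v.1 ≤ Q ∧ ∀ i, ∃ p : ℤ, |a i * v.2 + b i * v.1 - p| < 1 / L) ∧
      |v.1 * x - v.2| < 1 / M := by
  classical
  set y : ℕ → ι → ℝ := fun q i => a i * ⌊q * x⌋ + b i * q with hy
  set f : ℕ → Fin M × (ι → Fin L) := fun q => (⟨_, box M hM (q * x)⟩, fun i => ⟨_, box L hL (y q i)⟩) with hf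
  have key : ∀ q q', q' < q → q ≤ Q → f q = f q' → ∃ v : ℕ × ℤ, (1 ≤ v.1 ∧ v.1 ≤ Q ∧
      ∀ i, ∃ p : ℤ, |a i * v.2 + b i * v.1 - p| < 1 / L) ∧ |v.1 * x - v.2| < 1 / M := by
    intro q q' h1 h2 h3
    simp only [hf, Prod.mk.injEq, Fin.mk.injEq] at h3
    refine ⟨(q - q', ⌊q * x⌋ - ⌊q' * x⌋), ⟨by simp only; omega, by simp only; omega, fun i => ?_⟩, ?_⟩
    · have := box_close L hL _ _ (Fin.mk.inj (congrFun h3.2 i))
      refine ⟨⌊y q i⌋ - ⌊y q' i⌋, ?_⟩
      convert this using 3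
      simp only [hy]
      push_cast [Nat.cast_sub h1.le]
      ring
    · have := box_close M hM _ _ h3.1
      convert this using 3
      push_cast [Nat.cast_sub h1.le]
      ring
  obtain ⟨q, hq, q', hq', hne, he⟩ := Finset.exists_ne_map_eq_of_card_lt_of_maps_to
    (s := Finset.range (Q + 1)) (t := Finset.univ) (f := f) (by
      simp only [Finset.card_univ, Fintype.card_prod, Fintype.card_fin, Fintype.card_fun, Finset.card_range]
      omega) (fun _ _ => Finset.mem_coe.2 (Finset.mem_univ _))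
  rw [Finset.mem_range] at hq hq'
  rcases lt_or_gt_of_ne hne with h | h
  · exact key q' q h (by omega) he.symm
  · exact key q q' h (by omega) he

lemma summ (φ : ℕ → ℝ) (h0 : ∀ q, 0 ≤ φ q) (hanti : Antitone φ) (n : ℕ) (hn : n ≠ 0) (Q : ℕ → ℕ)
    (hQ : ∀ᶠ j in atTop, φ (Q j + 1) ≤ (1 / 32) ^ j)
    (hs : Summable fun j => (Q j : ℝ) * ((1 / 32) ^ j) ^ n) : Summable fun q => φ q ^ n := by
  obtain ⟨j0, hj0⟩ := eventually_atTop.1 hQ
  have L1 : ∀ j ≥ j0, ∀ N : ℕ, ∑ q ∈ Finset.range (N + 1), φ q ^ n ≤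
      ∑ q ∈ Finset.range (Q j + 1), φ q ^ n + N * ((1 / 32) ^ j) ^ n := by
    intro j hj N
    rcases le_total N (Q j) with h | h
    · have : ∑ q ∈ Finset.range (N + 1), φ q ^ n ≤ ∑ q ∈ Finset.range (Q j + 1), φ q ^ n :=
        Finset.sum_le_sum_of_subset_of_nonneg (Finset.range_mono (by omega)) fun q _ _ => pow_nonneg (h0 q) _
      have : (0:ℝ) ≤ N * ((1 / 32) ^ j) ^ n := by positivity
      linarith
    · rw [← Finset.sum_range_add_sum_Ico _ (show Q j + 1 ≤ N + 1 by omega)]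
      refine add_le_add le_rfl ((Finset.sum_le_card_nsmul _ _ (((1 / 32) ^ j) ^ n) fun q hq => ?_).trans ?_)
      · exact pow_le_pow_left₀ (h0 q) ((hanti (Finset.mem_Ico.1 hq).1).trans (hj0 j hj)) n
      · rw [Nat.card_Ico, nsmul_eq_mul]
        exact mul_le_mul_of_nonneg_right (by exact_mod_cast (by omega)) (by positivity)
  set C0 := ∑ q ∈ Finset.range (Q j0 + 1), φ q ^ n with hC0
  set V : ℕ → ℝ := fun j => (Q j : ℝ) * ((1 / 32) ^ j) ^ n with hV
  have V0 : ∀ j, 0 ≤ V j := fun j => by positivity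
  have L2 : ∀ j ≥ j0, ∑ q ∈ Finset.range (Q j + 1), φ q ^ n ≤ C0 + 32 ^ n * ∑ i ∈ Finset.range (j + 1), V i := by
    intro j hj
    induction j, hj using Nat.le_induction with
    | base =>
      have : 0 ≤ 32 ^ n * ∑ i ∈ Finset.range (j0 + 1), V i :=
        mul_nonneg (by positivity) (Finset.sum_nonneg fun i _ => V0 i)
      linarith
    | succ j hj ih =>
      have h1 := L1 j hj (Q (j + 1))
      rw [Finset.sum_range_succ _ (j + 1), mul_add]
      have : (32:ℝ) ^ n * V (j + 1) = Q (j + 1) * ((1 / 32) ^ j) ^ n := by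
        simp only [hV]
        rw [mul_left_comm, ← mul_pow, pow_succ]
        congr 2
        ring
      linarith
  refine summable_of_sum_range_le (c := C0 + 32 ^ n * ∑' i, V i) (fun q => pow_nonneg (h0 q) _) fun N => ?_
  have ht : Tendsto (fun j : ℕ => C0 + 32 ^ n * ∑' i, V i + N * ((1 / 32 : ℝ) ^ j) ^ n) atTop
      (𝓝 (C0 + 32 ^ n * ∑' i, V i + N * (0:ℝ) ^ n)) :=
    tendsto_const_nhds.add (((tendsto_pow_atTop_nhds_zero_of_lt_one (by norm_num) (by norm_num)).pow n).const_mul _)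
  rw [zero_pow hn, mul_zero, add_zero] at ht
  refine ge_of_tendsto ht ((eventually_ge_atTop j0).mono fun j hj => ?_)
  have h1 := L1 j hj N
  have h2 := L2 j hj
  have h3 := hs.sum_le_tsum (Finset.range (j + 1)) fun i _ => V0 i
  have h4 := mul_le_mul_of_nonneg_left h3 (show (0:ℝ) ≤ 32 ^ n by positivity)
  rw [Finset.sum_range_succ] at h1
  have := pow_nonneg (h0 N) n
  linarith

theorem line0 {ι : Type*} [Fintype ι] (a b : ι → ℝ) (φ : ℕ → ℝ) (h0 : ∀ q, 0 ≤ φ q) (hanti : Antitone φ)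
    (hdiv : ¬ Summable fun q => φ q ^ (Fintype.card ι + 1)) :
    ∀ᵐ x : ℝ, ∃ᶠ q : ℕ in atTop, ∃ r : ℤ, |q * x - r| < φ q ∧ ∀ i, ∃ p : ℤ, |a i * r + b i * q - p| < φ q := by
  classical
  set m := Fintype.card ι with hm
  set δ : ℕ → ℝ := fun j => (1 / 32) ^ j with hδ
  have hδ0 : ∀ j, 0 < δ j := fun j => by positivity
  have hδL : ∀ j, δ j = 1 / ((32 ^ j : ℕ) : ℝ) := fun j => by simp [hδ]
  set Q : ℕ → ℕ := fun j => Nat.findGreatest (fun q => δ j ≤ φ q) ((32 ^ j) ^ (m + 1) / 16) with hQ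
  set M : ℕ → ℕ := fun j => Q j / (32 ^ j) ^ m with hM
  have hQφ : ∀ j q, 1 ≤ q → q ≤ Q j → δ j ≤ φ q := by
    intro j q h1 h2
    have : δ j ≤ φ (Q j) := Nat.findGreatest_of_ne_zero (P := fun q => δ j ≤ φ q) rfl (by
      show Q j ≠ 0
      omega)
    exact this.trans (hanti h2)
  have hMQ : ∀ j, M j * (32 ^ j) ^ m ≤ Q j := fun j => Nat.div_mul_le_self _ _
  have hM16 : ∀ j, 16 * M j ≤ 32 ^ j := by
    intro j
    have h1 : Q j ≤ (32 ^ j) ^ (m + 1) / 16 := Nat.findGreatest_le _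
    have h2 : 16 * (M j * (32 ^ j) ^ m) ≤ (32 ^ j) ^ (m + 1) := by
      have := hMQ j
      omega
    rw [pow_succ', ← mul_assoc] at h2
    exact Nat.le_of_mul_le_mul_right h2 (by positivity)
  set Res : ℕ → ℕ × ℤ → Prop := fun j v => 1 ≤ v.1 ∧ v.1 ≤ Q j ∧
    ∀ i, ∃ p : ℤ, |a i * v.2 + b i * v.1 - p| < δ j with hRes
  have hMp : ∀ j, 2 ^ j ≤ M j → 0 < M j := fun j h => lt_of_lt_of_le (by positivity) h
  have main := abstr Res Q (fun j => 1 / (M j : ℝ)) (fun j => 2 ^ j ≤ M j) (fun j v h => ⟨h.1, h.2.1⟩)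
    (fun j j' v v' h h1 h2 h3 => ⟨h2.1, h3.trans h1.2.1, fun i => by
      obtain ⟨p, hp⟩ := h2.2.2 i
      exact ⟨p, hp.trans_le (pow_le_pow_of_le_one (by norm_num) (by norm_num) h.le)⟩⟩)
    (fun j hj x => by
      obtain ⟨v, h1, h2⟩ := pigeon a b x (M j) (32 ^ j) (Q j) (hMp j hj) (by positivity) (hMQ j)
      rw [← hδL] at h1
      exact ⟨v, h1, (BB_mem v h1.1 _ _).2 h2⟩)
    (fun j hj => by
      have h1 : (0:ℝ) < M j := by exact_mod_cast hMp j hj
      have h2 : (16:ℝ) * M j ≤ 32 ^ j := by exact_mod_cast hM16 j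
      rw [one_div_pow, mul_one_div, div_le_div_iff₀ (by positivity) h1]
      linarith)
    (fun ε hε => by
      filter_upwards [(tendsto_pow_atTop_nhds_zero_of_lt_one (r := (1 / 2 : ℝ)) (by norm_num)
        (by norm_num)).eventually_le_const hε] with j hj h1
      refine le_trans ?_ hj
      rw [one_div_pow]
      exact one_div_le_one_div_of_le (by positivity) (by exact_mod_cast h1))
    (fun hs => by
      apply hdiv
      have g1 : Summable fun j : ℕ => (1 / 16 : ℝ) ^ j := summable_geometric_of_lt_one (by norm_num) (by norm_num)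
      have g2 : Summable δ := summable_geometric_of_lt_one (by norm_num) (by norm_num)
      have hV : Summable fun j => (Q j : ℝ) * (δ j) ^ (m + 1) := by
        refine Summable.of_nonneg_of_le (fun j => by positivity) (fun j => ?_) ((hs.add g1).add g2)
        have h1 : Q j < (M j + 1) * (32 ^ j) ^ m := by
          rw [mul_comm]
          exact Nat.lt_mul_div_succ _ (by positivity)
        have h2 : (Q j : ℝ) ≤ (M j + 1) * (32 ^ j) ^ m := by exact_mod_cast h1.le
        have h3 : (Q j : ℝ) * (δ j) ^ (m + 1) ≤ (M j + 1) * δ j := by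
          refine (mul_le_mul_of_nonneg_right h2 (by positivity)).trans_eq ?_
          rw [pow_succ, mul_assoc, ← mul_assoc _ (δ j ^ m), ← mul_pow]
          simp [hδ]
        refine h3.trans ?_
        have h4 : (0:ℝ) ≤ (1 / 16) ^ j := by positivity
        split_ifs with h
        · rw [div_div_eq_mul_div, div_one]
          change _ ≤ δ j * _ + _ + _
          linarith
        · have h5 : (M j : ℝ) ≤ 2 ^ j := by exact_mod_cast (not_le.1 h).le
          have h6 : (2:ℝ) ^ j * δ j = (1 / 16) ^ j := by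
            simp only [hδ]; rw [← mul_pow]; norm_num
          nlinarith [hδ0 j]
      refine summ φ h0 hanti (m + 1) (by omega) Q ?_ hV
      filter_upwards [hV.tendsto_atTop_zero.eventually_lt_const (show (0:ℝ) < 1 / 32 by norm_num),
        eventually_ge_atTop 1] with j h1 h2
      refine (not_le.1 (Nat.findGreatest_is_greatest (P := fun q => δ j ≤ φ q)
        (n := (32 ^ j) ^ (m + 1) / 16) (Nat.lt_succ_self _) ?_)).le
      have h3 : (Q j : ℝ) * 32 < (32 ^ j) ^ (m + 1) := by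
        simp only [hδ] at h1
        rw [one_div_pow, one_div_pow, mul_one_div, div_lt_div_iff₀ (by positivity) (by norm_num)] at h1
        linarith
      have h4 : Q j * 32 < (32 ^ j) ^ (m + 1) := by exact_mod_cast h3
      have h5 : 32 ≤ (32 ^ j) ^ (m + 1) :=
        (Nat.le_self_pow (by omega) 32).trans (Nat.le_self_pow (by omega) _)
      show Q j + 1 ≤ _
      omega)
  have hirr : ∀ᵐ x : ℝ, x ∉ range ((↑) : ℚ → ℝ) := (countable_range _).ae_notMem _
  filter_upwards [main, hirr] with x hx hi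
  rw [frequently_atTop]
  intro q0
  have hev : ∀ᶠ j in atTop, ∀ q ∈ Finset.Ico 1 q0, δ j ≤ |q * x - round (q * x)| := by
    rw [eventually_all_finset]
    intro q hq
    refine (tendsto_pow_atTop_nhds_zero_of_lt_one (r := (1 / 32 : ℝ)) (by norm_num)
      (by norm_num)).eventually_le_const (abs_pos.2 fun h => hi ⟨round (q * x) / q, ?_⟩)
    have : (q:ℝ) ≠ 0 := by exact_mod_cast (by have := (Finset.mem_Ico.1 hq).1; omega : q ≠ 0)
    push_cast
    field_simp
    linarith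
  obtain ⟨N, hN⟩ := eventually_atTop.1 hev
  obtain ⟨j, hj, v, h1, h2⟩ := hx N
  have h3 := hQφ j v.1 h1.1 h1.2.1
  refine ⟨v.1, ?_, v.2, h2.trans_le h3, fun i => ?_⟩
  · by_contra hc
    exact absurd ((hN j hj v.1 (Finset.mem_Ico.2 ⟨h1.1, not_le.1 hc⟩)).trans (round_le _ v.2)) (not_le.2 h2)
  · obtain ⟨p, hp⟩ := h1.2.2 i
    exact ⟨p, hp.trans_le h3⟩

theorem line (n : ℕ) (c w : Fin n → ℝ) (hw : w ≠ 0) (ψ : ℕ → ℝ) (h0 : ∀ q, 0 ≤ ψ q) (hanti : Antitone ψ)
    (hdiv : ¬ Summable fun q => ψ q ^ n) :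
    ∀ᵐ s : ℝ, ∃ᶠ q : ℕ in atTop, ∀ i, |(q:ℝ) * (c i + s * w i) - round ((q:ℝ) * (c i + s * w i))| < ψ q := by
  classical
  obtain ⟨k, hk⟩ : ∃ k, w k ≠ 0 := Function.ne_iff.1 hw
  set a : Fin n → ℝ := fun i => w i / w k with ha
  set b : Fin n → ℝ := fun i => c i - c k * a i with hb
  set A : ℝ := 1 + ∑ i, |a i| with hA
  have hA1 : ∀ i, 1 + |a i| ≤ A := fun i =>
    add_le_add le_rfl (Finset.single_le_sum (f := fun i => |a i|) (fun i _ => abs_nonneg _) (Finset.mem_univ i))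
  have hA0 : 0 < A := by linarith [hA1 k, abs_nonneg (a k)]
  have hcard : Fintype.card {i // i ≠ k} + 1 = n := by
    have := k.pos
    simp only [ne_eq, Fintype.card_subtype_compl, Fintype.card_fin, Fintype.card_unique]
    omega
  have main := line0 (ι := {i // i ≠ k}) (fun i => a i) (fun i => b i) (fun q => ψ q / A)
    (fun q => div_nonneg (h0 q) hA0.le) (fun q q' h => div_le_div_of_nonneg_right (hanti h) hA0.le) (by
      rw [hcard]
      intro hs
      refine hdiv ((hs.mul_left (A ^ n)).congr fun q => ?_)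
      rw [← mul_pow, mul_div_cancel₀ _ hA0.ne'])
  have hq : Measure.QuasiMeasurePreserving (fun s : ℝ => c k + s * w k) volume volume := by
    refine ⟨by fun_prop, Measure.AbsolutelyContinuous.mk fun S hS h => ?_⟩
    rw [Measure.map_apply (by fun_prop) hS]
    have : (fun s : ℝ => c k + s * w k) ⁻¹' S = (· * w k) ⁻¹' ((fun y => c k + y) ⁻¹' S) := rfl
    rw [this, Real.volume_preimage_mul_right hk, measure_preimage_add, h, mul_zero]
  filter_upwards [hq.ae main] with s hs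
  refine hs.mono fun q ⟨r, h1, h2⟩ i => ?_
  have hp : ∃ p : ℤ, |a i * r + b i * q - p| < ψ q / A := by
    by_cases hi : i = k
    · refine ⟨r, ?_⟩
      have : a i * r + b i * q - r = 0 := by
        simp only [ha, hb, hi, div_self hk]; ring
      rw [this, abs_zero]
      exact (abs_nonneg _).trans_lt h1
    · exact h2 ⟨i, hi⟩
  obtain ⟨p, hp⟩ := hp
  refine (round_le _ p).trans_lt ?_
  have e : (q:ℝ) * (c i + s * w i) - p = a i * (q * (c k + s * w k) - r) + (a i * r + b i * q - p) := by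
    simp only [ha, hb]; field_simp; ring
  rw [e]
  refine (abs_add_le _ _).trans_lt ?_
  rw [abs_mul]
  have t0 : 0 ≤ ψ q / A := div_nonneg (h0 q) hA0.le
  have t1 := mul_le_mul_of_nonneg_left h1.le (abs_nonneg (a i))
  have t2 := mul_le_mul_of_nonneg_right (hA1 i) t0
  rw [mul_div_cancel₀ _ hA0.ne'] at t2
  linarith

end Pool.Agent.H53.Aff
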