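import Mathlib

namespace Pool.Agent.H53.ApprA

open Polynomial Finset

/-- all coefficients are at most `H` in absolute value -/
def Bd (P : ℤ[X]) (H : ℝ) : Prop := ∀ i, |(P.coeff i : ℝ)| ≤ H

lemma Bd.nonneg {P : ℤ[X]} {H : ℝ} (h : Bd P H) : 0 ≤ H := (abs_nonneg _).trans (h 0)

lemma Bd.mono {P : ℤ[X]} {H H' : ℝ} (h : Bd P H) (h' : H ≤ H') : Bd P H' := fun i => (h i).trans h'

lemma Bd.one_le {P : ℤ[X]} {H : ℝ} (h : Bd P H) (h0 : P ≠ 0) : 1 ≤ H := by
  refine le_trans ?_ (h P.natDegree)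
  exact_mod_cast Int.one_le_abs (leadingCoeff_ne_zero.mpr h0)

lemma pow_taylor (ξ : ℝ) (i : ℕ) : ∃ c : ℝ, 0 ≤ c ∧ ∀ t : ℝ, |t| ≤ 1 →
    |(ξ + t) ^ i - ξ ^ i - t * (i * ξ ^ (i - 1))| ≤ c * t ^ 2 := by
  induction i with
  | zero => exact ⟨0, le_rfl, fun t _ => by simp⟩
  | succ i ih =>
    obtain ⟨c, hc, h⟩ := ih
    refine ⟨c * (|ξ| + 1) + |i * ξ ^ (i - 1)|, by positivity, fun t ht => ?_⟩
    have e : (ξ + t) ^ (i + 1) - ξ ^ (i + 1) - t * ((i + 1 : ℕ) * ξ ^ (i + 1 - 1)) =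
        ((ξ + t) ^ i - ξ ^ i - t * (i * ξ ^ (i - 1))) * (ξ + t) + (i * ξ ^ (i - 1)) * t ^ 2 := by
      rcases i with _ | i
      · simp
      · simp only [Nat.add_sub_cancel]
        push_cast
        ring
    rw [e]
    refine (abs_add_le _ _).trans ?_
    rw [abs_mul, abs_mul (i * ξ ^ (i - 1)), abs_of_nonneg (sq_nonneg t)]
    have h1 : |ξ + t| ≤ |ξ| + 1 := (abs_add_le _ _).trans (by linarith)
    have := mul_le_mul (h t ht) h1 (abs_nonneg _) (by positivity)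
    nlinarith

lemma aeval_sum (P : ℤ[X]) (n : ℕ) (hP : P.natDegree ≤ n) (x : ℝ) :
    aeval x P = ∑ i ∈ range (n + 1), (P.coeff i : ℝ) * x ^ i := by
  rw [aeval_eq_sum_range' (Nat.lt_succ_of_le hP)]
  simp

lemma aeval_der (P : ℤ[X]) (n : ℕ) (hP : P.natDegree ≤ n) (x : ℝ) :
    aeval x (derivative P) = ∑ i ∈ range (n + 1), (P.coeff i : ℝ) * (i * x ^ (i - 1)) := by
  conv_lhs => rw [as_sum_range' P (n + 1) (Nat.lt_succ_of_le hP)]
  simp only [map_sum, derivative_monomial, aeval_monomial]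
  refine sum_congr rfl fun i _ => ?_
  simp; ring

lemma sum_bd (n : ℕ) (P : ℤ[X]) (H : ℝ) (h : Bd P H) (f g : ℕ → ℝ) (hf : ∀ i, |f i| ≤ g i) :
    |∑ i ∈ range (n + 1), (P.coeff i : ℝ) * f i| ≤ (∑ i ∈ range (n + 1), g i) * H := by
  refine (abs_sum_le_sum_abs _ _).trans ?_
  rw [sum_mul]
  refine sum_le_sum fun i _ => ?_
  rw [abs_mul, mul_comm]
  exact mul_le_mul (hf i) (h i) (abs_nonneg _) ((abs_nonneg _).trans (hf i))

/-- the property of the Taylor constant -/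
def TC (n : ℕ) (ξ C : ℝ) : Prop := 1 ≤ C ∧ ∀ (P : ℤ[X]) (H : ℝ), P.natDegree ≤ n → Bd P H →
    |aeval ξ P| ≤ C * H ∧ |aeval ξ (derivative P)| ≤ C * H ∧
    ∀ t : ℝ, |t| ≤ 1 → |aeval (ξ + t) P - aeval ξ P - t * aeval ξ (derivative P)| ≤ C * H * t ^ 2

lemma exists_TC (n : ℕ) (ξ : ℝ) : ∃ C, TC n ξ C := by
  choose c hc h using pow_taylor ξ
  have a1 : 0 ≤ ∑ i ∈ range (n + 1), |ξ ^ i| := sum_nonneg fun _ _ => abs_nonneg _
  have a2 : 0 ≤ ∑ i ∈ range (n + 1), |i * ξ ^ (i - 1)| := sum_nonneg fun _ _ => abs_nonneg _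
  have a3 : 0 ≤ ∑ i ∈ range (n + 1), c i := sum_nonneg fun i _ => hc i
  refine ⟨1 + ∑ i ∈ range (n + 1), |ξ ^ i| + ∑ i ∈ range (n + 1), |i * ξ ^ (i - 1)| +
    ∑ i ∈ range (n + 1), c i, by linarith, fun P H hP hH => ⟨?_, ?_, fun t ht => ?_⟩⟩
  · rw [aeval_sum P n hP]
    refine (sum_bd n P H hH _ _ fun i => le_rfl).trans ?_
    exact mul_le_mul_of_nonneg_right (by linarith) hH.nonneg
  · rw [aeval_der P n hP]
    refine (sum_bd n P H hH _ _ fun i => le_rfl).trans ?_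
    exact mul_le_mul_of_nonneg_right (by linarith) hH.nonneg
  · rw [aeval_sum P n hP, aeval_sum P n hP, aeval_der P n hP, mul_sum, ← sum_sub_distrib,
      ← sum_sub_distrib]
    have e : ∀ i, (P.coeff i : ℝ) * (ξ + t) ^ i - P.coeff i * ξ ^ i -
        t * (P.coeff i * (i * ξ ^ (i - 1))) =
        P.coeff i * ((ξ + t) ^ i - ξ ^ i - t * (i * ξ ^ (i - 1))) := fun i => by ring
    simp only [e]
    refine (sum_bd n P H hH _ _ fun i => h i t ht).trans ?_
    rw [← sum_mul]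
    have := mul_nonneg hH.nonneg (sq_nonneg t)
    nlinarith

lemma TC.lip {n : ℕ} {ξ C : ℝ} (hC : TC n ξ C) (P : ℤ[X]) (H : ℝ) (hP : P.natDegree ≤ n)
    (hH : Bd P H) (α : ℝ) (hα : |ξ - α| ≤ 1) : |aeval α P - aeval ξ P| ≤ 2 * C * H * |ξ - α| := by
  obtain ⟨_, h2, h3⟩ := hC.2 P H hP hH
  have h4 := h3 (α - ξ) (by rwa [abs_sub_comm])
  rw [add_sub_cancel, ← sq_abs, abs_sub_comm α ξ] at h4
  have h5 : |(α - ξ) * aeval ξ (derivative P)| ≤ |ξ - α| * (C * H) := by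
    rw [abs_mul, abs_sub_comm]; exact mul_le_mul_of_nonneg_left h2 (abs_nonneg _)
  have h6 := abs_add_le (aeval α P - aeval ξ P - (α - ξ) * aeval ξ (derivative P))
    ((α - ξ) * aeval ξ (derivative P))
  rw [sub_add_cancel] at h6
  have h7 : 0 ≤ C * H := (abs_nonneg _).trans h2
  have h8 : |ξ - α| ^ 2 ≤ |ξ - α| := by nlinarith [abs_nonneg (ξ - α)]
  nlinarith [mul_le_mul_of_nonneg_left h8 h7]

/-- if no real root is within `δ` of `ξ` then the derivative at `ξ` is small -/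
lemma TC.root {n : ℕ} {ξ C : ℝ} (hC : TC n ξ C) (P : ℤ[X]) (H : ℝ) (hP : P.natDegree ≤ n)
    (hH : Bd P H) (δ : ℝ) (hδ0 : 0 < δ) (hδ : δ ≤ 1) (h : ∀ α : ℝ, aeval α P = 0 → δ ≤ |ξ - α|) :
    |aeval ξ (derivative P)| * δ ≤ 2 * |aeval ξ P| ∨
      (aeval ξ (derivative P)) ^ 2 ≤ 4 * C * H * |aeval ξ P| := by
  by_contra hc
  push Not at hc
  obtain ⟨h1, h2⟩ := hc
  obtain ⟨_, _, h3⟩ := hC.2 P H hP hH
  set p := aeval ξ P with hp
  set d := aeval ξ (derivative P) with hd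
  have hd0 : 0 < |d| := by
    by_contra h0
    have : |d| = 0 := le_antisymm (not_lt.mp h0) (abs_nonneg _)
    rw [this] at h1
    linarith [abs_nonneg p]
  have hd1 : d ≠ 0 := abs_pos.mp hd0
  set t := -2 * p / d with ht
  have ht1 : |t| * |d| = 2 * |p| := by
    rw [← abs_mul, ht, div_mul_cancel₀ _ hd1, abs_mul]; norm_num
  have ht2 : |t| < δ := by
    apply lt_of_mul_lt_mul_right _ hd0.le
    linarith
  have h4 := h3 t (by linarith)
  have h5 : t * d = -2 * p := by rw [ht, div_mul_cancel₀ _ hd1]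
  rw [h5] at h4
  have h6 : C * H * t ^ 2 ≤ |p| := by
    apply le_of_mul_le_mul_right _ (pow_pos hd0 2)
    have : t ^ 2 * |d| ^ 2 = 4 * |p| ^ 2 := by rw [← sq_abs t, ← mul_pow, ht1]; ring
    rw [mul_assoc, this, sq_abs d]
    nlinarith [abs_nonneg p]
  have hcont : ContinuousOn (fun s : ℝ => aeval (ξ + s) P) (Set.uIcc 0 t) :=
    ((P.continuous_aeval (A := ℝ)).comp (continuous_const.add continuous_id)).continuousOn
  have h7 := abs_le.mp (h4.trans h6)
  have : (0 : ℝ) ∈ Set.uIcc (aeval (ξ + 0) P) (aeval (ξ + t) P) := by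
    rw [add_zero, ← hp, Set.mem_uIcc]
    rcases le_total 0 p with h0 | h0
    · rw [abs_of_nonneg h0] at h7
      right; constructor <;> linarith [h7.2]
    · rw [abs_of_nonpos h0] at h7
      left; constructor <;> linarith [h7.1]
  obtain ⟨s, hs, hs0⟩ := intermediate_value_uIcc hcont this
  have h8 := h _ hs0
  have h9 := Set.abs_sub_left_of_mem_uIcc hs
  rw [sub_add_cancel_left, abs_neg] at h8
  simp only [sub_zero] at h9
  linarith

lemma gelfond (n : ℕ) (A B : ℤ[X]) (H : ℝ) (hB : B ≠ 0) (hn : (A * B).natDegree ≤ n)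
    (hH : Bd (A * B) H) : Bd A (2 ^ n * (n + 1) * H) := by
  intro i
  by_cases hA : A = 0
  · subst hA
    have := hH.nonneg
    simp only [coeff_zero, Int.cast_zero, abs_zero]
    positivity
  have h1 := norm_coeff_le_choose_mul_mahlerMeasure_of_one_le_mahlerMeasure i
    (A.map (Int.castRingHom ℂ)) _ (one_le_mahlerMeasure_of_ne_zero hB)
  rw [← Polynomial.map_mul, coeff_map, eq_intCast, Complex.norm_intCast] at h1
  refine h1.trans ?_
  have hdA : A.natDegree ≤ n := by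
    rw [natDegree_mul hA hB] at hn; omega
  have h2 : (((A.map (Int.castRingHom ℂ)).natDegree.choose i : ℕ) : ℝ) ≤ 2 ^ n := by
    have := (Nat.choose_le_two_pow (A.map (Int.castRingHom ℂ)).natDegree i).trans
      (Nat.pow_le_pow_right (by norm_num) (natDegree_map_le.trans hdA))
    exact_mod_cast this
  have h3 : ((A * B).map (Int.castRingHom ℂ)).mahlerMeasure ≤ (n + 1) * H := by
    refine (mahlerMeasure_le_sum_norm_coeff _).trans ?_
    rw [sum_over_range' _ (by simp) (n + 1) (Nat.lt_succ_of_le (natDegree_map_le.trans hn))]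
    refine (sum_le_card_nsmul _ _ H fun j _ => ?_).trans (by simp)
    rw [coeff_map, eq_intCast, Complex.norm_intCast]
    exact hH j
  rw [mul_assoc]
  exact mul_le_mul h2 h3 (mahlerMeasure_nonneg _) (by positivity)

lemma exists_irred (P : ℤ[X]) (hP : P ≠ 0) (α : ℝ) (h : aeval α P = 0) :
    ∃ Q : ℤ[X], Irreducible Q ∧ Q ∣ P ∧ aeval α Q = 0 := by
  induction P using WfDvdMonoid.induction_on_irreducible with
  | zero => exact absurd rfl hP
  | unit u hu => exact absurd h (hu.map (aeval α)).ne_zero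
  | mul a i ha hi ih =>
    rw [map_mul] at h
    rcases mul_eq_zero.mp h with h | h
    · exact ⟨i, hi, dvd_mul_right _ _, h⟩
    · obtain ⟨Q, h1, h2, h3⟩ := ih ha h
      exact ⟨Q, h1, h2.mul_left _, h3⟩

lemma finite_Bd (n : ℕ) (H : ℝ) : {P : ℤ[X] | P.natDegree ≤ n ∧ Bd P H}.Finite := by
  refine Set.Finite.subset ((Set.finite_Icc (fun _ : Fin (n + 1) => -⌊H⌋) (fun _ => ⌊H⌋)).image
    (ofFn (n + 1))) ?_
  rintro P ⟨h1, h2⟩
  refine ⟨toFn (n + 1) P, ⟨fun i => ?_, fun i => ?_⟩,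
    ofFn_comp_toFn_eq_id_of_natDegree_lt (Nat.lt_succ_of_le h1)⟩
  · have := (abs_le.mp (h2 i)).1
    show -⌊H⌋ ≤ P.coeff i
    rw [neg_le, Int.le_floor]
    push_cast
    linarith
  · exact Int.le_floor.mpr (abs_le.mp (h2 i)).2

/-- pigeonhole: many integer polynomials with small value at `ξ` -/
lemma TC.count {n : ℕ} {ξ C : ℝ} (hC : TC n ξ C) (Y η : ℝ) (hY : 1 ≤ Y) (h0 : 0 < η) (h1 : η ≤ 1) :
    ∃ K : Finset ℤ[X], (∀ P ∈ K, P.natDegree ≤ n ∧ Bd P Y ∧ |aeval ξ P| ≤ η) ∧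
      Y ^ n * η ≤ 5 * C * K.card := by
  classical
  let s : Finset ℤ[X] := (Fintype.piFinset fun _ : Fin (n + 1) => Icc (0 : ℤ) ⌊Y⌋).image
    (ofFn (n + 1))
  have hs : ∀ P ∈ s, P.natDegree ≤ n ∧ ∀ i, 0 ≤ (P.coeff i : ℝ) ∧ (P.coeff i : ℝ) ≤ Y := by
    intro P hP
    obtain ⟨v, hv, rfl⟩ := mem_image.mp hP
    refine ⟨Nat.le_of_lt_succ (ofFn_natDegree_lt (Nat.le_add_left 1 n) v), fun i => ?_⟩
    rcases Nat.lt_or_ge i (n + 1) with h | h
    · rw [ofFn_coeff_eq_val_of_lt _ h]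
      have := mem_Icc.mp (Fintype.mem_piFinset.mp hv ⟨i, h⟩)
      exact ⟨by exact_mod_cast this.1, Int.le_floor.mp this.2⟩
    · rw [ofFn_coeff_eq_zero_of_ge _ h]
      simp; linarith
  have hcard : Y ^ (n + 1) ≤ s.card := by
    rw [card_image_of_injective _ (injective_ofFn _), Fintype.card_piFinset]
    simp only [Int.card_Icc, prod_const, card_univ, Fintype.card_fin]
    push_cast
    apply pow_le_pow_left₀ (by linarith)
    have h2 : (0 : ℤ) ≤ ⌊Y⌋ + 1 - 0 := by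
      have := Int.floor_nonneg.mpr (by linarith : (0 : ℝ) ≤ Y)
      omega
    have h3 : ((⌊Y⌋ + 1 - 0).toNat : ℝ) = ((⌊Y⌋ + 1 - 0 : ℤ) : ℝ) := by
      exact_mod_cast Int.toNat_of_nonneg h2
    rw [h3]
    push_cast
    linarith [Int.lt_floor_add_one Y]
  let N : ℕ := ⌈C * Y / η⌉₊
  let f : ℤ[X] → ℤ := fun P => ⌊aeval ξ P / η⌋
  have hf : ∀ P ∈ s, f P ∈ Icc (-(N : ℤ)) N := by
    intro P hP
    have h2 := abs_le.mp (hC.2 P Y (hs P hP).1 fun i => by
      rw [abs_of_nonneg ((hs P hP).2 i).1]; exact ((hs P hP).2 i).2).1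
    have h3 : C * Y / η ≤ N := Nat.le_ceil _
    rw [mem_Icc]
    constructor
    · rw [Int.le_floor]
      push_cast
      have := div_le_div_of_nonneg_right h2.1 h0.le
      rw [neg_div] at this
      linarith
    · apply Int.floor_le_iff.mpr
      have := div_le_div_of_nonneg_right h2.2 h0.le
      push_cast
      linarith
  obtain ⟨b, _, hb⟩ := exists_max_image (Icc (-(N : ℤ)) N) (fun b => (s.filter (f · = b)).card)
    ⟨0, by simp⟩
  have h4 := card_le_mul_card_image_of_maps_to hf _ hb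
  have hN : ((Icc (-(N : ℤ)) N).card : ℝ) ≤ 5 * (C * Y / η) := by
    have e : (Icc (-(N : ℤ)) N).card = 2 * N + 1 := by rw [Int.card_Icc]; omega
    have h5 : (1 : ℝ) ≤ C * Y / η := by
      rw [le_div_iff₀ h0]; nlinarith [hC.1]
    have h6 : (N : ℝ) < C * Y / η + 1 := Nat.ceil_lt_add_one (by linarith)
    rw [e]
    push_cast
    linarith
  have h7 : Y ^ (n + 1) ≤ (s.filter (f · = b)).card * (5 * (C * Y / η)) := by
    have h4' : (s.card : ℝ) ≤ (s.filter (f · = b)).card * ((Icc (-(N : ℤ)) N).card : ℝ) := by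
      exact_mod_cast h4
    exact hcard.trans (h4'.trans (mul_le_mul_of_nonneg_left hN (by positivity)))
  have hne : (s.filter (f · = b)).Nonempty := by
    rw [← card_pos]
    by_contra hc
    rw [Nat.eq_zero_of_not_pos hc] at h7
    simp at h7
    linarith [pow_pos (by linarith : 0 < Y) (n + 1)]
  obtain ⟨P₀, hP₀⟩ := hne
  refine ⟨(s.filter (f · = b)).image (· - P₀), fun P hP => ?_, ?_⟩
  · obtain ⟨Q, hQ, rfl⟩ := mem_image.mp hP
    obtain ⟨a1, a2⟩ := mem_filter.mp hQ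
    obtain ⟨b1, b2⟩ := mem_filter.mp hP₀
    refine ⟨(natDegree_sub_le _ _).trans (max_le (hs _ a1).1 (hs _ b1).1), fun i => ?_, ?_⟩
    · rw [coeff_sub]
      push_cast
      have := (hs _ a1).2 i
      have := (hs _ b1).2 i
      rw [abs_le]; constructor <;> linarith
    · have := Int.abs_sub_lt_one_of_floor_eq_floor (a2.trans b2.symm)
      rw [← sub_div, abs_div, abs_of_pos h0, div_lt_one h0] at this
      rw [map_sub]; exact this.le
  · rw [card_image_of_injective _ sub_left_injective]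
    have h8 : Y ^ (n + 1) * η ≤ (s.filter (f · = b)).card * (5 * (C * Y / η)) * η :=
      mul_le_mul_of_nonneg_right h7 h0.le
    have h9 : (s.filter (f · = b)).card * (5 * (C * Y / η)) * η =
        5 * C * (s.filter (f · = b)).card * Y := by field_simp
    rw [h9, pow_succ, mul_right_comm] at h8
    exact le_of_mul_le_mul_right h8 (by linarith)

/-- packing modulo `M` -/
lemma packing (K : Finset ℤ[X]) (M : ℕ) (hM : 0 < M)
    (h : M ^ Module.finrank ℤ (Submodule.span ℤ (K : Set ℤ[X])) < K.card) :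
    ∃ P ∈ K, ∃ P' ∈ K, ∃ S : ℤ[X], S ≠ 0 ∧ P - P' = (M : ℤ) • S := by
  classical
  set Λ := Submodule.span ℤ (K : Set ℤ[X])
  have : Module.Finite ℤ Λ := Module.Finite.span_of_finite ℤ K.finite_toSet
  have : NeZero M := ⟨hM.ne'⟩
  let b := Module.finBasis ℤ Λ
  let f : K → (Fin (Module.finrank ℤ Λ) → ZMod M) := fun P i =>
    (b.repr ⟨P.1, Submodule.subset_span P.2⟩ i : ℤ)
  obtain ⟨P, P', hne, he⟩ := Fintype.exists_ne_map_eq_of_card_lt f (by simpa using h)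
  have h1 : ∀ i, ∃ c : ℤ, b.repr ⟨P.1, Submodule.subset_span P.2⟩ i -
      b.repr ⟨P'.1, Submodule.subset_span P'.2⟩ i = M * c := fun i =>
    (ZMod.intCast_eq_intCast_iff_dvd_sub _ _ _).mp (congrFun he i).symm
  choose c hc using h1
  have h2 : P.1 - P'.1 = (M : ℤ) • ((∑ i, c i • b i : Λ) : ℤ[X]) := by
    have : (⟨P.1, Submodule.subset_span P.2⟩ - ⟨P'.1, Submodule.subset_span P'.2⟩ : Λ) =
        (M : ℤ) • ∑ i, c i • b i := by
      rw [← b.sum_repr (_ - _), Finset.smul_sum]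
      refine sum_congr rfl fun i _ => ?_
      rw [map_sub, Finsupp.sub_apply, hc, mul_smul]
    exact congrArg Subtype.val this
  refine ⟨P, P.2, P', P'.2, _, fun h0 => hne (Subtype.ext ?_), h2⟩
  rw [h0, smul_zero] at h2
  exact sub_eq_zero.mp h2

lemma packing' {n : ℕ} {ξ Y η : ℝ} (K : Finset ℤ[X])
    (hK : ∀ P ∈ K, P.natDegree ≤ n ∧ Bd P Y ∧ |aeval ξ P| ≤ η) (M : ℕ) (hM : 0 < M)
    (h : M ^ Module.finrank ℤ (Submodule.span ℤ (K : Set ℤ[X])) < K.card) :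
    ∃ S : ℤ[X], S ≠ 0 ∧ S.natDegree ≤ n ∧ Bd S (2 * Y / M) ∧ |aeval ξ S| ≤ 2 * η / M := by
  obtain ⟨P, hP, P', hP', S, h0, hS⟩ := packing K M hM h
  have hM' : (0 : ℝ) < M := by exact_mod_cast hM
  obtain ⟨a1, a2, a3⟩ := hK P hP
  obtain ⟨b1, b2, b3⟩ := hK P' hP'
  refine ⟨S, h0, ?_, fun i => ?_, ?_⟩
  · have := (natDegree_sub_le _ _).trans (max_le a1 b1)
    rwa [hS, natDegree_smul _ (by exact_mod_cast hM.ne')] at this
  · have := congrArg (fun Q => ((coeff Q i : ℤ) : ℝ)) hS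
    simp only [coeff_sub, coeff_smul, smul_eq_mul] at this
    push_cast at this
    rw [le_div_iff₀ hM', ← abs_of_pos hM', ← abs_mul, mul_comm, ← this]
    linarith [abs_sub (P.coeff i : ℝ) (P'.coeff i), a2 i, b2 i]
  · have := congrArg (aeval ξ) hS
    rw [map_sub, map_smul, zsmul_eq_mul] at this
    push_cast at this
    rw [le_div_iff₀ hM', ← abs_of_pos hM', ← abs_mul, mul_comm, ← this]
    linarith [abs_sub (aeval ξ P) (aeval ξ P')]

lemma ev (C a b : ℝ) (h : a < b) : ∀ᶠ x : ℝ in Filter.atTop, C * x ^ a < x ^ b := by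
  filter_upwards [(tendsto_rpow_atTop (sub_pos.mpr h)).eventually_gt_atTop C,
    Filter.eventually_gt_atTop 0] with x h1 h2
  rw [show b = (b - a) + a by ring, Real.rpow_add h2]
  exact mul_lt_mul_of_pos_right h1 (Real.rpow_pos_of_pos h2 _)

end Pool.Agent.H53.ApprA
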