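import Mathlib
import Pool.Agent.H53.ApprA

namespace Pool.Agent.H53.ApprB

open Polynomial Finset Module Pool.Agent.H53.ApprA

lemma fr (n : ℕ) : finrank ℚ (degreeLT ℚ n) = n := by
  rw [(degreeLTEquiv ℚ n).finrank_eq]; simp

lemma fd (n : ℕ) : FiniteDimensional ℚ (degreeLT ℚ n) :=
  LinearEquiv.finiteDimensional (degreeLTEquiv ℚ n).symm

lemma fd' {U : Submodule ℚ ℚ[X]} {n : ℕ} (h : U ≤ degreeLT ℚ n) : FiniteDimensional ℚ U :=
  have := fd n
  Submodule.finiteDimensional_of_le h

/-- `U + X U` -/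
noncomputable def step (U : Submodule ℚ ℚ[X]) : Submodule ℚ ℚ[X] :=
  U ⊔ U.map (LinearMap.mulLeft ℚ (X : ℚ[X]))

lemma X_mul_mem {u : ℚ[X]} {n : ℕ} (h : u ∈ degreeLT ℚ n) : X * u ∈ degreeLT ℚ (n + 1) := by
  rw [mem_degreeLT, degree_lt_iff_coeff_zero] at h ⊢
  intro m hm
  obtain ⟨k, rfl⟩ : ∃ k, m = k + 1 := ⟨m - 1, by omega⟩
  rw [coeff_X_mul]
  exact h k (by omega)

lemma step_le {U : Submodule ℚ ℚ[X]} {n : ℕ} (h : U ≤ degreeLT ℚ n) :
    step U ≤ degreeLT ℚ (n + 1) := by
  refine sup_le (h.trans (degreeLT_mono (Nat.le_succ n))) ?_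
  rintro _ ⟨u, hu, rfl⟩
  exact X_mul_mem (h hu)

lemma fr_map (A : ℚ[X]) (hA : A ≠ 0) (n : ℕ) :
    finrank ℚ ((degreeLT ℚ n).map (LinearMap.mulLeft ℚ A)) = n := by
  rw [← (Submodule.equivMapOfInjective _ (fun a b h => mul_left_cancel₀ hA h) _).finrank_eq, fr]

lemma struct (d : ℕ) : ∀ (U : Submodule ℚ ℚ[X]) (N : ℕ), U ≤ degreeLT ℚ N → finrank ℚ U = d + 1 →
    finrank ℚ (step U) ≤ d + 2 →
    ∃ A : ℚ[X], A ≠ 0 ∧ U = (degreeLT ℚ (d + 1)).map (LinearMap.mulLeft ℚ A) := by
  induction d with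
  | zero =>
    intro U N hN h1 _
    have := fd' hN
    have hne : U ≠ ⊥ := by rintro rfl; simp at h1
    obtain ⟨A, hA, h0⟩ := Submodule.exists_mem_ne_zero_of_ne_bot hne
    refine ⟨A, h0, (Submodule.eq_of_le_of_finrank_le ?_ (by rw [fr_map A h0, h1])).symm⟩
    rintro _ ⟨u, hu, rfl⟩
    have hu' : u.degree ≤ 0 := by
      have := mem_degreeLT.mp hu
      exact Nat.WithBot.lt_one_iff_le_zero.mp (by simpa using this)
    rw [eq_C_of_degree_le_zero hu', LinearMap.mulLeft_apply, mul_comm, ← smul_eq_C_mul]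
    exact U.smul_mem _ hA
  | succ d ih =>
    intro U N hN h1 h2
    classical
    have hex : ∃ N, U ≤ degreeLT ℚ N := ⟨N, hN⟩
    have h3 := Nat.find_spec hex
    obtain ⟨t, ht⟩ : ∃ t, Nat.find hex = t + 1 := by
      refine ⟨Nat.find hex - 1, ?_⟩
      have : Nat.find hex ≠ 0 := by
        intro h0
        rw [h0] at h3
        have := fd 0
        have := Submodule.finrank_mono h3
        rw [fr] at this
        omega
      omega
    have h4 : ¬ U ≤ degreeLT ℚ t := Nat.find_min hex (by omega)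
    rw [ht] at h3
    obtain ⟨u, hu, hut⟩ := Set.not_subset.mp h4
    have hc : ∀ v ∈ U, v.coeff t = 0 → v ∈ degreeLT ℚ t := by
      intro v hv h0
      have := mem_degreeLT.mp (h3 hv)
      rw [mem_degreeLT, degree_lt_iff_coeff_zero] at *
      intro m hm
      rcases eq_or_lt_of_le hm with rfl | h
      · exact h0
      · exact this m h
    have hu0 : u.coeff t ≠ 0 := fun h => hut (hc u hu h)
    have := fd' h3
    have := fd' (step_le h3)
    let U' := U ⊓ degreeLT ℚ t
    have := fd' (inf_le_right : U' ≤ degreeLT ℚ t)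
    have a1 : finrank ℚ U' < finrank ℚ U :=
      Submodule.finrank_lt_finrank_of_lt (inf_lt_left.mpr h4)
    have a2 : finrank ℚ U ≤ finrank ℚ U' + 1 := by
      have hle : U ≤ U' ⊔ Submodule.span ℚ {u} := by
        intro v hv
        have hm : v - (v.coeff t / u.coeff t) • u ∈ U := U.sub_mem hv (U.smul_mem _ hu)
        rw [← sub_add_cancel v ((v.coeff t / u.coeff t) • u)]
        refine Submodule.add_mem_sup ⟨hm, hc _ hm ?_⟩
          (Submodule.smul_mem _ _ (Submodule.mem_span_singleton_self u))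
        simp [div_mul_cancel₀ _ hu0]
      refine (Submodule.finrank_mono hle).trans
        ((Submodule.finrank_add_le_finrank_add_finrank _ _).trans ?_)
      have := finrank_span_le_card (R := ℚ) ({u} : Set ℚ[X])
      simpa using this
    let W' := step U ⊓ degreeLT ℚ (t + 1)
    have := fd' (inf_le_right : W' ≤ degreeLT ℚ (t + 1))
    have a3 : finrank ℚ W' < finrank ℚ (step U) := by
      refine Submodule.finrank_lt_finrank_of_lt (inf_lt_left.mpr fun h => hu0 ?_)
      have := mem_degreeLT.mp (h (Submodule.mem_sup_right ⟨u, hu, rfl⟩))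
      rw [degree_lt_iff_coeff_zero] at this
      simpa [coeff_X_mul] using this (t + 1) le_rfl
    have a4 : U = W' := Submodule.eq_of_le_of_finrank_le (le_inf le_sup_left h3) (by omega)
    have a5 : step U' ≤ U := by
      refine sup_le inf_le_left ?_
      rintro _ ⟨v, hv, rfl⟩
      rw [a4]
      exact ⟨Submodule.mem_sup_right ⟨v, hv.1, rfl⟩, X_mul_mem hv.2⟩
    obtain ⟨A, hA, e⟩ := ih U' t inf_le_right (by omega)
      ((Submodule.finrank_mono a5).trans (by omega))
    refine ⟨A, hA, (Submodule.eq_of_le_of_finrank_le (le_trans ?_ a5)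
      (by rw [fr_map A hA, h1])).symm⟩
    rintro _ ⟨B, hB, rfl⟩
    rw [LinearMap.mulLeft_apply, ← X_mul_divX_add B, mul_add, add_comm]
    refine Submodule.add_mem_sup ?_ ⟨A * B.divX, ?_, by simp; ring⟩
    · rw [e]
      exact ⟨_, mem_degreeLT.mpr (degree_C_le.trans_lt (by exact_mod_cast Nat.succ_pos d)), rfl⟩
    · rw [e]
      refine ⟨B.divX, ?_, rfl⟩
      have := mem_degreeLT.mp hB
      rw [SetLike.mem_coe, mem_degreeLT, degree_lt_iff_coeff_zero] at *
      intro m hm
      rw [coeff_divX]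
      exact this _ (by omega)

lemma det_bd {m : ℕ} (N : Matrix (Fin m) (Fin m) ℝ) (c : Fin m → ℝ) (h : ∀ i j, |N i j| ≤ c j) :
    |N.det| ≤ m.factorial * ∏ j, c j := by
  rw [Matrix.det_apply]
  refine (abs_sum_le_sum_abs _ _).trans ((sum_le_card_nsmul _ _ (∏ j, c j) fun σ _ => ?_).trans ?_)
  · rw [Units.smul_def, zsmul_eq_mul, abs_mul, abs_prod]
    have : |((Equiv.Perm.sign σ : ℤ) : ℝ)| = 1 := by
      rcases Int.units_eq_one_or (Equiv.Perm.sign σ) with h | h <;> simp [h]
    rw [this, one_mul]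
    exact prod_le_prod (fun _ _ => abs_nonneg _) fun j _ => h _ _
  · simp [Fintype.card_perm]

lemma det_two (ξ H η D : ℝ) (m : ℕ) (S : Set ℤ[X])
    (hS : Submodule.span ℚ ((fun P => P.map (algebraMap ℤ ℚ)) '' S) = degreeLT ℚ (m + 2))
    (h : ∀ B ∈ S, Bd B H ∧ |aeval ξ B| ≤ η ∧ |aeval ξ (derivative B)| ≤ D) :
    1 ≤ (m + 2).factorial * (η * (D * H ^ m)) := by
  classical
  have := fd' hS.le
  obtain ⟨f, h1, _, h3⟩ := Submodule.exists_fun_fin_finrank_span_eq ℚ
    ((fun P => P.map (algebraMap ℤ ℚ)) '' S)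
  have e : finrank ℚ (Submodule.span ℚ ((fun P => P.map (algebraMap ℤ ℚ)) '' S)) = m + 2 := by
    rw [hS, fr]
  choose g hg hg' using h1
  let B : Fin (m + 2) → ℤ[X] := fun i => g (i.cast e.symm)
  have hli : LinearIndependent ℚ fun i => (B i).map (algebraMap ℤ ℚ) := by
    have := h3.comp (Fin.cast e.symm) (Fin.cast_injective _)
    have e2 : (fun i => (B i).map (algebraMap ℤ ℚ)) = f ∘ Fin.cast e.symm :=
      funext fun i => hg' _
    rw [e2]; exact this
  have hlt : ∀ i, (B i).map (algebraMap ℤ ℚ) ∈ degreeLT ℚ (m + 2) := fun i =>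
    hS ▸ Submodule.subset_span ⟨_, hg _, rfl⟩
  have hdeg : ∀ i, (B i).natDegree ≤ m + 1 := by
    intro i
    have := mem_degreeLT.mp (hlt i)
    rw [degree_map_eq_of_injective (algebraMap ℤ ℚ).injective_int] at this
    exact natDegree_le_iff_degree_le.mpr (Order.lt_succ_iff.mp (by exact_mod_cast this))
  let M : Matrix (Fin (m + 2)) (Fin (m + 2)) ℤ := fun i j => (B i).coeff j
  have hM : M.det ≠ 0 := by
    intro h0
    obtain ⟨v, hv, hv0⟩ := Matrix.exists_vecMul_eq_zero_iff.mpr h0
    apply hv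
    have := Fintype.linearIndependent_iff.mp hli (fun i => (v i : ℚ)) (by
      ext j
      rcases Nat.lt_or_ge j (m + 2) with hj | hj
      · have := congrFun hv0 ⟨j, hj⟩
        simp only [Matrix.vecMul, dotProduct, M, Pi.zero_apply] at this
        simp only [finsetSum_coeff, coeff_smul, coeff_map, eq_intCast, smul_eq_mul, coeff_zero]
        exact_mod_cast this
      · simp only [finsetSum_coeff, coeff_smul, coeff_map, coeff_zero]
        refine sum_eq_zero fun i _ => ?_
        rw [coeff_eq_zero_of_natDegree_lt (by have := hdeg i; omega)]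
        simp)
    funext i
    simpa using this i
  let L : Matrix (Fin (m + 2)) (Fin (m + 2)) ℝ := fun i j =>
    if j.val = 0 then ξ ^ i.val else if j.val = 1 then i.val * ξ ^ (i.val - 1)
      else if i = j then 1 else 0
  have hL : L.det = 1 := by
    rw [Matrix.det_of_lowerTriangular L]
    · refine prod_eq_one fun i _ => ?_
      simp only [L]
      split_ifs with a b <;> simp [*]
    · intro i j hij
      have hij' : i < j := hij
      have h4 : i.val < j.val := hij'
      simp only [L]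
      rw [if_neg (by omega), if_neg hij'.ne]
      split_ifs with a
      · simp [show i.val = 0 by omega]
      · rfl
  have hd : (1 : ℝ) ≤ |(M.map (Int.cast : ℤ → ℝ) * L).det| := by
    rw [Matrix.det_mul, hL, mul_one]
    have : (M.map (Int.cast : ℤ → ℝ)).det = (M.det : ℤ) := ((Int.castRingHom ℝ).map_det M).symm
    rw [this]
    exact_mod_cast Int.one_le_abs hM
  refine hd.trans ((det_bd _ (Fin.cons η (Fin.cons D fun _ => H)) fun i j => ?_).trans ?_)
  · obtain ⟨b1, b2, b3⟩ := h _ (hg (i.cast e.symm))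
    refine Fin.cases ?_ (fun j => Fin.cases ?_ (fun j => ?_) j) j
    · rw [aeval_sum _ (m + 1) (hdeg i), ← Fin.sum_univ_eq_sum_range
        (fun k => ((B i).coeff k : ℝ) * ξ ^ k)] at b2
      rw [Matrix.mul_apply]
      simp only [L]
      simp
      exact b2
    · rw [aeval_der _ (m + 1) (hdeg i), ← Fin.sum_univ_eq_sum_range
        (fun k => ((B i).coeff k : ℝ) * (k * ξ ^ (k - 1)))] at b3
      rw [Matrix.mul_apply]
      simp only [L]
      simp
      exact b3
    · rw [Matrix.mul_apply]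
      simp only [L]
      simp
      exact b1 (j.val + 1 + 1)
  · simp [Fin.prod_univ_succ]

lemma rank_le (K : Set ℤ[X]) (hK : K.Finite) (V : Submodule ℚ ℚ[X]) [FiniteDimensional ℚ V]
    (h : ∀ P ∈ K, P.map (algebraMap ℤ ℚ) ∈ V) : finrank ℤ (Submodule.span ℤ K) ≤ finrank ℚ V := by
  set Λ := Submodule.span ℤ K
  have : Module.Finite ℤ Λ := Module.Finite.span_of_finite ℤ hK
  let b := Module.finBasis ℤ Λ
  let φ : ℤ[X] →ₗ[ℤ] ℚ[X] := (mapRingHom (algebraMap ℤ ℚ)).toAddMonoidHom.toIntLinearMap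
  have hφ : Function.Injective φ := map_injective _ (algebraMap ℤ ℚ).injective_int
  have h1 : ∀ x ∈ Λ, φ x ∈ V := by
    intro x hx
    induction hx using Submodule.span_induction with
    | mem x hx => exact h x hx
    | zero => simp
    | add x y _ _ a b => rw [map_add]; exact V.add_mem a b
    | smul a x _ hx => rw [map_smul]; exact zsmul_mem hx a
  have h2 : LinearIndependent ℤ (fun i => φ (b i)) :=
    (b.linearIndependent.map' Λ.subtype (Submodule.ker_subtype _)).map' φ
      (LinearMap.ker_eq_bot.mpr hφ)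
  have h3 : LinearIndependent ℚ (fun i => (⟨φ (b i), h1 _ (b i).2⟩ : V)) :=
    LinearIndependent.of_comp V.subtype ((LinearIndependent.iff_fractionRing ℤ ℚ).mp h2)
  simpa using h3.fintype_card_le_finrank

end Pool.Agent.H53.ApprB
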