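import Mathlib
import Pool.Agent.H53.ApprB

namespace Pool.Agent.H53.ApprC

open Polynomial Finset Module Pool.Agent.H53.ApprA Pool.Agent.H53.ApprB

lemma prim (A₀ : ℚ[X]) (h : A₀ ≠ 0) :
    ∃ A : ℤ[X], A.IsPrimitive ∧ ∃ q : ℚ, q ≠ 0 ∧ A₀ = q • A.map (algebraMap ℤ ℚ) := by
  obtain ⟨b, hb, e⟩ := IsLocalization.integerNormalization_spec (nonZeroDivisors ℤ) A₀
  set B := IsLocalization.integerNormalization (nonZeroDivisors ℤ) A₀
  have hb0 : (b : ℚ) ≠ 0 := by exact_mod_cast nonZeroDivisors.ne_zero hb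
  have e2 : A₀ = ((B.content : ℚ) / b) • B.primPart.map (algebraMap ℤ ℚ) := by
    rw [B.eq_C_content_mul_primPart, Polynomial.map_mul, map_C, ← smul_eq_C_mul,
      ← Int.cast_smul_eq_zsmul ℚ] at e
    rw [div_eq_inv_mul, mul_smul, eq_inv_smul_iff₀ hb0, ← e]
    rfl
  refine ⟨B.primPart, B.isPrimitive_primPart, _, fun h0 => h ?_, e2⟩
  rw [e2, h0, zero_smul]

/-- the span of the `X ^ i * P` -/
noncomputable def V (K : Finset ℤ[X]) (j : ℕ) : Submodule ℚ ℚ[X] :=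
  Submodule.span ℚ ((fun P => P.map (algebraMap ℤ ℚ)) '' {B | ∃ i ≤ j, ∃ P ∈ K, B = X ^ i * P})

lemma V_le {K : Finset ℤ[X]} {n : ℕ} (hK : ∀ P ∈ K, P.natDegree ≤ n) (j : ℕ) :
    V K j ≤ degreeLT ℚ (n + j + 1) := by
  refine Submodule.span_le.mpr ?_
  rintro _ ⟨_, ⟨i, hi, P, hP, rfl⟩, rfl⟩
  refine mem_degreeLT.mpr (degree_le_natDegree.trans_lt ?_)
  have := (natDegree_map_le (f := algebraMap ℤ ℚ)).trans
    (natDegree_mul_le (p := (X ^ i : ℤ[X])) (q := P))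
  rw [natDegree_X_pow] at this
  have h2 := hK P hP
  exact_mod_cast this.trans_lt (by omega)

lemma step_V (K : Finset ℤ[X]) (j : ℕ) : step (V K j) ≤ V K (j + 1) := by
  refine sup_le (Submodule.span_mono (Set.image_mono ?_)) (Submodule.map_span_le _ _ _ |>.mpr ?_)
  · rintro _ ⟨i, hi, h⟩
    exact ⟨i, by omega, h⟩
  · rintro _ ⟨_, ⟨i, hi, P, hP, rfl⟩, rfl⟩
    refine Submodule.subset_span ⟨_, ⟨i + 1, by omega, P, hP, rfl⟩, ?_⟩
    simp; ring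

lemma core (n s : ℕ) (hs : s + 1 ≤ n) (K : Finset ℤ[X]) (hK : ∀ P ∈ K, P.natDegree ≤ n)
    (hr : n - s < finrank ℤ (Submodule.span ℤ (K : Set ℤ[X]))) :
    ∃ A : ℤ[X], A ≠ 0 ∧ A.natDegree ≤ s ∧ (∃ P ∈ K, P ≠ 0 ∧ A ∣ P) ∧ ∃ m, m + 1 ≤ n + s ∧
      ∃ S : Set ℤ[X], Submodule.span ℚ ((fun P => P.map (algebraMap ℤ ℚ)) '' S) =
        degreeLT ℚ (m + 2) ∧ ∀ B ∈ S, ∃ i ≤ s, ∃ P ∈ K, ∃ Q, P = A * Q ∧ B = X ^ i * Q := by
  have hfd : ∀ j, FiniteDimensional ℚ (V K j) := fun j => fd' (V_le hK j)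
  have h0 : n - s < finrank ℚ (V K 0) := hr.trans_le (rank_le _ K.finite_toSet _ fun P hP =>
    Submodule.subset_span ⟨_, ⟨0, le_rfl, P, hP, rfl⟩, by simp⟩)
  have h1 : ∀ j, n - s + 2 * j < finrank ℚ (V K j) ∨ ∃ i < j, n - s + 2 * i < finrank ℚ (V K i) ∧
      finrank ℚ (V K (i + 1)) ≤ finrank ℚ (V K i) + 1 := by
    intro j
    induction j with
    | zero => exact Or.inl h0
    | succ j ih =>
      rcases ih with h | ⟨i, hi, h⟩
      · by_cases h2 : finrank ℚ (V K (j + 1)) ≤ finrank ℚ (V K j) + 1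
        · exact Or.inr ⟨j, by omega, h, h2⟩
        · left; omega
      · exact Or.inr ⟨i, by omega, h⟩
  obtain ⟨j, hj, h2, h3⟩ : ∃ i < s + 1, n - s + 2 * i < finrank ℚ (V K i) ∧
      finrank ℚ (V K (i + 1)) ≤ finrank ℚ (V K i) + 1 := by
    refine (h1 (s + 1)).resolve_left fun h => ?_
    have := fd (n + (s + 1) + 1)
    have := Submodule.finrank_mono (V_le hK (s + 1))
    rw [fr] at this
    omega
  obtain ⟨m, hm⟩ : ∃ m, finrank ℚ (V K j) = m + 1 + 1 := ⟨finrank ℚ (V K j) - 2, by omega⟩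
  obtain ⟨A₀, hA₀, e⟩ := struct (m + 1) (V K j) _ (V_le hK j) hm
    ((Submodule.finrank_mono (step_V K j)).trans (by omega))
  obtain ⟨A, hA, q, hq, e2⟩ := prim A₀ hA₀
  have hA1 : A.map (algebraMap ℤ ℚ) ≠ 0 := fun h => hA₀ (by rw [e2, h, smul_zero])
  have e3 : V K j = (degreeLT ℚ (m + 1 + 1)).map (LinearMap.mulLeft ℚ (A.map (algebraMap ℤ ℚ))) := by
    rw [e, e2, ← Submodule.map_smul (LinearMap.mulLeft ℚ (A.map (algebraMap ℤ ℚ))) _ q hq]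
    congr 1
    ext1
    ext1
    simp
  have hdvd : ∀ P ∈ K, A ∣ P := by
    intro P hP
    have : P.map (algebraMap ℤ ℚ) ∈ V K j :=
      Submodule.subset_span ⟨_, ⟨0, Nat.zero_le _, P, hP, rfl⟩, by simp⟩
    rw [e3] at this
    obtain ⟨u, _, hu⟩ := this
    exact (IsPrimitive.Int.dvd_iff_map_cast_dvd_map_cast A P hA).mpr ⟨u, hu.symm⟩
  have hdeg : A.natDegree + (m + 1) ≤ n + j := by
    have : A.map (algebraMap ℤ ℚ) * X ^ (m + 1) ∈ V K j := by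
      rw [e3]
      exact ⟨_, mem_degreeLT.mpr (by rw [degree_X_pow]; exact_mod_cast Nat.lt_succ_self _), rfl⟩
    have := mem_degreeLT.mp (V_le hK j this)
    rw [degree_eq_natDegree (mul_ne_zero hA1 (pow_ne_zero _ X_ne_zero)), natDegree_mul_X_pow _ hA1,
      natDegree_map_eq_of_injective (algebraMap ℤ ℚ).injective_int] at this
    have : A.natDegree + (m + 1) < n + j + 1 := by exact_mod_cast this
    omega
  refine ⟨A, hA.ne_zero, by omega, ?_, m, by omega,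
    {B | ∃ i ≤ j, ∃ P ∈ K, ∃ Q, P = A * Q ∧ B = X ^ i * Q}, ?_, ?_⟩
  · by_contra hc
    have : Submodule.span ℤ (K : Set ℤ[X]) = ⊥ :=
      Submodule.span_eq_bot.mpr fun P hP => by_contra fun h => hc ⟨P, hP, h, hdvd P hP⟩
    rw [this] at hr
    simp at hr
  · apply Submodule.map_injective_of_injective
      (f := LinearMap.mulLeft ℚ (A.map (algebraMap ℤ ℚ))) (fun a b h => mul_left_cancel₀ hA1 h)
    rw [← e3, Submodule.map_span, V]
    congr 1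
    ext x
    constructor
    · rintro ⟨_, ⟨_, ⟨i, hi, P, hP, Q, h4, rfl⟩, rfl⟩, rfl⟩
      exact ⟨_, ⟨i, hi, P, hP, rfl⟩, by simp [h4]; ring⟩
    · rintro ⟨_, ⟨i, hi, P, hP, rfl⟩, rfl⟩
      obtain ⟨Q, h4⟩ := hdvd P hP
      exact ⟨_, ⟨_, ⟨i, hi, P, hP, Q, h4, rfl⟩, rfl⟩, by simp [h4]; ring⟩
  · rintro B ⟨i, hi, h⟩
    exact ⟨i, by omega, h⟩

end Pool.Agent.H53.ApprC
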