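import Mathlib
import Pool.Agent.H53.ApprC

namespace Pool.Agent.H53.ApprD

open Polynomial Finset Module Filter Pool.Agent.H53.ApprA Pool.Agent.H53.ApprB Pool.Agent.H53.ApprC

/-- naive height -/
noncomputable def ht (P : ℤ[X]) : ℝ := ((P.support.sup (fun i => (P.coeff i).natAbs) : ℕ) : ℝ)

lemma bd_ht (P : ℤ[X]) : Bd P (ht P) := by
  intro i
  by_cases h : i ∈ P.support
  · have := le_sup (f := fun i => (P.coeff i).natAbs) h
    rw [← Int.cast_abs, ← Int.natCast_natAbs, Int.cast_natCast]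
    exact Nat.cast_le.mpr this
  · rw [notMem_support_iff.mp h]
    simp [ht]

lemma ht_le {P : ℤ[X]} {Y : ℝ} (h : Bd P Y) : ht P ≤ Y := by
  refine (Nat.cast_le.mpr (Finset.sup_le fun i _ => Nat.le_floor ?_)).trans (Nat.floor_le h.nonneg)
  have := h i
  rwa [← Int.cast_abs, ← Int.natCast_natAbs, Int.cast_natCast] at this

lemma fin_lb {α : Type*} (F : Set α) (hF : F.Finite) (g : α → ℝ) (h : ∀ x ∈ F, 0 < g x) :
    ∃ c, 0 < c ∧ c ≤ 1 ∧ ∀ x ∈ F, c ≤ g x := by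
  rcases F.eq_empty_or_nonempty with rfl | hne
  · exact ⟨1, one_pos, le_rfl, by simp⟩
  · obtain ⟨a, ha, h1⟩ := Set.exists_min_image F g hF hne
    exact ⟨min 1 (g a), lt_min one_pos (h a ha), min_le_left _ _,
      fun x hx => (min_le_right _ _).trans (h1 x hx)⟩

/-- lower bound for values -/
def LB (ξ : ℝ) (n : ℕ) (w c : ℝ) : Prop :=
  0 < c ∧ ∀ (P : ℤ[X]) (Y : ℝ), P ≠ 0 → P.natDegree ≤ n → Bd P Y → c * Y ^ (-w) ≤ |aeval ξ P|

/-- lower bound for distances to roots -/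
def LR (ξ : ℝ) (n : ℕ) (w c : ℝ) : Prop :=
  0 < c ∧ c ≤ 1 ∧ ∀ (P : ℤ[X]) (Y α : ℝ), P ≠ 0 → P.natDegree ≤ n → Bd P Y → aeval α P = 0 →
    c * Y ^ (-w) ≤ |ξ - α|

lemma ne_of_tr {ξ : ℝ} (hξ : Transcendental ℤ ξ) {P : ℤ[X]} (h : P ≠ 0) : aeval ξ P ≠ 0 :=
  fun h0 => hξ ⟨P, h, h0⟩

lemma exists_LB {ξ : ℝ} (hξ : Transcendental ℤ ξ) (n : ℕ) (w : ℝ) (hw : 0 ≤ w)
    (h : {P : ℤ[X] | P.natDegree ≤ n ∧ aeval ξ P ≠ 0 ∧ |aeval ξ P| ≤ ht P ^ (-w)}.Finite) :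
    ∃ c, LB ξ n w c := by
  obtain ⟨c, h0, h1, h2⟩ := fin_lb _ h (fun P => |aeval ξ P|) fun P hP => abs_pos.mpr hP.2.1
  refine ⟨c, h0, fun P Y hP hn hY => ?_⟩
  have a1 : Y ^ (-w) ≤ 1 := Real.rpow_le_one_of_one_le_of_nonpos (hY.one_le hP) (by linarith)
  by_cases h3 : |aeval ξ P| ≤ ht P ^ (-w)
  · exact (mul_le_of_le_one_right h0.le a1).trans (h2 P ⟨hn, ne_of_tr hξ hP, h3⟩)
  · refine (mul_le_of_le_one_left (Real.rpow_nonneg hY.nonneg _) h1).trans (le_trans ?_ (not_le.mp h3).le)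
    exact Real.rpow_le_rpow_of_nonpos (by linarith [(bd_ht P).one_le hP]) (ht_le hY) (by linarith)

lemma exists_LR {ξ : ℝ} (hξ : Transcendental ℤ ξ) (n : ℕ) (w : ℝ) (hw : 0 ≤ w)
    (h : {α : ℝ | ∃ Q : ℤ[X], Irreducible Q ∧ Q.natDegree ≤ n ∧ aeval α Q = 0 ∧ α ≠ ξ ∧
      |ξ - α| ≤ ht Q ^ (-w)}.Finite) : ∃ c, LR ξ n w c := by
  obtain ⟨c, h0, h1, h2⟩ := fin_lb _ h (fun α => |ξ - α|) fun α ⟨Q, hQ⟩ =>
    abs_pos.mpr (sub_ne_zero.mpr hQ.2.2.2.1.symm)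
  have hG : (1 : ℝ) ≤ 2 ^ n * (n + 1) := one_le_mul_of_one_le_of_one_le (one_le_pow₀ one_le_two)
    (by linarith [(Nat.cast_nonneg n : (0 : ℝ) ≤ n)])
  have hG' : (2 ^ n * (n + 1) : ℝ) ^ (-w) ≤ 1 := Real.rpow_le_one_of_one_le_of_nonpos hG (by linarith)
  refine ⟨c * (2 ^ n * (n + 1)) ^ (-w), by positivity, mul_le_one₀ h1 (by positivity) hG',
    fun P Y α hP hn hY hα => ?_⟩
  obtain ⟨Q, q1, ⟨B, rfl⟩, q3⟩ := exists_irred P hP α hα
  have q4 := gelfond n Q B Y (right_ne_zero_of_mul hP) hn hY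
  have q5 : Q.natDegree ≤ n := (natDegree_le_of_dvd (dvd_mul_right _ _) hP).trans hn
  rw [mul_assoc, ← Real.mul_rpow (by positivity) hY.nonneg]
  have a1 : (2 ^ n * (n + 1) * Y) ^ (-w) ≤ 1 :=
    Real.rpow_le_one_of_one_le_of_nonpos (q4.one_le q1.ne_zero) (by linarith)
  by_cases h3 : |ξ - α| ≤ ht Q ^ (-w)
  · exact (mul_le_of_le_one_right h0.le a1).trans
      (h2 α ⟨Q, q1, q5, q3, fun h4 => ne_of_tr hξ q1.ne_zero (h4 ▸ q3), h3⟩)
  · refine (mul_le_of_le_one_left (Real.rpow_nonneg q4.nonneg _) h1).trans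
      (le_trans ?_ (not_le.mp h3).le)
    exact Real.rpow_le_rpow_of_nonpos (by linarith [(bd_ht Q).one_le q1.ne_zero]) (ht_le q4)
      (by linarith)

lemma rank {ξ : ℝ} {n : ℕ} {w c : ℝ} (hL : LB ξ n w c) (C v θ : ℝ) (r : ℕ) (hθ : 0 ≤ θ)
    (hC : 1 ≤ C) (h1 : w - v < θ * (w + 1)) (h2 : r * θ < n - v) :
    ∀ᶠ H : ℝ in atTop, ∀ K : Finset ℤ[X],
      (∀ P ∈ K, P.natDegree ≤ n ∧ Bd P H ∧ |aeval ξ P| ≤ H ^ (-v)) →
      H ^ n * H ^ (-v) ≤ 5 * C * K.card → r < finrank ℤ (Submodule.span ℤ (K : Set ℤ[X])) := by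
  filter_upwards [ev (5 * C * 2 ^ r) _ _ h2, ev (2 / (c * 2 ^ (-w))) (-v - θ) ((1 - θ) * -w)
    (by linarith), eventually_ge_atTop 1] with H e1 e2 hH K hK hc
  by_contra hr
  have hH0 : 0 < H := by linarith
  have m0 : 1 ≤ H ^ θ := Real.one_le_rpow hH hθ
  have m1 : H ^ θ ≤ ⌈H ^ θ⌉₊ := Nat.le_ceil _
  have m2 : (⌈H ^ θ⌉₊ : ℝ) ≤ 2 * H ^ θ := by linarith [Nat.ceil_lt_add_one (by linarith : 0 ≤ H ^ θ)]
  have m3 : 0 < ⌈H ^ θ⌉₊ := Nat.ceil_pos.mpr (by linarith)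
  obtain ⟨S, s1, s2, s3, s4⟩ := packing' K hK _ m3 (by
    refine (Nat.pow_le_pow_right m3 (not_lt.mp hr)).trans_lt ?_
    have : ((⌈H ^ θ⌉₊ : ℝ)) ^ r ≤ 2 ^ r * H ^ (r * θ) := by
      rw [mul_comm (r : ℝ), Real.rpow_mul_natCast hH0.le, ← mul_pow]
      exact pow_le_pow_left₀ (by positivity) m2 _
    rw [← Real.rpow_natCast, ← Real.rpow_add hH0, ← sub_eq_add_neg] at hc
    have h3 : (5 * C) * ((⌈H ^ θ⌉₊ : ℝ)) ^ r < 5 * C * K.card := by nlinarith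
    exact_mod_cast lt_of_mul_lt_mul_left h3 (by linarith))
  have s5 : Bd S (2 * H ^ (1 - θ)) := s3.mono (by
    rw [Real.rpow_sub hH0, Real.rpow_one, ← mul_div_assoc]
    exact div_le_div_of_nonneg_left (by linarith) (by linarith) m1)
  have s6 : |aeval ξ S| ≤ 2 * H ^ (-v - θ) := s4.trans (by
    rw [Real.rpow_sub hH0, ← mul_div_assoc]
    exact div_le_div_of_nonneg_left (by positivity) (by linarith) m1)
  have s7 := (hL.2 S _ s1 s2 s5).trans s6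
  rw [Real.mul_rpow (by norm_num) (by positivity), ← Real.rpow_mul hH0.le, ← mul_assoc] at s7
  have := hL.1
  rw [div_mul_eq_mul_div, div_lt_iff₀ (by positivity)] at e2
  linarith

lemma bd_X_pow {Q : ℤ[X]} {Y : ℝ} (h : Bd Q Y) (i : ℕ) : Bd (X ^ i * Q) Y := by
  intro j
  rw [coeff_X_pow_mul']
  split_ifs
  · exact h _
  · simpa using h.nonneg

lemma main {ξ : ℝ} {n s : ℕ} {w w' ws c c' cs : ℝ} (v θ : ℝ) (hs : s + 1 ≤ n) (hL : LB ξ n w c)
    (hL' : LB ξ s w' c') (hR : LR ξ n ws cs) (hθ : 0 ≤ θ) (hv : 0 ≤ v) (hws : 0 ≤ ws)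
    (h1 : w - v < θ * (w + 1)) (h2 : (n - s : ℕ) * θ < n - v)
    (h3 : 1 + (w' - v) ≤ 2 * (ws + (w' - v))) (h4 : 2 * (w' - v) + ws + (n + s - 1 : ℕ) < 0) :
    False := by
  obtain ⟨C, hC⟩ := exists_TC n ξ
  obtain ⟨C', hC'⟩ := exists_TC (n + s) ξ
  obtain ⟨G, hG⟩ : ∃ G : ℝ, G = 2 ^ n * (n + 1) := ⟨_, rfl⟩
  have hG1 : 1 ≤ G := hG ▸ one_le_mul_of_one_le_of_one_le (one_le_pow₀ one_le_two)
    (by linarith [(Nat.cast_nonneg n : (0 : ℝ) ≤ n)])
  have hc' := hL'.1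
  have hcs := hR.1
  have hC1' := hC'.1
  obtain ⟨C₁, hC₁⟩ : ∃ C₁ : ℝ, C₁ = (|ξ| + 1) ^ s * G ^ w' / c' := ⟨_, rfl⟩
  have p1 : 0 < C₁ := by rw [hC₁]; positivity
  obtain ⟨C₂, hC₂⟩ : ∃ C₂ : ℝ, C₂ = 2 * C₁ * G ^ ws / cs + 4 * C' * G * C₁ + 1 := ⟨_, rfl⟩
  have p2 : 0 ≤ 2 * C₁ * G ^ ws / cs := by positivity
  have p3 : 0 ≤ 4 * C' * G * C₁ := by positivity
  obtain ⟨H, e1, e2, hH⟩ := ((rank hL C v θ _ hθ hC.1 h1 h2).and ((ev ((n + s + 1).factorial *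
    (C₁ * (C₂ * G ^ (n + s - 1)))) _ _ h4).and (eventually_ge_atTop 1))).exists
  have hH0 : 0 < H := by linarith
  have hGH : 1 ≤ G * H := one_le_mul_of_one_le_of_one_le hG1 hH
  obtain ⟨K, hK, hc⟩ := hC.count H (H ^ (-v)) hH (by positivity)
    (Real.rpow_le_one_of_one_le_of_nonpos hH (by linarith))
  obtain ⟨A, a1, a2, ⟨P₀, a3, a4, B₀, rfl⟩, m, hm, S, hS, hB⟩ :=
    core n s hs K (fun P hP => (hK P hP).1) (e1 K hK hc)
  have a5 := gelfond n A B₀ H (right_ne_zero_of_mul a4) (hK _ a3).1 (hK _ a3).2.1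
  rw [← hG] at a5
  have a6 := hL'.2 A _ a1 a2 a5
  have key := det_two ξ (G * H) (C₁ * H ^ (w' - v)) (C₂ * H ^ (ws + (w' - v))) m S hS (by
    intro B hBS
    obtain ⟨i, hi, P, hP, Q, rfl, rfl⟩ := hB B hBS
    obtain ⟨b1, b2, b3⟩ := hK _ hP
    have b4 := gelfond n Q A H a1 (by rwa [mul_comm]) (by rwa [mul_comm])
    rw [← hG] at b4
    have b5 : |aeval ξ (X ^ i * Q)| ≤ C₁ * H ^ (w' - v) := by
      rw [map_mul, abs_mul] at b3 ⊢
      have c1 : |aeval ξ (X ^ i : ℤ[X])| ≤ (|ξ| + 1) ^ s := by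
        rw [map_pow, aeval_X, abs_pow]
        exact (pow_le_pow_left₀ (abs_nonneg _) (by linarith) _).trans
          (pow_le_pow_right₀ (by linarith [abs_nonneg ξ]) hi)
      have c2 : |aeval ξ Q| ≤ G ^ w' / c' * H ^ (w' - v) := by
        have := (mul_le_mul_of_nonneg_right a6 (abs_nonneg (aeval ξ Q))).trans b3
        rw [← le_div_iff₀' (by positivity)] at this
        refine this.trans_eq ?_
        rw [Real.rpow_neg (by positivity) w', Real.mul_rpow (by positivity) hH0.le, sub_eq_add_neg,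
          Real.rpow_add hH0]
        field_simp
      refine (mul_le_mul c1 c2 (abs_nonneg _) (by positivity)).trans_eq ?_
      rw [hC₁]; ring
    refine ⟨bd_X_pow b4 i, b5, ?_⟩
    have hC2 : 1 ≤ C₂ := by linarith
    by_cases hQ : Q = 0
    · subst hQ
      simp only [mul_zero, map_zero, abs_zero]
      positivity
    have dQ : Q.natDegree ≤ n := (natDegree_le_of_dvd (dvd_mul_left _ _) (mul_ne_zero a1 hQ)).trans b1
    have dB : (X ^ i * Q).natDegree ≤ n + s := natDegree_mul_le.trans (by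
      rw [natDegree_X_pow]; omega)
    rcases hC'.root _ _ dB (bd_X_pow b4 i) (cs * (G * H) ^ (-ws)) (by positivity)
      (mul_le_one₀ hR.2.1 (by positivity) (Real.rpow_le_one_of_one_le_of_nonpos hGH (by linarith)))
      (fun α hα => by
        rw [map_mul, mul_eq_zero] at hα
        rcases hα with hα | hα
        · refine hR.2.2 X _ α X_ne_zero (by rw [natDegree_X]; omega) (fun j => le_trans ?_ hGH) ?_
          · rw [coeff_X]; split_ifs <;> simp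
          · rw [map_pow] at hα
            exact eq_zero_of_pow_eq_zero hα
        · exact hR.2.2 Q _ α hQ dQ b4 hα) with d | d
    · have := d.trans (mul_le_mul_of_nonneg_left b5 zero_le_two)
      rw [← le_div_iff₀ (by positivity)] at this
      refine this.trans (le_trans (le_of_eq ?_)
        (mul_le_mul_of_nonneg_right (by linarith : 2 * C₁ * G ^ ws / cs ≤ C₂) (by positivity)))
      rw [Real.rpow_neg (by positivity) ws, Real.mul_rpow (by positivity) hH0.le,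
        Real.rpow_add hH0]
      field_simp
    · refine abs_le_of_sq_le_sq' (d.trans ?_) (by positivity) |> abs_le.mpr
      refine (mul_le_mul_of_nonneg_left b5 (by positivity)).trans ?_
      have c1 : H * H ^ (w' - v) ≤ (H ^ (ws + (w' - v))) ^ 2 := by
        rw [← Real.rpow_mul_natCast hH0.le, mul_comm, ← Real.rpow_add_one hH0.ne']
        exact Real.rpow_le_rpow_of_exponent_le hH (by push_cast; linarith)
      have c2 : 4 * C' * G * C₁ ≤ C₂ ^ 2 := by nlinarith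
      rw [mul_pow]
      refine le_trans (le_of_eq (by ring)) (mul_le_mul c2 c1 (by positivity) (by positivity)))
  rw [Real.rpow_zero] at e2
  refine absurd (key.trans ?_) (not_le.mpr e2)
  have f1 : ((m + 2).factorial : ℝ) ≤ (n + s + 1).factorial :=
    Nat.cast_le.mpr (Nat.factorial_le (by omega))
  have f2 : (G * H) ^ m ≤ (G * H) ^ (n + s - 1) := pow_le_pow_right₀ hGH (by omega)
  have hC2 : 1 ≤ C₂ := by linarith
  refine (mul_le_mul f1 (mul_le_mul_of_nonneg_left (mul_le_mul_of_nonneg_left f2 (by positivity))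
    (by positivity)) (by positivity) (by positivity)).trans_eq ?_
  rw [two_mul, Real.rpow_add hH0, Real.rpow_add hH0, Real.rpow_add hH0, Real.rpow_add hH0,
    Real.rpow_natCast, mul_pow]
  ring

end Pool.Agent.H53.ApprD
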