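import Mathlib

namespace Pool.Agent.H53.ApprE

open Finset Module

/-- three by three determinant -/
def d3 (a b c : Fin 3 → ℤ) : ℤ :=
  (a 1 * b 2 - a 2 * b 1) * c 0 + (a 2 * b 0 - a 0 * b 2) * c 1 + (a 0 * b 1 - a 1 * b 0) * c 2

lemma blich (a b c : Fin 3 → ℤ) (hd : d3 a b c ≠ 0) (K : Finset (Fin 3 → ℤ))
    (h : ∀ P ∈ K, ∀ Q ∈ K, ∀ i j k : ℤ, P - Q = i • a + j • b + k • c →
      |i| ≤ 2 ∧ |j| ≤ 2 ∧ |k| ≤ 2) : (K.card : ℤ) ≤ 125 * |d3 a b c| := by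
  classical
  have e : (Matrix.of ![a, b, c]).det = d3 a b c := by
    simp [Matrix.det_fin_three, d3]; ring
  have hli : LinearIndependent ℤ ![a, b, c] :=
    Matrix.linearIndependent_rows_of_det_ne_zero (A := Matrix.of ![a, b, c]) (e ▸ hd)
  set N := Submodule.span ℤ (Set.range ![a, b, c])
  have h1 := Submodule.natAbs_det_basis_change (Pi.basisFun ℤ (Fin 3)) N (Basis.span hli)
  have h2 : ((↑) : N → _) ∘ (Basis.span hli) = ![a, b, c] := 
    funext fun i => congrArg Subtype.val (Basis.span_apply hli i)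
  rw [h2, Pi.basisFun_det_apply, e] at h1
  have : Finite ((Fin 3 → ℤ) ⧸ N) := Nat.finite_of_card_ne_zero (h1 ▸ Int.natAbs_ne_zero.mpr hd)
  have := Fintype.ofFinite ((Fin 3 → ℤ) ⧸ N)
  have h3 := card_le_mul_card_image_of_maps_to (s := K) (t := univ) (f := N.mkQ)
    (fun _ _ => mem_univ _) 125 (by
      intro y _
      rcases (K.filter (N.mkQ · = y)).eq_empty_or_nonempty with h0 | ⟨Q, hQ⟩
      · rw [h0]; simp
      obtain ⟨q1, q2⟩ := mem_filter.mp hQ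
      refine (card_le_card (t := (Icc (-2 : ℤ) 2 ×ˢ Icc (-2 : ℤ) 2 ×ˢ Icc (-2 : ℤ) 2).image
        fun t => Q + (t.1 • a + t.2.1 • b + t.2.2 • c)) fun P hP => ?_).trans
        (card_image_le.trans (by simp))
      obtain ⟨p1, p2⟩ := mem_filter.mp hP
      have : P - Q ∈ N := (Submodule.Quotient.eq N).mp (p2.trans q2.symm)
      obtain ⟨g, hg⟩ := (Submodule.mem_span_range_iff_exists_fun ℤ).mp this
      simp only [Fin.sum_univ_three, Matrix.cons_val] at hg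
      obtain ⟨b1, b2, b3⟩ := h P p1 Q q1 _ _ _ hg.symm
      refine mem_image.mpr ⟨(g 0, g 1, g 2), ?_, by rw [hg]; simp⟩
      simp only [mem_product, mem_Icc, ← abs_le]
      exact ⟨b1, b2, b3⟩)
  rw [card_univ, ← Nat.card_eq_fintype_card, ← h1] at h3
  rw [← Int.natCast_natAbs]
  exact_mod_cast h3

lemma two_of {i d u v : ℤ} (hd : d ≠ 0) (h : i * d = u - v) (hu : |u| ≤ |d|) (hv : |v| ≤ |d|) :
    |i| ≤ 2 := by
  have h1 := abs_sub u v
  rw [← h, abs_mul] at h1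
  exact le_of_mul_le_mul_right (by linarith) (abs_pos.mpr hd)

lemma m2 {a b c d x y : ℝ} (ha : |a| ≤ x) (hb : |b| ≤ y) (hc : |c| ≤ x) (hd : |d| ≤ y) :
    |a * b - c * d| ≤ 2 * (x * y) := by
  have h1 := abs_sub (a * b) (c * d)
  rw [abs_mul, abs_mul] at h1
  have := mul_le_mul ha hb (abs_nonneg _) ((abs_nonneg _).trans ha)
  have := mul_le_mul hc hd (abs_nonneg _) ((abs_nonneg _).trans ha)
  linarith

lemma lat (K : Finset (Fin 3 → ℤ)) (ζ η D Y : ℝ)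
    (h : ∀ P ∈ K, |P 0 + P 1 * ζ + P 2 * ζ ^ 2| ≤ η ∧ |P 1 + 2 * P 2 * ζ| ≤ D ∧ |(P 2 : ℝ)| ≤ Y) :
    (∀ P ∈ K, ∀ Q ∈ K, ∀ y, d3 P Q y = 0) ∨ (K.card : ℝ) ≤ 750 * (η * D * Y) ∨
      ∃ x : Fin 3 → ℤ, x ≠ 0 ∧ K.card * |(x 0 : ℝ)| ≤ 250 * (D * Y) ∧
        K.card * |x 1 - ζ * x 0| ≤ 250 * (Y * η) ∧
        K.card * |x 2 - 2 * ζ * x 1 + ζ ^ 2 * x 0| ≤ 250 * (η * D) := by
  classical
  by_cases h1 : ∀ P ∈ K, ∀ Q ∈ K, ∀ y, d3 P Q y = 0
  · exact Or.inl h1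
  right
  push Not at h1
  obtain ⟨P₁, p1, P₂, p2, y₀, h1⟩ := h1
  by_cases h2 : ∀ P ∈ K, d3 P₁ P₂ P = 0
  · right
    let w : Fin 3 → ℤ := ![P₁ 1 * P₂ 2 - P₁ 2 * P₂ 1, P₁ 2 * P₂ 0 - P₁ 0 * P₂ 2,
      P₁ 0 * P₂ 1 - P₁ 1 * P₂ 0]
    obtain ⟨x, x1, x2⟩ := extract_gcd w (univ_nonempty (α := Fin 3))
    obtain ⟨y, hy⟩ := gcd_eq_sum_mul univ x
    rw [x2, Fin.sum_univ_three] at hy
    set g := univ.gcd w
    have e : ∀ z, d3 P₁ P₂ z = g * (x 0 * z 0 + x 1 * z 1 + x 2 * z 2) := by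
      intro z
      have a0 := x1 0 (mem_univ _)
      have a1 := x1 1 (mem_univ _)
      have a2 := x1 2 (mem_univ _)
      simp only [w, Matrix.cons_val] at a0 a1 a2
      rw [d3, a0, a1, a2]; ring
    have hg : g ≠ 0 := fun h0 => h1 (by rw [e, h0, zero_mul])
    have hx : ∀ P ∈ K, x 0 * P 0 + x 1 * P 1 + x 2 * P 2 = 0 := fun P hP =>
      (mul_eq_zero.mp ((e P).symm.trans (h2 P hP))).resolve_left hg
    obtain ⟨⟨A, B⟩, hAB, hm⟩ := exists_max_image (K ×ˢ K) (fun t => |d3 t.1 t.2 y|)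
      ⟨(P₁, P₂), mem_product.mpr ⟨p1, p2⟩⟩
    obtain ⟨hA, hB⟩ := mem_product.mp hAB
    have hm' : ∀ P ∈ K, ∀ Q ∈ K, |d3 P Q y| ≤ |d3 A B y| := fun P hP Q hQ =>
      hm (P, Q) (mem_product.mpr ⟨hP, hQ⟩)
    have hd : d3 A B y ≠ 0 := by
      intro h0
      have := hm' _ p1 _ p2
      rw [h0, e, ← hy, mul_one, abs_zero, abs_nonpos_iff] at this
      exact hg this
    have a := hx A hA
    have b := hx B hB
    have hK := blich A B y hd K (by
      intro P hP Q hQ i j k e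
      have e0 := congrFun e 0
      have e1 := congrFun e 1
      have e2 := congrFun e 2
      simp only [Pi.sub_apply, Pi.add_apply, Pi.smul_apply, smul_eq_mul] at e0 e1 e2
      have hk : k = 0 := by
        linear_combination hx P hP - hx Q hQ - x 0 * e0 - x 1 * e1 - x 2 * e2 - i * a - j * b + k * hy
      rw [sub_eq_iff_eq_add] at e0 e1 e2
      refine ⟨two_of hd ?_ (hm' P hP B hB) (hm' Q hQ B hB),
        two_of hd ?_ (hm' A hA P hP) (hm' A hA Q hQ), by simp [hk]⟩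
      · simp only [d3, e0, e1, e2]; ring
      · simp only [d3, e0, e1, e2]; ring)
    have w0 : d3 A B y * x 0 = A 1 * B 2 - A 2 * B 1 := by
      rw [d3]
      linear_combination (-(A 1 * B 2 - A 2 * B 1)) * hy - y 1 * (B 2 * a - A 2 * b) +
        y 2 * (B 1 * a - A 1 * b)
    have w1 : d3 A B y * x 1 = A 2 * B 0 - A 0 * B 2 := by
      rw [d3]
      linear_combination (-(A 2 * B 0 - A 0 * B 2)) * hy - y 2 * (B 0 * a - A 0 * b) +
        y 0 * (B 2 * a - A 2 * b)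
    have w2 : d3 A B y * x 2 = A 0 * B 1 - A 1 * B 0 := by
      rw [d3]
      linear_combination (-(A 0 * B 1 - A 1 * B 0)) * hy - y 0 * (B 1 * a - A 1 * b) +
        y 1 * (B 0 * a - A 0 * b)
    have v0 := congrArg (Int.cast : ℤ → ℝ) w0
    have v1 := congrArg (Int.cast : ℤ → ℝ) w1
    have v2 := congrArg (Int.cast : ℤ → ℝ) w2
    have hK' : (K.card : ℝ) ≤ 125 * |(d3 A B y : ℝ)| := by exact_mod_cast hK
    push_cast at v0 v1 v2
    obtain ⟨a0, a1, a2⟩ := h A hA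
    obtain ⟨b0, b1, b2⟩ := h B hB
    have key : ∀ u s : ℝ, |d3 A B y * u| ≤ 2 * s → K.card * |u| ≤ 250 * s := by
      intro u s hu
      rw [abs_mul] at hu
      nlinarith [mul_le_mul_of_nonneg_right hK' (abs_nonneg u)]
    refine ⟨x, ?_, key _ _ ?_, key _ _ ?_, key _ _ ?_⟩
    · rintro rfl
      simp at hy
    · convert m2 a1 b2 b1 a2 using 2
      linear_combination v0
    · convert m2 a2 b0 b2 a0 using 2
      linear_combination v1 - ζ * v0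
    · convert m2 a0 b1 b0 a1 using 2
      linear_combination v2 - 2 * ζ * v1 + ζ ^ 2 * v0
  · left
    push Not at h2
    obtain ⟨P₃, p3, h2⟩ := h2
    obtain ⟨⟨A, B, C⟩, hAB, hm⟩ := exists_max_image (K ×ˢ K ×ˢ K) (fun t => |d3 t.1 t.2.1 t.2.2|)
      ⟨(P₁, P₂, P₃), mem_product.mpr ⟨p1, mem_product.mpr ⟨p2, p3⟩⟩⟩
    obtain ⟨hA, hBC⟩ := mem_product.mp hAB
    obtain ⟨hB, hC⟩ := mem_product.mp hBC
    have hm' : ∀ P ∈ K, ∀ Q ∈ K, ∀ R ∈ K, |d3 P Q R| ≤ |d3 A B C| := fun P hP Q hQ R hR =>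
      hm (P, Q, R) (mem_product.mpr ⟨hP, mem_product.mpr ⟨hQ, hR⟩⟩)
    have hd : d3 A B C ≠ 0 := by
      intro h0
      have := hm' _ p1 _ p2 _ p3
      rw [h0, abs_zero, abs_nonpos_iff] at this
      exact h2 this
    have hK := blich A B C hd K (by
      intro P hP Q hQ i j k e
      have e0 := congrFun e 0
      have e1 := congrFun e 1
      have e2 := congrFun e 2
      simp only [Pi.sub_apply, Pi.add_apply, Pi.smul_apply, smul_eq_mul] at e0 e1 e2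
      rw [sub_eq_iff_eq_add] at e0 e1 e2
      refine ⟨two_of hd ?_ (hm' P hP B hB C hC) (hm' Q hQ B hB C hC),
        two_of hd ?_ (hm' A hA P hP C hC) (hm' A hA Q hQ C hC),
        two_of hd ?_ (hm' A hA B hB P hP) (hm' A hA B hB Q hQ)⟩ <;>
      · simp only [d3, e0, e1, e2]; ring)
    have hK' : (K.card : ℝ) ≤ 125 * |(d3 A B C : ℝ)| := by exact_mod_cast hK
    obtain ⟨a0, a1, a2⟩ := h A hA
    obtain ⟨b0, b1, b2⟩ := h B hB
    obtain ⟨c0, c1, c2⟩ := h C hC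
    have t0 := mul_le_mul (m2 a1 b2 b1 a2) c0 (abs_nonneg _) ((abs_nonneg _).trans (m2 a1 b2 b1 a2))
    have t1 := mul_le_mul (m2 a2 b0 b2 a0) c1 (abs_nonneg _) ((abs_nonneg _).trans (m2 a2 b0 b2 a0))
    have t2 := mul_le_mul (m2 a0 b1 b0 a1) c2 (abs_nonneg _) ((abs_nonneg _).trans (m2 a0 b1 b0 a1))
    rw [← abs_mul] at t0 t1 t2
    have t3 := (abs_add_three _ _ _).trans (add_le_add_three t0 t1 t2)
    have : |(d3 A B C : ℝ)| ≤ 6 * (η * D * Y) := by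
      refine le_trans (le_of_eq ?_) (t3.trans_eq (by ring))
      rw [d3]; push_cast; congr 1; ring
    linarith

end Pool.Agent.H53.ApprE
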