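import Mathlib
import Pool.Agent.H53.ApprD
import Pool.Agent.H53.ApprE

namespace Pool.Agent.H53.ApprF

open Polynomial Finset Module Filter Pool.Agent.H53.ApprA Pool.Agent.H53.ApprB
  Pool.Agent.H53.ApprD Pool.Agent.H53.ApprE

/-- naive height -/
noncomputable def hh (P : ℤ[X]) : ℝ :=
  (((range (P.natDegree + 1)).sup (fun i => (P.coeff i).natAbs) : ℕ) : ℝ)

lemma bd_hh (P : ℤ[X]) : Bd P (hh P) := by
  intro i
  by_cases h : i ∈ range (P.natDegree + 1)
  · have := le_sup (f := fun i => (P.coeff i).natAbs) h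
    rw [← Int.cast_abs, ← Int.natCast_natAbs, Int.cast_natCast]
    exact Nat.cast_le.mpr this
  · rw [coeff_eq_zero_of_natDegree_lt (by simpa using h)]
    simp [hh]

lemma hh_le {P : ℤ[X]} {Y : ℝ} (h : Bd P Y) : hh P ≤ Y := by
  refine (Nat.cast_le.mpr (Finset.sup_le fun i _ => Nat.le_floor ?_)).trans (Nat.floor_le h.nonneg)
  have := h i
  rwa [← Int.cast_abs, ← Int.natCast_natAbs, Int.cast_natCast] at this

/-- the linear polynomial of a rational number -/
noncomputable def lin (r : ℚ) : ℤ[X] := C (r.den : ℤ) * X + C (-r.num)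

lemma lin_irr (r : ℚ) : Irreducible (lin r) :=
  irreducible_C_mul_X_add_C (by exact_mod_cast r.den_nz)
    (Int.isCoprime_iff_gcd_eq_one.mpr (by simpa [Int.gcd] using r.reduced.symm)).isRelPrime

lemma lin_deg (r : ℚ) : (lin r).natDegree = 1 := natDegree_linear (by exact_mod_cast r.den_nz)

lemma lin_ev (r : ℚ) (x : ℝ) : aeval x (lin r) = r.den * (x - r) := by
  have : (r.den : ℝ) * r = r.num := by exact_mod_cast r.den_mul_eq_num
  simp [lin, mul_sub, this]; ring

lemma lin_bd (r : ℚ) (x : ℝ) (h : |x - r| ≤ 1) : Bd (lin r) ((|x| + 1) * r.den) := by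
  have e : (r.num : ℝ) = r * r.den := by exact_mod_cast r.mul_den_eq_num.symm
  have h0 : (0 : ℝ) < r.den := by exact_mod_cast r.pos
  intro i
  rcases i with _ | _ | i
  · have := abs_sub x (x - r)
    rw [sub_sub_cancel] at this
    simp only [lin, coeff_add, coeff_C_zero, mul_coeff_zero, coeff_X_zero, mul_zero, zero_add,
      Int.cast_neg, abs_neg, e, abs_mul, abs_of_pos h0]
    exact mul_le_mul_of_nonneg_right (by linarith) h0.le
  · simp only [lin, coeff_add, coeff_mul_X, coeff_C_zero, coeff_C_succ, add_zero, Int.cast_natCast,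
      abs_of_pos h0]
    nlinarith [abs_nonneg x]
  · simp only [lin, coeff_add, coeff_mul_X, coeff_C_succ, add_zero, Int.cast_zero, abs_zero]
    positivity

lemma nonL {ζ : ℝ} (hζ : Transcendental ℤ ζ) (h : ¬ Liouville ζ) : ∃ m : ℕ, ∀ (P : ℤ[X]) (Y : ℝ),
    P ≠ 0 → P.natDegree ≤ 1 → Bd P Y → 1 ≤ (2 * Y) ^ m * |aeval ζ P| := by
  unfold Liouville at h
  push Not at h
  obtain ⟨m, hm⟩ := h
  refine ⟨m, fun P Y h0 h1 hY => ?_⟩
  have hY1 := hY.one_le h0
  have hn := ne_of_tr hζ h0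
  rw [aeval_sum P 1 h1] at hn ⊢
  simp only [sum_range_succ, range_zero, sum_empty, pow_zero, pow_one, zero_add, mul_one] at hn ⊢
  by_cases hb : P.coeff 1 = 0
  · rw [hb, Int.cast_zero, zero_mul, add_zero] at hn ⊢
    exact one_le_mul_of_one_le_of_one_le (one_le_pow₀ (by linarith))
      (by exact_mod_cast Int.one_le_abs (by exact_mod_cast hn))
  have b1 := Int.one_le_abs hb
  have b2 : (1 : ℝ) ≤ |(P.coeff 1 : ℝ)| := by exact_mod_cast b1
  have e : |(P.coeff 0 : ℝ) + P.coeff 1 * ζ| = |(P.coeff 1 : ℝ)| *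
      |ζ - ((-2 * P.coeff 0 * (P.coeff 1).sign : ℤ) : ℝ) / ((2 * |P.coeff 1| : ℤ) : ℝ)| := by
    rw [← abs_mul]
    congr 1
    have : ((P.coeff 1).sign : ℝ) * P.coeff 1 = |(P.coeff 1 : ℝ)| := by
      exact_mod_cast Int.sign_mul_self_eq_abs _
    push_cast
    field_simp
    linear_combination (-(P.coeff 0 : ℝ)) * this
  have := hm (-2 * P.coeff 0 * (P.coeff 1).sign) (2 * |P.coeff 1|) (by omega) (fun h => by
    rw [← abs_ne_zero, e, ← h] at hn
    simp at hn)
  rw [div_le_iff₀' (by positivity)] at this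
  rw [e]
  refine this.trans (mul_le_mul (pow_le_pow_left₀ (by positivity) ?_ _)
    (le_mul_of_one_le_left (abs_nonneg _) b2) (abs_nonneg _) (by positivity))
  push_cast
  linarith [hY 1]

lemma par (K : Finset ℤ[X]) (hK : ∀ P ∈ K, P.natDegree ≤ 2)
    (h : ∀ P ∈ K, ∀ Q ∈ K, ∀ y, d3 (fun i => P.coeff i) (fun i => Q.coeff i) y = 0) :
    finrank ℤ (Submodule.span ℤ (K : Set ℤ[X])) ≤ 1 := by
  by_cases h0 : ∃ Q ∈ K, Q ≠ 0
  · obtain ⟨Q, hQ, h0⟩ := h0
    refine (rank_le _ K.finite_toSet (Submodule.span ℚ {Q.map (algebraMap ℤ ℚ)}) fun P hP => ?_).trans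
      (by simpa using finrank_span_le_card (R := ℚ) ({Q.map (algebraMap ℤ ℚ)} : Set ℚ[X]))
    have l : (Q.coeff Q.natDegree : ℚ) ≠ 0 := by exact_mod_cast leadingCoeff_ne_zero.mpr h0
    refine Submodule.mem_span_singleton.mpr ⟨P.coeff Q.natDegree / Q.coeff Q.natDegree, ?_⟩
    ext j
    simp only [coeff_smul, coeff_map, eq_intCast, smul_eq_mul]
    rw [div_mul_eq_mul_div, div_eq_iff l]
    norm_cast
    rcases Nat.lt_or_ge 2 j with hj | hj
    · rw [coeff_eq_zero_of_natDegree_lt ((hK P hP).trans_lt hj),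
        coeff_eq_zero_of_natDegree_lt ((hK Q hQ).trans_lt hj)]
      simp
    have a0 := h P hP Q hQ ![1, 0, 0]
    have a1 := h P hP Q hQ ![0, 1, 0]
    have a2 := h P hP Q hQ ![0, 0, 1]
    simp [d3] at a0 a1 a2
    have := hK Q hQ
    generalize Q.natDegree = i at *
    interval_cases i <;> interval_cases j <;> linarith
  · push Not at h0
    rw [Submodule.span_eq_bot.mpr h0]
    simp

lemma core2 {ζ C a X : ℝ} {m : ℕ} (hC : TC 2 ζ C)
    (hm : ∀ (P : ℤ[X]) (Y : ℝ), P ≠ 0 → P.natDegree ≤ 1 → Bd P Y → 1 ≤ (2 * Y) ^ m * |aeval ζ P|)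
    (ha : 2 * (360000 * C) ^ 2 * (|ζ| + 1) ^ 2 < a) (hX : a ^ (5 * m + 8) ≤ X)
    (ng : ∀ (P : ℤ[X]) (α : ℝ), Irreducible P → P.natDegree ≤ 2 → aeval α P = 0 → hh P ≤ X →
      (hh P)⁻¹ * (X * a)⁻¹ < |ζ - α|) : False := by
  classical
  have hC1 := hC.1
  obtain ⟨G, hG⟩ : ∃ G, G = |ζ| + 1 := ⟨_, rfl⟩
  have hG1 : 1 ≤ G := by linarith [abs_nonneg ζ]
  obtain ⟨E, hE⟩ : ∃ E, E = 360000 * C := ⟨_, rfl⟩
  rw [← hG, ← hE] at ha
  have hE1 : 360000 ≤ E := by linarith
  have hG2 : 1 ≤ G ^ 2 := one_le_pow₀ hG1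
  have a1 : 2 * E ^ 2 < a := by nlinarith
  have a2 : 2 * E * G ^ 2 < a := by nlinarith
  have a3 : 2 * E < a := by nlinarith
  have a4 : 1 ≤ a := by linarith
  have a0 : 0 < a := by linarith
  have x1 : a ^ 8 ≤ X := (pow_le_pow_right₀ a4 (by omega)).trans hX
  have x2 : ∀ k ≤ 8, a ^ k ≤ X := fun k hk => (pow_le_pow_right₀ a4 hk).trans x1
  have x3 : a ≤ X := by simpa using x2 1 (by norm_num)
  have x0 : 0 < X := by linarith
  have ng' : ∀ (P : ℤ[X]) (Y α : ℝ), P ≠ 0 → P.natDegree ≤ 2 → Bd P Y → 12 * Y ≤ X →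
      aeval α P = 0 → 1 / (12 * Y * X * a) ≤ |ζ - α| := by
    intro P Y α hP hn hY hYX hα
    obtain ⟨Q, q1, ⟨B, rfl⟩, q3⟩ := exists_irred P hP α hα
    have q4 := hh_le (gelfond 2 Q B Y (right_ne_zero_of_mul hP) hn hY)
    have q5 : Q.natDegree ≤ 2 := (natDegree_le_of_dvd (dvd_mul_right _ _) hP).trans hn
    have q6 := (bd_hh Q).one_le q1.ne_zero
    norm_num at q4
    refine le_trans ?_ (ng Q α q1 q5 q3 (by linarith)).le
    rw [← mul_inv, one_div, mul_assoc]
    exact inv_anti₀ (by positivity) (mul_le_mul_of_nonneg_right (by linarith) (by positivity))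
  obtain ⟨K, hK, hc⟩ := hC.count (X / 12) (1 / (X * a ^ 3)) (by linarith) (by positivity)
    (by rw [div_le_one (by positivity)]; nlinarith [one_le_pow₀ (n := 3) a4])
  have hc' : X ≤ 720 * C * a ^ 3 * K.card := by
    have : (X / 12) ^ 2 * (1 / (X * a ^ 3)) = X / (144 * a ^ 3) := by field_simp; ring
    rw [this, div_le_iff₀ (by positivity)] at hc
    linarith
  have hD : ∀ P ∈ K, |aeval ζ (derivative P)| ≤ 2 * X / a ^ 2 := by
    intro P hP
    by_cases h0 : P = 0
    · simp only [h0, map_zero, abs_zero]; positivity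
    obtain ⟨b1, b2, b3⟩ := hK P hP
    rcases hC.root P _ b1 b2 (1 / (12 * (X / 12) * X * a)) (by positivity)
      (by rw [div_le_one (by positivity)]; nlinarith)
      (fun α hα => ng' P _ α h0 b1 b2 (by linarith) hα) with d | d
    · have := d.trans (mul_le_mul_of_nonneg_left b3 zero_le_two)
      rw [← le_div_iff₀ (by positivity)] at this
      refine this.trans_eq ?_
      field_simp
    · refine abs_le.mpr (abs_le_of_sq_le_sq' (d.trans ?_) (by positivity))
      refine (mul_le_mul_of_nonneg_left b3 (by positivity)).trans ?_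
      have : 4 * C * (X / 12) * (1 / (X * a ^ 3)) = C / 3 / a ^ 3 := by field_simp; ring
      rw [this, div_pow, div_le_div_iff₀ (by positivity) (by positivity)]
      have : C / 3 * a ≤ (2 * X) ^ 2 := by nlinarith
      calc C / 3 * (a ^ 2) ^ 2 = C / 3 * a * a ^ 3 := by ring
        _ ≤ _ := mul_le_mul_of_nonneg_right this (by positivity)
  have hinj : (K.image fun P (i : Fin 3) => P.coeff i).card = K.card := by
    refine card_image_of_injOn fun P hP Q hQ e => ?_
    ext j
    rcases Nat.lt_or_ge 2 j with hj | hj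
    · rw [coeff_eq_zero_of_natDegree_lt ((hK P hP).1.trans_lt hj),
        coeff_eq_zero_of_natDegree_lt ((hK Q hQ).1.trans_lt hj)]
    · exact congrFun e ⟨j, by omega⟩
  rcases lat (K.image fun P (i : Fin 3) => P.coeff i) ζ (1 / (X * a ^ 3)) (2 * X / a ^ 2) (X / 12) (by
    intro v hv
    obtain ⟨P, hP, rfl⟩ := mem_image.mp hv
    obtain ⟨b1, b2, b3⟩ := hK P hP
    have b4 := hD P hP
    rw [aeval_sum P 2 b1] at b3
    rw [aeval_der P 2 b1] at b4
    refine ⟨?_, ?_, b2 _⟩
    · simpa [sum_range_succ] using b3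
    · convert b4 using 2
      simp [sum_range_succ]; ring) with h | h | ⟨x, hx, u0, u1, u2⟩
  · have hr := par K (fun P hP => (hK P hP).1) fun P hP Q hQ y =>
      h _ (mem_image_of_mem _ hP) _ (mem_image_of_mem _ hQ) y
    have m0 : 1 ≤ X / a ^ 4 := by rw [le_div_iff₀ (by positivity), one_mul]; exact x2 4 (by norm_num)
    have m1 : X / a ^ 4 ≤ ⌈X / a ^ 4⌉₊ := Nat.le_ceil _
    have m2 : (⌈X / a ^ 4⌉₊ : ℝ) ≤ 2 * (X / a ^ 4) := by
      linarith [Nat.ceil_lt_add_one (by linarith : 0 ≤ X / a ^ 4)]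
    have m3 : 0 < ⌈X / a ^ 4⌉₊ := Nat.ceil_pos.mpr (by linarith)
    obtain ⟨S, s1, s2, s3, s4⟩ := packing' K hK _ m3 (by
      refine (Nat.pow_le_pow_right m3 hr).trans_lt ?_
      rw [pow_one]
      have : 2 * (X / a ^ 4) < K.card := by
        rw [← mul_div_assoc, div_lt_iff₀ (by positivity)]
        have k0 : (0 : ℝ) < K.card := by
          by_contra hk
          nlinarith [mul_nonneg (mul_nonneg (by linarith : 0 ≤ 720 * C) (by positivity : 0 ≤ a ^ 3))
            (by linarith : (0 : ℝ) ≤ -K.card)]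
        nlinarith [mul_lt_mul_of_pos_right (by linarith : 1440 * C < a)
          (by positivity : 0 < a ^ 3 * K.card)]
      exact_mod_cast m2.trans_lt this)
    have s5 : Bd S (a ^ 4 / 6) := s3.mono
      ((div_le_div_of_nonneg_left (by linarith) (by linarith) m1).trans_eq (by field_simp; ring))
    have s6 : |aeval ζ S| ≤ 2 * a / X ^ 2 := s4.trans
      ((div_le_div_of_nonneg_left (by positivity) (by linarith) m1).trans_eq (by field_simp))
    have s7 : |aeval ζ (derivative S)| ≤ 8 * a ^ 6 / X := by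
      rcases hC.root S _ s2 s5 (1 / (12 * (a ^ 4 / 6) * X * a)) (by positivity)
        (by rw [div_le_one (by positivity)]; nlinarith [one_le_pow₀ (n := 4) a4, mul_pos x0 a0])
        (fun α hα => ng' S _ α s1 s2 s5 (by nlinarith [x2 5 (by norm_num), pow_pos a0 4]) hα)
        with d | d
      · have := d.trans (mul_le_mul_of_nonneg_left s6 zero_le_two)
        rw [← le_div_iff₀ (by positivity)] at this
        refine this.trans_eq ?_
        field_simp; ring
      · refine abs_le.mpr (abs_le_of_sq_le_sq' (d.trans ?_) (by positivity))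
        refine (mul_le_mul_of_nonneg_left s6 (by positivity)).trans ?_
        have : 4 * C * (a ^ 4 / 6) * (2 * a / X ^ 2) = 4 / 3 * C * a ^ 5 / X ^ 2 := by
          field_simp; ring
        rw [this, div_pow]
        refine div_le_div_of_nonneg_right ?_ (by positivity)
        have : a ^ 6 ≤ a ^ 12 := pow_le_pow_right₀ a4 (by norm_num)
        nlinarith [pow_pos a0 5]
    have fin : ∀ P : ℤ[X], P ≠ 0 → P.natDegree ≤ 1 → Bd P (a ^ 4 / 2) →
        |aeval ζ P| ≤ 8 * a ^ 6 / X → False := by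
      intro P p1 p2 p3 p4
      have := (hm P _ p1 p2 p3).trans (mul_le_mul_of_nonneg_left p4 (by positivity))
      rw [mul_div_cancel₀ _ two_ne_zero, ← mul_div_assoc, le_div_iff₀ x0, ← pow_mul] at this
      have h1 : a ^ (4 * m + 7) ≤ X := (pow_le_pow_right₀ a4 (by omega)).trans hX
      rw [pow_add] at h1
      nlinarith [mul_pos (pow_pos a0 (4 * m)) (pow_pos a0 6)]
    by_cases h0 : derivative S = 0
    · refine fin S s1 (by rw [natDegree_eq_zero_of_derivative_eq_zero h0]; norm_num)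
        (s5.mono (by nlinarith [pow_pos a0 4])) (s6.trans ?_)
      rw [div_le_div_iff₀ (by positivity) x0]
      have : a ≤ a ^ 6 := by simpa using pow_le_pow_right₀ a4 (by norm_num : 1 ≤ 6)
      nlinarith [mul_pos x0 a0, mul_le_mul this (by nlinarith : X ≤ X ^ 2) x0.le (by positivity)]
    · refine fin _ h0 ((natDegree_derivative_le S).trans (by omega)) (fun i => ?_) s7
      rw [coeff_derivative]
      rcases Nat.lt_or_ge 1 i with hi | hi
      · rw [coeff_eq_zero_of_natDegree_lt (by omega)]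
        simp only [zero_mul, Int.cast_zero, abs_zero]; positivity
      · push_cast
        have : (i : ℝ) ≤ 1 := by exact_mod_cast hi
        rw [abs_mul, abs_of_nonneg (by positivity : 0 ≤ (i : ℝ) + 1)]
        nlinarith [s5 (i + 1), abs_nonneg (S.coeff (i + 1) : ℝ), pow_pos a0 4]
  · rw [hinj] at h
    have e : 750 * (1 / (X * a ^ 3) * (2 * X / a ^ 2) * (X / 12)) = 125 * X / a ^ 5 := by
      field_simp; ring
    rw [e, le_div_iff₀ (by positivity)] at h
    have : X * a ^ 2 ≤ 720 * C * (K.card * a ^ 5) := by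
      nlinarith [mul_le_mul_of_nonneg_right hc' (by positivity : 0 ≤ a ^ 2)]
    have : X * a ^ 2 ≤ X * (90000 * C) := by nlinarith
    have := le_of_mul_le_mul_left this x0
    nlinarith
  · rw [hinj] at u0 u1 u2
    have key : ∀ u s t : ℝ, K.card * |u| ≤ s → 720 * C * a ^ 3 * s ≤ X * t → |u| ≤ t := by
      intro u s t h1 h2
      refine le_of_mul_le_mul_left (le_trans ?_ h2) x0
      nlinarith [mul_le_mul_of_nonneg_right hc' (abs_nonneg u),
        mul_le_mul_of_nonneg_left h1 (by positivity : 0 ≤ 720 * C * a ^ 3)]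
    have v0 := key _ _ (E * X * a) u0 (by rw [hE]; field_simp; nlinarith)
    have v1 := key _ _ (E / X) u1 (by rw [hE]; field_simp; nlinarith)
    have v2 := key _ _ (E / (a ^ 2 * X)) u2 (by rw [hE]; field_simp; nlinarith)
    have z : ∀ n : ℤ, |(n : ℝ)| < 1 → n = 0 := fun n h => Int.abs_lt_one_iff.mp (by exact_mod_cast h)
    have w1 : E / X < 1 / 2 := by rw [div_lt_iff₀ x0]; linarith
    have w2 : E / (a ^ 2 * X) < 1 := by rw [div_lt_one (by positivity)]; nlinarith
    have hank : x 0 * x 2 - x 1 ^ 2 = 0 := by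
      apply z
      have e : ((x 0 * x 2 - x 1 ^ 2 : ℤ) : ℝ) = x 0 * (x 2 - 2 * ζ * x 1 + ζ ^ 2 * x 0) -
        (x 1 - ζ * x 0) ^ 2 := by push_cast; ring
      rw [e]
      refine (abs_sub _ _).trans_lt ?_
      rw [abs_mul, abs_pow]
      have t1 := mul_le_mul v0 v2 (abs_nonneg _) (by positivity)
      have t2 : E * X * a * (E / (a ^ 2 * X)) < 1 / 2 := by
        rw [show E * X * a * (E / (a ^ 2 * X)) = E ^ 2 / a by field_simp, div_lt_iff₀ a0]; linarith
      nlinarith [abs_nonneg (x 1 - ζ * x 0)]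
    by_cases h0 : x 0 = 0
    · have h1 : x 1 = 0 := by simpa [h0] using hank
      have h2 : x 2 = 0 := z _ (by simpa [h0, h1] using v2.trans_lt w2)
      exact hx (funext fun i => by fin_cases i <;> assumption)
    obtain ⟨r, hr⟩ : ∃ r : ℚ, r = x 1 / x 0 := ⟨_, rfl⟩
    have h0' : (x 0 : ℚ) ≠ 0 := by exact_mod_cast h0
    have r1 : r.num * x 0 = x 1 * r.den := by
      have := r.mul_den_eq_num
      rw [hr, div_mul_eq_mul_div, div_eq_iff h0', ← hr] at this
      exact_mod_cast this.symm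
    have r2 : (r.den : ℤ) ^ 2 ∣ x 0 := by
      have : IsCoprime ((r.den : ℤ) ^ 2) (r.num ^ 2) :=
        (Int.isCoprime_iff_gcd_eq_one.mpr (by simpa [Int.gcd] using r.reduced.symm)).pow
      refine this.dvd_of_dvd_mul_left ⟨x 2, mul_left_cancel₀ h0 ?_⟩
      linear_combination (r.num * x 0 + x 1 * r.den) * r1 - r.den ^ 2 * hank
    have r3 : (r.den : ℝ) ^ 2 ≤ |(x 0 : ℝ)| := by
      exact_mod_cast Int.le_of_dvd (abs_pos.mpr h0) ((dvd_abs _ _).mpr r2)
    have q1 : (1 : ℝ) ≤ r.den := by exact_mod_cast r.pos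
    have r4 : |ζ - r| * r.den ^ 2 ≤ E / X := by
      refine (mul_le_mul_of_nonneg_left r3 (abs_nonneg _)).trans (le_trans (le_of_eq ?_) v1)
      have h0'' : (x 0 : ℝ) ≠ 0 := by exact_mod_cast h0
      rw [← abs_mul, hr, abs_sub_comm, sub_mul]
      push_cast
      rw [div_mul_cancel₀ _ h0'']
    have r5 : |ζ - r| * r.den ≤ E / X :=
      le_trans (mul_le_mul_of_nonneg_left (by nlinarith) (abs_nonneg _)) r4
    have r6 := lin_bd r ζ (by nlinarith [abs_nonneg (ζ - r)])
    rw [← hG] at r6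
    have r7 : G * r.den ≤ X := by
      refine abs_le_of_sq_le_sq' ?_ x0.le |>.2
      have := mul_le_mul_of_nonneg_left (r3.trans v0) (by positivity : 0 ≤ G ^ 2)
      have h2 : E * G ^ 2 * a ≤ X := by nlinarith [x2 2 (by norm_num)]
      nlinarith [mul_le_mul_of_nonneg_right h2 x0.le]
    have r8 := ng (lin r) r (lin_irr r) (by rw [lin_deg]; norm_num) (by simp [lin_ev])
      ((hh_le r6).trans r7)
    have r9 : (G * r.den)⁻¹ * (X * a)⁻¹ < |ζ - r| := lt_of_le_of_lt (mul_le_mul_of_nonneg_right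
      (inv_anti₀ (by linarith [(bd_hh _).one_le (lin_irr r).ne_zero]) (hh_le r6)) (by positivity)) r8
    have r10 : (r.den : ℝ) ≤ G * E * a := by
      have := (mul_le_mul_of_nonneg_right r9.le (by positivity : (0 : ℝ) ≤ r.den ^ 2)).trans r4
      field_simp at this
      linarith
    have r11 := hm _ _ (lin_irr r).ne_zero (lin_deg r).le r6
    rw [lin_ev, abs_mul, abs_of_pos (by linarith : (0 : ℝ) < r.den), mul_comm (r.den : ℝ)] at r11
    have r12 : (2 * (G * r.den)) ^ m ≤ (a ^ 2) ^ m := pow_le_pow_left₀ (by positivity) (by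
      nlinarith [mul_le_mul_of_nonneg_left r10 (by linarith : 0 ≤ G)]) _
    have := r11.trans (mul_le_mul r12 r5 (by positivity) (by positivity))
    rw [← mul_div_assoc, le_div_iff₀ x0, ← pow_mul] at this
    have h1 : a ^ (2 * m + 1) ≤ X := (pow_le_pow_right₀ a4 (by omega)).trans hX
    rw [pow_succ] at h1
    nlinarith [pow_pos a0 (2 * m)]

end Pool.Agent.H53.ApprF
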