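import Mathlib
import Pool.Agent.H53.ApprF

namespace Pool.Agent.H53.ApprG

open Polynomial Finset Filter Pool.Agent.H53.ApprA Pool.Agent.H53.ApprD Pool.Agent.H53.ApprF

/-- the set whose supremum is the uniform exponent -/
def SS (ζ : ℝ) (n : ℕ) : Set ℝ := {w : ℝ | ∃ H₀ : ℝ, ∀ H : ℝ, H₀ ≤ H → ∃ α : ℝ, ∃ P : ℤ[X],
  Irreducible P ∧ P.natDegree ≤ n ∧ aeval α P = 0 ∧ hh P ≤ H ∧ 0 < |ζ - α| ∧
    |ζ - α| ≤ (hh P)⁻¹ * H ^ (-w)}

lemma pos_of {ζ α : ℝ} (hζ : Transcendental ℤ ζ) {P : ℤ[X]} (h : Irreducible P)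
    (h0 : aeval α P = 0) : 0 < |ζ - α| :=
  abs_pos.mpr (sub_ne_zero.mpr fun e => ne_of_tr hζ h.ne_zero (e ▸ h0))

lemma partA {ζ : ℝ} (hζ : Transcendental ℤ ζ) {n : ℕ} (hn : 1 ≤ n) {w : ℝ} (hw : w < 1) :
    w ∈ SS ζ n := by
  obtain ⟨G, hG⟩ : ∃ G, G = |ζ| + 1 := ⟨_, rfl⟩
  have hG1 : 1 ≤ G := by linarith [abs_nonneg ζ]
  obtain ⟨H₀, h⟩ := eventually_atTop.mp ((ev (G ^ 2) (-1) (-w) (by linarith)).and
    (eventually_ge_atTop G))
  refine ⟨H₀, fun H hH => ?_⟩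
  obtain ⟨e1, e2⟩ := h H hH
  have h0 : 0 < H := by linarith
  have n1 : 1 ≤ H / G := by rw [le_div_iff₀ (by linarith)]; linarith
  obtain ⟨r, r1, r2⟩ := Real.exists_rat_abs_sub_le_and_den_le ζ (Nat.floor_pos.mpr n1)
  have q1 : (1 : ℝ) ≤ r.den := by exact_mod_cast r.pos
  have r3 : (r.den : ℝ) ≤ H / G := (Nat.cast_le.mpr r2).trans (Nat.floor_le (by linarith))
  have r4 : |ζ - r| ≤ 1 / (H / G * r.den) := r1.trans (one_div_le_one_div_of_le (by positivity)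
    (mul_le_mul_of_nonneg_right (Nat.lt_floor_add_one _).le (by linarith)))
  have r6 := lin_bd r ζ (r4.trans (by rw [div_le_one (by positivity)]; nlinarith))
  rw [← hG] at r6
  have r7 : aeval (r : ℝ) (lin r) = 0 := by simp [lin_ev]
  refine ⟨r, lin r, lin_irr r, (lin_deg r).le.trans hn, r7,
    (hh_le r6).trans ((le_div_iff₀' (by linarith)).mp r3), pos_of hζ (lin_irr r) r7,
    r4.trans (le_trans ?_ (mul_le_mul (inv_anti₀ (by linarith [(bd_hh _).one_le (lin_irr r).ne_zero])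
      (hh_le r6)) e1.le (by positivity) (by rw [hh]; positivity)))⟩
  rw [Real.rpow_neg_one]
  apply le_of_eq
  field_simp

lemma root_rat {P : ℤ[X]} (h : Irreducible P) (r : ℚ) (α : ℝ) (h1 : aeval (r : ℝ) P = 0)
    (h2 : aeval α P = 0) : α = r := by
  have d : (r.den : ℚ) ≠ 0 := by exact_mod_cast r.den_nz
  have : lin r ∣ P := by
    rw [IsPrimitive.Int.dvd_iff_map_cast_dvd_map_cast _ _
      ((lin_irr r).isPrimitive (by rw [lin_deg]; norm_num))]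
    have e : (lin r).map (Int.castRingHom ℚ) = C (r.den : ℚ) * (X - C r) := by
      rw [mul_sub, ← C_mul, r.den_mul_eq_num]
      simp [lin, sub_eq_add_neg]
    rw [e, C_mul_dvd d, dvd_iff_isRoot, IsRoot.def, eval_map]
    have : ((aeval r P : ℚ) : ℝ) = 0 := by
      rw [← h1]; exact (aeval_algHom_apply (Rat.castHom ℝ).toIntAlgHom r P).symm
    exact_mod_cast this
  obtain ⟨B, rfl⟩ := this
  have hB := (h.isUnit_or_isUnit rfl).resolve_left (lin_irr r).not_isUnit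
  rw [map_mul, mul_eq_zero, lin_ev, mul_eq_zero, sub_eq_zero] at h2
  rcases h2 with (h2 | h2) | h2
  · exact absurd (by exact_mod_cast h2) r.den_nz
  · exact h2
  · exact absurd h2 (hB.map (aeval α)).ne_zero

lemma partB {ζ : ℝ} (hL : Liouville ζ) {n : ℕ} {w : ℝ} (h : w ∈ SS ζ n) : w ≤ 1 := by
  by_contra hw
  rw [not_le] at hw
  obtain ⟨H₀, h⟩ := h
  obtain ⟨C, hC⟩ := exists_TC n ζ
  have hC1 := hC.1
  obtain ⟨Y, hY⟩ := eventually_atTop.mp ((ev (6 * C) (1 - w) (-((w - 1) / 2)) (by linarith)).and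
    (eventually_ge_atTop (max H₀ 1)))
  obtain ⟨m, hm⟩ := ((tendsto_natCast_atTop_atTop (R := ℝ)).eventually_ge_atTop
    (2 * n * w / (w - 1)) |>.and ((tendsto_pow_atTop_atTop_of_one_lt (one_lt_two (α := ℝ))).eventually_ge_atTop
      ((max Y 1) ^ w))).exists
  obtain ⟨m1, m2⟩ := hm
  obtain ⟨a, b, hb, h1, h2⟩ := hL m
  have b2 : (2 : ℝ) ≤ b := by exact_mod_cast hb
  obtain ⟨δ, hδ⟩ : ∃ δ, δ = |ζ - a / b| := ⟨_, rfl⟩
  have d0 : 0 < δ := hδ ▸ abs_pos.mpr (sub_ne_zero.mpr h1)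
  rw [← hδ, lt_div_iff₀ (by positivity)] at h2
  obtain ⟨H, hH⟩ : ∃ H, H = (2 / δ) ^ w⁻¹ := ⟨_, rfl⟩
  have H0 : 0 < H := by rw [hH]; positivity
  have H1 : H ^ w = 2 / δ := by rw [hH, Real.rpow_inv_rpow (by positivity) (by linarith)]
  have H2 : (b : ℝ) ^ m ≤ H ^ w := by rw [H1, le_div_iff₀ d0]; linarith
  have H3 : Y ≤ H := by
    refine (le_max_left Y 1).trans ((Real.rpow_le_rpow_iff (by positivity) H0.le (by linarith : 0 < w)).mp ?_)
    exact m2.trans ((pow_le_pow_left₀ zero_le_two b2 _).trans H2)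
  obtain ⟨e1, e2⟩ := hY H H3
  have H4 : 1 ≤ H := (le_max_right _ _).trans e2
  obtain ⟨α, P, p1, p2, p3, p4, _, p6⟩ := h H ((le_max_left _ _).trans e2)
  have p7 := (bd_hh P).one_le p1.ne_zero
  have H5 : H ^ (-w) = δ / 2 := by rw [Real.rpow_neg H0.le, H1, inv_div]
  rw [H5] at p6
  have p8 : |ζ - α| ≤ δ / 2 := p6.trans (mul_le_of_le_one_left (by positivity) (inv_le_one_of_one_le₀ p7))
  have d1 : δ ≤ 1 := by nlinarith [one_le_pow₀ (n := m) (by linarith : (1 : ℝ) ≤ b)]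
  by_cases h3 : aeval ((a : ℝ) / b) P = 0
  · have := root_rat p1 (a / b) α (by push_cast; exact h3) p3
    rw [this] at p8
    push_cast at p8
    linarith
  have h4 := one_le_pow_mul_abs_eval_div (K := ℝ) (f := P) (a := a) (b := b) (by omega)
    (by rwa [eval_map_algebraMap])
  rw [eval_map_algebraMap] at h4
  have l1 := hC.lip P H p2 ((bd_hh P).mono p4) α (by linarith)
  have l2 := hC.lip P H p2 ((bd_hh P).mono p4) (a / b) (by linarith)
  rw [p3, zero_sub, abs_neg] at l1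
  rw [← hδ] at l2
  have l3 : |aeval ((a : ℝ) / b) P| ≤ 6 * C * H ^ (1 - w) := by
    have := abs_add_le (aeval ((a : ℝ) / b) P - aeval ζ P) (aeval ζ P)
    rw [sub_add_cancel] at this
    rw [sub_eq_add_neg, Real.rpow_add H0, Real.rpow_one, H5]
    nlinarith [mul_le_mul_of_nonneg_left p8 (by positivity : 0 ≤ 2 * C * H)]
  have l4 : (b : ℝ) ^ P.natDegree ≤ H ^ ((w - 1) / 2) := by
    refine (pow_le_pow_right₀ (by linarith) p2).trans ?_
    have t : 0 ≤ (w - 1) / (2 * w) := by apply div_nonneg <;> linarith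
    have := Real.rpow_le_rpow (by positivity) H2 t
    rw [← Real.rpow_mul H0.le, ← Real.rpow_natCast, ← Real.rpow_mul (by positivity),
      show w * ((w - 1) / (2 * w)) = (w - 1) / 2 by field_simp] at this
    refine le_trans ?_ this
    rw [← Real.rpow_natCast]
    refine Real.rpow_le_rpow_of_exponent_le (by linarith) ?_
    rw [div_le_iff₀ (by linarith)] at m1
    rw [← mul_div_assoc, le_div_iff₀ (by linarith)]
    linarith
  have := h4.trans_lt (mul_lt_mul' l4 (l3.trans_lt e1) (abs_nonneg _) (by positivity))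
  rw [← Real.rpow_add H0] at this
  simp at this

lemma partC {ζ : ℝ} (hζ : Transcendental ℤ ζ) (hL : ¬ Liouville ζ) : ∃ w, 1 < w ∧ w ∈ SS ζ 2 := by
  obtain ⟨m, hm⟩ := nonL hζ hL
  obtain ⟨C, hC⟩ := exists_TC 2 ζ
  have t : (0 : ℝ) < ((5 * m + 8 : ℕ) : ℝ)⁻¹ := by positivity
  obtain ⟨H₀, h⟩ := eventually_atTop.mp (((tendsto_rpow_atTop t).eventually_gt_atTop
    (2 * (360000 * C) ^ 2 * (|ζ| + 1) ^ 2)).and (eventually_gt_atTop 0))
  refine ⟨1 + ((5 * m + 8 : ℕ) : ℝ)⁻¹, by linarith, H₀, fun H hH => ?_⟩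
  obtain ⟨e1, e2⟩ := h H hH
  by_contra hc
  refine core2 hC hm e1 (Real.rpow_inv_natCast_pow e2.le (by omega)).le fun P α p1 p2 p3 p4 => ?_
  by_contra h2
  refine hc ⟨α, P, p1, p2, p3, p4, pos_of hζ p1 p3, ?_⟩
  rw [Real.rpow_neg e2.le, Real.rpow_add e2, Real.rpow_one]
  exact not_lt.mp h2

theorem main (ζ : ℝ) (hζ : Transcendental ℤ ζ) :
    Liouville ζ ↔ ∀ n : ℕ, 1 ≤ n → IsLUB (SS ζ n) 1 := by
  refine ⟨fun hL n hn => ⟨fun w hw => partB hL hw, fun b hb => ?_⟩, fun h => ?_⟩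
  · exact le_of_forall_lt_imp_le_of_dense fun w hw => hb (partA hζ hn hw)
  · by_contra hL
    obtain ⟨w, h1, h2⟩ := partC hζ hL
    exact absurd ((h 2 one_le_two).1 h2) (not_le.mpr h1)

end Pool.Agent.H53.ApprG
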