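import Mathlib

open Set Finset

namespace Pool.Agent.H53.Ms

/-- one-strip property of a family of dangerous sets -/
def HH (R : ℕ) (l : ℝ) (Bad : ℕ → ℕ → Set (ℝ × ℝ)) : Prop :=
  ∀ g k, 1 ≤ k → k ≤ g → ∀ S : Set (ℝ × ℝ),
    (∀ z ∈ S, ∀ z' ∈ S, |z.1 - z'.1| ≤ l / R ^ (g - k) ∧ |z.2 - z'.2| ≤ l / R ^ (g - k)) →
    (∀ g' k', 1 ≤ k' → k' ≤ g' → g' ≤ g - k → ∀ z ∈ S, z ∉ Bad g' k') →
    ∃ A B C : ℝ, (A ≠ 0 ∨ B ≠ 0) ∧ ∀ z ∈ S, z ∈ Bad g k → |A * z.1 + B * z.2 + C| ≤ l / R ^ g * max |A| |B|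

lemma HH_swap {R : ℕ} {l : ℝ} {Bad : ℕ → ℕ → Set (ℝ × ℝ)} (h : HH R l Bad) :
    HH R l fun g k => Prod.swap ⁻¹' Bad g k := by
  intro g k h1 h2 S h3 h4
  obtain ⟨A, B, C, h5, h6⟩ := h g k h1 h2 (Prod.swap ⁻¹' S) (fun z hz z' hz' => (h3 _ hz _ hz').symm)
    (fun g' k' a b c z hz hb => h4 g' k' a b c _ hz hb)
  refine ⟨B, A, C, h5.symm, fun z hz hb => ?_⟩
  have := h6 z.swap hz hb
  simp only [Prod.fst_swap, Prod.snd_swap] at this
  rwa [add_comm (B * z.1), max_comm]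

/-- grid square -/
def Sq (L : ℝ) (i : ℕ × ℕ) : Set (ℝ × ℝ) := Icc (i.1 * L) ((i.1 + 1) * L) ×ˢ Icc (i.2 * L) ((i.2 + 1) * L)

lemma strip0 (L : ℝ) (hL : 0 < L) (A B C : ℝ) (hB : B ≠ 0) (hAB : |A| ≤ |B|) (K t : ℕ) (hK : 0 < K)
    (X : Finset (ℕ × ℕ)) (hX : ∀ i ∈ X, i.1 / K = t ∧ ∃ z ∈ Sq L i, |A * z.1 + B * z.2 + C| ≤ L * |B|) :
    X.card ≤ 6 * K := by
  have hB0 : 0 < |B| := abs_pos.2 hB
  have : X.card ≤ (Finset.Icc (-3:ℤ) 2 ×ˢ Finset.range K).card := by
    refine Finset.card_le_card_of_injOn (fun i => ((i.2:ℤ) - ⌊-(A * (i.1 * L) + C) / B / L⌋, i.1 % K)) ?_ ?_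
    · intro i hi
      obtain ⟨_, z, ⟨⟨a1, a2⟩, a3, a4⟩, hz⟩ := hX i hi
      rw [Finset.mem_coe, Finset.mem_product, Finset.mem_Icc, Finset.mem_range]
      refine ⟨?_, Nat.mod_lt _ hK⟩
      dsimp only
      set y := -(A * (i.1 * L) + C) / B with hy
      have e : B * (z.2 - y) = (A * z.1 + B * z.2 + C) - A * (z.1 - i.1 * L) := by rw [hy]; field_simp; ring
      have b1 : |A * (z.1 - i.1 * L)| ≤ |B| * L := by
        rw [abs_mul]
        exact mul_le_mul hAB (by rw [abs_le]; constructor <;> linarith) (abs_nonneg _) hB0.le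
      have b2 : |B| * |z.2 - y| ≤ |B| * (2 * L) := by
        rw [← abs_mul, e]
        linarith [abs_sub (A * z.1 + B * z.2 + C) (A * (z.1 - i.1 * L))]
      have b3 := abs_le.1 (le_of_mul_le_mul_left b2 hB0)
      have c1 := Int.floor_le (y / L)
      have c2 := Int.lt_floor_add_one (y / L)
      rw [le_div_iff₀ hL] at c1
      rw [div_lt_iff₀ hL] at c2
      have d1 : ((⌊y / L⌋ : ℝ) - 3) * L ≤ i.2 * L := by linarith
      have d2 : (i.2 : ℝ) * L < (⌊y / L⌋ + 3) * L := by linarith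
      have d3 : ⌊y / L⌋ - 3 ≤ (i.2:ℤ) := by exact_mod_cast le_of_mul_le_mul_right d1 hL
      have d4 : (i.2:ℤ) < ⌊y / L⌋ + 3 := by exact_mod_cast lt_of_mul_lt_mul_right d2 hL.le
      omega
    · intro i hi j hj h
      simp only [Prod.mk.injEq] at h
      have e : i.1 = j.1 := by
        rw [← Nat.div_add_mod i.1 K, ← Nat.div_add_mod j.1 K, (hX i hi).1, (hX j hj).1, h.2]
      have h1 := h.1
      rw [e] at h1
      exact Prod.ext e (by omega)
  simpa using this

lemma strip (L : ℝ) (hL : 0 < L) (A B C : ℝ) (hB : A ≠ 0 ∨ B ≠ 0) (K : ℕ) (t : ℕ × ℕ) (hK : 0 < K)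
    (X : Finset (ℕ × ℕ)) (hX : ∀ i ∈ X, (i.1 / K, i.2 / K) = t ∧
      ∃ z ∈ Sq L i, |A * z.1 + B * z.2 + C| ≤ L * max |A| |B|) : X.card ≤ 6 * K := by
  rcases le_total |A| |B| with h | h
  · refine strip0 L hL A B C (fun h0 => ?_) h K t.1 hK X fun i hi => ?_
    · rw [h0, abs_zero, abs_nonpos_iff] at h
      tauto
    · obtain ⟨h1, h2⟩ := hX i hi
      rw [max_eq_right h] at h2
      exact ⟨congrArg Prod.fst h1, h2⟩
  · rw [← Finset.card_image_of_injective X Prod.swap_injective]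
    refine strip0 L hL B A C (fun h0 => ?_) h K t.2 hK _ fun i hi => ?_
    · rw [h0, abs_zero, abs_nonpos_iff] at h
      tauto
    · obtain ⟨j, hj, rfl⟩ := Finset.mem_image.1 hi
      obtain ⟨h1, z, h2, h3⟩ := hX j hj
      rw [max_eq_left h, add_comm (A * z.1)] at h3
      exact ⟨congrArg Prod.snd h1, z.swap, ⟨h2.2, h2.1⟩, h3⟩

lemma Sq_anc (l : ℝ) (hl : 0 < l) (R : ℕ) (hR : 0 < R) (g k : ℕ) (hk : k ≤ g) (i : ℕ × ℕ) :
    Sq (l / R ^ g) i ⊆ Sq (l / R ^ (g - k)) (i.1 / R ^ k, i.2 / R ^ k) := by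
  have hR0 : (0:ℝ) < R := by exact_mod_cast hR
  have e : l / R ^ (g - k) = R ^ k * (l / R ^ g) := by
    rw [pow_sub₀ _ hR0.ne' hk]; field_simp
  have hL : 0 < l / R ^ g := by positivity
  have key : ∀ n : ℕ, Icc (n * (l / R ^ g)) ((n + 1) * (l / R ^ g)) ⊆
      Icc (((n / R ^ k : ℕ) : ℝ) * (l / R ^ (g - k))) ((((n / R ^ k : ℕ) : ℝ) + 1) * (l / R ^ (g - k))) := by
    intro n
    rw [e, ← mul_assoc, ← mul_assoc]
    have a1 : ((n / R ^ k : ℕ) : ℝ) * R ^ k ≤ n := by exact_mod_cast Nat.div_mul_le_self n (R ^ k)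
    have a2 : (n:ℝ) + 1 ≤ (((n / R ^ k : ℕ) : ℝ) + 1) * R ^ k := by
      have := Nat.lt_mul_div_succ n (pow_pos hR k)
      rw [mul_comm] at this
      exact_mod_cast this
    exact Icc_subset_Icc (mul_le_mul_of_nonneg_right a1 hL.le) (mul_le_mul_of_nonneg_right a2 hL.le)
  exact prod_mono (key _) (key _)

open Classical in
/-- surviving squares -/
noncomputable def JJ (R : ℕ) (l : ℝ) (Bad : Fin 2 → ℕ → ℕ → Set (ℝ × ℝ)) : ℕ → Finset (ℕ × ℕ)
  | 0 => {(0, 0)}
  | g + 1 => ((JJ R l Bad g ×ˢ (Finset.range R ×ˢ Finset.range R)).image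
      fun x => (R * x.1.1 + x.2.1, R * x.1.2 + x.2.2)).filter
      fun i => ∀ t k, 1 ≤ k → k ≤ g + 1 → ∀ z ∈ Sq (l / R ^ (g + 1)) i, z ∉ Bad t (g + 1) k

theorem cantor (R : ℕ) (hR : 48 ≤ R) (l : ℝ) (hl : 0 < l) (Bad : Fin 2 → ℕ → ℕ → Set (ℝ × ℝ))
    (h : ∀ t, HH R l (Bad t)) : ∃ z : ℝ × ℝ, ∀ t g k, 1 ≤ k → k ≤ g → z ∉ Bad t g k := by
  classical
  have hR0 : 0 < R := by omega
  set J := JJ R l Bad with hJ
  set Ch : ℕ → Finset (ℕ × ℕ) := fun g => (J g ×ˢ (Finset.range R ×ˢ Finset.range R)).image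
      fun x => (R * x.1.1 + x.2.1, R * x.1.2 + x.2.2) with hCh
  have hJs : ∀ g, J (g + 1) = (Ch g).filter
      fun i => ∀ t k, 1 ≤ k → k ≤ g + 1 → ∀ z ∈ Sq (l / R ^ (g + 1)) i, z ∉ Bad t (g + 1) k := fun g => rfl
  have par : ∀ g, ∀ i ∈ Ch g, (i.1 / R, i.2 / R) ∈ J g := by
    intro g i hi
    obtain ⟨x, hx, rfl⟩ := Finset.mem_image.1 hi
    obtain ⟨a1, a2⟩ := Finset.mem_product.1 hx
    obtain ⟨a3, a4⟩ := Finset.mem_product.1 a2
    rw [Finset.mem_range] at a3 a4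
    simp only [Nat.mul_add_div hR0, Nat.div_eq_of_lt a3, Nat.div_eq_of_lt a4, add_zero]
    exact a1
  have anc : ∀ k g, ∀ i ∈ J (g + k), (i.1 / R ^ k, i.2 / R ^ k) ∈ J g := by
    intro k
    induction k with
    | zero => intro g i hi; simpa using hi
    | succ k ih =>
      intro g i hi
      have := ih g _ (par (g + k) i (Finset.mem_filter.1 hi).1)
      simpa only [Nat.div_div_eq_div_mul, ← pow_succ'] using this
  have avoid : ∀ g, ∀ i ∈ J g, ∀ t g' k', 1 ≤ k' → k' ≤ g' → g' ≤ g → ∀ z ∈ Sq (l / R ^ g) i, z ∉ Bad t g' k' := by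
    intro g i hi t g' k' h1 h2 h3 z hz
    obtain ⟨j, rfl⟩ : ∃ j, g = g' + j := ⟨g - g', by omega⟩
    obtain ⟨n, rfl⟩ : ∃ n, g' = n + 1 := ⟨g' - 1, by omega⟩
    have a1 := Sq_anc l hl R hR0 (n + 1 + j) j (by omega) i hz
    rw [Nat.add_sub_cancel] at a1
    exact (Finset.mem_filter.1 (anc j (n + 1) i hi)).2 t k' h1 h2 z a1
  have chc : ∀ g, (Ch g).card = (J g).card * (R * R) := by
    intro g
    rw [hCh, Finset.card_image_of_injOn, Finset.card_product, Finset.card_product, Finset.card_range]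
    intro x hx y hy e
    obtain ⟨a3, a4⟩ := Finset.mem_product.1 (Finset.mem_product.1 hx).2
    obtain ⟨b3, b4⟩ := Finset.mem_product.1 (Finset.mem_product.1 hy).2
    rw [Finset.mem_range] at a3 a4 b3 b4
    simp only [Prod.mk.injEq] at e
    have aux : ∀ u v u' v', v < R → v' < R → R * u + v = R * u' + v' → u = u' ∧ v = v' := by
      intro u v u' v' h1 h2 h3
      have := congrArg (· / R) h3
      simp only [Nat.mul_add_div hR0, Nat.div_eq_of_lt h1, Nat.div_eq_of_lt h2, add_zero] at this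
      subst this
      exact ⟨rfl, by omega⟩
    have c1 := aux _ _ _ _ a3 b3 e.1
    have c2 := aux _ _ _ _ a4 b4 e.2
    exact Prod.ext (Prod.ext c1.1 c2.1) (Prod.ext c1.2 c2.2)
  have step : ∀ g, (J g).card * (R * R) ≤ (J (g + 1)).card +
      2 * ∑ j ∈ Finset.range (g + 1), (J (g - j)).card * (6 * R ^ (j + 1)) := by
    intro g
    set X : Fin 2 → ℕ → ℕ × ℕ → Finset (ℕ × ℕ) := fun t j τ => (Ch g).filter fun i =>
      (i.1 / R ^ (j + 1), i.2 / R ^ (j + 1)) = τ ∧ ∃ z ∈ Sq (l / R ^ (g + 1)) i, z ∈ Bad t (g + 1) (j + 1) with hX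
    have hsub : Ch g ⊆ J (g + 1) ∪ Finset.univ.biUnion fun t => (Finset.range (g + 1)).biUnion fun j =>
        (J (g - j)).biUnion fun τ => X t j τ := by
      intro i hi
      rw [Finset.mem_union]
      by_cases hc : i ∈ J (g + 1)
      · exact Or.inl hc
      · right
        rw [hJs, Finset.mem_filter] at hc
        push Not at hc
        obtain ⟨t, k, h1, h2, z, h3, h4⟩ := hc hi
        obtain ⟨j, rfl⟩ : ∃ j, k = j + 1 := ⟨k - 1, by omega⟩
        simp only [Finset.mem_biUnion]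
        refine ⟨t, Finset.mem_univ _, j, Finset.mem_range.2 (by omega), _, ?_,
          Finset.mem_filter.2 ⟨hi, rfl, z, h3, h4⟩⟩
        have := anc j (g - j) _ (by rw [Nat.sub_add_cancel (by omega)]; exact par g i hi)
        simpa only [Nat.div_div_eq_div_mul, ← pow_succ'] using this
    have hXc : ∀ t, ∀ j ∈ Finset.range (g + 1), ∀ τ ∈ J (g - j), (X t j τ).card ≤ 6 * R ^ (j + 1) := by
      intro t j hj τ hτ
      rw [Finset.mem_range] at hj
      have e : g + 1 - (j + 1) = g - j := by omega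
      obtain ⟨A, B, C, h1, h2⟩ := h t (g + 1) (j + 1) (by omega) (by omega) (Sq (l / R ^ (g - j)) τ) (by
          rintro z ⟨⟨a1, a2⟩, a3, a4⟩ z' ⟨⟨b1, b2⟩, b3, b4⟩
          rw [e, abs_le, abs_le]
          refine ⟨⟨?_, ?_⟩, ?_, ?_⟩ <;> linarith)
        (fun g' k' a b c => avoid _ τ hτ t g' k' a b (by omega))
      refine strip (l / R ^ (g + 1)) (by positivity) A B C h1 _ τ (pow_pos hR0 _) _ fun i hi => ?_
      obtain ⟨_, a1, z, a2, a3⟩ := Finset.mem_filter.1 hi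
      refine ⟨a1, z, a2, h2 z ?_ a3⟩
      have := Sq_anc l hl R hR0 (g + 1) (j + 1) (by omega) i a2
      rwa [e, a1] at this
    rw [← chc]
    refine (Finset.card_le_card hsub).trans ((Finset.card_union_le _ _).trans (Nat.add_le_add_left ?_ _))
    refine Finset.card_biUnion_le.trans ((Finset.sum_le_card_nsmul _ _
      (∑ j ∈ Finset.range (g + 1), (J (g - j)).card * (6 * R ^ (j + 1))) fun t _ => ?_).trans (by simp))
    refine Finset.card_biUnion_le.trans (Finset.sum_le_sum fun j hj => ?_)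
    exact Finset.card_biUnion_le.trans (Finset.sum_le_card_nsmul _ _ _ (hXc t j hj))
  have hRr : (48:ℝ) ≤ R := by exact_mod_cast hR
  have grow : ∀ g, ((J g).card : ℝ) * (R * R / 2) ≤ (J (g + 1)).card := by
    intro g
    induction g using Nat.strong_induction_on with
    | _ g ih =>
      have back : ∀ j, j ≤ g → ((J (g - j)).card : ℝ) * R ^ j ≤ (J g).card * (1 / 2) ^ j := by
        intro j
        induction j with
        | zero => intro _; simp
        | succ j ihj =>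
          intro hj
          have a1 := ihj (by omega)
          have a2 := ih (g - (j + 1)) (by omega)
          rw [show g - (j + 1) + 1 = g - j by omega] at a2
          have a3 : ((J (g - (j + 1))).card : ℝ) * R ≤ (J (g - j)).card * (1 / 2) := by
            have : (0:ℝ) ≤ (J (g - (j + 1))).card * R := by positivity
            nlinarith
          have a4 := mul_le_mul_of_nonneg_right a3 (show (0:ℝ) ≤ R ^ j by positivity)
          rw [pow_succ, pow_succ]
          linarith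
      have s1 : ((J g).card : ℝ) * (R * R) ≤ (J (g + 1)).card +
          2 * ∑ j ∈ Finset.range (g + 1), ((J (g - j)).card : ℝ) * (6 * R ^ (j + 1)) := by exact_mod_cast step g
      have s2 : ∑ j ∈ Finset.range (g + 1), ((J (g - j)).card : ℝ) * (6 * R ^ (j + 1)) ≤
          6 * R * (J g).card * 2 := by
        calc _ ≤ ∑ j ∈ Finset.range (g + 1), 6 * R * (J g).card * (1 / 2 : ℝ) ^ j := by
              refine Finset.sum_le_sum fun j hj => ?_
              have := mul_le_mul_of_nonneg_left (back j (by have := Finset.mem_range.1 hj; omega))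
                (show (0:ℝ) ≤ 6 * R by positivity)
              rw [pow_succ]
              linarith
          _ ≤ _ := by
              rw [← Finset.mul_sum]
              exact mul_le_mul_of_nonneg_left (sum_geometric_two_le _) (by positivity)
      have : (0:ℝ) ≤ (J g).card * R := by positivity
      nlinarith
  have ne : ∀ g, (J g).Nonempty := by
    intro g
    induction g with
    | zero => exact ⟨(0, 0), Finset.mem_singleton_self _⟩
    | succ g ih =>
      have a1 : (0:ℝ) < (J g).card := by exact_mod_cast ih.card_pos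
      have a2 : (0:ℝ) < (J (g + 1)).card := lt_of_lt_of_le (by positivity) (grow g)
      exact Finset.card_pos.1 (by exact_mod_cast a2)
  have cp : ∀ g, IsCompact (⋃ i ∈ J g, Sq (l / R ^ g) i) := fun g =>
    (J g).isCompact_biUnion fun i _ => isCompact_Icc.prod isCompact_Icc
  obtain ⟨z, hz⟩ := IsCompact.nonempty_iInter_of_sequence_nonempty_isCompact_isClosed
    (fun g => ⋃ i ∈ J g, Sq (l / R ^ g) i) (by
      intro g z hz
      simp only [mem_iUnion] at hz ⊢
      obtain ⟨i, hi, hz⟩ := hz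
      have := Sq_anc l hl R hR0 (g + 1) 1 (by omega) i hz
      rw [Nat.add_sub_cancel, pow_one] at this
      exact ⟨_, par g i (Finset.mem_filter.1 hi).1, this⟩) (by
      intro g
      obtain ⟨i, hi⟩ := ne g
      have : 0 < l / R ^ g := by positivity
      exact ⟨(i.1 * (l / R ^ g), i.2 * (l / R ^ g)), mem_biUnion hi ⟨⟨le_rfl, by nlinarith⟩, le_rfl, by nlinarith⟩⟩)
    (cp 0) (fun g => (cp g).isClosed)
  refine ⟨z, fun t g k h1 h2 => ?_⟩
  have := mem_iInter.1 hz g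
  simp only [mem_iUnion] at this
  obtain ⟨i, hi, hz⟩ := this
  exact avoid g i hi t g k h1 h2 le_rfl z hz

end Pool.Agent.H53.Ms
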