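import Mathlib
import Pool.Agent.H53.MsA

open Set Finset MeasureTheory
open scoped ENNReal NNReal

namespace Pool.Agent.H53.Bs
open Pool.Agent.H53.Ms

/-- one-strip property of a typed family of dangerous sets -/
def HT (R : ℕ) (Bad : ℕ → ℕ → ℕ → Set (ℝ × ℝ)) : Prop :=
  ∀ t g k, 1 ≤ k → k ≤ g → ∀ S : Set (ℝ × ℝ),
    (∀ z ∈ S, ∀ z' ∈ S, |z.1 - z'.1| ≤ 1 / R ^ (g - k) ∧ |z.2 - z'.2| ≤ 1 / R ^ (g - k)) →
    (∀ t' g' k', 1 ≤ k' → k' ≤ g' → t' ≤ k' → g' ≤ g - k → ∀ z ∈ S, z ∉ Bad t' g' k') →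
    ∃ A B C : ℝ, (A ≠ 0 ∨ B ≠ 0) ∧ ∀ z ∈ S, z ∈ Bad t g k → |A * z.1 + B * z.2 + C| ≤ 1 / R ^ g * max |A| |B|

lemma HT_swap {R : ℕ} {Bad : ℕ → ℕ → ℕ → Set (ℝ × ℝ)} (h : HT R Bad) :
    HT R fun t g k => Prod.swap ⁻¹' Bad t g k := by
  intro t g k h1 h2 S h3 h4
  obtain ⟨A, B, C, h5, h6⟩ := h t g k h1 h2 (Prod.swap ⁻¹' S) (fun z hz z' hz' => (h3 _ hz _ hz').symm)
    (fun t' g' k' a b c d z hz hb => h4 t' g' k' a b c d _ hz hb)
  refine ⟨B, A, C, h5.symm, fun z hz hb => ?_⟩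
  have := h6 z.swap hz hb
  simp only [Prod.fst_swap, Prod.snd_swap] at this
  rwa [add_comm (B * z.1), max_comm]

open Classical in
/-- surviving squares -/
noncomputable def JT (R : ℕ) (Bad : Fin 2 → ℕ → ℕ → ℕ → Set (ℝ × ℝ)) (Rem : ℕ → ℕ × ℕ → Prop) : ℕ → Finset (ℕ × ℕ)
  | 0 => {(0, 0)}
  | g + 1 => ((JT R Bad Rem g ×ˢ (Finset.range R ×ˢ Finset.range R)).image
      fun x => (R * x.1.1 + x.2.1, R * x.1.2 + x.2.2)).filter
      fun i => ¬ Rem (g + 1) i ∧
        ∀ b t k, 1 ≤ k → k ≤ g + 1 → t ≤ k → ∀ z ∈ Sq (1 / R ^ (g + 1)) i, z ∉ Bad b t (g + 1) k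

theorem cantor (R : ℕ) (hR : 200 ≤ R) (Bad : Fin 2 → ℕ → ℕ → ℕ → Set (ℝ × ℝ))
    (h : ∀ b, HT R (Bad b)) (Rem : ℕ → ℕ × ℕ → Prop)
    (hRem : ∀ g (X : Finset (ℕ × ℕ)), (∀ i ∈ X, Rem (g + 1) i) → (X.card : ℝ) ≤ R * R / 4 * (R * R / 2) ^ g) :
    ∃ z : ℝ × ℝ, (∀ b t g k, 1 ≤ k → k ≤ g → t ≤ k → z ∉ Bad b t g k) ∧
      ∀ g, ∃ i, ¬ Rem (g + 1) i ∧ z ∈ Sq (1 / R ^ (g + 1)) i := by
  classical
  have hR0 : 0 < R := by omega
  set J := JT R Bad Rem with hJ
  set Ch : ℕ → Finset (ℕ × ℕ) := fun g => (J g ×ˢ (Finset.range R ×ˢ Finset.range R)).image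
      fun x => (R * x.1.1 + x.2.1, R * x.1.2 + x.2.2) with hCh
  have hJs : ∀ g, J (g + 1) = (Ch g).filter fun i => ¬ Rem (g + 1) i ∧
      ∀ b t k, 1 ≤ k → k ≤ g + 1 → t ≤ k → ∀ z ∈ Sq (1 / R ^ (g + 1)) i, z ∉ Bad b t (g + 1) k := fun g => rfl
  have par : ∀ g, ∀ i ∈ Ch g, (i.1 / R, i.2 / R) ∈ J g := by
    intro g i hi
    obtain ⟨x, hx, rfl⟩ := Finset.mem_image.1 hi
    obtain ⟨a1, a2⟩ := Finset.mem_product.1 hx
    obtain ⟨a3, a4⟩ := Finset.mem_product.1 a2
    rw [Finset.mem_range] at a3 a4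
    simp only [Nat.mul_add_div hR0, Nat.div_eq_of_lt a3, Nat.div_eq_of_lt a4, add_zero]
    exact a1
  have anc : ∀ k g, ∀ i ∈ J (g + k), (i.1 / R ^ k, i.2 / R ^ k) ∈ J g := by
    intro k
    induction k with
    | zero => intro g i hi; simpa using hi
    | succ k ih =>
      intro g i hi
      have := ih g _ (par (g + k) i (Finset.mem_filter.1 hi).1)
      simpa only [Nat.div_div_eq_div_mul, ← pow_succ'] using this
  have avoid : ∀ g, ∀ i ∈ J g, ∀ b t g' k', 1 ≤ k' → k' ≤ g' → t ≤ k' → g' ≤ g →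
      ∀ z ∈ Sq (1 / R ^ g) i, z ∉ Bad b t g' k' := by
    intro g i hi b t g' k' h1 h2 h4 h3 z hz
    obtain ⟨j, rfl⟩ : ∃ j, g = g' + j := ⟨g - g', by omega⟩
    obtain ⟨n, rfl⟩ : ∃ n, g' = n + 1 := ⟨g' - 1, by omega⟩
    have a1 := Sq_anc 1 one_pos R hR0 (n + 1 + j) j (by omega) i hz
    rw [Nat.add_sub_cancel] at a1
    exact (Finset.mem_filter.1 (anc j (n + 1) i hi)).2.2 b t k' h1 h2 h4 z a1
  have chc : ∀ g, (Ch g).card = (J g).card * (R * R) := by
    intro g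
    rw [hCh, Finset.card_image_of_injOn, Finset.card_product, Finset.card_product, Finset.card_range]
    intro x hx y hy e
    obtain ⟨a3, a4⟩ := Finset.mem_product.1 (Finset.mem_product.1 hx).2
    obtain ⟨b3, b4⟩ := Finset.mem_product.1 (Finset.mem_product.1 hy).2
    rw [Finset.mem_range] at a3 a4 b3 b4
    simp only [Prod.mk.injEq] at e
    have aux : ∀ u v u' v', v < R → v' < R → R * u + v = R * u' + v' → u = u' ∧ v = v' := by
      intro u v u' v' h1 h2 h3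
      have := congrArg (· / R) h3
      simp only [Nat.mul_add_div hR0, Nat.div_eq_of_lt h1, Nat.div_eq_of_lt h2, add_zero] at this
      subst this
      exact ⟨rfl, by omega⟩
    have c1 := aux _ _ _ _ a3 b3 e.1
    have c2 := aux _ _ _ _ a4 b4 e.2
    exact Prod.ext (Prod.ext c1.1 c2.1) (Prod.ext c1.2 c2.2)
  have step : ∀ g, (J g).card * (R * R) ≤ (J (g + 1)).card + ((Ch g).filter (Rem (g + 1))).card +
      2 * ∑ j ∈ Finset.range (g + 1), (j + 2) * ((J (g - j)).card * (6 * R ^ (j + 1))) := by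
    intro g
    set X : Fin 2 → ℕ → ℕ → ℕ × ℕ → Finset (ℕ × ℕ) := fun b t j τ => (Ch g).filter fun i =>
      (i.1 / R ^ (j + 1), i.2 / R ^ (j + 1)) = τ ∧ ∃ z ∈ Sq (1 / R ^ (g + 1)) i, z ∈ Bad b t (g + 1) (j + 1) with hX
    have hsub : Ch g ⊆ (J (g + 1) ∪ (Ch g).filter (Rem (g + 1))) ∪
        Finset.univ.biUnion fun b => (Finset.range (g + 1)).biUnion fun j => (Finset.range (j + 2)).biUnion fun t =>
        (J (g - j)).biUnion fun τ => X b t j τ := by
      intro i hi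
      rw [Finset.mem_union, Finset.mem_union]
      by_cases hc : i ∈ J (g + 1)
      · exact Or.inl (Or.inl hc)
      by_cases hr : Rem (g + 1) i
      · exact Or.inl (Or.inr (Finset.mem_filter.2 ⟨hi, hr⟩))
      · right
        rw [hJs, Finset.mem_filter] at hc
        push Not at hc
        obtain ⟨b, t, k, h1, h2, h5, z, h3, h4⟩ := hc hi hr
        obtain ⟨j, rfl⟩ : ∃ j, k = j + 1 := ⟨k - 1, by omega⟩
        simp only [Finset.mem_biUnion]
        refine ⟨b, Finset.mem_univ _, j, Finset.mem_range.2 (by omega), t, Finset.mem_range.2 (by omega), _, ?_,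
          Finset.mem_filter.2 ⟨hi, rfl, z, h3, h4⟩⟩
        have := anc j (g - j) _ (by rw [Nat.sub_add_cancel (by omega)]; exact par g i hi)
        simpa only [Nat.div_div_eq_div_mul, ← pow_succ'] using this
    have hXc : ∀ b t, ∀ j ∈ Finset.range (g + 1), ∀ τ ∈ J (g - j), (X b t j τ).card ≤ 6 * R ^ (j + 1) := by
      intro b t j hj τ hτ
      rw [Finset.mem_range] at hj
      have e : g + 1 - (j + 1) = g - j := by omega
      obtain ⟨A, B, C, h1, h2⟩ := h b t (g + 1) (j + 1) (by omega) (by omega) (Sq (1 / R ^ (g - j)) τ) (by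
          rintro z ⟨⟨a1, a2⟩, a3, a4⟩ z' ⟨⟨b1, b2⟩, b3, b4⟩
          rw [e, abs_le, abs_le]
          refine ⟨⟨?_, ?_⟩, ?_, ?_⟩ <;> linarith)
        (fun t' g' k' a b' c d => avoid _ τ hτ b t' g' k' a b' c (by omega))
      refine strip (1 / R ^ (g + 1)) (by positivity) A B C h1 _ τ (pow_pos hR0 _) _ fun i hi => ?_
      obtain ⟨_, a1, z, a2, a3⟩ := Finset.mem_filter.1 hi
      refine ⟨a1, z, a2, h2 z ?_ a3⟩
      have := Sq_anc 1 one_pos R hR0 (g + 1) (j + 1) (by omega) i a2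
      rwa [e, a1] at this
    rw [← chc]
    refine (Finset.card_le_card hsub).trans ((Finset.card_union_le _ _).trans
      (Nat.add_le_add (Finset.card_union_le _ _) ?_))
    refine Finset.card_biUnion_le.trans ((Finset.sum_le_card_nsmul _ _
      (∑ j ∈ Finset.range (g + 1), (j + 2) * ((J (g - j)).card * (6 * R ^ (j + 1)))) fun b _ => ?_).trans (by simp))
    refine Finset.card_biUnion_le.trans (Finset.sum_le_sum fun j hj => ?_)
    refine Finset.card_biUnion_le.trans ((Finset.sum_le_card_nsmul _ _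
      ((J (g - j)).card * (6 * R ^ (j + 1))) fun t _ => ?_).trans (by simp))
    exact Finset.card_biUnion_le.trans (Finset.sum_le_card_nsmul _ _ _ (hXc b t j hj))
  have hRr : (200:ℝ) ≤ R := by exact_mod_cast hR
  have grow : ∀ g, ((J g).card : ℝ) * (R * R / 2) ≤ (J (g + 1)).card := by
    intro g
    induction g using Nat.strong_induction_on with
    | _ g ih =>
      have low : ∀ n, n ≤ g → ((R:ℝ) * R / 2) ^ n ≤ (J n).card := by
        intro n
        induction n with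
        | zero => intro _; simp [hJ, JT]
        | succ n ihn =>
          intro hn
          rw [pow_succ]
          exact (mul_le_mul_of_nonneg_right (ihn (by omega)) (by positivity)).trans (ih n (by omega))
      have back : ∀ j, j ≤ g → ((J (g - j)).card : ℝ) * R ^ j ≤ (J g).card * (1 / 4) ^ j := by
        intro j
        induction j with
        | zero => intro _; simp
        | succ j ihj =>
          intro hj
          have a1 := ihj (by omega)
          have a2 := ih (g - (j + 1)) (by omega)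
          rw [show g - (j + 1) + 1 = g - j by omega] at a2
          have a3 : ((J (g - (j + 1))).card : ℝ) * R ≤ (J (g - j)).card * (1 / 4) := by
            have : (0:ℝ) ≤ (J (g - (j + 1))).card * R := by positivity
            nlinarith
          have a4 := mul_le_mul_of_nonneg_right a3 (show (0:ℝ) ≤ R ^ j by positivity)
          rw [pow_succ, pow_succ]
          linarith
      have s1 : ((J g).card : ℝ) * (R * R) ≤ (J (g + 1)).card + ((Ch g).filter (Rem (g + 1))).card +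
          2 * ∑ j ∈ Finset.range (g + 1), ((j:ℝ) + 2) * (((J (g - j)).card : ℝ) * (6 * R ^ (j + 1))) := by
        exact_mod_cast step g
      have s2 : ∑ j ∈ Finset.range (g + 1), ((j:ℝ) + 2) * (((J (g - j)).card : ℝ) * (6 * R ^ (j + 1))) ≤
          12 * R * (J g).card * 2 := by
        calc _ ≤ ∑ j ∈ Finset.range (g + 1), 12 * R * (J g).card * (1 / 2 : ℝ) ^ j := by
              refine Finset.sum_le_sum fun j hj => ?_
              have a1 := mul_le_mul_of_nonneg_left (back j (by have := Finset.mem_range.1 hj; omega))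
                (show (0:ℝ) ≤ 6 * R * (j + 2) by positivity)
              have a2 : ((j:ℝ) + 2) * (1 / 4) ^ j ≤ 2 * (1 / 2) ^ j := by
                have : (j:ℝ) + 1 ≤ 2 ^ j := by exact_mod_cast Nat.lt_two_pow_self
                have e : (1 / 2 : ℝ) ^ j = 2 ^ j * (1 / 4) ^ j := by rw [← mul_pow]; norm_num
                rw [e, ← mul_assoc]
                exact mul_le_mul_of_nonneg_right (by linarith [Nat.cast_nonneg (α := ℝ) j]) (by positivity)
              have a3 := mul_le_mul_of_nonneg_left a2 (show (0:ℝ) ≤ 6 * R * (J g).card by positivity)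
              rw [pow_succ]
              linarith
          _ ≤ _ := by
              rw [← Finset.mul_sum]
              exact mul_le_mul_of_nonneg_left (sum_geometric_two_le _) (by positivity)
      have s3 := (hRem g ((Ch g).filter (Rem (g + 1))) fun i hi => (Finset.mem_filter.1 hi).2).trans
        (mul_le_mul_of_nonneg_left (low g le_rfl) (by positivity))
      have : (0:ℝ) ≤ (J g).card * R := by positivity
      nlinarith
  have ne : ∀ g, (J g).Nonempty := by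
    intro g
    induction g with
    | zero => exact ⟨(0, 0), Finset.mem_singleton_self _⟩
    | succ g ih =>
      have a1 : (0:ℝ) < (J g).card := by exact_mod_cast ih.card_pos
      have a2 : (0:ℝ) < (J (g + 1)).card := lt_of_lt_of_le (by positivity) (grow g)
      exact Finset.card_pos.1 (by exact_mod_cast a2)
  have cp : ∀ g, IsCompact (⋃ i ∈ J g, Sq (1 / R ^ g) i) := fun g =>
    (J g).isCompact_biUnion fun i _ => isCompact_Icc.prod isCompact_Icc
  obtain ⟨z, hz⟩ := IsCompact.nonempty_iInter_of_sequence_nonempty_isCompact_isClosed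
    (fun g => ⋃ i ∈ J g, Sq (1 / R ^ g) i) (by
      intro g z hz
      simp only [mem_iUnion] at hz ⊢
      obtain ⟨i, hi, hz⟩ := hz
      have := Sq_anc 1 one_pos R hR0 (g + 1) 1 (by omega) i hz
      rw [Nat.add_sub_cancel, pow_one] at this
      exact ⟨_, par g i (Finset.mem_filter.1 hi).1, this⟩) (by
      intro g
      obtain ⟨i, hi⟩ := ne g
      have : (0:ℝ) < 1 / R ^ g := by positivity
      exact ⟨(i.1 * (1 / R ^ g), i.2 * (1 / R ^ g)), mem_biUnion hi ⟨⟨le_rfl, by nlinarith⟩, le_rfl, by nlinarith⟩⟩)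
    (cp 0) (fun g => (cp g).isClosed)
  have hz' : ∀ g, ∃ i ∈ J g, z ∈ Sq (1 / R ^ g) i := fun g => by
    have := mem_iInter.1 hz g
    simpa only [mem_iUnion, exists_prop] using this
  refine ⟨z, fun b t g k h1 h2 h3 => ?_, fun g => ?_⟩
  · obtain ⟨i, hi, hz⟩ := hz' g
    exact avoid g i hi b t g k h1 h2 h3 le_rfl z hz
  · obtain ⟨i, hi, hz⟩ := hz' (g + 1)
    exact ⟨i, (Finset.mem_filter.1 hi).2.1, hz⟩

lemma near (L : ℝ) (hL : 0 < L) (T : Set (ℝ × ℝ)) (hT : ∀ z ∈ T, ∀ z' ∈ T, dist z z' ≤ L) (X : Finset (ℕ × ℕ))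
    (hX : ∀ i ∈ X, ∃ z ∈ T, z ∈ Sq L i) : X.card ≤ 25 := by
  rcases X.eq_empty_or_nonempty with h | ⟨j, hj⟩
  · simp [h]
  obtain ⟨w, hw, ⟨b1, b2⟩, b3, b4⟩ := hX j hj
  have aux : ∀ (a b : ℕ) (x y : ℝ), a * L ≤ x → y ≤ (b + 1) * L → |x - y| ≤ L → a ≤ b + 2 := by
    intro a b x y h1 h2 h3
    have : (a:ℝ) * L ≤ (b + 2) * L := by linarith [(abs_le.1 h3).2]
    exact_mod_cast le_of_mul_le_mul_right this hL
  have : X ⊆ Finset.Icc (j.1 - 2) (j.1 + 2) ×ˢ Finset.Icc (j.2 - 2) (j.2 + 2) := by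
    intro i hi
    obtain ⟨z, hz, ⟨a1, a2⟩, a3, a4⟩ := hX i hi
    have c1 := hT z hz w hw
    have c2 := hT w hw z hz
    rw [Prod.dist_eq, max_le_iff, Real.dist_eq, Real.dist_eq] at c1 c2
    have := aux _ _ _ _ a1 b2 c1.1
    have := aux _ _ _ _ a3 b4 c1.2
    have := aux _ _ _ _ b1 a2 c2.1
    have := aux _ _ _ _ b3 a4 c2.2
    simp only [Finset.mem_product, Finset.mem_Icc]
    omega
  refine (Finset.card_le_card this).trans ?_
  rw [Finset.card_product, Nat.card_Icc, Nat.card_Icc]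
  exact Nat.mul_le_mul (show _ ≤ 5 by omega) (show _ ≤ 5 by omega)

theorem dim_ge (R : ℕ) (hR : 200 ≤ R) (Bad : Fin 2 → ℕ → ℕ → ℕ → Set (ℝ × ℝ)) (h : ∀ b, HT R (Bad b))
    (d : ℝ≥0) (hd0 : 0 < d) (hd : (R:ℝ) ^ (d:ℝ) ≤ R * R / 2) (E : Set (ℝ × ℝ))
    (hE : ∀ z, (∀ b t g k, 1 ≤ k → k ≤ g → t ≤ k → z ∉ Bad b t g k) → z ∈ E) : (d : ℝ≥0∞) ≤ dimH E := by
  classical
  refine le_dimH_of_hausdorffMeasure_ne_zero fun h0 => ?_
  have hRr : (200:ℝ) ≤ R := by exact_mod_cast hR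
  have R0 : (0:ℝ) < R := by linarith
  have d0 : (0:ℝ) < d := hd0
  set δ : ℝ := 1 / (50 * (R * R)) with hδ
  have δ0 : 0 < δ := by positivity
  rw [Measure.hausdorffMeasure_apply] at h0
  have h1 := (le_iSup₂_of_le (f := fun (r : ℝ≥0∞) (_ : 0 < r) => ⨅ (t : ℕ → Set (ℝ × ℝ)) (_ : E ⊆ ⋃ n, t n)
    (_ : ∀ n, Metric.ediam (t n) ≤ r), ∑' n, ⨆ _ : (t n).Nonempty, Metric.ediam (t n) ^ (d:ℝ)) 1 one_pos le_rfl).trans_lt
    (h0.trans_lt (ENNReal.ofReal_pos.2 δ0))
  simp only [iInf_lt_iff] at h1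
  obtain ⟨t, hc, ht1, hs⟩ := h1
  set a : ℕ → ℝ≥0∞ := fun n => ⨆ _ : (t n).Nonempty, Metric.ediam (t n) ^ (d:ℝ) with ha
  have aT : ∀ n, a n ≠ ⊤ := fun n => ((ENNReal.le_tsum n).trans_lt (hs.trans ENNReal.ofReal_lt_top)).ne
  have sa : ∀ N : Finset ℕ, ∑ n ∈ N, (a n).toReal ≤ δ := fun N => by
    rw [← ENNReal.toReal_sum fun n _ => aT n]
    exact ENNReal.toReal_le_of_le_ofReal δ0.le ((ENNReal.sum_le_tsum N).trans hs.le)
  set w : ℕ → ℝ := fun n => (a n).toReal + δ / 2 / 2 ^ n with hw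
  have w0 : ∀ n, 0 < w n := fun n => by positivity
  have sw : ∀ N : Finset ℕ, ∑ n ∈ N, w n ≤ 2 * δ := fun N => by
    rw [Finset.sum_add_distrib]
    linarith [sa N, sum_le_hasSum N (fun n _ => show 0 ≤ δ / 2 / 2 ^ n by positivity) (hasSum_geometric_two' δ)]
  set Q : ℝ := R ^ (d:ℝ) with hQ
  have Q1 : 1 < Q := Real.one_lt_rpow (by linarith) d0
  have w1 : ∀ n, Q ≤ (w n)⁻¹ := fun n => by
    have := sw {n}
    rw [Finset.sum_singleton] at this
    rw [le_inv_comm₀ (by linarith) (w0 n)]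
    refine this.trans ?_
    rw [← one_div, le_div_iff₀ (by linarith), hδ, ← mul_div_assoc, div_mul_eq_mul_div, div_le_one (by positivity)]
    nlinarith
  have gen : ∀ n, ∃ g, Q ^ (g + 1) ≤ (w n)⁻¹ ∧ (w n)⁻¹ < Q ^ (g + 2) := fun n => by
    obtain ⟨g, g1, g2⟩ := exists_nat_pow_near (Q1.le.trans (w1 n)) Q1
    cases g with
    | zero => rw [zero_add, pow_one] at g2; linarith [w1 n]
    | succ g => exact ⟨g, g1, g2⟩
  choose G hG1 hG2 using gen
  have dia : ∀ n, ∀ z ∈ t n, ∀ z' ∈ t n, dist z z' ≤ 1 / R ^ (G n + 1) := by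
    intro n z hz z' hz'
    have a1 : edist z z' ^ (d:ℝ) ≤ a n :=
      le_iSup_of_le ⟨z, hz⟩ (ENNReal.rpow_le_rpow (Metric.edist_le_ediam_of_mem hz hz') d0.le)
    have a2 := ENNReal.toReal_mono (aT n) a1
    rw [← ENNReal.toReal_rpow, ← dist_edist] at a2
    have a3 : (a n).toReal ≤ w n := le_add_of_nonneg_right (by positivity)
    have a4 := hG1 n
    rw [le_inv_comm₀ (by positivity) (w0 n), hQ, ← Real.rpow_natCast, ← Real.rpow_mul R0.le, mul_comm,
      Real.rpow_mul R0.le, Real.rpow_natCast, ← Real.inv_rpow (by positivity), ← one_div] at a4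
    exact (Real.rpow_le_rpow_iff dist_nonneg (by positivity) d0).1 (a2.trans (a3.trans a4))
  obtain ⟨z, hz1, hz2⟩ := cantor R hR Bad h (fun g i => ∃ n, G n + 1 = g ∧ ∃ z ∈ t n, z ∈ Sq (1 / R ^ g) i) (by
    intro g X hX
    choose! f hf1 hf2 using hX
    have c1 : X.card ≤ 25 * (X.image f).card := Finset.card_le_mul_card_image _ _ fun n hn => by
      obtain ⟨i0, hi0, rfl⟩ := Finset.mem_image.1 hn
      refine near (1 / R ^ (g + 1)) (by positivity) (t (f i0)) (by rw [← hf1 i0 hi0]; exact dia _) _ fun i hi => ?_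
      obtain ⟨b1, b2⟩ := Finset.mem_filter.1 hi
      rw [← b2]; exact hf2 i b1
    have c2 : ((X.image f).card : ℝ) * (Q ^ (g + 2))⁻¹ ≤ 2 * δ := by
      refine le_trans ?_ (sw (X.image f))
      rw [← nsmul_eq_mul]
      refine Finset.card_nsmul_le_sum _ _ _ fun n hn => ?_
      obtain ⟨i, hi, rfl⟩ := Finset.mem_image.1 hn
      have := hG2 (f i)
      rw [show G (f i) = g by have := hf1 i hi; omega] at this
      exact (inv_lt_comm₀ (w0 _) (by positivity)).1 this |>.le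
    rw [← div_eq_mul_inv, div_le_iff₀ (by positivity)] at c2
    have c3 : Q ^ (g + 2) ≤ (R * R / 2) ^ (g + 2) := pow_le_pow_left₀ (by positivity) hd _
    have c4 : (X.card : ℝ) ≤ 25 * (X.image f).card := by exact_mod_cast c1
    calc (X.card : ℝ) ≤ 25 * (2 * δ * (R * R / 2) ^ (g + 2)) := by
          linarith [mul_le_mul_of_nonneg_left c3 (show 0 ≤ 2 * δ by positivity)]
      _ = _ := by rw [hδ]; field_simp; ring)
  obtain ⟨n, hn⟩ := mem_iUnion.1 (hc (hE z hz1))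
  obtain ⟨i, b1, b2⟩ := hz2 (G n)
  exact b1 ⟨n, rfl, z, hn, b2⟩

end Pool.Agent.H53.Bs
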