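import Mathlib
import Pool.Agent.H53.MsA

open Set Finset

namespace Pool.Agent.H53.Ms

lemma pigeon (p r : ℤ) (n : ℕ) (hn : 0 < n) (X Y : ℝ) (hX : 0 ≤ X) (hY : 0 ≤ Y) (h : (n:ℝ) ≤ X * Y) :
    ∃ A B C : ℤ, (A ≠ 0 ∨ B ≠ 0) ∧ |(A:ℝ)| ≤ X ∧ |(B:ℝ)| ≤ Y ∧ A * p + B * r + C * n = 0 := by
  have hn' : (0:ℤ) < n := by exact_mod_cast hn
  obtain ⟨x, hx, y, hy, hne, he⟩ := Finset.exists_ne_map_eq_of_card_lt_of_maps_to
    (s := Finset.range (⌊X⌋₊ + 1) ×ˢ Finset.range (⌊Y⌋₊ + 1)) (t := Finset.Ico (0:ℤ) n)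
    (f := fun x => (x.1 * p + x.2 * r) % n) (by
      rw [Finset.card_product, Finset.card_range, Finset.card_range, Int.card_Ico, sub_zero, Int.toNat_natCast]
      have a1 := Nat.lt_floor_add_one X
      have a2 := Nat.lt_floor_add_one Y
      have : (n:ℝ) < (⌊X⌋₊ + 1) * (⌊Y⌋₊ + 1) := h.trans_lt (mul_lt_mul'' a1 a2 hX hY)
      exact_mod_cast this)
    (fun x _ => Finset.mem_coe.2 (Finset.mem_Ico.2 ⟨Int.emod_nonneg _ hn'.ne', Int.emod_lt_of_pos _ hn'⟩))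
  obtain ⟨C, hC⟩ := Int.ModEq.dvd (show _ ≡ _ [ZMOD n] from he)
  have aux : ∀ (u v : ℕ) (Z : ℝ), 0 ≤ Z → u < ⌊Z⌋₊ + 1 → v < ⌊Z⌋₊ + 1 → |(((u:ℤ) - v : ℤ) : ℝ)| ≤ Z := by
    intro u v Z h0 h1 h2
    have a1 : (u:ℝ) ≤ Z := (Nat.le_floor_iff h0).1 (by omega)
    have a2 : (v:ℝ) ≤ Z := (Nat.le_floor_iff h0).1 (by omega)
    push_cast
    rw [abs_le]
    constructor <;> linarith [Nat.cast_nonneg (α := ℝ) u, Nat.cast_nonneg (α := ℝ) v]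
  simp only [Finset.mem_product, Finset.mem_range] at hx hy
  refine ⟨x.1 - y.1, x.2 - y.2, C, ?_, aux _ _ _ hX hx.1 hy.1, aux _ _ _ hY hx.2 hy.2, by linear_combination -hC⟩
  by_contra hc
  push Not at hc
  exact hne (Prod.ext (by omega) (by omega))

lemma small (ε τ x1 y1 x2 y2 α1 β1 α2 β2 : ℝ) (A B C p1 r1 p2 r2 : ℤ) (q1 q2 e : ℕ) (he : e ∣ q2) (he0 : 0 < e)
    (hq : 0 < q1) (hqq : q1 ≤ q2) (a1 : |(A:ℝ)| * α1 ≤ ε) (a2 : |(A:ℝ)| * α2 ≤ ε) (b1 : |(B:ℝ)| * β1 ≤ ε)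
    (b2 : |(B:ℝ)| * β2 ≤ ε) (c1 : |q1 * x1 - p1| ≤ α1) (c2 : |q2 * x2 - p2| ≤ α2) (d1 : |q1 * y1 - r1| ≤ β1)
    (d2 : |q2 * y2 - r2| ≤ β2) (e1 : |x2 - x1| ≤ τ) (e2 : |y2 - y1| ≤ τ)
    (hL : (A:ℝ) * p1 + B * r1 + C / e * q1 = 0) (hs : q2 * (4 * ε + 2 * (q1 * max |(A:ℝ)| |(B:ℝ)| * τ)) < q1) :
    (A:ℝ) * p2 + B * r2 + C / e * q2 = 0 := by
  obtain ⟨w, rfl⟩ := he
  have e0 : (0:ℝ) < e := by exact_mod_cast he0
  have q0 : (0:ℝ) < q1 := by exact_mod_cast hq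
  have q12 : (q1:ℝ) ≤ (e * w : ℕ) := by exact_mod_cast hqq
  have eN : (A:ℝ) * p2 + B * r2 + C / e * (e * w : ℕ) = ((A * p2 + B * r2 + C * w : ℤ) : ℝ) := by
    push_cast; field_simp
  set q2 : ℝ := ((e * w : ℕ) : ℝ)
  have aux : ∀ (U x x' p p' α α' : ℝ), |U| * α ≤ ε → |U| * α' ≤ ε → |q1 * x - p| ≤ α → |q2 * x' - p'| ≤ α' →
      |x' - x| ≤ τ → |U| ≤ max |(A:ℝ)| |(B:ℝ)| →
      |U * (q1 * p' - q2 * p)| ≤ q2 * (2 * ε + q1 * max |(A:ℝ)| |(B:ℝ)| * τ) := by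
    intro U x x' p p' α α' h1 h2 h3 h4 h5 h6
    have e : U * (q1 * p' - q2 * p) = q2 * (U * (q1 * x - p)) - q1 * (U * (q2 * x' - p')) + q1 * q2 * (U * (x' - x)) := by
      ring
    have f1 : |U * (q1 * x - p)| ≤ ε := by
      rw [abs_mul]; exact (mul_le_mul_of_nonneg_left h3 (abs_nonneg _)).trans h1
    have f2 : |U * (q2 * x' - p')| ≤ ε := by
      rw [abs_mul]; exact (mul_le_mul_of_nonneg_left h4 (abs_nonneg _)).trans h2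
    have f3 : |U * (x' - x)| ≤ max |(A:ℝ)| |(B:ℝ)| * τ := by
      rw [abs_mul]; exact mul_le_mul h6 h5 (abs_nonneg _) ((abs_nonneg _).trans h6)
    rw [abs_le] at f1 f2 f3
    have q2p : 0 < q2 := by linarith
    have g1 := mul_pos q0 q2p
    rw [e, abs_le]
    constructor <;> nlinarith [mul_le_mul_of_nonneg_left f1.1 q2p.le, mul_le_mul_of_nonneg_left f1.2 q2p.le,
      mul_le_mul_of_nonneg_left f2.1 q0.le, mul_le_mul_of_nonneg_left f2.2 q0.le,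
      mul_le_mul_of_nonneg_left f3.1 g1.le, mul_le_mul_of_nonneg_left f3.2 g1.le]
  have g1 := aux A x1 x2 p1 p2 α1 α2 a1 a2 c1 c2 e1 (le_max_left _ _)
  have g2 := aux B y1 y2 r1 r2 β1 β2 b1 b2 d1 d2 e2 (le_max_right _ _)
  have g3 : q1 * ((A:ℝ) * p2 + B * r2 + C / e * q2) = A * (q1 * p2 - q2 * p1) + B * (q1 * r2 - q2 * r1) := by
    linear_combination q2 * hL
  have g4 : q1 * |(A:ℝ) * p2 + B * r2 + C / e * q2| < q1 * 1 := by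
    rw [← abs_of_pos q0, ← abs_mul, g3, abs_of_pos q0]
    linarith [abs_add_le (A * (q1 * p2 - q2 * p1) : ℝ) (B * (q1 * r2 - q2 * r1))]
  have g5 := lt_of_mul_lt_mul_left g4 q0.le
  rw [eN] at g5 ⊢
  have : |A * p2 + B * r2 + C * w| < 1 := by exact_mod_cast g5
  exact_mod_cast Int.abs_lt_one_iff.1 this

lemma onL (ε x y α β A B C p r q : ℝ) (a1 : |A| * α ≤ ε) (b1 : |B| * β ≤ ε) (c1 : |q * x - p| ≤ α)
    (d1 : |q * y - r| ≤ β) (hq : 0 < q) (hL : A * p + B * r + C * q = 0) : |A * x + B * y + C| * q ≤ 2 * ε := by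
  rw [← abs_of_pos hq, ← abs_mul]
  have e : (A * x + B * y + C) * q = A * (q * x - p) + B * (q * y - r) := by linear_combination hL
  rw [e]
  refine (abs_add_le _ _).trans ?_
  rw [abs_mul, abs_mul]
  linarith [mul_le_mul_of_nonneg_left c1 (abs_nonneg A), mul_le_mul_of_nonneg_left d1 (abs_nonneg B)]

lemma cross (x y F a b : ℝ) (A1 B1 C1 A2 B2 C2 : ℤ) (D : ℕ) (hD : 0 < D)
    (f1 : |A1 * x + B1 * y + C1 / D| ≤ F) (f2 : |A2 * x + B2 * y + C2 / D| ≤ F)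
    (a1 : |(A1:ℝ)| ≤ a) (a2 : |(A2:ℝ)| ≤ a) (b1 : |(B1:ℝ)| ≤ b) (b2 : |(B2:ℝ)| ≤ b) :
    |(D * (A1 * B2 - A2 * B1) : ℤ) * x - (B1 * C2 - B2 * C1 : ℤ)| ≤ 2 * D * b * F ∧
    |(D * (A1 * B2 - A2 * B1) : ℤ) * y - (A2 * C1 - A1 * C2 : ℤ)| ≤ 2 * D * a * F ∧
    |((A1 * B2 - A2 * B1 : ℤ) : ℝ)| ≤ 2 * a * b := by
  have D0 : (0:ℝ) < D := by exact_mod_cast hD
  have aux : ∀ U V u v w W : ℝ, |U| ≤ w → |V| ≤ w → |u| ≤ W → |v| ≤ W → |U * u - V * v| ≤ 2 * w * W := by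
    intro U V u v w W h1 h2 h3 h4
    refine (abs_sub _ _).trans ?_
    rw [abs_mul, abs_mul]
    have := (abs_nonneg _).trans h1
    linarith [mul_le_mul h1 h3 (abs_nonneg _) this, mul_le_mul h2 h4 (abs_nonneg _) this]
  refine ⟨?_, ?_, ?_⟩
  · have := mul_le_mul_of_nonneg_left (aux _ _ _ _ _ _ b2 b1 f1 f2) D0.le
    rw [← abs_of_pos D0, ← abs_mul, abs_of_pos D0] at this
    refine le_of_eq_of_le (congrArg _ ?_) (this.trans_eq (by ring))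
    push_cast; field_simp; ring
  · have := mul_le_mul_of_nonneg_left (aux _ _ _ _ _ _ a1 a2 f2 f1) D0.le
    rw [← abs_of_pos D0, ← abs_mul, abs_of_pos D0] at this
    refine le_of_eq_of_le (congrArg _ ?_) (this.trans_eq (by ring))
    push_cast; field_simp; ring
  · push_cast
    exact aux _ _ _ _ _ _ a1 a2 b2 b1

lemma sgn (m p r : ℤ) (x y α β : ℝ) (h1 : |m * x - p| ≤ α) (h2 : |m * y - r| ≤ β) :
    ∃ p' r' : ℤ, |(m.natAbs : ℝ) * x - p'| ≤ α ∧ |(m.natAbs : ℝ) * y - r'| ≤ β := by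
  rw [Nat.cast_natAbs]
  rcases le_total 0 m with h | h
  · rw [abs_of_nonneg h]; exact ⟨p, r, h1, h2⟩
  · rw [abs_of_nonpos h]
    refine ⟨-p, -r, ?_, ?_⟩
    · rw [← abs_neg]; refine le_of_eq_of_le (congrArg _ ?_) h1; push_cast; ring
    · rw [← abs_neg]; refine le_of_eq_of_le (congrArg _ ?_) h2; push_cast; ring

end Pool.Agent.H53.Ms
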