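import Mathlib
import Pool.Agent.H53.MsB

open Set Finset

namespace Pool.Agent.H53.Ms

/-- the divisor function attached to a weight -/
structure EE (a M : ℝ) (E : ℝ → ℕ) : Prop where
  le : ∀ u, 1 ≤ u → (E u : ℝ) ≤ u ^ a
  ge : ∀ u, 1 ≤ u → u ^ a ≤ M * E u
  dvd : ∀ u u', 1 ≤ u → u ≤ u' → E u ∣ E u'

/-- dangerous rational point -/
def Dg (s t c : ℝ) (E : ℝ → ℕ) (P : ℤ × ℤ × ℕ) (z : ℝ × ℝ) : Prop :=
  1 ≤ P.2.2 ∧ E (P.2.2 / c) ∣ P.2.2 ∧ |P.2.2 * z.1 - P.1| ≤ (P.2.2 / c) ^ (-s) ∧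
    |P.2.2 * z.2 - P.2.1| ≤ (P.2.2 / c) ^ (-t)

lemma lines (a s t M ε : ℝ) (hsum : a + s + t = 1) (hM : 1 ≤ M) (E : ℝ → ℕ) (hE : EE a M E) (hε : 0 < ε)
    (hε1 : ε ≤ 1) (P : ℤ × ℤ × ℕ) : ∃ A B C : ℤ, 1 ≤ P.2.2 → E (P.2.2 / (ε ^ 2 / M)) ∣ P.2.2 →
      (A ≠ 0 ∨ B ≠ 0) ∧ |(A:ℝ)| ≤ ε * (P.2.2 / (ε ^ 2 / M)) ^ s ∧ |(B:ℝ)| ≤ ε * (P.2.2 / (ε ^ 2 / M)) ^ t ∧
      (A:ℝ) * P.1 + B * P.2.1 + C / E (P.2.2 / (ε ^ 2 / M)) * P.2.2 = 0 := by
  by_cases h : 1 ≤ P.2.2 ∧ E (P.2.2 / (ε ^ 2 / M)) ∣ P.2.2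
  · obtain ⟨h1, w, hw⟩ := h
    set u := P.2.2 / (ε ^ 2 / M) with hu
    have q1 : (1:ℝ) ≤ P.2.2 := by exact_mod_cast h1
    have c1 : ε ^ 2 / M ≤ 1 := by rw [div_le_one (by linarith)]; nlinarith
    have u1 : 1 ≤ u := q1.trans (le_div_self (by linarith) (by positivity) c1)
    have u0 : 0 < u := by linarith
    have w0 : 0 < w := Nat.pos_of_mul_pos_left (by omega : 0 < E u * w)
    have e0 : (0:ℝ) < E u := by exact_mod_cast Nat.pos_of_mul_pos_right (by omega : 0 < E u * w)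
    have hq : (P.2.2 : ℝ) = E u * w := by exact_mod_cast hw
    obtain ⟨A, B, C, a1, a2, a3, a4⟩ := pigeon P.1 P.2.1 w w0 (ε * u ^ s) (ε * u ^ t) (by positivity) (by positivity) (by
      have e1 : u ^ a * (u ^ s * u ^ t) = u := by
        rw [← Real.rpow_add u0, ← Real.rpow_add u0, ← add_assoc, hsum, Real.rpow_one]
      have e2 : ε ^ 2 * u = M * (E u * w) := by rw [← hq, hu]; field_simp
      have e3 := mul_le_mul_of_nonneg_right (hE.ge u u1) (show 0 ≤ ε ^ 2 * (u ^ s * u ^ t) by positivity)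
      refine le_of_mul_le_mul_left ?_ (show 0 < M * E u by positivity)
      calc M * E u * w = ε ^ 2 * (u ^ a * (u ^ s * u ^ t)) := by rw [e1, e2]; ring
        _ ≤ _ := by linarith)
    refine ⟨A, B, C, fun _ _ => ⟨a1, a2, a3, ?_⟩⟩
    have : (A:ℝ) * P.1 + B * P.2.1 + C * w = 0 := by exact_mod_cast a4
    rw [hq, ← this]
    field_simp
  · exact ⟨0, 0, 0, fun h1 h2 => absurd ⟨h1, h2⟩ h⟩

lemma one_le_max {A B : ℤ} (h : A ≠ 0 ∨ B ≠ 0) : (1:ℝ) ≤ max |(A:ℝ)| |(B:ℝ)| := by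
  rcases h with h | h
  · exact le_max_of_le_left (by exact_mod_cast Int.one_le_abs h)
  · exact le_max_of_le_right (by exact_mod_cast Int.one_le_abs h)

lemma mul_neg_pow {A ε u u' s : ℝ} (h : |A| ≤ ε * u ^ s) (hε : 0 ≤ ε) (hu : 0 < u) (hu' : u ≤ u') (hs : 0 ≤ s) :
    |A| * u' ^ (-s) ≤ ε := by
  have h0 : 0 < u' := by linarith
  rw [Real.rpow_neg h0.le, ← div_eq_mul_inv, div_le_iff₀ (by positivity)]
  exact h.trans (mul_le_mul_of_nonneg_left (Real.rpow_le_rpow hu.le hu' hs) hε)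

theorem typ0 (a s t M ε : ℝ) (ha : 0 ≤ a) (ht : 0 ≤ t) (hts : t ≤ s) (hsum : a + s + t = 1) (hM : 1 ≤ M)
    (E : ℝ → ℕ) (hE : EE a M E) (R lam : ℕ) (hR : 12 * M ≤ R) (hl : 4 ≤ lam * s) (hε : 0 < ε)
    (hε' : ε * R ^ (2 * lam + 3) ≤ 1) :
    ∃ Bad : ℕ → ℕ → Set (ℝ × ℝ), HH R (2 * M * R ^ 2 / ε) Bad ∧
      ∀ P z, Dg s t (ε ^ 2 / M) E P z → ∃ g k, 1 ≤ k ∧ k ≤ g ∧ z ∈ Bad g k := by
  classical
  have hs0 : 0 ≤ s := ht.trans hts
  have hs1 : s ≤ 1 := by linarith
  have R12 : (12:ℝ) ≤ R := by linarith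
  have R1 : (1:ℝ) < R := by linarith
  have R0 : (0:ℝ) < R := by linarith
  have l4 : 4 ≤ lam := by
    have : (4:ℝ) ≤ lam := hl.trans (mul_le_of_le_one_right (Nat.cast_nonneg _) hs1)
    exact_mod_cast this
  have εR : ε * R ≤ 1 := le_trans (mul_le_mul_of_nonneg_left (le_self_pow₀ R1.le (by omega)) hε.le) hε'
  have ε1 : ε < 1 := by nlinarith
  choose A B C hL using lines a s t M ε hsum hM E hE hε ε1.le
  set c := ε ^ 2 / M with hc
  have c0 : 0 < c := by positivity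
  have c1 : c ≤ 1 := by rw [hc, div_le_one (by linarith)]; nlinarith
  have cM : c * M = ε ^ 2 := by rw [hc]; field_simp
  set h : ℕ → ℝ := fun g => c / R ^ 2 * R ^ g with hh
  have h0 : ∀ g, 0 < h g := fun g => by positivity
  set W : ℕ → ℝ := fun g => (h g / (ε * c)) ^ (1 + s)⁻¹ with hW
  have W0 : ∀ g, 0 < W g := fun g => Real.rpow_pos_of_pos (by have := h0 g; positivity) _
  have Wp : ∀ g, ε * c * (W g * W g ^ s) = h g := fun g => by
    rw [← Real.rpow_one_add' (W0 g).le (by linarith), hW]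
    beta_reduce
    rw [Real.rpow_inv_rpow (by have := h0 g; positivity) (by linarith)]
    field_simp
  set H : ℤ × ℤ × ℕ → ℝ := fun P => P.2.2 * max |(A P : ℝ)| |(B P : ℝ)| with hH
  set Cl : ℕ → ℕ → ℤ × ℤ × ℕ → Prop := fun g k P => h g ≤ H P ∧ H P < h (g + 1) ∧
    W g * (R ^ lam) ^ (k - 1) ≤ P.2.2 / c ∧ P.2.2 / c < W g * (R ^ lam) ^ (k - 1 + 1) with hCl
  have U1 : ∀ q : ℕ, 1 ≤ q → 1 ≤ q / c := fun q hq => by
    have : (1:ℝ) ≤ q := by exact_mod_cast hq
    exact this.trans (le_div_self (by linarith) c0 c1)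
  have Hle : ∀ P z, Dg s t c E P z → H P ≤ ε * c * (P.2.2 / c * (P.2.2 / c) ^ s) := by
    intro P z hP
    obtain ⟨_, a2, a3, _⟩ := hL P hP.1 hP.2.1
    have a4 := a3.trans (mul_le_mul_of_nonneg_left (Real.rpow_le_rpow_of_exponent_le (U1 _ hP.1) hts) hε.le)
    refine (mul_le_mul_of_nonneg_left (max_le a2 a4) (Nat.cast_nonneg _)).trans_eq ?_
    field_simp
  have mono : ∀ u v : ℝ, 0 < u → u ≤ v → u * u ^ s ≤ v * v ^ s := fun u v h1 h2 =>
    mul_le_mul h2 (Real.rpow_le_rpow h1.le h2 hs0) (by positivity) (by linarith)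
  have cover : ∀ P z, Dg s t c E P z → ∃ g k, 1 ≤ k ∧ k ≤ g ∧ Cl g k P := by
    intro P z hP
    have q1 : (1:ℝ) ≤ P.2.2 := by exact_mod_cast hP.1
    have a1 := one_le_max (hL P hP.1 hP.2.1).1
    have a2 : (P.2.2:ℝ) ≤ H P := le_mul_of_one_le_right (by linarith) a1
    have a3 : c / R ^ 2 ≤ 1 := (div_le_self c0.le (one_le_pow₀ R1.le)).trans c1
    have a4 : 0 < c / R ^ 2 := by positivity
    obtain ⟨g, g1, g2⟩ := exists_nat_pow_near (x := H P / (c / R ^ 2)) (by rw [one_le_div a4]; linarith) R1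
    rw [le_div_iff₀ a4, mul_comm] at g1
    rw [div_lt_iff₀ a4, mul_comm] at g2
    have b1 : W g ≤ P.2.2 / c := by
      by_contra hc
      have u0 : 0 < P.2.2 / c := by positivity
      have := mul_lt_mul (not_le.1 hc) (Real.rpow_le_rpow u0.le (not_le.1 hc).le hs0) (by positivity) (W0 g).le
      have := mul_lt_mul_of_pos_left this (show 0 < ε * c by positivity)
      linarith [Wp g, Hle P z hP]
    obtain ⟨k, k1, k2⟩ := exists_nat_pow_near (x := P.2.2 / c / W g) (by rw [one_le_div (W0 g)]; exact b1)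
      (one_lt_pow₀ R1 (show lam ≠ 0 by omega))
    rw [le_div_iff₀ (W0 g), mul_comm] at k1
    rw [div_lt_iff₀ (W0 g), mul_comm] at k2
    refine ⟨g, k + 1, by omega, ?_, g1, g2, k1, k2⟩
    have b2 : 1 ≤ W g := by
      refine Real.one_le_rpow ?_ (by positivity)
      rw [one_le_div (by positivity)]
      have : 1 < h g * R := by simp only [hh]; rw [pow_succ _ g] at g2; linarith
      nlinarith [h0 g, mul_le_mul_of_nonneg_left c1 hε.le]
    have b3 : (R:ℝ) ^ k ≤ (R ^ lam) ^ k := pow_le_pow_left₀ R0.le (le_self_pow₀ R1.le (by omega)) _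
    have b4 : (R:ℝ) ^ k ≤ P.2.2 / c := b3.trans ((le_mul_of_one_le_left (by positivity) b2).trans k1)
    rw [le_div_iff₀ c0] at b4
    have b5 : (R:ℝ) ^ (k + 2) < R ^ (g + 1) := by
      refine lt_of_mul_lt_mul_left ?_ a4.le
      calc c / R ^ 2 * R ^ (k + 2) = R ^ k * c := by field_simp; ring
        _ < _ := by linarith
    have := (pow_lt_pow_iff_right₀ R1).1 b5
    omega
  refine ⟨fun g k => {z | ∃ P, Dg s t c E P z ∧ Cl g k P}, ?_, fun P z hP => ?_⟩
  swap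
  · obtain ⟨g, k, h1, h2, h3⟩ := cover P z hP
    exact ⟨g, k, h1, h2, P, hP, h3⟩
  intro g k hk1 hkg S hS hav
  by_cases hex : ∃ q, ∃ P z, P.2.2 = q ∧ z ∈ S ∧ Dg s t c E P z ∧ Cl g k P
  swap
  · exact ⟨1, 0, 0, Or.inl one_ne_zero, fun z hz ⟨P, h1, h2⟩ => absurd ⟨_, P, z, rfl, hz, h1, h2⟩ hex⟩
  obtain ⟨P1, z1, e1, hz1, hD1, hC1⟩ := Nat.find_spec hex
  obtain ⟨n1, a1, b1, l1⟩ := hL P1 hD1.1 hD1.2.1
  refine ⟨A P1, B P1, C P1 / E (P1.2.2 / c), by exact_mod_cast n1, ?_⟩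
  rintro z2 hz2 ⟨P2, hD2, hC2⟩
  obtain ⟨n2, a2, b2, l2⟩ := hL P2 hD2.1 hD2.2.1
  have hq : P1.2.2 ≤ P2.2.2 := by rw [e1]; exact Nat.find_min' hex ⟨P2, z2, rfl, hz2, hD2, hC2⟩
  obtain ⟨j, rfl⟩ : ∃ j, k = j + 1 := ⟨k - 1, by omega⟩
  obtain ⟨n, rfl⟩ : ∃ n, g = n + (j + 1) := ⟨g - (j + 1), by omega⟩
  simp only [hCl, Nat.add_sub_cancel] at hC1 hC2 hS hav
  set g := n + (j + 1) with hg
  set q1 : ℝ := ((P1.2.2 : ℕ) : ℝ) with hq1
  set q2 : ℝ := ((P2.2.2 : ℕ) : ℝ) with hq2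
  have q10 : 0 < q1 := by rw [hq1]; exact_mod_cast hD1.1
  have q12 : q1 ≤ q2 := by rw [hq1, hq2]; exact_mod_cast hq
  have q20 : 0 < q2 := by linarith
  set u1 := q1 / c with hu1
  set u2 := q2 / c with hu2
  have u11 : 1 ≤ u1 := U1 _ hD1.1
  have u10 : 0 < u1 := by linarith
  have u12 : u1 ≤ u2 := div_le_div_of_nonneg_right q12 c0.le
  have u20 : 0 < u2 := by linarith
  set τ := 2 * M * R ^ 2 / ε / R ^ n with hτ
  have τ0 : 0 ≤ τ := by positivity
  have hτh : h (g + 1) * τ = 2 * ε * R ^ (j + 2) := by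
    simp only [hh, hτ, hg, hc]; field_simp; ring
  have ρ : q2 ≤ R ^ lam * q1 := by
    have : u2 ≤ R ^ lam * u1 := by
      have := mul_le_mul_of_nonneg_left hC1.2.2.1 (show (0:ℝ) ≤ R ^ lam by positivity)
      have := hC2.2.2.2
      rw [pow_succ] at this
      linarith
    rwa [hu1, hu2, ← mul_div_assoc, div_le_div_iff_of_pos_right c0] at this
  have dE : E u1 ∣ E u2 := hE.dvd _ _ u11 u12
  have E20 : 0 < E u2 := Nat.pos_of_dvd_of_pos hD2.2.1 hD2.1
  have E10 : 0 < E u1 := Nat.pos_of_dvd_of_pos dE E20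
  have key : (A P1 : ℝ) * P2.1 + B P1 * P2.2.1 + C P1 / E u1 * q2 = 0 := by
    rcases lt_or_ge (j + 1) lam with hj | hj
    · refine small ε τ z1.1 z1.2 z2.1 z2.2 _ _ _ _ _ _ _ _ _ _ _ _ _ _ (dE.trans hD2.2.1) E10 hD1.1 hq
        (mul_neg_pow a1 hε.le u10 le_rfl hs0) (mul_neg_pow a1 hε.le u10 u12 hs0)
        (mul_neg_pow b1 hε.le u10 le_rfl ht) (mul_neg_pow b1 hε.le u10 u12 ht)
        hD1.2.2.1 hD2.2.2.1 hD1.2.2.2 hD2.2.2.2 (hS _ hz2 _ hz1).1 (hS _ hz2 _ hz1).2 l1 ?_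
      have x1 : H P1 * τ ≤ 2 * ε * R ^ (j + 2) := by
        rw [← hτh]; exact mul_le_mul_of_nonneg_right hC1.2.1.le τ0
      have x2 : (R:ℝ) ^ (j + 2) ≤ R ^ lam := pow_le_pow_right₀ R1.le (by omega)
      have x3 : (1:ℝ) ≤ R ^ lam := one_le_pow₀ R1.le
      have x4 : 4 * ε + 2 * (H P1 * τ) ≤ 8 * ε * R ^ lam := by
        linarith [mul_le_mul_of_nonneg_left x2 hε.le, mul_le_mul_of_nonneg_left x3 hε.le]
      have x5 : R ^ lam * (8 * ε * R ^ lam) < 1 := by
        refine lt_of_lt_of_le ?_ hε'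
        have : (8:ℝ) < R ^ 3 := lt_of_lt_of_le (by norm_num) (pow_le_pow_left₀ (by norm_num) R12 3)
        have y : 0 < ε * (R ^ lam * R ^ lam) := by positivity
        calc R ^ lam * (8 * ε * R ^ lam) = ε * (R ^ lam * R ^ lam) * 8 := by ring
          _ < ε * (R ^ lam * R ^ lam) * R ^ 3 := mul_lt_mul_of_pos_left this y
          _ = _ := by ring
      calc q2 * (4 * ε + 2 * (H P1 * τ)) ≤ (R ^ lam * q1) * (8 * ε * R ^ lam) :=
            mul_le_mul ρ x4 (by have := (h0 g).le.trans hC1.1; positivity) (by positivity)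
        _ = q1 * (R ^ lam * (8 * ε * R ^ lam)) := by ring
        _ < q1 := mul_lt_of_lt_one_right q10 x5
    · obtain ⟨w, hw⟩ := dE
      have E1R : (0:ℝ) < E u1 := by exact_mod_cast E10
      have E2R : (0:ℝ) < E u2 := by exact_mod_cast E20
      have eC : ((C P1 * w : ℤ) : ℝ) / E u2 = C P1 / E u1 := by
        have w0 : (w:ℝ) ≠ 0 := by exact_mod_cast (Nat.pos_of_mul_pos_left (hw ▸ E20)).ne'
        rw [hw]; push_cast; field_simp
      set Gj : ℝ := (R ^ lam) ^ j with hGj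
      have Gj0 : 0 < Gj := by positivity
      have Gs : (R:ℝ) ^ (4 * j) ≤ Gj ^ s := by
        rw [hGj, ← pow_mul, ← Real.rpow_natCast, ← Real.rpow_natCast, ← Real.rpow_mul R0.le]
        refine Real.rpow_le_rpow_of_exponent_le R1.le ?_
        push_cast
        linarith [mul_le_mul_of_nonneg_right hl (Nat.cast_nonneg (α := ℝ) j)]
      set η : ℝ := R / (Gj * R ^ (4 * j)) with hη
      have η0 : 0 < η := by positivity
      have Ws : W g ^ s * R ^ (4 * j) ≤ u2 ^ s := by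
        refine (mul_le_mul_of_nonneg_left Gs (by have := W0 g; positivity)).trans ?_
        rw [← Real.mul_rpow (W0 g).le Gj0.le]
        exact Real.rpow_le_rpow (by have := W0 g; positivity) hC2.2.2.1 hs0
      have mx : ∀ m q : ℝ, 0 ≤ m → q * m < h (g + 1) → W g * Gj ≤ q / c → m ≤ ε * η * u2 ^ s := by
        intro m q y0 y1 y2
        rw [le_div_iff₀ c0] at y2
        have y3 : h (g + 1) = R * (ε * c * (W g * W g ^ s)) := by rw [Wp]; simp only [hh]; ring
        have y4 : W g * c * (Gj * m) ≤ W g * c * (R * ε * W g ^ s) := by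
          linarith [mul_le_mul_of_nonneg_right y2 y0]
        have y5 := le_of_mul_le_mul_left y4 (mul_pos (W0 g) c0)
        rw [hη, mul_div_assoc', div_mul_eq_mul_div, le_div_iff₀ (by positivity)]
        have y6 := mul_le_mul_of_nonneg_right y5 (show (0:ℝ) ≤ R ^ (4 * j) by positivity)
        have y7 := mul_le_mul_of_nonneg_left Ws (show (0:ℝ) ≤ R * ε by positivity)
        linarith
      have m1 := mx _ q1 (by positivity) hC1.2.1 hC1.2.2.1
      have m2 := mx _ q2 (by positivity) hC2.2.1 hC2.2.2.1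
      set F := 6 * ε * R ^ (j + 2) / q1 with hF
      have Rj : (1:ℝ) ≤ R ^ (j + 2) := one_le_pow₀ R1.le
      have f1 : |A P1 * z1.1 + B P1 * z1.2 + (C P1 * w : ℤ) / E u2| ≤ F := by
        rw [eC, hF, le_div_iff₀ q10]
        refine (onL ε _ _ _ _ _ _ _ _ _ _ (mul_neg_pow a1 hε.le u10 le_rfl hs0) (mul_neg_pow b1 hε.le u10 le_rfl ht)
          hD1.2.2.1 hD1.2.2.2 q10 l1).trans ?_
        linarith [mul_le_mul_of_nonneg_left Rj hε.le]
      have f2 : |A P2 * z1.1 + B P2 * z1.2 + C P2 / E u2| ≤ F := by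
        have y1 := onL ε _ _ _ _ _ _ _ _ _ _ (mul_neg_pow a2 hε.le u20 le_rfl hs0) (mul_neg_pow b2 hε.le u20 le_rfl ht)
          hD2.2.2.1 hD2.2.2.2 q20 l2
        have y2 : H P2 * τ ≤ 2 * ε * R ^ (j + 2) := by
          rw [← hτh]; exact mul_le_mul_of_nonneg_right hC2.2.1.le τ0
        have y3 : |(A P2 : ℝ) * (z1.1 - z2.1)| ≤ max |(A P2 : ℝ)| |(B P2 : ℝ)| * τ := by
          rw [abs_mul]; exact mul_le_mul (le_max_left _ _) (hS _ hz1 _ hz2).1 (abs_nonneg _) (by positivity)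
        have y4 : |(B P2 : ℝ) * (z1.2 - z2.2)| ≤ max |(A P2 : ℝ)| |(B P2 : ℝ)| * τ := by
          rw [abs_mul]; exact mul_le_mul (le_max_right _ _) (hS _ hz1 _ hz2).2 (abs_nonneg _) (by positivity)
        have y5 : |A P2 * z1.1 + B P2 * z1.2 + C P2 / E u2| ≤ |A P2 * z2.1 + B P2 * z2.2 + C P2 / E u2| +
            2 * (max |(A P2 : ℝ)| |(B P2 : ℝ)| * τ) := by
          have e : (A P2 : ℝ) * z1.1 + B P2 * z1.2 + C P2 / E u2 = (A P2 * z2.1 + B P2 * z2.2 + C P2 / E u2) +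
            (A P2 * (z1.1 - z2.1) + B P2 * (z1.2 - z2.2)) := by ring
          rw [e]
          linarith [abs_add_le ((A P2 : ℝ) * z2.1 + B P2 * z2.2 + C P2 / E u2)
            (A P2 * (z1.1 - z2.1) + B P2 * (z1.2 - z2.2)), abs_add_le ((A P2 : ℝ) * (z1.1 - z2.1)) (B P2 * (z1.2 - z2.2))]
        have y6 := mul_le_mul_of_nonneg_right y5 q20.le
        simp only [hH] at y2
        rw [hF, le_div_iff₀ q10]
        refine (mul_le_mul_of_nonneg_left q12 (abs_nonneg _)).trans (y6.trans ?_)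
        linarith [mul_le_mul_of_nonneg_left Rj hε.le]
      have bb1 := b1.trans (mul_le_mul_of_nonneg_left (Real.rpow_le_rpow u10.le u12 ht) hε.le)
      obtain ⟨x1, x2, x3⟩ := cross z1.1 z1.2 F _ _ _ _ _ _ _ _ _ E20 f1 f2 ((le_max_left _ _).trans m1)
        ((le_max_left _ _).trans m2) bb1 b2
      have Eu : (E u2 : ℝ) * (u2 ^ s * u2 ^ t) ≤ u2 := by
        refine (mul_le_mul_of_nonneg_right (hE.le u2 (by linarith)) (by positivity)).trans_eq ?_
        rw [← Real.rpow_add u20, ← Real.rpow_add u20, ← add_assoc, hsum, Real.rpow_one]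
      set Z : ℝ := R ^ (lam + j + 3) with hZ
      have Z0 : 0 < Z := by positivity
      have uF : 2 * ε * u2 * F ≤ Z := by
        have : 2 * ε * u2 * F = 12 * M * R ^ (j + 2) * (q2 / q1) := by
          rw [hF, hu2, hc]; field_simp; ring
        rw [this]
        calc _ ≤ R * R ^ (j + 2) * (R:ℝ) ^ lam :=
              mul_le_mul (mul_le_mul_of_nonneg_right hR (by positivity)) ((div_le_iff₀ q10).2 ρ) (by positivity)
                (by positivity)
          _ = Z := by rw [hZ]; ring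
      have F0 : 0 ≤ F := by positivity
      have us : 0 < u2 ^ s := by positivity
      have ut : 0 < u2 ^ t := by positivity
      have x1' : 2 * E u2 * (ε * u2 ^ t) * F ≤ Z / u2 ^ s := by
        rw [le_div_iff₀ us]
        linarith [mul_le_mul_of_nonneg_left Eu (show 0 ≤ 2 * ε * F by positivity)]
      have x2' : 2 * E u2 * (ε * η * u2 ^ s) * F ≤ η * Z / u2 ^ t := by
        rw [le_div_iff₀ ut]
        linarith [mul_le_mul_of_nonneg_left Eu (show 0 ≤ 2 * ε * η * F by positivity),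
          mul_le_mul_of_nonneg_left uF η0.le]
      have lj : 4 * j ≤ lam * j := Nat.mul_le_mul_right _ l4
      have ηZ : η * Z < 1 := by
        rw [hη, div_mul_eq_mul_div, div_lt_one (by positivity), hGj, hZ, ← pow_mul, ← pow_add, ← pow_succ']
        exact pow_lt_pow_right₀ R1 (by omega)
      have hm : A P1 * B P2 - A P2 * B P1 = 0 := by
        by_contra hm
        obtain ⟨p0, r0, y1, y2⟩ := sgn _ _ _ _ _ _ _ (x1.trans x1') (x2.trans x2')
        set q0 := ((E u2 : ℤ) * (A P1 * B P2 - A P2 * B P1)).natAbs with hq0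
        have q01 : 1 ≤ q0 := Int.natAbs_pos.2 (mul_ne_zero (by exact_mod_cast E20.ne') hm)
        have u01 := U1 q0 q01
        have u0le : q0 / c ≤ R * η * u2 := by
          rw [div_le_iff₀ c0, hq0, Nat.cast_natAbs]
          push_cast at x3 ⊢
          rw [abs_mul, Nat.abs_cast]
          refine (mul_le_mul_of_nonneg_left x3 E2R.le).trans ?_
          have y3 := mul_le_mul_of_nonneg_left Eu (show 0 ≤ 2 * ε ^ 2 * η by positivity)
          have y4 : 2 * M * (c * η * u2) ≤ R * (c * η * u2) := mul_le_mul_of_nonneg_right (by linarith) (by positivity)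
          rw [← cM] at y3
          calc _ = 2 * ε ^ 2 * η * (E u2 * (u2 ^ s * u2 ^ t)) := by ring
            _ ≤ _ := by rw [← cM]; linarith
        set u0 := q0 / c with hu0
        have u00 : 0 < u0 := by linarith
        have R4 : (1:ℝ) ≤ R ^ (4 * j) := one_le_pow₀ R1.le
        have v1 : u0 * Gj ≤ R ^ 2 * u2 := by
          refine (mul_le_mul_of_nonneg_right u0le Gj0.le).trans ?_
          calc R * η * u2 * Gj = R ^ 2 * u2 / R ^ (4 * j) := by rw [hη]; field_simp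
            _ ≤ _ := div_le_self (by positivity) R4
        have v2 : u0 ≤ u2 := by
          have : (R:ℝ) ^ 2 ≤ Gj := by rw [hGj, ← pow_mul]; exact pow_le_pow_right₀ R1.le (by omega)
          refine le_of_mul_le_mul_right (v1.trans ?_) Gj0
          rw [mul_comm]; exact mul_le_mul_of_nonneg_left this u20.le
        have v3 : Z * u0 ^ s ≤ u2 ^ s := by
          have y3 := Real.rpow_le_rpow (by positivity) v1 hs0
          rw [Real.mul_rpow u00.le Gj0.le, Real.mul_rpow (by positivity) u20.le] at y3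
          have y4 : ((R:ℝ) ^ 2) ^ s ≤ R ^ 2 := Real.rpow_le_self_of_one_le (one_le_pow₀ R1.le) hs1
          have y5 : Z * R ^ 2 ≤ R ^ (4 * j) := by
            rw [hZ, ← pow_add]; exact pow_le_pow_right₀ R1.le (by omega)
          have y6 : 0 < u0 ^ s := by positivity
          refine le_of_mul_le_mul_right ?_ (show (0:ℝ) < R ^ 2 by positivity)
          linarith [mul_le_mul_of_nonneg_left (y5.trans Gs) y6.le, mul_le_mul_of_nonneg_right y4 us.le]
        have hD0 : Dg s t c E (p0, r0, q0) z1 := by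
          refine ⟨q01, (hE.dvd _ _ u01 v2).trans ?_, y1.trans ?_, y2.trans ?_⟩
          · rw [hq0, Int.natAbs_mul, Int.natAbs_natCast]; exact Dvd.intro _ rfl
          · rw [Real.rpow_neg u00.le, ← one_div, div_le_div_iff₀ us (by positivity)]; linarith
          · rw [Real.rpow_neg u00.le, ← one_div]
            exact div_le_div₀ (by norm_num) ηZ.le (by positivity) (Real.rpow_le_rpow u00.le v2 ht)
        obtain ⟨g0, k0, z1', z2', z3⟩ := cover _ _ hD0
        refine hav g0 k0 z1' z2' ?_ z1 hz1 ⟨_, hD0, z3⟩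
        have v4 : u0 * R ^ (j + 1) ≤ W g := by
          have y3 := mul_le_mul_of_nonneg_left hC2.2.2.2.le (show 0 ≤ R * η by positivity)
          refine (mul_le_mul_of_nonneg_right (u0le.trans y3) (by positivity)).trans ?_
          have y4 : (R:ℝ) ^ (lam + j + 3) ≤ R ^ (4 * j) := pow_le_pow_right₀ R1.le (by omega)
          calc R * η * (W g * (R ^ lam) ^ (j + 1)) * R ^ (j + 1) = W g * (R ^ (lam + j + 3) / R ^ (4 * j)) := by
                rw [hη, pow_succ, ← hGj]; field_simp; ring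
            _ ≤ W g := mul_le_of_le_one_right (W0 g).le ((div_le_one (by positivity)).2 y4)
        have Rj1 : (1:ℝ) ≤ R ^ (j + 1) := one_le_pow₀ R1.le
        have v5 : h g0 * R ^ (j + 1) ≤ h g := by
          rw [← Wp g]
          have y3 := mul_le_mul_of_nonneg_right (z3.1.trans (Hle _ _ hD0)) (show (0:ℝ) ≤ R ^ (j + 1) by positivity)
          refine y3.trans ?_
          have y4 := mul_le_mul_of_nonneg_left (mul_le_mul v4 (Real.rpow_le_rpow u00.le
            ((le_mul_of_one_le_right u00.le Rj1).trans v4) hs0) (Real.rpow_nonneg u00.le s)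
            (W0 g).le) (mul_pos hε c0).le
          exact le_of_eq_of_le (by simp only [hu0]; ring) y4
        simp only [hh] at v5
        rw [mul_assoc, ← pow_add] at v5
        have := (pow_le_pow_iff_right₀ R1).1 (le_of_mul_le_mul_left v5 (by positivity))
        omega
      rw [hm, mul_zero, Int.cast_zero, zero_mul, zero_sub, abs_neg] at x1 x2
      have y1 : Z / u2 ^ s < 1 := by
        rw [div_lt_one us]
        have := (one_le_max n1).trans m1
        linarith [mul_le_mul_of_nonneg_left this Z0.le, mul_lt_mul_of_pos_right ηZ (mul_pos hε us),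
          mul_lt_mul_of_pos_right ε1 us]
      have y2 : η * Z / u2 ^ t < 1 := (div_le_self (by positivity) (Real.one_le_rpow (by linarith) ht)).trans_lt ηZ
      have y3 : B P1 * C P2 - B P2 * (C P1 * w) = 0 :=
        Int.abs_lt_one_iff.1 (by exact_mod_cast (x1.trans x1').trans_lt y1)
      have y4 : A P2 * (C P1 * w) - A P1 * C P2 = 0 :=
        Int.abs_lt_one_iff.1 (by exact_mod_cast (x2.trans x2').trans_lt y2)
      rw [← eC]
      have hm' : (A P1 : ℝ) * B P2 - A P2 * B P1 = 0 := by exact_mod_cast hm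
      have y3' : (B P1 : ℝ) * C P2 - B P2 * (C P1 * w : ℤ) = 0 := by exact_mod_cast y3
      have y4' : (A P2 : ℝ) * (C P1 * w : ℤ) - A P1 * C P2 = 0 := by exact_mod_cast y4
      rcases n2 with n2 | n2
      · refine (mul_eq_zero.1 ?_).resolve_left (show (A P2 : ℝ) ≠ 0 by exact_mod_cast n2)
        linear_combination (A P1 : ℝ) * l2 - P2.2.1 * hm' + q2 / E u2 * y4'
      · refine (mul_eq_zero.1 ?_).resolve_left (show (B P2 : ℝ) ≠ 0 by exact_mod_cast n2)
        linear_combination (B P1 : ℝ) * l2 + P2.1 * hm' - q2 / E u2 * y3'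
  have fin := onL ε _ _ _ _ _ _ _ _ _ _ (mul_neg_pow a1 hε.le u10 u12 hs0) (mul_neg_pow b1 hε.le u10 u12 ht)
    hD2.2.2.1 hD2.2.2.2 q20 key
  have e2 : 2 * M * R ^ 2 / ε / R ^ g * h g = 2 * ε := by simp only [hh, hc]; field_simp
  refine le_of_mul_le_mul_right ((mul_le_mul_of_nonneg_left q12 (abs_nonneg _)).trans (fin.trans ?_)) q10
  have e3 := mul_le_mul_of_nonneg_left hC1.1 (show 0 ≤ 2 * M * R ^ 2 / ε / R ^ g by positivity)
  rw [e2] at e3
  exact e3.trans_eq (by simp only [hH, hq1]; ring)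

end Pool.Agent.H53.Ms
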