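import Mathlib
import Pool.Agent.H53.MsC
import Pool.Agent.H53.BsA

open Set Finset

namespace Pool.Agent.H53.Bs
open Pool.Agent.H53.Ms

/-- dangerous rational point of level `J` -/
def Wk (R : ℝ) (μ J : ℕ) (P : ℤ × ℤ × ℕ) (z : ℝ × ℝ) : Prop :=
  1 ≤ P.2.2 ∧ |P.2.2 * z.1 - P.1| ≤ 1 / R ^ (2 * J + 13) * R ^ (μ * J) / √P.2.2 ∧
    |P.2.2 * z.2 - P.2.1| ≤ 1 / R ^ (2 * J + 13) / (R ^ (μ * J) * √P.2.2)

lemma lines' (ω : ℝ) (hω : 0 < ω) (P : ℤ × ℤ × ℕ) : ∃ A B C : ℤ, 1 ≤ P.2.2 → (A ≠ 0 ∨ B ≠ 0) ∧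
    |(A:ℝ)| ≤ √P.2.2 / ω ∧ |(B:ℝ)| ≤ ω * √P.2.2 ∧ (A:ℝ) * P.1 + B * P.2.1 + C * P.2.2 = 0 := by
  by_cases h : 1 ≤ P.2.2
  · obtain ⟨A, B, C, a1, a2, a3, a4⟩ := pigeon P.1 P.2.1 P.2.2 h (√P.2.2 / ω) (ω * √P.2.2) (by positivity)
      (by positivity) (le_of_eq (by
        rw [div_mul_eq_mul_div, mul_left_comm, Real.mul_self_sqrt (by positivity)]; field_simp))
    exact ⟨A, B, C, fun _ => ⟨a1, a2, a3, by exact_mod_cast a4⟩⟩
  · exact ⟨0, 0, 0, fun h' => absurd h' h⟩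

lemma la {A ε ω u u' : ℝ} (h : |A| ≤ u / ω) (hε : 0 ≤ ε) (hω : 0 < ω) (hu : 0 < u) (hu' : u ≤ u') :
    |A| * (ε * ω / u') ≤ ε := by
  have h0 : 0 < u' := by linarith
  rw [le_div_iff₀ hω] at h
  rw [← mul_div_assoc, div_le_iff₀ h0]
  linarith [mul_le_mul_of_nonneg_left (h.trans hu') hε]

lemma lb {B ε ω u u' : ℝ} (h : |B| ≤ ω * u) (hε : 0 ≤ ε) (hω : 0 < ω) (hu : 0 < u) (hu' : u ≤ u') :
    |B| * (ε / (ω * u')) ≤ ε := by
  have h0 : 0 < u' := by linarith
  rw [← mul_div_assoc, div_le_iff₀ (by positivity)]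
  linarith [mul_le_mul_of_nonneg_left (h.trans (mul_le_mul_of_nonneg_left hu' hω.le)) hε]

theorem fam (R μ : ℕ) (hR : 200 ≤ R) (hμ : 3 ≤ μ) : ∃ Bad : ℕ → ℕ → ℕ → Set (ℝ × ℝ), HT R Bad ∧
    ∀ J P z, Wk R μ J P z → ∃ t g k, 1 ≤ k ∧ k ≤ g ∧ t ≤ k ∧ z ∈ Bad t g k := by
  classical
  have hRr : (200:ℝ) ≤ R := by exact_mod_cast hR
  have R1 : (1:ℝ) < R := by linarith
  have R0 : (0:ℝ) < R := by linarith
  choose A B C hL using fun J => lines' ((R:ℝ) ^ (μ * J)) (by positivity)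
  set h : ℕ → ℕ → ℝ := fun J g => 2 * (1 / R ^ (2 * J + 13)) * R ^ g with hh
  have h0 : ∀ J g, 0 < h J g := fun J g => by positivity
  have hs : ∀ J g, h J (g + 1) = R * h J g := fun J g => by simp only [hh]; ring
  have hb : ∀ J g, h J g * R ^ 12 ≤ R ^ g := fun J g => by
    have a1 : (R:ℝ) ^ 13 ≤ R ^ (2 * J + 13) := pow_le_pow_right₀ R1.le (by omega)
    have a2 : 2 * (R:ℝ) ^ 12 ≤ R ^ (2 * J + 13) :=
      le_trans (by rw [pow_succ' _ 12]; exact mul_le_mul_of_nonneg_right (by linarith) (by positivity)) a1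
    calc h J g * R ^ 12 = R ^ g * (2 * R ^ 12 / R ^ (2 * J + 13)) := by simp only [hh]; ring
      _ ≤ _ := mul_le_of_le_one_right (by positivity) ((div_le_one (by positivity)).2 a2)
  have gen : ∀ J (x : ℝ), 1 ≤ x → ∃ g, h J g ≤ x ∧ x < h J (g + 1) := fun J x hx => by
    have a1 := hb J 0
    have a2 : (1:ℝ) ≤ R ^ 12 := one_le_pow₀ R1.le
    obtain ⟨g, g1, g2⟩ := exists_nat_pow_near (x := x / h J 0) (by
      rw [one_le_div (h0 J 0)]; rw [pow_zero] at a1
      linarith [mul_le_mul_of_nonneg_left a2 (h0 J 0).le]) R1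
    rw [le_div_iff₀ (h0 J 0)] at g1
    rw [div_lt_iff₀ (h0 J 0)] at g2
    refine ⟨g, le_of_eq_of_le ?_ g1, g2.trans_eq ?_⟩ <;> simp only [hh] <;> ring
  set H : ℕ → ℤ × ℤ × ℕ → ℝ := fun J P => P.2.2 * max |(A J P : ℝ)| |(B J P : ℝ)| with hH
  set Cl : ℕ → ℕ → ℕ → ℤ × ℤ × ℕ → Prop := fun J g j P => ((R:ℝ) ^ (μ * J)) ^ 2 ≤ P.2.2 ∧
    h J g ≤ H J P ∧ H J P < h J (g + 1) ∧ h J g ^ 2 * (R ^ 12) ^ j ≤ P.2.2 ^ 3 * (R ^ (μ * J)) ^ 2 ∧
    P.2.2 ^ 3 * (R ^ (μ * J)) ^ 2 < h J g ^ 2 * (R ^ 12) ^ (j + 1) with hCl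
  set Bad : ℕ → ℕ → ℕ → Set (ℝ × ℝ) := fun t g k => {z | (t = 0 ∧ k = 1 ∧ ∃ (r : ℤ) (q : ℕ), 1 ≤ q ∧
    |q * z.2 - r| ≤ 1 / R ^ 13 / q ∧ h 0 g ≤ q ^ 2 ∧ q ^ 2 < h 0 (g + 1)) ∨
    ∃ J j P, t = J + 1 ∧ k = j + 1 + J ∧ Wk R μ J P z ∧ Cl J g j P} with hBad
  have cover : ∀ J P z, Wk R μ J P z → ∃ t g k, 1 ≤ k ∧ k ≤ g ∧ t ≤ k ∧ z ∈ Bad t g k ∧
      h J g ^ 2 ≤ P.2.2 ^ 3 * (R ^ (μ * J)) ^ 2 := by
    intro J P z hP
    have q1 : (1:ℝ) ≤ P.2.2 := by exact_mod_cast hP.1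
    set q : ℝ := ((P.2.2 : ℕ) : ℝ) with hq
    set ω : ℝ := R ^ (μ * J) with hω
    have ω1 : 1 ≤ ω := one_le_pow₀ R1.le
    have uu : √q * √q = q := Real.mul_self_sqrt (by linarith)
    have u0 : 0 < √q := Real.sqrt_pos.2 (by linarith)
    rcases le_or_gt (ω ^ 2) q with hc | hc
    · obtain ⟨n1, a1, b1, _⟩ := hL J P hP.1
      have a2 : q ≤ H J P := le_mul_of_one_le_right (by linarith) (one_le_max n1)
      obtain ⟨g, g1, g2⟩ := gen J (H J P) (q1.trans a2)
      have a3 : H J P ≤ q * (ω * √q) := mul_le_mul_of_nonneg_left (max_le (a1.trans ((div_le_self u0.le ω1).trans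
        (le_mul_of_one_le_left u0.le ω1))) b1) (by linarith)
      have a4 : h J g ^ 2 ≤ q ^ 3 * ω ^ 2 := by
        refine (pow_le_pow_left₀ (h0 J g).le (g1.trans a3) 2).trans_eq ?_
        rw [mul_pow, mul_pow, pow_two (√q), uu]; ring
      have p0 : 0 < h J g ^ 2 := pow_pos (h0 J g) 2
      obtain ⟨j, j1, j2⟩ := exists_nat_pow_near (x := q ^ 3 * ω ^ 2 / h J g ^ 2) (by rwa [one_le_div p0])
        (one_lt_pow₀ R1 (show 12 ≠ 0 by omega))
      rw [le_div_iff₀ p0, mul_comm] at j1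
      rw [div_lt_iff₀ p0, mul_comm (_ ^ (j + 1))] at j2
      refine ⟨J + 1, g, j + 1 + J, by omega, ?_, by omega, Or.inr ⟨J, j, P, rfl, rfl, hP, hc, g1, g2, j1, j2⟩, a4⟩
      have c1 : q < h J (g + 1) := a2.trans_lt g2
      have c2 : (R:ℝ) ^ (μ * J * 2 + 12) < R ^ (g + 1) := by
        rw [pow_add, pow_mul]
        exact (mul_lt_mul_of_pos_right (hc.trans_lt c1) (by positivity)).trans_le (hb J _)
      have c3 : (R:ℝ) ^ (12 * j + 12 * 2) < R ^ (4 + g * 2) := by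
        have d1 : q ^ 3 * ω ^ 2 < h J g ^ 2 * (R ^ 4 * h J g ^ 2) := by
          calc q ^ 3 * ω ^ 2 ≤ q ^ 4 := by rw [pow_succ q 3]; exact mul_le_mul_of_nonneg_left hc (by positivity)
            _ < h J (g + 1) ^ 4 := pow_lt_pow_left₀ c1 (by linarith) (by omega)
            _ = _ := by rw [hs]; ring
        have d2 := lt_of_mul_lt_mul_left (j1.trans_lt d1) p0.le
        have d3 := pow_le_pow_left₀ (by have := h0 J g; positivity) (hb J g) 2
        rw [pow_add, pow_add, pow_mul, pow_mul, pow_mul]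
        refine (mul_lt_mul_of_pos_right d2 (by positivity)).trans_le ?_
        rw [mul_assoc, ← mul_pow]
        exact mul_le_mul_of_nonneg_left d3 (by positivity)
      have c4 := (pow_lt_pow_iff_right₀ R1).1 c2
      have c5 := (pow_lt_pow_iff_right₀ R1).1 c3
      have c6 : 3 * J ≤ μ * J := Nat.mul_le_mul_right _ hμ
      omega
    · obtain ⟨g, g1, g2⟩ := gen 0 (q ^ 2) (one_le_pow₀ q1)
      have a1 : √q ≤ ω := Real.sqrt_le_iff.2 ⟨by linarith, hc.le⟩
      have e1 : 1 / (R:ℝ) ^ (2 * J + 13) ≤ 1 / R ^ 13 :=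
        one_div_le_one_div_of_le (by positivity) (pow_le_pow_right₀ R1.le (by omega))
      refine ⟨0, g, 1, le_rfl, ?_, by omega, Or.inl ⟨rfl, rfl, P.2.1, P.2.2, hP.1, hP.2.2.trans ?_, g1, g2⟩, ?_⟩
      · have c1 := (mul_lt_mul_of_pos_right ((one_le_pow₀ q1).trans_lt g2) (show (0:ℝ) < R ^ 12 by positivity)).trans_le
          (hb 0 _)
        rw [one_mul] at c1
        have := (pow_lt_pow_iff_right₀ R1).1 c1
        omega
      · exact div_le_div₀ (by positivity) e1 (by linarith) (by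
          rw [← hq]; linarith [mul_le_mul_of_nonneg_right a1 u0.le])
      · have c1 : h J g ≤ h 0 g :=
          mul_le_mul_of_nonneg_right (mul_le_mul_of_nonneg_left e1 (by norm_num)) (by positivity)
        refine (pow_le_pow_left₀ (h0 J g).le (c1.trans g1) 2).trans ?_
        rw [← pow_mul, pow_succ q 3]
        exact mul_le_mul_of_nonneg_left hc.le (by positivity)
  refine ⟨Bad, ?_, fun J P z hP => ?_⟩
  swap
  · obtain ⟨t, g, k, a1, a2, a3, a4, _⟩ := cover J P z hP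
    exact ⟨t, g, k, a1, a2, a3, a4⟩
  intro t g k hk1 hkg S hS hav
  by_cases hex : ∃ z ∈ S, z ∈ Bad t g k
  swap
  · exact ⟨1, 0, 0, Or.inl one_ne_zero, fun z hz hb => absurd ⟨z, hz, hb⟩ hex⟩
  obtain ⟨n, rfl⟩ : ∃ n, g = n + k := ⟨g - k, by omega⟩
  rw [Nat.add_sub_cancel] at hS hav
  set g := n + k with hg
  set τ : ℝ := 1 / R ^ n with hτ
  have τ0 : 0 ≤ τ := by positivity
  have hτh : ∀ J, h J (g + 1) * τ = 2 * (1 / R ^ (2 * J + 13)) * R ^ (k + 1) := fun J => by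
    simp only [hh, hτ, hg]; field_simp; ring
  cases t with
  | zero =>
    obtain ⟨z1, hz1, ⟨_, rfl, r1, q1, a1, a2, a3, a4⟩ | ⟨J, j, P, a1, _⟩⟩ := hex
    swap
    · omega
    refine ⟨0, 1, -r1 / q1, Or.inr one_ne_zero, ?_⟩
    rintro z2 hz2 (⟨_, _, r2, q2, b1, b2, b3, b4⟩ | ⟨J, j, P, a1, _⟩)
    swap
    · omega
    have q10 : (0:ℝ) < q1 := by exact_mod_cast a1
    have q20 : (0:ℝ) < q2 := by exact_mod_cast b1
    set ε : ℝ := 1 / R ^ 13 with hε
    have ε0 : 0 < ε := by positivity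
    have eh : h 0 g = 2 * ε * R ^ g := rfl
    have aux : ∀ (y r q : ℝ), 0 < q → |q * y - r| ≤ ε / q → h 0 g ≤ q ^ 2 → |y - r / q| ≤ 1 / R ^ g / 2 := by
      intro y r q c1 c2 c3
      have e : y - r / q = (q * y - r) / q := by field_simp
      rw [e, abs_div, abs_of_pos c1]
      refine (div_le_div_of_nonneg_right c2 c1.le).trans ?_
      rw [div_div ε, le_div_iff₀ two_pos, le_div_iff₀ (by positivity), div_mul_eq_mul_div, div_mul_eq_mul_div,
        div_le_one (by positivity)]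
      rw [eh] at c3
      linarith
    have c1 := aux _ _ _ q10 a2 a3
    have c2 := aux _ _ _ q20 b2 b3
    have c3 : |(r1:ℝ) / q1 - r2 / q2| ≤ 2 * τ := by
      have d1 : 1 / (R:ℝ) ^ g ≤ τ := one_div_le_one_div_of_le (by positivity) (pow_le_pow_right₀ R1.le (by omega))
      have d2 := abs_le.1 (hS _ hz1 _ hz2).2
      rw [abs_le] at c1 c2 ⊢
      constructor <;> linarith
    have c4 : (q1:ℝ) * q2 < h 0 (g + 1) := by linarith [sq_nonneg ((q1:ℝ) - q2)]
    have c5 : ((r1 * q2 - r2 * q1 : ℤ) : ℝ) = (r1 / q1 - r2 / q2) * (q1 * q2) := by push_cast; field_simp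
    have c6 : |((r1 * q2 - r2 * q1 : ℤ) : ℝ)| < 1 := by
      rw [c5, abs_mul, abs_of_pos (mul_pos q10 q20)]
      refine (mul_le_mul c3 c4.le (by positivity) (by positivity)).trans_lt ?_
      have d1 := hτh 0
      have d2 : 4 * (R:ℝ) ^ 2 < R ^ 13 := by
        have : (4:ℝ) < R ^ 11 := lt_of_lt_of_le (by linarith) (le_self_pow₀ R1.le (by omega))
        calc 4 * (R:ℝ) ^ 2 < R ^ 11 * R ^ 2 := mul_lt_mul_of_pos_right this (by positivity)
          _ = _ := by ring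
      calc 2 * τ * h 0 (g + 1) = 4 * R ^ 2 / R ^ 13 := by rw [mul_assoc, mul_comm τ, d1]; ring
        _ < 1 := (div_lt_one (by positivity)).2 d2
    have c7 : r1 * q2 - r2 * q1 = 0 := Int.abs_lt_one_iff.1 (by exact_mod_cast c6)
    rw [c7, Int.cast_zero, eq_comm, mul_eq_zero, sub_eq_zero] at c5
    have c8 := c5.resolve_right (by positivity)
    rw [zero_mul, zero_add, one_mul, neg_div, ← sub_eq_add_neg, c8, abs_zero, abs_one, max_eq_right zero_le_one, mul_one]
    exact c2.trans (half_le_self (by positivity))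
  | succ J =>
    have hex' : ∃ q, ∃ P z, P.2.2 = q ∧ z ∈ S ∧ Wk R μ J P z ∧ Cl J g (k - 1 - J) P ∧ J + 1 ≤ k := by
      obtain ⟨z, hz, ⟨a1, _⟩ | ⟨J', j, P, a1, a2, a3, a4⟩⟩ := hex
      · omega
      obtain rfl : J = J' := by omega
      exact ⟨_, P, z, rfl, hz, a3, by rwa [show k - 1 - J = j by omega], by omega⟩
    obtain ⟨P1, z1, e1, hz1, hD1, hC1, hJk⟩ := Nat.find_spec hex'
    obtain ⟨n1, a1, b1, l1⟩ := hL J P1 hD1.1
    refine ⟨A J P1, B J P1, C J P1, by exact_mod_cast n1, ?_⟩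
    rintro z2 hz2 (⟨a1, _⟩ | ⟨J', j, P2, x1, x2, hD2, hC2⟩)
    · omega
    obtain rfl : J = J' := by omega
    have ej : k - 1 - J = j := by omega
    obtain ⟨n2, a2, b2, l2⟩ := hL J P2 hD2.1
    have hq : P1.2.2 ≤ P2.2.2 := by
      rw [e1]; exact Nat.find_min' hex' ⟨P2, z2, rfl, hz2, hD2, by rwa [ej], hJk⟩
    rw [ej] at hC1
    clear e1 hex' hex x1
    have hτJ := hτh J
    have hsJ := hs J g
    have ehg : h J g = 2 * (1 / R ^ (2 * J + 13)) * R ^ g := rfl
    simp only [hCl, hH] at hC1 hC2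
    obtain ⟨D11, D12, D13⟩ := hD1
    obtain ⟨D21, D22, D23⟩ := hD2
    set ε : ℝ := 1 / R ^ (2 * J + 13) with hε
    set ω : ℝ := R ^ (μ * J) with hω
    have ε0 : 0 < ε := by positivity
    have ω1 : 1 ≤ ω := one_le_pow₀ R1.le
    have ω0 : 0 < ω := by linarith
    have ε1 : ε < 1 := (div_lt_one (by positivity)).2 (one_lt_pow₀ R1 (by omega))
    set q1 : ℝ := ((P1.2.2 : ℕ) : ℝ) with hq1
    set q2 : ℝ := ((P2.2.2 : ℕ) : ℝ) with hq2
    have q10 : 0 < q1 := by rw [hq1]; exact_mod_cast D11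
    have q12 : q1 ≤ q2 := by rw [hq1, hq2]; exact_mod_cast hq
    have q20 : 0 < q2 := by linarith
    have u10 : 0 < √q1 := Real.sqrt_pos.2 q10
    have u12 : √q1 ≤ √q2 := Real.sqrt_le_sqrt q12
    have u20 : 0 < √q2 := by linarith
    have uu : √q2 * √q2 = q2 := Real.mul_self_sqrt q20.le
    have hg0 := h0 J g
    have ρ : q2 ≤ R ^ 4 * q1 := by
      have c1 := mul_le_mul_of_nonneg_left hC1.2.2.2.1 (show (0:ℝ) ≤ R ^ 12 by positivity)
      have c2 := hC2.2.2.2.2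
      rw [pow_succ _ j] at c2
      have c3 : q2 ^ 3 * ω ^ 2 ≤ (R ^ 4 * q1) ^ 3 * ω ^ 2 := by linarith
      exact (pow_le_pow_iff_left₀ q20.le (by positivity) (by omega)).1 (le_of_mul_le_mul_right c3 (by positivity))
    have Rk : (1:ℝ) ≤ R ^ (k + 1) := one_le_pow₀ R1.le
    have key : (A J P1 : ℝ) * P2.1 + B J P1 * P2.2.1 + C J P1 * q2 = 0 := by
      rcases lt_or_ge j (J + 7) with hj | hj
      · have := small ε τ z1.1 z1.2 z2.1 z2.2 _ _ _ _ (A J P1) (B J P1) (C J P1) _ _ _ _ _ _ 1 (one_dvd _) one_pos D11 hq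
          (la a1 ε0.le ω0 u10 le_rfl) (la a1 ε0.le ω0 u10 u12) (lb b1 ε0.le ω0 u10 le_rfl) (lb b1 ε0.le ω0 u10 u12)
          D12 D22 D13 D23 (hS _ hz2 _ hz1).1 (hS _ hz2 _ hz1).2 (by rwa [Nat.cast_one, div_one]) ?_
        · rwa [Nat.cast_one, div_one] at this
        have x1 := mul_le_mul_of_nonneg_right hC1.2.2.1.le τ0
        rw [hτJ] at x1
        have x3 : ε * R ^ (k + 1) ≤ 1 / R ^ 5 := by
          rw [hε, div_mul_eq_mul_div, div_le_div_iff₀ (by positivity) (by positivity), one_mul, one_mul, ← pow_add]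
          exact pow_le_pow_right₀ R1.le (by omega)
        have x4 : 4 * ε + 2 * (q1 * max |(A J P1 : ℝ)| |(B J P1 : ℝ)| * τ) ≤ 8 * (1 / R ^ 5) := by
          linarith [mul_le_mul_of_nonneg_left Rk ε0.le]
        calc q2 * (4 * ε + 2 * (q1 * max |(A J P1 : ℝ)| |(B J P1 : ℝ)| * τ)) ≤ (R ^ 4 * q1) * (8 * (1 / R ^ 5)) :=
              mul_le_mul ρ x4 (by positivity) (by positivity)
          _ = q1 * (8 / R) := by field_simp
          _ < q1 := mul_lt_of_lt_one_right q10 ((div_lt_one R0).2 (by linarith))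
      · set η : ℝ := R / R ^ (6 * j) with hη
        have η0 : 0 < η := by positivity
        have mx : ∀ m q : ℝ, 0 < q → q ≤ q2 → q * m < h J (g + 1) → h J g ^ 2 * (R ^ 12) ^ j ≤ q ^ 3 * ω ^ 2 →
            m ≤ η * ω * √q2 := by
          intro m q y0 y1 y2 y3
          have y4 : h J g * R ^ (6 * j) ≤ q * (ω * √q2) := by
            refine (pow_le_pow_iff_left₀ (by positivity) (by positivity) (show 2 ≠ 0 by omega)).1 ?_
            rw [mul_pow (h J g), mul_pow q, mul_pow ω, pow_two (√q2), uu, ← pow_mul, show 6 * j * 2 = 12 * j by ring,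
              pow_mul]
            linarith [mul_le_mul_of_nonneg_left y1 (show 0 ≤ q ^ 2 * ω ^ 2 by positivity)]
          rw [hη, div_mul_eq_mul_div, div_mul_eq_mul_div, le_div_iff₀ (by positivity)]
          refine le_of_mul_le_mul_left ?_ y0
          rw [hsJ] at y2
          linarith [mul_le_mul_of_nonneg_right y2.le (show (0:ℝ) ≤ R ^ (6 * j) by positivity),
            mul_le_mul_of_nonneg_left y4 R0.le]
        have m1 := mx _ q1 q10 q12 hC1.2.2.1 hC1.2.2.2.1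
        have m2 := mx _ q2 q20 le_rfl hC2.2.2.1 hC2.2.2.2.1
        set F := 6 * ε * R ^ (k + 1) / q1 with hF
        have f1 : |A J P1 * z1.1 + B J P1 * z1.2 + (C J P1 : ℝ) / (1:ℕ)| ≤ F := by
          rw [Nat.cast_one, div_one, hF, le_div_iff₀ q10]
          refine (onL ε _ _ _ _ _ _ _ _ _ _ (la a1 ε0.le ω0 u10 le_rfl) (lb b1 ε0.le ω0 u10 le_rfl)
            D12 D13 q10 l1).trans ?_
          linarith [mul_le_mul_of_nonneg_left Rk ε0.le]
        have f2 : |A J P2 * z1.1 + B J P2 * z1.2 + (C J P2 : ℝ) / (1:ℕ)| ≤ F := by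
          rw [Nat.cast_one, div_one]
          have y1 := onL ε _ _ _ _ _ _ _ _ _ _ (la a2 ε0.le ω0 u20 le_rfl) (lb b2 ε0.le ω0 u20 le_rfl)
            D22 D23 q20 l2
          have y2 := mul_le_mul_of_nonneg_right hC2.2.2.1.le τ0
          rw [hτJ] at y2
          have y3 : |(A J P2 : ℝ) * (z1.1 - z2.1)| ≤ max |(A J P2 : ℝ)| |(B J P2 : ℝ)| * τ := by
            rw [abs_mul]; exact mul_le_mul (le_max_left _ _) (hS _ hz1 _ hz2).1 (abs_nonneg _) (by positivity)
          have y4 : |(B J P2 : ℝ) * (z1.2 - z2.2)| ≤ max |(A J P2 : ℝ)| |(B J P2 : ℝ)| * τ := by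
            rw [abs_mul]; exact mul_le_mul (le_max_right _ _) (hS _ hz1 _ hz2).2 (abs_nonneg _) (by positivity)
          have y5 : |A J P2 * z1.1 + B J P2 * z1.2 + C J P2| ≤ |A J P2 * z2.1 + B J P2 * z2.2 + C J P2| +
              2 * (max |(A J P2 : ℝ)| |(B J P2 : ℝ)| * τ) := by
            have e : (A J P2 : ℝ) * z1.1 + B J P2 * z1.2 + C J P2 = (A J P2 * z2.1 + B J P2 * z2.2 + C J P2) +
              (A J P2 * (z1.1 - z2.1) + B J P2 * (z1.2 - z2.2)) := by ring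
            rw [e]
            linarith [abs_add_le ((A J P2 : ℝ) * z2.1 + B J P2 * z2.2 + C J P2)
              (A J P2 * (z1.1 - z2.1) + B J P2 * (z1.2 - z2.2)),
              abs_add_le ((A J P2 : ℝ) * (z1.1 - z2.1)) (B J P2 * (z1.2 - z2.2))]
          have y6 := mul_le_mul_of_nonneg_right y5 q20.le
          rw [hF, le_div_iff₀ q10]
          refine (mul_le_mul_of_nonneg_left q12 (abs_nonneg _)).trans (y6.trans ?_)
          linarith [mul_le_mul_of_nonneg_left Rk ε0.le]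
        obtain ⟨x1, x2', x3⟩ := cross z1.1 z1.2 F (√q2 / ω) (η * ω * √q2) _ _ _ _ _ _ 1 one_pos f1 f2
          (a1.trans (div_le_div_of_nonneg_right u12 ω0.le)) a2 ((le_max_right _ _).trans m1)
          ((le_max_right _ _).trans m2)
        simp only [Nat.cast_one, one_mul, mul_one] at x1 x2'
        set Z : ℝ := 12 * R ^ (k + 5) with hZ
        have Z1 : 1 ≤ Z := by
          have : (1:ℝ) ≤ R ^ (k + 5) := one_le_pow₀ R1.le
          linarith
        have uF : 2 * √q2 * F ≤ ε * Z / √q2 := by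
          rw [le_div_iff₀ u20]
          calc 2 * √q2 * F * √q2 = 12 * ε * R ^ (k + 1) * (√q2 * √q2 / q1) := by rw [hF]; ring
            _ ≤ 12 * ε * R ^ (k + 1) * R ^ 4 := by
                rw [uu]; exact mul_le_mul_of_nonneg_left ((div_le_iff₀ q10).2 ρ) (by positivity)
            _ = _ := by rw [hZ]; ring
        have ηZ2 : 2 * η * Z ^ 2 ≤ 1 := by
          have y1 : 288 * (R:ℝ) ^ (2 * k + 11) ≤ R ^ (6 * j) := by
            calc 288 * (R:ℝ) ^ (2 * k + 11) ≤ R ^ 2 * R ^ (2 * k + 11) :=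
                  mul_le_mul_of_nonneg_right (by linarith [pow_le_pow_left₀ (by norm_num) hRr 2]) (by positivity)
              _ ≤ _ := by rw [← pow_add]; exact pow_le_pow_right₀ R1.le (by omega)
          calc 2 * η * Z ^ 2 = 288 * (R:ℝ) ^ (2 * k + 11) / R ^ (6 * j) := by rw [hη, hZ]; ring
            _ ≤ 1 := (div_le_one (by positivity)).2 y1
        have ηZ : η * Z ≤ 1 := by
          have y : 0 ≤ η * Z := by positivity
          linarith [mul_le_mul_of_nonneg_left Z1 y]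
        have x1' : 2 * (η * ω * √q2) * F ≤ ε * ω / √q2 := by
          calc 2 * (η * ω * √q2) * F = η * ω * (2 * √q2 * F) := by ring
            _ ≤ η * ω * (ε * Z / √q2) := mul_le_mul_of_nonneg_left uF (by positivity)
            _ = η * Z * (ε * ω / √q2) := by ring
            _ ≤ _ := mul_le_of_le_one_left (by positivity) ηZ
        have x2'' : 2 * (√q2 / ω) * F ≤ ε * Z / (ω * √q2) := by
          calc 2 * (√q2 / ω) * F = (2 * √q2 * F) / ω := by ring
            _ ≤ (ε * Z / √q2) / ω := div_le_div_of_nonneg_right uF ω0.le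
            _ = _ := by rw [div_div, mul_comm ω]
        have hm : A J P1 * B J P2 - A J P2 * B J P1 = 0 := by
          by_contra hm
          obtain ⟨p0, r0, y1, y2⟩ := sgn _ _ _ _ _ _ _ (x1.trans x1') (x2'.trans x2'')
          set q0 := (A J P1 * B J P2 - A J P2 * B J P1).natAbs with hq0
          have q01 : 1 ≤ q0 := Int.natAbs_pos.2 hm
          have q00 : (0:ℝ) < q0 := by exact_mod_cast q01
          have u00 : 0 < √(q0:ℝ) := Real.sqrt_pos.2 q00
          have q0le : (q0:ℝ) ≤ 2 * η * q2 := by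
            rw [hq0, Nat.cast_natAbs, Int.cast_abs]
            refine x3.trans_eq ?_
            calc 2 * (√q2 / ω) * (η * ω * √q2) = 2 * η * (√q2 * √q2) := by field_simp
              _ = _ := by rw [uu]
          have v1 : Z * √(q0:ℝ) ≤ √q2 := by
            refine (pow_le_pow_iff_left₀ (by positivity) (by positivity) (show 2 ≠ 0 by omega)).1 ?_
            rw [mul_pow, Real.sq_sqrt q00.le, Real.sq_sqrt q20.le]
            linarith [mul_le_mul_of_nonneg_left q0le (show 0 ≤ Z ^ 2 by positivity),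
              mul_le_mul_of_nonneg_right ηZ2 q20.le]
          have v2 : √(q0:ℝ) ≤ √q2 := (le_mul_of_one_le_left u00.le Z1).trans v1
          have hD0 : Wk R μ J (p0, r0, q0) z1 := by
            refine ⟨q01, y1.trans (div_le_div_of_nonneg_left (by positivity) u00 v2), y2.trans ?_⟩
            rw [div_le_div_iff₀ (by positivity) (by positivity)]
            linarith [mul_le_mul_of_nonneg_left v1 (show 0 ≤ ε * ω by positivity)]
          obtain ⟨t0, g0, k0, z1', z2', z4, z3, z5⟩ := cover _ _ _ hD0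
          refine hav t0 g0 k0 z1' z2' z4 ?_ z1 hz1 z3
          have v3 : (2 * η) ^ 3 * (R ^ 12) ^ (j + 1) * (R ^ k) ^ 2 ≤ 1 := by
            have y3 : 8 * (R:ℝ) ^ (12 * j + 15 + 2 * k) ≤ R ^ (18 * j) := by
              calc 8 * (R:ℝ) ^ (12 * j + 15 + 2 * k) ≤ R * R ^ (12 * j + 15 + 2 * k) :=
                    mul_le_mul_of_nonneg_right (by linarith) (by positivity)
                _ ≤ _ := by rw [← pow_succ']; exact pow_le_pow_right₀ R1.le (by omega)
            calc (2 * η) ^ 3 * (R ^ 12) ^ (j + 1) * (R ^ k) ^ 2 = 8 * (R:ℝ) ^ (12 * j + 15 + 2 * k) / R ^ (18 * j) := by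
                  rw [hη]; field_simp; ring
              _ ≤ 1 := (div_le_one (by positivity)).2 y3
          have v4 : (h J g0 * R ^ k) ^ 2 ≤ h J g ^ 2 := by
            have y3 : (q0:ℝ) ^ 3 * ω ^ 2 ≤ (2 * η) ^ 3 * (h J g ^ 2 * (R ^ 12) ^ (j + 1)) := by
              refine (mul_le_mul_of_nonneg_right (pow_le_pow_left₀ q00.le q0le 3) (by positivity)).trans ?_
              rw [mul_pow _ q2, mul_assoc]
              exact mul_le_mul_of_nonneg_left hC2.2.2.2.2.le (by positivity)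
            rw [mul_pow]
            linarith [mul_le_mul_of_nonneg_right (z5.trans y3) (show (0:ℝ) ≤ (R ^ k) ^ 2 by positivity),
              mul_le_mul_of_nonneg_left v3 (show 0 ≤ h J g ^ 2 by positivity)]
          have v5 := (pow_le_pow_iff_left₀ (by have := h0 J g0; positivity) hg0.le (show 2 ≠ 0 by omega)).1 v4
          simp only [hh] at v5
          rw [mul_assoc, ← pow_add] at v5
          have := (pow_le_pow_iff_right₀ R1).1 (le_of_mul_le_mul_left v5 (by positivity))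
          omega
        rw [hm, Int.cast_zero, zero_mul, zero_sub, abs_neg] at x1 x2'
        have y1 : ε * ω / √q2 < 1 := by
          rw [div_lt_one u20]
          linarith [Real.le_sqrt_of_sq_le hC2.1, mul_lt_mul_of_pos_right ε1 ω0]
        have y2 : ε * Z / (ω * √q2) < 1 := by
          rw [div_lt_one (by positivity)]
          have := (one_le_max n1).trans m1
          have y : 0 < ω * √q2 := by positivity
          linarith [mul_le_mul_of_nonneg_left this (show 0 ≤ ε * Z by positivity),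
            mul_le_mul_of_nonneg_left ηZ (mul_pos ε0 y).le, mul_lt_mul_of_pos_right ε1 y]
        have y3 : B J P1 * C J P2 - B J P2 * C J P1 = 0 :=
          Int.abs_lt_one_iff.1 (by exact_mod_cast (x1.trans x1').trans_lt y1)
        have y4 : A J P2 * C J P1 - A J P1 * C J P2 = 0 :=
          Int.abs_lt_one_iff.1 (by exact_mod_cast (x2'.trans x2'').trans_lt y2)
        have hm' : (A J P1 : ℝ) * B J P2 - A J P2 * B J P1 = 0 := by exact_mod_cast hm
        have y3' : (B J P1 : ℝ) * C J P2 - B J P2 * C J P1 = 0 := by exact_mod_cast y3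
        have y4' : (A J P2 : ℝ) * C J P1 - A J P1 * C J P2 = 0 := by exact_mod_cast y4
        rcases n2 with n2 | n2
        · refine (mul_eq_zero.1 ?_).resolve_left (show (A J P2 : ℝ) ≠ 0 by exact_mod_cast n2)
          linear_combination (A J P1 : ℝ) * l2 - P2.2.1 * hm' + q2 * y4'
        · refine (mul_eq_zero.1 ?_).resolve_left (show (B J P2 : ℝ) ≠ 0 by exact_mod_cast n2)
          linear_combination (B J P1 : ℝ) * l2 + P2.1 * hm' - q2 * y3'
    have fin := onL ε _ _ _ _ _ _ _ _ _ _ (la a1 ε0.le ω0 u10 u12) (lb b1 ε0.le ω0 u10 u12) D22 D23 q20 key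
    have e2 : 1 / R ^ g * h J g = 2 * ε := by rw [ehg]; field_simp
    refine le_of_mul_le_mul_right ((mul_le_mul_of_nonneg_left q12 (abs_nonneg _)).trans (fin.trans ?_)) q10
    have e3 := mul_le_mul_of_nonneg_left hC1.2.1 (show (0:ℝ) ≤ 1 / R ^ g by positivity)
    rw [e2] at e3
    exact e3.trans_eq (by ring)

end Pool.Agent.H53.Bs
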