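import Mathlib
import Pool.Agent.H53.BsB

open Set Finset
open scoped ENNReal NNReal

namespace Pool.Agent.H53.Bs

lemma lev (R : ℝ) (R1 : 1 < R) (μ : ℕ) (hμ : 3 ≤ μ) (s : ℝ) (s0 : 0 < s) (s1 : s < 1) (hs : 2 ≤ μ * (1 - s))
    (U V : ℝ) (hV : V ≤ U) (h : V ^ s * U ^ (2 - s) < R ^ (-26 - 2 * μ : ℝ)) :
    ∃ J : ℕ, U ≤ 1 / R ^ (2 * J + 13) * R ^ (μ * J) ∧ V ≤ 1 / R ^ (2 * J + 13) / R ^ (μ * J) := by
  classical
  have R0 : 0 < R := by linarith
  have e1 : ∀ J : ℕ, 1 / R ^ (2 * J + 13) * R ^ (μ * J) = R ^ (μ * J - (2 * J + 13) : ℝ) := fun J => by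
    rw [Real.rpow_sub R0, one_div, inv_mul_eq_div, ← Real.rpow_natCast, ← Real.rpow_natCast]; push_cast; rfl
  have e2 : ∀ J : ℕ, 1 / R ^ (2 * J + 13) / R ^ (μ * J) = R ^ (-(2 * J + 13 + μ * J) : ℝ) := fun J => by
    rw [Real.rpow_neg R0.le, div_div, one_div, ← pow_add, ← Real.rpow_natCast]; push_cast; rfl
  have μ3 : (3:ℝ) ≤ μ := by exact_mod_cast hμ
  have hex : ∃ J : ℕ, U ≤ 1 / R ^ (2 * J + 13) * R ^ (μ * J) := by
    obtain ⟨n, hn⟩ := pow_unbounded_of_one_lt U R1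
    refine ⟨n + 13, hn.le.trans ?_⟩
    rw [e1, ← Real.rpow_natCast]
    refine Real.rpow_le_rpow_of_exponent_le R1.le ?_
    push_cast
    linarith [mul_le_mul_of_nonneg_right μ3 (show (0:ℝ) ≤ n + 13 by positivity)]
  refine ⟨Nat.find hex, Nat.find_spec hex, ?_⟩
  rcases Nat.eq_zero_or_pos (Nat.find hex) with h0 | h0
  · have := Nat.find_spec hex
    rw [h0] at this ⊢
    simpa using hV.trans this
  · obtain ⟨i, hi⟩ : ∃ i, Nat.find hex = i + 1 := ⟨Nat.find hex - 1, by omega⟩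
    have a1 := not_le.1 (Nat.find_min hex (m := i) (by omega))
    rw [hi, e2]
    rw [e1] at a1
    by_contra hc
    have a2 := mul_le_mul (Real.rpow_le_rpow (by positivity) (not_le.1 hc).le s0.le)
      (Real.rpow_le_rpow (by positivity) a1.le (show 0 ≤ 2 - s by linarith)) (by positivity)
      (Real.rpow_nonneg ((Real.rpow_nonneg R0.le _).trans (not_le.1 hc).le) _)
    rw [← Real.rpow_mul R0.le, ← Real.rpow_mul R0.le, ← Real.rpow_add R0] at a2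
    have a3 := (Real.rpow_lt_rpow_left_iff R1).1 (a2.trans_lt h)
    push_cast at a3
    linarith [mul_le_mul_of_nonneg_left hs (Nat.cast_nonneg (α := ℝ) i), mul_le_mul_of_nonneg_left s1.le
      (Nat.cast_nonneg (α := ℝ) μ)]

lemma lev' (R : ℝ) (R1 : 1 < R) (μ : ℕ) (hμ : 3 ≤ μ) (s : ℝ) (s0 : 0 < s) (s1 : s < 1) (hs : 2 ≤ μ * (1 - s))
    (n : ℕ) (hn : 1 ≤ n) (x y : ℝ) (p r : ℤ) (hV : |n * y - r| ≤ |n * x - p|)
    (h : n * |n * y - r| ^ s * |n * x - p| ^ (2 - s) < R ^ (-26 - 2 * μ : ℝ)) : ∃ J, Wk R μ J (p, r, n) (x, y) := by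
  have n0 : (0:ℝ) < n := by exact_mod_cast hn
  have u0 : 0 < √(n:ℝ) := Real.sqrt_pos.2 n0
  obtain ⟨J, a1, a2⟩ := lev R R1 μ hμ s s0 s1 hs (|n * x - p| * √n) (|n * y - r| * √n)
    (mul_le_mul_of_nonneg_right hV u0.le) (by
      rw [Real.mul_rpow (abs_nonneg _) u0.le, Real.mul_rpow (abs_nonneg _) u0.le]
      refine lt_of_eq_of_lt ?_ h
      have : √(n:ℝ) ^ s * √(n:ℝ) ^ (2 - s) = n := by
        rw [← Real.rpow_add u0, add_sub_cancel, Real.rpow_two, Real.sq_sqrt n0.le]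
      linear_combination |n * y - r| ^ s * |n * x - p| ^ (2 - s) * this)
  exact ⟨J, hn, (le_div_iff₀ u0).2 a1, by rw [← div_div]; exact (le_div_iff₀ u0).2 a2⟩

theorem low (s : ℝ) (s0 : 0 < s) (s1 : s < 1) : 2 ≤ dimH {z : ℝ × ℝ | ∃ c : ℝ, 0 < c ∧ ∀ n : ℕ, 1 ≤ n →
    c ≤ n * (min |n * z.1 - round (n * z.1)| |n * z.2 - round (n * z.2)|) ^ s *
      (max |n * z.1 - round (n * z.1)| |n * z.2 - round (n * z.2)|) ^ (2 - s)} := by
  refine le_of_forall_lt_imp_le_of_dense fun d hd => ?_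
  rcases eq_or_ne d 0 with rfl | d0
  · exact zero_le
  lift d to ℝ≥0 using hd.ne_top
  have d2 : (d:ℝ) < 2 := by exact_mod_cast hd
  obtain ⟨R, hR⟩ := exists_nat_ge (max 200 ((2:ℝ) ^ (2 - (d:ℝ))⁻¹))
  have hRr : (200:ℝ) ≤ R := (le_max_left _ _).trans hR
  have R0 : (0:ℝ) < R := by linarith
  obtain ⟨μ, hμ⟩ := exists_nat_ge (max 3 (2 / (1 - s)))
  have μ3 : 3 ≤ μ := by exact_mod_cast (le_max_left _ _).trans hμ
  have μs : 2 ≤ μ * (1 - s) := (div_le_iff₀ (by linarith)).1 ((le_max_right _ _).trans hμ)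
  obtain ⟨Bad, h1, h2⟩ := fam R μ (by exact_mod_cast hRr) μ3
  refine dim_ge R (by exact_mod_cast hRr) ![Bad, fun t g k => Prod.swap ⁻¹' Bad t g k] (fun b => by
    fin_cases b
    · exact h1
    · exact HT_swap h1) d (pos_iff_ne_zero.2 (by simpa using d0)) ?_ _ fun z hz => ?_
  · have a1 := Real.rpow_le_rpow (by positivity) ((le_max_right _ _).trans hR) (show 0 ≤ 2 - (d:ℝ) by linarith)
    rw [Real.rpow_inv_rpow (by norm_num) (by linarith), Real.rpow_sub R0, le_div_iff₀ (by positivity),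
      Real.rpow_two] at a1
    linarith
  · refine ⟨R ^ (-26 - 2 * μ : ℝ), by positivity, fun n hn => not_lt.1 fun hc => ?_⟩
    rcases le_total |n * z.2 - round (n * z.2)| |n * z.1 - round (n * z.1)| with h | h
    · rw [min_eq_right h, max_eq_left h] at hc
      obtain ⟨J, hJ⟩ := lev' R (by linarith) μ μ3 s s0 s1 μs n hn _ _ _ _ h hc
      obtain ⟨t, g, k, a1, a2, a3, a4⟩ := h2 _ _ _ hJ
      exact hz 0 t g k a1 a2 a3 a4
    · rw [min_eq_left h, max_eq_right h] at hc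
      obtain ⟨J, hJ⟩ := lev' R (by linarith) μ μ3 s s0 s1 μs n hn _ _ _ _ h hc
      obtain ⟨t, g, k, a1, a2, a3, a4⟩ := h2 _ _ _ hJ
      exact hz 1 t g k a1 a2 a3 a4

end Pool.Agent.H53.Bs
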