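import Mathlib

/-! Autocorrelation and diffraction measure of point sets on the line: atoms. -/

namespace H53.Df

open MeasureTheory Set Real Filter Topology
open scoped FourierTransform ENNReal SchwartzMap

/-- `(1/2T) ∑_{x,y ∈ Λ ∩ [-T,T]} φ(x - y)`. -/
noncomputable def ac (Λ : Set ℝ) (T : ℝ) (φ : ℝ → ℝ) : ℝ :=
  1 / (2 * T) * ∑ᶠ x ∈ Λ ∩ Icc (-T) T, ∑ᶠ y ∈ Λ ∩ Icc (-T) T, φ (x - y)

/-- `η` is the autocorrelation of `Λ`: the vague limit of `(1/2T) ∑ δ_{x-y}`. -/
def IsAutocorr (Λ : Set ℝ) (η : Measure ℝ) : Prop :=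
  IsLocallyFiniteMeasure η ∧ ∀ φ : ℝ → ℝ, Continuous φ → HasCompactSupport φ →
    Tendsto (fun T => ac Λ T φ) atTop (𝓝 (∫ z, φ z ∂η))

/-- The positive tempered measure `ω` is the Fourier transform of `η`. -/
def IsFT (η ω : Measure ℝ) : Prop :=
  IsLocallyFiniteMeasure ω ∧ ω.HasTemperateGrowth ∧
    ∀ Ψ : ℝ → ℂ, ContDiff ℝ (⊤ : ℕ∞) Ψ → HasCompactSupport Ψ → ∫ t, 𝓕⁻ Ψ t ∂ω = ∫ z, Ψ z ∂η

/-- sequences with gaps in `[g, 1]` -/
structure Gap (g : ℝ) (x : ℤ → ℝ) : Prop where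
  pos : 0 < g
  zero : x 0 = 0
  lo : ∀ n, g ≤ x (n + 1) - x n
  hi : ∀ n, x (n + 1) - x n ≤ 1

variable {g : ℝ} {x : ℤ → ℝ}

lemma Gap.nat (h : Gap g x) (n : ℤ) (k : ℕ) : g * k ≤ x (n + k) - x n ∧ x (n + k) - x n ≤ k := by
  induction k with
  | zero => simp
  | succ k ih =>
    have h1 := h.lo (n + k)
    have h2 := h.hi (n + k)
    push_cast
    rw [← add_assoc]
    constructor <;> linarith [ih.1, ih.2]

lemma Gap.abs (h : Gap g x) (n m : ℤ) :
    g * |(n : ℝ) - m| ≤ |x n - x m| ∧ |x n - x m| ≤ |(n : ℝ) - m| := by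
  wlog hmn : m ≤ n generalizing n m
  · rw [abs_sub_comm (n : ℝ), abs_sub_comm (x n)]; exact this m n (le_of_not_ge hmn)
  obtain ⟨k, rfl⟩ := Int.le.dest hmn
  have h1 := h.nat m k
  have h2 : 0 ≤ g * k := mul_nonneg h.pos.le (Nat.cast_nonneg k)
  rw [abs_of_nonneg (h2.trans h1.1)]
  simpa using h1

lemma Gap.inj (h : Gap g x) : Function.Injective x := by
  intro n m e
  have h1 := (h.abs n m).1
  rw [e, sub_self, abs_zero] at h1
  have h2 : |(n : ℝ) - m| ≤ 0 := by
    by_contra h3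
    nlinarith [h.pos, not_le.1 h3]
  exact_mod_cast sub_eq_zero.1 (abs_nonpos_iff.1 h2)

/-- indices of the points in `[-T, T]` -/
noncomputable def idx (g : ℝ) (x : ℤ → ℝ) (T : ℝ) : Finset ℤ :=
  (Finset.Icc (-⌈T / g⌉) ⌈T / g⌉).filter fun n => |x n| ≤ T

lemma Gap.mem_idx (h : Gap g x) {T : ℝ} {n : ℤ} : n ∈ idx g x T ↔ |x n| ≤ T := by
  simp only [idx, Finset.mem_filter, Finset.mem_Icc, and_iff_right_iff_imp]
  intro hn
  have h1 := (h.abs n 0).1
  rw [h.zero, sub_zero, Int.cast_zero, sub_zero] at h1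
  have h2 : |(n : ℝ)| ≤ ⌈T / g⌉ := by
    refine le_trans ?_ (Int.le_ceil _)
    rw [le_div_iff₀ h.pos]; linarith
  rw [← abs_le]
  exact_mod_cast h2

lemma Gap.ac_eq (h : Gap g x) (T : ℝ) (φ : ℝ → ℝ) :
    ac (range x) T φ = 1 / (2 * T) * ∑ n ∈ idx g x T, ∑ m ∈ idx g x T, φ (x n - x m) := by
  have e : range x ∩ Icc (-T) T = ((idx g x T).image x : Finset ℝ) := by
    ext z
    simp only [mem_inter_iff, mem_range, mem_Icc, Finset.coe_image, mem_image, Finset.mem_coe,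
      h.mem_idx, ← abs_le]
    constructor
    · rintro ⟨⟨n, rfl⟩, hn⟩; exact ⟨n, hn, rfl⟩
    · rintro ⟨n, hn, rfl⟩; exact ⟨⟨n, rfl⟩, hn⟩
  unfold ac
  simp only [e, finsum_mem_coe_finset]
  rw [Finset.sum_image fun a _ b _ e => h.inj e]
  congr 2 with n
  rw [Finset.sum_image fun a _ b _ e => h.inj e]

lemma schw_bound (f : 𝓢(ℝ, ℂ)) (N : ℕ) : ∃ C, 0 ≤ C ∧ ∀ y, (1 + |y|) ^ N * ‖f y‖ ≤ C := by
  refine ⟨2 ^ N * ((Finset.Iic (N, 0)).sup fun m => SchwartzMap.seminorm ℝ m.1 m.2) f, by positivity,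
    fun y => ?_⟩
  have := SchwartzMap.one_add_le_sup_seminorm_apply (𝕜 := ℝ) (m := (N, 0)) (k := N) (n := 0)
    le_rfl le_rfl f y
  simpa using this

lemma Gap.atom (h : Gap g x) {η ω : Measure ℝ} (hη : IsAutocorr (range x) η) (hω : IsFT η ω)
    {s : ℝ} (hs : ∀ n m, 1 / 2 ≤ cos (2 * π * s * (x n - x m))) : ω {s} ≠ 0 := by
  intro h0
  obtain ⟨i1, hη⟩ := hη
  obtain ⟨i2, ⟨N, hN⟩, hω⟩ := hω
  let β : ContDiffBump (0 : ℝ) := ⟨1, 2, one_pos, one_lt_two⟩
  have hβc : HasCompactSupport (fun z => ((β z : ℝ) : ℂ)) :=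
    β.hasCompactSupport.comp_left (g := fun r : ℝ => (r : ℂ)) (by simp)
  have hβs : ContDiff ℝ (⊤ : ℕ∞) (fun z => ((β z : ℝ) : ℂ)) :=
    Complex.ofRealCLM.contDiff.comp β.contDiff
  let B : 𝓢(ℝ, ℂ) := 𝓕⁻ (hβc.toSchwartzMap hβs)
  have hB : ∀ y, B y = ∫ v : ℝ, Complex.exp ((2 * π * (y * v) : ℝ) * Complex.I) * (β v : ℝ) := by
    intro y
    show (𝓕⁻ (hβc.toSchwartzMap hβs) : 𝓢(ℝ, ℂ)) y = _
    rw [SchwartzMap.fourierInv_coe, Real.fourierInv_eq']
    simp
  let Ψ : ℝ → ℝ → ℂ := fun R z =>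
    ((1 / R * β (z / R) : ℝ) : ℂ) * Complex.exp ((-(2 * π * s * z) : ℝ) * Complex.I)
  have hc : ∀ R : ℝ, 0 < R → HasCompactSupport (fun z => β (z / R)) := fun R hR =>
    β.hasCompactSupport.comp_homeomorph (Homeomorph.mulRight₀ R⁻¹ (inv_ne_zero hR.ne'))
  have hΨc : ∀ R : ℝ, 0 < R → HasCompactSupport (Ψ R) := fun R hR =>
    (((hc R hR).mul_left (f := fun _ => 1 / R)).comp_left (g := fun r : ℝ => (r : ℂ))
      (by simp)).mul_right
  have hΨs : ∀ R : ℝ, ContDiff ℝ (⊤ : ℕ∞) (Ψ R) := fun R =>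
    (Complex.ofRealCLM.contDiff.comp
      (contDiff_const.mul (β.contDiff.comp (contDiff_id.div_const R)))).mul
      (((Complex.ofRealCLM.contDiff.comp (contDiff_const.mul contDiff_id).neg).mul
        contDiff_const).cexp)
  have hF : ∀ R : ℝ, 0 < R → ∀ t, 𝓕⁻ (Ψ R) t = B (R * (t - s)) := by
    intro R hR t
    rw [hB, Real.fourierInv_eq']
    have := Measure.integral_comp_div
      (fun v : ℝ => Complex.exp ((2 * π * (R * (t - s) * v) : ℝ) * Complex.I) * (β v : ℝ)) R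
    rw [abs_of_pos hR] at this
    have hR' : (R : ℂ) ≠ 0 := by exact_mod_cast hR.ne'
    apply mul_left_cancel₀ hR'
    rw [← integral_const_mul, ← Complex.real_smul, ← this]
    congr 1 with v
    simp only [Ψ, smul_eq_mul, RCLike.inner_apply, conj_trivial]
    have e : Complex.exp ((2 * π * (R * (t - s) * (v / R)) : ℝ) * Complex.I) =
        Complex.exp ((2 * π * (t * v) : ℝ) * Complex.I) *
          Complex.exp ((-(2 * π * s * v) : ℝ) * Complex.I) := by
      rw [← Complex.exp_add]; congr 1; push_cast; field_simp; ring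
    rw [e]; push_cast; field_simp
  have low : ∀ R : ℕ, 0 < R → 1 / 8 ≤ (∫ z, Ψ R z ∂η).re := by
    intro R hR
    have hR' : (0 : ℝ) < R := by exact_mod_cast hR
    have hi : Integrable (Ψ R) η := (hΨs R).continuous.integrable_of_hasCompactSupport (hΨc R hR')
    have e : ∀ z, (Ψ R z).re = 1 / R * β (z / R) * cos (2 * π * s * z) := by
      intro z
      simp only [Ψ]
      rw [Complex.re_ofReal_mul, Complex.exp_ofReal_mul_I_re, cos_neg]
    have := integral_re hi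
    simp only [RCLike.re_to_complex] at this
    rw [← this]
    refine ge_of_tendsto (hη (fun z => (Ψ R z).re) (Complex.continuous_re.comp (hΨs R).continuous)
      ((hΨc R hR').comp_left (g := Complex.re) (by simp))) ?_
    filter_upwards [eventually_ge_atTop (R : ℝ)] with T hT
    have hT1 : 1 ≤ T := le_trans (by exact_mod_cast hR) hT
    rw [h.ac_eq]
    have nn : ∀ n m, 0 ≤ (Ψ R (x n - x m)).re := fun n m => by
      rw [e]; exact mul_nonneg (mul_nonneg (by positivity) β.nonneg) (by linarith [hs n m])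
    have ax : ∀ n : ℤ, |(n : ℝ)| ≤ T → n ∈ idx g x T := fun n hn => by
      have := (h.abs n 0).2
      rw [h.zero] at this
      rw [h.mem_idx]; simp at this; linarith
    have hfl : (⌊T⌋₊ : ℝ) ≤ T := Nat.floor_le (by linarith)
    have s1 : ∑ n ∈ Finset.Ico (0 : ℤ) ⌊T⌋₊, (1 / 2 : ℝ) ≤
        ∑ n ∈ idx g x T, ∑ m ∈ idx g x T, (Ψ R (x n - x m)).re := by
      refine le_trans (Finset.sum_le_sum fun n hn => ?_) (Finset.sum_le_sum_of_subset_of_nonneg
        (fun n hn => ?_) fun n _ _ => Finset.sum_nonneg fun m _ => nn n m)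
      · rw [Finset.mem_Ico] at hn
        have hn1 : (0 : ℝ) ≤ n := by exact_mod_cast hn.1
        have hn2 : (n : ℝ) ≤ ⌊T⌋₊ := by exact_mod_cast hn.2.le
        have s2 : ∑ m ∈ Finset.Ioc (n - R) n, (1 / R * (1 / 2) : ℝ) ≤
            ∑ m ∈ idx g x T, (Ψ R (x n - x m)).re := by
          refine le_trans (Finset.sum_le_sum fun m hm => ?_) (Finset.sum_le_sum_of_subset_of_nonneg
            (fun m hm => ?_) fun m _ _ => nn n m)
          · rw [Finset.mem_Ioc] at hm
            have hm1 : (n : ℝ) - R ≤ m := by exact_mod_cast hm.1.le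
            have hm2 : (m : ℝ) ≤ n := by exact_mod_cast hm.2
            have h3 : |x n - x m| ≤ R := (h.abs n m).2.trans (abs_le.2 ⟨by linarith, by linarith⟩)
            rw [e, β.one_of_mem_closedBall, mul_one]
            · gcongr; exact hs n m
            · rw [Metric.mem_closedBall, dist_zero_right, Real.norm_eq_abs, abs_div,
                abs_of_pos hR', div_le_iff₀ hR']
              simpa [β] using h3
          · rw [Finset.mem_Ioc] at hm
            have hm1 : (n : ℝ) - R ≤ m := by exact_mod_cast hm.1.le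
            have hm2 : (m : ℝ) ≤ n := by exact_mod_cast hm.2
            exact ax m (abs_le.2 ⟨by linarith, by linarith⟩)
        refine le_trans (le_of_eq ?_) s2
        simp
        field_simp
      · rw [Finset.mem_Ico] at hn
        have hn1 : (0 : ℝ) ≤ n := by exact_mod_cast hn.1
        have hn2 : (n : ℝ) ≤ ⌊T⌋₊ := by exact_mod_cast hn.2.le
        exact ax n (abs_le.2 ⟨by linarith, by linarith⟩)
    simp only [Finset.sum_const, Int.card_Ico, sub_zero, Int.toNat_natCast, nsmul_eq_mul] at s1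
    have h4 : T / 2 ≤ ⌊T⌋₊ := by
      have h5 := Nat.lt_floor_add_one T
      have h6 : (1 : ℝ) ≤ ⌊T⌋₊ := by exact_mod_cast Nat.floor_pos.2 hT1
      linarith
    rw [one_div_mul_eq_div, le_div_iff₀ (by linarith)]
    linarith
  obtain ⟨C, hC0, hC⟩ := schw_bound B N
  have lim : Tendsto (fun R : ℕ => ∫ t, B ((R + 1 : ℕ) * (t - s)) ∂ω) atTop (𝓝 (∫ _t, 0 ∂ω)) := by
    refine tendsto_integral_of_dominated_convergence
      (fun t => C * (1 + |s|) ^ N * (1 + ‖t‖) ^ (-(N : ℝ)))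
      (fun R => (B.continuous.comp (by fun_prop)).aestronglyMeasurable) (hN.const_mul _)
      (fun R => ae_of_all _ fun t => ?_) ?_
    · rw [Real.rpow_neg (by positivity), Real.rpow_natCast, ← div_eq_mul_inv,
        le_div_iff₀ (by positivity)]
      have h1 : (1 : ℝ) ≤ (R + 1 : ℕ) := by exact_mod_cast Nat.succ_pos R
      have h2 : 1 + ‖t‖ ≤ (1 + |((R + 1 : ℕ) : ℝ) * (t - s)|) * (1 + |s|) := by
        rw [abs_mul, abs_of_nonneg (by linarith), Real.norm_eq_abs]
        have h3 : |t| ≤ |t - s| + |s| := by simpa using abs_add_le (t - s) s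
        have h4 := abs_nonneg (t - s)
        have h5 := abs_nonneg s
        have h6 : |t - s| ≤ ((R + 1 : ℕ) : ℝ) * |t - s| := le_mul_of_one_le_left h4 h1
        nlinarith [mul_nonneg (h4.trans h6) h5]
      calc _ ≤ ‖B ((R + 1 : ℕ) * (t - s))‖ *
            ((1 + |((R + 1 : ℕ) : ℝ) * (t - s)|) * (1 + |s|)) ^ N := by gcongr
        _ = (1 + |((R + 1 : ℕ) : ℝ) * (t - s)|) ^ N * ‖B ((R + 1 : ℕ) * (t - s))‖ *
            (1 + |s|) ^ N := by rw [mul_pow]; ring
        _ ≤ _ := by gcongr; exact hC _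
    · have : ∀ᵐ t ∂ω, t ≠ s := by simpa [ae_iff] using h0
      filter_upwards [this] with t ht
      refine B.tendsto_cocompact.comp ?_
      rw [← Metric.cobounded_eq_cocompact, ← tendsto_norm_atTop_iff_cobounded]
      simp only [norm_mul, Real.norm_natCast]
      exact (tendsto_natCast_atTop_atTop.comp (tendsto_add_atTop_nat 1)).atTop_mul_const
        (norm_pos_iff.2 (sub_ne_zero.2 ht))
  have lim2 := (Complex.continuous_re.tendsto _).comp lim
  simp only [integral_zero, Complex.zero_re] at lim2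
  have : (1 / 8 : ℝ) ≤ 0 := ge_of_tendsto' lim2 fun R => by
    have hR : (0 : ℝ) < (R + 1 : ℕ) := by positivity
    have h1 := low (R + 1) (Nat.succ_pos R)
    rw [← hω _ (hΨs _) (hΨc _ hR)] at h1
    simpa only [hF _ hR, Function.comp_apply] using h1
  norm_num at this

end H53.Df
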