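import Pool.Agent.H53.DfA

/-! Existence of the diffraction measure. -/

namespace H53.Df

open MeasureTheory Set Real Filter Topology
open scoped FourierTransform ENNReal NNReal SchwartzMap BoundedContinuousFunction

variable {g : ℝ} {x : ℤ → ℝ}

lemma four_exp (s : ℝ) : 𝓕 (fun t : ℝ => ((Real.exp (-(2 * π * |t|)) : ℝ) : ℂ)) s =
    ((1 / (π * (1 + s ^ 2)) : ℝ) : ℂ) := by
  have hπ := Real.pi_pos
  set a : ℂ := (2 * π : ℝ) * (1 - s * Complex.I) with ha
  set b : ℂ := (2 * π : ℝ) * (-1 - s * Complex.I) with hb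
  have ha0 : 0 < a.re := by rw [ha, Complex.re_ofReal_mul]; simp; positivity
  have hb0 : b.re < 0 := by rw [hb, Complex.re_ofReal_mul]; simp; positivity
  set F : ℝ → ℂ := fun v => Complex.exp ((-2 * π * v * s : ℝ) * Complex.I) •
    ((Real.exp (-(2 * π * |v|)) : ℝ) : ℂ) with hF
  have e1 : EqOn (fun v : ℝ => Complex.exp (a * v)) F (Iic 0) := fun v hv => by
    simp only [hF, smul_eq_mul, abs_of_nonpos (mem_Iic.1 hv), Complex.ofReal_exp, ← Complex.exp_add,
      ha]
    congr 1; push_cast; ring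
  have e2 : EqOn (fun v : ℝ => Complex.exp (b * v)) F (Ioi 0) := fun v hv => by
    simp only [hF, smul_eq_mul, abs_of_pos (mem_Ioi.1 hv), Complex.ofReal_exp, ← Complex.exp_add,
      hb]
    congr 1; push_cast; ring
  rw [Real.fourier_real_eq_integral_exp_smul, ← intervalIntegral.integral_Iic_add_Ioi
    ((integrableOn_exp_mul_complex_Iic ha0 0).congr_fun e1 measurableSet_Iic)
    ((integrableOn_exp_mul_complex_Ioi hb0 0).congr_fun e2 measurableSet_Ioi),
    ← setIntegral_congr_fun measurableSet_Iic e1, ← setIntegral_congr_fun measurableSet_Ioi e2,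
    integral_exp_mul_complex_Iic ha0, integral_exp_mul_complex_Ioi hb0]
  have h1 : (1 - s * Complex.I) ≠ 0 := fun h => by simpa using congrArg Complex.re h
  have h2 : (-1 - s * Complex.I) ≠ 0 := fun h => by simpa using congrArg Complex.re h
  have h3 : (1 + (s : ℂ) ^ 2) ≠ 0 := by exact_mod_cast (by positivity : (1 + s ^ 2 : ℝ) ≠ 0)
  have h4 : (π : ℂ) ≠ 0 := by exact_mod_cast hπ.ne'
  simp only [ha, hb]
  push_cast
  simp only [mul_zero, Complex.exp_zero]
  field_simp
  linear_combination (-2 * (s : ℂ) ^ 2) * Complex.I_sq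

lemma int_cauchy : Integrable (fun s : ℝ => ((1 / (π * (1 + s ^ 2)) : ℝ) : ℂ)) := by
  refine Integrable.ofReal ?_
  refine (integrable_inv_one_add_sq.const_mul (1 / π)).congr (ae_of_all _ fun s => ?_)
  show 1 / π * (1 + s ^ 2)⁻¹ = 1 / (π * (1 + s ^ 2))
  field_simp

lemma four_cauchy (z : ℝ) : 𝓕 (fun s : ℝ => ((1 / (π * (1 + s ^ 2)) : ℝ) : ℂ)) z =
    ((Real.exp (-(2 * π * |z|)) : ℝ) : ℂ) := by
  have hπ := Real.pi_pos
  have hi : Integrable (fun t : ℝ => ((Real.exp (-(2 * π * |t|)) : ℝ) : ℂ)) := by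
    refine Integrable.ofReal ?_
    rw [← integrableOn_univ, ← Iic_union_Ioi (a := (0 : ℝ))]
    refine IntegrableOn.union ?_ ?_
    · refine (integrableOn_exp_mul_Iic (a := 2 * π) (by positivity) 0).congr_fun (fun v hv => ?_)
        measurableSet_Iic
      simp only [abs_of_nonpos (mem_Iic.1 hv)]; congr 1; ring
    · refine (integrableOn_exp_mul_Ioi (a := -(2 * π)) (by linarith) 0).congr_fun (fun v hv => ?_)
        measurableSet_Ioi
      simp only [abs_of_pos (mem_Ioi.1 hv)]; congr 1; ring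
  have h := Continuous.fourierInv_fourier_eq (by fun_prop) hi
    (by rw [funext four_exp]; exact int_cauchy)
  rw [funext four_exp] at h
  have := congrFun h (-z)
  rw [Real.fourierInv_eq_fourier_neg, neg_neg, abs_neg] at this
  exact this

/-- exponential sum -/
noncomputable def S (I : Finset ℤ) (x : ℤ → ℝ) (s : ℝ) : ℂ :=
  ∑ n ∈ I, Complex.exp ((-2 * π * s * x n : ℝ) * Complex.I)

lemma S_cont (I : Finset ℤ) (x : ℤ → ℝ) : Continuous (S I x) := by unfold S; fun_prop

lemma S_le (I : Finset ℤ) (x : ℤ → ℝ) (s : ℝ) : ‖S I x s‖ ≤ I.card := by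
  refine (norm_sum_le _ _).trans (le_of_eq ?_)
  simp only [Complex.norm_exp_ofReal_mul_I]; simp

lemma key (I : Finset ℤ) (x : ℤ → ℝ) {h : ℝ → ℂ} (hh : Integrable h) :
    ∫ s, ((‖S I x s‖ ^ 2 : ℝ) : ℂ) * h s = ∑ n ∈ I, ∑ m ∈ I, 𝓕 h (x n - x m) := by
  have e : ∀ s, ((‖S I x s‖ ^ 2 : ℝ) : ℂ) * h s = ∑ n ∈ I, ∑ m ∈ I,
      Complex.exp ((-2 * π * s * (x n - x m) : ℝ) * Complex.I) • h s := by
    intro s
    rw [← Complex.normSq_eq_norm_sq, ← Complex.mul_conj, S, map_sum, Finset.sum_mul_sum,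
      Finset.sum_mul]
    refine Finset.sum_congr rfl fun n _ => ?_
    rw [Finset.sum_mul]
    refine Finset.sum_congr rfl fun m _ => ?_
    rw [← Complex.exp_conj, ← Complex.exp_add, smul_eq_mul]
    congr 2
    simp only [map_mul, Complex.conj_ofReal, Complex.conj_I]
    push_cast; ring
  have hi : ∀ z : ℝ, Integrable fun s : ℝ =>
      Complex.exp ((-2 * π * s * z : ℝ) * Complex.I) • h s := fun z =>
    hh.bdd_mul (c := 1) (by fun_prop) (ae_of_all _ fun s => (Complex.norm_exp_ofReal_mul_I _).le)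
  simp_rw [e]
  rw [integral_finset_sum _ fun n _ => integrable_finset_sum _ fun m _ => hi _]
  refine Finset.sum_congr rfl fun n _ => ?_
  rw [integral_finset_sum _ fun m _ => hi _]
  exact Finset.sum_congr rfl fun m _ => (Real.fourier_real_eq_integral_exp_smul _ _).symm

lemma Gap.card_idx (h : Gap g x) {T : ℝ} (hT : 1 ≤ T) :
    ((idx g x T).card : ℝ) ≤ T * (2 / g + 3) := by
  have hg := h.pos
  have h0 : 0 ≤ ⌈T / g⌉ := Int.ceil_nonneg (by positivity)
  have h1 : ((idx g x T).card : ℤ) ≤ 2 * ⌈T / g⌉ + 1 := by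
    have := Finset.card_filter_le (Finset.Icc (-⌈T / g⌉) ⌈T / g⌉) fun n => |x n| ≤ T
    rw [Int.card_Icc] at this
    unfold idx
    omega
  have h2 : ((idx g x T).card : ℝ) ≤ 2 * ⌈T / g⌉ + 1 := by exact_mod_cast h1
  have h3 := (Int.ceil_lt_add_one (T / g)).le
  have h4 : T * (2 / g + 3) = 2 * (T / g) + 3 * T := by ring
  linarith

lemma Gap.unif (h : Gap g x) : ∃ C : ℝ, 0 ≤ C ∧ ∀ T, 1 ≤ T →
    ∫ s, 1 / (2 * T) * ‖S (idx g x T) x s‖ ^ 2 * (1 + s ^ 2)⁻¹ ≤ C := by
  have hπ := Real.pi_pos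
  have hg := h.pos
  have hsum : Summable fun k : ℤ => Real.exp (-(2 * π * g * |(k : ℝ)|)) := by
    have : Summable fun k : ℕ => Real.exp (-(2 * π * g * k)) := by
      have := Real.summable_exp_nat_mul_iff.2 (show -(2 * π * g) < 0 by
        rw [neg_lt_zero]; positivity)
      exact this.congr fun k => by congr 1; ring
    refine Summable.of_nat_of_neg ?_ ?_ <;> simpa using this
  set A := ∑' k : ℤ, Real.exp (-(2 * π * g * |(k : ℝ)|)) with hA
  have hA0 : 0 ≤ A := tsum_nonneg fun k => (Real.exp_pos _).le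
  refine ⟨π * (2 / g + 3) * A / 2, by positivity, fun T hT => ?_⟩
  have h1 := key (idx g x T) x int_cauchy
  simp_rw [four_cauchy, ← Complex.ofReal_mul, ← Complex.ofReal_sum] at h1
  rw [integral_complex_ofReal, Complex.ofReal_inj] at h1
  have h2 : ∑ n ∈ idx g x T, ∑ m ∈ idx g x T, Real.exp (-(2 * π * |x n - x m|)) ≤
      ∑ n ∈ idx g x T, A := by
    refine Finset.sum_le_sum fun n _ => ?_
    have hs2 := (Equiv.subLeft n).summable_iff.2 hsum
    rw [hA, ← (Equiv.subLeft n).tsum_eq]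
    refine le_trans (Finset.sum_le_sum fun m _ => ?_)
      (hs2.sum_le_tsum _ fun k _ => (Real.exp_pos _).le)
    simp only [Function.comp_apply, Equiv.subLeft_apply, Int.cast_sub, Real.exp_le_exp]
    nlinarith [(h.abs n m).1]
  rw [Finset.sum_const, nsmul_eq_mul, ← h1] at h2
  have h3 : ∫ s, 1 / (2 * T) * ‖S (idx g x T) x s‖ ^ 2 * (1 + s ^ 2)⁻¹ =
      π / (2 * T) * ∫ s, ‖S (idx g x T) x s‖ ^ 2 * (1 / (π * (1 + s ^ 2))) := by
    rw [← integral_const_mul]
    congr 1 with s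
    field_simp
  rw [h3]
  calc _ ≤ π / (2 * T) * (T * (2 / g + 3) * A) := by
        gcongr
        exact h2.trans (mul_le_mul_of_nonneg_right (h.card_idx hT) hA0)
    _ = _ := by field_simp

lemma Gap.exists_FT (h : Gap g x) {η : Measure ℝ} (hη : IsAutocorr (range x) η) :
    ∃ ω, IsFT η ω := by
  obtain ⟨i1, hη⟩ := hη
  obtain ⟨C, hC0, hC⟩ := h.unif
  set d : ℕ → ℝ → ℝ := fun k s => 1 / (2 * (k + 1 : ℝ)) * ‖S (idx g x (k + 1)) x s‖ ^ 2 with hd
  have hd0 : ∀ k s, 0 ≤ d k s := fun k s => by positivity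
  have hdc : ∀ k, Continuous (d k) := fun k => continuous_const.mul ((S_cont _ _).norm.pow 2)
  have hw : Continuous fun s : ℝ => (1 + s ^ 2)⁻¹ :=
    Continuous.inv₀ (by fun_prop) fun s => by positivity
  have hdi : ∀ k, Integrable fun s => d k s * (1 + s ^ 2)⁻¹ := fun k =>
    integrable_inv_one_add_sq.bdd_mul (c := 1 / (2 * (k + 1 : ℝ)) * ((idx g x (k + 1)).card) ^ 2)
      (hdc k).aestronglyMeasurable (ae_of_all _ fun s => by
        rw [Real.norm_eq_abs, abs_of_nonneg (hd0 k s)]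
        simp only [hd]; gcongr; exact S_le _ _ _)
  set m : ℕ → Measure ℝ := fun k => volume.withDensity fun s =>
    ENNReal.ofReal (d k s * (1 + s ^ 2)⁻¹ * (1 + s ^ 2)⁻¹) with hm
  have hb : ∀ k (A : Set ℝ) (c : ℝ), MeasurableSet A → 0 ≤ c → (∀ s ∈ A, (1 + s ^ 2)⁻¹ ≤ c) →
      m k A ≤ ENNReal.ofReal (C * c) := by
    intro k A c hA hc hs
    rw [hm, withDensity_apply _ hA]
    calc _ ≤ ∫⁻ s in A, ENNReal.ofReal (d k s * (1 + s ^ 2)⁻¹) * ENNReal.ofReal c := by
          refine setLIntegral_mono' hA fun s hs' => ?_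
          have h0 : 0 ≤ d k s * (1 + s ^ 2)⁻¹ := mul_nonneg (hd0 k s) (by positivity)
          rw [← ENNReal.ofReal_mul h0]
          exact ENNReal.ofReal_le_ofReal (mul_le_mul_of_nonneg_left (hs s hs') h0)
      _ ≤ _ := setLIntegral_le_lintegral _ _
      _ ≤ _ := by
          rw [lintegral_mul_const' _ _ ENNReal.ofReal_ne_top, ENNReal.ofReal_mul hC0,
            ← ofReal_integral_eq_lintegral_ofReal (hdi k)
              (ae_of_all _ fun s => mul_nonneg (hd0 k s) (by positivity))]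
          gcongr
          exact hC (k + 1) (by linarith [(Nat.cast_nonneg k : (0 : ℝ) ≤ k)])
  have hb1 : ∀ k, m k univ ≤ ENNReal.ofReal (C * 1) := fun k =>
    hb k univ 1 MeasurableSet.univ zero_le_one fun s _ =>
      inv_le_one_of_one_le₀ (by nlinarith [sq_nonneg s])
  let ν : ℕ → FiniteMeasure ℝ := fun k => ⟨m k, ⟨(hb1 k).trans_lt ENNReal.ofReal_lt_top⟩⟩
  have hK := isCompact_setOfPred_finiteMeasure_mass_le_compl_isCompact_le (E := ℝ)
    (u := fun n : ℕ => (C * (1 / ((n : ℝ) + 1))).toNNReal) (K := fun n : ℕ => Icc (-(n : ℝ)) n)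
    (C * 1).toNNReal (by
      have := (continuous_real_toNNReal.tendsto _).comp
        (tendsto_one_div_add_atTop_nhds_zero_nat.const_mul C)
      simpa [Function.comp_def] using this) (fun n => isCompact_Icc) (Or.inl inferInstance)
  obtain ⟨μ, -, hμ⟩ := hK.ultrafilter_le_nhds ((hyperfilter ℕ).map ν) (by
    rw [Ultrafilter.coe_map, le_principal_iff, mem_map]
    refine univ_mem' fun k => ⟨?_, fun n => ?_⟩
    · rw [← ENNReal.coe_le_coe, FiniteMeasure.ennreal_mass]; exact hb1 k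
    · rw [← ENNReal.coe_le_coe, FiniteMeasure.ennreal_coeFn_eq_coeFn_toMeasure]
      refine hb k _ _ measurableSet_Icc.compl (by positivity) fun s hs => ?_
      rw [one_div]
      have h1 : (n : ℝ) < |s| := by
        by_contra h2; exact hs (abs_le.1 (not_lt.1 h2))
      have h2 : (n : ℝ) ^ 2 ≤ s ^ 2 := by rw [← sq_abs s]; gcongr
      have h3 : (n : ℝ) ≤ n ^ 2 := by exact_mod_cast Nat.le_self_pow two_ne_zero n
      exact inv_anti₀ (by positivity) (by linarith))
  have hμ' : Tendsto ν (hyperfilter ℕ) (𝓝 μ) := hμ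
  rw [FiniteMeasure.tendsto_iff_forall_integral_rclike_tendsto ℂ] at hμ'
  have hle : ∀ s : ℝ, (1 + s ^ 2) ^ 2 ≤ (1 + |s|) ^ 4 := fun s => by
    have : 1 + s ^ 2 ≤ (1 + |s|) ^ 2 := by rw [← sq_abs s]; nlinarith [abs_nonneg s]
    calc _ ≤ ((1 + |s|) ^ 2) ^ 2 := by gcongr
      _ = _ := by ring
  have hmw : Measurable fun s : ℝ => ENNReal.ofReal ((1 + s ^ 2) ^ 2) := by fun_prop
  refine ⟨(μ : Measure ℝ).withDensity fun s => ENNReal.ofReal ((1 + s ^ 2) ^ 2),
    IsLocallyFiniteMeasure.withDensity_ofReal (by fun_prop), ⟨4, ?_⟩, fun Ψ hΨ hΨc => ?_⟩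
  · rw [integrable_withDensity_iff_integrable_smul' hmw (ae_of_all _ fun s => ENNReal.ofReal_lt_top)]
    refine Integrable.of_bound (by fun_prop) 1 (ae_of_all _ fun s => ?_)
    rw [ENNReal.toReal_ofReal (by positivity), Real.rpow_neg (by positivity), Real.rpow_natCast,
      smul_eq_mul, Real.norm_eq_abs, abs_of_nonneg (by positivity), ← div_eq_mul_inv,
      div_le_one (by positivity)]
    exact hle s
  let P : 𝓢(ℝ, ℂ) := hΨc.toSchwartzMap hΨ
  let ψ : 𝓢(ℝ, ℂ) := 𝓕⁻ P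
  have hψ : 𝓕⁻ Ψ = ψ := (SchwartzMap.fourierInv_coe P).symm
  have hψ' : 𝓕 (ψ : ℝ → ℂ) = Ψ := by
    rw [← SchwartzMap.fourier_coe, FourierTransform.fourier_fourierInv_eq]; rfl
  obtain ⟨B, hB0, hB⟩ := schw_bound ψ 4
  let G : ℝ →ᵇ ℂ := BoundedContinuousFunction.ofNormedAddCommGroup
    (fun s => ((1 + s ^ 2) ^ 2 : ℝ) • ψ s) (by fun_prop) B fun s => by
      rw [norm_smul, Real.norm_eq_abs, abs_of_nonneg (by positivity)]
      exact le_trans (by gcongr; exact hle s) (hB s)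
  have h1 := hμ' G
  have h2 : ∀ k : ℕ, ∫ s, G s ∂(ν k : Measure ℝ) =
      (ac (range x) (k + 1) fun z => (Ψ z).re : ℝ) +
        (ac (range x) (k + 1) fun z => (Ψ z).im : ℝ) * Complex.I := by
    intro k
    have h3 := key (idx g x (k + 1)) x ψ.integrable
    rw [hψ'] at h3
    show ∫ s, G s ∂(volume.withDensity fun s =>
      ENNReal.ofReal (d k s * (1 + s ^ 2)⁻¹ * (1 + s ^ 2)⁻¹)) = _
    have hm2 : Measurable fun s => ENNReal.ofReal (d k s * (1 + s ^ 2)⁻¹ * (1 + s ^ 2)⁻¹) :=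
      (((hdc k).mul hw).mul hw).measurable.ennreal_ofReal
    rw [integral_withDensity_eq_integral_toReal_smul hm2
      (ae_of_all _ fun s => ENNReal.ofReal_lt_top), h.ac_eq, h.ac_eq]
    have h4 : ∀ s : ℝ, (ENNReal.ofReal (d k s * (1 + s ^ 2)⁻¹ * (1 + s ^ 2)⁻¹)).toReal • G s =
        ((1 / (2 * (k + 1 : ℝ)) : ℝ) : ℂ) * (((‖S (idx g x (k + 1)) x s‖ ^ 2 : ℝ) : ℂ) * ψ s) := by
      intro s
      rw [ENNReal.toReal_ofReal (mul_nonneg (mul_nonneg (hd0 k s) (by positivity)) (by positivity))]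
      show _ • (((1 + s ^ 2) ^ 2 : ℝ) • ψ s) = _
      rw [smul_smul, ← mul_assoc, ← Complex.ofReal_mul, Complex.real_smul]
      congr 2
      simp only [hd]; field_simp
    simp_rw [h4]
    rw [integral_const_mul, h3, ← Complex.re_add_im (∑ n ∈ _, ∑ m ∈ _, Ψ (x n - x m))]
    simp only [Complex.re_sum, Complex.im_sum]
    push_cast; ring
  have hT : Tendsto (fun k : ℕ => (k + 1 : ℝ)) (hyperfilter ℕ) atTop :=
    (tendsto_atTop_add_const_right _ _ tendsto_natCast_atTop_atTop).mono_left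
      Nat.hyperfilter_le_atTop
  have hre := (hη (fun z => (Ψ z).re) (Complex.continuous_re.comp hΨ.continuous)
    (hΨc.comp_left (g := Complex.re) (by simp))).comp hT
  have him := (hη (fun z => (Ψ z).im) (Complex.continuous_im.comp hΨ.continuous)
    (hΨc.comp_left (g := Complex.im) (by simp))).comp hT
  have h5 := ((Complex.continuous_ofReal.tendsto _).comp hre).add
    (((Complex.continuous_ofReal.tendsto _).comp him).mul_const Complex.I)
  simp_rw [h2] at h1
  have h6 := tendsto_nhds_unique h1 h5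
  rw [hψ, integral_withDensity_eq_integral_toReal_smul hmw
    (ae_of_all _ fun s => ENNReal.ofReal_lt_top),
    ← integral_re_add_im (hΨ.continuous.integrable_of_hasCompactSupport hΨc)]
  refine Eq.trans ?_ h6
  congr 1 with s
  rw [ENNReal.toReal_ofReal (by positivity)]; rfl

end H53.Df
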