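import Pool.Agent.H53.DfC

/-! Existence of the autocorrelation for sequences coded by an irrational rotation. -/

namespace H53.Df

open MeasureTheory Set Real Filter Topology
open scoped ENNReal NNReal CompactlySupported

variable {g : ℝ} {x : ℤ → ℝ}

/-- two-sided averages converge -/
def TS (u : ℤ → ℝ) (L : ℝ) : Prop := Av (fun n => u n) L ∧ Av (fun n => u (Int.negSucc n)) L

lemma Nice.ts {F : UnitAddCircle → ℝ} (hF : Nice F) {γ : ℝ} (hγ : Irrational γ) (c : ℝ) :
    TS (fun n => F ((c + n * γ : ℝ) : UnitAddCircle)) (∫ y, F y) := by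
  refine ⟨by simpa using hF.weyl hγ c, ?_⟩
  convert hF.weyl hγ.neg (c - γ) using 4 with n
  rw [Int.cast_negSucc]; push_cast; ring

lemma Gap.two (h : Gap g x) {a : ℝ} (ha : TS (fun n => x (n + 1) - x n) a) :
    ∀ u L, TS u L → Tendsto (fun T => (∑ n ∈ idx g x T, u n) / (2 * T)) atTop (𝓝 (L / a)) := by
  have hg := h.pos
  have mono : Monotone x := monotone_int_of_le_succ fun n => by linarith [h.lo n]
  have s1 : ∀ N : ℕ, ∑ n ∈ Finset.range N, (x ((n : ℤ) + 1) - x n) = x N := fun N => by
    have := Finset.sum_range_sub (fun n : ℕ => x n) N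
    simpa [h.zero] using this
  have s2 : ∀ N : ℕ, ∑ n ∈ Finset.range N, (x (Int.negSucc n + 1) - x (Int.negSucc n)) =
      - x (-N) := fun N => by
    have := Finset.sum_range_sub (fun n : ℕ => - x (-n)) N
    simp only [Nat.cast_zero, neg_zero, h.zero, sub_zero] at this
    rw [← this]
    refine Finset.sum_congr rfl fun n _ => ?_
    rw [Int.negSucc_eq]; push_cast
    rw [show -((n : ℤ) + 1) + 1 = -n by ring]; ring
  have l1 : Tendsto (fun N : ℕ => x N / N) atTop (𝓝 a) := by simpa only [Av, s1] using ha.1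
  have l2 : Tendsto (fun N : ℕ => - x (-N) / N) atTop (𝓝 a) := by simpa only [Av, s2] using ha.2
  have a0 : 0 < a := lt_of_lt_of_le hg (ge_of_tendsto l1 (by
    filter_upwards [eventually_gt_atTop 0] with N hN
    have := (h.nat 0 N).1
    rw [le_div_iff₀ (by exact_mod_cast hN)]
    simpa [h.zero] using this))
  have l3 : Tendsto (fun N : ℕ => - x (Int.negSucc N) / N) atTop (𝓝 a) := by
    have l4 := l2.add tendsto_one_div_atTop_nhds_zero_nat
    rw [add_zero] at l4
    refine tendsto_of_tendsto_of_tendsto_of_le_of_le l2 l4 (fun N => ?_) fun N => ?_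
    · simp only
      gcongr
      exact mono (by rw [Int.negSucc_eq]; omega)
    · simp only [← add_div]
      gcongr
      have := h.hi (Int.negSucc N)
      rw [show Int.negSucc N + 1 = -N by rw [Int.negSucc_eq]; ring] at this
      linarith
  obtain ⟨P, hP, hPl⟩ := one_side (y := fun n => x n) (fun n m hnm => mono (by exact_mod_cast hnm))
    (fun n => by simpa using h.hi n) a0 l1
  obtain ⟨Q, hQ, hQl⟩ := one_side (y := fun n => - x (Int.negSucc n))
    (fun n m hnm => neg_le_neg (mono (by simp only [Int.negSucc_eq]; omega)))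
    (fun n => by
      have := h.hi (Int.negSucc (n + 1))
      rw [show Int.negSucc (n + 1) + 1 = Int.negSucc n by simp only [Int.negSucc_eq]; omega] at this
      linarith) a0 l3
  intro u L hu
  have := ((hPl _ _ hu.1).add (hQl _ _ hu.2)).div_const 2
  rw [add_self_div_two] at this
  refine this.congr fun T => ?_
  have e : idx g x T = (Finset.range (P T)).image (fun n : ℕ => (n : ℤ)) ∪
      (Finset.range (Q T)).image Int.negSucc := by
    ext n
    rw [h.mem_idx]
    cases n with
    | ofNat n =>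
      have : 0 ≤ x n := h.zero ▸ mono (Int.natCast_nonneg n)
      simp [abs_of_nonneg this, ← hP]
    | negSucc n =>
      have : x (Int.negSucc n) ≤ 0 := h.zero ▸ mono (Int.negSucc_lt_zero n).le
      simp [abs_of_nonpos this, ← hQ]
  rw [e, Finset.sum_union (by simp [Finset.disjoint_left]),
    Finset.sum_image fun a _ b _ e => by exact_mod_cast e,
    Finset.sum_image fun a _ b _ e => Int.negSucc.inj e]
  ring

lemma Gap.lim (h : Gap g x) {γ c : ℝ} (hγ : Irrational γ)
    (hx : ∀ k : ℤ, ∃ G, Nice G ∧ ∀ n : ℤ, x (n + k) - x n = G ((c + n * γ : ℝ) : UnitAddCircle))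
    (φ : C_c(ℝ, ℝ)) : ∃ L, Tendsto (fun T => ac (range x) T φ) atTop (𝓝 L) := by
  choose G hG hGx using hx
  have hg := h.pos
  have two := h.two (a := ∫ y, G 1 y) (by simpa only [hGx] using (hG 1).ts hγ c)
  obtain ⟨R, hR0, hR⟩ := φ.hasCompactSupport.exists_pos_le_norm
  obtain ⟨M, hM⟩ := φ.continuous.bounded_above_of_compact_support φ.hasCompactSupport
  have hM0 : 0 ≤ M := (norm_nonneg _).trans (hM 0)
  obtain ⟨K, hK⟩ := exists_nat_ge (R / g)
  rw [div_le_iff₀ hg] at hK
  set J := Finset.Icc (-(K : ℤ)) K with hJ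
  have hN : Nice fun y => ∑ k ∈ J, φ (-(G k y)) :=
    Nice.sum J fun k => (hG k).comp (φ := fun z => φ (-z)) (by fun_prop)
  have l1 := two _ _ (hN.ts hγ c)
  have l2 := two (fun _ => 1) 1 (by
    have : Av (fun _ => 1) 1 := tendsto_const_nhds.congr' (by
      filter_upwards [eventually_gt_atTop 0] with N hN
      have : (N : ℝ) ≠ 0 := by exact_mod_cast hN.ne'
      simp [this])
    exact ⟨this, this⟩)
  simp only [Finset.sum_const, nsmul_eq_mul, mul_one] at l2
  have l3 : Tendsto (fun T : ℝ => ((idx g x (T - K)).card : ℝ) / (2 * T)) atTop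
      (𝓝 (1 / ∫ y, G 1 y)) := by
    have l4 : Tendsto (fun T : ℝ => 1 - K / T) atTop (𝓝 (1 - 0)) :=
      tendsto_const_nhds.sub (tendsto_const_nhds.div_atTop tendsto_id)
    have := (l2.comp (tendsto_atTop_add_const_right _ (-(K : ℝ)) tendsto_id)).mul l4
    rw [sub_zero, mul_one] at this
    refine this.congr' ?_
    filter_upwards [eventually_gt_atTop (K : ℝ)] with T hT
    have h1 : T - K ≠ 0 := by linarith
    have h2 : T ≠ 0 := by linarith [(Nat.cast_nonneg K : (0 : ℝ) ≤ K)]
    simp only [Function.comp_apply, id, ← sub_eq_add_neg]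
    field_simp
  have l5 := (l2.sub l3).const_mul (J.card * M)
  rw [sub_self, mul_zero] at l5
  refine ⟨_, l1.congr_dist (squeeze_zero' (Eventually.of_forall fun T => dist_nonneg) ?_ l5)⟩
  filter_upwards [eventually_gt_atTop 0] with T hT
  have hsub : idx g x (T - K) ⊆ idx g x T := fun n hn => by
    rw [h.mem_idx] at hn ⊢; linarith [(Nat.cast_nonneg K : (0 : ℝ) ≤ K)]
  have e1 : ∀ n, ∑ m ∈ idx g x T, φ (x n - x m) =
      ∑ k ∈ J, if n + k ∈ idx g x T then φ (x n - x (n + k)) else 0 := by
    intro n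
    rw [← Finset.sum_filter]
    symm
    refine Finset.sum_bij_ne_zero (fun k _ _ => n + k) (fun k hk _ => (Finset.mem_filter.1 hk).2)
      (fun a _ _ b _ _ e => add_left_cancel e) (fun m hm hm0 => ?_) fun _ _ _ => rfl
    have h1 : |x n - x m| < R := by
      by_contra h2; exact hm0 (hR _ (not_lt.1 h2))
    have h2 : |(n : ℝ) - m| ≤ K := by nlinarith [(h.abs n m).1]
    have h3 : |n - m| ≤ K := by exact_mod_cast h2
    rw [abs_le] at h3
    refine ⟨m - n, ?_, by simpa using hm0, by ring⟩
    simp only [Finset.mem_filter, hJ, Finset.mem_Icc, add_sub_cancel, hm, and_true]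
    omega
  rw [h.ac_eq, one_div_mul_eq_div, Real.dist_eq, ← sub_div, ← sub_div, abs_div,
    abs_of_pos (by linarith : 0 < 2 * T), ← mul_div_assoc, ← Finset.sum_sub_distrib]
  gcongr
  rw [← Finset.sum_sdiff hsub, Finset.sum_eq_zero (s := idx g x (T - K)), add_zero,
    ← Nat.cast_sub (Finset.card_le_card hsub), ← Finset.card_sdiff_of_subset hsub, mul_comm,
    ← nsmul_eq_mul]
  · refine (Finset.abs_sum_le_sum_abs _ _).trans (Finset.sum_le_card_nsmul _ _ _ fun n _ => ?_)
    rw [e1, ← Finset.sum_sub_distrib, ← nsmul_eq_mul]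
    refine (Finset.abs_sum_le_sum_abs _ _).trans (Finset.sum_le_card_nsmul _ _ _ fun k _ => ?_)
    rw [← hGx, neg_sub]
    split_ifs
    · simpa using hM0
    · simpa using hM _
  · intro n hn
    rw [e1, ← Finset.sum_sub_distrib]
    refine Finset.sum_eq_zero fun k hk => ?_
    rw [← hGx, neg_sub, if_pos, sub_self]
    rw [h.mem_idx] at hn ⊢
    have h1 := (h.abs (n + k) n).2
    have h2 : |(k : ℝ)| ≤ K := by
      rw [hJ, Finset.mem_Icc, ← abs_le] at hk; exact_mod_cast hk
    have h3 := abs_add_le (x (n + k) - x n) (x n)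
    simp only [Int.cast_add, add_sub_cancel_left, sub_add_cancel] at h1 h3
    linarith

lemma Gap.exists_ac (h : Gap g x)
    (hl : ∀ φ : C_c(ℝ, ℝ), ∃ L, Tendsto (fun T => ac (range x) T φ) atTop (𝓝 L)) :
    ∃ η, IsAutocorr (range x) η := by
  choose L hL using hl
  let Λ0 : C_c(ℝ, ℝ) →ₗ[ℝ] ℝ :=
    { toFun := L
      map_add' := fun φ ψ => tendsto_nhds_unique (hL _) (((hL φ).add (hL ψ)).congr fun T => by
        simp [h.ac_eq, Finset.sum_add_distrib, mul_add])
      map_smul' := fun a φ => tendsto_nhds_unique (hL _) (((hL φ).const_mul a).congr fun T => by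
        simp only [h.ac_eq, CompactlySupportedContinuousMap.smul_apply, smul_eq_mul,
          ← Finset.mul_sum]
        ring) }
  let Λ : C_c(ℝ, ℝ) →ₚ[ℝ] ℝ := PositiveLinearMap.mk₀ Λ0 fun φ hφ =>
    ge_of_tendsto (hL φ) (by
      filter_upwards [eventually_gt_atTop 0] with T hT
      rw [h.ac_eq]
      exact mul_nonneg (by positivity)
        (Finset.sum_nonneg fun n _ => Finset.sum_nonneg fun m _ => hφ _))
  refine ⟨RealRMK.rieszMeasure Λ, inferInstance, fun φ hφ hφc => ?_⟩
  have := RealRMK.integral_rieszMeasure Λ ⟨⟨φ, hφ⟩, hφc⟩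
  exact this ▸ hL ⟨⟨φ, hφ⟩, hφc⟩

end H53.Df
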