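import Pool.Agent.H53.DfD

/-! Circle map sequences: the Kesten condition is sufficient, not necessary, for diffraction. -/

namespace Pool.Agent.H53.DfQ

open MeasureTheory Set Real Filter Topology H53.Df

/-- `p` is the staircase: `p 0 = 0`, step `e₂` if `x₀ + nγ mod 1 ∈ [0, D)`, else `e₁`. -/
def IsStair (D γ x0 : ℝ) (p : ℤ → ℤ × ℤ) : Prop :=
  p 0 = 0 ∧ ∀ n : ℤ, p (n + 1) - p n = if Int.fract (x0 + n * γ) ∈ Ico 0 D then (0, 1) else (1, 0)

/-- coordinate of the orthogonal projection on the line spanned by `(1 - D, D)` -/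
noncomputable def proj (D : ℝ) (v : ℤ × ℤ) : ℝ :=
  ((1 - D) * v.1 + D * v.2) / √((1 - D) ^ 2 + D ^ 2)

/-- `D ≡ jγ (mod 1)` for some integer `j` -/
def Kesten (D γ : ℝ) : Prop := ∃ j i : ℤ, D = j * γ + i

lemma prim {A : Type*} [AddCommGroup A] (f : ℤ → A) :
    ∃ F : ℤ → A, F 0 = 0 ∧ ∀ n, F (n + 1) - F n = f n := by
  refine ⟨fun n => match n with
    | Int.ofNat k => ∑ i ∈ Finset.range k, f i
    | Int.negSucc k => -∑ i ∈ Finset.range (k + 1), f (Int.negSucc i), rfl, fun n => ?_⟩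
  rcases n with k | (_ | k)
  · show ∑ i ∈ Finset.range (k + 1), f i - ∑ i ∈ Finset.range k, f i = f k
    simp [Finset.sum_range_succ]
  · show ∑ i ∈ Finset.range 0, f i - -∑ i ∈ Finset.range (0 + 1), f (Int.negSucc i) = _
    simp
  · show -∑ i ∈ Finset.range (k + 1), f (Int.negSucc i) -
      -∑ i ∈ Finset.range (k + 1 + 1), f (Int.negSucc i) = _
    rw [Finset.sum_range_succ _ (k + 1)]; abel

lemma const {A : Type*} {u : ℤ → A} (h : ∀ n, u (n + 1) = u n) (n : ℤ) : u n = u 0 := by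
  induction n using Int.induction_on with
  | zero => rfl
  | succ n ih => rw [h, ih]
  | pred n ih => rw [← h, sub_add_cancel, ih]

theorem main (D γ x0 : ℝ) (hD0 : 0 < D) (hD1 : D < 1) (hγ : Irrational γ) :
    (∃ p, IsStair D γ x0 p) ∧
    (∀ p, IsStair D γ x0 p →
      (∃ η ω, IsAutocorr (proj D '' range p) η ∧ IsFT η ω) ∧
      ((Kesten D γ ∨ ∃ q : ℚ, D = q) → ∀ η ω, IsAutocorr (proj D '' range p) η → IsFT η ω →
        {s | ω {s} ≠ 0}.Infinite ∧ {s | ω {s} ≠ 0}.Countable)) ∧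
    ((∃ q : ℚ, D = q) → ¬ Kesten D γ) := by
  refine ⟨prim _, fun p ⟨hp0, hp⟩ => ?_, ?_⟩
  swap
  · rintro ⟨q, hq⟩ ⟨j, i, h⟩
    by_cases hj : j = 0
    · subst hj
      have h1 : D = i := by simpa using h
      rw [h1] at hD0 hD1
      have h2 : 0 < i := by exact_mod_cast hD0
      have h3 : i < 1 := by exact_mod_cast hD1
      omega
    · exact ((hγ.intCast_mul hj).add_intCast i) ⟨q, hq ▸ h⟩
  rw [← range_comp]
  set ρ := √((1 - D) ^ 2 + D ^ 2) with hρ
  have hρ2 : ρ ^ 2 = (1 - D) ^ 2 + D ^ 2 := Real.sq_sqrt (by positivity)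
  have hρ0 : 0 < ρ := Real.sqrt_pos.2 (by positivity)
  have hρa : 1 - D ≤ ρ := Real.le_sqrt_of_sq_le (by nlinarith)
  have hρb : D ≤ ρ := Real.le_sqrt_of_sq_le (by nlinarith)
  set x := proj D ∘ p with hx
  have hstep : ∀ n : ℤ, ((p (n + 1)).1 : ℝ) = (p n).1 + (if Int.fract (x0 + n * γ) < D then 0 else 1) ∧
      ((p (n + 1)).2 : ℝ) = (p n).2 + (if Int.fract (x0 + n * γ) < D then 1 else 0) := by
    intro n
    have h := hp n
    rw [sub_eq_iff_eq_add'] at h
    rw [h]
    simp only [mem_Ico, Int.fract_nonneg, true_and]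
    split_ifs <;> simp
  let St : UnitAddCircle → ℝ := fun y =>
    if (AddCircle.equivIco 1 0 y : ℝ) < D then D / ρ else (1 - D) / ρ
  have hgap : ∀ n : ℤ, x (n + 1) - x n = St ((x0 + n * γ : ℝ) : UnitAddCircle) := by
    intro n
    simp only [hx, Function.comp_apply, proj, St, AddCircle.coe_equivIco_mk_apply, div_one, mul_one,
      (hstep n).1, (hstep n).2, ← hρ]
    split_ifs <;> ring
  have hb : ∀ y, min (D / ρ) ((1 - D) / ρ) ≤ St y ∧ St y ≤ 1 := fun y => by
    simp only [St]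
    split_ifs
    · exact ⟨min_le_left _ _, (div_le_one hρ0).2 hρb⟩
    · exact ⟨min_le_right _ _, (div_le_one hρ0).2 hρa⟩
  have hg0 : 0 < min (D / ρ) ((1 - D) / ρ) := lt_min (by positivity) (div_pos (by linarith) hρ0)
  have hG : Gap (min (D / ρ) ((1 - D) / ρ)) x :=
    ⟨hg0, by simp [hx, proj, hp0], fun n => hgap n ▸ (hb _).1, fun n => hgap n ▸ (hb _).2⟩
  have hSt : Nice St := by
    refine ⟨⟨1, fun y => abs_le.2 ⟨by linarith [(hb y).1], (hb y).2⟩⟩,
      (Set.toFinite {((0 : ℝ) : UnitAddCircle), ((D : ℝ) : UnitAddCircle)}).subset fun y hy => ?_⟩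
    by_contra h
    simp only [mem_insert_iff, mem_singleton_iff, not_or] at h
    have hc : ContinuousAt (fun y => (AddCircle.equivIco 1 0 y : ℝ)) y :=
      continuous_subtype_val.continuousAt.comp (AddCircle.continuousAt_equivIco 1 0 h.1)
    have hne : (AddCircle.equivIco 1 0 y : ℝ) ≠ D := fun e => h.2 (e ▸ AddCircle.coe_equivIco.symm)
    apply hy
    rcases hne.lt_or_gt with h1 | h1
    · refine continuousAt_const.congr (f := fun _ => D / ρ) ?_
      filter_upwards [hc.eventually_lt_const h1] with w hw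
      simp only [St, if_pos hw]
    · refine continuousAt_const.congr (f := fun _ => (1 - D) / ρ) ?_
      filter_upwards [hc.eventually_const_lt h1] with w hw
      simp only [St, if_neg hw.not_gt]
  have hxG : ∀ k : ℤ, ∃ G, Nice G ∧ ∀ n : ℤ,
      x (n + k) - x n = G ((x0 + n * γ : ℝ) : UnitAddCircle) := by
    have e : ∀ n k : ℤ, ((x0 + n * γ : ℝ) : UnitAddCircle) + ((k * γ : ℝ) : UnitAddCircle) =
        ((x0 + (n + k : ℤ) * γ : ℝ) : UnitAddCircle) := fun n k => by
      rw [← AddCircle.coe_add]; congr 1; push_cast; ring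
    intro k
    induction k using Int.induction_on with
    | zero => exact ⟨fun _ => 0, ⟨⟨0, by simp⟩, by simp [continuousAt_const]⟩, by simp⟩
    | succ k ih =>
      obtain ⟨G, h1, h2⟩ := ih
      refine ⟨_, h1.add (hSt.shift (((k : ℤ) * γ : ℝ) : UnitAddCircle)), fun n => ?_⟩
      simp only [e, ← h2, ← hgap, add_assoc]; ring
    | pred k ih =>
      obtain ⟨G, h1, h2⟩ := ih
      refine ⟨_, h1.add ((hSt.shift (((-k - 1 : ℤ) * γ : ℝ) : UnitAddCircle)).comp
        continuous_neg), fun n => ?_⟩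
      simp only [e, ← h2, ← hgap, add_assoc, sub_add_cancel]; ring
  obtain ⟨η, hη⟩ := hG.exists_ac (hG.lim hγ hxG)
  obtain ⟨ω, hω⟩ := hG.exists_FT hη
  refine ⟨⟨η, ω, hη, hω⟩, fun hK η ω hη hω => ⟨?_, ?_⟩⟩
  swap
  · haveI := hω.1
    simpa [pos_iff_ne_zero] using Measure.countable_meas_level_set_pos (μ := ω) measurable_id
  set δ : ℤ → ℝ := fun n => (p n).2 - n * D with hδ
  have hsum : ∀ n, (p n).1 = n - (p n).2 := fun n => by
    have := const (u := fun n => (((p n).1 : ℝ) + (p n).2 - n)) (fun n => by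
      simp only [(hstep n).1, (hstep n).2]; push_cast; split_ifs <;> ring) n
    simp only [hp0, Prod.fst_zero, Prod.snd_zero, Int.cast_zero, add_zero, sub_zero] at this
    have h : ((p n).1 : ℝ) = n - (p n).2 := by linarith
    exact_mod_cast h
  have H : ∀ Q : ℕ, ∃ (q : ℕ) (k : ℤ), Q ≤ q ∧ |k - q * D| ≤ 1 ∧
      ∀ n m, |(k - q * D) * (δ n - δ m)| ≤ 1 / 16 := by
    intro Q
    rcases hK with ⟨j, i, hj⟩ | ⟨r, hr⟩
    · obtain ⟨F, hF0, hF⟩ := prim fun n : ℤ => Int.fract (x0 + n * γ)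
      have hF2 : Gap (1 / 2) fun n => (F n + n) / 2 := by
        refine ⟨by norm_num, by simp [hF0], fun n => ?_, fun n => ?_⟩ <;> push_cast <;>
          linarith [hF n, Int.fract_nonneg (x0 + n * γ), Int.fract_lt_one (x0 + n * γ)]
      have hF3 : ∀ n, |F (n - j) - F n| ≤ 3 * |(j : ℝ)| := fun n => by
        have h1 := (hF2.abs (n - j) n).2
        simp only [Int.cast_sub, sub_sub_cancel_left, abs_neg] at h1
        rw [abs_le] at h1 ⊢
        constructor <;> linarith [h1.1, h1.2, le_abs_self (j : ℝ), neg_abs_le (j : ℝ)]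
      have hc := const (u := fun n => δ n - (F (n - j) - F n)) fun n => by
        have h1 := hF (n - j)
        have h2 : Int.fract (x0 + (n - j : ℤ) * γ) = Int.fract (x0 + n * γ) - D +
            (if Int.fract (x0 + n * γ) < D then 1 else 0) := by
          rw [Int.fract_eq_iff]
          have h3 := Int.fract_nonneg (x0 + n * γ)
          have h4 := Int.fract_lt_one (x0 + n * γ)
          split_ifs with h5
          · refine ⟨by linarith, by linarith, ⌊x0 + n * γ⌋ + i - 1, ?_⟩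
            rw [Int.fract]; push_cast; linarith
          · refine ⟨by linarith, by linarith, ⌊x0 + n * γ⌋ + i, ?_⟩
            rw [Int.fract]; push_cast; linarith
        rw [show n - j + 1 = n + 1 - j by ring] at h1
        simp only [hδ, (hstep n).2]
        push_cast
        linarith [hF n]
      have hB : ∀ n m, |δ n - δ m| ≤ 6 * |(j : ℝ)| := fun n m => by
        have h1 := hF3 n
        have h2 := hF3 m
        have h3 := hc n
        have h4 := hc m
        rw [abs_le] at h1 h2 ⊢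
        constructor <;> linarith [h1.1, h1.2, h2.1, h2.2]
      obtain ⟨N, hN⟩ := exists_nat_ge (96 * |(j : ℝ)|)
      obtain ⟨q, hq0, -, hq⟩ := Real.exists_nat_abs_mul_sub_round_le ((Q + 1 : ℕ) * D)
        (Nat.succ_pos N)
      rw [abs_sub_comm, ← mul_assoc, ← Nat.cast_mul] at hq
      have hN0 : (0 : ℝ) ≤ N := Nat.cast_nonneg N
      refine ⟨q * (Q + 1), _, by nlinarith, hq.trans ?_, fun n m => ?_⟩
      · rw [div_le_one (by positivity)]; push_cast; linarith
      · rw [abs_mul]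
        refine (mul_le_mul hq (hB n m) (abs_nonneg _) (by positivity)).trans ?_
        rw [one_div_mul_eq_div, div_le_iff₀ (by positivity)]
        push_cast; linarith
    · have : ((r.num * Q : ℤ) : ℝ) - (r.den * Q : ℕ) * D = 0 := by
        have h1 : (r.den : ℝ) ≠ 0 := by exact_mod_cast r.den_nz
        rw [hr, Rat.cast_def]; push_cast; field_simp; ring
      exact ⟨r.den * Q, r.num * Q, Nat.le_mul_of_pos_left _ r.pos, by rw [this]; simp,
        fun n m => by rw [this]; simp⟩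
  refine Set.infinite_of_forall_exists_gt fun a => ?_
  obtain ⟨Q, hQ⟩ := exists_nat_gt (2 * a + 4)
  obtain ⟨q, k, hq, he, hs⟩ := H Q
  have hq' : (Q : ℝ) ≤ q := by exact_mod_cast hq
  have hρh : 1 / 2 ≤ ρ := by linarith
  have hρ3 : 1 / 2 ≤ ρ ^ 2 := by nlinarith [sq_nonneg (1 - 2 * D)]
  refine ⟨((q - k) * (1 - D) + k * D) / ρ, hG.atom hη hω fun n m => ?_, ?_⟩
  · have e : 2 * π * (((q - k) * (1 - D) + k * D) / ρ) * (x n - x m) =
        -(2 * π * ((k - q * D) * (δ n - δ m)) / ρ ^ 2) +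
          (((q - k) * (n - (p n).2) + k * (p n).2 - ((q - k) * (m - (p m).2) + k * (p m).2) : ℤ) :
            ℝ) * (2 * π) := by
      simp only [hx, Function.comp_apply, proj, ← hρ, hsum, hδ]
      push_cast
      field_simp
      rw [hρ2]; ring
    rw [e, cos_add_int_mul_two_pi, cos_neg]
    refine le_trans ?_ Real.one_sub_sq_div_two_le_cos
    have h1 : |2 * π * ((k - q * D) * (δ n - δ m)) / ρ ^ 2| ≤ 1 := by
      rw [abs_div, abs_mul, abs_of_pos (by positivity : 0 < 2 * π), abs_of_pos (by positivity : 0 < ρ ^ 2),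
        div_le_one (by positivity)]
      nlinarith [hs n m, Real.pi_lt_four, Real.pi_pos, abs_nonneg ((k - q * D) * (δ n - δ m))]
    have := sq_le_one_iff_abs_le_one _ |>.2 h1
    linarith
  · rw [lt_div_iff₀ hρ0]
    have e : ((q : ℝ) - k) * (1 - D) + k * D = q * ρ ^ 2 + (k - q * D) * (2 * D - 1) := by
      rw [hρ2]; ring
    have h1 : -1 ≤ (k - q * D) * (2 * D - 1) := by
      rw [abs_le] at he; nlinarith [he.1, he.2]
    have h2 : (a + 2) * ρ < q * ρ ^ 2 := by
      rw [sq, ← mul_assoc]; gcongr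
      nlinarith [(Nat.cast_nonneg q : (0 : ℝ) ≤ q)]
    rw [e]; nlinarith

end Pool.Agent.H53.DfQ
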