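import Mathlib

open MeasureTheory Set Filter Topology

namespace Pool.Agent.H53.Di

theorem zero_of_exp {E : Type*} [NormedAddCommGroup E] [NormedSpace ℝ E] {y : ℝ → E} {c : ℝ}
    (hd : ∀ x, HasDerivAt y (c • y x) x) (hL : MemLp y 2 volume) : ∀ x, y x = 0 := by
  have hh : ∀ x, HasDerivAt (fun x => Real.exp (-c * x) • y x) 0 x := by
    intro x
    have h1 : HasDerivAt (fun x => Real.exp (-c * x)) (Real.exp (-c * x) * (-c)) x := by
      simpa using ((hasDerivAt_id x).const_mul (-c)).exp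
    have : HasDerivAt (fun x => Real.exp (-c * x) • y x) _ x := h1.smul (hd x)
    refine this.congr_deriv ?_
    rw [smul_smul, ← add_smul]
    have : Real.exp (-c * x) * c + Real.exp (-c * x) * -c = 0 := by ring
    rw [this, zero_smul]
  have hc : ∀ x, Real.exp (-c * x) • y x = y 0 := by
    intro x
    have := is_const_of_deriv_eq_zero (fun x => (hh x).differentiableAt)
      (fun x => (hh x).deriv) x 0
    simpa using this
  have hy : ∀ x, y x = Real.exp (c * x) • y 0 := by
    intro x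
    rw [← hc x, smul_smul, ← Real.exp_add]
    simp
  have h0 : y 0 = 0 := by
    obtain ⟨S, hSm, hSv, hS⟩ : ∃ S : Set ℝ, MeasurableSet S ∧ volume S = ⊤ ∧
        ∀ x ∈ S, 0 ≤ c * x := by
      rcases le_total 0 c with h | h
      · exact ⟨Ici 0, measurableSet_Ici, by simp, fun x hx => mul_nonneg h hx⟩
      · exact ⟨Iic 0, measurableSet_Iic, by simp, fun x hx => mul_nonneg_of_nonpos_of_nonpos h hx⟩
    have h1 : MemLp (fun _ : ℝ => y 0) 2 (volume.restrict S) := by
      refine (hL.restrict S).of_le aestronglyMeasurable_const ?_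
      refine ae_restrict_of_forall_mem hSm fun x hx => ?_
      rw [hy x, norm_smul, Real.norm_eq_abs, abs_of_pos (Real.exp_pos _)]
      have := Real.one_le_exp (hS x hx)
      nlinarith [norm_nonneg (y 0)]
    rcases (memLp_const_iff (by norm_num) (by norm_num)).1 h1 with h | h
    · exact h
    · simp [hSv] at h
  intro x
  rw [hy x, h0, smul_zero]

theorem integrable_exp_abs {a : ℝ} (ha : 0 < a) :
    Integrable (fun x : ℝ => Real.exp (-a * |x|)) := by
  rw [← integrableOn_univ, ← Iic_union_Ioi (a := (0 : ℝ))]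
  refine IntegrableOn.union ?_ ?_
  · refine (integrableOn_exp_mul_Iic ha 0).congr_fun (fun x hx => ?_) measurableSet_Iic
    simp only [abs_of_nonpos (show x ≤ 0 from hx)]
    ring_nf
  · refine (integrableOn_exp_mul_Ioi (neg_lt_zero.2 ha) 0).congr_fun (fun x hx => ?_)
      measurableSet_Ioi
    simp only [abs_of_pos (show 0 < x from hx)]

noncomputable def G (τ k x : ℝ) : ℝ := Real.cosh (k * x) ^ 2 + τ ^ 2 * Real.sinh (k * x) ^ 2

noncomputable def P (τ k b x : ℝ) : ℝ := Real.exp (-b * Real.log (G τ k x))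

noncomputable def uu (τ k b x : ℝ) : ℝ := Real.cosh (k * x) * P τ k b x

noncomputable def vv (τ k b x : ℝ) : ℝ := -τ * Real.sinh (k * x) * P τ k b x

theorem one_le_G (τ k x : ℝ) : 1 ≤ G τ k x := by
  unfold G
  have := Real.one_le_cosh (k * x)
  nlinarith [sq_nonneg (τ * Real.sinh (k * x))]

theorem G_pos (τ k x : ℝ) : 0 < G τ k x := lt_of_lt_of_le one_pos (one_le_G τ k x)

theorem hd_cosh (k x : ℝ) :
    HasDerivAt (fun x => Real.cosh (k * x)) (Real.sinh (k * x) * k) x := by
  simpa using ((hasDerivAt_id x).const_mul k).cosh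

theorem hd_sinh (k x : ℝ) :
    HasDerivAt (fun x => Real.sinh (k * x)) (Real.cosh (k * x) * k) x := by
  simpa using ((hasDerivAt_id x).const_mul k).sinh

theorem hd_G (τ k x : ℝ) : HasDerivAt (G τ k)
    (2 * k * (1 + τ ^ 2) * Real.sinh (k * x) * Real.cosh (k * x)) x := by
  have h : HasDerivAt (G τ k) _ x :=
    ((hd_cosh k x).pow 2).add (((hd_sinh k x).pow 2).const_mul (τ ^ 2))
  refine h.congr_deriv ?_
  simp; ring

theorem hd_P (τ k b x : ℝ) : HasDerivAt (P τ k b)
    (P τ k b x * (-b * (2 * k * (1 + τ ^ 2) * Real.sinh (k * x) * Real.cosh (k * x)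
      / G τ k x))) x :=
  (((hd_G τ k x).log (G_pos τ k x).ne').const_mul (-b)).exp

theorem cont_G (τ k : ℝ) : Continuous (G τ k) :=
  continuous_iff_continuousAt.2 fun x => (hd_G τ k x).continuousAt

theorem hd_uu {τ k b κ m lam : ℝ} (hb : 2 * b * k = κ + k) (h1 : τ * (m + lam) = κ) (x : ℝ) :
    HasDerivAt (uu τ k b) ((m + lam + τ * (k + κ) / G τ k x) * vv τ k b x) x := by
  have h : HasDerivAt (uu τ k b) _ x := (hd_cosh k x).mul (hd_P τ k b x)
  refine h.congr_deriv (Eq.symm ?_)
  have hG := (G_pos τ k x).ne'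
  have hc : Real.cosh (k * x) ^ 2 = Real.sinh (k * x) ^ 2 + 1 := Real.cosh_sq (k * x)
  have hGe : G τ k x = (1 + τ ^ 2) * Real.cosh (k * x) ^ 2 - τ ^ 2 := by
    unfold G; rw [hc]; ring
  unfold vv
  field_simp
  set s := Real.sinh (k * x)
  set c := Real.cosh (k * x)
  set p := P τ k b x
  set g := G τ k x
  have e1 : (1 + τ ^ 2) * c ^ 2 = g + τ ^ 2 := by rw [hGe]; ring
  linear_combination (-(s * p * g)) * h1 + (s * p * (1 + τ ^ 2) * c ^ 2) * hb
    + (s * p * (k + κ)) * e1

theorem hd_vv {τ k b κ m lam : ℝ} (hb : 2 * b * k = κ + k) (h2 : m - lam = τ * κ) (x : ℝ) :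
    HasDerivAt (vv τ k b) ((m - lam - τ * (k + κ) / G τ k x) * uu τ k b x) x := by
  have h : HasDerivAt (vv τ k b) _ x := ((hd_sinh k x).const_mul (-τ)).mul (hd_P τ k b x)
  refine h.congr_deriv (Eq.symm ?_)
  have hG := (G_pos τ k x).ne'
  have hc : Real.cosh (k * x) ^ 2 = Real.sinh (k * x) ^ 2 + 1 := Real.cosh_sq (k * x)
  have hGe : G τ k x = (1 + τ ^ 2) * Real.sinh (k * x) ^ 2 + 1 := by
    unfold G; rw [hc]; ring
  unfold uu
  rw [h2]
  field_simp
  set s := Real.sinh (k * x)
  set c := Real.cosh (k * x)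
  set p := P τ k b x
  set g := G τ k x
  have e1 : (1 + τ ^ 2) * s ^ 2 = g - 1 := by rw [hGe]; ring
  linear_combination (-(τ * p * (1 + τ ^ 2) * s ^ 2)) * hb - (τ * p * (k + κ)) * e1

theorem sq_add (τ k b x : ℝ) : uu τ k b x ^ 2 + vv τ k b x ^ 2
    = Real.exp ((1 - 2 * b) * Real.log (G τ k x)) := by
  have h1 : uu τ k b x ^ 2 + vv τ k b x ^ 2 = G τ k x * P τ k b x ^ 2 := by
    unfold uu vv G; ring
  rw [h1]
  unfold P
  rw [← Real.exp_nat_mul]
  nth_rewrite 1 [← Real.exp_log (G_pos τ k x)]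
  rw [← Real.exp_add]
  congr 1
  push_cast
  ring

theorem log_G_ge {τ k : ℝ} (hk : 0 < k) (x : ℝ) : 2 * k * |x| - 2 ≤ Real.log (G τ k x) := by
  rw [Real.le_log_iff_exp_le (G_pos τ k x)]
  have h1 : Real.exp (k * |x|) / 2 ≤ Real.cosh (k * x) := by
    rw [← Real.cosh_abs, abs_mul, abs_of_pos hk, Real.cosh_eq]
    have := Real.exp_pos (-(k * |x|))
    linarith
  have h2 : Real.exp (2 * k * |x| - 2) ≤ (Real.exp (k * |x|) / 2) ^ 2 := by
    have e : Real.exp (2 * k * |x| - 2) = Real.exp (k * |x|) ^ 2 / Real.exp 1 ^ 2 := by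
      rw [← Real.exp_nat_mul, ← Real.exp_nat_mul, ← Real.exp_sub]
      congr 1; push_cast; ring
    rw [e, div_pow]
    have h3 : (2 : ℝ) ≤ Real.exp 1 := by
      have := Real.add_one_le_exp (1 : ℝ); linarith
    gcongr
  have h3 : (Real.exp (k * |x|) / 2) ^ 2 ≤ Real.cosh (k * x) ^ 2 := by
    gcongr
  unfold G
  nlinarith [sq_nonneg (τ * Real.sinh (k * x))]

theorem integrable_sq {τ k b κ : ℝ} (hk : 0 < k) (hκ : 0 < κ) (hb : 2 * b * k = κ + k) :
    Integrable (fun x => uu τ k b x ^ 2 + vv τ k b x ^ 2) := by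
  have hb' : 1 - 2 * b = -(κ / k) := by field_simp; linarith
  refine ((integrable_exp_abs (a := 2 * κ) (by positivity)).const_mul
    (Real.exp (2 * (κ / k)))).mono' ?_ (Eventually.of_forall fun x => ?_)
  · simp only [sq_add]
    refine Continuous.aestronglyMeasurable ?_
    exact Real.continuous_exp.comp (continuous_const.mul
      ((cont_G τ k).log fun x => (G_pos τ k x).ne'))
  · rw [sq_add, Real.norm_eq_abs, abs_of_pos (Real.exp_pos _), ← Real.exp_add, hb']
    apply Real.exp_le_exp.2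
    have h1 := log_G_ge (τ := τ) hk x
    have h2 : 0 < κ / k := by positivity
    have h3 : κ / k * (2 * k * |x| - 2) ≤ κ / k * Real.log (G τ k x) :=
      mul_le_mul_of_nonneg_left h1 h2.le
    have h4 : κ / k * (2 * k * |x| - 2) = 2 * κ * |x| - 2 * (κ / k) := by field_simp
    linarith

theorem hd_arctan (τ k x : ℝ) :
    HasDerivAt (fun x => Real.arctan (τ * (Real.sinh (k * x) / Real.cosh (k * x))))
      (τ * k / G τ k x) x := by
  have hc := (Real.cosh_pos (k * x)).ne'
  have h : HasDerivAt (fun x => Real.arctan (τ * (Real.sinh (k * x) / Real.cosh (k * x)))) _ x :=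
    (((hd_sinh k x).div (hd_cosh k x) hc).const_mul τ).arctan
  refine h.congr_deriv (Eq.symm ?_)
  have hG := (G_pos τ k x).ne'
  have hs : Real.cosh (k * x) ^ 2 = Real.sinh (k * x) ^ 2 + 1 := Real.cosh_sq (k * x)
  have e : 1 + (τ * (Real.sinh (k * x) / Real.cosh (k * x))) ^ 2
      = G τ k x / Real.cosh (k * x) ^ 2 := by
    unfold G; field_simp
  simp only [Pi.div_apply]
  rw [e]
  field_simp
  linear_combination (-(τ * k)) * hs

theorem int_bound {τ k : ℝ} (hτ : 0 < τ) (hk : 0 < k) :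
    Integrable (fun x => τ * k / G τ k x) ∧ ∫ x, τ * k / G τ k x ≤ 2 * Real.arctan τ := by
  have hcont : Continuous fun x => τ * k / G τ k x :=
    continuous_const.div (cont_G τ k) fun x => (G_pos τ k x).ne'
  have hb : ∀ x, |Real.arctan (τ * (Real.sinh (k * x) / Real.cosh (k * x)))| ≤ Real.arctan τ := by
    intro x
    have hc := Real.cosh_pos (k * x)
    have h1 : Real.sinh (k * x) / Real.cosh (k * x) ≤ 1 :=
      (div_le_one hc).2 (Real.sinh_lt_cosh _).le
    have h2 : -1 ≤ Real.sinh (k * x) / Real.cosh (k * x) := by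
      rw [le_div_iff₀ hc]
      have := Real.sinh_lt_cosh (-(k * x))
      rw [Real.sinh_neg, Real.cosh_neg] at this
      linarith
    rw [abs_le, ← Real.arctan_neg]
    constructor
    · apply Real.arctan_strictMono.monotone; nlinarith
    · apply Real.arctan_strictMono.monotone; nlinarith
  have hI : ∀ n : ℕ, ∫ x in (-(n : ℝ))..n, τ * k / G τ k x ≤ 2 * Real.arctan τ := by
    intro n
    rw [intervalIntegral.integral_eq_sub_of_hasDerivAt (fun x _ => hd_arctan τ k x)
      (hcont.intervalIntegrable _ _)]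
    have h1 := abs_le.1 (hb n)
    have h2 := abs_le.1 (hb (-n))
    linarith [h1.2, h2.1]
  have ha : Tendsto (fun n : ℕ => -(n : ℝ)) atTop atBot :=
    tendsto_neg_atTop_atBot.comp tendsto_natCast_atTop_atTop
  have hint : Integrable (fun x => τ * k / G τ k x) := by
    refine integrable_of_intervalIntegral_norm_bounded (l := atTop) (2 * Real.arctan τ)
      (a := fun n : ℕ => -(n : ℝ)) (b := fun n : ℕ => (n : ℝ))
      (fun n => (hcont.integrableOn_Icc).mono_set Ioc_subset_Icc_self) ha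
      tendsto_natCast_atTop_atTop (Eventually.of_forall fun n => ?_)
    refine le_of_eq_of_le ?_ (hI n)
    congr 1
    funext x
    have := G_pos τ k x
    rw [Real.norm_eq_abs, abs_of_pos (by positivity)]
  exact ⟨hint, le_of_tendsto' (intervalIntegral_tendsto_integral hint ha
    tendsto_natCast_atTop_atTop) hI⟩

end Pool.Agent.H53.Di
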