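import Mathlib

open MeasureTheory Set Filter Topology

namespace Pool.Agent.H53.Di

theorem mono_int_zero {F : ℝ → ℝ} (hm : Monotone F) (hi : Integrable F) (x : ℝ) : F x = 0 := by
  rcases lt_trichotomy (F x) 0 with h | h | h
  · exfalso
    have h1 : IntegrableOn (fun _ : ℝ => F x) (Iic x) := by
      refine Integrable.mono (hi.integrableOn (s := Iic x)) aestronglyMeasurable_const ?_
      refine ae_restrict_of_forall_mem measurableSet_Iic fun y hy => ?_
      have := hm (show y ≤ x from hy)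
      rw [Real.norm_eq_abs, Real.norm_eq_abs, abs_of_neg h, abs_of_neg (by linarith)]
      linarith
    rw [integrableOn_const_iff] at h1
    rcases h1 with h1 | h1
    · simp [h.ne] at h1
    · simp at h1
  · exact h
  · exfalso
    have h1 : IntegrableOn (fun _ : ℝ => F x) (Ici x) := by
      refine Integrable.mono (hi.integrableOn (s := Ici x)) aestronglyMeasurable_const ?_
      refine ae_restrict_of_forall_mem measurableSet_Ici fun y hy => ?_
      have := hm (show x ≤ y from hy)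
      rw [Real.norm_eq_abs, Real.norm_eq_abs, abs_of_pos h, abs_of_pos (by linarith)]
      linarith
    rw [integrableOn_const_iff] at h1
    rcases h1 with h1 | h1
    · simp [h.ne'] at h1
    · simp at h1

theorem barrier_scalar {u v V r r' : ℝ → ℝ} {m lam δ R : ℝ} (hδ : 0 < δ) (hl : -m < lam)
    (hV : ∀ x, 0 ≤ V x) (hu : ∀ x, HasDerivAt u ((m + lam + V x) * v x) x)
    (hv : ∀ x, HasDerivAt v ((m - lam - V x) * u x) x) (hu2 : MemLp u 2 volume)
    (hv2 : MemLp v 2 volume) (hr : ∀ x, HasDerivAt r (r' x) x) (hR : ∀ x, |r x| ≤ R)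
    (hb : ∀ x, (V x + lam + δ) * (1 + r x ^ 2) ≤ -r' x + m * (1 - r x ^ 2)) (x : ℝ) :
    u x = 0 ∧ v x = 0 := by
  have hF : ∀ x, HasDerivAt (fun x => u x * (v x - r x * u x))
      ((m + lam + V x) * (v x - r x * u x) ^ 2
        + (-r' x + m * (1 - r x ^ 2) - (lam + V x) * (1 + r x ^ 2)) * u x ^ 2) x := by
    intro x
    have h : HasDerivAt (fun x => u x * (v x - r x * u x)) _ x :=
      (hu x).mul ((hv x).sub ((hr x).mul (hu x)))
    refine h.congr_deriv ?_
    try simp only [Pi.sub_apply, Pi.mul_apply]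
    ring
  have ha : ∀ x, 0 < m + lam + V x := fun x => by linarith [hV x]
  have hq : ∀ x, 0 < -r' x + m * (1 - r x ^ 2) - (lam + V x) * (1 + r x ^ 2) := fun x => by
    nlinarith [hb x, sq_nonneg (r x)]
  have hmono : Monotone fun x => u x * (v x - r x * u x) := by
    refine monotone_of_deriv_nonneg (fun x => (hF x).differentiableAt) fun x => ?_
    rw [(hF x).deriv]
    have := ha x
    have := hq x
    positivity
  have hrc : Continuous r := continuous_iff_continuousAt.2 fun x => (hr x).continuousAt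
  have hru : MemLp (fun x => r x * u x) 2 volume := by
    refine hu2.of_le_mul (c := R) (hrc.aestronglyMeasurable.mul hu2.1)
      (Eventually.of_forall fun x => ?_)
    rw [norm_mul]
    exact mul_le_mul_of_nonneg_right (hR x) (norm_nonneg _)
  have hint : Integrable fun x => u x * (v x - r x * u x) :=
    hu2.integrable_mul (hv2.sub hru)
  have hz : (fun x => u x * (v x - r x * u x)) = fun _ => 0 :=
    funext (mono_int_zero hmono hint)
  have h0 := (hF x).deriv
  rw [hz, deriv_const] at h0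
  have h1 := mul_nonneg (ha x).le (sq_nonneg (v x - r x * u x))
  have h2 := mul_nonneg (hq x).le (sq_nonneg (u x))
  have h3 : u x = 0 := by
    have : (-r' x + m * (1 - r x ^ 2) - (lam + V x) * (1 + r x ^ 2)) * u x ^ 2 = 0 := by linarith
    rcases mul_eq_zero.1 this with h | h
    · exact absurd h (hq x).ne'
    · exact pow_eq_zero_iff (by norm_num) |>.1 h
  have h4 : v x - r x * u x = 0 := by
    have : (m + lam + V x) * (v x - r x * u x) ^ 2 = 0 := by linarith
    rcases mul_eq_zero.1 this with h | h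
    · exact absurd h (ha x).ne'
    · exact pow_eq_zero_iff (by norm_num) |>.1 h
  rw [h3] at h4
  exact ⟨h3, by linarith⟩

theorem barrier_angle {u v V φ φ' : ℝ → ℝ} {m lam δ : ℝ} (hδ : 0 < δ) (hl : -m < lam)
    (hV : ∀ x, 0 ≤ V x) (hu : ∀ x, HasDerivAt u ((m + lam + V x) * v x) x)
    (hv : ∀ x, HasDerivAt v ((m - lam - V x) * u x) x) (hu2 : MemLp u 2 volume)
    (hv2 : MemLp v 2 volume) (hφ : ∀ x, HasDerivAt φ (φ' x) x) (hR : ∀ x, |φ x| ≤ 3 / 2)
    (hb : ∀ x, V x + lam + δ ≤ -φ' x + m * Real.cos (2 * φ x)) (x : ℝ) :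
    u x = 0 ∧ v x = 0 := by
  have hpi := Real.pi_gt_d2
  have hc0 : 0 < Real.cos (3 / 2) := Real.cos_pos_of_mem_Ioo ⟨by linarith, by linarith⟩
  have hc : ∀ x, Real.cos (3 / 2) ≤ Real.cos (φ x) := fun x => by
    rw [← Real.cos_abs (φ x)]
    exact Real.cos_le_cos_of_nonneg_of_le_pi (abs_nonneg _) (by linarith) (hR x)
  have hcp : ∀ x, 0 < Real.cos (φ x) := fun x => lt_of_lt_of_le hc0 (hc x)
  refine barrier_scalar (r := fun x => Real.tan (φ x))
    (r' := fun x => 1 / Real.cos (φ x) ^ 2 * φ' x) (R := 1 / Real.cos (3 / 2)) hδ hl hV hu hv hu2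
    hv2 (fun x => (Real.hasDerivAt_tan (hcp x).ne').comp x (hφ x)) (fun x => ?_) (fun x => ?_) x
  · rw [Real.tan_eq_sin_div_cos, abs_div, abs_of_pos (hcp x)]
    exact div_le_div₀ zero_le_one (Real.abs_sin_le_one _) hc0 (hc x)
  · have h1 := (hcp x).ne'
    have hs := Real.sin_sq_add_cos_sq (φ x)
    have e1 : 1 + Real.tan (φ x) ^ 2 = 1 / Real.cos (φ x) ^ 2 := by
      rw [Real.tan_eq_sin_div_cos]; field_simp; linarith
    have e2 : 1 - Real.tan (φ x) ^ 2 = Real.cos (2 * φ x) * (1 / Real.cos (φ x) ^ 2) := by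
      rw [Real.tan_eq_sin_div_cos, Real.cos_two_mul]; field_simp; linarith
    rw [e1, e2]
    have h2 : 0 < 1 / Real.cos (φ x) ^ 2 := by have := hcp x; positivity
    nlinarith [mul_le_mul_of_nonneg_right (hb x) h2.le]

theorem barrier_vec {E : Type*} [NormedAddCommGroup E] [NormedSpace ℝ E] (J B : E →L[ℝ] E)
    (hJJ : ∀ w, J (J w) = -w) (hJB : ∀ w, J (B w) = -B (J w)) (hBB : ∀ w, B (B w) = w)
    {ψ : ℝ → E} {V φ φ' : ℝ → ℝ} {m lam δ : ℝ} (hδ : 0 < δ) (hl : -m < lam)
    (hV : ∀ x, 0 ≤ V x) (hψ : ∀ x, HasDerivAt ψ (J ((lam + V x) • ψ x - m • B (ψ x))) x)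
    (h2 : MemLp ψ 2 volume) (hφ : ∀ x, HasDerivAt φ (φ' x) x) (hR : ∀ x, |φ x| ≤ 3 / 2)
    (hb : ∀ x, V x + lam + δ ≤ -φ' x + m * Real.cos (2 * φ x)) (x : ℝ) : ψ x = 0 := by
  have key : ∀ f : E →L[ℝ] ℝ, f (ψ x + B (ψ x)) = 0 ∧ f (J (ψ x) + B (J (ψ x))) = 0 := by
    intro f
    let l : E →L[ℝ] ℝ := f.comp (ContinuousLinearMap.id ℝ E + B)
    have hl' : ∀ w, l w = f (w + B w) := fun w => rfl
    have hlB : ∀ w, l (B w) = l w := fun w => by rw [hl', hl', hBB, add_comm]
    refine barrier_angle (u := fun x => l (ψ x)) (v := fun x => l (J (ψ x))) hδ hl hV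
      (fun x => ?_) (fun x => ?_) (l.comp_memLp' h2) ((l.comp J).comp_memLp' h2) hφ hR hb x
    · refine (l.hasFDerivAt.comp_hasDerivAt x (hψ x)).congr_deriv ?_
      simp only [map_sub, map_smul, hJB, map_neg, hlB, smul_eq_mul]
      ring
    · refine ((l.comp J).hasFDerivAt.comp_hasDerivAt x (hψ x)).congr_deriv ?_
      simp only [ContinuousLinearMap.comp_apply, hJJ, map_sub, map_smul, map_neg, hlB, smul_eq_mul]
      ring
  have h1 : ψ x + B (ψ x) = 0 :=
    SeparatingDual.eq_zero_of_forall_dual_eq_zero (R := ℝ) fun f => (key f).1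
  have h3 : J (ψ x) + B (J (ψ x)) = 0 :=
    SeparatingDual.eq_zero_of_forall_dual_eq_zero (R := ℝ) fun f => (key f).2
  have h4 : J (ψ x - B (ψ x)) = 0 := by rw [map_sub, hJB, sub_neg_eq_add, h3]
  have h5 : ψ x - B (ψ x) = 0 := by
    have := hJJ (ψ x - B (ψ x))
    rw [h4, map_zero] at this
    exact neg_eq_zero.1 this.symm
  have h6 : (2 : ℝ) • ψ x = 0 := by
    have : (2 : ℝ) • ψ x = (ψ x + B (ψ x)) + (ψ x - B (ψ x)) := by rw [two_smul]; abel
    rw [this, h1, h5, add_zero]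
  simpa using h6

theorem compact_pos {K : Set ℝ} (hK : IsCompact K) {f g : ℝ → ℝ} (hf : Continuous f)
    (hg : Continuous g) (h0 : ∀ x ∈ K, 0 ≤ g x) (h1 : ∀ x ∈ K, g x = 0 → 0 < f x) :
    ∃ A δ : ℝ, 0 < δ ∧ ∀ x ∈ K, δ ≤ f x + A ^ 2 * g x := by
  have hcov : K ⊆ ⋃ n : ℕ, {x | 0 < f x + (n : ℝ) ^ 2 * max (g x) 0} := by
    intro x hx
    rw [mem_iUnion]
    rcases (h0 x hx).eq_or_lt with h | h
    · exact ⟨0, by simpa using h1 x hx h.symm⟩
    · obtain ⟨n, hn⟩ := exists_nat_gt (|f x| / g x)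
      refine ⟨n, ?_⟩
      rw [mem_setOf_eq, max_eq_left h.le]
      rw [div_lt_iff₀ h] at hn
      have h2 : (n : ℝ) ≤ (n : ℝ) ^ 2 := by exact_mod_cast Nat.le_self_pow (by norm_num) n
      nlinarith [neg_abs_le (f x), mul_le_mul_of_nonneg_right h2 h.le]
  have hdir : Directed (· ⊆ ·) (fun n : ℕ => {x | 0 < f x + (n : ℝ) ^ 2 * max (g x) 0}) := by
    refine Monotone.directed_le fun a b hab x hx => ?_
    have h2 : (a : ℝ) ^ 2 ≤ (b : ℝ) ^ 2 := by gcongr
    have h3 := mul_le_mul_of_nonneg_right h2 (le_max_right (g x) 0)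
    simp only [mem_setOf_eq] at hx ⊢
    linarith
  obtain ⟨n, hn⟩ := hK.elim_directed_cover
    (fun n : ℕ => {x | 0 < f x + (n : ℝ) ^ 2 * max (g x) 0})
    (fun n => isOpen_lt continuous_const (by fun_prop)) hcov hdir
  have hc : ContinuousOn (fun x => f x + (n : ℝ) ^ 2 * g x) K := by fun_prop
  obtain ⟨δ, hδ, h⟩ := hK.exists_forall_le' hc (a := 0) fun x hx => by
    have := hn hx
    rwa [mem_setOf_eq, max_eq_left (h0 x hx)] at this
  exact ⟨n, δ, hδ, h⟩

end Pool.Agent.H53.Di
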