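import Mathlib
import Pool.Agent.H53.DiA
import Pool.Agent.H53.DiB

open MeasureTheory Set Filter Topology

namespace Pool.Agent.H53.Di

theorem taylor (a η ζ : ℝ) (hη : |η| ≤ 1 / 2) (hζ : |ζ| ≤ 1 / 2) :
    -2 * η * Real.sin a - 2 * ζ ^ 2 * Real.cos a - (4 * η ^ 2 + 4 * |η| * ζ ^ 2 + 2 * ζ ^ 4)
      ≤ Real.cos (a + 2 * η) * Real.cos (2 * ζ) - Real.cos a := by
  have hs := Real.abs_sin_le_one a
  have hc := Real.abs_cos_le_one a
  have h1 : |Real.cos (2 * η) - 1| ≤ 2 * η ^ 2 := by
    have := Real.one_sub_sq_div_two_le_cos (x := 2 * η)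
    have := Real.cos_le_one (2 * η)
    rw [abs_le]; constructor <;> nlinarith
  have h2 : |2 * η - Real.sin (2 * η)| ≤ η ^ 2 := by
    refine (Real.abs_sub_sin_le _).trans ?_
    rw [abs_mul, abs_two, ← sq_abs η]
    nlinarith [abs_nonneg η, sq_nonneg |η|]
  set e2 := Real.cos (a + 2 * η) - (Real.cos a - 2 * η * Real.sin a) with he2
  have h3 : |e2| ≤ 4 * η ^ 2 := by
    have : e2 = Real.cos a * (Real.cos (2 * η) - 1) + Real.sin a * (2 * η - Real.sin (2 * η)) := by
      rw [he2, Real.cos_add]; ring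
    rw [this]
    refine (abs_add_le _ _).trans ?_
    rw [abs_mul, abs_mul]
    have := mul_le_mul hc h1 (abs_nonneg _) zero_le_one
    have := mul_le_mul hs h2 (abs_nonneg _) zero_le_one
    nlinarith [sq_nonneg η]
  set e1 := Real.cos (2 * ζ) - (1 - 2 * ζ ^ 2) with he1
  have h4 : |e1| ≤ ζ ^ 4 := by
    have := Real.cos_bound (x := 2 * ζ) (by rw [abs_mul, abs_two]; linarith)
    have e : (1 - (2 * ζ) ^ 2 / 2) = 1 - 2 * ζ ^ 2 := by ring
    rw [e, abs_mul, abs_two, mul_pow, show |ζ| ^ 4 = ζ ^ 4 by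
      rw [show (4 : ℕ) = 2 * 2 from rfl, pow_mul, pow_mul, sq_abs]] at this
    have h5 : 0 ≤ ζ ^ 4 := by positivity
    linarith
  have h5 : |Real.cos a - 2 * η * Real.sin a| ≤ 2 := by
    refine (abs_sub _ _).trans ?_
    rw [abs_mul, abs_mul, abs_two]
    nlinarith [abs_nonneg η, abs_nonneg (Real.sin a)]
  have h6 : |e1 * (Real.cos a - 2 * η * Real.sin a)| ≤ 2 * ζ ^ 4 := by
    rw [abs_mul]
    have := mul_le_mul h4 h5 (abs_nonneg _) (by positivity)
    linarith
  have h7 : |e2 * Real.cos (2 * ζ)| ≤ 4 * η ^ 2 := by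
    rw [abs_mul]
    have := mul_le_mul h3 (Real.abs_cos_le_one (2 * ζ)) (abs_nonneg _) (by positivity)
    linarith
  have h8 : |4 * η * ζ ^ 2 * Real.sin a| ≤ 4 * |η| * ζ ^ 2 := by
    rw [abs_mul, abs_mul, abs_mul, abs_of_nonneg (sq_nonneg ζ), show |(4 : ℝ)| = 4 by norm_num]
    have : 0 ≤ 4 * |η| * ζ ^ 2 := by positivity
    nlinarith
  have e : Real.cos (a + 2 * η) * Real.cos (2 * ζ) - Real.cos a
      = -2 * η * Real.sin a - 2 * ζ ^ 2 * Real.cos a + 4 * η * ζ ^ 2 * Real.sin a
        + e1 * (Real.cos a - 2 * η * Real.sin a) + e2 * Real.cos (2 * ζ) := by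
    rw [he1, he2]; ring
  rw [e]
  linarith [neg_abs_le (e1 * (Real.cos a - 2 * η * Real.sin a)),
    neg_abs_le (e2 * Real.cos (2 * ζ)), neg_abs_le (4 * η * ζ ^ 2 * Real.sin a)]

theorem profiles {q k m : ℝ} (hq : 0 < q) (hk : 0 < k) (hm : 0 < m) :
    ∃ η η' ζ ζ' : ℝ → ℝ, (∀ T, HasDerivAt η (η' T) T) ∧ (∀ T, HasDerivAt ζ (ζ' T) T) ∧
      Continuous ζ' ∧ ∃ δ K : ℝ, 0 < δ ∧ 0 < K ∧ ∀ T ∈ Icc (-1 : ℝ) 1,
        δ ≤ -k * (1 - T ^ 2) * η' T + q * T * η T / (1 + 3 * T ^ 2)
          + 2 * m * ζ T ^ 2 * (3 * T ^ 2 - 1) / (1 + 3 * T ^ 2) ∧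
        |η T| ≤ K ∧ |ζ T| ≤ K * (1 - T ^ 2) ∧ |ζ' T| ≤ K := by
  set b : ℝ → ℝ := fun T => expNegInvGlue (3 * T ^ 2 - 1) with hb
  have hbd : ContDiff ℝ 1 b := expNegInvGlue.contDiff.comp (by fun_prop)
  have hbc : Continuous b := hbd.continuous
  have hb'c : Continuous (deriv b) := hbd.continuous_deriv le_rfl
  have hbD : ∀ T, HasDerivAt b (deriv b T) T := fun T =>
    (hbd.differentiable (by norm_num) T).hasDerivAt
  have hb0 : ∀ T, 0 ≤ b T := fun T => expNegInvGlue.nonneg _
  have hbz : ∀ T, b T = 0 → deriv b T = 0 := fun T h =>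
    IsLocalMin.deriv_eq_zero (Eventually.of_forall fun y => by rw [h]; exact hb0 y)
  have hb1 : 0 < expNegInvGlue 2 := expNegInvGlue.pos_of_pos (by norm_num)
  set c := 2 * q / k with hc
  have hc0 : 0 < c := by positivity
  set B := (Real.sinh c + 1) / expNegInvGlue 2 with hB
  let η : ℝ → ℝ := fun T => -Real.sinh (c * T) + B * (T * b T)
  let η' : ℝ → ℝ := fun T => -(Real.cosh (c * T) * c) + B * (1 * b T + T * deriv b T)
  let z : ℝ → ℝ := fun T => (1 - T ^ 2) * b T
  let z' : ℝ → ℝ := fun T => -(2 * T) * b T + (1 - T ^ 2) * deriv b T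
  have hη : ∀ T, HasDerivAt η (η' T) T := fun T =>
    (hd_sinh c T).neg.add (((hasDerivAt_id T).mul (hbD T)).const_mul B)
  have hz : ∀ T, HasDerivAt z (z' T) T := fun T => by
    have h1 : HasDerivAt (fun T : ℝ => 1 - T ^ 2) (-(2 * T)) T := by
      simpa using (hasDerivAt_pow 2 T).const_sub 1
    exact h1.mul (hbD T)
  have hηc : Continuous η := by fun_prop
  have hη'c : Continuous η' := by fun_prop
  have hzc : Continuous z := by fun_prop
  have hz'c : Continuous z' := by fun_prop
  have hden : ∀ T : ℝ, 0 < 1 + 3 * T ^ 2 := fun T => by positivity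
  obtain ⟨A, δ, hδ, hA⟩ := compact_pos (K := Icc (-1 : ℝ) 1) isCompact_Icc
    (f := fun T => -k * (1 - T ^ 2) * η' T + q * T * η T / (1 + 3 * T ^ 2))
    (g := fun T => 2 * m * z T ^ 2 * (3 * T ^ 2 - 1) / (1 + 3 * T ^ 2))
    (by refine Continuous.add (by fun_prop) (Continuous.div (by fun_prop) (by fun_prop)
          fun T => (hden T).ne'))
    (Continuous.div (by fun_prop) (by fun_prop) fun T => (hden T).ne')
    (fun T _ => by
      rcases le_total (3 * T ^ 2 - 1) 0 with h | h
      · have : b T = 0 := expNegInvGlue.zero_of_nonpos h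
        simp [z, this]
      · have := hden T
        positivity)
    (fun T hT h0 => by
      rcases le_or_gt (3 * T ^ 2 - 1) 0 with h | h
      · have h1 : b T = 0 := expNegInvGlue.zero_of_nonpos h
        have h2 := hbz T h1
        simp only [η, η', h1, h2, mul_zero, add_zero]
        have h3 := Real.cosh_pos (c * T)
        have h4 : |Real.sinh (c * T)| ≤ Real.cosh (c * T) := by
          rw [abs_le]
          have := Real.sinh_lt_cosh (c * T)
          have h5 := Real.sinh_lt_cosh (-(c * T))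
          rw [Real.sinh_neg, Real.cosh_neg] at h5
          constructor <;> linarith
        have h5 : |T| ≤ 1 := abs_le.2 ⟨hT.1, hT.2⟩
        have h6 : |q * T * -Real.sinh (c * T) / (1 + 3 * T ^ 2)| ≤ q * Real.cosh (c * T) := by
          rw [abs_div, abs_of_pos (hden T), abs_mul, abs_mul, abs_neg, abs_of_pos hq]
          refine (div_le_self (by positivity) (by nlinarith [sq_nonneg T])).trans ?_
          have := mul_le_mul h5 h4 (abs_nonneg _) zero_le_one
          nlinarith
        have h7 : k * c = 2 * q := by rw [hc]; field_simp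
        have h8 : -k * (1 - T ^ 2) * -(Real.cosh (c * T) * c)
            = 2 * q * (1 - T ^ 2) * Real.cosh (c * T) := by rw [← h7]; ring
        rw [h8]
        have h9 : 0 < q * Real.cosh (c * T) := by positivity
        nlinarith [neg_abs_le (q * T * -Real.sinh (c * T) / (1 + 3 * T ^ 2))]
      · have h1 : 0 < b T := expNegInvGlue.pos_of_pos h
        have h2 : 1 - T ^ 2 = 0 := by
          by_contra h3
          have h4 : 0 < z T ^ 2 := by
            have : z T ≠ 0 := mul_ne_zero h3 h1.ne'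
            positivity
          have := hden T
          have : 0 < 2 * m * z T ^ 2 * (3 * T ^ 2 - 1) / (1 + 3 * T ^ 2) := by positivity
          linarith
        have h3 : T ^ 2 = 1 := by linarith
        have h4 : b T = expNegInvGlue 2 := by simp only [hb, h3]; norm_num
        have h5 : T * Real.sinh (c * T) = Real.sinh c := by
          rcases sq_eq_one_iff.1 h3 with h | h
          · simp [h]
          · simp [h]
        have h6 : T * η T = 1 := by
          have : T * η T = -(T * Real.sinh (c * T)) + B * T ^ 2 * b T := by simp only [η]; ring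
          rw [this, h5, h3, h4, hB]
          field_simp
          ring
        rw [h2, mul_assoc q, h6]
        have := hden T
        simp only [mul_zero, zero_mul, zero_add]
        positivity)
  obtain ⟨K1, hK1⟩ := isCompact_Icc.exists_bound_of_continuousOn (s := Icc (-1 : ℝ) 1)
    hηc.continuousOn
  obtain ⟨K2, hK2⟩ := isCompact_Icc.exists_bound_of_continuousOn (s := Icc (-1 : ℝ) 1)
    (f := fun T => A * b T) (by fun_prop)
  obtain ⟨K3, hK3⟩ := isCompact_Icc.exists_bound_of_continuousOn (s := Icc (-1 : ℝ) 1)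
    (f := fun T => A * z' T) (by fun_prop)
  refine ⟨η, η', fun T => A * z T, fun T => A * z' T, hη, fun T => (hz T).const_mul A,
    by fun_prop, δ, |K1| + |K2| + |K3| + 1, hδ, by positivity, fun T hT => ⟨?_, ?_, ?_, ?_⟩⟩
  · refine (hA T hT).trans (le_of_eq ?_)
    ring
  · have := hK1 T hT
    rw [Real.norm_eq_abs] at this
    linarith [le_abs_self K1, abs_nonneg K2, abs_nonneg K3]
  · have h1 := hK2 T hT
    rw [Real.norm_eq_abs] at h1
    have h2 : 0 ≤ 1 - T ^ 2 := by nlinarith [hT.1, hT.2]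
    have : A * z T = (A * b T) * (1 - T ^ 2) := by simp only [z]; ring
    show |A * z T| ≤ _
    rw [this, abs_mul, abs_of_nonneg h2]
    refine mul_le_mul_of_nonneg_right ?_ h2
    linarith [le_abs_self K2, abs_nonneg K1, abs_nonneg K3]
  · have := hK3 T hT
    rw [Real.norm_eq_abs] at this
    linarith [le_abs_self K3, abs_nonneg K1, abs_nonneg K2]

end Pool.Agent.H53.Di
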