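import Mathlib
import Pool.Agent.H53.DiC

open MeasureTheory Set Filter Topology

namespace Pool.Agent.H53.Di

noncomputable def TT (k x : ℝ) : ℝ := Real.sinh (k * x) / Real.cosh (k * x)

theorem TT_mem (k x : ℝ) : TT k x ∈ Icc (-1 : ℝ) 1 := by
  have hc := Real.cosh_pos (k * x)
  unfold TT
  constructor
  · rw [le_div_iff₀ hc]
    have := Real.sinh_lt_cosh (-(k * x))
    rw [Real.sinh_neg, Real.cosh_neg] at this
    linarith
  · exact (div_le_one hc).2 (Real.sinh_lt_cosh _).le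

theorem hd_TT (k x : ℝ) : HasDerivAt (TT k) (k * (1 - TT k x ^ 2)) x := by
  have hc := (Real.cosh_pos (k * x)).ne'
  have h : HasDerivAt (TT k) _ x := (hd_sinh k x).div (hd_cosh k x) hc
  refine h.congr_deriv ?_
  unfold TT
  field_simp

theorem inv_G {τ : ℝ} (hτ : τ * τ = 3) (k x : ℝ) :
    1 / G τ k x = (1 - TT k x ^ 2) / (1 + 3 * TT k x ^ 2) := by
  have hc := (Real.cosh_pos (k * x)).ne'
  have hG := (G_pos τ k x).ne'
  have hs : Real.cosh (k * x) ^ 2 = Real.sinh (k * x) ^ 2 + 1 := Real.cosh_sq (k * x)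
  have h3 : τ ^ 2 = 3 := by rw [sq, hτ]
  have e1 : 1 - TT k x ^ 2 = 1 / Real.cosh (k * x) ^ 2 := by
    unfold TT; field_simp; linarith
  have e2 : 1 + 3 * TT k x ^ 2 = G τ k x / Real.cosh (k * x) ^ 2 := by
    unfold TT G; rw [h3]; field_simp
  rw [e1, e2]
  field_simp

theorem cos_two_arctan (y : ℝ) : Real.cos (2 * -Real.arctan y) = (1 - y ^ 2) / (1 + y ^ 2) := by
  rw [mul_neg, Real.cos_neg, Real.cos_two_mul, Real.cos_sq_arctan]
  field_simp
  ring

theorem sin_two_arctan (y : ℝ) : Real.sin (2 * -Real.arctan y) = -(2 * y / (1 + y ^ 2)) := by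
  rw [mul_neg, Real.sin_neg, Real.sin_two_mul]
  have h1 := (Real.cos_arctan_pos y).ne'
  have h2 : Real.sin (Real.arctan y) = y * Real.cos (Real.arctan y) := by
    have := Real.tan_arctan y
    rw [Real.tan_eq_sin_div_cos, div_eq_iff h1] at this
    exact this
  rw [h2, show 2 * (y * Real.cos (Real.arctan y)) * Real.cos (Real.arctan y)
    = 2 * y * Real.cos (Real.arctan y) ^ 2 by ring, Real.cos_sq_arctan]
  ring

theorem ev_small (c d : ℝ) (hd : 0 < d) : ∀ᶠ ε in 𝓝[>] (0 : ℝ), c * ε ≤ d := by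
  have h : Tendsto (fun ε : ℝ => c * ε) (𝓝 0) (𝓝 (c * 0)) :=
    (continuous_const.mul continuous_id).tendsto 0
  rw [mul_zero] at h
  exact (h.eventually (ge_mem_nhds hd)).filter_mono nhdsWithin_le_nhds

theorem pert {τ k m κ : ℝ} (hτ : τ * τ = 3) (hτ0 : 0 < τ) (hk : 0 < k) (hm : 0 < m)
    (hκ : κ = τ * m / 2) :
    ∃ Z : ℝ → ℝ, Continuous Z ∧ (∀ x, |Z x| ≤ τ * (k + κ) / G τ k x / 10) ∧
      ∃ δ : ℝ, 0 < δ ∧ ∀ σ : ℝ, σ = 1 ∨ σ = -1 → ∃ φ φ' : ℝ → ℝ,
        (∀ x, HasDerivAt φ (φ' x) x) ∧ (∀ x, |φ x| ≤ 3 / 2) ∧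
        ∀ x, (τ * (k + κ) / G τ k x + σ * Z x) + -m / 2 + δ
          ≤ -φ' x + m * Real.cos (2 * φ x) := by
  have hκ0 : 0 < κ := by rw [hκ]; positivity
  obtain ⟨η, η', ζ, ζ', hη, hζ, hζ'c, δ, K, hδ, hK, hP⟩ :=
    profiles (q := 4 * m * τ) (by positivity) hk hm
  obtain ⟨ε, ⟨⟨⟨h1, h2⟩, h3⟩, h4⟩, hε⟩ := (((((ev_small 1 1 one_pos).and
    (ev_small K (1 / 5) (by norm_num))).and
    (ev_small (m * (4 * K ^ 2 + 4 * K ^ 3 + 2 * K ^ 4)) (δ / 2) (by positivity))).and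
    (ev_small (4 * (k * K + 2 * m * K)) (τ * (k + κ) / 10) (by positivity))).and
    self_mem_nhdsWithin).exists
  have hε0 : 0 < ε := hε
  have hε1 : ε ≤ 1 := by linarith
  have hTc : Continuous (TT k) := continuous_iff_continuousAt.2 fun x => (hd_TT k x).continuousAt
  have hηc : Continuous η := continuous_iff_continuousAt.2 fun x => (hη x).continuousAt
  have hζc : Continuous ζ := continuous_iff_continuousAt.2 fun x => (hζ x).continuousAt
  have hT2 : ∀ x, 0 ≤ 1 - TT k x ^ 2 := fun x => by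
    nlinarith [(TT_mem k x).1, (TT_mem k x).2]
  have hζK : ∀ x, |ζ (TT k x)| ≤ K := fun x => by
    refine (hP _ (TT_mem k x)).2.2.1.trans ?_
    nlinarith [sq_nonneg (TT k x)]
  have hηs : ∀ x, |ε ^ 2 * η (TT k x)| ≤ ε ^ 2 * K := fun x => by
    rw [abs_mul, abs_of_nonneg (sq_nonneg ε)]
    exact mul_le_mul_of_nonneg_left (hP _ (TT_mem k x)).2.1 (sq_nonneg ε)
  have hζs : ∀ x, |ε * ζ (TT k x)| ≤ ε * K := fun x => by
    rw [abs_mul, abs_of_pos hε0]
    exact mul_le_mul_of_nonneg_left (hζK x) hε0.le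
  have hεK : ε ^ 2 * K ≤ ε * K := by
    have : ε ^ 2 ≤ ε := by nlinarith
    exact mul_le_mul_of_nonneg_right this hK.le
  refine ⟨fun x => -(ε * (ζ' (TT k x) * (k * (1 - TT k x ^ 2))))
      - m * (Real.sin (2 * -Real.arctan (τ * TT k x) + 2 * (ε ^ 2 * η (TT k x)))
        * Real.sin (2 * (ε * ζ (TT k x)))), ?_, fun x => ?_, ε ^ 2 * (δ / 2), by positivity,
      fun σ hσ => ⟨fun x => -Real.arctan (τ * TT k x) + ε ^ 2 * η (TT k x) + σ * (ε * ζ (TT k x)),
        fun x => -(τ * k / G τ k x) + ε ^ 2 * (η' (TT k x) * (k * (1 - TT k x ^ 2)))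
          + σ * (ε * (ζ' (TT k x) * (k * (1 - TT k x ^ 2)))), fun x => ?_, fun x => ?_,
          fun x => ?_⟩⟩
  · have := Real.continuous_arctan
    fun_prop
  · obtain ⟨-, -, hb1, hb2⟩ := hP _ (TT_mem k x)
    set T := TT k x with hT
    have a1 : |-(ε * (ζ' T * (k * (1 - T ^ 2))))| ≤ ε * (K * (k * (1 - T ^ 2))) := by
      have := hT2 x
      rw [abs_neg, abs_mul, abs_of_pos hε0, abs_mul, abs_of_nonneg (a := k * (1 - T ^ 2))
        (by positivity)]
      gcongr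
    have a2 : |m * (Real.sin (2 * -Real.arctan (τ * T) + 2 * (ε ^ 2 * η T))
        * Real.sin (2 * (ε * ζ T)))| ≤ m * (2 * (ε * (K * (1 - T ^ 2)))) := by
      rw [abs_mul, abs_of_pos hm, abs_mul]
      refine mul_le_mul_of_nonneg_left ?_ hm.le
      have b1 := Real.abs_sin_le_one (2 * -Real.arctan (τ * T) + 2 * (ε ^ 2 * η T))
      have b2 : |Real.sin (2 * (ε * ζ T))| ≤ 2 * (ε * (K * (1 - T ^ 2))) := by
        refine Real.abs_sin_le_abs.trans ?_
        rw [abs_mul, abs_two, abs_mul, abs_of_pos hε0]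
        gcongr
      have := mul_le_mul b1 b2 (abs_nonneg _) zero_le_one
      linarith
    refine (abs_sub _ _).trans ((add_le_add a1 a2).trans ?_)
    have a3 : 1 - T ^ 2 ≤ 4 * (1 / G τ k x) := by
      rw [inv_G hτ, ← hT, ← mul_div_assoc, le_div_iff₀ (by positivity)]
      have := hT2 x
      nlinarith [mul_nonneg this this]
    have a4 : 0 < 1 / G τ k x := by have := G_pos τ k x; positivity
    have a5 : 0 ≤ ε * (k * K + 2 * m * K) := by positivity
    calc ε * (K * (k * (1 - T ^ 2))) + m * (2 * (ε * (K * (1 - T ^ 2))))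
        = ε * (k * K + 2 * m * K) * (1 - T ^ 2) := by ring
      _ ≤ ε * (k * K + 2 * m * K) * (4 * (1 / G τ k x)) := mul_le_mul_of_nonneg_left a3 a5
      _ = (4 * (k * K + 2 * m * K) * ε) * (1 / G τ k x) := by ring
      _ ≤ (τ * (k + κ) / 10) * (1 / G τ k x) := mul_le_mul_of_nonneg_right h4 a4.le
      _ = τ * (k + κ) / G τ k x / 10 := by ring
  · exact (((hd_arctan τ k x).neg.add (((hη _).comp x (hd_TT k x)).const_mul (ε ^ 2))).add
      ((((hζ _).comp x (hd_TT k x)).const_mul ε).const_mul σ))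
  · have a1 : |Real.arctan (τ * TT k x)| ≤ Real.pi / 3 := by
      have e : τ = Real.sqrt 3 := by
        rw [← hτ, Real.sqrt_mul_self hτ0.le]
      rw [← Real.arctan_sqrt_three, ← e, abs_le, ← Real.arctan_neg]
      constructor
      · apply Real.arctan_strictMono.monotone; nlinarith [(TT_mem k x).1]
      · apply Real.arctan_strictMono.monotone; nlinarith [(TT_mem k x).2]
    have a2 : |σ * (ε * ζ (TT k x))| ≤ ε * K := by
      rcases hσ with h | h <;> simpa [h] using hζs x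
    have a3 := Real.pi_lt_d2
    refine (abs_add_le _ _).trans ((add_le_add (abs_add_le _ _) a2).trans ?_)
    rw [abs_neg]
    linarith [hηs x]
  · obtain ⟨hb0, -, -, -⟩ := hP _ (TT_mem k x)
    have hηx := hηs x
    have hζx := hζs x
    have hG := inv_G hτ k x
    set T := TT k x with hT
    set a := 2 * -Real.arctan (τ * T) with ha
    have hca : Real.cos a = (1 - 3 * T ^ 2) / (1 + 3 * T ^ 2) := by
      rw [ha, cos_two_arctan, mul_pow, sq τ, hτ]
    have hsa : Real.sin a = -(2 * (τ * T) / (1 + 3 * T ^ 2)) := by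
      rw [ha, sin_two_arctan, mul_pow, sq τ, hτ]
    set e := ε ^ 2 * η T with he
    set z := ε * ζ T with hz
    have htay := taylor a e z (by linarith) (by linarith)
    have hcos : Real.cos (2 * (-Real.arctan (τ * T) + e + σ * z))
        = Real.cos (a + 2 * e) * Real.cos (2 * z) - σ * (Real.sin (a + 2 * e) * Real.sin (2 * z)) := by
      rcases hσ with h | h
      · rw [h, show 2 * (-Real.arctan (τ * T) + e + 1 * z) = (a + 2 * e) + 2 * z by rw [ha]; ring,
          Real.cos_add (a + 2 * e)]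
        ring
      · rw [h, show 2 * (-Real.arctan (τ * T) + e + -1 * z) = (a + 2 * e) - 2 * z by rw [ha]; ring,
          Real.cos_sub (a + 2 * e)]
        ring
    have hden : 0 < 1 + 3 * T ^ 2 := by positivity
    have hM : τ * (k + κ) / G τ k x = τ * k / G τ k x + m * Real.cos a + m / 2 := by
      have : τ * (k + κ) / G τ k x = τ * k / G τ k x + τ * κ * (1 / G τ k x) := by ring
      rw [this, hG, hca, hκ, show τ * (τ * m / 2) = 3 * m / 2 by linear_combination (m / 2) * hτ]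
      field_simp
      ring
    have herr : 4 * e ^ 2 + 4 * |e| * z ^ 2 + 2 * z ^ 4
        ≤ ε ^ 2 * (ε * (4 * K ^ 2 + 4 * K ^ 3 + 2 * K ^ 4)) := by
      have c1 : e ^ 2 ≤ (ε ^ 2 * K) ^ 2 := by rw [← sq_abs e]; gcongr
      have c2 : z ^ 2 ≤ (ε * K) ^ 2 := by rw [← sq_abs z]; gcongr
      have c3 : z ^ 4 ≤ ((ε * K) ^ 2) ^ 2 := by
        rw [show z ^ 4 = (z ^ 2) ^ 2 by ring]; gcongr
      have c4 : |e| * z ^ 2 ≤ (ε ^ 2 * K) * (ε * K) ^ 2 := by gcongr
      have c5 : ε ^ 4 ≤ ε ^ 3 := pow_le_pow_of_le_one hε0.le hε1 (by norm_num)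
      have c6 : 0 ≤ 4 * K ^ 2 + 4 * K ^ 3 + 2 * K ^ 4 := by positivity
      calc 4 * e ^ 2 + 4 * |e| * z ^ 2 + 2 * z ^ 4
          ≤ 4 * (ε ^ 2 * K) ^ 2 + 4 * ((ε ^ 2 * K) * (ε * K) ^ 2) + 2 * ((ε * K) ^ 2) ^ 2 := by
            linarith
        _ = ε ^ 4 * (4 * K ^ 2 + 4 * K ^ 3 + 2 * K ^ 4) := by ring
        _ ≤ ε ^ 3 * (4 * K ^ 2 + 4 * K ^ 3 + 2 * K ^ 4) := mul_le_mul_of_nonneg_right c5 c6
        _ = _ := by ring
    have hmain : -(ε ^ 2 * (η' T * (k * (1 - T ^ 2))))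
        + m * (-2 * e * Real.sin a - 2 * z ^ 2 * Real.cos a)
        = ε ^ 2 * (-k * (1 - T ^ 2) * η' T + 4 * m * τ * T * η T / (1 + 3 * T ^ 2)
          + 2 * m * ζ T ^ 2 * (3 * T ^ 2 - 1) / (1 + 3 * T ^ 2)) := by
      rw [hca, hsa, he, hz]
      field_simp
      ring
    have d1 := mul_le_mul_of_nonneg_left hb0 (sq_nonneg ε)
    have d2 := mul_le_mul_of_nonneg_left htay hm.le
    have d3 := mul_le_mul_of_nonneg_left herr hm.le
    have d4 := mul_le_mul_of_nonneg_left h3 (sq_nonneg ε)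
    show _ ≤ -(-(τ * k / G τ k x) + ε ^ 2 * (η' T * (k * (1 - T ^ 2)))
          + σ * (ε * (ζ' T * (k * (1 - T ^ 2)))))
        + m * Real.cos (2 * (-Real.arctan (τ * T) + e + σ * z))
    rw [hcos, hM]
    nlinarith

end Pool.Agent.H53.Di
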