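import Mathlib
import Pool.Agent.H53.DiD

open MeasureTheory Set Filter Topology

namespace Pool.Agent.H53.Di

theorem cont_Ip (p : ℝ) : Continuous fun y : ℝ => (1 + y ^ 2) ^ (-p) :=
  Continuous.rpow_const (by fun_prop) fun y => Or.inl (by positivity)

theorem integrable_Ip {p : ℝ} (hp : 1 ≤ p) : Integrable fun y : ℝ => (1 + y ^ 2) ^ (-p) := by
  refine integrable_inv_one_add_sq.mono' (cont_Ip p).aestronglyMeasurable
    (Eventually.of_forall fun y => ?_)
  rw [Real.norm_eq_abs, abs_of_pos (by positivity), ← Real.rpow_neg_one]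
  exact Real.rpow_le_rpow_of_exponent_le (by nlinarith [sq_nonneg y]) (by linarith)

theorem Ip_pos {p : ℝ} (hp : 1 ≤ p) : 0 < ∫ y : ℝ, (1 + y ^ 2) ^ (-p) := by
  rw [integral_pos_iff_support_of_nonneg (fun y => by positivity) (integrable_Ip hp)]
  have : Function.support (fun y : ℝ => (1 + y ^ 2) ^ (-p)) = univ :=
    eq_univ_of_forall fun y => by
      have : 0 < (1 + y ^ 2) ^ (-p) := by positivity
      exact this.ne'
  rw [this]
  simp

theorem G_ge {τ : ℝ} (hτ : τ * τ = 3) (k x : ℝ) : 1 + (2 * k * x) ^ 2 ≤ G τ k x := by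
  unfold G
  rw [Real.cosh_sq, sq τ, hτ]
  have h : (k * x) ^ 2 ≤ Real.sinh (k * x) ^ 2 := by
    rw [sq_le_sq, Real.abs_sinh]
    exact Real.self_le_sinh_iff.2 (abs_nonneg _)
  nlinarith

theorem norm_bound {V : ℝ → ℝ} {p h w : ℝ} (hp : 1 ≤ p) (hh : 0 < h) (hw : 0 < w)
    (hc : Continuous V) (h0 : ∀ x, 0 ≤ V x) (h1 : ∀ x, V x ≤ h / (1 + (w * x) ^ 2)) :
    Integrable (fun x => V x ^ p) ∧
      ∫ x, V x ^ p ≤ h ^ p / w * ∫ y : ℝ, (1 + y ^ 2) ^ (-p) := by
  have hi : Integrable fun x : ℝ => h ^ p * (1 + (w * x) ^ 2) ^ (-p) :=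
    ((integrable_Ip hp).comp_mul_left' hw.ne').const_mul _
  have hle : ∀ x, V x ^ p ≤ h ^ p * (1 + (w * x) ^ 2) ^ (-p) := fun x => by
    refine (Real.rpow_le_rpow (h0 x) (h1 x) (by linarith)).trans (le_of_eq ?_)
    rw [Real.div_rpow hh.le (by positivity), Real.rpow_neg (by positivity), div_eq_mul_inv]
  have hVi : Integrable (fun x => V x ^ p) := by
    refine hi.mono' (hc.rpow_const fun x => Or.inr (by linarith)).aestronglyMeasurable
      (Eventually.of_forall fun x => ?_)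
    rw [Real.norm_eq_abs, abs_of_nonneg (Real.rpow_nonneg (h0 x) _)]
    exact hle x
  refine ⟨hVi, (integral_mono hVi hi hle).trans (le_of_eq ?_)⟩
  rw [integral_const_mul,
    Measure.integral_comp_mul_left (fun y : ℝ => (1 + y ^ 2) ^ (-p)) w, abs_of_pos (inv_pos.2 hw),
    smul_eq_mul]
  ring

theorem choose_k {τ m κ p : ℝ} (hτ : τ * τ = 3) (hτ0 : 0 < τ) (hm : 0 < m) (hκ : κ = τ * m / 2)
    (hp : 1 ≤ p) : ∃ k : ℝ, 0 < k ∧
      (11 / 10 * (τ * (k + κ))) ^ p / (2 * k) < p ^ p * (2 * m / (p - 1)) ^ (p - 1) := by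
  have hκ0 : 0 < κ := by rw [hκ]; positivity
  have hτ1 : τ < 7 / 4 := by nlinarith
  have hτ2 : 17 / 10 < τ := by nlinarith
  rcases hp.eq_or_lt with h | h
  · subst h
    refine ⟨30 * κ, by positivity, ?_⟩
    simp only [Real.rpow_one, sub_self, Real.rpow_zero, mul_one]
    rw [div_lt_one (by positivity)]
    nlinarith
  · have hq : 0 < p - 1 := by linarith
    refine ⟨κ / (p - 1), by positivity, ?_⟩
    set D := 2 * m / (p - 1) with hD
    have hD0 : 0 < D := by positivity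
    have e1 : 11 / 10 * (τ * (κ / (p - 1) + κ)) = 33 / 40 * (p * D) := by
      rw [hD, hκ]
      field_simp
      linear_combination (440 * p) * hτ
    have e2 : 2 * (κ / (p - 1)) = τ / 2 * D := by
      rw [hD, hκ]; field_simp
    have e3 : D ^ p = D ^ (p - 1) * D := by
      rw [Real.rpow_sub_one hD0.ne']; field_simp
    rw [e1, e2, Real.mul_rpow (by norm_num) (by positivity), Real.mul_rpow (by linarith) hD0.le,
      e3, div_lt_iff₀ (by positivity)]
    have h1 : (33 / 40 : ℝ) ^ p ≤ 33 / 40 := by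
      have := Real.rpow_le_rpow_of_exponent_ge (x := 33 / 40) (by norm_num) (by norm_num) hp
      rwa [Real.rpow_one] at this
    have h2 : 0 < p ^ p * (D ^ (p - 1) * D) := by
      have : 0 < p := by linarith
      positivity
    nlinarith

end Pool.Agent.H53.Di
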