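import Mathlib
import Pool.Agent.H53.DiE

open MeasureTheory Set Filter Topology

namespace Pool.Agent.H53.Di

theorem barrier_vec_r {E : Type*} [NormedAddCommGroup E] [NormedSpace ℝ E] (J B : E →L[ℝ] E)
    (hJJ : ∀ w, J (J w) = -w) (hJB : ∀ w, J (B w) = -B (J w)) (hBB : ∀ w, B (B w) = w)
    {ψ : ℝ → E} {V r r' : ℝ → ℝ} {m lam δ R : ℝ} (hδ : 0 < δ) (hl : -m < lam)
    (hV : ∀ x, 0 ≤ V x) (hψ : ∀ x, HasDerivAt ψ (J ((lam + V x) • ψ x - m • B (ψ x))) x)
    (h2 : MemLp ψ 2 volume) (hr : ∀ x, HasDerivAt r (r' x) x) (hR : ∀ x, |r x| ≤ R)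
    (hb : ∀ x, (V x + lam + δ) * (1 + r x ^ 2) ≤ -r' x + m * (1 - r x ^ 2)) (x : ℝ) :
    ψ x = 0 := by
  have key : ∀ f : E →L[ℝ] ℝ, f (ψ x + B (ψ x)) = 0 ∧ f (J (ψ x) + B (J (ψ x))) = 0 := by
    intro f
    let l : E →L[ℝ] ℝ := f.comp (ContinuousLinearMap.id ℝ E + B)
    have hl' : ∀ w, l w = f (w + B w) := fun w => rfl
    have hlB : ∀ w, l (B w) = l w := fun w => by rw [hl', hl', hBB, add_comm]
    refine barrier_scalar (u := fun x => l (ψ x)) (v := fun x => l (J (ψ x))) hδ hl hV
      (fun x => ?_) (fun x => ?_) (l.comp_memLp' h2) ((l.comp J).comp_memLp' h2) hr hR hb x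
    · refine (l.hasFDerivAt.comp_hasDerivAt x (hψ x)).congr_deriv ?_
      simp only [map_sub, map_smul, hJB, map_neg, hlB, smul_eq_mul]
      ring
    · refine ((l.comp J).hasFDerivAt.comp_hasDerivAt x (hψ x)).congr_deriv ?_
      simp only [ContinuousLinearMap.comp_apply, hJJ, map_sub, map_smul, map_neg, hlB, smul_eq_mul]
      ring
  have h1 : ψ x + B (ψ x) = 0 :=
    SeparatingDual.eq_zero_of_forall_dual_eq_zero (R := ℝ) fun f => (key f).1
  have h3 : J (ψ x) + B (J (ψ x)) = 0 :=
    SeparatingDual.eq_zero_of_forall_dual_eq_zero (R := ℝ) fun f => (key f).2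
  have h4 : J (ψ x - B (ψ x)) = 0 := by rw [map_sub, hJB, sub_neg_eq_add, h3]
  have h5 : ψ x - B (ψ x) = 0 := by
    have := hJJ (ψ x - B (ψ x))
    rw [h4, map_zero] at this
    exact neg_eq_zero.1 this.symm
  have h6 : (2 : ℝ) • ψ x = 0 := by
    have : (2 : ℝ) • ψ x = (ψ x + B (ψ x)) + (ψ x - B (ψ x)) := by rw [two_smul]; abel
    rw [this, h1, h5, add_zero]
  simpa using h6

theorem inv_exists {F f : ℝ → ℝ} {c : ℝ} (hc : 0 < c) (hF : ∀ t, HasDerivAt F (f t) t)
    (hf : ∀ t, c ≤ f t) : StrictMono F ∧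
      ∃ g : ℝ → ℝ, (∀ y, F (g y) = y) ∧ ∀ y, HasDerivAt g (f (g y))⁻¹ y := by
  have hd : Differentiable ℝ F := fun t => (hF t).differentiableAt
  have hm : StrictMono F := strictMono_of_deriv_pos fun t => by
    rw [(hF t).deriv]; exact lt_of_lt_of_le hc (hf t)
  have hm2 : Monotone fun t => F t - c * t := by
    have h : ∀ t, HasDerivAt (fun t => F t - c * t) (f t - c) t := fun t => by
      have h : HasDerivAt (fun t => F t - c * t) _ t :=
        (hF t).sub ((hasDerivAt_id t).const_mul c)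
      exact h.congr_deriv (by ring)
    refine monotone_of_deriv_nonneg (fun t => (h t).differentiableAt) fun t => ?_
    rw [(h t).deriv]; linarith [hf t]
  have hs : Function.Surjective F := by
    refine hd.continuous.surjective ?_ ?_
    · refine tendsto_atTop_mono' atTop (f₁ := fun t => F 0 + c * t) ?_
        (tendsto_atTop_add_const_left _ _ (tendsto_id.const_mul_atTop hc))
      filter_upwards [eventually_ge_atTop 0] with t ht
      have := hm2 ht
      simp only [mul_zero, sub_zero] at this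
      linarith
    · refine tendsto_atBot_mono' atBot (f₁ := fun t => F 0 + c * t) ?_
        (tendsto_atBot_add_const_left _ _ (tendsto_id.const_mul_atBot hc))
      filter_upwards [eventually_le_atBot 0] with t ht
      have := hm2 ht
      simp only [mul_zero, sub_zero] at this
      linarith
  let e := hm.orderIsoOfSurjective F hs
  have he : ∀ y, F (e.symm y) = y := fun y => e.apply_symm_apply y
  refine ⟨hm, e.symm, he, fun y => ?_⟩
  exact HasDerivAt.of_local_left_inverse e.symm.continuous.continuousAt (hF _)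
    (lt_of_lt_of_le hc (hf _)).ne' (Eventually.of_forall he)

theorem young {p b X : ℝ} (hp : 1 ≤ p) (hb : 0 < b) (hX : 0 ≤ X) :
    X ≤ X ^ p / (p ^ p * (b / (p - 1)) ^ (p - 1)) + b := by
  rcases hp.eq_or_lt with h | h
  · subst h
    simp only [Real.rpow_one, sub_self, Real.rpow_zero, mul_one, div_one]
    linarith
  · have hq : 0 < p - 1 := by linarith
    have hp0 : 0 < p := by linarith
    set a := p * (b / (p - 1)) with ha
    have ha0 : 0 < a := by positivity
    have e1 : p ^ p * (b / (p - 1)) ^ (p - 1) = p * a ^ (p - 1) := by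
      rw [ha, Real.mul_rpow hp0.le (by positivity), Real.rpow_sub_one hp0.ne']
      field_simp
    have h1 := one_add_mul_self_le_rpow_one_add (s := X / a - 1)
      (by have : 0 ≤ X / a := by positivity
          linarith) hp
    rw [add_sub_cancel, Real.div_rpow hX ha0.le] at h1
    have e2 : a ^ p = a ^ (p - 1) * a := by
      rw [Real.rpow_sub_one ha0.ne']; field_simp
    have h2 : 0 < a ^ (p - 1) := by positivity
    have e3 : X ^ p / (p * a ^ (p - 1)) = (a / p) * (X ^ p / a ^ p) := by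
      rw [e2]; field_simp
    have e4 : a / p * (1 + p * (X / a - 1)) = X - b := by
      rw [ha]; field_simp; ring
    rw [e1, e3]
    have := mul_le_mul_of_nonneg_left h1 (show 0 ≤ a / p by positivity)
    linarith

theorem keller {p m A : ℝ} (hp : 1 ≤ p) (hm : 0 < m)
    (hA : A < p ^ p * (2 * m / (p - 1)) ^ (p - 1) * ∫ y : ℝ, (1 + y ^ 2) ^ (-p)) :
    ∃ η : ℝ, 0 < η ∧ ∀ V : ℝ → ℝ, Continuous V → (∀ x, 0 ≤ V x) →
      Integrable (fun x => V x ^ p) → ∫ x, V x ^ p ≤ A →
      ∃ r r' : ℝ → ℝ, ∃ R : ℝ, (∀ x, HasDerivAt r (r' x) x) ∧ (∀ x, |r x| ≤ R) ∧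
        ∀ x, (V x + (-m + η)) * (1 + r x ^ 2) ≤ -r' x + m * (1 - r x ^ 2) := by
  have hp0 : 0 < p := by linarith
  have ht : Tendsto (fun R : ℝ => p ^ p * (2 * m / (p - 1)) ^ (p - 1)
      * ∫ y in (-R)..R, (1 + y ^ 2) ^ (-p)) atTop (𝓝 _) :=
    (intervalIntegral_tendsto_integral (integrable_Ip hp) tendsto_neg_atTop_atBot
      tendsto_id).const_mul _
  obtain ⟨R, hR1, hR0⟩ := ((ht.eventually (lt_mem_nhds hA)).and (eventually_gt_atTop 0)).exists
  have hs : ContinuousAt (fun s : ℝ => p ^ p * (2 * m * s / (p - 1)) ^ (p - 1)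
      * ∫ y in (-R)..R, (1 + y ^ 2) ^ (-p)) 1 := by
    refine ContinuousAt.mul (ContinuousAt.mul continuousAt_const ?_) continuousAt_const
    exact ContinuousAt.rpow_const (by fun_prop) (Or.inr (by linarith))
  have hs' := hs.tendsto
  simp only [mul_one] at hs'
  obtain ⟨s, hs1, hs0⟩ := (((hs'.eventually (lt_mem_nhds hR1)).filter_mono
    (nhdsWithin_le_nhds (s := Iio 1))).and (Ioo_mem_nhdsLT (show (0 : ℝ) < 1 by norm_num))).exists
  set C := p ^ p * (2 * m * s / (p - 1)) ^ (p - 1) with hC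
  have hb0 : 0 < 2 * m * s := by have := hs0.1; positivity
  have hC0 : 0 < C := by
    rcases hp.eq_or_lt with h | h
    · subst h; simp [hC]
    · have : 0 < p - 1 := by linarith
      positivity
  refine ⟨(1 - s) * (2 * m) / (1 + R ^ 2), by have := hs0.2; have : 0 < 1 - s := by linarith
                                              positivity, fun V hVc hV0 hVi hVA => ?_⟩
  let cl : ℝ → ℝ := fun t => max (-R) (min t R)
  have hcl : ∀ t ∈ Icc (-R) R, cl t = t := fun t ht => by
    simp only [cl, min_eq_left ht.2, max_eq_right ht.1]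
  have hcl2 : ∀ t, cl t ^ 2 ≤ R ^ 2 := fun t => by
    apply sq_le_sq'
    · exact le_max_left _ _
    · exact max_le (by linarith) (min_le_right _ _)
  let f : ℝ → ℝ := fun t => C * (1 + cl t ^ 2) ^ (-p)
  have hfc : Continuous f := continuous_const.mul ((cont_Ip p).comp (by fun_prop))
  let F : ℝ → ℝ := fun t => ∫ y in (-R)..t, f y
  have hF : ∀ t, HasDerivAt F (f t) t := fun t =>
    intervalIntegral.integral_hasDerivAt_right (hfc.intervalIntegrable _ _)
      (hfc.stronglyMeasurableAtFilter _ _) hfc.continuousAt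
  obtain ⟨hmono, g, hg, hgd⟩ := inv_exists (c := C * (1 + R ^ 2) ^ (-p)) (by positivity) hF
    fun t => mul_le_mul_of_nonneg_left
      (Real.rpow_le_rpow_of_nonpos (by positivity) (by linarith [hcl2 t]) (by linarith)) hC0.le
  have hFR : F R = C * ∫ y in (-R)..R, (1 + y ^ 2) ^ (-p) := by
    rw [← intervalIntegral.integral_const_mul]
    refine intervalIntegral.integral_congr fun y hy => ?_
    rw [uIcc_of_le (by linarith)] at hy
    simp only [f, hcl y hy]
  have hF0 : F (-R) = 0 := intervalIntegral.integral_same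
  have hWc : Continuous fun x => V x ^ p := hVc.rpow_const fun x => Or.inr hp0.le
  have hW0 : ∀ x, 0 ≤ V x ^ p := fun x => Real.rpow_nonneg (hV0 x) _
  let H : ℝ → ℝ := fun x => (∫ y in Iic (0 : ℝ), V y ^ p) + ∫ y in (0 : ℝ)..x, V y ^ p
  have hHe : ∀ x, H x = ∫ y in Iic x, V y ^ p := fun x => by
    simp only [H]
    rw [← intervalIntegral.integral_Iic_sub_Iic hVi.integrableOn hVi.integrableOn]
    ring
  have hH0 : ∀ x, 0 ≤ H x := fun x => by
    rw [hHe]; exact setIntegral_nonneg measurableSet_Iic fun y _ => hW0 y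
  have hH1 : ∀ x, H x ≤ A := fun x => by
    rw [hHe]; exact (setIntegral_le_integral hVi (Eventually.of_forall hW0)).trans hVA
  have hHd : ∀ x, HasDerivAt H (V x ^ p) x := fun x =>
    (intervalIntegral.integral_hasDerivAt_right (hWc.intervalIntegrable _ _)
      (hWc.stronglyMeasurableAtFilter _ _) hWc.continuousAt).const_add _
  have hmem : ∀ x, g (F R - H x) ∈ Icc (-R) R := fun x => by
    constructor
    · rw [← hmono.le_iff_le, hg, hF0, hFR]; linarith [hH1 x]
    · rw [← hmono.le_iff_le, hg]; linarith [hH0 x]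
  refine ⟨fun x => g (F R - H x), fun x => (f (g (F R - H x)))⁻¹ * -(V x ^ p), R,
    fun x => (hgd _).comp x ((hHd x).const_sub (F R)), fun x => abs_le.2 (hmem x), fun x => ?_⟩
  have h1 := hmem x
  set r := g (F R - H x) with hr
  have h2 : r ^ 2 ≤ R ^ 2 := sq_le_sq' h1.1 h1.2
  have h3 := young hp hb0 (X := V x * (1 + r ^ 2)) (by have := hV0 x; positivity)
  have h4 : (V x * (1 + r ^ 2)) ^ p / C = -((f r)⁻¹ * -(V x ^ p)) := by
    simp only [f, hcl r h1]
    rw [Real.mul_rpow (hV0 x) (by positivity), Real.rpow_neg (by positivity)]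
    have : 0 < (1 + r ^ 2) ^ p := by positivity
    field_simp
  rw [← hC, h4] at h3
  have h5 : (1 - s) * (2 * m) / (1 + R ^ 2) * (1 + r ^ 2) ≤ (1 - s) * (2 * m) := by
    have : 0 < 1 - s := by linarith [hs0.2]
    rw [div_mul_eq_mul_div, div_le_iff₀ (by positivity)]
    have : 0 < (1 - s) * (2 * m) := by positivity
    nlinarith
  nlinarith

end Pool.Agent.H53.Di
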