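import Mathlib

open MeasureTheory Filter Set Topology Metric

namespace Pool.Agent.H53.Vert

/-- distance to the nearest integer -/
noncomputable def nd (x : ℝ) : ℝ := |x - round x|

lemma mem_thick (q : ℕ) (hq : 1 ≤ q) (t β : ℝ) :
    ((β : UnitAddCircle) ∈ thickening (t / q) {y : UnitAddCircle | q • y = 0}) ↔ nd (q * β) < t := by
  have hq0 : (0:ℝ) < q := by exact_mod_cast hq
  rw [mem_thickening_iff]
  constructor
  · rintro ⟨z, hz, hd⟩
    have h1 : ‖q • ((β : UnitAddCircle) - z)‖ ≤ q * ‖(β : UnitAddCircle) - z‖ := norm_nsmul_le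
    rw [smul_sub, show q • z = 0 from hz, sub_zero, ← AddCircle.coe_nsmul, UnitAddCircle.norm_eq,
      nsmul_eq_mul] at h1
    rw [dist_eq_norm, lt_div_iff₀ hq0] at hd
    unfold nd
    linarith
  · intro h
    refine ⟨(((round (q * β) : ℝ) / q : ℝ) : UnitAddCircle), ?_, ?_⟩
    · show q • (((round (q * β) : ℝ) / q : ℝ) : UnitAddCircle) = 0
      rw [← AddCircle.coe_nsmul, nsmul_eq_mul, mul_div_cancel₀ _ hq0.ne', AddCircle.coe_eq_zero_iff]
      exact ⟨round (q * β), by simp⟩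
    · rw [dist_eq_norm, ← AddCircle.coe_sub]
      refine lt_of_le_of_lt (QuotientAddGroup.norm_mk_le_norm) ?_
      rw [Real.norm_eq_abs, lt_div_iff₀ hq0]
      have : (β - (round (q * β) : ℝ) / q) * q = q * β - round (q * β) := by field_simp
      rw [← abs_of_pos hq0, ← abs_mul, abs_of_pos hq0, this]
      exact h

/-- Cassels' zero-one law -/
lemma cassels (P : ℕ → Prop) (hP : ∀ q, P q → 1 ≤ q) (ψ : ℕ → ℝ) (hb : ∀ q, |ψ q| ≤ 1)
    (h : volume ({β : ℝ | ∃ᶠ q in atTop, P q ∧ nd (q * β) < ψ q} ∩ Ioc 0 2) ≠ 0) :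
    volume ({β : ℝ | ∃ᶠ q in atTop, P q ∧ nd (q * β) < ψ q} ∩ Ioc 0 1) = 1 := by
  set s : ℕ → Set UnitAddCircle := fun q => {y | q • y = 0} with hs
  set r : ℕ → ℝ := fun q => ψ q / q with hr
  have hr0 : Tendsto r atTop (𝓝 0) := by
    refine squeeze_zero_norm (a := fun q : ℕ => 1 / (q:ℝ)) (fun q => ?_) tendsto_one_div_atTop_nhds_zero_nat
    simp only [hr, Real.norm_eq_abs, abs_div, Nat.abs_cast]
    exact div_le_div_of_nonneg_right (hb q) (Nat.cast_nonneg q)
  set W : Set UnitAddCircle := blimsup (fun i => thickening (r i) (s i)) atTop P with hW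
  set W2 : Set UnitAddCircle := blimsup (fun i => thickening (2 * r i) (s i)) atTop P with hW2
  have hae : W2 =ᵐ[volume] W := blimsup_thickening_mul_ae_eq volume P s two_pos r hr0
  have hmem : ∀ (u : ℕ → Set UnitAddCircle) (y), y ∈ blimsup u atTop P ↔ ∃ᶠ q in atTop, P q ∧ y ∈ u q := by
    intro u y
    rw [blimsup_eq_limsup, mem_limsup_iff_frequently_mem, frequently_inf_principal]
    rfl
  have hmeas : MeasurableSet W := by
    rw [hW, blimsup_eq_iInf_biSup_of_nat]
    refine MeasurableSet.iInter fun i => MeasurableSet.iUnion fun j => MeasurableSet.iUnion fun _ => ?_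
    exact isOpen_thickening.measurableSet
  have herg : Ergodic (fun y : UnitAddCircle => 2 • y) := AddCircle.ergodic_nsmul one_lt_two
  have hsub : W ⊆ (fun y : UnitAddCircle => 2 • y) ⁻¹' W2 := by
    intro y hy
    rw [mem_preimage, hW2, hmem]
    rw [hW, hmem] at hy
    refine hy.mono fun q ⟨h1, h2⟩ => ⟨h1, ?_⟩
    rw [mem_thickening_iff] at h2 ⊢
    obtain ⟨z, hz, hd⟩ := h2
    refine ⟨2 • z, ?_, ?_⟩
    · show q • 2 • z = 0
      rw [smul_comm, show q • z = 0 from hz, smul_zero]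
    · rw [dist_eq_norm] at hd ⊢
      rw [← smul_sub]
      have h3 : ‖2 • (y - z)‖ ≤ (2:ℕ) * ‖y - z‖ := norm_nsmul_le
      push_cast at h3
      linarith
  have hle : W ≤ᵐ[volume] (fun y : UnitAddCircle => 2 • y) ⁻¹' W :=
    (HasSubset.Subset.eventuallyLE hsub).trans
      (herg.toMeasurePreserving.quasiMeasurePreserving.preimage_ae_eq hae).le
  have hpre : {β : ℝ | ∃ᶠ q in atTop, P q ∧ nd (q * β) < ψ q} = (fun β : ℝ => (β : UnitAddCircle)) ⁻¹' W := by
    ext β
    rw [mem_preimage, hW, hmem, mem_setOf_eq]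
    refine frequently_congr (Eventually.of_forall fun q => ?_)
    refine and_congr_right fun hq => ?_
    exact (mem_thick q (hP q hq) (ψ q) β).symm
  have hvol : ∀ t : ℝ, volume ((fun β : ℝ => (β : UnitAddCircle)) ⁻¹' W ∩ Ioc t (t + 1)) = volume W := by
    intro t
    have := (UnitAddCircle.measurePreserving_mk t).measure_preimage hmeas.nullMeasurableSet
    rw [Measure.restrict_apply (AddCircle.measurable_mk' hmeas)] at this
    exact this
  rw [hpre] at h ⊢
  rcases herg.ae_empty_or_univ_of_ae_le_preimage hmeas.nullMeasurableSet hle with h0 | h1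
  · exfalso
    apply h
    have hz : volume W = 0 := by rw [measure_congr h0]; simp
    have : Ioc (0:ℝ) 2 = Ioc 0 (0 + 1) ∪ Ioc 1 (1 + 1) := by
      rw [zero_add, Ioc_union_Ioc_eq_Ioc] <;> norm_num
    rw [this, inter_union_distrib_left]
    refine measure_union_null ?_ ?_
    · rw [hvol, hz]
    · rw [hvol, hz]
  · have := hvol 0
    rw [zero_add] at this
    rw [this, measure_congr h1]
    simp

/-- Bonferroni with pairwise quasi-independence -/
lemma bonf {ι : Type*} [DecidableEq ι] (E : ι → Set ℝ) (w : ι → ℝ) (c C : ℝ) (hC : 0 ≤ C) (s : Finset ι)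
    (hm : ∀ i, MeasurableSet (E i)) (hsub : ∀ i, E i ⊆ Ioc 0 2)
    (h1 : ∀ i ∈ s, c * w i ≤ volume.real (E i))
    (h2 : ∀ i ∈ s, ∀ j ∈ s, i ≠ j → volume.real (E i ∩ E j) ≤ C * (w i * w j))
    (hw : ∀ i, 0 ≤ w i) :
    c * (∑ i ∈ s, w i) - C * (∑ i ∈ s, w i) ^ 2 ≤ volume.real (⋃ i ∈ s, E i) := by
  have hfin : ∀ A : Set ℝ, A ⊆ Ioc 0 2 → volume A ≠ ⊤ := fun A hA =>
    ne_top_of_le_ne_top (by simp) (measure_mono hA)
  induction s using Finset.induction_on with
  | empty => simp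
  | insert a s ha ih =>
    have ih' := ih (fun i hi => h1 i (Finset.mem_insert_of_mem hi))
      (fun i hi j hj => h2 i (Finset.mem_insert_of_mem hi) j (Finset.mem_insert_of_mem hj))
    rw [Finset.sum_insert ha, Finset.set_biUnion_insert]
    set U := ⋃ i ∈ s, E i with hU
    have hUm : MeasurableSet U := Finset.measurableSet_biUnion s fun i _ => hm i
    have hUs : U ⊆ Ioc 0 2 := iUnion₂_subset fun i _ => hsub i
    have e1 : volume.real (E a ∪ U) + volume.real (E a ∩ U) = volume.real (E a) + volume.real U :=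
      measureReal_union_add_inter hUm (hfin _ (hsub a)) (hfin _ hUs)
    have e2 : volume.real (E a ∩ U) ≤ ∑ j ∈ s, volume.real (E a ∩ E j) := by
      rw [hU, inter_iUnion₂]
      exact measureReal_biUnion_finset_le s _
    have e3 : ∑ j ∈ s, volume.real (E a ∩ E j) ≤ ∑ j ∈ s, C * (w a * w j) :=
      Finset.sum_le_sum fun j hj => h2 a (Finset.mem_insert_self a s) j (Finset.mem_insert_of_mem hj)
        (fun h => ha (h ▸ hj))
    rw [← Finset.mul_sum, ← Finset.mul_sum] at e3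
    have e4 := h1 a (Finset.mem_insert_self a s)
    have hS : 0 ≤ ∑ i ∈ s, w i := Finset.sum_nonneg fun i _ => hw i
    have := hw a
    nlinarith [mul_nonneg hC (mul_nonneg this hS), mul_nonneg hC (mul_nonneg this this)]

/-- divergence Borel-Cantelli, positive measure -/
lemma bc (E : ℕ → Set ℝ) (w : ℕ → ℝ) (G : ℕ → Prop) [DecidablePred G]
    (hm : ∀ i, MeasurableSet (E i)) (hsub : ∀ i, E i ⊆ Ioc 0 2)
    (h1 : ∀ i, G i → 1 / 4 * w i ≤ volume.real (E i))
    (h2 : ∀ i j, G i → G j → i ≠ j → volume.real (E i ∩ E j) ≤ 12 * (w i * w j))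
    (hw : ∀ i, 0 ≤ w i) (hw' : ∀ i, w i ≤ 1 / 200)
    (hdiv : Tendsto (fun N => ∑ i ∈ Finset.range N, if G i then w i else 0) atTop atTop) :
    volume ({β : ℝ | ∃ᶠ q in atTop, G q ∧ β ∈ E q} ∩ Ioc 0 2) ≠ 0 := by
  have hfin : ∀ A : Set ℝ, A ⊆ Ioc 0 2 → volume A ≠ ⊤ := fun A hA =>
    ne_top_of_le_ne_top (by simp) (measure_mono hA)
  set U : ℕ → Set ℝ := fun N => ⋃ q ∈ {q | N ≤ q ∧ G q}, E q with hU
  have hUs : ∀ N, U N ⊆ Ioc 0 2 := fun N => iUnion₂_subset fun i _ => hsub i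
  have key : ∀ N, (1 / 2000 : ℝ) ≤ volume.real (U N) := by
    intro N
    set a : ℕ → ℝ := fun i => if G i then w i else 0 with ha
    have hex : ∃ M, (1 / 200 : ℝ) ≤ ∑ i ∈ Finset.Ico N M, a i := by
      obtain ⟨M, hM1, hM2⟩ := ((hdiv.eventually_ge_atTop (∑ i ∈ Finset.range N, a i + 1 / 200)).and
        (eventually_ge_atTop N)).exists
      refine ⟨M, ?_⟩
      rw [Finset.sum_Ico_eq_sub _ hM2]
      linarith
    classical
    set M := Nat.find hex with hM
    have hM1 : (1 / 200 : ℝ) ≤ ∑ i ∈ Finset.Ico N M, a i := Nat.find_spec hex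
    have hNM : N < M := by
      by_contra hc
      rw [Finset.Ico_eq_empty_of_le (not_lt.1 hc)] at hM1
      norm_num at hM1
    have hM2 : ∑ i ∈ Finset.Ico N M, a i ≤ 1 / 100 := by
      obtain ⟨M', hM'⟩ : ∃ M', M = M' + 1 := ⟨M - 1, by omega⟩
      have h3 := Nat.find_min hex (m := M') (by omega)
      rw [hM', Finset.sum_Ico_succ_top (by omega)]
      have : a M' ≤ 1 / 200 := by
        simp only [ha]; split_ifs
        · exact hw' _
        · norm_num
      linarith [not_le.1 h3]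
    have hb := bonf E w (1 / 4) 12 (by norm_num) ((Finset.Ico N M).filter G) hm hsub
      (fun i hi => h1 i (Finset.mem_filter.1 hi).2)
      (fun i hi j hj => h2 i j (Finset.mem_filter.1 hi).2 (Finset.mem_filter.1 hj).2) hw
    rw [Finset.sum_filter] at hb
    have hmono : volume.real (⋃ i ∈ (Finset.Ico N M).filter G, E i) ≤ volume.real (U N) := by
      refine measureReal_mono ?_ (hfin _ (hUs N))
      intro x hx
      simp only [mem_iUnion, Finset.mem_filter, Finset.mem_Ico] at hx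
      obtain ⟨i, ⟨⟨h3, _⟩, h4⟩, h5⟩ := hx
      exact mem_biUnion (show i ∈ {q | N ≤ q ∧ G q} from ⟨h3, h4⟩) h5
    change 1 / 4 * (∑ i ∈ Finset.Ico N M, a i) - 12 * (∑ i ∈ Finset.Ico N M, a i) ^ 2 ≤ _ at hb
    nlinarith
  have hanti : Antitone U := by
    intro N N' h x hx
    simp only [hU, mem_iUnion, mem_setOf_eq] at hx ⊢
    obtain ⟨i, ⟨h3, h4⟩, h5⟩ := hx
    exact ⟨i, ⟨h.trans h3, h4⟩, h5⟩
  have hUm : ∀ N, MeasurableSet (U N) := fun N =>
    MeasurableSet.biUnion (to_countable _) fun i _ => hm i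
  have hlim := hanti.measure_iInter (μ := volume) (fun N => (hUm N).nullMeasurableSet) ⟨0, hfin _ (hUs 0)⟩
  have hge : ENNReal.ofReal (1 / 2000) ≤ volume (⋂ N, U N) := by
    rw [hlim]
    refine le_iInf fun N => ?_
    rw [ENNReal.ofReal_le_iff_le_toReal (hfin _ (hUs N))]
    exact key N
  intro h0
  have hs : (⋂ N, U N) ⊆ {β : ℝ | ∃ᶠ q in atTop, G q ∧ β ∈ E q} ∩ Ioc 0 2 := by
    intro x hx
    rw [mem_iInter] at hx
    refine ⟨?_, hUs 0 (hx 0)⟩
    rw [mem_setOf_eq, frequently_atTop]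
    intro N
    have := hx N
    simp only [hU, mem_iUnion, mem_setOf_eq] at this
    obtain ⟨i, ⟨h3, h4⟩, h5⟩ := this
    exact ⟨i, h3, h4, h5⟩
  have := (hge.trans (measure_mono hs)).trans h0.le
  simp at this

end Pool.Agent.H53.Vert
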