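import Mathlib
import Pool.Agent.H53.VertA

open Finset

namespace Pool.Agent.H53.Dm
open Pool.Agent.H53.Vert (nd)

lemma geo {ι : Type*} [Fintype ι] [DecidableEq ι] (L : AddSubgroup (ι → ℝ))
    (hL : ∀ y ∈ L, (∀ j, |y j| ≤ 1) → y = 0) (κ : ι → ℝ) (Y : ℝ) (hY : 1 ≤ Y) (hκ : ∀ j, Y ≤ κ j)
    (Z : Finset (ι → ℝ)) (hZ : ∀ y ∈ Z, y ∈ L ∧ ∀ j, |y j| ≤ κ j) :
    (∀ z : ι → ℝ, ∃ y ∈ L, ∀ j, |y j - z j| ≤ Fintype.card ι * κ j) ∨
      (Z.card : ℝ) * Y ≤ (4 * Fintype.card ι) ^ Fintype.card ι * ∏ j, κ j := by
  classical
  set k := Fintype.card ι with hk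
  by_cases hs : Submodule.span ℝ (Z : Set (ι → ℝ)) = ⊤
  · left
    intro z
    obtain ⟨b, hb, hsp, hli⟩ := exists_linearIndependent ℝ (Z : Set (ι → ℝ))
    have hfin : b.Finite := Z.finite_toSet.subset hb
    lift b to Finset (ι → ℝ) using hfin
    have hc : b.card ≤ k := by
      have := LinearIndependent.finset_card_le_finrank hli
      rwa [Module.finrank_fintype_fun_eq_card] at this
    have hz : z ∈ Submodule.span ℝ (b : Set (ι → ℝ)) := by rw [hsp, hs]; trivial
    obtain ⟨f, -, hf⟩ := Submodule.mem_span_finset.1 hz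
    refine ⟨∑ v ∈ b, (round (f v) : ℤ) • v, L.sum_mem fun v hv => L.zsmul_mem (hZ v (hb hv)).1 _, fun j => ?_⟩
    rw [← hf]
    simp only [Finset.sum_apply, Pi.smul_apply, smul_eq_mul, zsmul_eq_mul, Pi.mul_apply, Pi.intCast_apply]
    rw [← Finset.sum_sub_distrib]
    refine (Finset.abs_sum_le_sum_abs _ _).trans ((Finset.sum_le_card_nsmul _ _ (κ j) fun v hv => ?_).trans ?_)
    · rw [← sub_mul, abs_mul, abs_sub_comm]
      have h1 := abs_sub_round (f v)
      have h2 := (hZ v (hb hv)).2 j
      nlinarith [abs_nonneg (v j), abs_nonneg (f v - round (f v))]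
    · rw [nsmul_eq_mul]
      exact mul_le_mul_of_nonneg_right (by exact_mod_cast hc) (by linarith [hκ j])
  · right
    obtain ⟨f, hf0, hf⟩ := Submodule.exists_le_ker_of_lt_top _ (lt_top_iff_ne_top.2 hs)
    set c : ι → ℝ := fun i => f fun j => if i = j then 1 else 0 with hc
    have hfc : ∀ x, f x = ∑ i, x i * c i := fun x => by
      rw [LinearMap.pi_apply_eq_sum_univ]; rfl
    have hne : ∃ i, c i ≠ 0 := by
      by_contra hn
      push Not at hn
      exact hf0 (LinearMap.ext fun x => by simp [hfc, hn])
    obtain ⟨i0, hi0⟩ := hne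
    obtain ⟨j0, -, hj0⟩ := Finset.exists_max_image Finset.univ (fun i => |c i|) ⟨i0, mem_univ _⟩
    have hc0 : 0 < |c j0| := (abs_pos.2 hi0).trans_le (hj0 i0 (mem_univ _))
    have hk1 : (1:ℝ) ≤ k := by exact_mod_cast Fintype.card_pos_iff.2 ⟨i0⟩
    set S : ι → Finset ℤ := fun j => if j = j0 then {0} else Finset.Icc (-⌈k * κ j⌉) ⌊k * κ j⌋ with hS
    have hcard : Z.card ≤ (Fintype.piFinset S).card := by
      refine Finset.card_le_card_of_injOn (fun y j => if j = j0 then 0 else ⌊k * y j⌋) ?_ ?_
      · intro y hy
        rw [Finset.mem_coe, Fintype.mem_piFinset]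
        intro j
        simp only [hS]
        split_ifs
        · simp
        · have := abs_le.1 ((hZ y hy).2 j)
          rw [Finset.mem_Icc, Int.le_floor]
          refine ⟨?_, Int.floor_mono (by nlinarith)⟩
          push_cast
          nlinarith [Int.le_ceil (k * κ j)]
      · intro y hy y' hy' h
        have hd : ∀ j, j ≠ j0 → |y j - y' j| ≤ 1 / k := by
          intro j hj
          have h1 := congrFun h j
          simp only [hj, if_false] at h1
          have := Int.abs_sub_lt_one_of_floor_eq_floor h1
          rw [← mul_sub, abs_mul, abs_of_pos (by linarith : (0:ℝ) < k)] at this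
          rw [le_div_iff₀ (by linarith)]
          linarith
        have h1k : 1 / (k:ℝ) ≤ 1 := by rw [div_le_one (by linarith)]; exact hk1
        refine sub_eq_zero.1 (hL _ (L.sub_mem (hZ y hy).1 (hZ y' hy').1) fun j => ?_)
        by_cases hj : j = j0
        · have e1 : f y = 0 := hf (Submodule.subset_span hy)
          have e2 : f y' = 0 := hf (Submodule.subset_span hy')
          have e3 : ∑ i, (y i - y' i) * c i = 0 := by
            rw [hfc] at e1 e2
            simp only [sub_mul, Finset.sum_sub_distrib, e1, e2, sub_zero]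
          rw [← Finset.add_sum_erase _ _ (mem_univ j0)] at e3
          have e4 : |(y j0 - y' j0) * c j0| ≤ k * (1 / k * |c j0|) := by
            rw [eq_neg_of_add_eq_zero_left e3, abs_neg]
            refine (Finset.abs_sum_le_sum_abs _ _).trans
              ((Finset.sum_le_card_nsmul _ _ (1 / k * |c j0|) fun i hi => ?_).trans ?_)
            · rw [abs_mul]
              exact mul_le_mul (hd i (Finset.mem_erase.1 hi).1) (hj0 i (mem_univ _)) (abs_nonneg _) (by positivity)
            · rw [nsmul_eq_mul]
              refine mul_le_mul_of_nonneg_right ?_ (by positivity)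
              exact_mod_cast Finset.card_le_univ _
          rw [← mul_assoc, mul_one_div_cancel (by linarith), abs_mul] at e4
          rw [hj, Pi.sub_apply]
          exact le_of_mul_le_mul_right e4 hc0
        · exact (hd j hj).trans h1k
    rw [Fintype.card_piFinset] at hcard
    have h2 : (Z.card : ℝ) ≤ ∏ j, ((S j).card : ℝ) := by exact_mod_cast hcard
    calc (Z.card : ℝ) * Y ≤ (∏ j, ((S j).card : ℝ)) * ∏ j, (if j = j0 then Y else 1) := by
          rw [Finset.prod_ite_eq']
          simp only [mem_univ, if_true]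
          exact mul_le_mul_of_nonneg_right h2 (by linarith)
      _ ≤ ∏ j, (4 * k * κ j) := by
          rw [← Finset.prod_mul_distrib]
          refine Finset.prod_le_prod (fun j _ => mul_nonneg (Nat.cast_nonneg _) (by
            by_cases hj : j = j0
            · rw [if_pos hj]; linarith
            · rw [if_neg hj]; exact zero_le_one)) fun j _ => ?_
          have := hκ j
          simp only [hS]
          split_ifs with hj
          · simp only [Finset.card_singleton, Nat.cast_one, one_mul]
            nlinarith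
          · rw [Int.card_Icc, mul_one]
            have a1 := Int.floor_le (k * κ j)
            have a2 := Int.ceil_lt_add_one (k * κ j)
            have a3 : 1 ≤ k * κ j := by nlinarith
            have a4 : 0 ≤ ⌊k * κ j⌋ + 1 - -⌈k * κ j⌉ := by
              have := Int.floor_nonneg.2 (show 0 ≤ k * κ j by linarith)
              have := Int.ceil_nonneg (show 0 ≤ k * κ j by linarith)
              omega
            have a5 : (((⌊k * κ j⌋ + 1 - -⌈k * κ j⌉).toNat : ℕ) : ℝ) = ((⌊k * κ j⌋ + 1 - -⌈k * κ j⌉ : ℤ) : ℝ) := by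
              rw [← Int.cast_natCast, Int.toNat_of_nonneg a4]
            rw [a5]
            push_cast
            linarith
      _ = _ := by rw [Finset.prod_mul_distrib, Finset.prod_const, Finset.card_univ]

/-- normalised lattice map -/
noncomputable def lat {r : ℕ} (α ρ : Fin r → ℝ) (e : ℝ) : (Fin r → ℤ) × ℤ →+ (Option (Fin r) → ℝ) where
  toFun p := fun o => o.elim ((∑ i, p.1 i * α i - p.2) / e) fun i => p.1 i / ρ i
  map_zero' := by funext o; cases o <;> simp
  map_add' p q := by
    funext o
    cases o with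
    | none => simp [add_mul, Finset.sum_add_distrib]; ring
    | some i => simp [add_div]

lemma cnt {r : ℕ} (α R : Fin r → ℝ) (η y : ℝ) (hy : 1 ≤ y) (hR : ∀ i, 1 ≤ R i)
    (hT : y ^ r ≤ η * ∏ i, R i)
    (hD : ∀ w : Fin r → ℤ, w ≠ 0 → (∀ i, |(w i : ℝ)| ≤ R i / y) → 1 / (y * ∏ i, (R i / y)) < nd (∑ i, w i * α i))
    (h1 : 1 < y * ∏ i, (R i / y))
    (Z : Finset (Fin r → ℤ)) (hZ : ∀ w ∈ Z, (∀ i, |(w i : ℝ)| ≤ R i) ∧ nd (∑ i, w i * α i) < η) :
    (Z.card : ℝ) ≤ (4 * (r + 2)) ^ (r + 1) * (η * ∏ i, R i) := by
  classical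
  have hy0 : 0 < y := by linarith
  have hR0 : ∀ i, 0 < R i := fun i => by linarith [hR i]
  have hP : 0 < ∏ i, R i := Finset.prod_pos fun i _ => hR0 i
  have hη : 0 < η := by
    have : 0 < η * ∏ i, R i := (pow_pos hy0 r).trans_le hT
    exact (mul_pos_iff_of_pos_right hP).1 this
  set e := 1 / (y * ∏ i, (R i / y)) with he
  have he0 : 0 < e := by positivity
  have hpr : ∏ i, (R i / y) = (∏ i, R i) / y ^ r := by
    rw [Finset.prod_div_distrib, Finset.prod_const, Finset.card_univ, Fintype.card_fin]
  have hκ0 : η / e * y ^ r = y * (η * ∏ i, R i) := by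
    rw [he, hpr]; field_simp
  set φ := lat α (fun i => R i / y) e with hφ
  have hφ0 : ∀ p, φ p none = (∑ i, p.1 i * α i - p.2) / e := fun p => rfl
  have hφ1 : ∀ p i, φ p (some i) = p.1 i / (R i / y) := fun p i => rfl
  have hinj : Function.Injective fun w : Fin r → ℤ => φ (w, round (∑ i, w i * α i)) := by
    intro w w' h
    funext i
    have := congrFun h (some i)
    simp only [hφ1] at this
    have h2 : R i / y ≠ 0 := (div_pos (hR0 i) hy0).ne'
    exact_mod_cast (div_left_inj' h2).1 this
  rcases geo φ.range (by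
      rintro _ ⟨⟨w, h⟩, rfl⟩ hb
      have b0 := hb none
      rw [hφ0, abs_div, abs_of_pos he0, div_le_one he0] at b0
      have hw : w = 0 := by
        by_contra hw
        refine absurd (hD w hw fun i => ?_) (not_lt.2 ((round_le _ h).trans b0))
        have := hb (some i)
        rwa [hφ1, abs_div, abs_of_pos (div_pos (hR0 i) hy0), div_le_one (div_pos (hR0 i) hy0)] at this
      subst hw
      have : h = 0 := by
        simp only [Pi.zero_apply, Int.cast_zero, zero_mul, Finset.sum_const_zero, zero_sub, abs_neg] at b0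
        have h3 : e < 1 := by rw [he, div_lt_one (by linarith)]; exact h1
        have h4 : |h| < 1 := by exact_mod_cast b0.trans_lt h3
        exact Int.abs_lt_one_iff.1 h4
      rw [this]
      exact map_zero φ)
    (fun o => o.elim (η / e) fun _ => y) y hy (by
      intro o
      cases o with
      | none =>
        refine le_of_mul_le_mul_right ?_ (pow_pos hy0 r)
        simp only [Option.elim]
        rw [hκ0]
        exact mul_le_mul_of_nonneg_left hT hy0.le
      | some i => exact le_rfl)
    (Z.image fun w => φ (w, round (∑ i, w i * α i))) (by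
      intro v hv
      obtain ⟨w, hw, rfl⟩ := Finset.mem_image.1 hv
      refine ⟨⟨_, rfl⟩, fun o => ?_⟩
      cases o with
      | none =>
        rw [hφ0, abs_div, abs_of_pos he0]
        exact div_le_div_of_nonneg_right (hZ w hw).2.le he0.le
      | some i =>
        rw [hφ1, abs_div, abs_of_pos (div_pos (hR0 i) hy0), div_le_iff₀ (div_pos (hR0 i) hy0)]
        simp only [Option.elim]
        rw [mul_div_cancel₀ _ hy0.ne']
        exact (hZ w hw).1 i) with hc | hc
  · simp only [Fintype.card_option, Fintype.card_fin] at hc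
    have hc' : ∀ θ : ℝ, ∃ p : (Fin r → ℤ) × ℤ, (∀ i, |(p.1 i : ℝ)| ≤ (r + 1) * R i) ∧
        |∑ i, p.1 i * α i - p.2 - θ| ≤ (r + 1) * η := by
      intro θ
      obtain ⟨_, ⟨p, rfl⟩, h⟩ := hc fun o => o.elim (θ / e) fun _ => 0
      refine ⟨p, fun i => ?_, ?_⟩
      · have := h (some i)
        simp only [hφ1, Option.elim, sub_zero] at this
        rw [abs_div, abs_of_pos (div_pos (hR0 i) hy0), div_le_iff₀ (div_pos (hR0 i) hy0), mul_assoc,
          mul_div_cancel₀ _ hy0.ne'] at this
        exact_mod_cast this
      · have := h none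
        simp only [hφ0, Option.elim] at this
        rw [← sub_div, abs_div, abs_of_pos he0, ← mul_div_assoc, div_le_div_iff_of_pos_right he0] at this
        exact_mod_cast this
    choose p hp1 hp2 using hc'
    set s := 2 * (r + 2) * η with hs
    have hs0 : 0 < s := by positivity
    set J := ⌊1 / (2 * s)⌋₊ with hJ
    have hJ1 : J * s ≤ 1 / 2 := by
      have := Nat.floor_le (show 0 ≤ 1 / (2 * s) by positivity)
      rw [le_div_iff₀ (by positivity)] at this
      linarith
    have hJ2 : 1 ≤ (J + 1) * (2 * s) := by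
      have := Nat.lt_floor_add_one (1 / (2 * s))
      rw [div_lt_iff₀ (by positivity)] at this
      exact this.le
    have hcard : (Finset.range (J + 1) ×ˢ Z).card ≤
        (Fintype.piFinset fun i => Finset.Icc (-⌊(r + 2) * R i⌋) ⌊(r + 2) * R i⌋).card := by
      refine Finset.card_le_card_of_injOn (fun x => x.2 + (p (x.1 * s)).1) ?_ ?_
      · intro x hx
        rw [Finset.mem_coe, Fintype.mem_piFinset]
        intro i
        rw [Finset.mem_Icc, ← abs_le, Int.le_floor]
        have a1 := (hZ x.2 (Finset.mem_product.1 hx).2).1 i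
        have a2 := hp1 (x.1 * s) i
        simp only [Pi.add_apply]
        push_cast
        linarith [abs_add_le (x.2 i : ℝ) ((p (x.1 * s)).1 i)]
      · rintro ⟨j, w⟩ hx ⟨j', w'⟩ hx' h
        obtain ⟨b1, b2⟩ := Finset.mem_product.1 hx
        obtain ⟨b1', b2'⟩ := Finset.mem_product.1 hx'
        simp only at h b1 b2 b1' b2'
        have hj : j = j' := by
          by_contra hne
          have c1 := abs_lt.1 (hZ w b2).2
          have c2 := abs_lt.1 (hZ w' b2').2
          have c3 := abs_le.1 (hp2 (j * s))
          have c4 := abs_le.1 (hp2 (j' * s))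
          have c5 : ∑ i, w i * α i + ∑ i, (p (j * s)).1 i * α i = ∑ i, w' i * α i + ∑ i, (p (j' * s)).1 i * α i := by
            rw [← Finset.sum_add_distrib, ← Finset.sum_add_distrib]
            refine Finset.sum_congr rfl fun i _ => ?_
            have := congrFun h i
            simp only [Pi.add_apply] at this
            have h3 : (w i : ℝ) + (p (j * s)).1 i = w' i + (p (j' * s)).1 i := by exact_mod_cast this
            linear_combination α i * h3
          set H : ℤ := round (∑ i, w' i * α i) + (p (j' * s)).2 - round (∑ i, w i * α i) - (p (j * s)).2 with hH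
          have c6 : |(j:ℝ) * s - j' * s - H| < s := by
            rw [abs_lt, hH]
            push_cast
            constructor <;> linarith [c1.1, c1.2, c2.1, c2.2, c3.1, c3.2, c4.1, c4.2]
          have d1 : (j:ℝ) ≤ J := by exact_mod_cast Nat.lt_succ_iff.1 (Finset.mem_range.1 b1)
          have d2 : (j':ℝ) ≤ J := by exact_mod_cast Nat.lt_succ_iff.1 (Finset.mem_range.1 b1')
          have d3 : (0:ℝ) ≤ j := Nat.cast_nonneg _
          have d4 : (0:ℝ) ≤ j' := Nat.cast_nonneg _
          have d5 : (j:ℝ) + 1 ≤ j' ∨ (j':ℝ) + 1 ≤ j := by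
            rcases lt_or_gt_of_ne hne with h | h
            · left; exact_mod_cast h
            · right; exact_mod_cast h
          have d6 : s ≤ 1 / 2 := by rcases d5 with h | h <;> nlinarith
          rw [abs_lt] at c6
          have d7 : (H:ℝ) < 1 := by nlinarith
          have d8 : (-1:ℝ) < H := by nlinarith
          have d9 : H = 0 := by
            have e1 : H < 1 := by exact_mod_cast d7
            have e2 : -1 < H := by exact_mod_cast d8
            omega
          rw [d9] at c6
          push_cast at c6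
          rcases d5 with h | h <;> nlinarith
        subst hj
        exact Prod.ext rfl (add_right_cancel h)
    rw [Finset.card_product, Finset.card_range, Fintype.card_piFinset] at hcard
    have h2 : ((J:ℝ) + 1) * Z.card ≤ ∏ i, (4 * (r + 2) * R i) := by
      have : ((J:ℝ) + 1) * Z.card ≤ ∏ i, ((Finset.Icc (-⌊(r + 2) * R i⌋) ⌊(r + 2) * R i⌋).card : ℝ) := by
        exact_mod_cast hcard
      refine this.trans (Finset.prod_le_prod (fun i _ => Nat.cast_nonneg _) fun i _ => ?_)
      have a0 : 1 ≤ (r + 2) * R i := by nlinarith [hR i, Nat.cast_nonneg (α := ℝ) r]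
      have a1 := Int.floor_le ((r + 2) * R i)
      have a4 : 0 ≤ ⌊(r + 2) * R i⌋ + 1 - -⌊(r + 2) * R i⌋ := by
        have := Int.floor_nonneg.2 (show 0 ≤ (r + 2) * R i by linarith)
        omega
      rw [Int.card_Icc, ← Int.cast_natCast, Int.toNat_of_nonneg a4]
      push_cast
      linarith
    rw [Finset.prod_mul_distrib, Finset.prod_const, Finset.card_univ, Fintype.card_fin] at h2
    calc (Z.card : ℝ) ≤ (J + 1) * (2 * s) * Z.card := le_mul_of_one_le_left (Nat.cast_nonneg _) hJ2
      _ = (2 * s) * ((J + 1) * Z.card) := by ring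
      _ ≤ (2 * s) * ((4 * (r + 2)) ^ r * ∏ i, R i) := mul_le_mul_of_nonneg_left h2 (by positivity)
      _ = _ := by rw [hs]; ring
  · rw [Finset.card_image_of_injective _ hinj, Fintype.prod_option] at hc
    simp only [Fintype.card_option, Fintype.card_fin, Option.elim, Finset.prod_const, Finset.card_univ] at hc
    rw [hκ0, mul_left_comm, mul_comm y] at hc
    refine (le_of_mul_le_mul_right hc hy0).trans (mul_le_mul_of_nonneg_right ?_ (by positivity))
    refine pow_le_pow_left₀ (by positivity) ?_ _
    push_cast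
    linarith

end Pool.Agent.H53.Dm
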