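import Mathlib
import Pool.Agent.H53.DmA

open MeasureTheory Set Metric

namespace Pool.Agent.H53.Dm
open Pool.Agent.H53.Vert (nd)

/-- one interval -/
def JJ (a p : ℕ) (β δ : ℝ) : Set ℝ := ball ((p - Int.fract β) / a) (δ / a)

/-- target set -/
def EI (a : ℕ) (β δ : ℝ) : Set ℝ := ⋃ p ∈ Finset.Ioc 0 a, JJ a p β δ

lemma JJ_mem (a p : ℕ) (ha : 1 ≤ a) (β δ x : ℝ) : x ∈ JJ a p β δ ↔ |a * x - (p - Int.fract β)| < δ := by
  have h : (0:ℝ) < a := by exact_mod_cast ha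
  unfold JJ
  rw [mem_ball, Real.dist_eq, lt_div_iff₀ h]
  have : (a:ℝ) * x - (p - Int.fract β) = (x - (p - Int.fract β) / a) * a := by field_simp
  rw [this, abs_mul, abs_of_pos h]

lemma JJ_fin (a p : ℕ) (β δ : ℝ) : volume (JJ a p β δ) ≠ ⊤ := measure_ball_lt_top.ne

lemma EI_meas (a : ℕ) (β δ : ℝ) : MeasurableSet (EI a β δ) :=
  Finset.measurableSet_biUnion _ fun _ _ => measurableSet_ball

lemma EI_fin (a : ℕ) (β δ : ℝ) : volume (EI a β δ) ≠ ⊤ :=
  (measure_biUnion_lt_top (Finset.finite_toSet _) fun _ _ => (JJ_fin _ _ _ _).lt_top).ne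

lemma EI_prop (a : ℕ) (β δ x : ℝ) (hδ : δ ≤ 1 / 2) (hx : x ∈ EI a β δ) :
    nd (β + a * x) < δ ∧ x ∈ Ioc (-1:ℝ) 2 := by
  simp only [EI, mem_iUnion, Finset.mem_Ioc] at hx
  obtain ⟨p, ⟨h1, h2⟩, h3⟩ := hx
  have ha : 1 ≤ a := by omega
  rw [JJ_mem _ _ ha] at h3
  constructor
  · refine lt_of_le_of_lt ((round_le _ (p + ⌊β⌋)).trans_eq ?_) h3
    congr 1
    simp only [Int.fract]
    push_cast
    ring
  · have a0 : (1:ℝ) ≤ a := by exact_mod_cast ha
    have a1 : (1:ℝ) ≤ p := by exact_mod_cast h1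
    have a2 : (p:ℝ) ≤ a := by exact_mod_cast h2
    have a3 := Int.fract_nonneg β
    have a4 := Int.fract_lt_one β
    rw [abs_lt] at h3
    constructor
    · by_contra hc
      nlinarith [h3.1, not_lt.1 hc]
    · by_contra hc
      nlinarith [h3.2, not_le.1 hc]

lemma EI_vol (a : ℕ) (ha : 1 ≤ a) (β δ : ℝ) (h0 : 0 ≤ δ) (h1 : δ ≤ 1 / 2) : volume.real (EI a β δ) = 2 * δ := by
  have h : (0:ℝ) < a := by exact_mod_cast ha
  unfold EI
  rw [measureReal_biUnion_finset (f := fun p => JJ a p β δ) _ (fun _ _ => measurableSet_ball)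
    (fun r _ => JJ_fin _ _ _ _)]
  · simp only [JJ]
    rw [Finset.sum_congr rfl fun p _ => Real.volume_real_ball (show 0 ≤ δ / a by positivity)]
    simp only [Finset.sum_const, Nat.card_Ioc, Nat.sub_zero, nsmul_eq_mul]
    field_simp
  · intro r _ r' _ hne
    rw [Function.onFun, Set.disjoint_left]
    intro x hx hx'
    rw [JJ_mem _ _ ha, abs_lt] at hx hx'
    have a1 : (r:ℝ) < r' + 1 := by linarith [hx.1, hx'.2]
    have a2 : (r':ℝ) < r + 1 := by linarith [hx.2, hx'.1]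
    have b1 : r < r' + 1 := by exact_mod_cast a1
    have b2 : r' < r + 1 := by exact_mod_cast a2
    omega

lemma eq_of_div (a b : ℕ) (ha : 0 < a) (hab : Nat.Coprime a b) (x y x' y' : ℕ)
    (h : (x:ℤ) * b - y * a = x' * b - y' * a) (h2 : x / a = x' / a) : x = x' ∧ y = y' := by
  have hd : (a:ℤ) ∣ ((x:ℤ) - x') * b := ⟨y - y', by linear_combination h⟩
  have hd' : (a:ℤ) ∣ (x:ℤ) - x' := (Nat.isCoprime_iff_coprime.2 hab).dvd_of_dvd_mul_right hd
  have hmod : x' % a = x % a := (Nat.modEq_iff_dvd).2 hd'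
  have e3 : x = x' := by
    rw [← Nat.div_add_mod x a, ← Nat.div_add_mod x' a, h2, hmod]
  refine ⟨e3, ?_⟩
  rw [e3] at h
  have : (y:ℤ) * a = y' * a := by linarith
  have ha' : (a:ℤ) ≠ 0 := by exact_mod_cast ha.ne'
  exact_mod_cast mul_right_cancel₀ ha' this

lemma pair_card (g a b : ℕ) (ha : 0 < a) (hab : Nat.Coprime a b) (γ η : ℝ) (hη : 0 ≤ η)
    (P : Finset (ℕ × ℕ)) (hP : ∀ x ∈ P, 0 < x.1 ∧ x.1 ≤ g * a ∧ |(x.1:ℝ) * b - x.2 * a - γ| < η) :
    (P.card : ℝ) ≤ (2 * η + 1) * g := by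
  have hcard : P.card ≤ ((Finset.Icc ⌈γ - η⌉ ⌊γ + η⌋) ×ˢ (Finset.range g)).card := by
    refine Finset.card_le_card_of_injOn (fun x => ((x.1:ℤ) * b - x.2 * a, (x.1 - 1) / a)) ?_ ?_
    · intro x hx
      obtain ⟨h1, h2, h3⟩ := hP x hx
      rw [Finset.mem_coe, Finset.mem_product, Finset.mem_range, Finset.mem_Icc, Int.ceil_le, Int.le_floor]
      rw [abs_lt] at h3
      refine ⟨?_, ?_⟩
      · push_cast
        constructor <;> linarith [h3.1, h3.2]
      · show (x.1 - 1) / a < g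
        rw [Nat.div_lt_iff_lt_mul ha]
        omega
    · intro x hx y hy hxy
      obtain ⟨h1, h2, h3⟩ := hP x hx
      obtain ⟨h1', h2', h3'⟩ := hP y hy
      simp only [Prod.mk.injEq] at hxy
      obtain ⟨e1, e2⟩ := eq_of_div a b ha hab (x.1 - 1) x.2 (y.1 - 1) y.2 (by
        rw [Nat.cast_sub h1, Nat.cast_sub h1']
        push_cast
        linarith [hxy.1]) hxy.2
      exact Prod.ext (by omega) e2
  rw [Finset.card_product, Int.card_Icc, Finset.card_range] at hcard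
  have h1 : ((⌊γ + η⌋ + 1 - ⌈γ - η⌉).toNat : ℝ) ≤ 2 * η + 1 := by
    rcases le_total (⌊γ + η⌋ + 1 - ⌈γ - η⌉) 0 with h | h
    · rw [Int.toNat_of_nonpos h]; simp; linarith
    · rw [← Int.cast_natCast, Int.toNat_of_nonneg h]
      push_cast
      linarith [Int.floor_le (γ + η), Int.le_ceil (γ - η)]
  have : (P.card : ℝ) ≤ ((⌊γ + η⌋ + 1 - ⌈γ - η⌉).toNat : ℝ) * g := by exact_mod_cast hcard
  exact this.trans (mul_le_mul_of_nonneg_right h1 (Nat.cast_nonneg _))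

open Classical in
lemma EI_inter (g a b : ℕ) (hg : 0 < g) (ha : 0 < a) (hb : 0 < b) (hab : Nat.Coprime a b)
    (β β' δ δ' Δ μ : ℝ) (h0 : 0 ≤ δ) (h0' : 0 ≤ δ') (hΔ : δ * (g * b) + δ' * (g * a) ≤ Δ)
    (hμ : min (δ / (g * a)) (δ' / (g * b)) ≤ μ) :
    volume.real (EI (g * a) β δ ∩ EI (g * b) β' δ') ≤
      2 * μ * (2 * Δ + g * if nd (b * β - a * β') < Δ / g then 1 else 0) := by
  have hg0 : (0:ℝ) < g := by exact_mod_cast hg
  have ha0 : (0:ℝ) < a := by exact_mod_cast ha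
  have hb0 : (0:ℝ) < b := by exact_mod_cast hb
  have hΔ0 : 0 ≤ Δ := le_trans (by positivity) hΔ
  have hμ0 : 0 ≤ μ := le_trans (le_min (by positivity) (by positivity)) hμ
  have hga : 1 ≤ g * a := Nat.mul_pos hg ha
  have hgb : 1 ≤ g * b := Nat.mul_pos hg hb
  set γ := b * Int.fract β - a * Int.fract β' with hγ
  set P := (Finset.Ioc 0 (g * a) ×ˢ Finset.Ioc 0 (g * b)).filter
    fun x => |(x.1:ℝ) * b - x.2 * a - γ| < Δ / g with hP
  have hsub : EI (g * a) β δ ∩ EI (g * b) β' δ' ⊆ ⋃ x ∈ P, (JJ (g * a) x.1 β δ ∩ JJ (g * b) x.2 β' δ') := by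
    rintro y ⟨h1, h2⟩
    simp only [EI, mem_iUnion] at h1 h2
    obtain ⟨r, hr, h1⟩ := h1
    obtain ⟨r', hr', h2⟩ := h2
    simp only [mem_iUnion]
    refine ⟨(r, r'), Finset.mem_filter.2 ⟨Finset.mem_product.2 ⟨hr, hr'⟩, ?_⟩, h1, h2⟩
    rw [JJ_mem _ _ hga] at h1
    rw [JJ_mem _ _ hgb] at h2
    push_cast at h1 h2
    have e : (r:ℝ) * b - r' * a - γ = (g * b * y - (r' - Int.fract β')) * a - (g * a * y - (r - Int.fract β)) * b := by
      rw [hγ]; ring
    rw [e, lt_div_iff₀ hg0]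
    refine (mul_le_mul_of_nonneg_right (abs_sub _ _) hg0.le).trans_lt ?_
    rw [abs_mul, abs_mul, abs_of_pos ha0, abs_of_pos hb0]
    nlinarith [mul_lt_mul_of_pos_right h1 (mul_pos hg0 hb0), mul_lt_mul_of_pos_right h2 (mul_pos hg0 ha0)]
  have hcard : (P.card : ℝ) ≤ 2 * Δ + g * if nd (b * β - a * β') < Δ / g then 1 else 0 := by
    split_ifs with h
    · refine (pair_card g a b ha hab γ (Δ / g) (by positivity) P fun x hx => ?_).trans_eq (by field_simp)
      obtain ⟨h1, h2⟩ := Finset.mem_filter.1 hx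
      have h3 := Finset.mem_Ioc.1 (Finset.mem_product.1 h1).1
      exact ⟨h3.1, h3.2, h2⟩
    · have : P = ∅ := by
        rw [Finset.eq_empty_iff_forall_notMem]
        intro x hx
        refine h (lt_of_le_of_lt ((round_le _ (x.1 * b - x.2 * a + b * ⌊β⌋ - a * ⌊β'⌋)).trans_eq ?_)
          (Finset.mem_filter.1 hx).2)
        rw [abs_sub_comm, hγ]
        congr 1
        simp only [Int.fract]
        push_cast
        ring
      rw [this]
      simp only [Finset.card_empty, Nat.cast_zero]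
      positivity
  have h1 : volume.real (EI (g * a) β δ ∩ EI (g * b) β' δ') ≤ P.card * (2 * μ) := by
    refine (measureReal_mono hsub ?_).trans ((measureReal_biUnion_finset_le _ _).trans ?_)
    · exact (measure_biUnion_lt_top P.finite_toSet fun x _ =>
        lt_of_le_of_lt (measure_mono inter_subset_left) (JJ_fin _ _ _ _).lt_top).ne
    · rw [← nsmul_eq_mul]
      refine Finset.sum_le_card_nsmul _ _ _ fun x _ => ?_
      rcases min_le_iff.1 hμ with h | h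
      · refine (measureReal_mono inter_subset_left (JJ_fin _ _ _ _)).trans ?_
        rw [JJ, Real.volume_real_ball (by positivity)]
        push_cast
        linarith
      · refine (measureReal_mono inter_subset_right (JJ_fin _ _ _ _)).trans ?_
        rw [JJ, Real.volume_real_ball (by positivity)]
        push_cast
        linarith
  rw [mul_comm (2 * μ)]
  exact h1.trans (mul_le_mul_of_nonneg_right hcard (by positivity))

/-- box of integer vectors -/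
def BX {r : ℕ} (N : Fin r → ℕ) : Finset (Fin r → ℕ) := Fintype.piFinset fun i => Finset.Ioc (N i) (16 * N i)

lemma mult {r : ℕ} (N M : Fin r → ℕ) (a b : ℕ) (ha : 0 < a) (hb : 0 < b) (hab : Nat.Coprime a b)
    (haN : ∀ i, a ≤ 16 * N i) (hbM : ∀ i, b ≤ 16 * M i) (P : Finset ((Fin r → ℕ) × (Fin r → ℕ)))
    (Z : Finset (Fin r → ℤ))
    (hP : ∀ x ∈ P, x.1 ∈ BX N ∧ x.2 ∈ BX M ∧ (fun i => (x.1 i : ℤ) * b - x.2 i * a) ∈ Z) :
    (P.card : ℝ) ≤ Z.card * ∏ i, (32 * min ((N i : ℝ) / a) ((M i : ℝ) / b)) := by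
  classical
  have ha0 : (0:ℝ) < a := by exact_mod_cast ha
  have hb0 : (0:ℝ) < b := by exact_mod_cast hb
  set c : Fin r → Prop := fun i => (N i : ℝ) / a ≤ (M i : ℝ) / b with hc
  have hcard : P.card ≤ (Z ×ˢ Fintype.piFinset fun i =>
      Finset.range ((if c i then 16 * N i / a else 16 * M i / b) + 1)).card := by
    refine Finset.card_le_card_of_injOn (fun x => (fun i => (x.1 i : ℤ) * b - x.2 i * a,
      fun i => if c i then x.1 i / a else x.2 i / b)) ?_ ?_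
    · intro x hx
      obtain ⟨h1, h2, h3⟩ := hP x hx
      rw [Finset.mem_coe, Finset.mem_product, Fintype.mem_piFinset]
      refine ⟨h3, fun i => ?_⟩
      rw [Finset.mem_range, Nat.lt_succ_iff]
      dsimp only
      split_ifs
      · exact Nat.div_le_div_right (Finset.mem_Ioc.1 (Fintype.mem_piFinset.1 h1 i)).2
      · exact Nat.div_le_div_right (Finset.mem_Ioc.1 (Fintype.mem_piFinset.1 h2 i)).2
    · intro x hx y hy hxy
      simp only [Prod.mk.injEq] at hxy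
      have key : ∀ i, x.1 i = y.1 i ∧ x.2 i = y.2 i := by
        intro i
        have e1 := congrFun hxy.1 i
        have e2 := congrFun hxy.2 i
        split_ifs at e2
        · exact eq_of_div a b ha hab _ _ _ _ e1 e2
        · exact (eq_of_div b a hb hab.symm _ _ _ _ (by linarith) e2).symm
      exact Prod.ext (funext fun i => (key i).1) (funext fun i => (key i).2)
  rw [Finset.card_product, Fintype.card_piFinset] at hcard
  have h2 : (P.card : ℝ) ≤ Z.card * ∏ i, ((Finset.range ((if c i then 16 * N i / a else 16 * M i / b) + 1)).card : ℝ) := by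
    exact_mod_cast hcard
  refine h2.trans (mul_le_mul_of_nonneg_left (Finset.prod_le_prod (fun _ _ => Nat.cast_nonneg _) fun i _ => ?_)
    (Nat.cast_nonneg _))
  have aux : ∀ n d : ℕ, 0 < d → d ≤ 16 * n → ((16 * n / d + 1 : ℕ) : ℝ) ≤ 32 * ((n:ℝ) / d) := by
    intro n d hd h
    have hd0 : (0:ℝ) < d := by exact_mod_cast hd
    have a1 : ((16 * n / d : ℕ) : ℝ) ≤ (16 * n : ℕ) / d := Nat.cast_div_le
    have a2 : (1:ℝ) ≤ (16 * n : ℕ) / d := by rw [one_le_div hd0]; exact_mod_cast h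
    push_cast at a1 a2 ⊢
    rw [mul_div_assoc] at a1 a2
    linarith
  rw [Finset.card_range]
  split_ifs with h
  · rw [min_eq_left h]; exact aux _ _ ha (haN i)
  · rw [min_eq_right (not_le.1 h).le]; exact aux _ _ hb (hbM i)

lemma gcd_card (X Y U : ℕ) (S : Finset (ℕ × ℕ))
    (hS : ∀ x ∈ S, x ∈ Finset.Ioc 0 X ×ˢ Finset.Ioc 0 Y ∧ U < Nat.gcd x.1 x.2) :
    (S.card : ℝ) ≤ X * Y * ∑ d ∈ Finset.Ioc U X, ((d:ℝ) ^ 2)⁻¹ := by
  classical
  have hsub : S ⊆ (Finset.Ioc U X).biUnion fun d =>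
      ((Finset.Ioc 0 X).filter (d ∣ ·)) ×ˢ ((Finset.Ioc 0 Y).filter (d ∣ ·)) := by
    intro x hx
    obtain ⟨h1, h2⟩ := hS x hx
    obtain ⟨h3, h4⟩ := Finset.mem_product.1 h1
    rw [Finset.mem_biUnion]
    refine ⟨Nat.gcd x.1 x.2, Finset.mem_Ioc.2 ⟨h2, ?_⟩, Finset.mem_product.2
      ⟨Finset.mem_filter.2 ⟨h3, Nat.gcd_dvd_left _ _⟩, Finset.mem_filter.2 ⟨h4, Nat.gcd_dvd_right _ _⟩⟩⟩
    exact (Nat.gcd_le_left _ (Finset.mem_Ioc.1 h3).1).trans (Finset.mem_Ioc.1 h3).2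
  have h1 := (Finset.card_le_card hsub).trans Finset.card_biUnion_le
  simp only [Finset.card_product, Nat.Ioc_filter_dvd_card_eq_div] at h1
  have h2 : (S.card : ℝ) ≤ ∑ d ∈ Finset.Ioc U X, ((X / d : ℕ) : ℝ) * ((Y / d : ℕ) : ℝ) := by exact_mod_cast h1
  rw [Finset.mul_sum]
  refine h2.trans (Finset.sum_le_sum fun d _ => ?_)
  calc ((X / d : ℕ) : ℝ) * ((Y / d : ℕ) : ℝ) ≤ ((X:ℝ) / d) * ((Y:ℝ) / d) :=
        mul_le_mul Nat.cast_div_le Nat.cast_div_le (Nat.cast_nonneg _) (by positivity)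
    _ = _ := by ring

lemma gcd_big (X Y U : ℕ) (hU : 0 < U) (S : Finset (ℕ × ℕ))
    (hS : ∀ x ∈ S, x ∈ Finset.Ioc 0 X ×ˢ Finset.Ioc 0 Y ∧ U < Nat.gcd x.1 x.2) :
    (S.card : ℝ) * U ≤ X * Y := by
  have hU0 : (0:ℝ) < U := by exact_mod_cast hU
  have h1 := gcd_card X Y U S hS
  have h2 : ∑ d ∈ Finset.Ioc U X, ((d:ℝ) ^ 2)⁻¹ ≤ (U:ℝ)⁻¹ := by
    rcases le_total U X with h | h
    · refine (sum_Ioc_inv_sq_le_sub hU.ne' h).trans ?_
      have : (0:ℝ) ≤ (X:ℝ)⁻¹ := by positivity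
      linarith
    · rw [Finset.Ioc_eq_empty (not_lt.2 h)]; simp
  rw [← le_div_iff₀ hU0, div_eq_mul_inv]
  exact h1.trans (mul_le_mul_of_nonneg_left h2 (by positivity))

lemma cop_card (A N : ℕ) :
    (A:ℝ) * N ≤ ((Finset.Ioc A (16 * A) ×ˢ Finset.Ioc N (16 * N)).filter fun x => Nat.Coprime x.1 x.2).card := by
  set S := Finset.Ioc A (16 * A) ×ˢ Finset.Ioc N (16 * N) with hS
  have h1 := Finset.card_filter_add_card_filter_not (s := S) (fun x => Nat.Coprime x.1 x.2)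
  have h2 : S.card = 15 * A * (15 * N) := by
    rw [hS, Finset.card_product, Nat.card_Ioc, Nat.card_Ioc]
    congr 1 <;> omega
  have h3 := gcd_card (16 * A) (16 * N) 1 (S.filter fun x => ¬ Nat.Coprime x.1 x.2) (by
    intro x hx
    obtain ⟨a1, a2⟩ := Finset.mem_filter.1 hx
    obtain ⟨a3, a4⟩ := Finset.mem_product.1 a1
    rw [Finset.mem_Ioc] at a3 a4
    refine ⟨Finset.mem_product.2 ⟨Finset.mem_Ioc.2 ⟨by omega, a3.2⟩, Finset.mem_Ioc.2 ⟨by omega, a4.2⟩⟩, ?_⟩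
    have : 0 < Nat.gcd x.1 x.2 := Nat.gcd_pos_of_pos_left _ (by omega)
    have : Nat.gcd x.1 x.2 ≠ 1 := a2
    omega)
  have h4 : ∑ d ∈ Finset.Ioc 1 (16 * A), ((d:ℝ) ^ 2)⁻¹ ≤ 3 / 4 := by
    rcases Nat.eq_zero_or_pos A with h | h
    · simp [h]; norm_num
    · rw [← Finset.sum_Ioc_consecutive _ (show 1 ≤ 2 by norm_num) (show 2 ≤ 16 * A by omega)]
      have := sum_Ioc_inv_sq_le_sub (α := ℝ) (k := 2) (n := 16 * A) (by norm_num) (by omega)
      have h5 : (0:ℝ) ≤ ((16 * A : ℕ) : ℝ)⁻¹ := by positivity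
      have h6 : ∑ d ∈ Finset.Ioc (1:ℕ) 2, ((d:ℝ) ^ 2)⁻¹ = 1 / 4 := by
        rw [show Finset.Ioc (1:ℕ) 2 = {2} by decide]; norm_num
      have h7 : ((2:ℕ):ℝ)⁻¹ = 1 / 2 := by norm_num
      rw [h6]
      rw [h7] at this
      linarith
  rw [h2] at h1
  have h5 : ((S.filter fun x => Nat.Coprime x.1 x.2).card : ℝ) + (S.filter fun x => ¬ Nat.Coprime x.1 x.2).card
      = 15 * A * (15 * N) := by exact_mod_cast h1
  push_cast at h3
  have h6 : (0:ℝ) ≤ A * N := by positivity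
  nlinarith [mul_le_mul_of_nonneg_left h4 h6]

end Pool.Agent.H53.Dm
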