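import Mathlib
import Pool.Agent.H53.DmB

open MeasureTheory Set Metric

namespace Pool.Agent.H53.Dm
open Pool.Agent.H53.Vert (nd)

/-- linear form -/
def LF {r : ℕ} (α : Fin r → ℝ) (n : Fin r → ℕ) : ℝ := ∑ i, n i * α i

/-- Diophantine condition up to size `X` with loss `y` -/
def Dio {r : ℕ} (α : Fin r → ℝ) (X y : ℝ) : Prop :=
  ∀ w : Fin r → ℤ, w ≠ 0 → ∀ ρ : Fin r → ℝ, (∀ i, 2 ≤ ρ i ∧ ρ i ≤ X ∧ |(w i : ℝ)| ≤ ρ i) →
    1 / (y * ∏ i, ρ i) < nd (∑ i, w i * α i)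

lemma zcard {m : ℕ} (α R : Fin (m + 1) → ℝ) (η X y : ℝ) (hy : 1 ≤ y) (hη : 0 ≤ η) (hD : Dio α X y)
    (hR : ∀ i, 2 * y ≤ R i ∧ R i ≤ X) (Z : Finset (Fin (m + 1) → ℤ))
    (hZ : ∀ w ∈ Z, w ≠ 0 ∧ (∀ i, |(w i : ℝ)| ≤ R i) ∧ nd (∑ i, w i * α i) < η) :
    (Z.card : ℝ) ≤ (4 * (m + 3)) ^ (m + 2) * (η * ∏ i, R i) *
      (1 + if η * ∏ i, R i < y ^ (m + 1) then y ^ (m + 2) else 0) := by
  have hy0 : 0 < y := by linarith
  have hR2 : ∀ i, 2 ≤ R i / y := fun i => by rw [le_div_iff₀ hy0]; exact (hR i).1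
  have hR1 : ∀ i, 2 ≤ R i := fun i => by linarith [(hR i).1]
  have hP : 0 < ∏ i, R i := Finset.prod_pos fun i _ => by linarith [hR1 i]
  have key : ∀ η', η ≤ η' → y ^ (m + 1) ≤ η' * ∏ i, R i →
      (Z.card : ℝ) ≤ (4 * (m + 3)) ^ (m + 2) * (η' * ∏ i, R i) := by
    intro η' h1 h2
    have := cnt α R η' y hy (fun i => by linarith [hR1 i]) h2
      (fun w hw h => hD w hw _ fun i => ⟨hR2 i, (div_le_self (by linarith [hR1 i]) hy).trans (hR i).2, h i⟩)
      (by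
        have : (2:ℝ) ^ (m + 1) ≤ ∏ i, (R i / y) := by
          calc (2:ℝ) ^ (m + 1) = ∏ _i : Fin (m + 1), (2:ℝ) := by simp
            _ ≤ _ := Finset.prod_le_prod (fun _ _ => by norm_num) fun i _ => hR2 i
        have h3 : (1:ℝ) < 2 ^ (m + 1) := one_lt_pow₀ (by norm_num) (by omega)
        nlinarith)
      Z fun w hw => ⟨(hZ w hw).2.1, (hZ w hw).2.2.trans_le h1⟩
    push_cast at this
    rwa [show (m:ℝ) + 1 + 2 = m + 3 by ring] at this
  split_ifs with h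
  · rcases Z.eq_empty_or_nonempty with rfl | ⟨w, hw⟩
    · simp only [Finset.card_empty, Nat.cast_zero]; positivity
    · have h1 := (hD w (hZ w hw).1 R fun i => ⟨hR1 i, (hR i).2, (hZ w hw).2.1 i⟩).trans (hZ w hw).2.2
      rw [div_lt_iff₀ (by positivity)] at h1
      have h2 := key (y ^ (m + 1) / ∏ i, R i) (by rw [le_div_iff₀ hP]; exact h.le) (by rw [div_mul_cancel₀ _ hP.ne'])
      rw [div_mul_cancel₀ _ hP.ne'] at h2
      refine h2.trans ?_
      rw [mul_assoc]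
      refine mul_le_mul_of_nonneg_left ?_ (by positivity)
      have h3 : 0 < y ^ (m + 1) := by positivity
      have h4 : 0 ≤ η * ∏ i, R i := by positivity
      rw [pow_succ y (m + 1)]
      nlinarith
  · rw [add_zero, mul_one]
    exact key η le_rfl (not_lt.1 h)

lemma fixed {m : ℕ} (α : Fin (m + 1) → ℝ) (A B : ℕ) (N M : Fin (m + 1) → ℕ) (δ δ' X : ℝ) (y : ℕ)
    (hA : 0 < A) (hB : 0 < B) (hAN : ∀ i, A ≤ N i) (hBM : ∀ i, B ≤ M i) (h0 : 0 ≤ δ) (h0' : 0 ≤ δ')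
    (hX : ∀ i, 256 * max ((B:ℝ) * N i) (A * M i) ≤ X) (hD : Dio α X y) (hy : 1 ≤ y) (hy' : y ≤ max A B)
    (hbig : (y:ℝ) ^ ((m + 2) * (m + 2) + (m + 1)) ≤ max (δ * B * ∏ i, ((B:ℝ) * N i)) (δ' * A * ∏ i, ((A:ℝ) * M i)))
    (g a b : ℕ) (hg : 0 < g) (hab : Nat.Coprime a b) (ha : g * a ∈ Finset.Ioc A (16 * A))
    (hb : g * b ∈ Finset.Ioc B (16 * B)) (P : Finset ((Fin (m + 1) → ℕ) × (Fin (m + 1) → ℕ)))
    (hP : ∀ x ∈ P, x.1 ∈ BX N ∧ x.2 ∈ BX M ∧ Nat.Coprime (g * a) (x.1 0) ∧ Nat.Coprime (g * b) (x.2 0) ∧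
      (g * a, x.1) ≠ (g * b, x.2) ∧ nd (b * LF α x.1 - a * LF α x.2) < (δ * (16 * B) + δ' * (16 * A)) / g) :
    (g:ℝ) * P.card ≤ (4 * (m + 3)) ^ (m + 2) * 8192 ^ (m + 1) * (δ * (16 * B) + δ' * (16 * A)) *
      ((∏ i, (N i : ℝ)) * ∏ i, (M i : ℝ)) * (1 + if y ^ (m + 2) < g then (y:ℝ) ^ (m + 2) else 0) := by
  classical
  rw [Finset.mem_Ioc] at ha hb
  have ha0 : 0 < a := Nat.pos_of_mul_pos_left (by omega : 0 < g * a)
  have hb0 : 0 < b := Nat.pos_of_mul_pos_left (by omega : 0 < g * b)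
  have hgR : (0:ℝ) < g := by exact_mod_cast hg
  have haR : (0:ℝ) < a := by exact_mod_cast ha0
  have hbR : (0:ℝ) < b := by exact_mod_cast hb0
  have hAR : (0:ℝ) < A := by exact_mod_cast hA
  have hBR : (0:ℝ) < B := by exact_mod_cast hB
  have a1 : (A:ℝ) ≤ g * a := by exact_mod_cast ha.1.le
  have a2 : (g:ℝ) * a ≤ 16 * A := by exact_mod_cast ha.2
  have b1 : (B:ℝ) ≤ g * b := by exact_mod_cast hb.1.le
  have b2 : (g:ℝ) * b ≤ 16 * B := by exact_mod_cast hb.2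
  have a3 : (1:ℝ) ≤ a := by exact_mod_cast ha0
  have b3 : (1:ℝ) ≤ b := by exact_mod_cast hb0
  have g1 : (1:ℝ) ≤ g := by exact_mod_cast hg
  have hN : ∀ i, (A:ℝ) ≤ N i := fun i => by exact_mod_cast hAN i
  have hM : ∀ i, (B:ℝ) ≤ M i := fun i => by exact_mod_cast hBM i
  set Δ := δ * (16 * B) + δ' * (16 * A) with hΔ
  have hΔ0 : 0 ≤ Δ := by positivity
  set R : Fin (m + 1) → ℝ := fun i => 256 * max ((B:ℝ) * N i) (A * M i) / g with hR
  have R1 : ∀ i, 256 * ((B:ℝ) * N i) ≤ R i * g := fun i => by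
    simp only [hR]; rw [div_mul_cancel₀ _ hgR.ne']; linarith [le_max_left ((B:ℝ) * N i) (A * M i)]
  have R2 : ∀ i, 256 * ((A:ℝ) * M i) ≤ R i * g := fun i => by
    simp only [hR]; rw [div_mul_cancel₀ _ hgR.ne']; linarith [le_max_right ((B:ℝ) * N i) (A * M i)]
  have R0 : ∀ i, 0 ≤ R i := fun i => by positivity
  set W : (Fin (m + 1) → ℕ) × (Fin (m + 1) → ℕ) → Fin (m + 1) → ℤ := fun x i => (x.1 i : ℤ) * b - x.2 i * a with hW
  have hZ := zcard α R (Δ / g) X y (by exact_mod_cast hy) (by positivity) hD (fun i => ⟨by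
      have c1 : 16 * (B:ℝ) ≤ R i := by
        refine le_of_mul_le_mul_right ?_ hgR
        have g2 : (g:ℝ) ≤ 16 * A := le_trans (le_mul_of_one_le_right hgR.le a3) a2
        linarith [R1 i, mul_le_mul_of_nonneg_left (hN i) hBR.le, mul_le_mul_of_nonneg_left g2 hBR.le]
      have c2 : 16 * (A:ℝ) ≤ R i := by
        refine le_of_mul_le_mul_right ?_ hgR
        have g2 : (g:ℝ) ≤ 16 * B := le_trans (le_mul_of_one_le_right hgR.le b3) b2
        linarith [R2 i, mul_le_mul_of_nonneg_left (hM i) hAR.le, mul_le_mul_of_nonneg_left g2 hAR.le]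
      rcases le_max_iff.1 hy' with h | h
      · have : (y:ℝ) ≤ A := by exact_mod_cast h
        linarith
      · have : (y:ℝ) ≤ B := by exact_mod_cast h
        linarith,
      (div_le_self (by positivity) g1).trans (hX i)⟩) (P.image W) (by
    intro w hw
    obtain ⟨x, hx, rfl⟩ := Finset.mem_image.1 hw
    obtain ⟨c1, c2, c3, c4, c5, c6⟩ := hP x hx
    refine ⟨fun h => c5 ?_, fun i => ?_, ?_⟩
    · have e : ∀ i, x.1 i * b = x.2 i * a := fun i => by
        have := sub_eq_zero.1 (congrFun h i)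
        exact_mod_cast this
      have d1 : a ∣ b := (Nat.Coprime.of_dvd_left (Dvd.intro_left g rfl) c3).dvd_of_dvd_mul_left
        ⟨x.2 0, by rw [e 0, mul_comm]⟩
      have d2 : b ∣ a := (Nat.Coprime.of_dvd_left (Dvd.intro_left g rfl) c4).dvd_of_dvd_mul_left
        ⟨x.1 0, by rw [← e 0, mul_comm]⟩
      have d3 := Nat.dvd_antisymm d1 d2
      subst d3
      exact Prod.ext rfl (funext fun i => Nat.eq_of_mul_eq_mul_right ha0 (e i))
    · have d1 : (x.1 i : ℝ) ≤ 16 * N i := by exact_mod_cast (Finset.mem_Ioc.1 (Fintype.mem_piFinset.1 c1 i)).2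
      have d2 : (x.2 i : ℝ) ≤ 16 * M i := by exact_mod_cast (Finset.mem_Ioc.1 (Fintype.mem_piFinset.1 c2 i)).2
      have d3 : (x.1 i : ℝ) * b ≤ R i := by
        refine le_of_mul_le_mul_right ?_ hgR
        nlinarith [R1 i, mul_le_mul d1 b2 (by positivity) (by positivity)]
      have d4 : (x.2 i : ℝ) * a ≤ R i := by
        refine le_of_mul_le_mul_right ?_ hgR
        nlinarith [R2 i, mul_le_mul d2 a2 (by positivity) (by positivity)]
      have d5 : (0:ℝ) ≤ x.1 i * b := by positivity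
      have d6 : (0:ℝ) ≤ x.2 i * a := by positivity
      simp only [hW]
      push_cast
      rw [abs_le]
      constructor <;> linarith
    · convert c6 using 2
      simp only [hW, LF, Finset.mul_sum, ← Finset.sum_sub_distrib]
      refine Finset.sum_congr rfl fun i _ => ?_
      push_cast
      ring)
  have hm := mult N M a b ha0 hb0 hab (fun i => by have := hAN i; nlinarith) (fun i => by have := hBM i; nlinarith)
    P (P.image W) fun x hx => ⟨(hP x hx).1, (hP x hx).2.1, Finset.mem_image_of_mem W hx⟩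
  have hprod : (∏ i, R i) * ∏ i, (32 * min ((N i : ℝ) / a) ((M i : ℝ) / b)) ≤
      8192 ^ (m + 1) * ((∏ i, (N i : ℝ)) * ∏ i, (M i : ℝ)) := by
    calc _ = ∏ i, (R i * (32 * min ((N i : ℝ) / a) ((M i : ℝ) / b))) := Finset.prod_mul_distrib.symm
      _ ≤ ∏ i, (8192 * ((N i : ℝ) * M i)) := by
        refine Finset.prod_le_prod (fun i _ => mul_nonneg (R0 i) (by positivity)) fun i _ => ?_
        have e1 := min_le_left ((N i : ℝ) / a) ((M i : ℝ) / b)
        have e2 := min_le_right ((N i : ℝ) / a) ((M i : ℝ) / b)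
        have e0 : 0 ≤ min ((N i : ℝ) / a) ((M i : ℝ) / b) := by positivity
        set μ := min ((N i : ℝ) / a) ((M i : ℝ) / b)
        rw [le_div_iff₀ haR] at e1
        rw [le_div_iff₀ hbR] at e2
        simp only [hR]
        rw [div_mul_eq_mul_div, div_le_iff₀ hgR]
        have n0 : (0:ℝ) ≤ N i := Nat.cast_nonneg _
        have m0 : (0:ℝ) ≤ M i := Nat.cast_nonneg _
        rcases le_total ((B:ℝ) * N i) (A * M i) with h | h
        · rw [max_eq_right h]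
          have : A * μ ≤ g * N i := by nlinarith [mul_le_mul_of_nonneg_right a1 e0]
          nlinarith [mul_le_mul_of_nonneg_right this m0]
        · rw [max_eq_left h]
          have : B * μ ≤ g * M i := by nlinarith [mul_le_mul_of_nonneg_right b1 e0]
          nlinarith [mul_le_mul_of_nonneg_right this n0]
      _ = _ := by
        rw [Finset.prod_mul_distrib, Finset.prod_mul_distrib, Finset.prod_const, Finset.card_univ, Fintype.card_fin]
  have hind : (if Δ / g * ∏ i, R i < (y:ℝ) ^ (m + 1) then (y:ℝ) ^ (m + 2) else 0) ≤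
      if y ^ (m + 2) < g then (y:ℝ) ^ (m + 2) else 0 := by
    by_cases h : Δ / g * ∏ i, R i < (y:ℝ) ^ (m + 1)
    · have e1 : Δ / g * (∏ i, R i) * g ^ (m + 2) = Δ * ∏ i, (R i * g) := by
        rw [Finset.prod_mul_distrib, Finset.prod_const, Finset.card_univ, Fintype.card_fin]
        field_simp
        ring
      have e2 : (y:ℝ) ^ ((m + 2) * (m + 2) + (m + 1)) ≤ Δ * ∏ i, (R i * g) := by
        refine hbig.trans (max_le ?_ ?_)
        · refine mul_le_mul (by rw [hΔ]; nlinarith [mul_nonneg h0 hBR.le, mul_nonneg h0' hAR.le])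
            (Finset.prod_le_prod (fun _ _ => by positivity) fun i _ => ?_) (by positivity) hΔ0
          have : (0:ℝ) ≤ B * N i := by positivity
          linarith [R1 i]
        · refine mul_le_mul (by rw [hΔ]; nlinarith [mul_nonneg h0 hBR.le, mul_nonneg h0' hAR.le])
            (Finset.prod_le_prod (fun _ _ => by positivity) fun i _ => ?_) (by positivity) hΔ0
          have : (0:ℝ) ≤ A * M i := by positivity
          linarith [R2 i]
      have e3 := mul_lt_mul_of_pos_right h (pow_pos hgR (m + 2))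
      rw [e1] at e3
      have e4 := e2.trans_lt e3
      have y0 : (0:ℝ) < y := by exact_mod_cast hy
      rw [pow_add, mul_comm, mul_lt_mul_iff_right₀ (by positivity), pow_mul] at e4
      have e5 : (y:ℝ) ^ (m + 2) < g := lt_of_pow_lt_pow_left₀ _ hgR.le e4
      rw [if_pos h, if_pos (by exact_mod_cast e5)]
    · rw [if_neg h]
      split_ifs <;> positivity
  set I := (if y ^ (m + 2) < g then (y:ℝ) ^ (m + 2) else 0) with hI
  have I0 : 0 ≤ I := by rw [hI]; split_ifs <;> positivity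
  have hZ2 : ((P.image W).card : ℝ) ≤ (4 * (m + 3)) ^ (m + 2) * (Δ / g * ∏ i, R i) * (1 + I) :=
    hZ.trans (mul_le_mul_of_nonneg_left (by linarith) (by have := Finset.prod_nonneg fun i (_ : i ∈ Finset.univ) => R0 i; positivity))
  calc (g:ℝ) * P.card ≤ g * (((4 * (m + 3)) ^ (m + 2) * (Δ / g * ∏ i, R i) * (1 + I)) *
        ∏ i, (32 * min ((N i : ℝ) / a) ((M i : ℝ) / b))) :=
        mul_le_mul_of_nonneg_left (hm.trans (mul_le_mul_of_nonneg_right hZ2 (by positivity))) hgR.le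
    _ = (4 * (m + 3)) ^ (m + 2) * Δ * (1 + I) *
        ((∏ i, R i) * ∏ i, (32 * min ((N i : ℝ) / a) ((M i : ℝ) / b))) := by field_simp
    _ ≤ (4 * (m + 3)) ^ (m + 2) * Δ * (1 + I) * (8192 ^ (m + 1) * ((∏ i, (N i : ℝ)) * ∏ i, (M i : ℝ))) :=
        mul_le_mul_of_nonneg_left hprod (by positivity)
    _ = _ := by ring

/-- vectors of a shape -/
def FF {m : ℕ} (A : ℕ) (N : Fin (m + 1) → ℕ) : Finset (ℕ × (Fin (m + 1) → ℕ)) :=
  (Finset.Ioc A (16 * A) ×ˢ BX N).filter fun x => Nat.Coprime x.1 (x.2 0)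

/-- the constant -/
def CC (m : ℕ) : ℝ := 256 * 32 * (4 * 256 ^ (m + 1) + 4 * ((4 * (m + 3)) ^ (m + 2) * 8192 ^ (m + 1)))

lemma BX_card {r : ℕ} (N : Fin r → ℕ) : ((BX N).card : ℝ) ≤ 16 ^ r * ∏ i, (N i : ℝ) := by
  rw [BX, Fintype.card_piFinset]
  push_cast
  calc _ ≤ ∏ i, (16 * (N i : ℝ)) := Finset.prod_le_prod (fun _ _ => Nat.cast_nonneg _) fun i _ => by
        rw [Nat.card_Ioc]; exact_mod_cast Nat.sub_le _ _
    _ = _ := by rw [Finset.prod_mul_distrib, Finset.prod_const, Finset.card_univ, Fintype.card_fin]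

open Classical in
lemma pairsum {m : ℕ} (α : Fin (m + 1) → ℝ) (A B : ℕ) (N M : Fin (m + 1) → ℕ) (δ δ' X : ℝ) (y : ℕ)
    (hA : 0 < A) (hB : 0 < B) (hAN : ∀ i, A ≤ N i) (hBM : ∀ i, B ≤ M i) (h0 : 0 ≤ δ) (h0' : 0 ≤ δ')
    (hX : ∀ i, 256 * max ((B:ℝ) * N i) (A * M i) ≤ X) (hD : Dio α X y) (hy : 1 ≤ y) (hy' : y ≤ max A B)
    (hbig : (y:ℝ) ^ ((m + 2) * (m + 2) + (m + 1)) ≤ max (δ * B * ∏ i, ((B:ℝ) * N i)) (δ' * A * ∏ i, ((A:ℝ) * M i))) :
    ∑ x ∈ FF A N, ∑ z ∈ FF B M, (if x ≠ z then volume.real (EI x.1 (LF α x.2) δ ∩ EI z.1 (LF α z.2) δ') else 0) ≤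
      CC m * ((δ * A * ∏ i, (N i : ℝ)) * (δ' * B * ∏ i, (M i : ℝ))) := by
  have hAR : (0:ℝ) < A := by exact_mod_cast hA
  have hBR : (0:ℝ) < B := by exact_mod_cast hB
  set Δ := δ * (16 * B) + δ' * (16 * A) with hΔ
  have hΔ0 : 0 ≤ Δ := by positivity
  set μ := min (δ / A) (δ' / B) with hμ
  have hμ0 : 0 ≤ μ := by positivity
  have hμΔ : μ * Δ ≤ 32 * (δ * δ') := by
    have m1 : μ * A ≤ δ := by rw [← le_div_iff₀ hAR]; exact min_le_left _ _
    have m2 : μ * B ≤ δ' := by rw [← le_div_iff₀ hBR]; exact min_le_right _ _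
    rw [hΔ]
    nlinarith [mul_le_mul_of_nonneg_left m1 h0', mul_le_mul_of_nonneg_left m2 h0]
  set c : ℕ → ℕ → (Fin (m + 1) → ℕ) × (Fin (m + 1) → ℕ) → Prop := fun a b x =>
    Nat.Coprime a (x.1 0) ∧ Nat.Coprime b (x.2 0) ∧ (a, x.1) ≠ (b, x.2) ∧
      nd ((b / Nat.gcd a b : ℕ) * LF α x.1 - (a / Nat.gcd a b : ℕ) * LF α x.2) < Δ / Nat.gcd a b with hc
  set G : ℕ × (Fin (m + 1) → ℕ) → ℕ × (Fin (m + 1) → ℕ) → ℝ := fun x z =>
    2 * μ * (2 * Δ + Nat.gcd x.1 z.1 * if c x.1 z.1 (x.2, z.2) then 1 else 0) with hG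
  have G0 : ∀ x z, 0 ≤ G x z := fun x z => by simp only [hG]; split_ifs <;> positivity
  have dec : ∀ a b : ℕ, 0 < a → Nat.gcd a b * (a / Nat.gcd a b) = a ∧ Nat.gcd a b * (b / Nat.gcd a b) = b ∧
      0 < Nat.gcd a b ∧ Nat.Coprime (a / Nat.gcd a b) (b / Nat.gcd a b) := fun a b ha =>
    ⟨Nat.mul_div_cancel' (Nat.gcd_dvd_left _ _), Nat.mul_div_cancel' (Nat.gcd_dvd_right _ _),
      Nat.gcd_pos_of_pos_left _ ha, Nat.coprime_div_gcd_div_gcd (Nat.gcd_pos_of_pos_left _ ha)⟩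
  have s1 : ∀ x ∈ FF A N, ∀ z ∈ FF B M,
      (if x ≠ z then volume.real (EI x.1 (LF α x.2) δ ∩ EI z.1 (LF α z.2) δ') else 0) ≤ G x z := by
    intro x hx z hz
    split_ifs with hne
    · obtain ⟨x1, x2⟩ := Finset.mem_filter.1 hx
      obtain ⟨z1, z2⟩ := Finset.mem_filter.1 hz
      have x3 := Finset.mem_Ioc.1 (Finset.mem_product.1 x1).1
      have z3 := Finset.mem_Ioc.1 (Finset.mem_product.1 z1).1
      obtain ⟨d1, d2, d3, d4⟩ := dec x.1 z.1 (by omega)
      have e1 : ((Nat.gcd x.1 z.1 : ℕ) : ℝ) * (x.1 / Nat.gcd x.1 z.1 : ℕ) = x.1 := by exact_mod_cast d1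
      have e2 : ((Nat.gcd x.1 z.1 : ℕ) : ℝ) * (z.1 / Nat.gcd x.1 z.1 : ℕ) = z.1 := by exact_mod_cast d2
      have f1 : (A:ℝ) ≤ x.1 := by exact_mod_cast x3.1.le
      have f2 : (x.1:ℝ) ≤ 16 * A := by exact_mod_cast x3.2
      have f3 : (B:ℝ) ≤ z.1 := by exact_mod_cast z3.1.le
      have f4 : (z.1:ℝ) ≤ 16 * B := by exact_mod_cast z3.2
      have := EI_inter (Nat.gcd x.1 z.1) _ _ d3 (Nat.pos_of_mul_pos_left (by omega : 0 < Nat.gcd x.1 z.1 * (x.1 / Nat.gcd x.1 z.1)))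
        (Nat.pos_of_mul_pos_left (by omega : 0 < Nat.gcd x.1 z.1 * (z.1 / Nat.gcd x.1 z.1))) d4 (LF α x.2) (LF α z.2) δ δ' Δ μ h0 h0'
        (by rw [e1, e2, hΔ]; gcongr) (by rw [e1, e2, hμ]; gcongr)
      rw [d1, d2] at this
      refine this.trans (le_of_eq ?_)
      simp only [hG, hc]
      congr 4
      exact propext ⟨fun h => ⟨x2, z2, hne, h⟩, fun h => h.2.2.2⟩
    · exact G0 x z
  set NM := (∏ i, (N i : ℝ)) * ∏ i, (M i : ℝ) with hNM
  have NM0 : 0 ≤ NM := by positivity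
  set C1 : ℝ := (4 * (m + 3)) ^ (m + 2) * 8192 ^ (m + 1) with hC1
  set U := y ^ (m + 2) with hU
  have s2 : ∀ a ∈ Finset.Ioc A (16 * A), ∀ b ∈ Finset.Ioc B (16 * B), ∑ n ∈ BX N, ∑ n' ∈ BX M, G (a, n) (b, n') ≤
      2 * (μ * Δ) * NM * (2 * 256 ^ (m + 1) + C1 + C1 * if U < Nat.gcd a b then (U:ℝ) else 0) := by
    intro a ha b hb
    obtain ⟨d1, d2, d3, d4⟩ := dec a b (by have := (Finset.mem_Ioc.1 ha).1; omega)
    have := fixed α A B N M δ δ' X y hA hB hAN hBM h0 h0' hX hD hy hy' hbig (Nat.gcd a b) _ _ d3 d4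
      (by rwa [d1]) (by rwa [d2]) ((BX N ×ˢ BX M).filter (c a b)) (by
        intro x hx
        obtain ⟨x1, x2⟩ := Finset.mem_filter.1 hx
        rw [d1, d2]
        exact ⟨(Finset.mem_product.1 x1).1, (Finset.mem_product.1 x1).2, x2⟩)
    rw [← Finset.sum_product']
    simp only [hG]
    rw [← Finset.mul_sum, Finset.sum_add_distrib, Finset.sum_const, ← Finset.mul_sum, Finset.sum_boole,
      Finset.card_product, nsmul_eq_mul]
    have c1 : (((BX N).card * (BX M).card : ℕ) : ℝ) ≤ 256 ^ (m + 1) * NM := by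
      push_cast
      refine (mul_le_mul (BX_card N) (BX_card M) (Nat.cast_nonneg _) (by positivity)).trans_eq ?_
      rw [hNM, show (256:ℝ) = 16 * 16 by norm_num, mul_pow]; ring
    have c2 := mul_le_mul_of_nonneg_right c1 (show 0 ≤ 2 * Δ by positivity)
    have c3 : ((U:ℕ):ℝ) = (y:ℝ) ^ (m + 2) := by rw [hU]; push_cast; rfl
    rw [c3]
    refine (mul_le_mul_of_nonneg_left (add_le_add c2 this) (by positivity)).trans_eq ?_
    ring
  have s3 := gcd_big (16 * A) (16 * B) U (by positivity)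
    ((Finset.Ioc A (16 * A) ×ˢ Finset.Ioc B (16 * B)).filter fun x => U < Nat.gcd x.1 x.2) (by
      intro x hx
      obtain ⟨x1, x2⟩ := Finset.mem_filter.1 hx
      exact ⟨Finset.product_subset_product (Finset.Ioc_subset_Ioc_left (Nat.zero_le _))
        (Finset.Ioc_subset_Ioc_left (Nat.zero_le _)) x1, x2⟩)
  calc _ ≤ ∑ x ∈ FF A N, ∑ z ∈ FF B M, G x z :=
        Finset.sum_le_sum fun x hx => Finset.sum_le_sum fun z hz => s1 x hx z hz
    _ ≤ ∑ x ∈ Finset.Ioc A (16 * A) ×ˢ BX N, ∑ z ∈ Finset.Ioc B (16 * B) ×ˢ BX M, G x z := by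
        refine (Finset.sum_le_sum fun x _ => Finset.sum_le_sum_of_subset_of_nonneg (Finset.filter_subset _ _)
          fun z _ _ => G0 x z).trans (Finset.sum_le_sum_of_subset_of_nonneg (Finset.filter_subset _ _)
          fun x _ _ => Finset.sum_nonneg fun z _ => G0 x z)
    _ = ∑ a ∈ Finset.Ioc A (16 * A), ∑ b ∈ Finset.Ioc B (16 * B), ∑ n ∈ BX N, ∑ n' ∈ BX M, G (a, n) (b, n') := by
        rw [Finset.sum_product]
        refine Finset.sum_congr rfl fun a _ => ?_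
        simp only [Finset.sum_product]
        exact Finset.sum_comm
    _ ≤ ∑ a ∈ Finset.Ioc A (16 * A), ∑ b ∈ Finset.Ioc B (16 * B),
        2 * (μ * Δ) * NM * (2 * 256 ^ (m + 1) + C1 + C1 * if U < Nat.gcd a b then (U:ℝ) else 0) :=
        Finset.sum_le_sum fun a ha => Finset.sum_le_sum fun b hb => s2 a ha b hb
    _ ≤ 2 * (μ * Δ) * NM * (256 * (A * B) * (2 * 256 ^ (m + 1) + C1) + C1 * (256 * (A * B))) := by
        rw [← Finset.sum_product', ← Finset.mul_sum, Finset.sum_add_distrib, ← Finset.mul_sum, ← Finset.sum_filter,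
          Finset.sum_const, Finset.sum_const, nsmul_eq_mul, nsmul_eq_mul, Finset.card_product]
        refine mul_le_mul_of_nonneg_left (add_le_add (mul_le_mul_of_nonneg_right ?_ (by positivity))
          (mul_le_mul_of_nonneg_left ?_ (by positivity))) (by positivity)
        · rw [Nat.card_Ioc, Nat.card_Ioc]
          have : (16 * A - A) * (16 * B - B) ≤ 256 * (A * B) := by
            calc _ ≤ (16 * A) * (16 * B) := Nat.mul_le_mul (Nat.sub_le _ _) (Nat.sub_le _ _)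
              _ = _ := by ring
          exact_mod_cast this
        · push_cast at s3
          linarith
    _ ≤ 2 * (32 * (δ * δ')) * NM * (256 * (A * B) * (2 * 256 ^ (m + 1) + C1) + C1 * (256 * (A * B))) := by
        gcongr
    _ = _ := by rw [CC, hNM, hC1]; ring

end Pool.Agent.H53.Dm
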