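import Mathlib
import Pool.Agent.H53.DmC

open MeasureTheory Set Metric Filter Topology

namespace Pool.Agent.H53.Dm
open Pool.Agent.H53.Vert (nd)

lemma bonf2 {ι : Type*} [DecidableEq ι] (E : ι → Set ℝ) (hm : ∀ i, MeasurableSet (E i)) (hf : ∀ i, volume (E i) ≠ ⊤)
    (I : Finset ι) :
    ∑ i ∈ I, volume.real (E i) - ∑ i ∈ I, ∑ j ∈ I, (if i ≠ j then volume.real (E i ∩ E j) else 0) ≤
      volume.real (⋃ i ∈ I, E i) := by
  induction I using Finset.induction_on with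
  | empty => simp
  | insert a s ha ih =>
    have g0 : ∀ i j, 0 ≤ (if i ≠ j then volume.real (E i ∩ E j) else 0) := fun i j => by
      split_ifs
      · exact measureReal_nonneg
      · exact le_rfl
    rw [Finset.sum_insert ha, Finset.sum_insert ha, Finset.set_biUnion_insert]
    set U := ⋃ i ∈ s, E i with hU
    have hUm : MeasurableSet U := Finset.measurableSet_biUnion s fun i _ => hm i
    have e1 : volume.real (E a ∪ U) + volume.real (E a ∩ U) = volume.real (E a) + volume.real U :=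
      measureReal_union_add_inter hUm (hf a)
        (measure_biUnion_lt_top (Finset.finite_toSet _) fun x _ => (hf x).lt_top).ne
    have e2 : volume.real (E a ∩ U) ≤ ∑ j ∈ s, volume.real (E a ∩ E j) := by
      rw [hU, inter_iUnion₂]
      exact measureReal_biUnion_finset_le s _
    have e3 : ∑ j ∈ s, volume.real (E a ∩ E j) ≤
        ∑ j ∈ insert a s, (if a ≠ j then volume.real (E a ∩ E j) else 0) := by
      rw [Finset.sum_insert ha]
      refine le_add_of_nonneg_of_le (g0 a a) (Finset.sum_le_sum fun j hj => ?_)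
      rw [if_pos (fun h : a = j => ha (h ▸ hj))]
    have e4 : ∑ i ∈ s, ∑ j ∈ s, (if i ≠ j then volume.real (E i ∩ E j) else 0) ≤
        ∑ i ∈ s, ∑ j ∈ insert a s, (if i ≠ j then volume.real (E i ∩ E j) else 0) :=
      Finset.sum_le_sum fun i _ => Finset.sum_le_sum_of_subset_of_nonneg (Finset.subset_insert _ _)
        fun j _ _ => g0 i j
    linarith

lemma FF_card {m : ℕ} (A : ℕ) (N : Fin (m + 1) → ℕ) : (A:ℝ) * ∏ i, (N i : ℝ) ≤ (FF A N).card := by
  have h1 : (((Finset.Ioc A (16 * A) ×ˢ Finset.Ioc (N 0) (16 * N 0)).filter fun x => Nat.Coprime x.1 x.2) ×ˢ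
      BX fun i : Fin m => N i.succ).card ≤ (FF A N).card := by
    refine Finset.card_le_card_of_injOn (fun x => (x.1.1, Fin.cons x.1.2 x.2)) ?_ ?_
    · intro x hx
      obtain ⟨a1, a2⟩ := Finset.mem_product.1 hx
      obtain ⟨a3, a4⟩ := Finset.mem_filter.1 a1
      obtain ⟨a5, a6⟩ := Finset.mem_product.1 a3
      refine Finset.mem_coe.2 (Finset.mem_filter.2 ⟨Finset.mem_product.2 ⟨a5, Fintype.mem_piFinset.2 fun i => ?_⟩, a4⟩)
      refine Fin.cases a6 (fun j => ?_) i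
      exact Fintype.mem_piFinset.1 a2 j
    · intro x _ y _ h
      simp only [Prod.mk.injEq, Fin.cons_inj] at h
      exact Prod.ext (Prod.ext h.1 h.2.1) h.2.2
  rw [Finset.card_product, BX, Fintype.card_piFinset] at h1
  have h2 : (((Finset.Ioc A (16 * A) ×ˢ Finset.Ioc (N 0) (16 * N 0)).filter fun x => Nat.Coprime x.1 x.2).card : ℝ) *
      ∏ i : Fin m, ((Finset.Ioc (N i.succ) (16 * N i.succ)).card : ℝ) ≤ (FF A N).card := by exact_mod_cast h1
  rw [Fin.prod_univ_succ, ← mul_assoc]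
  refine le_trans (mul_le_mul (cop_card A (N 0)) (Finset.prod_le_prod (fun _ _ => Nat.cast_nonneg _) fun i _ => ?_)
    (by positivity) (Nat.cast_nonneg _)) h2
  rw [Nat.card_Ioc]
  exact_mod_cast (by omega)

lemma pow_uniq {a s t : ℕ} (h1 : a ∈ Finset.Ioc (16 ^ s) (16 * 16 ^ s)) (h2 : a ∈ Finset.Ioc (16 ^ t) (16 * 16 ^ t)) :
    s = t := by
  rw [Finset.mem_Ioc, ← pow_succ'] at h1 h2
  have e1 := (Nat.pow_lt_pow_iff_right (by norm_num : 1 < 16)).1 (h1.1.trans_le h2.2)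
  have e2 := (Nat.pow_lt_pow_iff_right (by norm_num : 1 < 16)).1 (h2.1.trans_le h1.2)
  omega

/-- the approximation function -/
noncomputable def ps (k : ℕ) (H : ℝ) : ℝ := 1 / (H * Real.log H ^ k)

lemma ps_ge (k : ℕ) (H H' L : ℝ) (h1 : 2 ≤ H) (h2 : H ≤ H') (h3 : Real.log H ≤ L) : 1 / (H' * L ^ k) ≤ ps k H := by
  have := Real.log_pos (show 1 < H by linarith)
  have h4 : 0 ≤ H' := by linarith
  exact one_div_le_one_div_of_le (by positivity) (by gcongr)

lemma log16 (j : ℕ) : Real.log (16 ^ j) ≤ 3 * j := by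
  rw [Real.log_pow, show (16:ℝ) = 2 ^ 4 by norm_num, Real.log_pow]
  have := Real.log_two_lt_d9
  have h : (0:ℝ) ≤ j := Nat.cast_nonneg j
  push_cast
  nlinarith

lemma two_le_prod {r : ℕ} (f : Fin r → ℝ) (h : ∀ i, 2 ≤ f i) : 1 ≤ ∏ i, f i :=
  Finset.one_le_prod fun i _ => by linarith [h i]

lemma dio {m : ℕ} (α : Fin (m + 1) → ℝ) (c : ℝ) (hc : 0 < c)
    (h : ∀ w : Fin (m + 1) → ℤ, w ≠ 0 → c * ps (m + 2) (2 * ∏ i, max |(w i : ℝ)| 2) ≤ nd (∑ i, w i * α i)) :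
    ∃ K : ℕ, 1 ≤ K ∧ ∀ σ : ℕ, 1 ≤ σ → Dio α (256 * 16 ^ (3 * σ)) ((K * σ ^ (m + 2) : ℕ) : ℝ) := by
  obtain ⟨K, hK⟩ := exists_nat_gt (2 * (18 * (m + 2)) ^ (m + 2) / c)
  have hK0 : (0:ℝ) < K := lt_of_le_of_lt (by positivity) hK
  refine ⟨K, by exact_mod_cast hK0, fun σ hσ w hw ρ hρ => lt_of_lt_of_le ?_ (h w hw)⟩
  have hσ1 : (1:ℝ) ≤ σ := by exact_mod_cast hσ
  have p1 := two_le_prod (fun i => max |(w i : ℝ)| 2) fun i => le_max_right _ _
  have p2 : ∏ i, max |(w i : ℝ)| 2 ≤ ∏ i, ρ i :=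
    Finset.prod_le_prod (fun i _ => by positivity) fun i _ => max_le (hρ i).2.2 (hρ i).1
  have p3 : ∏ i, ρ i ≤ 16 ^ ((3 * σ + 2) * (m + 1)) := by
    calc ∏ i, ρ i ≤ ∏ _i : Fin (m + 1), (16:ℝ) ^ (3 * σ + 2) :=
          Finset.prod_le_prod (fun i _ => by linarith [(hρ i).1]) fun i _ => (hρ i).2.1.trans_eq (by ring)
      _ = _ := by rw [Finset.prod_const, Finset.card_univ, Fintype.card_fin, ← pow_mul]
  have p4 : Real.log (2 * ∏ i, max |(w i : ℝ)| 2) ≤ 18 * (m + 2) * σ := by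
    have : 2 * ∏ i, max |(w i : ℝ)| 2 ≤ 16 ^ ((3 * σ + 2) * (m + 1) + 1) := by
      rw [pow_succ]; linarith
    refine ((Real.log_le_log (by linarith) this).trans (log16 _)).trans ?_
    push_cast
    have : (0:ℝ) ≤ m := Nat.cast_nonneg m
    nlinarith
  refine lt_of_lt_of_le ?_ (mul_le_mul_of_nonneg_left
    (ps_ge (m + 2) _ (2 * ∏ i, ρ i) _ (by linarith) (by linarith) p4) hc.le)
  have p5 : 0 < ∏ i, ρ i := by linarith
  rw [div_lt_iff₀ hc] at hK
  push_cast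
  rw [mul_one_div, div_lt_div_iff₀ (by positivity) (by positivity), mul_pow]
  have p6 : 0 < (σ:ℝ) ^ (m + 2) * ∏ i, ρ i := by positivity
  nlinarith [mul_lt_mul_of_pos_right hK p6]

lemma ev_poly (C : ℝ) (j : ℕ) : ∀ᶠ σ : ℕ in atTop, C * (σ:ℝ) ^ j ≤ 16 ^ σ := by
  have := (tendsto_pow_const_div_const_pow_of_one_lt j (show (1:ℝ) < 16 by norm_num)).const_mul C
  rw [mul_zero] at this
  filter_upwards [this.eventually_le_const one_pos] with σ h
  rwa [← mul_div_assoc, div_le_one (by positivity)] at h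

lemma CC_pos (m : ℕ) : 1 ≤ CC m := by
  unfold CC
  have : (1:ℝ) ≤ 256 ^ (m + 1) := one_le_pow₀ (by norm_num)
  have : (0:ℝ) ≤ (4 * (m + 3)) ^ (m + 2) * 8192 ^ (m + 1) := by positivity
  linarith

theorem lower {m : ℕ} (α : Fin (m + 1) → ℝ) (c : ℝ) (hc : 0 < c)
    (h : ∀ w : Fin (m + 1) → ℤ, w ≠ 0 → c * ps (m + 2) (2 * ∏ i, max |(w i : ℝ)| 2) ≤ nd (∑ i, w i * α i))
    (ε : ℝ) (hε : 0 < ε) (hε1 : ε ≤ 1) (N0 : ℕ) :
    1 / (2 * CC m) ≤ volume.real ({x : ℝ | ∃ (a : ℕ) (n : Fin (m + 1) → ℕ), N0 ≤ a ∧ 2 ≤ a ∧ (∀ i, 2 ≤ n i) ∧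
      nd (LF α n + a * x) < ε * ps (m + 2) (a * ∏ i, (n i : ℝ))} ∩ Ioc (-1) 2) := by
  classical
  obtain ⟨K, hK1, hK⟩ := dio α c hc h
  have hC := CC_pos m
  set K2 : ℝ := (96 * (m + 2)) ^ (m + 2) with hK2
  have hK21 : 1 ≤ K2 := one_le_pow₀ (by have : (0:ℝ) ≤ m := Nat.cast_nonneg m; linarith)
  set e := (m + 2) * (m + 2) + (m + 1) with he
  set V : ℕ → ℝ := fun τ => ε / (K2 * τ ^ (m + 2)) with hV
  have V0 : ∀ τ, 0 ≤ V τ := fun τ => by positivity
  obtain ⟨τ0, hτ0⟩ := eventually_atTop.1 ((ev_poly K (m + 2)).and ((ev_poly (K ^ e * K2 / ε) ((m + 2) * (e + 1))).and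
    ((eventually_ge_atTop N0).and (tendsto_natCast_atTop_atTop.eventually_ge_atTop (2 * CC m)))))
  have hτ1 : ∀ τ, τ0 ≤ τ → (2:ℝ) ≤ τ := fun τ h => by linarith [(hτ0 τ h).2.2.2]
  have hτ2 : ∀ τ, τ0 ≤ τ → 1 ≤ τ := fun τ h => by
    have : (1:ℝ) ≤ τ := by linarith [hτ1 τ h]
    exact_mod_cast this
  set u : ℕ → ℝ := fun τ => ε / K2 * (1 / τ) with hu
  have u1 : ∀ τ, τ0 ≤ τ → u τ ≤ 1 / (2 * CC m) := fun τ h => by
    have a1 : ε / K2 ≤ 1 := by rw [div_le_one (by linarith)]; linarith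
    have a2 : 1 / (τ:ℝ) ≤ 1 / (2 * CC m) := one_div_le_one_div_of_le (by linarith) (hτ0 τ h).2.2.2
    calc u τ ≤ 1 * (1 / (2 * CC m)) := mul_le_mul a1 a2 (by positivity) (by norm_num)
      _ = _ := one_mul _
  have hex : ∃ M, 1 / (2 * CC m) ≤ ∑ i ∈ Finset.Ico τ0 M, u i := by
    have hns : ¬ Summable u := by
      rw [hu, summable_mul_left_iff (by positivity)]
      exact Real.not_summable_one_div_natCast
    have ht := (not_summable_iff_tendsto_nat_atTop_of_nonneg (fun τ => by positivity)).1 hns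
    obtain ⟨M, hM1, hM2⟩ := ((ht.eventually_ge_atTop (∑ i ∈ Finset.range τ0, u i + 1 / (2 * CC m))).and
      (eventually_ge_atTop τ0)).exists
    refine ⟨M, ?_⟩
    rw [Finset.sum_Ico_eq_sub _ hM2]
    linarith
  set M := Nat.find hex with hM
  have hM1 : 1 / (2 * CC m) ≤ ∑ i ∈ Finset.Ico τ0 M, u i := Nat.find_spec hex
  have hs0 : 0 < 1 / (2 * CC m) := by positivity
  have hNM : τ0 < M := by
    by_contra hc
    rw [Finset.Ico_eq_empty_of_le (not_lt.1 hc), Finset.sum_empty] at hM1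
    linarith
  have hM2 : ∑ i ∈ Finset.Ico τ0 M, u i ≤ 2 * (1 / (2 * CC m)) := by
    obtain ⟨M', hM'⟩ : ∃ M', M = M' + 1 := ⟨M - 1, by omega⟩
    have h3 := Nat.find_min hex (m := M') (by omega)
    rw [hM', Finset.sum_Ico_succ_top (by omega)]
    linarith [not_le.1 h3, u1 M' (by omega)]
  set S : Finset (Σ _ : ℕ, Fin (m + 1) → ℕ) := (Finset.Ico τ0 M).sigma fun τ =>
    Fintype.piFinset fun _ => Finset.Ico τ (2 * τ) with hS
  have hSm : ∀ s ∈ S, τ0 ≤ s.1 ∧ ∀ i, s.1 ≤ s.2 i ∧ s.2 i < 2 * s.1 := fun s hs => by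
    obtain ⟨a1, a2⟩ := Finset.mem_sigma.1 hs
    exact ⟨(Finset.mem_Ico.1 a1).1, fun i => Finset.mem_Ico.1 (Fintype.mem_piFinset.1 a2 i)⟩
  have hSs : ∑ s ∈ S, V s.1 = ∑ i ∈ Finset.Ico τ0 M, u i := by
    rw [hS, Finset.sum_sigma]
    refine Finset.sum_congr rfl fun τ hτ => ?_
    have := hτ1 τ (Finset.mem_Ico.1 hτ).1
    simp only [Finset.sum_const, Fintype.card_piFinset, Nat.card_Ico, Finset.prod_const, Finset.card_univ,
      Fintype.card_fin, nsmul_eq_mul, hV, hu, show 2 * τ - τ = τ by omega]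
    push_cast
    field_simp
    ring
  set F : (Σ _ : ℕ, Fin (m + 1) → ℕ) → Finset (ℕ × (Fin (m + 1) → ℕ)) := fun s => FF (16 ^ s.1) fun i => 16 ^ s.2 i
    with hF
  set P : (Σ _ : ℕ, Fin (m + 1) → ℕ) → ℝ := fun s => ((16 ^ s.1 : ℕ) : ℝ) * ∏ i, ((16 ^ s.2 i : ℕ) : ℝ) with hP
  have P1 : ∀ s, 1 ≤ P s := fun s => one_le_mul_of_one_le_of_one_le (by exact_mod_cast Nat.one_le_pow _ _ (by norm_num))
    (Finset.one_le_prod fun i _ => by exact_mod_cast Nat.one_le_pow _ _ (by norm_num))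
  set δ : (Σ _ : ℕ, Fin (m + 1) → ℕ) → ℝ := fun s => V s.1 / P s with hδ
  have δ0 : ∀ s, 0 ≤ δ s := fun s => div_nonneg (V0 _) (by linarith [P1 s])
  have δP : ∀ s, δ s * P s = V s.1 := fun s => div_mul_cancel₀ _ (by linarith [P1 s])
  have δ1 : ∀ s ∈ S, δ s ≤ 1 / 2 := fun s hs => by
    refine (div_le_self (V0 _) (P1 s)).trans ?_
    have a1 := hτ1 _ (hSm s hs).1
    have a2 : (2:ℝ) ≤ (s.1:ℝ) ^ (m + 2) := a1.trans (le_self_pow₀ (by linarith) (by omega))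
    simp only [hV]
    rw [div_le_div_iff₀ (by positivity) (by norm_num)]
    nlinarith
  have Fm : ∀ s, ∀ x ∈ F s, x.1 ∈ Finset.Ioc (16 ^ s.1) (16 * 16 ^ s.1) ∧
      ∀ i, x.2 i ∈ Finset.Ioc (16 ^ s.2 i) (16 * 16 ^ s.2 i) := fun s x hx => by
    obtain ⟨a1, a2⟩ := Finset.mem_product.1 (Finset.mem_filter.1 hx).1
    exact ⟨a1, Fintype.mem_piFinset.1 a2⟩
  set E : (Σ _ : (Σ _ : ℕ, Fin (m + 1) → ℕ), ℕ × (Fin (m + 1) → ℕ)) → Set ℝ :=
    fun i => EI i.2.1 (LF α i.2.2) (δ i.1) with hE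
  have hb := bonf2 E (fun i => EI_meas _ _ _) (fun i => EI_fin _ _ _) (S.sigma F)
  have b1 : 2 * ∑ s ∈ S, V s.1 ≤ ∑ i ∈ S.sigma F, volume.real (E i) := by
    rw [Finset.sum_sigma S F, Finset.mul_sum]
    refine Finset.sum_le_sum fun s hs => ?_
    rw [Finset.sum_congr rfl fun x hx => EI_vol x.1 (Nat.one_le_of_lt (Finset.mem_Ioc.1 (Fm s x hx).1).1)
      (LF α x.2) (δ s) (δ0 s) (δ1 s hs), Finset.sum_const, nsmul_eq_mul, ← δP s]
    have : P s ≤ (F s).card := FF_card _ _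
    nlinarith [δ0 s]
  have big : ∀ s ∈ S, ∀ σ, s.1 ≤ σ → ((K * σ ^ (m + 2) : ℕ) : ℝ) ^ e ≤
      δ s * ((16 ^ σ : ℕ) : ℝ) * ∏ i, (((16 ^ σ : ℕ) : ℝ) * ((16 ^ s.2 i : ℕ) : ℝ)) := by
    intro s hs σ hσ
    have a0 := (hSm s hs).1
    have a1 := (hτ0 σ (a0.trans hσ)).2.1
    have a2 := hτ1 _ a0
    have a3 : (s.1:ℝ) ≤ σ := by exact_mod_cast hσ
    have a4 : ((K * σ ^ (m + 2) : ℕ) : ℝ) ^ e ≤ V s.1 * 16 ^ σ := by
      refine le_trans (le_of_eq ?_) ((mul_le_mul_of_nonneg_left a1 (V0 σ)).trans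
        (mul_le_mul_of_nonneg_right ?_ (by positivity)))
      · simp only [hV]
        have : (0:ℝ) < σ := by linarith
        push_cast
        field_simp
        ring
      · simp only [hV]
        gcongr
    refine a4.trans ?_
    rw [← δP s, Finset.prod_mul_distrib, Finset.prod_const, Finset.card_univ, Fintype.card_fin]
    simp only [hP]
    have a5 : ((16 ^ s.1 : ℕ) : ℝ) ≤ ((16 ^ σ : ℕ) : ℝ) ^ (m + 1) := by
      have : 16 ^ s.1 ≤ (16 ^ σ) ^ (m + 1) :=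
        (Nat.pow_le_pow_right (by norm_num) hσ).trans (Nat.le_self_pow (by omega) _)
      exact_mod_cast this
    have a6 : 0 ≤ δ s * 16 ^ σ * ∏ i, ((16 ^ s.2 i : ℕ) : ℝ) := mul_nonneg (mul_nonneg (δ0 s) (by positivity))
      (by positivity)
    have a7 := mul_le_mul_of_nonneg_left a5 a6
    push_cast at a7 ⊢
    linarith
  have b2 : ∑ i ∈ S.sigma F, ∑ j ∈ S.sigma F, (if i ≠ j then volume.real (E i ∩ E j) else 0) ≤
      CC m * (∑ s ∈ S, V s.1) ^ 2 := by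
    rw [sq, Finset.sum_mul_sum, Finset.mul_sum, Finset.sum_sigma]
    refine Finset.sum_le_sum fun s hs => ?_
    simp only [Finset.sum_sigma]
    rw [Finset.sum_comm, Finset.mul_sum]
    refine Finset.sum_le_sum fun s' hs' => ?_
    obtain ⟨a1, a2⟩ := hSm s hs
    obtain ⟨a1', a2'⟩ := hSm s' hs'
    have hσ : τ0 ≤ max s.1 s'.1 := a1.trans (le_max_left _ _)
    have hp := pairsum α (16 ^ s.1) (16 ^ s'.1) (fun i => 16 ^ s.2 i) (fun i => 16 ^ s'.2 i) (δ s) (δ s')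
      (256 * 16 ^ (3 * max s.1 s'.1)) (K * (max s.1 s'.1) ^ (m + 2)) (by positivity) (by positivity)
      (fun i => Nat.pow_le_pow_right (by norm_num) (a2 i).1) (fun i => Nat.pow_le_pow_right (by norm_num) (a2' i).1)
      (δ0 s) (δ0 s') (fun i => by
        have c1 := (a2 i).2
        have c2 := (a2' i).2
        push_cast
        rw [← pow_add, ← pow_add]
        refine mul_le_mul_of_nonneg_left (max_le ?_ ?_) (by norm_num) <;>
          exact pow_le_pow_right₀ (by norm_num) (by omega))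
      (hK _ (hτ2 _ hσ)) (Nat.mul_pos hK1 (pow_pos (hτ2 _ hσ) _)) (by
        have c1 : K * (max s.1 s'.1) ^ (m + 2) ≤ 16 ^ max s.1 s'.1 := by exact_mod_cast (hτ0 _ hσ).1
        refine c1.trans ?_
        rcases le_total s.1 s'.1 with h | h
        · rw [max_eq_right h]; exact le_max_right _ _
        · rw [max_eq_left h]; exact le_max_left _ _) (by
        rcases le_total s.1 s'.1 with h | h
        · rw [max_eq_right h]; exact le_max_of_le_left (big s hs _ h)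
        · rw [max_eq_left h]; exact le_max_of_le_right (big s' hs' _ h))
    rw [mul_assoc (δ s), mul_assoc (δ s')] at hp
    rw [← δP s, ← δP s']
    refine le_trans (Finset.sum_le_sum fun x hx => Finset.sum_le_sum fun z hz => ?_) hp
    by_cases hxz : x = z
    · subst hxz
      have e1 : s.1 = s'.1 := pow_uniq (Fm s x hx).1 (Fm s' x hz).1
      have e2 : s.2 = s'.2 := funext fun i => pow_uniq ((Fm s x hx).2 i) ((Fm s' x hz).2 i)
      have e3 : s = s' := Sigma.ext e1 (heq_of_eq e2)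
      subst e3
      simp
    · rw [if_pos hxz]
      split_ifs
      · exact le_rfl
      · exact measureReal_nonneg
  rw [hSs] at b1 b2
  set T := ∑ i ∈ Finset.Ico τ0 M, u i
  have b3 : CC m * T ≤ 1 := by
    refine (mul_le_mul_of_nonneg_left hM2 (by linarith)).trans_eq ?_
    field_simp
  have b4 : CC m * T ^ 2 ≤ T := by nlinarith [mul_le_mul_of_nonneg_right b3 (hs0.le.trans hM1)]
  refine le_trans (by linarith) (hb.trans (measureReal_mono ?_
    (ne_top_of_le_ne_top (by simp) (measure_mono inter_subset_right))))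
  intro x hx
  simp only [mem_iUnion] at hx
  obtain ⟨⟨s, a, n⟩, hi, hx⟩ := hx
  obtain ⟨hs, hn⟩ := Finset.mem_sigma.1 hi
  obtain ⟨c1, c2⟩ := EI_prop _ _ _ _ (δ1 s hs) hx
  obtain ⟨c3, c4⟩ := Fm s _ hn
  obtain ⟨a1, a2⟩ := hSm s hs
  simp only [Finset.mem_Ioc] at c1 c3 c4
  have d1 : 2 ≤ a := by have := Nat.one_le_pow s.1 16 (by norm_num); omega
  have d2 : ∀ i, 2 ≤ n i := fun i => by have := Nat.one_le_pow (s.2 i) 16 (by norm_num); have := c4 i; omega
  refine ⟨⟨a, n, ?_, d1, d2, c1.trans_le ?_⟩, c2⟩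
  · have := (hτ0 _ a1).2.2.1
    have := Nat.lt_pow_self (n := s.1) (show 1 < 16 by norm_num)
    omega
  · have e1 : (2:ℝ) ≤ a := by exact_mod_cast d1
    have e2 := two_le_prod (fun i => (n i : ℝ)) fun i => by exact_mod_cast d2 i
    have e3 : (a:ℝ) * ∏ i, (n i : ℝ) ≤ 16 ^ (m + 2) * P s := by
      have f1 : (a:ℝ) ≤ 16 * ((16 ^ s.1 : ℕ) : ℝ) := by exact_mod_cast c3.2
      have f2 : ∏ i, (n i : ℝ) ≤ ∏ i, (16 * ((16 ^ s.2 i : ℕ) : ℝ)) :=
        Finset.prod_le_prod (fun _ _ => Nat.cast_nonneg _) fun i _ => by exact_mod_cast (c4 i).2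
      rw [Finset.prod_mul_distrib, Finset.prod_const, Finset.card_univ, Fintype.card_fin] at f2
      refine (mul_le_mul f1 f2 (by positivity) (by positivity)).trans_eq ?_
      simp only [hP]; ring
    have e4 : Real.log ((a:ℝ) * ∏ i, (n i : ℝ)) ≤ 6 * (m + 2) * s.1 := by
      have t1 := hτ2 _ a1
      have f1 : a ≤ 16 ^ (2 * s.1) := c3.2.trans (by
        rw [← pow_succ']; exact Nat.pow_le_pow_right (by norm_num) (by omega))
      have f2 : ∏ i, (n i : ℝ) ≤ ∏ _i : Fin (m + 1), (16:ℝ) ^ (2 * s.1) :=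
        Finset.prod_le_prod (fun _ _ => Nat.cast_nonneg _) fun i _ => by
          have : n i ≤ 16 ^ (2 * s.1) := (c4 i).2.trans (by
            rw [← pow_succ']; exact Nat.pow_le_pow_right (by norm_num) (a2 i).2)
          exact_mod_cast this
      rw [Finset.prod_const, Finset.card_univ, Fintype.card_fin] at f2
      have f3 : (a:ℝ) ≤ 16 ^ (2 * s.1) := by exact_mod_cast f1
      have f4 : (a:ℝ) * ∏ i, (n i : ℝ) ≤ 16 ^ (2 * s.1 * (m + 2)) :=
        (mul_le_mul f3 f2 (by positivity) (by positivity)).trans_eq (by ring)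
      refine ((Real.log_le_log (by positivity) f4).trans (log16 _)).trans_eq ?_
      push_cast; ring
    refine le_trans (le_of_eq ?_) (mul_le_mul_of_nonneg_left (ps_ge (m + 2) _ _ _ (by nlinarith) e3 e4) hε.le)
    have t2 := hτ1 _ a1
    have t3 := P1 s
    simp only [hδ, hV, hK2]
    rw [show (96:ℝ) * (m + 2) = 16 * (6 * (m + 2)) by ring, mul_pow, mul_pow (6 * (m + 2) : ℝ)]
    field_simp

end Pool.Agent.H53.Dm
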