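import Mathlib
import Pool.Agent.H53.DmD

open MeasureTheory Set Metric Filter Topology

namespace Pool.Agent.H53.Dm
open Pool.Agent.H53.Vert (nd)

lemma zero_one (W : Set UnitAddCircle) (hW : MeasurableSet W)
    (hT : (fun y : UnitAddCircle => 2 • y) ⁻¹' W ⊆ W)
    (h : volume ((fun β : ℝ => (β : UnitAddCircle)) ⁻¹' W) ≠ 0) : ∀ᵐ x : ℝ, (x : UnitAddCircle) ∈ W := by
  have herg : Ergodic (fun y : UnitAddCircle => 2 • y) := AddCircle.ergodic_nsmul one_lt_two
  have hnull : ∀ A : Set UnitAddCircle, MeasurableSet A → volume A = 0 →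
      volume ((fun β : ℝ => (β : UnitAddCircle)) ⁻¹' A) = 0 := by
    intro A hA h0
    rw [← inter_univ (_ ⁻¹' A), ← iUnion_Ioc_intCast, inter_iUnion]
    refine measure_iUnion_null fun t => ?_
    have := (UnitAddCircle.measurePreserving_mk t).measure_preimage hA.nullMeasurableSet
    rw [Measure.restrict_apply (AddCircle.measurable_mk' hA), h0] at this
    exact this
  rcases herg.ae_empty_or_univ_of_preimage_ae_le hW.nullMeasurableSet (HasSubset.Subset.eventuallyLE hT) with h0 | h1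
  · exact absurd (hnull W hW (by rw [measure_congr h0]; simp)) h
  · exact hnull Wᶜ hW.compl (ae_eq_univ.1 h1)

lemma ps_pos (k : ℕ) (H : ℝ) (h : 2 ≤ H) : 0 < ps k H := by
  have := Real.log_pos (show 1 < H by linarith)
  unfold ps
  positivity

theorem caseB {m : ℕ} (α : Fin (m + 1) → ℝ) (c : ℝ) (hc : 0 < c)
    (h : ∀ w : Fin (m + 1) → ℤ, w ≠ 0 → c * ps (m + 2) (2 * ∏ i, max |(w i : ℝ)| 2) ≤ nd (∑ i, w i * α i)) :
    ∀ᵐ x : ℝ, ∀ N : ℕ, ∃ (a : ℕ) (n : Fin (m + 1) → ℕ), N ≤ a ∧ 2 ≤ a ∧ (∀ i, 2 ≤ n i) ∧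
      nd (LF α n + a * x) < ps (m + 2) (a * ∏ i, (n i : ℝ)) := by
  set U : ℕ → Set UnitAddCircle := fun N => {y | ∃ (a : ℕ) (n : Fin (m + 1) → ℕ), N ≤ a ∧ 2 ≤ a ∧ (∀ i, 2 ≤ n i) ∧
    ‖((LF α n : ℝ) : UnitAddCircle) + a • y‖ < 1 / (N + 1) * ps (m + 2) (a * ∏ i, (n i : ℝ))} with hU
  have hH : ∀ (a : ℕ) (n : Fin (m + 1) → ℕ), 2 ≤ a → (∀ i, 2 ≤ n i) → (2:ℝ) ≤ a * ∏ i, (n i : ℝ) := by
    intro a n h1 h2
    have e1 : (2:ℝ) ≤ a := by exact_mod_cast h1
    have e2 := two_le_prod (fun i => (n i : ℝ)) fun i => by exact_mod_cast h2 i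
    nlinarith
  have hnd : ∀ (a : ℕ) (n : Fin (m + 1) → ℕ) (x : ℝ),
      ‖((LF α n : ℝ) : UnitAddCircle) + a • (x : UnitAddCircle)‖ = nd (LF α n + a * x) := by
    intro a n x
    rw [← AddCircle.coe_nsmul, ← AddCircle.coe_add, UnitAddCircle.norm_eq, nsmul_eq_mul]
    rfl
  have hUo : ∀ N, IsOpen (U N) := by
    intro N
    simp only [hU, setOf_exists, setOf_and]
    refine isOpen_iUnion fun a => isOpen_iUnion fun n => isOpen_const.inter (isOpen_const.inter
      (isOpen_const.inter (isOpen_lt (by fun_prop) continuous_const)))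
  have hanti : Antitone U := by
    rintro N N' hN y ⟨a, n, h1, h2, h3, h4⟩
    refine ⟨a, n, hN.trans h1, h2, h3, h4.trans_le (mul_le_mul_of_nonneg_right ?_ (ps_pos _ _ (hH a n h2 h3)).le)⟩
    exact Nat.one_div_le_one_div hN
  have hz := zero_one (⋂ N, U N) (MeasurableSet.iInter fun N => (hUo N).measurableSet) (by
      intro y hy
      rw [mem_preimage, mem_iInter] at hy
      rw [mem_iInter]
      intro N
      obtain ⟨a, n, h1, h2, h3, h4⟩ := hy (2 ^ (m + 3) * (N + 1))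
      have h5 : 1 ≤ 2 ^ (m + 3) := Nat.one_le_two_pow
      refine ⟨a * 2, n, by nlinarith, by omega, h3, ?_⟩
      rw [mul_smul]
      refine h4.trans_le ?_
      have e0 := hH a n h2 h3
      have e1 := Real.log_pos (show 1 < (a:ℝ) * ∏ i, (n i : ℝ) by linarith)
      have e2 : ((a * 2 : ℕ) : ℝ) * ∏ i, (n i : ℝ) = 2 * (a * ∏ i, (n i : ℝ)) := by push_cast; ring
      rw [e2]
      generalize (a:ℝ) * ∏ i, (n i : ℝ) = H at e0 e1
      refine le_trans ?_ (mul_le_mul_of_nonneg_left (ps_ge (m + 2) (2 * H) (2 * H) (2 * Real.log H) (by linarith) le_rfl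
        (by rw [Real.log_mul (by norm_num) (by linarith)]; linarith [Real.log_le_log (by norm_num) e0])) (by positivity))
      unfold ps
      rw [one_div_mul_one_div, one_div_mul_one_div]
      refine one_div_le_one_div_of_le (by positivity) ?_
      push_cast
      have e3 : 0 < H * Real.log H ^ (m + 2) := by positivity
      rw [mul_pow]
      ring_nf at e3 ⊢
      linarith) (by
      set V : ℕ → Set ℝ := fun N => (fun β : ℝ => (β : UnitAddCircle)) ⁻¹' U N ∩ Ioc (-1) 2 with hV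
      have hfin : ∀ N, volume (V N) ≠ ⊤ := fun N => ne_top_of_le_ne_top (by simp) (measure_mono inter_subset_right)
      have hVa : Antitone V := fun N N' h => inter_subset_inter_left _ (preimage_mono (hanti h))
      have hlim := hVa.measure_iInter (μ := volume) (fun N => ((AddCircle.measurable_mk'
        (hUo N).measurableSet).inter measurableSet_Ioc).nullMeasurableSet) ⟨0, hfin 0⟩
      have hge : ENNReal.ofReal (1 / (2 * CC m)) ≤ volume (⋂ N, V N) := by
        rw [hlim]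
        refine le_iInf fun N => ?_
        rw [ENNReal.ofReal_le_iff_le_toReal (hfin N)]
        have := lower α c hc h (1 / (N + 1)) (by positivity) (by
          rw [div_le_one (by positivity)]; linarith [Nat.cast_nonneg (α := ℝ) N]) N
        simpa only [hV, hU, preimage_setOf_eq, hnd, measureReal_def] using this
      intro h0
      have hs : (⋂ N, V N) ⊆ (fun β : ℝ => (β : UnitAddCircle)) ⁻¹' ⋂ N, U N := by
        rw [preimage_iInter]
        exact iInter_mono fun N => inter_subset_left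
      have h1 := (hge.trans (measure_mono hs)).trans h0.le
      have h2 := CC_pos m
      rw [nonpos_iff_eq_zero, ENNReal.ofReal_eq_zero] at h1
      exact absurd h1 (not_le.2 (by positivity)))
  filter_upwards [hz] with x hx N
  obtain ⟨a, n, h1, h2, h3, h4⟩ := mem_iInter.1 hx N
  refine ⟨a, n, h1, h2, h3, ?_⟩
  rw [hnd] at h4
  refine h4.trans_le (mul_le_of_le_one_left (ps_pos _ _ (hH a n h2 h3)).le ?_)
  rw [div_le_one (by positivity)]
  linarith [Nat.cast_nonneg (α := ℝ) N]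

lemma dich {m : ℕ} (α : Fin (m + 1) → ℝ)
    (hf : {w : Fin (m + 1) → ℤ | nd (∑ i, w i * α i) < ps (m + 2) (2 * ∏ i, max |(w i : ℝ)| 2)}.Finite) :
    ∃ c : ℝ, 0 < c ∧ ∀ w : Fin (m + 1) → ℤ, w ≠ 0 →
      c * ps (m + 2) (2 * ∏ i, max |(w i : ℝ)| 2) ≤ nd (∑ i, w i * α i) := by
  have hp : ∀ w : Fin (m + 1) → ℤ, 0 < ps (m + 2) (2 * ∏ i, max |(w i : ℝ)| 2) := fun w =>
    ps_pos _ _ (by linarith [two_le_prod (fun i => max |(w i : ℝ)| 2) fun i => le_max_right _ _])
  have hpos : ∀ w : Fin (m + 1) → ℤ, w ≠ 0 → 0 < nd (∑ i, w i * α i) := by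
    intro w hw
    refine abs_pos.2 fun h0 => ?_
    refine Set.infinite_of_injective_forall_mem (f := fun j : ℤ => j • w) (smul_left_injective ℤ hw) (fun j => ?_) hf
    refine lt_of_le_of_lt ((round_le _ (j * round (∑ i, w i * α i))).trans_eq ?_) (hp _)
    simp only [Pi.smul_apply, smul_eq_mul]
    push_cast
    rw [← sub_eq_zero.1 h0, Finset.mul_sum]
    simp only [mul_assoc, sub_self, abs_zero]
  obtain ⟨C, hC⟩ := (hf.image fun w => ps (m + 2) (2 * ∏ i, max |(w i : ℝ)| 2) / nd (∑ i, w i * α i)).bddAbove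
  refine ⟨1 / max C 1, by positivity, fun w hw => ?_⟩
  rw [one_div_mul_eq_div, div_le_iff₀ (by positivity), mul_comm (nd _), ← div_le_iff₀ (hpos w hw)]
  by_cases h : nd (∑ i, w i * α i) < ps (m + 2) (2 * ∏ i, max |(w i : ℝ)| 2)
  · exact (hC ⟨w, h, rfl⟩).trans (le_max_left _ _)
  · exact ((div_le_one (hpos w hw)).2 (not_lt.1 h)).trans (le_max_right _ _)

theorem main (m : ℕ) (α : Fin (m + 1) → ℝ) : ∀ᵐ t : ℝ, Set.Infinite {n : Fin (m + 2) → ℤ |
    nd (∑ i : Fin (m + 1), (n (Fin.castSucc i) : ℝ) * α i + (n (Fin.last (m + 1)) : ℝ) * t) <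
      ps (m + 2) (∏ i : Fin (m + 2), max |(n i : ℝ)| 2)} := by
  by_cases hf : {w : Fin (m + 1) → ℤ | nd (∑ i, w i * α i) < ps (m + 2) (2 * ∏ i, max |(w i : ℝ)| 2)}.Finite
  · obtain ⟨c, hc, h⟩ := dich α hf
    filter_upwards [caseB α c hc h] with t ht
    refine Set.Infinite.of_image (fun n => n (Fin.last (m + 1))) (Set.infinite_of_forall_exists_gt fun z => ?_)
    obtain ⟨a, n, h1, h2, h3, h4⟩ := ht (z.toNat + 1)
    refine ⟨a, ⟨Fin.snoc (α := fun _ => ℤ) (fun i => (n i : ℤ)) a, ?_, by simp⟩, by omega⟩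
    rw [mem_setOf_eq, Fin.prod_univ_castSucc]
    simp only [Fin.snoc_castSucc, Fin.snoc_last, Int.cast_natCast, Nat.abs_cast]
    rw [max_eq_left (by exact_mod_cast h2), mul_comm _ (a:ℝ),
      Finset.prod_congr rfl fun i _ => max_eq_left (show (2:ℝ) ≤ n i by exact_mod_cast h3 i)]
    exact h4
  · refine Eventually.of_forall fun t => ?_
    refine Set.infinite_of_injOn_mapsTo (f := fun w : Fin (m + 1) → ℤ => Fin.snoc (α := fun _ => ℤ) w 0)
      (fun w _ w' _ h => funext fun i => by simpa using congrFun h (Fin.castSucc i)) (fun w hw => ?_) hf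
    rw [mem_setOf_eq, Fin.prod_univ_castSucc]
    simp only [Fin.snoc_castSucc, Fin.snoc_last, Int.cast_zero, abs_zero, zero_mul, add_zero]
    rw [max_eq_right (by norm_num : (0:ℝ) ≤ 2), mul_comm]
    exact hw

end Pool.Agent.H53.Dm
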