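import Mathlib

/-! Fekete points: Lagrange bound, interpolation near a finite reference set, window lemma. -/

namespace Pool.Agent.H53.Fk

open Polynomial Finset

def Simple (f : ℂ[X]) : Prop := f ≠ 0 ∧ ∀ z, f.eval z = 0 → f.derivative.eval z ≠ 0

noncomputable def Z (f : ℂ[X]) : Finset ℂ := f.roots.toFinset

theorem mem_Z {f : ℂ[X]} (hf : f ≠ 0) {a : ℂ} : a ∈ Z f ↔ f.eval a = 0 := by
  simp [Z, hf]

theorem Simple.nodup {f : ℂ[X]} (h : Simple f) : f.roots.Nodup := by
  rw [Multiset.nodup_iff_count_le_one]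
  intro a
  rw [count_roots]
  by_contra hc
  have := (one_lt_rootMultiplicity_iff_isRoot h.1).1 (not_le.1 hc)
  exact h.2 a this.1 this.2

theorem Simple.card {f : ℂ[X]} (h : Simple f) : (Z f).card = f.natDegree := by
  rw [Z, Multiset.toFinset_card_of_nodup h.nodup, IsAlgClosed.card_roots_eq_natDegree]

theorem Simple.factor {f : ℂ[X]} (h : Simple f) :
    f = C f.leadingCoeff * Lagrange.nodal (Z f) id := by
  conv_lhs => rw [← C_leadingCoeff_mul_prod_multiset_X_sub_C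
    (IsAlgClosed.card_roots_eq_natDegree (p := f))]
  congr 1
  rw [Lagrange.nodal, Z, Finset.prod_eq_multiset_prod, Multiset.toFinset_val,
    Multiset.dedup_eq_self.2 h.nodup]
  rfl

theorem Simple.eval_eq {f : ℂ[X]} (h : Simple f) (x : ℂ) :
    f.eval x = f.leadingCoeff * ∏ a ∈ Z f, (x - a) := by
  conv_lhs => rw [h.factor]
  simp [Lagrange.eval_nodal]

theorem Simple.deriv_eq' {f : ℂ[X]} (h : Simple f) (x : ℂ) :
    f.derivative.eval x = f.leadingCoeff * (derivative (Lagrange.nodal (Z f) id)).eval x := by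
  conv_lhs => rw [h.factor]
  simp

theorem Simple.deriv_eq {f : ℂ[X]} (h : Simple f) {a : ℂ} (ha : a ∈ Z f) :
    f.derivative.eval a = f.leadingCoeff * ∏ b ∈ (Z f).erase a, (a - b) := by
  rw [h.deriv_eq']
  have := Lagrange.eval_nodal_derivative_eval_node_eq (v := (id : ℂ → ℂ)) ha
  simp only [id] at this
  rw [this, Lagrange.eval_nodal]
  rfl

/-- `a` is the home of `y` with respect to the zero set of `T`. -/
def Home (T : ℂ[X]) (y a : ℂ) : Prop :=
  a ∈ Z T ∧ ∀ b ∈ Z T, b ≠ a →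
    4 * (T.natDegree : ℝ) ^ 2 ≤ ‖T.derivative.eval b‖ * ‖y - b‖

theorem home_interp {T : ℂ[X]} (hT : Simple T) {y a : ℂ} (hy : ‖T.eval y‖ ≤ 1)
    (H : Home T y a) {p : ℂ[X]} (hp : p.degree < T.natDegree) {M : ℝ}
    (hM : ∀ b ∈ Z T, ‖p.eval b‖ ≤ M) :
    ‖p.eval y - p.eval a‖ ≤ M / (2 * T.natDegree) := by
  have hD : 0 < T.natDegree := by rw [← hT.card]; exact card_pos.2 ⟨a, H.1⟩
  have hD' : (0 : ℝ) < T.natDegree := by exact_mod_cast hD
  have hM0 : 0 ≤ M := (norm_nonneg _).trans (hM a H.1)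
  by_cases hyZ : y ∈ Z T
  · have : y = a := by
      by_contra hne
      have := H.2 y hyZ hne
      simp only [sub_self, norm_zero, mul_zero] at this
      nlinarith
    rw [this]; simp; positivity
  have hdeg : (p - C (p.eval a)).degree < (Z T).card := by
    rw [hT.card]
    refine lt_of_le_of_lt (degree_sub_le _ _) (max_lt hp (lt_of_le_of_lt degree_C_le ?_))
    exact_mod_cast hD
  have h1 := Lagrange.eq_interpolate (s := Z T) (v := (id : ℂ → ℂ)) (Set.injOn_id _) hdeg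
  have h2 := congrArg (eval y) h1
  rw [Lagrange.eval_interpolate_not_at_node _ (fun i hi h => hyZ (by rw [h]; exact hi))] at h2
  simp only [eval_sub, eval_C, id] at h2
  rw [h2, mul_sum]
  have hl : T.leadingCoeff ≠ 0 := leadingCoeff_ne_zero.2 hT.1
  have hb : ∀ i ∈ Z T, ‖eval y (Lagrange.nodal (Z T) id) *
      (Lagrange.nodalWeight (Z T) id i * (y - i)⁻¹ * (p.eval i - p.eval a))‖ ≤
      M / (2 * (T.natDegree : ℝ) ^ 2) := by
    intro i hi
    by_cases hia : i = a
    · rw [hia]; simp; positivity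
    have e1 : eval y (Lagrange.nodal (Z T) id) = T.eval y / T.leadingCoeff := by
      rw [hT.eval_eq, Lagrange.eval_nodal]; field_simp; rfl
    have e2 : Lagrange.nodalWeight (Z T) id i = T.leadingCoeff / T.derivative.eval i := by
      rw [Lagrange.nodalWeight_eq_eval_derivative_nodal hi, hT.deriv_eq']
      simp only [id]
      field_simp
    have h3 := H.2 i hi hia
    have h4 : 0 < ‖T.derivative.eval i‖ * ‖y - i‖ := lt_of_lt_of_le (by positivity) h3
    have e3 : eval y (Lagrange.nodal (Z T) id) *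
        (Lagrange.nodalWeight (Z T) id i * (y - i)⁻¹ * (p.eval i - p.eval a)) =
        T.eval y * (p.eval i - p.eval a) / (T.derivative.eval i * (y - i)) := by
      rw [e1, e2]; field_simp
    rw [e3, norm_div, norm_mul, norm_mul, div_le_div_iff₀ h4 (by positivity)]
    have h5 : ‖p.eval i - p.eval a‖ ≤ 2 * M := by
      linarith [norm_sub_le (p.eval i) (p.eval a), hM i hi, hM a H.1]
    have h6 : ‖T.eval y‖ * ‖p.eval i - p.eval a‖ ≤ 1 * (2 * M) := by gcongr
    calc _ ≤ (1 * (2 * M)) * (2 * (T.natDegree : ℝ) ^ 2) := by gcongr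
      _ = M * (4 * (T.natDegree : ℝ) ^ 2) := by ring
      _ ≤ _ := by gcongr
  refine (norm_sum_le _ _).trans ((sum_le_sum hb).trans (le_of_eq ?_))
  rw [sum_const, hT.card, nsmul_eq_mul]
  field_simp

def Fek (K : Set ℂ) {m : ℕ} (v : Fin (m + 1) → ℂ) : Prop :=
  (∀ j, v j ∈ K) ∧ ∀ y : Fin (m + 1) → ℂ, (∀ j, y j ∈ K) →
    ‖(Matrix.vandermonde y).det‖ ≤ ‖(Matrix.vandermonde v).det‖

theorem fek_basis {K : Set ℂ} {m : ℕ} {v : Fin (m + 1) → ℂ} (h : Fek K v)
    (hK : ∃ y : Fin (m + 1) → ℂ, Function.Injective y ∧ ∀ j, y j ∈ K) :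
    Function.Injective v ∧ ∀ j, ∀ z ∈ K, ‖(Lagrange.basis univ v j).eval z‖ ≤ 1 := by
  obtain ⟨y, hy1, hy2⟩ := hK
  have h0 : 0 < ‖(Matrix.vandermonde v).det‖ :=
    lt_of_lt_of_le (norm_pos_iff.2 (Matrix.det_vandermonde_ne_zero_iff.2 hy1)) (h.2 y hy2)
  have hv : Function.Injective v := Matrix.det_vandermonde_ne_zero_iff.1 (norm_pos_iff.1 h0)
  refine ⟨hv, fun j z hz => ?_⟩
  have h1 := h.2 (Function.update v j z) (fun i => by
    by_cases hi : i = j
    · rw [hi]; simpa using hz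
    · rw [Function.update_of_ne hi]; exact h.1 i)
  have e : Matrix.vandermonde (Function.update v j z) = (Matrix.vandermonde v).updateRow j
      (∑ k, ((Lagrange.basis univ v k).eval z) • Matrix.vandermonde v k) := by
    ext i l
    by_cases hi : i = j
    · subst hi
      have hd : (X ^ (l : ℕ) : ℂ[X]).degree < (univ : Finset (Fin (m + 1))).card := by
        rw [degree_X_pow, card_univ, Fintype.card_fin]; exact_mod_cast l.2
      have h2 := congrArg (eval z) (Lagrange.eq_interpolate (hv.injOn) hd)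
      simp only [Lagrange.interpolate_apply, eval_finsetSum, eval_mul, eval_C, eval_pow,
        eval_X] at h2
      simp only [Matrix.vandermonde_apply, Function.update_self, Matrix.updateRow_self,
        Finset.sum_apply, Pi.smul_apply, smul_eq_mul]
      rw [h2]
      exact sum_congr rfl fun k _ => mul_comm _ _
    · simp [Matrix.updateRow_ne hi, Function.update_of_ne hi]
  rw [e, Matrix.det_updateRow_sum, smul_eq_mul, norm_mul] at h1
  nlinarith

theorem fek_bound {K : Set ℂ} {m : ℕ} {v : Fin (m + 1) → ℂ} (hv : Function.Injective v)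
    (h : ∀ j, ∀ z ∈ K, ‖(Lagrange.basis univ v j).eval z‖ ≤ 1) {p : ℂ[X]}
    (hp : p.degree < (m + 1 : ℕ)) {z : ℂ} (hz : z ∈ K) :
    ‖p.eval z‖ ≤ ∑ j, ‖p.eval (v j)‖ := by
  have hd : p.degree < (univ : Finset (Fin (m + 1))).card := by
    rwa [card_univ, Fintype.card_fin]
  have h2 := congrArg (eval z) (Lagrange.eq_interpolate (hv.injOn) hd)
  simp only [Lagrange.interpolate_apply, eval_finsetSum, eval_mul, eval_C] at h2
  rw [h2]
  refine (norm_sum_le _ _).trans (sum_le_sum fun j _ => ?_)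
  rw [norm_mul]
  exact mul_le_of_le_one_right (norm_nonneg _) (h j z hz)

theorem window {T : ℂ[X]} (hT : Simple T) {K : Set ℂ} (hK1 : ∀ z ∈ K, ‖T.eval z‖ ≤ 1)
    (hK2 : ∀ a ∈ Z T, a ∈ K) (hhome : ∀ y, ‖T.eval y‖ ≤ 1 → ∃ a, Home T y a)
    {A E : Finset ℂ} (hE : E ⊆ Z T) (hAE : ∀ a ∈ Z T, a ∉ E → a ∈ A) {W : ℕ}
    (hb : ∀ G ⊆ E, E.card ≤ G.card + W → ∀ e ∈ E, e ∉ G → ∀ x ∈ A,
      2 * (A.card : ℝ) * ‖∏ a ∈ G, (x - a)‖ < ‖∏ a ∈ G, (e - a)‖)
    {m : ℕ} (hm1 : m + 1 ≤ E.card) (hm2 : E.card ≤ m + W) {v : Fin (m + 1) → ℂ}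
    (hv : Fek K v) : ∀ j, ∃ a ∈ E, Home T (v j) a := by
  have hmD : m + 1 ≤ T.natDegree := by rw [← hT.card]; exact hm1.trans (card_le_card hE)
  have hmD' : (m : ℝ) + 1 ≤ T.natDegree := by exact_mod_cast hmD
  obtain ⟨hinj, hbas⟩ := fek_basis hv (by
    obtain ⟨S, hS1, hS2⟩ := exists_subset_card_eq hm1
    refine ⟨fun j => (S.equivFinOfCardEq hS2).symm j, ?_, fun j => hK2 _ (hE (hS1
      ((S.equivFinOfCardEq hS2).symm j).2))⟩
    exact Subtype.val_injective.comp (Equiv.injective _))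
  choose h hh using fun j => hhome (v j) (hK1 _ (hv.1 j))
  have hinjh : Function.Injective h := by
    intro i j hij
    by_contra hne
    have hdeg : (Lagrange.basis univ v i).degree < T.natDegree := by
      rw [Lagrange.degree_basis hinj.injOn (mem_univ i), card_univ, Fintype.card_fin]
      exact_mod_cast hmD
    have h1 := home_interp hT (hK1 _ (hv.1 i)) (hh i) hdeg (fun b hb => hbas i b (hK2 b hb))
    have h2 := home_interp hT (hK1 _ (hv.1 j)) (hh j) hdeg (fun b hb => hbas i b (hK2 b hb))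
    rw [Lagrange.eval_basis_self hinj.injOn (mem_univ i), hij] at h1
    rw [Lagrange.eval_basis_of_ne hne (mem_univ j)] at h2
    have hm : 1 ≤ m := by
      by_contra hm
      have : m = 0 := by omega
      subst this
      exact hne (Subsingleton.elim (α := Fin 1) i j)
    have hm' : (1 : ℝ) ≤ m := by exact_mod_cast hm
    have h3 : (1 : ℝ) / (2 * T.natDegree) ≤ 1 / 4 := by
      apply one_div_le_one_div_of_le <;> linarith
    have h4 := norm_sub_le_norm_sub_add_norm_sub (1 : ℂ) ((Lagrange.basis univ v i).eval (h j)) 0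
    rw [zero_sub, norm_neg] at h2
    simp only [sub_zero, norm_one] at h4
    linarith
  intro j0
  by_contra hcon
  have hj0 : h j0 ∉ E := fun H => hcon ⟨h j0, H, hh j0⟩
  have hcov : ((univ.image h).filter (· ∈ E)).card ≤ m := by
    have : (univ.image h).filter (· ∈ E) ⊆ (univ.erase j0).image h := by
      intro a ha
      obtain ⟨ha1, ha2⟩ := mem_filter.1 ha
      obtain ⟨j, _, rfl⟩ := mem_image.1 ha1
      exact mem_image.2 ⟨j, mem_erase.2 ⟨fun H => hj0 (H ▸ ha2), mem_univ j⟩, rfl⟩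
    refine (card_le_card this).trans (card_image_le.trans ?_)
    simp
  obtain ⟨G, hG1, hG2, hG3⟩ := exists_subsuperset_card_eq
    (s := (univ.image h).filter (· ∈ E)) (t := E) (n := m)
    (fun a ha => (mem_filter.1 ha).2) hcov (by omega)
  obtain ⟨e, he1, he2⟩ : ∃ e ∈ E, e ∉ G := by
    by_contra hc
    push Not at hc
    have := card_le_card (show E ⊆ G from hc)
    omega
  set p : ℂ[X] := Lagrange.nodal G id with hp
  have hpe : ∀ x, p.eval x = ∏ a ∈ G, (x - a) := fun x => Lagrange.eval_nodal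
  have hpd : p.degree = m := by rw [hp, Lagrange.degree_nodal, hG3]
  obtain ⟨a', ha', hmax⟩ := exists_max_image (Z T) (fun a => ‖p.eval a‖) ⟨e, hE he1⟩
  set M := ‖p.eval a'‖
  have hM0 : 0 ≤ M := norm_nonneg _
  have h1 : M ≤ ∑ j, ‖p.eval (v j)‖ :=
    fek_bound hinj hbas (by rw [hpd]; exact_mod_cast Nat.lt_succ_self m) (hK2 a' ha')
  have h2 : ∀ j, ‖p.eval (v j)‖ ≤ ‖p.eval (h j)‖ + M / (2 * T.natDegree) := by
    intro j
    have := home_interp hT (hK1 _ (hv.1 j)) (hh j) (p := p)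
      (by rw [hpd]; exact_mod_cast hmD) hmax
    linarith [norm_le_norm_add_norm_sub' (p.eval (v j)) (p.eval (h j))]
  have h3 : ∑ j, ‖p.eval (h j)‖ ≤ ∑ x ∈ A, ‖p.eval x‖ := by
    rw [← sum_image (s := univ) (g := h) (f := fun a => ‖p.eval a‖) hinjh.injOn,
      ← sum_filter_add_sum_filter_not _ (· ∈ E)]
    have e1 : ∑ a ∈ (univ.image h).filter (· ∈ E), ‖p.eval a‖ = 0 := by
      refine sum_eq_zero fun a ha => ?_
      rw [hpe, prod_eq_zero (hG1 ha) (sub_self a), norm_zero]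
    rw [e1, zero_add]
    refine sum_le_sum_of_subset_of_nonneg ?_ (fun _ _ _ => norm_nonneg _)
    intro a ha
    obtain ⟨ha1, ha2⟩ := mem_filter.1 ha
    obtain ⟨j, _, rfl⟩ := mem_image.1 ha1
    exact hAE _ (hh j).1 ha2
  have h4 : ∑ j, ‖p.eval (v j)‖ ≤ ∑ j, ‖p.eval (h j)‖ + M / 2 := by
    refine (sum_le_sum fun j _ => h2 j).trans ?_
    rw [sum_add_distrib, sum_const, card_univ, Fintype.card_fin, nsmul_eq_mul]
    have : ((m + 1 : ℕ) : ℝ) * (M / (2 * T.natDegree)) ≤ M / 2 := by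
      have hD : (0 : ℝ) < T.natDegree := by linarith [Nat.cast_nonneg (α := ℝ) m]
      rw [← mul_div_assoc, div_le_div_iff₀ (by linarith) (by norm_num)]
      push_cast
      nlinarith
    linarith
  have hAne : A.Nonempty := ⟨h j0, hAE _ (hh j0).1 hj0⟩
  have h5 : ∑ x ∈ A, 2 * (A.card : ℝ) * ‖p.eval x‖ < ∑ x ∈ A, ‖p.eval e‖ := by
    refine sum_lt_sum_of_nonempty hAne fun x hx => ?_
    rw [hpe, hpe]
    exact hb G hG2 (by omega) e he1 he2 x hx
  rw [← mul_sum, sum_const, nsmul_eq_mul] at h5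
  have hA0 : (0 : ℝ) < A.card := by exact_mod_cast hAne.card_pos
  have h6 : ‖p.eval e‖ ≤ M := hmax e (hE he1)
  have h7 : 2 * ∑ x ∈ A, ‖p.eval x‖ < ‖p.eval e‖ := by
    by_contra hc
    have := mul_le_mul_of_nonneg_left (not_lt.1 hc) hA0.le
    linarith
  linarith

/-- nearest root estimates for a monic polynomial with simple roots in the unit disc -/
theorem nearest {S : Finset ℂ} (hS : S.Nonempty) (h1 : ∀ a ∈ S, ‖a‖ ≤ 1) {κ : ℝ} (hκ : 0 < κ)
    (h2 : ∀ a ∈ S, κ ≤ ‖∏ b ∈ S.erase a, (a - b)‖) (w : ℂ) :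
    ∃ a ∈ S, ‖w - a‖ * κ ≤ 2 ^ S.card * ‖∏ b ∈ S, (w - b)‖ ∧
      (∀ b ∈ S, b ≠ a → κ ≤ 2 ^ S.card * ‖w - b‖) ∧
      (‖w - a‖ * S.card * 2 ^ S.card < κ →
        (derivative (Lagrange.nodal S id)).eval w ≠ 0) := by
  obtain ⟨a, ha, hmin⟩ := exists_min_image S (fun a => ‖w - a‖) hS
  have hhalf : ∀ b ∈ S, ‖a - b‖ ≤ 2 * ‖w - b‖ := by
    intro b hb
    have := hmin b hb
    have h3 := norm_sub_le_norm_sub_add_norm_sub a w b
    rw [norm_sub_rev a w] at h3
    linarith
  have hc : (S.erase a).card ≤ S.card := card_erase_le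
  have e1 : κ ≤ 2 ^ S.card * ‖∏ b ∈ S.erase a, (w - b)‖ := by
    refine (h2 a ha).trans ?_
    rw [norm_prod, norm_prod]
    calc _ ≤ ∏ b ∈ S.erase a, (2 * ‖w - b‖) :=
          prod_le_prod (fun _ _ => norm_nonneg _) (fun b hb => hhalf b (mem_of_mem_erase hb))
      _ = 2 ^ (S.erase a).card * ∏ b ∈ S.erase a, ‖w - b‖ := by
          rw [prod_mul_distrib, prod_const]
      _ ≤ _ := by gcongr; norm_num
  have e2 : ∀ b ∈ S, b ≠ a → κ ≤ 2 ^ S.card * ‖w - b‖ := by
    intro b hb hba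
    refine (h2 a ha).trans ?_
    have hb' : b ∈ S.erase a := mem_erase.2 ⟨hba, hb⟩
    rw [← mul_prod_erase _ _ hb', norm_mul, norm_prod]
    have h3 : ∏ c ∈ (S.erase a).erase b, ‖a - c‖ ≤ 2 ^ ((S.erase a).erase b).card := by
      rw [← prod_const]
      refine prod_le_prod (fun _ _ => norm_nonneg _) fun c hc => ?_
      have := h1 c (mem_of_mem_erase (mem_of_mem_erase hc))
      linarith [norm_sub_le a c, h1 a ha]
    have h4 : ((S.erase a).erase b).card + 1 ≤ S.card := by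
      rw [card_erase_add_one hb']; exact hc
    calc _ ≤ (2 * ‖w - b‖) * 2 ^ ((S.erase a).erase b).card := by
          gcongr; exact hhalf b hb
      _ = 2 ^ (((S.erase a).erase b).card + 1) * ‖w - b‖ := by ring
      _ ≤ _ := by gcongr; norm_num
  refine ⟨a, ha, ?_, e2, fun hsm => ?_⟩
  · rw [← mul_prod_erase _ _ ha, norm_mul]
    calc _ ≤ ‖w - a‖ * (2 ^ S.card * ‖∏ b ∈ S.erase a, (w - b)‖) := by gcongr
      _ = _ := by ring
  · set P0 := ∏ b ∈ S.erase a, (w - b) with hP0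
    have hP : 0 < ‖P0‖ := by
      by_contra hc'
      have : ‖P0‖ = 0 := le_antisymm (not_lt.1 hc') (norm_nonneg _)
      rw [this] at e1; linarith
    rw [Lagrange.derivative_nodal, eval_finsetSum, ← add_sum_erase _ _ ha]
    simp only [Lagrange.eval_nodal, id]
    rw [← hP0]
    intro h0
    have h3 : ∀ b ∈ S.erase a, ‖∏ c ∈ S.erase b, (w - c)‖ * κ ≤
        ‖P0‖ * (‖w - a‖ * 2 ^ S.card) := by
      intro b hb
      have hb' := mem_erase.1 hb
      have ha' : a ∈ S.erase b := mem_erase.2 ⟨hb'.1.symm, ha⟩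
      rw [← mul_prod_erase _ _ ha', hP0, ← mul_prod_erase _ _ hb, erase_right_comm, norm_mul,
        norm_mul]
      have := e2 b hb'.2 hb'.1
      calc _ ≤ ‖w - a‖ * ‖∏ c ∈ (S.erase a).erase b, (w - c)‖ * (2 ^ S.card * ‖w - b‖) := by
            gcongr
        _ = _ := by ring
    have h4 : ‖P0‖ * κ ≤ S.card * (‖P0‖ * (‖w - a‖ * 2 ^ S.card)) := by
      have e3 : P0 = -∑ b ∈ S.erase a, ∏ c ∈ S.erase b, (w - c) := by linear_combination h0
      calc ‖P0‖ * κ ≤ (∑ b ∈ S.erase a, ‖∏ c ∈ S.erase b, (w - c)‖) * κ := by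
            gcongr
            conv_lhs => rw [e3, norm_neg]
            exact norm_sum_le _ _
        _ ≤ ∑ b ∈ S.erase a, ‖P0‖ * (‖w - a‖ * 2 ^ S.card) := by
            rw [sum_mul]; exact sum_le_sum h3
        _ ≤ _ := by
            rw [sum_const, nsmul_eq_mul]
            gcongr
    nlinarith

end Pool.Agent.H53.Fk
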