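import Mathlib
import Pool.Agent.H53.FkA

/-! Bernstein-Walsh inequality on lemniscates and soft constants. -/

namespace Pool.Agent.H53.Fk

open Polynomial Metric Set Filter Topology

theorem bw_aux {U p : ℂ[X]} (hU : 1 ≤ U.natDegree) {n : ℕ} (hp : p.natDegree ≤ n) {M : ℝ}
    (hM : 0 < M) (h : ∀ z, ‖U.eval z‖ ≤ 1 → ‖p.eval z‖ ≤ M) {z0 : ℂ} (hz : 1 < ‖U.eval z0‖)
    (N : ℕ) : (‖p.eval z0‖ ^ U.natDegree) ^ N ≤
      (M ^ U.natDegree * ‖U.eval z0‖ ^ n) ^ N * ‖U.eval z0‖ := by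
  set D := U.natDegree with hD
  have hU0 : U ≠ 0 := by rintro rfl; simp at hD; omega
  have hdeg : (p ^ (D * N)).degree < (U ^ (n * N + 1)).degree := by
    apply degree_lt_degree
    rw [natDegree_pow, natDegree_pow, ← hD]
    have : D * N * p.natDegree ≤ D * N * n := Nat.mul_le_mul_left _ hp
    nlinarith
  have hlo := (isLittleO_cobounded_of_degree_lt hdeg).bound (pow_pos hM (D * N))
  obtain ⟨R0, -, hR0⟩ := (hasBasis_cobounded_compl_closedBall (0 : ℂ)).eventually_iff.1 hlo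
  set R := max R0 ‖z0‖ + 1 with hR
  let f : ℂ → ℂ := fun z => (p ^ (D * N)).eval z / (U ^ (n * N + 1)).eval z
  let Ω : Set ℂ := {z | 1 < ‖U.eval z‖} ∩ ball 0 R
  have hcont : Continuous fun z => ‖U.eval z‖ := U.continuous.norm
  have hΩo : IsOpen Ω := (isOpen_lt continuous_const hcont).inter isOpen_ball
  have hcl : closure Ω ⊆ {z | 1 ≤ ‖U.eval z‖} :=
    closure_minimal (fun z hz => show (1 : ℝ) ≤ ‖U.eval z‖ from le_of_lt hz.1) (isClosed_le continuous_const hcont)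
  have hne : ∀ z, 1 ≤ ‖U.eval z‖ → (U ^ (n * N + 1)).eval z ≠ 0 := by
    intro z hz
    rw [eval_pow]
    exact pow_ne_zero _ (norm_pos_iff.1 (by linarith))
  have hd : DiffContOnCl ℂ f Ω := by
    apply DifferentiableOn.diffContOnCl
    exact (Polynomial.differentiableOn _).div (Polynomial.differentiableOn _)
      (fun z hz => hne z (hcl hz))
  have hfr : ∀ z ∈ frontier Ω, ‖f z‖ ≤ M ^ (D * N) := by
    intro z hz
    have h1 : 1 ≤ ‖U.eval z‖ := hcl (frontier_subset_closure hz)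
    have h2 : z ∉ Ω := by
      rw [hΩo.frontier_eq] at hz; exact hz.2
    have hpos : 0 < ‖(U ^ (n * N + 1)).eval z‖ := norm_pos_iff.2 (hne z h1)
    simp only [f]
    rw [norm_div, div_le_iff₀ hpos]
    by_cases h3 : ‖U.eval z‖ ≤ 1
    · have h4 : 1 ≤ ‖(U ^ (n * N + 1)).eval z‖ := by
        rw [eval_pow, norm_pow]; exact one_le_pow₀ h1
      have h5 : ‖(p ^ (D * N)).eval z‖ ≤ M ^ (D * N) := by
        rw [eval_pow, norm_pow]; gcongr; exact h z h3
      have : 0 ≤ M ^ (D * N) := by positivity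
      nlinarith
    · have h4 : R ≤ ‖z‖ := by
        by_contra h4
        exact h2 ⟨not_le.1 h3, mem_ball_zero_iff.2 (not_le.1 h4)⟩
      apply hR0
      simp only [mem_compl_iff, mem_closedBall_zero_iff, not_le]
      linarith [le_max_left R0 ‖z0‖]
  have hz0 : z0 ∈ Ω := ⟨hz, mem_ball_zero_iff.2 (by linarith [le_max_right R0 ‖z0‖])⟩
  have key := Complex.norm_le_of_forall_mem_frontier_norm_le
    (isBounded_ball.subset inter_subset_right) hd hfr (subset_closure hz0)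
  simp only [f] at key
  rw [norm_div, div_le_iff₀ (norm_pos_iff.2 (hne z0 hz.le)), eval_pow, eval_pow, norm_pow,
    norm_pow] at key
  rw [← pow_mul, mul_pow, ← pow_mul, ← pow_mul, mul_assoc, ← pow_succ]
  exact key

theorem bw {U p : ℂ[X]} (hU : 1 ≤ U.natDegree) {n : ℕ} (hp : p.natDegree ≤ n) {M : ℝ}
    (hM : 0 < M) (h : ∀ z, ‖U.eval z‖ ≤ 1 → ‖p.eval z‖ ≤ M) (z0 : ℂ) :
    ‖p.eval z0‖ ^ U.natDegree ≤ M ^ U.natDegree * max 1 ‖U.eval z0‖ ^ n := by
  by_cases hz : ‖U.eval z0‖ ≤ 1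
  · rw [max_eq_left hz, one_pow, mul_one]
    gcongr; exact h z0 hz
  push Not at hz
  rw [max_eq_right hz.le]
  set a := ‖p.eval z0‖ ^ U.natDegree
  set b := M ^ U.natDegree * ‖U.eval z0‖ ^ n
  have hb : 0 < b := by positivity
  by_contra hc
  push Not at hc
  have h1 : 1 < a / b := (one_lt_div hb).2 hc
  obtain ⟨N, hN⟩ := pow_unbounded_of_one_lt ‖U.eval z0‖ h1
  have := bw_aux hU hp hM h hz N
  rw [div_pow, lt_div_iff₀ (pow_pos hb N)] at hN
  linarith

structure Inv (U : ℂ[X]) : Prop where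
  deg : 1 ≤ U.natDegree
  der : ∀ z, ‖U.eval z‖ ≤ 1 → U.derivative.eval z ≠ 0
  bdd : ∀ z, ‖U.eval z‖ ≤ 1 → ‖z‖ ≤ 1

theorem lip (U : ℂ[X]) : ∃ C : ℝ, 1 ≤ C ∧ ∀ z z' : ℂ, ‖z‖ ≤ 1 → ‖z'‖ ≤ 1 →
    ‖U.eval z - U.eval z'‖ ≤ C * ‖z - z'‖ := by
  obtain ⟨C, hC⟩ := (isCompact_closedBall (0 : ℂ) 1).exists_bound_of_continuousOn
    (U.derivative.continuous.continuousOn)
  refine ⟨max C 1, le_max_right _ _, fun z z' hz hz' => ?_⟩
  exact (convex_closedBall (0 : ℂ) 1).norm_image_sub_le_of_norm_hasDerivWithin_le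
    (f := fun z => U.eval z) (f' := fun z => U.derivative.eval z)
    (fun x _ => (U.hasDerivAt x).hasDerivWithinAt)
    (fun x hx => (hC x hx).trans (le_max_left _ _))
    (mem_closedBall_zero_iff.2 hz') (mem_closedBall_zero_iff.2 hz)

theorem soft {U : ℂ[X]} (h : Inv U) : ∃ c L ρ : ℝ, 0 < c ∧ c ≤ 1 ∧ 1 ≤ L ∧ 0 < ρ ∧
    (∀ z, ‖U.eval z‖ ≤ 1 → c ≤ ‖U.derivative.eval z‖) ∧
    (∀ z z' : ℂ, ‖z‖ ≤ 1 → ‖z'‖ ≤ 1 → ‖U.eval z - U.eval z'‖ ≤ L * ‖z - z'‖) ∧
    (∀ z z', ‖U.eval z‖ ≤ 1 → U.eval z' = U.eval z → z' ≠ z → c ≤ ‖z - z'‖) ∧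
    (∀ y ζ, ‖U.eval y - ζ‖ ≤ ρ → ∃ a, U.eval a = ζ ∧ ‖y - a‖ ≤ c / 2) := by
  obtain ⟨L, hC1, hC⟩ := lip U
  obtain ⟨C2, hC21, hC2⟩ := lip U.derivative
  have hL : IsCompact {z : ℂ | ‖U.eval z‖ ≤ 1} :=
    (isCompact_closedBall (0 : ℂ) 1).of_isClosed_subset
      (isClosed_le U.continuous.norm continuous_const)
      (fun z hz => mem_closedBall_zero_iff.2 (h.bdd z hz))
  obtain ⟨c0, hc0, hc0'⟩ : ∃ c0 : ℝ, 0 < c0 ∧ ∀ z, ‖U.eval z‖ ≤ 1 → c0 ≤ ‖U.derivative.eval z‖ := by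
    rcases ({z : ℂ | ‖U.eval z‖ ≤ 1}).eq_empty_or_nonempty with he | he
    · exact ⟨1, one_pos, fun z hz => absurd (show z ∈ {z : ℂ | ‖U.eval z‖ ≤ 1} from hz)
        (by rw [he]; simp)⟩
    · obtain ⟨z0, hz0, hmin⟩ := hL.exists_isMinOn he
        (U.derivative.continuous.norm.continuousOn)
      exact ⟨_, norm_pos_iff.2 (h.der z0 hz0), fun z hz => hmin hz⟩
  set c := min 1 (c0 / (2 * C2)) with hc
  have hcpos : 0 < c := lt_min one_pos (by positivity)
  have hc1 : c ≤ c0 / (2 * C2) := min_le_right _ _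
  have hc2 : c * C2 ≤ c0 / 2 := by
    rw [le_div_iff₀ (by positivity)] at hc1; linarith
  have hU0 : U ≠ 0 := by
    intro h0; have := h.deg; rw [h0] at this; simp at this
  have hl : 0 < ‖U.leadingCoeff‖ := norm_pos_iff.2 (leadingCoeff_ne_zero.2 hU0)
  refine ⟨c, L, ‖U.leadingCoeff‖ * (c / 2) ^ U.natDegree / 2, hcpos, min_le_left _ _, hC1,
    by positivity, fun z hz => ?_, hC, ?_, ?_⟩
  · have := hc0' z hz
    nlinarith
  · intro z z' hz hzz hne
    by_contra hlt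
    push Not at hlt
    have hz1 := h.bdd z hz
    have hz2 := h.bdd z' (by rw [hzz]; exact hz)
    have key := ((convex_closedBall (0 : ℂ) 1).inter
      (convex_closedBall z c)).norm_image_sub_le_of_norm_hasDerivWithin_le
      (f := fun x => U.eval x - U.derivative.eval z * x)
      (f' := fun x => U.derivative.eval x - U.derivative.eval z) (C := c0 / 2)
      (x := z) (y := z')
      (fun x _ => by
        exact (((U.hasDerivAt x).sub
          ((hasDerivAt_id x).const_mul (U.derivative.eval z))).congr_deriv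
            (by simp)).hasDerivWithinAt)
      (fun x hx => by
        have h1 := hC2 x z (mem_closedBall_zero_iff.1 hx.1) hz1
        have h2 : ‖x - z‖ ≤ c := mem_closedBall_iff_norm.1 hx.2
        have : C2 * ‖x - z‖ ≤ C2 * c := by gcongr
        linarith)
      ⟨mem_closedBall_zero_iff.2 hz1, mem_closedBall_self hcpos.le⟩
      ⟨mem_closedBall_zero_iff.2 hz2, mem_closedBall_iff_norm'.2 hlt.le⟩
    have e : U.eval z' - U.derivative.eval z * z' - (U.eval z - U.derivative.eval z * z) =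
        -(U.derivative.eval z * (z' - z)) := by rw [hzz]; ring
    rw [e, norm_neg, norm_mul] at key
    have h3 : 0 < ‖z' - z‖ := norm_pos_iff.2 (sub_ne_zero.2 hne)
    have := hc0' z hz
    nlinarith
  · intro y ζ hy
    by_contra hcon
    push Not at hcon
    have hdeg : (U - C ζ).natDegree = U.natDegree := natDegree_sub_C
    have hlc : (U - C ζ).leadingCoeff = U.leadingCoeff := by
      apply leadingCoeff_sub_of_degree_lt
      exact lt_of_le_of_lt degree_C_le (natDegree_pos_iff_degree_pos.1 h.deg)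
    have hne : U - C ζ ≠ 0 := by
      rw [← leadingCoeff_ne_zero, hlc]; exact norm_pos_iff.1 hl
    have h1 := (IsAlgClosed.splits (U - C ζ)).eval_eq_prod_roots y
    rw [hlc, eval_sub, eval_C] at h1
    have h2 : (c / 2) ^ U.natDegree ≤ ‖((U - C ζ).roots.map (y - ·)).prod‖ := by
      rw [← hdeg, ← IsAlgClosed.card_roots_eq_natDegree]
      have h3 : ∀ a ∈ (U - C ζ).roots, c / 2 ≤ ‖y - a‖ := by
        intro a ha
        have := (mem_roots hne).1 ha
        simp only [IsRoot, eval_sub, eval_C, sub_eq_zero] at this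
        exact (hcon a this).le
      generalize (U - C ζ).roots = s at h3
      induction s using Multiset.induction_on with
      | empty => simp
      | cons a s ih =>
        rw [Multiset.map_cons, Multiset.prod_cons, Multiset.card_cons, norm_mul, pow_succ']
        have h4 := h3 a (Multiset.mem_cons_self a s)
        have h5 := ih (fun b hb => h3 b (Multiset.mem_cons_of_mem hb))
        gcongr
    rw [h1, norm_mul] at hy
    have h6 : ‖U.leadingCoeff‖ * (c / 2) ^ U.natDegree ≤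
        ‖U.leadingCoeff‖ * ‖((U - C ζ).roots.map (y - ·)).prod‖ := by gcongr
    have : 0 < ‖U.leadingCoeff‖ * (c / 2) ^ U.natDegree := by positivity
    linarith

end Pool.Agent.H53.Fk
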