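import Mathlib
import Pool.Agent.H53.FkB

/-! The ring polynomials `w * R(w^s)`. -/

namespace Pool.Agent.H53.Fk

open Polynomial Finset

noncomputable def bb (k i : ℕ) : ℂ := ((1 / 2 - i / (4 * k ^ 2) : ℝ) : ℂ)
noncomputable def Rs (k s : ℕ) : ℂ[X] := (Lagrange.nodal (range k) (bb k)).comp (X ^ s)
noncomputable def q0 (k s : ℕ) : ℂ[X] := X * Rs k s
noncomputable def kap (k : ℕ) : ℝ := (1 / (4 * k ^ 2)) ^ k

variable {k s : ℕ}

theorem beta_le (hk : 1 ≤ k) : (1 / (4 * (k : ℝ) ^ 2)) ≤ 1 / 4 := by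
  have : (1 : ℝ) ≤ k := by exact_mod_cast hk
  apply one_div_le_one_div_of_le <;> nlinarith

theorem kap_pos (hk : 1 ≤ k) : 0 < kap k := by unfold kap; positivity

theorem kap_le (hk : 1 ≤ k) : kap k ≤ 1 :=
  pow_le_one₀ (by positivity) (by linarith [beta_le hk])

theorem bb_half {i : ℕ} (hi : i < k) : ‖bb k i - 1 / 2‖ ≤ 1 / (4 * k) := by
  have h1 : (i : ℝ) ≤ k := by exact_mod_cast hi.le
  have hk : (0 : ℝ) < k := by exact_mod_cast (by omega : 0 < k)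
  have e : bb k i - 1 / 2 = ((-(i / (4 * k ^ 2)) : ℝ) : ℂ) := by unfold bb; push_cast; ring
  rw [e, Complex.norm_real, norm_neg, Real.norm_eq_abs, abs_of_nonneg (by positivity),
    div_le_div_iff₀ (by positivity) (by positivity)]
  nlinarith

theorem bb_norm {i : ℕ} (hi : i < k) : 1 / 4 ≤ ‖bb k i‖ ∧ ‖bb k i‖ ≤ 1 / 2 := by
  have h1 : (i : ℝ) ≤ k := by exact_mod_cast hi.le
  have hk : (1 : ℝ) ≤ k := by exact_mod_cast (by omega : 1 ≤ k)
  have h2 : (i : ℝ) / (4 * k ^ 2) ≤ 1 / 4 := by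
    rw [div_le_div_iff₀ (by positivity) (by positivity)]; nlinarith
  have h3 : 0 ≤ (i : ℝ) / (4 * k ^ 2) := by positivity
  unfold bb
  rw [Complex.norm_real, Real.norm_eq_abs, abs_of_nonneg (by linarith)]
  constructor <;> linarith

theorem bb_sep (hk : 1 ≤ k) {i j : ℕ} (hij : j ≠ i) :
    1 / (4 * (k : ℝ) ^ 2) ≤ ‖bb k i - bb k j‖ := by
  have e : bb k i - bb k j = ((((j : ℝ) - i) / (4 * k ^ 2) : ℝ) : ℂ) := by
    unfold bb; push_cast; ring
  have hd1 : (1 : ℝ) ≤ |(j : ℝ) - i| := by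
    have : (1 : ℤ) ≤ |(j : ℤ) - i| := Int.one_le_abs (by omega)
    exact_mod_cast this
  rw [e, Complex.norm_real, Real.norm_eq_abs, abs_div,
    abs_of_pos (by positivity : (0 : ℝ) < 4 * k ^ 2)]
  gcongr

theorem Rs_eval (w : ℂ) : (Rs k s).eval w = ∏ i ∈ range k, (w ^ s - bb k i) := by
  simp [Rs, eval_comp, Lagrange.eval_nodal]

theorem Rs_monic (hs : 1 ≤ s) : (Rs k s).Monic :=
  Lagrange.nodal_monic.comp (monic_X_pow s) (by simp; omega)

theorem Rs_deg : (Rs k s).natDegree = k * s := by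
  simp [Rs, natDegree_comp]

theorem q0_monic (hs : 1 ≤ s) : (q0 k s).Monic := monic_X.mul (Rs_monic hs)

theorem q0_deg (hs : 1 ≤ s) : (q0 k s).natDegree = k * s + 1 := by
  rw [q0, monic_X.natDegree_mul (Rs_monic hs), Rs_deg, natDegree_X, add_comm]

theorem Rs_root (hs : 1 ≤ s) {w : ℂ} (hw : (Rs k s).eval w = 0) :
    (∃ i < k, w ^ s = bb k i) ∧ 1 / 4 ≤ ‖w‖ ∧ ‖w‖ ≤ 1 ∧
      s * kap k ≤ ‖w * (Rs k s).derivative.eval w‖ := by
  rw [Rs_eval, prod_eq_zero_iff] at hw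
  obtain ⟨i, hi, hw⟩ := hw
  rw [mem_range] at hi
  rw [sub_eq_zero] at hw
  have hk : 1 ≤ k := by omega
  have hb := bb_norm hi
  have h1 : ‖w‖ ≤ 1 := by
    by_contra h
    have : 1 ≤ ‖w‖ ^ s := one_le_pow₀ (not_le.1 h).le
    rw [← norm_pow, hw] at this
    linarith [hb.2]
  have h2 : 1 / 4 ≤ ‖w‖ := by
    have : ‖w‖ ^ s ≤ ‖w‖ := pow_le_of_le_one (norm_nonneg _) h1 (by omega)
    rw [← norm_pow, hw] at this
    linarith [hb.1]
  refine ⟨⟨i, hi, hw⟩, h2, h1, ?_⟩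
  have e : w * (Rs k s).derivative.eval w =
      s * bb k i * ∏ j ∈ (range k).erase i, (bb k i - bb k j) := by
    rw [Rs, derivative_comp, eval_mul, eval_comp, eval_pow, eval_X, hw,
      Lagrange.eval_nodal_derivative_eval_node_eq (mem_range.2 hi), Lagrange.eval_nodal,
      derivative_X_pow, ← hw]
    obtain ⟨t, rfl⟩ : ∃ t, s = t + 1 := ⟨s - 1, by omega⟩
    simp; ring
  rw [e, norm_mul, norm_mul, Complex.norm_natCast, mul_assoc, norm_prod]
  gcongr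
  have h3 : (1 / (4 * (k : ℝ) ^ 2)) ^ ((range k).erase i).card ≤
      ∏ j ∈ (range k).erase i, ‖bb k i - bb k j‖ := by
    rw [← prod_const]
    exact prod_le_prod (fun _ _ => by positivity) fun j hj => bb_sep hk (mem_erase.1 hj).1
  have h4 : ((range k).erase i).card + 1 = k := by
    rw [card_erase_add_one (mem_range.2 hi), card_range]
  unfold kap
  conv_lhs => rw [← h4, pow_succ']
  rw [h4]
  gcongr
  linarith [beta_le hk, hb.1]

theorem Rs_zero (hk : 1 ≤ k) (hs : 1 ≤ s) :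
    kap k ≤ ‖(Rs k s).eval 0‖ ∧ ‖(Rs k s).eval 0‖ ≤ 1 := by
  rw [Rs_eval, zero_pow (by omega), norm_prod]
  constructor
  · unfold kap
    conv_lhs => rw [← card_range k, ← prod_const]
    refine prod_le_prod (fun _ _ => by positivity) fun j hj => ?_
    rw [card_range, zero_sub, norm_neg]
    linarith [beta_le hk, (bb_norm (mem_range.1 hj)).1]
  · refine prod_le_one (fun _ _ => norm_nonneg _) fun j hj => ?_
    rw [zero_sub, norm_neg]
    linarith [(bb_norm (mem_range.1 hj)).2]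

theorem q0_root (hk : 1 ≤ k) (hs : 1 ≤ s) {w : ℂ} (hw : (q0 k s).eval w = 0) :
    ‖w‖ ≤ 1 ∧ kap k ≤ ‖(q0 k s).derivative.eval w‖ := by
  have e : (q0 k s).derivative.eval w = (Rs k s).eval w + w * (Rs k s).derivative.eval w := by
    simp [q0]
  rw [q0, eval_mul, eval_X, mul_eq_zero] at hw
  rw [e]
  rcases hw with rfl | hw
  · simpa using (Rs_zero hk hs).1
  · obtain ⟨-, -, h1, h2⟩ := Rs_root hs hw
    refine ⟨h1, ?_⟩
    rw [hw, zero_add]
    have : (1 : ℝ) ≤ s := by exact_mod_cast hs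
    nlinarith [kap_pos hk]

theorem q0_simple (hk : 1 ≤ k) (hs : 1 ≤ s) : Simple (q0 k s) :=
  ⟨(q0_monic hs).ne_zero, fun _ hz =>
    norm_pos_iff.1 (lt_of_lt_of_le (kap_pos hk) (q0_root hk hs hz).2)⟩

theorem q0_upper (w : ℂ) : ‖(q0 k s).eval w‖ ≤ 2 ^ k * max 1 ‖w‖ ^ (k * s + 1) := by
  have h1 : (1 : ℝ) ≤ max 1 ‖w‖ := le_max_left _ _
  rw [q0, eval_mul, eval_X, norm_mul, Rs_eval, norm_prod]
  have h2 : ∏ i ∈ range k, ‖w ^ s - bb k i‖ ≤ (2 * max 1 ‖w‖ ^ s) ^ k := by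
    conv_rhs => rw [← card_range k, ← prod_const]
    refine prod_le_prod (fun _ _ => norm_nonneg _) fun j hj => ?_
    have h3 : ‖w ^ s‖ ≤ max 1 ‖w‖ ^ s := by
      rw [norm_pow]; gcongr; exact le_max_right _ _
    have h4 : (1 : ℝ) ≤ max 1 ‖w‖ ^ s := one_le_pow₀ h1
    linarith [norm_sub_le (w ^ s) (bb k j), (bb_norm (mem_range.1 hj)).2]
  calc _ ≤ max 1 ‖w‖ * (2 * max 1 ‖w‖ ^ s) ^ k := by gcongr; exact le_max_right _ _
    _ = _ := by ring

theorem q0_lower {w : ℂ} (hw : 1 ≤ ‖w‖) :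
    ‖w‖ ^ (k * s + 1) ≤ 2 ^ k * ‖(q0 k s).eval w‖ := by
  rw [q0, eval_mul, eval_X, norm_mul, Rs_eval, norm_prod]
  have h2 : (‖w‖ ^ s) ^ k ≤ ∏ i ∈ range k, (2 * ‖w ^ s - bb k i‖) := by
    conv_lhs => rw [← card_range k, ← prod_const]
    refine prod_le_prod (fun _ _ => by positivity) fun j hj => ?_
    have h4 : (1 : ℝ) ≤ ‖w‖ ^ s := one_le_pow₀ hw
    have h5 := norm_sub_norm_le (w ^ s) (bb k j)
    rw [norm_pow] at h5
    linarith [(bb_norm (mem_range.1 hj)).2]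
  rw [prod_mul_distrib, prod_const, card_range] at h2
  calc _ = ‖w‖ * (‖w‖ ^ s) ^ k := by ring
    _ ≤ ‖w‖ * (2 ^ k * ∏ i ∈ range k, ‖w ^ s - bb k i‖) := by gcongr
    _ = _ := by ring

noncomputable def qq (k s : ℕ) : ℂ[X] := C (16 ^ (k * s + 1)) * q0 k s

theorem qq_norm (w : ℂ) : ‖(qq k s).eval w‖ = 16 ^ (k * s + 1) * ‖(q0 k s).eval w‖ := by
  simp [qq]

theorem qq_deg (hs : 1 ≤ s) : (qq k s).natDegree = k * s + 1 := by
  rw [qq, natDegree_C_mul (pow_ne_zero _ (by norm_num)), q0_deg hs]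

theorem qq_green (hs : 1 ≤ s) (w : ℂ) :
    max 1 ‖w‖ ^ (k * s + 1) ≤ max 1 ‖(qq k s).eval w‖ ∧
    max 1 ‖(qq k s).eval w‖ ≤ 32 ^ (k * s + 1) * max 1 ‖w‖ ^ (k * s + 1) := by
  have hkd : k ≤ k * s + 1 := by nlinarith
  have h2 : (2 : ℝ) ^ k ≤ 2 ^ (k * s + 1) := pow_le_pow_right₀ (by norm_num) hkd
  constructor
  · by_cases hw : ‖w‖ ≤ 1
    · rw [max_eq_left hw, one_pow]; exact le_max_left _ _
    · push Not at hw
      rw [max_eq_right hw.le]
      refine le_trans ?_ (le_max_right _ _)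
      rw [qq_norm]
      refine (q0_lower hw.le).trans ?_
      gcongr
      exact h2.trans (by gcongr; norm_num)
  · have h1 : (1 : ℝ) ≤ max 1 ‖w‖ ^ (k * s + 1) := one_le_pow₀ (le_max_left _ _)
    refine max_le (one_le_mul_of_one_le_of_one_le (one_le_pow₀ (by norm_num)) h1) ?_
    rw [qq_norm]
    calc _ ≤ 16 ^ (k * s + 1) * (2 ^ (k * s + 1) * max 1 ‖w‖ ^ (k * s + 1)) := by
          gcongr
          exact (q0_upper w).trans (by gcongr)
      _ = _ := by rw [← mul_assoc, ← mul_pow]; norm_num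

theorem qq_bdd (hs : 1 ≤ s) {w : ℂ} (hw : ‖(qq k s).eval w‖ ≤ 1) : ‖w‖ ≤ 1 := by
  have := (qq_green (k := k) hs w).1
  rw [max_eq_left hw] at this
  by_contra h
  push Not at h
  rw [max_eq_right h.le] at this
  exact absurd this (not_le.2 (one_lt_pow₀ h (by omega)))

theorem qq_near (hk : 1 ≤ k) (hs : 1 ≤ s) (hd : 1 < (k * s + 1 : ℕ) * kap k ^ 2) {w : ℂ}
    (hw : ‖(qq k s).eval w‖ ≤ 1) :
    (qq k s).derivative.eval w ≠ 0 ∧ ∃ a, (q0 k s).eval a = 0 ∧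
      ‖w - a‖ * kap k * (k * s + 1 : ℕ) ≤ 1 ∧
      ∀ b, (q0 k s).eval b = 0 → b ≠ a → kap k ≤ 2 ^ (k * s + 1) * ‖w - b‖ := by
  have hS := q0_simple hk hs
  have hκ := kap_pos hk
  have hcard : (Z (q0 k s)).card = k * s + 1 := by rw [hS.card, q0_deg hs]
  have hlc : (q0 k s).leadingCoeff = 1 := q0_monic hs
  obtain ⟨a, ha, h1, h2, h3⟩ := nearest (S := Z (q0 k s)) (card_pos.1 (by omega))
    (fun a ha => (q0_root hk hs ((mem_Z hS.1).1 ha)).1) hκ (fun a ha => by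
      have := (q0_root hk hs ((mem_Z hS.1).1 ha)).2
      rwa [hS.deriv_eq ha, hlc, one_mul] at this) w
  rw [hcard] at h1 h2 h3
  set d := k * s + 1 with hdd
  have e1 : ∏ b ∈ Z (q0 k s), (w - b) = (q0 k s).eval w := by rw [hS.eval_eq, hlc, one_mul]
  rw [e1] at h1
  rw [qq_norm] at hw
  have hd2 : (d : ℝ) ≤ 2 ^ d := by exact_mod_cast Nat.lt_two_pow_self.le
  have hd0 : (0 : ℝ) < d := by positivity
  have h4 : ‖w - a‖ * kap k * (2 ^ d * 2 ^ d * 2 ^ d) ≤ 1 := by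
    calc _ ≤ 2 ^ d * ‖(q0 k s).eval w‖ * (2 ^ d * 2 ^ d * 2 ^ d) := by gcongr
      _ = (2 * 2 * 2 * 2) ^ d * ‖(q0 k s).eval w‖ := by simp only [mul_pow]; ring
      _ ≤ 1 := by norm_num; exact hw
  have h2d : (1 : ℝ) ≤ 2 ^ d := one_le_pow₀ (by norm_num)
  refine ⟨?_, a, (mem_Z hS.1).1 ha, ?_, fun b hb hba => h2 b ((mem_Z hS.1).2 hb) hba⟩
  · have h5 : ‖w - a‖ * d * 2 ^ d < kap k := by
      by_contra hc
      push Not at hc
      have h6 : ‖w - a‖ * kap k * (d * d * 2 ^ d) ≤ ‖w - a‖ * kap k * (2 ^ d * 2 ^ d * 2 ^ d) := by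
        gcongr
      have h7 : kap k * (kap k * d) ≤ (‖w - a‖ * d * 2 ^ d) * (kap k * d) := by gcongr
      nlinarith
    have h6 := h3 h5
    rw [qq, derivative_C_mul, eval_mul, eval_C, hS.deriv_eq', hlc, one_mul]
    exact mul_ne_zero (pow_ne_zero _ (by norm_num)) h6
  · refine le_trans ?_ h4
    gcongr
    nlinarith

end Pool.Agent.H53.Fk
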