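import Mathlib
import Pool.Agent.H53.FkC

/-! One step of the construction. -/

namespace Pool.Agent.H53.Fk

open Polynomial Finset

def Gad (k : ℕ) (T : ℂ[X]) : Prop :=
  ∀ K : Set ℂ, (∀ z ∈ K, ‖T.eval z‖ ≤ 1) → (∀ a, T.eval a = 0 → a ∈ K) →
    ∃ n0 : ℕ, 1 ≤ n0 ∧ ∀ m : ℕ, m + 1 ≤ k * n0 → k * n0 ≤ m + k →
      ∀ v : Fin (m + 1) → ℂ, Fek K v → ∃ P : ℂ[X], P.natDegree ≤ n0 ∧
        (∀ j, ‖P.eval (v j)‖ ≤ 1) ∧ ∃ z ∈ K, (k : ℝ) ≤ ‖P.eval z‖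

theorem Inv.ne_zero {U : ℂ[X]} (h : Inv U) : U ≠ 0 := by
  intro h0; have := h.deg; rw [h0] at this; simp at this

theorem Inv.simple {U : ℂ[X]} (h : Inv U) : Simple U :=
  ⟨h.ne_zero, fun z hz => h.der z (by rw [hz]; simp)⟩

theorem comp_deriv (q U : ℂ[X]) (z : ℂ) : (q.comp U).derivative.eval z =
    q.derivative.eval (U.eval z) * U.derivative.eval z := by
  rw [derivative_comp, eval_mul, eval_comp, mul_comm]

variable {k s : ℕ} {U : ℂ[X]} {c L ρ : ℝ}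

theorem inv_step (hU : Inv U) (hk : 1 ≤ k) (hs : 1 ≤ s)
    (hd : 1 < (k * s + 1 : ℕ) * kap k ^ 2) : Inv ((qq k s).comp U) := by
  refine ⟨?_, fun z hz => ?_, fun z hz => ?_⟩
  · rw [natDegree_comp, qq_deg hs]
    exact Nat.mul_pos (Nat.succ_pos _) hU.deg
  · rw [eval_comp] at hz
    rw [comp_deriv]
    exact mul_ne_zero (qq_near hk hs hd hz).1 (hU.der z (qq_bdd hs hz))
  · rw [eval_comp] at hz
    exact hU.bdd z (qq_bdd hs hz)

theorem qq_root {w : ℂ} : (qq k s).eval w = 0 ↔ (q0 k s).eval w = 0 := by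
  rw [← norm_eq_zero, qq_norm, mul_eq_zero, norm_eq_zero]
  simp

theorem home_step (hU : Inv U) (hk : 1 ≤ k) (hs : 1 ≤ s)
    (hd : 1 < (k * s + 1 : ℕ) * kap k ^ 2) (hc0 : 0 < c) (hc1 : c ≤ 1) (hL : 1 ≤ L)
    (h1 : ∀ z, ‖U.eval z‖ ≤ 1 → c ≤ ‖U.derivative.eval z‖)
    (h2 : ∀ z z' : ℂ, ‖z‖ ≤ 1 → ‖z'‖ ≤ 1 → ‖U.eval z - U.eval z'‖ ≤ L * ‖z - z'‖)
    (h3 : ∀ z z', ‖U.eval z‖ ≤ 1 → U.eval z' = U.eval z → z' ≠ z → c ≤ ‖z - z'‖)
    (h4 : ∀ y ζ, ‖U.eval y - ζ‖ ≤ ρ → ∃ a, U.eval a = ζ ∧ ‖y - a‖ ≤ c / 2)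
    (hd2 : 1 ≤ (k * s + 1 : ℕ) * (kap k * ρ))
    (hd3 : 8 * (U.natDegree : ℝ) ^ 2 * L ≤ (k * s + 1 : ℕ) * (kap k ^ 2 * c ^ 2))
    (y : ℂ) (hy : ‖((qq k s).comp U).eval y‖ ≤ 1) : ∃ a, Home ((qq k s).comp U) y a := by
  have hT := (inv_step hU hk hs hd).ne_zero
  have hκ := kap_pos hk
  have hκ1 := kap_le hk
  rw [eval_comp] at hy
  obtain ⟨-, ζ, hζ, hz1, hz2⟩ := qq_near hk hs hd hy
  set d := k * s + 1 with hdd
  have hd0 : (0 : ℝ) < d := by positivity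
  obtain ⟨a, ha1, ha2⟩ := h4 y ζ (by
    have : ‖U.eval y - ζ‖ * (kap k * d) ≤ ρ * (kap k * d) := by nlinarith
    exact le_of_mul_le_mul_right this (by positivity))
  refine ⟨a, (mem_Z hT).2 (by rw [eval_comp, ha1, qq_root, hζ]), fun b hb hba => ?_⟩
  have hb' := (mem_Z hT).1 hb
  rw [eval_comp, qq_root] at hb'
  obtain ⟨hb1, hb2⟩ := q0_root hk hs hb'
  have h2d : (1 : ℝ) ≤ 2 ^ d := one_le_pow₀ (by norm_num)
  have e1 : 16 ^ d * kap k * c ≤ ‖((qq k s).comp U).derivative.eval b‖ := by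
    rw [comp_deriv, qq, derivative_C_mul, eval_mul, eval_C, norm_mul, norm_mul, norm_pow]
    simp only [Complex.norm_ofNat]
    gcongr
    exact h1 b hb1
  have e2 : c * kap k ≤ 2 * L * 2 ^ d * ‖y - b‖ := by
    by_cases hc : U.eval b = ζ
    · have h5 := h3 a b (by rw [ha1, ← hc]; exact hb1) (by rw [hc, ha1]) hba
      have h6 : c / 2 ≤ ‖y - b‖ := by
        have := norm_sub_le_norm_sub_add_norm_sub a y b
        rw [norm_sub_rev a y] at this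
        linarith
      have h7 : (1 : ℝ) ≤ L * 2 ^ d := one_le_mul_of_one_le_of_one_le hL h2d
      calc c * kap k ≤ 2 * 1 * (c / 2) := by nlinarith
        _ ≤ 2 * (L * 2 ^ d) * ‖y - b‖ := by gcongr
        _ = _ := by ring
    · have h5 := hz2 _ hb' hc
      have h6 := h2 y b (hU.bdd y (qq_bdd hs hy)) (hU.bdd b hb1)
      have h7 : 2 ^ d * ‖U.eval y - U.eval b‖ ≤ 2 ^ d * (L * ‖y - b‖) := by gcongr
      have h8 : 0 ≤ L * 2 ^ d * ‖y - b‖ := by positivity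
      nlinarith
  have hd2' : (d : ℝ) ≤ 2 ^ d := by exact_mod_cast Nat.lt_two_pow_self.le
  rw [natDegree_comp, qq_deg hs, ← hdd]
  push_cast
  have e3 : (16 : ℝ) ^ d = 2 ^ d * (2 ^ d * 2 ^ d * 2 ^ d) := by
    simp only [← mul_pow]; norm_num
  have e4 : (d : ℝ) * d * d ≤ 2 ^ d * 2 ^ d * 2 ^ d := by gcongr
  have e5 : 4 * ((d : ℝ) * U.natDegree) ^ 2 * (2 * L * 2 ^ d) ≤
      (16 ^ d * kap k * c) * (c * kap k) := by
    calc _ = 2 ^ d * (d * d * (8 * (U.natDegree : ℝ) ^ 2 * L)) := by ring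
      _ ≤ 2 ^ d * (d * d * (d * (kap k ^ 2 * c ^ 2))) := by gcongr
      _ = 2 ^ d * (d * d * d) * (kap k ^ 2 * c ^ 2) := by ring
      _ ≤ 2 ^ d * (2 ^ d * 2 ^ d * 2 ^ d) * (kap k ^ 2 * c ^ 2) := by gcongr
      _ = _ := by rw [e3]; ring
  have e6 : (16 ^ d * kap k * c) * (c * kap k) ≤
      ‖((qq k s).comp U).derivative.eval b‖ * (2 * L * 2 ^ d * ‖y - b‖) := by gcongr
  have e7 : 4 * ((d : ℝ) * U.natDegree) ^ 2 * (2 * L * 2 ^ d) ≤
      ‖((qq k s).comp U).derivative.eval b‖ * ‖y - b‖ * (2 * L * 2 ^ d) := by linarith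
  exact le_of_mul_le_mul_right e7 (by positivity)

theorem ring_simple (hU : Inv U) (hk : 1 ≤ k) (hs : 1 ≤ s) (hc0 : 0 < c)
    (h1 : ∀ z, ‖U.eval z‖ ≤ 1 → c ≤ ‖U.derivative.eval z‖) :
    Simple ((Rs k s).comp U) ∧ ∀ e, ((Rs k s).comp U).eval e = 0 →
      s * kap k * c ≤ ‖((Rs k s).comp U).derivative.eval e‖ := by
  have hκ := kap_pos hk
  have key : ∀ e, ((Rs k s).comp U).eval e = 0 →
      s * kap k * c ≤ ‖((Rs k s).comp U).derivative.eval e‖ := by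
    intro e he
    rw [eval_comp] at he
    obtain ⟨-, -, h3, h4⟩ := Rs_root hs he
    rw [comp_deriv, norm_mul]
    rw [norm_mul] at h4
    have : s * kap k ≤ ‖(Rs k s).derivative.eval (U.eval e)‖ :=
      h4.trans (mul_le_of_le_one_left (norm_nonneg _) h3)
    gcongr
    exact h1 e h3
  refine ⟨⟨?_, fun e he => norm_pos_iff.1 (lt_of_lt_of_le (by positivity) (key e he))⟩, key⟩
  intro h0
  have := congrArg natDegree h0
  rw [natDegree_comp, Rs_deg, natDegree_zero] at this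
  have := hU.deg
  have : 0 < k * s * U.natDegree := by positivity
  omega

theorem ratio_step (hU : Inv U) (hk : 1 ≤ k) (hs : 1 ≤ s) (hc0 : 0 < c) (hL : 1 ≤ L)
    (h1 : ∀ z, ‖U.eval z‖ ≤ 1 → c ≤ ‖U.derivative.eval z‖)
    (h2 : ∀ z z' : ℂ, ‖z‖ ≤ 1 → ‖z'‖ ≤ 1 → ‖U.eval z - U.eval z'‖ ≤ L * ‖z - z'‖)
    (hs4 : 2 * (U.natDegree : ℝ) * (8 * L) ^ k < s * (kap k * c)) :
    ∀ G ⊆ Z ((Rs k s).comp U), (Z ((Rs k s).comp U)).card ≤ G.card + k →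
      ∀ e ∈ Z ((Rs k s).comp U), e ∉ G → ∀ x ∈ Z U,
        2 * ((Z U).card : ℝ) * ‖∏ a ∈ G, (x - a)‖ < ‖∏ a ∈ G, (e - a)‖ := by
  intro G hG hcard e he heG x hx
  obtain ⟨hS, hder⟩ := ring_simple hU hk hs hc0 h1
  set E := Z ((Rs k s).comp U) with hE
  set γ := ((Rs k s).comp U).leadingCoeff
  have hγ : 0 < ‖γ‖ := norm_pos_iff.2 (leadingCoeff_ne_zero.2 hS.1)
  have hx0 : U.eval x = 0 := (mem_Z hU.ne_zero).1 hx
  have hx1 : ‖x‖ ≤ 1 := hU.bdd x (by rw [hx0]; simp)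
  have hEp : ∀ a ∈ E, 1 / 4 ≤ ‖U.eval a‖ ∧ ‖a‖ ≤ 1 := by
    intro a ha
    have := (mem_Z hS.1).1 ha
    rw [eval_comp] at this
    obtain ⟨-, h3, h4, -⟩ := Rs_root hs this
    exact ⟨h3, hU.bdd a h4⟩
  have hSc : (E \ G).card ≤ k := by rw [card_sdiff_of_subset hG]; omega
  have e1 : ‖γ‖ * ‖∏ a ∈ G, (x - a)‖ ≤ (4 * L) ^ k := by
    have h3 := hS.eval_eq x
    rw [eval_comp, hx0, ← hE, ← prod_sdiff hG] at h3
    have h4 := (Rs_zero hk hs).2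
    rw [h3, norm_mul, norm_mul] at h4
    have h5 : 1 ≤ (4 * L) ^ k * ‖∏ a ∈ E \ G, (x - a)‖ := by
      rw [norm_prod]
      calc (1 : ℝ) = ∏ a ∈ E \ G, 1 := by simp
        _ ≤ ∏ a ∈ E \ G, (4 * L * ‖x - a‖) := by
            refine prod_le_prod (fun _ _ => zero_le_one) fun a ha => ?_
            have h6 := hEp a (mem_sdiff.1 ha).1
            have h7 := h2 x a hx1 h6.2
            rw [hx0, zero_sub, norm_neg] at h7
            linarith [h6.1]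
        _ = (4 * L) ^ (E \ G).card * ∏ a ∈ E \ G, ‖x - a‖ := by
            rw [prod_mul_distrib, prod_const]
        _ ≤ _ := by gcongr; linarith
    calc _ = ‖γ‖ * ‖∏ a ∈ G, (x - a)‖ * 1 := by ring
      _ ≤ ‖γ‖ * ‖∏ a ∈ G, (x - a)‖ * ((4 * L) ^ k * ‖∏ a ∈ E \ G, (x - a)‖) := by gcongr
      _ = (4 * L) ^ k * (‖γ‖ * (‖∏ a ∈ E \ G, (x - a)‖ * ‖∏ a ∈ G, (x - a)‖)) := by ring
      _ ≤ (4 * L) ^ k * 1 := by gcongr
      _ = _ := by ring
  have e2 : s * kap k * c ≤ 2 ^ k * (‖γ‖ * ‖∏ a ∈ G, (e - a)‖) := by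
    have h3 := hder e ((mem_Z hS.1).1 he)
    have hG' : G ⊆ E.erase e := fun a ha => mem_erase.2 ⟨fun h => heG (h ▸ ha), hG ha⟩
    rw [hS.deriv_eq he, ← hE, ← prod_sdiff hG', norm_mul, norm_mul] at h3
    have h4 : ‖∏ a ∈ E.erase e \ G, (e - a)‖ ≤ 2 ^ k := by
      rw [norm_prod]
      calc _ ≤ ∏ a ∈ E.erase e \ G, (2 : ℝ) := by
            refine prod_le_prod (fun _ _ => norm_nonneg _) fun a ha => ?_
            have h6 := hEp a (mem_of_mem_erase (mem_sdiff.1 ha).1)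
            linarith [norm_sub_le e a, (hEp e he).2, h6.2]
        _ = 2 ^ (E.erase e \ G).card := prod_const _
        _ ≤ _ := by
            apply pow_le_pow_right₀ (by norm_num)
            exact (card_le_card (sdiff_subset_sdiff (erase_subset _ _) subset_rfl)).trans hSc
    calc _ ≤ ‖γ‖ * (2 ^ k * ‖∏ a ∈ G, (e - a)‖) := h3.trans (by gcongr)
      _ = _ := by ring
  rw [hU.simple.card]
  have e3 : (8 * L) ^ k = 2 ^ k * (4 * L) ^ k := by rw [← mul_pow]; ring_nf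
  have e4 : (2 * (U.natDegree : ℝ) * ‖∏ a ∈ G, (x - a)‖) * (2 ^ k * ‖γ‖) <
      ‖∏ a ∈ G, (e - a)‖ * (2 ^ k * ‖γ‖) := by
    calc _ = 2 * (U.natDegree : ℝ) * (2 ^ k * (‖γ‖ * ‖∏ a ∈ G, (x - a)‖)) := by ring
      _ ≤ 2 * (U.natDegree : ℝ) * (2 ^ k * (4 * L) ^ k) := by gcongr
      _ < s * (kap k * c) := by rw [← e3]; exact hs4
      _ ≤ _ := by linarith
  exact lt_of_mul_lt_mul_right e4 (by positivity)

theorem step (hU : Inv U) (hk : 1 ≤ k) : ∃ q : ℂ[X], 2 ≤ q.natDegree ∧ q.eval 0 = 0 ∧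
    (∀ w, max 1 ‖w‖ ^ q.natDegree ≤ max 1 ‖q.eval w‖ ∧
      max 1 ‖q.eval w‖ ≤ 32 ^ q.natDegree * max 1 ‖w‖ ^ q.natDegree) ∧
    (∀ w, ‖q.eval w‖ ≤ 1 → ‖w‖ ≤ 1) ∧ Inv (q.comp U) ∧ Gad k (q.comp U) := by
  obtain ⟨c, L, ρ, hc0, hc1, hL, hρ, h1, h2, h3, h4⟩ := soft hU
  have hκ := kap_pos hk
  obtain ⟨s, hs⟩ := exists_nat_gt (1 + 1 / kap k ^ 2 + 1 / (kap k * ρ) +
    8 * (U.natDegree : ℝ) ^ 2 * L / (kap k ^ 2 * c ^ 2) +
    2 * (U.natDegree : ℝ) * (8 * L) ^ k / (kap k * c))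
  have p1 : 0 < 1 / kap k ^ 2 := by positivity
  have p2 : 0 < 1 / (kap k * ρ) := by positivity
  have p3 : 0 ≤ 8 * (U.natDegree : ℝ) ^ 2 * L / (kap k ^ 2 * c ^ 2) := by positivity
  have p4 : 0 ≤ 2 * (U.natDegree : ℝ) * (8 * L) ^ k / (kap k * c) := by positivity
  have hs1 : 1 ≤ s := by exact_mod_cast (by linarith : (1 : ℝ) ≤ s)
  have hsd : (s : ℝ) ≤ (k * s + 1 : ℕ) := by exact_mod_cast (by nlinarith : s ≤ k * s + 1)
  have hd : 1 < (k * s + 1 : ℕ) * kap k ^ 2 := by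
    rw [← div_lt_iff₀ (by positivity)]; linarith
  have hd2 : 1 ≤ (k * s + 1 : ℕ) * (kap k * ρ) := by
    rw [← div_le_iff₀ (by positivity)]; linarith
  have hd3 : 8 * (U.natDegree : ℝ) ^ 2 * L ≤ (k * s + 1 : ℕ) * (kap k ^ 2 * c ^ 2) := by
    rw [← div_le_iff₀ (by positivity)]; linarith
  have hs4 : 2 * (U.natDegree : ℝ) * (8 * L) ^ k < s * (kap k * c) := by
    rw [← div_lt_iff₀ (by positivity)]; linarith
  have hI := inv_step hU hk hs1 hd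
  refine ⟨qq k s, by rw [qq_deg hs1]; nlinarith, by simp [qq, q0], ?_,
    fun w hw => qq_bdd hs1 hw, hI, ?_⟩
  · rw [qq_deg hs1]; exact qq_green hs1
  intro K hK1 hK2
  have hD := hU.deg
  refine ⟨s * U.natDegree, by nlinarith, fun m hm1 hm2 v hv => ?_⟩
  obtain ⟨hS, -⟩ := ring_simple hU hk hs1 hc0 h1
  have hcE : (Z ((Rs k s).comp U)).card = k * (s * U.natDegree) := by
    rw [hS.card, natDegree_comp, Rs_deg, mul_assoc]
  have hTroot : ∀ a, a ∈ Z ((qq k s).comp U) ↔ U.eval a = 0 ∨ a ∈ Z ((Rs k s).comp U) := by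
    intro a
    rw [mem_Z hI.ne_zero, mem_Z hS.1, eval_comp, eval_comp, qq_root, q0, eval_mul, eval_X,
      mul_eq_zero]
  have hw := window hI.simple hK1 (fun a ha => hK2 a ((mem_Z hI.ne_zero).1 ha))
    (home_step hU hk hs1 hd hc0 hc1 hL h1 h2 h3 h4 hd2 hd3) (A := Z U)
    (E := Z ((Rs k s).comp U)) (fun a ha => (hTroot a).2 (Or.inr ha))
    (fun a ha hn => (mem_Z hU.ne_zero).2 (((hTroot a).1 ha).resolve_right hn))
    (ratio_step hU hk hs1 hc0 hL h1 h2 hs4) (by rw [hcE]; exact hm1) (by rw [hcE]; exact hm2) hv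
  set P0 : ℂ[X] := U ^ s - C (1 / 2) with hP0
  have hP0d : P0.natDegree = s * U.natDegree := by rw [hP0, natDegree_sub_C, natDegree_pow]
  have hk' : (1 : ℝ) ≤ k := by exact_mod_cast hk
  have hP0E : ∀ a ∈ Z ((Rs k s).comp U), ‖P0.eval a‖ ≤ 1 / (4 * k) := by
    intro a ha
    have := (mem_Z hS.1).1 ha
    rw [eval_comp] at this
    obtain ⟨⟨i, hi, hi2⟩, -⟩ := Rs_root hs1 this
    rw [hP0, eval_sub, eval_pow, eval_C, hi2]
    exact bb_half hi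
  have hP0A : ∀ a, U.eval a = 0 → ‖P0.eval a‖ = 1 / 2 := by
    intro a ha
    rw [hP0, eval_sub, eval_pow, eval_C, ha, zero_pow (by omega)]
    simp
  have h4k : 1 / (4 * (k : ℝ)) ≤ 1 / 2 := by
    apply one_div_le_one_div_of_le <;> linarith
  have hTd : ((qq k s).comp U).natDegree = (k * s + 1) * U.natDegree := by
    rw [natDegree_comp, qq_deg hs1]
  refine ⟨C (2 * (k : ℂ)) * P0, (natDegree_C_mul_le _ _).trans hP0d.le, fun j => ?_, ?_⟩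
  · obtain ⟨a, ha, hh⟩ := hw j
    have h5 := home_interp hI.simple (hK1 _ (hv.1 j)) hh (p := P0) (M := 1 / 2)
      (lt_of_le_of_lt degree_le_natDegree (by
        rw [hP0d, hTd]
        exact_mod_cast (by nlinarith : s * U.natDegree < (k * s + 1) * U.natDegree)))
      (fun b hb => by
        rcases (hTroot b).1 hb with h | h
        · exact (hP0A b h).le
        · exact (hP0E b h).trans h4k)
    have h6 : (1 / 2 : ℝ) / (2 * ((qq k s).comp U).natDegree) ≤ 1 / (4 * k) := by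
      have : (k : ℝ) ≤ ((qq k s).comp U).natDegree := by
        rw [hTd]
        exact_mod_cast (le_trans (Nat.le_succ_of_le (Nat.le_mul_of_pos_right k hs1))
          (Nat.le_mul_of_pos_right _ hD) : k ≤ (k * s + 1) * U.natDegree)
      rw [div_div]
      apply one_div_le_one_div_of_le <;> linarith
    have h7 : ‖P0.eval (v j)‖ ≤ 1 / (4 * k) + 1 / (4 * k) := by
      linarith [norm_le_norm_add_norm_sub' (P0.eval (v j)) (P0.eval a), hP0E a ha]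
    rw [eval_mul, eval_C, norm_mul, norm_mul, Complex.norm_ofNat, Complex.norm_natCast]
    calc _ ≤ 2 * (k : ℝ) * (1 / (4 * k) + 1 / (4 * k)) := by gcongr
      _ = 1 := by field_simp; norm_num
  · obtain ⟨x, hx⟩ := card_pos.1 (by rw [hU.simple.card]; omega : 0 < (Z U).card)
    have hx0 := (mem_Z hU.ne_zero).1 hx
    refine ⟨x, hK2 x ((mem_Z hI.ne_zero).1 ((hTroot x).2 (Or.inl hx0))), ?_⟩
    rw [eval_mul, eval_C, norm_mul, norm_mul, Complex.norm_ofNat, Complex.norm_natCast,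
      hP0A x hx0]
    linarith

end Pool.Agent.H53.Fk
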