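import Mathlib
import Pool.Agent.H53.FkD

/-! The compact set (a non-autonomous filled Julia set) and its extremal function. -/

namespace Pool.Agent.H53.Fk

open Polynomial Filter Topology Metric

theorem inv_X : Inv X := ⟨by simp, by simp, by simp⟩

theorem exists_seq : ∃ U q : ℕ → ℂ[X], (∀ k, U (k + 1) = (q k).comp (U k)) ∧ ∀ k, Inv (U k) ∧
    2 ≤ (q k).natDegree ∧ (q k).eval 0 = 0 ∧
    (∀ w, max 1 ‖w‖ ^ (q k).natDegree ≤ max 1 ‖(q k).eval w‖ ∧
      max 1 ‖(q k).eval w‖ ≤ 32 ^ (q k).natDegree * max 1 ‖w‖ ^ (q k).natDegree) ∧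
    (∀ w, ‖(q k).eval w‖ ≤ 1 → ‖w‖ ≤ 1) ∧ Gad (k + 1) (U (k + 1)) := by
  choose f hf using fun (p : {U : ℂ[X] // Inv U}) (k : ℕ) => step p.2 (Nat.succ_pos k)
  let S : ℕ → {U : ℂ[X] // Inv U} := fun k => Nat.rec ⟨X, inv_X⟩
    (fun k p => ⟨(f p k).comp p.1, (hf p k).2.2.2.2.1⟩) k
  refine ⟨fun k => (S k).1, fun k => f (S k) k, fun k => rfl, fun k => ?_⟩
  obtain ⟨h1, h2, h3, h4, h5, h6⟩ := hf (S k) k
  exact ⟨(S k).2, h1, h2, h3, h4, h6⟩

theorem main : ∃ (K : Set ℂ) (Φ : ℂ → ℝ), IsCompact K ∧ K.Nonempty ∧ Continuous Φ ∧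
    (∀ z, 1 ≤ Φ z) ∧
    (∀ (p : ℂ[X]) (n : ℕ), 1 ≤ n → p.natDegree ≤ n → (∀ x ∈ K, ‖p.eval x‖ ≤ 1) →
      ∀ z, ‖p.eval z‖ ^ ((1 : ℝ) / n) ≤ Φ z) ∧
    (∀ z u, 1 ≤ u → (∀ p : ℂ[X], 1 ≤ p.natDegree → (∀ x ∈ K, ‖p.eval x‖ ≤ 1) →
      ‖p.eval z‖ ^ ((1 : ℝ) / p.natDegree) ≤ u) → Φ z ≤ u) ∧
    ∀ k : ℕ, 1 ≤ k → ∃ n0 : ℕ, 1 ≤ n0 ∧ ∀ m : ℕ, m + 1 ≤ k * n0 → k * n0 ≤ m + k →
      ∀ v : Fin (m + 1) → ℂ, Fek K v → ∃ P : ℂ[X], P.natDegree ≤ n0 ∧
        (∀ j, ‖P.eval (v j)‖ ≤ 1) ∧ ∃ z ∈ K, (k : ℝ) ≤ ‖P.eval z‖ := by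
  obtain ⟨U, q, hU, hq⟩ := exists_seq
  have hev : ∀ k z, (U (k + 1)).eval z = (q k).eval ((U k).eval z) := by
    intro k z; rw [hU, eval_comp]
  have hdeg : ∀ k, (U (k + 1)).natDegree = (q k).natDegree * (U k).natDegree := by
    intro k; rw [hU, natDegree_comp]
  have hD : ∀ k, 2 ^ k ≤ (U k).natDegree := by
    intro k
    induction k with
    | zero => exact (hq 0).1.deg
    | succ k ih => rw [hdeg, pow_succ']; exact Nat.mul_le_mul (hq k).2.1 ih
  let K : Set ℂ := {z | ∀ k, ‖(U k).eval z‖ ≤ 1}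
  have hdown : ∀ k j z, ‖(U (j + k)).eval z‖ ≤ 1 → ‖(U j).eval z‖ ≤ 1 := by
    intro k j z
    induction k with
    | zero => exact id
    | succ k ih =>
      intro h
      rw [← add_assoc, hev] at h
      exact ih ((hq _).2.2.2.2.1 _ h)
  have hroot : ∀ k a, (U k).eval a = 0 → a ∈ K := by
    intro k a ha j
    rcases le_total j k with h | h
    · obtain ⟨i, rfl⟩ := Nat.exists_eq_add_of_le h
      exact hdown i j a (by rw [ha]; simp)
    · obtain ⟨i, rfl⟩ := Nat.exists_eq_add_of_le h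
      have : (U (k + i)).eval a = 0 := by
        induction i with
        | zero => exact ha
        | succ i ih => rw [← add_assoc, hev, ih (by omega), (hq _).2.2.1]
      rw [this]; simp
  have hLc : ∀ k, IsClosed {z : ℂ | ‖(U k).eval z‖ ≤ 1} := fun k =>
    isClosed_le (U k).continuous.norm continuous_const
  have hLk : ∀ k, IsCompact {z : ℂ | ‖(U k).eval z‖ ≤ 1} := fun k =>
    (isCompact_closedBall (0 : ℂ) 1).of_isClosed_subset (hLc k)
      (fun z hz => mem_closedBall_zero_iff.2 ((hq k).1.bdd z hz))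
  have hKc : IsCompact K := by
    refine (hLk 0).of_isClosed_subset ?_ (fun z hz => hz 0)
    have : K = ⋂ k, {z : ℂ | ‖(U k).eval z‖ ≤ 1} := by ext z; simp [K]
    rw [this]; exact isClosed_iInter hLc
  have hKne : K.Nonempty := by
    obtain ⟨x, hx⟩ := Finset.card_pos.1
      (by rw [(hq 0).1.simple.card]; exact (hq 0).1.deg : 0 < (Z (U 0)).card)
    exact ⟨x, hroot 0 x ((mem_Z (hq 0).1.ne_zero).1 hx)⟩
  let G : ℕ → ℂ → ℝ := fun k z => Real.log (max 1 ‖(U k).eval z‖) / (U k).natDegree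
  have hDpos : ∀ k, (0 : ℝ) < (U k).natDegree := fun k => by exact_mod_cast (hq k).1.deg
  have hGc : ∀ k, Continuous (G k) := fun k =>
    ((continuous_const.max (U k).continuous.norm).log
      (fun z => (lt_of_lt_of_le one_pos (le_max_left _ _)).ne')).div_const _
  have hG0 : ∀ k z, 0 ≤ G k z := fun k z =>
    div_nonneg (Real.log_nonneg (le_max_left _ _)) (hDpos k).le
  have hGd : ∀ k z, 0 ≤ G (k + 1) z - G k z ∧ G (k + 1) z - G k z ≤ 4 * (1 / 2) ^ k := by
    intro k z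
    obtain ⟨h1, h2⟩ := (hq k).2.2.2.1 ((U k).eval z)
    have hd : (0 : ℝ) < (q k).natDegree := by exact_mod_cast (by linarith [(hq k).2.1])
    have hm : (0 : ℝ) < max 1 ‖(U k).eval z‖ := lt_of_lt_of_le one_pos (le_max_left _ _)
    have l1 := Real.log_le_log (by positivity) h1
    have l2 := Real.log_le_log (lt_of_lt_of_le one_pos (le_max_left _ _)) h2
    rw [Real.log_pow] at l1
    rw [Real.log_mul (by positivity) (by positivity), Real.log_pow, Real.log_pow] at l2
    have e : G (k + 1) z - G k z = (Real.log (max 1 ‖(q k).eval ((U k).eval z)‖) -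
        (q k).natDegree * Real.log (max 1 ‖(U k).eval z‖)) /
        ((q k).natDegree * (U k).natDegree) := by
      simp only [G, hev, hdeg]
      push_cast
      have := hDpos k
      field_simp
    have h32 : Real.log 32 ≤ 4 := by
      rw [show (32 : ℝ) = 2 ^ 5 by norm_num, Real.log_pow]
      have := Real.log_two_lt_d9
      push_cast; linarith
    have h3 : (2 : ℝ) ^ k ≤ (U k).natDegree := by exact_mod_cast hD k
    rw [e]
    refine ⟨div_nonneg (by linarith) (mul_pos hd (hDpos k)).le, ?_⟩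
    rw [div_le_iff₀ (mul_pos hd (hDpos k))]
    have h4 : (1 : ℝ) ≤ (1 / 2) ^ k * (U k).natDegree := by
      calc (1 : ℝ) = (1 / 2) ^ k * 2 ^ k := by rw [← mul_pow]; norm_num
        _ ≤ _ := by gcongr
    have h5 : ((q k).natDegree : ℝ) * Real.log 32 ≤ (q k).natDegree * (4 * ((1 / 2) ^ k *
      (U k).natDegree)) := by gcongr; linarith
    linarith
  have hsum : Summable fun k : ℕ => 4 * (1 / 2 : ℝ) ^ k := summable_geometric_two.mul_left 4
  let H : ℂ → ℝ := fun z => G 0 z + ∑' k, (G (k + 1) z - G k z)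
  have hHc : Continuous H := (hGc 0).add (continuous_tsum (fun k => (hGc (k + 1)).sub (hGc k))
    hsum (fun k z => by
      rw [Real.norm_eq_abs, abs_of_nonneg (hGd k z).1]; exact (hGd k z).2))
  have hlim : ∀ z, Tendsto (fun k => G k z) atTop (𝓝 (H z)) := by
    intro z
    have hs : Summable fun k => G (k + 1) z - G k z :=
      Summable.of_nonneg_of_le (fun k => (hGd k z).1) (fun k => (hGd k z).2) hsum
    have := hs.hasSum.tendsto_sum_nat.const_add (G 0 z)
    refine this.congr fun k => ?_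
    rw [Finset.sum_range_sub (fun k => G k z)]; ring
  have hle : ∀ k z, G k z ≤ H z := fun k z =>
    (monotone_nat_of_le_succ (f := fun k => G k z)
      (fun k => by linarith [(hGd k z).1])).ge_of_tendsto (hlim z) k
  refine ⟨K, fun z => Real.exp (H z), hKc, hKne, hHc.rexp,
    fun z => Real.one_le_exp ((hG0 0 z).trans (hle 0 z)), ?_, ?_, ?_⟩
  · intro p n hn hp hpK z
    have hn' : (0 : ℝ) < n := by exact_mod_cast hn
    have key : ∀ δ : ℝ, 0 < δ → ‖p.eval z‖ ≤ (1 + δ) * Real.exp (n * H z) := by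
      intro δ hδ
      obtain ⟨k, hk⟩ : ∃ k, ∀ x, ‖(U k).eval x‖ ≤ 1 → ‖p.eval x‖ ≤ 1 + δ := by
        by_contra hc
        push Not at hc
        have hcl : IsClosed {x : ℂ | 1 + δ ≤ ‖p.eval x‖} :=
          isClosed_le continuous_const p.continuous.norm
        obtain ⟨x, hx⟩ := IsCompact.nonempty_iInter_of_sequence_nonempty_isCompact_isClosed
          (fun k => {z : ℂ | ‖(U k).eval z‖ ≤ 1} ∩ {x : ℂ | 1 + δ ≤ ‖p.eval x‖})
          (fun k x hx => ⟨hdown 1 k x hx.1, hx.2⟩)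
          (fun k => by obtain ⟨x, h1, h2⟩ := hc k; exact ⟨x, h1, h2.le⟩)
          ((hLk 0).inter_right hcl) (fun k => (hLc k).inter hcl)
        rw [Set.mem_iInter] at hx
        have h1 := hpK x (fun k => (hx k).1)
        have h2 : 1 + δ ≤ ‖p.eval x‖ := (hx 0).2
        linarith
      have h1 := bw (hq k).1.deg hp (by linarith : 0 < 1 + δ) hk z
      have hm : (0 : ℝ) < max 1 ‖(U k).eval z‖ := lt_of_lt_of_le one_pos (le_max_left _ _)
      have h2 : max 1 ‖(U k).eval z‖ ^ n = Real.exp (n * G k z) ^ (U k).natDegree := by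
        rw [← Real.exp_nat_mul, ← Real.exp_log (pow_pos hm n), Real.log_pow]
        congr 1
        simp only [G]
        have := hDpos k
        field_simp
      rw [h2, ← mul_pow] at h1
      have h3 := le_of_pow_le_pow_left₀ (by have := (hq k).1.deg; omega) (by positivity) h1
      refine h3.trans ?_
      gcongr
      exact hle k z
    have h1 : ‖p.eval z‖ ≤ Real.exp (n * H z) := by
      refine le_of_forall_pos_le_add fun ε hε => ?_
      have := key (ε / Real.exp (n * H z)) (by positivity)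
      rwa [add_mul, one_mul, div_mul_cancel₀ _ (Real.exp_pos _).ne'] at this
    calc _ ≤ (Real.exp (n * H z)) ^ ((1 : ℝ) / n) := by gcongr
      _ = _ := by rw [← Real.exp_mul]; congr 1; field_simp
  · intro z u hu h
    refine le_of_tendsto' ((Real.continuous_exp.tendsto _).comp (hlim z)) fun k => ?_
    have h1 := h (U k) (hq k).1.deg (fun x hx => hx k)
    simp only [Function.comp, G]
    rcases le_total ‖(U k).eval z‖ 1 with h2 | h2
    · rw [max_eq_left h2]; simpa using hu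
    · rw [max_eq_right h2]
      rwa [Real.rpow_def_of_pos (by linarith), mul_one_div] at h1
  · intro k hk
    obtain ⟨j, rfl⟩ : ∃ j, k = j + 1 := ⟨k - 1, by omega⟩
    exact (hq j).2.2.2.2.2 K (fun z hz => hz _) (hroot _)

theorem exists_fek {K : Set ℂ} (hK : IsCompact K) (hne : K.Nonempty) (m : ℕ) :
    ∃ v : Fin (m + 1) → ℂ, Fek K v := by
  have hc : IsCompact (Set.pi Set.univ fun _ : Fin (m + 1) => K) := isCompact_univ_pi fun _ => hK
  obtain ⟨x, hx⟩ := hne
  have hcont : Continuous fun y : Fin (m + 1) → ℂ => ‖(Matrix.vandermonde y).det‖ := by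
    simp only [Matrix.det_vandermonde]
    fun_prop
  obtain ⟨v, hv, hmax⟩ := hc.exists_isMaxOn ⟨fun _ => x, fun _ _ => hx⟩ hcont.continuousOn
  exact ⟨v, fun j => hv j trivial, fun y hy => hmax (fun j _ => hy j)⟩

end Pool.Agent.H53.Fk
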