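import Mathlib

open Finset Real

namespace Pool.Agent.H53.Gq

lemma cos_sum (q : ℚ) (h : ℤ) (h0 : h ≠ 0) (hQ : |h| < q.den) (ψ : ℝ) (t : ℕ) :
    ∑ c ∈ range (q.den * t), cos (2 * π * (h * (c * q)) + ψ) = 0 := by
  have d0 : (q.den : ℝ) ≠ 0 := by exact_mod_cast q.den_nz
  have s0 : sin (π * (h * q)) ≠ 0 := fun e => by
    obtain ⟨n, hn⟩ := sin_eq_zero_iff.1 e
    have e1 : (n : ℝ) = h * q := mul_left_cancel₀ pi_ne_zero (by linarith)
    rw [Rat.cast_def, ← mul_div_assoc, eq_div_iff d0] at e1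
    have e2 : n * q.den = h * q.num := by exact_mod_cast e1
    have e3 : (q.den : ℤ) ∣ h := (Int.isCoprime_iff_gcd_eq_one.2 (by
      simpa [Int.gcd, Nat.coprime_comm] using q.reduced)).dvd_of_dvd_mul_right ⟨n, by rw [← e2, mul_comm]⟩
    exact h0 (Int.eq_zero_of_abs_lt_dvd e3 hQ)
  refine mul_left_cancel₀ (mul_ne_zero two_ne_zero s0) ?_
  rw [mul_sum, mul_zero, sum_congr rfl (g := fun c : ℕ => sin (2 * π * (h * (((c + 1 : ℕ) : ℝ) * q)) - π * (h * q) + ψ) -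
    sin (2 * π * (h * (c * q)) - π * (h * q) + ψ)) fun c _ => ?_,
    sum_range_sub (fun c : ℕ => sin (2 * π * (h * (c * q)) - π * (h * q) + ψ)), sub_eq_zero,
    ← sin_add_int_mul_two_pi _ (-(h * t * q.num))]
  · congr 1
    rw [Rat.cast_def]; push_cast; field_simp; ring
  · rw [sin_sub_sin]; push_cast; congr 2
    · congr 1; ring
    · ring

lemma riesz (q : ℚ) (a : ℤ) (ha : a ≠ 0) (φ l : ℝ) (t R : ℕ) : ∀ (g : ℤ) (ψ : ℝ), 3 ^ R ≤ 2 * |g| →
    |a| * (2 * |g| + 3 ^ R - 1) < 2 * q.den →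
    ∑ c ∈ range (q.den * t), (∏ j ∈ range R, (1 + l * cos (2 * π * (a * (c * (3 ^ j * q))) + φ))) *
      cos (2 * π * (a * g * (c * q)) + ψ) = 0 := by
  have a0 := abs_pos.2 ha
  induction R with
  | zero =>
    intro g ψ h1 h2
    have := cos_sum q (a * g) (mul_ne_zero ha (by rintro rfl; simp at h1)) (by rw [abs_mul]; nlinarith) ψ t
    simpa using this
  | succ R ih =>
    intro g ψ h1 h2
    have p0 : (0:ℤ) < 3 ^ R := by positivity
    rw [pow_succ] at h1 h2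
    have b1 := abs_add_le g (3 ^ R)
    have b2 := abs_sub g (3 ^ R)
    have b3 := abs_sub (g + 3 ^ R) (3 ^ R)
    have b4 := abs_add_le (g - 3 ^ R) (3 ^ R)
    simp only [abs_of_pos p0, add_sub_cancel_right, sub_add_cancel] at b1 b2 b3 b4
    have i0 := ih g ψ (by linarith) (by nlinarith)
    have i1 := ih (g + 3 ^ R) (ψ + φ) (by linarith) (by nlinarith)
    have i2 := ih (g - 3 ^ R) (ψ - φ) (by linarith) (by nlinarith)
    have := congrArg₂ (· + ·) i0 (congrArg (l / 2 * ·) (congrArg₂ (· + ·) i1 i2))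
    simp only [← sum_add_distrib, mul_sum, add_zero, mul_zero] at this
    refine (sum_congr rfl fun c _ => ?_).trans this
    rw [prod_range_succ]
    push_cast
    rw [show 2 * π * (a * (g + 3 ^ R) * (c * q)) + (ψ + φ) =
        (2 * π * (a * g * (c * q)) + ψ) + (2 * π * (a * (c * (3 ^ R * q))) + φ) by ring,
      show 2 * π * (a * (g - 3 ^ R) * (c * q)) + (ψ - φ) =
        (2 * π * (a * g * (c * q)) + ψ) - (2 * π * (a * (c * (3 ^ R * q))) + φ) by ring]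
    generalize 2 * π * (a * g * (c * q)) + ψ = A
    generalize 2 * π * (a * (c * (3 ^ R * q))) + φ = B
    rw [cos_add, cos_sub]; ring

lemma riesz1 (q : ℚ) (a : ℤ) (ha : a ≠ 0) (φ l : ℝ) (t R : ℕ) (h : |a| * 3 ^ R ≤ q.den) :
    ∑ c ∈ range (q.den * t), ∏ j ∈ range R, (1 + l * cos (2 * π * (a * (c * (3 ^ j * q))) + φ)) = q.den * t := by
  have a0 := abs_pos.2 ha
  induction R with
  | zero => simp
  | succ R ih =>
    have p0 : (0:ℤ) < 3 ^ R := by positivity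
    rw [pow_succ] at h
    have := congrArg₂ (· + ·) (ih (by nlinarith)) (congrArg (l * ·) (riesz q a ha φ l t R (3 ^ R) φ
      (by rw [abs_of_pos p0]; linarith) (by rw [abs_of_pos p0]; nlinarith)))
    simp only [← sum_add_distrib, mul_sum, add_zero, mul_zero] at this
    refine (sum_congr rfl fun c _ => ?_).trans this
    rw [prod_range_succ]; push_cast
    rw [show a * (c * (3 ^ R * q)) = a * 3 ^ R * (c * q : ℝ) by ring]; ring

lemma exp_le (v : ℝ) (h : |v| ≤ 1 / 2) : exp (v - 2 * v ^ 2) ≤ 1 + v := by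
  obtain ⟨h1, h2⟩ := abs_le.1 h
  have := add_one_le_exp (-(v - 2 * v ^ 2))
  rw [exp_neg, le_inv_comm₀ (by nlinarith) (exp_pos _)] at this
  refine this.trans ?_
  rw [inv_le_iff_one_le_mul₀ (by nlinarith)]
  nlinarith [mul_nonneg (sq_nonneg v) (show 0 ≤ 1 + 2 * v by linarith)]

lemma chern (q : ℚ) (a : ℤ) (ha : a ≠ 0) (φ δ : ℝ) (d0 : 0 < δ) (d1 : δ ≤ 1) (M R : ℕ) (h : |a| * 3 ^ R ≤ q.den)
    (hM : q.den ≤ M) : ((filter (fun c : ℕ => δ * R < ∑ j ∈ range R, cos (2 * π * (a * (c * (3 ^ j * q))) + φ))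
      (range M)).card : ℝ) ≤ 2 * M * exp (-(δ ^ 2 / 8) * R) := by
  have b : ∀ s, |δ / 4 * cos s| ≤ δ / 4 := fun s => by
    rw [abs_mul, abs_of_pos (by positivity)]
    exact mul_le_of_le_one_right (by positivity) (abs_cos_le_one s)
  have m1 := Nat.lt_mul_div_succ M q.pos
  have m2 : q.den * (M / q.den + 1) ≤ 2 * M := by nlinarith [Nat.mul_div_le M q.den]
  have := riesz1 q a ha φ (δ / 4) (M / q.den + 1) R h
  rw [neg_mul, exp_neg, ← div_eq_mul_inv, le_div_iff₀ (exp_pos _), ← nsmul_eq_mul]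
  refine (card_nsmul_le_sum _ _ _ fun c hc => ?_).trans ((sum_le_sum_of_subset_of_nonneg
    ((filter_subset _ _).trans (range_mono m1.le)) fun c _ _ => prod_nonneg fun j _ => ?_).trans
    (this.trans_le (by exact_mod_cast m2)))
  · refine le_trans ?_ (prod_le_prod (fun j _ => (exp_pos _).le) fun j _ => exp_le _ ((b _).trans (by linarith)))
    rw [← exp_sum, sum_sub_distrib, ← mul_sum]
    refine exp_le_exp.2 ?_
    have e1 := (mem_filter.1 hc).2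
    have e2 := sum_le_card_nsmul (range R) (fun j => 2 * (δ / 4 * cos (2 * π * (a * (c * (3 ^ j * q))) + φ)) ^ 2)
      (δ ^ 2 / 8) fun j _ => by
        have := abs_le.1 (b (2 * π * (a * (c * (3 ^ j * q))) + φ))
        linarith [sq_le_sq' this.1 this.2]
    rw [card_range, nsmul_eq_mul] at e2
    nlinarith
  · linarith [(abs_le.1 (b (2 * π * (a * (c * (3 ^ j * q))) + φ))).1]

lemma fracs (y ρ : ℝ) (hρ : 0 ≤ ρ) (D : ℕ) : ∃ F : Finset ℚ, (F.card : ℝ) ≤ 2 * ρ * D ^ 2 + 2 ∧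
    ∀ q : ℚ, q.den ≤ D → |y - q| ≤ ρ → q ∈ F := by
  have : ∀ z : ℤ, ∃ s : ℚ, ∀ q : ℚ, q.den ≤ D → ⌊(q : ℝ) * D ^ 2⌋ = z → s = q := fun z => by
    by_cases h : ∃ q : ℚ, q.den ≤ D ∧ ⌊(q : ℝ) * D ^ 2⌋ = z
    · obtain ⟨s, s1, s2⟩ := h
      refine ⟨s, fun q q1 q2 => ?_⟩
      by_contra hne
      have e1 := Int.abs_sub_lt_one_of_floor_eq_floor (s2.trans q2.symm)
      have e2 : (1:ℤ) ≤ |s.num * q.den - q.num * s.den| :=
        Int.one_le_abs (sub_ne_zero.2 fun e => hne (Rat.eq_iff_mul_eq_mul.2 e))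
      have e3 : (1:ℝ) ≤ |(s.num:ℝ) * q.den - q.num * s.den| := by exact_mod_cast e2
      have p1 : (0:ℝ) < s.den := by exact_mod_cast s.pos
      have p2 : (0:ℝ) < q.den := by exact_mod_cast q.pos
      have p3 : (s.den : ℝ) * q.den ≤ D ^ 2 := by
        rw [sq]; exact_mod_cast Nat.mul_le_mul s1 q1
      rw [show (s.num:ℝ) * q.den - q.num * s.den = (s - q) * (s.den * q.den) by
        rw [Rat.cast_def, Rat.cast_def]; field_simp, abs_mul, abs_of_pos (mul_pos p1 p2)] at e3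
      rw [← sub_mul, abs_mul, abs_of_nonneg (sq_nonneg (D:ℝ))] at e1
      nlinarith [abs_nonneg ((s:ℝ) - q)]
    · exact ⟨0, fun q q1 q2 => absurd ⟨q, q1, q2⟩ h⟩
  choose s hs using this
  have m : ⌊(y - ρ) * D ^ 2⌋ ≤ ⌊(y + ρ) * D ^ 2⌋ + 1 := Int.le_add_one (Int.floor_mono (by gcongr; linarith))
  refine ⟨(Icc ⌊(y - ρ) * D ^ 2⌋ ⌊(y + ρ) * D ^ 2⌋).image s, ?_, fun q q1 q2 => mem_image.2 ⟨_, mem_Icc.2
    ⟨Int.floor_mono ?_, Int.floor_mono ?_⟩, hs _ q q1 rfl⟩⟩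
  · have c1 := card_image_le (s := Icc ⌊(y - ρ) * D ^ 2⌋ ⌊(y + ρ) * D ^ 2⌋) (f := s)
    have c2 := Int.card_Icc_of_le _ _ m
    have c3 : ((Icc ⌊(y - ρ) * D ^ 2⌋ ⌊(y + ρ) * D ^ 2⌋).card : ℝ) = ⌊(y + ρ) * D ^ 2⌋ + 1 - ⌊(y - ρ) * D ^ 2⌋ := by
      exact_mod_cast c2
    have := Int.floor_le ((y + ρ) * D ^ 2)
    have := Int.lt_floor_add_one ((y - ρ) * D ^ 2)
    refine (Nat.cast_le.2 c1).trans (by linarith)
  · gcongr; linarith [(abs_le.1 q2).2]
  · gcongr; linarith [(abs_le.1 q2).1]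

lemma cover (O : Finset ℝ) (r κ : ℝ) (hκ : 0 ≤ κ) (ψ : ℝ → ℝ) (h0 : ∀ t, 0 ≤ ψ t)
    (h1 : ∀ t, ψ t < 1 → ∃ o ∈ O, ∃ m : ℤ, |t - o - m| < r)
    (h2 : ∀ o ∈ O, ∀ o' ∈ O, ∀ m : ℤ, ¬ 3 ∣ m → 4 * r ≤ |o - o' - m / 3|) (n : ℕ) : ∀ B : ℝ,
    ∃ E : Finset ℝ, (E.card : ℝ) ≤ O.card * exp B * (1 + 3 * exp (-κ)) ^ n ∧ ∀ x,
      κ * ∑ j ∈ range n, ψ (3 ^ j * x) ≤ B → ψ (3 ^ n * x) < 1 → ∃ y ∈ E, ∃ m : ℤ, |x - y - m| ≤ r / 3 ^ n := by
  have : ∀ y : ℝ, ∃ s, ∀ i : ℤ, 0 ≤ i → i < 3 → (∃ o ∈ O, ∃ m : ℤ, |(y + i) / 3 - o - m| < 2 * r) → s = (y + i) / 3 :=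
    fun y => by
    by_cases h : ∃ i : ℤ, 0 ≤ i ∧ i < 3 ∧ ∃ o ∈ O, ∃ m : ℤ, |(y + i) / 3 - o - m| < 2 * r
    · obtain ⟨i, a1, a2, o, ho, m, a3⟩ := h
      refine ⟨(y + i) / 3, fun i' b1 b2 ⟨o', ho', m', b3⟩ => ?_⟩
      obtain rfl : i = i' := by
        by_contra hne
        have := h2 o ho o' ho' (i - i' - 3 * (m - m')) (by omega)
        rw [abs_lt] at a3 b3
        push_cast at this
        exact absurd this (not_le.2 (abs_lt.2 ⟨by linarith, by linarith⟩))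
      rfl
    · exact ⟨0, fun i a1 a2 a3 => absurd ⟨i, a1, a2, a3⟩ h⟩
  choose s hs using this
  induction n with
  | zero =>
    intro B
    by_cases hB : 0 ≤ B
    · refine ⟨O, by simpa using le_mul_of_one_le_right (Nat.cast_nonneg _) (one_le_exp hB), fun x _ h => ?_⟩
      obtain ⟨o, ho, m, hm⟩ := h1 _ h
      exact ⟨o, ho, m, by simpa using hm.le⟩
    · exact ⟨∅, by simp only [card_empty, Nat.cast_zero]; positivity, fun x h => absurd (by simpa using h) hB⟩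
  | succ n ih =>
    intro B
    obtain ⟨E1, a1, a2⟩ := ih B
    obtain ⟨E2, b1, b2⟩ := ih (B - κ)
    refine ⟨E1.image s ∪ image₂ (fun (y : ℝ) (i : ℤ) => (y + i) / 3) E2 (Ico 0 3), ?_, fun x c1 c2 => ?_⟩
    · have c1 := (card_union_le _ _).trans (add_le_add (card_image_le (s := E1) (f := s))
        (card_image₂_le (fun (y : ℝ) (i : ℤ) => (y + i) / 3) E2 (Ico 0 3)))
      rw [show (Ico (0:ℤ) 3).card = 3 by rfl] at c1
      refine (Nat.cast_le.2 c1).trans ?_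
      rw [sub_eq_add_neg, exp_add] at b1
      push_cast; rw [pow_succ]; linarith
    · rw [sum_range_succ'] at c1
      simp only [pow_succ, mul_assoc, pow_zero, one_mul] at c1 c2
      have k : ∀ (y : ℝ) (m : ℤ), |3 * x - y - m| ≤ r / 3 ^ n →
          |x - (y + (m % 3 : ℤ)) / 3 - (m / 3 : ℤ)| ≤ r / 3 ^ (n + 1) := fun y m h => by
        have e : (m : ℝ) = (m % 3 : ℤ) + 3 * (m / 3 : ℤ) := by exact_mod_cast (Int.emod_add_mul_ediv m 3).symm
        rw [pow_succ, ← div_div]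
        rw [abs_le] at h ⊢
        constructor <;> linarith [h.1, h.2]
      by_cases hx : ψ x < 1
      · obtain ⟨y, hy, m, hm⟩ := a2 (3 * x) (by nlinarith [mul_nonneg hκ (h0 x)]) c2
        obtain ⟨o, ho, m', hm'⟩ := h1 _ hx
        have k1 := k y m hm
        refine ⟨_, mem_union_left _ (mem_image_of_mem _ hy), m / 3, ?_⟩
        rwa [hs y (m % 3) (by omega) (by omega) ⟨o, ho, m' - m / 3, ?_⟩]
        have k2 := k1.trans (div_le_self ((abs_nonneg _).trans hm'.le) (one_le_pow₀ (by norm_num)))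
        rw [abs_le] at k2
        rw [abs_lt] at hm' ⊢
        rw [Int.cast_sub]
        constructor <;> linarith [k2.1, k2.2, hm'.1, hm'.2]
      · obtain ⟨y, hy, m, hm⟩ := b2 (3 * x) (by nlinarith [mul_le_mul_of_nonneg_left (not_lt.1 hx) hκ]) c2
        exact ⟨_, mem_union_right _ (mem_image₂_of_mem hy (mem_Ico.2 ⟨by omega, by omega⟩)), m / 3, k y m hm⟩

end Pool.Agent.H53.Gq
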