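import Mathlib
import Pool.Agent.H53.GqA

open Finset Real

namespace Pool.Agent.H53.Gq

lemma cardU {α β : Type*} [DecidableEq β] (s : Finset α) (t : α → Finset β) (K L : ℝ) (hK : 0 ≤ K)
    (h : ∀ a ∈ s, ((t a).card : ℝ) ≤ K) (hL : (s.card : ℝ) ≤ L) : ((s.biUnion t).card : ℝ) ≤ L * K :=
  (Nat.cast_le.2 card_biUnion_le).trans (by
    rw [Nat.cast_sum]
    exact (sum_le_card_nsmul _ _ _ h).trans (by rw [nsmul_eq_mul]; gcongr))

lemma key (a : ℤ) (ha : a ≠ 0) (φ δ : ℝ) (d0 : 0 < δ) (d1 : δ ≤ 1) (R0 : ℕ) (hR : 2 * π * |(a:ℝ)| ≤ δ * 3 ^ R0)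
    (O : Finset ℝ) (r : ℝ) (r1 : r ≤ 1) (ψ : ℝ → ℝ) (h0 : ∀ t, 0 ≤ ψ t)
    (h1 : ∀ t, ψ t < 1 → ∃ o ∈ O, ∃ m : ℤ, |t - o - m| < r)
    (h2 : ∀ o ∈ O, ∀ o' ∈ O, ∀ m : ℤ, ¬ 3 ∣ m → 4 * r ≤ |o - o' - m / 3|)
    (h3 : ∀ o ∈ O, ∀ q : ℚ, q.den < 9 ^ R0 → 2 * r ≤ |o - q|) (M : ℕ) (hM : 1 ≤ r * M) :
    ∃ Bad : Finset ℕ, (Bad.card : ℝ) ≤ M * (652 * O.card * ∑ R ∈ Ico R0 M, R * exp (-(δ ^ 2 / 16) * R)) ∧
      ∀ c < M, c ∉ Bad → ∀ x : ℝ, ∃ l, 1 ≤ l ∧ l ≤ 5 * M ∧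
      ∑ j ∈ range l, (cos (2 * π * (a * (c * (3 ^ j * x))) + φ) - 2 * δ - 3 / (δ ^ 2 / 160) ^ 2 * ψ (3 ^ j * x)) ≤ 0 := by
  set τ := δ ^ 2 / 160 with hτ
  have t0 : 0 < τ := by positivity
  have t1 : τ ≤ 1 / 160 := by nlinarith
  have a1 : (1:ℝ) ≤ |(a:ℝ)| := by exact_mod_cast Int.one_le_abs ha
  have a2 : 6 * |(a:ℝ)| ≤ 3 ^ R0 := by nlinarith [pi_gt_three, pow_pos (show (0:ℝ) < 3 by norm_num) R0]
  have a3 : 1 ≤ R0 := by
    rcases R0 with _ | R0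
    · norm_num at a2; linarith
    · omega
  have k0 : 1 + 3 * exp (-(3 / τ)) ≤ exp τ := by
    have := add_one_le_exp (3 / τ)
    have e : exp (-(3 / τ)) ≤ τ / 3 := by
      rw [exp_neg, inv_le_comm₀ (exp_pos _) (by positivity), inv_div]; linarith
    linarith [add_one_le_exp τ]
  choose E hE1 hE2 using fun n : ℕ => cover O r (3 / τ) (by positivity) ψ h0 h1 h2 n (τ * n)
  choose F hF1 hF2 using fun (R : ℕ) y => fracs y (2 / 81 ^ R) (by positivity) (9 ^ (R + 1))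
  set B := fun (R : ℕ) (q : ℚ) => filter (fun c : ℕ => (9 ^ R ≤ q.den ∧ q.den ≤ M) ∧
    δ * R < ∑ j ∈ range R, cos (2 * π * (a * (c * (3 ^ j * q))) + φ)) (range M) with hB
  refine ⟨(Ico R0 M).biUnion fun R => (Ico (4 * R) (5 * R)).biUnion fun n => (E n).biUnion fun y =>
    (F R y).biUnion (B R), (Nat.cast_le.2 card_biUnion_le).trans ?_, fun c hc hb x => ?_⟩
  · rw [Nat.cast_sum, mul_sum, mul_sum]
    refine sum_le_sum fun R hR' => (cardU _ _ (O.card * exp (10 * τ * R) * (326 * (2 * M * exp (-(δ ^ 2 / 8) * R)))) R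
      (by positivity) (fun n hn => cardU _ _ _ _ (by positivity) (fun y _ => cardU _ _ _ _ (by positivity)
      (fun q _ => ?_) ((hF1 R y).trans_eq ?_)) ((hE1 n).trans ?_)) (by simp; norm_num; ring_nf; rfl)).trans_eq ?_
    · by_cases hq : 9 ^ R ≤ q.den ∧ q.den ≤ M
      · refine le_trans (Nat.cast_le.2 (card_le_card (monotone_filter_right _ fun c _ h => h.2)))
          (chern q a ha φ δ d0 d1 M R ?_ hq.2)
        have b1 : (3:ℝ) ^ R0 ≤ 3 ^ R := pow_le_pow_right₀ (by norm_num) (mem_Ico.1 hR').1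
        have b2 : ((9 ^ R : ℕ) : ℝ) ≤ q.den := by exact_mod_cast hq.1
        have b3 : ((9 ^ R : ℕ) : ℝ) = 3 ^ R * 3 ^ R := by rw [← mul_pow]; norm_num
        have : |(a:ℝ)| * 3 ^ R ≤ q.den := by nlinarith [pow_pos (show (0:ℝ) < 3 by norm_num) R]
        exact_mod_cast this
      · simp only [hB, hq, false_and, filter_false, card_empty, Nat.cast_zero]; positivity
    · push_cast
      rw [← pow_mul, mul_comm (R + 1), pow_mul, pow_succ]; field_simp; ring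
    · have b1 : (n:ℝ) ≤ 5 * R := by exact_mod_cast (mem_Ico.1 hn).2.le
      rw [mul_assoc]
      refine mul_le_mul_of_nonneg_left ((mul_le_mul_of_nonneg_left (pow_le_pow_left₀ (by positivity) k0 n)
        (exp_pos _).le).trans ?_) (Nat.cast_nonneg _)
      rw [← exp_nat_mul, ← exp_add]
      exact exp_le_exp.2 (by nlinarith)
    · rw [show -(δ ^ 2 / 16) * R = 10 * τ * R + -(δ ^ 2 / 8) * R by rw [hτ]; ring, exp_add]; ring
  by_contra! hx
  have M0 : (1:ℝ) ≤ M := by nlinarith [Nat.cast_nonneg (α := ℝ) M]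
  have M1 : 1 ≤ M := by exact_mod_cast M0
  have s1 : ∀ l, 1 ≤ l → l ≤ 5 * M → 3 / τ * ∑ j ∈ range l, ψ (3 ^ j * x) ≤ τ * l := fun l l1 l2 => by
    have b1 := hx l l1 l2
    have b2 := sum_le_card_nsmul (range l) (fun j => cos (2 * π * (a * (c * (3 ^ j * x))) + φ) - 2 * δ) 1
      fun j _ => by linarith [cos_le_one (2 * π * (a * (c * (3 ^ j * x))) + φ)]
    rw [sum_sub_distrib, ← mul_sum] at b1
    rw [card_range, nsmul_eq_mul] at b2
    rw [show 3 / τ = τ * (3 / τ ^ 2) by field_simp, mul_assoc]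
    exact mul_le_mul_of_nonneg_left (by linarith) t0.le
  have s2 : ∀ l : ℕ, 1 ≤ l → l ≤ 5 * M → 5 * ∑ j ∈ range l, ψ (3 ^ j * x) < l := fun l l1 l2 => by
    have b1 := s1 l l1 l2
    have b2 : (1:ℝ) ≤ l := by exact_mod_cast l1
    rw [div_mul_eq_mul_div, div_le_iff₀ t0] at b1
    nlinarith [mul_le_mul t1 t1 t0.le (by norm_num)]
  obtain ⟨o, ho, m0, hm0⟩ := h1 x (by have := s2 1 le_rfl (by omega); norm_num at this; linarith)
  obtain ⟨q, q1, q2⟩ := exists_rat_abs_sub_le_and_den_le x M1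
  have q0 : (1:ℝ) ≤ q.den := by exact_mod_cast q.pos
  have q3 : 9 ^ R0 ≤ q.den := by
    by_contra! h
    have b1 := h3 o ho (q - m0) (by rwa [Rat.sub_intCast_den])
    have b2 : |x - q| ≤ r := q1.trans (by rw [div_le_iff₀ (by positivity)]; nlinarith [(abs_nonneg _).trans_lt hm0])
    rw [abs_le] at b2
    rw [abs_lt] at hm0
    push_cast at b1
    exact absurd b1 (not_le.2 (abs_lt.2 ⟨by linarith, by linarith⟩))
  obtain ⟨R, R1, R2, R3⟩ : ∃ R, R0 ≤ R ∧ 9 ^ R ≤ q.den ∧ q.den < 9 ^ (R + 1) :=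
    ⟨_, Nat.le_log_of_pow_le (by norm_num) q3, Nat.pow_log_le_self 9 q.den_nz, Nat.lt_pow_succ_log_self (by norm_num) _⟩
  have R4 : R < M := (Nat.lt_pow_self (by norm_num)).trans_le (R2.trans q2)
  obtain ⟨n, n1, n2⟩ : ∃ n ∈ Ico (4 * R) (5 * R), ψ (3 ^ n * x) < 1 := by
    by_contra! h
    have b1 := (card_nsmul_le_sum _ _ _ h).trans (sum_le_sum_of_subset_of_nonneg
      (show Ico (4 * R) (5 * R) ⊆ range (5 * R) from fun j hj => mem_range.2 (mem_Ico.1 hj).2) fun j _ _ => h0 _)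
    have b2 := s2 (5 * R) (by omega) (by omega)
    rw [Nat.card_Ico, show 5 * R - 4 * R = R by omega, nsmul_eq_mul] at b1
    push_cast at b2
    linarith
  obtain ⟨n3, n4⟩ := mem_Ico.1 n1
  obtain ⟨y, hy, m, hm⟩ := hE2 n x (s1 n (by omega) (by omega)) n2
  have c9 : (9:ℝ) ^ R ≤ q.den := by exact_mod_cast R2
  have cM : (q.den : ℝ) ≤ M := by exact_mod_cast q2
  have p9 : (0:ℝ) < 9 ^ R := by positivity
  have hq : q - m ∈ F R y := hF2 R y _ (by rw [Rat.sub_intCast_den]; exact R3.le) (by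
    have b1 : |x - q| ≤ 1 / 81 ^ R := q1.trans (one_div_le_one_div_of_le (by positivity) (by
      rw [show (81:ℝ) = 9 * 9 by norm_num, mul_pow]; gcongr; linarith))
    have b2 : |x - y - m| ≤ 1 / 81 ^ R := hm.trans (by
      rw [show (81:ℝ) = 3 ^ 4 by norm_num, ← pow_mul]; gcongr; norm_num)
    rw [abs_le] at b1 b2 ⊢
    rw [show (2:ℝ) / 81 ^ R = 1 / 81 ^ R + 1 / 81 ^ R by ring]
    push_cast
    constructor <;> linarith [b1.1, b1.2, b2.1, b2.2])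
  have g1 : ∑ j ∈ range R, cos (2 * π * (a * (c * (3 ^ j * (q - m : ℚ)))) + φ) ≤ δ * R := by
    by_contra! h
    exact hb (mem_biUnion.2 ⟨R, mem_Ico.2 ⟨R1, R4⟩, mem_biUnion.2 ⟨n, n1, mem_biUnion.2 ⟨y, hy, mem_biUnion.2
      ⟨_, hq, mem_filter.2 ⟨mem_range.2 hc, by rw [Rat.sub_intCast_den]; exact ⟨R2, q2⟩, h⟩⟩⟩⟩⟩)
  refine absurd (hx R (by omega) (by omega)) (not_lt.2 ((sum_le_sum (g := fun j =>
    cos (2 * π * (a * (c * (3 ^ j * (q - m : ℚ)))) + φ) - δ) fun j hj => ?_).trans ?_))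
  · have b1 := abs_cos_sub_cos_le (2 * π * (a * (c * (3 ^ j * x))) + φ) (2 * π * (a * (c * (3 ^ j * q))) + φ)
    rw [← cos_sub_int_mul_two_pi (2 * π * (a * (c * (3 ^ j * q))) + φ) (a * c * 3 ^ j * m),
      show 2 * π * (a * (c * (3 ^ j * q))) + φ - (a * c * 3 ^ j * m : ℤ) * (2 * π) =
        2 * π * (a * (c * (3 ^ j * (q - m : ℚ)))) + φ by push_cast; ring,
      show 2 * π * (a * (c * (3 ^ j * x))) + φ - (2 * π * (a * (c * (3 ^ j * q))) + φ) =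
        2 * π * a * (c * 3 ^ j * (x - q)) by ring, abs_mul, abs_mul, abs_mul (c * 3 ^ j : ℝ), abs_of_pos two_pi_pos,
      abs_of_nonneg (show (0:ℝ) ≤ c * 3 ^ j by positivity)] at b1
    have b2 : (c:ℝ) * 3 ^ j * |x - q| ≤ 1 / 3 ^ R0 := by
      have e1 : (c:ℝ) ≤ M + 1 := by exact_mod_cast (by omega : c ≤ M + 1)
      have e2 : (3:ℝ) ^ j * 3 ^ R0 ≤ q.den := le_trans (by
        rw [show (9:ℝ) = 3 * 3 by norm_num, mul_pow]
        gcongr
        · norm_num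
        · exact (mem_range.1 hj).le
        · norm_num) c9
      refine (mul_le_mul_of_nonneg_left q1 (by positivity)).trans ?_
      rw [mul_one_div, div_le_div_iff₀ (by positivity) (by positivity), one_mul, mul_assoc]
      gcongr
    have b3 := (mul_le_mul_of_nonneg_left b2 (by positivity : 0 ≤ 2 * π * |(a:ℝ)|)).trans
      (show _ ≤ δ by rwa [mul_one_div, div_le_iff₀ (by positivity)])
    have b4 := mul_nonneg (show 0 ≤ 3 / τ ^ 2 by positivity) (h0 (3 ^ j * x))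
    linarith [(abs_le.1 b1).2]
  · rw [sum_sub_distrib, sum_const, card_range, nsmul_eq_mul]; linarith

end Pool.Agent.H53.Gq
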