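import Mathlib
import Pool.Agent.H53.GqB

open Finset Real MeasureTheory Filter Topology

namespace Pool.Agent.H53.Gq

/-- invariant measures -/
abbrev X := {ν : ProbabilityMeasure UnitAddCircle //
  (ν : Measure UnitAddCircle).map (fun x : UnitAddCircle => (3:ℕ) • x) = (ν : Measure UnitAddCircle)}

lemma intg {E : Type*} [NormedAddCommGroup E] (μ : Measure UnitAddCircle) [IsFiniteMeasure μ]
    {g : UnitAddCircle → E} (hg : Continuous g) : Integrable g μ :=
  hg.integrable_of_hasCompactSupport (HasCompactSupport.of_compactSpace g)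

lemma inv (μ : X) (j : ℕ) {g : UnitAddCircle → ℝ} (hg : Continuous g) :
    ∫ x, g (3 ^ j • x) ∂(μ.1 : Measure _) = ∫ x, g x ∂(μ.1 : Measure _) := by
  induction j with
  | zero => simp
  | succ j ih =>
    rw [← ih]
    conv_rhs => rw [← μ.2]
    rw [integral_map (by fun_prop) (by fun_prop : Continuous fun x => g (3 ^ j • x)).aestronglyMeasurable]
    simp only [pow_succ, mul_smul]

lemma erg (μ : X) {g : UnitAddCircle → ℝ} (hg : Continuous g) (K : ℕ)
    (h : ∀ x, ∃ l, 1 ≤ l ∧ l ≤ K ∧ ∑ j ∈ range l, g (3 ^ j • x) ≤ 0) : ∫ x, g x ∂(μ.1 : Measure _) ≤ 0 := by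
  obtain ⟨C, hC⟩ := (isCompact_range hg).bddAbove
  have h1 : ∀ n x, ∑ j ∈ range n, g (3 ^ j • x) ≤ K * |C| := fun n => by
    induction n using Nat.strong_induction_on with
    | _ n ih =>
      intro x
      obtain ⟨l, l1, l2, l3⟩ := h x
      rcases lt_or_ge n l with hn | hn
      · refine (sum_le_card_nsmul _ _ |C| fun j _ => (hC ⟨_, rfl⟩).trans (le_abs_self _)).trans ?_
        rw [card_range, nsmul_eq_mul]; gcongr; omega
      · obtain ⟨n, rfl⟩ := Nat.exists_eq_add_of_le hn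
        have := ih n (by omega) (3 ^ l • x)
        rw [sum_range_add]
        simp only [pow_add, mul_comm (3 ^ l), mul_smul]
        linarith
  by_contra! h2
  obtain ⟨n, hn⟩ := exists_nat_gt (K * |C| / ∫ x, g x ∂(μ.1 : Measure _))
  have := integral_mono (μ := (μ.1 : Measure UnitAddCircle)) (intg _ (by fun_prop)) (integrable_const _) (h1 n)
  rw [integral_finsetSum _ fun j _ => intg _ (by fun_prop)] at this
  simp only [inv μ _ hg, sum_const, card_range, nsmul_eq_mul, integral_const, probReal_univ, one_smul] at this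
  rw [div_lt_iff₀ h2] at hn
  linarith

/-- representative -/
noncomputable def rep (x : UnitAddCircle) : ℝ := AddCircle.equivIco 1 0 x

/-- periodic point shadowing `x` -/
noncomputable def pt (T m : ℕ) (x : UnitAddCircle) : ℝ := (⌊3 ^ T * rep x⌋ * 3 ^ m + 1) / (3 ^ (T + m) - 1)

lemma rep_fl (T : ℕ) (x : UnitAddCircle) : 0 ≤ ⌊3 ^ T * rep x⌋ ∧ ⌊3 ^ T * rep x⌋ < 3 ^ T := by
  have := (AddCircle.equivIco 1 0 x).2
  refine ⟨Int.floor_nonneg.2 (mul_nonneg (by positivity) this.1), Int.floor_lt.2 ?_⟩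
  push_cast
  exact mul_lt_of_lt_one_right (by positivity) (by simpa [rep] using this.2)

lemma pt_per (T m : ℕ) (hm : 1 ≤ m) (x : UnitAddCircle) : 3 ^ (T + m) • (pt T m x : UnitAddCircle) = pt T m x := by
  have : (1:ℝ) < 3 ^ (T + m) := one_lt_pow₀ (by norm_num) (by omega)
  rw [← AddCircle.coe_nsmul, ← sub_eq_zero, ← AddCircle.coe_sub, AddCircle.coe_eq_zero_iff]
  refine ⟨⌊3 ^ T * rep x⌋ * 3 ^ m + 1, ?_⟩
  have : (3:ℝ) ^ (T + m) - 1 ≠ 0 := by linarith
  rw [pt, nsmul_eq_mul, zsmul_eq_mul]; push_cast; field_simp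

lemma pt_near (T m : ℕ) (hm : 1 ≤ m) (x : UnitAddCircle) : |pt T m x - rep x| ≤ 1 / 3 ^ T := by
  have a1 : (3:ℝ) ≤ 3 ^ m := le_self_pow₀ (by norm_num) (by omega)
  have a2 : (1:ℝ) ≤ 3 ^ T := one_le_pow₀ (by norm_num)
  have a3 : (0:ℝ) < 3 ^ T * 3 ^ m - 1 := by nlinarith
  have b1 : (0:ℝ) ≤ ⌊3 ^ T * rep x⌋ := by exact_mod_cast (rep_fl T x).1
  have b2 : (⌊3 ^ T * rep x⌋ : ℝ) < 3 ^ T := by exact_mod_cast (rep_fl T x).2
  have b3 := Int.floor_le (3 ^ T * rep x)
  have b4 := Int.lt_floor_add_one (3 ^ T * rep x)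
  have e : pt T m x - rep x = ((3 ^ T + ⌊3 ^ T * rep x⌋) / (3 ^ T * 3 ^ m - 1) - (3 ^ T * rep x - ⌊3 ^ T * rep x⌋)) / 3 ^ T := by
    rw [pt, pow_add]; field_simp; ring
  have c1 : (3 ^ T + ⌊3 ^ T * rep x⌋ : ℝ) / (3 ^ T * 3 ^ m - 1) ≤ 1 := (div_le_one a3).2 (by nlinarith)
  have c2 : (0:ℝ) ≤ (3 ^ T + ⌊3 ^ T * rep x⌋ : ℝ) / (3 ^ T * 3 ^ m - 1) := by positivity
  rw [e, abs_div, abs_of_pos (by positivity : (0:ℝ) < 3 ^ T)]
  gcongr
  exact abs_le.2 ⟨by linarith, by linarith⟩

lemma approx (μ : X) (T m : ℕ) (hm : 1 ≤ m) : ∃ ν : X,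
    (∀ (f : UnitAddCircle → ℝ) L, LipschitzWith L f →
      |∫ x, f x ∂(ν.1 : Measure _) - ∫ x, f x ∂(μ.1 : Measure _)| ≤ L * ((1 + m) / (T + m : ℕ))) ∧
    ∀ s : Set UnitAddCircle, s.Finite → (∀ᵐ x ∂(μ.1 : Measure _), ∀ j < T + m, 3 ^ j • (pt T m x : UnitAddCircle) ∈ s) →
      ∀ᵐ x ∂(ν.1 : Measure _), x ∈ s := by
  have m1 : Measurable rep := measurable_subtype_coe.comp (AddCircle.measurableEquivIco 1 0).measurable
  have m2 : ∀ j, Measurable fun x => 3 ^ j • (pt T m x : UnitAddCircle) := fun j =>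
    (continuous_nsmul _).measurable.comp (AddCircle.measurable_mk'.comp (by unfold pt; fun_prop))
  have k0 : ((T + m : ℕ) : ENNReal) ≠ 0 := by exact_mod_cast (by omega : T + m ≠ 0)
  have k1 : (0:ℝ) < (T + m : ℕ) := by exact_mod_cast (by omega : 0 < T + m)
  refine ⟨⟨⟨((T + m : ℕ) : ENNReal)⁻¹ • ∑ j ∈ range (T + m), (μ.1 : Measure _).map
    fun x => 3 ^ j • (pt T m x : UnitAddCircle), ⟨?_⟩⟩, ?_⟩, fun f L hf => ?_, fun s hs h => ?_⟩
  · rw [Measure.smul_apply, Measure.finsetSum_apply, sum_congr rfl fun j _ => Measure.map_apply (m2 j) .univ]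
    simp [ENNReal.inv_mul_cancel k0, -Nat.cast_add]
  · rw [ProbabilityMeasure.coe_mk, Measure.map_smul, Measure.map_finset_sum (by fun_prop),
      sum_congr rfl fun j _ => Measure.map_map (by fun_prop) (m2 j)]
    have := pt_per T m hm
    obtain ⟨k, hk⟩ : ∃ k, T + m = k + 1 := ⟨T + m - 1, by omega⟩
    rw [hk] at this ⊢
    rw [sum_range_succ, sum_range_succ']
    simp only [Function.comp_def, ← mul_smul, ← pow_succ', this, pow_zero, one_smul]
  · have i1 : ∀ j, Integrable (fun x => f (3 ^ j • (pt T m x : UnitAddCircle))) (μ.1 : Measure _) := fun j =>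
      (integrable_map_measure hf.continuous.aestronglyMeasurable (m2 j).aemeasurable).1 (intg _ hf.continuous)
    have i2 : ∀ j, Integrable (fun x => f (3 ^ j • x)) (μ.1 : Measure _) := fun j =>
      intg _ (hf.continuous.comp (by fun_prop))
    have e : ∫ x, f x ∂(μ.1 : Measure _) = ((T + m : ℕ) : ℝ)⁻¹ * ∑ j ∈ range (T + m), ∫ x, f (3 ^ j • x) ∂(μ.1 : Measure _) := by
      simp only [inv μ _ hf.continuous, sum_const, card_range, nsmul_eq_mul]; field_simp
    rw [ProbabilityMeasure.coe_mk, integral_smul_measure, integral_finsetSum_measure fun j _ => intg _ hf.continuous,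
      sum_congr rfl fun j _ => integral_map (m2 j).aemeasurable hf.continuous.aestronglyMeasurable, e,
      ENNReal.toReal_inv, ENNReal.toReal_natCast, smul_eq_mul, ← mul_sub, ← integral_finsetSum _ fun j _ => i1 j,
      ← integral_finsetSum _ fun j _ => i2 j, ← integral_sub (integrable_finsetSum _ fun j _ => i1 j)
      (integrable_finsetSum _ fun j _ => i2 j), abs_mul, abs_of_pos (inv_pos.2 k1), ← mul_div_assoc, mul_comm,
      ← div_eq_mul_inv]
    gcongr
    rw [← Real.norm_eq_abs]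
    refine (norm_integral_le_of_norm_le_const (μ := (μ.1 : Measure UnitAddCircle)) (C := L * (1 + m)) (.of_forall fun x => ?_)).trans
      (by rw [probReal_univ, mul_one])
    rw [← sum_sub_distrib]
    refine (norm_sum_le_of_le _ fun j _ => hf.norm_sub_le _ _).trans ?_
    rw [← mul_sum, sum_range_add]
    gcongr
    · refine (sum_le_sum (g := fun j => 3 ^ j * (1 / 3 ^ T : ℝ)) fun j _ => ?_).trans ?_
      · rw [← smul_sub]
        have := pt_near T m hm x
        refine norm_nsmul_le.trans ?_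
        push_cast
        gcongr
        refine le_trans (le_of_eq ?_) ((QuotientAddGroup.norm_mk_le_norm (S := AddSubgroup.zmultiples 1)
          (m := pt T m x - rep x)).trans this)
        rw [AddCircle.coe_sub, rep, AddCircle.coe_equivIco]
      · rw [← sum_mul, geom_sum_eq (by norm_num), mul_one_div, div_le_one (by positivity)]
        linarith [pow_pos (show (0:ℝ) < 3 by norm_num) T]
    · refine (sum_le_card_nsmul _ _ 1 fun j _ => (AddCircle.norm_le_half_period 1 one_ne_zero).trans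
        (by norm_num)).trans (by simp)
  · rw [ProbabilityMeasure.coe_mk]
    refine Measure.ae_smul_measure (ae_finsetSum_measure_iff.2 fun j hj => ?_) _
    exact (ae_map_iff (m2 j).aemeasurable hs.measurableSet).2 (h.mono fun x hx => hx j (mem_range.1 hj))

end Pool.Agent.H53.Gq
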