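import Mathlib
import Pool.Agent.H53.GqC

open Finset Real MeasureTheory Filter Topology

namespace Pool.Agent.H53.Gq

lemma dens (μ : X) (T m : ℕ → ℕ) (hm : ∀ n, 1 ≤ m n) (h : ∀ n, ((1 + m n) / (T n + m n : ℕ) : ℝ) = 2 * (1 / (n + 1))) :
    ∃ ν : ℕ → X, Tendsto ν atTop (𝓝 μ) ∧ ∀ n, ∀ s : Set UnitAddCircle, s.Finite →
      (∀ᵐ x ∂(μ.1 : Measure _), ∀ j < T n + m n, 3 ^ j • (pt (T n) (m n) x : UnitAddCircle) ∈ s) →
      ∀ᵐ x ∂((ν n).1 : Measure _), x ∈ s := by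
  choose ν h1 h2 using fun n => approx μ (T n) (m n) (hm n)
  refine ⟨ν, tendsto_subtype_rng.2 (tendsto_iff_forall_lipschitz_integral_tendsto.2 fun f _ ⟨L, hf⟩ =>
    tendsto_iff_norm_sub_tendsto_zero.2 (squeeze_zero (fun _ => norm_nonneg _) (fun n => h1 n f L hf) ?_)), h2⟩
  simpa only [h, mul_zero] using (tendsto_one_div_add_atTop_nhds_zero_nat.const_mul (2:ℝ)).const_mul (L:ℝ)

lemma sep (u v N D : ℤ) (hN : 0 < N) (hD : 0 < D) (h : u * D ≠ v * N) : 1 / (N * D : ℝ) ≤ |(u / N - v / D : ℝ)| := by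
  have a1 : (0:ℝ) < N := by exact_mod_cast hN
  have a2 : (0:ℝ) < D := by exact_mod_cast hD
  have a3 : (1:ℝ) ≤ |(u * D - v * N : ℝ)| := by exact_mod_cast Int.one_le_abs (sub_ne_zero.2 h)
  rw [div_sub_div _ _ a1.ne' a2.ne', abs_div, abs_of_pos (mul_pos a1 a2), mul_comm (N:ℝ) v]
  gcongr

lemma arith (T R j : ℕ) (x : UnitAddCircle) : ∃ u : ℤ, 3 ^ j * pt T (2 * R + 1) x = u / (3 ^ (T + (2 * R + 1)) - 1 : ℤ) ∧
    ∀ q : ℚ, q.den < 9 ^ R → u * q.den ≠ q.num * (3 ^ (T + (2 * R + 1)) - 1) := by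
  refine ⟨3 ^ j * (⌊3 ^ T * rep x⌋ * 3 ^ (2 * R + 1) + 1), by rw [pt]; push_cast; ring, fun q hq e => ?_⟩
  obtain ⟨a1, a2⟩ := rep_fl T x
  generalize ⌊3 ^ T * rep x⌋ = A at *
  have c : IsCoprime (3 ^ (T + (2 * R + 1)) - 1 : ℤ) (3 ^ j) :=
    IsCoprime.pow_right ⟨-1, 3 ^ (T + 2 * R), by ring⟩
  have d1 : (3 ^ (T + (2 * R + 1)) - 1 : ℤ) ∣ (A * 3 ^ (2 * R + 1) + 1) * q.den :=
    c.dvd_of_dvd_mul_left ⟨q.num, by rw [← mul_assoc, e, mul_comm]⟩
  have d2 : (3 ^ (T + (2 * R + 1)) - 1 : ℤ) ∣ (A + 3 ^ T) * q.den := by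
    have := (d1.mul_left (3 ^ T)).sub (dvd_mul_right _ (A * q.den))
    rwa [show 3 ^ T * ((A * 3 ^ (2 * R + 1) + 1) * q.den) - (3 ^ (T + (2 * R + 1)) - 1) * (A * q.den) =
      (A + 3 ^ T) * (q.den : ℤ) by ring] at this
  have p1 : (0:ℤ) < q.den := by exact_mod_cast q.pos
  have p2 : (q.den : ℤ) < 9 ^ R := by exact_mod_cast hq
  have p3 : (0:ℤ) < 3 ^ T := by positivity
  have := Int.le_of_dvd (by positivity) d2
  rw [pow_add, pow_succ, pow_mul, show (3:ℤ) ^ 2 = 9 by norm_num] at this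
  nlinarith [mul_le_mul (show A + 3 ^ T ≤ 2 * 3 ^ T by linarith) p2.le p1.le (by positivity), mul_pos p3 (p1.trans p2)]

/-- test functions -/
noncomputable def cs (h : ℤ) (s : ℕ) (x : UnitAddCircle) : ℝ := (fourier h x * Complex.I ^ s).re

lemma cs_coe (h : ℤ) (s : ℕ) (t : ℝ) : cs h s t = cos (2 * π * (h * t) + s * (π / 2)) := by
  rw [cs, fourier_coe_apply, ← congrArg (· ^ s) Complex.exp_pi_div_two_mul_I, ← Complex.exp_nat_mul, ← Complex.exp_add,
    ← Complex.exp_ofReal_mul_I_re]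
  congr 2; push_cast; ring

lemma good (a : ℤ) (ha : a ≠ 0) (s : ℕ) (δ : ℝ) (d0 : 0 < δ) (d1 : δ ≤ 1) (V : Set X) (hV : IsOpen V) (γ : ℝ)
    (hγ : 0 < γ) : ∃ W : Set X, IsOpen W ∧ (V.Nonempty → (V ∩ W).Nonempty) ∧ ∃ M0 : ℕ, ∀ M ≥ M0, ∃ Bad : Finset ℕ,
      (Bad.card : ℝ) ≤ M * γ ∧ ∀ c < M, c ∉ Bad → ∀ μ ∈ W, ∫ x, cs (a * c) s x ∂(μ.1 : Measure _) ≤ 3 * δ := by
  rcases V.eq_empty_or_nonempty with rfl | ⟨μ0, h0⟩
  · exact ⟨∅, isOpen_empty, by simp, 0, fun M _ => ⟨∅, by simp only [card_empty, Nat.cast_zero]; positivity, by simp⟩⟩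
  obtain ⟨ν1, a1, a2⟩ := dens μ0 (fun n => n) (fun _ => 1) (fun _ => le_rfl) fun n => by simp; ring
  obtain ⟨n, hn⟩ := (a1.eventually (hV.mem_nhds h0)).exists
  have f1 := AddCircle.finite_torsion (1:ℝ) (show 0 < 3 ^ (n + 1) - 1 from Nat.sub_pos_of_lt (Nat.one_lt_pow (by omega) (by omega)))
  have a3 := a2 n _ f1 (.of_forall fun x j _ => by
    show _ • _ • _ = _
    rw [smul_comm, sub_nsmul _ (Nat.one_le_pow _ _ (by omega)), pt_per n 1 le_rfl x, one_nsmul, add_neg_cancel, smul_zero])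
  obtain ⟨ν, b1, b2⟩ := dens (ν1 n) (· ^ 2) (2 * · + 1) (fun _ => by omega) fun R => by
    push_cast; field_simp; ring
  set K : ℝ := (f1.toFinset.card : ℝ) with hK
  obtain ⟨s0, hs0⟩ := summable_iff_vanishing_norm.1 (summable_pow_mul_exp_neg_nat_mul 3
    (show 0 < δ ^ 2 / 16 by positivity)) (γ / (2608 * K + 1)) (by positivity)
  obtain ⟨R, R1, R2, R3, R4⟩ := ((b1.eventually (hV.mem_nhds hn)).and ((eventually_gt_atTop (s0.sup id)).and
    ((eventually_ge_atTop 1).and (((tendsto_pow_atTop_atTop_of_one_lt (show (1:ℝ) < 3 by norm_num)).const_mul_atTop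
    d0).eventually_ge_atTop (2 * π * |(a:ℝ)|))))).exists
  set N : ℤ := 3 ^ (R ^ 2 + (2 * R + 1)) - 1 with hN
  have N0 : 0 < N := sub_pos.2 (one_lt_pow₀ (by norm_num) (by omega))
  have N1 : (1:ℝ) ≤ N := by exact_mod_cast N0
  have N2 : (1:ℝ) ≤ 9 ^ R := one_le_pow₀ (by norm_num)
  set O := image₂ (fun x j => 3 ^ j * pt (R ^ 2) (2 * R + 1) x) f1.toFinset (range (R ^ 2 + (2 * R + 1))) with hO
  have hu : ∀ o ∈ O, ∃ u : ℤ, o = u / N ∧ ∀ q : ℚ, q.den < 9 ^ R → u * q.den ≠ q.num * N := fun o ho => by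
    obtain ⟨x, _, j, _, rfl⟩ := mem_image₂.1 ho
    exact arith _ R j x
  set S : Set UnitAddCircle := (↑) '' (O : Set ℝ) with hS
  have b3 := b2 R S (O.finite_toSet.image _) (a3.mono fun x hx j hj => ⟨_, mem_image₂_of_mem (f1.mem_toFinset.2 hx)
    (mem_range.2 hj), by rw [← AddCircle.coe_nsmul, nsmul_eq_mul]; push_cast; rfl⟩)
  obtain ⟨x0, hx0⟩ := b3.exists
  set r : ℝ := 1 / (12 * N * 9 ^ R) with hr
  have r0 : 0 < r := by positivity
  set Λ := 3 / (δ ^ 2 / 160) ^ 2 with hΛ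
  have L0 : 0 < Λ := by positivity
  set Ψ : C(UnitAddCircle, ℝ) := ⟨fun x => Metric.infDist x S / r, (Metric.continuous_infDist_pt S).div_const r⟩
  obtain ⟨M0, hM0⟩ := exists_nat_ge (1 / r)
  refine ⟨{μ | ∫ x, Ψ x ∂(μ.1 : Measure _) < δ / Λ}, isOpen_lt ((ProbabilityMeasure.continuous_integral_continuousMap
    Ψ).comp continuous_subtype_val) continuous_const, fun _ => ⟨ν R, R1, ?_⟩, M0, fun M hM => ?_⟩
  · show (_:ℝ) < _
    rw [integral_congr_ae (g := fun _ => 0) (b3.mono fun x hx => by simp [Ψ, Metric.infDist_zero_of_mem hx])]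
    simp only [integral_zero]; positivity
  obtain ⟨Bad, c1, c2⟩ := key a ha (s * (π / 2)) δ d0 d1 R R4 O r ((div_le_one (by positivity)).2 (by nlinarith))
    (fun t => Ψ t) (fun t => div_nonneg Metric.infDist_nonneg r0.le) (fun t ht => by
      obtain ⟨_, ⟨o, ho, rfl⟩, h⟩ := (Metric.infDist_lt_iff ⟨x0, hx0⟩).1 ((div_lt_one r0).1 ht)
      rw [dist_eq_norm, ← AddCircle.coe_sub, UnitAddCircle.norm_eq] at h
      exact ⟨o, ho, _, h⟩) (fun o ho o' ho' m hm => by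
      obtain ⟨u, rfl, -⟩ := hu o ho
      obtain ⟨u', rfl, -⟩ := hu o' ho'
      have := sep (u - u') m N 3 N0 (by norm_num) fun e => by
        rcases Int.prime_three.dvd_or_dvd (show 3 ∣ m * N from ⟨_, by rw [← e, mul_comm]⟩) with h | h
        · exact hm h
        · rw [hN, ← add_assoc, pow_succ] at h; omega
      rw [← sub_div]
      push_cast at this
      refine le_trans ?_ this
      rw [hr, mul_one_div, div_le_div_iff₀ (by positivity) (by positivity)]; nlinarith) (fun o ho q hq => by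
      obtain ⟨u, rfl, h⟩ := hu o ho
      have := sep u q.num N q.den N0 (by exact_mod_cast q.pos) (h q hq)
      have p1 : (0:ℝ) < q.den := by exact_mod_cast q.pos
      have p2 : (q.den : ℝ) < 9 ^ R := by exact_mod_cast hq
      rw [Rat.cast_def]
      push_cast at this
      refine le_trans ?_ this
      rw [hr, mul_one_div, div_le_div_iff₀ (by positivity) (by positivity)]; nlinarith) M (by
      rw [mul_comm, ← div_le_iff₀ r0]; exact hM0.trans (by exact_mod_cast hM))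
  refine ⟨Bad, c1.trans (mul_le_mul_of_nonneg_left ?_ (Nat.cast_nonneg _)), fun c hc hb μ hμ => ?_⟩
  · have e1 := (le_abs_self _).trans (hs0 (Ico R M) (disjoint_left.2 fun i hi hi' =>
      absurd (le_sup (f := id) hi') (not_le.2 (R2.trans_le (mem_Ico.1 hi).1)))).le
    have e2 : (O.card : ℝ) ≤ K * (R + 1) ^ 2 := by
      refine (Nat.cast_le.2 (card_image₂_le _ _ _)).trans_eq ?_
      rw [card_range]; push_cast; ring
    have K0 : 0 ≤ K := Nat.cast_nonneg _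
    rw [le_div_iff₀ (by positivity)] at e1
    refine le_trans ?_ e1
    rw [mul_sum, sum_mul]
    refine sum_le_sum fun i hi => ?_
    have i1 : (R:ℝ) ≤ i := by exact_mod_cast (mem_Ico.1 hi).1
    have i2 : (1:ℝ) ≤ R := by exact_mod_cast R3
    have i3 : (O.card : ℝ) ≤ K * (2 * i) ^ 2 := e2.trans (by gcongr; linarith)
    have i4 : 0 ≤ i * exp (-(δ ^ 2 / 16) * i) := by positivity
    nlinarith [mul_le_mul_of_nonneg_right i3 i4, mul_nonneg (sq_nonneg (i:ℝ)) i4]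
  · have cc : Continuous (cs (a * c) s) := by unfold cs; fun_prop
    have := erg μ (g := fun x => cs (a * c) s x - 2 * δ - Λ * Ψ x) (by fun_prop) (5 * M) fun x => by
      obtain ⟨t, rfl⟩ := QuotientAddGroup.mk_surjective x
      obtain ⟨l, l1, l2, l3⟩ := c2 c hc hb t
      refine ⟨l, l1, l2, le_of_eq_of_le (sum_congr rfl fun j _ => ?_) l3⟩
      rw [← AddCircle.coe_nsmul, cs_coe, nsmul_eq_mul]; push_cast; rw [mul_assoc (a:ℝ)]
    rw [integral_sub (intg _ (by fun_prop)) (intg _ (by fun_prop)), integral_sub (intg _ cc) (integrable_const _),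
      integral_const, integral_const_mul, probReal_univ, one_smul] at this
    have := (lt_div_iff₀' L0).1 hμ
    linarith

end Pool.Agent.H53.Gq
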