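import Mathlib
import Pool.Agent.H53.GqD

open Finset Real MeasureTheory Filter Topology TopologicalSpace

namespace Pool.Agent.H53.Gq

lemma cpt : CompactSpace X := by
  refine isCompact_iff_compactSpace.1 (IsClosed.isCompact (s := {ν : ProbabilityMeasure UnitAddCircle |
    (ν : Measure UnitAddCircle).map (fun x : UnitAddCircle => (3:ℕ) • x) = (ν : Measure UnitAddCircle)}) ?_)
  convert isClosed_eq (ProbabilityMeasure.continuous_map (Ω := UnitAddCircle) (continuous_nsmul 3)) continuous_id using 1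
  exact Set.ext fun _ => ⟨fun h => Subtype.ext h, fun h => congrArg Subtype.val h⟩

lemma ne : Nonempty X := ⟨⟨⟨Measure.dirac 0, inferInstance⟩, by
  rw [ProbabilityMeasure.coe_mk, Measure.map_dirac' (by fun_prop), smul_zero]⟩⟩

lemma lip (ν : Measure UnitAddCircle) [IsProbabilityMeasure ν] (c : ℤ) :
    LipschitzWith 1 fun f : C(UnitAddCircle, ℂ) => ∫ x, f (c • x) ∂ν := .of_dist_le_mul fun f g => by
  rw [dist_eq_norm, ← integral_sub (intg _ (by fun_prop)) (intg _ (by fun_prop))]
  refine (norm_integral_le_of_norm_le_const (C := dist f g) (.of_forall fun x => ?_)).trans (by simp)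
  rw [← dist_eq_norm]
  exact ContinuousMap.dist_apply_le_dist _

lemma weyl (μ : Measure UnitAddCircle) [IsProbabilityMeasure μ] (c : ℕ → ℤ)
    (h : ∀ a : ℤ, a ≠ 0 → Tendsto (fun n => ∫ x, fourier (a * c n) x ∂μ) atTop (𝓝 0)) (f : C(UnitAddCircle, ℝ)) :
    Tendsto (fun n => ∫ x, f (c n • x) ∂μ) atTop (𝓝 (∫ x, f x)) := by
  haveI : IsProbabilityMeasure (volume : Measure UnitAddCircle) := ⟨UnitAddCircle.measure_univ⟩
  have k : ∀ g : C(UnitAddCircle, ℂ), Tendsto (fun n => ∫ x, g (c n • x) ∂μ) atTop (𝓝 (∫ x, g ((1:ℤ) • x))) := fun g => by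
    have hc := (LipschitzWith.uniformEquicontinuous _ 1 fun n => lip μ (c n)).equicontinuous.isClosed_setOfPred_tendsto
      (l := atTop) (lip volume 1).continuous
    have hg : g ∈ closure (Submodule.span ℂ (Set.range (@fourier 1)) : Set _) := by
      rw [← Submodule.topologicalClosure_coe, span_fourier_closure_eq_top]; trivial
    refine closure_minimal (fun g hg => ?_) hc hg
    induction hg using Submodule.span_induction with
    | mem g hg =>
      obtain ⟨a, rfl⟩ := hg
      by_cases ha : a = 0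
      · simp [ha]
      · simp only [Set.mem_setOf_eq, one_smul]
        rw [integral_eq_zero_of_add_right_eq_neg (fourier_add_half_inv_index ha one_pos)]
        simpa only [fourier_apply, mul_smul] using h a ha
    | zero => simp
    | add g g' _ _ h1 h2 =>
      simp only [Set.mem_setOf_eq, ContinuousMap.add_apply]
      rw [integral_add (intg _ (by fun_prop)) (intg _ (by fun_prop))]
      exact (Tendsto.add h1 h2).congr fun n => (integral_add (intg _ (by fun_prop)) (intg _ (by fun_prop))).symm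
    | smul a g _ h1 =>
      simp only [Set.mem_setOf_eq, ContinuousMap.smul_apply, integral_smul]
      exact Tendsto.const_smul h1 a
  have := (Complex.continuous_re.tendsto _).comp (k ⟨fun x => f x, by fun_prop⟩)
  simpa only [Function.comp_def, ContinuousMap.coe_mk, integral_complex_ofReal, Complex.ofReal_re, one_smul] using this

lemma main : ∃ c : ℕ → ℤ, StrictMono c ∧ ∃ R ∈ residual X, ∀ μ ∈ R, ∀ f : C(UnitAddCircle, ℝ),
    Tendsto (fun n => ∫ x, f (c n • x) ∂(μ.1 : Measure _)) atTop (𝓝 (∫ x, f x)) := by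
  haveI : SecondCountableTopology X := Subtype.secondCountableTopology _
  obtain ⟨μ0⟩ := ne
  obtain ⟨V0, hV0, -⟩ := (isBasis_countableBasis X).exists_subset_of_mem_open (Set.mem_univ μ0) isOpen_univ
  haveI : Nonempty (({a : ℤ // a ≠ 0} × ℕ × ℕ) × countableBasis X) := ⟨((⟨1, one_ne_zero⟩, 0, 0), ⟨V0, hV0⟩)⟩
  obtain ⟨e, he⟩ := exists_surjective_nat (({a : ℤ // a ≠ 0} × ℕ × ℕ) × countableBasis X)
  choose W w1 w2 M0 w3 using fun k : ℕ => good (e k).1.1 (e k).1.1.2 (e k).1.2.1 (1 / ((e k).1.2.2 + 1)) (by positivity)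
    ((div_le_one (by positivity)).2 (by simp)) (e k).2 (isOpen_of_mem_countableBasis (e k).2.2) ((1 / 2) ^ (k + 2))
    (by positivity)
  have : ∀ n b : ℕ, ∃ c : ℕ, b < c ∧ ∀ k < n, ∀ μ ∈ W k,
      ∫ x, cs ((e k).1.1 * c) (e k).1.2.1 x ∂(μ.1 : Measure _) ≤ 3 * (1 / ((e k).1.2.2 + 1)) := fun n b => by
    set M := (range n).sup M0 + 4 * (b + 1) with hM
    choose! B b1 b2 using fun k (hk : k ∈ range n) => w3 k M ((le_sup hk).trans (Nat.le_add_right _ _))
    have c1 : (((range n).biUnion B).card : ℝ) ≤ M * (1 / 2) := (Nat.cast_le.2 card_biUnion_le).trans (by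
      rw [Nat.cast_sum]
      refine (sum_le_sum b1).trans ?_
      simp only [← mul_sum, pow_add, ← sum_mul]
      gcongr
      linarith [sum_geometric_two_le n])
    have c2 : 2 * ((range n).biUnion B).card ≤ M := by exact_mod_cast (show (2:ℝ) * ((range n).biUnion B).card ≤ M by linarith)
    obtain ⟨c, c3, c4⟩ := exists_mem_notMem_of_card_lt_card (s := range (b + 1) ∪ (range n).biUnion B) (t := range M)
      ((card_union_le _ _).trans_lt (by simp only [card_range]; omega))
    simp only [mem_union, mem_biUnion, not_or, not_exists, not_and] at c4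
    exact ⟨c, by simpa using c4.1, fun k hk => b2 k (mem_range.2 hk) c (mem_range.1 c3) (c4.2 k (mem_range.2 hk))⟩
  choose g g1 g2 using this
  set c : ℕ → ℕ := fun n => Nat.rec 0 (fun n b => g n b) n with hc
  refine ⟨fun n => c (n + 1), strictMono_nat_of_lt_succ fun n => by exact_mod_cast g1 _ _,
    ⋂ i, ⋃ k, ⋃ (_ : (e k).1 = i), W k, countable_iInter_mem.2 fun i => residual_of_dense_open
    (isOpen_iUnion fun k => isOpen_iUnion fun _ => w1 k) ((isBasis_countableBasis X).dense_iff.2 fun V hV h => ?_),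
    fun μ hμ => weyl _ _ fun a ha => ?_⟩
  · obtain ⟨k, hk⟩ := he (i, ⟨V, hV⟩)
    obtain ⟨μ, m1, m2⟩ := w2 k (by rwa [hk])
    rw [hk] at m1
    exact ⟨μ, m1, Set.mem_iUnion₂.2 ⟨k, by rw [hk], m2⟩⟩
  refine Metric.tendsto_nhds.2 fun ε hε => ?_
  obtain ⟨d, hd⟩ := exists_nat_one_div_lt (show 0 < ε / 6 by positivity)
  have k : ∀ s : ℕ, ∀ᶠ n in atTop, ((∫ x, fourier (a * c (n + 1)) x ∂(μ.1 : Measure UnitAddCircle)) * Complex.I ^ s).re ≤
      3 * (1 / (d + 1)) := fun s => by
    obtain ⟨k, hk, m⟩ := Set.mem_iUnion₂.1 (Set.mem_iInter.1 hμ (⟨a, ha⟩, s, d))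
    filter_upwards [eventually_gt_atTop k] with n hn
    have := g2 n (c n) k hn μ m
    rw [hk] at this
    rw [← integral_mul_const]
    exact le_of_eq_of_le (integral_re (𝕜 := ℂ) (intg _ (by fun_prop))).symm this
  filter_upwards [k 0, k 1, k 2, k 3] with n k0 k1 k2 k3
  rw [dist_zero_right]
  refine (Complex.norm_le_abs_re_add_abs_im _).trans_lt ?_
  generalize ∫ x, fourier (a * c (n + 1)) x ∂(μ.1 : Measure UnitAddCircle) = z at *
  simp only [pow_succ, pow_zero, Complex.mul_re, Complex.mul_im, Complex.I_re, Complex.I_im, Complex.one_re,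
    Complex.one_im] at k0 k1 k2 k3
  have := abs_le.2 (show -(3 * (1 / (d + 1 : ℝ))) ≤ z.re ∧ _ from ⟨by linarith, by linarith⟩)
  have := abs_le.2 (show -(3 * (1 / (d + 1 : ℝ))) ≤ z.im ∧ _ from ⟨by linarith, by linarith⟩)
  linarith

end Pool.Agent.H53.Gq
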