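import Mathlib

/-! Trigonometric polynomials on the torus as elements of a group algebra. -/

namespace H53.Hc

open AddMonoidAlgebra Finset MeasureTheory Complex Real

variable {d : ℕ}

/-- trigonometric polynomials -/
abbrev R (d : ℕ) := AddMonoidAlgebra ℂ (Fin d → ℤ)

/-- exponentials -/
noncomputable def ex (k : Fin d → ℤ) (x : Fin d → ℝ) : ℂ := cexp (I * (∑ j, k j * x j : ℝ))

lemma ex_add (k l : Fin d → ℤ) (x : Fin d → ℝ) : ex (k + l) x = ex k x * ex l x := by
  simp [ex, ← Complex.exp_add, add_mul, sum_add_distrib, mul_add]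

lemma norm_ex (k : Fin d → ℤ) (x : Fin d → ℝ) : ‖ex k x‖ = 1 := norm_exp_I_mul_ofReal _

lemma conj_ex (k : Fin d → ℤ) (x : Fin d → ℝ) : starRingEnd ℂ (ex k x) = ex (-k) x := by
  rw [ex, ← exp_conj, map_mul, conj_I, conj_ofReal, ex]; simp

/-- evaluation -/
noncomputable def ev (x : Fin d → ℝ) : R d →ₐ[ℂ] ℂ :=
  lift ℂ ℂ _ ⟨⟨fun k => ex k.toAdd x, by simp [ex]⟩, fun _ _ => ex_add _ _ _⟩

lemma ev_apply (x : Fin d → ℝ) (f : R d) : ev x f = ∑ k ∈ f.coeff.support, f.coeff k * ex k x :=
  lift_apply _ _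

lemma ev_single (x : Fin d → ℝ) (k : Fin d → ℤ) (c : ℂ) : ev x (single k c) = c * ex k x :=
  lift_single _ _ _

/-- the cube -/
def Q (d : ℕ) : Set (Fin d → ℝ) := Set.univ.pi fun _ => Set.Ico 0 (2 * π)

instance : IsFiniteMeasure (volume.restrict (Q d)) :=
  isFiniteMeasure_restrict.2 (by rw [Q, Real.volume_pi_Ico]; exact ENNReal.prod_ne_top fun _ _ => ENNReal.ofReal_ne_top)

lemma cont_ev (f : R d) : Continuous fun x => ev x f := by
  simp only [ev_apply, ex]; fun_prop

lemma intg {E : Type} [NormedAddCommGroup E] {F : (Fin d → ℝ) → E} (h : Continuous F) :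
    Integrable F (volume.restrict (Q d)) :=
  (h.continuousOn.integrableOn_compact (isCompact_univ_pi fun _ => isCompact_Icc)).mono_set
    (Set.pi_mono fun _ _ => Set.Ico_subset_Icc_self)

lemma int_ex (k : Fin d → ℤ) : ∫ x in Q d, ex k x = if k = 0 then (2 * π : ℂ) ^ d else 0 := by
  have h : ∀ m : ℤ, ∫ x in Set.Ico 0 (2 * π), cexp (I * m * (x : ℝ)) =
      if m = 0 then (2 * π : ℂ) else 0 := fun m => by
    rw [integral_Ico_eq_integral_Ioc, ← intervalIntegral.integral_of_le (by positivity)]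
    split_ifs with h
    · simp [h]
    · rw [integral_exp_mul_complex (by simpa using h), div_eq_zero_iff]
      left
      rw [show I * m * (2 * π : ℝ) = m * (2 * π * I) by push_cast; ring, exp_int_mul_two_pi_mul_I]
      simp
  have h2 : ∀ x, ex k x = ∏ j, cexp (I * k j * (x j : ℝ)) := fun x => by
    rw [ex, ← Complex.exp_sum]; push_cast; simp [mul_sum, mul_assoc]
  simp only [h2]
  rw [Q, volume_pi, Measure.restrict_pi_pi,
    integral_fintype_prod_eq_prod fun j (x : ℝ) => cexp (I * k j * x)]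
  simp only [h]
  split_ifs with h0
  · simp [h0]
  · obtain ⟨j, hj⟩ := Function.ne_iff.1 h0
    exact prod_eq_zero (mem_univ j) (if_neg hj)

/-- normalised integral -/
noncomputable def av (F : (Fin d → ℝ) → ℝ) : ℝ := ((2 * π) ^ d)⁻¹ * ∫ x in Q d, F x

lemma int_ev (f : R d) : ∫ x in Q d, ev x f = (2 * π : ℂ) ^ d * f.coeff 0 := by
  simp only [ev_apply]
  rw [integral_finset_sum _ fun k _ => intg (by unfold ex; fun_prop)]
  simp only [integral_const_mul, int_ex, mul_ite, mul_zero, sum_ite_eq', Finsupp.mem_support_iff]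
  split_ifs with h
  · ring
  · rw [not_not.1 h, mul_zero]

lemma av_mono {F G : (Fin d → ℝ) → ℝ} (hF : Continuous F) (hG : Continuous G) (h : ∀ x, F x ≤ G x) :
    av F ≤ av G :=
  mul_le_mul_of_nonneg_left (integral_mono (intg hF) (intg hG) h) (by positivity)

lemma av_lin {F G : (Fin d → ℝ) → ℝ} (hF : Continuous F) (hG : Continuous G) (a b : ℝ) :
    av (fun x => a * F x + b * G x) = a * av F + b * av G := by
  rw [av, integral_add (intg (by fun_prop)) (intg (by fun_prop)), integral_const_mul,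
    integral_const_mul, av, av]; ring

lemma av_sum {ι : Type} (s : Finset ι) {F : ι → (Fin d → ℝ) → ℝ} (hF : ∀ i, Continuous (F i)) :
    av (fun x => ∑ i ∈ s, F i x) = ∑ i ∈ s, av (F i) := by
  rw [av, integral_finset_sum _ fun i _ => intg (hF i), mul_sum]; rfl

lemma coeff0_le (f : R d) : ‖f.coeff 0‖ ≤ av fun x => ‖ev x f‖ := by
  have := norm_integral_le_integral_norm (μ := volume.restrict (Q d)) fun x => ev x f
  rw [int_ev, norm_mul] at this
  rw [av, le_inv_mul_iff₀ (by positivity)]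
  rwa [show ‖(2 * π : ℂ) ^ d‖ = (2 * π) ^ d by simp [abs_of_pos pi_pos]] at this

lemma coeff_le (f : R d) (k : Fin d → ℤ) : ‖f.coeff k‖ ≤ av fun x => ‖ev x f‖ := by
  have := coeff0_le (f * single (-k) 1)
  simpa [coeff_mul_single_apply, ev_single, norm_ex] using this

lemma av_le (f : R d) {F : (Fin d → ℝ) → ℝ} (h : ∀ x, ev x f = F x) : av F ≤ ‖f.coeff 0‖ := by
  have := int_ev f
  simp only [h] at this
  rw [integral_complex_ofReal] at this
  rw [av, inv_mul_le_iff₀ (by positivity)]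
  refine (le_abs_self _).trans_eq ?_
  rw [← Real.norm_eq_abs, ← Complex.norm_real, this]
  simp [abs_of_pos pi_pos]

/-- spectrum in a box -/
def Box (A : Fin d → ℕ) (f : R d) : Prop := ∀ l, f.coeff l ≠ 0 → ∀ j, (l j).natAbs ≤ A j

/-- bounded coefficients -/
def Bd (α : ℝ) (f : R d) : Prop := ∀ l, ‖f.coeff l‖ ≤ α

lemma Box.mono {A B : Fin d → ℕ} {f : R d} (h : Box A f) (hA : ∀ j, A j ≤ B j) : Box B f :=
  fun l hl j => (h l hl j).trans (hA j)

lemma Box.add {A : Fin d → ℕ} {f g : R d} (hf : Box A f) (hg : Box A g) : Box A (f + g) :=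
  fun l hl => by
    by_cases h : f.coeff l = 0
    · exact hg l (by simpa [h] using hl)
    · exact hf l h

lemma Box.smul {A : Fin d → ℕ} {f : R d} (hf : Box A f) (c : ℂ) : Box A (c • f) :=
  fun l hl => hf l fun h => hl (by simp [h])

lemma Box.mul {A B : Fin d → ℕ} {f g : R d} (hf : Box A f) (hg : Box B g) :
    Box (fun j => A j + B j) (f * g) := fun l hl j => by
  rw [coeff_mul_apply_left] at hl
  obtain ⟨h, h1, h2⟩ := exists_ne_zero_of_sum_ne_zero hl
  have h3 := hf h (Finsupp.mem_support_iff.1 h1) j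
  have h4 := hg _ (right_ne_zero_of_mul h2) j
  simp only [Pi.add_apply, Pi.neg_apply] at h4 ⊢
  omega

lemma Box.one (A : Fin d → ℕ) : Box A (1 : R d) := fun l hl j => by
  have : l = 0 := by
    by_contra h; exact hl (by rw [one_def, coeff_single, Finsupp.single_eq_of_ne h])
  simp [this]

lemma Box.prod {ι : Type} (s : Finset ι) {A : Fin d → ℕ} {f : ι → R d} (h : ∀ i ∈ s, Box A (f i)) :
    Box (fun j => s.card * A j) (∏ i ∈ s, f i) := by
  classical
  induction s using Finset.induction_on with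
  | empty => exact Box.one _
  | insert a s ha ih =>
    rw [prod_insert ha, card_insert_of_notMem ha]
    exact ((h a (by simp)).mul (ih fun i hi => h i (by simp [hi]))).mono fun j => by
      rw [add_mul]; omega

lemma conv {A B : Fin d → ℕ} {f g : R d} {α β : ℝ} (hf : Box A f) (hg : Box B g) (ha : Bd α f)
    (hb : Bd β g) : Bd ((∏ j, (2 * min (A j) (B j) + 1 : ℕ) : ℕ) * (α * β)) (f * g) := fun k => by
  have h0 : 0 ≤ α * β := mul_nonneg ((norm_nonneg _).trans (ha 0)) ((norm_nonneg _).trans (hb 0))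
  rw [coeff_mul_apply_left, Finsupp.sum, ← sum_filter_ne_zero]
  refine (norm_sum_le _ _).trans ((sum_le_card_nsmul _ _ (α * β) fun l _ => ?_).trans ?_)
  · rw [norm_mul]; exact mul_le_mul (ha _) (hb _) (norm_nonneg _) ((norm_nonneg _).trans (ha 0))
  rw [nsmul_eq_mul]
  refine mul_le_mul_of_nonneg_right (Nat.cast_le.2 ((card_le_card (t := Fintype.piFinset fun j =>
    Icc (max (-A j : ℤ) (k j - B j)) (min (A j) (k j + B j))) fun l hl => ?_).trans ?_)) h0
  · obtain ⟨h1, h2⟩ := mem_filter.1 hl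
    refine Fintype.mem_piFinset.2 fun j => ?_
    have h3 := hf l (Finsupp.mem_support_iff.1 h1) j
    have h4 := hg _ (right_ne_zero_of_mul h2) j
    simp only [Pi.add_apply, Pi.neg_apply] at h4
    rw [mem_Icc]; omega
  · rw [Fintype.card_piFinset]
    exact prod_le_prod' fun j _ => by rw [Int.card_Icc]; omega

lemma sup_le {A : Fin d → ℕ} {f : R d} {α : ℝ} (hf : Box A f) (ha : Bd α f) (x : Fin d → ℝ) :
    ‖ev x f‖ ≤ (∏ j, (2 * A j + 1 : ℕ) : ℕ) * α := by
  rw [ev_apply]
  refine (norm_sum_le _ _).trans ((sum_le_card_nsmul _ _ α fun l _ => ?_).trans ?_)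
  · rw [norm_mul, norm_ex, mul_one]; exact ha l
  rw [nsmul_eq_mul]
  refine mul_le_mul_of_nonneg_right (Nat.cast_le.2 ((card_le_card (t := Fintype.piFinset fun j =>
    Icc (-A j : ℤ) (A j)) fun l hl => ?_).trans ?_)) ((norm_nonneg _).trans (ha 0))
  · refine Fintype.mem_piFinset.2 fun j => ?_
    have h3 := hf l (Finsupp.mem_support_iff.1 hl) j
    rw [mem_Icc]; omega
  · rw [Fintype.card_piFinset]
    exact prod_le_prod' fun j _ => by rw [Int.card_Icc]; omega

lemma expand {ι A : Type} [CommRing A] (y : ι → A) (key : ι → ℕ) (U : Finset ι) :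
    ∃ V : ι → Finset ι, (∀ t ∈ U, ∀ u ∈ V t, u ∈ U ∧ key u ≤ key t) ∧
      ∏ t ∈ U, (1 + y t) = 1 + ∑ t ∈ U, y t * ∏ u ∈ V t, (1 + y u) := by
  classical
  induction U using Finset.induction_on_max_value key with
  | empty => exact ⟨fun _ => ∅, by simp, by simp⟩
  | insert a s ha h ih =>
    obtain ⟨V, h1, h2⟩ := ih
    refine ⟨Function.update V a s, fun t ht u hu => ?_, ?_⟩
    · rcases eq_or_ne t a with rfl | hta
      · rw [Function.update_self] at hu
        exact ⟨mem_insert_of_mem hu, h u hu⟩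
      · rw [Function.update_of_ne hta] at hu
        have := h1 t ((mem_insert.1 ht).resolve_left hta) u hu
        exact ⟨mem_insert_of_mem this.1, this.2⟩
    · rw [prod_insert ha, sum_insert ha, Function.update_self, add_mul, one_mul,
        sum_congr rfl fun t ht => by rw [Function.update_of_ne fun e : t = a => ha (e ▸ ht)]]
      nth_rw 1 [h2]; ring

lemma prod_sub {ι : Type} (s : Finset ι) {y : ι → ℂ} (h : ∀ i ∈ s, ‖1 + y i‖ ≤ 1) :
    ‖∏ i ∈ s, (1 + y i) - 1‖ ≤ ∑ i ∈ s, ‖y i‖ := by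
  classical
  induction s using Finset.induction_on with
  | empty => simp
  | insert a s ha ih =>
    rw [prod_insert ha, sum_insert ha, show (1 + y a) * ∏ i ∈ s, (1 + y i) - 1 =
      y a + (1 + y a) * (∏ i ∈ s, (1 + y i) - 1) by ring]
    refine (norm_add_le _ _).trans (add_le_add le_rfl ?_)
    rw [norm_mul]
    exact (mul_le_of_le_one_left (norm_nonneg _) (h a (by simp))).trans
      (ih fun i hi => h i (by simp [hi]))

end H53.Hc
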