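import Pool.Agent.H53.HcA

/-! The Riesz product attached to one level of the hyperbolic cross. -/

namespace H53.Hc

open AddMonoidAlgebra Finset Complex

variable {d : ℕ}

/-- sup distance -/
def rho (t u : Fin d → ℕ) : ℕ := univ.sup fun j => (t j - u j) + (u j - t j)

lemma le_rho (t u : Fin d → ℕ) (j : Fin d) : (t j - u j) + (u j - t j) ≤ rho t u :=
  le_sup (f := fun j => (t j - u j) + (u j - t j)) (mem_univ j)

lemma rho_self (t : Fin d → ℕ) : rho t t = 0 := by simp [rho]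

lemma rho_le {t u : Fin d → ℕ} {l : ℕ} (ht : ∑ j, t j = l) (hu : ∑ j, u j = l) :
    ∑ j, min (t j) (u j) + rho t u ≤ l := by
  have h1 : ∑ j, min (t j) (u j) + ∑ j, (t j - u j) = l := by
    rw [← sum_add_distrib, ← ht]; exact sum_congr rfl fun j _ => by omega
  have h2 : ∑ j, min (t j) (u j) + ∑ j, (u j - t j) = l := by
    rw [← sum_add_distrib, ← hu]; exact sum_congr rfl fun j _ => by omega
  have : rho t u ≤ l - ∑ j, min (t j) (u j) := Finset.sup_le fun j _ => by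
    have h3 := single_le_sum (f := fun j => t j - u j) (fun _ _ => Nat.zero_le _) (mem_univ j)
    have h4 := single_le_sum (f := fun j => u j - t j) (fun _ _ => Nat.zero_le _) (mem_univ j)
    omega
  omega

lemma card_ball {t : Fin d → ℕ} {r : ℕ} {V : Finset (Fin d → ℕ)} (h : ∀ w ∈ V, rho t w ≤ r) :
    V.card ≤ (2 * r + 1) ^ d := by
  refine (card_le_card (t := Fintype.piFinset fun j => Icc (t j - r) (t j + r)) fun w hw => ?_).trans ?_
  · refine Fintype.mem_piFinset.2 fun j => ?_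
    have := le_rho t w j
    have := h w hw
    rw [mem_Icc]; omega
  · rw [Fintype.card_piFinset]
    exact (prod_le_pow_card _ _ (2 * r + 1) fun j _ => by rw [Nat.card_Icc]; omega).trans_eq (by simp)

lemma Bd.mono {α β : ℝ} {f : R d} (h : Bd α f) (h' : α ≤ β) : Bd β f := fun l => (h l).trans h'

lemma cv2 {t u : Fin d → ℕ} {l c : ℕ} (ht : ∑ j, t j = l) (hu : ∑ j, u j = l) {f g : R d} {α β : ℝ}
    (hf : Box (fun j => c * 2 ^ t j) f) (hg : Box (fun j => c * 2 ^ u j) g) (ha : Bd α f)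
    (hb : Bd β g) : Bd ((2 * c + 1) ^ d * 2 ^ l * (1 / 2) ^ rho t u * (α * β)) (f * g) := by
  refine (conv hf hg ha hb).mono (mul_le_mul_of_nonneg_right ?_
    (mul_nonneg ((norm_nonneg _).trans (ha 0)) ((norm_nonneg _).trans (hb 0))))
  rw [one_div, inv_pow, ← div_eq_mul_inv, le_div_iff₀ (by positivity)]
  have h1 : ∏ j, (2 * min (c * 2 ^ t j) (c * 2 ^ u j) + 1) ≤
      ∏ j, (2 * c + 1) * 2 ^ min (t j) (u j) := prod_le_prod' fun j _ => by
    have := Nat.one_le_two_pow (n := min (t j) (u j))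
    have h : min (c * 2 ^ t j) (c * 2 ^ u j) ≤ c * 2 ^ min (t j) (u j) := by
      rcases le_total (t j) (u j) with h | h
      · rw [min_eq_left h]; exact min_le_left _ _
      · rw [min_eq_right h]; exact min_le_right _ _
    nlinarith
  rw [prod_mul_distrib, prod_const, card_univ, Fintype.card_fin, prod_pow_eq_pow_sum] at h1
  have h2 := Nat.pow_le_pow_right two_pos (rho_le ht hu)
  rw [pow_add] at h2
  exact_mod_cast (Nat.mul_le_mul_right _ h1).trans (by rw [mul_assoc]; gcongr)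

/-- error majorant -/
noncomputable def Phi (t : Fin d → ℕ) (r : ℕ) (k : Fin d → ℤ) : ℝ :=
  if ∀ j, (k j).natAbs ≤ 6 * (2 * r + 1) ^ d * 2 ^ (t j + r) then
    12 * 5 ^ d * (3 / 4) ^ r * (2 * r + 1) ^ d else 0

lemma Phi_nonneg (t : Fin d → ℕ) (r : ℕ) (k : Fin d → ℤ) : 0 ≤ Phi t r k := by
  unfold Phi; split_ifs <;> positivity

lemma le_Phi {t : Fin d → ℕ} {r : ℕ} {f : R d} {c : ℝ}
    (h1 : Box (fun j => 6 * (2 * r + 1) ^ d * 2 ^ (t j + r)) f)
    (h2 : Bd (c * (12 * 5 ^ d * (3 / 4) ^ r * (2 * r + 1) ^ d)) f) (k : Fin d → ℤ) :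
    ‖f.coeff k‖ ≤ c * Phi t r k := by
  unfold Phi
  split_ifs with h
  · exact h2 k
  · rw [not_not.1 fun h' => h (h1 k h'), norm_zero, mul_zero]

theorem level {l : ℕ} {δ : ℝ} (h0 : 0 < δ) (hδ : 3 ^ d * δ ≤ 1) {U : Finset (Fin d → ℕ)}
    (hU : ∀ t ∈ U, ∑ j, t j = l) {z : (Fin d → ℕ) → R d} (z1 : ∀ t, Box (fun j => 2 ^ t j) (z t))
    (z2 : ∀ t, Bd (δ / 2 ^ l) (z t)) (z3 : ∀ t x, (ev x (z t)).im = 0) :
    ∃ P : R d, (∀ x, ‖ev x P‖ ≤ 1) ∧ ∀ k, ‖(P - 1 - I • ∑ t ∈ U, z t).coeff k‖ ≤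
      δ * (δ / 2 ^ l) * (2 * ∑ t ∈ U, ∑ u ∈ U, Phi t (rho t u) k) := by
  set a := δ / 2 ^ l with ha
  have a0 : 0 < a := by positivity
  have e1 : 2 ^ l * a = δ := by rw [ha]; field_simp
  have z1' : ∀ t, Box (fun j => 1 * 2 ^ t j) (z t) := fun t => by simpa using z1 t
  have s1 : ∀ t, Box (fun j => 2 * 2 ^ t j) (z t * z t) := fun t =>
    ((z1 t).mul (z1 t)).mono fun j => by omega
  have s2 : ∀ t ∈ U, Bd (3 ^ d * δ * a) (z t * z t) := fun t ht =>
    (cv2 (hU t ht) (hU t ht) (z1' t) (z1' t) (z2 t) (z2 t)).mono (le_of_eq (by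
      rw [rho_self, ← e1]; norm_num; ring))
  have s2' : ∀ t ∈ U, Bd a (z t * z t) := fun t ht => (s2 t ht).mono (by nlinarith)
  obtain ⟨ζ, hζ⟩ : ∃ ζ : _ → _ → ℝ, ∀ t x, ev x (z t) = ζ t x :=
    ⟨fun t x => (ev x (z t)).re, fun t x => Complex.ext rfl (z3 t x)⟩
  have cζ : ∀ t, Continuous (ζ t) := fun t => by
    simpa [hζ] using Complex.continuous_re.comp' (cont_ev (z t))
  have s3 : ∀ t ∈ U, ∀ x, |ζ t x| ≤ 1 := fun t ht x => by
    have h1 := sup_le (z1 t) (z2 t) x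
    rw [hζ, norm_real, Real.norm_eq_abs] at h1
    have h2 : ∏ j, (2 * 2 ^ t j + 1) ≤ ∏ j, 3 * 2 ^ t j := prod_le_prod' fun j _ => by
      have := Nat.one_le_two_pow (n := t j); omega
    rw [prod_mul_distrib, prod_const, card_univ, Fintype.card_fin, prod_pow_eq_pow_sum, hU t ht] at h2
    have h3 : ((∏ j, (2 * 2 ^ t j + 1) : ℕ) : ℝ) ≤ 3 ^ d * 2 ^ l := by exact_mod_cast h2
    exact h1.trans ((mul_le_mul_of_nonneg_right h3 a0.le).trans (by rwa [mul_assoc, e1]))
  let y : (Fin d → ℕ) → R d := fun t => I • z t + (-1 : ℂ) • (z t * z t)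
  have y0 : ∀ t x, ev x (y t) = I * ζ t x - ζ t x ^ 2 := fun t x => by simp [y, hζ]; ring
  have y1 : ∀ t, Box (fun j => 2 * 2 ^ t j) (y t) := fun t =>
    (((z1 t).mono fun j => by omega).smul _).add ((s1 t).smul _)
  have y2 : ∀ t ∈ U, Bd (2 * a) (y t) := fun t ht k => by
    have := norm_add_le (I * (z t).coeff k) (-1 * (z t * z t).coeff k)
    simp only [norm_mul, norm_I, norm_neg, norm_one, one_mul] at this
    exact this.trans (by linarith [z2 t k, s2' t ht k])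
  have y3 : ∀ t ∈ U, ∀ x, ‖1 + ev x (y t)‖ ≤ 1 := fun t ht x => by
    have := sq_le_one_iff_abs_le_one _ |>.2 (s3 t ht x)
    rw [y0, ← sq_le_one_iff₀ (norm_nonneg _), Complex.sq_norm, normSq_apply]
    simp [← ofReal_pow]; nlinarith [sq_nonneg (ζ t x)]
  have y4 : ∀ t ∈ U, ∀ x, ‖ev x (y t)‖ ≤ 2 * |ζ t x| := fun t ht x => by
    rw [y0]
    refine (norm_sub_le _ _).trans ?_
    simp only [norm_mul, norm_I, one_mul, norm_pow, norm_real, Real.norm_eq_abs]
    nlinarith [s3 t ht x, abs_nonneg (ζ t x)]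
  have p5 : (3 : ℝ) ^ d ≤ 5 ^ d := pow_le_pow_left₀ (by norm_num) (by norm_num) d
  have tri : ∀ t ∈ U, ∀ u ∈ U, ∀ w ∈ U, av (fun x => 8 * (|ζ t x * ζ u x| * |ζ w x|)) ≤
      δ * a * (8 * 5 ^ d * (3 / 4) ^ rho t u) := by
    intro t ht u hu w hw
    set γ : ℝ := (3 / 4) ^ rho t u with hγ
    have γ0 : 0 < γ := by positivity
    have h1 := (av_le (z w * z w) (F := fun x => ζ w x ^ 2) fun x => by simp [hζ, sq]).trans
      (s2 w hw 0)
    have h2 := (av_le (z t * z t * (z u * z u)) (F := fun x => (ζ t x * ζ u x) ^ 2) fun x => by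
      simp [hζ]; ring).trans (cv2 (hU t ht) (hU u hu) (s1 t) (s1 u) (s2' t ht) (s2' u hu) 0)
    have h3 : (1 / 2 : ℝ) ^ rho t u ≤ γ * γ := by
      rw [hγ, ← mul_pow]; exact pow_le_pow_left₀ (by norm_num) (by norm_num) _
    refine (av_mono (G := fun x => 4 * γ * ζ w x ^ 2 + 4 / γ * (ζ t x * ζ u x) ^ 2) (by fun_prop)
      (by fun_prop) fun x => ?_).trans ?_
    · rw [← sq_abs (ζ w x), ← sq_abs (ζ t x * ζ u x), ← sub_nonneg]
      generalize |ζ w x| = p
      generalize |ζ t x * ζ u x| = q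
      exact le_of_le_of_eq (by positivity : 0 ≤ 4 / γ * (γ * p - q) ^ 2) (by field_simp; ring)
    · rw [av_lin (by fun_prop) (by fun_prop)]
      have h4 : 4 / γ * av (fun x => (ζ t x * ζ u x) ^ 2) ≤ 4 / γ * (5 ^ d * (γ * γ) * (δ * a)) := by
        refine mul_le_mul_of_nonneg_left (h2.trans ?_) (by positivity)
        rw [← e1]; norm_num
        calc _ = 5 ^ d * (1 / 2) ^ rho t u * (2 ^ l * a * a) := by ring
          _ ≤ _ := by gcongr
      rw [show 4 / γ * (5 ^ d * (γ * γ) * (δ * a)) = 4 * γ * (5 ^ d * δ * a) by field_simp] at h4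
      have h5 : 4 * γ * av (fun x => ζ w x ^ 2) ≤ 4 * γ * (5 ^ d * δ * a) :=
        mul_le_mul_of_nonneg_left (h1.trans (by gcongr)) (by positivity)
      linarith
  have E : ∀ t ∈ U, ∀ u ∈ U, ∀ V : Finset (Fin d → ℕ), (∀ w ∈ V, w ∈ U ∧ rho t w ≤ rho t u) → ∀ k,
      ‖(y t * (y u * ∏ w ∈ V, (1 + y w))).coeff k‖ ≤ δ * a * Phi t (rho t u) k := by
    intro t ht u hu V hV
    have hc := card_ball fun w hw => (hV w hw).2
    have hN : 1 ≤ (2 * rho t u + 1) ^ d := Nat.one_le_pow _ _ (by omega)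
    have hb : ∀ w, rho t w ≤ rho t u → Box (fun j => 2 * 2 ^ (t j + rho t u)) (y w) := fun w hw =>
      (y1 w).mono fun j => by have := le_rho t w j; gcongr <;> omega
    refine le_Phi (((hb t (by simp [rho_self])).mul ((hb u le_rfl).mul (Box.prod V fun w hw =>
      (Box.one _).add (hb w (hV w hw).2)))).mono fun j => ?_) fun k => ?_
    · nlinarith [Nat.mul_le_mul_right (2 ^ (t j + rho t u)) hc,
        Nat.mul_le_mul_right (2 ^ (t j + rho t u)) hN]
    rw [show y t * (y u * ∏ w ∈ V, (1 + y w)) = y t * y u + y t * y u * (∏ w ∈ V, (1 + y w) - 1) by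
      ring, coeff_add, Finsupp.add_apply]
    have h1 := cv2 (hU t ht) (hU u hu) (y1 t) (y1 u) (y2 t ht) (y2 u hu) k
    have h2 := (coeff_le (y t * y u * (∏ w ∈ V, (1 + y w) - 1)) k).trans (av_mono
      (G := fun x => ∑ w ∈ V, 8 * (|ζ t x * ζ u x| * |ζ w x|)) (cont_ev _).norm (by fun_prop)
      fun x => by
        simp only [map_mul, map_sub, map_prod, map_add, map_one, norm_mul]
        refine (mul_le_mul (mul_le_mul (y4 t ht x) (y4 u hu x) (norm_nonneg _) (by positivity))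
          ((prod_sub V fun w hw => y3 w (hV w hw).1 x).trans (sum_le_sum fun w hw =>
            y4 w (hV w hw).1 x)) (norm_nonneg _) (by positivity)).trans_eq ?_
        rw [mul_sum]
        exact sum_congr rfl fun w _ => by rw [abs_mul]; ring)
    rw [av_sum _ fun w => by fun_prop] at h2
    have h3 := h2.trans (sum_le_card_nsmul _ _ _ fun w hw => tri t ht u hu w (hV w hw).1)
    have h4 : (V.card : ℝ) ≤ (2 * rho t u + 1) ^ d := by exact_mod_cast hc
    have h5 : (1 : ℝ) ≤ (2 * rho t u + 1) ^ d := by exact_mod_cast hN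
    have h6 : (1 / 2 : ℝ) ^ rho t u ≤ (3 / 4) ^ rho t u :=
      pow_le_pow_left₀ (by norm_num) (by norm_num) _
    refine (norm_add_le _ _).trans ((add_le_add h1 h3).trans ?_)
    rw [nsmul_eq_mul]
    calc _ = δ * a * (4 * 5 ^ d * (1 / 2) ^ rho t u * 1) +
          δ * a * (8 * 5 ^ d * (3 / 4) ^ rho t u * V.card) := by rw [← e1]; norm_num; ring
      _ ≤ δ * a * (4 * 5 ^ d * (3 / 4) ^ rho t u * (2 * rho t u + 1) ^ d) +
          δ * a * (8 * 5 ^ d * (3 / 4) ^ rho t u * (2 * rho t u + 1) ^ d) := by gcongr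
      _ = _ := by ring
  obtain ⟨V, hV, e2⟩ := expand y (fun _ => 0) U
  choose W hW e3 using fun t => expand y (rho t) (V t)
  refine ⟨∏ t ∈ U, (1 + y t), fun x => ?_, fun k => ?_⟩
  · simp only [map_prod, map_add, map_one, norm_prod]
    exact prod_le_one (fun _ _ => norm_nonneg _) fun t ht => y3 t ht x
  have e4 : ∏ t ∈ U, (1 + y t) - 1 - I • ∑ t ∈ U, z t = ∑ t ∈ U, ((-1 : ℂ) • (z t * z t) +
      ∑ u ∈ V t, y t * (y u * ∏ w ∈ W t u, (1 + y w))) := by
    rw [e2, add_sub_cancel_left, smul_sum, ← sum_sub_distrib]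
    exact sum_congr rfl fun t _ => by rw [e3, mul_add, mul_sum, mul_one]; simp only [y]; abel
  rw [e4, coeff_sum, Finsupp.finset_sum_apply, mul_sum, mul_sum]
  refine norm_sum_le_of_le _ fun t ht => ?_
  rw [coeff_add, Finsupp.add_apply, coeff_sum, Finsupp.finset_sum_apply, two_mul, mul_add]
  refine norm_add_le_of_le ((le_Phi (t := t) (r := 0) (c := δ * a) (((s1 t).smul _).mono fun j => by
    simp) (fun k => ?_) k).trans ?_) ((norm_sum_le_of_le _ fun u hu => E t ht u (hV t ht u hu).1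
      _ (fun w hw => ⟨(hV t ht w (hW t u hu w hw).1).1, (hW t u hu w hw).2⟩) k).trans ?_)
  · have := s2 t ht k
    have h1 : 0 < δ * a := by positivity
    simp; nlinarith [pow_pos (by norm_num : (0 : ℝ) < 5) d]
  · refine mul_le_mul_of_nonneg_left ?_ (by positivity)
    simpa [rho_self] using single_le_sum (f := fun u => Phi t (rho t u) k)
      (fun _ _ => Phi_nonneg _ _ _) ht
  · rw [← mul_sum]
    exact mul_le_mul_of_nonneg_left (sum_le_sum_of_subset_of_nonneg (fun u hu => (hV t ht u hu).1)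
      fun _ _ _ => Phi_nonneg _ _ _) (by positivity)

end H53.Hc
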