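import Pool.Agent.H53.HcB

/-! Summation over the levels of the hyperbolic cross. -/

namespace H53.Hc

open AddMonoidAlgebra Finset Complex Filter Topology

variable {d : ℕ}

/-- dyadic block of a frequency -/
def sz (k : Fin d → ℤ) : Fin d → ℕ := fun j => (k j).natAbs.size

/-- blocks of level `l` -/
def U (d n l : ℕ) : Finset (Fin d → ℕ) :=
  (Fintype.piFinset fun _ => range (n + 1)).filter fun t => ∑ j, t j = l

lemma geo {p : ℝ} (h0 : 0 < p) (h1 : p < 1) (s h n : ℕ) :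
    ∑ t ∈ range n, (if s ≤ t + h then p ^ t else 0) ≤ p ^ s * (p⁻¹ ^ h / (1 - p)) := by
  rw [← sum_filter, show (range n).filter (s ≤ · + h) = Ico (s - h) n by ext; simp; omega]
  refine (geom_sum_Ico_le_of_lt_one h0.le h1).trans ?_
  rw [← mul_div_assoc, inv_pow, ← div_eq_mul_inv]
  refine div_le_div_of_nonneg_right ?_ (by linarith)
  rw [le_div_iff₀ (by positivity), ← pow_add]
  exact pow_le_pow_of_le_one h0.le h1.le (by omega)

lemma sumPhi (d : ℕ) : ∃ p C : ℝ, 4 / 5 ≤ p ∧ p < 1 ∧ 0 < C ∧ ∀ n (k : Fin d → ℤ),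
    ∑ l ∈ range (n + 1), p ^ l * ∑ t ∈ U d n l, ∑ u ∈ U d n l, Phi t (rho t u) k ≤
      C * p ^ ∑ j, sz k j := by
  have h : ∀ᶠ p : ℝ in 𝓝 1, 4 / 5 < p ^ ((d + 3) * d + 1) :=
    (continuous_pow _).continuousAt.eventually (lt_mem_nhds (by norm_num))
  obtain ⟨p, h1, h0, h2⟩ := ((h.filter_mono (nhdsWithin_le_nhds (s := Set.Iio 1))).and
    (Ioo_mem_nhdsLT one_pos)).exists
  have h3 : 4 / 5 ≤ p := h1.le.trans (pow_le_of_le_one h0.le h2.le (by omega))
  have h4 : p⁻¹ ^ ((d + 3) * d) ≤ 5 / 4 := by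
    rw [inv_pow, inv_le_comm₀ (by positivity) (by norm_num)]
    exact le_trans (by norm_num) (h1.le.trans (pow_le_pow_of_le_one h0.le h2.le (by omega)))
  have hs : Summable fun r : ℕ => (2 * r + 1 : ℝ) ^ (2 * d) * (15 / 16) ^ r := by
    refine .of_nonneg_of_le (fun _ => by positivity) (fun r => ?_) (((summable_nat_add_iff 1).2
      (summable_pow_mul_geometric_of_norm_lt_one (2 * d) (r := (15 / 16 : ℝ))
        (by norm_num))).mul_left (2 ^ (2 * d) * (16 / 15)))
    calc _ ≤ (2 * (r + 1) : ℝ) ^ (2 * d) * (15 / 16) ^ r := by gcongr; linarith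
      _ = _ := by rw [mul_pow, pow_succ]; push_cast; ring
  have h5 : 0 < 1 - p := by linarith
  refine ⟨p, 15 * 5 ^ d / (1 - p) ^ d * ∑' r : ℕ, (2 * r + 1 : ℝ) ^ (2 * d) * (15 / 16) ^ r + 1,
    h3, h2, by positivity, fun n k => ?_⟩
  have A : ∀ l ∈ range (n + 1), ∀ t ∈ U d n l, ∑ u ∈ U d n l, Phi t (rho t u) k ≤
      ∑ r ∈ range (n + 1), (2 * r + 1) ^ d * Phi t r k := fun l hl t ht => by
    rw [← sum_fiberwise_of_maps_to (g := rho t) (t := range (n + 1)) fun u hu => by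
      have := rho_le (mem_filter.1 ht).2 (mem_filter.1 hu).2
      rw [mem_range] at hl ⊢; omega]
    refine sum_le_sum fun r _ => ?_
    rw [sum_congr rfl fun u hu => by rw [(mem_filter.1 hu).2], sum_const, nsmul_eq_mul]
    exact mul_le_mul_of_nonneg_right (by
      exact_mod_cast card_ball (t := t) (r := r) fun u hu => le_of_eq (mem_filter.1 hu).2)
      (Phi_nonneg _ _ _)
  have B : ∀ r, ∑ t ∈ Fintype.piFinset fun _ : Fin d => range (n + 1), p ^ (∑ j, t j) * Phi t r k ≤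
      15 * 5 ^ d / (1 - p) ^ d * ((2 * r + 1) ^ d * (15 / 16) ^ r) * p ^ ∑ j, sz k j := fun r => by
    calc _ ≤ ∑ t ∈ Fintype.piFinset fun _ : Fin d => range (n + 1),
          12 * 5 ^ d * (3 / 4) ^ r * (2 * r + 1) ^ d *
            ∏ j, (if sz k j ≤ t j + (d + 3) * (r + 1) then p ^ t j else 0) := by
          refine sum_le_sum fun t _ => ?_
          unfold Phi
          split_ifs with h
          · rw [mul_comm, ← prod_pow_eq_pow_sum, prod_congr rfl fun j _ => (if_pos ?_).symm]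
            refine Nat.size_le.2 ((h j).trans_lt ?_)
            have h6 : (2 * r + 1) ^ d ≤ (2 ^ (r + 1)) ^ d := Nat.pow_le_pow_left (by
              have := r.lt_two_pow_self; rw [pow_succ]; omega) d
            calc _ < 2 ^ 3 * (2 ^ (r + 1)) ^ d * 2 ^ (t j + r) := by
                  have : 0 < (2 * r + 1) ^ d := by positivity
                  exact Nat.mul_lt_mul_of_pos_right (by omega) (by positivity)
              _ ≤ _ := by
                  rw [← pow_mul, ← pow_add, ← pow_add]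
                  exact Nat.pow_le_pow_right two_pos (by nlinarith)
          · rw [mul_zero]
            exact mul_nonneg (by positivity) (prod_nonneg fun _ _ => by split_ifs <;> positivity)
      _ ≤ 12 * 5 ^ d * (3 / 4) ^ r * (2 * r + 1) ^ d *
            ∏ j, p ^ sz k j * (p⁻¹ ^ ((d + 3) * (r + 1)) / (1 - p)) := by
          rw [← mul_sum, ← prod_univ_sum (fun _ : Fin d => range (n + 1))
            fun j i => if sz k j ≤ i + (d + 3) * (r + 1) then p ^ i else 0]
          exact mul_le_mul_of_nonneg_left (prod_le_prod (fun _ _ => sum_nonneg fun _ _ => by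
            split_ifs <;> positivity) fun j _ => geo h0 h2 _ _ _) (by positivity)
      _ = 12 * 5 ^ d * (3 / 4) ^ r * (2 * r + 1) ^ d * p ^ (∑ j, sz k j) *
            (p⁻¹ ^ ((d + 3) * d)) ^ (r + 1) / (1 - p) ^ d := by
          rw [prod_mul_distrib, prod_pow_eq_pow_sum, prod_const, card_univ, Fintype.card_fin,
            div_pow _ (1 - p), ← pow_mul, ← pow_mul, show (d + 3) * (r + 1) * d = (d + 3) * d * (r + 1) by ring]
          ring
      _ ≤ 12 * 5 ^ d * (3 / 4) ^ r * (2 * r + 1) ^ d * p ^ (∑ j, sz k j) *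
            (5 / 4) ^ (r + 1) / (1 - p) ^ d := by gcongr
      _ = _ := by rw [show (15 / 16 : ℝ) = 3 / 4 * (5 / 4) by norm_num, mul_pow]; ring
  calc _ ≤ ∑ l ∈ range (n + 1), ∑ t ∈ U d n l, p ^ (∑ j, t j) *
        ∑ r ∈ range (n + 1), (2 * r + 1) ^ d * Phi t r k := by
        refine sum_le_sum fun l hl => ?_
        rw [mul_sum]
        exact sum_le_sum fun t ht => by
          rw [(mem_filter.1 ht).2]; exact mul_le_mul_of_nonneg_left (A l hl t ht) (by positivity)
    _ ≤ ∑ t ∈ Fintype.piFinset fun _ : Fin d => range (n + 1), p ^ (∑ j, t j) *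
        ∑ r ∈ range (n + 1), (2 * r + 1) ^ d * Phi t r k := by
        unfold U
        rw [sum_fiberwise_eq_sum_filter]
        exact sum_le_sum_of_subset_of_nonneg (filter_subset _ _) fun t _ _ => mul_nonneg
          (by positivity) (sum_nonneg fun r _ => mul_nonneg (by positivity) (Phi_nonneg _ _ _))
    _ = ∑ r ∈ range (n + 1), (2 * r + 1 : ℝ) ^ d * ∑ t ∈ Fintype.piFinset fun _ : Fin d =>
        range (n + 1), p ^ (∑ j, t j) * Phi t r k := by
        simp only [mul_sum]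
        rw [sum_comm]
        simp only [mul_left_comm]
    _ ≤ ∑ r ∈ range (n + 1), 15 * 5 ^ d / (1 - p) ^ d * ((2 * r + 1) ^ (2 * d) * (15 / 16) ^ r) *
        p ^ ∑ j, sz k j := sum_le_sum fun r _ =>
        (mul_le_mul_of_nonneg_left (B r) (by positivity)).trans_eq (by ring)
    _ ≤ _ := by
        rw [← sum_mul, ← mul_sum]
        gcongr
        refine le_add_of_le_of_nonneg ?_ zero_le_one
        gcongr
        exact hs.sum_le_tsum _ fun _ _ => by positivity

lemma coeff_ss (s : Finset (Fin d → ℤ)) (a : (Fin d → ℤ) → ℂ) (k : Fin d → ℤ) :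
    (∑ l ∈ s, single l (a l) : R d).coeff k = if k ∈ s then a k else 0 := by
  simp [Finsupp.single_apply]

theorem herm (d : ℕ) : ∃ p C : ℝ, 4 / 5 ≤ p ∧ 0 < C ∧ p < 1 ∧ ∀ n (Γ : Finset (Fin d → ℤ)),
    (∀ k ∈ Γ, -k ∈ Γ) → (∀ k ∈ Γ, ∑ j, sz k j ≤ n) → ∀ σ : (Fin d → ℤ) → ℂ, (∀ k, ‖σ k‖ ≤ 1) →
    (∀ k, σ (-k) = starRingEnd ℂ (σ k)) → ∃ G : R d, (∀ x, ‖ev x G‖ ≤ C * (2 * p) ^ n) ∧
      ∀ k ∈ Γ, ‖G.coeff k - (p ^ ∑ j, sz k j : ℝ) * σ k‖ ≤ (p ^ ∑ j, sz k j) / 4 := by
  obtain ⟨p, C, h1, h2, h3, H⟩ := sumPhi d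
  obtain ⟨δ, h0, h4, h5⟩ : ∃ δ : ℝ, 0 < δ ∧ 3 ^ d * δ ≤ 1 ∧ 8 * C * δ ≤ 1 :=
    ⟨min (3 ^ d)⁻¹ (8 * C)⁻¹, by positivity, (le_inv_mul_iff₀ (by positivity)).1 (by simp),
      (le_inv_mul_iff₀ (by positivity)).1 (by simp)⟩
  refine ⟨p, 8 / δ, h1, by positivity, h2, fun n Γ hΓ hn σ s1 s2 => ?_⟩
  let z : ℕ → (Fin d → ℕ) → R d := fun l t =>
    ∑ k ∈ Γ.filter (sz · = t), single k ((δ / 2 ^ l : ℝ) * σ k)
  have hz : ∀ l t k, (z l t).coeff k = _ := fun l t k => coeff_ss _ _ k
  choose P P1 P2 using fun l => level (U := U d n l) (z := z l) h0 h4 (fun t ht => (mem_filter.1 ht).2)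
    (fun t k hk j => by
      rw [hz] at hk
      rw [← (mem_filter.1 (not_not.1 fun h => hk (if_neg h))).2]
      exact (Nat.lt_size_self _).le)
    (fun t k => by
      rw [hz]
      split_ifs
      · rw [norm_mul, norm_real, Real.norm_of_nonneg (by positivity)]
        exact mul_le_of_le_one_right (by positivity) (s1 k)
      · rw [norm_zero]; positivity)
    fun t x => by
      rw [← conj_eq_iff_im]
      simp only [z, map_sum, ev_single, map_mul, conj_ofReal, conj_ex, ← s2]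
      exact sum_equiv (Equiv.neg _) (fun k => by
        simp only [mem_filter, Equiv.neg_apply, show sz (-k) = sz k by ext; simp [sz]]
        exact and_congr_left' ⟨hΓ k, fun h => by simpa using hΓ _ h⟩) fun _ _ => rfl
  have p0 : 0 < p := by linarith
  refine ⟨∑ l ∈ range (n + 1), (-I * (p ^ l * (2 ^ l / δ) : ℝ)) • (P l - 1), fun x => ?_,
    fun k hk => ?_⟩
  · rw [map_sum]
    refine (norm_sum_le_of_le (n := fun l => 2 / δ * (2 * p) ^ l) _ fun l _ => ?_).trans ?_
    · rw [map_smul, norm_smul, norm_mul, norm_neg, norm_I, one_mul, norm_real,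
        Real.norm_of_nonneg (by positivity), map_sub, map_one]
      refine (mul_le_mul_of_nonneg_left ((norm_sub_le _ _).trans (add_le_add (P1 l x) norm_one.le))
        (by positivity)).trans_eq (by ring)
    · rw [← mul_sum, show 8 / δ * (2 * p) ^ n = 2 / δ * (4 * (2 * p) ^ n) by ring]
      gcongr
      clear * - h1 p0
      induction n with
      | zero => simp
      | succ n ih => rw [sum_range_succ, pow_succ]; nlinarith [pow_pos (mul_pos two_pos p0) n]
  have e1 : (p ^ ∑ j, sz k j : ℝ) * σ k = ∑ l ∈ range (n + 1),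
      (-I * (p ^ l * (2 ^ l / δ) : ℝ)) * (I • ∑ t ∈ U d n l, z l t).coeff k := by
    have h6 := hn k hk
    rw [sum_eq_single_of_mem (∑ j, sz k j) (mem_range.2 (by omega)) fun l _ hl => ?_]
    · have h7 : sz k ∈ U d n (∑ j, sz k j) :=
        mem_filter.2 ⟨Fintype.mem_piFinset.2 fun j => mem_range.2 (by
          have := single_le_sum (f := sz k) (fun _ _ => Nat.zero_le _) (mem_univ j); omega), rfl⟩
      rw [coeff_smul_apply, coeff_sum, Finsupp.finset_sum_apply, sum_eq_single_of_mem (sz k) h7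
        fun t _ ht => ?_, hz, if_pos (by simp [hk]), smul_eq_mul]
      swap
      · rw [hz, if_neg fun h => ht (mem_filter.1 h).2.symm]
      have : (δ : ℂ) ≠ 0 := by exact_mod_cast h0.ne'
      push_cast; field_simp; simp
    · rw [coeff_smul_apply, coeff_sum, Finsupp.finset_sum_apply, sum_eq_zero fun t ht => by
        rw [hz, if_neg fun h => hl (by rw [← (mem_filter.1 ht).2, (mem_filter.1 h).2])]]
      simp
  rw [e1, coeff_sum, Finsupp.finset_sum_apply, ← sum_sub_distrib]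
  refine (norm_sum_le_of_le (n := fun l => 2 * δ * (p ^ l *
    ∑ t ∈ U d n l, ∑ u ∈ U d n l, Phi t (rho t u) k)) _ fun l _ => ?_).trans ?_
  · rw [coeff_smul_apply, smul_eq_mul, ← mul_sub, norm_mul, norm_mul, norm_neg, norm_I, one_mul,
      norm_real, Real.norm_of_nonneg (by positivity), ← Finsupp.sub_apply, ← coeff_sub]
    exact (mul_le_mul_of_nonneg_left (P2 l k) (by positivity)).trans_eq (by field_simp)
  · rw [← mul_sum]
    nlinarith [mul_le_mul_of_nonneg_left (H n k) h0.le, pow_pos p0 (∑ j, sz k j)]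

theorem upper (d : ℕ) : ∃ C : ℝ, 0 < C ∧ ∀ n (Γ : Finset (Fin d → ℤ)), (∀ k ∈ Γ, -k ∈ Γ) →
    (∀ k ∈ Γ, ∑ j, sz k j ≤ n) → ∀ a : (Fin d → ℤ) → ℂ,
    ∑ k ∈ Γ, ‖a k‖ ≤ C * 2 ^ n * av fun x => ‖∑ k ∈ Γ, a k * ex k x‖ := by
  obtain ⟨p, C, h1, h2, h3, H⟩ := herm d
  refine ⟨4 * C, by positivity, fun n Γ hΓ hn a => ?_⟩
  have p0 : 0 < p := by linarith
  obtain ⟨τ, t1, t2⟩ : ∃ τ : (Fin d → ℤ) → ℂ, (∀ k, ‖τ k‖ ≤ 1) ∧ ∀ k, a k * τ (-k) = ‖a k‖ := by
    choose c h4 h5 using fun k => Complex.exists_norm_eq_mul_self (a k)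
    exact ⟨fun k => c (-k), fun k => (h4 _).le, fun k => by simp only [neg_neg]; rw [mul_comm, h5]⟩
  obtain ⟨G, G1, G2⟩ := H n Γ hΓ hn (fun k => (τ k + starRingEnd ℂ (τ (-k))) / 2) (fun k => by
    rw [norm_div, Complex.norm_ofNat, div_le_one two_pos]
    exact (norm_add_le _ _).trans (by rw [norm_conj]; linarith [t1 k, t1 (-k)])) fun k => by
      simp [add_comm, map_ofNat]
  obtain ⟨G', G1', G2'⟩ := H n Γ hΓ hn (fun k => (τ k - starRingEnd ℂ (τ (-k))) / 2 * -I) (fun k => by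
    rw [norm_mul, norm_neg, norm_I, mul_one, norm_div, Complex.norm_ofNat, div_le_one two_pos]
    exact (norm_sub_le _ _).trans (by rw [norm_conj]; linarith [t1 k, t1 (-k)])) fun k => by
      simp [map_ofNat]; ring
  let T : R d := ∑ k ∈ Γ, single k (a k)
  have hT : ∀ x, ev x T = ∑ k ∈ Γ, a k * ex k x := fun x => by simp only [T, map_sum, ev_single]
  simp only [← hT]
  have h4 := (coeff0_le (T * (G + I • G'))).trans (av_mono
    (G := fun x => 2 * C * (2 * p) ^ n * ‖ev x T‖ + 0 * ‖ev x T‖) (cont_ev _).norm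
    (by have := cont_ev T; fun_prop) fun x => by
      rw [map_mul, norm_mul, zero_mul, add_zero, mul_comm, map_add, map_smul]
      gcongr
      refine (norm_add_le _ _).trans ?_
      rw [norm_smul, norm_I]; linarith [G1 x, G1' x])
  rw [av_lin (cont_ev T).norm (cont_ev T).norm, zero_mul, add_zero] at h4
  have h5 : (T * (G + I • G')).coeff 0 = ∑ k ∈ Γ, a k * (G + I • G').coeff (-k) := by
    simp only [T, sum_mul, coeff_sum, Finsupp.finset_sum_apply, coeff_single_mul_apply, add_zero]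
  have h6 : ∑ k ∈ Γ, p ^ n / 2 * ‖a k‖ ≤ ((T * (G + I • G')).coeff 0).re := by
    rw [h5, re_sum]
    refine sum_le_sum fun k hk => ?_
    have h7 := G2 _ (hΓ k hk)
    have h8 := G2' _ (hΓ k hk)
    have h9 : p ^ n ≤ p ^ ∑ j, sz (-k) j := pow_le_pow_of_le_one p0.le h3.le (hn _ (hΓ k hk))
    set w := p ^ ∑ j, sz (-k) j
    have h10 : ‖a k * (G + I • G').coeff (-k) - (w * ‖a k‖ : ℝ)‖ ≤ ‖a k‖ * (w / 4 + w / 4) := by
      rw [ofReal_mul, ← t2, show a k * (G + I • G').coeff (-k) - w * (a k * τ (-k)) = a k *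
        ((G.coeff (-k) - w * ((τ (-k) + starRingEnd ℂ (τ (- -k))) / 2)) + I * (G'.coeff (-k) -
          w * ((τ (-k) - starRingEnd ℂ (τ (- -k))) / 2 * -I))) by
        simp only [coeff_add, Finsupp.add_apply, coeff_smul_apply, smul_eq_mul]
        linear_combination (-(a k * w * (τ (-k) - starRingEnd ℂ (τ (- -k))) / 2)) * I_mul_I,
        norm_mul]
      gcongr
      exact norm_add_le_of_le h7 (by rwa [norm_mul, norm_I, one_mul])
    have h11 := (abs_le.1 ((abs_re_le_norm _).trans h10)).1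
    rw [sub_re, ofReal_re] at h11
    nlinarith [norm_nonneg (a k)]
  rw [← mul_sum] at h6
  refine le_of_mul_le_mul_left ((h6.trans (re_le_norm _)).trans (h4.trans_eq ?_))
    (by positivity : 0 < p ^ n / 2)
  rw [mul_pow]; ring

end H53.Hc
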