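import Mathlib

namespace Pool.Agent.H53.HitA

open Polynomial

lemma unit_lift {B F : Type} [CommRing B] [CommRing F] (f : B →+* F) (hf : Function.Surjective f)
    (hn : ∀ x, f x = 0 → IsNilpotent x) (a : B) (ha : IsUnit (f a)) : IsUnit a := by
  obtain ⟨b, hb⟩ := ha.exists_right_inv
  obtain ⟨c, rfl⟩ := hf b
  have h := (hn (a * c - 1) (by rw [map_sub, map_mul, hb, map_one, sub_self])).isUnit_add_one
  rw [sub_add_cancel] at h
  exact isUnit_of_mul_isUnit_left h

lemma coprime_lift {B F : Type} [CommRing B] [CommRing F] (f : B →+* F)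
    (hf : Function.Surjective f) (hn : ∀ x, f x = 0 → IsNilpotent x) (R S : B[X])
    (h : IsCoprime (R.map f) (S.map f)) : IsCoprime R S := by
  obtain ⟨a, b, e⟩ := h
  obtain ⟨a, rfl⟩ := map_surjective f hf a
  obtain ⟨b, rfl⟩ := map_surjective f hf b
  have hu : IsUnit (a * R + b * S) := by
    refine unit_lift (mapRingHom f) (map_surjective f hf) (fun x hx => ?_) _ (by simp [e])
    refine Polynomial.isNilpotent_iff.mpr fun i => hn _ ?_
    rw [← coeff_map, show x.map f = 0 from hx, coeff_zero]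
  obtain ⟨u, hu⟩ := hu.exists_left_inv
  exact ⟨u * a, u * b, by rw [← hu]; ring⟩

lemma hensel {B F : Type} [CommRing B] [CommRing F] (f : B →+* F) (hf : Function.Surjective f)
    (hn : IsNilpotent (RingHom.ker f)) {m k n : ℕ} (h : n = m + k) (G : MonicDegreeEq B n)
    (R0 : MonicDegreeEq F m) (S0 : MonicDegreeEq F k) (e : R0.1 * S0.1 = G.1.map f)
    (hc : IsCoprime R0.1 S0.1) :
    ∃ (R : MonicDegreeEq B m) (S : MonicDegreeEq B k), R.1 * S.1 = G.1 ∧ R.1.map f = R0.1 := by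
  letI := f.toAlgebra
  let φ := (UniversalCoprimeFactorizationRing.homEquiv F m k h G).symm ⟨(R0, S0), e, hc⟩
  let Φ := Algebra.FormallySmooth.liftOfSurjective φ (Algebra.ofId B F) hf hn
  have e1 : (Algebra.ofId B F).comp Φ = φ := Algebra.FormallySmooth.comp_liftOfSurjective _ _ _ _
  let q := UniversalCoprimeFactorizationRing.homEquiv B m k h G Φ
  refine ⟨q.1.1, q.1.2, by simpa using q.2.1, ?_⟩
  have e2 := UniversalCoprimeFactorizationRing.homEquiv_comp_fst B m k h G Φ (Algebra.ofId B F)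
  rw [e1, Equiv.apply_symm_apply] at e2
  exact (congrArg Subtype.val e2).symm

lemma family (p : ℕ) [Fact p.Prime] (k : ℕ) (hk : k ≠ 0) (P Q : ℤ[X]) (n : ℕ)
    (hP : P.natDegree ≤ n) (hQ : Q.natDegree ≤ n) (ha : ((P.coeff n : ℤ) : ZMod p) ≠ 0)
    (R0 S0 : (ZMod p)[X]) (hR0 : R0.Monic) (hS0 : S0.Monic) (hc : IsCoprime R0 S0)
    (hRS : C ((P.coeff n : ℤ) : ZMod p) * (R0 * S0) = P.map (Int.castRingHom _)) :
    ∃ h : ℕ → ℤ[X], ∀ (s : ℤ) (R S : ℤ[X]),
      R * S = C ((P + C (p * s) * Q).coeff n) * (P + C (p * s) * Q) →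
      S.map (Int.castRingHom _) = C ((P.coeff n : ℤ) : ZMod p) * S0 →
      R.natDegree ≤ R0.natDegree → R.coeff R0.natDegree = (P + C (p * s) * Q).coeff n →
      ∀ i, (p : ℤ) ^ k ∣ R.coeff i - (h i).eval (p * s) := by
  let φ : ℤ[X] →+* ZMod p := (Int.castRingHom _).comp (evalRingHom 0)
  let J := RingHom.ker φ
  let B := ℤ[X] ⧸ J ^ k
  let f : B →+* ZMod p := Ideal.Quotient.lift _ φ fun x hx => Ideal.pow_le_self hk hx
  have hf : Function.Surjective f := fun y => ⟨y.cast, by simp⟩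
  have hf0 : f (Ideal.Quotient.mk _ X) = 0 := show φ X = 0 by simp [φ]
  have hn : IsNilpotent (RingHom.ker f) := by
    refine ⟨k, ?_⟩
    rw [Ideal.ker_quotient_lift, ← Ideal.map_pow]
    exact Ideal.map_quotient_self _
  have hn' : ∀ x, f x = 0 → IsNilpotent x := fun x hx => by
    obtain ⟨N, hN⟩ := hn
    refine ⟨N, ?_⟩
    have := Ideal.pow_mem_pow (show x ∈ RingHom.ker f from hx) N
    rwa [hN] at this
  let F : B[X] := P.map (Int.castRingHom B) + C (Ideal.Quotient.mk _ X) * Q.map (Int.castRingHom B)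
  have hF : F.map f = P.map (Int.castRingHom _) := by
    simp only [F, Polynomial.map_add, Polynomial.map_mul, map_C, map_map]
    rw [hf0, C_0, zero_mul, add_zero, RingHom.ext_int (f.comp _) (Int.castRingHom _)]
  have hFn : f (F.coeff n) = ((P.coeff n : ℤ) : ZMod p) := by rw [← coeff_map, hF, coeff_map]; simp
  obtain ⟨b, hb⟩ := (unit_lift f hf hn' _ (hFn ▸ ha.isUnit)).exists_left_inv
  let G : MonicDegreeEq B n := ⟨C b * F, by rw [coeff_C_mul, hb], fun i hi => by
    simp [F, coeff_eq_zero_of_natDegree_lt (hP.trans_lt hi),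
      coeff_eq_zero_of_natDegree_lt (hQ.trans_lt hi)]⟩
  have hb' : f b * ((P.coeff n : ℤ) : ZMod p) = 1 := by rw [← hFn, ← map_mul, hb, map_one]
  have e : R0 * S0 = G.1.map f := by
    simp only [G, Polynomial.map_mul, map_C, hF]
    rw [← hRS, ← mul_assoc, ← C_mul, hb', C_1, one_mul]
  have hd : n = R0.natDegree + S0.natDegree := by
    rw [← hR0.natDegree_mul hS0, e]
    exact (G.map f).natDegree.symm
  obtain ⟨R1, S1, e1, e2⟩ := hensel f hf hn hd G (.mk R0 hR0 rfl) (.mk S0 hS0 rfl) e hc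
  choose h hh using fun i => Ideal.Quotient.mk_surjective (F.coeff n * R1.1.coeff i)
  refine ⟨h, fun s R S h1 h2 h3 h4 i => ?_⟩
  have hJ : J ^ k ≤ (Ideal.span {(p : ℤ) ^ k}).comap (evalRingHom (p * s)) := by
    rw [← Ideal.span_singleton_pow]
    refine (Ideal.pow_right_mono (fun x hx => ?_) k).trans (Ideal.le_comap_pow _ _)
    rw [Ideal.mem_comap, Ideal.mem_span_singleton]
    have h5 : (p : ℤ) ∣ x.eval 0 := (ZMod.intCast_zmod_eq_zero_iff_dvd _ _).mp hx
    have h6 := sub_dvd_eval_sub (p * s) 0 x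
    rw [sub_zero] at h6
    simpa using ((dvd_mul_right _ _).trans h6).add h5
  let ψ : B →+* ZMod (p ^ k) := Ideal.Quotient.lift _
    ((Int.castRingHom _).comp (evalRingHom (p * s))) fun x hx => by
      have := Ideal.mem_span_singleton.mp (Ideal.mem_comap.mp (hJ hx))
      exact (ZMod.intCast_zmod_eq_zero_iff_dvd _ _).mpr (by exact_mod_cast this)
  have hψ : ∀ x, ψ (Ideal.Quotient.mk _ x) = ((x.eval (p * s) : ℤ) : ZMod (p ^ k)) := fun _ => rfl
  let g : ZMod (p ^ k) →+* ZMod p := ZMod.castHom (dvd_pow_self p hk) _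
  have hg : g.comp ψ = f := by
    refine Ideal.Quotient.ringHom_ext (Polynomial.ringHom_ext' (RingHom.ext_int _ _) ?_)
    simp only [RingHom.comp_apply]
    rw [hψ, hf0]
    simp
  have hFs : F.map ψ = (P + C (p * s) * Q).map (Int.castRingHom _) := by
    simp only [F, Polynomial.map_add, Polynomial.map_mul, map_C, map_map]
    rw [hψ, RingHom.ext_int (ψ.comp (Int.castRingHom B)) (Int.castRingHom _)]
    simp
  have h7 : IsCoprime (R1.1.map ψ) (S.map (Int.castRingHom _)) := by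
    refine coprime_lift g (ZMod.castHom_surjective _) (fun x hx => ?_) _ _ ?_
    · obtain ⟨x, rfl⟩ := ZMod.intCast_surjective x
      rw [map_intCast, ZMod.intCast_zmod_eq_zero_iff_dvd] at hx
      refine ⟨k, ?_⟩
      rw [← Int.cast_pow, ZMod.intCast_zmod_eq_zero_iff_dvd]
      exact_mod_cast pow_dvd_pow_of_dvd hx k
    · rw [map_map, map_map, hg, e2, RingHom.ext_int (g.comp _) (Int.castRingHom _), h2]
      exact (isCoprime_mul_unit_left_right (isUnit_C.mpr ha.isUnit) _ _).mpr hc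
  have h8 : R1.1.map ψ ∣ R.map (Int.castRingHom _) := by
    refine h7.dvd_of_dvd_mul_right ?_
    rw [← Polynomial.map_mul, h1, Polynomial.map_mul, ← hFs]
    refine Dvd.dvd.mul_left (map_dvd ψ ⟨C (F.coeff n) * S1.1, ?_⟩) _
    have : F = C (F.coeff n) * (R1.1 * S1.1) := by
      rw [e1, ← mul_assoc, ← C_mul, mul_comm _ b, hb, C_1, one_mul]
    exact this.trans (by ring)
  haveI : Fact (1 < p ^ k) := ⟨Nat.one_lt_pow hk (Fact.out : p.Prime).one_lt⟩
  have h9 := eq_mul_leadingCoeff_of_monic_of_dvd_of_natDegree_le (R1.map ψ).monic h8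
    (natDegree_map_le.trans (h3.trans (R1.map ψ).natDegree.ge))
  have h10 := congrArg (coeff · R0.natDegree) h9
  have h11 := congrArg (coeff · i) h9
  simp only [coeff_mul_C, (R1.map ψ).2.1, one_mul, coeff_map, h4] at h10 h11
  rw [← h10, ← coeff_map (Int.castRingHom (ZMod (p ^ k))) (p := P + C (p * s) * Q), ← hFs] at h11
  have h12 : ψ (F.coeff n * R1.1.coeff i) = (((h i).eval (p * s) : ℤ) : ZMod (p ^ k)) := by
    rw [← hh, hψ]
  have h13 : ((R.coeff i - (h i).eval (p * s) : ℤ) : ZMod (p ^ k)) = 0 := by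
    rw [Int.cast_sub, ← h12, map_mul, sub_eq_zero, mul_comm]
    simpa using h11
  exact_mod_cast (ZMod.intCast_zmod_eq_zero_iff_dvd _ _).mp h13

end Pool.Agent.H53.HitA
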