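import Mathlib

namespace Pool.Agent.H53.HitB

open Polynomial Finset

lemma abs_prod_le (t : Finset ℤ) (f : ℤ → ℤ) (M : ℤ) (hM : 1 ≤ M) (k : ℕ) (hk : t.card ≤ k)
    (h : ∀ i ∈ t, |f i| ≤ M) : |∏ i ∈ t, f i| ≤ M ^ k := by
  rw [abs_prod]
  refine (prod_le_prod (fun _ _ => abs_nonneg _) h).trans ?_
  rw [prod_const]
  exact pow_le_pow_right₀ hM hk

lemma interp (p σ B : ℤ) (k : ℕ) (hk : k ≠ 0) (Z : Finset ℤ) (hZ : Z.card = k) (s : ℤ) (y : ℤ → ℤ)
    (h : ℤ[X]) (hσ : 1 ≤ σ)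
    (hy : ∀ i ∈ insert s Z, 0 ≤ i ∧ i ≤ σ ∧ |y i| ≤ B ∧ p ^ k ∣ y i - h.eval (p * i))
    (hB : (k + 1) * B * (σ ^ k) ^ (k + 1) < p ^ k) :
    (y s : ℚ) = ∑ i ∈ Z, y i * (Lagrange.basis Z (Int.cast : ℤ → ℚ) i).eval (s : ℚ) := by
  let c : ℤ → ℤ := fun i => ∏ j ∈ Z.erase i, (i - j)
  let w : ℤ → ℤ := fun i => (∏ j ∈ Z.erase i, (s - j)) * ∏ l ∈ Z.erase i, c l
  let D : ℤ := ∏ i ∈ Z, c i
  have hc0 : ∀ i, c i ≠ 0 := fun i => prod_ne_zero_iff.mpr fun j hj =>
    sub_ne_zero.mpr (ne_of_mem_erase hj).symm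
  have hD0 : D ≠ 0 := prod_ne_zero_iff.mpr fun i _ => hc0 i
  have hd : ∀ i ∈ insert s Z, |∏ j ∈ Z.erase i, (i - j)| ≤ σ ^ k ∧ ∀ l,
      |∏ j ∈ Z.erase l, (i - j)| ≤ σ ^ k := by
    intro i hi
    have : ∀ l, |∏ j ∈ Z.erase l, (i - j)| ≤ σ ^ k := fun l =>
      abs_prod_le _ _ _ hσ _ (card_erase_le.trans hZ.le) fun j hj => by
        have a1 := hy i hi
        have a2 := hy j (mem_insert_of_mem (mem_of_mem_erase hj))
        rw [abs_le]; constructor <;> linarith [a1.1, a1.2.1, a2.1, a2.2.1]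
    exact ⟨this i, this⟩
  have h1 : 1 ≤ σ ^ k := one_le_pow₀ hσ
  have hw : ∀ i, |w i| ≤ (σ ^ k) ^ (k + 1) := fun i => by
    rw [abs_mul, pow_succ']
    exact mul_le_mul ((hd s (mem_insert_self _ _)).2 i) (abs_prod_le _ _ _ h1 _
      (card_erase_le.trans hZ.le) fun j hj => (hd j (mem_insert_of_mem (mem_of_mem_erase hj))).1)
      (abs_nonneg _) (by linarith)
  have hD : |D| ≤ (σ ^ k) ^ (k + 1) :=
    abs_prod_le _ _ _ h1 _ (by omega) fun j hj => (hd j (mem_insert_of_mem hj)).1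
  have hE : ∀ z : ℤ → ℤ, ((D * z s - ∑ i ∈ Z, w i * z i : ℤ) : ℚ) =
      D * (z s - ∑ i ∈ Z, z i * (Lagrange.basis Z (Int.cast : ℤ → ℚ) i).eval (s : ℚ)) := by
    intro z
    rw [mul_sub, mul_sum]
    push_cast
    congr 1
    refine sum_congr rfl fun i hi => ?_
    have e1 : (Lagrange.basis Z (Int.cast : ℤ → ℚ) i).eval (s : ℚ) * c i =
        ((∏ j ∈ Z.erase i, (s - j) : ℤ) : ℚ) := by
      simp only [c, Lagrange.basis, Lagrange.basisDivisor, eval_prod]
      push_cast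
      rw [← prod_mul_distrib]
      refine prod_congr rfl fun j hj => ?_
      have : (i : ℚ) - j ≠ 0 := sub_ne_zero.mpr (by exact_mod_cast (ne_of_mem_erase hj).symm)
      simp only [eval_mul, eval_C, eval_sub, eval_X]
      field_simp
    simp only [w, D]
    rw [← mul_prod_erase Z c hi, Int.cast_mul, Int.cast_mul, ← e1]
    ring
  let g := (h %ₘ X ^ k).comp (C p * X)
  have hg : (g.map (Int.castRingHom ℚ)).degree < Z.card := by
    refine degree_le_natDegree.trans_lt (Nat.cast_lt.mpr (natDegree_map_le.trans_lt ?_))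
    refine natDegree_comp_le.trans_lt ?_
    have a1 := natDegree_modByMonic_lt h (monic_X_pow k) (fun h0 => hk (by
      simpa using congrArg natDegree h0))
    have a2 : (C p * X).natDegree ≤ 1 := (natDegree_C_mul_le _ _).trans natDegree_X_le
    rw [natDegree_X_pow] at a1
    rw [hZ]
    exact ((Nat.mul_le_mul_left _ a2).trans (mul_one _).le).trans_lt a1
  have hg2 : D * g.eval s - ∑ i ∈ Z, w i * g.eval i = 0 := by
    have a1 := congrArg (eval (s : ℚ))
      (Lagrange.eq_interpolate (Int.cast_injective.injOn (s := (Z : Set ℤ))) hg)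
    rw [Lagrange.interpolate_apply, eval_finset_sum] at a1
    simp only [eval_mul, eval_C, eval_intCast_map, eq_intCast, Int.cast_eq] at a1
    have a2 := hE fun i => g.eval i
    rw [← a1, sub_self, mul_zero] at a2
    exact_mod_cast a2
  have hg3 : ∀ i ∈ insert s Z, p ^ k ∣ y i - g.eval i := fun i hi => by
    have a1 := congrArg (eval (p * i)) (modByMonic_add_div h (X ^ k))
    have a2 := (hy i hi).2.2.2
    rw [← a1] at a2
    simp only [eval_add, eval_mul, eval_pow, eval_X, mul_pow, mul_assoc] at a2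
    have a3 := a2.add (dvd_mul_right (p ^ k) (i ^ k * eval (p * i) (h /ₘ X ^ k)))
    simp only [g, eval_comp, eval_mul, eval_C, eval_X]
    rwa [← sub_sub, sub_add_cancel] at a3
  have h2 : p ^ k ∣ D * y s - ∑ i ∈ Z, w i * y i := by
    have : D * y s - ∑ i ∈ Z, w i * y i = D * (y s - g.eval s) - ∑ i ∈ Z, w i * (y i - g.eval i) := by
      simp only [mul_sub, sum_sub_distrib]
      linarith
    rw [this]
    exact ((hg3 s (mem_insert_self _ _)).mul_left _).sub
      (dvd_sum fun i hi => (hg3 i (mem_insert_of_mem hi)).mul_left _)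
  have h3 : |D * y s - ∑ i ∈ Z, w i * y i| < p ^ k := by
    refine lt_of_le_of_lt ?_ hB
    have a1 : |D * y s| ≤ (σ ^ k) ^ (k + 1) * B := by
      rw [abs_mul]
      exact mul_le_mul hD (hy s (mem_insert_self _ _)).2.2.1 (abs_nonneg _) (by positivity)
    have a2 : |∑ i ∈ Z, w i * y i| ≤ k * ((σ ^ k) ^ (k + 1) * B) := by
      refine (abs_sum_le_sum_abs _ _).trans ((sum_le_card_nsmul _ _ _ fun i hi => ?_).trans
        (by rw [hZ, nsmul_eq_mul]))
      rw [abs_mul]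
      exact mul_le_mul (hw i) (hy i (mem_insert_of_mem hi)).2.2.1 (abs_nonneg _) (by positivity)
    linarith [abs_sub (D * y s) (∑ i ∈ Z, w i * y i)]
  have h4 := hE y
  rw [Int.eq_zero_of_abs_lt_dvd h2 h3, Int.cast_zero, eq_comm, mul_eq_zero] at h4
  exact sub_eq_zero.mp (h4.resolve_left (by exact_mod_cast hD0))

end Pool.Agent.H53.HitB
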