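import Mathlib
import Pool.Agent.H53.ApprB
import Pool.Agent.H53.HitA
import Pool.Agent.H53.HitB

namespace Pool.Agent.H53.HitC

open Polynomial Finset Pool.Agent.H53.ApprA Pool.Agent.H53.ApprB Pool.Agent.H53.HitA
  Pool.Agent.H53.HitB

lemma glue (P Q : ℤ[X]) (n k : ℕ) (hQ : Q ≠ 0)
    (hc : IsCoprime (P.map (Int.castRingHom ℚ)) (Q.map (Int.castRingHom ℚ))) (Z Z0 : Finset ℤ)
    (h0 : Z0.card = k) (hZ : 2 * k + 2 < Z.card) (R S : ℤ → ℤ[X])
    (h1 : ∀ s ∈ Z, R s * S s = C ((P + C s * Q).coeff n) * (P + C s * Q) ∧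
      (P + C s * Q).coeff n ≠ 0 ∧ (R s).natDegree < n ∧ (S s).natDegree < n)
    (h2 : ∀ T, T = R ∨ T = S → ∀ s ∈ Z, ∀ i, (((T s).coeff i : ℤ) : ℚ) =
      ∑ j ∈ Z0, (T j).coeff i * (Lagrange.basis Z0 (Int.cast : ℤ → ℚ) j).eval (s : ℚ)) : False := by
  let φ := Int.castRingHom ℚ
  let G : (ℤ → ℤ[X]) → ℚ[X][X] := fun T =>
    ∑ j ∈ Z0, C ((T j).map φ) * (Lagrange.basis Z0 (Int.cast : ℤ → ℚ) j).map C
  have hG : ∀ T, (G T).natDegree ≤ k := fun T => natDegree_sum_le_of_forall_le _ _ fun j hj => by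
    refine (natDegree_C_mul_le _ _).trans (natDegree_map_le.trans ?_)
    rw [Lagrange.natDegree_basis Int.cast_injective.injOn hj]
    omega
  have hG2 : ∀ T, T = R ∨ T = S → ∀ s ∈ Z, (G T).eval (C (s : ℚ)) = (T s).map φ := by
    intro T hT s hs
    ext i
    simp only [G, eval_finset_sum, eval_mul, eval_C, eval_map, eval₂_hom, finset_sum_coeff,
      coeff_mul_C, coeff_map]
    exact (h2 T hT s hs i).symm
  let F : ℚ[X][X] := C (Q.map φ) * X + C (P.map φ)
  have hF : ∀ s : ℤ, F.eval (C (s : ℚ)) = (P + C s * Q).map φ := fun s => by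
    simp [F, φ]; ring
  have hFp : Prime F := (irreducible_C_mul_X_add_C
    ((Polynomial.map_ne_zero_iff φ.injective_int).mpr hQ) hc.symm.isRelPrime).prime
  let A : ℚ[X][X] := C (C (Q.coeff n : ℚ)) * X + C (C (P.coeff n : ℚ))
  have hA : ∀ s : ℤ, A.eval (C (s : ℚ)) = (C ((P + C s * Q).coeff n)).map φ := fun s => by
    simp only [A, φ, eval_add, eval_mul, eval_C, eval_X, coeff_add, coeff_C_mul, map_C, ← C_mul,
      ← C_add]
    simp; ring
  have h3 : G R * G S - A * F = 0 := by
    refine eq_zero_of_natDegree_lt_card_of_eval_eq_zero' _ (Z.image fun s : ℤ => C (s : ℚ)) ?_ ?_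
    · intro x hx
      obtain ⟨s, hs, rfl⟩ := mem_image.mp hx
      rw [eval_sub, eval_mul, eval_mul, hG2 R (.inl rfl) s hs, hG2 S (.inr rfl) s hs, hA, hF,
        ← Polynomial.map_mul, ← Polynomial.map_mul, (h1 s hs).1, sub_self]
    · rw [card_image_of_injective _ fun a b h => Int.cast_injective (C_injective h)]
      refine (natDegree_sub_le _ _).trans_lt (max_lt ?_ ?_)
      · refine natDegree_mul_le.trans_lt ?_
        linarith [hG R, hG S]
      · refine natDegree_mul_le.trans_lt ?_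
        have a1 : A.natDegree ≤ 1 := natDegree_linear_le
        have a2 : F.natDegree ≤ 1 := natDegree_linear_le
        omega
  obtain ⟨s, hs⟩ := card_pos.mp (show 0 < Z.card by omega)
  obtain ⟨b1, b2, b3, b4⟩ := h1 s hs
  have b5 : R s * S s ≠ 0 := by
    rw [b1]
    exact mul_ne_zero (C_ne_zero.mpr b2) fun h => b2 (by rw [h, coeff_zero])
  have h4 : ∀ T, T = R ∨ T = S → T s ≠ 0 → (T s).natDegree < n → ¬ F ∣ G T := by
    intro T hT c1 c2 c3
    have c4 := natDegree_le_of_dvd (eval_dvd (x := C (s : ℚ)) c3) (by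
      rw [hG2 T hT s hs]; exact (Polynomial.map_ne_zero_iff φ.injective_int).mpr c1)
    rw [hG2 T hT s hs, hF, natDegree_map_eq_of_injective φ.injective_int,
      natDegree_map_eq_of_injective φ.injective_int] at c4
    exact b2 (coeff_eq_zero_of_natDegree_lt (c4.trans_lt c2))
  rcases hFp.dvd_or_dvd (show F ∣ G R * G S from ⟨A, by rw [sub_eq_zero.mp h3, mul_comm]⟩) with h | h
  · exact h4 R (.inl rfl) (left_ne_zero_of_mul b5) b3 h
  · exact h4 S (.inr rfl) (right_ne_zero_of_mul b5) b4 h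

lemma sep (p : ℕ) [Fact p.Prime] (n : ℕ) (hn : 1 ≤ n) (hp : 2 * n + 1 < p) (P Q : (ZMod p)[X])
    (hc : IsCoprime P Q) (hP : P.natDegree ≤ n) (hQ : Q.natDegree ≤ n) (ha : P.coeff n ≠ 0) :
    ∃ t : ZMod p, (P + C t * Q).coeff n ≠ 0 ∧ (P + C t * Q).Separable := by
  classical
  let K := AlgebraicClosure (ZMod p)
  have hW : wronskian P Q ≠ 0 := fun h => by
    have h1 := congrArg (coeff · (n - 1)) (hc.wronskian_eq_zero_iff.mp h).1
    simp only [coeff_derivative, Nat.sub_add_cancel hn, coeff_zero, mul_eq_zero, ha, false_or] at h1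
    rw [← Nat.cast_succ, ZMod.natCast_eq_zero_iff] at h1
    have := Nat.le_of_dvd (by omega) h1
    omega
  let T : Finset K := insert (algebraMap _ K (-P.coeff n / Q.coeff n))
    (((wronskian P Q).aroots K).toFinset.image fun α => -aeval α P / aeval α Q)
  have hT : T.card < (univ.image (algebraMap (ZMod p) K)).card := by
    rw [card_image_of_injective _ (algebraMap (ZMod p) K).injective, card_univ, ZMod.card]
    have a1 := natDegree_wronskian_lt_add hW
    have a2 : ((wronskian P Q).aroots K).card ≤ _ := (card_roots' _).trans natDegree_map_le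
    have a3 := ((wronskian P Q).aroots K).toFinset_card_le
    have a4 := card_image_le (s := ((wronskian P Q).aroots K).toFinset)
      (f := fun α => -aeval α P / aeval α Q)
    exact (card_insert_le _ _).trans_lt (by omega)
  obtain ⟨_, h1, h2⟩ := exists_mem_notMem_of_card_lt_card hT
  obtain ⟨t, -, rfl⟩ := mem_image.mp h1
  refine ⟨t, fun h => h2 (mem_insert.mpr (.inl ?_)), ?_⟩
  · rw [coeff_add, coeff_C_mul] at h
    have : Q.coeff n ≠ 0 := fun h0 => ha (by simpa [h0] using h)
    congr 1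
    field_simp
    linear_combination h
  · refine (isCoprime_iff_aeval_ne_zero_of_isAlgClosed _ K _ _).mpr fun α => ?_
    by_contra! h
    obtain ⟨a1, a2⟩ := h
    simp only [map_add, map_mul, aeval_C, derivative_C_mul] at a1 a2
    have a3 : aeval α Q ≠ 0 := fun h0 => by
      have := aeval_ne_zero_of_isCoprime hc α
      simp [h0] at a1 this
      exact this a1
    refine h2 (mem_insert_of_mem (mem_image.mpr ⟨α, ?_, ?_⟩))
    · rw [Multiset.mem_toFinset, mem_aroots]
      refine ⟨hW, ?_⟩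
      simp only [wronskian, map_sub, map_mul]
      linear_combination aeval α (derivative Q) * a1 - aeval α Q * a2
    · rw [div_eq_iff a3]
      linear_combination -a1

lemma divs (p : ℕ) [Fact p.Prime] (P : (ZMod p)[X]) (hP : P ≠ 0) :
    ∃ D : Finset (ZMod p)[X], D.card ≤ 2 ^ P.natDegree ∧ ∀ R, R.Monic → R ∣ P → R ∈ D := by
  classical
  let K := AlgebraicClosure (ZMod p)
  have hi : Set.InjOn (fun R : (ZMod p)[X] => R.aroots K) {R | R.Monic} := fun R hR S hS h => by
    apply map_injective _ (algebraMap (ZMod p) K).injective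
    rw [(IsAlgClosed.splits _).eq_prod_roots_of_monic (Monic.map _ hR),
      (IsAlgClosed.splits _).eq_prod_roots_of_monic (Monic.map _ hS)]
    exact congrArg (fun m : Multiset K => (m.map fun a => X - C a).prod) h
  refine ⟨(P.aroots K).powerset.toFinset.image (Function.invFunOn _ {R | R.Monic}),
    card_image_le.trans ((Multiset.toFinset_card_le _).trans ?_), fun R hR h =>
    mem_image.mpr ⟨R.aroots K, ?_, hi.leftInvOn_invFunOn hR⟩⟩
  · rw [Multiset.card_powerset]
    exact Nat.pow_le_pow_right two_pos ((card_roots' _).trans natDegree_map_le)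
  · rw [Multiset.mem_toFinset, Multiset.mem_powerset]
    exact roots.le_of_dvd (Polynomial.map_ne_zero hP) (Polynomial.map_dvd (algebraMap _ K) h)

end Pool.Agent.H53.HitC
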