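import Mathlib
import Pool.Agent.H53.HitC

namespace Pool.Agent.H53.HitD

open Polynomial Finset Pool.Agent.H53.ApprA Pool.Agent.H53.ApprB Pool.Agent.H53.HitA
  Pool.Agent.H53.HitB Pool.Agent.H53.HitC

lemma fac (F : ℤ[X]) (n : ℕ) (hn : 1 ≤ n) (hF : F.natDegree = n) (h : ¬ Irreducible F.primPart) :
    ∃ R S : ℤ[X], R * S = C (F.coeff n) * F ∧ R.natDegree < n ∧ S.natDegree < n ∧
      R.leadingCoeff = F.coeff n ∧ S.leadingCoeff = F.coeff n := by
  have h0 : F ≠ 0 := by rintro rfl; simp at hF; omega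
  have hu : ¬ IsUnit F.primPart := fun hu => by
    have := natDegree_eq_zero_of_isUnit hu
    rw [natDegree_primPart] at this
    omega
  rw [irreducible_iff, not_and] at h
  have h1 := h hu
  push Not at h1
  obtain ⟨U, V, e, hU, hV⟩ := h1
  have hd : ∀ W : ℤ[X], W ∣ F.primPart → ¬ IsUnit W → W.natDegree ≠ 0 := fun W h1 h2 h3 => by
    rw [eq_C_of_natDegree_eq_zero h3] at h1 h2
    exact h2 (isUnit_C.mpr (F.isPrimitive_primPart _ h1))
  have a1 := hd U ⟨V, e⟩ hU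
  have a2 := hd V ⟨U, e.trans (mul_comm _ _)⟩ hV
  have e2 : F = (C F.content * U) * V := by rw [mul_assoc, ← e]; exact F.eq_C_content_mul_primPart
  have hc : F.content ≠ 0 := by rwa [Ne, content_eq_zero_iff]
  generalize hU' : C F.content * U = U' at e2
  have a3 : U'.natDegree ≠ 0 := by rwa [← hU', natDegree_C_mul hc]
  have b1 : U' ≠ 0 := by rintro rfl; simp at a3
  have b2 : V ≠ 0 := by rintro rfl; simp at a2
  have a4 : n = U'.natDegree + V.natDegree := by rw [← hF, e2, natDegree_mul b1 b2]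
  have a5 : F.coeff n = U'.leadingCoeff * V.leadingCoeff := by
    rw [← leadingCoeff_mul, ← e2, ← hF, coeff_natDegree]
  refine ⟨C V.leadingCoeff * U', C U'.leadingCoeff * V, ?_, (natDegree_C_mul_le _ _).trans_lt
    (by omega), (natDegree_C_mul_le _ _).trans_lt (by omega), ?_, ?_⟩
  · rw [a5, e2, C_mul]; ring
  · rw [a5, leadingCoeff_mul, leadingCoeff_C, mul_comm]
  · rw [a5, leadingCoeff_mul, leadingCoeff_C]

lemma red (p : ℕ) [Fact p.Prime] (R : ℤ[X]) (a : ZMod p) (ha : a ≠ 0)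
    (h : ((R.leadingCoeff : ℤ) : ZMod p) = a) :
    (C a⁻¹ * R.map (Int.castRingHom (ZMod p))).Monic ∧
      (C a⁻¹ * R.map (Int.castRingHom (ZMod p))).natDegree = R.natDegree ∧
      R.map (Int.castRingHom (ZMod p)) = C a * (C a⁻¹ * R.map (Int.castRingHom (ZMod p))) := by
  have h1 : (C a⁻¹ * R.map (Int.castRingHom (ZMod p))).natDegree ≤ R.natDegree :=
    (natDegree_C_mul_le _ _).trans natDegree_map_le
  have h2 : (C a⁻¹ * R.map (Int.castRingHom (ZMod p))).coeff R.natDegree = 1 := by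
    rw [coeff_C_mul, coeff_map, coeff_natDegree, eq_intCast, h, inv_mul_cancel₀ ha]
  exact ⟨monic_of_natDegree_le_of_coeff_eq_one _ h1 h2, natDegree_eq_of_le_of_coeff_ne_zero h1
    (by rw [h2]; exact one_ne_zero), by rw [← mul_assoc, ← C_mul, mul_inv_cancel₀ ha, C_1, one_mul]⟩

lemma core (p : ℕ) [Fact p.Prime] (n k : ℕ) (hn : 1 ≤ n) (hk : k ≠ 0) (P Q : ℤ[X]) (σ H : ℤ)
    (hc : IsCoprime (P.map (Int.castRingHom ℚ)) (Q.map (Int.castRingHom ℚ)))
    (hP : P.natDegree ≤ n) (hQ : Q.natDegree ≤ n) (ha : ((P.coeff n : ℤ) : ZMod p) ≠ 0)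
    (hs : (P.map (Int.castRingHom (ZMod p))).Separable)
    (hH : ∀ s : ℤ, 0 ≤ s → s ≤ σ → Bd (P + C (p * s) * Q) H) (hσ : 2 ^ n * (2 * k + 2) ≤ σ)
    (hB : (k + 1) * (2 ^ n * (n + 1) * (H * H)) * (σ ^ k) ^ (k + 1) < p ^ k) :
    ∃ s : ℤ, 0 ≤ s ∧ s ≤ σ ∧ (P + C (p * s) * Q).natDegree = n ∧
      Irreducible (P + C (p * s) * Q).primPart := by
  classical
  by_contra! hcon
  set a : ZMod p := ((P.coeff n : ℤ) : ZMod p) with ha'
  let φ := Int.castRingHom (ZMod p)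
  have hm : ∀ s : ℤ, (P + C (p * s) * Q).map φ = P.map φ := fun s => by
    rw [Polynomial.map_add, Polynomial.map_mul, map_C, show φ (p * s) = 0 by simp, C_0, zero_mul,
      add_zero]
  have hm2 : ∀ s : ℤ, (((P + C (p * s) * Q).coeff n : ℤ) : ZMod p) = a := fun s => by
    simpa only [coeff_map, φ, eq_intCast] using congrArg (coeff · n) (hm s)
  have hm3 : ∀ s : ℤ, (P + C (p * s) * Q).coeff n ≠ 0 := fun s h => ha (by rw [← hm2 s, h]; simp)
  have hm4 : ∀ s : ℤ, (P + C (p * s) * Q).natDegree = n := fun s =>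
    natDegree_eq_of_le_of_coeff_ne_zero (natDegree_add_le_of_degree_le hP
      ((natDegree_C_mul_le _ _).trans hQ)) (hm3 s)
  choose! R S h1 h2 h3 h4 h5 using fun s (hs : s ∈ Icc 0 σ) => fac _ n hn (hm4 s)
    (hcon s (mem_Icc.mp hs).1 (mem_Icc.mp hs).2 (hm4 s))
  have hR := fun s hs => red p (R s) a ha (by rw [h4 s hs, hm2])
  have hS := fun s hs => red p (S s) a ha (by rw [h5 s hs, hm2])
  have hRS : ∀ s ∈ Icc 0 σ, C a * (C a⁻¹ * (R s).map φ * (C a⁻¹ * (S s).map φ)) = P.map φ := by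
    intro s hs
    apply mul_left_cancel₀ (C_ne_zero.mpr ha)
    have := congrArg (map φ) (h1 s hs)
    rw [Polynomial.map_mul, Polynomial.map_mul, hm, map_C, eq_intCast, hm2, (hR s hs).2.2,
      (hS s hs).2.2] at this
    rw [← this]; ring
  have hP0 : P.map φ ≠ 0 := fun h => ha (by simpa using congrArg (coeff · n) h)
  obtain ⟨D, d1, d2⟩ := divs p (P.map φ) hP0
  have hσ1 : (1 : ℤ) ≤ σ := le_trans (one_le_mul_of_one_le_of_one_le (one_le_pow₀ one_le_two)
    (by linarith [Int.natCast_nonneg k])) hσ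
  obtain ⟨R0, -, hZ⟩ := exists_lt_card_fiber_of_mul_lt_card_of_maps_to (s := Icc 0 σ) (t := D)
    (f := fun s => C a⁻¹ * (R s).map φ) (n := 2 * k + 2)
    (fun s hs => d2 _ (hR s hs).1 (hRS s hs ▸ (dvd_mul_right _ _).mul_left _)) (by
      have := Nat.mul_le_mul_right (2 * k + 2) (d1.trans (Nat.pow_le_pow_right two_pos
        (natDegree_map_le.trans hP)))
      refine this.trans_lt ?_
      zify
      rw [Int.card_Icc, Int.toNat_of_nonneg (by linarith)]
      linarith)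
  set Z := {s ∈ Icc 0 σ | C a⁻¹ * (R s).map φ = R0}
  have hZ1 : ∀ s ∈ Z, s ∈ Icc 0 σ ∧ C a⁻¹ * (R s).map φ = R0 := fun s hs => mem_filter.mp hs
  obtain ⟨s0, hs0⟩ := card_pos.mp (show 0 < Z.card by omega)
  obtain ⟨t1, t2⟩ := hZ1 s0 hs0
  have m1 : R0.Monic := t2 ▸ (hR s0 t1).1
  have m2 := (hS s0 t1).1
  have m3 := hRS s0 t1
  rw [t2] at m3
  generalize C a⁻¹ * (S s0).map φ = S0 at m2 m3
  have hZ2 : ∀ s ∈ Z, C a⁻¹ * (S s).map φ = S0 := fun s hs => by
    have := hRS s (hZ1 s hs).1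
    rw [(hZ1 s hs).2, ← m3] at this
    exact mul_left_cancel₀ m1.ne_zero (mul_left_cancel₀ (C_ne_zero.mpr ha) this)
  have m4 : IsCoprime R0 S0 := (show (R0 * S0).Separable from
    hs.of_dvd (m3 ▸ dvd_mul_left _ _)).isCoprime
  obtain ⟨f, hf⟩ := family p k hk P Q n hP hQ ha R0 S0 m1 m2 m4 m3
  obtain ⟨g, hg⟩ := family p k hk P Q n hP hQ ha S0 R0 m2 m1 m4.symm (by rwa [mul_comm S0])
  obtain ⟨Z0, z1, z2⟩ := exists_subset_card_eq (show k ≤ Z.card by omega)
  have hQ0 : Q ≠ 0 := by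
    rintro rfl
    rw [Polynomial.map_zero, isCoprime_zero_right] at hc
    have := natDegree_eq_zero_of_isUnit hc
    rw [natDegree_map_eq_of_injective (RingHom.injective_int _)] at this
    exact ha (by rw [ha', coeff_eq_zero_of_natDegree_lt (by omega), Int.cast_zero])
  have e : ∀ s : ℤ, C s * (C (p : ℤ) * Q) = C (p * s) * Q := fun s => by rw [C_mul]; ring
  have hp0 : (p : ℤ) ≠ 0 := by exact_mod_cast (Fact.out : p.Prime).ne_zero
  refine glue P (C (p : ℤ) * Q) n k (mul_ne_zero (C_ne_zero.mpr hp0) hQ0) ?_ Z Z0 z2 hZ R S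
    (fun s hs => ?_) fun T hT s hs i => ?_
  · rw [Polynomial.map_mul, map_C]
    exact (isCoprime_mul_unit_left_right (isUnit_C.mpr (by simpa using hp0)) _ _).mpr hc
  · rw [e]
    have := (hZ1 s hs).1
    exact ⟨h1 s this, hm3 s, h2 s this, h3 s this⟩
  · have key : ∀ j ∈ Z, ∀ U V : ℤ[X], U * V = C ((P + C (p * j) * Q).coeff n) *
        (P + C (p * j) * Q) → |U.coeff i| ≤ 2 ^ n * (n + 1) * (H * H) := by
      intro j hj U V hUV
      have b := hH j (mem_Icc.mp (hZ1 j hj).1).1 (mem_Icc.mp (hZ1 j hj).1).2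
      have := gelfond n U V (H * H) (fun h => by
        rw [h, mul_zero, eq_comm, mul_eq_zero, C_eq_zero] at hUV
        exact hUV.elim (hm3 j) fun h => hm3 j (by rw [h, coeff_zero]))
        (by rw [hUV]; exact (natDegree_C_mul_le _ _).trans (hm4 j).le) (fun l => by
          rw [hUV, coeff_C_mul, Int.cast_mul, abs_mul]
          exact mul_le_mul (b _) (b _) (abs_nonneg _) b.nonneg) i
      exact_mod_cast this
    have hI : ∀ j ∈ insert s Z0, j ∈ Z := fun j hj => (mem_insert.mp hj).elim (· ▸ hs) (z1 ·)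
    rcases hT with rfl | rfl
    · refine interp p σ _ k hk Z0 z2 s (fun j => (T j).coeff i) (f i) hσ1 (fun j hj => ?_) hB
      obtain ⟨c1, c2⟩ := hZ1 j (hI j hj)
      have c3 : R0.natDegree = (T j).natDegree := c2 ▸ (hR j c1).2.1
      exact ⟨(mem_Icc.mp c1).1, (mem_Icc.mp c1).2, key j (hI j hj) _ _ (h1 j c1),
        hf j _ _ (h1 j c1) (hZ2 j (hI j hj) ▸ (hS j c1).2.2) c3.ge (c3 ▸ h4 j c1) i⟩
    · refine interp p σ _ k hk Z0 z2 s (fun j => (T j).coeff i) (g i) hσ1 (fun j hj => ?_) hB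
      obtain ⟨c1, c2⟩ := hZ1 j (hI j hj)
      have c3 : S0.natDegree = (T j).natDegree := hZ2 j (hI j hj) ▸ (hS j c1).2.1
      have c4 := (mul_comm _ _).trans (h1 j c1)
      exact ⟨(mem_Icc.mp c1).1, (mem_Icc.mp c1).2, key j (hI j hj) _ _ c4,
        hg j _ _ c4 (c2 ▸ (hR j c1).2.2) c3.ge (c3 ▸ h5 j c1) i⟩

end Pool.Agent.H53.HitD
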