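import Mathlib
import Pool.Agent.H53.HitD

namespace Pool.Agent.H53.HitE

open Polynomial Finset Filter Pool.Agent.H53.ApprA Pool.Agent.H53.HitC Pool.Agent.H53.HitD

lemma prime_choice (r : ℕ) : ∀ (N : ℤ) (M : ℕ), N ≠ 0 → M ≠ 0 → |N| < (M : ℤ) ^ r →
    ∃ p : ℕ, p.Prime ∧ M < p ∧ p ≤ 2 ^ r * M ∧ ¬ (p : ℤ) ∣ N := by
  induction r with
  | zero => intro N M h _ h1; have := Int.one_le_abs h; simp at h1; omega
  | succ r ih =>
    intro N M h hM h1
    obtain ⟨q, q1, q2, q3⟩ := Nat.exists_prime_lt_and_le_two_mul M hM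
    by_cases hq : (q : ℤ) ∣ N
    · obtain ⟨N, rfl⟩ := hq
      have hM' : (0 : ℤ) < M := by exact_mod_cast Nat.pos_of_ne_zero hM
      obtain ⟨p, p1, p2, p3, p4⟩ := ih N (2 * M) (right_ne_zero_of_mul h) (by omega) (by
        rw [abs_mul, Nat.abs_cast, pow_succ'] at h1
        have a1 : (M : ℤ) * |N| ≤ q * |N| :=
          mul_le_mul_of_nonneg_right (by exact_mod_cast q2.le) (abs_nonneg _)
        refine (lt_of_mul_lt_mul_left (a1.trans_lt h1) hM'.le).trans_le ?_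
        exact pow_le_pow_left₀ hM'.le (by push_cast; linarith) _)
      refine ⟨p, p1, by omega, by rw [pow_succ]; linarith, fun h2 => ?_⟩
      rcases (Nat.prime_iff_prime_int.mp p1).dvd_or_dvd h2 with h3 | h3
      · have := Nat.le_of_dvd q1.pos (by exact_mod_cast h3)
        omega
      · exact p4 h3
    · exact ⟨q, q1, q2, q3.trans (Nat.mul_le_mul_right _ (Nat.le_self_pow (by omega) 2)), hq⟩

lemma hit0 (n L k σ : ℕ) (hn : 1 ≤ n) (hL : 1 ≤ L) (hk : k = 2 * L + 12)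
    (h1 : (2 * n).factorial < σ) (h2 : 2 ^ (L * (2 * n + 1) + 1) ≤ σ)
    (h3 : (k + 1) * (2 ^ n * (n + 1)) < σ) (h4 : 2 ^ n * (2 * k + 2) ≤ σ) (h5 : 2 * n + 1 ≤ σ)
    (P Q : ℤ[X]) (hc : IsCoprime (P.map (Int.castRingHom ℚ)) (Q.map (Int.castRingHom ℚ)))
    (hP : P.natDegree = n) (hQ : Q.natDegree ≤ n) (bP : Bd P (σ ^ (k * L)))
    (bQ : Bd Q (σ ^ (k * L))) : ∃ t : ℤ, 0 ≤ t ∧ t ≤ σ ^ (2 * k + 2) ∧ (P + C t * Q).natDegree = n ∧
      Irreducible (P + C t * Q).primPart := by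
  have hσ : (1 : ℤ) ≤ σ := by exact_mod_cast (show 1 ≤ σ by omega)
  have cP : ∀ i, |P.coeff i| ≤ (σ : ℤ) ^ (k * L) := fun i => by exact_mod_cast bP i
  have cQ : ∀ i, |Q.coeff i| ≤ (σ : ℤ) ^ (k * L) := fun i => by exact_mod_cast bQ i
  have hH : (1 : ℤ) ≤ σ ^ (k * L) := one_le_pow₀ hσ
  have r0 : resultant P Q ≠ 0 := fun h => by
    have := resultant_ne_zero _ _ hc
    rw [natDegree_map_eq_of_injective (RingHom.injective_int _),
      natDegree_map_eq_of_injective (RingHom.injective_int _), resultant_map_map, h] at this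
    simp at this
  have r1 : |resultant P Q| ≤ (2 * n).factorial * ((σ : ℤ) ^ (k * L)) ^ (2 * n) := by
    have := Matrix.det_le (A := sylvester P Q P.natDegree Q.natDegree) (abv := AbsoluteValue.abs)
      (x := (σ : ℤ) ^ (k * L)) (fun i j => by
        refine Fin.addCases (fun j => ?_) (fun j => ?_) j <;>
        · simp only [sylvester, Matrix.of_apply, Fin.addCases_left, Fin.addCases_right,
            AbsoluteValue.abs_apply]
          split_ifs
          · first | exact cP _ | exact cQ _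
          · simp)
    rw [Fintype.card_fin, nsmul_eq_mul] at this
    refine le_trans this (mul_le_mul ?_ (pow_le_pow_right₀ hH (by omega)) (by positivity)
      (by positivity))
    exact_mod_cast Nat.factorial_le (by omega)
  have hP0 : P.coeff n ≠ 0 := by
    rw [← hP, coeff_natDegree, leadingCoeff_ne_zero]
    rintro rfl
    simp at hP; omega
  obtain ⟨p, p1, p2, p3, p4⟩ := prime_choice (L * (2 * n + 1)) (resultant P Q * P.coeff n)
    (σ ^ (2 * k)) (mul_ne_zero r0 hP0) (pow_ne_zero _ (by omega)) (by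
      rw [abs_mul]
      refine (mul_le_mul r1 (cP n) (abs_nonneg _) (by positivity)).trans_lt ?_
      rw [mul_assoc, ← pow_succ, ← pow_mul]
      refine (mul_lt_mul_of_pos_right (show (((2 * n).factorial : ℕ) : ℤ) < σ by exact_mod_cast h1)
        (by positivity)).trans_le ?_
      push_cast
      rw [← pow_succ', ← pow_mul]
      refine pow_le_pow_right₀ hσ ?_
      have : 1 ≤ k * L * (2 * n + 1) := Nat.succ_le_of_lt (by subst hk; positivity)
      linarith)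
  haveI := Fact.mk p1
  have p5 : σ ≤ σ ^ (2 * k) := Nat.le_self_pow (by omega) _
  have u : ∀ a : ℤ, a ∣ resultant P Q * P.coeff n → (a : ZMod p) ≠ 0 := fun a h h' =>
    p4 (((ZMod.intCast_zmod_eq_zero_iff_dvd _ _).mp h').trans h)
  let φ := Int.castRingHom (ZMod p)
  have c1 : IsCoprime (P.map φ) (Q.map φ) := by
    obtain ⟨a, b, -, -, e⟩ := exists_mul_add_mul_eq_C_resultant P Q le_rfl le_rfl (.inl (by omega))
    have := congrArg (Polynomial.map φ) e
    rw [Polynomial.map_add, Polynomial.map_mul, Polynomial.map_mul, map_C] at this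
    refine ⟨C (φ (resultant P Q))⁻¹ * a.map φ, C (φ (resultant P Q))⁻¹ * b.map φ, ?_⟩
    rw [← C_1, ← inv_mul_cancel₀ (show φ (resultant P Q) ≠ 0 from u _ (dvd_mul_right _ _)), C_mul,
      ← this]
    ring
  obtain ⟨t, t1, t2⟩ := sep p n hn (by omega) _ _ c1 (natDegree_map_le.trans hP.le)
    (natDegree_map_le.trans hQ) (by simpa [φ] using u _ (dvd_mul_left _ _))
  have e : (P + C (t.val : ℤ) * Q).map φ = P.map φ + C t * Q.map φ := by
    rw [Polynomial.map_add, Polynomial.map_mul, map_C]; simp [φ]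
  have e2 : ∀ s : ℤ, P + C (t.val : ℤ) * Q + C (p * s) * Q = P + C (t.val + p * s) * Q := fun s => by
    rw [C_add]; ring
  have b1 : ∀ s : ℤ, s ≤ σ → t.val + p * s ≤ (σ : ℤ) ^ (2 * k + 2) := fun s hs => by
    have a1 : (t.val : ℤ) ≤ p := by exact_mod_cast t.val_lt.le
    have a2 : (p : ℤ) ≤ 2 ^ (L * (2 * n + 1)) * σ ^ (2 * k) := by exact_mod_cast p3
    have a3 : (2 : ℤ) ^ (L * (2 * n + 1)) * 2 ≤ σ := by exact_mod_cast h2
    have a4 : (p : ℤ) * s ≤ p * σ := mul_le_mul_of_nonneg_left hs (by positivity)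
    have a5 : (p : ℤ) * 1 ≤ p * σ := mul_le_mul_of_nonneg_left hσ (by positivity)
    have a6 := mul_le_mul_of_nonneg_right a2 (show (0 : ℤ) ≤ 2 * σ by positivity)
    have a7 := mul_le_mul_of_nonneg_right a3 (show (0 : ℤ) ≤ σ ^ (2 * k) * σ by positivity)
    rw [pow_succ, pow_succ]
    linarith
  obtain ⟨s, s1, s2, s3⟩ := core p n k hn (by omega) (P + C (t.val : ℤ) * Q) Q σ
    (σ ^ (k * L + 2 * k + 3)) (by
      rw [Polynomial.map_add, Polynomial.map_mul]; exact hc.add_mul_right_left _)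
    (natDegree_add_le_of_degree_le hP.le ((natDegree_C_mul_le _ _).trans hQ)) hQ
    (by rw [← e, coeff_map] at t1; exact t1) (e ▸ t2) (fun s s1 s2 i => by
      rw [e2, coeff_add, coeff_C_mul]
      norm_cast
      refine (abs_add_le _ _).trans ?_
      rw [abs_mul, abs_of_nonneg (show (0 : ℤ) ≤ t.val + p * s by positivity)]
      have a1 := mul_le_mul (b1 s s2) (cQ i) (abs_nonneg _) (by positivity)
      have a2 : (1 : ℤ) * σ ^ (k * L) ≤ σ ^ (2 * k + 2) * σ ^ (k * L) :=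
        mul_le_mul_of_nonneg_right (one_le_pow₀ hσ) (by positivity)
      have a3 : (2 : ℤ) * (σ ^ (2 * k + 2) * σ ^ (k * L)) ≤ σ * (σ ^ (2 * k + 2) * σ ^ (k * L)) :=
        mul_le_mul_of_nonneg_right (by exact_mod_cast (show 2 ≤ σ by omega)) (by positivity)
      have a4 : (σ : ℤ) ^ (k * L + 2 * k + 3) = σ * (σ ^ (2 * k + 2) * σ ^ (k * L)) := by ring
      push_cast
      linarith [cP i]) (by exact_mod_cast h4) (by
      rw [← mul_assoc, mul_assoc, ← pow_add, ← pow_mul, ← pow_add]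
      refine (mul_lt_mul_of_pos_right (show ((k : ℤ) + 1) * (2 ^ n * (n + 1)) < σ by
        exact_mod_cast h3) (by positivity)).trans_le ?_
      rw [← pow_succ']
      refine le_trans ?_ (pow_le_pow_left₀ (by positivity) (show (σ : ℤ) ^ (2 * k) ≤ p by
        exact_mod_cast p2.le) k)
      rw [← pow_mul]
      exact pow_le_pow_right₀ hσ (by subst hk; nlinarith))
  rw [e2] at s3
  exact ⟨_, by positivity, b1 s s2, s3⟩

/-- effective Hilbert irreducibility for a pencil -/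
lemma hit (n : ℕ) (hn : 1 ≤ n) (ε : ℝ) (hε : 0 < ε) : ∀ᶠ H : ℝ in atTop, ∀ P Q : ℤ[X],
    IsCoprime (P.map (Int.castRingHom ℚ)) (Q.map (Int.castRingHom ℚ)) → P.natDegree = n →
    Q.natDegree ≤ n → Bd P H → Bd Q H → ∃ t : ℤ, 0 ≤ t ∧ t ≤ H ^ ε ∧
      (P + C t * Q).natDegree = n ∧ Irreducible (P + C t * Q).primPart := by
  obtain ⟨L, hL⟩ := exists_nat_gt (max 1 (3 / ε))
  have hL1 : (1 : ℝ) < L := (le_max_left _ _).trans_lt hL
  have hL2 : 3 < L * ε := (div_lt_iff₀ hε).mp ((le_max_right _ _).trans_lt hL)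
  have hL3 : 1 ≤ L := by exact_mod_cast hL1.le
  obtain ⟨k, hk⟩ : ∃ k, k = 2 * L + 12 := ⟨_, rfl⟩
  have hk1 : (2 : ℝ) ≤ k := by exact_mod_cast (show 2 ≤ k by omega)
  have hkL : k * L ≠ 0 := by subst hk; positivity
  have hkL' : (0 : ℝ) < (k * L : ℕ) := by positivity
  have hT : Tendsto (fun H : ℝ => ⌈H ^ ((k * L : ℕ) : ℝ)⁻¹⌉₊) atTop atTop :=
    tendsto_nat_ceil_atTop.comp (tendsto_rpow_atTop (inv_pos.mpr hkL'))
  filter_upwards [hT.eventually_gt_atTop (2 * n).factorial,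
    hT.eventually_ge_atTop (2 ^ (L * (2 * n + 1) + 1)),
    hT.eventually_gt_atTop ((k + 1) * (2 ^ n * (n + 1))),
    hT.eventually_ge_atTop (2 ^ n * (2 * k + 2)), hT.eventually_ge_atTop (2 * n + 1),
    eventually_ge_atTop 1, ev (2 ^ (2 * k + 2)) (((k * L : ℕ) : ℝ)⁻¹ * (2 * k + 2 : ℕ)) ε (by
      rw [inv_mul_lt_iff₀ hkL']
      push_cast
      nlinarith)] with H h1 h2 h3 h4 h5 h6 h7 P Q hc hP hQ bP bQ
  have a0 : 0 ≤ H ^ ((k * L : ℕ) : ℝ)⁻¹ := by positivity
  have a1 : H ≤ (⌈H ^ ((k * L : ℕ) : ℝ)⁻¹⌉₊ : ℝ) ^ (k * L) := by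
    conv_lhs => rw [← Real.rpow_inv_natCast_pow (show 0 ≤ H by linarith) hkL]
    exact pow_le_pow_left₀ a0 (Nat.le_ceil _) _
  obtain ⟨t, t1, t2, t3⟩ := hit0 n L k _ hn hL3 hk h1 h2 h3 h4 h5 P Q hc hP hQ (bP.mono a1)
    (bQ.mono a1)
  refine ⟨t, t1, le_trans ?_ h7.le, t3⟩
  rw [Real.rpow_mul_natCast (by linarith), ← mul_pow]
  have t4 : (t : ℝ) ≤ (⌈H ^ ((k * L : ℕ) : ℝ)⁻¹⌉₊ : ℝ) ^ (2 * k + 2) := by exact_mod_cast t2
  refine t4.trans (pow_le_pow_left₀ (Nat.cast_nonneg _) ?_ _)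
  linarith [Nat.ceil_lt_add_one a0, Real.one_le_rpow h6 (inv_pos.mpr hkL').le]

end Pool.Agent.H53.HitE
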