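import Mathlib
import Pool.Agent.H53.HitE
import Pool.Agent.H53.ApprD

namespace Pool.Agent.H53.HitF

open Polynomial Finset Filter Pool.Agent.H53.ApprA Pool.Agent.H53.ApprD Pool.Agent.H53.HitE

/-- Mahler measure -/
noncomputable def mm (P : ℤ[X]) : ℝ := (P.map (Int.castRingHom ℂ)).mahlerMeasure

lemma mm_mul (P Q : ℤ[X]) : mm (P * Q) = mm P * mm Q := by
  simp only [mm, Polynomial.map_mul, mahlerMeasure_mul]

lemma one_le_mm {P : ℤ[X]} (h : P ≠ 0) : 1 ≤ mm P := one_le_mahlerMeasure_of_ne_zero h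

lemma mm_le {P : ℤ[X]} {n : ℕ} {H : ℝ} (hn : P.natDegree ≤ n) (hH : Bd P H) :
    mm P ≤ (n + 1) * H := by
  refine (mahlerMeasure_le_sum_norm_coeff _).trans ?_
  rw [sum_over_range' _ (by simp) (n + 1) (Nat.lt_succ_of_le (natDegree_map_le.trans hn))]
  refine (sum_le_card_nsmul _ _ H fun j _ => ?_).trans (by simp)
  rw [coeff_map, eq_intCast, Complex.norm_intCast]
  exact hH j

lemma bd_mm {P : ℤ[X]} {n : ℕ} (hn : P.natDegree ≤ n) : Bd P (2 ^ n * mm P) := by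
  intro i
  have h1 := norm_coeff_le_choose_mul_mahlerMeasure i (P.map (Int.castRingHom ℂ))
  rw [coeff_map, eq_intCast, Complex.norm_intCast] at h1
  refine h1.trans (mul_le_mul_of_nonneg_right ?_ (mahlerMeasure_nonneg _))
  exact_mod_cast (Nat.choose_le_two_pow _ i).trans
    (Nat.pow_le_pow_right (by norm_num) (natDegree_map_le.trans hn))

lemma diri {n : ℕ} {ξ C : ℝ} (hC : TC n ξ C) (Y : ℝ) (hY : 1 ≤ Y) (h : 10 * C ≤ Y ^ n) :
    ∃ D : ℤ[X], D ≠ 0 ∧ D.natDegree ≤ n ∧ Bd D Y ∧ |aeval ξ D| ≤ 10 * C / Y ^ n := by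
  have h0 := hC.1
  have h1 : 0 < Y ^ n := by positivity
  obtain ⟨K, k1, k2⟩ := hC.count Y (10 * C / Y ^ n) hY (by positivity) ((div_le_one h1).mpr h)
  rw [mul_div_cancel₀ _ h1.ne'] at k2
  have : (1 : ℝ) < K.card := by nlinarith
  obtain ⟨D, d1, d2⟩ := exists_mem_ne (by exact_mod_cast this : 1 < K.card) 0
  exact ⟨D, d2, k1 D d1⟩

lemma small (n : ℕ) (ξ w δ : ℝ) (h0 : 0 ≤ w) (hw : w < n) (hδ : 0 < δ) (hδ1 : δ ≤ 1) :
    ∃ R : ℤ[X], Irreducible R ∧ R.natDegree ≠ 0 ∧ R.natDegree ≤ n ∧ |aeval ξ R| * mm R ^ w < δ := by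
  by_contra! hc
  have h1 : ∀ D : ℤ[X], D ≠ 0 → D.natDegree = 0 → δ ^ D.natDegree ≤ |aeval ξ D| * mm D ^ w := by
    intro D hD h
    rw [h, pow_zero]
    refine one_le_mul_of_one_le_of_one_le ?_ (Real.one_le_rpow (one_le_mm hD) h0)
    rw [eq_C_of_natDegree_eq_zero h] at hD ⊢
    rw [aeval_C, algebraMap_int_eq, eq_intCast]
    exact_mod_cast Int.one_le_abs (C_ne_zero.mp hD)
  have h2 : ∀ D : ℤ[X], D ≠ 0 → D.natDegree ≤ n → δ ^ D.natDegree ≤ |aeval ξ D| * mm D ^ w := by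
    intro D
    induction D using WfDvdMonoid.induction_on_irreducible with
    | zero => exact fun h => absurd rfl h
    | unit u hu => exact fun h _ => h1 u h (natDegree_eq_zero_of_isUnit hu)
    | mul a i ha hi ih =>
      intro _ hd
      rw [natDegree_mul hi.ne_zero ha] at hd ⊢
      have a1 : δ ^ i.natDegree ≤ |aeval ξ i| * mm i ^ w := by
        by_cases h : i.natDegree = 0
        · exact h1 i hi.ne_zero h
        · exact (pow_le_of_le_one hδ.le hδ1 h).trans (hc i hi h (by omega))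
      rw [pow_add, map_mul, abs_mul, mm_mul, Real.mul_rpow (by linarith [one_le_mm hi.ne_zero])
        (by linarith [one_le_mm ha]), mul_mul_mul_comm]
      exact mul_le_mul a1 (ih ha (by omega)) (by positivity) ((pow_pos hδ _).le.trans a1)
  obtain ⟨C, hC⟩ := exists_TC n ξ
  obtain ⟨Y, y1, y2, y3⟩ := ((eventually_ge_atTop 1).and ((ev (10 * C) 0 n (by linarith)).and
    (ev (10 * C * (n + 1) ^ w / δ ^ n) w n hw))).exists
  rw [Real.rpow_natCast] at y2 y3
  rw [Real.rpow_zero, mul_one] at y2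
  obtain ⟨D, d1, d2, d3, d4⟩ := diri hC Y y1 y2.le
  have a1 := (pow_le_pow_of_le_one hδ.le hδ1 d2).trans ((h2 D d1 d2).trans (mul_le_mul d4
    (Real.rpow_le_rpow (by linarith [one_le_mm d1]) (mm_le d2 d3) h0)
    (Real.rpow_nonneg (by linarith [one_le_mm d1]) _) ((abs_nonneg _).trans d4)))
  rw [Real.mul_rpow (by positivity) (by linarith), div_mul_eq_mul_div, le_div_iff₀ (by positivity)]
    at a1
  rw [div_mul_eq_mul_div, div_lt_iff₀ (by positivity)] at y3
  linarith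

lemma freq {ξ : ℝ} (hξ : Transcendental ℤ ξ) (n : ℕ) (w : ℝ) (h0 : 0 ≤ w) (hw : w < n) :
    ∃ᶠ m : ℝ in atTop, ∃ R : ℤ[X], Irreducible R ∧ R.natDegree ≠ 0 ∧ R.natDegree ≤ n ∧
      mm R = m ∧ |aeval ξ R| ≤ m ^ (-w) := by
  refine frequently_atTop.mpr fun m => ?_
  obtain ⟨δ, d1, d2, d3⟩ := fin_lb {P : ℤ[X] | P ≠ 0 ∧ P.natDegree ≤ n ∧ Bd P (2 ^ n * m)}
    ((finite_Bd n _).subset fun P h => h.2) (fun P => |aeval ξ P| * mm P ^ w) fun P h =>
    mul_pos (abs_pos.mpr (ne_of_tr hξ h.1)) (Real.rpow_pos_of_pos (by linarith [one_le_mm h.1]) _)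
  obtain ⟨R, r1, r2, r3, r4⟩ := small n ξ w δ h0 hw d1 d2
  have a1 := one_le_mm r1.ne_zero
  refine ⟨mm R, le_of_not_gt fun h => r4.not_ge (d3 R ⟨r1.ne_zero, r3, (bd_mm r3).mono
    (mul_le_mul_of_nonneg_left h.le (by positivity))⟩), R, r1, r2, r3, rfl, ?_⟩
  rw [Real.rpow_neg (by linarith), ← one_div, le_div_iff₀ (by positivity)]
  linarith

lemma pair {ξ : ℝ} (hξ : Transcendental ℤ ξ) (n : ℕ) (hn : 1 ≤ n) (w : ℝ) (h0 : 0 ≤ w)
    (hw : w < n) : ∃ᶠ Y : ℝ in atTop, ∃ P Q : ℤ[X],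
      IsCoprime (P.map (Int.castRingHom ℚ)) (Q.map (Int.castRingHom ℚ)) ∧ P.natDegree = n ∧
      Q.natDegree ≤ n ∧ Bd P Y ∧ Bd Q Y ∧ |aeval ξ P| ≤ Y ^ (-w) ∧ |aeval ξ Q| ≤ Y ^ (-w) := by
  obtain ⟨v, v1, v2⟩ := exists_between hw
  obtain ⟨A, hA⟩ := exists_TC n ξ
  have hn' : (1 : ℝ) ≤ n := by exact_mod_cast hn
  have hK : (1 : ℝ) ≤ 2 ^ n * n ^ n :=
    one_le_mul_of_one_le_of_one_le (one_le_pow₀ one_le_two) (one_le_pow₀ hn')
  refine (tendsto_id.const_mul_atTop (show (0 : ℝ) < 2 ^ n * n ^ n by linarith)).frequently ?_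
  refine ((freq hξ n v (by linarith) v2).and_eventually ((eventually_ge_atTop (2 * (n + 1 : ℝ))).and
    ((ev (10 * A * (2 * (n + 1)) ^ n) 0 n (by linarith)).and
    ((ev (10 * A * (2 * (n + 1)) ^ n * (2 ^ n * n ^ n) ^ w) w n hw).and
    (ev ((|ξ| + n) ^ n * (2 ^ n * n ^ n) ^ w) (-v) (-w) (by linarith)))))).mono ?_
  rintro m ⟨⟨R, r1, r2, r3, r4, r5⟩, m1, m2, m3, m4⟩
  have m0 : 0 < m := by linarith
  rw [Real.rpow_natCast] at m2 m3
  rw [Real.rpow_zero, mul_one] at m2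
  obtain ⟨D, d1, d2, d3, d4⟩ := diri hA (m / (2 * (n + 1))) ((one_le_div (by positivity)).mpr m1)
    (by rw [div_pow, le_div_iff₀ (by positivity)]; exact m2.le)
  have a1 : ¬ R ∣ D := by
    rintro ⟨E, rfl⟩
    have b1 := mm_le d2 d3
    have b2 := one_le_mm (right_ne_zero_of_mul d1)
    rw [mm_mul, r4, show ((n : ℝ) + 1) * (m / (2 * (n + 1))) = m / 2 by field_simp] at b1
    nlinarith
  obtain ⟨c, c1, c2⟩ : ∃ c ∈ Icc (0 : ℤ) n, D.eval c ≠ 0 := by
    by_contra! h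
    exact d1 (eq_zero_of_natDegree_lt_card_of_eval_eq_zero' D _ h (by simp; omega))
  have c3 : |(c : ℝ)| ≤ n := by
    rw [mem_Icc] at c1
    rw [abs_of_nonneg (by exact_mod_cast c1.1)]
    exact_mod_cast c1.2
  have hp := r1.isPrimitive r2
  have hd : (R * (X - C c) ^ (n - R.natDegree)).natDegree = n := by
    rw [natDegree_mul r1.ne_zero (pow_ne_zero _ (X_sub_C_ne_zero c)), natDegree_pow,
      natDegree_X_sub_C]
    omega
  simp only [id]
  rw [Real.mul_rpow (by linarith) m0.le, Real.rpow_neg (x := 2 ^ n * n ^ n) (by linarith)]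
  refine ⟨R * (X - C c) ^ (n - R.natDegree), D, ?_, hd, d2, (bd_mm hd.le).mono ?_, d3.mono ?_, ?_,
    d4.trans ?_⟩
  · rw [Polynomial.map_mul, Polynomial.map_pow]
    refine IsCoprime.mul_left ?_ (IsCoprime.pow_left ?_)
    · exact (((IsPrimitive.Int.irreducible_iff_irreducible_map_cast hp).mp r1).coprime_iff_not_dvd).mpr
        fun h => a1 ((IsPrimitive.Int.dvd_iff_map_cast_dvd_map_cast _ _ hp).mpr h)
    · rw [Polynomial.map_sub, map_X, map_C]
      refine (irreducible_X_sub_C _).coprime_iff_not_dvd.mpr fun h => c2 ?_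
      have := dvd_iff_isRoot.mp h
      rw [IsRoot, eval_map, eval₂_hom] at this
      simpa using this
  · rw [mul_assoc, mm_mul, r4, mul_comm m]
    refine mul_le_mul_of_nonneg_left (mul_le_mul_of_nonneg_right ?_ m0.le) (by positivity)
    refine le_trans ?_ (pow_le_pow_right₀ hn' (Nat.sub_le n R.natDegree))
    induction n - R.natDegree with
    | zero => simp [mm]
    | succ j ih =>
      rw [pow_succ, pow_succ, mm_mul]
      refine mul_le_mul ih ?_ (mahlerMeasure_nonneg _) (by positivity)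
      rw [mm, Polynomial.map_sub, map_X, map_C, mahlerMeasure_X_sub_C, eq_intCast,
        Complex.norm_intCast]
      exact max_le hn' c3
  · exact (div_le_self m0.le (by linarith)).trans (le_mul_of_one_le_left m0.le hK)
  · rw [map_mul, map_pow, abs_mul, abs_pow, le_inv_mul_iff₀ (by positivity)]
    have b1 : |aeval ξ (X - C c)| ^ (n - R.natDegree) ≤ (|ξ| + n) ^ n := by
      refine (pow_le_pow_left₀ (abs_nonneg _) ?_ _).trans (pow_le_pow_right₀
        (by linarith [abs_nonneg ξ]) (Nat.sub_le n R.natDegree))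
      rw [map_sub, aeval_X, aeval_C, algebraMap_int_eq, eq_intCast]
      linarith [abs_sub ξ c]
    have b2 := mul_le_mul_of_nonneg_left (mul_le_mul r5 b1 (by positivity) (by positivity))
      (show (0 : ℝ) ≤ (2 ^ n * n ^ n) ^ w by positivity)
    linarith
  · rw [le_inv_mul_iff₀ (by positivity), div_pow, div_div_eq_mul_div, ← mul_div_assoc,
      div_le_iff₀ (by positivity), Real.rpow_neg m0.le, le_inv_mul_iff₀ (by positivity)]
    linarith

lemma main {ξ : ℝ} (hξ : Transcendental ℤ ξ) (n : ℕ) (hn : 1 ≤ n) (w : ℝ) (h0 : 0 ≤ w)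
    (hw : w < n) : ∃ᶠ Y : ℝ in atTop, ∃ P : ℤ[X], Irreducible P ∧ P.natDegree = n ∧ Bd P Y ∧
      0 < |aeval ξ P| ∧ |aeval ξ P| ≤ Y ^ (-w) := by
  obtain ⟨v, v1, v2⟩ := exists_between hw
  obtain ⟨ε, e1, e2⟩ := exists_between (show 0 < (v - w) / (1 + 2 * w) by
    apply div_pos <;> linarith)
  rw [lt_div_iff₀ (by linarith)] at e2
  refine (tendsto_rpow_atTop (show 0 < 1 + 2 * ε by linarith)).frequently ?_
  refine ((pair hξ n hn v (by linarith) v2).and_eventually ((hit n hn ε e1).and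
    ((eventually_ge_atTop 1).and ((ev 2 (1 + ε) (1 + 2 * ε) (by linarith)).and
    (ev 2 (ε + -v) ((1 + 2 * ε) * -w) (by linarith)))))).mono ?_
  rintro Y ⟨⟨P, Q, h1, h2, h3, h4, h5, h6, h7⟩, y1, y2, y3, y4⟩
  obtain ⟨t, t1, t2, t3, t4⟩ := y1 P Q h1 h2 h3 h4 h5
  have y0 : 0 < Y := by linarith
  have y5 := Real.one_le_rpow y2 e1.le
  have t5 : |(t : ℝ)| ≤ Y ^ ε := by rwa [abs_of_nonneg (by exact_mod_cast t1)]
  rw [Real.rpow_add y0] at y3 y4
  rw [Real.rpow_one] at y3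
  generalize hF : P + C t * Q = F at t3 t4
  have f1 : (1 : ℝ) ≤ |(F.content : ℝ)| := by
    have : F.content ≠ 0 := by
      rw [Ne, content_eq_zero_iff]; rintro rfl; simp at t3; omega
    exact_mod_cast Int.one_le_abs this
  have f2 := hF.trans F.eq_C_content_mul_primPart
  refine ⟨F.primPart, t4, by rwa [natDegree_primPart], fun i => ?_,
    abs_pos.mpr (ne_of_tr hξ t4.ne_zero), ?_⟩
  · have a1 := congrArg (fun G : ℤ[X] => |((coeff G i : ℤ) : ℝ)|) f2
    simp only [coeff_add, coeff_C_mul, Int.cast_add, Int.cast_mul, abs_mul] at a1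
    have a2 := abs_add_le (P.coeff i : ℝ) (t * Q.coeff i)
    rw [abs_mul] at a2
    have a3 := mul_le_mul t5 (h5 i) (abs_nonneg _) (by linarith)
    have a4 := le_mul_of_one_le_left (abs_nonneg (F.primPart.coeff i : ℝ)) f1
    nlinarith [h4 i]
  · have a1 := congrArg (fun G => |aeval ξ G|) f2
    simp only [map_add, map_mul, aeval_C, abs_mul] at a1
    simp only [algebraMap_int_eq, eq_intCast] at a1
    have a2 := abs_add_le (aeval ξ P) (t * aeval ξ Q)
    rw [abs_mul] at a2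
    have a3 := mul_le_mul t5 h7 (abs_nonneg _) (by linarith)
    have a4 := le_mul_of_one_le_left (abs_nonneg (aeval ξ F.primPart)) f1
    have a5 := le_mul_of_one_le_left (Real.rpow_nonneg y0.le (-v)) y5
    rw [← Real.rpow_mul y0.le]
    linarith

end Pool.Agent.H53.HitF
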