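import Mathlib

/-! The theorem of Hajós on factorizations of finite abelian groups into cyclic subsets. -/

namespace H53.Hj

open MonoidAlgebra Finset

variable {G : Type} [CommGroup G] [Fintype G]

lemma cm (a b : MonoidAlgebra ℤ G) (g : G) :
    (a * b).coeff g = ∑ h, a.coeff h * b.coeff (h⁻¹ * g) := by
  rw [coeff_mul_apply_left, Finsupp.sum_fintype]; simp

/-- the factors `1 - x` and `1 + x + ⋯ + x ^ (p - 1)` -/
noncomputable def F (k : G × ℕ) : MonoidAlgebra ℤ G :=
  if k.2 = 0 then 1 - single k.1 1 else ∑ i ∈ range k.2, single (k.1 ^ i) 1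

/-- product of factors -/
noncomputable def P (s : Multiset (G × ℕ)) : MonoidAlgebra ℤ G := (s.map F).prod

/-- supported in `H` -/
def In (H : Subgroup G) (a : MonoidAlgebra ℤ G) : Prop := ∀ g ∉ H, a.coeff g = 0

/-- the subgroup generated by `H` and the elements of `s` -/
def sp (H : Subgroup G) (s : Multiset (G × ℕ)) : Subgroup G :=
  H ⊔ Subgroup.closure {x | ∃ k ∈ s, k.1 = x}

/-- number of prime factors of the order -/
noncomputable def e (H : Subgroup G) : ℕ := ArithmeticFunction.cardFactors (Nat.card H)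

omit [Fintype G] in
@[simp] lemma P_cons (k : G × ℕ) (s : Multiset (G × ℕ)) : P (k ::ₘ s) = F k * P s := by simp [P]
omit [Fintype G] in
@[simp] lemma P_add (s t : Multiset (G × ℕ)) : P (s + t) = P s * P t := by simp [P]
omit [Fintype G] in
@[simp] lemma P_sing (k : G × ℕ) : P {k} = F k := by simp [P]
omit [Fintype G] in
@[simp] lemma P_zero : P (0 : Multiset (G × ℕ)) = 1 := by simp [P]

lemma In.mul {H : Subgroup G} {a b : MonoidAlgebra ℤ G} (ha : In H a) (hb : In H b) :
    In H (a * b) := fun g hg => by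
  rw [cm]
  refine sum_eq_zero fun h _ => ?_
  by_cases hh : h ∈ H
  · rw [hb _ fun h1 => hg (by simpa using H.mul_mem hh h1), mul_zero]
  · rw [ha _ hh, zero_mul]

omit [Fintype G] in
lemma In.single {H : Subgroup G} {x : G} (hx : x ∈ H) : In H (single x 1) := fun g hg => by
  rw [coeff_single, Finsupp.single_eq_of_ne fun e : g = x => hg (e ▸ hx)]

omit [Fintype G] in
lemma In.F {H : Subgroup G} {k : G × ℕ} (hx : k.1 ∈ H) : In H (F k) := fun g hg => by
  unfold Hj.F
  split_ifs
  · rw [coeff_sub, Finsupp.sub_apply, one_def, In.single H.one_mem g hg, In.single hx g hg, sub_zero]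
  · rw [coeff_sum, Finsupp.finset_sum_apply]
    exact sum_eq_zero fun i _ => In.single (H.pow_mem hx i) g hg

lemma In.P {H : Subgroup G} {s : Multiset (G × ℕ)} (hs : ∀ k ∈ s, k.1 ∈ H) : In H (P s) := by
  induction s using Multiset.induction_on with
  | empty => exact In.single H.one_mem
  | cons k s ih =>
    rw [P_cons]
    exact (In.F (hs k (by simp))).mul (ih fun j hj => hs j (by simp [hj]))

omit [Fintype G] in
lemma le_sp (H : Subgroup G) (s : Multiset (G × ℕ)) : H ≤ sp H s := le_sup_left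

omit [Fintype G] in
lemma mem_sp (H : Subgroup G) {s : Multiset (G × ℕ)} {k : G × ℕ} (hk : k ∈ s) : k.1 ∈ sp H s :=
  Subgroup.mem_sup_right (Subgroup.subset_closure ⟨k, hk, rfl⟩)

omit [Fintype G] in
lemma sp_le {H K : Subgroup G} {s : Multiset (G × ℕ)} (h : H ≤ K) (hs : ∀ k ∈ s, k.1 ∈ K) :
    sp H s ≤ K := sup_le h ((Subgroup.closure_le _).2 fun _ ⟨k, hk, e⟩ => e ▸ hs k hk)

lemma e_mono {H K : Subgroup G} (h : H ≤ K) : e H ≤ e K := by
  obtain ⟨c, hc⟩ := Subgroup.card_dvd_of_le h
  have : c ≠ 0 := fun e => Nat.card_pos.ne' (by rw [hc, e, mul_zero])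
  rw [e, e, hc, ArithmeticFunction.cardFactors_mul Nat.card_pos.ne' this]
  omega

lemma e_step {H : Subgroup G} {x : G} {q : ℕ} (hq : q.Prime) (hx : x ^ q ∈ H) :
    ∃ K, H ≤ K ∧ x ∈ K ∧ e K ≤ e H + 1 := by
  let K := (Subgroup.zpowers (QuotientGroup.mk' H x)).comap (QuotientGroup.mk' H)
  refine ⟨K, fun g hg => ?_, Subgroup.mem_zpowers _, ?_⟩
  · show QuotientGroup.mk' H g ∈ Subgroup.zpowers _
    rw [show QuotientGroup.mk' H g = 1 from (QuotientGroup.eq_one_iff g).2 hg]
    exact one_mem _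
  · have h1 : K.index = _ := Subgroup.index_comap_of_surjective _ (QuotientGroup.mk'_surjective H)
    have h2 := (Subgroup.zpowers (QuotientGroup.mk' H x)).card_mul_index
    have h3 := K.card_mul_index
    have h4 := H.card_mul_index
    rw [← h1, Nat.card_zpowers, ← Subgroup.index_eq_card] at h2
    have h5 : Nat.card K = Nat.card H * orderOf (QuotientGroup.mk' H x) :=
      Nat.eq_of_mul_eq_mul_right (Nat.pos_of_ne_zero K.index_ne_zero_of_finite) (by
        rw [h3, mul_assoc, h2, h4])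
    have h6 : orderOf (QuotientGroup.mk' H x) ∣ q := orderOf_dvd_of_pow_eq_one (by
      rw [← map_pow]; exact (QuotientGroup.eq_one_iff _).2 hx)
    rw [e, e, h5, ArithmeticFunction.cardFactors_mul Nat.card_pos.ne' (orderOf_pos _).ne']
    rcases (Nat.dvd_prime hq).1 h6 with h | h <;> rw [h]
    · simp
    · rw [ArithmeticFunction.cardFactors_apply_prime hq]

omit [Fintype G] in
lemma geom (x : G) (q : ℕ) : (∑ i ∈ range q, single (x ^ i) (1 : ℤ)) * (1 - single x 1) =
    1 - single (x ^ q) 1 := by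
  have := geom_sum_mul_neg (single x (1 : ℤ)) q
  simpa only [single_pow, one_pow] using this

omit [Fintype G] in
lemma base0 {H : Subgroup G} {a : MonoidAlgebra ℤ G} (ha : In H a) (h0 : a ≠ 0) {x : G}
    (h : a * (1 - single x 1) = 0) : x ∈ H := by
  obtain ⟨g, hg⟩ : ∃ g, a.coeff g ≠ 0 := by
    by_contra! hc; exact h0 (by ext g; simp [hc])
  have h1 : g ∈ H := by by_contra hc; exact hg (ha g hc)
  rw [mul_sub, mul_one, sub_eq_zero] at h
  rw [h, coeff_mul_single_apply, mul_one] at hg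
  have h2 : g * x⁻¹ ∈ H := by by_contra hc; exact hg (ha _ hc)
  simpa using H.mul_mem (H.inv_mem h2) h1

omit [Fintype G] in
lemma base {H : Subgroup G} {a : MonoidAlgebra ℤ G} (ha : In H a) (h0 : a ≠ 0) {k : G × ℕ}
    (hk : k.2 = 0 ∨ k.2.Prime) (h : a * F k = 0) : k.1 ∈ H := by
  obtain ⟨x, p⟩ := k
  rcases hk with rfl | hp
  · exact base0 ha h0 (by simpa [F] using h)
  simp only [F, hp.ne_zero, if_false] at h
  have h1 : x ^ p ∈ H := base0 ha h0 (by rw [← geom, ← mul_assoc, h, zero_mul])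
  by_contra hx
  obtain ⟨g, hg⟩ : ∃ g, a.coeff g ≠ 0 := by
    by_contra! hc; exact h0 (by ext g; simp [hc])
  have h2 : g ∈ H := by by_contra hc; exact hg (ha g hc)
  have h3 := congrArg (fun b => b.coeff g) h
  simp only [mul_sum, coeff_sum, Finsupp.finset_sum_apply, coeff_mul_single_apply, mul_one] at h3
  rw [sum_eq_single 0 (fun i hi hi0 => ha _ fun hc => hx ?_) (by simp [hp.ne_zero])] at h3
  · simp [hg] at h3
  · have h4 : x ^ i ∈ H := by simpa using H.mul_mem (H.inv_mem hc) h2
    have h5 : Nat.Coprime i p := (Nat.coprime_of_lt_prime hi0 (mem_range.1 hi) hp).symm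
    have h6 := H.mul_mem (H.zpow_mem h4 (Nat.gcdA i p)) (H.zpow_mem h1 (Nat.gcdB i p))
    rwa [← zpow_natCast, ← zpow_natCast, ← zpow_mul, ← zpow_mul, ← zpow_add, ← Nat.gcd_eq_gcd_ab,
      h5.gcd_eq_one, Nat.cast_one, zpow_one] at h6

/-- weight for the induction -/
noncomputable def W (s : Multiset (G × ℕ)) : ℕ :=
  (s.map fun k => orderOf k.1 + if k.2 = 0 then 0 else 1).sum

lemma W_pos {s : Multiset (G × ℕ)} (h : s ≠ 0) : 0 < W s := by
  obtain ⟨k, hk⟩ := Multiset.exists_mem_of_ne_zero h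
  obtain ⟨t, rfl⟩ := Multiset.exists_cons_of_mem hk
  have := orderOf_pos k.1
  simp only [W, Multiset.map_cons, Multiset.sum_cons]; omega

omit [Fintype G] in
lemma W_add (s t : Multiset (G × ℕ)) : W (s + t) = W s + W t := by simp [W]

omit [Fintype G] in
lemma minimal {a : MonoidAlgebra ℤ G} {s : Multiset (G × ℕ)} (h : a * P s = 0) :
    ∃ t ≤ s, a * P t = 0 ∧ ∀ u < t, a * P u ≠ 0 := by
  obtain ⟨t, ht, h1⟩ := (wellFounded_lt (α := Multiset (G × ℕ))).has_min
    {t | t ≤ s ∧ a * P t = 0} ⟨s, le_rfl, h⟩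
  exact ⟨t, ht.1, ht.2, fun u hu h2 => h1 u ⟨hu.le.trans ht.1, h2⟩ hu⟩

lemma key (n : ℕ) : ∀ (s : Multiset (G × ℕ)) (H : Subgroup G) (a : MonoidAlgebra ℤ G), W s ≤ n →
    (∀ k ∈ s, k.2 = 0 ∨ k.2.Prime) → In H a → s ≠ 0 → a * P s = 0 → (∀ u < s, a * P u ≠ 0) →
    e (sp H s) < e H + s.card := by
  induction n with
  | zero => exact fun s _ _ h _ _ h0 => absurd (W_pos h0) (by omega)
  | succ n ih =>
    intro s H a hW hs ha h0 h hm
    have a0 : a ≠ 0 := by simpa using hm 0 (bot_lt_iff_ne_bot.2 h0)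
    obtain ⟨k, hk⟩ := Multiset.exists_mem_of_ne_zero h0
    obtain ⟨s', rfl⟩ := Multiset.exists_cons_of_mem hk
    rcases eq_or_ne s' 0 with rfl | h1
    · have := e_mono (sp_le le_rfl (s := k ::ₘ 0) fun j hj => by
        rw [Multiset.mem_cons] at hj
        rcases hj with rfl | hj
        · exact base ha a0 (hs _ hk) (by simpa using h)
        · simp at hj)
      simp; omega
    have h2 : a * F k ≠ 0 := by
      simpa using hm (k ::ₘ 0) (Multiset.cons_lt_cons _ (bot_lt_iff_ne_bot.2 h1))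
    obtain ⟨q, hq, ⟨c, hc⟩, hw⟩ : ∃ q, q.Prime ∧ F k ∣ F (k.1 ^ q, 0) ∧
        W {(k.1 ^ q, 0)} < W {k} := by
      rcases hs k hk with hp | hp
      · have hx : orderOf k.1 ≠ 1 := fun e => h2 (by simp [F, hp, orderOf_eq_one_iff.1 e, one_def])
        refine ⟨_, Nat.minFac_prime hx, ⟨_, by simp only [F, hp, if_true]; rw [mul_comm, geom]⟩, ?_⟩
        simp only [W, Multiset.map_singleton, Multiset.sum_singleton, hp, if_true, add_zero]
        rw [orderOf_pow_of_dvd (Nat.minFac_prime hx).ne_zero (Nat.minFac_dvd _)]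
        exact Nat.div_lt_self (orderOf_pos _) (Nat.minFac_prime hx).one_lt
      · refine ⟨_, hp, ⟨_, by simp only [F, hp.ne_zero, if_true, if_false]; rw [geom]⟩, ?_⟩
        simp only [W, Multiset.map_singleton, Multiset.sum_singleton, hp.ne_zero, if_true, if_false]
        have := Nat.le_of_dvd (orderOf_pos k.1) (orderOf_pow_dvd (x := k.1) k.2)
        omega
    have hW' : W (k ::ₘ s') = W {k} + W s' := by rw [← W_add, Multiset.singleton_add]
    by_cases hx : k.1 ^ q ∈ H
    · obtain ⟨K, h3, h4, h5⟩ := e_step hq hx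
      have h6 := ih s' K (a * F k) (by omega) (fun j hj => hs j (by simp [hj]))
        (In.mul (fun g hg => ha g fun hc => hg (h3 hc)) (In.F h4)) h1 (by rwa [mul_assoc, ← P_cons])
        fun u hu => by rw [mul_assoc, ← P_cons]; exact hm _ (Multiset.cons_lt_cons _ hu)
      have h7 := e_mono (sp_le (h3.trans (le_sp K s')) (s := k ::ₘ s') fun j hj => by
        rcases Multiset.mem_cons.1 hj with rfl | hj
        exacts [le_sp _ _ h4, mem_sp _ hj])
      simp; omega
    · obtain ⟨t, ht, h3, h4⟩ := minimal (a := a) (s := (k.1 ^ q, 0) ::ₘ s') (by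
        rw [P_cons, hc]; rw [P_cons] at h; linear_combination c * h)
      have h5 : (k.1 ^ q, 0) ∈ t := by
        by_contra hc
        exact hm t (((Multiset.le_cons_of_notMem hc).1 ht).trans_lt (Multiset.lt_cons_self _ _)) h3
      obtain ⟨S, rfl⟩ := Multiset.exists_cons_of_mem h5
      obtain ⟨T, rfl⟩ := Multiset.le_iff_exists_add.1 ((Multiset.cons_le_cons_iff _).1 ht)
      have S0 : S ≠ 0 := by
        rintro rfl
        exact hx (base ha a0 (k := (k.1 ^ q, 0)) (Or.inl rfl) (by simpa using h3))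
      have hS := W_pos S0
      rw [W_add] at hW'
      have h6 := ih _ H a (by rw [← Multiset.singleton_add, W_add]; omega) (fun j hj => by
        rcases Multiset.mem_cons.1 hj with rfl | hj
        exacts [Or.inl rfl, hs j (by simp [hj])]) ha (by simp) h3 h4
      set K := sp H ((k.1 ^ q, 0) ::ₘ S)
      have eq : k ::ₘ (S + T) = S + k ::ₘ T := by simp
      have h7 := ih (k ::ₘ T) K (a * P S) (by rw [← Multiset.singleton_add, W_add]; omega)
        (fun j hj => hs j (by rw [eq]; exact Multiset.mem_add.2 (Or.inr hj)))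
        (In.mul (fun g hg => ha g fun hc => hg (le_sp _ _ hc))
          (In.P fun j hj => mem_sp _ (by simp [hj]))) (by simp)
        (by rwa [mul_assoc, ← P_add, ← eq]) fun u hu => by
          rw [mul_assoc, ← P_add]; exact hm _ (eq ▸ add_lt_add_right hu S)
      have h8 := e_mono (sp_le ((le_sp H _).trans (le_sp K (k ::ₘ T))) (s := k ::ₘ (S + T))
        fun j hj => by
          rw [eq] at hj
          rcases Multiset.mem_add.1 hj with hj | hj
          exacts [le_sp _ _ (mem_sp _ (by simp [hj])), mem_sp _ hj])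
      simp at h6 h7 ⊢; omega

end H53.Hj
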