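import Pool.Agent.H53.HjA

/-! The theorem of Hajós, second part. -/

namespace H53.Hj

open MonoidAlgebra Finset

variable {G : Type} [CommGroup G] [Fintype G]

open Classical in
/-- the sum of the elements of `K` -/
noncomputable def Ind (K : Subgroup G) : MonoidAlgebra ℤ G :=
  ∑ g ∈ univ.filter (· ∈ K), single g 1

open Classical in
lemma Ind_coeff (K : Subgroup G) (g : G) : (Ind K).coeff g = if g ∈ K then 1 else 0 := by
  simp [Ind, Finsupp.single_apply]

lemma Ind_mul {K : Subgroup G} {x : G} (hx : x ∈ K) : Ind K * (1 - single x 1) = 0 := by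
  rw [mul_sub, mul_one, sub_eq_zero]
  ext g
  rw [coeff_mul_single_apply, mul_one, Ind_coeff, Ind_coeff]
  have : g * x⁻¹ ∈ K ↔ g ∈ K := K.mul_mem_cancel_right (K.inv_mem hx)
  by_cases hg : g ∈ K
  · rw [if_pos hg, if_pos (this.2 hg)]
  · rw [if_neg hg, if_neg fun h => hg (this.1 h)]

/-- augmentation -/
noncomputable def aug (a : MonoidAlgebra ℤ G) : ℤ := ∑ g, a.coeff g

lemma aug_mul (a b : MonoidAlgebra ℤ G) : aug (a * b) = aug a * aug b := by
  simp only [aug, cm]
  rw [sum_comm, sum_mul]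
  refine sum_congr rfl fun h _ => ?_
  rw [← mul_sum]
  exact congrArg _ (Equiv.sum_comp (Equiv.mulLeft h⁻¹) fun g => b.coeff g)

lemma aug_single (x : G) : aug (single x 1) = 1 := by classical simp [aug, Finsupp.single_apply]

lemma aug_P {s : Multiset (G × ℕ)} (hs : ∀ k ∈ s, k.2.Prime) :
    ∃ m : ℕ, m ≠ 0 ∧ aug (P s) = m ∧ ArithmeticFunction.cardFactors m = s.card := by
  induction s using Multiset.induction_on with
  | empty => exact ⟨1, one_ne_zero, aug_single 1, by simp⟩
  | cons k s ih =>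
    obtain ⟨m, h1, h2, h3⟩ := ih fun j hj => hs j (by simp [hj])
    have hp := hs k (by simp)
    refine ⟨k.2 * m, mul_ne_zero hp.ne_zero h1, ?_, ?_⟩
    · have : aug (F k) = k.2 := by
        simp only [F, hp.ne_zero, if_false, aug, coeff_sum, Finsupp.finset_sum_apply]
        rw [sum_comm]
        exact (sum_congr rfl fun i _ => aug_single _).trans (by simp)
      rw [P_cons, aug_mul, h2, this, Nat.cast_mul]
    · rw [ArithmeticFunction.cardFactors_mul hp.ne_zero h1, h3,
        ArithmeticFunction.cardFactors_apply_prime hp, Multiset.card_cons, add_comm]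

lemma nn_P {s : Multiset (G × ℕ)} (hs : ∀ k ∈ s, k.2.Prime) (g : G) : 0 ≤ (P s - 1).coeff g := by
  classical
  induction s using Multiset.induction_on generalizing g with
  | empty => simp
  | cons k s ih =>
    have h1 := ih fun j hj => hs j (by simp [hj])
    have hp := hs k (by simp)
    have h2 : ∀ g, 0 ≤ (F k - 1).coeff g := fun g => by
      obtain ⟨m, hm⟩ := Nat.exists_eq_succ_of_ne_zero hp.ne_zero
      simp only [F, hm, Nat.succ_ne_zero, if_false, sum_range_succ', pow_zero, one_def,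
        add_sub_cancel_right, coeff_sum, Finsupp.finset_sum_apply, coeff_single,
        Finsupp.single_apply]
      exact sum_nonneg fun i _ => by split_ifs <;> simp
    rw [show P (k ::ₘ s) - 1 = (F k - 1) * (P s - 1) + (F k - 1) + (P s - 1) by rw [P_cons]; ring,
      coeff_add, coeff_add, Finsupp.add_apply, Finsupp.add_apply, cm]
    exact add_nonneg (add_nonneg (sum_nonneg fun h _ => mul_nonneg (h2 _) (h1 _)) (h2 g)) (h1 g)

lemma sub_fact {S T : Multiset (G × ℕ)} (hS : ∀ k ∈ S, k.2.Prime) (hT : ∀ k ∈ T, k.2.Prime)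
    {H K : Subgroup G} (hK : H ≤ K) (hH : ∀ k ∈ S, k.1 ∈ H) (h : P (S + T) = Ind K)
    (he : e H ≤ S.card) : P S = Ind H := by
  classical
  let Q : MonoidAlgebra ℤ G := ofCoeff ((P T).coeff.filter (· ∈ H))
  have hQ : ∀ g, Q.coeff g = if g ∈ H then (P T).coeff g else 0 := fun g => Finsupp.filter_apply ..
  have h1 : P S * Q = Ind H := by
    ext g
    by_cases hg : g ∈ H
    · rw [Ind_coeff, if_pos hg, ← if_pos (hK hg) (t := (1 : ℤ)) (e := 0), ← Ind_coeff, ← h, P_add,
        cm, cm]
      refine sum_congr rfl fun x _ => ?_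
      by_cases hx : x ∈ H
      · rw [hQ, if_pos (H.mul_mem (H.inv_mem hx) hg)]
      · rw [In.P hH x hx, zero_mul, zero_mul]
    · rw [Ind_coeff, if_neg hg]
      exact (In.P hH).mul (fun g hg => by rw [hQ, if_neg hg]) g hg
  have h2 : ∀ g, 0 ≤ (Q - 1).coeff g := fun g => by
    have := nn_P hT g
    rw [coeff_sub, Finsupp.sub_apply] at this ⊢
    rw [hQ]
    split_ifs with hg
    · exact this
    · rw [one_def, In.single H.one_mem g hg]; simp
  have h3 : aug (Q - 1) = aug Q - 1 := by
    rw [← aug_single (1 : G)]; simp [aug, one_def]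
  obtain ⟨q, hq⟩ := Int.eq_ofNat_of_zero_le (sum_nonneg fun g (_ : g ∈ univ) => h2 g)
  obtain ⟨m, h4, h5, h6⟩ := aug_P hS
  have h7 : Nat.card H = m * (q + 1) := by
    have := congrArg aug h1
    rw [aug_mul, h5, show aug Q = q + 1 by rw [← hq, ← aug, h3]; ring] at this
    simp only [aug, Ind_coeff, sum_boole] at this
    rw [Nat.card_eq_fintype_card, Fintype.card_subtype]
    exact_mod_cast this.symm
  rw [e, h7, ArithmeticFunction.cardFactors_mul h4 q.succ_ne_zero, h6, add_le_iff_nonpos_right,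
    Nat.le_zero, ArithmeticFunction.cardFactors_eq_zero_iff_eq_zero_or_one] at he
  have h8 : Q - 1 = 0 := by
    ext g
    exact (sum_eq_zero_iff_of_nonneg fun g _ => h2 g).1 (hq.trans (by omega)) g (mem_univ g)
  rw [← h1, sub_eq_zero.1 h8, mul_one]

lemma hajos_prime (n : ℕ) : ∀ (s : Multiset (G × ℕ)) (K : Subgroup G), s.card ≤ n → s ≠ 0 →
    (∀ k ∈ s, k.2.Prime) → (∀ k ∈ s, k.1 ∈ K) → P s = Ind K → ∃ k ∈ s, k.1 ^ k.2 = 1 := by
  induction n with
  | zero => exact fun s _ h h0 => absurd (by simpa using h) h0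
  | succ n ih =>
    intro s K hn h0 hs hK h
    obtain ⟨k, hk⟩ := Multiset.exists_mem_of_ne_zero h0
    obtain ⟨s', rfl⟩ := Multiset.exists_cons_of_mem hk
    by_cases hz : k.1 ^ k.2 = 1
    · exact ⟨k, hk, hz⟩
    have h1 : orderOf (k.1 ^ k.2) ≠ 1 := fun e => hz (orderOf_eq_one_iff.1 e)
    set y := (k.1 ^ k.2) ^ (orderOf (k.1 ^ k.2) / (orderOf (k.1 ^ k.2)).minFac) with hy
    have h2 : (orderOf y).Prime := by
      rw [hy, orderOf_pow_orderOf_div (orderOf_pos _).ne' (Nat.minFac_dvd _)]
      exact Nat.minFac_prime h1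
    have h3 : (1 - single y 1) * P s' = 0 := by
      have h4 := Ind_mul (hK k hk)
      rw [← h, P_cons, F, if_neg (hs k hk).ne_zero] at h4
      rw [hy, ← geom, ← geom]
      linear_combination (∑ i ∈ range (orderOf (k.1 ^ k.2) / (orderOf (k.1 ^ k.2)).minFac),
        single ((k.1 ^ k.2) ^ i) (1 : ℤ)) * h4
    obtain ⟨S, hS, h4, h5⟩ := minimal h3
    obtain ⟨T, rfl⟩ := Multiset.le_iff_exists_add.1 hS
    have S0 : S ≠ 0 := by
      rintro rfl
      have : y ∈ (⊥ : Subgroup G) :=
        base0 (In.single (one_mem _)) (by rw [← one_def]; exact one_ne_zero) (by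
          rw [← one_def]; simpa using h4)
      rw [Subgroup.mem_bot, ← orderOf_eq_one_iff] at this
      exact h2.ne_one this
    have hp : ∀ j ∈ S, j.2.Prime := fun j hj => hs j (by simp [hj])
    have h6 := key _ S (Subgroup.zpowers y) _ le_rfl (fun j hj => Or.inr (hp j hj))
      (In.F (k := (y, 0)) (Subgroup.mem_zpowers y)) S0 h4 h5
    have h7 : e (Subgroup.zpowers y) = 1 := by
      rw [e, Nat.card_zpowers, ArithmeticFunction.cardFactors_apply_prime h2]
    have h8 := sub_fact (T := k ::ₘ T) (H := sp (Subgroup.zpowers y) S) hp (fun j hj => hs j (by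
        rcases Multiset.mem_cons.1 hj with rfl | hj <;> simp [*]))
      (sp_le ((Subgroup.zpowers_le).2 (K.pow_mem (K.pow_mem (hK k hk) _) _))
        fun j hj => hK j (by simp [hj])) (fun j hj => mem_sp _ hj) (by rw [← h]; simp)
      (by omega)
    obtain ⟨j, hj, h9⟩ := ih S _ (by simp at hn; omega) S0 hp (fun j hj => mem_sp _ hj) h8
    exact ⟨j, by simp [hj], h9⟩

omit [Fintype G] in
lemma geom_mul (x : G) (p r : ℕ) : ∑ i ∈ range (p * r), single (x ^ i) (1 : ℤ) =
    (∑ i ∈ range p, single (x ^ i) (1 : ℤ)) * ∑ i ∈ range r, single ((x ^ p) ^ i) (1 : ℤ) := by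
  induction r with
  | zero => simp
  | succ r ih =>
    rw [Nat.mul_succ, sum_range_add, ih, sum_range_succ, mul_add, add_right_inj, sum_mul]
    simp [single_mul_single, ← pow_mul, ← pow_add, add_comm]

theorem hajos (n : ℕ) : ∀ s : Multiset (G × ℕ), (s.map fun k => k.2 - 1).sum ≤ n → s ≠ 0 →
    (∀ k ∈ s, 2 ≤ k.2) → P s = Ind ⊤ → ∃ k ∈ s, k.1 ^ k.2 = 1 := by
  induction n with
  | zero =>
    intro s h h0 hs
    obtain ⟨k, hk⟩ := Multiset.exists_mem_of_ne_zero h0
    obtain ⟨s', rfl⟩ := Multiset.exists_cons_of_mem hk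
    have := hs k hk
    simp only [Multiset.map_cons, Multiset.sum_cons] at h; omega
  | succ n ih =>
    intro s hn h0 hs h
    by_cases hp : ∀ k ∈ s, k.2.Prime
    · exact hajos_prime _ s ⊤ le_rfl h0 hp (fun _ _ => trivial) h
    push Not at hp
    obtain ⟨⟨x, r⟩, hk, hp⟩ := hp
    obtain ⟨s', rfl⟩ := Multiset.exists_cons_of_mem hk
    obtain ⟨p, q, h1, h2, rfl⟩ := (Nat.not_prime_iff_exists_mul_eq (hs _ hk)).1 hp
    have h3 : 2 ≤ p := by
      rcases p with _ | _ | p <;> simp at h1 h2 ⊢
    have h4 : 2 ≤ q := by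
      rcases q with _ | _ | q <;> simp at h1 h2 ⊢
    have h5 : P ((x, p) ::ₘ (x ^ p, q) ::ₘ s') = Ind ⊤ := by
      rw [← h]
      simp only [P_cons, F, ← mul_assoc]
      rw [if_neg (by omega), if_neg (by omega), if_neg (by positivity), geom_mul]
    obtain ⟨j, hj, h6⟩ := ih _ (by
      simp only [Multiset.map_cons, Multiset.sum_cons] at hn ⊢
      have : p + q ≤ p * q := by nlinarith
      omega) (by simp) (fun j hj => by
      simp only [Multiset.mem_cons] at hj
      rcases hj with rfl | rfl | hj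
      exacts [h3, h4, hs j (by simp [hj])]) h5
    simp only [Multiset.mem_cons] at hj
    rcases hj with rfl | rfl | hj
    · exfalso
      simp only at h6
      rw [P_cons, P_cons, mul_left_comm, F, if_neg (by omega)] at h5
      have h7 := congrArg (fun b => b.coeff 1) h5
      simp only [h6, one_pow, sum_const, card_range, smul_mul_assoc, ← one_def, one_mul,
        Ind_coeff, Subgroup.mem_top, if_true, coeff_smul_apply] at h7
      rw [nsmul_eq_mul] at h7
      have := Int.eq_one_of_mul_eq_one_right (by positivity) h7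
      omega
    · exact ⟨_, hk, by rw [pow_mul]; exact h6⟩
    · exact ⟨j, by simp [hj], h6⟩

end H53.Hj
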