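import Pool.Agent.H53.HjB

/-! Minkowski's conjecture (Hajós): a lattice tiling by cubes has two cubes sharing a facet. -/

namespace H53.Hj

open Finset Filter Topology

variable {ι : Type} [Fintype ι] [DecidableEq ι]

/-- tiling by the product of the sets `{fl i = 0}` -/
structure Til (Λ : AddSubgroup (ι → ℝ)) (fl : ι → ℝ → ℤ) : Prop where
  ex : ∀ x : ι → ℝ, ∃ v ∈ Λ, ∀ i, fl i (x i - v i) = 0
  un : ∀ x : ι → ℝ, ∀ v ∈ Λ, ∀ w ∈ Λ, (∀ i, fl i (x i - v i) = 0) → (∀ i, fl i (x i - w i) = 0) →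
    v = w

lemma line {D : Set ℝ} (h1 : ∀ t, ∃ s ∈ D, ⌊t - s⌋ = 0)
    (h2 : ∀ t, ∀ s ∈ D, ∀ s' ∈ D, ⌊t - s⌋ = 0 → ⌊t - s'⌋ = 0 → s = s') {s : ℝ} (hs : s ∈ D)
    (m : ℤ) : s + m ∈ D := by
  simp only [Int.floor_eq_zero_iff, Set.mem_Ico] at h1 h2
  have up : ∀ s ∈ D, s + 1 ∈ D := fun s hs => by
    obtain ⟨u, hu, h3, h4⟩ := h1 (s + 1)
    rcases h3.eq_or_lt with h | h
    · rwa [show s + 1 = u by linarith]
    · have := h2 u s hs u hu ⟨by linarith, by linarith⟩ (by simp)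
      linarith
  induction m using Int.induction_on with
  | zero => simpa
  | succ m ih => convert up _ ih using 1; push_cast; ring
  | pred m ih =>
    obtain ⟨u, hu, h3, h4⟩ := h1 (s + (-m : ℤ) - 1)
    have := h2 (s + (-m : ℤ)) _ ih _ (up u hu) (by simp) ⟨by linarith, by linarith⟩
    convert hu using 1
    push_cast at this ⊢; linarith

lemma Til.step {Λ : AddSubgroup (ι → ℝ)} {fl : ι → ℝ → ℤ} (h : Til Λ fl) {k : ι}
    (hk : fl k = Int.floor) {g : ℝ → ℤ} (hg : ∀ x (m : ℤ), g (x + m) = g x + m) :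
    Til Λ (Function.update fl k g) := by
  have A : ∀ (x v : ι → ℝ) (t : ℝ), (∀ i, fl i (Function.update x k t i - v i) = 0) ↔
      ⌊t - v k⌋ = 0 ∧ ∀ i ≠ k, fl i (x i - v i) = 0 := fun x v t => by
    rw [Function.forall_update_iff x (fun i y => fl i (y - v i) = 0), hk]
  have B : ∀ x v : ι → ℝ, (∀ i, Function.update fl k g i (x i - v i) = 0) ↔
      g (x k - v k) = 0 ∧ ∀ i ≠ k, fl i (x i - v i) = 0 := fun x v =>
    Function.forall_update_iff fl (fun i (f : ℝ → ℤ) => f (x i - v i) = 0)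
  have U : ∀ (x : ι → ℝ) t, ∀ s ∈ {s | ∃ v ∈ Λ, v k = s ∧ ∀ i ≠ k, fl i (x i - v i) = 0},
      ∀ s' ∈ {s | ∃ v ∈ Λ, v k = s ∧ ∀ i ≠ k, fl i (x i - v i) = 0},
      ⌊t - s⌋ = 0 → ⌊t - s'⌋ = 0 → s = s' := by
    rintro x t _ ⟨v, hv, rfl, h1⟩ _ ⟨w, hw, rfl, h2⟩ h3 h4
    rw [h.un _ v hv w hw ((A x v t).2 ⟨h3, h1⟩) ((A x w t).2 ⟨h4, h2⟩)]
  have L := fun x : ι → ℝ => @line _ (fun t => by
    obtain ⟨v, hv, h1⟩ := h.ex (Function.update x k t)
    exact ⟨_, ⟨v, hv, rfl, ((A x v t).1 h1).2⟩, ((A x v t).1 h1).1⟩) (U x)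
  refine ⟨fun x => ?_, fun x v hv w hw h1 h2 => ?_⟩
  · obtain ⟨v, hv, h1⟩ := h.ex x
    obtain ⟨w, hw, h2, h3⟩ := L x ⟨v, hv, rfl, fun i _ => h1 i⟩ (g (x k - v k))
    refine ⟨w, hw, (B x w).2 ⟨?_, h3⟩⟩
    have := hg (x k - w k) (g (x k - v k))
    rw [show x k - w k + g (x k - v k) = x k - v k by rw [h2]; ring] at this
    omega
  · rw [B] at h1 h2
    have h3 := U x (v k) _ ⟨v, hv, rfl, h1.2⟩ _ (L x ⟨w, hw, rfl, h2.2⟩ ⌊v k - w k⌋) (by simp)
      (by rw [← sub_sub, Int.floor_sub_intCast, sub_self])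
    have h4 := hg (x k - v k) ⌊v k - w k⌋
    rw [show x k - v k + ⌊v k - w k⌋ = x k - w k by linarith, h1.1, h2.1, zero_add] at h4
    rw [← h4, Int.cast_zero, add_zero] at h3
    exact h.un _ v hv w hw ((A x v (v k)).2 ⟨by simp, h1.2⟩) ((A x w (v k)).2 ⟨by simp [h3], h2.2⟩)

lemma Til.all {Λ : AddSubgroup (ι → ℝ)} (h : Til Λ fun _ => Int.floor) {g : ℝ → ℤ}
    (hg : ∀ x (m : ℤ), g (x + m) = g x + m) : Til Λ fun _ => g := by
  have : ∀ S : Finset ι, Til Λ fun i => if i ∈ S then g else Int.floor := fun S => by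
    induction S using Finset.induction_on with
    | empty => simpa using h
    | insert k S hk ih =>
      convert ih.step (k := k) (if_neg hk) hg using 1
      ext1 i
      by_cases e : i = k <;> simp [e]
  simpa using this univ

lemma theta (F : Finset ℝ) (hF : ∀ s ∈ F, 0 < s ∧ s < 1) :
    ∃ θ : ℝ →ₗ[ℚ] ℚ, θ 1 = 1 ∧ ∀ s ∈ F, 0 < θ s ∧ θ s < 1 := by
  let b := Module.Basis.ofVectorSpace ℚ ℝ
  let Φ := fun (s : ℝ) (y : _ → ℝ) => ∑ i ∈ (b.repr s).support, (b.repr s i : ℝ) * y i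
  have h1 : ∀ s, Φ s b = s := fun s => by
    conv_rhs => rw [← b.linearCombination_repr s, Finsupp.linearCombination_apply, Finsupp.sum]
    simp [Φ, Rat.smul_def]
  have h2 : ∀ s, 0 < s → ∀ᶠ y in 𝓝 (b : _ → ℝ), 0 < Φ s y := fun s hs =>
    (by fun_prop : Continuous (Φ s)).continuousAt.eventually (lt_mem_nhds (by rwa [h1]))
  obtain ⟨q, h3, h4⟩ := (DenseRange.piMap fun _ => Rat.denseRange_cast).mem_nhds ((h2 1 one_pos).and
    ((eventually_all_finset F).2 fun s hs => (h2 s (hF s hs).1).and (h2 (1 - s) (by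
      linarith [(hF s hs).2]))))
  have h5 : ∀ s, Φ s (Pi.map (fun _ => ((↑) : ℚ → ℝ)) q) = b.constr ℚ q s := fun s => by
    simp [Φ, Module.Basis.constr_apply, Finsupp.sum]
  simp only [h5, Rat.cast_pos, map_sub, sub_pos] at h3 h4
  refine ⟨(b.constr ℚ q 1)⁻¹ • b.constr ℚ q, by simp [h3.ne'], fun s hs => ?_⟩
  simp only [LinearMap.smul_apply, smul_eq_mul]
  exact ⟨mul_pos (inv_pos.2 h3) (h4 s hs).1, (inv_mul_lt_one₀ h3).2 (h4 s hs).2⟩

lemma box {Λ : AddSubgroup (ι → ℤ)} [Nonempty ι] {N : ℕ} (hN : 2 ≤ N)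
    (ex : ∀ z, ∃ c : ι → Fin N, z - (fun i => (c i : ℤ)) ∈ Λ)
    (un : ∀ c c' : ι → Fin N, (fun i => (c i : ℤ)) - (fun i => (c' i : ℤ)) ∈ Λ → c = c') :
    ∃ i, Pi.single i (N : ℤ) ∈ Λ := by
  let G := Multiplicative ((ι → ℤ) ⧸ Λ)
  let φ : (ι → Fin N) → G := fun c => .ofAdd (QuotientAddGroup.mk' Λ fun i => (c i : ℤ))
  have hφ : Function.Bijective φ := ⟨fun c c' h => un c c' (QuotientAddGroup.eq_iff_sub_mem.1 h),
    fun g => by
      obtain ⟨z, hz⟩ := QuotientAddGroup.mk'_surjective Λ g.toAdd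
      obtain ⟨c, hc⟩ := ex z
      exact ⟨c, (QuotientAddGroup.eq_iff_sub_mem.2 hc).symm.trans hz⟩⟩
  letI : Fintype G := Fintype.ofBijective φ hφ
  let a : ι → G := fun i => .ofAdd (QuotientAddGroup.mk' Λ (Pi.single i 1))
  have ha : ∀ i (m : ℕ), a i ^ m = .ofAdd (QuotientAddGroup.mk' Λ (Pi.single i m)) := fun i m => by
    rw [← ofAdd_nsmul, ← map_nsmul, ← Pi.single_nsmul]; simp
  obtain ⟨k, hk, h⟩ := hajos _ (univ.val.map fun i => (a i, N)) le_rfl
    (by simp [univ_nonempty.ne_empty]) (by simpa) (by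
    rw [P, Multiset.map_map, ← prod_eq_multiset_prod]
    simp only [Function.comp, F, show N ≠ 0 by omega, if_false, ← Fin.sum_univ_eq_sum_range
      (fun j => MonoidAlgebra.single (a _ ^ j) (1 : ℤ))]
    rw [prod_univ_sum, Fintype.piFinset_univ, Ind]
    simp only [Subgroup.mem_top, filter_true]
    refine Fintype.sum_bijective φ hφ _ _ fun c => ?_
    rw [MonoidAlgebra.prod_single, prod_const_one]
    simp only [ha, φ]
    rw [← ofAdd_sum, ← map_sum, univ_sum_single])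
  obtain ⟨i, -, rfl⟩ := Multiset.mem_map.1 hk
  rw [ha] at h
  exact ⟨i, (QuotientAddGroup.eq_zero_iff _).1 h⟩

theorem minkowski [Nonempty ι] (Λ : AddSubgroup (ι → ℝ)) (sep : ∀ v ∈ Λ, ‖v‖ < 1 → v = 0)
    (cov : ∀ x, ∃ v ∈ Λ, ‖x - v‖ ≤ 1 / 2) : ∃ i, Pi.single i 1 ∈ Λ := by
  have hd : DiscreteTopology Λ := discreteTopology_of_isOpen_singleton_zero (by
    rw [show ({0} : Set Λ) = Metric.ball 0 1 from Set.ext fun v =>
      ⟨fun h => by simp [Set.mem_singleton_iff.1 h],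
        fun h => Subtype.ext (sep v v.2 (by simpa using h))⟩]
    exact Metric.isOpen_ball)
  have T0 : Til Λ fun _ => Int.floor := by
    refine ⟨fun x => ?_, fun x v hv w hw h1 h2 => sub_eq_zero.1 (sep _ (Λ.sub_mem hv hw)
      ((pi_norm_lt_iff one_pos).2 fun i => ?_))⟩
    · have h1 := Metric.finite_isBounded_inter_isClosed (isDiscrete_iff_discreteTopology.2 hd)
        (Metric.isBounded_closedBall (x := x) (r := 1)) AddSubgroup.isClosed_of_discrete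
      obtain ⟨t, h2, h3⟩ := ((((eventually_all_finite h1).2 fun v _ => eventually_all.2 fun i =>
        (show ∀ᶠ t : ℝ in 𝓝[>] 0, t < v i - x i ∨ v i ≤ x i by
          rcases lt_or_ge (x i) (v i) with h | h
          · exact Filter.Eventually.mono (Ioo_mem_nhdsGT (sub_pos.2 h)) fun _ h => .inl h.2
          · exact .of_forall fun _ => .inr h))).and (Ioo_mem_nhdsGT one_pos)).exists
      obtain ⟨v, hv, h4⟩ := cov fun i => x i + t - 1 / 2
      have h5 := fun i => abs_le.1 ((pi_norm_le_iff_of_nonneg (by norm_num)).1 h4 i)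
      simp only [Pi.sub_apply] at h5
      have h6 := h2 v ⟨mem_closedBall_iff_norm.2 ((pi_norm_le_iff_of_nonneg zero_le_one).2 fun i =>
        abs_le.2 ⟨by linarith [(h5 i).2, h3.1, Pi.sub_apply v x i],
          by linarith [(h5 i).1, h3.2, Pi.sub_apply v x i]⟩), hv⟩
      refine ⟨v, hv, fun i => Int.floor_eq_zero_iff.2 ⟨?_, by linarith [(h5 i).2, h3.1]⟩⟩
      rcases h6 i with h | h <;> linarith [(h5 i).1]
    · have h3 := Int.floor_eq_zero_iff.1 (h1 i)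
      have h4 := Int.floor_eq_zero_iff.1 (h2 i)
      exact abs_lt.2 ⟨by linarith [h3.1, h4.1, h3.2, h4.2, Pi.sub_apply v w i],
        by linarith [h3.1, h4.1, h3.2, h4.2, Pi.sub_apply v w i]⟩
  choose μ hμ hμ' using fun i => T0.ex (Pi.single i 1)
  obtain ⟨θ, h1, h2⟩ := theta ((univ.image fun p : ι × ι =>
    (Pi.single p.1 1 : ι → ℝ) p.2 - μ p.1 p.2).erase 0) (by
      intro s hs
      obtain ⟨h0, hs⟩ := mem_erase.1 hs
      obtain ⟨p, -, rfl⟩ := mem_image.1 hs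
      have := Int.floor_eq_zero_iff.1 (hμ' p.1 p.2)
      exact ⟨this.1.lt_of_ne' h0, this.2⟩)
  have h3 : ∀ q : ℚ, θ q = q := fun q => by simpa [h1, Rat.smul_def] using θ.map_smul q 1
  have T1 := T0.all (g := fun x => ⌊θ x⌋) fun x m => by
    rw [map_add, ← Rat.cast_intCast, h3, Int.floor_add_intCast]
  obtain ⟨N, hN, h4⟩ : ∃ N : ℕ, 2 ≤ N ∧ ∀ v ∈ Λ, ∀ i, ∃ m : ℤ, θ (v i) * N = m := by
    haveI : DiscreteTopology Λ.toIntSubmodule := hd
    obtain ⟨s, hs⟩ := Module.Finite.iff_fg.1 (instModuleFinite_of_discrete_submodule Λ.toIntSubmodule)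
    refine ⟨2 * ∏ p ∈ s ×ˢ univ, (θ (p.1 p.2)).den, Nat.le_mul_of_pos_right _
      (prod_pos fun _ _ => Rat.den_pos _), fun v hv i => ?_⟩
    have hv' : v ∈ Submodule.span ℤ (s : Set (ι → ℝ)) := hs ▸ hv
    clear hv
    induction hv' using Submodule.span_induction with
    | mem v hv =>
      obtain ⟨c, hc⟩ := dvd_prod_of_mem (fun p : (ι → ℝ) × ι => (θ (p.1 p.2)).den)
        (mem_product.2 ⟨hv, mem_univ i⟩ : (v, i) ∈ s ×ˢ univ)
      refine ⟨(θ (v i)).num * (2 * c), ?_⟩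
      rw [hc]; push_cast; rw [← Rat.mul_den_eq_num]; ring
    | zero => exact ⟨0, by simp⟩
    | add v w _ _ hv hw =>
      obtain ⟨a, ha⟩ := hv; obtain ⟨b, hb⟩ := hw
      exact ⟨a + b, by rw [Pi.add_apply, map_add, add_mul, ha, hb, Int.cast_add]⟩
    | smul c v _ hv =>
      obtain ⟨a, ha⟩ := hv
      exact ⟨c * a, by rw [Pi.smul_apply, map_zsmul, zsmul_eq_mul, mul_assoc, ha, Int.cast_mul]⟩
  have hN' : (0 : ℚ) < N := by exact_mod_cast (by omega : 0 < N)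
  let Λ' : AddSubgroup (ι → ℤ) :=
    { carrier := {z | ∃ v ∈ Λ, ∀ i, θ (v i) * N = z i}
      zero_mem' := ⟨0, Λ.zero_mem, by simp⟩
      add_mem' := fun ⟨v, hv, h⟩ ⟨w, hw, h'⟩ => ⟨v + w, Λ.add_mem hv hw, fun i => by
        simp [add_mul, h, h']⟩
      neg_mem' := fun ⟨v, hv, h⟩ => ⟨-v, Λ.neg_mem hv, fun i => by simp [h]⟩ }
  have h5 : ∀ c : Fin N, ⌊((c : ℤ) : ℚ) / N⌋ = 0 := fun c => Int.floor_eq_zero_iff.2
    ⟨by positivity, (div_lt_one hN').2 (by exact_mod_cast c.2)⟩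
  obtain ⟨i, v, hv, h6⟩ := box (Λ := Λ') hN (fun z => by
    obtain ⟨v, hv, h⟩ := T1.ex fun i => ((z i / N : ℚ) : ℝ)
    choose m hm using h4 v hv
    have h7 : ∀ i, 0 ≤ z i - m i ∧ z i - m i < N := fun i => by
      have := Int.floor_eq_zero_iff.1 (h i)
      rw [map_sub, h3, show (z i / N : ℚ) - θ (v i) = (z i - m i : ℤ) / N by
        rw [Int.cast_sub, ← hm]; field_simp, Set.mem_Ico, le_div_iff₀ hN', div_lt_one hN',
        zero_mul] at this
      exact_mod_cast this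
    refine ⟨fun i => ⟨(z i - m i).toNat, by have := h7 i; omega⟩, v, hv, fun i => ?_⟩
    simp only [hm, Pi.sub_apply, Int.toNat_of_nonneg (h7 i).1, sub_sub_cancel]) (fun c c' ⟨v, hv, h⟩ => by
    have h7 := T1.un (fun i => (((c i : ℤ) / N : ℚ) : ℝ)) v hv 0 Λ.zero_mem (fun i => by
      rw [map_sub, h3, show ((c i : ℤ) / N : ℚ) - θ (v i) = (c' i : ℤ) / N by
        have := h i
        rw [Pi.sub_apply, Int.cast_sub] at this
        field_simp; linarith, h5]) fun i => by rw [Pi.zero_apply, sub_zero, h3, h5]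
    ext i
    have := h i
    rw [h7, Pi.zero_apply, map_zero, zero_mul, eq_comm, Int.cast_eq_zero, Pi.sub_apply] at this
    omega)
  have h7 : ∀ j, θ ((Pi.single i 1 : ι → ℝ) j - v j) = 0 := fun j => by
    refine mul_right_cancel₀ hN'.ne' ?_
    rw [map_sub, sub_mul, h6]
    by_cases e : j = i <;> simp [e, h1]
  have h8 : ∀ j, (Pi.single i 1 : ι → ℝ) j - μ i j ≠ 0 → _ := fun j hj =>
    h2 _ (mem_erase.2 ⟨hj, mem_image.2 ⟨(i, j), mem_univ _, rfl⟩⟩)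
  have h9 := T1.un (Pi.single i 1) v hv _ (hμ i) (fun j => by simp only [h7, Int.floor_zero])
    fun j => by
      by_cases e : (Pi.single i 1 : ι → ℝ) j - μ i j = 0
      · simp only [e, map_zero, Int.floor_zero]
      · exact Int.floor_eq_zero_iff.2 ⟨(h8 j e).1.le, (h8 j e).2⟩
  refine ⟨i, (show μ i = Pi.single i 1 from funext fun j => ?_) ▸ hμ i⟩
  by_contra e
  exact (h8 j (sub_ne_zero.2 (Ne.symm e))).1.ne' (h9 ▸ h7 j)

end H53.Hj
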