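import Pool.Agent.H53.HjC

/-! Lattices in the norm `max (|x i| + ε |x j|)`, and a cube tiling of `ℝ¹²` without two cubes
sharing a facet (Lagarias and Shor). -/

namespace H53.Hj

open Filter Topology

theorem lat {ι : Type} [Fintype ι] [DecidableEq ι] [Nontrivial ι] : ∃ ε : ℝ, 0 < ε ∧ ε ≤ 1 ∧
    ∀ Λ : AddSubgroup (ι → ℝ), (∀ v ∈ Λ, v ≠ 0 → ∃ i j, i ≠ j ∧ 2 ≤ |v i| + ε * |v j|) →
    ¬ ∀ x : ι → ℝ, ∃ v ∈ Λ, ∀ i j, i ≠ j → |(x - v) i| + ε * |(x - v) j| ≤ 1 + 3 / 5 * ε := by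
  by_contra! H
  let U : Filter ℕ := hyperfilter ℕ
  obtain ⟨ε, e0, e1, e2⟩ : ∃ ε : ℕ → ℝ, (∀ k, 0 < ε k) ∧ (∀ k, ε k ≤ 1) ∧ Tendsto ε U (𝓝 0) :=
    ⟨fun k => 1 / (k + 1), fun k => by positivity, fun k =>
      (div_le_one (by positivity)).2 (by linarith [k.cast_nonneg (α := ℝ)]),
      tendsto_one_div_add_atTop_nhds_zero_nat.mono_left Nat.hyperfilter_le_atTop⟩
  choose L sep cov using fun k : ℕ => H _ (e0 k) (e1 k)
  clear H
  have A : ∀ (x : ℕ → ι → ℝ) (y : ι → ℝ), Tendsto x U (𝓝 y) → ∃ (v : ℕ → ι → ℝ) (w : ι → ℝ),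
      (∀ k, v k ∈ L k) ∧ Tendsto v U (𝓝 w) ∧ (∀ i, |y i - w i| ≤ 1) ∧ ∀ k i j, i ≠ j →
      |(x k - v k) i| + ε k * |(x k - v k) j| ≤ 1 + 3 / 5 * ε k := by
    intro x y hx
    choose v h1 h2 using fun k => cov k (x k)
    have h3 : ∀ k i, |(x k - v k) i| ≤ 1 + 3 / 5 * ε k := fun k i => by
      obtain ⟨j, hj⟩ := exists_ne i
      linarith [h2 k i j hj.symm, mul_nonneg (e0 k).le (abs_nonneg ((x k - v k) j))]
    obtain ⟨d, -, hd⟩ := (isCompact_closedBall (0 : ι → ℝ) 2).ultrafilter_le_nhds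
      ((hyperfilter ℕ).map fun k => x k - v k) (le_principal_iff.2 (mem_map.2 <| univ_mem' fun k =>
        mem_closedBall_zero_iff.2 ((pi_norm_le_iff_of_nonneg zero_le_two).2 fun i =>
          (h3 k i).trans (by linarith [e1 k]))))
    replace hd : Tendsto (fun k => x k - v k) U (𝓝 d) := hd
    refine ⟨v, y - d, h1, by simpa using hx.sub hd, fun i => ?_, h2⟩
    simpa using le_of_tendsto_of_tendsto' (tendsto_pi_nhds.1 hd i).abs
      ((e2.const_mul (3 / 5)).const_add 1) fun k => h3 k i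
  have B : ∀ (v : ℕ → ι → ℝ) (w : ι → ℝ), (∀ k, v k ∈ L k) → Tendsto v U (𝓝 w) →
      (∀ i, |w i| < 2) → ∀ᶠ k in U, v k = 0 := by
    intro v w h1 h2 h3
    filter_upwards [eventually_all.2 fun i => eventually_all.2 fun j =>
      ((tendsto_pi_nhds.1 h2 i).abs.add (e2.mul (tendsto_pi_nhds.1 h2 j).abs)).eventually
        (gt_mem_nhds (by simpa using h3 i))] with k hk
    by_contra h0
    obtain ⟨i, j, -, h⟩ := sep k _ (h1 k) h0
    exact (hk i j).not_ge h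
  let Λ : AddSubgroup (ι → ℝ) :=
    { carrier := {w | ∃ v : ℕ → ι → ℝ, (∀ k, v k ∈ L k) ∧ Tendsto v U (𝓝 ((2 : ℝ) • w))}
      zero_mem' := ⟨0, fun k => zero_mem _, by rw [smul_zero]; exact tendsto_const_nhds⟩
      add_mem' := fun ⟨v, hv, h⟩ ⟨w, hw, h'⟩ => ⟨v + w, fun k => add_mem (hv k) (hw k), by
        rw [smul_add]; exact h.add h'⟩
      neg_mem' := fun ⟨v, hv, h⟩ => ⟨-v, fun k => neg_mem (hv k), by
        rw [smul_neg]; exact h.neg⟩ }
  obtain ⟨i, v, hv, h1⟩ := minkowski Λ (fun w ⟨v, hv, h⟩ hw => by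
    have h1 := B v _ hv h fun i => by
      have := (pi_norm_lt_iff one_pos).1 hw i
      rw [Real.norm_eq_abs] at this
      rw [Pi.smul_apply, smul_eq_mul, abs_mul, abs_two]; linarith
    simpa using tendsto_nhds_unique (h.congr' h1) tendsto_const_nhds) fun x => by
    obtain ⟨v, w, h1, h2, h3, -⟩ := A _ ((2 : ℝ) • x) tendsto_const_nhds
    refine ⟨(1 / 2 : ℝ) • w, ⟨v, h1, by simpa using h2⟩,
      (pi_norm_le_iff_of_nonneg (by norm_num)).2 fun i => ?_⟩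
    have := abs_le.1 (h3 i)
    simp only [Pi.smul_apply, smul_eq_mul, Pi.sub_apply, Real.norm_eq_abs] at this ⊢
    exact abs_le.2 ⟨by linarith, by linarith⟩
  obtain ⟨j, hj⟩ := exists_ne i
  obtain ⟨u, w, h2, h3, h4, h5⟩ := A (fun k => (1 / 2 : ℝ) • v k + Pi.single j (4 / 5)) _
    ((h1.const_smul (1 / 2 : ℝ)).add tendsto_const_nhds)
  have h6 : ∀ a ≠ i, |w a| < 2 := fun a ha => by
    have := abs_le.1 (h4 a)
    by_cases e : a = j
    · simp [e, hj] at this ⊢; exact abs_lt.2 ⟨by linarith, by linarith⟩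
    · simp [e, ha] at this ⊢; exact abs_lt.2 ⟨by linarith, by linarith⟩
  have h7 := abs_le.1 (h4 i)
  simp [hj.symm] at h7
  have h8 : ∀ᶠ k in U, u k = 0 ∨ u k = v k := by
    rcases lt_or_ge (w i) 2 with h | h
    · refine (B u w h2 h3 fun a => ?_).mono fun k => .inl
      rcases eq_or_ne a i with rfl | ha
      exacts [abs_lt.2 ⟨by linarith, h⟩, h6 a ha]
    · refine (B (u - v) _ (fun k => sub_mem (h2 k) (hv k)) (h3.sub h1) fun a => ?_).mono
        fun k hk => .inr (sub_eq_zero.1 hk)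
      rcases eq_or_ne a i with rfl | ha
      · simp; exact abs_lt.2 ⟨by linarith, by linarith⟩
      · simpa [ha] using h6 a ha
  have h9 : ∀ᶠ k in U, ∀ a, |v k a - ((2 : ℝ) • Pi.single i (1 : ℝ) : ι → ℝ) a| < 1 / 10 :=
    eventually_all.2 fun a => ((tendsto_pi_nhds.1 h1 a).sub_const _).abs.eventually
      (gt_mem_nhds (by simp))
  obtain ⟨k, k1, k2, k3⟩ := (h8.and (h9.and (e2.eventually (gt_mem_nhds one_half_pos)))).exists
  have k4 := abs_lt.1 (k2 i)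
  have k5 : ∀ a ≠ i, |v k a| < 1 / 10 := fun a ha => by simpa [ha] using k2 a
  simp at k4
  have k6 : ∀ a, |v k a| < 3 := fun a => by
    rcases eq_or_ne a i with rfl | ha
    exacts [abs_lt.2 ⟨by linarith, by linarith⟩, by linarith [k5 a ha]]
  obtain ⟨a, b, hab, k7⟩ := sep k _ (hv k) fun e => by rw [e] at k4; simp at k4; linarith
  have k8 := e0 k
  rcases eq_or_ne a i with rfl | ha
  · have k9 := h5 k a j hj.symm
    have k10 := abs_lt.1 (k5 j hj)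
    have k11 := k5 b hab.symm
    rw [abs_of_pos (by linarith : 0 < v k a)] at k7
    rcases k1 with k1 | k1 <;> simp [k1, hj.symm] at k9
    · rw [abs_of_pos (by linarith : 0 < v k a), abs_of_pos (by linarith)] at k9
      nlinarith
    · rw [abs_of_neg (by linarith), abs_of_pos (by linarith)] at k9
      nlinarith
  · nlinarith [k5 a ha, k6 b]

/-- blocks (vectors of `(ℤ/4)⁴` written in base `4`) -/
def S : ℕ → List ℕ
  | 0 => [0, 144, 216, 56, 188, 33, 6, 150, 42, 78, 174, 183]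
  | 1 => [81, 213, 53, 204, 237, 125, 90, 67, 199, 163, 235, 123]
  | 2 => [181, 88, 206, 35]
  | 3 => [64, 224, 200, 104, 194, 98, 74, 234]
  | _ => [192, 96, 72, 232, 66, 226, 202, 106]

/-- digits -/
def dg (b n j : ℕ) : ℕ := n / b ^ j % b

/-- code words (in base `5`) -/
def C : List ℕ := [62, 0, 13, 39, 65, 71, 77, 107]

/-- complementary symbols -/
def cp (a b : ℕ) : Bool := (a < 2 && b == 2) || (b < 2 && a == 2) || (a + b == 7 && a != b)

lemma S1 : ∀ a < 5, ∀ b < 5, ∀ x ∈ S a, ∀ y ∈ S b,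
    (cp a b → ∃ i < 4, (dg 4 x i + 2) % 4 = dg 4 y i) ∧
    (a ≠ b → ∃ i < 4, dg 4 x i ≠ dg 4 y i) ∧ (a = b → x = y ∨
      ∃ i < 4, ∃ j < 4, i ≠ j ∧ (dg 4 x i + 2) % 4 = dg 4 y i ∧ dg 4 x j ≠ dg 4 y j) := by
  have : ((List.range 5).all fun a => (List.range 5).all fun b => (S a).all fun x => (S b).all fun y =>
    (!cp a b || (List.range 4).any fun i => (dg 4 x i + 2) % 4 == dg 4 y i) &&
    (a == b || (List.range 4).any fun i => dg 4 x i != dg 4 y i) && (a != b || (x == y ||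
      (List.range 4).any fun i => (List.range 4).any fun j => i != j &&
        (dg 4 x i + 2) % 4 == dg 4 y i && dg 4 x j != dg 4 y j))) = true := by decide +kernel
  simp only [List.all_eq_true, List.any_eq_true, Bool.or_eq_true, Bool.and_eq_true, beq_iff_eq,
    bne_iff_ne, and_assoc, List.mem_range, Bool.not_eq_eq_eq_not, Bool.not_true] at this
  intro a ha b hb x hx y hy
  obtain ⟨h1, h2, h3⟩ := this a ha b hb x hx y hy
  exact ⟨fun h => h1.resolve_left (by simp [h]), h2.resolve_left, fun h => h3.resolve_left (· h)⟩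

lemma C1 : ∀ c ∈ C, ∀ d ∈ C, c = d ∨
    ∃ b < 3, ∃ b' < 3, b ≠ b' ∧ cp (dg 5 c b) (dg 5 d b) ∧ dg 5 c b' ≠ dg 5 d b' := by
  have : (C.all fun c => C.all fun d => c == d || (List.range 3).any fun b => (List.range 3).any
    fun b' => b != b' && cp (dg 5 c b) (dg 5 d b) && dg 5 c b' != dg 5 d b') = true := by
    decide +kernel
  simpa only [List.all_eq_true, List.any_eq_true, Bool.or_eq_true, Bool.and_eq_true, beq_iff_eq,
    bne_iff_ne, and_assoc, List.mem_range] using this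

/-- the cell `z` is covered by the block `a` -/
def cv (a z : ℕ) : Bool := (S a).any fun s => (List.range 4).all fun j =>
  dg 4 s j == dg 4 z j || dg 4 s j == (dg 4 z j + 1) % 4

lemma S2 : ∀ z < 256, ((cv 0 z ∧ cv 1 z) ∨ cv 2 z) ∧ (cv 3 z ∨ cv 4 z) := by
  have : ((List.range 256).all fun z => ((cv 0 z && cv 1 z) || cv 2 z) && (cv 3 z || cv 4 z)) =
    true := by decide +kernel
  simpa only [List.all_eq_true, Bool.or_eq_true, Bool.and_eq_true, List.mem_range] using this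

lemma C2 (p : Fin 3 → ℕ → Prop) (h : ∀ b, ((p b 0 ∧ p b 1) ∨ p b 2) ∧ (p b 3 ∨ p b 4)) :
    ∃ c ∈ C, ∀ b, p b (dg 5 c b) := by
  have e : ∀ c, (∀ b : Fin 3, p b (dg 5 c b)) ↔ p 0 (c % 5) ∧ p 1 (c / 5 % 5) ∧ p 2 (c / 25 % 5) :=
    fun c => by simp [dg, Fin.forall_fin_succ]
  simp only [e, C, List.mem_cons, List.not_mem_nil, or_false, exists_eq_or_imp, exists_eq_left,
    Nat.reduceMod, Nat.reduceDiv]
  obtain ⟨h0 | h0, h0' | h0'⟩ := h 0 <;> obtain ⟨h1 | h1, h1' | h1'⟩ := h 1 <;>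
    obtain ⟨h2 | h2, h2' | h2'⟩ := h 2 <;> simp only [*, and_self, true_or, or_true]

theorem keller : ∃ T : Set (Fin 3 × Fin 4 → ℤ),
    (∀ u ∈ T, ∀ v ∈ T, u ≠ v → ∃ i j, i ≠ j ∧ (4 ≤ |u i - v i| ∨ 2 ≤ |u i - v i| ∧ 1 ≤ |u j - v j|)) ∧
    ∀ z : Fin 3 × Fin 4 → ℤ, ∃ u ∈ T, ∀ i, u i = z i ∨ u i = z i + 1 := by
  have A : ∀ (a b : ℤ) (x y : ℕ), a % 4 = x → b % 4 = y → (x + 2) % 4 = y → 2 ≤ |a - b| :=
    fun a b x y h1 h2 h3 => by rw [le_abs]; omega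
  have B : ∀ (a b : ℤ) (x y : ℕ), a % 4 = x → b % 4 = y → x ≠ y → 1 ≤ |a - b| :=
    fun a b x y h1 h2 h3 => by rw [le_abs]; omega
  have D : ∀ c b, dg 5 c b < 5 := fun c b => Nat.mod_lt _ (by norm_num)
  refine ⟨{u | ∃ c ∈ C, ∀ b : Fin 3, ∃ s ∈ S (dg 5 c b), ∀ j : Fin 4, u (b, j) % 4 = dg 4 s j}, ?_,
    fun z => ?_⟩
  · rintro u ⟨c, hc, hu⟩ v ⟨d, hd, hv⟩ h
    choose x hx hu using hu
    choose y hy hv using hv
    have h1 := fun b => S1 _ (D _ _) _ (D _ _) _ (hx b) _ (hy b)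
    rcases C1 c hc d hd with rfl | ⟨b, hb, b', hb', h2, h3, h4⟩
    · by_cases h3 : ∀ b, x b = y b
      · obtain ⟨i, hi⟩ := Function.ne_iff.1 h
        obtain ⟨j, hj⟩ := exists_ne i
        have h4 := hu i.1 i.2
        rw [h3, ← hv] at h4
        refine ⟨i, j, hj.symm, .inl ?_⟩
        rw [le_abs]; simp only [Prod.mk.eta] at h4; omega
      · obtain ⟨b, hb⟩ := not_forall.1 h3
        obtain ⟨i, hi, j, hj, h4, h5, h6⟩ := ((h1 b).2.2 rfl).resolve_left hb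
        exact ⟨(b, ⟨i, hi⟩), (b, ⟨j, hj⟩), by simpa, .inr ⟨A _ _ _ _ (hu _ _) (hv _ _) h5,
          B _ _ _ _ (hu _ _) (hv _ _) h6⟩⟩
    · obtain ⟨i, hi, h5⟩ := (h1 ⟨b, hb⟩).1 h3
      obtain ⟨j, hj, h6⟩ := (h1 ⟨b', hb'⟩).2.1 h4
      exact ⟨(⟨b, hb⟩, ⟨i, hi⟩), (⟨b', hb'⟩, ⟨j, hj⟩), by simp [h2],
        .inr ⟨A _ _ _ _ (hu _ _) (hv _ _) h5, B _ _ _ _ (hu _ _) (hv _ _) h6⟩⟩
  · have E : ∀ b, ∃ n < 256, ∀ j : Fin 4, z (b, j) % 4 = dg 4 n j := fun b =>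
      ⟨(z (b, 0) % 4 + 4 * (z (b, 1) % 4) + 16 * (z (b, 2) % 4) + 64 * (z (b, 3) % 4)).toNat,
        by omega, fun j => by fin_cases j <;> simp [dg] <;> omega⟩
    choose n h1 h2 using E
    obtain ⟨c, hc, h⟩ := C2 (fun b a => cv a (n b)) fun b => S2 _ (h1 b)
    simp only [cv, List.all_eq_true, List.any_eq_true, Bool.or_eq_true, beq_iff_eq,
      List.mem_range] at h
    choose s h3 h4 using h
    refine ⟨fun i => if dg 4 (s i.1) i.2 = dg 4 (n i.1) i.2 then z i else z i + 1,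
      ⟨c, hc, fun b => ⟨s b, h3 b, fun j => ?_⟩⟩, fun i => by dsimp only; split_ifs <;> simp⟩
    have := h2 b j
    have := h4 b j j.2
    dsimp only
    split_ifs <;> omega

end H53.Hj
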