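import Mathlib

/-! A zero-free function on a disc is the exponential of an almost affine function. -/

namespace Pool.Agent.H53.Hm

open Complex Metric Set Filter Topology

theorem affine_log {Q : ℂ → ℂ} (hQ : Differentiable ℂ Q) {ρ Δ : ℝ} (hρ : 0 < ρ) (hΔ : 0 < Δ)
    (h0 : ∀ z ∈ ball (0 : ℂ) ρ, Q z ≠ 0)
    (hb : ∀ z ∈ ball (0 : ℂ) ρ, Real.log ‖Q z‖ ≤ Real.log ‖Q 0‖ + Δ) :
    ∃ l : ℂ, ∀ z : ℂ, ‖z‖ < ρ / 2 →
      |Real.log ‖Q z‖ - Real.log ‖Q 0‖ - (l * z).re| ≤ 16 * Δ * ‖z‖ ^ 2 / ρ ^ 2 := by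
  have hd : DifferentiableOn ℂ (fun z => deriv Q z / Q z) (ball 0 ρ) :=
    (hQ.deriv.differentiableOn).div hQ.differentiableOn h0
  obtain ⟨g, hg0, hg⟩ := hd.isExactOn_ball.with_val_at 0 0
  have hgd : DifferentiableOn ℂ g (ball 0 ρ) :=
    fun z hz => (hg z hz).differentiableAt.differentiableWithinAt
  have h00 : (0 : ℂ) ∈ ball (0 : ℂ) ρ := mem_ball_self hρ
  have hconst : ∀ z ∈ ball (0 : ℂ) ρ, Q z * exp (-g z) = Q 0 := by
    intro z hz
    have hF : ∀ w ∈ ball (0 : ℂ) ρ, HasDerivAt (fun w => Q w * exp (-g w)) 0 w := by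
      intro w hw
      have h1 := ((hQ w).hasDerivAt).mul ((hg w hw).neg.cexp)
      have := h0 w hw
      refine h1.congr_deriv ?_
      simp only [Pi.neg_apply]
      field_simp
      ring
    have := IsOpen.is_const_of_deriv_eq_zero (f := fun w => Q w * exp (-g w)) isOpen_ball
      (convex_ball (0 : ℂ) ρ).isPreconnected
      (fun w hw => (hF w hw).differentiableAt.differentiableWithinAt)
      (fun w hw => (hF w hw).deriv) hz h00
    simpa [hg0] using this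
  have hre : ∀ z ∈ ball (0 : ℂ) ρ, (g z).re = Real.log ‖Q z‖ - Real.log ‖Q 0‖ := by
    intro z hz
    have h1 := congrArg (fun w => Real.log ‖w‖) (hconst z hz)
    simp only [norm_mul, norm_exp, neg_re] at h1
    rw [Real.log_mul (norm_ne_zero_iff.2 (h0 z hz)) (Real.exp_pos _).ne', Real.log_exp] at h1
    linarith
  have hBC : ∀ z ∈ ball (0 : ℂ) (ρ / 2), ‖g z‖ ≤ 2 * Δ := by
    intro z hz
    have hz' : ‖z‖ < ρ / 2 := mem_ball_zero_iff.1 hz
    have hz2 : z ∈ ball (0 : ℂ) ρ := mem_ball_zero_iff.2 (by linarith)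
    have := borelCaratheodory_zero hΔ hgd (fun w hw => by
      show (g w).re ≤ Δ
      rw [hre w hw]; linarith [hb w hw]) hρ hz2 hg0
    refine this.trans ?_
    rw [div_le_iff₀ (by linarith)]
    nlinarith [norm_nonneg z]
  have hsub : ball (0 : ℂ) (ρ / 2) ⊆ ball 0 ρ := ball_subset_ball (by linarith)
  have hl : ‖deriv g 0‖ ≤ 2 * Δ / (ρ / 2) := by
    apply norm_deriv_le_div_of_mapsTo_ball (hgd.mono hsub) _ (by linarith)
    intro z hz
    rw [hg0, mem_closedBall_zero_iff]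
    exact hBC z hz
  refine ⟨deriv g 0, fun z hz => ?_⟩
  set l := deriv g 0
  have hz1 : z ∈ ball (0 : ℂ) (ρ / 2) := mem_ball_zero_iff.2 hz
  have key := dist_le_mul_div_pow_of_mapsTo_ball_of_isLittleO (f := fun w => g w - l * w)
    (c := 0) (z := z) (R₁ := ρ / 2) (R₂ := 4 * Δ) (n := 1)
    ((hgd.mono hsub).sub (by fun_prop)) (by
      intro w hw
      have hw' : ‖w‖ < ρ / 2 := mem_ball_zero_iff.1 hw
      simp only [hg0, mul_zero, sub_zero, mem_closedBall_zero_iff]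
      have h1 := hBC w hw
      have h2 : ‖l * w‖ ≤ 2 * Δ := by
        rw [norm_mul]
        calc ‖l‖ * ‖w‖ ≤ 2 * Δ / (ρ / 2) * (ρ / 2) := by gcongr
          _ = 2 * Δ := by field_simp
      linarith [norm_sub_le (g w) (l * w)]) (by
      have h1 := (hgd.differentiableAt (isOpen_ball.mem_nhds h00)).hasDerivAt
      have h2 := hasDerivAt_iff_isLittleO.1 h1
      simp only [hg0, sub_zero, smul_eq_mul, mul_zero, pow_one] at h2 ⊢
      rw [Asymptotics.isLittleO_norm_right]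
      simpa [mul_comm] using h2) hz1
  simp only [hg0, mul_zero, sub_zero, dist_zero_right] at key
  rw [← hre z (hsub hz1), ← sub_re]
  refine (abs_re_le_norm _).trans (key.trans (le_of_eq ?_))
  rw [show (1 + 1 : ℕ) = 2 from rfl]
  field_simp
  ring

/-- Consequence: near one of the points `± i R` the function is small. -/
theorem small_side {Q : ℂ → ℂ} (hQ : Differentiable ℂ Q) {ρ Δ R A : ℝ} (hR : 0 < R)
    (hρ : 4 * R ≤ ρ) (hΔ : 0 < Δ)
    (h0 : ∀ z ∈ ball (0 : ℂ) ρ, Q z ≠ 0)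
    (hb : ∀ z ∈ ball (0 : ℂ) ρ, Real.log ‖Q z‖ ≤ Real.log ‖Q 0‖ + Δ)
    (hA : ∀ z : ℂ, ‖z‖ = R → Real.log ‖Q z‖ ≤ A) :
    ∃ u : ℂ, u ^ 2 = -1 ∧ ∀ q ∈ closedBall (u * R) (R / 2),
      ‖Q q‖ ≤ Real.exp ((A + Real.log ‖Q 0‖) / 2 + 54 * Δ * R ^ 2 / ρ ^ 2) := by
  have hρ0 : 0 < ρ := by linarith
  obtain ⟨l, hl⟩ := affine_log hQ hρ0 hΔ h0 hb
  set η := 36 * Δ * R ^ 2 / ρ ^ 2 with hη
  have hl' : ∀ z : ℂ, ‖z‖ ≤ 3 * R / 2 →
      |Real.log ‖Q z‖ - Real.log ‖Q 0‖ - (l * z).re| ≤ η := by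
    intro z hz
    refine (hl z (by linarith)).trans ?_
    rw [hη]
    have : ‖z‖ ^ 2 ≤ (3 * R / 2) ^ 2 := by gcongr
    apply div_le_div_of_nonneg_right _ (by positivity)
    nlinarith
  have hlam : ‖l‖ * R ≤ A - Real.log ‖Q 0‖ + η := by
    obtain ⟨z, hz1, hz2⟩ : ∃ z : ℂ, ‖z‖ = R ∧ (l * z).re = ‖l‖ * R := by
      by_cases h : l = 0
      · exact ⟨R, by simp [hR.le], by simp [h]⟩
      · have hn : (‖l‖ : ℂ) ≠ 0 := by exact_mod_cast norm_ne_zero_iff.2 h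
        refine ⟨(‖l‖ : ℂ) / l * R, ?_, ?_⟩
        · simp [norm_ne_zero_iff.2 h, hR.le]
        · have : l * ((‖l‖ : ℂ) / l * R) = ((‖l‖ * R : ℝ) : ℂ) := by
            push_cast; field_simp
          rw [this, ofReal_re]
    have h1 := (abs_le.1 (hl' z (by linarith))).1
    have h2 := hA z hz1
    linarith
  obtain ⟨u, hu1, hu2, hu3⟩ : ∃ u : ℂ, u ^ 2 = -1 ∧ ‖u‖ = 1 ∧ (l * (u * R)).re ≤ 0 := by
    by_cases h : (l * (I * R)).re ≤ 0
    · exact ⟨I, by simp, by simp, h⟩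
    · refine ⟨-I, by simp, by simp, ?_⟩
      have : l * (-I * R) = -(l * (I * R)) := by ring
      rw [this, neg_re]; linarith
  refine ⟨u, hu1, fun q hq => ?_⟩
  have hq1 : ‖q - u * R‖ ≤ R / 2 := mem_closedBall_iff_norm.1 hq
  have hq2 : ‖q‖ ≤ 3 * R / 2 := by
    have : ‖u * R‖ = R := by simp [hu2, hR.le]
    linarith [norm_le_norm_add_norm_sub' q (u * R)]
  have h1 := (abs_le.1 (hl' q hq2)).2
  have h2 : (l * q).re ≤ ‖l‖ * R / 2 := by
    have e : l * q = l * (u * R) + l * (q - u * R) := by ring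
    have h3 : (l * (q - u * R)).re ≤ ‖l‖ * (R / 2) := by
      refine (re_le_norm _).trans ?_
      rw [norm_mul]; gcongr
    rw [e, add_re]; linarith
  have hq0 : Q q ≠ 0 := h0 q (mem_ball_zero_iff.2 (by linarith))
  rw [← Real.exp_log (norm_pos_iff.2 hq0)]
  apply Real.exp_le_exp.2
  have : 54 * Δ * R ^ 2 / ρ ^ 2 = 3 / 2 * η := by rw [hη]; ring
  rw [this]
  linarith

end Pool.Agent.H53.Hm
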