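import Mathlib

/-! Hermite polynomials and their majorants on the imaginary axis. -/

namespace Pool.Agent.H53.Hm

open Polynomial

noncomputable def H : ℕ → ℂ[X]
  | 0 => 1
  | k + 1 => 2 * X * H k - derivative (H k)

noncomputable def Pp : ℕ → ℝ[X]
  | 0 => 1
  | k + 1 => 2 * X * Pp k + derivative (Pp k)

noncomputable def P (k : ℕ) (y : ℝ) : ℝ := (Pp k).eval y

theorem H_deriv (k : ℕ) : derivative (H (k + 1)) = 2 * ((k : ℂ[X]) + 1) * H k := by
  induction k with
  | zero => simp [H]
  | succ k ih =>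
    have e : H (k + 1) = 2 * X * H k - derivative (H k) := rfl
    rw [H, derivative_sub, derivative_mul, ih]
    simp only [derivative_mul, derivative_X, derivative_ofNat, derivative_add, derivative_natCast,
      derivative_one]
    rw [e]; push_cast; ring

theorem Pp_deriv (k : ℕ) : derivative (Pp (k + 1)) = 2 * ((k : ℝ[X]) + 1) * Pp k := by
  induction k with
  | zero => simp [Pp]
  | succ k ih =>
    have e : Pp (k + 1) = 2 * X * Pp k + derivative (Pp k) := rfl
    rw [Pp, derivative_add, derivative_mul, ih]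
    simp only [derivative_mul, derivative_X, derivative_ofNat, derivative_add, derivative_natCast,
      derivative_one]
    rw [e]; push_cast; ring

theorem H_ode (k : ℕ) :
    derivative (derivative (H k)) - 2 * X * derivative (H k) + 2 * (k : ℂ[X]) * H k = 0 := by
  cases k with
  | zero => simp [H]
  | succ k =>
    have e : H (k + 1) = 2 * X * H k - derivative (H k) := rfl
    rw [H_deriv]
    simp only [derivative_mul, derivative_ofNat, derivative_add, derivative_natCast,
      derivative_one]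
    rw [e]; push_cast; ring

theorem H_two (k : ℕ) (z : ℂ) : (H (k + 2)).eval z =
    2 * z * (H (k + 1)).eval z - 2 * ((k : ℂ) + 1) * (H k).eval z := by
  rw [H, H_deriv]; simp

theorem H_zero (z : ℂ) : (H 0).eval z = 1 := by simp [H]
theorem H_one (z : ℂ) : (H 1).eval z = 2 * z := by simp [H]
theorem P_zero (y : ℝ) : P 0 y = 1 := by simp [P, Pp]
theorem P_one (y : ℝ) : P 1 y = 2 * y := by simp [P, Pp]
theorem P_two (k : ℕ) (y : ℝ) :
    P (k + 2) y = 2 * y * P (k + 1) y + 2 * ((k : ℝ) + 1) * P k y := by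
  unfold P
  rw [Pp, Pp_deriv]; simp

theorem P_hasDerivAt (k : ℕ) (y : ℝ) :
    HasDerivAt (P (k + 1)) (2 * ((k : ℝ) + 1) * P k y) y := by
  have := (Pp (k + 1)).hasDerivAt y
  rw [Pp_deriv] at this
  exact this.congr_deriv (by simp [P])

theorem iter_eq (k : ℕ) : iteratedDeriv k (fun w : ℂ => Complex.exp (-w ^ 2)) =
    fun z => (-1) ^ k * (H k).eval z * Complex.exp (-z ^ 2) := by
  induction k with
  | zero => funext z; simp [H]
  | succ k ih =>
    funext z
    rw [iteratedDeriv_succ, ih]
    have h1 : HasDerivAt (fun w : ℂ => Complex.exp (-w ^ 2))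
        (Complex.exp (-z ^ 2) * (-(2 * z))) z := by
      have := ((hasDerivAt_pow 2 z).neg).cexp
      simpa using this
    have h2 := (((H k).hasDerivAt z).const_mul ((-1 : ℂ) ^ k)).mul h1
    have h3 := h2.deriv
    refine Eq.trans ?_ (h3.trans ?_)
    · rfl
    · simp [H]; ring

theorem herm_eq (k : ℕ) (z : ℂ) : (-1 : ℂ) ^ k * Complex.exp (z ^ 2) *
    iteratedDeriv k (fun w : ℂ => Complex.exp (-w ^ 2)) z = (H k).eval z := by
  rw [iter_eq]
  have h1 : Complex.exp (z ^ 2) * Complex.exp (-z ^ 2) = 1 := by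
    rw [← Complex.exp_add]; simp
  have h2 : ((-1 : ℂ) ^ k) * (-1) ^ k = 1 := by rw [← mul_pow]; simp
  calc _ = (((-1 : ℂ) ^ k) * (-1) ^ k) * (Complex.exp (z ^ 2) * Complex.exp (-z ^ 2)) *
        (H k).eval z := by ring
    _ = _ := by rw [h1, h2]; ring

theorem H_norm_le (k : ℕ) {z : ℂ} {y : ℝ} (hz : ‖z‖ ≤ y) : ‖(H k).eval z‖ ≤ P k y := by
  have hy : 0 ≤ y := (norm_nonneg z).trans hz
  induction k using Nat.twoStepInduction with
  | zero => simp [H_zero, P_zero]
  | one => rw [H_one, P_one]; simp; linarith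
  | more k h0 h1 =>
    rw [H_two, P_two]
    refine (norm_sub_le _ _).trans (add_le_add ?_ ?_)
    · simp only [norm_mul, Complex.norm_ofNat]
      gcongr
    · have : ‖(k : ℂ) + 1‖ = (k : ℝ) + 1 := by
        rw [show ((k : ℂ) + 1) = ((k + 1 : ℕ) : ℂ) by push_cast; ring, Complex.norm_natCast]
        push_cast; ring
      simp only [norm_mul, Complex.norm_ofNat, this]
      gcongr

theorem H_imag (k : ℕ) {u : ℂ} (hu : u ^ 2 = -1) (y : ℝ) :
    (H k).eval (u * y) = u ^ k * (P k y : ℝ) := by
  induction k using Nat.twoStepInduction with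
  | zero => simp [H_zero, P_zero]
  | one => rw [H_one, P_one]; push_cast; ring
  | more k h0 h1 =>
    rw [H_two, P_two, h0, h1]
    push_cast
    linear_combination (-(2 * ((k : ℂ) + 1) * u ^ k * (P k y : ℂ))) * hu

theorem P_ratio (k : ℕ) {y : ℝ} (hy : 1 ≤ y) :
    0 < P k y ∧ Real.sqrt (k + 1) * P k y ≤ P (k + 1) y ∧ 2 * y * P k y ≤ P (k + 1) y ∧
      P (k + 1) y ≤ (2 * y + 2 * Real.sqrt k) * P k y := by
  induction k with
  | zero => simp [P_zero, P_one]; linarith
  | succ k ih =>
    obtain ⟨h0, h1, h2, h3⟩ := ih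
    have hp : 0 < P (k + 1) y := lt_of_lt_of_le (by positivity) h2
    set s := Real.sqrt (k + 1) with hs
    have hs0 : 0 < s := Real.sqrt_pos.2 (by positivity)
    have hss : s * s = k + 1 := Real.mul_self_sqrt (by positivity)
    refine ⟨hp, ?_, ?_, ?_⟩
    · rw [P_two]
      set w := Real.sqrt (((k + 1 : ℕ) : ℝ) + 1) with hw
      have hw0 : 0 < w := Real.sqrt_pos.2 (by positivity)
      have hww : w * w = k + 2 := by
        rw [hw, Real.mul_self_sqrt (by positivity)]; push_cast; ring
      have hkw : Real.sqrt k ≤ w := Real.sqrt_le_sqrt (by push_cast; linarith)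
      have h4 : P (k + 1) y ≤ (2 * y + 2 * w) * P k y := h3.trans (by gcongr)
      have h5 : (w - 2 * y) * (2 * y + 2 * w) ≤ 2 * ((k : ℝ) + 1) := by nlinarith
      by_cases hc : w ≤ 2 * y
      · have : w * P (k + 1) y ≤ 2 * y * P (k + 1) y := by gcongr
        have : 0 ≤ 2 * ((k : ℝ) + 1) * P k y := by positivity
        linarith
      · have h6 : (w - 2 * y) * P (k + 1) y ≤ (w - 2 * y) * ((2 * y + 2 * w) * P k y) :=
          mul_le_mul_of_nonneg_left h4 (by linarith)
        have h7 : (w - 2 * y) * (2 * y + 2 * w) * P k y ≤ 2 * ((k : ℝ) + 1) * P k y := by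
          gcongr
        nlinarith
    · rw [P_two]
      have : 0 ≤ 2 * ((k : ℝ) + 1) * P k y := by positivity
      linarith
    · rw [P_two]
      push_cast
      rw [← hs]
      have : s * (s * P k y) ≤ s * P (k + 1) y := by gcongr
      rw [← hss]
      nlinarith

theorem P_pos (k : ℕ) {y : ℝ} (hy : 1 ≤ y) : 0 < P k y := (P_ratio k hy).1

theorem logP_hasDerivAt (k : ℕ) {y : ℝ} (hy : 1 ≤ y) :
    HasDerivAt (fun y => Real.log (P (k + 1) y))
      (2 * ((k : ℝ) + 1) * P k y / P (k + 1) y) y :=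
  (P_hasDerivAt k y).log (P_pos _ hy).ne'

/-- upper growth -/
theorem logP_upper (k : ℕ) {R ρ : ℝ} (hR : 1 ≤ R) (hρ : R ≤ ρ) :
    Real.log (P (k + 1) ρ) - Real.log (P (k + 1) R) ≤
      min (2 * Real.sqrt (k + 1)) ((k + 1) / R) * ρ := by
  have hm : 0 ≤ min (2 * Real.sqrt (k + 1)) ((k + 1) / R) := by positivity
  have := (convex_Ici R).image_sub_le_mul_sub_of_deriv_le
    (f := fun y => Real.log (P (k + 1) y))
    (C := min (2 * Real.sqrt (k + 1)) ((k + 1) / R))
    (fun y hy => (logP_hasDerivAt k (hR.trans hy)).continuousAt.continuousWithinAt)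
    (fun y hy => (logP_hasDerivAt k
      (hR.trans (interior_subset hy))).differentiableAt.differentiableWithinAt)
    (fun y hy => by
      have hy1 : R ≤ y := interior_subset hy
      have hy' : 1 ≤ y := hR.trans hy1
      obtain ⟨h0, h1, h2, -⟩ := P_ratio k hy'
      have hp := P_pos (k + 1) hy'
      rw [(logP_hasDerivAt k hy').deriv]
      refine le_min ?_ ?_
      · rw [div_le_iff₀ hp]
        have hss : Real.sqrt (k + 1) * Real.sqrt (k + 1) = k + 1 :=
          Real.mul_self_sqrt (by positivity)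
        have : Real.sqrt (k + 1) * (Real.sqrt (k + 1) * P k y) ≤
          Real.sqrt (k + 1) * P (k + 1) y := by gcongr
        nlinarith
      · rw [div_le_div_iff₀ hp (by linarith)]
        have h3 : 2 * R * P k y ≤ P (k + 1) y := le_trans (by gcongr) h2
        have : ((k : ℝ) + 1) * (2 * R * P k y) ≤ (k + 1) * P (k + 1) y := by gcongr
        nlinarith)
    R (Set.mem_Ici.2 le_rfl) ρ hρ hρ
  refine this.trans ?_
  gcongr
  linarith

/-- lower growth -/
theorem logP_lower (k : ℕ) {a R : ℝ} (ha : 1 ≤ a) (hR : a ≤ R) :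
    ((k : ℝ) + 1) * Real.log ((R + Real.sqrt (k + 1)) / (a + Real.sqrt (k + 1))) ≤
      Real.log (P (k + 1) R) - Real.log (P (k + 1) a) := by
  set s := Real.sqrt (k + 1) with hs
  have hs0 : 0 < s := Real.sqrt_pos.2 (by positivity)
  have hd : ∀ y, 1 ≤ y → HasDerivAt
      (fun y => Real.log (P (k + 1) y) - ((k : ℝ) + 1) * Real.log (y + s))
      (2 * ((k : ℝ) + 1) * P k y / P (k + 1) y - ((k : ℝ) + 1) * (1 / (y + s))) y := by
    intro y hy
    exact (logP_hasDerivAt k hy).sub
      ((((hasDerivAt_id y).add_const s).log (by simp; linarith)).const_mul _)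
  have := (convex_Ici a).mul_sub_le_image_sub_of_le_deriv
    (f := fun y => Real.log (P (k + 1) y) - ((k : ℝ) + 1) * Real.log (y + s)) (C := 0)
    (fun y hy => (hd y (ha.trans hy)).continuousAt.continuousWithinAt)
    (fun y hy => (hd y (ha.trans (interior_subset hy))).differentiableAt.differentiableWithinAt)
    (fun y hy => by
      have hy' : 1 ≤ y := ha.trans (interior_subset hy)
      obtain ⟨h0, -, -, h3⟩ := P_ratio k hy'
      have hp := P_pos (k + 1) hy'
      rw [(hd y hy').deriv, sub_nonneg, mul_one_div, div_le_div_iff₀ (by linarith) hp]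
      have hk : Real.sqrt k ≤ s := Real.sqrt_le_sqrt (by linarith)
      have h4 : P (k + 1) y ≤ (2 * y + 2 * s) * P k y := h3.trans (by gcongr)
      have : ((k : ℝ) + 1) * P (k + 1) y ≤ (k + 1) * ((2 * y + 2 * s) * P k y) := by gcongr
      nlinarith)
    a (Set.mem_Ici.2 le_rfl) R hR hR
  rw [Real.log_div (by linarith) (by linarith)]
  linarith

end Pool.Agent.H53.Hm
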