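import Mathlib
import Pool.Agent.H53.HmA
import Pool.Agent.H53.HmB

/-! Isolating one Hermite term of a sparse Hermite sum; growth inequalities. -/

namespace Pool.Agent.H53.Hm

open Polynomial Metric

theorem cauchy1 {f : ℂ[X]} {w : ℂ} {r δ M : ℝ} (hδ : 0 < δ)
    (h : ∀ z ∈ closedBall w (r + δ), ‖f.eval z‖ ≤ M) :
    ∀ z ∈ closedBall w r, ‖(derivative f).eval z‖ ≤ M / δ := by
  intro z hz
  rw [← Polynomial.deriv]
  apply Complex.norm_deriv_le_of_forall_mem_sphere_norm_le hδ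
    f.differentiable.diffContOnCl
  intro v hv
  apply h
  rw [mem_closedBall] at hz ⊢
  rw [mem_sphere] at hv
  linarith [dist_triangle v z w]

noncomputable def Lop (j : ℕ) (f : ℂ[X]) : ℂ[X] :=
  derivative (derivative f) - 2 * X * derivative f + 2 * (j : ℂ[X]) * f

theorem Lop_bound {f : ℂ[X]} {w : ℂ} {R r M : ℝ} (j : ℕ) (hR : 1 ≤ R) (hw : ‖w‖ = R)
    (hr : r ≤ R / 2) (h : ∀ z ∈ closedBall w (r + R / 6), ‖f.eval z‖ ≤ M) :
    ∀ z ∈ closedBall w r, ‖(Lop j f).eval z‖ ≤ (180 + 2 * j) * M := by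
  intro z hz
  have hδ : 0 < R / 12 := by linarith
  have h1 : ∀ z ∈ closedBall w (r + R / 12), ‖(derivative f).eval z‖ ≤ M / (R / 12) :=
    cauchy1 hδ (fun v hv => h v (by rwa [show r + R / 12 + R / 12 = r + R / 6 by ring] at hv))
  have h2 := cauchy1 hδ h1 z hz
  have h3 := h1 z (closedBall_subset_closedBall (by linarith) hz)
  have h4 := h z (closedBall_subset_closedBall (by linarith) hz)
  have hM : 0 ≤ M := (norm_nonneg _).trans h4
  have hz2 : ‖z‖ ≤ 3 * R / 2 := by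
    have := mem_closedBall_iff_norm.1 hz
    linarith [norm_le_norm_add_norm_sub' z w]
  have e2 : M / (R / 12) / (R / 12) ≤ 144 * M := by
    rw [div_le_iff₀ hδ, div_le_iff₀ hδ]
    have : 1 ≤ R * R := by nlinarith
    nlinarith
  have e3 : ‖2 * z * (derivative f).eval z‖ ≤ 36 * M := by
    simp only [norm_mul, Complex.norm_ofNat]
    calc 2 * ‖z‖ * ‖(derivative f).eval z‖ ≤ 2 * (3 * R / 2) * (M / (R / 12)) := by gcongr
      _ = 36 * M := by field_simp; ring
  have e4 : ‖2 * (j : ℂ) * f.eval z‖ ≤ 2 * j * M := by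
    simp only [norm_mul, Complex.norm_ofNat, Complex.norm_natCast]
    gcongr
  have e : (Lop j f).eval z = (derivative (derivative f)).eval z -
      2 * z * (derivative f).eval z + 2 * (j : ℂ) * f.eval z := by simp [Lop]
  rw [e]
  refine (norm_add_le _ _).trans ?_
  linarith [norm_sub_le ((derivative (derivative f)).eval z) (2 * z * (derivative f).eval z)]

theorem Lop_sum (j : ℕ) (K : Finset ℕ) (c : ℕ → ℂ) :
    Lop j (∑ i ∈ K, C (c i) * H i) =
      ∑ i ∈ K.erase j, C (c i * (2 * j - 2 * i)) * H i := by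
  have h1 : Lop j (∑ i ∈ K, C (c i) * H i) = ∑ i ∈ K, C (c i * (2 * j - 2 * i)) * H i := by
    simp only [Lop, derivative_sum, derivative_C_mul, Finset.mul_sum, ← Finset.sum_sub_distrib,
      ← Finset.sum_add_distrib]
    refine Finset.sum_congr rfl fun i _ => ?_
    have e : (C (c i * (2 * j - 2 * i)) : ℂ[X]) = C (c i) * (2 * j - 2 * i) := by
      simp only [map_mul, map_sub, map_natCast, map_ofNat]
    rw [e]
    linear_combination (C (c i)) * H_ode i
  rw [h1, Finset.sum_erase]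
  simp

theorem isolate {u : ℂ} (hu : u ^ 2 = -1) {R : ℝ} (hR : 1 ≤ R) {k : ℕ} (hk : 1 ≤ k) (t : ℕ)
    (ht : t ≤ 3) : ∀ (K : Finset ℕ) (c : ℕ → ℂ) (M : ℝ), k ∈ K → K.card ≤ t + 1 →
      (∀ z ∈ closedBall (u * R) (t * (R / 6)), ‖(∑ i ∈ K, C (c i) * H i).eval z‖ ≤ M) →
      ‖c k‖ * P k R ≤ (92 * k) ^ t * M := by
  have hun : ‖u‖ = 1 := by
    have : ‖u‖ ^ 2 = 1 := by rw [← norm_pow, hu]; simp
    nlinarith [norm_nonneg u]
  have hw : ‖u * R‖ = R := by simp [hun]; linarith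
  have hk' : (1 : ℝ) ≤ k := by exact_mod_cast hk
  have base : ∀ (s : ℕ) (c : ℕ → ℂ) (M : ℝ),
      (∀ z ∈ closedBall (u * R) (s * (R / 6)), ‖(∑ i ∈ {k}, C (c i) * H i).eval z‖ ≤ M) →
      ‖c k‖ * P k R ≤ (92 * k) ^ s * M := by
    intro s c M h
    have h1 := h (u * R) (mem_closedBall_self (by positivity))
    simp only [Finset.sum_singleton, eval_mul, eval_C, H_imag k hu, norm_mul, norm_pow, hun,
      one_pow, one_mul, Complex.norm_real, Real.norm_eq_abs, abs_of_pos (P_pos k hR)] at h1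
    have hM : 0 ≤ M := le_trans (mul_nonneg (norm_nonneg _) (P_pos k hR).le) h1
    have : (1 : ℝ) ≤ (92 * k) ^ s := one_le_pow₀ (by linarith)
    nlinarith
  induction t with
  | zero =>
    intro K c M hK hc h
    have : K = {k} := Finset.eq_singleton_iff_unique_mem.2
      ⟨hK, fun x hx => Finset.card_le_one.1 hc x hx k hK⟩
    subst this
    exact base 0 c M h
  | succ t ih =>
    intro K c M hK hc h
    by_cases hj : ∃ j ∈ K, j ≠ k
    swap
    · push Not at hj
      have : K = {k} := Finset.eq_singleton_iff_unique_mem.2 ⟨hK, hj⟩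
      subst this
      exact base (t + 1) c M h
    obtain ⟨j, hjK, hjk⟩ := hj
    have ht' : (t : ℝ) ≤ 2 := by exact_mod_cast (by omega : t ≤ 2)
    have h1 := Lop_bound (f := ∑ i ∈ K, C (c i) * H i) (r := t * (R / 6)) (M := M) j hR hw
      (by nlinarith) (fun z hz => h z (by
        rwa [show ((t + 1 : ℕ) : ℝ) * (R / 6) = t * (R / 6) + R / 6 by push_cast; ring]))
    rw [Lop_sum] at h1
    have h2 := ih (by omega) (K.erase j) (fun i => c i * (2 * j - 2 * i)) _
      (Finset.mem_erase.2 ⟨hjk.symm, hK⟩) (by rw [Finset.card_erase_of_mem hjK]; omega) h1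
    have hM : 0 ≤ M := (norm_nonneg _).trans (h (u * R) (mem_closedBall_self (by positivity)))
    have hd : ‖(2 * j - 2 * k : ℂ)‖ = 2 * |(j : ℝ) - k| := by
      rw [show (2 * j - 2 * k : ℂ) = ((2 * (j - k) : ℝ) : ℂ) by push_cast; ring,
        Complex.norm_real, Real.norm_eq_abs, abs_mul]
      simp
    have hd1 : (1 : ℝ) ≤ |(j : ℝ) - k| := by
      have : (1 : ℤ) ≤ |(j : ℤ) - k| := Int.one_le_abs (by omega)
      exact_mod_cast this
    have hd2 : (180 + 2 * j : ℝ) ≤ 92 * k * (2 * |(j : ℝ) - k|) := by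
      have := le_abs_self ((j : ℝ) - k)
      nlinarith
    simp only [norm_mul, hd] at h2
    have h3 : (92 * k : ℝ) ^ t * ((180 + 2 * j) * M) ≤
        (92 * k) ^ t * ((92 * k * (2 * |(j : ℝ) - k|)) * M) := by gcongr
    have h4 : ‖c k‖ * P k R * (2 * |(j : ℝ) - k|) ≤
        (92 * k) ^ (t + 1) * M * (2 * |(j : ℝ) - k|) := by
      rw [pow_succ]; linarith
    exact le_of_mul_le_mul_right h4 (by linarith)

noncomputable def T : ℝ := 2 * Real.exp 129 + 1

theorem T_ge : 7000 ≤ T := by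
  have h : (1 + 129 / 2 : ℝ) ^ 2 ≤ Real.exp 129 := by
    have h1 := Real.add_one_le_exp (129 / 2)
    have h2 : Real.exp 129 = Real.exp (129 / 2) ^ 2 := by
      rw [← Real.exp_nat_mul]; norm_num
    rw [h2]; gcongr; linarith
  unfold T; linarith

theorem growth (k : ℕ) {a R ρ : ℝ} (ha : 1 ≤ a) (hR : T * a ≤ R) (hρ : T * R ≤ ρ) :
    129 * Real.sqrt (k + 1) ≤ Real.log (P (k + 1) R) - Real.log (P (k + 1) a) ∧
    864 * (R ^ 2 / ρ ^ 2) * (Real.log (P (k + 1) ρ) - Real.log (P (k + 1) R)) ≤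
      Real.log (P (k + 1) R) - Real.log (P (k + 1) a) := by
  have hT := T_ge
  have haR : a ≤ R / 2 := by nlinarith
  have hR1 : 1 ≤ R := by linarith
  have hρ0 : 0 < ρ := by nlinarith
  have hl := logP_lower k ha (by linarith : a ≤ R)
  have hu := logP_upper k hR1 (by nlinarith : R ≤ ρ)
  set s := Real.sqrt (k + 1) with hs
  have hs1 : 1 ≤ s := by
    rw [hs]; apply Real.one_le_sqrt.2; linarith [Nat.cast_nonneg (α := ℝ) k]
  have hss : s * s = k + 1 := Real.mul_self_sqrt (by positivity)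
  set N := Real.log (P (k + 1) R) - Real.log (P (k + 1) a)
  constructor
  · have h1 : 1 + Real.exp 129 / s ≤ (R + s) / (a + s) := by
      rw [le_div_iff₀ (by linarith)]
      have h2 : a + s ≤ 2 * a * s := by nlinarith
      have h3 : Real.exp 129 / s * (a + s) ≤ Real.exp 129 / s * (2 * a * s) := by gcongr
      have h4 : Real.exp 129 / s * (2 * a * s) = 2 * Real.exp 129 * a := by field_simp
      unfold T at hR
      nlinarith
    have h2 := one_add_mul_self_le_rpow_one_add (s := Real.exp 129 / s)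
      (le_trans (by norm_num) (by positivity : 0 ≤ Real.exp 129 / s)) hs1
    have h3 : 129 ≤ s * Real.log (1 + Real.exp 129 / s) := by
      rw [← Real.log_rpow (by positivity), Real.le_log_iff_exp_le (by positivity)]
      have : s * (Real.exp 129 / s) = Real.exp 129 := by field_simp
      linarith
    have h4 : Real.log (1 + Real.exp 129 / s) ≤ Real.log ((R + s) / (a + s)) :=
      Real.log_le_log (by positivity) h1
    have h5 : s * (s * Real.log (1 + Real.exp 129 / s)) ≤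
        s * (s * Real.log ((R + s) / (a + s))) := by gcongr
    rw [← hss] at hl
    nlinarith
  · have h1 : (R / 2) / (R + s) ≤ Real.log ((R + s) / (a + s)) := by
      have h2 := Real.one_sub_inv_le_log_of_pos (x := (R + s) / (a + s)) (by positivity)
      refine le_trans ?_ h2
      rw [inv_div, le_sub_iff_add_le, ← add_div, div_le_one (by linarith)]
      linarith
    have h2 : ((k : ℝ) + 1) * ((R / 2) / (R + s)) ≤ N := le_trans (by gcongr) hl
    have h3 : min (2 * s) ((k + 1) / R) * R ≤ 8 * N := by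
      by_cases hc : s ≤ R
      · have e1 : min (2 * s) ((k + 1) / R) * R ≤ k + 1 := by
          calc _ ≤ (k + 1) / R * R := by gcongr; exact min_le_right _ _
            _ = _ := by field_simp
        have e2 : 1 / 4 ≤ (R / 2) / (R + s) := by
          rw [le_div_iff₀ (by linarith)]; linarith
        have e3 : ((k : ℝ) + 1) * (1 / 4) ≤ ((k : ℝ) + 1) * ((R / 2) / (R + s)) := by gcongr
        have : (0 : ℝ) ≤ k + 1 := by positivity
        linarith
      · have e1 : min (2 * s) ((k + 1) / R) * R ≤ 2 * s * R := by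
          gcongr; exact min_le_left _ _
        have e2 : s * R / 4 ≤ ((k : ℝ) + 1) * ((R / 2) / (R + s)) := by
          rw [← hss, ← mul_div_assoc, le_div_iff₀ (by linarith)]
          have : 0 ≤ s * R * (s - R) := by
            apply mul_nonneg (by positivity); linarith
          nlinarith
        linarith
    have hN : 0 ≤ N := le_trans (by positivity) h2
    have h4 : R ^ 2 / ρ ^ 2 * (min (2 * s) ((k + 1) / R) * ρ) =
        R / ρ * (min (2 * s) ((k + 1) / R) * R) := by field_simp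
    have h5 : R / ρ ≤ 1 / 7000 := by
      rw [div_le_div_iff₀ hρ0 (by norm_num)]; nlinarith
    have h6 : R / ρ * (min (2 * s) ((k + 1) / R) * R) ≤ 1 / 7000 * (8 * N) := by gcongr
    have h7 : R ^ 2 / ρ ^ 2 * (Real.log (P (k + 1) ρ) - Real.log (P (k + 1) R)) ≤
        R ^ 2 / ρ ^ 2 * (min (2 * s) ((k + 1) / R) * ρ) := by gcongr
    nlinarith

theorem norm_sum_le (K : Finset ℕ) (c : ℕ → ℂ) {z : ℂ} {y : ℝ} (hz : ‖z‖ ≤ y) :
    ‖(∑ i ∈ K, C (c i) * H i).eval z‖ ≤ ∑ i ∈ K, ‖c i‖ * P i y := by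
  rw [eval_finset_sum]
  refine (_root_.norm_sum_le _ _).trans (Finset.sum_le_sum fun i _ => ?_)
  rw [eval_mul, eval_C, norm_mul]
  gcongr
  exact H_norm_le i hz

theorem three_scales (K : Finset ℕ) (hK : K.card ≤ 4) (c : ℕ → ℂ) (k : ℕ) (hk : k + 1 ∈ K)
    {a R ρ : ℝ} (ha : 1 ≤ a) (hR : T * a ≤ R) (hρ : T * R ≤ ρ)
    (hdom : ∀ y ∈ ({a, R, ρ} : Set ℝ),
      ∑ i ∈ K, ‖c i‖ * P i y ≤ 4 * (‖c (k + 1)‖ * P (k + 1) y)) :
    ∃ z ∈ ball (0 : ℂ) ρ, (∑ i ∈ K, C (c i) * H i).eval z = 0 := by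
  by_contra hcon
  push Not at hcon
  have hT := T_ge
  have hR1 : 1 ≤ R := by nlinarith
  have hρ1 : 1 ≤ ρ := by nlinarith
  set Q : ℂ → ℂ := fun z => (∑ i ∈ K, C (c i) * H i).eval z with hQ
  have hQd : Differentiable ℂ Q := Polynomial.differentiable _
  have hup : ∀ y ∈ ({a, R, ρ} : Set ℝ), ∀ z : ℂ, ‖z‖ ≤ y →
      ‖Q z‖ ≤ 4 * (‖c (k + 1)‖ * P (k + 1) y) :=
    fun y hy z hz => (norm_sum_le K c hz).trans (hdom y hy)
  have h00 : 0 < ‖Q 0‖ := norm_pos_iff.2 (hcon 0 (mem_ball_self (by linarith)))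
  have hck : 0 < ‖c (k + 1)‖ := by
    have h1 := hup a (by simp) 0 (by simp; linarith)
    by_contra h2
    have : ‖c (k + 1)‖ = 0 := le_antisymm (not_lt.1 h2) (norm_nonneg _)
    rw [this] at h1
    linarith
  set γ := Real.log (4 * ‖c (k + 1)‖) with hγ
  have hlog : ∀ y ∈ ({a, R, ρ} : Set ℝ), 1 ≤ y → ∀ z ∈ ball (0 : ℂ) ρ, ‖z‖ ≤ y →
      Real.log ‖Q z‖ ≤ γ + Real.log (P (k + 1) y) := by
    intro y hy hy1 z hz1 hz
    rw [hγ, ← Real.log_mul (by positivity) (P_pos _ hy1).ne']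
    apply Real.log_le_log (norm_pos_iff.2 (hcon z hz1))
    linarith [hup y hy z hz]
  obtain ⟨g1, g2⟩ := growth k ha hR hρ
  set la := Real.log (P (k + 1) a)
  set lR := Real.log (P (k + 1) R) with hlR
  set lρ := Real.log (P (k + 1) ρ)
  set a0 := Real.log ‖Q 0‖
  have hb0 : (0 : ℂ) ∈ ball (0 : ℂ) ρ := mem_ball_self (by linarith)
  have e0 : a0 ≤ γ + la := hlog a (by simp) ha 0 hb0 (by simp; linarith)
  have e1 : a0 ≤ γ + lρ := hlog ρ (by simp) hρ1 0 hb0 (by simp; linarith)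
  obtain ⟨u, hu, hsmall⟩ := small_side hQd (ρ := ρ) (Δ := γ + lρ - a0 + 1) (R := R)
    (A := γ + lR) (by linarith) (by nlinarith) (by linarith) hcon
    (fun z hz => by
      have := hlog ρ (by simp) hρ1 z hz (mem_ball_zero_iff.1 hz).le
      linarith)
    (fun z hz => hlog R (by simp) hR1 z (mem_ball_zero_iff.2 (by nlinarith)) hz.le)
  have hiso := isolate hu hR1 (k := k + 1) (by omega) 3 le_rfl K c _ hk hK
    (fun z hz => hsmall z (by
      rwa [show ((3 : ℕ) : ℝ) * (R / 6) = R / 2 by push_cast; ring] at hz))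
  set s := Real.sqrt (k + 1) with hs
  have hs1 : 1 ≤ s := by
    rw [hs]; apply Real.one_le_sqrt.2; linarith [Nat.cast_nonneg (α := ℝ) k]
  have hss : s * s = k + 1 := Real.mul_self_sqrt (by positivity)
  have hloss : 4 * (92 * ((k + 1 : ℕ) : ℝ)) ^ 3 ≤ Real.exp (23 * s) := by
    push_cast
    have h1 : s ≤ Real.exp s := by linarith [Real.add_one_le_exp s]
    have h2 : (2 : ℝ) ≤ Real.exp 1 := by linarith [Real.add_one_le_exp 1]
    have h2' : (2.7 : ℝ) ≤ Real.exp 1 := by linarith [Real.exp_one_gt_d9]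
    have h3 : Real.exp 1 ≤ Real.exp s := Real.exp_le_exp.2 hs1
    have h4 : Real.exp (23 * s) = Real.exp s ^ 17 * Real.exp s ^ 6 := by
      rw [← pow_add, ← Real.exp_nat_mul]; norm_num
    have h5 : (2.7 : ℝ) ^ 17 ≤ Real.exp s ^ 17 := by gcongr; linarith
    have h6 : s ^ 6 ≤ Real.exp s ^ 6 := by gcongr
    rw [h4, ← hss]
    calc 4 * (92 * (s * s)) ^ 3 = (4 * 92 ^ 3) * s ^ 6 := by ring
      _ ≤ (2.7 : ℝ) ^ 17 * s ^ 6 := by gcongr; norm_num
      _ ≤ _ := by gcongr
  set m := (γ + lR + a0) / 2 + 54 * (γ + lρ - a0 + 1) * R ^ 2 / ρ ^ 2 with hm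
  have hfin : γ + lR ≤ 23 * s + m := by
    rw [hγ, hlR, ← Real.log_mul (by positivity) (P_pos _ hR1).ne',
      Real.log_le_iff_le_exp (by have := P_pos (k + 1) hR1; positivity), Real.exp_add]
    have : 4 * (92 * ((k + 1 : ℕ) : ℝ)) ^ 3 * Real.exp m ≤ Real.exp (23 * s) * Real.exp m := by
      gcongr
    linarith
  set θ := R ^ 2 / ρ ^ 2 with hθ
  have hθ0 : 0 ≤ θ := by positivity
  have hθ1 : θ ≤ 1 / 1000 := by
    rw [hθ, div_le_div_iff₀ (by positivity) (by norm_num)]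
    have : 7000 * R ≤ ρ := by nlinarith
    nlinarith
  have hm' : m = (γ + lR + a0) / 2 + 54 * (θ * (lρ - lR)) + 54 * (θ * (γ + lR - a0 + 1)) := by
    rw [hm, hθ]; ring
  have hX : 0 ≤ γ + lR - a0 := by linarith
  have h8 : θ * (γ + lR - a0 + 1) ≤ 1 / 1000 * (γ + lR - a0 + 1) := by gcongr
  have h9 : 864 * (θ * (lρ - lR)) ≤ lR - la := by linarith
  linarith

end Pool.Agent.H53.Hm
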