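import Pool.Agent.Lead.KK.Spec

set_option autoImplicit false
open Complex MeasureTheory Set

namespace Pool.Agent.H53.KK
open Pool.Agent.Lead.KK

/-- the Gaussian identity -/
theorem gauss_int (c u : ℂ) :
    ∫ τ : ℝ, Complex.exp ((c + τ * I) ^ 2) * Complex.exp (τ * I * u) =
      (Real.sqrt Real.pi : ℝ) * Complex.exp (-(c * u) - u ^ 2 / 4) := by
  have h := integral_cexp_quadratic (b := -1) (by simp) (2 * c * I + I * u) (c ^ 2)
  have e : ∀ τ : ℝ, Complex.exp ((c + τ * I) ^ 2) * Complex.exp (τ * I * u) =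
      Complex.exp (-1 * (τ : ℂ) ^ 2 + (2 * c * I + I * u) * τ + c ^ 2) := by
    intro τ
    rw [← Complex.exp_add]
    congr 1
    linear_combination (τ : ℂ) ^ 2 * I_sq
  simp_rw [e]
  rw [h]
  have h1 : ((Real.pi : ℂ) / - -1) ^ (1 / 2 : ℂ) = (Real.sqrt Real.pi : ℝ) := by
    rw [neg_neg, div_one, Real.sqrt_eq_rpow, Complex.ofReal_cpow Real.pi_pos.le]
    norm_num
  rw [h1]
  congr 2
  linear_combination ((2 * c + u) ^ 2 / 4) * I_sq

theorem gauss_integrable (c : ℂ) :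
    Integrable (fun τ : ℝ => Complex.exp ((c + τ * I) ^ 2)) := by
  have h := integrable_cexp_quadratic' (b := -1) (by simp) (2 * c * I) (c ^ 2)
  refine h.congr (Filter.Eventually.of_forall fun τ => ?_)
  simp only
  congr 1
  linear_combination (-(τ : ℂ) ^ 2) * I_sq

theorem sqrtpi_ne : ((Real.sqrt Real.pi : ℝ) : ℂ) ≠ 0 := by
  have : 0 < Real.sqrt Real.pi := Real.sqrt_pos.2 Real.pi_pos
  exact_mod_cast this.ne'

theorem gauss_int' (c u : ℂ) :
    Complex.exp (-(c * u) - u ^ 2 / 4) = (((Real.sqrt Real.pi)⁻¹ : ℝ) : ℂ) *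
      ∫ τ : ℝ, Complex.exp ((c + τ * I) ^ 2) * Complex.exp (τ * I * u) := by
  rw [gauss_int, ← mul_assoc, Complex.ofReal_inv, inv_mul_cancel₀ sqrtpi_ne, one_mul]

theorem sum_sq : ∑' n : ℕ, 1 / ((n : ℝ) + 1) ^ 2 ≤ 2 := by
  have h := hasSum_zeta_two
  have h2 := (hasSum_nat_add_iff' 1).2 h
  simp only [Finset.range_one, Finset.sum_singleton, Nat.cast_zero, Nat.cast_add, Nat.cast_one] at h2
  rw [h2.tsum_eq]
  have := Real.pi_lt_d2
  have := Real.pi_pos
  norm_num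
  nlinarith

theorem summ_sq : Summable fun n : ℕ => 1 / ((n : ℝ) + 1) ^ 2 := by
  have h := hasSum_zeta_two
  have h2 := ((hasSum_nat_add_iff' 1).2 h).summable
  simpa using h2

theorem norm_inv_cpow (n : ℕ) (s : ℂ) (hs : 2 ≤ s.re) :
    ‖1 / ((n : ℂ) + 1) ^ s‖ ≤ 1 / ((n : ℝ) + 1) ^ 2 := by
  have hp : (0 : ℝ) < (n : ℝ) + 1 := by positivity
  have e : ((n : ℂ) + 1) = (((n : ℝ) + 1 : ℝ) : ℂ) := by push_cast; ring
  rw [norm_div, norm_one, e, Complex.norm_cpow_eq_rpow_re_of_pos hp]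
  apply one_div_le_one_div_of_le (by positivity)
  have : ((n : ℝ) + 1) ^ 2 = ((n : ℝ) + 1) ^ (2 : ℝ) := by norm_num
  rw [this]
  exact Real.rpow_le_rpow_of_exponent_le (by linarith [Nat.cast_nonneg (α := ℝ) n]) hs

theorem zeta_bound (s : ℂ) (hs : 2 ≤ s.re) : ‖riemannZeta s‖ ≤ 2 := by
  rw [zeta_eq_tsum_one_div_nat_add_one_cpow (by linarith)]
  exact (tsum_of_norm_bounded summ_sq.hasSum fun n => norm_inv_cpow n s hs).trans sum_sq

/-- the terms of `Z` -/
noncomputable def zt (w : ℂ) (n : ℕ) : ℂ :=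
  Complex.exp (-(w * (Real.log ((n : ℝ) + 1) : ℝ)) - ((Real.log ((n : ℝ) + 1) : ℝ) : ℂ) ^ 2 / 4)

theorem cpow_eq (n : ℕ) (s : ℂ) :
    1 / ((n : ℂ) + 1) ^ s = Complex.exp (-(s * (Real.log ((n : ℝ) + 1) : ℝ))) := by
  have hp : (0 : ℝ) < (n : ℝ) + 1 := by positivity
  have e : ((n : ℂ) + 1) = (((n : ℝ) + 1 : ℝ) : ℂ) := by push_cast; ring
  have h0 : (((n : ℝ) + 1 : ℝ) : ℂ) ≠ 0 := by exact_mod_cast hp.ne'
  rw [e, Complex.cpow_def_of_ne_zero h0, ← Complex.ofReal_log hp.le, Complex.exp_neg, one_div,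
    mul_comm]

theorem norm_zt (w : ℂ) (n : ℕ) :
    ‖zt w n‖ = Real.exp (-(w.re * Real.log ((n : ℝ) + 1)) - Real.log ((n : ℝ) + 1) ^ 2 / 4) := by
  rw [zt, Complex.norm_exp]
  congr 1
  have : (((Real.log ((n : ℝ) + 1) : ℝ) : ℂ) ^ 2 / 4) =
      ((Real.log ((n : ℝ) + 1) ^ 2 / 4 : ℝ) : ℂ) := by push_cast; ring
  rw [this]
  simp only [sub_re, neg_re, mul_re, ofReal_re, ofReal_im, mul_zero, sub_zero]

theorem exp_two_log (n : ℕ) :
    Real.exp (-(2 * Real.log ((n : ℝ) + 1))) = 1 / ((n : ℝ) + 1) ^ 2 := by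
  have hp : (0 : ℝ) < (n : ℝ) + 1 := by positivity
  have : 2 * Real.log ((n : ℝ) + 1) = Real.log (((n : ℝ) + 1) ^ 2) := by
    rw [Real.log_pow]; norm_num
  rw [this, Real.exp_neg, Real.exp_log (by positivity), one_div]

theorem norm_zt_le (w : ℂ) (n : ℕ) :
    ‖zt w n‖ ≤ Real.exp (max (2 - w.re) 0 ^ 2) * (1 / ((n : ℝ) + 1) ^ 2) := by
  rw [norm_zt, ← exp_two_log, ← Real.exp_add]
  apply Real.exp_le_exp.2
  have hL : 0 ≤ Real.log ((n : ℝ) + 1) :=
    Real.log_nonneg (by linarith [Nat.cast_nonneg (α := ℝ) n])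
  set L := Real.log ((n : ℝ) + 1)
  have h1 : 2 - w.re ≤ max (2 - w.re) 0 := le_max_left _ _
  set m := max (2 - w.re) 0
  nlinarith [sq_nonneg (m - L / 2), mul_le_mul_of_nonneg_right h1 hL]

theorem summ_zt (w : ℂ) : Summable fun n => ‖zt w n‖ :=
  Summable.of_nonneg_of_le (fun _ => norm_nonneg _) (norm_zt_le w) (summ_sq.mul_left _)

theorem term_eq (w : ℂ) (n : ℕ) :
    LSeries.term (fun n => (Real.exp (-(Real.log n ^ 2 / 4)) : ℂ)) w (n + 1) = zt w n := by
  rw [LSeries.term_of_ne_zero (Nat.succ_ne_zero n), div_eq_mul_one_div]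
  push_cast
  rw [cpow_eq, zt, ← Complex.exp_add]
  congr 1
  push_cast
  ring

theorem Z_eq (w : ℂ) : Z w = ∑' n : ℕ, zt w n := by
  have hs : Summable fun n =>
      LSeries.term (fun n => (Real.exp (-(Real.log n ^ 2 / 4)) : ℂ)) w n := by
    rw [← summable_nat_add_iff 1]
    simp_rw [term_eq]
    exact (summ_zt w).of_norm
  rw [Z, LSeries, hs.tsum_eq_zero_add]
  simp_rw [term_eq]
  simp

theorem Z_bound (w : ℂ) : ‖Z w‖ ≤ 2 * Real.exp (max (2 - w.re) 0 ^ 2) := by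
  rw [Z_eq]
  refine (tsum_of_norm_bounded (summ_sq.hasSum.mul_left _) (norm_zt_le w)).trans ?_
  rw [mul_comm]
  exact mul_le_mul_of_nonneg_right sum_sq (Real.exp_pos _).le

theorem tele : HasSum (fun n : ℕ => 1 / (2 * ((n : ℝ) + 1) * (n + 2)) - 1 / (2 * ((n : ℝ) + 2) * (n + 3)))
    (1 / 4) := by
  rw [hasSum_iff_tendsto_nat_of_nonneg]
  · have e : ∀ N : ℕ, ∑ n ∈ Finset.range N,
        (1 / (2 * ((n : ℝ) + 1) * (n + 2)) - 1 / (2 * ((n : ℝ) + 2) * (n + 3))) =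
        1 / 4 - 1 / (2 * ((N : ℝ) + 1) * (N + 2)) := by
      intro N
      induction N with
      | zero => norm_num
      | succ k ih =>
        rw [Finset.sum_range_succ, ih]
        push_cast
        have : (k : ℝ) + 1 + 1 = k + 2 := by ring
        have h2 : (k : ℝ) + 1 + 2 = k + 3 := by ring
        rw [this, h2]
        ring
    simp_rw [e]
    have h0 : Filter.Tendsto (fun N : ℕ => 1 / (2 * ((N : ℝ) + 1) * (N + 2))) Filter.atTop (nhds 0) := by
      refine squeeze_zero (fun N => by positivity) (fun N => ?_) tendsto_one_div_add_atTop_nhds_zero_nat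
      apply one_div_le_one_div_of_le (by positivity)
      have : (0 : ℝ) ≤ N := Nat.cast_nonneg N
      nlinarith
    have h1 := h0.const_sub (1 / 4)
    rwa [sub_zero] at h1
  · intro n
    have : (0 : ℝ) ≤ n := Nat.cast_nonneg n
    rw [sub_nonneg]
    apply one_div_le_one_div_of_le (by positivity)
    nlinarith

theorem Z_near (w : ℂ) (hw : 3 ≤ w.re) : ‖Z w - 1‖ ≤ 1 / 4 := by
  rw [Z_eq, (summ_zt w).of_norm.tsum_eq_zero_add]
  have h0 : zt w 0 = 1 := by simp [zt]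
  rw [h0, add_sub_cancel_left]
  refine tsum_of_norm_bounded tele fun n => ?_
  rw [norm_zt]
  push_cast
  have hn : (0 : ℝ) ≤ n := Nat.cast_nonneg n
  have hL : 0 ≤ Real.log ((n : ℝ) + 1 + 1) := Real.log_nonneg (by linarith)
  have h1 : Real.exp (-(w.re * Real.log ((n : ℝ) + 1 + 1)) - Real.log ((n : ℝ) + 1 + 1) ^ 2 / 4) ≤
      Real.exp (-(Real.log (((n : ℝ) + 1 + 1) ^ 3))) := by
    apply Real.exp_le_exp.2
    rw [Real.log_pow]
    push_cast
    nlinarith [sq_nonneg (Real.log ((n : ℝ) + 1 + 1)), mul_le_mul_of_nonneg_right hw hL]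
  refine h1.trans ?_
  rw [Real.exp_neg, Real.exp_log (by positivity)]
  have e : 1 / (2 * ((n : ℝ) + 1) * (n + 2)) - 1 / (2 * ((n : ℝ) + 2) * (n + 3)) =
      1 / (((n : ℝ) + 1) * (n + 2) * (n + 3)) := by
    field_simp
    ring
  rw [e, ← one_div]
  apply one_div_le_one_div_of_le (by positivity)
  nlinarith [mul_nonneg hn hn]

theorem zeta_cont (σ : ℝ) (hσ : 2 ≤ σ) : Continuous fun τ : ℝ => riemannZeta (σ + τ * I) := by
  rw [continuous_iff_continuousAt]
  intro τ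
  have h1 : (σ : ℂ) + τ * I ≠ 1 := by
    intro h
    have := congrArg Complex.re h
    simp at this
    linarith
  exact ContinuousAt.comp (f := fun τ : ℝ => (σ : ℂ) + τ * I)
    (differentiableAt_riemannZeta h1).continuousAt (by fun_prop)

theorem Z_rep (σ : ℝ) (hσ : 2 ≤ σ) (w : ℂ) :
    Integrable (fun τ : ℝ => riemannZeta (σ + τ * I) * Complex.exp ((σ + τ * I - w) ^ 2)) ∧
    Z w = ((Real.sqrt Real.pi)⁻¹ : ℝ) *
      ∫ τ : ℝ, riemannZeta (σ + τ * I) * Complex.exp ((σ + τ * I - w) ^ 2) := by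
  have hg : Integrable (fun τ : ℝ => Complex.exp ((σ + τ * I - w) ^ 2)) := by
    refine (gauss_integrable (σ - w)).congr (Filter.Eventually.of_forall fun τ => ?_)
    simp only
    congr 2
    ring
  have hre : ∀ τ : ℝ, 2 ≤ ((σ : ℂ) + τ * I).re := by intro τ; simpa using hσ
  refine ⟨hg.bdd_mul (c := 2) (zeta_cont σ hσ).aestronglyMeasurable
    (Filter.Eventually.of_forall fun τ => zeta_bound _ (hre τ)), ?_⟩
  let F : ℕ → ℝ → ℂ := fun n τ =>
    1 / ((n : ℂ) + 1) ^ ((σ : ℂ) + τ * I) * Complex.exp ((σ + τ * I - w) ^ 2)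
  have hFi : ∀ n, Integrable (F n) := by
    intro n
    refine hg.bdd_mul (c := 1 / ((n : ℝ) + 1) ^ 2) ?_
      (Filter.Eventually.of_forall fun τ => norm_inv_cpow n _ (hre τ))
    simp_rw [cpow_eq]
    exact (by fun_prop : Continuous _).aestronglyMeasurable
  have hFs : Summable fun n => ∫ τ, ‖F n τ‖ := by
    refine Summable.of_nonneg_of_le (fun n => integral_nonneg fun τ => norm_nonneg _)
      (fun n => ?_) (summ_sq.mul_right (∫ τ : ℝ, ‖Complex.exp ((σ + τ * I - w) ^ 2)‖))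
    rw [← integral_const_mul]
    refine integral_mono (hFi n).norm (hg.norm.const_mul _) fun τ => ?_
    simp only [F, norm_mul]
    exact mul_le_mul_of_nonneg_right (norm_inv_cpow n _ (hre τ)) (norm_nonneg _)
  have hsum := integral_tsum_of_summable_integral_norm hFi hFs
  have e1 : ∀ τ : ℝ, ∑' n, F n τ =
      riemannZeta (σ + τ * I) * Complex.exp ((σ + τ * I - w) ^ 2) := by
    intro τ
    rw [zeta_eq_tsum_one_div_nat_add_one_cpow (by linarith [hre τ]), ← tsum_mul_right]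
  simp_rw [e1] at hsum
  rw [← hsum, Z_eq, ← tsum_mul_left]
  congr 1
  funext n
  set L : ℂ := ((Real.log ((n : ℝ) + 1) : ℝ) : ℂ) with hL
  have e2 : ∀ τ : ℝ, F n τ = Complex.exp (-(σ * L)) *
      (Complex.exp (((σ - w) + τ * I) ^ 2) * Complex.exp (τ * I * (-L))) := by
    intro τ
    simp only [F]
    rw [cpow_eq, ← hL, ← Complex.exp_add, ← Complex.exp_add, ← Complex.exp_add]
    congr 1
    ring
  simp_rw [e2]
  rw [integral_const_mul, mul_left_comm, ← gauss_int', ← Complex.exp_add, zt, ← hL]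
  congr 1
  ring

theorem zrep : ZREP := ⟨Z_rep, zeta_bound, Z_near, Z_bound⟩

end Pool.Agent.H53.KK
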