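import Pool.Agent.H53.KK1a

set_option autoImplicit false
open Complex MeasureTheory Set

namespace Pool.Agent.H53.KK
open Pool.Agent.Lead.KK

/-- the basic integrand -/
noncomputable def ee (b : ℝ) (c : ℂ) (u : ℝ) : ℂ :=
  Complex.exp (c * u) * Complex.exp (-(b * Complex.exp (2 * u)))

theorem ee_int (b : ℝ) (hb : 0 < b) (c : ℂ) (hc : 0 < c.re) :
    ∫ u : ℝ, ee b c u = 1 / 2 * ((1 / (b : ℂ)) ^ (c / 2) * Gamma (c / 2)) := by
  have hc2 : 0 < (c / 2).re := by simpa using hc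
  rw [← integral_cpow_mul_exp_neg_mul_Ioi hc2 hb]
  have him : (fun u : ℝ => Real.exp (2 * u)) '' univ = Ioi 0 := by
    ext y
    simp only [image_univ, mem_range, mem_Ioi]
    constructor
    · rintro ⟨u, rfl⟩; exact Real.exp_pos _
    · intro hy
      exact ⟨Real.log y / 2, by rw [mul_div_cancel₀ _ two_ne_zero, Real.exp_log hy]⟩
  have hd : ∀ x ∈ (univ : Set ℝ), HasDerivWithinAt (fun u : ℝ => Real.exp (2 * u))
      (Real.exp (2 * x) * 2) univ x := by
    intro x _
    have := ((hasDerivAt_id x).const_mul 2).exp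
    rw [hasDerivWithinAt_univ]
    simpa using this
  have hi : InjOn (fun u : ℝ => Real.exp (2 * u)) univ := by
    intro x _ y _ h
    have := Real.exp_injective h
    linarith
  rw [← him, integral_image_eq_integral_abs_deriv_smul MeasurableSet.univ hd hi,
    Measure.restrict_univ, ← integral_const_mul]
  congr 1
  funext u
  have h0 : ((Real.exp (2 * u) : ℝ) : ℂ) ≠ 0 := by exact_mod_cast (Real.exp_pos _).ne'
  rw [abs_of_pos (by positivity), Complex.cpow_def_of_ne_zero h0,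
    ← Complex.ofReal_log (Real.exp_pos _).le, Real.log_exp, ee, Complex.real_smul]
  push_cast
  have : Complex.exp (c * u) = Complex.exp (2 * u) * Complex.exp (2 * u * (c / 2 - 1)) := by
    rw [← Complex.exp_add]; congr 1; ring
  rw [this]
  ring

theorem ee_integrable (b : ℝ) (hb : 0 < b) (c : ℂ) (hc : 0 < c.re) : Integrable (ee b c) := by
  have hc2 : 0 < (c / 2).re := by simpa using hc
  by_contra H
  have h := ee_int b hb c hc
  rw [integral_undef H] at h
  have hb' : (1 / (b : ℂ)) ≠ 0 := one_div_ne_zero (by exact_mod_cast hb.ne')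
  exact (mul_ne_zero (by norm_num) (mul_ne_zero (by simp [hb.ne'])
    (Gamma_ne_zero_of_re_pos hc2))) h.symm

theorem ee_norm (b : ℝ) (c : ℂ) (u : ℝ) : ((‖ee b c u‖ : ℝ) : ℂ) = ee b (c.re : ℝ) u := by
  have e : (-(b * Complex.exp (2 * u)) : ℂ) = ((-(b * Real.exp (2 * u)) : ℝ) : ℂ) := by
    push_cast; ring
  rw [ee, ee, norm_mul, Complex.norm_exp, Complex.norm_exp, e, ofReal_re]
  push_cast
  simp

theorem ee_norm_int (b : ℝ) (hb : 0 < b) (c : ℂ) (hc : 0 < c.re) :
    ∫ u : ℝ, ‖ee b c u‖ = 1 / 2 * ((1 / b) ^ (c.re / 2) * Real.Gamma (c.re / 2)) := by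
  apply Complex.ofReal_injective
  rw [← integral_complex_ofReal]
  simp_rw [ee_norm]
  rw [ee_int b hb _ (by simpa using hc)]
  push_cast
  rw [Complex.ofReal_cpow (by positivity), ← Complex.Gamma_ofReal]
  push_cast
  rfl

/-- the terms of the series for `Φ(u) exp((s - 1/2) u)` -/
noncomputable def ph (s : ℂ) (n : ℕ) (u : ℝ) : ℂ :=
  4 * ((Real.pi * ((n : ℝ) + 1) ^ 2 : ℝ) : ℂ) ^ 2 * ee (Real.pi * ((n : ℝ) + 1) ^ 2) (s + 4) u -
    6 * ((Real.pi * ((n : ℝ) + 1) ^ 2 : ℝ) : ℂ) * ee (Real.pi * ((n : ℝ) + 1) ^ 2) (s + 2) u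

theorem ph_tsum (s : ℂ) (u : ℝ) :
    ∑' n, ph s n u = (Phi u : ℂ) * Complex.exp ((s - 1 / 2) * u) := by
  rw [Phi, Complex.ofReal_mul, Complex.ofReal_tsum, ← tsum_mul_left, ← tsum_mul_right]
  congr 1
  funext n
  simp only [ph, ee]
  push_cast
  have e1 : Complex.exp ((s + 4) * u) = Complex.exp (9 * u / 2) * Complex.exp ((s - 1 / 2) * u) := by
    rw [← Complex.exp_add]; congr 1; ring
  have e2 : Complex.exp ((s + 2) * u) = Complex.exp (5 * u / 2) * Complex.exp ((s - 1 / 2) * u) := by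
    rw [← Complex.exp_add]; congr 1; ring
  rw [e1, e2]
  ring

theorem ph_integrable (s : ℂ) (hs : 2 ≤ s.re) (n : ℕ) : Integrable (ph s n) := by
  have hb : 0 < Real.pi * ((n : ℝ) + 1) ^ 2 := by positivity
  exact ((ee_integrable _ hb _ (by simp; linarith)).const_mul _).sub
    ((ee_integrable _ hb _ (by simp; linarith)).const_mul _)

theorem cpow_shift (b : ℝ) (hb : 0 < b) (a : ℂ) :
    (1 / (b : ℂ)) ^ (a + 1) = (1 / (b : ℂ)) ^ a / b := by
  have hb' : (1 / (b : ℂ)) ≠ 0 := one_div_ne_zero (by exact_mod_cast hb.ne')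
  rw [Complex.cpow_add _ _ hb', Complex.cpow_one]
  ring

theorem cpow_split (n : ℕ) (s : ℂ) :
    (1 / ((Real.pi * ((n : ℝ) + 1) ^ 2 : ℝ) : ℂ)) ^ (s / 2) =
      (Real.pi : ℂ) ^ (-(s / 2)) * (1 / ((n : ℂ) + 1) ^ s) := by
  have hp : (0 : ℝ) < (n : ℝ) + 1 := by positivity
  have hb : 0 < Real.pi * ((n : ℝ) + 1) ^ 2 := by positivity
  have e : (1 / ((Real.pi * ((n : ℝ) + 1) ^ 2 : ℝ) : ℂ)) =
      (((Real.pi * ((n : ℝ) + 1) ^ 2)⁻¹ : ℝ) : ℂ) := by
    rw [one_div, Complex.ofReal_inv]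
  have h0 : (((Real.pi * ((n : ℝ) + 1) ^ 2)⁻¹ : ℝ) : ℂ) ≠ 0 := by
    exact_mod_cast (inv_pos.2 hb).ne'
  have hpi : (Real.pi : ℂ) ≠ 0 := by exact_mod_cast Real.pi_pos.ne'
  rw [e, cpow_eq, Complex.cpow_def_of_ne_zero h0, Complex.cpow_def_of_ne_zero hpi,
    ← Complex.ofReal_log (inv_pos.2 hb).le, ← Complex.ofReal_log Real.pi_pos.le,
    ← Complex.exp_add, Real.log_inv, Real.log_mul Real.pi_pos.ne' (by positivity), Real.log_pow]
  congr 1
  push_cast
  ring

theorem ph_int (s : ℂ) (hs : 2 ≤ s.re) (n : ℕ) :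
    ∫ u, ph s n u = gam s * (1 / ((n : ℂ) + 1) ^ s) := by
  have hb : 0 < Real.pi * ((n : ℝ) + 1) ^ 2 := by positivity
  have h4 : 0 < (s + 4).re := by simp; linarith
  have h2 : 0 < (s + 2).re := by simp; linarith
  have hne : s / 2 + 1 ≠ 0 := by
    intro h
    have := congrArg Complex.re h
    simp at this
    linarith
  unfold ph
  rw [integral_sub ((ee_integrable _ hb _ h4).const_mul _) ((ee_integrable _ hb _ h2).const_mul _),
    integral_const_mul, integral_const_mul, ee_int _ hb _ h4, ee_int _ hb _ h2]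
  have e4 : (s + 4) / 2 = s / 2 + 1 + 1 := by ring
  have e2 : (s + 2) / 2 = s / 2 + 1 := by ring
  rw [e4, e2, cpow_shift _ hb, cpow_shift _ hb, Complex.Gamma_add_one _ hne, cpow_split, gam]
  have hb' : ((Real.pi * ((n : ℝ) + 1) ^ 2 : ℝ) : ℂ) ≠ 0 := by exact_mod_cast hb.ne'
  generalize ((Real.pi * ((n : ℝ) + 1) ^ 2 : ℝ) : ℂ) = B at hb' ⊢
  field_simp
  ring

theorem rpow_le (n : ℕ) (x : ℝ) (hx : 2 ≤ x) :
    (1 / (Real.pi * ((n : ℝ) + 1) ^ 2)) ^ (x / 2) ≤ 1 / ((n : ℝ) + 1) ^ 2 := by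
  have hn : (0 : ℝ) ≤ n := Nat.cast_nonneg n
  have h1 : (1 : ℝ) ≤ ((n : ℝ) + 1) ^ 2 := by nlinarith
  have hpi := Real.pi_gt_three
  have h2 : ((n : ℝ) + 1) ^ 2 ≤ Real.pi * ((n : ℝ) + 1) ^ 2 := by nlinarith
  calc (1 / (Real.pi * ((n : ℝ) + 1) ^ 2)) ^ (x / 2)
      ≤ (1 / (Real.pi * ((n : ℝ) + 1) ^ 2)) ^ (1 : ℝ) := by
        apply Real.rpow_le_rpow_of_exponent_ge (by positivity) _ (by linarith)
        rw [div_le_one (by positivity)]
        linarith
    _ ≤ 1 / ((n : ℝ) + 1) ^ 2 := by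
        rw [Real.rpow_one]
        exact one_div_le_one_div_of_le (by positivity) h2

theorem ph_norm_le (s : ℂ) (hs : 2 ≤ s.re) (n : ℕ) :
    ∫ u, ‖ph s n u‖ ≤ (2 * Real.Gamma ((s.re + 4) / 2) + 3 * Real.Gamma ((s.re + 2) / 2)) *
      (1 / ((n : ℝ) + 1) ^ 2) := by
  have hb : 0 < Real.pi * ((n : ℝ) + 1) ^ 2 := by positivity
  have h4 : 0 < (s + 4).re := by simp; linarith
  have h2 : 0 < (s + 2).re := by simp; linarith
  have hr := rpow_le n s.re hs
  have i4 := (ee_integrable _ hb _ h4).norm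
  have i2 := (ee_integrable _ hb _ h2).norm
  have n4 := ee_norm_int _ hb _ h4
  have n2 := ee_norm_int _ hb _ h2
  have hi := (ph_integrable s hs n).norm
  unfold ph at hi ⊢
  generalize Real.pi * ((n : ℝ) + 1) ^ 2 = b at *
  have r4 : (s + 4).re = s.re + 4 := by simp
  have r2 : (s + 2).re = s.re + 2 := by simp
  rw [r4] at n4 h4
  rw [r2] at n2 h2
  have g4 : 0 < Real.Gamma ((s.re + 4) / 2) := Real.Gamma_pos_of_pos (by linarith)
  have g2 : 0 < Real.Gamma ((s.re + 2) / 2) := Real.Gamma_pos_of_pos (by linarith)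
  have p4 : (1 / b) ^ ((s.re + 4) / 2) = (1 / b) ^ (s.re / 2) / b ^ 2 := by
    rw [show (s.re + 4) / 2 = s.re / 2 + 2 by ring, Real.rpow_add (by positivity), Real.rpow_two]
    field_simp
  have p2 : (1 / b) ^ ((s.re + 2) / 2) = (1 / b) ^ (s.re / 2) / b := by
    rw [show (s.re + 2) / 2 = s.re / 2 + 1 by ring, Real.rpow_add (by positivity), Real.rpow_one]
    field_simp
  calc ∫ u, ‖4 * (b : ℂ) ^ 2 * ee b (s + 4) u - 6 * (b : ℂ) * ee b (s + 2) u‖
      ≤ ∫ u, (4 * b ^ 2 * ‖ee b (s + 4) u‖ + 6 * b * ‖ee b (s + 2) u‖) := by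
        refine integral_mono hi ((i4.const_mul _).add (i2.const_mul _)) fun u => ?_
        refine (norm_sub_le _ _).trans (le_of_eq ?_)
        simp [abs_of_pos hb]
    _ = (2 * Real.Gamma ((s.re + 4) / 2) + 3 * Real.Gamma ((s.re + 2) / 2)) *
          (1 / b) ^ (s.re / 2) := by
        rw [integral_add (i4.const_mul _) (i2.const_mul _), integral_const_mul, integral_const_mul,
          n4, n2, p4, p2]
        field_simp
        ring
    _ ≤ _ := mul_le_mul_of_nonneg_left hr (by positivity)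

theorem phi_int (s : ℂ) (hs : 2 ≤ s.re) :
    ∫ u : ℝ, (Phi u : ℂ) * Complex.exp ((s - 1 / 2) * u) = gam s * riemannZeta s := by
  have hFs : Summable fun n => ∫ u, ‖ph s n u‖ :=
    Summable.of_nonneg_of_le (fun n => integral_nonneg fun τ => norm_nonneg _)
      (ph_norm_le s hs) (summ_sq.mul_left _)
  have hsum := integral_tsum_of_summable_integral_norm (ph_integrable s hs) hFs
  simp_rw [ph_tsum, ph_int s hs] at hsum
  rw [← hsum, zeta_eq_tsum_one_div_nat_add_one_cpow (by linarith), tsum_mul_left]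

theorem phi_integrable (s : ℂ) (hs : 2 ≤ s.re) :
    Integrable fun u : ℝ => (Phi u : ℂ) * Complex.exp ((s - 1 / 2) * u) := by
  by_contra H
  have h := phi_int s hs
  rw [integral_undef H] at h
  have h1 : s - 1 ≠ 0 := by
    intro h
    have := congrArg Complex.re h
    simp at this
    linarith
  have h2 : 0 < (s / 2 + 1).re := by simp; linarith
  have hpi : (Real.pi : ℂ) ^ (-(s / 2)) ≠ 0 := by simp [Real.pi_pos.ne']
  exact (mul_ne_zero (mul_ne_zero (mul_ne_zero h1 hpi) (Gamma_ne_zero_of_re_pos h2))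
    (riemannZeta_ne_zero_of_one_lt_re (by linarith))) h.symm

theorem phi_meas : AEStronglyMeasurable (fun u : ℝ => (Phi u : ℂ)) volume := by
  have h := (phi_integrable 2 (by simp)).aestronglyMeasurable
  have hc : Continuous fun u : ℝ => Complex.exp (-((2 - 1 / 2) * (u : ℂ))) := by fun_prop
  refine (h.mul hc.aestronglyMeasurable).congr (Filter.Eventually.of_forall fun u => ?_)
  simp only [Pi.mul_apply]
  rw [mul_assoc, ← Complex.exp_add, add_neg_cancel, Complex.exp_zero, mul_one]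

theorem xi_rep (σ : ℝ) (hσ : 2 ≤ σ) (z : ℂ) :
    Integrable (fun τ : ℝ => gam (σ + τ * I) * riemannZeta (σ + τ * I) *
      Complex.exp ((σ + τ * I - (1 / 2 + I * z)) ^ 2)) ∧
    Xi (-1 / 4) z = ((Real.sqrt Real.pi)⁻¹ : ℝ) * ∫ τ : ℝ, gam (σ + τ * I) * riemannZeta (σ + τ * I) *
      Complex.exp ((σ + τ * I - (1 / 2 + I * z)) ^ 2) := by
  set s : ℂ := 1 / 2 + I * z with hs
  have hg := gauss_integrable (σ - s)
  have hf := phi_integrable σ (by simpa using hσ)
  have hre : ∀ τ : ℝ, 2 ≤ ((σ : ℂ) + τ * I).re := by intro τ; simpa using hσ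
  let F : ℝ → ℝ → ℂ := fun u τ => ((Phi u : ℂ) * Complex.exp ((σ - 1 / 2) * u)) *
    (Complex.exp (((σ - s) + τ * I) ^ 2) * Complex.exp (τ * I * u))
  have hF : Integrable (Function.uncurry F) (volume.prod volume) := by
    have h1 := hf.mul_prod hg
    have h2 : Continuous fun p : ℝ × ℝ => Complex.exp (p.2 * I * p.1) := by fun_prop
    have h3 := h1.mul_bdd (c := 1) h2.aestronglyMeasurable
      (Filter.Eventually.of_forall fun p => by
        rw [Complex.norm_exp]; simp)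
    refine h3.congr (Filter.Eventually.of_forall fun p => ?_)
    simp only [Function.uncurry, F]
    ring
  have e1 : ∀ τ : ℝ, ∫ u, F u τ = gam (σ + τ * I) * riemannZeta (σ + τ * I) *
      Complex.exp ((σ + τ * I - s) ^ 2) := by
    intro τ
    rw [← phi_int _ (hre τ), ← integral_mul_const]
    congr 1
    funext u
    simp only [F]
    have a1 : Complex.exp (((σ : ℂ) + τ * I - 1 / 2) * u) =
        Complex.exp ((σ - 1 / 2) * u) * Complex.exp (τ * I * u) := by
      rw [← Complex.exp_add]; congr 1; ring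
    have a2 : ((σ : ℂ) - s + τ * I) = σ + τ * I - s := by ring
    rw [a1, a2]
    ring
  have e2 : ∀ u : ℝ, (Phi u : ℂ) * Complex.exp (((-1 / 4 : ℝ) : ℂ) * (u : ℂ) ^ 2) *
      Complex.exp (I * z * u) = (((Real.sqrt Real.pi)⁻¹ : ℝ) : ℂ) * ∫ τ, F u τ := by
    intro u
    simp only [F]
    rw [integral_const_mul, mul_left_comm, ← gauss_int', mul_assoc (Phi u : ℂ), mul_assoc (Phi u : ℂ),
      ← Complex.exp_add, ← Complex.exp_add]
    congr 2
    rw [hs]
    push_cast
    ring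
  constructor
  · have h := hF.integral_prod_right
    simp only [Function.uncurry] at h
    simpa only [e1] using h
  · rw [Xi]
    simp_rw [e2]
    rw [integral_const_mul, integral_integral_swap hF]
    simp_rw [e1]

theorem xi_bound (z0 z : ℂ) (hz : z ∈ Metric.ball z0 1) (u : ℝ) :
    ‖(Phi u : ℂ) * Complex.exp (((-1 / 4 : ℝ) : ℂ) * (u : ℂ) ^ 2) * Complex.exp (I * z * u)‖ *
      Real.exp |u| ≤
      Real.exp ((‖z0‖ + 4) ^ 2) * ‖(Phi u : ℂ) * Complex.exp ((2 - 1 / 2) * u)‖ := by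
  have hz' : ‖z‖ ≤ ‖z0‖ + 1 := by
    have h1 : ‖z - z0‖ < 1 := by simpa [dist_eq_norm] using hz
    have := norm_add_le (z - z0) z0
    rw [sub_add_cancel] at this
    linarith
  have e1 : (((-1 / 4 : ℝ) : ℂ) * (u : ℂ) ^ 2) = ((-1 / 4 * u ^ 2 : ℝ) : ℂ) := by push_cast; ring
  have e2 : ((2 - 1 / 2) * (u : ℂ)) = ((3 / 2 * u : ℝ) : ℂ) := by push_cast; ring
  rw [norm_mul, norm_mul, norm_mul, e1, e2, Complex.norm_exp, Complex.norm_exp, Complex.norm_exp,
    ofReal_re, ofReal_re, mul_left_comm, mul_assoc, mul_assoc, ← Real.exp_add, ← Real.exp_add,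
    ← Real.exp_add]
  refine mul_le_mul_of_nonneg_left (Real.exp_le_exp.2 ?_) (norm_nonneg _)
  have h1 : (I * z * u).re ≤ (‖z0‖ + 1) * |u| := by
    refine (re_le_norm _).trans ?_
    rw [norm_mul, norm_mul, norm_I, one_mul, norm_real, Real.norm_eq_abs]
    exact mul_le_mul_of_nonneg_right hz' (abs_nonneg _)
  have h2 : -u ≤ |u| := neg_le_abs u
  have h3 : |u| ^ 2 = u ^ 2 := sq_abs u
  have h4 := abs_nonneg u
  nlinarith [sq_nonneg (|u| / 2 - (‖z0‖ + 4))]

theorem xi_diff : Differentiable ℂ (Xi (-1 / 4)) := by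
  intro z0
  let F : ℂ → ℝ → ℂ := fun z u =>
    (Phi u : ℂ) * Complex.exp (((-1 / 4 : ℝ) : ℂ) * (u : ℂ) ^ 2) * Complex.exp (I * z * u)
  let F' : ℂ → ℝ → ℂ := fun z u => F z u * (I * u)
  have hb := ((phi_integrable 2 (by simp)).norm).const_mul (Real.exp ((‖z0‖ + 4) ^ 2))
  have hm : ∀ z, AEStronglyMeasurable (F z) volume := fun z =>
    (phi_meas.mul (by fun_prop : Continuous fun u : ℝ =>
      Complex.exp (((-1 / 4 : ℝ) : ℂ) * (u : ℂ) ^ 2)).aestronglyMeasurable).mul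
      (by fun_prop : Continuous fun u : ℝ => Complex.exp (I * z * u)).aestronglyMeasurable
  have key := hasDerivAt_integral_of_dominated_loc_of_deriv_le (μ := volume) (F := F) (F' := F')
    (x₀ := z0) (s := Metric.ball z0 1)
    (bound := fun u : ℝ => Real.exp ((‖z0‖ + 4) ^ 2) * ‖(Phi u : ℂ) * Complex.exp ((2 - 1 / 2) * u)‖)
    (Metric.ball_mem_nhds z0 one_pos) (Filter.Eventually.of_forall hm)
    (hb.mono' (hm z0) (Filter.Eventually.of_forall fun u => by
      refine le_trans ?_ (xi_bound z0 z0 (Metric.mem_ball_self one_pos) u)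
      exact le_mul_of_one_le_right (norm_nonneg _) (Real.one_le_exp (abs_nonneg u))))
    ((hm z0).mul (by fun_prop : Continuous fun u : ℝ => I * (u : ℂ)).aestronglyMeasurable)
    (Filter.Eventually.of_forall fun u z hz => by
      refine le_trans ?_ (xi_bound z0 z hz u)
      simp only [F']
      rw [norm_mul (F z u), norm_mul I, norm_I, one_mul, norm_real, Real.norm_eq_abs]
      refine mul_le_mul_of_nonneg_left ?_ (norm_nonneg _)
      linarith [Real.add_one_le_exp |u|])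
    hb
    (Filter.Eventually.of_forall fun u z _ => by
      have h1 : HasDerivAt (fun z : ℂ => I * z * u) (I * u) z := by
        simpa using ((hasDerivAt_id z).const_mul I).mul_const (u : ℂ)
      have h2 := (h1.cexp).const_mul ((Phi u : ℂ) * Complex.exp (((-1 / 4 : ℝ) : ℂ) * (u : ℂ) ^ 2))
      simpa only [F, F', mul_assoc] using h2)
  exact key.2.differentiableAt

theorem rep : REP := ⟨xi_diff, xi_rep⟩

end Pool.Agent.H53.KK
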