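import Pool.Agent.Lead.KK.Spec

set_option autoImplicit false
open Complex MeasureTheory Set

namespace Pool.Agent.H53.KK
open Pool.Agent.Lead.KK

theorem pointwise (C T a y r : ℝ) (hC : 0 < C) (hT : 0 < T) (hr : 0 ≤ r)
    (hay : |a - y| ≤ T / 4) (h1 : r ≤ C * Real.exp (a ^ 2 / 4) + 1) (h2 : |a| ≤ T → r ≤ C * T⁻¹) :
    r * Real.exp (-y ^ 2) ≤ 2 * (C + 1) * T⁻¹ * Real.exp (-(1 / 4) * y ^ 2) := by
  have hTi : 0 < T⁻¹ := inv_pos.2 hT
  by_cases ha : |a| ≤ T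
  · have e1 : Real.exp (-y ^ 2) ≤ Real.exp (-(1 / 4) * y ^ 2) :=
      Real.exp_le_exp.2 (by nlinarith [sq_nonneg y])
    refine mul_le_mul ((h2 ha).trans ?_) e1 (Real.exp_pos _).le (by positivity)
    nlinarith
  · push Not at ha
    have h3 : |a| ≤ |a - y| + |y| := by
      have := abs_add_le (a - y) y
      rwa [sub_add_cancel] at this
    have h4 : 3 / 4 * |a| ≤ |y| := by linarith
    have h5 : a ^ 2 / 4 ≤ y ^ 2 / 2 := by
      rw [← sq_abs a, ← sq_abs y]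
      nlinarith [abs_nonneg a, abs_nonneg y]
    have h6 : r ≤ (C + 1) * Real.exp (y ^ 2 / 2) := by
      have := Real.exp_le_exp.2 h5
      have := Real.one_le_exp (x := y ^ 2 / 2) (by positivity)
      nlinarith
    have h7 : Real.exp (-(1 / 4) * y ^ 2) ≤ 2 * T⁻¹ := by
      have e : Real.exp (-(1 / 4) * y ^ 2) = (Real.exp (y ^ 2 / 4))⁻¹ := by
        rw [← Real.exp_neg]; congr 1; ring
      have h8 := Real.add_one_le_exp (y ^ 2 / 4)
      have h9 : T / 2 ≤ Real.exp (y ^ 2 / 4) := by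
        rw [← sq_abs y] at h8 ⊢
        nlinarith [sq_nonneg (|y| / 2 - 1)]
      rw [e]
      calc (Real.exp (y ^ 2 / 4))⁻¹ ≤ (T / 2)⁻¹ := inv_anti₀ (by positivity) h9
        _ = 2 * T⁻¹ := by field_simp
    calc r * Real.exp (-y ^ 2) ≤ (C + 1) * Real.exp (y ^ 2 / 2) * Real.exp (-y ^ 2) :=
          mul_le_mul_of_nonneg_right h6 (Real.exp_pos _).le
      _ = (C + 1) * Real.exp (-(1 / 4) * y ^ 2) * Real.exp (-(1 / 4) * y ^ 2) := by
          rw [mul_assoc, mul_assoc, ← Real.exp_add, ← Real.exp_add]; congr 2; ring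
      _ ≤ (C + 1) * (2 * T⁻¹) * Real.exp (-(1 / 4) * y ^ 2) := by gcongr
      _ = _ := by ring

theorem quarter_le (T : ℝ) (hT : (4 : ℝ) ^ 12 ≤ T) : T ^ (1 / 4 : ℝ) ≤ T ^ (1 / 3 : ℝ) / 4 := by
  have hT0 : 0 < T := lt_of_lt_of_le (by positivity) hT
  have h1 : (4 : ℝ) ≤ T ^ (1 / 12 : ℝ) := by
    have : ((4 : ℝ) ^ 12) ^ (1 / 12 : ℝ) = 4 := by
      rw [← Real.rpow_natCast, ← Real.rpow_mul (by norm_num)]; norm_num
    rw [← this]
    exact Real.rpow_le_rpow (by positivity) hT (by norm_num)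
  have h2 : T ^ (1 / 3 : ℝ) = T ^ (1 / 4 : ℝ) * T ^ (1 / 12 : ℝ) := by
    rw [← Real.rpow_add hT0]; norm_num
  have h3 : 0 < T ^ (1 / 4 : ℝ) := Real.rpow_pos_of_pos hT0 _
  rw [h2]
  nlinarith

theorem apx (hrep : REP) (hz : ZREP) (hg : GAM) : APX := by
  obtain ⟨C, T0, hC, hg⟩ := hg
  set K : ℝ := ∫ y : ℝ, Real.exp (-(1 / 4) * y ^ 2) with hK
  have hK0 : 0 ≤ K := integral_nonneg fun y => (Real.exp_pos _).le
  have hp : 0 ≤ (Real.sqrt Real.pi)⁻¹ := by positivity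
  have hD : 0 ≤ (Real.sqrt Real.pi)⁻¹ * (4 * (C + 1) * K) := by positivity
  refine ⟨C + (Real.sqrt Real.pi)⁻¹ * (4 * (C + 1) * K), max T0 (4 ^ 12), by linarith, ?_⟩
  intro τ0 hτ0
  obtain ⟨κ, hk1, hk2, hg0, hgh⟩ := hg τ0 ((le_max_left _ _).trans hτ0)
  have hT : (4 : ℝ) ^ 12 ≤ |τ0| := (le_max_right _ _).trans hτ0
  have hT0 : 0 < |τ0| := lt_of_lt_of_le (by positivity) hT
  have hq := quarter_le _ hT
  have hU : 0 < |τ0| ^ (1 / 3 : ℝ) := Real.rpow_pos_of_pos hT0 _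
  have hneg : |τ0| ^ (-(1 / 3) : ℝ) = (|τ0| ^ (1 / 3 : ℝ))⁻¹ := Real.rpow_neg hT0.le _
  rw [hneg] at hgh ⊢
  set U := |τ0| ^ (1 / 3 : ℝ) with hUdef
  set g0 := gam (2 + τ0 * I) with hg0def
  refine ⟨κ, -Complex.log g0 - κ ^ 2 / 4 + κ * (2 + τ0 * I), by linarith, by linarith, ?_⟩
  intro z w hw hw1 hw2
  set σ : ℝ := max 2 w.re with hσ
  have hσ2 : 2 ≤ σ := le_max_left _ _
  have hm : max (2 - w.re) 0 = σ - w.re := by
    rw [hσ, ← max_sub_sub_right, sub_self]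
  have hσU : σ - 2 ≤ U := by
    rw [hσ, ← max_sub_sub_right, sub_self]
    exact max_le hU.le (by linarith)
  obtain ⟨i1, e1⟩ := hrep.2 σ hσ2 z
  obtain ⟨i2, e2⟩ := hz.1 σ hσ2 w
  set E := Complex.exp (-Complex.log g0 - κ ^ 2 / 4 + κ * (2 + τ0 * I) - κ * w) with hE
  let h : ℝ → ℂ := fun τ => ((σ - 2 : ℝ) : ℂ) + ((τ - τ0 : ℝ) : ℂ) * I
  have hre : ∀ τ, (h τ).re = σ - 2 := by intro τ; simp [h]
  have him : ∀ τ, (h τ).im = τ - τ0 := by intro τ; simp [h]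
  let ρ : ℝ → ℂ := fun τ => gam (2 + τ0 * I + h τ) / (g0 * Complex.exp (κ * h τ))
  have key : ∀ τ : ℝ, gam (σ + τ * I) * riemannZeta (σ + τ * I) *
      Complex.exp ((σ + τ * I - (1 / 2 + I * z)) ^ 2) * E -
      riemannZeta (σ + τ * I) * Complex.exp ((σ + τ * I - w) ^ 2) =
      (ρ τ - 1) * (riemannZeta (σ + τ * I) * Complex.exp ((σ + τ * I - w) ^ 2)) := by
    intro τ
    have a1 : 2 + τ0 * I + h τ = σ + τ * I := by simp only [h]; push_cast; ring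
    have a2 : Complex.exp ((σ + τ * I - (1 / 2 + I * z)) ^ 2) * E =
        Complex.exp ((σ + τ * I - w) ^ 2) / (g0 * Complex.exp (κ * h τ)) := by
      have a3 : g0 = Complex.exp (Complex.log g0) := (Complex.exp_log hg0).symm
      have a4 : (1 / 2 + I * z) = w + κ / 2 := by rw [hw]; ring
      have a5 : h τ = σ + τ * I - (2 + τ0 * I) := by rw [← a1]; ring
      rw [hE, a4, a5]
      conv_rhs => rw [a3]
      rw [← Complex.exp_add, ← Complex.exp_add, ← Complex.exp_sub]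
      congr 1
      ring
    simp only [ρ]
    rw [a1, mul_assoc, a2]
    ring
  have ediff : Xi (-1 / 4) z * E - Z w = (((Real.sqrt Real.pi)⁻¹ : ℝ) : ℂ) *
      ∫ τ : ℝ, (ρ τ - 1) * (riemannZeta (σ + τ * I) * Complex.exp ((σ + τ * I - w) ^ 2)) := by
    rw [e1, e2, mul_assoc, ← mul_sub, ← integral_mul_const, ← integral_sub (i1.mul_const E) i2]
    simp_rw [key]
  have hint : Integrable fun τ : ℝ => Real.exp (-(1 / 4) * (τ - w.im) ^ 2) :=
    (integrable_exp_neg_mul_sq (b := 1 / 4) (by norm_num)).comp_sub_right w.im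
  have hbound : ‖∫ τ : ℝ, (ρ τ - 1) * (riemannZeta (σ + τ * I) * Complex.exp ((σ + τ * I - w) ^ 2))‖ ≤
      ∫ τ : ℝ, (4 * (C + 1) * U⁻¹ * Real.exp ((σ - w.re) ^ 2)) *
        Real.exp (-(1 / 4) * (τ - w.im) ^ 2) := by
    refine norm_integral_le_of_norm_le (hint.const_mul _) (Filter.Eventually.of_forall fun τ => ?_)
    obtain ⟨b1, b2⟩ := hgh (h τ) (by rw [hre]; linarith) (by rw [hre]; exact hσU)
    rw [him] at b1 b2
    have hζ := hz.2.1 (σ + τ * I) (by simpa using hσ2)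
    have hexp : ‖Complex.exp ((σ + τ * I - w) ^ 2)‖ =
        Real.exp ((σ - w.re) ^ 2) * Real.exp (-(τ - w.im) ^ 2) := by
      rw [Complex.norm_exp, ← Real.exp_add]
      congr 1
      simp [pow_two]
      ring
    have pw := pointwise C U (τ - τ0) (τ - w.im) ‖ρ τ - 1‖ hC hU (norm_nonneg _)
      (by rw [show τ - τ0 - (τ - w.im) = w.im - τ0 by ring]; linarith)
      ((norm_sub_le _ _).trans (by rw [norm_one]; exact add_le_add_left b1 1)) b2
    rw [norm_mul, norm_mul, hexp]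
    calc ‖ρ τ - 1‖ * (‖riemannZeta (σ + τ * I)‖ *
          (Real.exp ((σ - w.re) ^ 2) * Real.exp (-(τ - w.im) ^ 2)))
        ≤ ‖ρ τ - 1‖ * (2 * (Real.exp ((σ - w.re) ^ 2) * Real.exp (-(τ - w.im) ^ 2))) := by gcongr
      _ = 2 * Real.exp ((σ - w.re) ^ 2) * (‖ρ τ - 1‖ * Real.exp (-(τ - w.im) ^ 2)) := by ring
      _ ≤ 2 * Real.exp ((σ - w.re) ^ 2) *
          (2 * (C + 1) * U⁻¹ * Real.exp (-(1 / 4) * (τ - w.im) ^ 2)) := by gcongr
      _ = _ := by ring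
  rw [integral_const_mul,
    integral_sub_right_eq_self (fun y : ℝ => Real.exp (-(1 / 4) * y ^ 2)) w.im, ← hK] at hbound
  rw [ediff, norm_mul, norm_real, Real.norm_of_nonneg hp, hm]
  have hUi : 0 < U⁻¹ := inv_pos.2 hU
  have hX := Real.exp_pos ((σ - w.re) ^ 2)
  calc _ ≤ (Real.sqrt Real.pi)⁻¹ * (4 * (C + 1) * U⁻¹ * Real.exp ((σ - w.re) ^ 2) * K) :=
        mul_le_mul_of_nonneg_left hbound hp
    _ = ((Real.sqrt Real.pi)⁻¹ * (4 * (C + 1) * K)) * U⁻¹ * Real.exp ((σ - w.re) ^ 2) := by ring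
    _ ≤ _ := by gcongr; linarith

theorem ord_eq (f : ℂ → ℂ) (hf : Differentiable ℂ f) (hne : ∃ z, f z ≠ 0) (z : ℂ) :
    ((analyticOrderAt f z : ℕ∞) : ENNReal) = (analyticOrderNatAt f z : ℕ) := by
  have h : analyticOrderAt f z ≠ ⊤ := by
    intro h
    rw [AnalyticOnNhd.analyticOrderAt_eq_top_iff_eq_zero z fun z => hf.analyticAt z] at h
    obtain ⟨w, hw⟩ := hne
    exact hw (by rw [h]; rfl)
  rw [← Nat.cast_analyticOrderNatAt h]
  simp

theorem count_eq (f : ℂ → ℂ) (hf : Differentiable ℂ f) (hne : ∃ z, f z ≠ 0) (A : Set ℂ) :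
    zeroCount f A = ∑' z : ℂ, A.indicator (fun z => ((analyticOrderNatAt f z : ℕ) : ENNReal)) z := by
  rw [zeroCount, ← tsum_subtype]
  simp_rw [ord_eq f hf hne]

theorem count_ge (f : ℂ → ℂ) (hf : Differentiable ℂ f) (hne : ∃ z, f z ≠ 0) (A : Set ℂ)
    (S : Finset ℂ) (hS : ∀ z ∈ S, z ∈ A) (x : ℝ)
    (hx : x ≤ ∑ z ∈ S, (analyticOrderNatAt f z : ℝ)) : ENNReal.ofReal x ≤ zeroCount f A := by
  rw [count_eq f hf hne]
  refine le_trans ?_ (ENNReal.sum_le_tsum S)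
  refine (ENNReal.ofReal_le_ofReal hx).trans (le_of_eq ?_)
  rw [ENNReal.ofReal_sum_of_nonneg fun z _ => Nat.cast_nonneg _]
  refine Finset.sum_congr rfl fun z hz => ?_
  rw [indicator_of_mem (hS z hz), ENNReal.ofReal_natCast]

theorem count_le (f : ℂ → ℂ) (hf : Differentiable ℂ f) (hne : ∃ z, f z ≠ 0) (A : Set ℂ) (x : ℝ)
    (hx : ∀ S : Finset ℂ, (∀ z ∈ S, z ∈ A) → ∑ z ∈ S, (analyticOrderNatAt f z : ℝ) ≤ x) :
    zeroCount f A ≤ ENNReal.ofReal x := by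
  classical
  rw [count_eq f hf hne, ENNReal.tsum_eq_iSup_sum]
  refine iSup_le fun S => ?_
  refine le_trans (le_of_eq ?_)
    (ENNReal.ofReal_le_ofReal (hx (S.filter (· ∈ A)) fun z hz => (Finset.mem_filter.1 hz).2))
  rw [ENNReal.ofReal_sum_of_nonneg fun z _ => Nat.cast_nonneg _, Finset.sum_filter]
  refine Finset.sum_congr rfl fun z _ => ?_
  rw [indicator_apply, ENNReal.ofReal_natCast]

theorem count_add (f : ℂ → ℂ) (hf : Differentiable ℂ f) (hne : ∃ z, f z ≠ 0) (A B D : Set ℂ)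
    (hA : A ⊆ D) (hB : B ⊆ D) (hAB : ∀ z ∈ A, z ∉ B) :
    zeroCount f A + zeroCount f B ≤ zeroCount f D := by
  rw [count_eq f hf hne, count_eq f hf hne, count_eq f hf hne, ← ENNReal.tsum_add]
  refine ENNReal.tsum_le_tsum fun z => ?_
  by_cases h1 : z ∈ A
  · rw [indicator_of_mem h1, indicator_of_notMem (hAB z h1), indicator_of_mem (hA h1), add_zero]
  · rw [indicator_of_notMem h1, zero_add]
    by_cases h2 : z ∈ B
    · rw [indicator_of_mem h2, indicator_of_mem (hB h2)]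
    · rw [indicator_of_notMem h2]; exact zero_le

theorem ratio_le (r n d : ENNReal) (c C X : ℝ) (hc : 0 < c) (hC : 0 < C) (hX : 0 ≤ X)
    (h1 : ENNReal.ofReal (c * X) ≤ n) (h2 : r ≤ ENNReal.ofReal (C * X)) (h3 : r + n ≤ d) :
    r / d ≤ ENNReal.ofReal (C / (C + c)) := by
  have hr : r ≠ ⊤ := ne_top_of_le_ne_top ENNReal.ofReal_ne_top h2
  have h4 : r.toReal ≤ C * X := ENNReal.toReal_le_of_le_ofReal (by positivity) h2
  have h0 : 0 ≤ r.toReal := ENNReal.toReal_nonneg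
  apply ENNReal.div_le_of_le_mul
  calc r = ENNReal.ofReal r.toReal := (ENNReal.ofReal_toReal hr).symm
    _ ≤ ENNReal.ofReal (C / (C + c) * (r.toReal + c * X)) := by
        apply ENNReal.ofReal_le_ofReal
        rw [div_mul_eq_mul_div, le_div_iff₀ (by positivity)]
        nlinarith
    _ = ENNReal.ofReal (C / (C + c)) * (r + ENNReal.ofReal (c * X)) := by
        rw [ENNReal.ofReal_mul (by positivity), ENNReal.ofReal_add h0 (by positivity),
          ENNReal.ofReal_toReal hr]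
    _ ≤ _ := by
        gcongr
        exact le_trans (by gcongr) h3

theorem fin (hrep : REP) (hl : LOW) (hu : UPP) : FIN := by
  obtain ⟨c, T0, hc, hl⟩ := hl
  obtain ⟨hne, C, T1, hC, hu⟩ := hu
  have hd := hrep.1
  have ev : ∀ᶠ T : ℝ in Filter.atTop,
      ENNReal.ofReal (c * T * Real.log T) ≤ zeroCount (Xi (-1 / 4)) {z | |z.re| ≤ T ∧ z.im ≠ 0} ∧
      zeroCount (Xi (-1 / 4)) {z | z.im = 0 ∧ ‖z‖ ≤ T} ≤ ENNReal.ofReal (C * T * Real.log T) := by
    filter_upwards [Filter.eventually_ge_atTop T0, Filter.eventually_ge_atTop T1] with T h0 h1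
    obtain ⟨S, hS, hx⟩ := hl T h0
    exact ⟨count_ge _ hd hne _ S hS _ hx, count_le _ hd hne _ _ fun S hS => hu T h1 S fun z hz =>
      ⟨(abs_re_le_norm z).trans (hS z hz).2, (hS z hz).1⟩⟩
  refine ⟨-1 / 4, by norm_num, hd, ⟨c, C, hc, hC, ev⟩, fun ht => ?_⟩
  have hle : (1 : ENNReal) ≤ ENNReal.ofReal (C / (C + c)) := by
    refine le_of_tendsto ht ?_
    filter_upwards [ev, Filter.eventually_ge_atTop 1] with T hT h1
    rw [mul_assoc, mul_assoc] at hT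
    refine ratio_le _ _ _ c C (T * Real.log T) hc hC
      (mul_nonneg (by linarith) (Real.log_nonneg h1)) hT.1 hT.2 ?_
    exact count_add _ hd hne _ _ _ (fun z hz => (abs_re_le_norm z).trans hz.2) (fun z hz => hz.1)
      fun z hz hz' => hz'.2 hz.1
  have hlt : ENNReal.ofReal (C / (C + c)) < 1 := by
    rw [ENNReal.ofReal_lt_one, div_lt_one (by positivity)]
    linarith
  exact absurd hle (not_le.2 hlt)

end Pool.Agent.H53.KK
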