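import Mathlib

set_option autoImplicit false
open Finset

namespace Pool.Agent.H53.KK

theorem log_gap (a b B : ℝ) (ha : 0 < a) (hb : 0 < b) (h1 : a ≤ B) (h2 : b ≤ B) :
    |a - b| / B ≤ |Real.log a - Real.log b| := by
  wlog h : b ≤ a generalizing a b
  · have := this b a hb ha h2 h1 (le_of_not_ge h)
    rwa [abs_sub_comm b a, abs_sub_comm (Real.log b)] at this
  have h3 := Real.one_sub_inv_le_log_of_pos (div_pos ha hb)
  rw [Real.log_div ha.ne' hb.ne', inv_div] at h3
  rw [abs_of_nonneg (sub_nonneg.2 h)]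
  refine le_trans ?_ (h3.trans (le_abs_self _))
  calc (a - b) / B ≤ (a - b) / a := div_le_div_of_nonneg_left (sub_nonneg.2 h) ha h1
    _ = 1 - b / a := by field_simp

theorem sinc_sq_mul (y : ℝ) : Real.sinc y ^ 2 * y ^ 2 ≤ 1 := by
  by_cases h : y = 0
  · simp [h]
  · rw [Real.sinc_of_ne_zero h, div_pow, div_mul_cancel₀ _ (pow_ne_zero 2 h)]
    exact Real.sin_sq_le_one y

theorem sinc_sq_le_one (y : ℝ) : Real.sinc y ^ 2 ≤ 1 := by
  rw [← sq_abs]
  nlinarith [Real.abs_sinc_le_one y, abs_nonneg (Real.sinc y)]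

theorem sinc_sq_le (y u : ℝ) (hu : 0 ≤ u) (h : u ≤ |y|) : Real.sinc y ^ 2 ≤ 4 / (1 + u) ^ 2 := by
  rw [le_div_iff₀ (by positivity)]
  have h1 := sinc_sq_mul y
  have h2 := sinc_sq_le_one y
  have h3 : u ^ 2 ≤ y ^ 2 := by rw [← sq_abs y]; nlinarith
  have h4 := sq_nonneg (Real.sinc y)
  have h5 : Real.sinc y ^ 2 * u ^ 2 ≤ 1 := (mul_le_mul_of_nonneg_left h3 h4).trans h1
  nlinarith [mul_nonneg h4 (sq_nonneg (1 - u))]

theorem sinc_ge (y : ℝ) (h0 : 0 ≤ y) (h1 : y ≤ 1) : 1 / 2 ≤ Real.sinc y := by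
  rcases h0.eq_or_lt with h | h
  · rw [← h, Real.sinc_zero]; norm_num
  · rw [Real.sinc_of_ne_zero h.ne', le_div_iff₀ h]
    have := Real.sin_gt_sub_cube h
    nlinarith [mul_nonneg h0 (sub_nonneg.2 h1), mul_nonneg (mul_nonneg h0 h0) (sub_nonneg.2 h1)]

theorem harm (M : ℕ) : ∑ n ∈ Icc 1 M, (1 / n : ℝ) ≤ 1 + Real.log M := by
  have h := harmonic_le_one_add_log M
  simp only [harmonic_eq_sum_Icc, Rat.cast_sum, Rat.cast_inv, Rat.cast_natCast] at h
  simpa only [one_div] using h

theorem tel (h : ℝ) (hh : 0 < h) (K : ℕ) :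
    ∑ k ∈ range K, 1 / (1 + (k : ℝ) / h) ^ 2 ≤ 1 + h := by
  have key : ∀ K : ℕ, ∑ k ∈ range (K + 1), 1 / (1 + (k : ℝ) / h) ^ 2 ≤ 1 + h - h ^ 2 / (h + K) := by
    intro K
    induction K with
    | zero =>
      simp only [zero_add, range_one, sum_singleton, Nat.cast_zero, zero_div, add_zero]
      field_simp
      norm_num
    | succ k ih =>
      rw [sum_range_succ]
      have hk : (0 : ℝ) ≤ k := Nat.cast_nonneg k
      have : 1 / (1 + ((k + 1 : ℕ) : ℝ) / h) ^ 2 ≤ h ^ 2 / (h + k) - h ^ 2 / (h + (k + 1 : ℕ)) := by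
        push_cast
        have e1 : 1 / (1 + ((k : ℝ) + 1) / h) ^ 2 = h ^ 2 / ((h + (k + 1)) * (h + (k + 1))) := by
          field_simp
        have e2 : h ^ 2 / (h + k) - h ^ 2 / (h + (k + 1)) = h ^ 2 / ((h + k) * (h + (k + 1))) := by
          field_simp
          ring
        rw [e1, e2]
        gcongr
        linarith
      linarith
  rcases K with _ | K
  · simp; linarith
  · refine (key K).trans ?_
    have : 0 ≤ h ^ 2 / (h + K) := by positivity
    linarith

theorem tel2 (h : ℝ) (hh : 0 < h) (N M : ℕ) :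
    ∑ n ∈ Icc 1 M, 1 / (1 + |(n : ℝ) - N| / h) ^ 2 ≤ 2 * (1 + h) := by
  calc ∑ n ∈ Icc 1 M, 1 / (1 + |(n : ℝ) - N| / h) ^ 2
      ≤ ∑ n ∈ range (N + (M + 1)), 1 / (1 + |(n : ℝ) - N| / h) ^ 2 := by
        refine sum_le_sum_of_subset_of_nonneg (fun n hn => ?_) fun _ _ _ => by positivity
        rw [mem_Icc] at hn
        rw [mem_range]
        omega
    _ ≤ (1 + h) + (1 + h) := by
        rw [sum_range_add]
        refine add_le_add ?_ ?_
        · rw [← sum_range_reflect]
          refine le_trans (sum_le_sum fun j hj => ?_) (tel h hh N)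
          rw [mem_range] at hj
          have e : ((N - 1 - j : ℕ) : ℝ) - N = -((j : ℝ) + 1) := by
            have : N = (N - 1 - j) + (j + 1) := by omega
            conv_lhs => rw [show (N : ℝ) = ((N - 1 - j : ℕ) : ℝ) + (j + 1) by exact_mod_cast this]
            ring
          rw [e, abs_neg, abs_of_nonneg (by positivity)]
          gcongr
          linarith
        · refine le_trans (le_of_eq (sum_congr rfl fun j _ => ?_)) (tel h hh (M + 1))
          push_cast
          rw [add_sub_cancel_left, abs_of_nonneg (Nat.cast_nonneg j)]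
    _ = _ := by ring

theorem coef_sum (l : ℝ) (N M : ℕ) (hl : 1 ≤ l) (hN : l ≤ N) (hM : 1 + Real.log M ≤ 2 * l) :
    ∑ n ∈ Icc 1 M, (1 / n : ℝ) * Real.sinc (l * (Real.log n - Real.log N)) ^ 2 ≤ 72 / l := by
  have hN0 : (0 : ℝ) < N := by linarith
  have hl0 : 0 < l := by linarith
  have hh : 0 < 2 * N / l := by positivity
  have hh1 : 1 ≤ 2 * N / l := by rw [le_div_iff₀ hl0]; linarith
  calc ∑ n ∈ Icc 1 M, (1 / n : ℝ) * Real.sinc (l * (Real.log n - Real.log N)) ^ 2
      ≤ ∑ n ∈ Icc 1 M, (8 / N * (1 / (1 + |(n : ℝ) - N| / (2 * N / l)) ^ 2) + 4 / l ^ 2 * (1 / n)) := by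
        refine sum_le_sum fun n hn => ?_
        have hn0 : (0 : ℝ) < n := by exact_mod_cast (mem_Icc.1 hn).1
        by_cases hc : (N : ℝ) ≤ 2 * n ∧ (n : ℝ) ≤ 2 * N
        · have g := log_gap n N (2 * N) hn0 hN0 hc.2 (by linarith)
          have s := sinc_sq_le (l * (Real.log n - Real.log N)) (|(n : ℝ) - N| / (2 * N / l))
            (by positivity) (by
              rw [abs_mul, abs_of_pos hl0, div_div_eq_mul_div, mul_comm, mul_div_assoc]
              exact mul_le_mul_of_nonneg_left g hl0.le)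
          have h2 : (1 / n : ℝ) ≤ 2 / N := by
            rw [div_le_div_iff₀ hn0 hN0]; linarith [hc.1]
          have h3 := mul_le_mul h2 s (sq_nonneg _) (by positivity)
          have h4 : (0 : ℝ) ≤ 4 / l ^ 2 * (1 / n) := by positivity
          calc _ ≤ _ := h3
            _ = 8 / N * (1 / (1 + |(n : ℝ) - N| / (2 * N / l)) ^ 2) := by ring
            _ ≤ _ := by linarith
        · have g : 1 / 2 ≤ |Real.log n - Real.log N| := by
            rcases not_and_or.1 hc with h | h
            · refine le_trans ?_ (log_gap n N N hn0 hN0 (by linarith) le_rfl)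
              rw [le_div_iff₀ hN0, abs_of_nonpos (by linarith)]
              linarith
            · refine le_trans ?_ (log_gap n N n hn0 hN0 le_rfl (by linarith))
              rw [le_div_iff₀ hn0, abs_of_nonneg (by linarith)]
              linarith
          have s := sinc_sq_mul (l * (Real.log n - Real.log N))
          have s2 : Real.sinc (l * (Real.log n - Real.log N)) ^ 2 ≤ 4 / l ^ 2 := by
            rw [le_div_iff₀ (by positivity)]
            have g2 : 1 / 4 ≤ (Real.log n - Real.log N) ^ 2 := by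
              rw [← sq_abs]; nlinarith
            have g3 := mul_nonneg (sq_nonneg (Real.sinc (l * (Real.log n - Real.log N)))) (sq_nonneg l)
            rw [mul_pow] at s
            nlinarith
          have h3 := mul_le_mul_of_nonneg_left s2 (by positivity : (0 : ℝ) ≤ 1 / n)
          have h4 : (0 : ℝ) ≤ 8 / N * (1 / (1 + |(n : ℝ) - N| / (2 * N / l)) ^ 2) := by positivity
          linarith
    _ ≤ 8 / N * (2 * (1 + 2 * N / l)) + 4 / l ^ 2 * (2 * l) := by
        rw [sum_add_distrib, ← mul_sum, ← mul_sum]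
        exact add_le_add (mul_le_mul_of_nonneg_left (tel2 _ hh N M) (by positivity))
          (mul_le_mul_of_nonneg_left ((harm M).trans hM) (by positivity))
    _ ≤ 8 / N * (2 * (2 * N / l + 2 * N / l)) + 4 / l ^ 2 * (2 * l) := by gcongr
    _ = 72 / l := by field_simp; norm_num

theorem card_dvd (N H b : ℕ) (hb : 0 < b) :
    (#{n ∈ Ico N (N + H) | b ∣ n} : ℝ) ≤ H / b + 1 := by
  have h1 : #{n ∈ Ico N (N + H) | b ∣ n} ≤ #(range (H / b + 1)) := by
    refine card_le_card_of_injOn (fun n => (n - N) / b) (fun n hn => ?_) fun n hn m hm h => ?_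
    · simp only [coe_filter, mem_Ico, Set.mem_setOf_eq] at hn
      simp only [coe_range, Set.mem_Iio]
      exact Nat.lt_succ_of_le (Nat.div_le_div_right (by omega))
    · simp only [coe_filter, mem_Ico, Set.mem_setOf_eq] at hn hm
      simp only at h
      have a1 := Nat.div_add_mod (n - N) b
      have a2 := Nat.div_add_mod (m - N) b
      have a3 := Nat.mod_lt (n - N) hb
      have a4 := Nat.mod_lt (m - N) hb
      rw [h] at a1
      rcases le_total n m with hle | hle
      · have := Nat.eq_zero_of_dvd_of_lt (Nat.dvd_sub hm.2 hn.2) (by omega)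
        omega
      · have := Nat.eq_zero_of_dvd_of_lt (Nat.dvd_sub hn.2 hm.2) (by omega)
        omega
  rw [card_range] at h1
  have h2 : ((H / b : ℕ) : ℝ) ≤ H / b := Nat.cast_div_le
  have h3 : (#{n ∈ Ico N (N + H) | b ∣ n} : ℝ) ≤ ((H / b + 1 : ℕ) : ℝ) := by exact_mod_cast h1
  push_cast at h3
  linarith

theorem fiber_le (N H a c : ℕ) (hN : 0 < N) (hc : N ≤ c) :
    ∑ b ∈ Ico N (N + H), ∑ d ∈ Ico N (N + H), (if a * b = c * d then (1 : ℝ) else 0) ≤
      H / N * (Nat.gcd a c : ℝ) + 1 := by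
  have hc0 : 0 < c := by omega
  have hg : 0 < Nat.gcd a c := Nat.gcd_pos_of_pos_right a hc0
  obtain ⟨c', hc'⟩ := Nat.gcd_dvd_right a c
  obtain ⟨a', ha'⟩ := Nat.gcd_dvd_left a c
  have hcop : Nat.Coprime c' a' := by
    have := Nat.coprime_div_gcd_div_gcd hg
    have e1 : a / Nat.gcd a c = a' := Nat.div_eq_of_eq_mul_right hg ha'
    have e2 : c / Nat.gcd a c = c' := Nat.div_eq_of_eq_mul_right hg hc'
    rw [e1, e2] at this
    exact this.symm
  set g := Nat.gcd a c
  have hc'0 : 0 < c' := Nat.pos_of_mul_pos_left (hc' ▸ hc0)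
  calc ∑ b ∈ Ico N (N + H), ∑ d ∈ Ico N (N + H), (if a * b = c * d then (1 : ℝ) else 0)
      ≤ ∑ b ∈ Ico N (N + H), (if c' ∣ b then (1 : ℝ) else 0) := by
        refine sum_le_sum fun b _ => ?_
        rw [sum_boole]
        split_ifs with h
        · have : #{d ∈ Ico N (N + H) | a * b = c * d} ≤ 1 := by
            refine card_le_one.2 fun x hx y hy => ?_
            exact Nat.eq_of_mul_eq_mul_left hc0 ((mem_filter.1 hx).2.symm.trans (mem_filter.1 hy).2)
          exact_mod_cast this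
        · have : ({d ∈ Ico N (N + H) | a * b = c * d} : Finset ℕ) = ∅ := by
            refine filter_eq_empty_iff.2 fun d _ hd => h ?_
            rw [ha', hc', mul_assoc, mul_assoc] at hd
            exact hcop.dvd_of_dvd_mul_left ⟨d, Nat.eq_of_mul_eq_mul_left hg hd⟩
          rw [this]; simp
    _ ≤ H / c' + 1 := by rw [sum_boole]; exact card_dvd N H c' hc'0
    _ ≤ _ := by
        have h1 : (N : ℝ) ≤ g * c' := by exact_mod_cast hc' ▸ hc
        have h2 : (0 : ℝ) < c' := by exact_mod_cast hc'0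
        have h3 : (0 : ℝ) < N := by exact_mod_cast hN
        have h4 : (H : ℝ) / c' ≤ H / N * g := by
          rw [div_mul_eq_mul_div, div_le_div_iff₀ h2 h3, mul_assoc]
          exact mul_le_mul_of_nonneg_left h1 (Nat.cast_nonneg H)
        linarith

theorem gcd_sum (N H : ℕ) (hN : 0 < N) (hH : H ≤ N) :
    ∑ a ∈ Ico N (N + H), ∑ c ∈ Ico N (N + H), (Nat.gcd a c : ℝ) ≤
      2 * N * H + 4 * H ^ 2 * (1 + Real.log H) := by
  have pt : ∀ a ∈ Ico N (N + H), ∀ c ∈ Ico N (N + H), (Nat.gcd a c : ℝ) ≤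
      (if a = c then (2 * N : ℝ) else 0) +
        ∑ d ∈ Icc 1 H, (d : ℝ) * ((if d ∣ a then 1 else 0) * (if d ∣ c then 1 else 0)) := by
    intro a ha c hc
    rw [mem_Ico] at ha hc
    have hnn : ∀ d ∈ Icc 1 H, 0 ≤ (d : ℝ) * ((if d ∣ a then 1 else 0) * (if d ∣ c then 1 else 0)) := by
      intro d _
      positivity
    split_ifs with h
    · have h1 : (Nat.gcd a c : ℝ) ≤ 2 * N := by
        have : Nat.gcd a c ≤ 2 * N := by rw [← h, Nat.gcd_self]; omega
        exact_mod_cast this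
      linarith [sum_nonneg hnn]
    · have hg : 0 < Nat.gcd a c := Nat.gcd_pos_of_pos_right a (by omega)
      have hle : Nat.gcd a c ≤ H := by
        rcases lt_or_gt_of_ne h with h' | h'
        · have := Nat.le_of_dvd (by omega) (Nat.dvd_sub (Nat.gcd_dvd_right a c) (Nat.gcd_dvd_left a c))
          omega
        · have := Nat.le_of_dvd (by omega) (Nat.dvd_sub (Nat.gcd_dvd_left a c) (Nat.gcd_dvd_right a c))
          omega
      have := single_le_sum hnn (mem_Icc.2 ⟨hg, hle⟩)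
      rw [if_pos (Nat.gcd_dvd_left a c), if_pos (Nat.gcd_dvd_right a c)] at this
      linarith
  refine (sum_le_sum fun a ha => sum_le_sum fun c hc => pt a ha c hc).trans ?_
  simp only [sum_add_distrib]
  refine add_le_add (le_of_eq ?_) ?_
  · rw [sum_congr rfl fun a ha => by rw [sum_ite_eq, if_pos ha]]
    simp
    ring
  · have e : ∑ a ∈ Ico N (N + H), ∑ c ∈ Ico N (N + H), ∑ d ∈ Icc 1 H,
        (d : ℝ) * ((if d ∣ a then 1 else 0) * (if d ∣ c then 1 else 0)) =
        ∑ d ∈ Icc 1 H, (d : ℝ) * (#{n ∈ Ico N (N + H) | d ∣ n} : ℝ) ^ 2 := by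
      rw [sum_congr rfl fun a _ => sum_comm, sum_comm]
      refine sum_congr rfl fun d _ => ?_
      rw [← sum_boole, sq, sum_mul_sum, mul_sum]
      exact sum_congr rfl fun a _ => by rw [mul_sum]
    rw [e]
    refine le_trans (sum_le_sum fun d hd => ?_)
      ((mul_sum _ _ _).ge.trans (mul_le_mul_of_nonneg_left (harm H) (by positivity)))
    rw [mem_Icc] at hd
    have hd0 : (0 : ℝ) < d := by exact_mod_cast hd.1
    have hdH : (d : ℝ) ≤ H := by exact_mod_cast hd.2
    have h1 := card_dvd N H d hd.1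
    have h2 : (1 : ℝ) ≤ H / d := by rw [le_div_iff₀ hd0]; linarith
    calc (d : ℝ) * (#{n ∈ Ico N (N + H) | d ∣ n} : ℝ) ^ 2 ≤ (d : ℝ) * (2 * ((H : ℝ) / d)) ^ 2 := by
          gcongr; linarith
      _ = 4 * (H : ℝ) ^ 2 * (1 / d) := by field_simp; ring

theorem energy (N H : ℕ) (hN : 0 < N) (hH : H ≤ N) (hl : H * (1 + Real.log H) ≤ N) :
    ∑ p ∈ Ico N (N + H) ×ˢ Ico N (N + H), ∑ r ∈ Ico N (N + H) ×ˢ Ico N (N + H),
      (if p.1 * p.2 = r.1 * r.2 then (1 : ℝ) else 0) ≤ 7 * H ^ 2 := by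
  have h3 : (0 : ℝ) < N := by exact_mod_cast hN
  simp only [sum_product]
  calc ∑ a ∈ Ico N (N + H), ∑ b ∈ Ico N (N + H), ∑ c ∈ Ico N (N + H), ∑ d ∈ Ico N (N + H),
        (if a * b = c * d then (1 : ℝ) else 0)
      = ∑ a ∈ Ico N (N + H), ∑ c ∈ Ico N (N + H), ∑ b ∈ Ico N (N + H), ∑ d ∈ Ico N (N + H),
        (if a * b = c * d then (1 : ℝ) else 0) := sum_congr rfl fun a _ => sum_comm
    _ ≤ ∑ a ∈ Ico N (N + H), ∑ c ∈ Ico N (N + H), (H / N * (Nat.gcd a c : ℝ) + 1) :=
        sum_le_sum fun a _ => sum_le_sum fun c hc => fiber_le N H a c hN (mem_Ico.1 hc).1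
    _ = H / N * ∑ a ∈ Ico N (N + H), ∑ c ∈ Ico N (N + H), (Nat.gcd a c : ℝ) + H ^ 2 := by
        simp only [sum_add_distrib, ← mul_sum]
        simp
        ring
    _ ≤ H / N * (2 * N * H + 4 * H ^ 2 * (1 + Real.log H)) + H ^ 2 := by
        gcongr
        exact gcd_sum N H hN hH
    _ = 3 * H ^ 2 + 4 * H ^ 2 * (H * (1 + Real.log H) / N) := by field_simp; ring
    _ ≤ 3 * H ^ 2 + 4 * H ^ 2 * 1 := by
        gcongr
        rwa [div_le_one h3]
    _ = _ := by ring

end Pool.Agent.H53.KK
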