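import Pool.Agent.H53.KK5a
import Pool.Agent.H53.KK1a

set_option autoImplicit false
open Complex MeasureTheory Finset

namespace Pool.Agent.H53.KK
open Pool.Agent.Lead.KK Pool.Agent.Lead.Sel

/-- a Dirichlet polynomial with real coefficients -/
noncomputable def DP {ι : Type} (J : Finset ι) (a : ι → ℝ) (m : ι → ℕ) (t : ℝ) : ℂ :=
  ∑ i ∈ J, (a i : ℂ) * Complex.exp (-(t * (Real.log (m i) : ℝ) * I))

theorem tri_eq (X : ℝ) (m n : ℕ) (hm : 1 ≤ m) (hn : 1 ≤ n) (hmX : (m : ℝ) ≤ X) (hnX : (n : ℝ) ≤ X) :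
    tri (X * (Real.log m - Real.log n)) = if m = n then 1 else 0 := by
  have hm0 : (0 : ℝ) < m := by exact_mod_cast hm
  have hn0 : (0 : ℝ) < n := by exact_mod_cast hn
  have hX : 0 < X := hm0.trans_le hmX
  split_ifs with h
  · simp [h, tri]
  · have g := log_gap m n X hm0 hn0 hmX hnX
    have h1 : (1 : ℝ) ≤ |(m : ℝ) - n| := by
      have : (1 : ℤ) ≤ |(m : ℤ) - n| := Int.one_le_abs (by omega)
      exact_mod_cast this
    rw [div_le_iff₀ hX] at g
    rw [tri, abs_mul, abs_of_pos hX]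
    exact max_eq_right (by linarith)

theorem orth (s : ℝ → ℝ) (X : ℝ) (hs : Integrable s)
    (hF : ∀ w : ℝ, ∫ t : ℝ, (s t : ℂ) * Complex.exp (-(t * w * I)) =
      ((2 * Real.pi * X * tri (X * w) : ℝ) : ℂ))
    {ι κ : Type} (J : Finset ι) (K : Finset κ) (a : ι → ℝ) (b : κ → ℝ) (m : ι → ℕ) (n : κ → ℕ)
    (hm : ∀ i ∈ J, 1 ≤ m i ∧ (m i : ℝ) ≤ X) (hn : ∀ j ∈ K, 1 ≤ n j ∧ (n j : ℝ) ≤ X) :
    Integrable (fun t => s t * (DP J a m t * (starRingEnd ℂ) (DP K b n t)).re) ∧
    ∫ t, s t * (DP J a m t * (starRingEnd ℂ) (DP K b n t)).re =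
      2 * Real.pi * X * ∑ i ∈ J, ∑ j ∈ K, if m i = n j then a i * b j else 0 := by
  let G : ι → κ → ℝ → ℂ := fun i j t => ((a i * b j : ℝ) : ℂ) *
    ((s t : ℂ) * Complex.exp (-(t * (Real.log (m i) - Real.log (n j) : ℝ) * I)))
  have hG : ∀ i j, Integrable (G i j) := by
    intro i j
    refine Integrable.const_mul ?_ _
    refine hs.ofReal.mul_bdd (c := 1) (by fun_prop : Continuous _).aestronglyMeasurable
      (Filter.Eventually.of_forall fun t => ?_)
    rw [Complex.norm_exp]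
    generalize (Real.log (m i) - Real.log (n j) : ℝ) = u
    simp
  have e : ∀ t : ℝ, s t * (DP J a m t * (starRingEnd ℂ) (DP K b n t)).re =
      (∑ i ∈ J, ∑ j ∈ K, G i j t).re := by
    intro t
    rw [← re_ofReal_mul, DP, DP, map_sum, sum_mul_sum, mul_sum]
    congr 1
    refine sum_congr rfl fun i _ => ?_
    rw [mul_sum]
    refine sum_congr rfl fun j _ => ?_
    simp only [G]
    rw [map_mul, conj_ofReal, ← Complex.exp_conj, map_neg, map_mul, map_mul, conj_ofReal, conj_ofReal,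
      conj_I]
    have : Complex.exp (-(t * (Real.log (m i) - Real.log (n j) : ℝ) * I)) =
        Complex.exp (-(t * (Real.log (m i) : ℝ) * I)) *
          Complex.exp (-(t * (Real.log (n j) : ℝ) * -I)) := by
      rw [← Complex.exp_add]; congr 1; push_cast; ring
    rw [this]
    push_cast
    ring
  have hi : Integrable fun t => ∑ i ∈ J, ∑ j ∈ K, G i j t :=
    integrable_finset_sum _ fun i _ => integrable_finset_sum _ fun j _ => hG i j
  simp_rw [e]
  refine ⟨hi.re, ?_⟩
  have h1 := integral_re hi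
  simp only [RCLike.re_to_complex] at h1
  rw [h1, integral_finset_sum _ fun i _ => integrable_finset_sum _ fun j _ => hG i j, re_sum,
    mul_sum]
  refine sum_congr rfl fun i hi => ?_
  rw [integral_finset_sum _ fun j _ => hG i j, re_sum, mul_sum]
  refine sum_congr rfl fun j hj => ?_
  simp only [G]
  rw [integral_const_mul, hF, ← ofReal_mul, ofReal_re,
    tri_eq X _ _ (hm i hi).1 (hn j hj).1 (hm i hi).2 (hn j hj).2]
  split_ifs <;> ring

theorem re_mul_conj (z : ℂ) : (z * (starRingEnd ℂ) z).re = ‖z‖ ^ 2 := by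
  rw [Complex.mul_conj, ofReal_re, Complex.normSq_eq_norm_sq]

theorem pz_point (s h y w r q H θ : ℝ) (hs : 0 ≤ s) (hh : 0 ≤ h) (hy : 0 ≤ y) (hw : 0 ≤ w)
    (hq : 0 < q) (hH : 0 < H) (hr : r ≤ y * w) (hθ : 400 * θ ^ 2 ≤ q ^ 2 * H) (hg : θ < y → s ≤ h) :
    s * r ≤ q / 40 * (s * w ^ 2) + q * H / 40 * s + 1 / (6000 * q) * (s * y ^ 2) +
      q / (280 * H) * (s * (w ^ 2) ^ 2) + 157500000 * q * H * h := by
  have p1 : 0 ≤ q / 40 * (s * w ^ 2) := by positivity
  have p2 : 0 ≤ q * H / 40 * s := by positivity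
  have p3 : 0 ≤ 1 / (6000 * q) * (s * y ^ 2) := by positivity
  have p4 : 0 ≤ q / (280 * H) * (s * (w ^ 2) ^ 2) := by positivity
  have p5 : 0 ≤ 157500000 * q * H * h := by positivity
  by_cases hc : θ < y
  · have a1 : y * w ≤ 1 / (6000 * q) * y ^ 2 + 1500 * q * w ^ 2 := by
      have : 1 / (6000 * q) * y ^ 2 + 1500 * q * w ^ 2 - y * w =
          1 / (6000 * q) * (y - 3000 * q * w) ^ 2 := by
        field_simp; ring
      have : 0 ≤ 1 / (6000 * q) * (y - 3000 * q * w) ^ 2 := by positivity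
      linarith
    have a2 : 1500 * q * w ^ 2 ≤ q / (280 * H) * (w ^ 2) ^ 2 + 157500000 * q * H := by
      have : q / (280 * H) * (w ^ 2) ^ 2 + 157500000 * q * H - 1500 * q * w ^ 2 =
          q / (280 * H) * (w ^ 2 - 210000 * H) ^ 2 := by
        field_simp; ring
      have : 0 ≤ q / (280 * H) * (w ^ 2 - 210000 * H) ^ 2 := by positivity
      linarith
    have a3 : s * r ≤ s * (1 / (6000 * q) * y ^ 2 + (q / (280 * H) * (w ^ 2) ^ 2 + 157500000 * q * H)) :=
      mul_le_mul_of_nonneg_left (by linarith) hs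
    have a4 : 157500000 * q * H * s ≤ 157500000 * q * H * h :=
      mul_le_mul_of_nonneg_left (hg hc) (by positivity)
    nlinarith
  · push Not at hc
    have a1 : y * w ≤ q / 40 * w ^ 2 + q * H / 40 := by
      have b1 : q / 40 * w ^ 2 + 10 / q * y ^ 2 - y * w = q / 40 * (w - 20 / q * y) ^ 2 := by
        field_simp; ring
      have b2 : 0 ≤ q / 40 * (w - 20 / q * y) ^ 2 := by positivity
      have b3 : 10 / q * y ^ 2 ≤ q * H / 40 := by
        rw [div_mul_eq_mul_div, div_le_div_iff₀ hq (by norm_num)]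
        nlinarith
      linarith
    have a3 : s * r ≤ s * (q / 40 * w ^ 2 + q * H / 40) := mul_le_mul_of_nonneg_left (by linarith) hs
    nlinarith

theorem pz (s h : ℝ → ℝ) (Y W : ℝ → ℂ) (V q H θ : ℝ) (hs : ∀ t, 0 ≤ s t) (hh : ∀ t, 0 ≤ h t)
    (hq : 0 < q) (hH : 0 < H) (hθ : 400 * θ ^ 2 ≤ q ^ 2 * H)
    (i0 : Integrable s) (e0 : ∫ t, s t = V)
    (i1 : Integrable fun t => s t * ‖W t‖ ^ 2) (e1 : ∫ t, s t * ‖W t‖ ^ 2 ≤ V * H)
    (i2 : Integrable fun t => s t * (‖W t‖ ^ 2) ^ 2) (e2 : ∫ t, s t * (‖W t‖ ^ 2) ^ 2 ≤ V * (7 * H ^ 2))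
    (i3 : Integrable fun t => s t * ‖Y t‖ ^ 2) (e3 : ∫ t, s t * ‖Y t‖ ^ 2 ≤ V * (150 * q ^ 2 * H))
    (i4 : Integrable fun t => s t * (Y t * (starRingEnd ℂ) (W t)).re)
    (e4 : V * (q * H / 8) ≤ ∫ t, s t * (Y t * (starRingEnd ℂ) (W t)).re)
    (ih : Integrable h) (hg : ∀ t, θ < ‖Y t‖ → s t ≤ h t) : V ≤ 6300000000 * ∫ t, h t := by
  have j1 := i1.const_mul (q / 40)
  have j0 := i0.const_mul (q * H / 40)
  have j3 := i3.const_mul (1 / (6000 * q))
  have j2 := i2.const_mul (q / (280 * H))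
  have jh := ih.const_mul (157500000 * q * H)
  have key := integral_mono i4 ((((j1.add j0).add j3).add j2).add jh) fun t =>
    pz_point (s t) (h t) ‖Y t‖ ‖W t‖ _ q H θ (hs t) (hh t) (norm_nonneg _) (norm_nonneg _) hq hH
      ((re_le_norm _).trans (by rw [norm_mul, Complex.norm_conj])) hθ (hg t)
  simp only [Pi.add_apply] at key
  have s1 := integral_add (((j1.add j0).add j3).add j2) jh
  have s2 := integral_add ((j1.add j0).add j3) j2
  have s3 := integral_add (j1.add j0) j3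
  have s4 := integral_add j1 j0
  simp only [Pi.add_apply] at s1 s2 s3 s4
  rw [s1, s2, s3, s4, integral_const_mul, integral_const_mul, integral_const_mul, integral_const_mul,
    integral_const_mul, e0] at key
  have b1 : q / 40 * ∫ t, s t * ‖W t‖ ^ 2 ≤ q * H / 40 * V :=
    (mul_le_mul_of_nonneg_left e1 (by positivity)).trans (le_of_eq (by ring))
  have b2 : q / (280 * H) * ∫ t, s t * (‖W t‖ ^ 2) ^ 2 ≤ q * H / 40 * V :=
    (mul_le_mul_of_nonneg_left e2 (by positivity)).trans (le_of_eq (by field_simp; ring))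
  have b3 : 1 / (6000 * q) * ∫ t, s t * ‖Y t‖ ^ 2 ≤ q * H / 40 * V :=
    (mul_le_mul_of_nonneg_left e3 (by positivity)).trans (le_of_eq (by field_simp; ring))
  have hqH : 0 < q * H := by positivity
  have : q * H * V ≤ q * H * (6300000000 * ∫ t, h t) := by nlinarith
  exact le_of_mul_le_mul_left this hqH

theorem int_sinc (l y : ℝ) :
    ∫ τ in (-l)..l, Complex.exp (-(τ * y * I)) = ((2 * l * Real.sinc (l * y) : ℝ) : ℂ) := by
  by_cases hy : y = 0
  · simp [hy, two_mul]
  · have h := intervalIntegral.integral_comp_mul_right (a := -l) (b := l)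
      (fun u : ℝ => Complex.exp (u * I)) (neg_ne_zero.2 hy)
    have e : ∀ τ : ℝ, Complex.exp (-(τ * y * I)) = Complex.exp (((τ * -y : ℝ) : ℂ) * I) := by
      intro τ; congr 1; push_cast; ring
    simp_rw [e]
    have a1 : -l * -y = -(l * -y) := by ring
    rw [h, a1, integral_exp_mul_I_eq_sinc, mul_neg, Real.sinc_neg, Complex.real_smul]
    have : (y : ℂ) ≠ 0 := by exact_mod_cast hy
    push_cast
    field_simp

theorem avg (J : Finset ℕ) (c : ℕ → ℝ) (l L θ t : ℝ) (hl : 0 < l)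
    (h : θ < ‖DP J (fun n => c n * Real.sinc (l * (Real.log n - L))) id t‖) :
    ∃ u : ℝ, |u - t| ≤ l ∧ θ < ‖DP J c id u‖ := by
  by_contra H
  push Not at H
  have e : ∫ τ in (-l)..l, DP J c id (t + τ) * Complex.exp (τ * L * I) =
      ((2 * l : ℝ) : ℂ) * DP J (fun n => c n * Real.sinc (l * (Real.log n - L))) id t := by
    have e1 : ∀ τ : ℝ, DP J c id (t + τ) * Complex.exp (τ * L * I) =
        ∑ n ∈ J, ((c n : ℂ) * Complex.exp (-(t * (Real.log n : ℝ) * I))) *
          Complex.exp (-(τ * (Real.log n - L : ℝ) * I)) := by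
      intro τ
      rw [DP, sum_mul]
      refine sum_congr rfl fun n _ => ?_
      rw [mul_assoc (c n : ℂ), mul_assoc (c n : ℂ), ← Complex.exp_add, ← Complex.exp_add]
      congr 2
      simp only [id]
      push_cast
      ring
    simp_rw [e1]
    rw [intervalIntegral.integral_finset_sum fun n _ =>
      (by fun_prop : Continuous _).intervalIntegrable _ _, DP, mul_sum]
    refine sum_congr rfl fun n _ => ?_
    rw [intervalIntegral.integral_const_mul, int_sinc]
    simp only [id]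
    push_cast
    ring
  have b := intervalIntegral.norm_integral_le_of_norm_le_const (a := -l) (b := l) (C := θ)
    (f := fun τ : ℝ => DP J c id (t + τ) * Complex.exp (τ * L * I)) fun τ hτ => by
      rw [Set.uIoc_of_le (by linarith)] at hτ
      rw [norm_mul, Complex.norm_exp]
      have : ((τ : ℂ) * L * I).re = 0 := by simp
      rw [this, Real.exp_zero, mul_one]
      exact H _ (by rw [add_sub_cancel_left, abs_le]; exact ⟨hτ.1.le, hτ.2⟩)
  rw [e, norm_mul, norm_real, Real.norm_of_nonneg (by linarith), sub_neg_eq_add,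
    abs_of_pos (by linarith)] at b
  nlinarith

theorem trunc (x τ : ℝ) (M : ℕ) (hM : 20 * x ≤ Real.log (M + 1)) (hM2 : 10 ≤ Real.log (M + 1)) :
    ‖Z (((-x : ℝ) : ℂ) + τ * I) -
      DP (Icc 1 M) (fun n => Real.exp (x * Real.log n - Real.log n ^ 2 / 4)) id τ‖ ≤ 2 := by
  set w : ℂ := ((-x : ℝ) : ℂ) + τ * I with hw
  have e : DP (Icc 1 M) (fun n => Real.exp (x * Real.log n - Real.log n ^ 2 / 4)) id τ =
      ∑ n ∈ range M, zt w n := by
    rw [DP, range_eq_Ico, ← Finset.Ico_add_one_right_eq_Icc, ← zero_add 1, ← sum_Ico_add']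
    refine sum_congr rfl fun n _ => ?_
    rw [zt, ofReal_exp, ← Complex.exp_add, hw]
    congr 1
    simp only [id]
    push_cast
    ring
  rw [e, Z_eq, ← (summ_zt w).of_norm.sum_add_tsum_nat_add M, add_sub_cancel_left]
  refine (tsum_of_norm_bounded summ_sq.hasSum fun n => ?_).trans sum_sq
  rw [norm_zt]
  have hn : (0 : ℝ) ≤ n := Nat.cast_nonneg n
  have hM0 : (0 : ℝ) ≤ M := Nat.cast_nonneg M
  have h1 : Real.log (M + 1) ≤ Real.log (((n + M : ℕ) : ℝ) + 1) :=
    Real.log_le_log (by positivity) (by push_cast; linarith)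
  have h2 : Real.log (n + 1) ≤ Real.log (((n + M : ℕ) : ℝ) + 1) :=
    Real.log_le_log (by positivity) (by push_cast; linarith)
  rw [← exp_two_log]
  apply Real.exp_le_exp.2
  have : w.re = -x := by simp [hw]
  rw [this]
  nlinarith

end Pool.Agent.H53.KK
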