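import Pool.Agent.H53.KK5b

set_option autoImplicit false
open Complex MeasureTheory Finset

namespace Pool.Agent.H53.KK
open Pool.Agent.Lead.KK Pool.Agent.Lead.Sel

theorem exp_ge_sq (y : ℝ) (hy : 0 ≤ y) : y ^ 2 / 4 ≤ Real.exp y := by
  have h1 := Real.add_one_le_exp (y / 2)
  have h2 : Real.exp y = Real.exp (y / 2) ^ 2 := by rw [sq, ← Real.exp_add]; congr 1; ring
  rw [h2]
  nlinarith

theorem c_sq (x : ℝ) (n : ℕ) (hn : 1 ≤ n) :
    Real.exp (x * Real.log n - Real.log n ^ 2 / 4) ^ 2 =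
      Real.exp ((2 * x + 1) ^ 2 / 2) * (1 / n) * Real.exp (-((Real.log n - (2 * x + 1)) ^ 2 / 2)) := by
  have hn0 : (0 : ℝ) < n := by exact_mod_cast hn
  have e : (1 / n : ℝ) = Real.exp (-Real.log n) := by rw [Real.exp_neg, Real.exp_log hn0, one_div]
  rw [e, sq, ← Real.exp_add, ← Real.exp_add, ← Real.exp_add]
  congr 1
  ring

theorem DP_sq (J : Finset ℕ) (hJ : ∀ n ∈ J, 1 ≤ n) (t : ℝ) :
    DP (J ×ˢ J) (fun _ => 1) (fun p => p.1 * p.2) t = DP J (fun _ => 1) id t ^ 2 := by
  rw [DP, DP, sq, sum_mul_sum, sum_product]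
  refine sum_congr rfl fun a ha => sum_congr rfl fun b hb => ?_
  have ha0 : (a : ℝ) ≠ 0 := by have := hJ a ha; positivity
  have hb0 : (b : ℝ) ≠ 0 := by have := hJ b hb; positivity
  simp only [id, Nat.cast_mul]
  rw [Real.log_mul ha0 hb0, ofReal_one, one_mul, one_mul, one_mul, ← Complex.exp_add]
  congr 1
  push_cast
  ring

theorem mom (s : ℝ → ℝ) (X : ℝ) (hs0 : ∀ t, 0 ≤ s t) (hs : Integrable s)
    (hF : ∀ w : ℝ, ∫ t : ℝ, (s t : ℂ) * Complex.exp (-(t * w * I)) =
      ((2 * Real.pi * X * tri (X * w) : ℝ) : ℂ))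
    (hX : Real.exp (10 ^ 13) ≤ X) (h : ℝ → ℝ) (hh : ∀ t, 0 ≤ h t) (ih : Integrable h)
    (hg : ∀ t u : ℝ, |u - t| ≤ Real.log X → Real.exp ((Real.log X / 20) ^ 2) ≤
      ‖Z (((-(Real.log X / 20) : ℝ) : ℂ) + u * I)‖ → s t ≤ h t) :
    2 * Real.pi * X ≤ 6300000000 * ∫ t, h t := by
  have hX0 : 0 < X := (Real.exp_pos _).trans_le hX
  have hl : 10 ^ 13 ≤ Real.log X := by rwa [Real.le_log_iff_exp_le hX0]
  have hXe : Real.exp (Real.log X) = X := Real.exp_log hX0
  set l := Real.log X with hldef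
  have hl0 : 0 < l := by linarith
  set x := l / 20 with hx
  set M := ⌊X⌋₊ with hM
  have hMX : (M : ℝ) ≤ X := Nat.floor_le hX0.le
  have hXM : X < M + 1 := Nat.lt_floor_add_one X
  have hlM : l ≤ Real.log (M + 1) := Real.log_le_log hX0 hXM.le
  set E := Real.exp (2 * x + 1) with hE
  have hE1 : l ^ 2 / 400 ≤ Real.exp (2 * x) := by
    have := exp_ge_sq (2 * x) (by positivity)
    rw [hx] at this ⊢
    nlinarith
  have hE2 : Real.exp (2 * x) ≤ E := Real.exp_le_exp.2 (by linarith)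
  have hE3 : l ≤ E := by nlinarith
  set N := ⌈E⌉₊ with hN
  have hN1 : E ≤ N := Nat.le_ceil E
  have hN2 : (N : ℝ) ≤ 2 * E := by
    have := Nat.ceil_lt_add_one (Real.exp_pos (2 * x + 1)).le
    linarith
  have hN0 : (0 : ℝ) < N := by linarith
  have hN0' : 0 < N := by exact_mod_cast hN0
  set H := ⌊(N : ℝ) / l⌋₊ with hH
  have hH1 : (H : ℝ) ≤ N / l := Nat.floor_le (by positivity)
  have hNl : 1 ≤ (N : ℝ) / l := by rw [le_div_iff₀ hl0]; linarith
  have hH2 : (1 : ℝ) ≤ H := by exact_mod_cast Nat.le_floor (by simpa using hNl)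
  have hH3 : (N : ℝ) / l ≤ 2 * H := by have := Nat.lt_floor_add_one ((N : ℝ) / l); linarith
  have hH4 : (H : ℝ) * l ≤ N := by rwa [le_div_iff₀ hl0] at hH1
  have hH5 : (N : ℝ) ≤ 2 * H * l := by rwa [div_le_iff₀ hl0] at hH3
  have hHN : (H : ℝ) ≤ N := by nlinarith
  have hHN' : H ≤ N := by exact_mod_cast hHN
  have h4E : 4 * E ≤ Real.exp (2 * x + 3) := by
    have a : Real.exp (2 * x + 3) = Real.exp 1 * Real.exp 1 * E := by
      rw [hE, ← Real.exp_add, ← Real.exp_add]; congr 1; ring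
    have b := Real.add_one_le_exp (1 : ℝ)
    have c : 4 ≤ Real.exp 1 * Real.exp 1 := by nlinarith
    rw [a]
    exact mul_le_mul_of_nonneg_right c (Real.exp_pos _).le
  have h2N : 2 * (N : ℝ) ≤ Real.exp (2 * x + 3) := by linarith
  have hNX : (2 * (N : ℝ)) * (2 * N) ≤ X := by
    calc _ ≤ Real.exp (2 * x + 3) * Real.exp (2 * x + 3) :=
          mul_le_mul h2N h2N (by positivity) (Real.exp_pos _).le
      _ ≤ Real.exp l := by rw [← Real.exp_add]; exact Real.exp_le_exp.2 (by linarith)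
      _ = X := hXe
  have hNX' : 2 * (N : ℝ) ≤ X := by nlinarith
  have hlogH : 1 + Real.log H ≤ l := by
    have : Real.log H ≤ 2 * x + 3 := by
      rw [Real.log_le_iff_le_exp (by linarith)]; linarith
    linarith
  set J := Ico N (N + H) with hJ
  have hJ1 : ∀ n ∈ J, 1 ≤ n := fun n hn => le_trans hN0' (mem_Ico.1 hn).1
  have hJ2 : ∀ n ∈ J, (N : ℝ) ≤ n ∧ (n : ℝ) ≤ N + H := fun n hn =>
    ⟨by exact_mod_cast (mem_Ico.1 hn).1, by exact_mod_cast (mem_Ico.1 hn).2.le⟩
  have hJ3 : ∀ n ∈ J, 1 ≤ id n ∧ ((id n : ℕ) : ℝ) ≤ X := fun n hn =>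
    ⟨hJ1 n hn, by have := (hJ2 n hn).2; simp only [id]; linarith⟩
  have hI3 : ∀ n ∈ Icc 1 M, 1 ≤ id n ∧ ((id n : ℕ) : ℝ) ≤ X := fun n hn =>
    ⟨(mem_Icc.1 hn).1, le_trans (by exact_mod_cast (mem_Icc.1 hn).2) hMX⟩
  have hP3 : ∀ p ∈ J ×ˢ J, 1 ≤ p.1 * p.2 ∧ ((p.1 * p.2 : ℕ) : ℝ) ≤ X := fun p hp => by
    rw [mem_product] at hp
    refine ⟨Nat.mul_pos (hJ1 _ hp.1) (hJ1 _ hp.2), le_trans ?_ hNX⟩
    push_cast
    exact mul_le_mul (by linarith [(hJ2 _ hp.1).2]) (by linarith [(hJ2 _ hp.2).2])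
      (Nat.cast_nonneg _) (by positivity)
  have hcard : (#J : ℝ) = H := by rw [hJ, Nat.card_Ico, add_tsub_cancel_left]
  set c : ℕ → ℝ := fun n => Real.exp (x * Real.log n - Real.log n ^ 2 / 4) with hc
  set d : ℕ → ℝ := fun n => c n * Real.sinc (l * (Real.log n - Real.log N)) with hd
  set Λ := Real.exp ((2 * x + 1) ^ 2 / 2) with hΛ
  have hΛ0 : 0 < Λ := Real.exp_pos _
  set q := Real.sqrt (Λ / N) with hq
  have hq0 : 0 < q := Real.sqrt_pos.2 (by positivity)
  have hq2 : q ^ 2 = Λ / N := Real.sq_sqrt (by positivity)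
  have hqH : Λ / (2 * l) ≤ q ^ 2 * H := by
    rw [hq2, div_mul_eq_mul_div, div_le_div_iff₀ (by positivity) hN0]
    nlinarith
  have hV : 0 < 2 * Real.pi * X := by have := Real.pi_pos; positivity
  obtain ⟨i1, e1⟩ := orth s X hs hF J J (fun _ => 1) (fun _ => 1) id id hJ3 hJ3
  obtain ⟨i2, e2⟩ := orth s X hs hF (J ×ˢ J) (J ×ˢ J) (fun _ => 1) (fun _ => 1)
    (fun p => p.1 * p.2) (fun p => p.1 * p.2) hP3 hP3
  obtain ⟨i3, e3⟩ := orth s X hs hF (Icc 1 M) (Icc 1 M) d d id id hI3 hI3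
  obtain ⟨i4, e4⟩ := orth s X hs hF (Icc 1 M) J d (fun _ => 1) id id hI3 hJ3
  simp only [re_mul_conj] at i1 e1 i2 e2 i3 e3
  simp only [DP_sq J hJ1, norm_pow] at i2 e2
  refine pz s h (DP (Icc 1 M) d id) (DP J (fun _ => 1) id) (2 * Real.pi * X) q H
    (3 * Real.exp (x ^ 2)) hs0 hh hq0 (by linarith) ?_ hs ?_ i1 ?_ i2 ?_ i3 ?_ i4 ?_ ih ?_
  · refine le_trans ?_ hqH
    have a : Λ = Real.exp (x ^ 2) ^ 2 * Real.exp (2 * x + 1 / 2) := by
      rw [hΛ, sq (Real.exp _), ← Real.exp_add, ← Real.exp_add]; congr 1; ring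
    have b : Real.exp (2 * x) ≤ Real.exp (2 * x + 1 / 2) := Real.exp_le_exp.2 (by linarith)
    have c : 7200 * l ≤ Real.exp (2 * x + 1 / 2) := by nlinarith
    rw [a, le_div_iff₀ (by positivity)]
    nlinarith [mul_le_mul_of_nonneg_left c (sq_nonneg (Real.exp (x ^ 2)))]
  · have := hF 0
    simp only [ofReal_zero, mul_zero, zero_mul, neg_zero, Complex.exp_zero, mul_one, tri, abs_zero,
      sub_zero] at this
    rw [integral_complex_ofReal, max_eq_left zero_le_one, mul_one] at this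
    exact_mod_cast this
  · rw [e1]
    refine mul_le_mul_of_nonneg_left (le_of_eq ?_) hV.le
    simp only [id]
    rw [sum_congr rfl fun a ha => by rw [sum_ite_eq, if_pos ha]]
    simp [hcard]
  · rw [e2]
    refine mul_le_mul_of_nonneg_left ?_ hV.le
    simp only [mul_one]
    exact energy N H hN0' hHN' (by nlinarith)
  · rw [e3]
    refine mul_le_mul_of_nonneg_left ?_ hV.le
    simp only [id]
    rw [sum_congr rfl fun a ha => by rw [sum_ite_eq, if_pos ha]]
    have hM1 : (1 : ℝ) ≤ M := by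
      have : 1 ≤ M := Nat.le_floor (by push_cast; linarith)
      exact_mod_cast this
    have hcs := coef_sum l N M (by linarith) (by linarith)
      (by linarith [Real.log_le_log (by linarith) hMX])
    calc ∑ a ∈ Icc 1 M, d a * d a
        ≤ ∑ a ∈ Icc 1 M, Λ * ((1 / a : ℝ) * Real.sinc (l * (Real.log a - Real.log N)) ^ 2) := by
          refine sum_le_sum fun a ha => ?_
          have a1 := c_sq x a (mem_Icc.1 ha).1
          have a2 : Real.exp (-((Real.log a - (2 * x + 1)) ^ 2 / 2)) ≤ 1 :=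
            Real.exp_le_one_iff.2 (by nlinarith [sq_nonneg (Real.log a - (2 * x + 1))])
          have a3 : c a ^ 2 ≤ Λ * (1 / a) := by
            simp only [hc]
            rw [a1]
            exact mul_le_of_le_one_right (by positivity) a2
          calc d a * d a = c a ^ 2 * Real.sinc (l * (Real.log a - Real.log N)) ^ 2 := by
                simp only [hd]; ring
            _ ≤ Λ * (1 / a) * Real.sinc (l * (Real.log a - Real.log N)) ^ 2 :=
                mul_le_mul_of_nonneg_right a3 (sq_nonneg _)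
            _ = _ := by ring
      _ ≤ Λ * (72 / l) := by rw [← mul_sum]; exact mul_le_mul_of_nonneg_left hcs hΛ0.le
      _ ≤ 150 * (Λ / (2 * l)) := by
          have : 0 < Λ / l := by positivity
          calc Λ * (72 / l) = 72 * (Λ / l) := by ring
            _ ≤ 75 * (Λ / l) := by linarith
            _ = _ := by field_simp; norm_num
      _ ≤ _ := by rw [mul_assoc]; gcongr
  · rw [e4]
    refine mul_le_mul_of_nonneg_left ?_ hV.le
    simp only [id]
    rw [sum_comm, sum_congr rfl fun a ha => by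
      rw [sum_ite_eq', if_pos (mem_Icc.2 ⟨hJ1 a ha, Nat.le_floor (hJ3 a ha).2⟩)]]
    calc q * H / 8 = ∑ _a ∈ J, q / 8 := by rw [sum_const, nsmul_eq_mul, hcard]; ring
      _ ≤ _ := by
        refine sum_le_sum fun a ha => ?_
        obtain ⟨a1, a2⟩ := hJ2 a ha
        have a0 : (0 : ℝ) < a := by linarith
        have b1 : Real.log N ≤ Real.log a := Real.log_le_log hN0 a1
        have b2 : Real.log a - Real.log N ≤ H / N := by
          rw [← Real.log_div a0.ne' hN0.ne']
          refine (Real.log_le_sub_one_of_pos (by positivity)).trans ?_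
          rw [div_sub_one hN0.ne']
          gcongr
          linarith
        have b3 : 1 / 2 ≤ Real.sinc (l * (Real.log a - Real.log N)) := by
          refine sinc_ge _ (mul_nonneg hl0.le (by linarith)) ?_
          refine (mul_le_mul_of_nonneg_left b2 hl0.le).trans ?_
          rw [← mul_div_assoc, div_le_one hN0]
          linarith
        have b4 : 2 * x + 1 ≤ Real.log a := by rw [Real.le_log_iff_exp_le a0]; linarith
        have b5 : Real.log a ≤ 2 * x + 3 := by rw [Real.log_le_iff_le_exp a0]; linarith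
        have b6 : 1 / 8 ≤ Real.exp (-((Real.log a - (2 * x + 1)) ^ 2 / 2)) := by
          have c1 : Real.exp (-2) ≤ Real.exp (-((Real.log a - (2 * x + 1)) ^ 2 / 2)) :=
            Real.exp_le_exp.2 (by nlinarith)
          refine le_trans ?_ c1
          have c2 : Real.exp 2 = Real.exp 1 * Real.exp 1 := by rw [← Real.exp_add]; norm_num
          have c3 := Real.exp_one_lt_d9
          have c4 := Real.exp_pos 1
          rw [Real.exp_neg, ← one_div]
          exact one_div_le_one_div_of_le (Real.exp_pos _) (by nlinarith)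
        have b7 : (q / 4) ^ 2 ≤ c a ^ 2 := by
          simp only [hc]
          rw [c_sq x a (hJ1 a ha), div_pow, hq2]
          have c1 : (1 / (2 * N) : ℝ) ≤ 1 / a := one_div_le_one_div_of_le a0 (by linarith)
          calc Λ / N / 4 ^ 2 = Λ * (1 / (2 * N)) * (1 / 8) := by field_simp; norm_num
            _ ≤ _ := by gcongr
        have b8 : q / 4 ≤ c a := abs_le_of_sq_le_sq' b7 (Real.exp_pos _).le |>.2
        simp only [hd, mul_one]
        calc q / 8 = q / 4 * (1 / 2) := by ring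
          _ ≤ _ := mul_le_mul b8 b3 (by norm_num) (Real.exp_pos _).le
  · intro t ht
    obtain ⟨u, hu1, hu2⟩ := avg (Icc 1 M) c l (Real.log N) _ t hl0 ht
    refine hg t u hu1 ?_
    have t1 := trunc x u M (by linarith) (by linarith)
    have t2 := norm_sub_norm_le (DP (Icc 1 M) c id u) (Z (((-x : ℝ) : ℂ) + u * I))
    rw [norm_sub_rev] at t2
    have t3 := Real.one_le_exp (sq_nonneg x)
    linarith

theorem prb (fj : FJ) : PRB := by
  classical
  obtain ⟨S, -, hSi, hS01, hS4, -, hSF⟩ := fj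
  refine ⟨1 / 10 ^ 12, Real.exp (10 ^ 13), by norm_num, by norm_num, fun X hX => ?_⟩
  have hX0 : 0 < X := (Real.exp_pos _).trans_le hX
  have hl : 10 ^ 13 ≤ Real.log X := by rwa [Real.le_log_iff_exp_le hX0]
  have hXe : Real.exp (Real.log X) = X := Real.exp_log hX0
  have hmom := mom (fun t => S (t / X)) X (fun t => (hS01 _).1) (hSi.comp_div hX0.ne') (hSF X hX0) hX
  set l := Real.log X with hldef
  have hl0 : 0 < l := by linarith
  set ε : ℝ := 1 / 10 ^ 12 with hε
  have hε0 : 0 < ε := by norm_num [hε]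
  have hlX : l ≤ ε * X := by
    have := exp_ge_sq l hl0.le
    rw [hXe] at this
    rw [hε]
    nlinarith
  have hR : 0 < X / (2 * ε) := by positivity
  have hR2 : X / ε = X / (2 * ε) + X / (2 * ε) := by field_simp; norm_num
  have hR3 : ε * X ≤ X / (2 * ε) := by
    rw [le_div_iff₀ (by positivity), hε]
    nlinarith
  have step : ∀ A : Finset ℝ, (#A : ℝ) ≤ ε * X / l → ∃ u : ℝ, (ε * X ≤ |u| ∧ |u| ≤ X / ε ∧
      Real.exp ((l / 20) ^ 2) ≤ ‖Z (((-(l / 20) : ℝ) : ℂ) + u * I)‖) ∧ ∀ a ∈ A, l ≤ |u - a| := by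
    intro A hA
    by_contra H
    push Not at H
    have iI : ∀ a b : ℝ, Integrable ((Set.Icc a b).indicator fun _ => (1 : ℝ)) := fun a b =>
      (integrable_indicator_iff measurableSet_Icc).2 (integrableOn_const (by simp))
    have eI : ∀ a b : ℝ, a ≤ b → ∫ t, (Set.Icc a b).indicator (fun _ => (1 : ℝ)) t = b - a := by
      intro a b hab
      rw [integral_indicator measurableSet_Icc]
      simp [hab]
    have nI : ∀ a b t : ℝ, 0 ≤ (Set.Icc a b).indicator (fun _ => (1 : ℝ)) t := fun a b t =>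
      Set.indicator_nonneg (fun _ _ => zero_le_one) t
    have j1 := iI (-(2 * ε * X)) (2 * ε * X)
    have j2 : Integrable fun t => ∑ a ∈ A, (Set.Icc (a - 2 * l) (a + 2 * l)).indicator
        (fun _ => (1 : ℝ)) t := integrable_finset_sum _ fun a _ => iI _ _
    have j3 : Integrable fun t : ℝ => 32 * ε ^ 2 * (1 + (t / (X / (2 * ε))) ^ 2)⁻¹ :=
      (integrable_inv_one_add_sq.comp_div hR.ne').const_mul _
    have key := hmom (fun t => (Set.Icc (-(2 * ε * X)) (2 * ε * X)).indicator (fun _ => (1 : ℝ)) t +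
        ∑ a ∈ A, (Set.Icc (a - 2 * l) (a + 2 * l)).indicator (fun _ => (1 : ℝ)) t +
        32 * ε ^ 2 * (1 + (t / (X / (2 * ε))) ^ 2)⁻¹)
      (fun t => add_nonneg (add_nonneg (nI _ _ _) (sum_nonneg fun a _ => nI _ _ _)) (by positivity))
      ((j1.add j2).add j3) (by
        intro t u hu hZ
        have n1 := nI (-(2 * ε * X)) (2 * ε * X) t
        have n2 : 0 ≤ ∑ a ∈ A, (Set.Icc (a - 2 * l) (a + 2 * l)).indicator (fun _ => (1 : ℝ)) t :=
          sum_nonneg fun a _ => nI _ _ _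
        have n3 : 0 ≤ 32 * ε ^ 2 * (1 + (t / (X / (2 * ε))) ^ 2)⁻¹ := by positivity
        have s1 := (hS01 (t / X)).2
        have tri1 : |t| ≤ |u| + |u - t| := by
          have := abs_sub u (u - t)
          rwa [sub_sub_cancel] at this
        have tri2 : |u| ≤ |t| + |u - t| := by
          have := abs_add_le t (u - t)
          rwa [add_sub_cancel] at this
        by_cases c1 : |t| ≤ 2 * ε * X
        · rw [Set.indicator_of_mem (Set.mem_Icc.2 (abs_le.1 c1))]
          linarith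
        by_cases c2 : X / (2 * ε) ≤ |t|
        · have a1 : 1 ≤ (t / (X / (2 * ε))) ^ 2 := by
            rw [← sq_abs, abs_div, abs_of_pos hR]
            exact one_le_pow₀ ((one_le_div hR).2 c2)
          have a2 : (t / (X / (2 * ε))) ^ 2 = 4 * ε ^ 2 * (t / X) ^ 2 := by field_simp; norm_num
          have a3 : S (t / X) ≤ 32 * ε ^ 2 * (1 + (t / (X / (2 * ε))) ^ 2)⁻¹ := by
            rw [← div_eq_mul_inv, le_div_iff₀ (by positivity)]
            have b1 := mul_le_mul_of_nonneg_left (hS4 (t / X)) (by positivity : 0 ≤ 8 * ε ^ 2)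
            have b2 := mul_le_mul_of_nonneg_left a1 (hS01 (t / X)).1
            rw [a2] at b2 ⊢
            nlinarith
          exact a3.trans (le_add_of_nonneg_left (add_nonneg n1 n2))
        push Not at c1 c2
        obtain ⟨a, ha, hua⟩ := H u ⟨by linarith, by linarith, hZ⟩
        have m : t ∈ Set.Icc (a - 2 * l) (a + 2 * l) := by
          have b1 := abs_le.1 hu
          have b2 := abs_lt.1 hua
          constructor <;> linarith [b1.1, b1.2, b2.1, b2.2]
        have := single_le_sum (f := fun a => (Set.Icc (a - 2 * l) (a + 2 * l)).indicator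
          (fun _ => (1 : ℝ)) t) (fun a _ => nI _ _ _) ha
        simp only [Set.indicator_of_mem m] at this
        exact s1.trans (this.trans ((le_add_of_nonneg_left n1).trans (le_add_of_nonneg_right n3))))
    have s1 := integral_add (j1.add j2) j3
    have s2 := integral_add j1 j2
    simp only [Pi.add_apply] at s1 s2
    rw [s1, s2, eI _ _ (by nlinarith), integral_finset_sum _ fun a _ => iI _ _,
      sum_congr rfl fun a _ => eI _ _ (by linarith), integral_const_mul,
      Measure.integral_comp_div (fun y : ℝ => (1 + y ^ 2)⁻¹), integral_univ_inv_one_add_sq,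
      abs_of_pos hR, smul_eq_mul] at key
    have e1 : ∑ a ∈ A, (a + 2 * l - (a - 2 * l)) = #A * (4 * l) := by
      rw [sum_congr rfl fun a _ => (by ring : a + 2 * l - (a - 2 * l) = 4 * l), sum_const,
        nsmul_eq_mul]
    have e2 : 32 * ε ^ 2 * (X / (2 * ε) * Real.pi) = 16 * ε * (Real.pi * X) := by
      field_simp; norm_num
    rw [le_div_iff₀ hl0] at hA
    rw [e1, e2, hε] at key
    rw [hε] at hA
    have p1 := mul_le_mul_of_nonneg_right Real.pi_gt_three.le hX0.le
    nlinarith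
  have ind : ∀ k : ℕ, k ≤ ⌈ε * X / l⌉₊ → ∃ A : Finset ℝ, #A = k ∧
      (∀ τ ∈ A, ε * X ≤ |τ| ∧ |τ| ≤ X / ε ∧
        Real.exp ((l / 20) ^ 2) ≤ ‖Z (((-(l / 20) : ℝ) : ℂ) + τ * I)‖) ∧
      ∀ τ ∈ A, ∀ τ' ∈ A, τ ≠ τ' → l ≤ |τ - τ'| := by
    intro k
    induction k with
    | zero => exact fun _ => ⟨∅, by simp, by simp, by simp⟩
    | succ k ih =>
      intro hk
      obtain ⟨A, h1, h2, h3⟩ := ih (by omega)
      have hk' : (k : ℝ) < ε * X / l := Nat.lt_ceil.1 hk
      obtain ⟨u, hu1, hu2⟩ := step A (by rw [h1]; exact hk'.le)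
      have hn : u ∉ A := fun h => by
        have := hu2 u h
        rw [sub_self, abs_zero] at this
        linarith
      refine ⟨insert u A, by rw [card_insert_of_notMem hn, h1], fun τ hτ => ?_,
        fun τ hτ τ' hτ' hne => ?_⟩
      · rcases mem_insert.1 hτ with rfl | h
        · exact hu1
        · exact h2 τ h
      · rcases mem_insert.1 hτ with rfl | h <;> rcases mem_insert.1 hτ' with rfl | h'
        · exact absurd rfl hne
        · exact hu2 _ h'
        · rw [abs_sub_comm]; exact hu2 _ h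
        · exact h3 _ h _ h' hne
  obtain ⟨A, h1, h2, h3⟩ := ind _ le_rfl
  exact ⟨A, by rw [h1]; exact Nat.le_ceil _, h2, h3⟩

end Pool.Agent.H53.KK
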