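import Pool.Agent.H53.KK1b
import Pool.Agent.H53.KK3
import Pool.Agent.H53.KK5c
import Pool.Agent.H49.KKGam
import Pool.Agent.H49.SelGamma
import Pool.Agent.H52.KKUpp
import Pool.Agent.H97.KK4
import Pool.Agent.H61.SelA

set_option autoImplicit false

namespace Pool.Agent.H53.KK
open Pool.Agent.Lead.KK

theorem apxAll : APX := apx rep zrep (Pool.Agent.H49.KK.gamb Pool.Agent.H49.Sel.g3)

theorem finAll : FIN :=
  fin rep
    (Pool.Agent.H52.KK.low rep zrep apxAll Pool.Agent.H97.KK.zer (prb Pool.Agent.H61.SelA.fj))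
    (Pool.Agent.H52.KK.upp rep zrep apxAll Pool.Agent.H97.KK.jen)

end Pool.Agent.H53.KK
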