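import Mathlib

namespace Pool.Agent.H53.Kara

open Finset

lemma abel (c d : ℕ → ℝ) (a b : ℕ) (hab : a ≤ b) (hc : ∀ i j, a ≤ i → i ≤ j → j < b → c j ≤ c i)
    (hd : ∀ j, a ≤ j → j ≤ b → 0 ≤ ∑ i ∈ Ico a j, d i) (κ : ℝ)
    (hκ : ∀ i, a ≤ i → i < b → κ ≤ c i) : κ * ∑ i ∈ Ico a b, d i ≤ ∑ i ∈ Ico a b, c i * d i := by
  induction b, hab using Nat.le_induction generalizing κ with
  | base => simp
  | succ b hab ih =>
    have h1 := ih (fun i j h1 h2 h3 => hc i j h1 h2 (by omega))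
      (fun j h1 h2 => hd j h1 (by omega)) (c b) (fun i h1 h2 => hc i b h1 h2.le (by omega))
    have h2 := mul_le_mul_of_nonneg_right (hκ b hab (by omega)) (hd (b + 1) (by omega) le_rfl)
    rw [sum_Ico_succ_top hab] at h2 ⊢
    rw [sum_Ico_succ_top hab]
    linarith

/-- twice the second elementary symmetric function -/
noncomputable def Q (f : ℕ → ℝ) (a b : ℕ) : ℝ :=
  (∑ i ∈ Ico a b, f i) ^ 2 - ∑ i ∈ Ico a b, f i ^ 2

lemma T_eq (s : Finset ℕ) (f g : ℕ → ℝ) :
    ∑ i ∈ s, ∑ j ∈ s, (if i = j then 0 else f i * g j) =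
      (∑ i ∈ s, f i) * (∑ i ∈ s, g i) - ∑ i ∈ s, f i * g i := by
  rw [sum_mul_sum, ← sum_sub_distrib]
  refine sum_congr rfl fun i hi => ?_
  have : ∀ j, (if i = j then 0 else f i * g j) = f i * g j - if i = j then f i * g j else 0 := by
    intro j; split_ifs <;> simp
  simp only [this, sum_sub_distrib, sum_ite_eq, hi, if_true]

lemma Q_split (f : ℕ → ℝ) (a l b : ℕ) (h1 : a ≤ l) (h2 : l ≤ b) :
    Q f a b = Q f a l + 2 * (∑ i ∈ Ico a l, f i) * (∑ i ∈ Ico l b, f i) + Q f l b := by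
  unfold Q
  rw [← sum_Ico_consecutive f h1 h2, ← sum_Ico_consecutive (fun i => f i ^ 2) h1 h2]
  ring

lemma Q_nonneg (f : ℕ → ℝ) (a b : ℕ) (h : ∀ i, 0 ≤ f i) : 0 ≤ Q f a b :=
  sub_nonneg.mpr (sum_sq_le_sq_sum_of_nonneg fun i _ => h i)

lemma kara (y u : ℕ → ℝ) (hy : ∀ i, 0 < y i) (hu : ∀ i, 0 < u i) (a b : ℕ) (hab : a < b)
    (ha : ∀ i j, i ≤ j → j < b → y j ≤ y i)
    (hp : ∀ j, a ≤ j → j ≤ b → ∏ i ∈ Ico a j, y i ≤ ∏ i ∈ Ico a j, u i)
    (hs : ∏ i ∈ Ico a b, y i < ∏ i ∈ Ico a b, u i) :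
    ∑ i ∈ Ico a b, y i < ∑ i ∈ Ico a b, u i ∧ Q y a b ≤ Q u a b ∧
      (a + 2 ≤ b → Q y a b < Q u a b) := by
  let d : ℕ → ℝ := fun i => Real.log (u i) - Real.log (y i)
  have hD : ∀ j, ∑ i ∈ Ico a j, d i =
      Real.log (∏ i ∈ Ico a j, u i) - Real.log (∏ i ∈ Ico a j, y i) := by
    intro j
    rw [Real.log_prod (fun i _ => (hu i).ne'), Real.log_prod (fun i _ => (hy i).ne'),
      sum_sub_distrib]
  have hd : ∀ j, a ≤ j → j ≤ b → 0 ≤ ∑ i ∈ Ico a j, d i := by
    intro j h1 h2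
    rw [hD]
    exact sub_nonneg.mpr (Real.log_le_log (prod_pos fun i _ => hy i) (hp j h1 h2))
  have hd' : 0 < ∑ i ∈ Ico a b, d i := by
    rw [hD]
    exact sub_pos.mpr (Real.log_lt_log (prod_pos fun i _ => hy i) hs)
  have he : ∀ i, u i = y i * Real.exp (d i) := by
    intro i
    simp only [d]
    rw [Real.exp_sub, Real.exp_log (hu i), Real.exp_log (hy i)]
    field_simp [(hy i).ne']
  set S := ∑ i ∈ Ico a b, y i with hS
  have hpair : ∀ i j, a ≤ i → i < j → j < b → y i + y j ≤ S := by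
    intro i j h1 h2 h3
    rw [← sum_pair h2.ne]
    refine sum_le_sum_of_subset_of_nonneg ?_ fun k _ _ => (hy k).le
    intro k hk
    simp only [mem_insert, mem_singleton, mem_Ico] at hk ⊢
    omega
  have hc : ∀ i j, a ≤ i → i ≤ j → j < b → y j * (S - y j) ≤ y i * (S - y i) := by
    intro i j h1 h2 h3
    rcases eq_or_lt_of_le h2 with rfl | h
    · exact le_rfl
    · nlinarith [hpair i j h1 h h3, ha i j h2 h3]
  have hQ : Q y a b + 2 * ∑ i ∈ Ico a b, y i * (S - y i) * d i ≤ Q u a b := by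
    have e1 : Q u a b = ∑ i ∈ Ico a b, ∑ j ∈ Ico a b, (if i = j then 0 else u i * u j) := by
      rw [T_eq, Q]; simp only [pow_two]
    have e2 : Q y a b + 2 * ∑ i ∈ Ico a b, y i * (S - y i) * d i =
        ∑ i ∈ Ico a b, ∑ j ∈ Ico a b, ((if i = j then 0 else y i * y j) +
          (if i = j then 0 else (y i * d i) * y j) + (if i = j then 0 else y i * (y j * d j))) := by
      simp only [sum_add_distrib]
      rw [T_eq, T_eq, T_eq (Ico a b) y (fun j => y j * d j), Q, ← hS]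
      have : ∑ i ∈ Ico a b, y i * (S - y i) * d i =
          (∑ i ∈ Ico a b, y i * d i) * S - ∑ i ∈ Ico a b, y i * d i * y i := by
        rw [sum_mul, ← sum_sub_distrib]
        exact sum_congr rfl fun i _ => by ring
      have e3 : ∑ i ∈ Ico a b, y i * (y i * d i) = ∑ i ∈ Ico a b, y i * d i * y i :=
        sum_congr rfl fun i _ => by ring
      rw [this, e3]
      simp only [pow_two]
      ring
    rw [e1, e2]
    refine sum_le_sum fun i _ => sum_le_sum fun j _ => ?_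
    split_ifs
    · simp
    · have h1 := Real.add_one_le_exp (d i + d j)
      rw [Real.exp_add] at h1
      rw [he i, he j]
      nlinarith [mul_pos (hy i) (hy j)]
  have hb : a ≤ b - 1 := by omega
  have h3 := abel (fun i => y i * (S - y i)) d a b hab.le hc hd (y (b - 1) * (S - y (b - 1)))
    (fun i h1 h2 => hc i (b - 1) h1 (by omega) (by omega))
  refine ⟨?_, ?_, fun h => ?_⟩
  · have h1 := abel y d a b hab.le (fun i j _ h2 h3 => ha i j h2 h3) hd (y (b - 1))
      (fun i h1 h2 => ha i (b - 1) (by omega) (by omega))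
    have h2 : S + ∑ i ∈ Ico a b, y i * d i ≤ ∑ i ∈ Ico a b, u i := by
      rw [hS, ← sum_add_distrib]
      refine sum_le_sum fun i _ => ?_
      rw [he i]
      nlinarith [Real.add_one_le_exp (d i), hy i]
    nlinarith [mul_pos (hy (b - 1)) hd']
  · have : y (b - 1) ≤ S := single_le_sum (f := y) (fun i _ => (hy i).le) (mem_Ico.mpr ⟨hb, by omega⟩)
    nlinarith [mul_nonneg (mul_nonneg (hy (b - 1)).le (sub_nonneg.mpr this)) hd'.le]
  · have := hpair a (b - 1) le_rfl (by omega) (by omega)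
    have h4 : 0 < S - y (b - 1) := by linarith [hy a]
    nlinarith [mul_pos (mul_pos (hy (b - 1)) h4) hd']

lemma split (y u : ℕ → ℝ) (hy : ∀ i, 0 < y i) (hu : ∀ i, 0 < u i) (b : ℕ)
    (ha : ∀ i j, i ≤ j → j < b → y j ≤ y i)
    (hs : ∏ i ∈ Ico 0 b, y i < ∏ i ∈ Ico 0 b, u i) :
    ∃ l < b, ∑ i ∈ Ico l b, y i < ∑ i ∈ Ico l b, u i ∧ Q y l b ≤ Q u l b ∧
      (l + 2 ≤ b → Q y l b < Q u l b) := by
  classical
  let p : ℕ → Prop := fun l => ∏ i ∈ Ico l b, y i < ∏ i ∈ Ico l b, u i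
  have h1 : p (Nat.findGreatest p b) := Nat.findGreatest_spec (Nat.zero_le b) hs
  set l := Nat.findGreatest p b with hl
  have h2 : l ≤ b := Nat.findGreatest_le b
  have h3 : l < b := by
    rcases eq_or_lt_of_le h2 with h | h
    · rw [h] at h1; simp [p] at h1
    · exact h
  refine ⟨l, h3, kara y u hy hu l b h3 ha (fun j a1 a2 => ?_) h1⟩
  rcases eq_or_lt_of_le a1 with rfl | h
  · simp
  · have h4 : ¬ p j := Nat.findGreatest_is_greatest h a2
    simp only [p, not_lt] at h4 h1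
    rw [← prod_Ico_consecutive y a1 a2, ← prod_Ico_consecutive u a1 a2] at h1
    by_contra hc
    push Not at hc
    have := mul_le_mul hc.le h4 (prod_pos fun i _ => hu i).le (prod_pos fun i _ => hy i).le
    linarith

end Pool.Agent.H53.Kara
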