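import Mathlib

open Finset Real MeasureTheory ProbabilityTheory

namespace Pool.Agent.H53.Kh

/-- Bernoulli weight -/
def wt (p : ℝ) (b : Bool) : ℝ := if b then p else 1 - p

/-- indicator -/
def ind (b : Bool) : ℝ := if b then 1 else 0

variable {ι : Type*} [Fintype ι] [DecidableEq ι]

lemma sumQ (q : ι → ℝ) : ∑ s : ι → Bool, ∏ i, wt (q i) (s i) = 1 := by
  rw [← Fintype.prod_sum fun i b => wt (q i) b]; simp [wt]

lemma var (q : ι → ℝ) (hq : ∀ i, 0 ≤ q i ∧ q i ≤ 1) (I : Finset ι) :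
    ∑ s : ι → Bool, (∏ i, wt (q i) (s i)) * (∑ i ∈ I, (ind (s i) - q i)) ^ 2 ≤ I.card := by
  simp only [sq, sum_mul_sum]
  simp only [mul_sum]
  rw [sum_comm]
  refine (sum_le_card_nsmul _ _ 1 fun i hi => ?_).trans (by simp)
  have k : ∀ j, ∑ s : ι → Bool, (∏ i, wt (q i) (s i)) * ((ind (s i) - q i) * (ind (s j) - q j)) =
      ∏ k, ∑ b, wt (q k) b * ((if k = i then ind b - q k else 1) * (if k = j then ind b - q k else 1)) := fun j => by
    rw [Fintype.prod_sum]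
    simp only [prod_mul_distrib, prod_ite_eq', mem_univ, if_true]
  rw [sum_comm, sum_congr rfl fun j _ => k j, sum_eq_single_of_mem i hi fun j _ hj =>
    prod_eq_zero (mem_univ i) (by simp [hj.symm, wt, ind]; ring)]
  refine prod_le_one (fun k _ => ?_) fun k _ => ?_ <;> by_cases h : k = i <;> simp [h, wt, ind] <;>
    nlinarith [hq i, mul_nonneg (hq i).1 (sub_nonneg.2 (hq i).2)]

lemma tilt (p : ℝ) (p0 : 0 < p) (p1 : p < 1) (d : ι → ℝ) (hd : ∀ i, 0 ≤ d i ∧ d i ≤ 1 - p) (Z : (ι → Bool) → ℝ)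
    (Z0 : ∀ s, 0 ≤ Z s) (θ C : ℝ) (θ0 : 0 < θ) (hZ : ∑ s : ι → Bool, (∏ i, wt (p + d i) (s i)) * Z s ≤ θ / 2)
    (hC : ∑ i, d i ^ 2 ≤ C) :
    1 / 4 * exp (-(C / (p * (1 - p)))) ≤ ∑ s ∈ univ.filter (fun s => Z s < θ), ∏ i, wt p (s i) := by
  have w0 : ∀ s : ι → Bool, 0 < ∏ i, wt p (s i) := fun s => prod_pos fun i _ => by unfold wt; split_ifs <;> linarith
  have q0 : ∀ s : ι → Bool, 0 ≤ ∏ i, wt (p + d i) (s i) := fun s => prod_nonneg fun i _ => by
    unfold wt; split_ifs <;> linarith [hd i]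
  have a1 : 1 / 2 ≤ ∑ s ∈ univ.filter (fun s => Z s < θ), ∏ i, wt (p + d i) (s i) := by
    have b1 := sum_filter_add_sum_filter_not univ (fun s => Z s < θ) fun s : ι → Bool => ∏ i, wt (p + d i) (s i)
    have b2 := (sum_le_sum (f := fun s => (∏ i, wt (p + d i) (s i)) * θ) fun s hs => mul_le_mul_of_nonneg_left
      (not_lt.1 (mem_filter.1 hs).2) (q0 s)).trans ((sum_le_sum_of_subset_of_nonneg
      (filter_subset (fun s => ¬ Z s < θ) univ) fun s _ _ => mul_nonneg (q0 s) (Z0 s)).trans hZ)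
    rw [sumQ] at b1
    rw [← sum_mul] at b2
    nlinarith
  have a2 := (sq_sum_div_le_sum_sq_div _ (fun s : ι → Bool => ∏ i, wt (p + d i) (s i)) fun s _ => w0 s).trans
    (sum_le_sum_of_subset_of_nonneg (filter_subset (fun s => Z s < θ) univ) fun s _ _ => div_nonneg (sq_nonneg _) (w0 s).le)
  have a3 : ∑ s : ι → Bool, (∏ i, wt (p + d i) (s i)) ^ 2 / ∏ i, wt p (s i) ≤ exp (C / (p * (1 - p))) := by
    have p2 : 0 < 1 - p := by linarith
    simp only [← prod_pow, ← prod_div_distrib]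
    rw [← Fintype.prod_sum fun i b => wt (p + d i) b ^ 2 / wt p b]
    refine (prod_le_prod (g := fun i => exp (d i ^ 2 / (p * (1 - p)))) (fun i _ => by simp [wt]; positivity)
      fun i _ => le_of_eq_of_le ?_ (add_one_le_exp _)).trans ?_
    · simp only [Fintype.sum_bool, wt, if_true, Bool.false_eq_true, if_false]; field_simp; ring
    · rw [← exp_sum, ← sum_div]; gcongr
  have s0 := sum_nonneg (s := univ.filter (fun s => Z s < θ)) fun s _ => (w0 s).le
  rcases s0.eq_or_lt with h | h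
  · obtain ⟨s, hs⟩ := nonempty_of_sum_ne_zero (ne_of_gt (lt_of_lt_of_le (by norm_num) a1))
    exact absurd h (sum_pos (fun s _ => w0 s) ⟨s, hs⟩).ne
  · have := a2.trans a3
    rw [div_le_iff₀ h] at this
    rw [exp_neg, ← div_eq_mul_inv, div_le_iff₀ (exp_pos _)]
    nlinarith

/-- extension by `false` -/
def ext (S : Finset ℕ) (s : S → Bool) (i : ℕ) : Bool := if h : i ∈ S then s ⟨i, h⟩ else false

/-- the path visits all windows -/
def Good (p : ℝ) (K k : ℕ) (x : ℕ → Bool) : Prop := ∃ w T : ℕ, 1 ≤ w ∧ k ≤ T ∧ ∀ j < K, (2 ^ j * T / 2 : ℝ) ≤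
  ((range (2 ^ (j + 1) * T)).filter fun n => |∑ i ∈ range (n + 1), (ind (x i) - p) - j * w| ≤ 3 * w).card

lemma stage (p : ℝ) (p0 : 0 < p) (p1 : p < 1) (K k T0 : ℕ) : ∃ T1, T0 ≤ T1 ∧ ∃ A : Finset (Ico T0 T1 → Bool),
    1 / 4 * exp (-(16 * 8 ^ K / (p * (1 - p)))) ≤ ∑ s ∈ A, ∏ i, wt p (s i) ∧
      ∀ x : ℕ → Bool, (fun i : Ico T0 T1 => x i) ∈ A → Good p K k x := by
  obtain ⟨m0, hm0⟩ := exists_nat_ge (4 * 2 ^ K / (1 - p))
  set m := m0 + T0 + k + 1 with hm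
  have m1 : (1:ℝ) ≤ m := by exact_mod_cast (by omega : 1 ≤ m)
  have m2 : 4 * 2 ^ K ≤ (1 - p) * m := by
    rw [div_le_iff₀' (by linarith)] at hm0
    exact hm0.trans (mul_le_mul_of_nonneg_left (by exact_mod_cast (by omega : m0 ≤ m)) (by linarith))
  have K1 : (1:ℝ) ≤ 2 ^ K := one_le_pow₀ (by norm_num)
  have K2 : 1 ≤ 2 ^ K := Nat.one_le_two_pow
  have m3 : m ≤ m ^ 2 := Nat.le_self_pow (by norm_num) _
  set w : ℝ := 2 * 2 ^ K * m with hw
  have w0 : 0 < w := by positivity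
  have l2 : 1 / 2 < log 2 := by linarith [log_two_gt_d9]
  set g : ℕ → ℝ := fun n => w * logb 2 (max (n:ℝ) (m ^ 2) / m ^ 2) with hg
  have mp : ∀ n : ℕ, (0:ℝ) < max (n:ℝ) (m ^ 2) := fun n => lt_max_of_lt_right (by positivity)
  have hd : ∀ i, 0 ≤ g (i + 1) - g i ∧ g (i + 1) - g i ≤ 4 * 2 ^ K / m := fun i => by
    have e : g (i + 1) - g i = w * (log (max ((i + 1 : ℕ) : ℝ) (m ^ 2) / max (i:ℝ) (m ^ 2)) / log 2) := by
      simp only [hg, logb]
      rw [log_div (mp _).ne' (by positivity), log_div (mp _).ne' (by positivity), log_div (mp _).ne' (mp _).ne']; ring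
    have b1 : max (i:ℝ) (m ^ 2) ≤ max ((i + 1 : ℕ) : ℝ) (m ^ 2) := max_le_max_right _ (by simp)
    have b2 : max ((i + 1 : ℕ) : ℝ) (m ^ 2) / max (i:ℝ) (m ^ 2) - 1 ≤ 1 / m ^ 2 := by
      rw [div_sub_one (mp _).ne']
      gcongr
      · push_cast; rw [sub_le_iff_le_add', max_le_iff]
        constructor <;> linarith [le_max_left (i:ℝ) (m ^ 2), le_max_right (i:ℝ) (m ^ 2)]
      · exact le_max_right _ _
    have b3 := (log_le_sub_one_of_pos (div_pos (mp _) (mp _))).trans b2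
    have b4 := log_nonneg ((one_le_div (mp i)).2 b1)
    rw [e]
    refine ⟨by positivity, (mul_le_mul_of_nonneg_left (div_le_div₀ (by positivity) b3 (by norm_num) l2.le) w0.le).trans_eq ?_⟩
    rw [hw]; field_simp; ring
  set V : (Ico T0 (2 ^ K * m ^ 2) → Bool) → ℕ → ℝ := fun s n =>
    ∑ i ∈ univ.filter (fun i : Ico T0 (2 ^ K * m ^ 2) => i.1 < n + 1), (ind (s i) - (p + (g (i + 1) - g i))) with hV
  have d1 : ∀ i, g (i + 1) - g i ≤ 1 - p := fun i => (hd i).2.trans (by rwa [div_le_iff₀ (by positivity)])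
  have cI : (Fintype.card (Ico T0 (2 ^ K * m ^ 2)) : ℝ) ≤ 2 ^ K * m ^ 2 := by
    rw [Fintype.card_coe, Nat.card_Ico]; exact_mod_cast Nat.sub_le _ _
  refine ⟨2 ^ K * m ^ 2, by nlinarith, _, tilt p p0 p1 (fun i : Ico T0 (2 ^ K * m ^ 2) => g (i + 1) - g i) (fun i => ⟨(hd i).1, d1 i⟩)
    (fun s => ∑ n ∈ range (2 ^ K * m ^ 2), V s n ^ 2) (fun s => by positivity) (m ^ 2 * w ^ 2 / 2) _ (by positivity)
    ?_ ?_, fun x hx => ⟨2 * 2 ^ K * m, m ^ 2, by nlinarith, by omega, fun j hj => ?_⟩⟩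
  · simp only [mul_sum]
    rw [sum_comm]
    refine (sum_le_card_nsmul _ _ (2 ^ K * m ^ 2 : ℝ) fun n _ => (var _ (fun i => ⟨by linarith [(hd i).1],
      by linarith [d1 i]⟩) _).trans ((Nat.cast_le.2 (card_le_univ _)).trans cI)).trans_eq ?_
    rw [card_range, nsmul_eq_mul, hw]; push_cast; ring
  · refine (sum_le_card_nsmul _ _ ((4 * 2 ^ K / m) ^ 2 : ℝ) fun (i : Ico T0 (2 ^ K * m ^ 2)) _ =>
      pow_le_pow_left₀ (hd i).1 (hd i).2 2).trans ?_
    rw [nsmul_eq_mul, card_univ]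
    refine (mul_le_mul_of_nonneg_right cI (by positivity)).trans_eq ?_
    rw [show (8:ℝ) = 2 * 2 * 2 by norm_num, mul_pow, mul_pow]; field_simp; ring
  have hx' := (mem_filter.1 hx).2
  set B := (range (2 ^ K * m ^ 2)).filter fun n => w < |V (fun i => x i) n|
  have c1 : (B.card : ℝ) ≤ m ^ 2 / 2 := by
    have := (card_nsmul_le_sum B _ (w ^ 2) fun n hn => (sq_le_sq.2 (by
      rw [abs_of_pos w0]; exact (mem_filter.1 hn).2.le))).trans ((sum_le_sum_of_subset_of_nonneg (filter_subset _ _)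
      fun n _ _ => sq_nonneg _).trans hx'.le)
    rw [nsmul_eq_mul] at this
    exact le_of_mul_le_mul_right (by linarith) (pow_pos w0 2)
  have j1 : 2 ^ (j + 1) * m ^ 2 ≤ 2 ^ K * m ^ 2 := Nat.mul_le_mul_right _ (Nat.pow_le_pow_right (by norm_num) hj)
  have j2 : m ^ 2 ≤ 2 ^ j * m ^ 2 := Nat.le_mul_of_pos_left _ (by positivity)
  have c2 : Ico (2 ^ j * m ^ 2) (2 ^ (j + 1) * m ^ 2) ⊆ B ∪ (range (2 ^ (j + 1) * m ^ 2)).filter fun n =>
      |∑ i ∈ range (n + 1), (ind (x i) - p) - j * (2 * 2 ^ K * m : ℕ)| ≤ 3 * (2 * 2 ^ K * m : ℕ) := fun n hn => by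
    obtain ⟨n1, n2⟩ := mem_Ico.1 hn
    by_cases h : w < |V (fun i => x i) n|
    · exact mem_union_left _ (mem_filter.2 ⟨mem_range.2 (by omega), h⟩)
    refine mem_union_right _ (mem_filter.2 ⟨mem_range.2 n2, ?_⟩)
    have e1 : V (fun i => x i) n = ∑ i ∈ Ico T0 (n + 1), (ind (x i) - p) - g (n + 1) := by
      rw [hV]
      simp only [sum_filter]
      rw [sum_coe_sort (Ico T0 (2 ^ K * m ^ 2)) fun i => if i < n + 1 then ind (x i) - (p + (g (i + 1) - g i)) else 0,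
        ← sum_filter, show (Ico T0 (2 ^ K * m ^ 2)).filter (· < n + 1) = Ico T0 (n + 1) by
          ext i; simp only [mem_filter, mem_Ico]; omega]
      simp only [← sub_sub]
      rw [sum_sub_distrib, sum_Ico_sub g (by omega), show g T0 = 0 by
        simp only [hg]
        rw [max_eq_right (by exact_mod_cast (by omega : T0 ≤ m ^ 2)), div_self (by positivity), logb_one, mul_zero], sub_zero]
    have e2 : |∑ i ∈ range T0, (ind (x i) - p)| ≤ w := (abs_sum_le_sum_abs _ _).trans ((sum_le_card_nsmul _ _ 1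
      fun i _ => by unfold ind; split_ifs <;> exact abs_le.2 ⟨by linarith, by linarith⟩).trans (by
        have : (T0:ℝ) ≤ m := by exact_mod_cast (by omega : T0 ≤ m)
        rw [card_range, nsmul_eq_mul]; nlinarith))
    have e3 : (j:ℝ) ≤ logb 2 (max ((n + 1 : ℕ) : ℝ) (m ^ 2) / m ^ 2) ∧
        logb 2 (max ((n + 1 : ℕ) : ℝ) (m ^ 2) / m ^ 2) ≤ (j + 1 : ℕ) := by
      rw [le_logb_iff_rpow_le (by norm_num) (div_pos (mp _) (by positivity)), logb_le_iff_le_rpow (by norm_num)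
        (div_pos (mp _) (by positivity)), rpow_natCast, rpow_natCast, le_div_iff₀ (by positivity),
        div_le_iff₀ (by positivity), max_eq_left (by exact_mod_cast (by omega : m ^ 2 ≤ n + 1))]
      exact ⟨by exact_mod_cast (by omega), by exact_mod_cast (by omega)⟩
    have e4 := mul_le_mul_of_nonneg_left e3.1 w0.le
    have e5 := mul_le_mul_of_nonneg_left e3.2 w0.le
    rw [e1, not_lt, abs_le] at h
    rw [← sum_range_add_sum_Ico _ (show T0 ≤ n + 1 by omega)]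
    rw [abs_le] at e2 ⊢
    simp only [hg] at h
    push_cast at e4 e5 h ⊢
    constructor <;> linarith [h.1, h.2, e2.1, e2.2]
  have c3 := (Nat.cast_le (α := ℝ)).2 ((card_le_card c2).trans (card_union_le _ _))
  rw [Nat.card_Ico, show 2 ^ (j + 1) * m ^ 2 - 2 ^ j * m ^ 2 = 2 ^ j * m ^ 2 by
    rw [pow_succ 2, mul_right_comm]; omega] at c3
  have j3 : (m:ℝ) ^ 2 ≤ 2 ^ j * m ^ 2 := by exact_mod_cast j2
  push_cast at c3 ⊢
  linarith

end Pool.Agent.H53.Kh
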