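import Mathlib
import Pool.Agent.H53.KhA

open Finset Real MeasureTheory ProbabilityTheory Filter Topology

namespace Pool.Agent.H53.Kh

variable {Ω : Type*} [MeasurableSpace Ω] {P : Measure Ω} [IsProbabilityMeasure P] {X : ℕ → Ω → Bool} {p : ℝ}

lemma prob (mX : ∀ i, Measurable (X i)) (hX : iIndepFun X P) (hp : ∀ i, P.real (X i ⁻¹' {true}) = p) (S : Finset ℕ)
    (A : Finset (S → Bool)) : P.real ((fun a (i : S) => X i a) ⁻¹' A) = ∑ s ∈ A, ∏ i, wt p (s i) := by
  have k : ∀ i b, P.real (X i ⁻¹' {b}) = wt p b := fun i b => by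
    cases b
    · rw [show X i ⁻¹' {false} = (X i ⁻¹' {true})ᶜ by ext; simp, probReal_compl_eq_one_sub (mX i .of_discrete), hp]; rfl
    · exact hp i
  rw [← sum_measureReal_preimage_singleton A fun s _ =>
    measurable_pi_lambda (fun a (i : S) => X i a) (fun i => mX i) .of_discrete]
  refine sum_congr rfl fun s _ => ?_
  rw [show (fun a (i : S) => X i a) ⁻¹' {s} = ⋂ i ∈ S, X i ⁻¹' {ext S s i} by
    ext a
    simp only [Set.mem_preimage, Set.mem_singleton_iff, Set.mem_iInter, funext_iff, Subtype.forall]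
    exact forall₂_congr fun i hi => by rw [ext, dif_pos hi], Measure.real,
    hX.measure_inter_preimage_eq_mul S fun _ _ => .of_discrete, ENNReal.toReal_prod, ← prod_coe_sort]
  exact prod_congr rfl fun i _ => by rw [← k i, ext, dif_pos i.2]; rfl

lemma ae_good (mX : ∀ i, Measurable (X i)) (hX : iIndepFun X P) (hp : ∀ i, P.real (X i ⁻¹' {true}) = p)
    (p0 : 0 < p) (p1 : p < 1) (K k : ℕ) : ∀ᵐ a ∂P, Good p K k fun i => X i a := by
  set c := 1 / 4 * exp (-(16 * 8 ^ K / (p * (1 - p))))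
  have c0 : 0 < c := by positivity
  have c1 : c ≤ 1 := by
    have : exp (-(16 * 8 ^ K / (p * (1 - p)))) ≤ 1 :=
      exp_le_one_iff.2 (neg_nonpos.2 (div_nonneg (by positivity) (mul_nonneg p0.le (by linarith))))
    simp only [c]; linarith
  have : ∀ m : ℕ, ∃ T0, ∃ H : Set (range T0 → Bool), P.real ((fun a (i : range T0) => X i a) ⁻¹' H) ≤ (1 - c) ^ m ∧
      ∀ x : ℕ → Bool, (fun i : range T0 => x i) ∉ H → Good p K k x := fun m => by
    induction m with
    | zero => exact ⟨0, Set.univ, by simp, fun x h => absurd (Set.mem_univ _) h⟩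
    | succ m ih =>
      obtain ⟨T0, H, h1, h2⟩ := ih
      obtain ⟨T1, a1, A, a2, a3⟩ := stage p p0 p1 K k T0
      refine ⟨T1, {s | (fun i : range T0 => s ⟨i, range_mono a1 i.2⟩) ∈ H ∧
        (fun i : Ico T0 T1 => s ⟨i, mem_range.2 (mem_Ico.1 i.2).2⟩) ∉ A}, ?_, fun x hx => ?_⟩
      · have b1 := (hX.indepFun_finset (range T0) (Ico T0 T1) (disjoint_left.2 fun i h h' => by
          simp only [mem_range, mem_Ico] at h h'; omega) mX).measure_inter_preimage_eq_mul H (A : Set _)ᶜ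
          .of_discrete .of_discrete
        have b2 := congrArg ENNReal.toReal b1
        rw [ENNReal.toReal_mul, ← Measure.real, ← Measure.real, ← Measure.real, Set.preimage_compl,
          probReal_compl_eq_one_sub (measurable_pi_lambda (fun a (i : Ico T0 T1) => X i a) (fun i => mX i) .of_discrete),
          prob mX hX hp] at b2
        refine le_of_eq_of_le b2 ?_
        rw [pow_succ]
        exact (mul_le_mul_of_nonneg_left (sub_le_sub_left a2 1) measureReal_nonneg).trans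
          (mul_le_mul_of_nonneg_right h1 (sub_nonneg.2 c1))
      · by_cases h : (fun i : range T0 => x i) ∈ H
        · exact a3 x (not_not.1 fun h' => hx ⟨h, h'⟩)
        · exact h2 x h
  rw [ae_iff, ← measureReal_eq_zero_iff]
  refine le_antisymm (ge_of_tendsto' (tendsto_pow_atTop_nhds_zero_of_lt_one (r := 1 - c) (by linarith) (by linarith))
    fun m => ?_) measureReal_nonneg
  obtain ⟨T0, H, h1, h2⟩ := this m
  exact le_trans (measureReal_mono fun a ha => not_not.1 fun h => ha (h2 _ h)) h1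

lemma avg {ι : Type*} (Λ : Finset ι) (hΛ : Λ.Nonempty) (t : ι → ℕ) (t0 : ∀ i, 0 < t i) (ht : Set.InjOn t Λ) :
    ∃ B : Set UnitAddCircle, MeasurableSet B ∧ volume.real B = 1 / Λ.card ∧
      1 / 2 ≤ volume.real (⋃ i ∈ Λ, (fun z => t i • z) ⁻¹' B) := by
  classical
  haveI : IsProbabilityMeasure (volume : Measure UnitAddCircle) := ⟨UnitAddCircle.measure_univ⟩
  have n1 : (1:ℝ) ≤ Λ.card := by exact_mod_cast hΛ.card_pos
  set β : ℝ := 1 / Λ.card with hβ
  have vb : ∀ y : UnitAddCircle, volume.real (Metric.closedBall y (β / 2)) = β := fun y => by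
    rw [Measure.real, AddCircle.volume_closedBall, mul_div_cancel₀ _ two_ne_zero,
      min_eq_right ((div_le_one (by positivity)).2 n1), ENNReal.toReal_ofReal (by positivity)]
  set φ : UnitAddCircle → ℝ := (Metric.closedBall 0 (β / 2)).indicator 1 with hφ
  have φm : Measurable φ := measurable_one.indicator measurableSet_closedBall
  have φb : ∀ z, φ z = 0 ∨ φ z = 1 := fun z => by
    by_cases h : z ∈ Metric.closedBall 0 (β / 2) <;> simp [hφ, h]
  have φi : ∫ z, φ z = β := by rw [hφ, integral_indicator_one measurableSet_closedBall, vb]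
  have I2 : ∀ u v : UnitAddCircle × UnitAddCircle → UnitAddCircle, Continuous u → Continuous v →
      Integrable (fun q => φ (u q) * φ (v q)) (volume.prod volume) := fun u v hu hv =>
    .of_bound ((φm.comp hu.measurable).mul (φm.comp hv.measurable)).aestronglyMeasurable 1 (.of_forall fun q => by
      rcases φb (u q) with h | h <;> rcases φb (v q) with h' | h' <;> simp [h, h'])
  have sq : ∀ z, φ z * φ z = φ z := fun z => by rcases φb z with h | h <;> simp [h]
  have e1 : ∀ i j, ∫ q : UnitAddCircle × UnitAddCircle, φ (t i • q.2 - q.1) * φ (t j • q.2 - q.1) ∂(volume.prod volume) =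
      if t i = t j then β else β ^ 2 := fun i j => by
    rw [integral_prod_symm _ (I2 _ _ (by fun_prop) (by fun_prop))]
    have : ∀ x : UnitAddCircle, ∫ y, φ (t i • x - y) * φ (t j • x - y) = ∫ y, φ y * φ (((t j : ℤ) - t i) • x + y) := fun x => by
      rw [← integral_sub_left_eq_self (fun y => φ y * φ (((t j : ℤ) - t i) • x + y)) volume (t i • x)]
      simp only [sub_smul, natCast_zsmul, sub_add_sub_cancel]
    simp only [this]
    split_ifs with h
    · simp [h, sq, φi]
    · rw [integral_integral_swap (I2 _ _ (by fun_prop) (by fun_prop))]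
      have : ∀ y, ∫ x : UnitAddCircle, φ (((t j : ℤ) - t i) • x + y) = β := fun y => by
        rw [← φi, ← integral_add_right_eq_self φ y]
        conv_rhs => rw [← (Measure.measurePreserving_zsmul volume (n := (t j : ℤ) - t i) (by omega)).map_eq]
        exact (integral_map (f := fun x => φ (x + y)) (by fun_prop) (φm.comp (measurable_add_const y)).aestronglyMeasurable).symm
      simp only [integral_const_mul, this, integral_mul_const, φi, pow_two]
  set F : UnitAddCircle × UnitAddCircle → ℝ := fun q => ∑ i ∈ Λ, φ (t i • q.2 - q.1) * φ (t i • q.2 - q.1) -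
    1 / 4 * ∑ i ∈ Λ, ∑ j ∈ Λ, φ (t i • q.2 - q.1) * φ (t j • q.2 - q.1) with hF
  have i1 := integrable_finsetSum Λ fun i _ => I2 (fun q => t i • q.2 - q.1) (fun q => t i • q.2 - q.1) (by fun_prop) (by fun_prop)
  have i3 := fun i => integrable_finsetSum Λ fun j _ => I2 (fun q => t i • q.2 - q.1) (fun q => t j • q.2 - q.1)
    (by fun_prop) (by fun_prop)
  have i2 := integrable_finsetSum Λ fun i _ => i3 i
  have FI : Integrable F (volume.prod volume) := i1.sub (i2.const_mul _)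
  have e2 : 1 / 2 ≤ ∫ q, F q ∂(volume.prod volume) := by
    rw [integral_sub i1 (i2.const_mul _), integral_const_mul, integral_finsetSum _ fun i _ => I2 _ _ (by fun_prop) (by fun_prop),
      integral_finsetSum _ fun i _ => i3 i, sum_congr rfl fun i _ => integral_finsetSum Λ fun j _ =>
      I2 (fun q => t i • q.2 - q.1) (fun q => t j • q.2 - q.1) (by fun_prop) (by fun_prop)]
    simp only [e1, if_true, sum_const, nsmul_eq_mul]
    have := sum_le_card_nsmul Λ (fun i => ∑ j ∈ Λ, if t i = t j then β else β ^ 2) (β + Λ.card * β ^ 2) fun i hi => by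
      refine (sum_le_sum (g := fun j => (if i = j then β else 0) + β ^ 2) fun j hj => ?_).trans_eq (by
        rw [sum_add_distrib, sum_ite_eq, if_pos hi, sum_const, nsmul_eq_mul])
      by_cases h : i = j
      · simp [h]; positivity
      · rw [if_neg fun e => h (ht hi hj e), if_neg h, zero_add]
    have e : Λ.card * β = 1 := by rw [hβ]; field_simp
    rw [nsmul_eq_mul] at this
    nlinarith
  obtain ⟨y, hy⟩ := exists_integral_le FI.integral_prod_left
  rw [← integral_prod _ FI] at hy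
  have ms : MeasurableSet (⋃ i ∈ Λ, (fun z : UnitAddCircle => t i • z) ⁻¹' Metric.closedBall y (β / 2)) :=
    Λ.measurableSet_biUnion fun i _ => (continuous_nsmul _).measurable measurableSet_closedBall
  refine ⟨_, measurableSet_closedBall, vb y, (e2.trans hy).trans ?_⟩
  rw [← integral_indicator_one ms]
  by_cases hi : Integrable (fun x => F (y, x))
  · refine integral_mono hi ((integrable_const 1).indicator ms) fun x => ?_
    simp only [hF, ← sum_mul_sum, sq]
    by_cases h : x ∈ ⋃ i ∈ Λ, (fun z : UnitAddCircle => t i • z) ⁻¹' Metric.closedBall y (β / 2)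
    · rw [Set.indicator_of_mem h, Pi.one_apply]
      nlinarith [sq_nonneg (∑ i ∈ Λ, φ (t i • x - y) - 2)]
    · rw [Set.indicator_of_notMem h, sum_eq_zero fun i hi => Set.indicator_of_notMem (fun h' => h (Set.mem_biUnion hi
        (by simpa [dist_eq_norm] using h'))) _]
      simp
  · rw [integral_undef hi]
    exact integral_nonneg fun x => Set.indicator_nonneg (fun _ _ => zero_le_one) _

lemma path (x : ℕ → Bool) (n : ℕ) : ∃ a ≤ n, ∏ i ∈ range n, (if x i then 2 else 3) = 2 ^ a * 3 ^ (n - a) ∧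
    ∑ i ∈ range n, ind (x i) = a := by
  induction n with
  | zero => exact ⟨0, le_rfl, by simp⟩
  | succ n ih =>
    obtain ⟨a, h1, h2, h3⟩ := ih
    rw [prod_range_succ, sum_range_succ, h2, h3]
    cases x n
    · exact ⟨a, by omega, by rw [Nat.sub_add_comm h1, pow_succ, mul_assoc]; rfl, by simp [ind]⟩
    · exact ⟨a + 1, by omega, by rw [Nat.add_sub_add_right, pow_succ, mul_right_comm]; rfl, by simp [ind]⟩

lemma inj23 {a b c d : ℕ} (h : 2 ^ a * 3 ^ b = 2 ^ c * 3 ^ d) : a = c ∧ b = d := by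
  have h1 := congrArg (Nat.factorization · 2) h
  have h2 := congrArg (Nat.factorization · 3) h
  simp [Nat.factorization_mul, Nat.prime_two.factorization, Nat.prime_three.factorization] at h1 h2
  exact ⟨h1, h2⟩

lemma sweepB (p0 : 0 < p) (p1 : p < 1) (K k : ℕ) (hK : 1 ≤ K) (x : ℕ → Bool) (hx : Good p K k x) :
    ∃ E : Set UnitAddCircle, MeasurableSet E ∧ volume.real E ≤ 22 / K ∧ ∃ G : Set UnitAddCircle, MeasurableSet G ∧
      1 / 2 ≤ volume.real G ∧ ∃ M, ∀ z ∈ G, ∃ N ≥ k, N ≤ M ∧ (N / 4 : ℝ) ≤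
        ∑ n ∈ range N, E.indicator 1 ((∏ i ∈ range (n + 1), if x i then 2 else 3) • z) := by
  classical
  obtain ⟨w, T, w1, hT, h⟩ := hx
  obtain ⟨L, hL⟩ := exists_nat_ge ((2 ^ K * T + K * w + 1 : ℕ) / (p * (1 - p)))
  have p2 : 0 < p * (1 - p) := mul_pos p0 (by linarith)
  rw [div_le_iff₀ p2] at hL
  have L0 : (0:ℝ) < L := (pos_iff_pos_of_mul_pos (lt_of_lt_of_le (by positivity) hL)).2 p2
  have L1 : 0 < L := by exact_mod_cast L0
  have fl : ∀ n, L ≤ n → 2 ^ K * T ≤ ⌊p * n⌋₊ ∧ ⌊p * n⌋₊ + K * w + 2 ^ K * T ≤ n := fun n hn => by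
    have a1 : (L:ℝ) ≤ n := by exact_mod_cast hn
    have a2 := Nat.floor_le (show 0 ≤ p * n by positivity)
    have a3 := Nat.lt_floor_add_one (p * n)
    have a4 : (0:ℝ) ≤ K * w := by positivity
    push_cast at hL
    constructor
    · exact_mod_cast (show (2 ^ K * T : ℝ) ≤ ⌊p * n⌋₊ by nlinarith [mul_pos (mul_pos p0 p0) L0])
    · exact_mod_cast (show (⌊p * n⌋₊ + K * w + 2 ^ K * T : ℝ) ≤ n by
        nlinarith [mul_pos (mul_pos (sub_pos.2 p1) (sub_pos.2 p1)) L0])
  obtain ⟨B, b1, b2, b3⟩ := avg (Ico L (2 * L) ×ˢ range (K * w)) ⟨(L, 0), by simp; omega⟩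
    (fun q => 2 ^ (⌊p * q.1⌋₊ + q.2) * 3 ^ (q.1 - (⌊p * q.1⌋₊ + q.2))) (fun _ => by positivity) (by
      rintro ⟨n, y⟩ h1 ⟨n', y'⟩ h2 e
      simp only [coe_product, Set.mem_prod, mem_coe, mem_Ico, mem_range] at h1 h2
      obtain ⟨e1, e2⟩ := inj23 e
      have := fl n h1.1.1
      have := fl n' h2.1.1
      simp only at e1 e2
      obtain rfl : n = n' := by omega
      obtain rfl : y = y' := by omega
      rfl)
  have ms : ∀ r : ℕ, MeasurableSet ((fun z : UnitAddCircle => r • z) ⁻¹' B) := fun r => (continuous_nsmul _).measurable b1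
  refine ⟨⋃ q ∈ range (2 * L) ×ˢ range (10 * w + 1), (fun z => (2 ^ (⌊p * q.1⌋₊ + q.2 - 5 * w) *
    3 ^ (q.1 - (⌊p * q.1⌋₊ + q.2 - 5 * w))) • z) ⁻¹' B, Finset.measurableSet_biUnion _ fun _ _ => ms _, ?_, _,
    Finset.measurableSet_biUnion _ fun _ _ => ms _, b3, 2 ^ K * T, fun z hz => ?_⟩
  · refine (measureReal_biUnion_finset_le _ _).trans ((sum_le_card_nsmul _ _ (volume.real B) fun q _ => le_of_eq ?_).trans ?_)
    · have := (Measure.measurePreserving_zsmul (volume : Measure UnitAddCircle) (n := (2 ^ (⌊p * q.1⌋₊ + q.2 - 5 * w) *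
        3 ^ (q.1 - (⌊p * q.1⌋₊ + q.2 - 5 * w)) : ℕ)) (by positivity)).measure_preimage b1.nullMeasurableSet
      simp only [natCast_zsmul] at this
      rw [Measure.real, this, Measure.real]
    · have : (1:ℝ) ≤ w := by exact_mod_cast w1
      have : (1:ℝ) ≤ K := by exact_mod_cast hK
      rw [b2, card_product, card_product, Nat.card_Ico, show 2 * L - L = L by omega, nsmul_eq_mul]
      simp only [card_range]
      push_cast
      rw [mul_one_div, div_le_div_iff₀ (by positivity) (by positivity)]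
      nlinarith [mul_le_mul_of_nonneg_left ‹(1:ℝ) ≤ w› (show (0:ℝ) ≤ L * K by positivity)]
  obtain ⟨⟨n0, y⟩, h1, h2⟩ := Set.mem_iUnion₂.1 hz
  simp only [mem_product, mem_Ico, mem_range] at h1
  have j1 : y / w < K := Nat.div_lt_of_lt_mul (by rw [mul_comm]; exact h1.2)
  have j2 : 2 ^ (y / w + 1) * T ≤ 2 ^ K * T := Nat.mul_le_mul_right _ (Nat.pow_le_pow_right (by norm_num) j1)
  refine ⟨2 ^ (y / w + 1) * T, hT.trans (Nat.le_mul_of_pos_left _ (by positivity)), j2, ?_⟩
  refine le_trans (le_of_eq (by push_cast; ring)) ((h _ j1).trans ?_)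
  rw [card_eq_sum_ones, Nat.cast_sum]
  refine (sum_le_sum fun n hn => ?_).trans (sum_le_sum_of_subset_of_nonneg (filter_subset _ _) fun _ _ _ =>
    Set.indicator_nonneg (fun _ _ => zero_le_one) _)
  obtain ⟨n1, n2⟩ := mem_filter.1 hn
  obtain ⟨a, a1, a2, a3⟩ := path x (n + 1)
  obtain ⟨f1, f2⟩ := fl n0 h1.1.1
  rw [mem_range] at n1
  rw [sum_sub_distrib, a3, sum_const, card_range, nsmul_eq_mul, abs_le] at n2
  have g1 := Nat.floor_le (show 0 ≤ p * n0 by positivity)
  have g2 := Nat.lt_floor_add_one (p * n0)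
  have g3 := Nat.floor_le (show 0 ≤ p * (n0 - (n + 1) : ℕ) by positivity)
  have g4 := Nat.lt_floor_add_one (p * (n0 - (n + 1) : ℕ))
  have g5 : ((y / w : ℕ) * w : ℝ) ≤ y := by exact_mod_cast Nat.div_mul_le_self y w
  have g6 : (y : ℝ) < (y / w : ℕ) * w + w := by exact_mod_cast Nat.lt_div_mul_add w1
  have g7 : (1:ℝ) ≤ w := by exact_mod_cast w1
  have g8 : ((n0 - (n + 1) : ℕ) : ℝ) = n0 - (n + 1 : ℕ) := Nat.cast_sub (by omega)
  set u := ⌊p * (n0 - (n + 1) : ℕ)⌋₊
  rw [g8] at g3 g4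
  have k1 : u + a ≤ ⌊p * n0⌋₊ + y + 5 * w := by exact_mod_cast (show (u + a : ℝ) ≤ ⌊p * n0⌋₊ + y + 5 * w by linarith)
  have k2 : ⌊p * n0⌋₊ + y ≤ u + a + 5 * w := by exact_mod_cast (show (⌊p * n0⌋₊ + y : ℝ) ≤ u + a + 5 * w by linarith)
  rw [Set.indicator_of_mem (Set.mem_iUnion₂.2 ⟨(n0 - (n + 1), ⌊p * n0⌋₊ + y + 5 * w - (u + a)),
    by simp only [mem_product, mem_range]; omega, ?_⟩)]
  · simp
  · rw [Set.mem_preimage, a2, ← mul_smul, mul_mul_mul_comm, ← pow_add, ← pow_add]
    have e : u + (⌊p * n0⌋₊ + y + 5 * w - (u + a)) - 5 * w = ⌊p * n0⌋₊ + y - a := by omega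
    show (2 ^ (u + (⌊p * n0⌋₊ + y + 5 * w - (u + a)) - 5 * w + a) * 3 ^ (n0 - (n + 1) -
      (u + (⌊p * n0⌋₊ + y + 5 * w - (u + a)) - 5 * w) + (n + 1 - a))) • z ∈ B
    rwa [e, show ⌊p * n0⌋₊ + y - a + a = ⌊p * n0⌋₊ + y by omega,
      show n0 - (n + 1) - (⌊p * n0⌋₊ + y - a) + (n + 1 - a) = n0 - (⌊p * n0⌋₊ + y) by omega]

lemma sweep (p0 : 0 < p) (p1 : p < 1) (K k : ℕ) (hK : 1 ≤ K) (x : ℕ → Bool) (hx : Good p K k x) :
    ∃ E : Set UnitAddCircle, MeasurableSet E ∧ volume.real E ≤ 22 / K ∧ ∃ G : Set UnitAddCircle, MeasurableSet G ∧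
      1 / 2 ≤ volume.real G ∧ ∀ z ∈ G, ∃ N ≥ k, (N / 4 : ℝ) ≤
        ∑ n ∈ range N, E.indicator 1 ((∏ i ∈ range (n + 1), if x i then 2 else 3) • z) := by
  obtain ⟨E, e1, e2, G, g1, g2, M, h⟩ := sweepB p0 p1 K k hK x hx
  exact ⟨E, e1, e2, G, g1, g2, fun z hz => (h z hz).imp fun N hN => ⟨hN.1, hN.2.2⟩⟩

end Pool.Agent.H53.Kh
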