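import Mathlib
import Pool.Agent.H53.KhB

open Finset MeasureTheory Filter Topology

namespace Pool.Agent.H53.Kh

/-- one sweeping step -/
def Sw (l : ℕ → ℕ) (k : ℕ) : Prop := ∃ E : Set UnitAddCircle, MeasurableSet E ∧ volume.real E ≤ 1 / 8 / 2 / 2 ^ k ∧
  ∃ G : Set UnitAddCircle, MeasurableSet G ∧ 1 / 2 ≤ volume.real G ∧ ∀ z ∈ G, ∃ N ≥ k + 1, (N / 5 : ℝ) ≤
    ∑ n ∈ range N, E.indicator 1 (l n • z)

lemma notK (l : ℕ → ℕ) (hl : ∀ k, Sw l k) : ∃ f : UnitAddCircle → ℝ, Integrable f ∧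
    ¬ ∀ᵐ x : UnitAddCircle, Tendsto (fun N : ℕ => (1 / N : ℝ) * ∑ n ∈ range N, f (l n • x)) atTop (𝓝 (∫ x, f x)) := by
  haveI : IsProbabilityMeasure (volume : Measure UnitAddCircle) := ⟨UnitAddCircle.measure_univ⟩
  choose E e1 e2 G g1 g2 g3 using hl
  have mE := MeasurableSet.iUnion e1
  have vE : volume.real (⋃ k, E k) ≤ 1 / 8 := by
    refine ENNReal.toReal_le_of_le_ofReal (by norm_num) ((measure_iUnion_le _).trans ((ENNReal.tsum_le_tsum fun k =>
      (ENNReal.le_ofReal_iff_toReal_le (measure_ne_top _ _) (by positivity)).2 (e2 k)).trans_eq ?_))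
    rw [← ENNReal.ofReal_tsum_of_nonneg (fun _ => by positivity) (summable_geometric_two' _), tsum_geometric_two']
  refine ⟨(⋃ k, E k).indicator 1, (integrable_const 1).indicator mE, fun h => ?_⟩
  rw [integral_indicator_one mE] at h
  set H : ℕ → Set UnitAddCircle := fun k => {x | ∀ N ≥ k, (1 / N : ℝ) * ∑ n ∈ range N,
    (⋃ k, E k).indicator 1 (l n • x) < 1 / 5}
  have c1 : volume (Set.univ : Set UnitAddCircle) ≤ volume (⋃ k, H (k + 1)) := measure_mono_ae (h.mono fun x hx _ => by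
    obtain ⟨k, hk⟩ := eventually_atTop.1 (hx.eventually (gt_mem_nhds (show _ < 1 / 5 by linarith)))
    exact Set.mem_iUnion.2 ⟨k, fun N hN => hk N (by omega)⟩)
  rw [measure_univ, Monotone.measure_iUnion (s := fun k => H (k + 1)) fun k l hkl x hx N hN => hx N (by omega)] at c1
  refine absurd (c1.trans (iSup_le fun k => (measure_mono (t := (G k)ᶜ) fun x hx hx' => ?_).trans
    ((ENNReal.le_ofReal_iff_toReal_le (measure_ne_top _ _) (by norm_num)).2 (show volume.real (G k)ᶜ ≤ 1 / 2 by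
      rw [probReal_compl_eq_one_sub (g1 k)]; linarith [g2 k])))) (by norm_num)
  obtain ⟨N, n1, n2⟩ := g3 k x hx'
  have n0 : (0:ℝ) < N := by exact_mod_cast (by omega : 0 < N)
  have := hx N n1
  rw [one_div_mul_eq_div, div_lt_iff₀ n0] at this
  exact absurd (n2.trans (sum_le_sum fun n _ => Set.indicator_le_indicator_of_subset (Set.subset_iUnion E k)
    (fun _ => zero_le_one) _)) (not_le.2 (this.trans_eq (by ring)))

lemma meagre (S : Set ℕ) (h2 : 2 ∈ S) (h3 : 3 ∈ S) (h0 : ∀ n ∈ S, 0 < n) :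
    IsMeagre {ω : ℕ → S | ∀ f : UnitAddCircle → ℝ, Integrable f → ∀ᵐ x : UnitAddCircle, Tendsto (fun N : ℕ =>
      (1 / N : ℝ) * ∑ n ∈ range N, f ((∏ i ∈ range (n + 1), (ω i : ℕ)) • x)) atTop (𝓝 (∫ x, f x))} := by
  refine mem_of_superset (countable_iInter_mem.2 fun k : ℕ => residual_of_dense_open (isOpen_interior
    (s := {ω : ℕ → S | Sw (fun n => ∏ i ∈ range (n + 1), (ω i : ℕ)) k})) ?_) fun ω hω h => ?_
  swap
  · obtain ⟨f, f1, f2⟩ := notK (fun n => ∏ i ∈ range (n + 1), (ω i : ℕ)) fun k => by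
      have := interior_subset (Set.mem_iInter.1 hω k); exact this
    exact f2 (h f f1)
  refine (PiNat.isTopologicalBasis_cylinders _).dense_iff.2 ?_
  rintro _ ⟨ω0, T, rfl⟩ -
  obtain ⟨T1, -, A, a1, a2⟩ := stage (1 / 2) (by norm_num) (by norm_num) (352 * 2 ^ k) (4 * T + k + 1) 0
  obtain ⟨s, hs⟩ := nonempty_of_sum_ne_zero (ne_of_gt (lt_of_lt_of_le (by positivity) a1))
  obtain ⟨E, e1, e2, G, g1, g2, M, h⟩ := sweepB (by norm_num) (by norm_num) _ _ (Nat.one_le_iff_ne_zero.2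
    (by positivity)) _ (a2 (ext _ s) (by rwa [show (fun i : Ico 0 T1 => ext _ s i) = s from funext fun i => dif_pos i.2]))
  set ω1 : ℕ → S := fun i => if i < T then ω0 i else if ext _ s (i - T) then ⟨2, h2⟩ else ⟨3, h3⟩ with hω1
  refine ⟨ω1, fun i hi => if_pos hi, interior_maximal (fun ω hω => ?_) (PiNat.isOpen_cylinder _ ω1 (T + M))
    (PiNat.self_mem_cylinder _ _)⟩
  set c := ∏ i ∈ range T, (ω i : ℕ)
  have c0 : 0 < c := prod_pos fun i _ => h0 _ (ω i).2
  have mp := Measure.measurePreserving_zsmul (volume : Measure UnitAddCircle) (n := (c : ℤ)) (by omega)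
  simp only [natCast_zsmul] at mp
  refine ⟨E, e1, e2.trans_eq (by push_cast; field_simp; norm_num), _, mp.measurable g1,
    by rwa [Measure.real, mp.measure_preimage g1.nullMeasurableSet], fun z hz => ?_⟩
  obtain ⟨N, n1, n2, n3⟩ := h _ hz
  have n4 : (4 * T : ℝ) ≤ N := by exact_mod_cast (by omega : 4 * T ≤ N)
  refine ⟨T + N, by omega, le_trans (by push_cast; linarith) (n3.trans ?_)⟩
  rw [sum_range_add]
  refine le_add_of_nonneg_of_le (sum_nonneg fun _ _ => Set.indicator_nonneg (fun _ _ => zero_le_one) _)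
    (le_of_eq (sum_congr rfl fun n hn => ?_))
  beta_reduce
  rw [← mul_smul, add_assoc, prod_range_add (n := T), mul_comm]
  congr 3
  refine prod_congr rfl fun i hi => ?_
  rw [mem_range] at hn hi
  rw [hω (T + i) (by omega), hω1]
  simp only [add_lt_iff_neg_left, not_lt_zero', if_false, add_tsub_cancel_left]
  split_ifs <;> rfl

end Pool.Agent.H53.Kh
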