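import Mathlib
import Pool.Agent.H53.ApprA
import Pool.Agent.H53.KmC

namespace Pool.Agent.H53.KmD

open Polynomial Matrix Pool.Agent.H53.ApprA Pool.Agent.H53.KmC

lemma irr (n : ℕ) (hn : n ≠ 0) : Irreducible (X ^ n - C 2 : ℤ[X]) := by
  have hm : (X ^ n - C 2 : ℤ[X]).Monic := monic_X_pow_sub_C _ hn
  refine irreducible_of_eisenstein_criterion (P := Ideal.span {2})
    ((Ideal.span_singleton_prime two_ne_zero).mpr Int.prime_two) ?_ (fun i hi => ?_) ?_ ?_
    hm.isPrimitive
  · rw [hm.leadingCoeff, Ideal.mem_span_singleton]; norm_num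
  · rw [degree_X_pow_sub_C hn.bot_lt, Nat.cast_lt] at hi
    rw [Ideal.mem_span_singleton, coeff_sub, coeff_X_pow, if_neg hi.ne, coeff_C]
    split_ifs <;> simp
  · rw [degree_X_pow_sub_C hn.bot_lt]; exact_mod_cast hn.bot_lt
  · rw [Ideal.span_singleton_pow, Ideal.mem_span_singleton, coeff_sub, coeff_X_pow, if_neg hn.symm,
      coeff_C_zero]
    norm_num

lemma root0 {K : Type} [Field K] {n : ℕ} {z : K} (hz : z ^ n = 2) :
    aeval z (X ^ n - C 2 : ℤ[X]) = 0 := by
  rw [map_sub, map_pow, aeval_X, aeval_C, hz]; simp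

lemma dvd_root {K : Type} [Field K] [CharZero K] {n : ℕ} (hn : n ≠ 0) {z : K} (hz : z ^ n = 2)
    {P : ℤ[X]} (hP : aeval z P = 0) : (X ^ n - C 2 : ℤ[X]) ∣ P := by
  have h1 := root0 hz
  have h2 : IsIntegral ℤ z := ⟨_, monic_X_pow_sub_C _ hn, h1⟩
  exact ((minpoly.irreducible h2).associated_of_dvd (irr n hn)
    (minpoly.isIntegrallyClosed_dvd h2 h1)).symm.dvd.trans (minpoly.isIntegrallyClosed_dvd h2 hP)

lemma norm_le_two {K : Type} [NormedField K] {n : ℕ} (hn : n ≠ 0) {z : K} (hz : z ^ n = 2) :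
    ‖z‖ ≤ 2 := by
  by_contra! h
  have h1 := norm_add_le (1 : K) 1
  rw [one_add_one_eq_two, ← hz, norm_pow, norm_one] at h1
  have h2 := le_self_pow₀ (show 1 ≤ ‖z‖ by linarith) hn
  linarith

lemma liou {n : ℕ} (hn : n ≠ 0) {θ : ℝ} (hθ : θ ^ n = 2) (P : ℤ[X]) (Y : ℝ) (hP : P.natDegree ≤ n)
    (hY : Bd P Y) (h0 : aeval θ P ≠ 0) : 1 ≤ |aeval θ P| * ((n + 1) * 2 ^ n * Y) ^ (n - 1) := by
  let φ := Int.castRingHom ℂ
  have hm : ((X ^ n - C 2 : ℤ[X]).map φ) = X ^ n - C 2 := by
    rw [Polynomial.map_sub, Polynomial.map_pow, map_X, map_C]; rfl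
  have h1 := resultant_eq_prod_eval (X ^ n - C 2 : ℂ[X]) (P.map φ) n (natDegree_map_le.trans hP)
    (IsAlgClosed.splits _)
  have hr : ∀ z ∈ (X ^ n - C 2 : ℂ[X]).roots, z ^ n = 2 := fun z hz => by
    simpa [sub_eq_zero] using isRoot_of_mem_roots hz
  have he : ∀ z : ℂ, (P.map φ).eval z = aeval z P := fun z => by rw [eval_map, aeval_def]; rfl
  rw [(monic_X_pow_sub_C _ hn).leadingCoeff, one_pow, one_mul] at h1
  have h2 : ((X ^ n - C 2 : ℂ[X]).roots.map (P.map φ).eval).prod ≠ 0 := by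
    refine Multiset.prod_ne_zero fun h => ?_
    obtain ⟨z, z1, z2⟩ := Multiset.mem_map.mp h
    obtain ⟨Q, rfl⟩ := dvd_root hn (hr z z1) ((he z).symm.trans z2)
    exact h0 (by rw [map_mul, root0 hθ, zero_mul])
  have h3 : 1 ≤ ‖((X ^ n - C 2 : ℂ[X]).roots.map (P.map φ).eval).prod‖ := by
    rw [← h1, ← hm, resultant_map_map] at h2 ⊢
    rw [eq_intCast, Complex.norm_intCast]
    exact_mod_cast Int.one_le_abs fun h => h2 (by rw [h, map_zero])
  have h4 : (θ : ℂ) ∈ (X ^ n - C 2 : ℂ[X]).roots := by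
    rw [mem_roots (monic_X_pow_sub_C _ hn).ne_zero]
    simp [sub_eq_zero, ← Complex.ofReal_pow, hθ]
  rw [← Multiset.cons_erase h4, Multiset.map_cons, Multiset.prod_cons, norm_mul, he,
    show aeval (θ : ℂ) P = (aeval θ P : ℝ) from aeval_algebraMap_apply ℂ θ P, Complex.norm_real,
    Real.norm_eq_abs] at h3
  refine h3.trans (mul_le_mul_of_nonneg_left ?_ (abs_nonneg _))
  rw [← normHom_apply, map_multiset_prod, Multiset.map_map]
  refine le_trans (Multiset.prod_map_le_prod_map₀ _ (fun _ => (n + 1) * 2 ^ n * Y)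
    (fun _ _ => by simp) fun z hz => ?_) (by
      rw [Multiset.map_const', Multiset.prod_replicate, Multiset.card_erase_of_mem h4,
        ← (IsAlgClosed.splits _).natDegree_eq_card_roots, natDegree_X_pow_sub_C]
      exact le_rfl)
  have := norm_le_two hn (hr z (Multiset.mem_of_mem_erase hz))
  simp only [Function.comp, normHom_apply]
  rw [eval_eq_sum_range' (Nat.lt_succ_of_le (natDegree_map_le.trans hP))]
  refine (norm_sum_le _ _).trans ((Finset.sum_le_card_nsmul _ _ (2 ^ n * Y) fun i hi => ?_).trans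
    (by simp [mul_assoc]))
  rw [norm_mul, norm_pow, coeff_map, eq_intCast, Complex.norm_intCast, mul_comm]
  exact mul_le_mul ((pow_le_pow_left₀ (norm_nonneg _) this _).trans (pow_le_pow_right₀ one_le_two
    (Nat.le_of_lt_succ (Finset.mem_range.mp hi)))) (hY i) (abs_nonneg _) (by positivity)

lemma prod_inj {k m : ℕ} (I : Fin k → Fin m) (hI : Function.Injective I) (f : Fin m → ℝ)
    (hf : ∀ l, 1 ≤ f l) : ∏ j, f (I j) ≤ ∏ l, f l := by
  rw [← Finset.prod_image (s := Finset.univ) (g := I) hI.injOn]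
  exact Finset.prod_le_prod_of_subset_of_one_le (Finset.subset_univ _)
    (fun l _ => zero_le_one.trans (hf l)) fun l _ _ => hf l

lemma aeval_fin (P : ℤ[X]) {n : ℕ} (hP : P.natDegree ≤ n) (x : ℝ) :
    aeval x P = P.coeff 0 + ∑ l : Fin n, (P.coeff (l + 1) : ℝ) * x ^ (l + 1 : ℕ) := by
  rw [aeval_sum P n hP, Finset.sum_range_succ', add_comm,
    Fin.sum_univ_eq_sum_range (fun l => (P.coeff (l + 1) : ℝ) * x ^ (l + 1))]
  simp

lemma noshort {n : ℕ} (hn : n ≠ 0) {θ : ℝ} (hθ : θ ^ n = 2) : ∃ c : ℝ, 0 < c ∧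
    ∀ (k : ℕ) (b : Fin (k + 1) → ℤ[X]) (Y A B : ℝ), k ≤ n → 1 ≤ Y → LinearIndependent ℤ b →
    (∀ i, (b i).natDegree ≤ n) → (∀ I : Fin k → Fin (n + 1), |(Matrix.of fun i =>
      Fin.cons (aeval θ (b i)) fun j => (((b i).coeff (I j) : ℤ) : ℝ) :
      Matrix (Fin (k + 1)) (Fin (k + 1)) ℝ).det| ≤ A) →
    (k + 1 ≤ n → ∀ I : Fin (k + 1) → Fin (n + 1),
      |(Matrix.of fun i j => (((b i).coeff (I j) : ℤ) : ℝ)).det| ≤ B) →
    A * Y ^ (n + 1) ≤ c * Y ^ (k + 1) → B * Y ≤ c * Y ^ (k + 1) → False := by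
  obtain ⟨D, hD⟩ : ∃ D : ℝ, D = (n + 1) * 2 ^ n * (1 + n * 2 ^ n) := ⟨_, rfl⟩
  have hD1 : 1 ≤ D ^ (n - 1) := one_le_pow₀ (hD ▸ one_le_mul_of_one_le_of_one_le
    (one_le_mul_of_one_le_of_one_le (by simp) (one_le_pow₀ one_le_two)) (by simp))
  obtain ⟨σ, hσ⟩ : ∃ σ : ℝ, σ = (2 * (n + 1) * D ^ (n - 1))⁻¹ := ⟨_, rfl⟩
  have σ0 : 0 < σ := by rw [hσ]; positivity
  have σ1 : (n + 1) * σ * D ^ (n - 1) = 1 / 2 := by rw [hσ]; field_simp
  have σ2 : (n + 1) * σ ≤ 1 / 2 := σ1 ▸ le_mul_of_one_le_right (by positivity) hD1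
  have σ3 : σ ≤ 1 := by nlinarith [(n.cast_nonneg : (0 : ℝ) ≤ n)]
  refine ⟨σ ^ (n + 1) / 2, by positivity, fun k b Y A B hk hY hb hd hA hB h1 h2 => ?_⟩
  have Y0 : 0 < Y := by linarith
  have σ4 : σ ^ (n + 1) / 2 < σ ^ (k + 1) := by
    linarith [pow_le_pow_of_le_one σ0.le σ3 (Nat.add_le_add_right hk 1), pow_pos σ0 (n + 1)]
  let M : Matrix (Fin (k + 1)) (Fin (n + 1)) ℝ :=
    Matrix.of fun i l => if l = 0 then aeval θ (b i) else (b i).coeff l
  let e : Fin (n + 1) → ℝ := fun l => (if l = 0 then Y ^ n else 1) * if l = Fin.last n then Y else 1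
  have e1 : ∀ l, 1 ≤ if l = Fin.last n then Y else 1 := fun l => by split_ifs <;> simp [hY]
  have e2 : ∀ l, 1 ≤ e l := fun l => one_le_mul_of_one_le_of_one_le
    (by split_ifs <;> simp [one_le_pow₀ hY]) (e1 l)
  refine (mink (Matrix.of fun i l => e l / Y * M i l) ?_ σ σ0 fun I => ?_).elim fun u ⟨u1, u2⟩ => ?_
  rotate_right
  · have u3 : ∑ i, u i • b i ≠ 0 := fun h => u1 (funext (Fintype.linearIndependent_iff.mp hb u h))
    have u4 : (∑ i, u i • b i).natDegree ≤ n :=
      natDegree_sum_le_of_forall_le _ _ fun i _ => (natDegree_smul_le _ _).trans (hd i)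
    have u5 : ∀ l, e l / Y * |if l = 0 then aeval θ (∑ i, u i • b i) else
        (∑ i, u i • b i).coeff l| ≤ (n + 1) * σ := fun l => by
      refine le_trans (le_of_eq ?_) ((u2 l).trans (by push_cast; gcongr))
      rw [← abs_of_pos (div_pos (one_pos.trans_le (e2 l)) Y0), ← abs_mul]
      congr 1
      split_ifs with h <;> simp [M, h, Finset.mul_sum, mul_left_comm]
    generalize ∑ i, u i • b i = P at u3 u4 u5
    have a1 := u5 0
    have a2 := u5 (Fin.last n)
    have a3 : ∀ l : Fin n, |(P.coeff (l + 1) : ℝ)| ≤ Y := fun l => by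
      have := u5 l.succ
      rw [if_neg l.succ_ne_zero, div_mul_eq_mul_div, div_le_iff₀ Y0] at this
      have a := le_mul_of_one_le_left (abs_nonneg (P.coeff (l + 1) : ℝ)) (e2 l.succ)
      simp only [Fin.val_succ] at this
      nlinarith
    have l0 : Fin.last n ≠ 0 := by simpa [Fin.ext_iff] using hn
    simp only [e, l0, l0.symm, if_true, if_false, mul_one, one_mul, div_self Y0.ne', Fin.val_last,
      ← pow_sub_one_mul hn Y, mul_div_cancel_right₀ _ Y0.ne'] at a1 a2
    have a4 : P.coeff n = 0 := Int.abs_lt_one_iff.mp (by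
      exact_mod_cast (show |(P.coeff n : ℝ)| < 1 by linarith))
    have a5 : aeval θ P ≠ 0 := fun h => by
      have := natDegree_le_of_dvd (dvd_root hn hθ h) u3
      rw [natDegree_X_pow_sub_C] at this
      exact u3 (leadingCoeff_eq_zero.mp (by rwa [leadingCoeff, le_antisymm u4 this]))
    have a6 : |aeval θ P| ≤ Y := by
      nlinarith [le_mul_of_one_le_left (abs_nonneg (aeval θ P)) (one_le_pow₀ hY (n := n - 1))]
    have a7 := liou hn hθ P ((1 + n * 2 ^ n) * Y) u4 (fun i => ?_) a5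
    · rw [← mul_assoc, ← hD, mul_pow] at a7
      nlinarith [mul_le_mul_of_nonneg_right a1 (zero_le_one.trans hD1)]
    have a8 : Y ≤ (1 + n * 2 ^ n) * Y := le_mul_of_one_le_left Y0.le (by simp)
    rcases i with _ | i
    · rw [eq_sub_of_add_eq (aeval_fin P u4 θ).symm]
      refine (abs_sub _ _).trans ?_
      rw [add_mul, one_mul]
      refine add_le_add a6 ((Finset.abs_sum_le_sum_abs _ _).trans ((Finset.sum_le_card_nsmul _ _
        (2 ^ n * Y) fun l _ => ?_).trans (by simp [mul_assoc])))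
      rw [abs_mul, abs_pow, mul_comm]
      exact mul_le_mul ((pow_le_pow_left₀ (abs_nonneg _) (norm_le_two hn hθ) _).trans
        (pow_le_pow_right₀ one_le_two l.2)) (a3 l) (abs_nonneg _) (by positivity)
    · rcases lt_or_ge i n with h | h
      · exact (a3 ⟨i, h⟩).trans a8
      · rw [coeff_eq_zero_of_natDegree_lt (by omega)]
        simp only [Int.cast_zero, abs_zero]
        linarith
  · have h3 : LinearIndependent ℝ fun i => algebraMap ℤ ℝ ∘ fun l : Fin (n + 1) => (b i).coeff l :=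
      linearIndependent_algebraMap_comp_iff.mpr (Fintype.linearIndependent_iff.mpr fun g hg =>
        Fintype.linearIndependent_iff.mp hb g (by
          ext l
          rcases le_or_gt l n with h | h
          · simpa using congrFun hg ⟨l, by omega⟩
          · simp [coeff_eq_zero_of_natDegree_lt ((hd _).trans_lt h)]))
    refine Fintype.linearIndependent_iff.mpr fun g hg => Fintype.linearIndependent_iff.mp h3 g ?_
    have h4 : ∀ l, ∑ i, g i * M i l = 0 := fun l => by
      have := congrFun hg l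
      simp only [Finset.sum_apply, Pi.smul_apply, row_apply, of_apply, smul_eq_mul, Pi.zero_apply,
        mul_left_comm _ (e l / Y), ← Finset.mul_sum, mul_eq_zero] at this
      exact this.resolve_left (div_pos (one_pos.trans_le (e2 l)) Y0).ne'
    have h5 : ∀ l : Fin n, ∑ i, g i * ((b i).coeff (l + 1) : ℝ) = 0 := fun l => by
      simpa [M] using h4 l.succ
    funext l
    refine Fin.cases ?_ (fun l => by simpa using h5 l) l
    have h6 := h4 0
    simp only [M, of_apply, if_true, aeval_fin _ (hd _), mul_add, Finset.sum_add_distrib,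
      Finset.mul_sum, ← mul_assoc] at h6
    rw [Finset.sum_comm] at h6
    simpa [← Finset.sum_mul, h5] using h6
  · by_cases hI : Function.Injective I; swap
    · obtain ⟨i, j, h3, h4⟩ := Function.not_injective_iff.mp hI
      rw [det_zero_of_column_eq h4 fun a => by simp [h3]]
      simpa using pow_pos σ0 _
    rw [show (Matrix.of fun i l => e l / Y * M i l).submatrix id I = Matrix.of fun i j =>
      e (I j) / Y * M.submatrix id I i j from rfl, det_mul_row, Finset.prod_div_distrib, abs_mul,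
      Finset.prod_const, Finset.card_univ, Fintype.card_fin, abs_of_nonneg (div_nonneg
      (Finset.prod_nonneg fun j _ => zero_le_one.trans (e2 _)) (by positivity)), div_mul_eq_mul_div,
      div_lt_iff₀ (by positivity), mul_comm]
    refine lt_of_le_of_lt ?_ (mul_lt_mul_of_pos_right σ4 (by positivity))
    by_cases h3 : ∃ j, I j = 0
    · obtain ⟨j, h3⟩ := h3
      refine le_trans (mul_le_mul ?_ ((prod_inj I hI e e2).trans (by
        simp only [e, Finset.prod_mul_distrib]; simp [pow_succ])) (Finset.prod_nonneg fun j _ =>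
        zero_le_one.trans (e2 _)) ((abs_nonneg _).trans (hA fun _ => 0))) h1
      have := congrArg abs (det_permute' (Equiv.swap 0 j) (M.submatrix id I))
      rw [abs_mul, abs_unit_intCast, one_mul] at this
      rw [← this]
      refine le_trans (le_of_eq ?_) (hA fun i => I (Equiv.swap 0 j i.succ))
      congr 2
      ext a i
      refine Fin.cases (by simp [M, h3]) (fun i => ?_) i
      have : I (Equiv.swap 0 j i.succ) ≠ 0 := fun h => i.succ_ne_zero
        ((Equiv.swap 0 j).injective (hI (by rw [h, Equiv.swap_apply_left, h3])))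
      simp [M, this]
    · push Not at h3
      have h4 : k + 1 ≤ n := by
        have := Finset.card_le_card_of_injOn (s := Finset.univ) (t := Finset.univ.erase 0) I
          (fun j _ => by simp [h3]) hI.injOn
        simpa using this
      refine le_trans (mul_le_mul ?_ ?_ (Finset.prod_nonneg fun j _ =>
        zero_le_one.trans (e2 _)) ((abs_nonneg _).trans (hB h4 I))) h2
      · refine le_trans (le_of_eq ?_) (hB h4 I)
        congr 2
        ext a i
        simp [M, h3]
      · simpa [e, h3] using prod_inj I hI _ e1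

end Pool.Agent.H53.KmD
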