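import Mathlib
import Pool.Agent.H53.ApprD
import Pool.Agent.H53.KmB
import Pool.Agent.H53.KmD

namespace Pool.Agent.H53.KmE

open Polynomial Matrix Metric MeasureTheory Filter Pool.Agent.H53.ApprA Pool.Agent.H53.ApprD
  Pool.Agent.H53.KmB Pool.Agent.H53.KmC Pool.Agent.H53.KmD

lemma prodG (a G : ℝ) (hG : G ≠ 0) (k m : ℕ) :
    ∏ j : Fin k, a * G ^ (2 * (j : ℕ)) / G ^ (k + m) = a ^ k / G ^ (k * (m + 1)) := by
  have : ∀ k : ℕ, (∏ j : Fin k, G ^ (2 * (j : ℕ))) * G ^ k = G ^ (k * k) := fun k => by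
    induction k with
    | zero => simp
    | succ k ih =>
      rw [Fin.prod_univ_castSucc]
      simp only [Fin.val_castSucc, Fin.val_last]
      linear_combination G ^ (2 * k + 1) * ih
  rw [Finset.prod_div_distrib, Finset.prod_mul_distrib, eq_div_of_mul_eq (pow_ne_zero _ hG) (this k)]
  simp only [Finset.prod_const, Finset.card_univ, Fintype.card_fin]
  field_simp
  ring

lemma scale {k : ℕ} (v : Fin k → ℝ) (hv : ∀ j, 0 < v j) {A B : Matrix (Fin k) (Fin k) ℝ}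
    (hB : |B.det| < 1) (h : ∀ i j, B i j = (v j)⁻¹ * A i j) : |A.det| ≤ ∏ j, v j := by
  have h0 : 0 < ∏ j, v j := Finset.prod_pos fun j _ => hv j
  rw [show B = Matrix.of fun i j => (v j)⁻¹ * A i j from Matrix.ext h, det_mul_row,
    Finset.prod_inv_distrib, abs_mul, abs_inv, abs_of_pos h0] at hB
  exact (inv_mul_le_one₀ h0).mp hB.le

/-- the scaled coordinates -/
noncomputable def FF (n : ℕ) (θ a b G : ℝ) (P : ℤ[X]) : Fin (n + 1) → ℝ[X] :=
  Fin.cons (C (a⁻¹ * aeval θ P)) fun i =>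
    C (b * G ^ (2 * (i : ℕ)) / G ^ n)⁻¹ * derivative^[i] (P.map (Int.castRingHom ℝ))

lemma verif {n : ℕ} (hn : 2 ≤ n) {θ : ℝ} (hθ : θ ^ n = 2) (C1 : ℝ) (hC : 1 ≤ C1) : ∃ D : ℝ,
    ∀ (G Q l t : ℝ), 1 ≤ G → 1 ≤ Q → Q ≤ C1 * G ^ n → 1 ≤ l → 0 < t →
    D * (l ^ (2 * n + 2) * t * Q ^ n) < 1 → ∀ (k : ℕ) (b : Fin k → ℤ[X]), k ≤ n + 1 →
    LinearIndependent ℤ b → (∀ i, (b i).natDegree ≤ n) → (∃ i, aeval θ (b i) ≠ 0) →
    ∃ z ∈ closedBall (0 : ℝ) 2, ∃ I : Fin k → Fin (n + 1),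
      1 ≤ |(Matrix.of fun i j => (FF n θ (l * G ^ n * t) (l * Q) G (b i) (I j)).eval z).det| := by
  obtain ⟨c, c0, hc⟩ := noshort (by omega) hθ
  choose f f0 hf using glem n
  choose g g0 hg using glem' n
  obtain ⟨e, e0, e1, e2⟩ := fin_lb (Set.Iic n) (Set.finite_Iic n) (fun k => min (f (k + 1)) (g k))
    fun k _ => lt_min (f0 _) (g0 _)
  obtain ⟨μ, μ1, μ2⟩ : ∃ μ : ℝ, 1 ≤ μ ∧ C1 ≤ c * e * μ := ⟨max 1 (C1 / (c * e)), le_max_left _ _,
    (div_le_iff₀' (by positivity)).mp (le_max_right _ _)⟩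
  refine ⟨max (μ ^ n / (c * e)) (((n + 1) * 2 ^ n / e) ^ (n - 1) / e),
    fun G Q l t hG hQ hQ' hl ht hD k b hk hb hd h0 => ?_⟩
  by_contra! h
  obtain ⟨i0, h0⟩ := h0
  obtain ⟨k, rfl⟩ : ∃ j, k = j + 1 := ⟨k - 1, by have := i0.pos; omega⟩
  obtain ⟨m, rfl⟩ := Nat.exists_eq_add_of_le (show k ≤ n by omega)
  have G0 : 0 < G := by linarith
  have hd' : ∀ i, ((b i).map (Int.castRingHom ℝ)).natDegree ≤ k + m := fun i =>
    natDegree_map_le.trans (hd i)
  have hA : ∀ I : Fin k → Fin (k + m + 1), |(Matrix.of fun i =>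
      Fin.cons (aeval θ (b i)) fun j => (((b i).coeff (I j) : ℤ) : ℝ) :
      Matrix (Fin (k + 1)) (Fin (k + 1)) ℝ).det| ≤
      l * G ^ (k + m) * t * ((l * Q) ^ k / G ^ (k * (m + 1))) / e := fun I => by
    rw [le_div_iff₀' e0]
    refine (mul_le_mul_of_nonneg_right ((e2 k (by simp)).trans (min_le_right _ _))
      (abs_nonneg _)).trans ?_
    simpa only [coeff_map, eq_intCast] using hg k _ (fun i => aeval θ (b i)) _ hd' (fun x hx => by
      rw [← prodG _ _ G0.ne', ← Fin.prod_cons]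
      refine scale _ (fun j => ?_) (h x hx (Fin.castLE hk)) fun i j => ?_
      · refine Fin.cases ?_ (fun j => ?_) j <;> simp only [Fin.cons_zero, Fin.cons_succ] <;>
          positivity
      rw [of_apply]
      refine Fin.cases (by simp [FF]) (fun j => ?_) j
      rw [show Fin.castLE hk j.succ = (Fin.castLE (by omega) j).succ from rfl]
      simp [FF]) I
  have hB : k + 1 ≤ k + m → ∀ I : Fin (k + 1) → Fin (k + m + 1),
      |(Matrix.of fun i j => (((b i).coeff (I j) : ℤ) : ℝ)).det| ≤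
      (l * Q) ^ (k + 1) / G ^ ((k + 1) * m) / e := fun hm I => by
    rw [le_div_iff₀' e0]
    refine (mul_le_mul_of_nonneg_right ((e2 k (by simp)).trans (min_le_left _ _))
      (abs_nonneg _)).trans ?_
    simpa only [coeff_map, eq_intCast] using hf (k + 1) _ _ hd' (fun x hx => by
      have e3 := prodG (l * Q) _ G0.ne' (k + 1) (m - 1)
      rw [show k + 1 + (m - 1) = k + m by omega, show m - 1 + 1 = m by omega] at e3
      rw [← e3]
      exact scale _ (fun j => by positivity) (h x hx fun j => (Fin.castLE hm j).succ)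
        fun i j => by simp [FF]) I
  have l0 : 0 < l := by linarith
  have Q0 : 0 < Q := by linarith
  have hX : 0 < l ^ (2 * (k + m) + 2) * t * Q ^ (k + m) := by positivity
  rcases k with _ | k
  · have a1 := hA Fin.elim0
    rw [det_fin_one] at a1
    have a2 : Bd (b 0) (l * Q / G ^ m / e) := fun i => by
      rcases le_or_gt i (0 + m) with h1 | h1
      · simpa using hB (by omega) fun _ => ⟨i, by omega⟩
      · rw [coeff_eq_zero_of_natDegree_lt ((hd 0).trans_lt h1)]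
        simp only [Int.cast_zero, abs_zero]
        positivity
    have a3 := liou (by omega) hθ (b 0) _ (hd 0) a2 (Fin.fin_one_eq_zero i0 ▸ h0)
    obtain ⟨m, rfl⟩ : ∃ j, m = j + 2 := ⟨m - 2, by omega⟩
    have a4 := (mul_le_mul_of_nonneg_right (le_max_right _ _) hX.le).trans_lt hD
    simp only [zero_add, det_unique, of_apply, Fin.default_eq_zero, Fin.cons_zero, pow_zero,
      zero_mul, div_one, mul_one, show m + 2 - 1 = m + 1 from rfl] at a1 a3 a4
    refine (a3.trans (mul_le_mul_of_nonneg_right a1 (by positivity))).not_gt (lt_of_le_of_lt ?_ a4)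
    have a5 : l ^ (m + 2) * Q ^ (m + 1) / G ^ ((m + 2) * m) ≤ l ^ (2 * (m + 2) + 2) * Q ^ (m + 2) :=
      (div_le_self (by positivity) (one_le_pow₀ hG)).trans (by gcongr <;> omega)
    refine le_trans (le_of_eq ?_) ((mul_le_mul_of_nonneg_left a5 (show 0 ≤ t *
      (((((m + 2 : ℕ) : ℝ) + 1) * 2 ^ (m + 2) / e) ^ (m + 1) / e) by positivity)).trans_eq (by ring))
    simp only [mul_pow, div_pow]
    field_simp
    ring
  have hY : 1 ≤ max 1 (Q * G / G ^ m) := le_max_left _ _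
  have hY2 : 1 ≤ μ * l ^ 2 := one_le_mul_of_one_le_of_one_le μ1 (one_le_pow₀ hl)
  refine hc _ b (μ * l ^ 2 * max 1 (Q * G / G ^ m)) _ _ (by omega)
    (one_le_mul_of_one_le_of_one_le hY2 hY) hb hd hA hB ?_ ?_
  · rw [show k + 1 + m + 1 = m + (k + 1 + 1) by ring, pow_add _ m (k + 1 + 1), ← mul_assoc]
    refine mul_le_mul_of_nonneg_right ?_ (by positivity)
    have a4 := (mul_le_mul_of_nonneg_right (le_max_left _ _) hX.le).trans_lt hD
    rw [div_mul_eq_mul_div, div_lt_one (by positivity)] at a4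
    rw [div_mul_eq_mul_div, div_le_iff₀ e0]
    refine le_trans ?_ a4.le
    have a5 : max 1 (Q * G / G ^ m) ^ m ≤ Q ^ m * G ^ (m * k) := by
      rw [pow_mul', ← mul_pow]
      rcases m with _ | m
      · simp
      refine pow_le_pow_left₀ (by positivity) (max_le
        (one_le_mul_of_one_le_of_one_le hQ (one_le_pow₀ hG)) ?_) _
      rw [div_le_iff₀ (by positivity), mul_assoc, ← pow_add]
      exact mul_le_mul_of_nonneg_left (le_self_pow₀ hG (by omega)) Q0.le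
    have a6 : μ ^ m * l ^ (k + 2 + 2 * m) ≤ μ ^ (k + 1 + m) * l ^ (2 * (k + 1 + m) + 2) :=
      mul_le_mul (pow_le_pow_right₀ μ1 (by omega)) (pow_le_pow_right₀ hl (by omega))
        (by positivity) (by positivity)
    rw [mul_pow _ (max _ _)]
    refine (mul_le_mul_of_nonneg_left (mul_le_mul_of_nonneg_left a5 (by positivity))
      (by positivity)).trans (le_trans (le_of_eq ?_) ((mul_le_mul_of_nonneg_right a6
      (show 0 ≤ t * Q ^ (k + 1 + m) by positivity)).trans_eq (by ring)))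
    field_simp
    ring
  · rw [pow_succ (_ * max _ _) (k + 1), ← mul_assoc c]
    refine mul_le_mul_of_nonneg_right ?_ (by positivity)
    rw [div_le_iff₀ e0, mul_pow _ (max _ _)]
    have a5 : (Q * G / G ^ m) ^ (k + 1) ≤ max 1 (Q * G / G ^ m) ^ (k + 1) :=
      pow_le_pow_left₀ (by positivity) (le_max_right _ _) _
    have a6 : μ * l ^ (k + 2) ≤ (μ * l ^ 2) ^ (k + 1) := by
      rw [mul_pow, ← pow_mul]
      exact mul_le_mul (le_self_pow₀ μ1 (by omega)) (pow_le_pow_right₀ hl (by omega))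
        (by positivity) (by positivity)
    have a7 := mul_le_mul_of_nonneg_left (mul_le_mul a6 a5 (by positivity) (by positivity))
      (show 0 ≤ c * e by positivity)
    have a8 := mul_le_mul_of_nonneg_right (hQ'.trans (mul_le_mul_of_nonneg_right μ2 (by positivity)))
      (show 0 ≤ l ^ (k + 2) * Q ^ (k + 1) / G ^ ((k + 1 + 1) * m) by positivity)
    refine le_trans (le_of_eq (by ring)) (a8.trans (le_trans (le_of_eq ?_) (a7.trans_eq (by ring))))
    simp only [mul_pow, div_pow]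
    field_simp
    ring

/-- the bad points at height `Q` -/
def Bad (n : ℕ) (θ w K G Q x : ℝ) : Prop := ∃ P : ℤ[X], P.natDegree ≤ n ∧ aeval θ P ≠ 0 ∧
  |aeval θ P| ≤ K * (G ^ n * Q ^ (1 - w)) ∧ ∀ i < n,
    |(derivative^[i] (P.map (Int.castRingHom ℝ))).eval x| ≤ K * (Q * G ^ (2 * i) / G ^ n)

lemma badQ {n : ℕ} (hn : 2 ≤ n) {θ : ℝ} (hθ : θ ^ n = 2) (w K C1 : ℝ) (hw : n + 1 < w)
    (hK : 0 ≤ K) (hC : 1 ≤ C1) : ∃ c δ : ℝ, 0 ≤ c ∧ 0 < δ ∧ ∀ᶠ Q : ℝ in atTop, ∀ G : ℝ, 1 ≤ G →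
    Q ≤ C1 * G ^ n →
    volume {x ∈ closedBall (0 : ℝ) 2 | Bad n θ w K G Q x} ≤ ENNReal.ofReal (c * Q ^ (-δ)) := by
  obtain ⟨D, hD⟩ := verif hn hθ C1 hC
  obtain ⟨d, K0, c, c0, h⟩ := latKM (degreeLT ℤ (n + 1)) (Fin (n + 1)) n
  obtain ⟨γ, γ0, γ1⟩ : ∃ γ : ℝ, 0 < γ ∧ γ * (2 * n + 2 : ℕ) + (1 - w) + n < 0 :=
    ⟨(w - n - 1) / 2 / (2 * n + 2 : ℕ), div_pos (by linarith) (by positivity), by
      rw [div_mul_cancel₀ _ (by positivity)]; linarith⟩
  refine ⟨c * 2, γ / (d + 1), by positivity, by positivity, ?_⟩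
  filter_upwards [eventually_ge_atTop 1, ev D _ _ γ1, ev (K0 * K ^ 2) (-γ * (2 : ℕ))
    (-(γ / (d + 1)) * d) (by
      have : γ / (d + 1) * d ≤ γ := by
        rw [div_mul_eq_mul_div, div_le_iff₀ (by positivity)]; linarith
      push_cast; linarith)] with Q q1 q2 q3 G hG hQ
  have Q0 : 0 < Q := by linarith
  have l1 : 1 ≤ Q ^ γ := Real.one_le_rpow q1 γ0.le
  have t0 : 0 < Q ^ (1 - w) := by positivity
  have hd : ∀ v : degreeLT ℤ (n + 1), v.1.natDegree ≤ n := fun v => natDegree_le_iff_coeff_eq_zero.mpr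
    fun i hi => (degree_lt_iff_coeff_zero _ _).mp (mem_degreeLT.mp v.2) i hi
  rw [mul_right_comm]
  refine le_trans (measure_mono ?_) (h (AddMonoidHom.toIntLinearMap (AddMonoidHom.mk'
    (fun v => FF n θ (Q ^ γ * G ^ n * Q ^ (1 - w)) (Q ^ γ * Q) G v.1) fun u v => ?_))
    {v | aeval θ v.1 ≠ 0} 0 2 _ (K * Q ^ (-γ)) (fun v j => ?_) (by simp) two_pos (by positivity)
    (Real.rpow_le_one_of_one_le_of_nonpos q1 (neg_nonpos.mpr (by positivity))) (by positivity)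
    (by rwa [mul_pow, ← mul_assoc, ← Real.rpow_mul_natCast Q0.le, ← Real.rpow_mul_natCast Q0.le])
    fun k b hb ⟨v, v1, v2⟩ => hD G Q _ _ hG q1 hQ l1 t0 ?_ k (fun i => (b i).1) ?_
      (hb.map' (degreeLT ℤ (n + 1)).subtype (Submodule.ker_subtype _)) (fun i => hd _) ?_)
  · rintro x ⟨x1, P, p1, p2, p3, p4⟩
    refine ⟨x1, ⟨P, mem_degreeLT.mpr (degree_le_natDegree.trans_lt (by exact_mod_cast by omega))⟩,
      p2, fun j => ?_⟩
    rw [Real.rpow_neg Q0.le]
    refine Fin.cases ?_ (fun j => ?_) j <;>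
      simp only [AddMonoidHom.coe_toIntLinearMap, AddMonoidHom.mk'_apply, FF, Fin.cons_zero,
        Fin.cons_succ, eval_C, eval_mul] <;>
      rw [abs_mul, abs_inv, abs_of_pos (by positivity), inv_mul_le_iff₀ (by positivity)]
    · exact p3.trans_eq (by field_simp)
    · exact (p4 j j.2).trans_eq (by field_simp)
  · funext j
    refine Fin.cases ?_ (fun j => ?_) j <;> simp [FF, mul_add, iterate_map_add]
  · exact Fin.cases ((natDegree_C _).trans_le n.zero_le) (fun j => (natDegree_C_mul_le _ _).trans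
      ((natDegree_iterate_derivative _ _).trans ((Nat.sub_le _ _).trans
      (natDegree_map_le.trans (hd v))))) j
  · rw [← Real.rpow_mul_natCast Q0.le, ← Real.rpow_add Q0, ← Real.rpow_natCast Q,
      ← Real.rpow_add Q0]
    simpa only [Real.rpow_zero] using q2
  · simpa [Module.finrank_eq_card_basis (degreeLT.basis ℤ (n + 1))] using hb.fintype_card_le_finrank
  · obtain ⟨u, rfl⟩ := (Submodule.mem_span_range_iff_exists_fun ℤ).mp v2
    by_contra! h
    exact v1 (by simp [h])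

lemma badAll {n : ℕ} (hn : 2 ≤ n) {θ : ℝ} (hθ : θ ^ n = 2) (w K C1 ε : ℝ) (hw : n + 1 < w)
    (hK : 0 ≤ K) (hC : 1 ≤ C1) (hε : 0 < ε) : ∃ j0 : ℕ, ∀ G : ℝ, 1 ≤ G →
    volume {x ∈ closedBall (0 : ℝ) 2 | ∃ j, j0 ≤ j ∧ 2 ^ j ≤ C1 * G ^ n ∧ Bad n θ w K G (2 ^ j) x} ≤
      ENNReal.ofReal ε := by
  obtain ⟨c, δ, c0, δ0, h⟩ := badQ hn hθ w K C1 hw hK hC
  have r0 : (0 : ℝ) ≤ 2 ^ (-δ) := by positivity
  have r1 : (2 : ℝ) ^ (-δ) < 1 := Real.rpow_lt_one_of_one_lt_of_neg one_lt_two (by linarith)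
  have hs := (summable_geometric_of_lt_one r0 r1).mul_left c
  obtain ⟨j0, h1, h2⟩ := ((tendsto_sum_nat_add fun j => c * ((2 : ℝ) ^ (-δ)) ^ j).eventually
    (gt_mem_nhds hε) |>.and (eventually_forall_ge_atTop.mpr
    ((tendsto_pow_atTop_atTop_of_one_lt (one_lt_two (α := ℝ))).eventually h))).exists
  refine ⟨j0, fun G hG => (measure_mono (t := ⋃ i : ℕ, {x ∈ closedBall (0 : ℝ) 2 |
    2 ^ (i + j0) ≤ C1 * G ^ n ∧ Bad n θ w K G (2 ^ (i + j0)) x}) ?_).trans
    ((measure_iUnion_le _).trans (le_trans ?_ (ENNReal.ofReal_le_ofReal h1.le)))⟩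
  · rintro x ⟨x1, j, j1, j2⟩
    obtain ⟨i, rfl⟩ := Nat.exists_eq_add_of_le' j1
    exact Set.mem_iUnion.mpr ⟨i, x1, j2⟩
  · rw [ENNReal.ofReal_tsum_of_nonneg (fun _ => by positivity) ((summable_nat_add_iff j0).mpr hs)]
    refine ENNReal.tsum_le_tsum fun i => ?_
    by_cases h3 : 2 ^ (i + j0) ≤ C1 * G ^ n
    · simpa only [h3, true_and, ← Real.rpow_pow_comm zero_le_two] using h2 _ le_add_self G hG h3
    · simp [h3]

end Pool.Agent.H53.KmE
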