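import Mathlib
import Pool.Agent.H53.HitF
import Pool.Agent.H53.KmE

namespace Pool.Agent.H53.KmF

open Polynomial Finset Pool.Agent.H53.ApprA Pool.Agent.H53.ApprD Pool.Agent.H53.HitF
  Pool.Agent.H53.KmD Pool.Agent.H53.KmE

/-- action of an integer matrix -/
noncomputable def tw (n : ℕ) (a b c d : ℤ) (P : ℤ[X]) : ℤ[X] :=
  ∑ j ∈ range (n + 1), C (P.coeff j) * ((C a * X + C b) ^ j * (C c * X + C d) ^ (n - j))

lemma tw_deg (n : ℕ) (a b c d : ℤ) (P : ℤ[X]) : (tw n a b c d P).natDegree ≤ n := by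
  refine natDegree_sum_le_of_forall_le _ _ fun j hj => (natDegree_C_mul_le _ _).trans
    (natDegree_mul_le.trans ?_)
  have h1 := natDegree_pow_le_of_le j (natDegree_linear_le (a := a) (b := b))
  have h2 := natDegree_pow_le_of_le (n - j) (natDegree_linear_le (a := c) (b := d))
  have := mem_range.mp hj
  omega

lemma tw_eval {n : ℕ} (a b c d : ℤ) {P : ℤ[X]} (hP : P.natDegree ≤ n) (y : ℝ) (h : c * y + d ≠ 0) :
    aeval y (tw n a b c d P) = (c * y + d) ^ n * aeval ((a * y + b) / (c * y + d)) P := by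
  rw [aeval_sum P n hP, mul_sum, tw, map_sum]
  refine sum_congr rfl fun j hj => ?_
  obtain ⟨r, rfl⟩ := Nat.exists_eq_add_of_le (Nat.le_of_lt_succ (mem_range.mp hj))
  simp only [map_mul, map_pow, map_add, aeval_C, aeval_X, algebraMap_int_eq, eq_intCast,
    Nat.add_sub_cancel_left, div_pow, map_intCast]
  generalize c * y + d = v at h ⊢
  rw [pow_add]
  field_simp

lemma ev_map (P : ℤ[X]) (y : ℝ) : (P.map (Int.castRingHom ℝ)).eval y = aeval y P := by
  rw [eval_map, aeval_def]; rfl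

lemma tw_taylor {n : ℕ} {a b c d : ℤ} (h : a * d - b * c = 1) (hc : (c : ℝ) ≠ 0) {P : ℤ[X]}
    (hP : P.natDegree ≤ n) : (tw n a b c d P).map (Int.castRingHom ℝ) =
    ∑ j ∈ range (n + 1), C ((taylor (a / c : ℝ) (P.map (Int.castRingHom ℝ))).coeff j *
      (-1 / c) ^ j * c ^ (n - j)) * (X - C (-d / c : ℝ)) ^ (n - j) := by
  refine eq_of_infinite_eval_eq _ _ ((Set.finite_singleton (-d / c : ℝ)).infinite_compl.mono
    fun y hy => ?_)
  have h1 : (a : ℝ) * d - b * c = 1 := by exact_mod_cast h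
  have h2 : c * y + d ≠ 0 := fun h => hy (by rw [Set.mem_singleton_iff, eq_div_iff hc]; linarith)
  have h3 : (a * y + b) / (c * y + d) = -1 / c / (c * y + d) + a / c := by
    rw [div_eq_iff h2, add_mul, div_mul_cancel₀ _ h2]
    field_simp
    linear_combination -h1
  rw [Set.mem_setOf_eq, ev_map, tw_eval _ _ _ _ hP _ h2, h3, ← ev_map, ← taylor_eval,
    eval_eq_sum_range' (n := n + 1) ((natDegree_taylor _ _).trans_lt
      (Nat.lt_succ_of_le (natDegree_map_le.trans hP))), mul_sum, eval_finset_sum]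
  refine sum_congr rfl fun j hj => ?_
  obtain ⟨r, rfl⟩ := Nat.exists_eq_add_of_le (Nat.le_of_lt_succ (mem_range.mp hj))
  rw [Nat.add_sub_cancel_left, eval_mul, eval_C, eval_pow, eval_sub, eval_X, eval_C, mul_assoc _ _
    (_ ^ r), ← mul_pow, show c * (y - -d / c) = c * y + d by field_simp; ring, div_pow _ (_ + _),
    pow_add]
  generalize c * y + d = v at h2 ⊢
  field_simp

lemma taylor_bd {n : ℕ} {P : ℤ[X]} (hP : P.natDegree ≤ n) {Q s : ℝ} (hQ : Bd P Q) (hs : |s| ≤ 1)
    (j : ℕ) : |(taylor s (P.map (Int.castRingHom ℝ))).coeff j| ≤ (n + 1) * (2 ^ n * Q) := by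
  have := hQ.nonneg
  rw [taylor_coeff, eval_eq_sum_range' (n := n + 1) (Nat.lt_succ_of_le ((natDegree_hasseDeriv_le
    _ _).trans ((Nat.sub_le _ _).trans (natDegree_map_le.trans hP))))]
  refine (abs_sum_le_sum_abs _ _).trans ((sum_le_card_nsmul _ _ (2 ^ n * Q) fun i _ => ?_).trans
    (by simp))
  rw [hasseDeriv_coeff, coeff_map, abs_mul, abs_mul, abs_pow, Nat.abs_cast, eq_intCast]
  refine (mul_le_of_le_one_right (by positivity) (pow_le_one₀ (abs_nonneg _) hs)).trans ?_
  rcases le_or_gt (i + j) n with h | h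
  · refine mul_le_mul ?_ (hQ _) (abs_nonneg _) (by positivity)
    exact_mod_cast (Nat.choose_le_two_pow _ _).trans (Nat.pow_le_pow_right two_pos h)
  · rw [coeff_eq_zero_of_natDegree_lt (hP.trans_lt h)]
    simp only [Int.cast_zero, abs_zero, mul_zero]
    positivity

lemma tw_bd {n : ℕ} {a b c d : ℤ} (h : a * d - b * c = 1) {P : ℤ[X]} (hP : P.natDegree ≤ n)
    {Q G κ x : ℝ} (hQ : Bd P Q) (hκ : 0 < κ) (hG : 0 < G) (h1 : κ * G ≤ c) (h2 : c ≤ G)
    (h3 : |(a : ℝ) / c| ≤ 1) (h4 : |x - -d / c| ≤ 1 / G ^ 2) (i : ℕ) :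
    |(derivative^[i] ((tw n a b c d P).map (Int.castRingHom ℝ))).eval x| ≤
      (n + 1) * (n.factorial * ((n + 1) * 2 ^ n) / κ ^ n) * (Q * G ^ (2 * i) / G ^ n) := by
  have c0 : (0 : ℝ) < c := lt_of_lt_of_le (by positivity) h1
  have := hQ.nonneg
  rw [tw_taylor h c0.ne' hP, iterate_derivative_sum, eval_finset_sum, mul_assoc]
  refine (abs_sum_le_sum_abs _ _).trans ((sum_le_card_nsmul _ _ _ fun j hj => ?_).trans
    (by simp; rfl))
  obtain ⟨l, rfl⟩ := Nat.exists_eq_add_of_le (Nat.le_of_lt_succ (mem_range.mp hj))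
  rw [iterate_derivative_C_mul, iterate_derivative_X_sub_pow, Nat.add_sub_cancel_left]
  rcases lt_or_ge l i with h5 | h5
  · rw [Nat.descFactorial_of_lt h5]
    simp only [zero_smul, mul_zero, eval_zero, abs_zero]
    positivity
  obtain ⟨r, rfl⟩ := Nat.exists_eq_add_of_le h5
  simp only [eval_mul, eval_C, eval_smul, eval_pow, eval_sub, eval_X, nsmul_eq_mul, eval_natCast,
    abs_mul, abs_pow, abs_div, abs_neg, abs_one, abs_of_pos c0, Nat.abs_cast,
    Nat.add_sub_cancel_left]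
  have a1 := taylor_bd hP hQ h3 j
  have a2 : ((i + r).descFactorial i : ℝ) ≤ (j + (i + r)).factorial := by
    exact_mod_cast (Nat.le_of_dvd (Nat.factorial_pos _) ⟨_, ((Nat.factorial_mul_descFactorial
      (Nat.le_add_right i r)).symm.trans (mul_comm _ _))⟩).trans (Nat.factorial_le (by omega))
  have a3 : (1 / c : ℝ) ^ j * c ^ (i + r) ≤ G ^ (2 * (i + r)) / (κ * G) ^ (j + (i + r)) := by
    rw [show (1 / c : ℝ) ^ j * c ^ (i + r) = c ^ (2 * (i + r)) / c ^ (j + (i + r)) by
      rw [one_div_pow]; field_simp; ring]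
    gcongr
  rw [mul_assoc _ (_ ^ j)]
  refine (mul_le_mul (mul_le_mul a1 a3 (by positivity) (by positivity)) (mul_le_mul a2
    (pow_le_pow_left₀ (abs_nonneg _) h4 r) (by positivity) (by positivity)) (by positivity)
    (by positivity)).trans_eq ?_
  rw [one_div_pow, mul_pow]
  field_simp
  ring

lemma bd_pow {U : ℤ[X]} {H : ℝ} (h1 : U.natDegree ≤ 1) (h2 : Bd U H) (n : ℕ) :
    Bd (U ^ n) (4 ^ n * H ^ n) := by
  refine (bd_mm (n := n) (natDegree_pow_le_of_le n h1 |>.trans (by simp))).mono ?_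
  rw [show (4 : ℝ) = 2 * 2 by norm_num, mul_pow, mul_assoc, ← mul_pow]
  refine mul_le_mul_of_nonneg_left ?_ (by positivity)
  have := h2.nonneg
  induction n with
  | zero => simp [mm]
  | succ n ih =>
    rw [pow_succ, pow_succ, mm_mul]
    exact mul_le_mul ih ((mm_le h1 h2).trans_eq (by norm_num)) (mahlerMeasure_nonneg _)
      (by positivity)

lemma bd_lin (a b : ℤ) (H : ℝ) (ha : |(a : ℝ)| ≤ H) (hb : |(b : ℝ)| ≤ H) : Bd (C a * X + C b) H := by
  intro i
  rw [coeff_add, coeff_C_mul]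
  rcases i with _ | _ | i
  · simpa
  · rw [coeff_C_succ]; simpa
  · rw [coeff_C_succ]; simpa [coeff_X] using (abs_nonneg _).trans ha

lemma alpha {n : ℕ} (hn : n ≠ 0) {θ : ℝ} (hθ : θ ^ n = 2) (θ1 : 1 ≤ θ) {a b c d : ℤ}
    (h : a * d - b * c = 1) (a0 : 0 ≤ a) (a1 : a < c) (d0 : 0 ≤ d) (d1 : d < c) :
    ∃ (α : ℝ) (R : ℤ[X]), aeval α R = 0 ∧ R.natDegree = n ∧ R.IsPrimitive ∧
      (minpoly ℚ α).natDegree = n ∧ (c : ℝ) ^ n ≤ ht R ∧ ht R ≤ 3 * 4 ^ n * c ^ n ∧
      (∀ P : ℤ[X], P.natDegree ≤ n → aeval α P = 0 → ∃ m : ℤ, P = C m * R) ∧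
      (∀ β : ℝ, aeval β R = 0 → β ≠ α → 1 / (3 * c ^ 2) ≤ |β - α|) ∧ |α - a / c| ≤ 1 / c ^ 2 ∧
      ∀ P : ℤ[X], P.natDegree ≤ n →
        aeval θ (tw n a b c d P) = (c * θ + d) ^ n * aeval α P := by
  have h1 : (a : ℝ) * d - b * c = 1 := by exact_mod_cast h
  have c0 : (0 : ℝ) < c := by exact_mod_cast a0.trans_lt a1
  have d0' : (0 : ℝ) ≤ d := by exact_mod_cast d0
  have d1' : (d : ℝ) ≤ c := by exact_mod_cast d1.le
  have θ2 : θ ≤ 2 := (le_abs_self _).trans (norm_le_two hn hθ)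
  have v1 : c ≤ c * θ + d := by nlinarith
  have v0 : 0 < c * θ + d := by linarith
  let R : ℤ[X] := (C d * X + C (-b)) ^ n - C 2 * (C (-c) * X + C a) ^ n
  have hR : ∀ z : ℝ, aeval z R = (d * z - b) ^ n - 2 * (a - c * z) ^ n := fun z => by
    simp only [R, map_sub, map_mul, map_pow, map_add, aeval_C, aeval_X]
    simp only [algebraMap_int_eq, eq_intCast]
    push_cast
    ring
  have hR2 : ∀ y : ℝ, c * y + d ≠ 0 →
      (c * y + d) ^ n * aeval ((a * y + b) / (c * y + d)) R = y ^ n - 2 := fun y hy => by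
    have e := mul_div_cancel₀ (a * y + b) hy
    rw [hR, mul_sub, mul_left_comm, ← mul_pow, ← mul_pow]
    generalize (a * y + b) / (c * y + d) = u at e
    rw [show (c * y + d) * (d * u - b) = y by linear_combination d * e + y * h1,
      show (c * y + d) * (a - c * u) = 1 by linear_combination -c * e + h1, one_pow, mul_one]
  have hz : ∀ z : ℝ, a - c * z ≠ 0 → ∃ y : ℝ, c * y + d ≠ 0 ∧ z = (a * y + b) / (c * y + d) := by
    intro z hz
    have e := div_mul_cancel₀ (d * z - b) hz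
    generalize (d * z - b) / (a - c * z) = y at e
    have e2 : (c * y + d) * (a - c * z) = 1 := by linear_combination c * e + h1
    exact ⟨y, left_ne_zero_of_mul_eq_one e2, (eq_div_iff (left_ne_zero_of_mul_eq_one e2)).mpr
      (by linear_combination -e)⟩
  have r0 : aeval ((a * θ + b) / (c * θ + d)) R = 0 := by
    have := hR2 θ v0.ne'
    rwa [hθ, sub_self, mul_eq_zero_iff_left (pow_ne_zero _ v0.ne')] at this
  have r1 : R.natDegree ≤ n := (natDegree_sub_le _ _).trans (max_le ((natDegree_pow_le_of_le n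
    natDegree_linear_le).trans (by simp)) ((natDegree_C_mul_le _ _).trans
    ((natDegree_pow_le_of_le n natDegree_linear_le).trans (by simp))))
  have r2 : (c : ℝ) ^ n ≤ |(R.coeff n : ℝ)| := by
    have e1 := coeff_pow_of_natDegree_le (m := n) (natDegree_linear_le (a := d) (b := -b))
    have e2 := coeff_pow_of_natDegree_le (m := n) (natDegree_linear_le (a := -c) (b := a))
    rw [mul_one] at e1 e2
    rw [coeff_sub, coeff_C_mul, e1, e2]
    simp only [coeff_add, coeff_C_mul, coeff_X_one, coeff_C_succ, mul_one, add_zero]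
    push_cast
    have := abs_sub_abs_le_abs_sub (2 * (-c : ℝ) ^ n) (d ^ n)
    rw [abs_mul, abs_pow, abs_pow, abs_neg, abs_of_pos c0, abs_of_nonneg d0', abs_two,
      abs_sub_comm] at this
    linarith [pow_le_pow_left₀ d0' d1' n]
  have r3 : R.natDegree = n := natDegree_eq_of_le_of_coeff_ne_zero r1 fun h => by
    simp only [h, Int.cast_zero, abs_zero] at r2
    linarith [pow_pos c0 n]
  have r4 : ∀ P : ℤ[X], P.natDegree ≤ n → aeval ((a * θ + b) / (c * θ + d)) P = 0 →
      ∃ m : ℤ, P = C m * R := fun P hP h0 => by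
    have e := eq_mul_leadingCoeff_of_monic_of_dvd_of_natDegree_le (monic_X_pow_sub_C _ hn)
      (dvd_root hn hθ (by rw [tw_eval a b c d hP θ v0.ne', h0, mul_zero]))
      (by rw [natDegree_X_pow_sub_C]; exact tw_deg _ _ _ _ _ _)
    refine ⟨(tw n a b c d P).leadingCoeff, map_injective _ (Int.castRingHom ℝ).injective_int
      (eq_of_infinite_eval_eq _ _ ((Set.finite_singleton (a / c : ℝ)).infinite_compl.mono
      fun z hz' => ?_))⟩
    obtain ⟨y, y1, rfl⟩ := hz z fun h => hz' (by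
      rw [Set.mem_singleton_iff, eq_div_iff c0.ne']; linarith)
    rw [Set.mem_setOf_eq, ev_map, ev_map, map_mul]
    apply mul_left_cancel₀ (pow_ne_zero n y1)
    rw [← tw_eval _ _ _ _ hP _ y1, mul_left_comm, hR2 y y1]
    conv_lhs => rw [e]
    rw [map_mul, map_sub, map_pow, aeval_X, aeval_C, mul_comm]
    simp
  have R0 : R ≠ 0 := fun h => hn (by rw [← r3, h, natDegree_zero])
  refine ⟨_, R, r0, r3, fun r ⟨S, hS⟩ => ?_, ?_, r2.trans (bd_ht R n), ht_le fun i => ?_, r4,
    fun β b1 b2 => ?_, ?_, fun P hP => tw_eval _ _ _ _ hP _ v0.ne'⟩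
  · have : r ≠ 0 := by rintro rfl; simp [R0] at hS
    obtain ⟨m, hm⟩ := r4 S (by rwa [hS, natDegree_C_mul this] at r1) (by
      rwa [hS, map_mul, aeval_C, mul_eq_zero_iff_left (by simpa)] at r0)
    rw [hm, ← mul_assoc, ← C_mul, right_eq_mul₀ R0, ← C_1, C_inj] at hS
    exact IsUnit.of_mul_eq_one _ hS
  · have e : aeval ((a * θ + b) / (c * θ + d)) (R.map (algebraMap ℤ ℚ)) = 0 := by
      rwa [aeval_map_algebraMap]
    have e0 : R.map (algebraMap ℤ ℚ) ≠ 0 := (Polynomial.map_ne_zero_iff (RingHom.injective_int _)).mpr R0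
    refine le_antisymm ((natDegree_le_of_dvd (minpoly.dvd _ _ e) e0).trans
      (natDegree_map_le.trans r1)) (not_lt.mp fun h => ?_)
    have e1 := minpoly.ne_zero (IsAlgebraic.isIntegral ⟨_, e0, e⟩)
    have e2 := minpoly.aeval ℚ ((a * θ + b) / (c * θ + d))
    generalize minpoly ℚ ((a * θ + b) / (c * θ + d)) = p at h e1 e2
    have e3 : (IsLocalization.integerNormalization (nonZeroDivisors ℤ) p).natDegree < n :=
      (natDegree_le_iff_coeff_eq_zero.mpr fun i hi => notMem_support_iff.mp fun h' =>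
        mem_support_iff.mp (IsLocalization.integerNormalization_support _ p h')
        (coeff_eq_zero_of_natDegree_lt hi)).trans_lt h
    obtain ⟨m, hm⟩ := r4 _ e3.le (IsLocalization.integerNormalization_aeval_eq_zero _ p e2)
    by_cases m0 : m = 0
    · exact e1 (IsFractionRing.integerNormalization_eq_zero_iff.mp (by rw [hm, m0, C_0, zero_mul]))
    · rw [hm, natDegree_C_mul m0] at e3
      omega
  · have b1 : |b| ≤ c := abs_le.mpr ⟨by nlinarith, by nlinarith⟩
    have e1 := bd_pow natDegree_linear_le (bd_lin d (-b) c (by rwa [abs_of_nonneg d0'])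
      (by rw [Int.cast_neg, abs_neg]; exact_mod_cast b1)) n i
    have e2 := bd_pow natDegree_linear_le (bd_lin (-c) a c (by simp [abs_of_pos c0])
      (by exact_mod_cast (abs_of_nonneg a0).trans_le a1.le)) n i
    rw [coeff_sub, coeff_C_mul, Int.cast_sub, Int.cast_mul]
    refine (abs_sub _ _).trans ?_
    rw [abs_mul, Int.cast_two, abs_two]
    linarith
  · obtain ⟨y, y1, rfl⟩ := hz β fun h => by
      rw [hR, h, zero_pow hn, mul_zero, sub_zero, pow_eq_zero_iff hn] at b1
      have : (1 : ℝ) = 0 := by linear_combination d * h + c * b1 - h1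
      simp at this
    have e := hR2 y y1
    rw [b1, mul_zero, eq_comm, sub_eq_zero, ← hθ, pow_eq_pow_iff_of_ne_zero hn] at e
    obtain rfl : y = -θ := (e.resolve_left fun h => b2 (by rw [h])).1
    rw [div_sub_div _ _ y1 v0.ne', abs_div, div_le_div_iff₀ (by positivity)
      (abs_pos.mpr (mul_ne_zero y1 v0.ne')), abs_mul, abs_of_pos v0,
      show (a * -θ + b) * (c * θ + d) - (c * -θ + d) * (a * θ + b) = -(2 * θ) by
        linear_combination -2 * θ * h1, abs_neg, abs_of_pos (show 0 < 2 * θ by linarith)]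
    have : |c * -θ + d| ≤ 2 * c := abs_le.mpr ⟨by nlinarith, by nlinarith⟩
    have := mul_le_mul this (show c * θ + d ≤ 3 * c by nlinarith) v0.le (by positivity)
    nlinarith
  · rw [div_sub_div _ _ v0.ne' c0.ne', show (a * θ + b) * c - (c * θ + d) * a = -1 by
      linear_combination -h1, abs_div, abs_neg, abs_one, abs_of_pos (by positivity)]
    exact one_div_le_one_div_of_le (by positivity) (by nlinarith)

end Pool.Agent.H53.KmF
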