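import Mathlib
import Pool.Agent.H53.KmF

namespace Pool.Agent.H53.KmG

open Polynomial Finset MeasureTheory Metric Pool.Agent.H53.ApprA Pool.Agent.H53.ApprD
  Pool.Agent.H53.KmD

lemma tail (n : ℕ) (w : ℝ) (hw : n + 1 < w) : ∃ D : ℝ, 0 < D ∧ ∀ (S : Set ℤ[X]) (A Q c : ℝ),
    0 ≤ A → 0 < Q → 0 ≤ c → (∀ P ∈ S, P ≠ 0 ∧ P.natDegree ≤ n) → (∀ Y, Q ≤ Y → ∃ F : Finset ℤ[X],
      F.card ≤ (A * Y) ^ (n + 1) ∧ ∀ P ∈ S, ht P ≤ Y → P ∈ F) →
    volume {y : ℝ | ∃ P ∈ S, Q < ht P ∧ ∃ β : ℝ, aeval β P = 0 ∧ |y - β| < c * ht P ^ (-w)} ≤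
      ENNReal.ofReal (D * (c * (A * Q) ^ (n + 1) * Q ^ (-w))) := by
  classical
  obtain ⟨r, hr⟩ : ∃ r : ℝ, r = 2 ^ (n + 1) * 2 ^ (-w) := ⟨_, rfl⟩
  have r0 : 0 ≤ r := by rw [hr]; positivity
  have r1 : r < 1 := by
    rw [hr, ← Real.rpow_natCast, ← Real.rpow_add two_pos]
    exact Real.rpow_lt_one_of_one_lt_of_neg one_lt_two (by push_cast; linarith)
  refine ⟨2 * (n + 1) * 2 ^ (n + 1) * (1 - r)⁻¹, by have := sub_pos.mpr r1; positivity,
    fun S A Q c hA hQ hc hS h => ?_⟩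
  choose F f1 f2 using fun i : ℕ => h (2 ^ (i + 1) * Q)
    (le_mul_of_one_le_left hQ.le (one_le_pow₀ one_le_two))
  refine (measure_mono (t := ⋃ i : ℕ, ⋃ P ∈ (F i).filter (·.natDegree ≤ n),
    ⋃ β ∈ (P.aroots ℝ).toFinset, ball β (c * (2 ^ i * Q) ^ (-w))) ?_).trans
    ((measure_iUnion_le _).trans ?_)
  · rintro y ⟨P, p1, p2, β, p3, p4⟩
    obtain ⟨i, i1, i2⟩ := exists_nat_pow_near ((one_le_div hQ).mpr p2.le) one_lt_two
    rw [le_div_iff₀ hQ] at i1
    rw [div_lt_iff₀ hQ] at i2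
    simp only [Set.mem_iUnion, mem_ball, Real.dist_eq]
    exact ⟨i, P, mem_filter.mpr ⟨f2 i P p1 i2.le, (hS P p1).2⟩, β, Multiset.mem_toFinset.mpr
      (mem_aroots'.mpr ⟨(Polynomial.map_ne_zero_iff (RingHom.injective_int _)).mpr (hS P p1).1, p3⟩),
      p4.trans_le (mul_le_mul_of_nonneg_left (Real.rpow_le_rpow_of_nonpos (by positivity) i1
      (by linarith [(n.cast_nonneg : (0 : ℝ) ≤ n)])) hc)⟩
  rw [mul_right_comm, ← tsum_geometric_of_lt_one r0 r1, ← tsum_mul_left,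
    ENNReal.ofReal_tsum_of_nonneg (fun _ => by positivity)
    ((summable_geometric_of_lt_one r0 r1).mul_left _)]
  refine ENNReal.tsum_le_tsum fun i => (measure_biUnion_finset_le _ _).trans
    ((sum_le_card_nsmul _ _ (ENNReal.ofReal ((n + 1) * (2 * (c * (2 ^ i * Q) ^ (-w)))))
    fun P hP => (measure_biUnion_finset_le _ _).trans ?_).trans ?_)
  · simp only [Real.volume_ball, sum_const, nsmul_eq_mul]
    rw [← ENNReal.ofReal_natCast, ← ENNReal.ofReal_mul (by positivity)]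
    refine ENNReal.ofReal_le_ofReal (mul_le_mul_of_nonneg_right ?_ (by positivity))
    exact_mod_cast (Multiset.toFinset_card_le _).trans ((card_roots' _).trans
      (natDegree_map_le.trans ((mem_filter.mp hP).2.trans n.le_succ)))
  · rw [nsmul_eq_mul, ← ENNReal.ofReal_natCast, ← ENNReal.ofReal_mul (by positivity)]
    refine ENNReal.ofReal_le_ofReal ((mul_le_mul_of_nonneg_right ((Nat.cast_le.mpr
      (card_filter_le _ _)).trans (f1 i)) (by positivity)).trans_eq ?_)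
    rw [hr, Real.mul_rpow (by positivity) hQ.le, ← Real.rpow_pow_comm zero_le_two]
    ring

lemma count0 (n : ℕ) (Y : ℝ) (hY : 1 ≤ Y) : ∃ F : Finset ℤ[X], F.card ≤ (3 * Y) ^ (n + 1) ∧
    ∀ P : ℤ[X], P.natDegree ≤ n → ht P ≤ Y → P ∈ F := by
  classical
  refine ⟨(Fintype.piFinset fun _ : Fin (n + 1) => Icc (-⌊Y⌋) ⌊Y⌋).image (ofFn (n + 1)),
    (Nat.cast_le.mpr card_image_le).trans ?_, fun P h1 h2 => mem_image.mpr ⟨toFn (n + 1) P,
    Fintype.mem_piFinset.mpr fun i => ?_, ofFn_comp_toFn_eq_id_of_natDegree_lt (by omega)⟩⟩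
  · simp only [Fintype.card_piFinset, Int.card_Icc, prod_const, card_univ, Fintype.card_fin]
    push_cast
    refine pow_le_pow_left₀ (by positivity) ?_ _
    rw [← Int.cast_natCast, Int.toNat_of_nonneg (by
      have := Int.floor_nonneg.mpr (show 0 ≤ Y by linarith); omega)]
    push_cast
    linarith [Int.floor_le Y]
  · exact mem_Icc.mpr (abs_le.mp (Int.le_floor.mpr (by
      push_cast; exact (bd_ht P i).trans h2)))

lemma lips {n : ℕ} {P : ℤ[X]} (hP : P.natDegree ≤ n) {H y z : ℝ} (h : Bd P H) (hy : |y| ≤ 3)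
    (hz : |z| ≤ 3) : |aeval y P - aeval z P| ≤ (n + 1) * (n * 3 ^ n) * |y - z| * H := by
  rw [aeval_sum P n hP, aeval_sum P n hP, ← sum_sub_distrib]
  simp only [← mul_sub]
  refine (sum_bd n P H h _ _ fun i => le_rfl).trans (mul_le_mul_of_nonneg_right
    ((sum_le_card_nsmul _ _ (n * 3 ^ n * |y - z|) fun i hi => ?_).trans (by simp [mul_assoc]))
    h.nonneg)
  have := Nat.le_of_lt_succ (mem_range.mp hi)
  refine (abs_pow_sub_pow_le y z i).trans ?_
  rw [mul_assoc, mul_comm]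
  gcongr
  exact (pow_le_pow_left₀ (by positivity) (max_le hy hz) _).trans
    (pow_le_pow_right₀ (by norm_num) (by omega))

lemma pack (n : ℕ) (L : ℝ) (hL : 0 ≤ L) : ∃ A : ℝ, 0 ≤ A ∧ ∀ α H η Y : ℝ, |α| ≤ 2 → 0 < η →
    η ≤ H / 4 → H ≤ Y → (∀ D : ℤ[X], D ≠ 0 → D.natDegree ≤ n → Bd D (H / 2) → η < |aeval α D|) →
    ∃ F : Finset ℤ[X], F.card ≤ (A / H * Y) ^ (n + 1) ∧
      ∀ P : ℤ[X], P.natDegree ≤ n → Bd P Y → |aeval α P| ≤ L * (Y / H) * η → P ∈ F := by
  classical
  obtain ⟨B, hB⟩ : ∃ B : ℝ, B = 4 * (n * 2 ^ n + 1) := ⟨_, rfl⟩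
  have B0 : 4 ≤ B := by rw [hB]; simp
  have B1 : 0 < B := by linarith
  refine ⟨2 * (L + B) + 3, by linarith, fun α H η Y hα hη h1 h2 h => ?_⟩
  have H0 : 0 < H := by linarith
  have h3 : 1 ≤ Y / H := (one_le_div H0).mpr h2
  have hf : {P : ℤ[X] | P.natDegree ≤ n ∧ Bd P Y ∧ |aeval α P| ≤ L * (Y / H) * η}.Finite :=
    (finite_Bd n Y).subset fun P h => ⟨h.1, h.2.1⟩
  let N := ⌈(L + B) * (Y / H)⌉
  let g : ℤ[X] → Fin (n + 1) → ℝ := fun P => Fin.cons (aeval α P / η) fun l =>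
    P.coeff (l + 1) / (H / B)
  refine ⟨hf.toFinset, le_trans (Nat.cast_le.mpr (card_le_card_of_injOn (t := Fintype.piFinset
    fun _ : Fin (n + 1) => Icc (-N) N) (fun P l => ⌊g P l⌋) (fun P hP => ?_)
    fun P hP P' hP' e => ?_)) ?_, fun P a b c => hf.mem_toFinset.mpr ⟨a, b, c⟩⟩
  · obtain ⟨-, p2, p3⟩ := hf.mem_toFinset.mp hP
    refine Fintype.mem_piFinset.mpr fun l => ?_
    have : |g P l| ≤ N := by
      refine le_trans ?_ (Int.le_ceil _)
      refine Fin.cases ?_ (fun l => ?_) l <;> simp only [g, Fin.cons_zero, Fin.cons_succ, abs_div]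
      · rw [abs_of_pos hη, div_le_iff₀ hη]
        exact p3.trans (by gcongr; linarith)
      · rw [abs_of_pos H0, abs_of_pos B1, div_le_iff₀ (by positivity)]
        refine (p2 _).trans (le_trans (le_of_eq (by field_simp)) (mul_le_mul_of_nonneg_right
          (mul_le_mul_of_nonneg_right (le_add_of_nonneg_left hL) (by positivity)) (by positivity)))
    rw [abs_le] at this
    exact mem_Icc.mpr ⟨Int.le_floor.mpr (by push_cast; exact this.1),
      by exact_mod_cast (Int.floor_le _).trans this.2⟩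
  · have p1 := (hf.mem_toFinset.mp hP).1
    have p2 := (hf.mem_toFinset.mp hP').1
    have a1 := Int.abs_sub_lt_one_of_floor_eq_floor (congrFun e 0)
    have a2 := fun l : Fin n => Int.abs_sub_lt_one_of_floor_eq_floor (congrFun e l.succ)
    simp only [g, Fin.cons_zero, Fin.cons_succ, ← sub_div, ← map_sub, ← Int.cast_sub, ← coeff_sub,
      abs_div _ η, abs_div _ (H / B), abs_of_pos hη, abs_of_pos (show 0 < H / B by positivity),
      div_lt_one hη, div_lt_one (show 0 < H / B by positivity)] at a1 a2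
    have a3 := (natDegree_sub_le P P').trans (max_le p1 p2)
    refine sub_eq_zero.mp (by_contra fun h0 => (h _ h0 a3 fun i => ?_).not_gt a1)
    generalize P - P' = D at a1 a2 a3
    have a4 : H / B ≤ H / 4 := by gcongr
    rcases i with _ | i
    · rw [eq_sub_of_add_eq (aeval_fin D a3 α).symm]
      refine (abs_sub _ _).trans ?_
      have : |∑ l : Fin n, (D.coeff (l + 1) : ℝ) * α ^ (l + 1 : ℕ)| ≤ n * (2 ^ n * (H / B)) := by
        refine (abs_sum_le_sum_abs _ _).trans ((sum_le_card_nsmul _ _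
          (2 ^ n * (H / B)) fun l _ => ?_).trans (by simp))
        rw [abs_mul, abs_pow, mul_comm]
        exact mul_le_mul ((pow_le_pow_left₀ (abs_nonneg _) hα _).trans
          (pow_le_pow_right₀ one_le_two l.2)) (a2 l).le (abs_nonneg _) (by positivity)
      have a5 : (n * 2 ^ n + 1) * (H / B) = H / 4 := by rw [hB]; field_simp
      have a6 : 0 < H / B := by positivity
      linarith
    · rcases lt_or_ge i n with h | h
      · linarith [a2 ⟨i, h⟩]
      · rw [coeff_eq_zero_of_natDegree_lt (by omega)]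
        simp only [Int.cast_zero, abs_zero]
        linarith
  · simp only [Fintype.card_piFinset, Int.card_Icc, prod_const, card_univ, Fintype.card_fin]
    push_cast
    refine pow_le_pow_left₀ (by positivity) ?_ _
    rw [← Int.cast_natCast, Int.toNat_of_nonneg (by
      have : 0 ≤ N := Int.ceil_nonneg (by positivity)
      omega), div_mul_eq_mul_div, mul_div_assoc]
    push_cast
    linarith [Int.ceil_lt_add_one ((L + B) * (Y / H))]

lemma ratsel (m : ℝ) (hm : 0 < m) : ∃ κ ε : ℝ, 0 < κ ∧ 0 < ε ∧ ∀ (G : ℕ) (A Z : Set ℝ), 1 ≤ G →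
    A ⊆ Set.Icc (1 / G : ℝ) (1 - 1 / G) → ENNReal.ofReal m < volume A → volume Z ≤ ENNReal.ofReal ε →
    ∃ ξ ∈ A, ∃ a b c d : ℤ, a * d - b * c = 1 ∧ 0 ≤ a ∧ a < c ∧ 0 ≤ d ∧ d < c ∧ κ * G ≤ c ∧
      c ≤ G ∧ |ξ - a / c| ≤ 1 / (κ * G ^ 2) ∧ ∃ x : ℝ, |x - -d / c| ≤ 1 / G ^ 2 ∧ x ∉ Z := by
  classical
  refine ⟨m / 4, m / 4 * (m / 4), by positivity, by positivity, fun G A Z hG hA h1 h2 => ?_⟩
  generalize hκ : m / 4 = κ at h2 ⊢
  have κ0 : 0 < κ := by linarith
  have G0 : (0 : ℝ) < G := by exact_mod_cast hG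
  by_contra! hc
  let T := (Icc (1 : ℤ) G ×ˢ Ico (0 : ℤ) G).filter fun p => p.2 < p.1 ∧ ∃ d b : ℤ,
    p.2 * d - b * p.1 = 1 ∧ 0 ≤ d ∧ d < p.1 ∧ closedBall (-d / p.1 : ℝ) (1 / G ^ 2) ⊆ Z
  have hT : T.card * (1 / (G : ℝ) ^ 2) ≤ κ * κ := by
    choose! d b d1 d2 d3 d4 using fun p (hp : p ∈ T) => (mem_filter.mp hp).2.2
    have := (measure_mono (Set.iUnion₂_subset (s := fun p (_ : p ∈ T) => ball (-d p / p.1 : ℝ)
      (1 / G ^ 2 / 2)) fun p hp => (ball_subset_closedBall.trans (closedBall_subset_closedBall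
      (half_le_self (by positivity)))).trans (d4 p hp))).trans h2
    rw [measure_biUnion_finset (fun p hp q hq hpq => ?_) fun _ _ => measurableSet_ball] at this
    · simp only [Real.volume_ball, sum_const, nsmul_eq_mul] at this
      rwa [← ENNReal.ofReal_natCast, ← ENNReal.ofReal_mul (by positivity), mul_div_cancel₀ _
        two_ne_zero, ENNReal.ofReal_le_ofReal_iff (by positivity)] at this
    obtain ⟨p1, p2, -⟩ := mem_filter.mp hp
    obtain ⟨q1, q2, -⟩ := mem_filter.mp hq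
    simp only [mem_product, mem_Icc, mem_Ico] at p1 q1
    have e1 := d1 p hp
    have e2 := d1 q hq
    have e3 : -d p * q.1 - p.1 * -d q ≠ 0 := fun h => hpq (by
      have a1 : p.1 = q.1 := Int.dvd_antisymm (by omega) (by omega)
        ⟨p.2 * d q - b p * q.1, by linear_combination -q.1 * e1 - p.2 * h⟩
        ⟨q.2 * d p - b q * p.1, by linear_combination -p.1 * e2 + q.2 * h⟩
      have a2 : d p = d q := mul_right_cancel₀ (show q.1 ≠ 0 by omega) (by
        linear_combination d q * a1 - h)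
      rw [← a1, ← a2] at e2
      refine Prod.ext a1 (sub_eq_zero.mp (Int.eq_zero_of_abs_lt_dvd (m := p.1)
        ⟨p.2 * (b p - b q) - (p.2 - q.2) * b p, by linear_combination q.2 * e1 - p.2 * e2⟩
        (abs_lt.mpr ⟨by omega, by omega⟩))))
    have c1 : (0 : ℝ) < p.1 := by exact_mod_cast p1.1.1
    have c2 : (0 : ℝ) < q.1 := by exact_mod_cast q1.1.1
    refine ball_disjoint_ball ?_
    rw [add_halves, Real.dist_eq, div_sub_div _ _ c1.ne' c2.ne', abs_div, abs_of_pos (mul_pos c1 c2),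
      sq]
    refine div_le_div₀ (abs_nonneg _) (by exact_mod_cast Int.one_le_abs e3) (mul_pos c1 c2) ?_
    exact mul_le_mul (by exact_mod_cast p1.1.2) (by exact_mod_cast q1.1.2) c2.le G0.le
  refine h1.not_ge ((measure_mono (t := (⋃ c ∈ Icc (1 : ℤ) ⌊κ * G⌋, ⋃ a ∈ Ico 0 c,
    closedBall (a / c : ℝ) (1 / (G * c))) ∪ ⋃ p ∈ T, closedBall (p.2 / p.1 : ℝ) (1 / (κ * G ^ 2)))
    fun ξ hξ => ?_).trans ((measure_union_le _ _).trans ?_))
  · obtain ⟨q, q1, q2⟩ := Real.exists_rat_abs_sub_le_and_den_le ξ hG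
    have c0 : (1 : ℝ) ≤ q.den := by exact_mod_cast q.pos
    have q3 : |ξ - q| < 1 / (G * q.den) := q1.trans_lt (one_div_lt_one_div_of_lt (by positivity)
      (by nlinarith))
    have q4 := abs_lt.mp (q3.trans_le (one_div_le_one_div_of_le G0 (by nlinarith)))
    have q5 : 0 ≤ q.num := Rat.num_nonneg.mpr (by
      exact_mod_cast (show (0 : ℝ) ≤ q by linarith [(hA hξ).1, q4.2]))
    have q6 : q.num < q.den := by
      have : (q : ℝ) < 1 := by linarith [(hA hξ).2, q4.1]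
      rw [Rat.cast_def, div_lt_one (by linarith)] at this
      exact_mod_cast this
    rw [Rat.cast_def] at q3
    simp only [Set.mem_union, Set.mem_iUnion, mem_closedBall, Real.dist_eq]
    rcases le_or_gt (κ * G) q.den with h | h
    · obtain ⟨u, v, e⟩ := Int.isCoprime_iff_gcd_eq_one.mpr (show Int.gcd q.num q.den = 1 from
        q.reduced)
      have e1 : q.num * (u % q.den) - (-v - q.num * (u / q.den)) * q.den = 1 := by
        rw [Int.emod_def]; linear_combination e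
      have e2 := Int.emod_nonneg u (show (q.den : ℤ) ≠ 0 by omega)
      have e3 := Int.emod_lt_of_pos u (show (0 : ℤ) < q.den by omega)
      have e4 := q3.le.trans (one_div_le_one_div_of_le (a := κ * G ^ 2) (by positivity)
        (by nlinarith))
      exact .inr ⟨(q.den, q.num), mem_filter.mpr ⟨mem_product.mpr ⟨mem_Icc.mpr ⟨by omega, by omega⟩,
        mem_Ico.mpr ⟨q5, by omega⟩⟩, q6, _, _, e1, e2, e3, fun x hx => hc ξ hξ _ _ _ _ e1 q5 q6 e2 e3
        h (by exact_mod_cast q2) e4 x hx⟩, e4⟩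
    · exact .inl ⟨q.den, mem_Icc.mpr ⟨by omega, Int.le_floor.mpr h.le⟩, q.num, mem_Ico.mpr ⟨q5, q6⟩,
        q3.le⟩
  rw [show m = 2 * κ + 2 * κ by linarith, ENNReal.ofReal_add (by positivity) (by positivity)]
  refine add_le_add ((measure_biUnion_finset_le _ _).trans ((sum_le_card_nsmul _ _
    (ENNReal.ofReal (2 / G)) fun c hc => (measure_biUnion_finset_le _ _).trans ?_).trans ?_))
    ((measure_biUnion_finset_le _ _).trans ?_)
  · have c0 : (0 : ℝ) < c := by exact_mod_cast (mem_Icc.mp hc).1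
    simp only [Real.volume_closedBall, sum_const, nsmul_eq_mul, Int.card_Ico, sub_zero]
    rw [← ENNReal.ofReal_natCast, ← ENNReal.ofReal_mul (by positivity), ← Int.cast_natCast,
      Int.toNat_of_nonneg (by exact_mod_cast c0.le)]
    exact le_of_eq (by congr 1; field_simp)
  · rw [nsmul_eq_mul, ← ENNReal.ofReal_natCast, ← ENNReal.ofReal_mul (by positivity), Int.card_Icc,
      add_sub_cancel_right, ← Int.cast_natCast, Int.toNat_of_nonneg (Int.floor_nonneg.mpr
      (by positivity))]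
    exact ENNReal.ofReal_le_ofReal ((mul_le_mul_of_nonneg_right (Int.floor_le _)
      (by positivity)).trans_eq (by field_simp))
  · simp only [Real.volume_closedBall, sum_const, nsmul_eq_mul]
    rw [← ENNReal.ofReal_natCast, ← ENNReal.ofReal_mul (by positivity)]
    refine ENNReal.ofReal_le_ofReal (le_trans (le_of_eq ?_) ((mul_le_mul_of_nonneg_right hT
      (show 0 ≤ 2 / κ by positivity)).trans_eq (by field_simp)))
    field_simp

end Pool.Agent.H53.KmG
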