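import Mathlib
import Pool.Agent.H53.KmG

namespace Pool.Agent.H53.KmH

open Polynomial MeasureTheory Metric Filter Pool.Agent.H53.ApprA Pool.Agent.H53.ApprD
  Pool.Agent.H53.KmE Pool.Agent.H53.KmF Pool.Agent.H53.KmG

/-- points avoiding the neighbourhoods of roots -/
def Av (n : ℕ) (w c Q : ℝ) : Set ℝ := {y | ∀ P : ℤ[X], P.IsPrimitive → P.natDegree ≤ n → Q < ht P →
  ∀ β : ℝ, aeval β P = 0 → c * ht P ^ (-w) ≤ |y - β|}

lemma bd_of_mul {m : ℤ} (hm : m ≠ 0) {R : ℤ[X]} {Y : ℝ} (h : Bd (C m * R) Y) : Bd R Y := fun i => by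
  have := h i
  rw [coeff_C_mul, Int.cast_mul, abs_mul] at this
  exact (le_mul_of_one_le_left (abs_nonneg _) (by exact_mod_cast Int.one_le_abs hm)).trans this

lemma ht_unit {m : ℤ} (hm : IsUnit m) (R : ℤ[X]) : ht (C m * R) = ht R :=
  le_antisymm (ht_le (bd_of_mul hm.ne_zero (by
    rw [← mul_assoc, ← C_mul, Int.isUnit_mul_self hm, C_1, one_mul]; exact bd_ht R)))
    (ht_le (bd_of_mul hm.ne_zero (bd_ht _)))

lemma good {n : ℕ} (hn : 2 ≤ n) (w K C m : ℝ) (hw : n + 1 < w) (hK : 0 ≤ K) (hC : 1 ≤ C)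
    (hm : 0 < m) : ∃ Q : ℝ, ∀ δ > 0, ∀ A : Set ℝ, A ⊆ Set.Icc δ (1 - δ) →
    ENNReal.ofReal m < volume A → ∀ T : ℝ, ∃ ξ ∈ A, ∃ (α c : ℝ) (R : ℤ[X]), T ≤ c ∧ aeval α R = 0 ∧
      R.natDegree = n ∧ R.IsPrimitive ∧ (minpoly ℚ α).natDegree = n ∧ c ≤ ht R ∧
      (∀ P : ℤ[X], P.natDegree ≤ n → aeval α P = 0 → ∃ m : ℤ, P = Polynomial.C m * R) ∧
      (∀ β : ℝ, aeval β R = 0 → β ≠ α → 1 / (3 * c ^ 2) ≤ |β - α|) ∧ |ξ - α| ≤ 2 / c ∧
      ∀ Y, Q ≤ Y → Y ≤ C * ht R → ∀ P : ℤ[X], P.natDegree ≤ n → Bd P Y → aeval α P ≠ 0 →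
        K * Y ^ (1 - w) < |aeval α P| := by
  have n0 : n ≠ 0 := by omega
  have hθ : ((2 : ℝ) ^ (n⁻¹ : ℝ)) ^ n = 2 := Real.rpow_inv_natCast_pow zero_le_two n0
  have θ1 : 1 ≤ (2 : ℝ) ^ (n⁻¹ : ℝ) := Real.one_le_rpow one_le_two (by positivity)
  generalize (2 : ℝ) ^ (n⁻¹ : ℝ) = θ at hθ θ1
  have θ2 : θ ≤ 2 := (le_abs_self _).trans (KmD.norm_le_two n0 hθ)
  obtain ⟨κ, ε, κ0, ε0, h⟩ := ratsel m hm
  obtain ⟨j, hj⟩ := badAll hn hθ w (max (3 ^ n * (K * 2⁻¹ ^ (1 - w)))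
    ((n + 1) * (n.factorial * ((n + 1) * 2 ^ n) / κ ^ n))) (2 * C * (3 * 4 ^ n)) ε hw
    (le_max_of_le_left (by positivity)) (one_le_mul_of_one_le_of_one_le (by linarith)
    (by linarith [one_le_pow₀ (show (1 : ℝ) ≤ 4 by norm_num) (n := n)])) ε0
  refine ⟨2 ^ j, fun δ δ0 A hA h1 T => ?_⟩
  obtain ⟨G, G1, G2, G3, G4⟩ := ((eventually_ge_atTop 1).and ((tendsto_natCast_atTop_atTop.eventually
    (eventually_ge_atTop (1 / δ))).and ((tendsto_natCast_atTop_atTop.eventually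
    (eventually_ge_atTop (T / κ))).and (tendsto_natCast_atTop_atTop.eventually
    (eventually_ge_atTop (1 / κ)))))).exists
  have G5 : (1 : ℝ) ≤ G := by exact_mod_cast G1
  rw [← one_div_le (by linarith) δ0] at G2
  rw [div_le_iff₀' κ0] at G3 G4
  obtain ⟨ξ, x1, a, b, c, d, e1, e2, e3, e4, e5, e6, e7, e8, x, x2, x3⟩ := h G A _ G1
    (hA.trans (Set.Icc_subset_Icc G2 (by linarith))) h1 (hj G G5)
  obtain ⟨α, R, r1, r2, r3, r4, r5, r6, r7, r8, r9, r10⟩ := alpha n0 hθ θ1 e1 e2 e3 e4 e5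
  have c1 : (1 : ℝ) ≤ c := by exact_mod_cast (show 1 ≤ c by omega)
  have c2 : (c : ℝ) ≤ G := by exact_mod_cast e7
  have d1 : (0 : ℝ) ≤ d := by exact_mod_cast e4
  have d2 : (d : ℝ) ≤ c := by exact_mod_cast e5.le
  refine ⟨ξ, x1, α, c, R, G3.trans e6, r1, r2, r3, r4, (le_self_pow₀ c1 n0).trans r5, r7, r8, ?_,
    fun Y y1 y2 P p1 p2 p3 => not_le.mp fun p4 => x3 ⟨?_, ?_⟩⟩
  · have a1 := e8.trans (one_div_le_one_div_of_le (a := (c : ℝ)) (by linarith) (by nlinarith))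
    have a2 := r9.trans (one_div_le_one_div_of_le (a := (c : ℝ)) (by linarith) (by nlinarith))
    have a3 := abs_sub_le ξ ((a : ℝ) / c) α
    rw [abs_sub_comm ((a : ℝ) / c)] at a3
    linarith [show (2 : ℝ) / c = 1 / c + 1 / c by ring]
  · have a1 := abs_le.mp (x2.trans ((div_le_one (by positivity)).mpr (one_le_pow₀ G5)))
    have a2 : (d : ℝ) / c ≤ 1 := (div_le_one (by linarith)).mpr d2
    have a3 : (0 : ℝ) ≤ d / c := by positivity
    rw [neg_div] at a1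
    rw [mem_closedBall_zero_iff, Real.norm_eq_abs, abs_le]
    constructor <;> linarith
  have y3 : 1 ≤ Y := (one_le_pow₀ one_le_two).trans y1
  obtain ⟨i, i1, i2⟩ := exists_nat_pow_near y3 one_lt_two
  have v0 : (0 : ℝ) < c * θ + d := by positivity
  refine ⟨i + 1, ((pow_lt_pow_iff_right₀ one_lt_two).mp (y1.trans_lt i2)).le, ?_, tw n a b c d P,
    tw_deg _ _ _ _ _ _, by rw [r10 P p1]; positivity, ?_, fun l _ => (tw_bd e1 p1 (p2.mono i2.le)
    κ0 (by linarith) e6 c2 ?_ x2 l).trans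
    (mul_le_mul_of_nonneg_right (le_max_right _ _) (by positivity))⟩
  · have := mul_le_mul_of_nonneg_left (r6.trans (mul_le_mul_of_nonneg_left (pow_le_pow_left₀
      (by linarith) c2 n) (by positivity))) (show 0 ≤ C by linarith)
    rw [pow_succ]
    linarith
  · refine le_trans ?_ (mul_le_mul_of_nonneg_right (le_max_left _ _) (by positivity))
    rw [r10 P p1, abs_mul, abs_pow, abs_of_pos v0]
    refine (mul_le_mul (pow_le_pow_left₀ v0.le (show c * θ + d ≤ 3 * G by nlinarith) n)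
      (p4.trans (mul_le_mul_of_nonneg_left (Real.rpow_le_rpow_of_nonpos
      (x := 2⁻¹ * 2 ^ (i + 1)) (by positivity) (by rw [pow_succ]; linarith)
      (by linarith [(n.cast_nonneg : (0 : ℝ) ≤ n)])) hK)) (abs_nonneg _) (by positivity)).trans_eq ?_
    rw [Real.mul_rpow (by positivity) (by positivity)]
    ring
  · rw [abs_of_nonneg (div_nonneg (by exact_mod_cast e2) (by linarith)), div_le_one (by linarith)]
    exact_mod_cast e3.le

lemma step {n : ℕ} (hn : 2 ≤ n) {w c' c cm c2 Q0 u v ρ : ℝ} (hw : n + 1 < w) (h0 : 0 < c')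
    (h1 : c' < c) (h2 : c ≤ cm) (h3 : cm < c2) (hu : 0 ≤ u) (hv : v ≤ 1) (hρ : 0 < ρ)
    (h : 0 < volume (Set.Icc u v ∩ Av n w c Q0)) : ∃ p : ℝ × ℝ, u ≤ p.1 ∧ p.2 ≤ v ∧
      0 < volume (Set.Icc p.1 p.2 ∩ Av n w c' Q0) ∧ ∃ (α : ℝ) (R : ℤ[X]),
      (minpoly ℚ α).natDegree = n ∧ R.IsPrimitive ∧ R.natDegree = n ∧ aeval α R = 0 ∧
      ∀ y ∈ Set.Icc p.1 p.2, 0 < |y - α| ∧ |y - α| < c2 * ht R ^ (-w) ∧ |y - α| ≤ ρ := by
  have w2 : (2 : ℝ) ≤ n := by exact_mod_cast hn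
  have w3 : 3 < w := by linarith
  obtain ⟨m, -, m0, m1⟩ := ENNReal.lt_iff_exists_real_btwn.mp h
  rw [ENNReal.ofReal_pos] at m0
  have m2 : ENNReal.ofReal (m / 2) < volume (Set.Icc (u + m / 4) (v - m / 4) ∩ Av n w c Q0) := by
    refine not_le.mp fun h' => m1.not_ge ((measure_mono (t := (Set.Icc (u + m / 4) (v - m / 4) ∩
      Av n w c Q0) ∪ (Set.Icc u (u + m / 4) ∪ Set.Icc (v - m / 4) v)) ?_).trans
      ((measure_union_le _ _).trans ((add_le_add h' (measure_union_le _ _)).trans ?_)))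
    · rintro y ⟨⟨y1, y2⟩, y3⟩
      rcases le_total y (u + m / 4) with a | a
      · exact .inr (.inl ⟨y1, a⟩)
      rcases le_total y (v - m / 4) with b | b
      · exact .inl ⟨⟨a, b⟩, y3⟩
      · exact .inr (.inr ⟨b, y2⟩)
    · rw [Real.volume_Icc, Real.volume_Icc, ← ENNReal.ofReal_add (by linarith) (by linarith),
        ← ENNReal.ofReal_add (by linarith) (by linarith)]
      exact le_of_eq (by congr 1; ring)
  obtain ⟨D, D0, hD⟩ := tail n w hw
  obtain ⟨B, hB⟩ : ∃ B : ℝ, B = (n + 1) * (n * 3 ^ n) := ⟨_, rfl⟩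
  have B0 : 0 ≤ B := by rw [hB]; positivity
  have c0 : 0 < c2 := by linarith
  obtain ⟨A, A0, hA⟩ := pack n (B * (2 * c2)) (by positivity)
  obtain ⟨C, C1, C2⟩ := ((eventually_ge_atTop 1).and (ev (D * c' * A ^ (n + 1) / ((c2 - cm) / 2))
    ((n + 1 : ℕ) + -w) 0 (by push_cast; linarith))).exists
  have C0 : 0 < C := by linarith
  rw [Real.rpow_zero, Real.rpow_add C0, Real.rpow_natCast, div_mul_eq_mul_div,
    div_lt_one (by linarith)] at C2
  obtain ⟨Q, hQ⟩ := good hn w (1 + B * (c2 * (1 + C ^ w))) C (m / 2) hw (by positivity) C1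
    (by positivity)
  obtain ⟨Q1, q1, q2, q3⟩ : ∃ Q1, Q ≤ Q1 ∧ 2 * c2 ≤ Q1 ∧ 4 ≤ Q1 :=
    ⟨max Q (max (2 * c2) 4), by simp, by simp, by simp⟩
  obtain ⟨δ, δ0, δ1, δ2, δ3⟩ : ∃ δ, 0 < δ ∧ δ ≤ m / 4 ∧ δ ≤ ρ ∧ δ ≤ (c - c') * Q1 ^ (-w) :=
    ⟨min (m / 4) (min ρ ((c - c') * Q1 ^ (-w))), lt_min (by positivity) (lt_min hρ (mul_pos
      (by linarith) (by positivity))), by simp, by simp, by simp⟩
  obtain ⟨ξ, ⟨x1, x2⟩, α, t, R, t1, r1, r2, r3, r4, r5, r6, r7, r8, r9⟩ := hQ (m / 4) (by positivity) _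
    (Set.inter_subset_left.trans (Set.Icc_subset_Icc (by linarith) (by linarith))) m2
    (max (max Q1 (7 * c2)) ((2 + c2) / δ))
  simp only [max_le_iff] at t1
  obtain ⟨⟨t1, t2⟩, t3⟩ := t1
  have t0 : 0 < t := by linarith
  set H := ht R with hH
  have H0 : 0 < H := by linarith
  have inv : ∀ Y : ℝ, 1 ≤ Y → Y ^ (-w) ≤ 1 / Y ^ 3 := fun Y hY => by
    rw [one_div, ← Real.rpow_natCast, ← Real.rpow_neg (by linarith)]
    exact Real.rpow_le_rpow_of_exponent_le hY (by push_cast; linarith)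
  have sp : ∀ Y : ℝ, 0 < Y → Y ^ (1 - w) = Y * Y ^ (-w) := fun Y hY => by
    rw [sub_eq_add_neg, Real.rpow_add hY, Real.rpow_one]
  have s0 : 0 < H ^ (-w) := by positivity
  have s1 : H ^ (-w) ≤ 1 / t ^ 3 := (inv H (by linarith)).trans
    (one_div_le_one_div_of_le (by positivity) (by gcongr))
  have s2 : H ^ (-w) ≤ 1 / t := s1.trans (one_div_le_one_div_of_le t0
    (le_self_pow₀ (by linarith) three_ne_zero))
  have s3 : t * H ^ (-w) ≤ 1 := (le_div_iff₀' t0).mp s2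
  have s4 : 2 / t + c2 * H ^ (-w) ≤ δ := by
    rw [div_le_comm₀ δ0 t0] at t3
    refine le_trans ?_ t3
    rw [add_div, ← mul_one_div c2]
    gcongr
  have s5 : |α| ≤ 2 := by
    have a1 : 2 / t ≤ 1 := (div_le_one t0).mpr (by linarith)
    have a2 := abs_le.mp (r8.trans a1)
    rw [abs_le]; constructor <;> linarith [x1.1, x1.2]
  have lip : ∀ (P : ℤ[X]) (Y β : ℝ), P.natDegree ≤ n → Bd P Y → aeval β P = 0 → |β - α| ≤ 1 →
      |aeval α P| ≤ B * |β - α| * Y := fun P Y β p1 p2 p3 p4 => by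
    have := lips p1 p2 (y := β) (z := α) (by linarith [abs_sub_abs_le_abs_sub β α]) (by linarith)
    rwa [p3, zero_sub, abs_neg, ← hB] at this
  have key : ∀ y ∈ Set.Icc (α + cm * H ^ (-w)) (α + (cm + c2) / 2 * H ^ (-w)),
      cm * H ^ (-w) ≤ |y - α| ∧ |y - α| < c2 * H ^ (-w) := fun y hy => by
    rw [abs_of_nonneg (by nlinarith [hy.1])]
    exact ⟨by linarith [hy.1], by nlinarith [hy.2]⟩
  have r8' := abs_le.mp r8
  refine ⟨(α + cm * H ^ (-w), α + (cm + c2) / 2 * H ^ (-w)), by nlinarith [x1.1],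
    by nlinarith [x1.2], pos_iff_ne_zero.mpr fun hz => ?_, α, R, r4, r3, r2, r1, fun y hy =>
    ⟨lt_of_lt_of_le (mul_pos (by linarith) s0) (key y hy).1, (key y hy).2,
      by linarith [(key y hy).2, div_pos two_pos t0]⟩⟩
  have hT := hD {P | (P ≠ 0 ∧ P.natDegree ≤ n) ∧ ∃ β : ℝ, aeval β P = 0 ∧
    |β - α| ≤ 2 * c2 * H ^ (-w)} (A / H) (C * H) c' (by positivity) (by positivity) h0.le
    (fun P hP => hP.1) fun Y hY => by
    obtain ⟨F, f1, f2⟩ := hA α H (H ^ (1 - w)) Y s5 (by positivity) (by rw [sp H H0]; nlinarith)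
      (by nlinarith) fun P p1 p2 p3 => by
      by_cases p4 : aeval α P = 0
      · obtain ⟨k, rfl⟩ := r6 P p2 p4
        have := ht_le (bd_of_mul (by rintro rfl; simp at p1) p3)
        linarith
      · exact lt_of_le_of_lt (le_mul_of_one_le_left (by positivity) (le_add_of_nonneg_right
          (by positivity))) (r9 H (by linarith) (by nlinarith) P p2 (p3.mono (by linarith)) p4)
    refine ⟨F, f1, fun P ⟨⟨_, p2⟩, β, p3, p4⟩ p5 => f2 P p2 ((bd_ht P).mono p5) ?_⟩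
    refine (lip P Y β p2 ((bd_ht P).mono p5) p3 (by nlinarith)).trans ((mul_le_mul_of_nonneg_right
      (mul_le_mul_of_nonneg_left p4 B0) (by nlinarith)).trans_eq ?_)
    rw [sp H H0]
    field_simp
  refine lt_irrefl _ (lt_of_lt_of_le ?_ (((measure_mono ?_).trans (measure_union_le _ _)).trans
    (add_le_add hz.le hT) : volume (Set.Icc (α + cm * H ^ (-w)) (α + (cm + c2) / 2 * H ^ (-w))) ≤ _))
  · rw [zero_add, Real.volume_Icc, ENNReal.ofReal_lt_ofReal_iff (by nlinarith),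
      Real.mul_rpow C0.le H0.le, show A / H * (C * H) = A * C by field_simp, mul_pow]
    nlinarith [mul_lt_mul_of_pos_right C2 s0]
  intro y hy
  obtain ⟨y1, y2⟩ := key y hy
  refine or_iff_not_imp_left.mpr fun y3 => ?_
  simp only [Set.mem_inter_iff, hy, true_and, Av, Set.mem_setOf_eq, not_forall, not_le] at y3
  obtain ⟨P, p1, p2, p3, β, p4, p5⟩ := y3
  have p6 := (bd_ht P).one_le p1.ne_zero
  have p7 : |β - α| ≤ c2 * ht P ^ (-w) + c2 * H ^ (-w) := by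
    have a1 := abs_sub_le β y α
    rw [abs_sub_comm β y] at a1
    nlinarith [Real.rpow_pos_of_pos (show 0 < ht P by linarith) (-w)]
  rcases lt_or_ge (C * H) (ht P) with p8 | p8
  · have := Real.rpow_le_rpow_of_nonpos H0 (show H ≤ ht P by nlinarith) (show -w ≤ 0 by linarith)
    exact ⟨P, ⟨⟨p1.ne_zero, p2⟩, β, p4, by nlinarith⟩, p8, β, p4, p5⟩
  exfalso
  rcases le_total (ht P) Q1 with p9 | p9
  · have a1 := x2 P p1 p2 p3 β p4
    have a2 := mul_le_mul_of_nonneg_left (Real.rpow_le_rpow_of_nonpos (show 0 < ht P by linarith)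
      p9 (show -w ≤ 0 by linarith)) (show 0 ≤ c - c' by linarith)
    have a3 := abs_sub_le ξ α β
    have a4 := abs_sub_le α y β
    rw [abs_sub_comm α y] at a4
    linarith
  by_cases p10 : aeval α P = 0
  · obtain ⟨k, rfl⟩ := r6 P p2 p10
    have a1 := p1 k (dvd_mul_right _ _)
    rw [ht_unit a1] at p5 p7
    rw [map_mul, aeval_C, mul_eq_zero_iff_left (by simpa using a1.ne_zero)] at p4
    by_cases a2 : β = α
    · rw [a2] at p5
      nlinarith
    · have a3 := (r7 β p4 a2).trans (p7.trans (show _ ≤ 2 * c2 * (1 / t ^ 3) by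
        linarith [mul_le_mul_of_nonneg_left s1 c0.le]))
      rw [mul_one_div, div_le_div_iff₀ (by positivity) (by positivity)] at a3
      nlinarith [pow_pos t0 2]
  · have a1 : c2 * ht P ^ (-w) ≤ 1 / 2 := by
      have := (inv _ p6).trans (one_div_le_one_div_of_le (by linarith) (le_self_pow₀ p6 three_ne_zero))
      rw [le_div_iff₀ (by linarith)] at this
      nlinarith [Real.rpow_pos_of_pos (show 0 < ht P by linarith) (-w)]
    have a2 : H ^ (-w) ≤ C ^ w * ht P ^ (-w) := by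
      have := Real.rpow_le_rpow_of_nonpos (show 0 < ht P by linarith) p8 (show -w ≤ 0 by linarith)
      rwa [Real.mul_rpow C0.le H0.le, Real.rpow_neg C0.le, inv_mul_le_iff₀ (by positivity)] at this
    have a3 := (r9 _ (q1.trans p9) p8 P p2 (bd_ht P) p10).trans_le
      ((lip P _ β p2 (bd_ht P) p4 (by nlinarith)).trans (mul_le_mul_of_nonneg_right
      (mul_le_mul_of_nonneg_left (p7.trans (add_le_add_right (mul_le_mul_of_nonneg_left a2 c0.le) _))
      B0) (by linarith)))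
    rw [sp _ (by linarith)] at a3
    nlinarith [mul_pos (show 0 < ht P by linarith) (Real.rpow_pos_of_pos (show 0 < ht P by linarith) (-w))]

lemma closed_Av (n : ℕ) (w c Q : ℝ) : IsClosed (Av n w c Q) := by
  simp only [Av, Set.setOf_forall]
  exact isClosed_iInter fun _ => isClosed_iInter fun _ => isClosed_iInter fun _ => isClosed_iInter
    fun _ => isClosed_iInter fun _ => isClosed_iInter fun _ =>
    isClosed_le continuous_const (by fun_prop)

lemma main {n : ℕ} (hn : 2 ≤ n) {w c1 c2 : ℝ} (hw : n + 1 < w) (h0 : 0 < c1) (h1 : c1 < c2) :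
    ∃ ξ : ℝ, {α : ℝ | (minpoly ℚ α).natDegree = n ∧ ∃ P : ℤ[X], P.IsPrimitive ∧ P.natDegree = n ∧
      aeval α P = 0 ∧ |ξ - α| < c2 * ht P ^ (-w)}.Infinite ∧
      {α : ℝ | (minpoly ℚ α).natDegree = n ∧ ∃ P : ℤ[X], P.IsPrimitive ∧ P.natDegree = n ∧
      aeval α P = 0 ∧ |ξ - α| < c1 * ht P ^ (-w)}.Finite := by
  let c : ℕ → ℝ := fun k => c1 + (c2 - c1) / 2 / (k + 1)
  have a1 : ∀ k, c1 < c k := fun k => lt_add_of_pos_right _ (div_pos (by linarith) (by positivity))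
  have a2 : ∀ k, c (k + 1) < c k := fun k => add_lt_add_right (div_lt_div_of_pos_left (by linarith)
    (by positivity) (by simp)) _
  have a3 : ∀ k, c k ≤ c1 + (c2 - c1) / 2 := fun k => add_le_add_right
    (div_le_self (by linarith) (by simp)) _
  obtain ⟨D, D0, hD⟩ := tail n w hw
  obtain ⟨Q, q1, q2⟩ := ((eventually_ge_atTop 1).and (ev (D * c 0 * 3 ^ (n + 1))
    ((n + 1 : ℕ) + -w) 0 (by push_cast; linarith))).exists
  rw [Real.rpow_zero, Real.rpow_add (by linarith), Real.rpow_natCast] at q2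
  have b0 : 0 < volume (Set.Icc 0 1 ∩ Av n w (c 0) Q) := pos_iff_ne_zero.mpr fun hz => by
    refine lt_irrefl _ (lt_of_lt_of_le ?_ (((measure_mono ?_).trans (measure_union_le _ _)).trans
      (add_le_add hz.le (hD {P | P ≠ 0 ∧ P.natDegree ≤ n} 3 Q (c 0) (by norm_num) (by linarith)
      (h0.trans (a1 0)).le (fun P hP => hP) fun Y hY => (count0 n Y (q1.trans hY)).imp
      fun F h => ⟨h.1, fun P hP => h.2 P hP.2⟩)) : volume (Set.Icc (0 : ℝ) 1) ≤ _))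
    · rw [zero_add, Real.volume_Icc, ENNReal.ofReal_lt_ofReal_iff (by norm_num), mul_pow]
      linarith
    · intro y hy
      refine or_iff_not_imp_left.mpr fun y3 => ?_
      simp only [Set.mem_inter_iff, hy, true_and, Av, Set.mem_setOf_eq, not_forall, not_le] at y3
      obtain ⟨P, p1, p2, p3, β, p4, p5⟩ := y3
      exact ⟨P, ⟨p1.ne_zero, p2⟩, p3, β, p4, p5⟩
  choose! f f1 f2 f3 f4 using fun (k : ℕ) (p : ℝ × ℝ) (h : 0 ≤ p.1 ∧ p.2 ≤ 1 ∧
    0 < volume (Set.Icc p.1 p.2 ∩ Av n w (c k) Q)) => step hn hw (h0.trans (a1 (k + 1))) (a2 k) (a3 k)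
    (show _ < c2 by linarith) h.1 h.2.1 (Nat.one_div_pos_of_nat (n := k)) h.2.2
  let s : ℕ → ℝ × ℝ := fun k => Nat.rec (0, 1) f k
  have b1 : ∀ k, 0 ≤ (s k).1 ∧ (s k).2 ≤ 1 ∧
      0 < volume (Set.Icc (s k).1 (s k).2 ∩ Av n w (c k) Q) := fun k => by
    induction k with
    | zero => exact ⟨le_rfl, le_rfl, b0⟩
    | succ k ih => exact ⟨ih.1.trans (f1 k _ ih), (f2 k _ ih).trans ih.2.1, f3 k _ ih⟩
  obtain ⟨ξ, hξ⟩ := IsCompact.nonempty_iInter_of_sequence_nonempty_isCompact_isClosed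
    (fun k => Set.Icc (s k).1 (s k).2 ∩ Av n w c1 Q) (fun k => Set.inter_subset_inter_left _
    (Set.Icc_subset_Icc (f1 k _ (b1 k)) (f2 k _ (b1 k)))) (fun k =>
    (nonempty_of_measure_ne_zero (b1 k).2.2.ne').mono 
    fun y hy => ⟨hy.1, fun P p1 p2 p3 β p4 => (mul_le_mul_of_nonneg_right (a1 k).le
    (Real.rpow_nonneg (bd_ht P).nonneg _)).trans (hy.2 P p1 p2 p3 β p4)⟩) (isCompact_Icc.inter_right (closed_Av ..))
    fun k => isClosed_Icc.inter (closed_Av ..)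
  rw [Set.mem_iInter] at hξ
  refine ⟨ξ, fun hf => ?_, ((finite_Bd n Q).inter_of_left {P | P ≠ 0}).biUnion (t := fun P =>
    P.rootSet ℝ) (fun P _ => P.rootSet_finite ℝ) |>.subset ?_⟩
  · obtain ⟨e, e0, -, e1⟩ := fin_lb _ (hf.inter_of_left {α | α ≠ ξ}) (fun α => |ξ - α|)
      fun α h => abs_pos.mpr (sub_ne_zero.mpr h.2.symm)
    obtain ⟨k, hk⟩ := exists_nat_one_div_lt e0
    obtain ⟨α, R, r1, r2, r3, r4, r5⟩ := f4 k _ (b1 k)
    obtain ⟨r6, r7, r8⟩ := r5 ξ (hξ (k + 1)).1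
    exact (r8.trans_lt hk).not_ge (e1 α ⟨⟨r1, R, r2, r3, r4, r7⟩,
      (sub_ne_zero.mp (abs_pos.mp r6)).symm⟩)
  · rintro α ⟨-, P, p1, p2, p3, p4⟩
    exact Set.mem_biUnion (x := P) ⟨⟨p2.le, (bd_ht P).mono (not_lt.mp fun h =>
      p4.not_ge ((hξ 0).2 P p1 p2.le h α p3))⟩, p1.ne_zero⟩ ((mem_rootSet_of_injective
      (RingHom.injective_int _) p1.ne_zero).mpr p3)

end Pool.Agent.H53.KmH
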