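import Mathlib
import Pool.Agent.H53.DivBound

namespace Pool.Agent.H53.LastEq

open Finset

lemma ms1 (B : Multiset ℕ) (h : ∀ a ∈ B, 2 ≤ a) :
    B.sum + 1 ≤ B.prod + B.card ∧ 2 * B.card ≤ B.sum ∧ 1 ≤ B.prod ∧ (1 ≤ B.card → 2 ≤ B.prod) := by
  induction B using Multiset.induction_on with
  | empty => simp
  | cons a B ih =>
    obtain ⟨h1, h2, h3, _⟩ := ih fun b hb => h b (Multiset.mem_cons_of_mem hb)
    have ha := h a (Multiset.mem_cons_self _ _)
    simp only [Multiset.sum_cons, Multiset.prod_cons, Multiset.card_cons]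
    obtain ⟨a', rfl⟩ : ∃ a', a = a' + 1 := ⟨a - 1, by omega⟩
    obtain ⟨q, hq⟩ : ∃ q, B.prod = q + 1 := ⟨B.prod - 1, by omega⟩
    rw [hq] at h1 ⊢
    refine ⟨by nlinarith [Nat.zero_le (a' * q)], by omega, by nlinarith, fun _ => by nlinarith⟩

lemma ms2 (B : Multiset ℕ) (h : ∀ a ∈ B, 2 ≤ a) (hk : 2 ≤ B.card) :
    2 * B.sum ≤ B.prod + 2 * B.card := by
  induction B using Multiset.induction_on with
  | empty => simp at hk
  | cons a B _ =>
    obtain ⟨h1, _, _, h4⟩ := ms1 B fun b hb => h b (Multiset.mem_cons_of_mem hb)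
    have ha := h a (Multiset.mem_cons_self _ _)
    simp only [Multiset.sum_cons, Multiset.prod_cons, Multiset.card_cons] at *
    have h5 := h4 (by omega)
    obtain ⟨a', rfl⟩ : ∃ a', a = a' + 2 := ⟨a - 2, by omega⟩
    obtain ⟨q, hq⟩ : ∃ q, B.prod = q + 2 := ⟨B.prod - 2, by omega⟩
    rw [hq] at h1 ⊢
    nlinarith [Nat.zero_le (a' * q)]

/-- structure of a solution for prime `p` -/
lemma struct (p : ℕ) (hp : p.Prime) (s : Multiset ℕ) (hc : s.card = p) (hpos : ∀ x ∈ s, 0 < x)
    (he : s.prod = p * s.sum) :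
    ∃ (B : Multiset ℕ) (t : ℕ), (∀ a ∈ B, 2 ≤ a) ∧
      s = (p * t) ::ₘ (B + Multiset.replicate (p - 1 - B.card) 1) ∧
      p < B.prod ∧ B.prod ≤ 4 * p ∧
      (t + 1) * (B.prod - p) = B.prod + B.sum - B.card - 1 := by
  obtain ⟨x, hx, t, rfl⟩ := hp.prime.exists_mem_multiset_dvd (s := s) ⟨_, he⟩
  obtain ⟨r, rfl⟩ := Multiset.exists_cons_of_mem hx
  let B := r.filter (2 ≤ ·)
  have hB : ∀ a ∈ B, 2 ≤ a := fun a ha => (Multiset.mem_filter.mp ha).2
  have h1 : r.filter (fun a => ¬ 2 ≤ a) =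
      Multiset.replicate (r.filter (fun a => ¬ 2 ≤ a)).card 1 := by
    rw [Multiset.eq_replicate_card]
    intro b hb
    have := Multiset.mem_filter.mp hb
    have h2 := hpos b (Multiset.mem_cons_of_mem this.1)
    omega
  have h2 : r = B + Multiset.replicate (r.filter (fun a => ¬ 2 ≤ a)).card 1 := by
    rw [← h1]; exact (Multiset.filter_add_not _ r).symm
  generalize (r.filter (fun a => ¬ 2 ≤ a)).card = o at h2
  clear_value B
  subst h2
  have ht : 0 < t := Nat.pos_of_mul_pos_left (hpos _ hx)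
  simp only [Multiset.card_cons, Multiset.card_add, Multiset.card_replicate, Multiset.prod_cons,
    Multiset.prod_add, Multiset.prod_replicate, one_pow, mul_one, Multiset.sum_cons,
    Multiset.sum_add, Multiset.sum_replicate, smul_eq_mul] at hc he
  have he' : t * B.prod = p * t + (B.sum + o) := by
    apply Nat.eq_of_mul_eq_mul_left hp.pos
    rw [← he]; ring
  obtain ⟨a1, a2, a3, a4⟩ := ms1 B hB
  have hp2 := hp.two_le
  have hlt : p < B.prod := by
    by_contra hc2
    push Not at hc2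
    have := Nat.mul_le_mul_left t hc2
    have : B.sum + o = 0 := by nlinarith
    omega
  obtain ⟨d, hd⟩ : ∃ d, B.prod = p + d := ⟨B.prod - p, by omega⟩
  have he2 : t * d = B.sum + o := by rw [hd] at he'; nlinarith
  refine ⟨B, t, hB, by rw [show p - 1 - B.card = o by omega], hlt, ?_, ?_⟩
  · rcases Nat.lt_or_ge t 2 with h | h
    · have : t = 1 := by omega
      subst this
      rcases Nat.lt_or_ge B.card 2 with h3 | h3
      · rcases Nat.eq_zero_or_pos B.card with h4 | h4
        · rw [Multiset.card_eq_zero] at h4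
          subst h4
          simp at hlt
          omega
        · obtain ⟨a, rfl⟩ := Multiset.card_eq_one.mp (by omega : B.card = 1)
          simp at *
          omega
      · have := ms2 B hB h3
        omega
    · have := Nat.mul_le_mul_right d h
      omega
  · rw [show B.prod - p = d by omega, add_mul, he2]
    omega

theorem main : ¬ (∃ ε : ℝ, 0 < ε ∧ ∃ N : ℕ, ∀ n : ℕ, N ≤ n →
      (n : ℝ) ^ ε <
        (({s : Multiset ℕ | Multiset.card s = n ∧ (∀ x ∈ s, 0 < x) ∧
            s.prod = n * s.sum}.ncard : ℕ) : ℝ)) := by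
  classical
  rintro ⟨ε, hε, N, hN⟩
  obtain ⟨C, hC, hdiv⟩ := DivBound.card_divisors_le (ε / 2) (by linarith)
  obtain ⟨K, hK⟩ := DivBound.multiset_sum_le (1 + ε / 2) (by linarith)
  let m : Multiset ℕ → ℕ := fun B => B.prod + B.sum - B.card - 1
  let R : ℕ → Multiset ℕ → Prop := fun p B =>
    (∀ a ∈ B, 2 ≤ a) ∧ p < B.prod ∧ B.prod ≤ 4 * p ∧ (B.prod - p) ∣ m B
  have hT : ∀ p : ℕ, ∃ T : Finset (Multiset ℕ), p.Prime → N ≤ p →
      (p : ℝ) ^ ε ≤ T.card ∧ ∀ B ∈ T, R p B := by
    intro p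
    by_cases hp : p.Prime ∧ N ≤ p
    · have h1 := hN p hp.2
      set S := {s : Multiset ℕ | Multiset.card s = p ∧ (∀ x ∈ s, 0 < x) ∧ s.prod = p * s.sum}
      have hfin : S.Finite := by
        by_contra h
        rw [Set.Infinite.ncard h] at h1
        have : (0 : ℝ) ≤ (p : ℝ) ^ ε := by positivity
        simp at h1
        linarith
      have h2 : ∀ s : S, ∃ (B : Multiset ℕ) (t : ℕ), (∀ a ∈ B, 2 ≤ a) ∧
          s.1 = (p * t) ::ₘ (B + Multiset.replicate (p - 1 - B.card) 1) ∧
          p < B.prod ∧ B.prod ≤ 4 * p ∧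
          (t + 1) * (B.prod - p) = B.prod + B.sum - B.card - 1 :=
        fun s => struct p hp.1 s.1 s.2.1 s.2.2.1 s.2.2.2
      choose g t hg using h2
      have := hfin.fintype
      have hinj : Function.Injective g := by
        intro s s' h
        obtain ⟨_, b2, b3, _, b5⟩ := hg s
        obtain ⟨_, c2, _, _, c5⟩ := hg s'
        rw [← h, ← b5] at c5
        have := Nat.eq_of_mul_eq_mul_right (by omega) c5
        apply Subtype.ext
        rw [b2, c2, ← h, show t s' = t s by omega]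
      refine ⟨univ.image g, fun _ _ => ⟨?_, ?_⟩⟩
      · rw [Finset.card_image_of_injective _ hinj, Finset.card_univ, ← Nat.card_eq_fintype_card,
          Nat.card_coe_set_eq]
        exact h1.le
      · intro B hB
        obtain ⟨s, _, rfl⟩ := Finset.mem_image.mp hB
        obtain ⟨b1, _, b3, b4, b5⟩ := hg s
        exact ⟨b1, b3, b4, Dvd.intro_left _ b5⟩
    · exact ⟨∅, fun h1 h2 => absurd ⟨h1, h2⟩ hp⟩
  choose T hT using hT
  have key : ∀ P : Finset ℕ, (∀ p ∈ P, p.Prime ∧ N ≤ p) →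
      ∑ p ∈ P, (1 : ℝ) / p ≤ 4 ^ (1 + ε) * C * 2 ^ (ε / 2) * K := by
    intro P hP
    let TT := P.biUnion T
    have hTT : ∀ B ∈ TT, (∀ a ∈ B, 2 ≤ a) ∧ 2 ≤ B.prod := by
      intro B hB
      obtain ⟨p, hp, h⟩ := Finset.mem_biUnion.mp hB
      have h1 := (hT p (hP p hp).1 (hP p hp).2).2 B h
      have := (hP p hp).1.two_le
      exact ⟨h1.1, by have := h1.2.1; omega⟩
    let w : Multiset ℕ → ℝ := fun B => 4 ^ (1 + ε) * (B.prod : ℝ) ^ (-(1 + ε))
    have s1 : ∀ p ∈ P, (1 : ℝ) / p ≤ ∑ B ∈ TT, if B ∈ T p then w B else 0 := by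
      intro p hp
      obtain ⟨h1, h2⟩ := hT p (hP p hp).1 (hP p hp).2
      have hp0 : (0 : ℝ) < p := by exact_mod_cast (hP p hp).1.pos
      rw [← Finset.sum_filter, Finset.filter_mem_eq_inter,
        Finset.inter_eq_right.mpr (Finset.subset_biUnion_of_mem T hp)]
      have h3 : ∀ B ∈ T p, (p : ℝ) ^ (-(1 + ε)) ≤ w B := by
        intro B hB
        obtain ⟨_, b2, b3, _⟩ := h2 B hB
        have hQ : (0 : ℝ) < B.prod := by exact_mod_cast (by omega : 0 < B.prod)
        have : (4 * p : ℝ) ^ (-(1 + ε)) ≤ (B.prod : ℝ) ^ (-(1 + ε)) :=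
          Real.rpow_le_rpow_of_nonpos hQ (by exact_mod_cast b3) (by linarith)
        rw [Real.mul_rpow (by norm_num) hp0.le, Real.rpow_neg (by norm_num : (0 : ℝ) ≤ 4),
          inv_mul_le_iff₀ (by positivity)] at this
        exact this
      refine le_trans ?_ (Finset.card_nsmul_le_sum _ _ _ h3)
      rw [nsmul_eq_mul]
      refine le_trans (le_of_eq ?_) (mul_le_mul_of_nonneg_right h1 (by positivity))
      rw [← Real.rpow_add hp0, show ε + -(1 + ε) = -1 by ring, Real.rpow_neg_one, one_div]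
    refine (Finset.sum_le_sum s1).trans ?_
    rw [Finset.sum_comm]
    refine le_trans (Finset.sum_le_sum (g := fun B =>
      4 ^ (1 + ε) * C * 2 ^ (ε / 2) * (B.prod : ℝ) ^ (-(1 + ε / 2))) ?_) ?_
    · intro B hB
      obtain ⟨b1, b2⟩ := hTT B hB
      obtain ⟨a1, a2, _, _⟩ := ms1 B b1
      have hQ : (0 : ℝ) < B.prod := by exact_mod_cast (by omega : 0 < B.prod)
      rw [← Finset.sum_filter, Finset.sum_const, nsmul_eq_mul]
      have hm0 : m B ≠ 0 := by simp only [m]; omega
      have c1 : (P.filter (fun p => B ∈ T p)).card ≤ (m B).divisors.card := by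
        apply Finset.card_le_card_of_injOn (fun p => B.prod - p)
        · intro p hp
          obtain ⟨hp, h⟩ := Finset.mem_filter.mp hp
          exact Nat.mem_divisors.mpr ⟨((hT p (hP p hp).1 (hP p hp).2).2 B h).2.2.2, hm0⟩
        · intro p hp q hq h
          obtain ⟨hp, h1⟩ := Finset.mem_filter.mp hp
          obtain ⟨hq, h2⟩ := Finset.mem_filter.mp hq
          have e1 := ((hT p (hP p hp).1 (hP p hp).2).2 B h1).2.1
          have e2 := ((hT q (hP q hq).1 (hP q hq).2).2 B h2).2.1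
          simp only at h
          omega
      have c2 : ((m B : ℕ) : ℝ) ^ (ε / 2) ≤ 2 ^ (ε / 2) * (B.prod : ℝ) ^ (ε / 2) := by
        rw [← Real.mul_rpow (by norm_num) hQ.le]
        apply Real.rpow_le_rpow (by positivity) _ (by linarith)
        exact_mod_cast (by simp only [m]; omega : m B ≤ 2 * B.prod)
      have c3 : ((P.filter (fun p => B ∈ T p)).card : ℝ) ≤
          C * (2 ^ (ε / 2) * (B.prod : ℝ) ^ (ε / 2)) :=
        le_trans (by exact_mod_cast c1) ((hdiv _ hm0).trans (mul_le_mul_of_nonneg_left c2 hC.le))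
      refine (mul_le_mul_of_nonneg_right c3 (by positivity)).trans (le_of_eq ?_)
      have : (B.prod : ℝ) ^ (-(1 + ε / 2)) = (B.prod : ℝ) ^ (ε / 2) * (B.prod : ℝ) ^ (-(1 + ε)) := by
        rw [← Real.rpow_add hQ]; congr 1; ring
      rw [this]
      simp only [w]
      ring
    · rw [← Finset.mul_sum]
      exact mul_le_mul_of_nonneg_left (hK TT fun B hB => (hTT B hB).1) (by positivity)
  apply not_summable_one_div_on_primes
  rw [← summable_nat_add_iff N]
  refine summable_of_sum_le (c := 4 ^ (1 + ε) * C * 2 ^ (ε / 2) * K)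
    (fun n => Set.indicator_nonneg (fun _ _ => by positivity) _) fun u => ?_
  have := key ((u.image (· + N)).filter Nat.Prime) (by
    intro p hp
    obtain ⟨h1, h2⟩ := Finset.mem_filter.mp hp
    obtain ⟨n, _, rfl⟩ := Finset.mem_image.mp h1
    exact ⟨h2, by omega⟩)
  rw [Finset.sum_filter, Finset.sum_image (fun a _ b _ h => by simpa using h)] at this
  refine le_trans (le_of_eq ?_) this
  refine Finset.sum_congr rfl fun n _ => ?_
  simp [Set.indicator_apply]

end Pool.Agent.H53.LastEq
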