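import Mathlib

set_option autoImplicit false

namespace Pool.Agent.H53.Lp

open Function

/-- an almost kernel vector of a bounded symmetric map yields a nearby approximate eigenvalue -/
theorem approx_eig {D : Type*} [AddCommGroup D] [Module ℝ D] (b : D →ₗ[ℝ] D →ₗ[ℝ] ℝ)
    (hs : ∀ x y, b x y = b y x) (hp : ∀ x, 0 ≤ b x x) (T : D →ₗ[ℝ] D)
    (hT : ∀ x y, b (T x) y = b x (T y)) (M : ℝ) (hM0 : 0 < M)
    (hM : ∀ x, b (T x) (T x) ≤ M * b x x) (η : ℝ) (hη : 0 ≤ η) (u : D) (hu : 0 < b u u)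
    (h : b (T u) (T u) ≤ η ^ 2 * b u u) :
    ∃ m : ℝ, |m| ≤ η ∧ ∀ ε, 0 < ε → ∃ v, 0 < b v v ∧
      b (T v - m • v) (T v - m • v) ≤ ε ^ 2 * b v v := by
  set A : Set ℝ := {t | ∃ x, 0 < b x x ∧ t = b (T x) (T x) / b x x} with hA
  have hAb : BddBelow A := ⟨0, by rintro _ ⟨x, hx, rfl⟩; exact div_nonneg (hp _) hx.le⟩
  have hAn : A.Nonempty := ⟨_, u, hu, rfl⟩
  set μ := sInf A with hμ
  have hμ0 : 0 ≤ μ := le_csInf hAn (by rintro _ ⟨x, hx, rfl⟩; exact div_nonneg (hp _) hx.le)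
  have hμx : ∀ x, μ * b x x ≤ b (T x) (T x) := by
    intro x
    rcases (hp x).eq_or_lt with h0 | h0
    · rw [← h0, mul_zero]; exact hp _
    · rw [← le_div_iff₀ h0]; exact csInf_le hAb ⟨x, h0, rfl⟩
  have hμη : √μ ≤ η := by
    rw [Real.sqrt_le_left hη]
    exact le_of_mul_le_mul_right ((hμx u).trans h) hu
  set m := √μ with hm
  have hm2 : m * m = μ := Real.mul_self_sqrt hμ0
  have hm0 : 0 ≤ m := Real.sqrt_nonneg _
  by_contra hcon
  push Not at hcon
  obtain ⟨c1, hc1, h1⟩ := hcon m (by rwa [abs_of_nonneg hm0])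
  obtain ⟨c2, hc2, h2⟩ := hcon (-m) (by rwa [abs_neg, abs_of_nonneg hm0])
  have h1' : ∀ v, c1 ^ 2 * b v v ≤ b (T v - m • v) (T v - m • v) := fun v => by
    rcases (hp v).eq_or_lt with h0 | h0
    · rw [← h0, mul_zero]; exact hp _
    · exact (h1 v h0).le
  have h2' : ∀ v, c2 ^ 2 * b v v ≤ b (T v - (-m) • v) (T v - (-m) • v) := fun v => by
    rcases (hp v).eq_or_lt with h0 | h0
    · rw [← h0, mul_zero]; exact hp _
    · exact (h2 v h0).le
  have key : ∀ x, (μ + c1 ^ 2 * c2 ^ 2 / M) * b x x ≤ b (T x) (T x) := by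
    intro x
    set y := T (T x) - μ • x with hy
    have e1 : T (T x - (-m) • x) - m • (T x - (-m) • x) = y := by
      rw [hy, ← hm2]
      simp only [map_sub, map_smul, smul_sub, smul_smul, neg_smul, map_neg, mul_neg]
      module
    have h3 : c1 ^ 2 * c2 ^ 2 * b x x ≤ b y y := by
      have := h1' (T x - (-m) • x)
      rw [e1] at this
      refine le_trans ?_ this
      rw [mul_assoc]
      exact mul_le_mul_of_nonneg_left (h2' x) (by positivity)
    have h4 := hμx (x - M⁻¹ • y)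
    have h5 := hM y
    have h6 : b (T x) (T y) = b y y + μ * b x y := by
      rw [← hT (T x) y]
      have : T (T x) = y + μ • x := by rw [hy]; abel
      rw [this]; simp
    simp only [map_sub, map_smul, LinearMap.sub_apply, LinearMap.smul_apply, smul_eq_mul] at h4
    rw [hs (T y) (T x), hs y x, h6] at h4
    have h7 : M⁻¹ * (M⁻¹ * b (T y) (T y)) ≤ M⁻¹ * b y y := by
      refine mul_le_mul_of_nonneg_left ?_ (inv_pos.2 hM0).le
      rw [inv_mul_le_iff₀ hM0]; exact h5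
    have h8 : 0 ≤ μ * (M⁻¹ * (M⁻¹ * b y y)) := by have := hp y; positivity
    have h9 : c1 ^ 2 * c2 ^ 2 / M * b x x ≤ M⁻¹ * b y y := by
      rw [div_mul_eq_mul_div, div_eq_inv_mul]
      exact mul_le_mul_of_nonneg_left h3 (inv_pos.2 hM0).le
    nlinarith
  have : μ + c1 ^ 2 * c2 ^ 2 / M ≤ μ := by
    refine le_csInf hAn ?_
    rintro _ ⟨x, hx, rfl⟩
    rw [le_div_iff₀ hx]; exact key x
  have h10 : 0 < c1 ^ 2 * c2 ^ 2 / M := by positivity
  linarith

/-- inner product of sequences -/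
noncomputable def ip (u v : ℤ → ℝ) : ℝ := ∑' n, u n * v n

/-- the operator `H - E` -/
def Hop (P : ℤ → ℝ) (E : ℝ) (u : ℤ → ℝ) (n : ℤ) : ℝ := u (n + 1) + u (n - 1) + (P n - E) * u n

/-- `E` is an approximate eigenvalue with error `η` -/
def Ap (P : ℤ → ℝ) (E η : ℝ) : Prop :=
  ∃ u : ℤ → ℝ, (support u).Finite ∧ 0 < ip u u ∧ ip (Hop P E u) (Hop P E u) ≤ η ^ 2 * ip u u

theorem fin_shift {u : ℤ → ℝ} (h : (support u).Finite) (t : ℤ) :
    (support fun n => u (n + t)).Finite :=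
  h.preimage (f := fun n => n + t) (add_left_injective t).injOn

theorem fin_mul {u : ℤ → ℝ} (h : (support u).Finite) (w : ℤ → ℝ) :
    (support fun n => w n * u n).Finite :=
  h.subset fun _ hn => right_ne_zero_of_mul hn

theorem fin_add {u v : ℤ → ℝ} (h : (support u).Finite) (h' : (support v).Finite) :
    (support fun n => u n + v n).Finite :=
  (h.union h').subset (support_add u v)

theorem fin_Hop (P : ℤ → ℝ) (E : ℝ) {u : ℤ → ℝ} (h : (support u).Finite) :
    (support (Hop P E u)).Finite :=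
  fin_add (fin_add (fin_shift h 1) (fin_shift h (-1))) (fin_mul h fun n => P n - E)

theorem summ {u : ℤ → ℝ} (h : (support u).Finite) (w : ℤ → ℝ) : Summable fun n => w n * u n :=
  summable_of_finite_support (fin_mul h w)

theorem ip_shift (u v : ℤ → ℝ) (t : ℤ) : ip (fun n => u (n + t)) (fun n => v (n + t)) = ip u v :=
  (Equiv.addRight t).tsum_eq (fun n => u n * v n)

theorem ip_nonneg (u : ℤ → ℝ) : 0 ≤ ip u u := tsum_nonneg fun _ => mul_self_nonneg _

/-- finitely supported sequences -/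
def FS : Submodule ℝ (ℤ → ℝ) where
  carrier := {u | (support u).Finite}
  add_mem' := fin_add
  zero_mem' := by simp
  smul_mem' c u h := fin_mul h fun _ => c

noncomputable def bil : FS →ₗ[ℝ] FS →ₗ[ℝ] ℝ :=
  LinearMap.mk₂ ℝ (fun u v => ip u.1 v.1)
    (fun u u' v => by
      simp only [ip, Submodule.coe_add, Pi.add_apply, add_mul]
      exact (summ v.2 _).tsum_add (summ v.2 _))
    (fun c u v => by
      simp only [ip, Submodule.coe_smul, Pi.smul_apply, smul_eq_mul, mul_assoc, tsum_mul_left])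
    (fun u v v' => by
      simp only [ip, Submodule.coe_add, Pi.add_apply, mul_add]
      exact (summ v.2 _).tsum_add (summ v'.2 _))
    (fun c u v => by
      simp only [ip, Submodule.coe_smul, Pi.smul_apply, smul_eq_mul, mul_left_comm _ c,
        tsum_mul_left])

noncomputable def HL (P : ℤ → ℝ) (E : ℝ) : FS →ₗ[ℝ] FS where
  toFun u := ⟨Hop P E u.1, fin_Hop P E u.2⟩
  map_add' u v := by
    apply Subtype.ext; funext n
    simp only [Hop, Submodule.coe_add, Pi.add_apply]; ring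
  map_smul' c u := by
    apply Subtype.ext; funext n
    simp only [Hop, Submodule.coe_smul, Pi.smul_apply, smul_eq_mul, RingHom.id_apply]; ring

theorem Hop_symm (P : ℤ → ℝ) (E : ℝ) {u v : ℤ → ℝ} (hu : (support u).Finite)
    (hv : (support v).Finite) : ip (Hop P E u) v = ip u (Hop P E v) := by
  have h1 : ∑' n, u (n + 1) * v n = ∑' n, u n * v (n - 1) := by
    have := ip_shift u (fun n => v (n - 1)) 1
    simpa [ip] using this
  have h2 : ∑' n, u (n - 1) * v n = ∑' n, u n * v (n + 1) := by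
    have := ip_shift (fun n => u (n - 1)) v 1
    simpa [ip] using this.symm
  have s1 : Summable fun n => u n * v (n + 1) := summ (fin_shift hv 1) _
  have s2 : Summable fun n => u n * v (n - 1) := summ (fin_shift hv (-1)) _
  have s3 : Summable fun n => u n * ((P n - E) * v n) := summ (fin_mul hv fun n => P n - E) _
  simp only [ip, Hop, add_mul, mul_add]
  rw [((summ hv _).add (summ hv _)).tsum_add (summ hv _), (summ hv _).tsum_add (summ hv _),
    (s1.add s2).tsum_add s3, s1.tsum_add s2, h1, h2]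
  have h3 : ∑' n, (P n - E) * u n * v n = ∑' n, u n * ((P n - E) * v n) :=
    tsum_congr fun n => by ring
  rw [h3]
  ring

theorem Hop_bound (P : ℤ → ℝ) (E B : ℝ) (hB : ∀ n, |P n - E| ≤ B) {u : ℤ → ℝ}
    (hu : (support u).Finite) : ip (Hop P E u) (Hop P E u) ≤ (6 + 3 * B ^ 2 + 1) * ip u u := by
  have s1 := summ (fin_shift hu 1) fun n => u (n + 1)
  have s2 := summ (fin_shift hu (-1)) fun n => u (n + -1)
  have s3 := summ hu u
  have h1 : ip (Hop P E u) (Hop P E u) ≤ ∑' n, (3 * (u (n + 1) * u (n + 1)) +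
      3 * (u (n + -1) * u (n + -1)) + 3 * B ^ 2 * (u n * u n)) := by
    refine (summ (fin_Hop P E hu) _).tsum_le_tsum (fun n => ?_)
      (((s1.mul_left 3).add (s2.mul_left 3)).add (s3.mul_left _))
    have h2 : (P n - E) ^ 2 ≤ B ^ 2 := sq_le_sq' (abs_le.1 (hB n)).1 (abs_le.1 (hB n)).2
    have h3 := mul_le_mul_of_nonneg_right h2 (mul_self_nonneg (u n))
    simp only [Hop, ← sub_eq_add_neg]
    nlinarith [sq_nonneg (u (n+1) - u (n-1)), sq_nonneg (u (n+1) - (P n - E) * u n),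
      sq_nonneg (u (n-1) - (P n - E) * u n)]
  rw [((s1.mul_left 3).add (s2.mul_left 3)).tsum_add (s3.mul_left _),
    (s1.mul_left 3).tsum_add (s2.mul_left 3), tsum_mul_left, tsum_mul_left, tsum_mul_left] at h1
  have e1 := ip_shift u u 1
  have e2 := ip_shift u u (-1)
  have h0 := ip_nonneg u
  simp only [ip] at e1 e2 h1 h0 ⊢
  rw [e1, e2] at h1
  nlinarith

theorem Ap.sharpen {P : ℤ → ℝ} {E η B : ℝ} (hB : ∀ n, |P n| ≤ B) (hη : 0 ≤ η) (h : Ap P E η) :
    ∃ m : ℝ, |m| ≤ η ∧ ∀ ε, 0 < ε → Ap P (E + m) ε := by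
  obtain ⟨u, hu, hu0, hu1⟩ := h
  obtain ⟨m, hm, hv⟩ := approx_eig bil (fun x y => tsum_congr fun n => mul_comm _ _)
    (fun x => ip_nonneg _) (HL P E) (fun x y => Hop_symm P E x.2 y.2)
    (6 + 3 * (B + |E|) ^ 2 + 1) (by positivity)
    (fun x => Hop_bound P E _ (fun n => (abs_sub _ _).trans (by linarith [hB n])) x.2) η hη
    ⟨u, hu⟩ hu0 hu1
  refine ⟨m, hm, fun ε hε => ?_⟩
  obtain ⟨v, hv0, hv1⟩ := hv ε hε
  refine ⟨v.1, v.2, hv0, ?_⟩
  have : Hop P (E + m) v.1 = (HL P E v - m • v : FS).1 := by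
    funext n
    simp [HL, Hop]; ring
  rw [this]
  exact hv1

/-- perturbation, only the values of the potential on the support matter -/
theorem pert {P P' : ℤ → ℝ} {E E' η τ : ℝ} {u : ℤ → ℝ} (hu : (support u).Finite)
    (h : ip (Hop P E u) (Hop P E u) ≤ η ^ 2 * ip u u)
    (hτ : ∀ n, u n ≠ 0 → |(P' n - E') - (P n - E)| ≤ τ) :
    ip (Hop P' E' u) (Hop P' E' u) ≤ (2 * (η ^ 2 + τ ^ 2)) * ip u u := by
  have s1 := summ (fin_Hop P E hu) (Hop P E u)
  have s3 := summ hu u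
  have h1 : ip (Hop P' E' u) (Hop P' E' u) ≤
      ∑' n, (2 * (Hop P E u n * Hop P E u n) + 2 * τ ^ 2 * (u n * u n)) := by
    refine (summ (fin_Hop P' E' hu) _).tsum_le_tsum (fun n => ?_)
      ((s1.mul_left 2).add (s3.mul_left _))
    have e : Hop P' E' u n = Hop P E u n + ((P' n - E') - (P n - E)) * u n := by
      simp only [Hop]; ring
    have h3 : ((P' n - E') - (P n - E)) ^ 2 * (u n * u n) ≤ τ ^ 2 * (u n * u n) := by
      by_cases h0 : u n = 0
      · simp [h0]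
      · exact mul_le_mul_of_nonneg_right
          (sq_le_sq' (abs_le.1 (hτ n h0)).1 (abs_le.1 (hτ n h0)).2) (mul_self_nonneg _)
    rw [e]
    nlinarith [sq_nonneg (Hop P E u n - ((P' n - E') - (P n - E)) * u n)]
  rw [(s1.mul_left 2).tsum_add (s3.mul_left _), tsum_mul_left, tsum_mul_left] at h1
  simp only [ip] at h h1 ⊢
  nlinarith

theorem Ap.pert {P P' : ℤ → ℝ} {E E' η η' τ : ℝ} (h : Ap P E η)
    (hτ : ∀ n, |(P' n - E') - (P n - E)| ≤ τ) (hη : 2 * (η ^ 2 + τ ^ 2) ≤ η' ^ 2) :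
    Ap P' E' η' := by
  obtain ⟨u, hu, hu0, hu1⟩ := h
  exact ⟨u, hu, hu0, (Lp.pert hu hu1 fun n _ => hτ n).trans
    (mul_le_mul_of_nonneg_right hη hu0.le)⟩

theorem bdd_of_periodic {P : ℤ → ℝ} {p : ℕ} (hp : 0 < p) (h : ∀ n, P (n + p) = P n) :
    ∃ B, ∀ n, |P n| ≤ B := by
  refine ⟨∑ i ∈ Finset.range p, |P i|, fun n => ?_⟩
  have hp' : (0:ℤ) < p := by exact_mod_cast hp
  have h1 : P n = P (n % p) := by
    have := (Function.Periodic.int_mul (f := P) (c := (p:ℤ)) h (n / p)) (n % p)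
    rw [← this]
    congr 1
    have := Int.emod_add_ediv_mul n p
    simpa using this.symm
  have h2 := Int.emod_nonneg n hp'.ne'
  have h3 := Int.emod_lt_of_pos n hp'
  obtain ⟨i, hi⟩ := Int.eq_ofNat_of_zero_le h2
  rw [h1, hi]
  exact Finset.single_le_sum (f := fun i : ℕ => |P i|) (fun _ _ => abs_nonneg _)
    (Finset.mem_range.2 (by omega))

/-- the concatenation step -/
theorem step {P : ℤ → ℝ} {p : ℕ} (hp : 0 < p) (hP : ∀ n, P (n + p) = P n) {I : Set ℝ}
    (hI : IsCompact I) {η η' : ℝ} (hη : 0 ≤ η) (hη' : 0 < η') (h : ∀ E ∈ I, Ap P E η) (k : ℕ) :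
    ∃ (P' : ℤ → ℝ) (p' : ℕ), 0 < p' ∧ (∀ n, P' (n + p') = P' n) ∧ (∀ n, |P' n - P n| ≤ η) ∧
      (∀ E ∈ I, Ap P' E η') ∧ ∀ q : ℕ, 1 ≤ q → q ≤ k → ∃ n, η ≤ |P' (n + q * p) - P' n| := by
  obtain ⟨B, hB⟩ := bdd_of_periodic hp hP
  obtain ⟨t, htI, htf, hcov⟩ := hI.finite_cover_balls (show 0 < η' / 4 by positivity)
  obtain ⟨r, f, -, hf⟩ := htf.fin_param
  have h1 : ∀ i : Fin r, ∃ m : ℝ, |m| ≤ η ∧ Ap P (f i + m) (η' / 4) := fun i => by
    obtain ⟨m, hm, h2⟩ := (h (f i) (htI (hf ▸ ⟨i, rfl⟩))).sharpen hB hη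
    exact ⟨m, hm, h2 _ (by positivity)⟩
  choose m hm hA using h1
  choose v hv hv0 hv1 using hA
  obtain ⟨L, hL⟩ : ∃ L : ℕ, ∀ i n, v i n ≠ 0 → |n| ≤ L := by
    have hfin : (⋃ i, support (v i)).Finite := Set.finite_iUnion hv
    obtain ⟨L, hL⟩ := (hfin.image Int.natAbs).bddAbove
    refine ⟨L, fun i n hn => ?_⟩
    have := hL ⟨n, Set.mem_iUnion.2 ⟨i, hn⟩, rfl⟩
    rw [Int.abs_eq_natAbs]
    exact_mod_cast this
  set a : ℕ := p * (L + k + 1) with ha
  have hap : L + k + 1 ≤ a := Nat.le_mul_of_pos_left _ hp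
  set l : ℕ := 2 * a with hl
  have hl0 : (0:ℤ) < l := by omega
  set Λ : ℕ := (r + 1) * l with hΛ
  have hΛ0 : 0 < Λ := by positivity
  let m' : ℤ → ℝ := fun j => if h : 0 ≤ j ∧ j < r then m ⟨j.toNat, by omega⟩ else 0
  have hm' : ∀ j, |m' j| ≤ η := fun j => by
    simp only [m']
    split_ifs
    · exact hm _
    · simpa using hη
  let s : ℤ → ℝ := fun n => if n % Λ = r * l then η else -m' (n % Λ / l)
  have hΛz : (Λ : ℤ) = r * l + l := by rw [hΛ]; push_cast; ring
  have hrl : (0:ℤ) ≤ r * l := by positivity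
  have hper : ∀ (c : ℤ) n, P (n + c * p) = P n := fun c n =>
    Function.Periodic.int_mul (f := P) (c := (p:ℤ)) hP c n
  refine ⟨fun n => P n + s n, Λ, hΛ0, fun n => ?_, fun n => ?_, fun E hE => ?_, fun q hq1 hqk => ?_⟩
  · have e : (Λ : ℤ) = ((r + 1) * (2 * (L + k + 1)) : ℤ) * p := by
      rw [hΛ, hl, ha]; push_cast; ring
    have : P (n + Λ) = P n := by rw [e]; exact hper _ n
    simp only [s, this, Int.add_emod_right]
  · simp only [add_sub_cancel_left, s]
    split_ifs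
    · rw [abs_of_nonneg hη]
    · rw [abs_neg]; exact hm' _
  · obtain ⟨x, hx, hEx⟩ := Set.mem_iUnion₂.1 (hcov hE)
    rw [← hf] at hx
    obtain ⟨i, rfl⟩ := hx
    set T : ℤ := (i : ℤ) * l + a with hT
    have hTp : T = (i * (2 * (L + k + 1)) + (L + k + 1) : ℤ) * p := by
      rw [hT, hl, ha]; push_cast; ring
    have e1 : Hop (fun n => P (n + -T)) (f i + m i) (fun n => v i (n + -T)) =
        fun n => Hop P (f i + m i) (v i) (n + -T) := by
      funext n
      simp only [Hop]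
      congr 3 <;> ring
    refine ⟨fun n => v i (n + -T), fin_shift (hv i) _, by rw [ip_shift]; exact hv0 i, ?_⟩
    refine (pert (P := fun n => P (n + -T)) (E := f i + m i) (η := η' / 4) (τ := η' / 4)
      (fin_shift (hv i) _) (by rw [e1, ip_shift, ip_shift]; exact hv1 i) (fun n hn => ?_)).trans
      (mul_le_mul_of_nonneg_right (by nlinarith) (ip_nonneg _))
    have h2 := abs_le.1 (hL i _ hn)
    have hi : (i : ℤ) + 1 ≤ r := by have := i.2; omega
    have h3 : ((i : ℤ) + 1) * l ≤ r * l := mul_le_mul_of_nonneg_right hi hl0.le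
    have h4 : (0:ℤ) ≤ (i : ℤ) * l := by positivity
    have hn1 : (i : ℤ) * l ≤ n := by omega
    have hn2 : n < (i : ℤ) * l + l := by omega
    have hmod : n % Λ = n := Int.emod_eq_of_lt (by omega) (by nlinarith)
    have hdiv : n / l = i := by
      rw [Int.ediv_eq_iff_of_pos hl0]; constructor <;> nlinarith
    have hs : s n = -m i := by
      simp only [s, hmod, hdiv]
      rw [if_neg (by nlinarith)]
      simp only [m']
      rw [dif_pos ⟨by positivity, by omega⟩]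
      simp
    have hPn : P (n + -T) = P n := by
      have := hper (-(i * (2 * (L + k + 1)) + (L + k + 1) : ℤ)) n
      rw [hTp, ← neg_mul]; exact this
    simp only [hs, hPn]
    have h5 := (Metric.mem_ball.1 hEx).le
    rw [Real.dist_eq, abs_sub_comm] at h5
    rw [show P n + -m i - E - (P n - (f i + m i)) = f i - E by ring]
    exact h5
  · refine ⟨r * l, ?_⟩
    have hqp : (q : ℤ) * p < l := by
      have : q * p < l := by
        rw [hl, ha]; nlinarith
      exact_mod_cast this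
    have hqp0 : (0:ℤ) < (q : ℤ) * p := by positivity
    have hm1 : ((r:ℤ) * l) % Λ = r * l := Int.emod_eq_of_lt hrl (by omega)
    have hm2 : ((r:ℤ) * l + q * p) % Λ = r * l + q * p := Int.emod_eq_of_lt (by omega) (by omega)
    have hdiv : ((r:ℤ) * l + q * p) / l = r := by
      rw [Int.ediv_eq_iff_of_pos hl0]; constructor <;> nlinarith
    have hs1 : s (r * l) = η := by simp only [s, hm1, if_true]
    have hs2 : s (r * l + q * p) = 0 := by
      simp only [s, hm2, hdiv]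
      rw [if_neg (by omega)]
      simp [m']
    simp only [hs1, hs2, hper]
    rw [show P (r * l) + 0 - (P (r * l) + η) = -η by ring, abs_neg, abs_of_nonneg hη]

/-- a non-periodic limit-periodic potential near `P` with an interval of approximate
eigenvalues -/
theorem exists_limit {P : ℤ → ℝ} {p : ℕ} (hp : 0 < p) (hP : ∀ n, P (n + p) = P n) {η : ℝ}
    (hη : 0 < η) : ∃ (W : ℤ → ℝ) (a : ℝ), (∀ n, |W n - P n| ≤ 2 * η) ∧
      (∀ δ : ℝ, 0 < δ → ∃ p : ℕ, 0 < p ∧ ∃ Q : ℤ → ℝ,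
        (∀ n : ℤ, Q (n + (p : ℤ)) = Q n) ∧ ∀ n : ℤ, |W n - Q n| < δ) ∧
      ¬ (∃ p : ℕ, 0 < p ∧ ∀ n : ℤ, W (n + (p : ℤ)) = W n) ∧
      ∀ E ∈ Set.Icc a (a + η / 2), ∀ ε, 0 < ε → Ap W E ε := by
  obtain ⟨B, hB⟩ := bdd_of_periodic hp hP
  have h0 : Ap P 0 (√(6 + 3 * B ^ 2 + 1)) := by
    refine ⟨Pi.single 0 1, (Set.finite_singleton 0).subset Pi.support_single_subset, ?_, ?_⟩
    · rw [ip, tsum_eq_single 0 (fun n hn => by simp [hn])]; simp
    · rw [Real.sq_sqrt (by positivity)]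
      exact Hop_bound P 0 B (by simpa using hB)
        ((Set.finite_singleton 0).subset Pi.support_single_subset)
  obtain ⟨a, -, ha⟩ := h0.sharpen hB (Real.sqrt_nonneg _)
  rw [zero_add] at ha
  set I := Set.Icc a (a + η / 2) with hI
  let e : ℕ → ℝ := fun k => η * (1 / 8) ^ k
  have he : ∀ k, 0 < e k := fun k => by positivity
  let St : ℕ → Type := fun k => {x : (ℤ → ℝ) × ℕ //
    0 < x.2 ∧ (∀ n, x.1 (n + x.2) = x.1 n) ∧ ∀ E ∈ I, Ap x.1 E (e k)}
  have hstep : ∀ k (x : St k), ∃ y : St (k + 1), (∀ n, |y.1.1 n - x.1.1 n| ≤ e k) ∧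
      ∀ q : ℕ, 1 ≤ q → q ≤ k → ∃ n, e k ≤ |y.1.1 (n + q * x.1.2) - y.1.1 n| := fun k x => by
    obtain ⟨P', p', h1, h2, h3, h4, h5⟩ :=
      step x.2.1 x.2.2.1 isCompact_Icc (he k).le (he (k + 1)) x.2.2.2 k
    exact ⟨⟨(P', p'), h1, h2, h4⟩, h3, h5⟩
  choose nx hnx1 hnx2 using hstep
  let x0 : St 0 := ⟨(P, p), hp, hP, fun E hE => (ha (η / 2) (by positivity)).pert (τ := η / 2)
    (fun n => by
      rw [abs_le]; constructor <;> linarith [hE.1, hE.2]) (by simp only [e]; nlinarith)⟩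
  let X : ∀ k, St k := fun k => Nat.rec x0 nx k
  have hX : ∀ k n, dist ((X k).1.1 n) ((X (k + 1)).1.1 n) ≤ η * (1 / 8) ^ k := fun k n => by
    rw [dist_comm, Real.dist_eq]; exact hnx1 k (X k) n
  have hc : ∀ n, ∃ w, Filter.Tendsto (fun k => (X k).1.1 n) Filter.atTop (nhds w) := fun n =>
    cauchySeq_tendsto_of_complete (cauchySeq_of_le_geometric (1 / 8) η (by norm_num) (hX · n))
  choose W hW using hc
  have hd : ∀ k n, |W n - (X k).1.1 n| ≤ 8 / 7 * e k := fun k n => by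
    have := dist_le_of_le_geometric_of_tendsto (1 / 8) η (by norm_num) (hX · n) (hW n) k
    rw [dist_comm, Real.dist_eq] at this
    refine this.trans (le_of_eq ?_)
    simp only [e]; ring
  have hsm : ∀ δ, 0 < δ → ∃ k, e k < δ := fun δ hδ => by
    obtain ⟨k, hk⟩ := exists_pow_lt_of_lt_one (show 0 < δ / η by positivity)
      (show (1 / 8 : ℝ) < 1 by norm_num)
    exact ⟨k, by rwa [lt_div_iff₀ hη, mul_comm] at hk⟩
  refine ⟨W, a, fun n => ?_, fun δ hδ => ?_, ?_, fun E hE ε hε => ?_⟩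
  · have := hd 0 n
    simp only [e, pow_zero, mul_one] at this
    exact this.trans (by linarith)
  · obtain ⟨k, hk⟩ := hsm (δ / 2) (by positivity)
    exact ⟨(X k).1.2, (X k).2.1, (X k).1.1, (X k).2.2.1, fun n =>
      (hd k n).trans_lt (by linarith [he k])⟩
  · rintro ⟨q, hq, hWq⟩
    obtain ⟨n, hn⟩ := hnx2 q (X q) q hq le_rfl
    have h1 := abs_le.1 (hd (q + 1) n)
    have h2 := abs_le.1 (hd (q + 1) (n + q * (X q).1.2))
    have h3 : W (n + q * (X q).1.2) = W n := by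
      rw [mul_comm]
      exact Function.Periodic.int_mul (f := W) (c := (q:ℤ)) hWq _ n
    have h4 : e (q + 1) = e q / 8 := by simp only [e]; ring
    have h5 := he q
    change e q ≤ |(X (q + 1)).1.1 (n + q * (X q).1.2) - (X (q + 1)).1.1 n| at hn
    rw [le_abs] at hn
    rcases hn with hn | hn <;> linarith [h1.1, h1.2, h2.1, h2.2]
  · obtain ⟨k, hk⟩ := hsm (ε / 4) (by positivity)
    refine ((X k).2.2.2 E hE).pert (τ := 8 / 7 * e k) (fun n => ?_) ?_
    · simpa using hd k n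
    · have := he k
      nlinarith

end Pool.Agent.H53.Lp
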