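import Mathlib
import Pool.Agent.H53.MsC

open Set Finset

namespace Pool.Agent.H53.Ms

theorem typ (a s t M : ℝ) (ha : 0 ≤ a) (hs : 0 ≤ s) (ht : 0 ≤ t) (hsum : a + s + t = 1) (hM : 1 ≤ M)
    (E : ℝ → ℕ) (hE : EE a M E) (R : ℕ) (hR : 12 * M ≤ R) :
    ∃ ε0 : ℝ, 0 < ε0 ∧ ε0 ≤ 1 ∧ ∀ ε, 0 < ε → ε ≤ ε0 → ∃ Bad : ℕ → ℕ → Set (ℝ × ℝ), HH R (2 * M * R ^ 2 / ε) Bad ∧
      ∀ P z, Dg s t (ε ^ 2 / M) E P z → ∃ g k, 1 ≤ k ∧ k ≤ g ∧ z ∈ Bad g k := by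
  have R1 : (1:ℝ) ≤ R := by linarith
  have aux : ∀ x : ℝ, 0 < x → 4 ≤ ⌈4 / x⌉₊ * x ∧ 0 < 1 / (R:ℝ) ^ (2 * ⌈4 / x⌉₊ + 3) ∧
      1 / (R:ℝ) ^ (2 * ⌈4 / x⌉₊ + 3) ≤ 1 ∧
      ∀ ε, ε ≤ 1 / (R:ℝ) ^ (2 * ⌈4 / x⌉₊ + 3) → ε * R ^ (2 * ⌈4 / x⌉₊ + 3) ≤ 1 := fun x hx =>
    ⟨(div_le_iff₀ hx).1 (Nat.le_ceil _), by positivity, (div_le_one (by positivity)).2 (one_le_pow₀ R1),
      fun ε h => (le_div_iff₀ (by positivity)).1 h⟩
  by_cases h0 : s = 0 ∧ t = 0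
  · refine ⟨1 / 2, by norm_num, by norm_num, fun ε h1 h2 => ⟨fun _ _ => ∅, fun g k _ _ S _ _ =>
      ⟨1, 0, 0, Or.inl one_ne_zero, fun z _ h => h.elim⟩, fun P z hP => ?_⟩⟩
    obtain ⟨A, B, C, h⟩ := lines a s t M ε hsum hM E hE h1 (by linarith) P
    obtain ⟨a1, a2, a3, _⟩ := h hP.1 hP.2.1
    rw [h0.1, Real.rpow_zero] at a2
    rw [h0.2, Real.rpow_zero] at a3
    linarith [one_le_max a1, max_le a2 a3]
  · rcases le_total t s with h | h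
    · have s0 : 0 < s := lt_of_le_of_ne hs fun e => h0 ⟨e.symm, by linarith⟩
      obtain ⟨b1, b2, b3, b4⟩ := aux s s0
      exact ⟨_, b2, b3, fun ε h1 h2 => typ0 a s t M ε ha ht h hsum hM E hE R _ hR b1 h1 (b4 ε h2)⟩
    · have t0 : 0 < t := lt_of_le_of_ne ht fun e => h0 ⟨by linarith, e.symm⟩
      obtain ⟨b1, b2, b3, b4⟩ := aux t t0
      refine ⟨_, b2, b3, fun ε h1 h2 => ?_⟩
      obtain ⟨Bad, c1, c2⟩ := typ0 a t s M ε ha hs h (by linarith) hM E hE R _ hR b1 h1 (b4 ε h2)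
      exact ⟨_, HH_swap c1, fun P z hP => c2 (P.2.1, P.1, P.2.2) z.swap ⟨hP.1, hP.2.1, hP.2.2.2, hP.2.2.1⟩⟩

lemma mkE (d : ℕ → ℕ) (h2 : ∀ n, 2 ≤ d n) (M : ℕ) (hM : ∀ n, d n ≤ M) (a : ℝ) (ha : 0 ≤ a) :
    ∃ E : ℝ → ℕ, EE a M E ∧ ∀ (u : ℝ) (q n : ℕ), 1 ≤ u → ¬ E u ∣ q → (∏ m ∈ Finset.range n, d m) ∣ q →
      2 * ((∏ m ∈ Finset.range n, d m : ℕ) : ℝ) ≤ u ^ a := by
  classical
  set D : ℕ → ℕ := fun n => ∏ m ∈ Finset.range n, d m with hD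
  have D0 : ∀ n, 0 < D n := fun n => Finset.prod_pos fun m _ => by linarith [h2 m]
  have Ds : ∀ n, D (n + 1) = D n * d n := fun n => Finset.prod_range_succ _ _
  have Dd : ∀ n n', n ≤ n' → D n ∣ D n' := fun n n' h => Finset.prod_dvd_prod_of_subset _ _ _ (Finset.range_mono h)
  have Dn : ∀ n, n < D n := by
    intro n
    induction n with
    | zero => exact D0 0
    | succ n ih => rw [Ds]; nlinarith [h2 n]
  have hex : ∀ u : ℝ, ∃ n, u ^ a < D (n + 1) := fun u => by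
    obtain ⟨n, hn⟩ := exists_nat_gt (u ^ a)
    exact ⟨n, hn.trans (by exact_mod_cast (Nat.lt_succ_self n).trans (Dn (n + 1)))⟩
  have hle : ∀ u : ℝ, 1 ≤ u → (D (Nat.find (hex u)) : ℝ) ≤ u ^ a := by
    intro u hu
    rcases Nat.eq_zero_or_pos (Nat.find (hex u)) with h | h
    · rw [h]; simpa [hD] using Real.one_le_rpow hu ha
    · have := Nat.find_min (hex u) (m := Nat.find (hex u) - 1) (by omega)
      rw [Nat.sub_add_cancel h] at this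
      exact not_lt.1 this
  refine ⟨fun u => D (Nat.find (hex u)), ⟨hle, fun u hu => ?_, fun u u' hu h => Dd _ _ (Nat.find_mono fun n hn => ?_)⟩,
    fun u q n hu h1 h3 => ?_⟩
  · refine (Nat.find_spec (hex u)).le.trans ?_
    rw [Ds, mul_comm]
    exact_mod_cast Nat.mul_le_mul_right _ (hM _)
  · exact (Real.rpow_le_rpow (by linarith) h ha).trans_lt hn
  · have h4 : n + 1 ≤ Nat.find (hex u) := by
      by_contra hc
      exact h1 ((Dd _ _ (by omega)).trans h3)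
    have h5 := Nat.le_of_dvd (D0 _) (Dd _ _ h4)
    rw [Ds] at h5
    refine le_trans ?_ (hle u hu)
    have : 2 * D n ≤ D (Nat.find (hex u)) := by nlinarith [h2 n]
    exact_mod_cast this

lemma conv (s c q x : ℝ) (hs : 0 ≤ s) (hc : 0 < c) (hq : 0 < q) (h0 : 0 ≤ x) (h1 : x ≤ 1)
    (h : ¬ q * (if s = 0 then 0 else x ^ (1 / s)) > c) : x ≤ (q / c) ^ (-s) := by
  split_ifs at h with h2
  · rw [h2, neg_zero, Real.rpow_zero]; exact h1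
  · have h3 : x ^ (1 / s) ≤ (q / c)⁻¹ := by
      rw [inv_div, le_div_iff₀ hq, mul_comm]; exact not_lt.1 h
    have := Real.rpow_le_rpow (by positivity) h3 hs
    rwa [one_div, Real.rpow_inv_rpow h0 h2, Real.inv_rpow (by positivity), ← Real.rpow_neg (by positivity)] at this

theorem main (d : ℕ → ℕ) (h2 : ∀ n, 2 ≤ d n) (M : ℕ) (hM : ∀ n, d n ≤ M) (i j k : Fin 2 → ℝ)
    (h : ∀ t, 0 ≤ i t ∧ i t ≤ 1 ∧ 0 ≤ j t ∧ j t ≤ 1 ∧ 0 ≤ k t ∧ k t ≤ 1 ∧ i t + j t + k t = 1) :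
    ∃ x y : ℝ, ∀ t : Fin 2, ∃ c : ℝ, 0 < c ∧ ∀ q : ℕ, 0 < q →
      ((q : ℝ) * (if i t = 0 then 0 else
          (sInf ((fun n : ℕ => (1 : ℝ) / ((∏ m ∈ Finset.range n, d m : ℕ) : ℝ)) ''
            {n : ℕ | (∏ m ∈ Finset.range n, d m) ∣ q})) ^ (1 / i t)) > c ∨
       (q : ℝ) * (if j t = 0 then 0 else
          |(q : ℝ) * x - (round ((q : ℝ) * x) : ℝ)| ^ (1 / j t)) > c ∨
       (q : ℝ) * (if k t = 0 then 0 else
          |(q : ℝ) * y - (round ((q : ℝ) * y) : ℝ)| ^ (1 / k t)) > c) := by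
  have M2 : (2:ℝ) ≤ M := by exact_mod_cast (h2 0).trans (hM 0)
  choose E hE hE' using fun t => mkE d h2 M hM (i t) (h t).1
  choose e e0 e1 he using fun t => typ (i t) (j t) (k t) M (h t).1 (h t).2.2.1 (h t).2.2.2.2.1 (h t).2.2.2.2.2.2
    (by linarith) (E t) (hE t) (24 * M) (by push_cast; linarith)
  set ε := min (e 0) (e 1) with hε
  have ε0 : 0 < ε := lt_min (e0 0) (e0 1)
  have ε1 : ε ≤ 1 := (min_le_left _ _).trans (e1 0)
  choose Bad hB hB' using fun t => he t ε ε0 (by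
    fin_cases t
    · exact min_le_left _ _
    · exact min_le_right _ _)
  obtain ⟨z, hz⟩ := cantor (24 * M) (by have := (h2 0).trans (hM 0); omega) _ (by push_cast; positivity) Bad hB
  have c0 : 0 < ε ^ 2 / M := by positivity
  refine ⟨z.1, z.2, fun t => ⟨ε ^ 2 / M, c0, fun q hq => ?_⟩⟩
  by_contra hc
  simp only [not_or] at hc
  obtain ⟨a1, a2, a3⟩ := hc
  have q1 : (1:ℝ) ≤ q := by exact_mod_cast hq
  have u1 : 1 ≤ q / (ε ^ 2 / M) := q1.trans (le_div_self (by linarith) c0 (by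
    rw [div_le_one (by linarith)]; nlinarith))
  have rd : ∀ x : ℝ, |x - round x| ≤ 1 := fun x => (abs_sub_round x).trans (by norm_num)
  obtain ⟨g, l, b1, b2, b3⟩ := hB' t (round (q * z.1), round (q * z.2), q) z ⟨hq, by
    by_contra hd
    have hne : ((fun n : ℕ => (1 : ℝ) / ((∏ m ∈ Finset.range n, d m : ℕ) : ℝ)) ''
      {n : ℕ | (∏ m ∈ Finset.range n, d m) ∣ q}).Nonempty := ⟨_, 0, by simp, rfl⟩
    have hb : BddBelow ((fun n : ℕ => (1 : ℝ) / ((∏ m ∈ Finset.range n, d m : ℕ) : ℝ)) ''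
      {n : ℕ | (∏ m ∈ Finset.range n, d m) ∣ q}) := ⟨0, by rintro _ ⟨n, _, rfl⟩; positivity⟩
    have c1 := conv _ _ _ _ (h t).1 c0 (by linarith) (le_csInf hne (by rintro _ ⟨n, _, rfl⟩; positivity))
      (csInf_le hb ⟨0, by simp, by simp⟩) a1
    have p0 : 0 < (q / (ε ^ 2 / M)) ^ i t := by positivity
    have c2 : 2 / (q / (ε ^ 2 / M)) ^ i t ≤ _ := le_csInf hne (by
      rintro _ ⟨n, hn, rfl⟩
      have := hE' t _ q n u1 hd hn
      have p1 : (0:ℝ) < ((∏ m ∈ Finset.range n, d m : ℕ) : ℝ) := by exact_mod_cast Nat.pos_of_dvd_of_pos hn hq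
      rw [div_le_div_iff₀ p0 p1, one_mul]
      exact this)
    have c3 := c2.trans c1
    rw [Real.rpow_neg (by positivity), ← one_div, div_le_div_iff_of_pos_right p0] at c3
    norm_num at c3,
    conv _ _ _ _ (h t).2.2.1 c0 (by linarith) (abs_nonneg _) (rd _) a2,
    conv _ _ _ _ (h t).2.2.2.2.1 c0 (by linarith) (abs_nonneg _) (rd _) a3⟩
  exact hz t g l b1 b2 b3

end Pool.Agent.H53.Ms
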