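import Mathlib

/-! Kernel estimates for the logarithmic derivative in the disc. -/

namespace Pool.Agent.H53.Nv

open Real Complex Metric Set MeasureTheory Filter Topology intervalIntegral

lemma norm_circle_sub_ge {r t s φ : ℝ} (hr : 1 / 2 ≤ r) (hs : 0 ≤ s) (ht : |t| ≤ π) :
    |t| / (2 * π) ≤ ‖circleMap 0 r (t + φ) - (s : ℂ) * Complex.exp ((φ : ℂ) * I)‖ := by
  have h1 : circleMap 0 r (t + φ) - (s : ℂ) * Complex.exp ((φ : ℂ) * I)
      = ((r : ℂ) * Complex.exp ((t : ℂ) * I) - s) * Complex.exp ((φ : ℂ) * I) := by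
    rw [circleMap_zero]
    push_cast
    rw [add_mul, Complex.exp_add]; ring
  rw [h1, norm_mul, Complex.norm_exp_ofReal_mul_I, mul_one]
  have h2 : ‖(r : ℂ) * Complex.exp ((t : ℂ) * I) - s‖ ^ 2 = r ^ 2 + s ^ 2 - 2 * r * s * Real.cos t := by
    rw [Complex.sq_norm, Complex.normSq_apply]
    simp [Complex.exp_ofReal_mul_I_re, Complex.exp_ofReal_mul_I_im]
    have := Real.sin_sq_add_cos_sq t
    nlinarith
  have h3 := Real.cos_le_one_sub_mul_cos_sq ht
  have hc1 := Real.cos_le_one t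
  have hc2 := Real.neg_one_le_cos t
  have h4 : r ^ 2 * ((1 - Real.cos t) / 2) ≤ r ^ 2 + s ^ 2 - 2 * r * s * Real.cos t := by
    rcases le_total (Real.cos t) 0 with hc | hc
    · have : 0 ≤ r * s * (-Real.cos t) := by
        apply mul_nonneg (mul_nonneg (by linarith) hs) (by linarith)
      nlinarith [sq_nonneg s, sq_nonneg r]
    · have h5 : 0 ≤ (1 + Real.cos t) / 2 - Real.cos t ^ 2 := by nlinarith
      nlinarith [sq_nonneg (s - r * Real.cos t), mul_nonneg (sq_nonneg r) h5]
  have hpi := Real.pi_pos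
  have h6 : t ^ 2 / π ^ 2 ≤ (1 - Real.cos t) / 2 := by
    have : 2 / π ^ 2 * t ^ 2 = 2 * (t ^ 2 / π ^ 2) := by ring
    linarith
  have h7 : (|t| / (2 * π)) ^ 2 ≤ ‖(r : ℂ) * Complex.exp ((t : ℂ) * I) - s‖ ^ 2 := by
    rw [h2]
    refine le_trans ?_ h4
    have e : (|t| / (2 * π)) ^ 2 = (1 / 2) ^ 2 * (t ^ 2 / π ^ 2) := by
      rw [div_pow, sq_abs]; field_simp
    rw [e]
    apply mul_le_mul _ h6 (by positivity) (by positivity)
    exact pow_le_pow_left₀ (by norm_num) hr 2
  exact (abs_le_of_sq_le_sq' h7 (norm_nonneg _)).2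

lemma intervalIntegrable_abs_rpow {α : ℝ} (hα : α < 1) :
    IntervalIntegrable (fun t : ℝ => |t| ^ (-α)) volume (-π) π := by
  have h0 : IntervalIntegrable (fun t : ℝ => |t| ^ (-α)) volume 0 π := by
    have := intervalIntegrable_rpow' (a := 0) (b := π) (r := -α) (by linarith)
    refine this.congr ?_
    intro t ht
    rw [uIoc_of_le Real.pi_pos.le] at ht
    simp only [abs_of_pos ht.1]
  have h1 : IntervalIntegrable (fun t : ℝ => |t| ^ (-α)) volume (-π) 0 := by
    have := (IntervalIntegrable.iff_comp_neg (f := fun t : ℝ => |t| ^ (-α)) (a := 0) (b := π)).1 h0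
    simp only [abs_neg, neg_zero] at this
    exact this.symm
  exact h1.trans h0

lemma kernel_bound {α : ℝ} (hα0 : 0 < α) (hα : α < 1) :
    ∃ C : ℝ, 0 ≤ C ∧ ∀ r : ℝ, 1 / 2 ≤ r → ∀ u : ℂ,
      CircleIntegrable (fun z => ‖z - u‖ ^ (-α)) 0 r ∧
      circleAverage (fun z => ‖z - u‖ ^ (-α)) 0 r ≤ C := by
  have hpi := Real.pi_pos
  set g : ℝ → ℝ := fun t => (2 * π) ^ α * |t| ^ (-α) with hg
  have hgi : IntervalIntegrable g volume (-π) π := (intervalIntegrable_abs_rpow hα).const_mul _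
  refine ⟨(2 * π)⁻¹ * ∫ t in (-π)..π, g t, ?_, ?_⟩
  · apply mul_nonneg (by positivity)
    apply intervalIntegral.integral_nonneg (by linarith)
    intro t _; simp only [hg]; positivity
  intro r hr u
  obtain ⟨s, φ, hs, rfl⟩ : ∃ s φ : ℝ, 0 ≤ s ∧ u = (s : ℂ) * Complex.exp ((φ : ℂ) * I) :=
    ⟨‖u‖, arg u, norm_nonneg u, (norm_mul_exp_arg_mul_I u).symm⟩
  set F : ℝ → ℝ := fun θ => ‖circleMap 0 r θ - (s : ℂ) * Complex.exp ((φ : ℂ) * I)‖ ^ (-α) with hF
  have hFper : Function.Periodic F (2 * π) := fun x => by simp [hF, periodic_circleMap 0 r x]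
  have hFm : Measurable F := by
    have : Continuous fun θ => ‖circleMap 0 r θ - (s : ℂ) * Complex.exp ((φ : ℂ) * I)‖ := by
      fun_prop
    exact this.measurable.pow_const _
  have hle : ∀ t, t ∈ Set.uIoc (-π) π → t ≠ 0 → F (t + φ) ≤ g t := by
    intro t ht ht0
    rw [uIoc_of_le (by linarith)] at ht
    have hta : |t| ≤ π := abs_le.2 ⟨ht.1.le, ht.2⟩
    have h1 := norm_circle_sub_ge (φ := φ) hr hs hta
    have hpos : 0 < |t| / (2 * π) := div_pos (abs_pos.2 ht0) (by positivity)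
    calc F (t + φ) ≤ (|t| / (2 * π)) ^ (-α) :=
          Real.rpow_le_rpow_of_nonpos hpos h1 (by linarith)
      _ = g t := by
          simp only [hg]
          rw [Real.div_rpow (abs_nonneg t) (by positivity), Real.rpow_neg (by positivity : (0:ℝ) ≤ 2 * π)]
          field_simp
  have hae : ∀ᵐ t ∂(volume.restrict (Set.uIoc (-π) π)), F (t + φ) ≤ g t := by
    have h0 : ∀ᵐ t ∂(volume : Measure ℝ), t ≠ 0 := by simp [ae_iff]
    filter_upwards [ae_restrict_mem measurableSet_uIoc, ae_restrict_of_ae h0] with t h1 h2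
    exact hle t h1 h2
  have hFi : IntervalIntegrable (fun t => F (t + φ)) volume (-π) π := by
    rw [intervalIntegrable_iff] at hgi ⊢
    refine Integrable.mono' hgi (hFm.comp (measurable_add_const φ)).aestronglyMeasurable ?_
    filter_upwards [hae] with t ht
    rw [Real.norm_of_nonneg (by simp only [hF]; positivity)]
    exact ht
  have hFi2 : IntervalIntegrable F volume (-π + φ) (-π + φ + 2 * π) := by
    have := hFi.comp_add_right (-φ)
    simp only [neg_add_cancel_right] at this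
    convert this using 1 <;> ring
  have hFi3 : IntervalIntegrable F volume 0 (2 * π) :=
    hFper.intervalIntegrable (by positivity) hFi2 0 (2 * π)
  refine ⟨hFi3, ?_⟩
  rw [circleAverage_def, smul_eq_mul]
  apply mul_le_mul_of_nonneg_left _ (by positivity)
  have e1 : ∫ θ in (0:ℝ)..2 * π, F θ = ∫ t in (-π)..π, F (t + φ) := by
    rw [intervalIntegral.integral_comp_add_right F φ]
    have := hFper.intervalIntegral_add_eq 0 (-π + φ)
    rw [zero_add] at this
    rw [this]; congr 1; ring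
  change ∫ θ in (0:ℝ)..2 * π, F θ ≤ _
  rw [e1]
  apply intervalIntegral.integral_mono_ae_restrict (by linarith) hFi hgi
  rw [uIoc_of_le (by linarith)] at hae
  rwa [← Measure.restrict_congr_set Ioc_ae_eq_Icc]

end Pool.Agent.H53.Nv
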