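import Pool.Agent.H53.NvA

/-! The mean of the logarithmic derivative of a zero-free function. -/

namespace Pool.Agent.H53.Nv

open Real Complex Metric Set MeasureTheory Filter Topology intervalIntegral InnerProductSpace

lemma logDeriv_eq_avg {h : ℂ → ℂ} {R : ℝ} (hR : 0 < R) (ha : AnalyticOnNhd ℂ h (closedBall 0 R))
    (h0 : ∀ u ∈ closedBall (0:ℂ) R, h u ≠ 0) {z : ℂ} (hz : z ∈ ball (0:ℂ) R) :
    logDeriv h z = circleAverage (fun ζ => (2 * ζ / (ζ - z) ^ 2) • ((Real.log ‖h ζ‖ : ℝ) : ℂ)) 0 R := by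
  set L : ℂ → ℝ := fun ζ => Real.log ‖h ζ‖ with hL
  have hLc : ContinuousOn L (closedBall 0 R) :=
    (ha.continuousOn.norm).log (fun x hx => norm_ne_zero_iff.2 (h0 x hx))
  have hsph : sphere (0:ℂ) |R| ⊆ closedBall 0 R := by
    rw [abs_of_pos hR]; exact sphere_subset_closedBall
  have hLi : CircleIntegrable L 0 R := (hLc.mono hsph).circleIntegrable'
  have hLi' : CircleIntegrable (fun ζ => ((L ζ : ℝ) : ℂ)) 0 R :=
    ((Complex.continuous_ofReal.comp_continuousOn hLc).mono hsph).circleIntegrable'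
  set F : ℂ → ℂ := fun w => circleAverage (fun ζ => herglotzRieszKernel 0 w ζ • ((L ζ : ℝ) : ℂ)) 0 R
    with hF
  have hFd : DifferentiableOn ℂ F (ball 0 R) :=
    differentiableOn_circleAverage_herglotzRieszKernel_smul hLi'
  have hharm : HarmonicOnNhd L (closedBall 0 R) :=
    fun x hx => (ha x hx).harmonicAt_log_norm (h0 x hx)
  have hre : ∀ w ∈ ball (0:ℂ) R, (F w).re = L w := by
    intro w hw
    simp only [hF]
    rw [re_circleAverage_herglotzRieszKernel_smul hLi hw]
    exact hharm.circleAverage_re_herglotzRieszKernel_smul hw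
  set φ : ℂ → ℂ := fun w => h w * Complex.exp (-F w) with hφ
  have hhd : DifferentiableOn ℂ h (ball 0 R) := (ha.mono ball_subset_closedBall).differentiableOn
  have hφd : DifferentiableOn ℂ φ (ball 0 R) := hhd.mul (hFd.neg.cexp)
  have hn : ∀ w ∈ ball (0:ℂ) R, ‖φ w‖ = 1 := by
    intro w hw
    have hp : 0 < ‖h w‖ := norm_pos_iff.2 (h0 w (ball_subset_closedBall hw))
    simp only [hφ, norm_mul, Complex.norm_exp, neg_re, hre w hw, hL]
    rw [Real.exp_neg, Real.exp_log hp]; field_simp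
  have hconst : EqOn φ (Function.const ℂ (φ z)) (ball 0 R) := by
    apply Complex.eqOn_of_isPreconnected_of_isMaxOn_norm (convex_ball 0 R).isPreconnected
      isOpen_ball hφd hz
    intro w hw
    simp only [mem_setOf_eq, Function.comp_apply, hn w hw, hn z hz, le_refl]
  have hd0 : HasDerivAt φ 0 z := by
    have : φ =ᶠ[𝓝 z] fun _ => φ z := by
      filter_upwards [isOpen_ball.mem_nhds hz] with w hw using hconst hw
    exact (hasDerivAt_const z (φ z)).congr_of_eventuallyEq this
  have hF' := hasDerivAt_circleAverage_herglotzRieszKernel_smul hLi' hz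
  have hh' : HasDerivAt h (deriv h z) z :=
    (ha z (ball_subset_closedBall hz)).differentiableAt.hasDerivAt
  have hd1 := hh'.mul (hF'.neg.cexp)
  have e := hd0.unique hd1
  have hz0 := h0 z (ball_subset_closedBall hz)
  have he : Complex.exp (-F z) ≠ 0 := Complex.exp_ne_zero _
  rw [logDeriv_apply, div_eq_iff hz0]
  apply mul_right_cancel₀ he
  simp only [Pi.neg_apply] at e
  change _ = _ at e
  linear_combination (-1 : ℂ) * e

lemma avg_inv_sq {r R : ℝ} (hr : 0 < r) (hrR : r < R) (φ : ℝ) :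
    ∫ θ in (0:ℝ)..2 * π, (‖circleMap 0 R φ - circleMap 0 r θ‖ ^ 2)⁻¹
      = 2 * π * (R ^ 2 - r ^ 2)⁻¹ := by
  have hR : 0 < R := hr.trans hrR
  have hw : circleMap 0 r φ ∈ ball (0:ℂ) R := by
    rw [mem_ball_zero_iff, norm_circleMap_zero, abs_of_pos hr]; exact hrR
  have h1 := (diffContOnCl_const (𝕜 := ℂ) (c := (1:ℂ)) (s := ball (0:ℂ) R)).circleAverage_poissonKernel_smul' hw
  have h2 : circleAverage (fun z : ℂ => (‖z - 0‖ ^ 2 - ‖circleMap 0 r φ - 0‖ ^ 2) /
      ‖(z - 0) - (circleMap 0 r φ - 0)‖ ^ 2) 0 R = 1 := by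
    have := congrArg Complex.re h1
    rw [circleAverage_def] at this ⊢
    simp only [Complex.real_smul, mul_one] at this
    rw [intervalIntegral.integral_ofReal] at this
    simpa using this
  rw [circleAverage_def, smul_eq_mul] at h2
  have hd : 0 < R ^ 2 - r ^ 2 := by nlinarith
  have h3 : ∀ θ : ℝ, (‖circleMap 0 R θ - 0‖ ^ 2 - ‖circleMap 0 r φ - 0‖ ^ 2) /
      ‖(circleMap 0 R θ - 0) - (circleMap 0 r φ - 0)‖ ^ 2
      = (R ^ 2 - r ^ 2) * (‖circleMap 0 R φ - circleMap 0 r θ‖ ^ 2)⁻¹ := by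
    intro θ
    simp only [sub_zero, norm_circleMap_zero, sq_abs, div_eq_mul_inv]
    congr 2
    rw [Complex.sq_norm, Complex.sq_norm, Complex.normSq_apply, Complex.normSq_apply]
    simp [circleMap_zero, Complex.exp_ofReal_mul_I_re, Complex.exp_ofReal_mul_I_im]
    have a1 := Real.sin_sq_add_cos_sq θ
    have a2 := Real.sin_sq_add_cos_sq φ
    linear_combination (R ^ 2 - r ^ 2) * a1 - (R ^ 2 - r ^ 2) * a2
  simp_rw [h3] at h2
  rw [intervalIntegral.integral_const_mul] at h2
  have hpi := Real.pi_pos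
  field_simp at h2 ⊢
  linarith

lemma avg_logDeriv_le {h : ℂ → ℂ} {r R : ℝ} (hr : 0 < r) (hrR : r < R)
    (ha : AnalyticOnNhd ℂ h (closedBall 0 R)) (h0 : ∀ u ∈ closedBall (0:ℂ) R, h u ≠ 0) :
    CircleIntegrable (fun z => ‖logDeriv h z‖) 0 r ∧
    circleAverage (fun z => ‖logDeriv h z‖) 0 r
      ≤ 2 * R * (R ^ 2 - r ^ 2)⁻¹ * circleAverage (fun ζ => |Real.log ‖h ζ‖|) 0 R := by
  have hR : 0 < R := hr.trans hrR
  have hpi := Real.pi_pos
  have hsub : sphere (0:ℂ) |r| ⊆ closedBall 0 R := by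
    rw [abs_of_pos hr]; exact sphere_subset_closedBall.trans (closedBall_subset_closedBall hrR.le)
  have hc : ContinuousOn (fun z => ‖logDeriv h z‖) (closedBall 0 R) := by
    simp only [logDeriv_apply]
    exact (ha.deriv.continuousOn.div ha.continuousOn h0).norm
  have hI : CircleIntegrable (fun z => ‖logDeriv h z‖) 0 r := (hc.mono hsub).circleIntegrable'
  refine ⟨hI, ?_⟩
  have hmem : ∀ φ, circleMap 0 R φ ∈ closedBall (0:ℂ) R := fun φ => by
    rw [mem_closedBall_zero_iff, norm_circleMap_zero, abs_of_pos hR]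
  have hLc : Continuous fun φ : ℝ => |Real.log ‖h (circleMap 0 R φ)‖| := by
    have h1 : Continuous fun φ : ℝ => h (circleMap 0 R φ) :=
      ha.continuousOn.comp_continuous (continuous_circleMap 0 R) hmem
    exact (h1.norm.log (fun φ => norm_ne_zero_iff.2 (h0 _ (hmem φ)))).abs
  have hne : ∀ φ θ, circleMap 0 R φ - circleMap 0 r θ ≠ 0 := by
    intro φ θ hh
    have := congrArg norm (sub_eq_zero.1 hh)
    rw [norm_circleMap_zero, norm_circleMap_zero, abs_of_pos hr, abs_of_pos hR] at this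
    linarith
  set K : ℝ → ℝ → ℝ := fun θ φ => 2 * R * (‖circleMap 0 R φ - circleMap 0 r θ‖ ^ 2)⁻¹ *
    |Real.log ‖h (circleMap 0 R φ)‖| with hK
  have hKc : Continuous K.uncurry := by
    have h1 : Continuous fun p : ℝ × ℝ => (‖circleMap 0 R p.2 - circleMap 0 r p.1‖ ^ 2)⁻¹ := by
      apply Continuous.inv₀
      · have a := (continuous_circleMap 0 R).comp (continuous_snd (X := ℝ) (Y := ℝ))
        have b := (continuous_circleMap 0 r).comp (continuous_fst (X := ℝ) (Y := ℝ))
        exact (a.sub b).norm.pow 2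
      · intro p; exact pow_ne_zero _ (norm_ne_zero_iff.2 (hne _ _))
    exact (continuous_const.mul h1).mul (hLc.comp continuous_snd)
  have hpt : ∀ θ, ‖logDeriv h (circleMap 0 r θ)‖ ≤ (2 * π)⁻¹ * ∫ φ in (0:ℝ)..2 * π, K θ φ := by
    intro θ
    have hz : circleMap 0 r θ ∈ ball (0:ℂ) R := by
      rw [mem_ball_zero_iff, norm_circleMap_zero, abs_of_pos hr]; exact hrR
    rw [logDeriv_eq_avg hR ha h0 hz, circleAverage_def, norm_smul, Real.norm_of_nonneg (by positivity)]
    apply mul_le_mul_of_nonneg_left _ (by positivity)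
    refine (intervalIntegral.norm_integral_le_integral_norm (by positivity)).trans (le_of_eq ?_)
    congr 1; ext φ
    simp only [hK, smul_eq_mul, norm_mul, norm_div, norm_pow, Complex.norm_real, Real.norm_eq_abs,
      norm_circleMap_zero, abs_of_pos hR, Complex.norm_ofNat, div_eq_mul_inv, norm_inv]
  have hKi : IntegrableOn K.uncurry (uIoc 0 (2 * π) ×ˢ uIoc 0 (2 * π)) := by
    have : IntegrableOn K.uncurry (uIcc 0 (2 * π) ×ˢ uIcc 0 (2 * π)) :=
      hKc.continuousOn.integrableOn_compact (isCompact_uIcc.prod isCompact_uIcc)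
    exact this.mono_set (Set.prod_mono uIoc_subset_uIcc uIoc_subset_uIcc)
  have hsw := MeasureTheory.intervalIntegral_intervalIntegral_swap hKi
  have hin : ∀ φ, ∫ θ in (0:ℝ)..2 * π, K θ φ
      = 2 * R * (2 * π * (R ^ 2 - r ^ 2)⁻¹) * |Real.log ‖h (circleMap 0 R φ)‖| := by
    intro φ
    simp only [hK]
    rw [intervalIntegral.integral_mul_const, intervalIntegral.integral_const_mul, avg_inv_sq hr hrR]
  have hcont : Continuous fun θ => (2 * π)⁻¹ * ∫ φ in (0:ℝ)..2 * π, K θ φ :=
    continuous_const.mul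
      (intervalIntegral.continuous_parametric_intervalIntegral_of_continuous' hKc 0 (2 * π))
  rw [circleAverage_def, circleAverage_def, smul_eq_mul, smul_eq_mul]
  calc (2 * π)⁻¹ * ∫ θ in (0:ℝ)..2 * π, ‖logDeriv h (circleMap 0 r θ)‖
      ≤ (2 * π)⁻¹ * ∫ θ in (0:ℝ)..2 * π, ((2 * π)⁻¹ * ∫ φ in (0:ℝ)..2 * π, K θ φ) := by
        apply mul_le_mul_of_nonneg_left _ (by positivity)
        exact intervalIntegral.integral_mono_on (by positivity) hI
          (hcont.intervalIntegrable _ _) (fun θ _ => hpt θ)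
    _ = _ := by
        rw [intervalIntegral.integral_const_mul, hsw]
        simp_rw [hin]
        rw [intervalIntegral.integral_const_mul]
        field_simp

end Pool.Agent.H53.Nv
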