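import Pool.Agent.H53.NvB

/-! A majorant for a fractional power of the logarithmic derivative. -/

namespace Pool.Agent.H53.Nv

open Real Complex Metric Set MeasureTheory Filter Topology MeromorphicOn

lemma norm_logDeriv_cF {R : ℝ} {u z : ℂ} (hu : u ∈ ball (0:ℂ) R) (hz : z ∈ closedBall (0:ℂ) R)
    (hzu : z ≠ u) : ‖logDeriv (canonicalFactor R u) z‖ ≤ 2 * ‖z - u‖⁻¹ := by
  have hR : 0 < R := pos_of_mem_ball hu
  have hzu' : z - u ≠ 0 := sub_ne_zero.2 hzu
  have hne := canonicalFactor_ne_zero hu hz hzu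
  have hnum : (R : ℂ) ^ 2 - (starRingEnd ℂ) u * z ≠ 0 := by
    intro h; apply hne; rw [canonicalFactor_apply, h, zero_div]
  have hRc : (R : ℂ) ≠ 0 := by exact_mod_cast hR.ne'
  have e : logDeriv (canonicalFactor R u) z
      = -((starRingEnd ℂ) u) / ((R : ℂ) ^ 2 - (starRingEnd ℂ) u * z) - (z - u)⁻¹ := by
    rw [canonicalFactor_def, logDeriv_div (f := fun z : ℂ => (R : ℂ) ^ 2 - (starRingEnd ℂ) u * z)
      (g := fun z : ℂ => (R : ℂ) * (z - u)) z hnum (mul_ne_zero hRc hzu') (by fun_prop) (by fun_prop)]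
    have h1 : HasDerivAt (fun z : ℂ => (R : ℂ) ^ 2 - (starRingEnd ℂ) u * z) (-((starRingEnd ℂ) u)) z := by
      simpa using ((hasDerivAt_id z).const_mul ((starRingEnd ℂ) u)).const_sub ((R : ℂ) ^ 2)
    have h2 : HasDerivAt (fun z : ℂ => (R : ℂ) * (z - u)) (R : ℂ) z := by
      simpa using ((hasDerivAt_id z).sub_const u).const_mul (R : ℂ)
    rw [logDeriv_apply, logDeriv_apply, h1.deriv, h2.deriv]
    field_simp
  have hu' : ‖u‖ < R := mem_ball_zero_iff.1 hu
  have hz' : ‖z‖ ≤ R := mem_closedBall_zero_iff.1 hz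
  have key : (‖u‖ * ‖z - u‖) ^ 2 ≤ ‖(R : ℂ) ^ 2 - (starRingEnd ℂ) u * z‖ ^ 2 := by
    have a1 : ‖(R : ℂ) ^ 2 - (starRingEnd ℂ) u * z‖ ^ 2 - R ^ 2 * ‖z - u‖ ^ 2
        = (R ^ 2 - ‖u‖ ^ 2) * (R ^ 2 - ‖z‖ ^ 2) := by
      simp only [Complex.sq_norm, Complex.normSq_apply, ← Complex.ofReal_pow]
      simp only [sub_re, sub_im, mul_re, mul_im, conj_re, conj_im, ofReal_re, ofReal_im]
      ring
    have a2 : ‖u‖ ^ 2 ≤ R ^ 2 := pow_le_pow_left₀ (norm_nonneg _) hu'.le 2
    have a3 : ‖z‖ ^ 2 ≤ R ^ 2 := pow_le_pow_left₀ (norm_nonneg _) hz' 2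
    have a4 : 0 ≤ (R ^ 2 - ‖u‖ ^ 2) * (R ^ 2 - ‖z‖ ^ 2) := mul_nonneg (by linarith) (by linarith)
    rw [mul_pow]
    nlinarith [mul_le_mul_of_nonneg_right a2 (sq_nonneg ‖z - u‖)]
  have key2 := (abs_le_of_sq_le_sq' key (norm_nonneg _)).2
  have hp1 : 0 < ‖z - u‖ := norm_pos_iff.2 hzu'
  have hp2 : 0 < ‖(R : ℂ) ^ 2 - (starRingEnd ℂ) u * z‖ := norm_pos_iff.2 hnum
  rw [e]
  refine (norm_sub_le _ _).trans ?_
  rw [norm_div, norm_neg, Complex.norm_conj, norm_inv]
  have : ‖u‖ / ‖(R : ℂ) ^ 2 - (starRingEnd ℂ) u * z‖ ≤ ‖z - u‖⁻¹ := by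
    rw [div_le_iff₀ hp2, ← div_eq_inv_mul, le_div_iff₀ hp1]; exact key2
  linarith

lemma rpow_sum_le {ι : Type*} (s : Finset ι) (a : ι → ℝ) (ha : ∀ i ∈ s, 0 ≤ a i) {α : ℝ}
    (h0 : 0 < α) (h1 : α ≤ 1) : (∑ i ∈ s, a i) ^ α ≤ ∑ i ∈ s, a i ^ α := by
  classical
  induction s using Finset.induction_on with
  | empty => simp [Real.zero_rpow h0.ne']
  | insert i s hi ih =>
    rw [Finset.sum_insert hi, Finset.sum_insert hi]
    have hs : ∀ j ∈ s, 0 ≤ a j := fun j hj => ha j (Finset.mem_insert_of_mem hj)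
    refine (Real.rpow_add_le_add_rpow (ha i (Finset.mem_insert_self _ _))
      (Finset.sum_nonneg hs) h0.le h1).trans ?_
    linarith [ih hs]

lemma rpow_le_one_add {x α : ℝ} (hx : 0 ≤ x) (h0 : 0 ≤ α) (h1 : α ≤ 1) : x ^ α ≤ 1 + x := by
  rcases le_total x 1 with h | h
  · linarith [Real.rpow_le_one hx h h0]
  · have := Real.rpow_le_rpow_of_exponent_le h h1
    rw [Real.rpow_one] at this; linarith

lemma majorant {α C : ℝ} (hα0 : 0 < α) (hα : α < 1)
    {g : ℂ → ℂ} {r R : ℝ} (hr : 0 < r) (hrR : r < R)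
    (hC : ∀ u : ℂ, CircleIntegrable (fun z => ‖z - u‖ ^ (-α)) 0 r ∧
      circleAverage (fun z => ‖z - u‖ ^ (-α)) 0 r ≤ C)
    (hg : MeromorphicOn g (closedBall 0 R))
    (hg' : ∀ u ∈ closedBall (0:ℂ) R, meromorphicOrderAt g u ≠ ⊤)
    (hs : ∀ v, divisor g (sphere 0 R) v = 0) :
    ∃ Φ : ℂ → ℝ, CircleIntegrable Φ 0 r ∧
      (∀ᶠ z in codiscreteWithin (sphere (0:ℂ) |r|), ‖logDeriv g z‖ ^ α ≤ Φ z) ∧
      circleAverage Φ 0 r ≤ 1 + 2 * R * (R ^ 2 - r ^ 2)⁻¹ *
        circleAverage (fun ζ => |Real.log ‖g ζ‖|) 0 R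
        + 2 * C * ∑ᶠ u, |(divisor g (ball 0 R) u : ℝ)| := by
  classical
  have hR : 0 < R := hr.trans hrR
  obtain ⟨h, D⟩ := hg.exists_ecanonicalDecomp (fun u => hg' u u.2)
  set d : ℂ → ℤ := fun u => divisor g (ball 0 R) u with hd
  have hfin : (Function.support d).Finite := hg.divisor_ball_support_finite
  set t := hfin.toFinset with ht
  have htm : ∀ u ∈ t, u ∈ ball (0:ℂ) R := fun u hu =>
    (divisor g (ball 0 R)).supportWithinDomain (by simpa [ht, hd] using hu)
  set P : ℂ → ℂ := fun z => ∏ u ∈ t, canonicalFactor R u z ^ (-d u) with hP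
  have heq : g =ᶠ[codiscreteWithin (closedBall 0 R)] fun z => P z * h z := by
    filter_upwards [D.eventuallyEq] with z hz
    rw [hz]
    have e1 : (∏ᶠ u, (canonicalFactor R u) ^ (-divisor g (ball 0 R) u))
        = ∏ u ∈ t, (canonicalFactor R u) ^ (-d u) := by
      apply finprod_eq_prod_of_mulSupport_subset
      intro u hu
      by_contra hc
      apply hu
      have : d u = 0 := by simpa [ht] using hc
      simp only [hd] at this
      simp [this]
    have e2 : (∏ᶠ v : ℂ, (fun x : ℂ => x - v) ^ (divisor g (sphere 0 R)) v) = 1 := by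
      simp [hs]
    rw [e1, e2]
    simp [hP, Finset.prod_apply]
  have hPm : MeromorphicOn (fun z => P z * h z) (closedBall 0 R) := by
    intro z hz
    apply MeromorphicAt.mul _ (D.analyticOnNhd z hz).meromorphicAt
    apply MeromorphicAt.fun_prod
    intro u _
    exact (meromorphic_canonicalFactor R u z).zpow _
  have hder := hg.deriv_eventuallyEq_codiscreteWithin hPm heq
  obtain ⟨hI, hav⟩ := avg_logDeriv_le hr hrR D.analyticOnNhd D.ne_zero
  have hsubR : sphere (0:ℂ) |R| ⊆ closedBall 0 R := by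
    rw [abs_of_pos hR]; exact sphere_subset_closedBall
  have hsubr : sphere (0:ℂ) |r| ⊆ closedBall 0 R := by
    rw [abs_of_pos hr]; exact sphere_subset_closedBall.trans (closedBall_subset_closedBall hrR.le)
  have hlog : circleAverage (fun ζ => |Real.log ‖h ζ‖|) 0 R
      = circleAverage (fun ζ => |Real.log ‖g ζ‖|) 0 R := by
    apply circleAverage_congr_codiscreteWithin _ hR.ne'
    filter_upwards [codiscreteWithin_mono hsubR heq, self_mem_codiscreteWithin _] with z hz hzs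
    rw [abs_of_pos hR] at hzs
    have : ‖P z‖ = 1 := by
      simp only [hP, norm_prod, norm_zpow]
      apply Finset.prod_eq_one
      intro u hu
      rw [norm_canonicalFactor_eval_circle_eq_one (htm u hu) hzs, one_zpow]
    rw [hz, norm_mul, this, one_mul]
  have hS : ∀ u ∈ t, CircleIntegrable (fun z => 2 * |(d u : ℝ)| * ‖z - u‖ ^ (-α)) 0 r :=
    fun u _ => (hC u).1.const_mul _
  have hS' : CircleIntegrable (fun z => ∑ u ∈ t, 2 * |(d u : ℝ)| * ‖z - u‖ ^ (-α)) 0 r := by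
    have := CircleIntegrable.sum (s := t) hS
    convert this using 1
    ext z; simp
  have hI1 : CircleIntegrable (fun z => 1 + ‖logDeriv h z‖) 0 r :=
    (circleIntegrable_const _ _ _).add hI
  refine ⟨fun z => (1 + ‖logDeriv h z‖) + ∑ u ∈ t, 2 * |(d u : ℝ)| * ‖z - u‖ ^ (-α), ?_, ?_, ?_⟩
  · exact hI1.add hS'
  · filter_upwards [codiscreteWithin_mono hsubr heq, codiscreteWithin_mono hsubr hder,
      self_mem_codiscreteWithin _, compl_finite_mem_codiscreteWithin t.finite_toSet]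
      with z hz1 hz2 hzs hzt
    have hzc := hsubr hzs
    have hne : ∀ u ∈ t, z ≠ u := fun u hu hh => hzt (hh ▸ hu)
    have hcf0 : ∀ u ∈ t, canonicalFactor R u z ≠ 0 := fun u hu =>
      canonicalFactor_ne_zero (htm u hu) hzc (hne u hu)
    have hcfd : ∀ u ∈ t, DifferentiableAt ℂ (canonicalFactor R u) z := fun u hu =>
      (analyticOnNhd_canonicalFactor R u z (hne u hu)).differentiableAt
    have hPd : ∀ u ∈ t, DifferentiableAt ℂ (fun z => canonicalFactor R u z ^ (-d u)) z :=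
      fun u hu => (hcfd u hu).zpow (Or.inl (hcf0 u hu))
    have e : logDeriv g z = ∑ u ∈ t, ((-d u : ℤ) : ℂ) * logDeriv (canonicalFactor R u) z
        + logDeriv h z := by
      have : logDeriv g z = logDeriv (fun z => P z * h z) z := by
        rw [logDeriv_apply, logDeriv_apply, hz1, hz2]
      rw [this, logDeriv_mul z _ (D.ne_zero z hzc) _ (D.analyticOnNhd z hzc).differentiableAt]
      · congr 1
        simp only [hP]
        rw [logDeriv_prod (f := fun u z => canonicalFactor R u z ^ (-d u))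
          (fun u hu => zpow_ne_zero _ (hcf0 u hu)) hPd]
        exact Finset.sum_congr rfl fun u hu => logDeriv_fun_zpow (hcfd u hu) _
      · exact Finset.prod_ne_zero_iff.2 fun u hu => zpow_ne_zero _ (hcf0 u hu)
      · exact DifferentiableAt.fun_finsetProd hPd
    have hb : ‖logDeriv g z‖ ≤ ‖logDeriv h z‖ + ∑ u ∈ t, |(d u : ℝ)| * (2 * ‖z - u‖⁻¹) := by
      rw [e, add_comm]
      refine (norm_add_le _ _).trans (add_le_add le_rfl ((norm_sum_le _ _).trans ?_))
      apply Finset.sum_le_sum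
      intro u hu
      rw [norm_mul, Complex.norm_intCast, Int.cast_neg, abs_neg]
      exact mul_le_mul_of_nonneg_left (norm_logDeriv_cF (htm u hu) hzc (hne u hu)) (abs_nonneg _)
    have hnn : ∀ u ∈ t, 0 ≤ |(d u : ℝ)| * (2 * ‖z - u‖⁻¹) := fun u _ => by positivity
    refine (Real.rpow_le_rpow (norm_nonneg _) hb hα0.le).trans ?_
    refine (Real.rpow_add_le_add_rpow (norm_nonneg _) (Finset.sum_nonneg hnn) hα0.le hα.le).trans ?_
    apply add_le_add (rpow_le_one_add (norm_nonneg _) hα0.le hα.le)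
    refine (rpow_sum_le t _ hnn hα0 hα.le).trans (Finset.sum_le_sum fun u hu => ?_)
    have hd1 : (1:ℝ) ≤ |(d u : ℝ)| := by
      have : d u ≠ 0 := by simpa [ht] using hu
      exact_mod_cast Int.one_le_abs this
    rw [← mul_assoc, Real.mul_rpow (by positivity) (by positivity),
      Real.inv_rpow (norm_nonneg _), ← Real.rpow_neg (norm_nonneg _)]
    apply mul_le_mul_of_nonneg_right _ (by positivity)
    have := Real.rpow_le_rpow_of_exponent_le (x := |(d u : ℝ)| * 2) (by linarith) hα.le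
    rw [Real.rpow_one] at this; linarith
  · rw [circleAverage_fun_add hI1 hS',
      circleAverage_fun_add (circleIntegrable_const _ _ _) hI, circleAverage_const,
      circleAverage_fun_sum hS, ← hlog]
    have e3 : ∑ᶠ u, |(divisor g (ball 0 R) u : ℝ)| = ∑ u ∈ t, |(d u : ℝ)| := by
      apply finsum_eq_sum_of_support_subset
      intro u hu
      simpa [ht, hd] using hu
    rw [e3, Finset.mul_sum]
    apply add_le_add (by linarith) (Finset.sum_le_sum fun u _ => ?_)
    have := circleAverage_fun_smul (a := 2 * |(d u : ℝ)|) (f := fun z => ‖z - u‖ ^ (-α))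
      (c := 0) (R := r)
    simp only [smul_eq_mul] at this
    rw [this]
    nlinarith [(hC u).2, abs_nonneg (d u : ℝ)]

end Pool.Agent.H53.Nv
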