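import Pool.Agent.H53.NvC

/-! Nevanlinna functions in the unit disc and the first main theorem. -/

namespace Pool.Agent.H53.Nv

open Real Complex Metric Set MeasureTheory Filter Topology MeromorphicOn

/-- The integrated counting function of a multiplicity function `n`:
`∑_{u ≠ 0} n(u) log (r / |u|) + n(0) log r` (the term `u = 0` of the first sum is `0`). -/
noncomputable def cnt (n : ℂ → ℝ) (r : ℝ) : ℝ :=
  (∑ᶠ u, n u * Real.log (r * ‖u‖⁻¹)) + n 0 * Real.log r

/-- The multiplicity of `u` as a pole of `f` if `|u| ≤ r`, and `0` otherwise. -/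
noncomputable def poleMult (f : ℂ → ℂ) (r : ℝ) (u : ℂ) : ℝ :=
  max (-(divisor f (closedBall 0 r) u : ℝ)) 0

/-- `1` if `u` is a pole of `f` with `|u| ≤ r`, and `0` otherwise. -/
noncomputable def poleInd (f : ℂ → ℂ) (r : ℝ) (u : ℂ) : ℝ :=
  if divisor f (closedBall 0 r) u < 0 then 1 else 0

/-- The proximity function `m(r, f)`. -/
noncomputable def prox (f : ℂ → ℂ) (r : ℝ) : ℝ := circleAverage (fun z => log⁺ ‖f z‖) 0 r

/-- The Nevanlinna characteristic `T(r, f) = m(r, f) + N(r, f)`. -/
noncomputable def charT (f : ℂ → ℂ) (r : ℝ) : ℝ := prox f r + cnt (poleMult f r) r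

/-- The counting function of the distinct poles. -/
noncomputable def barN (f : ℂ → ℂ) (r : ℝ) : ℝ := cnt (poleInd f r) r

lemma cnt_eq_sum {n : ℂ → ℝ} {t : Finset ℂ} (h : Function.support n ⊆ t) (r : ℝ) :
    cnt n r = ∑ u ∈ t, n u * Real.log (r * ‖u‖⁻¹) + n 0 * Real.log r := by
  unfold cnt
  rw [finsum_eq_sum_of_support_subset]
  intro u hu
  apply h
  intro h0; apply hu; simp [h0]

lemma log_weight_nonneg {r : ℝ} {u : ℂ} (hu : u ∈ closedBall (0:ℂ) r) :
    0 ≤ Real.log (r * ‖u‖⁻¹) := by
  rcases eq_or_ne u 0 with rfl | h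
  · simp
  · apply Real.log_nonneg
    rw [← div_eq_mul_inv, le_div_iff₀ (norm_pos_iff.2 h), one_mul]
    exact mem_closedBall_zero_iff.1 hu

lemma log_ge_of_half {s : ℝ} (hs : 1 / 2 ≤ s) : -Real.log 2 ≤ Real.log s := by
  rw [← Real.log_inv]
  exact Real.log_le_log (by norm_num) (by linarith)

/-- The finite support of the divisor on a closed disc. -/
noncomputable def supp (g : ℂ → ℂ) (s : ℝ) : Finset ℂ :=
  ((divisor g (closedBall (0:ℂ) s)).finiteSupport (isCompact_closedBall 0 s)).toFinset

lemma mem_supp {g : ℂ → ℂ} {s : ℝ} {u : ℂ} :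
    u ∈ supp g s ↔ divisor g (closedBall (0:ℂ) s) u ≠ 0 := by
  simp [supp]

lemma supp_sub {g : ℂ → ℂ} {s : ℝ} {u : ℂ} (hu : u ∈ supp g s) : u ∈ closedBall (0:ℂ) s :=
  (divisor g (closedBall (0:ℂ) s)).supportWithinDomain (mem_supp.1 hu)

lemma cnt_comp (g : ℂ → ℂ) (s : ℝ) (φ : ℤ → ℝ) (h0 : φ 0 = 0) :
    cnt (fun u => φ (divisor g (closedBall (0:ℂ) s) u)) s
      = ∑ u ∈ supp g s, φ (divisor g (closedBall (0:ℂ) s) u) * Real.log (s * ‖u‖⁻¹)
        + φ (divisor g (closedBall (0:ℂ) s) 0) * Real.log s := by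
  apply cnt_eq_sum
  intro u hu
  rw [Finset.mem_coe, mem_supp]
  intro h; apply hu; simp [h, h0]

lemma cnt_comp_ge (g : ℂ → ℂ) {s : ℝ} (hs : 1 / 2 ≤ s) (φ : ℤ → ℝ) (h0 : φ 0 = 0)
    (hφ : ∀ n, 0 ≤ φ n) (hφ' : ∀ n, φ n ≤ |(n : ℝ)|) :
    -(Real.log 2 * |(divisor g (closedBall (0:ℂ) s) 0 : ℝ)|)
      ≤ cnt (fun u => φ (divisor g (closedBall (0:ℂ) s) u)) s := by
  rw [cnt_comp g s φ h0]
  have h1 : 0 ≤ ∑ u ∈ supp g s, φ (divisor g (closedBall (0:ℂ) s) u) * Real.log (s * ‖u‖⁻¹) :=
    Finset.sum_nonneg fun u hu => mul_nonneg (hφ _) (log_weight_nonneg (supp_sub hu))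
  have h2 := log_ge_of_half hs
  have h3 : 0 < Real.log 2 := Real.log_pos (by norm_num)
  have h4 := hφ (divisor g (closedBall (0:ℂ) s) 0)
  have h5 := hφ' (divisor g (closedBall (0:ℂ) s) 0)
  nlinarith

lemma merom_closed {g : ℂ → ℂ} (hg : MeromorphicOn g (ball 0 1)) {s : ℝ} (hs : s < 1) :
    MeromorphicOn g (closedBall 0 s) := hg.mono_set (closedBall_subset_ball hs)

lemma merom_sphere {g : ℂ → ℂ} (hg : MeromorphicOn g (ball 0 1)) {s : ℝ} (h0 : 0 < s) (hs : s < 1) :
    MeromorphicOn g (sphere 0 |s|) := by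
  rw [abs_of_pos h0]; exact hg.mono_set (sphere_subset_ball hs)

lemma fmt {g : ℂ → ℂ} (hg : MeromorphicOn g (ball 0 1)) :
    ∃ c : ℝ, 0 ≤ c ∧ (∀ s, 1 / 2 ≤ s → s < 1 →
      prox (fun z => (g z)⁻¹) s ≤ charT g s + c ∧
      prox g s ≤ charT g s + c ∧ -c ≤ charT g s ∧ barN g s ≤ charT g s + c ∧ -c ≤ barN g s ∧
      circleAverage (fun ζ => |Real.log ‖g ζ‖|) 0 s ≤ 2 * charT g s + 2 * c) ∧
      ∀ R R', 1 / 2 ≤ R → R < R' → R' < 1 →
        (∑ᶠ u, |(divisor g (ball 0 R) u : ℝ)|) * Real.log (R' / R) ≤ 2 * charT g R' + c := by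
  set o : ℝ := |(((meromorphicOrderAt g 0).untop₀ : ℤ) : ℝ)| with ho
  set κ := Real.log ‖meromorphicTrailingCoeffAt g 0‖ with hκ
  have hl2 : 0 < Real.log 2 := Real.log_pos (by norm_num)
  have ho0 : 0 ≤ o := abs_nonneg _
  have hd0 : ∀ s, 1 / 2 ≤ s → s < 1 → |(divisor g (closedBall (0:ℂ) s) 0 : ℝ)| = o := by
    intro s hs hs1
    rw [divisor_apply (merom_closed hg hs1) (mem_closedBall_self (by linarith))]
  have hmain : ∀ s, 1 / 2 ≤ s → s < 1 →
      prox g s - prox (fun z => (g z)⁻¹) s
        = cnt (fun u => max (divisor g (closedBall (0:ℂ) s) u : ℝ) 0) s - cnt (poleMult g s) s + κ ∧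
      cnt (fun u => |(divisor g (closedBall (0:ℂ) s) u : ℝ)|) s
        = cnt (fun u => max (divisor g (closedBall (0:ℂ) s) u : ℝ) 0) s + cnt (poleMult g s) s := by
    intro s hs hs1
    have hs0 : 0 < s := by linarith
    have e1 := cnt_comp g s (fun n => max (n : ℝ) 0) (by simp)
    have e2 := cnt_comp g s (fun n => max (-(n : ℝ)) 0) (by simp)
    have e3 := cnt_comp g s (fun n => |(n : ℝ)|) (by simp)
    have e4 := cnt_comp g s (fun n => (n : ℝ)) (by simp)
    have a1 : ∀ x : ℝ, x = max x 0 - max (-x) 0 := fun x => by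
      rcases le_total x 0 with h | h
      · rw [max_eq_right h, max_eq_left (by linarith)]; ring
      · rw [max_eq_left h, max_eq_right (by linarith)]; ring
    have a2 : ∀ x : ℝ, |x| = max x 0 + max (-x) 0 := fun x => by
      rcases le_total x 0 with h | h
      · rw [max_eq_right h, max_eq_left (by linarith), abs_of_nonpos h]; ring
      · rw [max_eq_left h, max_eq_right (by linarith), abs_of_nonneg h]; ring
    have hP : cnt (poleMult g s) s
      = cnt (fun u => max (-(divisor g (closedBall (0:ℂ) s) u : ℝ)) 0) s := rfl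
    constructor
    · have hJ := MeromorphicOn.circleAverage_log_norm (c := 0) (R := s) (f := g) hs0.ne'
        (by rw [abs_of_pos hs0]; exact merom_closed hg hs1)
      rw [abs_of_pos hs0] at hJ
      simp only [zero_sub, norm_neg] at hJ
      have hJ' : circleAverage (fun z => Real.log ‖g z‖) 0 s
          = cnt (fun u => (divisor g (closedBall (0:ℂ) s) u : ℝ)) s + κ := hJ
      have hi1 := (merom_sphere hg hs0 hs1).circleIntegrable_posLog_norm
      have hi2 : CircleIntegrable (fun z => log⁺ ‖(fun z => (g z)⁻¹) z‖) 0 s :=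
        (merom_sphere hg hs0 hs1).inv.circleIntegrable_posLog_norm
      have hS : prox g s - prox (fun z => (g z)⁻¹) s
          = circleAverage (fun z => Real.log ‖g z‖) 0 s := by
        unfold prox
        rw [← circleAverage_fun_sub hi1 hi2]
        congr 1; ext z
        simp only [Pi.inv_apply, norm_inv]
        exact Real.posLog_sub_posLog_inv
      rw [hS, hJ', hP, e1, e2, e4]
      have : ∀ u, (divisor g (closedBall (0:ℂ) s) u : ℝ) * Real.log (s * ‖u‖⁻¹)
          = max (divisor g (closedBall (0:ℂ) s) u : ℝ) 0 * Real.log (s * ‖u‖⁻¹)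
            - max (-(divisor g (closedBall (0:ℂ) s) u : ℝ)) 0 * Real.log (s * ‖u‖⁻¹) := by
        intro u; rw [← sub_mul, ← a1]
      simp only [this, Finset.sum_sub_distrib]
      have := a1 (divisor g (closedBall (0:ℂ) s) 0 : ℝ)
      linear_combination (Real.log s) * this
    · rw [hP, e1, e2, e3]
      simp only [a2, add_mul, Finset.sum_add_distrib]
      ring
  have hZ : ∀ s, 1 / 2 ≤ s → s < 1 → -(Real.log 2 * o)
      ≤ cnt (fun u => max (divisor g (closedBall (0:ℂ) s) u : ℝ) 0) s := by
    intro s hs hs1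
    rw [← hd0 s hs hs1]
    exact cnt_comp_ge g hs (fun n => max (n : ℝ) 0) (by simp) (fun n => le_max_right _ _)
      (fun n => max_le (le_abs_self _) (abs_nonneg _))
  have hPl : ∀ s, 1 / 2 ≤ s → s < 1 → -(Real.log 2 * o) ≤ cnt (poleMult g s) s := by
    intro s hs hs1
    rw [← hd0 s hs hs1]
    exact cnt_comp_ge g hs (fun n => max (-(n : ℝ)) 0) (by simp) (fun n => le_max_right _ _)
      (fun n => max_le (neg_le_abs _) (abs_nonneg _))
  have hind1 : ∀ n : ℤ, (if n < 0 then (1:ℝ) else 0) ≤ max (-(n:ℝ)) 0 := by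
    intro n
    split_ifs with h
    · have : (n : ℝ) ≤ -1 := by exact_mod_cast (show n ≤ -1 by omega)
      exact le_max_of_le_left (by linarith)
    · exact le_max_right _ _
  have hind0 : ∀ n : ℤ, (0:ℝ) ≤ (if n < 0 then (1:ℝ) else 0) := by
    intro n; split_ifs <;> norm_num
  have hprox : ∀ (k : ℂ → ℂ) s, 0 ≤ prox k s := fun k s =>
    circleAverage_nonneg_of_nonneg fun _ _ => Real.posLog_nonneg
  refine ⟨|κ| + 2 * (Real.log 2 * o), by positivity, ?_, ?_⟩
  · intro s hs hs1
    have hs0 : 0 < s := by linarith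
    obtain ⟨m1, m2⟩ := hmain s hs hs1
    have z1 := hZ s hs hs1
    have z2 := hPl s hs hs1
    have k1 := neg_abs_le κ
    have k2 := abs_nonneg κ
    have p1 := hprox g s
    have lo : 0 ≤ Real.log 2 * o := by positivity
    have b1 : -(Real.log 2 * o) ≤ barN g s := by
      rw [← hd0 s hs hs1]
      exact cnt_comp_ge g hs (fun n => if n < 0 then (1:ℝ) else 0) (by simp) hind0
        (fun n => (hind1 n).trans (max_le (neg_le_abs _) (abs_nonneg _)))
    have b2 : -(Real.log 2 * o) ≤ cnt (poleMult g s) s - barN g s := by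
      have := cnt_comp_ge g hs (fun n => max (-(n:ℝ)) 0 - if n < 0 then (1:ℝ) else 0) (by simp)
        (fun n => sub_nonneg.2 (hind1 n))
        (fun n => by linarith [hind0 n, max_le (neg_le_abs (n:ℝ)) (abs_nonneg (n:ℝ))])
      rw [hd0 s hs hs1, cnt_comp g s (fun n => max (-(n:ℝ)) 0 - if n < 0 then (1:ℝ) else 0) (by simp)]
        at this
      have e2 := cnt_comp g s (fun n => max (-(n : ℝ)) 0) (by simp)
      have e5 := cnt_comp g s (fun n => if n < 0 then (1:ℝ) else 0) (by simp)
      have hP : cnt (poleMult g s) s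
        = cnt (fun u => max (-(divisor g (closedBall (0:ℂ) s) u : ℝ)) 0) s := rfl
      have hB : barN g s
        = cnt (fun u => if divisor g (closedBall (0:ℂ) s) u < 0 then (1:ℝ) else 0) s := rfl
      rw [hP, hB, e2, e5]
      simp only [sub_mul, Finset.sum_sub_distrib] at this
      linarith
    have habs : circleAverage (fun ζ => |Real.log ‖g ζ‖|) 0 s
        = prox g s + prox (fun z => (g z)⁻¹) s := by
      have hi1 := (merom_sphere hg hs0 hs1).circleIntegrable_posLog_norm
      have hi2 : CircleIntegrable (fun z => log⁺ ‖(fun z => (g z)⁻¹) z‖) 0 s :=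
        (merom_sphere hg hs0 hs1).inv.circleIntegrable_posLog_norm
      unfold prox
      rw [← circleAverage_fun_add hi1 hi2]
      congr 1; ext z
      simp only [Pi.inv_apply, norm_inv, Real.posLog_apply, Real.log_inv]
      rcases le_total (Real.log ‖g z‖) 0 with h | h
      · rw [max_eq_left h, max_eq_right (by linarith), abs_of_nonpos h]; ring
      · rw [max_eq_right h, max_eq_left (by linarith), abs_of_nonneg h]; ring
    unfold charT
    refine ⟨by linarith, by linarith, by linarith, by linarith, by linarith, ?_⟩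
    rw [habs]; linarith
  · intro R R' hR hRR' hR1
    have hR0 : 0 < R := by linarith
    have hR'h : 1 / 2 ≤ R' := by linarith
    obtain ⟨m1, m2⟩ := hmain R' hR'h hR1
    have p1 := hprox g R'
    have p2 := hprox (fun z => (g z)⁻¹) R'
    have k1 := neg_abs_le κ
    have e3 := cnt_comp g R' (fun n => |(n : ℝ)|) (by simp)
    have hbR : ball (0:ℂ) R ⊆ closedBall 0 R' :=
      ball_subset_closedBall.trans (closedBall_subset_closedBall hRR'.le)
    have hgb : MeromorphicOn g (ball 0 R) := (merom_closed hg hR1).mono_set hbR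
    have hdd : ∀ u ∈ ball (0:ℂ) R, divisor g (ball 0 R) u = divisor g (closedBall (0:ℂ) R') u := by
      intro u hu
      rw [divisor_apply hgb hu, divisor_apply (merom_closed hg hR1) (hbR hu)]
    have e6 : ∑ᶠ u, |(divisor g (ball 0 R) u : ℝ)| = ∑ u ∈ supp g R', |(divisor g (ball 0 R) u : ℝ)| := by
      apply finsum_eq_sum_of_support_subset
      intro u hu
      have hu' : divisor g (ball 0 R) u ≠ 0 := by simpa using hu
      have hub := (divisor g (ball 0 R)).supportWithinDomain hu'
      rw [Finset.mem_coe, mem_supp, ← hdd u hub]; exact hu'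
    have hlog2 : Real.log (R' / R) ≤ Real.log 2 := by
      apply Real.log_le_log (by positivity)
      rw [div_le_iff₀ hR0]; linarith
    have hlog0 : 0 ≤ Real.log (R' / R) := Real.log_nonneg (by rw [le_div_iff₀ hR0]; linarith)
    classical
    have hterm : ∀ u ∈ supp g R', |(divisor g (ball 0 R) u : ℝ)| * Real.log (R' / R)
        ≤ |(divisor g (closedBall (0:ℂ) R') u : ℝ)| * Real.log (R' * ‖u‖⁻¹)
          + (if u = 0 then Real.log 2 * o else 0) := by
      intro u hu
      by_cases hub : u ∈ ball (0:ℂ) R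
      · rw [hdd u hub]
        split_ifs with h0
        · subst h0
          rw [hd0 R' hR'h hR1]
          simp only [norm_zero, inv_zero, mul_zero, Real.log_zero, zero_add]
          nlinarith
        · rw [add_zero]
          apply mul_le_mul_of_nonneg_left _ (abs_nonneg _)
          apply Real.log_le_log (by positivity)
          rw [← div_eq_mul_inv]
          exact div_le_div_of_nonneg_left (by linarith) (norm_pos_iff.2 h0)
            (mem_ball_zero_iff.1 hub).le
      · have : divisor g (ball 0 R) u = 0 := by simp [hub]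
        rw [this]
        have := mul_nonneg (abs_nonneg (divisor g (closedBall (0:ℂ) R') u : ℝ))
          (log_weight_nonneg (supp_sub hu))
        split_ifs
        · simp only [Int.cast_zero, abs_zero, zero_mul]; positivity
        · simpa using this
    have hsum := Finset.sum_le_sum hterm
    rw [← Finset.sum_mul, ← e6, Finset.sum_add_distrib] at hsum
    have hite : ∑ u ∈ supp g R', (if u = 0 then Real.log 2 * o else 0) ≤ Real.log 2 * o := by
      rw [Finset.sum_ite_eq']
      split_ifs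
      · exact le_rfl
      · positivity
    have hl := log_ge_of_half hR'h
    rw [hd0 R' hR'h hR1] at e3
    unfold charT
    nlinarith

end Pool.Agent.H53.Nv
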