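import Pool.Agent.H53.NvD

/-! Pole multiplicities and the pointwise inequality. -/

namespace Pool.Agent.H53.Nv

open Real Complex Metric Set MeasureTheory Filter Topology MeromorphicOn

lemma order_sub_const {f : ℂ → ℂ} {u : ℂ} (hf : MeromorphicAt f u) (a : ℂ) :
    max (-(((meromorphicOrderAt (fun z => f z - a) u).untop₀ : ℤ) : ℝ)) 0
      = max (-(((meromorphicOrderAt f u).untop₀ : ℤ) : ℝ)) 0 := by
  have hc : MeromorphicAt (fun _ : ℂ => -a) u := analyticAt_const.meromorphicAt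
  have hc0 : 0 ≤ meromorphicOrderAt (fun _ : ℂ => -a) u := analyticAt_const.meromorphicOrderAt_nonneg
  have e : (fun z => f z - a) = f + fun _ => -a := by ext z; simp [sub_eq_add_neg]
  rw [e]
  rcases lt_or_ge (meromorphicOrderAt f u) 0 with h | h
  · rw [meromorphicOrderAt_add_eq_left_of_lt hc (h.trans_le hc0)]
  · have h1 : 0 ≤ meromorphicOrderAt (f + fun _ => -a) u :=
      (le_min h hc0).trans (meromorphicOrderAt_add hf hc)
    have h2 : (0:ℝ) ≤ (((meromorphicOrderAt (f + fun _ => -a) u).untop₀ : ℤ) : ℝ) := by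
      exact_mod_cast WithTop.untop₀_nonneg.2 h1
    have h3 : (0:ℝ) ≤ (((meromorphicOrderAt f u).untop₀ : ℤ) : ℝ) := by
      exact_mod_cast WithTop.untop₀_nonneg.2 h
    rw [max_eq_right (by linarith), max_eq_right (by linarith)]

lemma order_deriv {f : ℂ → ℂ} {u : ℂ} (hf : MeromorphicAt f u) :
    max (-(((meromorphicOrderAt (deriv f) u).untop₀ : ℤ) : ℝ)) 0
      = max (-(((meromorphicOrderAt f u).untop₀ : ℤ) : ℝ)) 0
        + if (meromorphicOrderAt f u).untop₀ < 0 then 1 else 0 := by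
  rcases lt_or_ge (meromorphicOrderAt f u) 0 with h | h
  · obtain ⟨n, hn⟩ := WithTop.ne_top_iff_exists.1 (ne_top_of_lt h)
    have hn0 : n < 0 := by rw [← hn] at h; exact_mod_cast h
    rw [meromorphicOrderAt_deriv_eq_sub_one (n := n) (by exact_mod_cast hn0.ne) hn.symm, ← hn]
    simp only [WithTop.untop₀_coe, hn0, if_true]
    have : (n : ℝ) < 0 := by exact_mod_cast hn0
    push_cast
    rw [max_eq_left (by linarith), max_eq_left (by linarith)]; ring
  · have h3 : 0 ≤ (meromorphicOrderAt f u).untop₀ := WithTop.untop₀_nonneg.2 h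
    obtain ⟨g, hg, hfg⟩ := hf.meromorphicOrderAt_nonneg_iff.1 h
    have h1 : 0 ≤ meromorphicOrderAt (deriv f) u := by
      rw [meromorphicOrderAt_congr hfg.nhdsNE_deriv]
      exact hg.deriv.meromorphicOrderAt_nonneg
    have h2 : (0:ℝ) ≤ (((meromorphicOrderAt (deriv f) u).untop₀ : ℤ) : ℝ) := by
      exact_mod_cast WithTop.untop₀_nonneg.2 h1
    have h4 : (0:ℝ) ≤ (((meromorphicOrderAt f u).untop₀ : ℤ) : ℝ) := by exact_mod_cast h3
    rw [max_eq_right (by linarith), max_eq_right (by linarith), if_neg (not_lt.2 h3)]; simp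

lemma merom_sub {f : ℂ → ℂ} {U : Set ℂ} (hf : MeromorphicOn f U) (a : ℂ) :
    MeromorphicOn (fun z => f z - a) U := fun z hz =>
  (hf z hz).sub analyticAt_const.meromorphicAt

lemma poleMult_sub {f : ℂ → ℂ} (hf : MeromorphicOn f (ball 0 1)) (a : ℂ) {s : ℝ} (hs : s < 1) :
    poleMult (fun z => f z - a) s = poleMult f s := by
  ext u
  unfold poleMult
  by_cases hu : u ∈ closedBall (0:ℂ) s
  · rw [divisor_apply (merom_closed (merom_sub hf a) hs) hu, divisor_apply (merom_closed hf hs) hu]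
    exact order_sub_const (merom_closed hf hs u hu) a
  · simp [hu]

lemma charT_sub_le {f : ℂ → ℂ} (hf : MeromorphicOn f (ball 0 1)) (a : ℂ) {s : ℝ} (h0 : 0 < s)
    (hs : s < 1) : charT (fun z => f z - a) s ≤ charT f s + (log⁺ ‖a‖ + Real.log 2) := by
  unfold charT
  rw [poleMult_sub hf a hs]
  have h1 := (merom_sphere hf h0 hs).circleIntegrable_posLog_norm
  have h2 := (merom_sphere (merom_sub hf a) h0 hs).circleIntegrable_posLog_norm
  have h3 : prox (fun z => f z - a) s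
      ≤ circleAverage (fun z => log⁺ ‖f z‖ + (log⁺ ‖a‖ + Real.log 2)) 0 s := by
    apply circleAverage_mono h2 (h1.add (circleIntegrable_const _ _ _))
    intro z _
    have := Real.posLog_norm_add_le (f z) (-a)
    rw [norm_neg, ← sub_eq_add_neg] at this
    simp only [Pi.add_apply]; linarith
  rw [circleAverage_fun_add h1 (circleIntegrable_const _ _ _), circleAverage_const] at h3
  unfold prox at *
  linarith

lemma cnt_deriv {f : ℂ → ℂ} (hf : MeromorphicOn f (ball 0 1)) {s : ℝ} (hs : s < 1) :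
    cnt (poleMult (deriv f) s) s = cnt (poleMult f s) s + barN f s := by
  have e : poleMult (deriv f) s = fun u => max (-(divisor f (closedBall (0:ℂ) s) u : ℝ)) 0
      + if divisor f (closedBall (0:ℂ) s) u < 0 then (1:ℝ) else 0 := by
    ext u
    unfold poleMult
    by_cases hu : u ∈ closedBall (0:ℂ) s
    · rw [divisor_apply (merom_closed hf.deriv hs) hu, divisor_apply (merom_closed hf hs) hu]
      exact order_deriv (merom_closed hf hs u hu)
    · simp [hu]
  have e1 := cnt_comp f s (fun n => max (-(n:ℝ)) 0 + if n < 0 then (1:ℝ) else 0) (by simp)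
  have e2 := cnt_comp f s (fun n => max (-(n : ℝ)) 0) (by simp)
  have e5 := cnt_comp f s (fun n => if n < 0 then (1:ℝ) else 0) (by simp)
  have hP : cnt (poleMult f s) s
    = cnt (fun u => max (-(divisor f (closedBall (0:ℂ) s) u : ℝ)) 0) s := rfl
  have hB : barN f s
    = cnt (fun u => if divisor f (closedBall (0:ℂ) s) u < 0 then (1:ℝ) else 0) s := rfl
  rw [e, e1, hP, hB, e2, e5]
  simp only [add_mul, Finset.sum_add_distrib]
  ring

lemma pointwise (S : Finset ℂ) (hS : S.Nonempty) :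
    ∃ C : ℝ, ∀ (w : ℂ) (p η Y : ℝ), 0 < p → 0 ≤ η → η ≤ 1 → (∀ a ∈ S, w ≠ a) →
      (∀ a ∈ S, log⁺ (p / ‖w - a‖) ≤ Y) →
      ∑ a ∈ S, log⁺ ‖(w - a)⁻¹‖ + η * log⁺ p ≤ log⁺ p⁻¹ + η * log⁺ ‖w‖ + Y + C := by
  classical
  refine ⟨∑ a ∈ S, ∑ b ∈ S, log⁺ (2 / ‖a - b‖) + ∑ a ∈ S, (log⁺ ‖a‖ + Real.log 2), ?_⟩
  intro w p η Y hp h0 h1 hw hY
  obtain ⟨b, hb, hmin⟩ := S.exists_min_image (fun a => ‖w - a‖) hS
  have hl2 : 0 < Real.log 2 := Real.log_pos (by norm_num)
  have hA : ∑ a ∈ S, log⁺ ‖(w - a)⁻¹‖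
      ≤ log⁺ ‖(w - b)⁻¹‖ + ∑ a ∈ S, ∑ b ∈ S, log⁺ (2 / ‖a - b‖) := by
    rw [← Finset.add_sum_erase S _ hb]
    apply add_le_add le_rfl
    calc ∑ a ∈ S.erase b, log⁺ ‖(w - a)⁻¹‖ ≤ ∑ a ∈ S.erase b, ∑ b ∈ S, log⁺ (2 / ‖a - b‖) := by
          apply Finset.sum_le_sum
          intro a ha
          have hab : a ≠ b := Finset.ne_of_mem_erase ha
          have haS := Finset.mem_of_mem_erase ha
          refine le_trans ?_ (Finset.single_le_sum (f := fun b => log⁺ (2 / ‖a - b‖))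
            (fun _ _ => Real.posLog_nonneg) hb)
          apply Real.posLog_le_posLog (norm_nonneg _)
          have t1 : ‖a - b‖ ≤ ‖w - a‖ + ‖w - b‖ := by
            have : a - b = (w - b) - (w - a) := by ring
            rw [this]; linarith [norm_sub_le (w - b) (w - a)]
          have t2 := hmin a haS
          have t3 : 0 < ‖a - b‖ := norm_pos_iff.2 (sub_ne_zero.2 hab)
          have t4 : 0 < ‖w - a‖ := norm_pos_iff.2 (sub_ne_zero.2 (hw a haS))
          rw [norm_inv, inv_eq_one_div, div_le_div_iff₀ t4 t3]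
          linarith
      _ ≤ _ := Finset.sum_le_sum_of_subset_of_nonneg (Finset.erase_subset _ _)
          (fun _ _ _ => Finset.sum_nonneg fun _ _ => Real.posLog_nonneg)
  have hB : log⁺ ‖b‖ + Real.log 2 ≤ ∑ a ∈ S, (log⁺ ‖a‖ + Real.log 2) :=
    Finset.single_le_sum (f := fun a => log⁺ ‖a‖ + Real.log 2)
      (fun _ _ => add_nonneg Real.posLog_nonneg hl2.le) hb
  have hq : 0 < ‖w - b‖ := norm_pos_iff.2 (sub_ne_zero.2 (hw b hb))
  have hYb := hY b hb
  have n1 : 0 ≤ log⁺ p := Real.posLog_nonneg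
  have n2 : 0 ≤ log⁺ ‖w‖ := Real.posLog_nonneg
  have n3 : 0 ≤ log⁺ ‖b‖ := Real.posLog_nonneg
  have n4 : 0 ≤ log⁺ p⁻¹ := Real.posLog_nonneg
  have n5 : 0 ≤ log⁺ (p / ‖w - b‖) := Real.posLog_nonneg
  have key : log⁺ ‖(w - b)⁻¹‖ + η * log⁺ p
      ≤ log⁺ p⁻¹ + η * log⁺ ‖w‖ + Y + (log⁺ ‖b‖ + Real.log 2) := by
    rcases le_total ‖w - b‖ 1 with hc | hc
    · have e1 : log⁺ ‖(w - b)⁻¹‖ = -Real.log ‖w - b‖ := by
        rw [norm_inv, Real.posLog_eq_log, Real.log_inv]
        rw [abs_of_pos (inv_pos.2 hq)]; exact (one_le_inv₀ hq).2 hc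
      have e2 : Real.log (p / ‖w - b‖) ≤ log⁺ (p / ‖w - b‖) := le_max_right _ _
      rw [Real.log_div hp.ne' hq.ne'] at e2
      have e3 := Real.posLog_sub_posLog_inv (x := p)
      have e4 : η * log⁺ p ≤ log⁺ p := by nlinarith
      have e5 : 0 ≤ η * log⁺ ‖w‖ := mul_nonneg h0 n2
      rw [e1]; linarith
    · have e1 : log⁺ ‖(w - b)⁻¹‖ = 0 := by
        rw [Real.posLog_eq_zero_iff, norm_inv, abs_of_pos (inv_pos.2 hq)]
        exact inv_le_one_of_one_le₀ hc
      have e2 : log⁺ p ≤ log⁺ (p / ‖w - b‖) + log⁺ ‖w - b‖ := by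
        have := Real.posLog_mul (x := p / ‖w - b‖) (y := ‖w - b‖)
        rwa [div_mul_cancel₀ _ hq.ne'] at this
      have e3 := Real.posLog_norm_add_le w (-b)
      rw [norm_neg, ← sub_eq_add_neg] at e3
      have e4 : η * log⁺ p ≤ η * (log⁺ (p / ‖w - b‖) + (log⁺ ‖w‖ + log⁺ ‖b‖ + Real.log 2)) :=
        mul_le_mul_of_nonneg_left (by linarith) h0
      have e5 : η * log⁺ (p / ‖w - b‖) ≤ log⁺ (p / ‖w - b‖) := by nlinarith
      have e6 : η * (log⁺ ‖b‖ + Real.log 2) ≤ log⁺ ‖b‖ + Real.log 2 := by nlinarith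
      rw [e1]; nlinarith
  linarith

lemma posLog_le_of_rpow {x α K φ : ℝ} (hx : 0 ≤ x) (hα : 0 < α) (hK : 1 ≤ K) (h : x ^ α ≤ φ) :
    log⁺ x ≤ α⁻¹ * (Real.log K + φ / K) := by
  have hK0 : 0 < K := by linarith
  have hφ : 0 ≤ φ := (Real.rpow_nonneg hx _).trans h
  have hlK : 0 ≤ Real.log K := Real.log_nonneg hK
  rcases le_total x 1 with h1 | h1
  · rw [(Real.posLog_eq_zero_iff x).2 (by rwa [abs_of_nonneg hx])]; positivity
  · have hx0 : 0 < x := by linarith
    rw [Real.posLog_eq_log (by rwa [abs_of_nonneg hx]), ← div_eq_inv_mul, le_div_iff₀ hα]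
    have h2 := Real.log_le_sub_one_of_pos (x := x ^ α / K) (by positivity)
    rw [Real.log_div (by positivity) hK0.ne', Real.log_rpow hx0] at h2
    have h3 : x ^ α / K ≤ φ / K := div_le_div_of_nonneg_right h hK0.le
    linarith

lemma avg_mono_cod {f₁ f₂ : ℂ → ℝ} {r : ℝ} (hr : r ≠ 0) (h1 : CircleIntegrable f₁ 0 r)
    (h2 : CircleIntegrable f₂ 0 r)
    (h : ∀ᶠ z in codiscreteWithin (sphere (0:ℂ) |r|), f₁ z ≤ f₂ z) :
    circleAverage f₁ 0 r ≤ circleAverage f₂ 0 r := by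
  have e : f₁ =ᶠ[codiscreteWithin (sphere (0:ℂ) |r|)] fun z => min (f₁ z) (f₂ z) := by
    filter_upwards [h] with z hz using (min_eq_left hz).symm
  rw [circleAverage_congr_codiscreteWithin e hr]
  exact circleAverage_mono (h1.congr_codiscreteWithin e) h2 fun z _ => min_le_right _ _

end Pool.Agent.H53.Nv
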