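import Pool.Agent.H53.NvE

/-! The integrated inequality. -/

namespace Pool.Agent.H53.Nv

open Real Complex Metric Set MeasureTheory Filter Topology MeromorphicOn

lemma majorant2 {α : ℝ} (hα0 : 0 < α) (hα : α < 1) {g : ℂ → ℂ} (hg : MeromorphicOn g (ball 0 1))
    (hg' : ∀ u ∈ ball (0:ℂ) 1, meromorphicOrderAt g u ≠ ⊤) :
    ∃ C c : ℝ, 0 ≤ C ∧ 0 ≤ c ∧ ∀ r A : ℝ, 1 / 2 ≤ r → r < 1 → 0 ≤ A →
      (∀ s, r ≤ s → 1 - s ≥ (1 - r) / 4 → charT g s ≤ A) →
      ∃ Φ : ℂ → ℝ, CircleIntegrable Φ 0 r ∧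
        (∀ᶠ z in codiscreteWithin (sphere (0:ℂ) |r|), ‖logDeriv g z‖ ^ α ≤ Φ z) ∧
        circleAverage Φ 0 r ≤ 1 + C * (A + c) / (1 - r) := by
  classical
  obtain ⟨C, hC0, hC⟩ := kernel_bound hα0 hα
  obtain ⟨c, hc0, h1, h2⟩ := fmt hg
  refine ⟨16 + 16 * C, c, by positivity, hc0, ?_⟩
  intro r A hr hr1 hA hT
  set x := 1 - r with hx
  have hx0 : 0 < x := by linarith
  set R' := r + 3 * x / 4 with hR'
  have hR'1 : R' < 1 := by linarith
  obtain ⟨R, hR, hRn⟩ := (Set.Ioo_infinite (a := r + x / 4) (b := r + x / 2) (by linarith)).exists_notMem_finset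
    ((supp g R').image norm)
  have hrR : r < R := by linarith [hR.1]
  have hRR' : R < R' := by linarith [hR.2]
  have hR1 : R < 1 := by linarith
  have hr0 : 0 < r := by linarith
  have hs : ∀ v, divisor g (sphere 0 R) v = 0 := by
    intro v
    by_cases hv : v ∈ sphere (0:ℂ) R
    · have hv' : v ∈ closedBall (0:ℂ) R' :=
        closedBall_subset_closedBall hRR'.le (sphere_subset_closedBall hv)
      rw [divisor_apply (hg.mono_set (sphere_subset_ball hR1)) hv,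
        ← divisor_apply (merom_closed hg hR'1) hv']
      by_contra hne
      apply hRn
      exact Finset.mem_image.2 ⟨v, mem_supp.2 hne, mem_sphere_zero_iff_norm.1 hv⟩
    · exact (divisor g (sphere 0 R)).apply_eq_zero_of_notMem hv
  obtain ⟨Φ, hΦ1, hΦ2, hΦ3⟩ := majorant hα0 hα hr0 hrR (hC r hr) (merom_closed hg hR1)
    (fun u hu => hg' u (closedBall_subset_ball hR1 hu)) hs
  refine ⟨Φ, hΦ1, hΦ2, hΦ3.trans ?_⟩
  have a1 := (h1 R (by linarith) hR1).2.2.2.2.2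
  have a2 := h2 R R' (by linarith) hRR' hR'1
  have t1 := hT R hrR.le (by linarith [hR.2])
  have t2 := hT R' (by linarith) (by linarith)
  have b1 : 2 * R * (R ^ 2 - r ^ 2)⁻¹ ≤ 8 / x := by
    have hd : 0 < R ^ 2 - r ^ 2 := by nlinarith
    rw [← div_eq_mul_inv, div_le_div_iff₀ hd hx0]
    nlinarith [hR.1]
  have b2 : x / 4 ≤ Real.log (R' / R) := by
    have hR0 : 0 < R := by linarith
    have hR'0 : 0 < R' := by linarith
    have := Real.one_sub_inv_le_log_of_pos (x := R' / R) (by positivity)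
    refine le_trans ?_ this
    rw [inv_div, le_sub_iff_add_le, ← le_sub_iff_add_le', div_le_iff₀ hR'0]
    nlinarith [hR.2]
  set n := ∑ᶠ u, |(divisor g (ball 0 R) u : ℝ)| with hn
  have hn0 : 0 ≤ n := finsum_nonneg fun _ => abs_nonneg _
  have b3 : n ≤ 8 * (A + c) / x := by
    rw [le_div_iff₀ hx0]
    nlinarith [mul_le_mul_of_nonneg_left b2 hn0]
  have hL0 : 0 ≤ circleAverage (fun ζ => |Real.log ‖g ζ‖|) 0 R :=
    circleAverage_nonneg_of_nonneg fun _ _ => abs_nonneg _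
  have b4 : 2 * R * (R ^ 2 - r ^ 2)⁻¹ * circleAverage (fun ζ => |Real.log ‖g ζ‖|) 0 R
      ≤ 8 / x * (2 * A + 2 * c) :=
    mul_le_mul b1 (by linarith) hL0 (by positivity)
  have b5 : 2 * C * n ≤ 2 * C * (8 * (A + c) / x) := mul_le_mul_of_nonneg_left b3 (by positivity)
  have e : (16 + 16 * C) * (A + c) / x = 8 / x * (2 * A + 2 * c) + 2 * C * (8 * (A + c) / x) := by
    field_simp; ring
  rw [e]; linarith

lemma core {α σ s₀ : ℝ} (hα0 : 0 < α) (hα : α < 1) (hσ : 0 ≤ σ) {f : ℂ → ℂ}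
    (hf : MeromorphicOn f (ball 0 1))
    (hf1 : ∀ a, ∀ u ∈ ball (0:ℂ) 1, meromorphicOrderAt (fun z => f z - a) u ≠ ⊤)
    (hf2 : ∀ u ∈ ball (0:ℂ) 1, meromorphicOrderAt (deriv f) u ≠ ⊤)
    (hT : ∀ s, s₀ ≤ s → s < 1 → charT f s ≤ (1 - s) ^ (-σ))
    (S : Finset ℂ) (hS : S.Nonempty) :
    ∃ C : ℝ, ∀ r η : ℝ, 1 / 2 ≤ r → s₀ ≤ r → r < 1 → 0 ≤ η → η ≤ 1 →
      ∑ a ∈ S, prox (fun z => (f z - a)⁻¹) r + η * prox (deriv f) r
        ≤ prox (fun z => (deriv f z)⁻¹) r + η * prox f r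
          + α⁻¹ * (σ + 1) * Real.log (1 / (1 - r)) + C := by
  classical
  choose C c hC hc hM using fun a => majorant2 hα0 hα (merom_sub hf a) (hf1 a)
  obtain ⟨C₀, hC₀⟩ := pointwise S hS
  set B : ℂ → ℝ := fun a => 1 + C a * (4 ^ σ + (log⁺ ‖a‖ + Real.log 2) + c a) with hB
  refine ⟨α⁻¹ * (∑ a ∈ S, B a) + C₀, ?_⟩
  intro r η hr hr0 hr1 h0 h1
  have hl2 : 0 < Real.log 2 := Real.log_pos (by norm_num)
  set x := 1 - r with hx
  have hx0 : 0 < x := by linarith
  have hx1 : x ≤ 1 := by linarith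
  have hrp : 0 < r := by linarith
  set K := x ^ (-(σ + 1)) with hK
  have hK1 : 1 ≤ K := Real.one_le_rpow_of_pos_of_le_one_of_nonpos hx0 hx1 (by linarith)
  have hK0 : 0 < K := by linarith
  have hxs : 1 ≤ x ^ (-σ) := Real.one_le_rpow_of_pos_of_le_one_of_nonpos hx0 hx1 (by linarith)
  have hKx : K = x ^ (-σ) / x := by
    rw [hK, neg_add, Real.rpow_add hx0, Real.rpow_neg_one, div_eq_mul_inv]
  have hlogK : Real.log K = (σ + 1) * Real.log (1 / x) := by
    rw [hK, Real.log_rpow hx0, one_div, Real.log_inv]; ring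
  have hΦ : ∀ a, ∃ Φ : ℂ → ℝ, CircleIntegrable Φ 0 r ∧
      (∀ᶠ z in codiscreteWithin (sphere (0:ℂ) |r|), ‖logDeriv (fun z => f z - a) z‖ ^ α ≤ Φ z) ∧
      circleAverage Φ 0 r ≤ B a * K := by
    intro a
    have hpl : 0 ≤ log⁺ ‖a‖ := Real.posLog_nonneg
    obtain ⟨Φ, p1, p2, p3⟩ := hM a r (4 ^ σ * x ^ (-σ) + (log⁺ ‖a‖ + Real.log 2)) hr hr1
      (by positivity) (by
        intro s hs1 hs2
        have hs3 : s < 1 := by linarith
        refine (charT_sub_le hf a (by linarith) hs3).trans (add_le_add ?_ le_rfl)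
        refine (hT s (by linarith) hs3).trans ?_
        calc (1 - s) ^ (-σ) ≤ (x / 4) ^ (-σ) :=
              Real.rpow_le_rpow_of_nonpos (by positivity) hs2 (by linarith)
          _ = 4 ^ σ * x ^ (-σ) := by
              rw [Real.div_rpow hx0.le (by norm_num), Real.rpow_neg (by norm_num : (0:ℝ) ≤ 4)]
              field_simp)
    refine ⟨Φ, p1, p2, p3.trans ?_⟩
    simp only [hB]
    rw [add_mul, one_mul]
    apply add_le_add hK1
    rw [hKx, mul_div_assoc', div_le_div_iff_of_pos_right hx0, mul_assoc]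
    apply mul_le_mul_of_nonneg_left _ (hC a)
    have := hc a
    nlinarith
  choose Φ hΦ1 hΦ2 hΦ3 using hΦ
  have hsub : sphere (0:ℂ) |r| ⊆ ball 0 1 := by
    rw [abs_of_pos hrp]; exact sphere_subset_ball hr1
  have hi1 : ∀ a ∈ S, CircleIntegrable (fun z => log⁺ ‖(f z - a)⁻¹‖) 0 r := fun a _ =>
    (merom_sphere (merom_sub hf a) hrp hr1).inv.circleIntegrable_posLog_norm
  have hi1' : CircleIntegrable (fun z => ∑ a ∈ S, log⁺ ‖(f z - a)⁻¹‖) 0 r := by
    have := CircleIntegrable.sum (s := S) hi1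
    convert this using 1
    ext z; simp
  have hi2 : CircleIntegrable (fun z => log⁺ ‖deriv f z‖) 0 r :=
    (merom_sphere hf.deriv hrp hr1).circleIntegrable_posLog_norm
  have hi3 : CircleIntegrable (fun z => log⁺ ‖(deriv f z)⁻¹‖) 0 r :=
    (merom_sphere hf.deriv hrp hr1).inv.circleIntegrable_posLog_norm
  have hi4 : CircleIntegrable (fun z => log⁺ ‖f z‖) 0 r :=
    (merom_sphere hf hrp hr1).circleIntegrable_posLog_norm
  have hi5 : CircleIntegrable (fun z => ∑ a ∈ S, Φ a z) 0 r := by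
    have := CircleIntegrable.sum (s := S) (fun a _ => hΦ1 a)
    convert this using 1
    ext z; simp
  have hi2' : CircleIntegrable (fun z => η * log⁺ ‖deriv f z‖) 0 r := hi2.const_mul _
  have hi4' : CircleIntegrable (fun z => η * log⁺ ‖f z‖) 0 r := hi4.const_mul _
  have hi5' : CircleIntegrable (fun z => (α⁻¹ / K) * ∑ a ∈ S, Φ a z) 0 r := hi5.const_mul _
  have hi6 : CircleIntegrable (fun z => log⁺ ‖(deriv f z)⁻¹‖ + η * log⁺ ‖f z‖) 0 r := hi3.add hi4'
  have hi7 : CircleIntegrable (fun z => log⁺ ‖(deriv f z)⁻¹‖ + η * log⁺ ‖f z‖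
      + (α⁻¹ / K) * ∑ a ∈ S, Φ a z) 0 r := hi6.add hi5'
  have hmono := avg_mono_cod (f₁ := fun z => ∑ a ∈ S, log⁺ ‖(f z - a)⁻¹‖ + η * log⁺ ‖deriv f z‖)
    (f₂ := fun z => log⁺ ‖(deriv f z)⁻¹‖ + η * log⁺ ‖f z‖ + (α⁻¹ / K) * ∑ a ∈ S, Φ a z
      + (α⁻¹ * Real.log K + C₀)) hrp.ne' (hi1'.add hi2') (hi7.add (circleIntegrable_const _ _ _))
    (by
      have e1 : ∀ᶠ z in codiscreteWithin (sphere (0:ℂ) |r|), ∀ a ∈ S, f z - a ≠ 0 :=
        (eventually_all_finset S).2 fun a _ => codiscreteWithin_mono hsub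
          ((merom_sub hf a).eventually_codiscreteWithin_apply_ne_zero (hf1 a))
      have e2 : ∀ᶠ z in codiscreteWithin (sphere (0:ℂ) |r|), deriv f z ≠ 0 :=
        codiscreteWithin_mono hsub (hf.deriv.eventually_codiscreteWithin_apply_ne_zero hf2)
      have e3 := (eventually_all_finset S).2 fun a _ => hΦ2 a
      filter_upwards [e1, e2, e3] with z z1 z2 z3
      have hnn : ∀ a ∈ S, 0 ≤ Φ a z := fun a ha =>
        (Real.rpow_nonneg (norm_nonneg _) _).trans (z3 a ha)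
      have := hC₀ (f z) ‖deriv f z‖ η (α⁻¹ * (Real.log K + (∑ a ∈ S, Φ a z) / K))
        (norm_pos_iff.2 z2) h0 h1 (fun a ha => sub_ne_zero.1 (z1 a ha)) (by
          intro a ha
          apply posLog_le_of_rpow (by positivity) hα0 hK1
          refine le_trans (le_of_eq ?_) ((z3 a ha).trans (Finset.single_le_sum hnn ha))
          rw [logDeriv_apply, norm_div, deriv_sub_const])
      rw [norm_inv (deriv f z)]
      have e : α⁻¹ * (Real.log K + (∑ a ∈ S, Φ a z) / K)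
        = (α⁻¹ / K) * ∑ a ∈ S, Φ a z + α⁻¹ * Real.log K := by ring
      linarith)
  have sm : ∀ (k : ℝ) (F : ℂ → ℝ), circleAverage (fun z => k * F z) 0 r = k * circleAverage F 0 r :=
    fun k F => by
      have := circleAverage_fun_smul (a := k) (f := F) (c := 0) (R := r)
      simpa only [smul_eq_mul] using this
  rw [circleAverage_fun_add hi1' hi2', circleAverage_fun_add hi7 (circleIntegrable_const _ _ _),
    circleAverage_fun_add hi6 hi5', circleAverage_fun_add hi3 hi4', circleAverage_const,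
    circleAverage_fun_sum hi1, sm, sm, sm, circleAverage_fun_sum (fun a _ => hΦ1 a)] at hmono
  have hfin : α⁻¹ / K * ∑ a ∈ S, circleAverage (Φ a) 0 r ≤ α⁻¹ * ∑ a ∈ S, B a := by
    have : ∑ a ∈ S, circleAverage (Φ a) 0 r ≤ (∑ a ∈ S, B a) * K := by
      rw [Finset.sum_mul]; exact Finset.sum_le_sum fun a _ => hΦ3 a
    calc _ ≤ α⁻¹ / K * ((∑ a ∈ S, B a) * K) := mul_le_mul_of_nonneg_left this (by positivity)
      _ = _ := by field_simp
  unfold prox
  rw [hlogK] at hmono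
  have e : α⁻¹ * (σ + 1) * Real.log (1 / x) = α⁻¹ * ((σ + 1) * Real.log (1 / x)) := by ring
  rw [e]
  linarith

end Pool.Agent.H53.Nv
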