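import Pool.Agent.H53.NvF

/-! Deficiency, order and the final limit argument. -/

namespace Pool.Agent.H53.Nv

open Real Complex Metric Set MeasureTheory Filter Topology MeromorphicOn
open scoped ENNReal

/-- The deficiency `δ(a, f) = liminf_{r → 1⁻} m(r, 1/(f-a)) / T(r, f)`. -/
noncomputable def defi (a : ℂ) (f : ℂ → ℂ) : ℝ≥0∞ :=
  liminf (fun r => ENNReal.ofReal (prox (fun z => (f z - a)⁻¹) r / charT f r)) (𝓝[<] 1)

/-- The order `ρ = limsup_{r → 1⁻} log⁺ T(r, f) / log (1 / (1 - r))`. -/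
noncomputable def ord (f : ℂ → ℂ) : ℝ≥0∞ :=
  limsup (fun r => ENNReal.ofReal (log⁺ (charT f r) / Real.log (1 / (1 - r)))) (𝓝[<] 1)

/-- `k(f) = limsup_{r → 1⁻} barN(r, f) / (1 + T(r, f))`. -/
noncomputable def kk (f : ℂ → ℂ) : ℝ≥0∞ :=
  limsup (fun r => ENNReal.ofReal (barN f r / (1 + charT f r))) (𝓝[<] 1)

/-- `λ(f) = liminf_{r → 1⁻} T(r, f) / log (1 / (1 - r))`. -/
noncomputable def lam (f : ℂ → ℂ) : ℝ≥0∞ :=
  liminf (fun r => ENNReal.ofReal (charT f r / Real.log (1 / (1 - r)))) (𝓝[<] 1)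

lemma order_ne_top {f : ℂ → ℂ} (hf : MeromorphicOn f (ball 0 1))
    (hnc : ∀ c : ℂ, ¬ ∀ᶠ z in codiscreteWithin (ball (0:ℂ) 1), f z = c) (a : ℂ) :
    ∀ u ∈ ball (0:ℂ) 1, meromorphicOrderAt (fun z => f z - a) u ≠ ⊤ := by
  apply ((merom_sub hf a).exists_meromorphicOrderAt_ne_top_iff_forall_mem
    (isConnected_ball one_pos)).1
  by_contra hcon
  push Not at hcon
  apply hnc a
  rw [Filter.Eventually, mem_codiscreteWithin_iff_forall_mem_nhdsNE]
  intro x hx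
  filter_upwards [meromorphicOrderAt_eq_top_iff.1 (hcon x hx)] with z hz
  exact Or.inl (sub_eq_zero.1 hz)

lemma order_deriv_ne_top {f : ℂ → ℂ} (hf : MeromorphicOn f (ball 0 1))
    (hnc : ∀ c : ℂ, ¬ ∀ᶠ z in codiscreteWithin (ball (0:ℂ) 1), f z = c) :
    ∀ u ∈ ball (0:ℂ) 1, meromorphicOrderAt (deriv f) u ≠ ⊤ := by
  intro u hu htop
  have h1 := meromorphicOrderAt_eq_top_iff.1 htop
  have h2 : ∀ᶠ z in 𝓝[≠] u, AnalyticAt ℂ f z := (hf u hu).eventually_analyticAt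
  have h3 : ∀ᶠ z in 𝓝[≠] u, z ∈ ball (0:ℂ) 1 := mem_nhdsWithin_of_mem_nhds (isOpen_ball.mem_nhds hu)
  have h4 : ∀ᶠ z in 𝓝[≠] u, ∀ᶠ w in 𝓝 z, deriv f w = 0 ∧ AnalyticAt ℂ f w :=
    (eventually_nhdsWithin_eventually_nhds_iff_of_isOpen isOpen_compl_singleton).2 (h1.and h2)
  obtain ⟨z, hz1, hz2⟩ := (h3.and h4).exists
  obtain ⟨ε, hε, hb⟩ := Metric.eventually_nhds_iff_ball.1 hz2
  apply order_ne_top hf hnc (f z) z hz1
  rw [meromorphicOrderAt_eq_top_iff]
  apply mem_nhdsWithin_of_mem_nhds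
  filter_upwards [ball_mem_nhds z hε] with w hw
  rw [sub_eq_zero]
  exact isOpen_ball.is_const_of_deriv_eq_zero (convex_ball z ε).isPreconnected
    (fun y hy => (hb y hy).2.differentiableAt.differentiableWithinAt)
    (fun y hy => (hb y hy).1) hw (mem_ball_self hε)

lemma add_liminf_le {β : Type*} (l : Filter β) (u v : β → ℝ≥0∞) :
    liminf u l + liminf v l ≤ liminf (fun r => u r + v r) l := by
  rcases eq_or_ne (liminf u l) 0 with h | h
  · rw [h, zero_add]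
    exact liminf_le_liminf (Eventually.of_forall fun r => le_add_self)
  rcases eq_or_ne (liminf v l) 0 with h' | h'
  · rw [h', add_zero]
    exact liminf_le_liminf (Eventually.of_forall fun r => le_self_add)
  haveI : NeBot (𝓝[<] (liminf u l)) := nhdsLT_neBot_of_exists_lt ⟨0, pos_iff_ne_zero.2 h⟩
  haveI : NeBot (𝓝[<] (liminf v l)) := nhdsLT_neBot_of_exists_lt ⟨0, pos_iff_ne_zero.2 h'⟩
  have ht : Tendsto (fun p : ℝ≥0∞ × ℝ≥0∞ => p.1 + p.2) (𝓝[<] (liminf u l) ×ˢ 𝓝[<] (liminf v l))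
      (𝓝 (liminf u l + liminf v l)) :=
    (tendsto_fst.mono_right nhdsWithin_le_nhds).add (tendsto_snd.mono_right nhdsWithin_le_nhds)
  apply le_of_tendsto ht
  filter_upwards [Filter.prod_mem_prod self_mem_nhdsWithin self_mem_nhdsWithin] with p hp
  apply le_liminf_of_le
  · isBoundedDefault
  have hp1 : p.1 < liminf u l := hp.1
  have hp2 : p.2 < liminf v l := hp.2
  filter_upwards [eventually_lt_of_lt_liminf hp1, eventually_lt_of_lt_liminf hp2] with r h1 h2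
  exact add_le_add h1.le h2.le

lemma sum_liminf_le {ι β : Type*} (l : Filter β) (S : Finset ι) (u : ι → β → ℝ≥0∞) :
    ∑ a ∈ S, liminf (u a) l ≤ liminf (fun r => ∑ a ∈ S, u a r) l := by
  classical
  induction S using Finset.induction_on with
  | empty => simp
  | insert a S ha ih =>
    simp only [Finset.sum_insert ha]
    exact (add_le_add le_rfl ih).trans (add_liminf_le l _ _)

lemma tendsto_L : Tendsto (fun r : ℝ => Real.log (1 / (1 - r))) (𝓝[<] 1) atTop := by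
  apply Real.tendsto_log_atTop.comp
  simp only [one_div]
  apply tendsto_inv_nhdsGT_zero.comp
  apply tendsto_nhdsWithin_iff.2
  constructor
  · have : Tendsto (fun r : ℝ => 1 - r) (𝓝 1) (𝓝 (1 - 1)) := tendsto_const_nhds.sub tendsto_id
    rw [sub_self] at this
    exact this.mono_left nhdsWithin_le_nhds
  · filter_upwards [self_mem_nhdsWithin] with r hr
    exact sub_pos.2 (show r < 1 from hr)

lemma ev_half : ∀ᶠ r : ℝ in 𝓝[<] 1, 1 / 2 ≤ r ∧ r < 1 := by
  filter_upwards [Ioo_mem_nhdsLT (show (1 / 2 : ℝ) < 1 by norm_num)] with r hr using ⟨hr.1.le, hr.2⟩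

lemma ev_T {f : ℂ → ℂ} {ℓ : ℝ} (h : ENNReal.ofReal ℓ < lam f) (hℓ : 0 < ℓ) :
    (∀ᶠ r : ℝ in 𝓝[<] 1, ℓ * Real.log (1 / (1 - r)) ≤ charT f r) ∧
      Tendsto (charT f) (𝓝[<] 1) atTop := by
  have h1 : ∀ᶠ r : ℝ in 𝓝[<] 1, ℓ * Real.log (1 / (1 - r)) ≤ charT f r := by
    filter_upwards [eventually_lt_of_lt_liminf h, tendsto_L.eventually_gt_atTop 0] with r hr hL
    have := (ENNReal.ofReal_lt_ofReal_iff_of_nonneg hℓ.le).1 hr
    rw [lt_div_iff₀ hL] at this
    exact this.le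
  exact ⟨h1, tendsto_atTop_mono' _ h1 (tendsto_L.const_mul_atTop hℓ)⟩

lemma step {f : ℂ → ℂ} (hf : MeromorphicOn f (ball 0 1))
    (hnc : ∀ c : ℂ, ¬ ∀ᶠ z in codiscreteWithin (ball (0:ℂ) 1), f z = c)
    (S : Finset ℂ) (hS : S.Nonempty) {α σ ℓ κ η ε : ℝ} (hα0 : 0 < α) (hα : α < 1) (hε : 0 < ε)
    (hσ : ord f < ENNReal.ofReal σ) (hℓ0 : 0 < ℓ) (hℓ : ENNReal.ofReal ℓ < lam f)
    (hκ : kk f < ENNReal.ofReal κ) (hη0 : 0 ≤ η) (hη1 : η ≤ 1)
    (hη : defi 0 (deriv f) < ENNReal.ofReal η ∨ η = 1) :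
    ∑ a ∈ S, defi a f ≤ ENNReal.ofReal (η * (1 + κ) + α⁻¹ * (σ + 1) * ℓ⁻¹ + ε) := by
  have hσ0 : 0 < σ := ENNReal.ofReal_pos.1 (lt_of_le_of_lt (by simp) hσ)
  have hκ0 : 0 < κ := ENNReal.ofReal_pos.1 (lt_of_le_of_lt (by simp) hκ)
  obtain ⟨hT1, hT2⟩ := ev_T hℓ hℓ0
  have hgrow : ∀ᶠ r : ℝ in 𝓝[<] 1, charT f r ≤ (1 - r) ^ (-σ) := by
    filter_upwards [eventually_lt_of_limsup_lt hσ, tendsto_L.eventually_gt_atTop 0,
      hT2.eventually_gt_atTop 0, self_mem_nhdsWithin] with r hr hL hT0 hr1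
    have h1 := (ENNReal.ofReal_lt_ofReal_iff hσ0).1 hr
    rw [div_lt_iff₀ hL] at h1
    have h2 : Real.log (charT f r) ≤ log⁺ (charT f r) := le_max_right _ _
    have hx : 0 < 1 - r := sub_pos.2 hr1
    rw [← Real.log_le_log_iff hT0 (by positivity), Real.log_rpow hx]
    rw [one_div, Real.log_inv] at h1
    linarith
  obtain ⟨s₀, hs₀, hs₁⟩ := mem_nhdsLT_iff_exists_Ioo_subset.1 hgrow
  have hs₀' : s₀ < 1 := hs₀
  obtain ⟨C, hC⟩ := core (s₀ := (s₀ + 1) / 2) hα0 hα hσ0.le hf (order_ne_top hf hnc)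
    (order_deriv_ne_top hf hnc) (fun s h1 h2 => hs₁ ⟨by linarith, h2⟩) S hS
  obtain ⟨c, hc0, hc, -⟩ := fmt hf.deriv
  have hfreq : ∃ᶠ r : ℝ in 𝓝[<] 1,
      prox (fun z => (deriv f z)⁻¹) r ≤ η * charT (deriv f) r + 2 * c := by
    rcases hη with hη | rfl
    · have hηp : 0 < η := ENNReal.ofReal_pos.1 (lt_of_le_of_lt (by simp) hη)
      have := frequently_lt_of_liminf_lt (h := hη)
      refine (this.and_eventually ev_half).mono ?_
      rintro r ⟨hr, h1, h2⟩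
      have h3 := (ENNReal.ofReal_lt_ofReal_iff hηp).1 hr
      simp only [sub_zero] at h3
      obtain ⟨q1, -, q3, -⟩ := hc r h1 h2
      rcases lt_or_ge 0 (charT (deriv f) r) with hp | hp
      · rw [div_lt_iff₀ hp] at h3; linarith
      · nlinarith
    · refine (ev_half.mono ?_).frequently
      rintro r ⟨h1, h2⟩
      obtain ⟨q1, -⟩ := hc r h1 h2
      linarith
  refine (sum_liminf_le _ S _).trans (liminf_le_of_frequently_le' ?_)
  have hev : ∀ᶠ r : ℝ in 𝓝[<] 1, (s₀ + 1) / 2 ≤ r := by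
    filter_upwards [Ioo_mem_nhdsLT (show (s₀ + 1) / 2 < 1 by linarith)] with r hr using hr.1.le
  refine (hfreq.and_eventually (ev_half.and (hev.and (hT1.and ((hT2.eventually_gt_atTop 0).and
    ((eventually_lt_of_limsup_lt hκ).and
      (hT2.eventually_ge_atTop ((|C| + 2 * c + κ) / ε)))))))).mono ?_
  rintro r ⟨q0, ⟨q1, q2⟩, q3, q4, q5, q6, q7⟩
  have hp : ∀ a, 0 ≤ prox (fun z => (f z - a)⁻¹) r := fun a =>
    circleAverage_nonneg_of_nonneg fun _ _ => Real.posLog_nonneg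
  rw [← ENNReal.ofReal_sum_of_nonneg (fun a _ => div_nonneg (hp a) q5.le), ← Finset.sum_div]
  apply ENNReal.ofReal_le_ofReal
  rw [div_le_iff₀ q5]
  have w1 := hC r η q1 q3 q2 hη0 hη1
  have w2 := cnt_deriv hf q2
  have w3 := (ENNReal.ofReal_lt_ofReal_iff hκ0).1 q6
  rw [div_lt_iff₀ (by linarith)] at w3
  rw [div_le_iff₀ hε] at q7
  have w4 : α⁻¹ * (σ + 1) * Real.log (1 / (1 - r)) ≤ α⁻¹ * (σ + 1) * ℓ⁻¹ * charT f r := by
    rw [mul_assoc (α⁻¹ * (σ + 1))]
    apply mul_le_mul_of_nonneg_left _ (by positivity)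
    rw [← div_eq_inv_mul, le_div_iff₀ hℓ0]; linarith
  have w5 : η * barN f r ≤ η * (κ * (1 + charT f r)) := mul_le_mul_of_nonneg_left w3.le hη0
  have w6 : η * κ ≤ κ := by nlinarith
  have w7 := le_abs_self C
  have e1 : charT (deriv f) r = prox (deriv f) r + (cnt (poleMult f r) r + barN f r) := by
    rw [← w2]; rfl
  have e2 : charT f r = prox f r + cnt (poleMult f r) r := rfl
  rw [e1] at q0
  have e3 : η * charT f r = η * prox f r + η * cnt (poleMult f r) r := by rw [e2]; ring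
  nlinarith

lemma kk_ne_top {f : ℂ → ℂ} (hf : MeromorphicOn f (ball 0 1)) (hT : Tendsto (charT f) (𝓝[<] 1) atTop) :
    kk f ≠ ⊤ := by
  obtain ⟨c, hc0, hc, -⟩ := fmt hf
  apply ne_top_of_le_ne_top (ENNReal.ofReal_ne_top (r := 1 + c))
  apply limsup_le_of_le
  · isBoundedDefault
  filter_upwards [ev_half, hT.eventually_gt_atTop 0] with r hr h0
  apply ENNReal.ofReal_le_ofReal
  obtain ⟨-, -, -, q, -⟩ := hc r hr.1 hr.2
  rw [div_le_iff₀ (by linarith)]
  nlinarith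

theorem main {f : ℂ → ℂ} (hf : MeromorphicOn f (ball 0 1))
    (hnc : ∀ c : ℂ, ¬ ∀ᶠ z in codiscreteWithin (ball (0:ℂ) 1), f z = c) (hρ : ord f ≠ ⊤) :
    ∑' a : ℂ, defi a f ≤ (1 + kk f) * defi 0 (deriv f) + (ord f + 1) / lam f := by
  rcases eq_or_ne (lam f) 0 with hl | hl
  · rw [hl, ENNReal.div_zero (by simp), add_top]; exact le_top
  rw [ENNReal.tsum_eq_iSup_sum]
  refine iSup_le fun S => ?_
  rcases S.eq_empty_or_nonempty with rfl | hS
  · simp
  have hμ : (lam f)⁻¹ ≠ ⊤ := ENNReal.inv_ne_top.2 hl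
  set μ := ((lam f)⁻¹).toReal with hμd
  have hμ0 : 0 ≤ μ := ENNReal.toReal_nonneg
  have hℓ : ∀ ε : ℝ, 0 < ε → ENNReal.ofReal (μ + ε)⁻¹ < lam f := by
    intro ε hε
    rw [ENNReal.ofReal_inv_of_pos (by positivity), ← ENNReal.inv_lt_inv, inv_inv,
      ← ENNReal.ofReal_toReal hμ, ← hμd]
    exact (ENNReal.ofReal_lt_ofReal_iff (by positivity)).2 (by linarith)
  have hk := kk_ne_top hf (ev_T (hℓ 1 one_pos) (by positivity)).2
  set k := (kk f).toReal with hkd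
  set ρ := (ord f).toReal with hρd
  have hk0 : 0 ≤ k := ENNReal.toReal_nonneg
  have hρ0 : 0 ≤ ρ := ENNReal.toReal_nonneg
  have hd : min (defi 0 (deriv f)) 1 ≠ ⊤ := ne_top_of_le_ne_top ENNReal.one_ne_top (min_le_right _ _)
  set d := (min (defi 0 (deriv f)) 1).toReal with hdd
  have hd0 : 0 ≤ d := ENNReal.toReal_nonneg
  have hd1 : d ≤ 1 := by
    have := ENNReal.toReal_mono ENNReal.one_ne_top (min_le_right (defi 0 (deriv f)) 1)
    simpa using this
  set F : ℝ → ℝ := fun ε => min (d + ε) 1 * (1 + (k + ε)) + (1 - ε)⁻¹ * (ρ + ε + 1) * (μ + ε) + ε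
    with hF
  have hFt : Tendsto (fun ε => ENNReal.ofReal (F ε)) (𝓝[>] 0)
      (𝓝 (ENNReal.ofReal (d * (1 + k) + (ρ + 1) * μ))) := by
    apply ENNReal.tendsto_ofReal
    have : ContinuousAt F 0 := by
      simp only [hF]
      fun_prop (disch := norm_num)
    have e : F 0 = d * (1 + k) + (ρ + 1) * μ := by simp [hF, min_eq_left hd1]
    rw [← e]
    exact this.tendsto.mono_left nhdsWithin_le_nhds
  have hle : ∑ a ∈ S, defi a f ≤ ENNReal.ofReal (d * (1 + k) + (ρ + 1) * μ) := by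
    apply ge_of_tendsto hFt
    filter_upwards [Ioo_mem_nhdsGT (show (0:ℝ) < 1 by norm_num)] with ε hε
    have := step hf hnc S hS (α := 1 - ε) (σ := ρ + ε) (ℓ := (μ + ε)⁻¹) (κ := k + ε)
      (η := min (d + ε) 1) (ε := ε) (by linarith [hε.2]) (by linarith [hε.1]) hε.1
      (by
        rw [← ENNReal.ofReal_toReal hρ, ← hρd]
        exact (ENNReal.ofReal_lt_ofReal_iff (by linarith [hε.1])).2 (by linarith [hε.1]))
      (by have := hε.1; positivity) (hℓ ε hε.1)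
      (by
        rw [← ENNReal.ofReal_toReal hk, ← hkd]
        exact (ENNReal.ofReal_lt_ofReal_iff (by linarith [hε.1])).2 (by linarith [hε.1]))
      (le_min (by linarith [hε.1]) zero_le_one) (min_le_right _ _)
      (by
        rcases le_or_gt 1 (d + ε) with h | h
        · exact Or.inr (min_eq_right h)
        · left
          rw [min_eq_left h.le]
          have h1 : min (defi 0 (deriv f)) 1 < ENNReal.ofReal (d + ε) := by
            rw [← ENNReal.ofReal_toReal hd, ← hdd]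
            exact (ENNReal.ofReal_lt_ofReal_iff (by linarith [hε.1])).2 (by linarith [hε.1])
          rcases min_lt_iff.1 h1 with h2 | h2
          · exact h2
          · exact absurd (ENNReal.one_lt_ofReal.1 h2) (not_lt.2 h.le))
    rwa [inv_inv] at this
  refine hle.trans ?_
  rw [ENNReal.ofReal_add (by positivity) (by positivity), ENNReal.ofReal_mul hd0,
    ENNReal.ofReal_mul (by positivity), ENNReal.ofReal_add zero_le_one hk0,
    ENNReal.ofReal_add hρ0 zero_le_one, ENNReal.ofReal_one, hkd, hρd, hμd, hdd,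
    ENNReal.ofReal_toReal hk, ENNReal.ofReal_toReal hρ, ENNReal.ofReal_toReal hμ,
    ENNReal.ofReal_toReal hd, div_eq_mul_inv, mul_comm]
  gcongr
  exact min_le_left _ _

end Pool.Agent.H53.Nv
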