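import Pool.Agent.H53.NvG

/-! Pole counting for sums, and bounds in units of `log (1 / (1 - r))`. -/

namespace Pool.Agent.H53.Nv

open Real Complex Metric Set MeasureTheory Filter Topology MeromorphicOn

noncomputable def pn (g : ℂ → ℂ) (u : ℂ) : ℤ := max (-(meromorphicOrderAt g u).untop₀) 0

lemma pn_nonneg (g : ℂ → ℂ) (u : ℂ) : 0 ≤ pn g u := le_max_right _ _

lemma neg_pn_le (g : ℂ → ℂ) (u : ℂ) : ((-pn g u : ℤ) : WithTop ℤ) ≤ meromorphicOrderAt g u := by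
  unfold pn
  induction meromorphicOrderAt g u using WithTop.recTopCoe with
  | top => exact le_top
  | coe n =>
    rw [WithTop.untop₀_coe, WithTop.coe_le_coe]
    omega

lemma pn_le {g : ℂ → ℂ} {u : ℂ} {N : ℤ} (hN : 0 ≤ N)
    (h : ((-N : ℤ) : WithTop ℤ) ≤ meromorphicOrderAt g u) : pn g u ≤ N := by
  unfold pn
  revert h
  induction meromorphicOrderAt g u using WithTop.recTopCoe with
  | top => intro _; simpa using hN
  | coe n =>
    intro h
    rw [WithTop.coe_le_coe] at h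
    rw [WithTop.untop₀_coe]
    omega

lemma poleMult_eq {g : ℂ → ℂ} (hg : MeromorphicOn g (ball 0 1)) {r : ℝ} (hr : r < 1) {u : ℂ}
    (hu : u ∈ closedBall (0:ℂ) r) : poleMult g r u = (pn g u : ℝ) := by
  unfold poleMult pn
  rw [divisor_apply (merom_closed hg hr) hu]
  push_cast
  rfl

lemma poleMult_supp (g : ℂ → ℂ) (r : ℝ) : Function.support (poleMult g r) ⊆ supp g r := by
  intro u hu
  rw [Finset.mem_coe, mem_supp]
  intro h
  apply hu
  simp [poleMult, h]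

lemma order_sum_ge {ι : Type*} (s : Finset ι) (t : ι → ℂ → ℂ) {u : ℂ} {k : WithTop ℤ}
    (hm : ∀ i ∈ s, MeromorphicAt (t i) u) (h : ∀ i ∈ s, k ≤ meromorphicOrderAt (t i) u) :
    MeromorphicAt (fun z => ∑ i ∈ s, t i z) u ∧
      k ≤ meromorphicOrderAt (fun z => ∑ i ∈ s, t i z) u := by
  classical
  induction s using Finset.induction_on with
  | empty =>
    simp only [Finset.sum_empty]
    refine ⟨analyticAt_const.meromorphicAt, ?_⟩
    rw [meromorphicOrderAt_eq_top_iff.2 (Eventually.of_forall fun _ => rfl)]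
    exact le_top
  | insert a s ha ih =>
    obtain ⟨h1, h2⟩ := ih (fun i hi => hm i (Finset.mem_insert_of_mem hi))
      (fun i hi => h i (Finset.mem_insert_of_mem hi))
    have e : (fun z => ∑ i ∈ insert a s, t i z) = t a + fun z => ∑ i ∈ s, t i z := by
      funext z; simp [Finset.sum_insert ha]
    rw [e]
    have h3 := hm a (Finset.mem_insert_self _ _)
    exact ⟨h3.add h1, (le_min (h a (Finset.mem_insert_self _ _)) h2).trans
      (meromorphicOrderAt_add h3 h1)⟩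

lemma cnt_dom {ι : Type*} (s : Finset ι) {g : ℂ → ℂ} {a : ι → ℂ → ℂ}
    (hg : MeromorphicOn g (ball 0 1)) (ha : ∀ i ∈ s, MeromorphicOn (a i) (ball 0 1))
    (F : Finset ℂ) (h : ∀ u ∈ ball (0:ℂ) 1, u ∉ F → pn g u ≤ ∑ i ∈ s, pn (a i) u) :
    ∃ C : ℝ, ∀ r, 1 / 2 ≤ r → r < 1 →
      cnt (poleMult g r) r ≤ ∑ i ∈ s, cnt (poleMult (a i) r) r + C := by
  classical
  refine ⟨∑ u ∈ F, (pn g u : ℝ) * |Real.log ‖u‖⁻¹| + Real.log 2 * ∑ i ∈ s, (pn (a i) 0 : ℝ),
    fun r h1 h2 => ?_⟩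
  set t := supp g r ∪ s.biUnion fun i => supp (a i) r with ht
  have htb : ∀ u ∈ t, u ∈ closedBall (0:ℂ) r := by
    intro u hu
    rcases Finset.mem_union.1 hu with h | h
    · exact supp_sub h
    · obtain ⟨i, -, hi⟩ := Finset.mem_biUnion.1 h
      exact supp_sub hi
  have h0 : (0:ℂ) ∈ closedBall (0:ℂ) r := mem_closedBall_self (by linarith)
  have hl : Real.log r ≤ 0 := Real.log_nonpos (by linarith) h2.le
  have e1 := cnt_eq_sum (n := poleMult g r) (t := t)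
    ((poleMult_supp g r).trans (by simp [ht])) r
  have e2 : ∀ i ∈ s, cnt (poleMult (a i) r) r
      = ∑ u ∈ t, (pn (a i) u : ℝ) * Real.log (r * ‖u‖⁻¹) + (pn (a i) 0 : ℝ) * Real.log r := by
    intro i hi
    rw [cnt_eq_sum (n := poleMult (a i) r) (t := t) ((poleMult_supp _ r).trans (by
      intro u hu
      rw [Finset.mem_coe] at hu ⊢
      exact Finset.mem_union_right _ (Finset.mem_biUnion.2 ⟨i, hi, hu⟩))) r,
      poleMult_eq (ha i hi) h2 h0]
    congr 1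
    exact Finset.sum_congr rfl fun u hu => by rw [poleMult_eq (ha i hi) h2 (htb u hu)]
  rw [e1, Finset.sum_congr rfl e2, Finset.sum_add_distrib, Finset.sum_comm, poleMult_eq hg h2 h0,
    ← Finset.sum_mul]
  have b1 : ∑ u ∈ t, poleMult g r u * Real.log (r * ‖u‖⁻¹)
      ≤ ∑ u ∈ t, (∑ i ∈ s, (pn (a i) u : ℝ) * Real.log (r * ‖u‖⁻¹)
        + if u ∈ F then (pn g u : ℝ) * |Real.log ‖u‖⁻¹| else 0) := by
    refine Finset.sum_le_sum fun u hu => ?_
    have hw := log_weight_nonneg (htb u hu)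
    have hp : (0:ℝ) ≤ pn g u := by exact_mod_cast pn_nonneg g u
    rw [poleMult_eq hg h2 (htb u hu), ← Finset.sum_mul]
    split_ifs with hF
    · have c1 : 0 ≤ (∑ i ∈ s, (pn (a i) u : ℝ)) * Real.log (r * ‖u‖⁻¹) :=
        mul_nonneg (Finset.sum_nonneg fun i _ => by exact_mod_cast pn_nonneg _ u) hw
      have c2 : Real.log (r * ‖u‖⁻¹) ≤ |Real.log ‖u‖⁻¹| := by
        rcases eq_or_ne u 0 with rfl | hu0
        · simp
        · rw [Real.log_mul (by linarith) (inv_ne_zero (norm_ne_zero_iff.2 hu0))]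
          linarith [le_abs_self (Real.log ‖u‖⁻¹)]
      nlinarith [mul_le_mul_of_nonneg_left c2 hp]
    · have c1 : (pn g u : ℝ) ≤ ∑ i ∈ s, (pn (a i) u : ℝ) := by
        exact_mod_cast h u (closedBall_subset_ball h2 (htb u hu)) hF
      rw [add_zero]
      exact mul_le_mul_of_nonneg_right c1 hw
  rw [Finset.sum_add_distrib] at b1
  have b2 : ∑ u ∈ t, (if u ∈ F then (pn g u : ℝ) * |Real.log ‖u‖⁻¹| else 0)
      ≤ ∑ u ∈ F, (pn g u : ℝ) * |Real.log ‖u‖⁻¹| := by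
    rw [← Finset.sum_filter]
    refine Finset.sum_le_sum_of_subset_of_nonneg (fun u hu => (Finset.mem_filter.1 hu).2)
      fun u _ _ => mul_nonneg (by exact_mod_cast pn_nonneg g u) (abs_nonneg _)
  have b3 : (pn g 0 : ℝ) * Real.log r ≤ 0 :=
    mul_nonpos_of_nonneg_of_nonpos (by exact_mod_cast pn_nonneg g 0) hl
  have b4 : 0 ≤ ∑ i ∈ s, (pn (a i) 0 : ℝ) :=
    Finset.sum_nonneg fun i _ => by exact_mod_cast pn_nonneg _ 0
  have b5 := mul_le_mul_of_nonneg_left (log_ge_of_half h1) b4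
  linarith

lemma cnt_fin {g : ℂ → ℂ} (hg : MeromorphicOn g (ball 0 1)) (F : Finset ℂ)
    (h : ∀ u ∈ ball (0:ℂ) 1, u ∉ F → 0 ≤ meromorphicOrderAt g u) :
    ∃ C : ℝ, ∀ r, 1 / 2 ≤ r → r < 1 → cnt (poleMult g r) r ≤ C := by
  obtain ⟨C, hC⟩ := cnt_dom (∅ : Finset ℕ) (a := fun _ => g) hg (by simp) F fun u hu hF => by
    rw [Finset.sum_empty]
    exact pn_le le_rfl (by simpa using h u hu hF)
  exact ⟨C, fun r h1 h2 => by simpa using hC r h1 h2⟩

lemma barN_le {g : ℂ → ℂ} (hg : MeromorphicOn g (ball 0 1)) :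
    ∃ C : ℝ, ∀ r, 1 / 2 ≤ r → r < 1 → barN g r ≤ cnt (poleMult g r) r + C := by
  refine ⟨Real.log 2 * pn g 0, fun r h1 h2 => ?_⟩
  have e2 := cnt_comp g r (fun n => max (-(n : ℝ)) 0) (by simp)
  have e5 := cnt_comp g r (fun n => if n < 0 then (1:ℝ) else 0) (by simp)
  have hP : cnt (poleMult g r) r
    = cnt (fun u => max (-(divisor g (closedBall (0:ℂ) r) u : ℝ)) 0) r := rfl
  have hB : barN g r
    = cnt (fun u => if divisor g (closedBall (0:ℂ) r) u < 0 then (1:ℝ) else 0) r := rfl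
  have h0 : (0:ℂ) ∈ closedBall (0:ℂ) r := mem_closedBall_self (by linarith)
  have e3 : max (-(divisor g (closedBall (0:ℂ) r) 0 : ℝ)) 0 = (pn g 0 : ℝ) := poleMult_eq hg h2 h0
  rw [hB, hP, e2, e5, e3]
  have hl : Real.log r ≤ 0 := Real.log_nonpos (by linarith) h2.le
  have b1 : ∑ u ∈ supp g r, (if divisor g (closedBall (0:ℂ) r) u < 0 then (1:ℝ) else 0)
      * Real.log (r * ‖u‖⁻¹) ≤ ∑ u ∈ supp g r,
        max (-(divisor g (closedBall (0:ℂ) r) u : ℝ)) 0 * Real.log (r * ‖u‖⁻¹) := by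
    refine Finset.sum_le_sum fun u hu => mul_le_mul_of_nonneg_right ?_
      (log_weight_nonneg (supp_sub hu))
    split_ifs with h
    · have : divisor g (closedBall (0:ℂ) r) u ≤ -1 := by omega
      have h3 : (divisor g (closedBall (0:ℂ) r) u : ℝ) ≤ -1 := by exact_mod_cast this
      exact le_max_of_le_left (by linarith)
    · exact le_max_right _ _
  have b2 : (if divisor g (closedBall (0:ℂ) r) 0 < 0 then (1:ℝ) else 0) * Real.log r ≤ 0 :=
    mul_nonpos_of_nonneg_of_nonpos (by split_ifs <;> norm_num) hl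
  have b4 : (0:ℝ) ≤ pn g 0 := by exact_mod_cast pn_nonneg _ 0
  have b5 := mul_le_mul_of_nonneg_left (log_ge_of_half h1) b4
  linarith

def Bd (X : ℝ → ℝ) (c : ℝ) : Prop :=
  ∀ ε : ℝ, 0 < ε → ∀ᶠ r : ℝ in 𝓝[<] 1, X r ≤ (c + ε) * Real.log (1 / (1 - r))

lemma Bd.add {X Y : ℝ → ℝ} {c d : ℝ} (h1 : Bd X c) (h2 : Bd Y d) :
    Bd (fun r => X r + Y r) (c + d) := fun ε hε => by
  filter_upwards [h1 (ε / 2) (by linarith), h2 (ε / 2) (by linarith)] with r a b
  linarith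

lemma Bd.const (C : ℝ) : Bd (fun _ => C) 0 := fun ε hε => by
  filter_upwards [tendsto_L.eventually_ge_atTop (C / ε)] with r hr
  rw [div_le_iff₀ hε] at hr
  linarith

lemma Bd.mono {X Y : ℝ → ℝ} {c : ℝ} (h : Bd Y c) (C : ℝ)
    (hXY : ∀ r, 1 / 2 ≤ r → r < 1 → X r ≤ Y r + C) : Bd X c := fun ε hε => by
  filter_upwards [(h.add (Bd.const C)) ε hε, ev_half] with r a b
  rw [add_zero] at a
  exact (hXY r b.1 b.2).trans a

lemma Bd.sum {ι : Type*} (s : Finset ι) {X : ι → ℝ → ℝ} {c : ℝ} (h : ∀ i ∈ s, Bd (X i) c) :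
    Bd (fun r => ∑ i ∈ s, X i r) (s.card * c) := by
  classical
  induction s using Finset.induction_on with
  | empty => simpa using Bd.const 0
  | insert a s ha ih =>
    have := (h a (Finset.mem_insert_self _ _)).add
      (ih fun i hi => h i (Finset.mem_insert_of_mem hi))
    simp only [Finset.sum_insert ha, Finset.card_insert_of_notMem ha]
    push_cast
    rwa [show ((s.card : ℝ) + 1) * c = c + s.card * c by ring]

lemma Bd.growth {X : ℝ → ℝ} {c σ : ℝ} (h : Bd X c) (hσ : 0 < σ) :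
    ∃ s₀ < 1, ∀ s, s₀ ≤ s → s < 1 → X s ≤ (1 - s) ^ (-σ) := by
  have hgrow : ∀ᶠ r : ℝ in 𝓝[<] 1, X r ≤ (1 - r) ^ (-σ) := by
    filter_upwards [h 1 one_pos, tendsto_L.eventually_ge_atTop (2 * |c + 1| / σ ^ 2),
      tendsto_L.eventually_ge_atTop 0, self_mem_nhdsWithin] with r a b d hr1
    have hx : 0 < 1 - r := sub_pos.2 hr1
    set L := Real.log (1 / (1 - r)) with hL
    have e : (1 - r) ^ (-σ) = Real.exp (σ * L) := by
      rw [Real.rpow_def_of_pos hx, hL, one_div, Real.log_inv]; ring_nf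
    rw [e]
    have h1 := Real.quadratic_le_exp_of_nonneg (x := σ * L) (by positivity)
    rw [div_le_iff₀ (by positivity)] at b
    have h2 : (c + 1) * L ≤ |c + 1| * L := mul_le_mul_of_nonneg_right (le_abs_self _) d
    have h3 := mul_le_mul_of_nonneg_right b d
    have h4 : 0 ≤ σ * L := by positivity
    nlinarith
  obtain ⟨s₀, hs₀, hs₁⟩ := mem_nhdsLT_iff_exists_Ioo_subset.1 hgrow
  have hs₀' : s₀ < 1 := hs₀
  exact ⟨(s₀ + 1) / 2, by linarith, fun s h1 h2 => hs₁ ⟨by linarith, h2⟩⟩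

lemma Bd.of_param {X : ℝ → ℝ}
    (h : ∀ α σ : ℝ, 0 < α → α < 1 → 0 < σ → ∃ s₀ < 1, ∃ C : ℝ, ∀ r, 1 / 2 ≤ r → s₀ ≤ r → r < 1 →
      X r ≤ α⁻¹ * (σ + 1) * Real.log (1 / (1 - r)) + C) : Bd X 1 := by
  intro ε hε
  set t := min 1 (ε / 6) with ht
  have ht0 : 0 < t := lt_min one_pos (by linarith)
  have ht1 : t ≤ 1 := min_le_left _ _
  have ht2 : t ≤ ε / 6 := min_le_right _ _
  obtain ⟨s₀, hs₀, C, hC⟩ := h (1 + t)⁻¹ t (by positivity)
    (inv_lt_one_of_one_lt₀ (by linarith)) ht0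
  filter_upwards [Bd.const C (ε / 2) (by linarith), ev_half, tendsto_L.eventually_ge_atTop 0,
    Ioo_mem_nhdsLT hs₀] with r a b d e
  have h1 := hC r b.1 e.1.le b.2
  rw [inv_inv] at h1
  have h2 : (1 + t) * (t + 1) ≤ 1 + ε / 2 := by nlinarith
  have h3 := mul_le_mul_of_nonneg_right h2 d
  linarith

end Pool.Agent.H53.Nv
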