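import Pool.Agent.H53.NvH

/-! Linear differential polynomials of functions of slow growth in the disc. -/

namespace Pool.Agent.H53.Nv

open Real Complex Metric Set MeasureTheory Filter Topology MeromorphicOn

lemma order_dich {g : ℂ → ℂ} (hg : MeromorphicOn g (ball 0 1)) :
    (∀ u ∈ ball (0:ℂ) 1, meromorphicOrderAt g u ≠ ⊤) ∨
      ∀ᶠ z in codiscreteWithin (ball (0:ℂ) 1), g z = 0 ∧ deriv g z = 0 := by
  by_cases h : ∃ u ∈ ball (0:ℂ) 1, meromorphicOrderAt g u ≠ ⊤
  · exact Or.inl ((hg.exists_meromorphicOrderAt_ne_top_iff_forall_mem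
      (isConnected_ball one_pos)).1 h)
  · right
    push Not at h
    rw [Filter.Eventually, mem_codiscreteWithin_iff_forall_mem_nhdsNE]
    intro x hx
    have h1 : g =ᶠ[𝓝[≠] x] fun _ => 0 := meromorphicOrderAt_eq_top_iff.1 (h x hx)
    filter_upwards [h1, h1.nhdsNE_deriv] with z hz1 hz2
    exact Or.inl ⟨hz1, by simpa using hz2⟩

lemma deriv_eq_ld {g : ℂ → ℂ} (hg : MeromorphicOn g (ball 0 1)) :
    ∀ᶠ z in codiscreteWithin (ball (0:ℂ) 1), deriv g z = logDeriv g z * g z := by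
  rcases order_dich hg with h | h
  · filter_upwards [hg.eventually_codiscreteWithin_apply_ne_zero h] with z hz
    rw [logDeriv_apply, div_mul_cancel₀ _ hz]
  · filter_upwards [h] with z hz
    rw [hz.1, hz.2, mul_zero]

lemma merom_ld {g : ℂ → ℂ} (hg : MeromorphicOn g (ball 0 1)) :
    MeromorphicOn (logDeriv g) (ball 0 1) := fun z hz => (hg.deriv z hz).div (hg z hz)

lemma sph_sub {r : ℝ} (h1 : 1 / 2 ≤ r) (h2 : r < 1) : sphere (0:ℂ) |r| ⊆ ball 0 1 := by
  rw [abs_of_pos (by linarith)]; exact sphere_subset_ball h2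

lemma ci {g : ℂ → ℂ} (hg : MeromorphicOn g (ball 0 1)) {r : ℝ} (h1 : 1 / 2 ≤ r) (h2 : r < 1) :
    CircleIntegrable (fun z => log⁺ ‖g z‖) 0 r :=
  (merom_sphere hg (by linarith) h2).circleIntegrable_posLog_norm

lemma ld_bd {g : ℂ → ℂ} (hg : MeromorphicOn g (ball 0 1)) {K : ℝ} (hK : Bd (charT g) K) :
    Bd (prox (logDeriv g)) 1 := by
  refine Bd.of_param fun α σ hα0 hα hσ => ?_
  obtain ⟨s₀, hs₀, hT⟩ := hK.growth hσ
  refine ⟨s₀, hs₀, ?_⟩
  rcases order_dich hg with h | h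
  · obtain ⟨C, c, hC, hc, hM⟩ := majorant2 hα0 hα hg h
    refine ⟨α⁻¹ * (1 + C * (4 ^ σ + c)), fun r hr hr0 hr1 => ?_⟩
    set x := 1 - r with hx
    have hx0 : 0 < x := by linarith
    have hx1 : x ≤ 1 := by linarith
    set K := x ^ (-(σ + 1)) with hK
    have hK1 : 1 ≤ K := Real.one_le_rpow_of_pos_of_le_one_of_nonpos hx0 hx1 (by linarith)
    have hK0 : 0 < K := by linarith
    have hxs : 1 ≤ x ^ (-σ) := Real.one_le_rpow_of_pos_of_le_one_of_nonpos hx0 hx1 (by linarith)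
    have hKx : K = x ^ (-σ) / x := by
      rw [hK, neg_add, Real.rpow_add hx0, Real.rpow_neg_one, div_eq_mul_inv]
    have hlogK : Real.log K = (σ + 1) * Real.log (1 / x) := by
      rw [hK, Real.log_rpow hx0, one_div, Real.log_inv]; ring
    obtain ⟨Φ, p1, p2, p3⟩ := hM r (4 ^ σ * x ^ (-σ)) hr hr1 (by positivity) (by
      intro s hs1 hs2
      have hs3 : s < 1 := by linarith
      refine (hT s (by linarith) hs3).trans ?_
      calc (1 - s) ^ (-σ) ≤ (x / 4) ^ (-σ) :=
            Real.rpow_le_rpow_of_nonpos (by positivity) hs2 (by linarith)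
        _ = 4 ^ σ * x ^ (-σ) := by
            rw [Real.div_rpow hx0.le (by norm_num), Real.rpow_neg (by norm_num : (0:ℝ) ≤ 4)]
            field_simp)
    have p4 : circleAverage Φ 0 r ≤ (1 + C * (4 ^ σ + c)) * K := by
      refine p3.trans ?_
      rw [add_mul, one_mul]
      apply add_le_add hK1
      rw [hKx, mul_div_assoc', div_le_div_iff_of_pos_right hx0, mul_assoc]
      apply mul_le_mul_of_nonneg_left _ hC
      nlinarith
    have hi5 : CircleIntegrable (fun z => (α⁻¹ / K) * Φ z) 0 r := p1.const_mul _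
    have hmono := avg_mono_cod (f₁ := fun z => log⁺ ‖logDeriv g z‖)
      (f₂ := fun z => (α⁻¹ / K) * Φ z + α⁻¹ * Real.log K) (by linarith : r ≠ 0)
      (ci (merom_ld hg) hr hr1) (hi5.add (circleIntegrable_const _ _ _)) (by
        filter_upwards [p2] with z hz
        have := posLog_le_of_rpow (norm_nonneg _) hα0 hK1 hz
        refine this.trans (le_of_eq ?_)
        ring)
    have sm : circleAverage (fun z => (α⁻¹ / K) * Φ z) 0 r = (α⁻¹ / K) * circleAverage Φ 0 r := by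
      have := circleAverage_fun_smul (a := α⁻¹ / K) (f := Φ) (c := 0) (R := r)
      simpa only [smul_eq_mul] using this
    rw [circleAverage_fun_add hi5 (circleIntegrable_const _ _ _), circleAverage_const, sm,
      hlogK] at hmono
    have hfin : α⁻¹ / K * circleAverage Φ 0 r ≤ α⁻¹ * (1 + C * (4 ^ σ + c)) := by
      calc _ ≤ α⁻¹ / K * ((1 + C * (4 ^ σ + c)) * K) :=
            mul_le_mul_of_nonneg_left p4 (by positivity)
        _ = _ := by field_simp
    unfold prox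
    linarith
  · refine ⟨0, fun r hr hr0 hr1 => ?_⟩
    have hmono := avg_mono_cod (f₁ := fun z => log⁺ ‖logDeriv g z‖) (f₂ := fun _ => 0)
      (by linarith : r ≠ 0) (ci (merom_ld hg) hr hr1) (circleIntegrable_const _ _ _) (by
        filter_upwards [codiscreteWithin_mono (sph_sub hr hr1) h] with z hz
        simp [logDeriv_apply, hz.1])
    rw [circleAverage_const] at hmono
    have : 0 ≤ Real.log (1 / (1 - r)) := by
      apply Real.log_nonneg
      rw [le_div_iff₀ (by linarith)]; linarith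
    have : 0 ≤ α⁻¹ * (σ + 1) * Real.log (1 / (1 - r)) := by positivity
    unfold prox
    linarith

lemma posLog_le_add {x y D : ℝ} (hx : 0 ≤ x) (hy : 0 ≤ y) (hD : 0 ≤ D) (h : x ≤ Real.exp D * y) :
    log⁺ x ≤ D + log⁺ y := by
  have h1 : log⁺ x ≤ log⁺ (Real.exp D * y) := Real.posLog_le_posLog hx h
  have h2 : log⁺ (Real.exp D) = D := by
    rw [Real.posLog_eq_log (by rw [abs_of_pos (Real.exp_pos D)]; exact Real.one_le_exp hD),
      Real.log_exp]
  have h3 := Real.posLog_mul (x := Real.exp D) (y := y)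
  linarith

lemma le_exp_posLog (x : ℝ) : x ≤ Real.exp (log⁺ x) :=
  (Real.le_exp_log x).trans (Real.exp_le_exp.2 (le_max_right _ _))

lemma prox_deriv_le {g : ℂ → ℂ} (hg : MeromorphicOn g (ball 0 1)) {r : ℝ} (h1 : 1 / 2 ≤ r)
    (h2 : r < 1) : prox (deriv g) r ≤ prox (logDeriv g) r + prox g r := by
  unfold prox
  rw [← circleAverage_fun_add (ci (merom_ld hg) h1 h2) (ci hg h1 h2)]
  refine avg_mono_cod (by linarith) (ci hg.deriv h1 h2)
    ((ci (merom_ld hg) h1 h2).add (ci hg h1 h2)) ?_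
  filter_upwards [codiscreteWithin_mono (sph_sub h1 h2) (deriv_eq_ld hg)] with z hz
  rw [hz, norm_mul]
  exact Real.posLog_mul

lemma order_deriv_nonneg {f : ℂ → ℂ} {u : ℂ} (hf : MeromorphicAt f u)
    (h : 0 ≤ meromorphicOrderAt f u) : 0 ≤ meromorphicOrderAt (deriv f) u := by
  obtain ⟨g, hg, hfg⟩ := hf.meromorphicOrderAt_nonneg_iff.1 h
  rw [meromorphicOrderAt_congr hfg.nhdsNE_deriv]
  exact hg.deriv.meromorphicOrderAt_nonneg

lemma iter_facts {f : ℂ → ℂ} (hf : MeromorphicOn f (ball 0 1)) (F : Finset ℂ)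
    (hF : ∀ u ∈ ball (0:ℂ) 1, u ∉ F → 0 ≤ meromorphicOrderAt f u) {K : ℝ} (hK : Bd (charT f) K)
    (n : ℕ) : MeromorphicOn (iteratedDeriv n f) (ball 0 1) ∧
      (∀ u ∈ ball (0:ℂ) 1, u ∉ F → 0 ≤ meromorphicOrderAt (iteratedDeriv n f) u) ∧
      ∃ K', Bd (charT (iteratedDeriv n f)) K' := by
  induction n with
  | zero => rw [iteratedDeriv_zero]; exact ⟨hf, hF, K, hK⟩
  | succ n ih =>
    obtain ⟨h1, h2, K', h3⟩ := ih
    rw [iteratedDeriv_succ]
    have h4 : ∀ u ∈ ball (0:ℂ) 1, u ∉ F → 0 ≤ meromorphicOrderAt (deriv (iteratedDeriv n f)) u :=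
      fun u hu hF => order_deriv_nonneg (h1 u hu) (h2 u hu hF)
    refine ⟨h1.deriv, h4, 1 + K', ?_⟩
    obtain ⟨C, hC⟩ := cnt_fin h1.deriv F h4
    obtain ⟨c, -, hc, -⟩ := fmt h1
    refine ((ld_bd h1 h3).add h3).mono (c + C) fun r a b => ?_
    have := prox_deriv_le h1 a b
    have := hC r a b
    have := (hc r a b).2.1
    unfold charT at *
    linarith

lemma psi_pointwise {f : ℂ → ℂ} {a : ℕ → ℂ → ℂ} (l : ℕ) (z : ℂ)
    (h : ∀ j < l, deriv (iteratedDeriv j f) z
      = logDeriv (iteratedDeriv j f) z * iteratedDeriv j f z) :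
    ‖∑ ν ∈ Finset.range (l + 1), a ν z * iteratedDeriv ν f z‖
      ≤ Real.exp (Real.log (l + 1) + ∑ ν ∈ Finset.range (l + 1), log⁺ ‖a ν z‖
        + ∑ j ∈ Finset.range l, log⁺ ‖logDeriv (iteratedDeriv j f) z‖) * ‖f z‖ := by
  have h1 : ∀ ν ≤ l, ‖iteratedDeriv ν f z‖
      ≤ Real.exp (∑ j ∈ Finset.range ν, log⁺ ‖logDeriv (iteratedDeriv j f) z‖) * ‖f z‖ := by
    intro ν hν
    induction ν with
    | zero => simp
    | succ n ih =>
      rw [iteratedDeriv_succ, h n (by omega), norm_mul, Finset.sum_range_succ, Real.exp_add]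
      have := mul_le_mul (le_exp_posLog ‖logDeriv (iteratedDeriv n f) z‖) (ih (by omega))
        (norm_nonneg _) (Real.exp_pos _).le
      linarith
  set A := ∑ ν ∈ Finset.range (l + 1), log⁺ ‖a ν z‖ with hA
  set Q := ∑ j ∈ Finset.range l, log⁺ ‖logDeriv (iteratedDeriv j f) z‖ with hQ
  have h2 : ∀ ν ∈ Finset.range (l + 1), ‖a ν z * iteratedDeriv ν f z‖
      ≤ Real.exp A * (Real.exp Q * ‖f z‖) := by
    intro ν hν
    have hν' : ν ≤ l := Nat.lt_succ_iff.1 (Finset.mem_range.1 hν)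
    rw [norm_mul]
    refine mul_le_mul ((le_exp_posLog _).trans (Real.exp_le_exp.2 ?_))
      ((h1 ν hν').trans (mul_le_mul_of_nonneg_right (Real.exp_le_exp.2 ?_) (norm_nonneg _)))
      (norm_nonneg _) (Real.exp_pos _).le
    · exact Finset.single_le_sum (f := fun ν => log⁺ ‖a ν z‖) (fun _ _ => Real.posLog_nonneg) hν
    · exact Finset.sum_le_sum_of_subset_of_nonneg (Finset.range_mono hν')
        fun _ _ _ => Real.posLog_nonneg
  refine (norm_sum_le _ _).trans ((Finset.sum_le_card_nsmul _ _ _ h2).trans (le_of_eq ?_))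
  rw [Finset.card_range, nsmul_eq_mul, Real.exp_add, Real.exp_add, Real.exp_log (by positivity)]
  push_cast
  ring

end Pool.Agent.H53.Nv
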