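import Pool.Agent.H53.NvI

/-! Jensen formula, weighted counting, and polynomials. -/

namespace Pool.Agent.H53.Nv

open Real Complex Metric Set MeasureTheory Filter Topology MeromorphicOn

lemma minv {g : ℂ → ℂ} (hg : MeromorphicOn g (ball 0 1)) :
    MeromorphicOn (fun z => (g z)⁻¹) (ball 0 1) := fun z hz => (hg z hz).inv

lemma jensen {g : ℂ → ℂ} (hg : MeromorphicOn g (ball 0 1)) : ∃ κ : ℝ, ∀ s, 1 / 2 ≤ s → s < 1 →
    prox g s - prox (fun z => (g z)⁻¹) s
      = cnt (poleMult (fun z => (g z)⁻¹) s) s - cnt (poleMult g s) s + κ := by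
  refine ⟨Real.log ‖meromorphicTrailingCoeffAt g 0‖, fun s hs hs1 => ?_⟩
  have hs0 : 0 < s := by linarith
  have e1 := cnt_comp g s (fun n => max (n : ℝ) 0) (by simp)
  have e2 := cnt_comp g s (fun n => max (-(n : ℝ)) 0) (by simp)
  have e4 := cnt_comp g s (fun n => (n : ℝ)) (by simp)
  have a1 : ∀ x : ℝ, x = max x 0 - max (-x) 0 := fun x => by
    rcases le_total x 0 with h | h
    · rw [max_eq_right h, max_eq_left (by linarith)]; ring
    · rw [max_eq_left h, max_eq_right (by linarith)]; ring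
  have hP : cnt (poleMult g s) s
    = cnt (fun u => max (-(divisor g (closedBall (0:ℂ) s) u : ℝ)) 0) s := rfl
  have hQ : poleMult (fun z => (g z)⁻¹) s
      = fun u => max (divisor g (closedBall (0:ℂ) s) u : ℝ) 0 := by
    funext u
    have : divisor (fun z => (g z)⁻¹) (closedBall (0:ℂ) s) = -divisor g (closedBall (0:ℂ) s) :=
      divisor_inv
    simp [poleMult, this]
  have hJ := MeromorphicOn.circleAverage_log_norm (c := 0) (R := s) (f := g) hs0.ne'
    (by rw [abs_of_pos hs0]; exact merom_closed hg hs1)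
  rw [abs_of_pos hs0] at hJ
  simp only [zero_sub, norm_neg] at hJ
  have hJ' : circleAverage (fun z => Real.log ‖g z‖) 0 s
      = cnt (fun u => (divisor g (closedBall (0:ℂ) s) u : ℝ)) s
        + Real.log ‖meromorphicTrailingCoeffAt g 0‖ := hJ
  have hS : prox g s - prox (fun z => (g z)⁻¹) s
      = circleAverage (fun z => Real.log ‖g z‖) 0 s := by
    unfold prox
    rw [← circleAverage_fun_sub (ci hg hs hs1) (ci (minv hg) hs hs1)]
    congr 1; ext z
    simp only [norm_inv]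
    exact Real.posLog_sub_posLog_inv
  rw [hS, hJ', hP, hQ, e1, e2, e4]
  have : ∀ u, (divisor g (closedBall (0:ℂ) s) u : ℝ) * Real.log (s * ‖u‖⁻¹)
      = max (divisor g (closedBall (0:ℂ) s) u : ℝ) 0 * Real.log (s * ‖u‖⁻¹)
        - max (-(divisor g (closedBall (0:ℂ) s) u : ℝ)) 0 * Real.log (s * ‖u‖⁻¹) := by
    intro u; rw [← sub_mul, ← a1]
  simp only [this, Finset.sum_sub_distrib]
  have := a1 (divisor g (closedBall (0:ℂ) s) 0 : ℝ)
  linear_combination (Real.log s) * this

lemma lin_dom {ι : Type*} (s : Finset ι) {a : ι → ℂ → ℂ} (c : ι → ℝ)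
    (ha : ∀ i ∈ s, MeromorphicOn (a i) (ball 0 1))
    (h : ∀ u ∈ ball (0:ℂ) 1, ∑ i ∈ s, c i * (pn (a i) u : ℝ) ≤ 0) :
    ∃ C : ℝ, ∀ r, 1 / 2 ≤ r → r < 1 → ∑ i ∈ s, c i * cnt (poleMult (a i) r) r ≤ C := by
  classical
  refine ⟨-(∑ i ∈ s, c i * (pn (a i) 0 : ℝ)) * Real.log 2, fun r h1 h2 => ?_⟩
  set t := s.biUnion fun i => supp (a i) r with ht
  have htb : ∀ u ∈ t, u ∈ closedBall (0:ℂ) r := by
    intro u hu
    obtain ⟨i, -, hi⟩ := Finset.mem_biUnion.1 hu
    exact supp_sub hi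
  have h0 : (0:ℂ) ∈ closedBall (0:ℂ) r := mem_closedBall_self (by linarith)
  have e2 : ∀ i ∈ s, c i * cnt (poleMult (a i) r) r
      = ∑ u ∈ t, c i * (pn (a i) u : ℝ) * Real.log (r * ‖u‖⁻¹)
        + c i * (pn (a i) 0 : ℝ) * Real.log r := by
    intro i hi
    rw [cnt_eq_sum (n := poleMult (a i) r) (t := t) ((poleMult_supp _ r).trans (by
      intro u hu
      rw [Finset.mem_coe] at hu ⊢
      exact Finset.mem_biUnion.2 ⟨i, hi, hu⟩)) r, poleMult_eq (ha i hi) h2 h0, mul_add,
      Finset.mul_sum, mul_assoc]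
    congr 1
    exact Finset.sum_congr rfl fun u hu => by rw [poleMult_eq (ha i hi) h2 (htb u hu), mul_assoc]
  rw [Finset.sum_congr rfl e2, Finset.sum_add_distrib, Finset.sum_comm, ← Finset.sum_mul]
  have b1 : ∑ u ∈ t, ∑ i ∈ s, c i * (pn (a i) u : ℝ) * Real.log (r * ‖u‖⁻¹) ≤ 0 :=
    Finset.sum_nonpos fun u hu => by
      rw [← Finset.sum_mul]
      exact mul_nonpos_of_nonpos_of_nonneg (h u (closedBall_subset_ball h2 (htb u hu)))
        (log_weight_nonneg (htb u hu))
  have b2 := h 0 (mem_ball_self one_pos)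
  have b3 := log_ge_of_half h1
  nlinarith

lemma prox_mul_le {x a b : ℂ → ℂ} (hx : MeromorphicOn x (ball 0 1))
    (ha : MeromorphicOn a (ball 0 1)) (hb : MeromorphicOn b (ball 0 1))
    (h : ∀ᶠ z in codiscreteWithin (ball (0:ℂ) 1), x z = a z * b z) {r : ℝ} (h1 : 1 / 2 ≤ r)
    (h2 : r < 1) : prox x r ≤ prox a r + prox b r := by
  unfold prox
  rw [← circleAverage_fun_add (ci ha h1 h2) (ci hb h1 h2)]
  refine avg_mono_cod (by linarith) (ci hx h1 h2) ((ci ha h1 h2).add (ci hb h1 h2)) ?_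
  filter_upwards [codiscreteWithin_mono (sph_sub h1 h2) h] with z hz
  rw [hz, norm_mul]
  exact Real.posLog_mul

lemma prox_pow (g : ℂ → ℂ) (n : ℕ) (r : ℝ) : prox (fun z => g z ^ n) r = n * prox g r := by
  unfold prox
  simp only [norm_pow, Real.posLog_pow]
  have := circleAverage_fun_smul (a := (n : ℝ)) (f := fun z => log⁺ ‖g z‖) (c := 0) (R := r)
  simpa only [smul_eq_mul] using this

lemma prox_le_const {g : ℂ → ℂ} (hg : MeromorphicOn g (ball 0 1)) {B : ℝ}
    (h : ∀ᶠ z in codiscreteWithin (ball (0:ℂ) 1), ‖g z‖ ≤ B) {r : ℝ} (h1 : 1 / 2 ≤ r)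
    (h2 : r < 1) : prox g r ≤ log⁺ B := by
  have hmono := avg_mono_cod (f₁ := fun z => log⁺ ‖g z‖) (f₂ := fun _ => log⁺ B)
    (by linarith : r ≠ 0) (ci hg h1 h2) (circleIntegrable_const _ _ _) (by
      filter_upwards [codiscreteWithin_mono (sph_sub h1 h2) h] with z hz
      exact Real.posLog_le_posLog (norm_nonneg _) hz)
  rwa [circleAverage_const] at hmono

lemma Bd.smul {X : ℝ → ℝ} {c a : ℝ} (h : Bd X c) (ha : 0 ≤ a) : Bd (fun r => a * X r) (a * c) :=
  fun ε hε => by
    filter_upwards [h (ε / (a + 1)) (by positivity), tendsto_L.eventually_ge_atTop 0] with r h1 h2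
    have h3 : a * (ε / (a + 1)) ≤ ε := by
      rw [← mul_div_assoc, div_le_iff₀ (by positivity)]; nlinarith
    have h4 := mul_le_mul_of_nonneg_left h1 ha
    have h5 := mul_le_mul_of_nonneg_right h3 h2
    nlinarith

lemma bd_prod {ι : Type*} (s : Finset ι) {a : ι → ℂ → ℂ} {c : ι → ℝ}
    (ha : ∀ i ∈ s, MeromorphicOn (a i) (ball 0 1)) (h : ∀ i ∈ s, Bd (prox (a i)) (c i)) :
    MeromorphicOn (fun z => ∏ i ∈ s, a i z) (ball 0 1) ∧
      Bd (prox fun z => ∏ i ∈ s, a i z) (∑ i ∈ s, c i) := by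
  refine ⟨fun u hu => MeromorphicAt.fun_prod fun i hi => ha i hi u hu, ?_⟩
  classical
  induction s using Finset.induction_on with
  | empty =>
    refine (Bd.const 0).mono 0 fun r _ _ => ?_
    simp [prox, circleAverage_const]
  | insert i s hi ih =>
    have h1 := ih (fun j hj => ha j (Finset.mem_insert_of_mem hj))
      (fun j hj => h j (Finset.mem_insert_of_mem hj))
    rw [Finset.sum_insert hi]
    refine ((h i (Finset.mem_insert_self _ _)).add h1).mono 0 fun r r1 r2 => ?_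
    rw [add_zero]
    exact prox_mul_le (fun u hu => MeromorphicAt.fun_prod fun j hj => ha j hj u hu)
      (ha i (Finset.mem_insert_self _ _))
      (fun u hu => MeromorphicAt.fun_prod fun j hj => ha j (Finset.mem_insert_of_mem hj) u hu)
      (Eventually.of_forall fun z => Finset.prod_insert hi) r1 r2

lemma iter_slow {f : ℂ → ℂ} (hf : MeromorphicOn f (ball 0 1)) {K : ℝ} (hK : Bd (charT f) K)
    (n : ℕ) : MeromorphicOn (iteratedDeriv n f) (ball 0 1) ∧
      ∃ K', Bd (charT (iteratedDeriv n f)) K' := by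
  induction n with
  | zero => rw [iteratedDeriv_zero]; exact ⟨hf, K, hK⟩
  | succ n ih =>
    obtain ⟨h1, K', h3⟩ := ih
    rw [iteratedDeriv_succ]
    refine ⟨h1.deriv, 1 + K' + K', ?_⟩
    obtain ⟨c, -, hc, -⟩ := fmt h1
    refine (((ld_bd h1 h3).add h3).add h3).mono c fun r a b => ?_
    have := prox_deriv_le h1 a b
    have := cnt_deriv h1 b
    have := (hc r a b).2.2.2.1
    unfold charT at *
    linarith

lemma cod_nhds {P : ℂ → Prop} (h : ∀ᶠ z in codiscreteWithin (ball (0:ℂ) 1), P z) {u : ℂ}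
    (hu : u ∈ ball (0:ℂ) 1) : ∀ᶠ z in 𝓝[≠] u, P z := by
  rw [Filter.Eventually, mem_codiscreteWithin_iff_forall_mem_nhdsNE] at h
  filter_upwards [h u hu, mem_nhdsWithin_of_mem_nhds (isOpen_ball.mem_nhds hu)] with z h1 h2
  exact h1.resolve_right fun h3 => h3 h2

lemma poly_anti (p : Polynomial ℂ) : ∃ q : Polynomial ℂ, Polynomial.derivative q = p := by
  induction p using Polynomial.induction_on' with
  | add p q hp hq =>
    obtain ⟨a, ha⟩ := hp
    obtain ⟨b, hb⟩ := hq
    exact ⟨a + b, by rw [map_add, ha, hb]⟩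
  | monomial n a =>
    refine ⟨Polynomial.monomial (n + 1) (a / (n + 1)), ?_⟩
    rw [Polynomial.derivative_monomial_succ, div_mul_cancel₀ _ (Nat.cast_add_one_ne_zero n)]

lemma poly_an (p : Polynomial ℂ) (u : ℂ) : AnalyticAt ℂ (fun z => p.eval z) u :=
  p.differentiable.analyticAt u

lemma poly_of_iter {f : ℂ → ℂ} (hI : ∀ n, MeromorphicOn (iteratedDeriv n f) (ball 0 1)) (j : ℕ) :
    ∀ p : Polynomial ℂ, (∀ᶠ z in codiscreteWithin (ball (0:ℂ) 1), iteratedDeriv j f z = p.eval z) →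
      ∃ q : Polynomial ℂ, ∀ᶠ z in codiscreteWithin (ball (0:ℂ) 1), f z = q.eval z := by
  induction j with
  | zero => intro p h; exact ⟨p, by simpa using h⟩
  | succ j ih =>
    intro p h
    obtain ⟨q, hq⟩ := poly_anti p
    have hm : MeromorphicOn (fun z => iteratedDeriv j f z - q.eval z) (ball 0 1) := fun u hu =>
      (hI j u hu).sub (poly_an q u).meromorphicAt
    have hd : ∀ᶠ z in 𝓝[≠] (0:ℂ), deriv (fun z => iteratedDeriv j f z - q.eval z) z = 0 := by
      filter_upwards [cod_nhds h (mem_ball_self one_pos),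
        (hI j 0 (mem_ball_self one_pos)).eventually_analyticAt] with z h1 h2
      rw [deriv_fun_sub h2.differentiableAt (poly_an q z).differentiableAt, Polynomial.deriv, hq,
        ← iteratedDeriv_succ, h1, sub_self]
    by_contra hcon
    refine order_deriv_ne_top hm (fun c hc => hcon (ih (q + Polynomial.C c) ?_)) 0
      (mem_ball_self one_pos) (meromorphicOrderAt_eq_top_iff.2 hd)
    filter_upwards [hc] with z hz
    rw [Polynomial.eval_add, Polynomial.eval_C, ← hz]; ring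

lemma bd_poly {f : ℂ → ℂ} (hf : MeromorphicOn f (ball 0 1)) {q : Polynomial ℂ}
    (h : ∀ᶠ z in codiscreteWithin (ball (0:ℂ) 1), f z = q.eval z) : Bd (charT f) 0 := by
  obtain ⟨B, hB⟩ := (isCompact_closedBall (0:ℂ) 1).exists_bound_of_continuousOn
    (f := fun z => q.eval z) q.continuous.continuousOn
  obtain ⟨C, hC⟩ := cnt_fin hf ∅ fun u hu _ => by
    rw [meromorphicOrderAt_congr (cod_nhds h hu)]
    exact (poly_an q u).meromorphicOrderAt_nonneg
  refine (Bd.const 0).mono (log⁺ B + C) fun r h1 h2 => ?_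
  have := prox_le_const hf (B := B) (by
    filter_upwards [h, self_mem_codiscreteWithin (ball (0:ℂ) 1)] with z z1 z2
    rw [z1]; exact hB z (ball_subset_closedBall z2)) h1 h2
  have := hC r h1 h2
  unfold charT
  linarith

end Pool.Agent.H53.Nv
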