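import Pool.Agent.H53.NvJ

/-! Thresholds for property (V) of differential monomials in the unit disc. -/

namespace Pool.Agent.H53.NvK

open Metric Filter Set Topology Real MeasureTheory Pool.Agent.H53.Nv
open scoped ENNReal

/-- `α(f) = limsup_{r → 1⁻} T(r, f) / log (1 / (1 - r))`. -/
noncomputable def alphaD (f : ℂ → ℂ) : ℝ≥0∞ :=
  limsup (fun r => ENNReal.ofReal (charT f r / Real.log (1 / (1 - r)))) (𝓝[<] 1)

/-- The monomial `f^{m_0} (f')^{m_1} ⋯ (f^{(k)})^{m_k}`. -/
noncomputable def Psi (k : ℕ) (m : ℕ → ℕ) (f : ℂ → ℂ) (z : ℂ) : ℂ :=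
  ∏ j ∈ Finset.range (k + 1), iteratedDeriv j f z ^ m j

/-- Property (V): every `w ≠ 0` is taken by the monomial at infinitely many points of the disc. -/
def PropV (k : ℕ) (m : ℕ → ℕ) (f : ℂ → ℂ) : Prop :=
  ∀ w : ℂ, w ≠ 0 →
    {u | u ∈ ball (0:ℂ) 1 ∧ 0 < meromorphicOrderAt (fun z => Psi k m f z - w) u}.Infinite

/-- The degree `m_0 + ⋯ + m_k`. -/
def deg (k : ℕ) (m : ℕ → ℕ) : ℝ := ∑ j ∈ Finset.range (k + 1), (m j : ℝ)

/-- The number of derivatives `m_1 + 2 m_2 + ⋯ + k m_k`. -/
def wt (k : ℕ) (m : ℕ → ℕ) : ℝ := ∑ j ∈ Finset.range (k + 1), (m j : ℝ) * j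

theorem pn_inv {g : ℂ → ℂ} {u : ℂ} {n : ℤ} (h : meromorphicOrderAt g u = n) :
    pn (fun z => (g z)⁻¹) u = max n 0 := by
  have h2 : meromorphicOrderAt (fun z => (g z)⁻¹) u = -meromorphicOrderAt g u :=
    meromorphicOrderAt_inv
  unfold pn
  rw [h2, h, ← WithTop.LinearOrderedAddCommGroup.coe_neg, WithTop.untop₀_coe, neg_neg]

theorem pn_deriv {g : ℂ → ℂ} {u : ℂ} (hg : MeromorphicAt g u) :
    pn (deriv g) u = pn g u + if (meromorphicOrderAt g u).untop₀ < 0 then 1 else 0 := by
  have := order_deriv hg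
  unfold pn
  split_ifs at this ⊢ <;> exact_mod_cast this

theorem pn_deriv' {g : ℂ → ℂ} {u : ℂ} (hg : MeromorphicAt g u) {n : ℤ}
    (h : meromorphicOrderAt g u = n) : pn (deriv g) u = pn g u + if n < 0 then 1 else 0 := by
  rw [pn_deriv hg, h]
  rfl

theorem weaken {X : ℝ → ℝ} {c d : ℝ} (h : Bd X c) (hcd : c ≤ d) : Bd X d := fun ε hε => by
  filter_upwards [h ε hε, tendsto_L.eventually_ge_atTop 0] with r h1 h2
  exact h1.trans (mul_le_mul_of_nonneg_right (by linarith) h2)

theorem prox_nn (g : ℂ → ℂ) (r : ℝ) : 0 ≤ prox g r :=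
  circleAverage_nonneg_of_nonneg fun _ _ => Real.posLog_nonneg

theorem key {k : ℕ} {m : ℕ → ℕ} {f : ℂ → ℂ} (hf : MeromorphicOn f (ball 0 1)) {K : ℝ}
    (hK : Bd (charT f) K) (hm : 1 ≤ m 0) (hpos : ¬ Bd (charT f) 0) {w : ℂ} (hw : w ≠ 0)
    (hW : {u | u ∈ ball (0:ℂ) 1 ∧ 0 < meromorphicOrderAt (fun z => Psi k m f z - w) u}.Finite) :
    Bd (fun r => deg k m * (m 0 - 1) * charT f r - deg k m * barN f r)
      ((m 0 - 1) * wt k m + deg k m) := by
  classical
  have hI := iter_slow hf hK
  have hord : ∀ j, ∀ u ∈ ball (0:ℂ) 1, meromorphicOrderAt (iteratedDeriv j f) u ≠ ⊤ := fun j => by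
    refine (order_dich (hI j).1).resolve_right fun h => hpos ?_
    obtain ⟨q, hq⟩ := poly_of_iter (fun n => (hI n).1) j 0 (h.mono fun z hz => by simpa using hz.1)
    exact bd_poly hf hq
  have hpw : ∀ j, MeromorphicOn (fun z => iteratedDeriv j f z ^ m j) (ball 0 1) :=
    fun j u hu => ((hI j).1 u hu).pow _
  have hΨ : MeromorphicOn (Psi k m f) (ball 0 1) := fun u hu =>
    MeromorphicAt.fun_prod (s := Finset.range (k + 1))
      (F := fun j z => iteratedDeriv j f z ^ m j) fun j _ => hpw j u hu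
  have hO : ∀ u ∈ ball (0:ℂ) 1, ∃ o : ℕ → ℤ,
      (∀ j, meromorphicOrderAt (iteratedDeriv j f) u = o j) ∧
      meromorphicOrderAt (Psi k m f) u
        = ((∑ j ∈ Finset.range (k + 1), (m j : ℤ) * o j : ℤ) : WithTop ℤ) := by
    intro u hu
    choose o ho using fun j => WithTop.ne_top_iff_exists.1 (hord j u hu)
    refine ⟨o, fun j => (ho j).symm, ?_⟩
    have e : meromorphicOrderAt (Psi k m f) u = ∑ j ∈ Finset.range (k + 1),
        meromorphicOrderAt (fun z => iteratedDeriv j f z ^ m j) u :=
      meromorphicOrderAt_fun_prod fun j _ => hpw j u hu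
    rw [e]
    push_cast
    refine Finset.sum_congr rfl fun j _ => ?_
    have e2 : meromorphicOrderAt (fun z => iteratedDeriv j f z ^ m j) u
        = m j * meromorphicOrderAt (iteratedDeriv j f) u := meromorphicOrderAt_pow ((hI j).1 u hu)
    rw [e2, ← ho j]
  have hO2 : ∀ u ∈ ball (0:ℂ) 1, ∃ p q : ℤ, meromorphicOrderAt f u = p ∧
      meromorphicOrderAt (Psi k m f) u = q ∧ (0 ≤ p → (m 0 : ℤ) * p ≤ q) := by
    intro u hu
    obtain ⟨o, ho, hq⟩ := hO u hu
    refine ⟨o 0, _, by simpa using ho 0, hq, fun h => ?_⟩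
    have h1 : ∀ j, 0 ≤ meromorphicOrderAt (iteratedDeriv j f) u := by
      intro j
      induction j with
      | zero => rw [ho 0]; exact_mod_cast h
      | succ j ih => rw [iteratedDeriv_succ]; exact order_deriv_nonneg ((hI j).1 u hu) ih
    refine Finset.single_le_sum (f := fun j => (m j : ℤ) * o j) (fun j _ => ?_)
      (Finset.mem_range.2 (Nat.succ_pos k))
    have h2 := h1 j
    rw [ho j] at h2
    exact mul_nonneg (Int.natCast_nonneg _) (by exact_mod_cast h2)
  let ld : ℕ → ℂ → ℂ := fun i => logDeriv (iteratedDeriv i f)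
  have hld : ∀ i, MeromorphicOn (ld i) (ball 0 1) := fun i => merom_ld (hI i).1
  have hB : ∀ j, MeromorphicOn (fun z => ∏ i ∈ Finset.range j, ld i z) (ball 0 1) ∧
      Bd (prox fun z => ∏ i ∈ Finset.range j, ld i z) j := fun j => by
    have := bd_prod (Finset.range j) (a := ld) (c := fun _ => 1) (fun i _ => hld i) fun i _ => by
      obtain ⟨h1, K', h3⟩ := hI i
      exact ld_bd h1 h3
    simpa using this
  obtain ⟨hQ, hQb⟩ := bd_prod (Finset.range (k + 1))
    (a := fun j z => (∏ i ∈ Finset.range j, ld i z) ^ m j) (c := fun j => (m j : ℝ) * j)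
    (fun j _ u hu => ((hB j).1 u hu).pow _) fun j _ =>
      ((hB j).2.smul (Nat.cast_nonneg (m j))).mono 0 fun r _ _ => by rw [prox_pow, add_zero]
  set Q : ℂ → ℂ := fun z => ∏ j ∈ Finset.range (k + 1), (∏ i ∈ Finset.range j, ld i z) ^ m j
    with hQd
  set n := ∑ j ∈ Finset.range (k + 1), m j with hn
  have hnd : deg k m = n := by rw [hn]; simp [deg]
  have hfac : ∀ᶠ z in codiscreteWithin (ball (0:ℂ) 1), Psi k m f z = Q z * f z ^ n := by
    filter_upwards [(eventually_all_finset (Finset.range (k + 1))).2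
      fun j _ => deriv_eq_ld (hI j).1] with z hz
    have h1 : ∀ j ≤ k, iteratedDeriv j f z = (∏ i ∈ Finset.range j, ld i z) * f z := by
      intro j hj
      induction j with
      | zero => simp
      | succ j ih =>
        rw [iteratedDeriv_succ, hz j (Finset.mem_range.2 (by omega)), ih (by omega),
          Finset.prod_range_succ]
        ring
    rw [hQd, hn, ← Finset.prod_pow_eq_pow_sum, ← Finset.prod_mul_distrib]
    refine Finset.prod_congr rfl fun j hj => ?_
    rw [h1 j (Nat.lt_succ_iff.1 (Finset.mem_range.1 hj)), mul_pow]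
  have hΨ0 : ∀ᶠ z in codiscreteWithin (ball (0:ℂ) 1), Psi k m f z ≠ 0 :=
    hΨ.eventually_codiscreteWithin_apply_ne_zero fun u hu => by
      obtain ⟨p, q, -, h, -⟩ := hO2 u hu
      rw [h]; exact WithTop.coe_ne_top
  have hx : ∀ r, 1 / 2 ≤ r → r < 1 → n * prox (fun z => (f z)⁻¹) r
      ≤ prox Q r + prox (fun z => (Psi k m f z - 0)⁻¹) r := fun r h1 h2 => by
    rw [← prox_pow]
    refine prox_mul_le (x := fun z => (f z)⁻¹ ^ n) (fun u hu => (minv hf u hu).pow _) hQ
      (minv (merom_sub hΨ 0)) ?_ h1 h2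
    filter_upwards [hfac, hΨ0] with z z1 z2
    rw [z1] at z2
    rw [sub_zero, z1, inv_pow, mul_inv, ← mul_assoc, mul_inv_cancel₀ (left_ne_zero_of_mul z2),
      one_mul]
  obtain ⟨c₀, -, hc₀, -⟩ := fmt hf
  have hKEY : Bd (fun r => prox (fun z => (Psi k m f z - 0)⁻¹) r
      + (m 0 - 1) * cnt (poleMult (fun z => (f z)⁻¹) r) r - barN f r) 1 := by
    have hm' : (0:ℝ) ≤ m 0 - 1 := by
      have : (1:ℝ) ≤ m 0 := by exact_mod_cast hm
      linarith
    by_cases hnc : ∀ c : ℂ, ¬ ∀ᶠ z in codiscreteWithin (ball (0 : ℂ) 1), Psi k m f z = c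
    · have hNj : ∀ j, ∃ K', Bd (fun r => (m j : ℝ) * cnt (poleMult (iteratedDeriv j f) r) r) K' :=
        fun j => by
          obtain ⟨-, K', h3⟩ := hI j
          refine ⟨_, (h3.mono 0 fun r _ _ => ?_).smul (Nat.cast_nonneg (m j))⟩
          have := prox_nn (iteratedDeriv j f) r
          unfold charT; linarith
      choose Kj hKj using hNj
      obtain ⟨C₁, hC₁⟩ := lin_dom (Finset.range (k + 2))
        (a := fun j => if j = k + 1 then Psi k m f else iteratedDeriv j f)
        (fun j => if j = k + 1 then 1 else -(m j : ℝ))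
        (fun j _ => by split_ifs; exacts [hΨ, (hI j).1]) fun u hu => by
          obtain ⟨o, ho, hq⟩ := hO u hu
          rw [Finset.sum_range_succ, Finset.sum_congr rfl (g := fun j =>
            -((m j : ℝ) * (pn (iteratedDeriv j f) u : ℝ))) fun j hj => by
              have : j ≠ k + 1 := (Finset.mem_range.1 hj).ne
              simp [this], Finset.sum_neg_distrib]
          simp only [if_true, one_mul]
          have h1 : pn (Psi k m f) u
              ≤ ∑ j ∈ Finset.range (k + 1), (m j : ℤ) * pn (iteratedDeriv j f) u := by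
            refine pn_le (Finset.sum_nonneg fun j _ =>
              mul_nonneg (Int.natCast_nonneg _) (pn_nonneg _ _)) ?_
            rw [hq, WithTop.coe_le_coe, ← Finset.sum_neg_distrib]
            refine Finset.sum_le_sum fun j _ => ?_
            have h2 := neg_pn_le (iteratedDeriv j f) u
            rw [ho j, WithTop.coe_le_coe] at h2
            nlinarith [Int.natCast_nonneg (m j)]
          have h2 : (pn (Psi k m f) u : ℝ)
              ≤ ∑ j ∈ Finset.range (k + 1), (m j : ℝ) * (pn (iteratedDeriv j f) u : ℝ) := by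
            exact_mod_cast h1
          linarith
      have hsum : Bd (fun r => ∑ j ∈ Finset.range (k + 1),
          (m j : ℝ) * cnt (poleMult (iteratedDeriv j f) r) r)
          ((Finset.range (k + 1)).card * ∑ j ∈ Finset.range (k + 1), |Kj j|) :=
        Bd.sum _ fun j hj ε hε => by
          filter_upwards [hKj j ε hε, tendsto_L.eventually_ge_atTop 0] with r h1 h2
          refine h1.trans (mul_le_mul_of_nonneg_right ?_ h2)
          have := Finset.single_le_sum (f := fun j => |Kj j|) (fun _ _ => abs_nonneg _) hj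
          linarith [le_abs_self (Kj j)]
      have hTΨ := ((hQb.add (hK.smul (Nat.cast_nonneg n))).add hsum).mono (X := charT (Psi k m f))
        (n * c₀ + C₁) fun r h1 h2 => by
          have q1 := prox_mul_le hΨ hQ (b := fun z => f z ^ n) (fun u hu => (hf u hu).pow _)
            hfac h1 h2
          rw [prox_pow] at q1
          have q2 := mul_le_mul_of_nonneg_left (hc₀ r h1 h2).2.1 (Nat.cast_nonneg (α := ℝ) n)
          have q3 := hC₁ r h1 h2
          rw [Finset.sum_range_succ, Finset.sum_congr rfl (g := fun j =>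
            -((m j : ℝ) * cnt (poleMult (iteratedDeriv j f) r) r)) fun j hj => by
              have : j ≠ k + 1 := (Finset.mem_range.1 hj).ne
              simp [this], Finset.sum_neg_distrib] at q3
          simp only [if_true, one_mul] at q3
          unfold charT at *
          linarith
      have hcore : Bd (fun r => prox (fun z => (Psi k m f z - 0)⁻¹) r
          + prox (fun z => (Psi k m f z - w)⁻¹) r + prox (deriv (Psi k m f)) r
          - prox (fun z => (deriv (Psi k m f) z)⁻¹) r - prox (Psi k m f) r) 1 := by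
        refine Bd.of_param fun α σ hα0 hα1 hσ => ?_
        obtain ⟨s₀, hs₀, hT⟩ := hTΨ.growth hσ
        obtain ⟨C, hC⟩ := core hα0 hα1 hσ.le hΨ (order_ne_top hΨ hnc)
          (order_deriv_ne_top hΨ hnc) hT {0, w} (by simp)
        refine ⟨s₀, hs₀, C, fun r h1 h2 h3 => ?_⟩
        have := hC r 1 h1 h2 h3 zero_le_one le_rfl
        rw [Finset.sum_pair hw.symm] at this
        linarith
      obtain ⟨κ₁, hκ₁⟩ := jensen hΨ.deriv
      obtain ⟨κ₂, hκ₂⟩ := jensen (merom_sub hΨ w)
      obtain ⟨C₂, hC₂⟩ := cnt_fin (minv (merom_sub hΨ w)) hW.toFinset fun u hu hF => by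
        obtain ⟨t, ht⟩ := WithTop.ne_top_iff_exists.1 (order_ne_top hΨ hnc w u hu)
        have h1 : ¬ 0 < meromorphicOrderAt (fun z => Psi k m f z - w) u :=
          fun h => hF (hW.mem_toFinset.2 ⟨hu, h⟩)
        have h2 : meromorphicOrderAt (fun z => (Psi k m f z - w)⁻¹) u
            = -meromorphicOrderAt (fun z => Psi k m f z - w) u := meromorphicOrderAt_inv
        rw [h2, ← ht]
        rw [← ht] at h1
        have h3 : ¬ (0:ℤ) < t := by exact_mod_cast h1
        have h4 : (0 : ℤ) ≤ -t := by omega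
        exact_mod_cast h4
      obtain ⟨C₃, hC₃⟩ := lin_dom (Finset.univ : Finset (Fin 6))
        (a := ![deriv (Psi k m f), Psi k m f, fun z => (deriv (Psi k m f) z)⁻¹,
          fun z => (f z)⁻¹, deriv f, f]) ![1, -1, -1, (m 0 : ℝ) - 1, -1, 1]
        (fun i _ => by
          fin_cases i
          exacts [hΨ.deriv, hΨ, minv hΨ.deriv, minv hf, hf.deriv, hf]) fun u hu => by
          obtain ⟨p, q, hp, hq, hpq⟩ := hO2 u hu
          have h1 : pn (deriv (Psi k m f)) u - pn (Psi k m f) u
              - pn (fun z => (deriv (Psi k m f) z)⁻¹) u + ((m 0 : ℤ) - 1) * pn (fun z => (f z)⁻¹) u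
              - pn (deriv f) u + pn f u ≤ 0 := by
            have h2 := pn_nonneg (fun z => (deriv (Psi k m f) z)⁻¹) u
            have hm0 : (1:ℤ) ≤ m 0 := by exact_mod_cast hm
            rw [pn_deriv' (hΨ u hu) hq, pn_deriv' (hf u hu) hp, pn_inv hp]
            rcases lt_trichotomy p 0 with h | h | h
            · rw [max_eq_right h.le, if_pos h]
              split_ifs <;> omega
            · have := hpq h.ge
              rw [h] at this ⊢
              rw [if_neg (by omega), if_neg (by omega)]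
              simp only [max_self, mul_zero]
              omega
            · have h3 := hpq h.le
              have h4 : p ≤ (m 0 : ℤ) * p := by nlinarith
              have h5 : meromorphicOrderAt (deriv (Psi k m f)) u = ((q - 1 : ℤ) : WithTop ℤ) :=
                meromorphicOrderAt_deriv_eq_sub_one (by exact_mod_cast (show q ≠ 0 by omega)) hq
              rw [pn_inv h5, max_eq_left h.le, max_eq_left (by omega), if_neg (by omega),
                if_neg (by omega)]
              nlinarith
          have h6 : (pn (deriv (Psi k m f)) u : ℝ) - pn (Psi k m f) u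
              - pn (fun z => (deriv (Psi k m f) z)⁻¹) u + ((m 0 : ℝ) - 1) * pn (fun z => (f z)⁻¹) u
              - pn (deriv f) u + pn f u ≤ 0 := by exact_mod_cast h1
          simp only [Fin.sum_univ_six, Matrix.cons_val]
          linarith
      refine hcore.mono (C₃ + C₂ + κ₂ - κ₁ + (log⁺ ‖-w‖ + Real.log 2)) fun r h1 h2 => ?_
      have q1 := hκ₁ r h1 h2
      have q2 := hκ₂ r h1 h2
      have q3 := hC₂ r h1 h2
      have q4 := hC₃ r h1 h2
      simp only [Fin.sum_univ_six, Matrix.cons_val] at q4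
      have q5 := charT_sub_le (merom_sub hΨ w) (-w) (by linarith : 0 < r) h2
      have e : (fun z => Psi k m f z - w - -w) = Psi k m f := by funext z; ring
      rw [e] at q5
      unfold charT at q5
      rw [poleMult_sub hΨ w h2] at q5 q2
      have q6 := cnt_deriv hf h2
      linarith
    · push Not at hnc
      obtain ⟨c, hc⟩ := hnc
      have hoc : ∀ u ∈ ball (0:ℂ) 1,
          meromorphicOrderAt (Psi k m f) u = meromorphicOrderAt (fun _ : ℂ => c) u :=
        fun u hu => meromorphicOrderAt_congr (cod_nhds hc hu)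
      obtain ⟨C₂, hC₂⟩ := cnt_fin (minv hf) ∅ fun u hu _ => by
        obtain ⟨p, q, hp, hq, hpq⟩ := hO2 u hu
        have h1 := hoc u hu
        rw [hq, meromorphicOrderAt_const] at h1
        have h2 : q = 0 := by
          split_ifs at h1
          · exact absurd h1 WithTop.coe_ne_top
          · exact_mod_cast h1
        have hm0 : (1:ℤ) ≤ m 0 := by exact_mod_cast hm
        have h3 : 0 ≤ -p := by
          by_contra h
          have := hpq (by omega)
          nlinarith
        have h4 : meromorphicOrderAt (fun z => (f z)⁻¹) u = -meromorphicOrderAt f u :=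
          meromorphicOrderAt_inv
        rw [h4, hp]
        exact_mod_cast h3
      refine weaken ((Bd.const 0).mono (log⁺ ‖c⁻¹‖ + (m 0 - 1) * C₂ + c₀) fun r h1 h2 => ?_)
        zero_le_one
      have q1 := prox_le_const (minv (merom_sub hΨ 0)) (B := ‖c⁻¹‖)
        (hc.mono fun z hz => by rw [hz, sub_zero]) h1 h2
      have q2 := mul_le_mul_of_nonneg_left (hC₂ r h1 h2) hm'
      have q3 := (hc₀ r h1 h2).2.2.2.2.1
      linarith
  obtain ⟨κ, hκ⟩ := jensen hf
  have hm1 : (1:ℝ) ≤ m 0 := by exact_mod_cast hm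
  have hmn : (m 0 : ℝ) ≤ n := by
    exact_mod_cast Finset.single_le_sum (f := m) (fun _ _ => Nat.zero_le _)
      (Finset.mem_range.2 (Nat.succ_pos k))
  have := ((hQb.smul (a := m 0 - 1) (by linarith)).add (hKEY.smul (Nat.cast_nonneg n))).mono
    (X := fun r => deg k m * (m 0 - 1) * charT f r - deg k m * barN f r) (n * (m 0 - 1) * κ)
    fun r h1 h2 => by
      have q1 := hκ r h1 h2
      have q2 := mul_le_mul_of_nonneg_left (hx r h1 h2) (show (0:ℝ) ≤ m 0 - 1 by linarith)
      have q3 := mul_nonneg (show (0:ℝ) ≤ n - (m 0 - 1) by linarith)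
        (prox_nn (fun z => (Psi k m f z - 0)⁻¹) r)
      have e : charT f r = prox (fun z => (f z)⁻¹) r
          + cnt (poleMult (fun z => (f z)⁻¹) r) r + κ := by unfold charT; linarith
      rw [hnd, e]
      nlinarith
  rw [mul_one, ← hnd] at this
  exact this

theorem bd_alpha {f : ℂ → ℂ} (hα : alphaD f ≠ ⊤) : Bd (charT f) (alphaD f).toReal := fun ε hε => by
  have hK0 : 0 ≤ (alphaD f).toReal := ENNReal.toReal_nonneg
  have h1 : alphaD f < ENNReal.ofReal ((alphaD f).toReal + ε) := by
    nth_rewrite 1 [← ENNReal.ofReal_toReal hα]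
    exact (ENNReal.ofReal_lt_ofReal_iff (by linarith)).2 (by linarith)
  filter_upwards [eventually_lt_of_limsup_lt h1, tendsto_L.eventually_gt_atTop 0] with r hr hL
  have := (ENNReal.ofReal_lt_ofReal_iff (by linarith)).1 hr
  rw [div_lt_iff₀ hL] at this
  exact this.le

theorem alpha_le {f : ℂ → ℂ} {c : ℝ} (h : Bd (charT f) c) : alphaD f ≤ ENNReal.ofReal c := by
  refine ENNReal.le_of_forall_pos_le_add fun ε hε _ => ?_
  have : alphaD f ≤ ENNReal.ofReal (c + ε) := by
    apply limsup_le_of_le
    · isBoundedDefault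
    filter_upwards [h ε hε, tendsto_L.eventually_gt_atTop 0] with r h1 h2
    apply ENNReal.ofReal_le_ofReal
    rwa [div_le_iff₀ h2]
  refine this.trans (ENNReal.ofReal_add_le.trans ?_)
  rw [ENNReal.ofReal_coe_nnreal]

end Pool.Agent.H53.NvK
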