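import Mathlib

/-! Heat kernel on `ℝ³`: elementary bounds. -/

namespace H53.Rd

open MeasureTheory Set Real
open scoped ENNReal

abbrev E := EuclideanSpace ℝ (Fin 3)

/-- The heat kernel `(4πτ)^{-3/2} exp (-|z|²/(4τ))` of `ℝ³`. -/
noncomputable def heat (τ : ℝ) (z : E) : ℝ :=
  Real.exp (-‖z‖ ^ 2 / (4 * τ)) / (Real.sqrt (4 * π * τ)) ^ 3

lemma heat_nonneg (τ : ℝ) (z : E) : 0 ≤ heat τ z := by
  unfold heat; positivity

lemma heat_meas : Measurable (fun p : ℝ × E => heat p.1 p.2) := by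
  unfold heat; fun_prop

lemma heat_lint {τ : ℝ} (hτ : 0 < τ) : ∫⁻ z : E, ENNReal.ofReal (heat τ z) ≤ 1 := by
  have hb : 0 < 1 / (4 * τ) := by positivity
  have h1 := GaussianFourier.integral_rexp_neg_mul_sq_norm (V := E) hb
  have hs : 0 < Real.sqrt (4 * π * τ) := Real.sqrt_pos.2 (by positivity)
  have hint : Integrable (fun z : E => Real.exp (-(1 / (4 * τ)) * ‖z‖ ^ 2)) := by
    by_contra h
    rw [integral_undef h] at h1
    have : 0 < (π / (1 / (4 * τ))) ^ ((Module.finrank ℝ E : ℝ) / 2) := by positivity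
    linarith
  have he : (fun z : E => heat τ z) =
      fun z => Real.exp (-(1 / (4 * τ)) * ‖z‖ ^ 2) / (Real.sqrt (4 * π * τ)) ^ 3 := by
    funext z; unfold heat; congr 2; ring
  have h2 : ∫ z : E, heat τ z = 1 := by
    rw [he, integral_div, h1]
    have : (Module.finrank ℝ E : ℝ) = 3 := by simp [E]
    rw [this, div_eq_one_iff_eq (by positivity), Real.sqrt_eq_rpow, ← Real.rpow_natCast,
      ← Real.rpow_mul (by positivity)]
    congr 1
    · field_simp
    · norm_num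
  have hi : Integrable (fun z : E => heat τ z) := by rw [he]; exact hint.div_const _
  rw [← ofReal_integral_eq_lintegral_ofReal hi (ae_of_all _ fun z => heat_nonneg _ _), h2]
  simp

lemma heat_lint' {τ : ℝ} (hτ : 0 < τ) (x : E) :
    ∫⁻ y : E, ENNReal.ofReal (heat τ (x - y)) ≤ 1 := by
  rw [lintegral_sub_left_eq_self (fun z => ENNReal.ofReal (heat τ z)) x]
  exact heat_lint hτ

lemma heat_far {τ d : ℝ} (hτ : 0 < τ) (hτ1 : τ ≤ 1) (hd : 0 < d) {z : E} (hz : d ≤ ‖z‖) :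
    heat τ z ≤ 4 / d ^ 4 := by
  unfold heat
  set σ := Real.sqrt (4 * π * τ) with hσ
  have hσ0 : 0 < σ := Real.sqrt_pos.2 (by positivity)
  have hσ2 : σ ^ 2 = 4 * π * τ := Real.sq_sqrt (by positivity)
  have hπ := Real.pi_gt_three
  have hπ4 := Real.pi_lt_four
  have hσ4 : σ ≤ 4 := by nlinarith
  set y := ‖z‖ ^ 2 / (4 * τ) with hy
  have hy0 : d ^ 2 / (4 * τ) ≤ y := by
    rw [hy]; gcongr
  have hy1 : 0 < d ^ 2 / (4 * τ) := by positivity
  have h1 : Real.exp (-‖z‖ ^ 2 / (4 * τ)) ≤ 2 / (d ^ 2 / (4 * τ)) ^ 2 := by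
    have : -‖z‖ ^ 2 / (4 * τ) = -y := by rw [hy]; ring
    rw [this, Real.exp_neg, inv_eq_one_div, div_le_div_iff₀ (Real.exp_pos _) (by positivity)]
    have h2 := Real.quadratic_le_exp_of_nonneg (le_trans hy1.le hy0)
    have h3 : (d ^ 2 / (4 * τ)) ^ 2 ≤ y ^ 2 := by gcongr
    nlinarith
  rw [div_le_iff₀ (by positivity)]
  refine h1.trans ?_
  have hτσ : τ = σ ^ 2 / (4 * π) := by rw [hσ2]; field_simp
  have : 2 / (d ^ 2 / (4 * τ)) ^ 2 = (2 * σ / π ^ 2) * (σ ^ 3 / d ^ 4) := by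
    rw [hτσ]; field_simp
  rw [this]
  have h4 : 2 * σ / π ^ 2 ≤ 4 := by
    rw [div_le_iff₀ (by positivity)]; nlinarith
  calc 2 * σ / π ^ 2 * (σ ^ 3 / d ^ 4) ≤ 4 * (σ ^ 3 / d ^ 4) := by gcongr
    _ = 4 / d ^ 4 * σ ^ 3 := by ring

lemma heat_near {τ r : ℝ} (hr : 0 < r) (h1 : r ^ 2 ≤ τ) (h2 : τ ≤ 2 * r ^ 2) {z : E}
    (hz : ‖z‖ ≤ r) : 1 / (200 * r ^ 3) ≤ heat τ z := by
  unfold heat
  have hτ : 0 < τ := lt_of_lt_of_le (by positivity) h1
  have hπ := Real.pi_lt_d2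
  have hσ0 : 0 < Real.sqrt (4 * π * τ) := Real.sqrt_pos.2 (by positivity)
  have hσ : Real.sqrt (4 * π * τ) ≤ 5.1 * r := by
    apply Real.sqrt_le_iff.2 ⟨by positivity, ?_⟩
    have := Real.pi_pos
    nlinarith
  have he : 3 / 4 ≤ Real.exp (-‖z‖ ^ 2 / (4 * τ)) := by
    have h3 : ‖z‖ ^ 2 ≤ r ^ 2 := by gcongr
    have h4 : ‖z‖ ^ 2 / (4 * τ) ≤ 1 / 4 := by
      rw [div_le_iff₀ (by positivity)]; linarith
    have := Real.add_one_le_exp (-‖z‖ ^ 2 / (4 * τ))
    have h5 : -‖z‖ ^ 2 / (4 * τ) = -(‖z‖ ^ 2 / (4 * τ)) := by ring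
    linarith
  rw [div_le_div_iff₀ (by positivity) (by positivity)]
  have h6 : Real.sqrt (4 * π * τ) ^ 3 ≤ (5.1 * r) ^ 3 := by gcongr
  have h7 : 0 < r ^ 3 := by positivity
  nlinarith

lemma heat_le {τ δ : ℝ} (hδ : 0 < δ) (h : δ ≤ τ) (z : E) :
    heat τ z ≤ 1 / (Real.sqrt (4 * π * δ)) ^ 3 := by
  unfold heat
  have hτ : 0 < τ := lt_of_lt_of_le hδ h
  have hσ0 : 0 < Real.sqrt (4 * π * δ) := Real.sqrt_pos.2 (by positivity)
  have h1 : Real.exp (-‖z‖ ^ 2 / (4 * τ)) ≤ 1 := by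
    rw [Real.exp_le_one_iff]
    apply div_nonpos_of_nonpos_of_nonneg <;> [simp; positivity]
  have := Real.pi_pos
  gcongr

lemma vol_ball (x : E) {r : ℝ} (hr : 0 ≤ r) :
    volume (Metric.ball x r) ≤ ENNReal.ofReal (5 * r ^ 3) := by
  rw [EuclideanSpace.volume_ball_fin_three, ← ENNReal.ofReal_pow hr,
    ← ENNReal.ofReal_mul (by positivity)]
  apply ENNReal.ofReal_le_ofReal
  have := Real.pi_lt_d2
  have h : 0 ≤ r ^ 3 := by positivity
  nlinarith

lemma heat_small {ε : ℝ} (hε : 0 < ε) : ∃ ρ > 0, ∀ t ∈ Icc (0 : ℝ) 1, ∀ x : E,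
    ∫⁻ s in Ioc 0 t, ∫⁻ y in Metric.ball x ρ, ENNReal.ofReal (heat (t - s) (x - y)) ≤
      ENNReal.ofReal ε := by
  set δ := ε / 2 with hδ
  have hδ0 : 0 < δ := by positivity
  set C := 1 / (Real.sqrt (4 * π * δ)) ^ 3 with hC
  have hC0 : 0 < C := by
    have : 0 < Real.sqrt (4 * π * δ) := Real.sqrt_pos.2 (by positivity)
    positivity
  set ρ := min 1 (δ / (5 * C)) with hρ
  have hρ0 : 0 < ρ := lt_min one_pos (by positivity)
  have hρ1 : C * (5 * ρ ^ 3) ≤ δ := by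
    have h1 : ρ ≤ 1 := min_le_left _ _
    have h2 : ρ ≤ δ / (5 * C) := min_le_right _ _
    have h3 : ρ ^ 3 ≤ ρ := by
      have : ρ ^ 2 ≤ 1 := by nlinarith
      nlinarith
    rw [le_div_iff₀ (by positivity)] at h2
    nlinarith
  refine ⟨ρ, hρ0, fun t ht x => ?_⟩
  have hsub : Ioc 0 t ⊆ (Ioc 0 t ∩ Iic (t - δ)) ∪ (Ioo (t - δ) t ∪ {t}) := by
    intro s hs
    by_cases h : s ≤ t - δ
    · exact Or.inl ⟨hs, h⟩
    · rcases hs.2.lt_or_eq with h' | h'
      · exact Or.inr (Or.inl ⟨lt_of_not_ge h, h'⟩)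
      · exact Or.inr (Or.inr h')
  refine (lintegral_mono_set hsub).trans ((lintegral_union_le _ _ _).trans ?_)
  have hA : ∫⁻ s in Ioc 0 t ∩ Iic (t - δ), ∫⁻ y in Metric.ball x ρ,
      ENNReal.ofReal (heat (t - s) (x - y)) ≤ ENNReal.ofReal δ := by
    calc _ ≤ ∫⁻ s in Ioc 0 t ∩ Iic (t - δ), ENNReal.ofReal δ := by
          apply setLIntegral_mono' (by measurability)
          intro s hs
          calc _ ≤ ∫⁻ y in Metric.ball x ρ, ENNReal.ofReal C := by
                apply lintegral_mono; intro y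
                exact ENNReal.ofReal_le_ofReal (heat_le hδ0 (by have := hs.2; simp at this; linarith) _)
            _ ≤ ENNReal.ofReal C * ENNReal.ofReal (5 * ρ ^ 3) := by
                rw [setLIntegral_const]; gcongr; exact vol_ball x hρ0.le
            _ ≤ _ := by
                rw [← ENNReal.ofReal_mul hC0.le]; exact ENNReal.ofReal_le_ofReal hρ1
      _ ≤ ENNReal.ofReal δ * 1 := by
          rw [setLIntegral_const]; gcongr
          refine (measure_mono inter_subset_left).trans ?_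
          simp [ht.2]
      _ = _ := mul_one _
  have hB : ∫⁻ s in Ioo (t - δ) t ∪ {t}, ∫⁻ y in Metric.ball x ρ,
      ENNReal.ofReal (heat (t - s) (x - y)) ≤ ENNReal.ofReal δ := by
    refine (lintegral_union_le _ _ _).trans ?_
    rw [setLIntegral_measure_zero {t} _ (by simp), add_zero]
    calc _ ≤ ∫⁻ s in Ioo (t - δ) t, (1 : ℝ≥0∞) := by
          apply setLIntegral_mono' (by measurability)
          intro s hs
          exact (setLIntegral_le_lintegral _ _).trans (heat_lint' (by linarith [hs.2]) x)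
      _ = _ := by simp
  calc _ ≤ ENNReal.ofReal δ + ENNReal.ofReal δ := add_le_add hA hB
    _ = _ := by rw [← ENNReal.ofReal_add hδ0.le hδ0.le]; congr 1; rw [hδ]; ring

lemma step_ind {T δ : ℝ} (hT : 0 ≤ T) (hδ : 0 < δ) (P : ℝ → Prop) (h0 : P 0)
    (hstep : ∀ t ∈ Icc 0 T, P t → ∀ t' ∈ Icc t T, t' ≤ t + δ → P t') : P T := by
  have h : ∀ n : ℕ, P (min (n * δ) T) := by
    intro n
    induction n with
    | zero => simpa [hT] using h0
    | succ n ih =>
      have hn : (0 : ℝ) ≤ n * δ := by positivity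
      refine hstep _ ⟨le_min hn hT, min_le_right _ _⟩ ih _ ⟨?_, min_le_right _ _⟩ ?_
      · apply min_le_min_right; push_cast; nlinarith
      · push_cast
        rcases le_total (n * δ) T with h | h
        · rw [min_eq_left h]; exact (min_le_left _ _).trans (by linarith)
        · rw [min_eq_right h]; exact (min_le_right _ _).trans (by linarith)
  obtain ⟨n, hn⟩ := exists_nat_ge (T / δ)
  rw [div_le_iff₀ hδ] at hn
  simpa [min_eq_right hn] using h n

end H53.Rd
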