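import Pool.Agent.H53.RdA

/-! Mild solutions of `u_t + J_K u = v f(u)`, `v_t - Δ v = - v f(u)` on `ℝ³`. -/

namespace H53.Rd

open MeasureTheory Set Real
open scoped ENNReal

/-- The convolution `(K * w)(x)`. -/
noncomputable def conv (K w : E → ℝ) (x : E) : ℝ := ∫ y, K y * w (x - y)

/-- The nonlocal operator `J_K w = ⟨K⟩ w - K * w`. -/
noncomputable def nonloc (K w : E → ℝ) (x : E) : ℝ := (∫ y, K y) * w x - conv K w x

/-- `(u, v)` is a bounded (mild) solution on `[0, T] × ℝ³` of `u_t + J_K u = v f(u)`,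
`v_t - Δ v = - v f(u)`, `u(0) = u0`, `v(0) = 1`. -/
structure IsSol (K : E → ℝ) (f : ℝ → ℝ) (u0 : E → ℝ) (T : ℝ) (u v : ℝ → E → ℝ) : Prop where
  meas_u : Measurable (Function.uncurry u)
  meas_v : Measurable (Function.uncurry v)
  u_nonneg : ∀ t ∈ Icc 0 T, ∀ x, 0 ≤ u t x
  u_bdd : ∃ L, ∀ t ∈ Icc 0 T, ∀ x, u t x ≤ L
  v_mem : ∀ t ∈ Icc 0 T, ∀ x, 0 ≤ v t x ∧ v t x ≤ 1
  eq_u : ∀ t ∈ Icc 0 T, ∀ x,
    u t x = u0 x + ∫ s in (0 : ℝ)..t, (v s x * f (u s x) - nonloc K (u s) x)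
  eq_v : ∀ t ∈ Icc 0 T, ∀ x,
    v t x = 1 - ∫ s in (0 : ℝ)..t, ∫ y, heat (t - s) (x - y) * (v s y * f (u s y))

variable {K : E → ℝ} {f : ℝ → ℝ} {u0 : E → ℝ} {T : ℝ} {u v : ℝ → E → ℝ}

lemma conv_nonneg (hK0 : ∀ y, 0 ≤ K y) {w : E → ℝ} (hw : ∀ x, 0 ≤ w x) (x : E) :
    0 ≤ conv K w x := integral_nonneg fun y => mul_nonneg (hK0 y) (hw _)

lemma conv_le (hK0 : ∀ y, 0 ≤ K y) (hKi : Integrable K) {w : E → ℝ} (hw : ∀ x, 0 ≤ w x) {L : ℝ}
    (hL : ∀ x, w x ≤ L) (x : E) : conv K w x ≤ (∫ y, K y) * L := by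
  rw [← integral_mul_const]
  exact integral_mono_of_nonneg (ae_of_all _ fun y => mul_nonneg (hK0 y) (hw _))
    (hKi.mul_const L) (ae_of_all _ fun y => mul_le_mul_of_nonneg_left (hL _) (hK0 y))

lemma conv_le' (hK0 : ∀ y, 0 ≤ K y) (hKi : Integrable K) {κ : ℝ} (hκ : ∀ y, K y ≤ κ)
    {w : E → ℝ} (hwm : Measurable w) (hw : ∀ x, 0 ≤ w x) {B : Set E} (hB : MeasurableSet B)
    (h1 : ∀ x ∉ B, w x ≤ 1) (h2 : ∫⁻ y in B, ENNReal.ofReal (w y) ≤ 1) (x : E) :
    conv K w x ≤ (∫ y, K y) + κ := by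
  have hκ0 : 0 ≤ κ := (hK0 0).trans (hκ 0)
  have hm : Measurable (B.indicator w) := hwm.indicator hB
  have hn : ∀ y, 0 ≤ B.indicator w y := fun y => indicator_nonneg (fun a _ => hw a) y
  have hl : ∫⁻ y, ENNReal.ofReal (B.indicator w y) ≤ 1 := by
    rw [← lintegral_indicator hB] at h2
    refine le_trans (le_of_eq (lintegral_congr fun y => ?_)) h2
    by_cases hy : y ∈ B <;> simp [hy]
  have hi : Integrable (B.indicator w) :=
    ⟨hm.aestronglyMeasurable, by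
      rw [hasFiniteIntegral_iff_ofReal (ae_of_all _ hn)]; exact hl.trans_lt ENNReal.one_lt_top⟩
  have hI : ∫ y, B.indicator w y ≤ 1 := by
    rw [integral_eq_lintegral_of_nonneg_ae (ae_of_all _ hn) hm.aestronglyMeasurable]
    exact ENNReal.toReal_le_of_le_ofReal zero_le_one (by simpa using hl)
  have hi' : Integrable (fun y => B.indicator w (x - y)) := hi.comp_sub_left x
  calc conv K w x ≤ ∫ y, (K y + κ * B.indicator w (x - y)) := by
        refine integral_mono_of_nonneg (ae_of_all _ fun y => mul_nonneg (hK0 y) (hw _))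
          (hKi.add (hi'.const_mul κ)) (ae_of_all _ fun y => ?_)
        by_cases hy : x - y ∈ B
        · simp only [indicator_of_mem hy]
          nlinarith [hK0 y, hκ y, hw (x - y)]
        · simp only [indicator_of_notMem hy]
          nlinarith [hK0 y, h1 _ hy]
    _ = (∫ y, K y) + κ * ∫ y, B.indicator w y := by
        rw [integral_add hKi (hi'.const_mul κ), integral_const_mul,
          integral_sub_left_eq_self (fun y => B.indicator w y) volume x]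
    _ ≤ _ := by nlinarith

lemma heat_lint0 {τ : ℝ} (hτ : 0 ≤ τ) (x : E) :
    ∫⁻ y : E, ENNReal.ofReal (heat τ (x - y)) ≤ 1 := by
  rcases hτ.eq_or_lt with h | h
  · subst h; simp [heat]
  · exact heat_lint' h x

lemma IsSol.measF (h : IsSol K f u0 T u v) (hf : Measurable f) :
    Measurable (fun p : ℝ × E => v p.1 p.2 * f (u p.1 p.2)) :=
  h.meas_v.mul (hf.comp h.meas_u)

lemma IsSol.duh (h : IsSol K f u0 T u v) (hf : Measurable f) (hf0 : ∀ z, 0 ≤ f z) {Φ : ℝ}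
    (hΦ : ∀ t ∈ Icc 0 T, ∀ x, f (u t x) ≤ Φ) {t : ℝ} (ht : t ∈ Icc 0 T) (x : E) :
    ∫⁻ s in Ioc 0 t, ∫⁻ y, ENNReal.ofReal (heat (t - s) (x - y) * (v s y * f (u s y))) =
      ENNReal.ofReal (1 - v t x) := by
  have hΦ0 : 0 ≤ Φ := (hf0 _).trans (hΦ t ht x)
  have hm : Measurable (fun p : ℝ × E => heat (t - p.1) (x - p.2) * (v p.1 p.2 * f (u p.1 p.2))) :=
    (heat_meas.comp (f := fun p : ℝ × E => (t - p.1, x - p.2)) (by fun_prop)).mul (h.measF hf)
  have hs : ∀ s ∈ Ioc 0 t, s ∈ Icc 0 T := fun s hs => ⟨hs.1.le, hs.2.trans ht.2⟩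
  have hnn : ∀ s ∈ Ioc 0 t, ∀ y, 0 ≤ heat (t - s) (x - y) * (v s y * f (u s y)) := fun s hs' y =>
    mul_nonneg (heat_nonneg _ _) (mul_nonneg (h.v_mem s (hs s hs') y).1 (hf0 _))
  have hl : ∀ s ∈ Ioc 0 t, ∫⁻ y, ENNReal.ofReal (heat (t - s) (x - y) * (v s y * f (u s y))) ≤
      ENNReal.ofReal Φ := by
    intro s hs'
    calc _ ≤ ∫⁻ y, ENNReal.ofReal (heat (t - s) (x - y)) * ENNReal.ofReal Φ := by
          apply lintegral_mono; intro y
          simp only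
          rw [← ENNReal.ofReal_mul (heat_nonneg _ _)]
          apply ENNReal.ofReal_le_ofReal
          apply mul_le_mul_of_nonneg_left _ (heat_nonneg _ _)
          have := h.v_mem s (hs s hs') y
          nlinarith [hΦ s (hs s hs') y, hf0 (u s y)]
      _ ≤ 1 * ENNReal.ofReal Φ := by
          rw [lintegral_mul_const' _ _ ENNReal.ofReal_ne_top]
          gcongr
          exact heat_lint0 (by linarith [hs'.2]) x
      _ = _ := one_mul _
  have hin : ∀ s ∈ Ioc 0 t, ∫ y, heat (t - s) (x - y) * (v s y * f (u s y)) =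
      (∫⁻ y, ENNReal.ofReal (heat (t - s) (x - y) * (v s y * f (u s y)))).toReal := fun s hs' =>
    integral_eq_lintegral_of_nonneg_ae (ae_of_all _ (hnn s hs'))
      (hm.comp measurable_prodMk_left).aestronglyMeasurable
  have hmo : Measurable
      (fun s => ∫⁻ y, ENNReal.ofReal (heat (t - s) (x - y) * (v s y * f (u s y)))) :=
    Measurable.lintegral_prod_right' (f := fun p : ℝ × E =>
      ENNReal.ofReal (heat (t - p.1) (x - p.2) * (v p.1 p.2 * f (u p.1 p.2)))) hm.ennreal_ofReal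
  have hfin : ∫⁻ s in Ioc 0 t, ∫⁻ y,
      ENNReal.ofReal (heat (t - s) (x - y) * (v s y * f (u s y))) ≠ ∞ := by
    refine ne_top_of_le_ne_top ?_ (setLIntegral_mono' measurableSet_Ioc hl)
    rw [setLIntegral_const]
    exact ENNReal.mul_ne_top ENNReal.ofReal_ne_top (by simp)
  rw [h.eq_v t ht x, sub_sub_cancel, intervalIntegral.integral_of_le ht.1,
    setIntegral_congr_fun measurableSet_Ioc hin, integral_toReal hmo.aemeasurable,
    ENNReal.ofReal_toReal hfin]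
  filter_upwards [ae_restrict_mem measurableSet_Ioc] with s hs'
  exact (hl s hs').trans_lt ENNReal.ofReal_lt_top

lemma IsSol.g_bound (h : IsSol K f u0 T u v) (hK0 : ∀ y, 0 ≤ K y) (hKi : Integrable K)
    (hf0 : ∀ z, 0 ≤ f z) {Φ L : ℝ} (hΦ : ∀ t ∈ Icc 0 T, ∀ x, f (u t x) ≤ Φ)
    (hL : ∀ t ∈ Icc 0 T, ∀ x, u t x ≤ L) {s : ℝ} (hs : s ∈ Icc 0 T) (x : E) :
    |v s x * f (u s x) - nonloc K (u s) x| ≤ Φ + (∫ y, K y) * L := by
  have h1 := conv_nonneg hK0 (h.u_nonneg s hs) x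
  have h2 := conv_le hK0 hKi (h.u_nonneg s hs) (hL s hs) x
  have hk : 0 ≤ ∫ y, K y := integral_nonneg hK0
  have h3 := mul_le_mul_of_nonneg_left (hL s hs x) hk
  have h4 := mul_nonneg hk (h.u_nonneg s hs x)
  have h5 := h.v_mem s hs x
  have h6 := hΦ s hs x
  have h7 := hf0 (u s x)
  have h8 : v s x * f (u s x) ≤ Φ := by nlinarith
  have h9 := mul_nonneg h5.1 h7
  unfold nonloc
  rw [abs_le]; constructor <;> linarith

lemma IsSol.g_int (h : IsSol K f u0 T u v) (hK0 : ∀ y, 0 ≤ K y) (hKi : Integrable K)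
    (hKm : Measurable K) (hf : Measurable f)
    (hf0 : ∀ z, 0 ≤ f z) {Φ L : ℝ} (hΦ : ∀ t ∈ Icc 0 T, ∀ x, f (u t x) ≤ Φ)
    (hL : ∀ t ∈ Icc 0 T, ∀ x, u t x ≤ L) {s t : ℝ} (hs : s ∈ Icc 0 T) (ht : t ∈ Icc 0 T) (x : E) :
    IntervalIntegrable (fun σ => v σ x * f (u σ x) - nonloc K (u σ) x) volume s t := by
  have hu : Measurable (fun σ => u σ x) := h.meas_u.comp measurable_prodMk_right
  have hc : Measurable (fun σ => conv K (u σ) x) := by
    have : Measurable (fun p : ℝ × E => K p.2 * u p.1 (x - p.2)) :=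
      (hKm.comp measurable_snd).mul
        (h.meas_u.comp (f := fun p : ℝ × E => (p.1, x - p.2)) (by fun_prop))
    exact (this.stronglyMeasurable.integral_prod_right').measurable
  have hm : Measurable (fun σ => v σ x * f (u σ x) - nonloc K (u σ) x) :=
    ((h.measF hf).comp measurable_prodMk_right).sub ((hu.const_mul _).sub hc)
  rw [intervalIntegrable_iff]
  refine Measure.integrableOn_of_bounded (M := Φ + (∫ y, K y) * L) (by simp [uIoc])
    hm.aestronglyMeasurable ?_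
  filter_upwards [ae_restrict_mem measurableSet_uIoc] with σ hσ
  exact h.g_bound hK0 hKi hf0 hΦ hL (uIcc_subset_Icc hs ht (uIoc_subset_uIcc hσ)) x

lemma IsSol.diff (h : IsSol K f u0 T u v) (hK0 : ∀ y, 0 ≤ K y) (hKi : Integrable K)
    (hKm : Measurable K) (hf : Measurable f)
    (hf0 : ∀ z, 0 ≤ f z) {Φ L : ℝ} (hΦ : ∀ t ∈ Icc 0 T, ∀ x, f (u t x) ≤ Φ)
    (hL : ∀ t ∈ Icc 0 T, ∀ x, u t x ≤ L) {s t : ℝ} (hs : s ∈ Icc 0 T) (ht : t ∈ Icc 0 T) (x : E) :
    u t x - u s x = ∫ σ in s..t, (v σ x * f (u σ x) - nonloc K (u σ) x) := by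
  have h0 : (0 : ℝ) ∈ Icc 0 T := ⟨le_rfl, hs.1.trans hs.2⟩
  rw [h.eq_u t ht x, h.eq_u s hs x, add_sub_add_left_eq_sub]
  exact intervalIntegral.integral_interval_sub_left (h.g_int hK0 hKi hKm hf hf0 hΦ hL h0 ht x)
    (h.g_int hK0 hKi hKm hf hf0 hΦ hL h0 hs x)

lemma IsSol.lip (h : IsSol K f u0 T u v) (hK0 : ∀ y, 0 ≤ K y) (hKi : Integrable K)
    (hKm : Measurable K) (hf : Measurable f)
    (hf0 : ∀ z, 0 ≤ f z) {Φ L : ℝ} (hΦ : ∀ t ∈ Icc 0 T, ∀ x, f (u t x) ≤ Φ)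
    (hL : ∀ t ∈ Icc 0 T, ∀ x, u t x ≤ L) {s t : ℝ} (hs : s ∈ Icc 0 T) (ht : t ∈ Icc 0 T) (x : E) :
    |u t x - u s x| ≤ (Φ + (∫ y, K y) * L) * |t - s| := by
  rw [h.diff hK0 hKi hKm hf hf0 hΦ hL hs ht x]
  rw [← Real.norm_eq_abs]
  apply intervalIntegral.norm_integral_le_of_norm_le_const
  intro σ hσ
  exact h.g_bound hK0 hKi hf0 hΦ hL (uIcc_subset_Icc hs ht (uIoc_subset_uIcc hσ)) x

/-- The mass absorbed by a small ball is small. -/
lemma IsSol.mass (h : IsSol K f u0 (2 * T) u v) (hf : Measurable f) (hf0 : ∀ z, 0 ≤ f z) {Φ : ℝ}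
    (hΦ : ∀ t ∈ Icc 0 (2 * T), ∀ x, f (u t x) ≤ Φ) {r : ℝ} (hr : 0 < r) (hrT : 2 * r ^ 2 ≤ T)
    (x : E) :
    ∫⁻ s in Ioc 0 T, ∫⁻ y in Metric.ball x r, ENNReal.ofReal (v s y * f (u s y)) ≤
      ENNReal.ofReal (400 * T * r) := by
  have hr2 : 0 < r ^ 2 := by positivity
  set m : ℝ → ℝ≥0∞ := fun s => ∫⁻ y in Metric.ball x r, ENNReal.ofReal (v s y * f (u s y))
  have one : ∀ n : ℕ, (n + 2) * r ^ 2 ≤ 2 * T →
      ∫⁻ s in Ioc (n * r ^ 2) ((n + 1) * r ^ 2), m s ≤ ENNReal.ofReal (200 * r ^ 3) := by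
    intro n hn
    have hn0 : (0 : ℝ) ≤ n * r ^ 2 := by positivity
    have ht : (n + 2) * r ^ 2 ∈ Icc 0 (2 * T) := ⟨by positivity, hn⟩
    have h1 := h.duh hf hf0 hΦ ht x
    have h2 : ENNReal.ofReal (1 - v ((n + 2) * r ^ 2) x) ≤ 1 := by
      simp [(h.v_mem _ ht x).1]
    rw [← h1] at h2
    have hsub : Ioc (n * r ^ 2) ((n + 1) * r ^ 2) ⊆ Ioc 0 ((n + 2) * r ^ 2) :=
      Ioc_subset_Ioc hn0 (by nlinarith)
    have h3 := (lintegral_mono_set hsub).trans h2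
    calc _ ≤ ∫⁻ s in Ioc (n * r ^ 2) ((n + 1) * r ^ 2), ENNReal.ofReal (200 * r ^ 3) *
          ∫⁻ y, ENNReal.ofReal (heat ((n + 2) * r ^ 2 - s) (x - y) * (v s y * f (u s y))) := by
          apply setLIntegral_mono' measurableSet_Ioc
          intro s hs
          rw [← lintegral_const_mul' _ _ ENNReal.ofReal_ne_top]
          refine le_trans ?_ (setLIntegral_le_lintegral (Metric.ball x r) _)
          apply setLIntegral_mono' measurableSet_ball
          intro y hy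
          rw [← ENNReal.ofReal_mul (by positivity)]
          apply ENNReal.ofReal_le_ofReal
          have hs' : s ∈ Icc 0 (2 * T) := ⟨(hsub hs).1.le, (hsub hs).2.trans hn⟩
          have h4 := heat_near (τ := (n + 2) * r ^ 2 - s) hr (by linarith [hs.2])
            (by linarith [hs.1]) (z := x - y)
            (by rw [← dist_eq_norm, dist_comm]; exact (Metric.mem_ball.1 hy).le)
          rw [div_le_iff₀ (by positivity)] at h4
          have h5 := mul_nonneg (h.v_mem s hs' y).1 (hf0 (u s y))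
          nlinarith
      _ ≤ ENNReal.ofReal (200 * r ^ 3) * 1 := by
          rw [lintegral_const_mul' _ _ ENNReal.ofReal_ne_top]; gcongr
      _ = _ := mul_one _
  have all : ∀ n : ℕ, (n + 1) * r ^ 2 ≤ 2 * T →
      ∫⁻ s in Ioc 0 (n * r ^ 2), m s ≤ ENNReal.ofReal (n * (200 * r ^ 3)) := by
    intro n
    induction n with
    | zero => simp
    | succ n ih =>
      intro hn
      push_cast at hn ⊢
      have hn0 : (0 : ℝ) ≤ n * r ^ 2 := by positivity
      rw [← Ioc_union_Ioc_eq_Ioc hn0 (show (n : ℝ) * r ^ 2 ≤ (n + 1) * r ^ 2 by nlinarith)]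
      refine (lintegral_union_le _ _ _).trans
        ((add_le_add (ih (by nlinarith)) (one n (by linarith))).trans ?_)
      rw [← ENNReal.ofReal_add (by positivity) (by positivity)]
      apply le_of_eq; congr 1; ring
  have hT : 0 < T := by linarith
  set n := ⌈T / r ^ 2⌉₊
  have h1 : T ≤ n * r ^ 2 := by rw [← div_le_iff₀ hr2]; exact Nat.le_ceil _
  have h2 : (n : ℝ) * r ^ 2 ≤ T + r ^ 2 := by
    have := (Nat.ceil_lt_add_one (show 0 ≤ T / r ^ 2 by positivity)).le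
    calc (n : ℝ) * r ^ 2 ≤ (T / r ^ 2 + 1) * r ^ 2 := by gcongr
      _ = _ := by field_simp
  refine (lintegral_mono_set (Ioc_subset_Ioc_right h1)).trans ((all n (by linarith)).trans ?_)
  apply ENNReal.ofReal_le_ofReal
  nlinarith

end H53.Rd
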