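import Pool.Agent.H53.RdB

/-! Outside the hot set the temperature stays low; inside it blows up. -/

namespace H53.Rd

open MeasureTheory Set Real
open scoped ENNReal

variable {K : E → ℝ} {f : ℝ → ℝ} {u0 : E → ℝ} {T : ℝ} {u v : ℝ → E → ℝ}

lemma IsSol.outside (h : IsSol K f u0 (2 * T) u v) (hT : 0 ≤ T) (hK0 : ∀ y, 0 ≤ K y)
    (hKi : Integrable K) (hKm : Measurable K) {κ : ℝ} (hκ : ∀ y, K y ≤ κ) (hf : Measurable f)
    (hf0 : ∀ z, 0 ≤ f z) (hf1 : ∀ z ≤ 1, f z = 0) {Φ L : ℝ}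
    (hΦ : ∀ t ∈ Icc 0 (2 * T), ∀ x, f (u t x) ≤ Φ) (hL : ∀ t ∈ Icc 0 (2 * T), ∀ x, u t x ≤ L)
    {B : Set E} (hB : MeasurableSet B) (hvol : volume B ≤ ENNReal.ofReal (1 / 16))
    (hu3 : ∀ x, u0 x ≤ 3) (huB : ∀ x ∉ B, u0 x = 0)
    (hM : ∫⁻ s in Ioc 0 T, ∫⁻ y in B, ENNReal.ofReal (v s y * f (u s y)) ≤ ENNReal.ofReal (1 / 4))
    (hTk : T * ((∫ y, K y) + κ) ≤ 1 / 4) : ∀ s ∈ Icc 0 T, ∀ x ∉ B, u s x ≤ 1 := by
  set k := ∫ y, K y with hk
  have hk0 : 0 ≤ k := integral_nonneg hK0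
  have hκ0 : 0 ≤ κ := (hK0 0).trans (hκ 0)
  have hs2 : ∀ s ∈ Icc 0 T, s ∈ Icc 0 (2 * T) := fun s hs => ⟨hs.1, by linarith [hs.2]⟩
  have h00 : (0 : ℝ) ∈ Icc 0 (2 * T) := ⟨le_rfl, by linarith⟩
  have hum : ∀ s, Measurable (u s) := fun s => h.meas_u.comp measurable_prodMk_left
  set P : ℝ → Prop := fun t => ∀ s ∈ Icc 0 t,
    (∀ x ∉ B, u s x ≤ 1) ∧ ∫⁻ y in B, ENNReal.ofReal (u s y) ≤ 1 with hP
  have imp : ∀ t ∈ Icc 0 T, P t →
      (∀ x ∉ B, u t x ≤ 1 / 2) ∧ ∫⁻ y in B, ENNReal.ofReal (u t y) ≤ ENNReal.ofReal (1 / 2) := by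
    intro t ht hPt
    have hsub : ∀ s ∈ Icc 0 t, s ∈ Icc 0 (2 * T) := fun s hs => hs2 s ⟨hs.1, hs.2.trans ht.2⟩
    have hFi : ∀ x, IntegrableOn (fun s => v s x * f (u s x)) (Ioc 0 t) := by
      intro x
      refine Measure.integrableOn_of_bounded (M := Φ) (by simp)
        ((h.measF hf).comp measurable_prodMk_right).aestronglyMeasurable ?_
      filter_upwards [ae_restrict_mem measurableSet_Ioc] with σ hσ
      have h5 := h.v_mem σ (hsub σ (Ioc_subset_Icc_self hσ)) x
      have h6 := hΦ σ (hsub σ (Ioc_subset_Icc_self hσ)) x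
      have h7 := hf0 (u σ x)
      rw [Real.norm_eq_abs, abs_of_nonneg (mul_nonneg h5.1 h7)]
      nlinarith
    have pt : ∀ x, u t x ≤ u0 x + 1 / 4 + ∫ s in Ioc 0 t, v s x * f (u s x) := by
      intro x
      have hFi' : IntervalIntegrable (fun s => v s x * f (u s x)) volume 0 t := by
        rw [intervalIntegrable_iff_integrableOn_Ioc_of_le ht.1]; exact hFi x
      have h1 : ∫ s in (0 : ℝ)..t, (v s x * f (u s x) - nonloc K (u s) x) ≤
          ∫ s in (0 : ℝ)..t, (v s x * f (u s x) + (k + κ)) := by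
        refine intervalIntegral.integral_mono_on ht.1
          (h.g_int hK0 hKi hKm hf hf0 hΦ hL h00 (hs2 t ht) x)
          (hFi'.add intervalIntegrable_const) fun s hs => ?_
        have h2 := conv_le' hK0 hKi hκ (hum s) (h.u_nonneg s (hsub s hs)) hB (hPt s hs).1
          (hPt s hs).2 x
        have h3 := mul_nonneg hk0 (h.u_nonneg s (hsub s hs) x)
        unfold nonloc
        linarith
      rw [intervalIntegral.integral_add hFi' intervalIntegrable_const,
        intervalIntegral.integral_const, intervalIntegral.integral_of_le ht.1,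
        intervalIntegral.integral_of_le ht.1] at h1
      rw [h.eq_u t (hs2 t ht) x]
      have h4 : t * (k + κ) ≤ T * (k + κ) := mul_le_mul_of_nonneg_right ht.2 (by linarith)
      rw [intervalIntegral.integral_of_le ht.1]
      simp only [sub_zero, smul_eq_mul] at h1
      linarith
    constructor
    · intro x hx
      have h1 := pt x
      rw [setIntegral_eq_zero_of_forall_eq_zero, huB x hx] at h1
      · linarith
      · intro s hs
        rw [hf1 _ ((hPt s (Ioc_subset_Icc_self hs)).1 x hx), mul_zero]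
    · calc _ ≤ ∫⁻ y in B, (ENNReal.ofReal 4 +
            ∫⁻ s in Ioc 0 t, ENNReal.ofReal (v s y * f (u s y))) := by
            apply lintegral_mono; intro y
            simp only
            have hn : 0 ≤ᵐ[volume.restrict (Ioc 0 t)] fun s => v s y * f (u s y) := by
              filter_upwards [ae_restrict_mem measurableSet_Ioc] with σ hσ
              exact mul_nonneg (h.v_mem σ (hsub σ (Ioc_subset_Icc_self hσ)) y).1 (hf0 _)
            rw [← ofReal_integral_eq_lintegral_ofReal (hFi y) hn,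
              ← ENNReal.ofReal_add (by norm_num) (integral_nonneg_of_ae hn)]
            apply ENNReal.ofReal_le_ofReal
            linarith [pt y, hu3 y]
        _ = ENNReal.ofReal 4 * volume B +
            ∫⁻ s in Ioc 0 t, ∫⁻ y in B, ENNReal.ofReal (v s y * f (u s y)) := by
            rw [lintegral_add_left measurable_const, setLIntegral_const, lintegral_lintegral_swap]
            exact ((h.measF hf).ennreal_ofReal.comp measurable_swap).aemeasurable
        _ ≤ ENNReal.ofReal 4 * ENNReal.ofReal (1 / 16) + ENNReal.ofReal (1 / 4) := by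
            gcongr
            exact (lintegral_mono_set (Ioc_subset_Ioc_right ht.2)).trans hM
        _ = _ := by
            rw [← ENNReal.ofReal_mul (by norm_num), ← ENNReal.ofReal_add (by norm_num) (by norm_num)]
            norm_num
  set C := Φ + k * L with hC
  have hC0 : 0 ≤ C := (abs_nonneg _).trans (h.g_bound hK0 hKi hf0 hΦ hL h00 0)
  have hPT : P T := by
    refine step_ind hT (δ := 1 / (2 * (C + 1))) (by positivity) P ?_ ?_
    · intro s hs
      have hs0 : s = 0 := le_antisymm hs.2 hs.1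
      subst hs0
      have he : ∀ x, u 0 x = u0 x := fun x => by simpa using h.eq_u 0 h00 x
      refine ⟨fun x hx => by rw [he, huB x hx]; norm_num, ?_⟩
      calc _ ≤ ∫⁻ y in B, ENNReal.ofReal 3 :=
            lintegral_mono fun y => ENNReal.ofReal_le_ofReal (by rw [he]; exact hu3 y)
        _ ≤ ENNReal.ofReal 3 * ENNReal.ofReal (1 / 16) := by rw [setLIntegral_const]; gcongr
        _ ≤ _ := by
            rw [← ENNReal.ofReal_mul (by norm_num), ENNReal.ofReal_le_one]; norm_num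
    · intro t ht hPt t' ht' hδ s hs
      rcases le_total s t with hst | hst
      · exact hPt s ⟨hs.1, hst⟩
      have hsT : s ∈ Icc 0 T := ⟨hs.1, hs.2.trans ht'.2⟩
      have hl : ∀ x, u s x ≤ u t x + 1 / 2 := by
        intro x
        have h1 := h.lip hK0 hKi hKm hf hf0 hΦ hL (hs2 t ht) (hs2 s hsT) x
        rw [abs_of_nonneg (sub_nonneg.2 hst)] at h1
        have h2 : C * (s - t) ≤ (C + 1) * (1 / (2 * (C + 1))) := by
          apply mul_le_mul (by linarith) (by linarith [hs.2]) (by linarith) (by linarith)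
        have h3 : (C + 1) * (1 / (2 * (C + 1))) = 1 / 2 := by field_simp
        linarith [le_abs_self (u s x - u t x)]
      obtain ⟨i1, i2⟩ := imp t ht hPt
      refine ⟨fun x hx => by linarith [hl x, i1 x hx], ?_⟩
      calc _ ≤ ∫⁻ y in B, (ENNReal.ofReal (1 / 2) + ENNReal.ofReal (u t y)) := by
            apply lintegral_mono; intro y
            simp only
            rw [← ENNReal.ofReal_add (by norm_num) (h.u_nonneg t (hs2 t ht) y)]
            exact ENNReal.ofReal_le_ofReal (by linarith [hl y])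
        _ ≤ ENNReal.ofReal (1 / 2) * ENNReal.ofReal (1 / 16) + ENNReal.ofReal (1 / 2) := by
            rw [lintegral_add_left measurable_const, setLIntegral_const]; gcongr
        _ ≤ _ := by
            rw [← ENNReal.ofReal_mul (by norm_num),
              ← ENNReal.ofReal_add (by norm_num) (by norm_num), ENNReal.ofReal_le_one]
            norm_num
  exact fun s hs => (hPT s hs).1

lemma IsSol.blow (h : IsSol K f u0 (2 * T) u v) (hT : 0 < T) (hK0 : ∀ y, 0 ≤ K y)
    (hKi : Integrable K) (hKm : Measurable K) (hf : Measurable f)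
    (hf0 : ∀ z, 0 ≤ f z) {c : ℝ} (hf2 : ∀ z, 2 ≤ z → c * z ^ 2 ≤ f z) {Φ L : ℝ}
    (hΦ : ∀ t ∈ Icc 0 (2 * T), ∀ x, f (u t x) ≤ Φ) (hL : ∀ t ∈ Icc 0 (2 * T), ∀ x, u t x ≤ L)
    (hc1 : 2 * ∫ y, K y ≤ c) (hc2 : 3 ≤ c * T) {x : E} (hx : u0 x = 3)
    (hv : ∀ t ∈ Icc 0 T, 1 / 2 ≤ v t x) : False := by
  set k := ∫ y, K y with hk
  have hk0 : 0 ≤ k := integral_nonneg hK0
  have hc0 : 0 ≤ c := by linarith
  have hs2 : ∀ s ∈ Icc 0 T, s ∈ Icc 0 (2 * T) := fun s hs => ⟨hs.1, by linarith [hs.2]⟩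
  have h00 : (0 : ℝ) ∈ Icc 0 (2 * T) := ⟨le_rfl, by linarith⟩
  have he : u 0 x = 3 := by rw [← hx]; simpa using h.eq_u 0 h00 x
  have hg : ∀ s ∈ Icc 0 T, 2 ≤ u s x →
      c / 4 * u s x ^ 2 ≤ v s x * f (u s x) - nonloc K (u s) x := by
    intro s hs h2
    have h1 := conv_nonneg hK0 (h.u_nonneg s (hs2 s hs)) x
    have h3 := hf2 _ h2
    have h4 : 1 / 2 * f (u s x) ≤ v s x * f (u s x) := mul_le_mul_of_nonneg_right (hv s hs) (hf0 _)
    have h5 : k * u s x ≤ c / 4 * u s x ^ 2 := by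
      have : 2 * u s x ≤ u s x ^ 2 := by nlinarith
      nlinarith
    unfold nonloc
    linarith
  have grow : ∀ s t a : ℝ, s ∈ Icc 0 T → t ∈ Icc 0 T → s ≤ t → 2 ≤ a →
      (∀ σ ∈ Icc s t, a ≤ u σ x) → u s x + (t - s) * (c / 4 * a ^ 2) ≤ u t x := by
    intro s t a hs ht hst ha hσ
    have h1 := h.diff hK0 hKi hKm hf hf0 hΦ hL (hs2 s hs) (hs2 t ht) x
    have h2 : ∫ σ in s..t, (c / 4 * a ^ 2) ≤
        ∫ σ in s..t, (v σ x * f (u σ x) - nonloc K (u σ) x) := by
      refine intervalIntegral.integral_mono_on hst intervalIntegrable_const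
        (h.g_int hK0 hKi hKm hf hf0 hΦ hL (hs2 s hs) (hs2 t ht) x) fun σ hσ' => ?_
      refine le_trans ?_ (hg σ ⟨hs.1.trans hσ'.1, hσ'.2.trans ht.2⟩ (ha.trans (hσ σ hσ')))
      have := hσ σ hσ'
      gcongr
    rw [intervalIntegral.integral_const, smul_eq_mul] at h2
    linarith
  set C := Φ + k * L with hC
  have hC0 : 0 ≤ C := (abs_nonneg _).trans (h.g_bound hK0 hKi hf0 hΦ hL h00 0)
  have two : ∀ s ∈ Icc 0 T, 2 ≤ u s x := by
    refine step_ind hT.le (δ := 1 / (C + 1)) (by positivity) (fun t => ∀ s ∈ Icc 0 t, 2 ≤ u s x)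
      ?_ ?_
    · intro s hs
      rw [le_antisymm hs.2 hs.1, he]; norm_num
    · intro t ht hPt t' ht' hδ s hs
      rcases le_total s t with hst | hst
      · exact hPt s ⟨hs.1, hst⟩
      have hsT : s ∈ Icc 0 T := ⟨hs.1, hs.2.trans ht'.2⟩
      have h1 := h.lip hK0 hKi hKm hf hf0 hΦ hL (hs2 t ht) (hs2 s hsT) x
      rw [abs_of_nonneg (sub_nonneg.2 hst)] at h1
      have h2 : C * (s - t) ≤ (C + 1) * (1 / (C + 1)) := by
        apply mul_le_mul (by linarith) (by linarith [hs.2]) (by linarith) (by linarith)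
      have h3 : (C + 1) * (1 / (C + 1)) = 1 := by field_simp
      have h4 := grow 0 t 2 ⟨le_rfl, hT.le⟩ ht ht.1 le_rfl hPt
      have h5 : 0 ≤ (t - 0) * (c / 4 * 2 ^ 2) := by have := ht.1; apply mul_nonneg <;> linarith
      linarith [neg_abs_le (u s x - u t x)]
  have mem : ∀ n : ℕ, T * (1 - (1 / 2) ^ n) ∈ Icc 0 T := by
    intro n
    have h1 : (1 / 2 : ℝ) ^ n ≤ 1 := pow_le_one₀ (by norm_num) (by norm_num)
    have h2 : (0 : ℝ) ≤ (1 / 2) ^ n := by positivity
    constructor <;> nlinarith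
  have it : ∀ n : ℕ, 3 * 2 ^ n ≤ u (T * (1 - (1 / 2) ^ n)) x := by
    intro n
    induction n with
    | zero => simp [he]
    | succ n ih =>
      have h2 : (0 : ℝ) < (1 / 2) ^ n := by positivity
      have h3 : (1 : ℝ) ≤ 2 ^ n := one_le_pow₀ (by norm_num)
      have hle : T * (1 - (1 / 2) ^ n) ≤ T * (1 - (1 / 2) ^ (n + 1)) := by
        rw [pow_succ]; nlinarith
      have h4 := grow _ _ (3 * 2 ^ n) (mem n) (mem (n + 1)) hle (by linarith) fun σ hσ => by
        have hσT : σ ∈ Icc 0 T := ⟨(mem n).1.trans hσ.1, hσ.2.trans (mem (n + 1)).2⟩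
        have h5 := grow _ σ 2 (mem n) hσT hσ.1 le_rfl fun τ hτ =>
          two τ ⟨(mem n).1.trans hτ.1, hτ.2.trans hσT.2⟩
        have h6 : 0 ≤ (σ - T * (1 - (1 / 2) ^ n)) * (c / 4 * 2 ^ 2) := by
          have := hσ.1; apply mul_nonneg <;> linarith
        linarith
      have h7 : (T * (1 - (1 / 2) ^ (n + 1)) - T * (1 - (1 / 2) ^ n)) * (c / 4 * (3 * 2 ^ n) ^ 2) =
          9 / 8 * (c * T) * 2 ^ n * ((1 / 2) ^ n * 2 ^ n) := by ring
      have h8 : (1 / 2 : ℝ) ^ n * 2 ^ n = 1 := by rw [← mul_pow]; norm_num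
      rw [h7, h8] at h4
      rw [pow_succ]
      nlinarith
  obtain ⟨n, hn⟩ := pow_unbounded_of_one_lt L (show (1 : ℝ) < 2 by norm_num)
  have h1 := it n
  have h2 := hL _ (hs2 _ (mem n)) x
  have h3 : (0 : ℝ) < 2 ^ n := by positivity
  linarith

end H53.Rd
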