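import Mathlib

namespace Pool.Agent.H53.RepA

open Finset Fintype PowerSeries

open Classical in
/-- tuples from `B` whose entries are pairwise related -/
noncomputable def tup (R : ℕ → ℕ → Prop) (k : ℕ) (B : Finset ℕ) : Finset (Fin k → ℕ) :=
  (piFinset fun _ => B).filter fun a => ∀ i j, i < j → R (a i) (a j)

/-- generating polynomial of the tuples -/
noncomputable def T (R : ℕ → ℕ → Prop) (k : ℕ) (B : Finset ℕ) (z : ℂ) : ℂ :=
  ∑ a ∈ tup R k B, z ^ (∑ j, a j)

lemma mem_tup {R : ℕ → ℕ → Prop} {k : ℕ} {B : Finset ℕ} {a : Fin k → ℕ} :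
    a ∈ tup R k B ↔ (∀ i, a i ∈ B) ∧ ∀ i j, i < j → R (a i) (a j) := by
  simp [tup]

lemma T_zero (R : ℕ → ℕ → Prop) (B : Finset ℕ) (z : ℂ) : T R 0 B z = 1 := by
  have : tup R 0 B = univ := eq_univ_of_forall fun a => by simp [mem_tup]
  simp [T, this]

lemma T_empty (R : ℕ → ℕ → Prop) (k : ℕ) (z : ℂ) : T R (k + 1) ∅ z = 0 := by
  have : tup R (k + 1) ∅ = ∅ := by ext a; simp [mem_tup]
  simp [T, this]

lemma T_insert (R : ℕ → ℕ → Prop) (hR : ∀ x y, R x y → x ≤ y) (k n : ℕ) (B B' : Finset ℕ)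
    (hn : ∀ x ∈ B, n < x) (hB : ∀ x, x ∈ B' ↔ x ∈ insert n B ∧ R n x) (z : ℂ) :
    T R (k + 1) (insert n B) z = T R (k + 1) B z + z ^ n * T R k B' z := by
  classical
  rw [T, ← sum_filter_not_add_sum_filter _ (fun a => a 0 = n)]
  congr 1
  · refine sum_congr ?_ fun _ _ => rfl
    ext a
    simp only [mem_filter, mem_tup, mem_insert]
    constructor
    · rintro ⟨⟨h1, h2⟩, h3⟩
      refine ⟨fun i => (h1 i).resolve_left fun h => ?_, h2⟩
      have h4 := hn _ ((h1 0).resolve_left h3)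
      rcases (Fin.zero_le i).eq_or_lt with rfl | h5
      · exact h3 h
      · have := hR _ _ (h2 0 i h5)
        omega
    · rintro ⟨h1, h2⟩
      exact ⟨⟨fun i => Or.inr (h1 i), h2⟩, (hn _ (h1 0)).ne'⟩
  · rw [T, mul_sum]
    refine sum_nbij' Fin.tail (fun a => Fin.cons n a) ?_ ?_ ?_ ?_ ?_
    · intro a ha
      simp only [mem_filter, mem_tup] at ha ⊢
      obtain ⟨⟨h1, h2⟩, h3⟩ := ha
      exact ⟨fun i => (hB _).mpr ⟨h1 _, h3 ▸ h2 0 _ (Fin.succ_pos i)⟩,
        fun i j h => h2 _ _ (Fin.succ_lt_succ_iff.mpr h)⟩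
    · intro a ha
      simp only [mem_filter, mem_tup] at ha ⊢
      refine ⟨⟨fun i => Fin.cases (mem_insert_self _ _) (fun i => ((hB _).mp (ha.1 i)).1) i,
        fun i j => ?_⟩, rfl⟩
      refine Fin.cases ?_ (fun j => ?_) j
      · simp
      · refine Fin.cases (fun _ => ((hB _).mp (ha.1 j)).2) (fun i h => ?_) i
        exact ha.2 i j (Fin.succ_lt_succ_iff.mp h)
    · intro a ha
      rw [← (mem_filter.mp ha).2, Fin.cons_self_tail]
    · intro a _
      simp
    · intro a ha
      rw [Fin.sum_univ_succ, pow_add, (mem_filter.mp ha).2]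
      rfl

lemma geo (x s : ℂ) : (1 - C (s * x) * X) * PowerSeries.mk (fun j => s ^ j * x ^ (j + 1)) = C x := by
  ext (_ | j)
  · simp [sub_mul]
  · simp [sub_mul, mul_assoc, coeff_succ_X_mul, coeff_C]; ring

lemma newton_le (z : ℂ) (B : Finset ℕ) : d⁄dX ℂ (PowerSeries.mk fun k => T (· ≤ ·) k B z) =
    PowerSeries.mk (fun j => ∑ a ∈ B, 1 ^ j * (z ^ a) ^ (j + 1)) * PowerSeries.mk fun k => T (· ≤ ·) k B z := by
  induction B using Finset.induction_on_min with
  | empty => ext j; simp [coeff_derivative, T_empty, coeff_mul]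
  | insert n B hn ih =>
    have h1 : (1 - C (1 * z ^ n) * X) * (PowerSeries.mk fun k => T (· ≤ ·) k (insert n B) z) =
        PowerSeries.mk fun k => T (· ≤ ·) k B z := by
      ext (_ | j)
      · simp [sub_mul, T_zero]
      · have := T_insert (· ≤ ·) (fun _ _ h => h) j n B (insert n B) hn (fun x => ⟨fun h => ⟨h, by
          rcases mem_insert.mp h with rfl | h
          exacts [le_rfl, (hn _ h).le]⟩, fun h => h.1⟩) z
        simp [-map_pow, sub_mul, mul_assoc, coeff_succ_X_mul, this]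
    have h2 : PowerSeries.mk (fun j => ∑ a ∈ insert n B, 1 ^ j * (z ^ a) ^ (j + 1)) =
        PowerSeries.mk (fun j => 1 ^ j * (z ^ n) ^ (j + 1)) + PowerSeries.mk (fun j => ∑ a ∈ B, 1 ^ j * (z ^ a) ^ (j + 1)) := by
      ext j
      simp [sum_insert fun h => (hn n h).false]
    have h3 : (1 - C (1 * z ^ n) * X : ℂ⟦X⟧) ≠ 0 := fun h => by
      simpa using congrArg constantCoeff h
    have h4 := congrArg (d⁄dX ℂ) h1
    rw [ih, ← h1] at h4
    simp only [Derivation.leibniz, map_sub, Derivation.map_one_eq_zero, derivative_C, derivative_X,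
      smul_eq_mul] at h4
    apply mul_left_cancel₀ h3
    rw [h2]
    have h5 := geo (z ^ n) 1
    rw [one_mul] at *
    linear_combination h4 - (PowerSeries.mk fun k => T (· ≤ ·) k (insert n B) z) * h5

lemma newton_lt (z : ℂ) (B : Finset ℕ) : d⁄dX ℂ (PowerSeries.mk fun k => T (· < ·) k B z) =
    PowerSeries.mk (fun j => ∑ a ∈ B, (-1) ^ j * (z ^ a) ^ (j + 1)) * PowerSeries.mk fun k => T (· < ·) k B z := by
  induction B using Finset.induction_on_min with
  | empty => ext j; simp [coeff_derivative, T_empty, coeff_mul]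
  | insert n B hn ih =>
    have h1 : (PowerSeries.mk fun k => T (· < ·) k (insert n B) z) =
        (1 - C (-1 * z ^ n) * X) * PowerSeries.mk fun k => T (· < ·) k B z := by
      ext (_ | j)
      · simp [add_mul, T_zero]
      · have := T_insert (· < ·) (fun _ _ h => h.le) j n B B hn (fun x => ⟨fun h =>
          ⟨mem_insert_of_mem h, hn _ h⟩, fun h => (mem_insert.mp h.1).resolve_left h.2.ne'⟩) z
        simp [-map_pow, add_mul, mul_assoc, coeff_succ_X_mul, this]
    have h2 : PowerSeries.mk (fun j => ∑ a ∈ insert n B, (-1) ^ j * (z ^ a) ^ (j + 1)) =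
        PowerSeries.mk (fun j => (-1) ^ j * (z ^ n) ^ (j + 1)) +
          PowerSeries.mk (fun j => ∑ a ∈ B, (-1) ^ j * (z ^ a) ^ (j + 1)) := by
      ext j
      simp [sum_insert fun h => (hn n h).false]
    rw [h1, h2]
    simp only [Derivation.leibniz, map_sub, Derivation.map_one_eq_zero, derivative_C, derivative_X,
      smul_eq_mul, ih]
    have h5 := geo (z ^ n) (-1)
    rw [neg_one_mul, map_neg] at *
    linear_combination (-PowerSeries.mk fun k => T (· < ·) k B z) * h5

lemma newt (k : ℕ) (E P : ℕ → ℂ) (y : ℝ) (hy : 0 ≤ y) (h0 : E 0 = 1)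
    (h : d⁄dX ℂ (PowerSeries.mk E) = PowerSeries.mk P * PowerSeries.mk E) (hP : ∀ i, i + 2 ≤ k → ‖P (i + 1)‖ ≤ y ^ (i + 2)) :
    ‖P 0‖ ^ k ≤ 2 * k.factorial * ‖E k‖ ∨ ‖P 0‖ ≤ 2 ^ (k + 1) * k * k.factorial * y := by
  have hE : ∀ m, E (m + 1) * (m + 1) = ∑ t ∈ antidiagonal m, P t.1 * E t.2 := fun m => by
    simpa [coeff_derivative, coeff_mul] using congrArg (coeff m) h
  set x := ‖P 0‖ with hx
  have x0 : 0 ≤ x := norm_nonneg _
  have a0 : ∀ i, i + 1 ≤ k → ‖P i‖ ≤ (x + y) ^ (i + 1) := by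
    rintro (_ | i) hi
    · simpa [← hx] using hy
    · exact (hP i hi).trans (pow_le_pow_left₀ hy (by linarith) _)
  have a1 : ∀ m ≤ k, ‖E m‖ ≤ (x + y) ^ m := by
    intro m
    induction m using Nat.strong_induction_on with
    | _ m ih =>
    rcases m with _ | m
    · simp [h0]
    intro hm
    have := (hE m ▸ norm_sum_le _ _).trans (sum_le_card_nsmul _ _ ((x + y) ^ (m + 1)) fun t ht => by
      have := mem_antidiagonal.mp ht
      rw [norm_mul, show m + 1 = t.1 + 1 + t.2 by omega, pow_add]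
      exact mul_le_mul (a0 _ (by omega)) (ih _ (by omega) (by omega)) (norm_nonneg _) (by positivity))
    rw [norm_mul, Nat.card_antidiagonal, nsmul_eq_mul, ← Nat.cast_succ, Complex.norm_natCast,
      mul_comm] at this
    exact le_of_mul_le_mul_left this (by positivity)
  have a2 : ∀ m ≤ k, ‖m.factorial * E m - P 0 ^ m‖ * (x + y) ≤ m * m.factorial * y * (x + y) ^ m := by
    intro m
    induction m with
    | zero => simp [h0]
    | succ m ih =>
      intro hm
      have e : (m + 1).factorial * E (m + 1) - P 0 ^ (m + 1) = P 0 * (m.factorial * E m - P 0 ^ m) +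
          m.factorial * ∑ t ∈ (antidiagonal m).erase (0, m), P t.1 * E t.2 := by
        have := hE m
        rw [← add_sum_erase _ _ (a := (0, m)) (by simp)] at this
        push_cast [Nat.factorial_succ]
        linear_combination m.factorial * this
      have b : ‖∑ t ∈ (antidiagonal m).erase (0, m), P t.1 * E t.2‖ ≤ (m + 1) * (y * (x + y) ^ m) := by
        refine (norm_sum_le _ _).trans ((sum_le_card_nsmul _ _ (y * (x + y) ^ m) ?_).trans ?_)
        · rintro ⟨_ | i, j⟩ ht
          · simp at ht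
          have := mem_antidiagonal.mp (mem_of_mem_erase ht)
          simp only at this ⊢
          rw [norm_mul, ← this, pow_add, ← mul_assoc]
          refine mul_le_mul ((hP i (by omega)).trans ?_) (a1 _ (by omega)) (norm_nonneg _)
            (by positivity)
          rw [pow_succ']
          exact mul_le_mul_of_nonneg_left (pow_le_pow_left₀ hy (by linarith) _) hy
        · rw [nsmul_eq_mul]
          refine mul_le_mul_of_nonneg_right ?_ (by positivity)
          exact_mod_cast card_erase_le.trans (Nat.card_antidiagonal m).le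
      have c := ih (by omega)
      have d := norm_add_le (P 0 * (m.factorial * E m - P 0 ^ m))
        (m.factorial * ∑ t ∈ (antidiagonal m).erase (0, m), P t.1 * E t.2)
      rw [← e, norm_mul, norm_mul, Complex.norm_natCast, ← hx] at d
      have f := mul_le_mul_of_nonneg_left b (by positivity : (0 : ℝ) ≤ m.factorial)
      refine (mul_le_mul_of_nonneg_right (d.trans (add_le_add_right f _)) (by positivity)).trans ?_
      have g := mul_le_mul_of_nonneg_left c x0
      have g2 : 0 ≤ m.factorial * y * (x + y) ^ m := by positivity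
      have g3 : (0 : ℝ) ≤ m := by positivity
      push_cast [Nat.factorial_succ]
      rw [pow_succ]
      nlinarith [mul_nonneg (mul_nonneg g2 g3) hy, mul_nonneg (mul_nonneg (mul_nonneg g2 g3) g3)
        (add_nonneg x0 hy)]
  by_contra hc
  push Not at hc
  obtain ⟨c1, c2⟩ := hc
  have c3 := a2 k le_rfl
  have c4 := norm_sub_norm_le (P 0 ^ k) (k.factorial * E k)
  rw [norm_sub_rev, norm_pow, norm_mul, Complex.norm_natCast, ← hx] at c4
  rcases Nat.eq_zero_or_pos k with rfl | hk
  · norm_num [h0] at c1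
  have c5 : (1 : ℝ) ≤ 2 ^ (k + 1) * k * k.factorial := by
    exact_mod_cast Nat.succ_le_of_lt (by positivity)
  have c6 : (x + y) ^ k ≤ (2 * x) ^ k := pow_le_pow_left₀ (by positivity) (by nlinarith) _
  have c7 : 0 < x := lt_of_le_of_lt (by positivity) c2
  have c8 := c3.trans (mul_le_mul_of_nonneg_left c6 (by positivity))
  have c9 := mul_lt_mul_of_pos_right c2 (pow_pos c7 k)
  rw [mul_pow] at c8
  rw [pow_succ] at c9
  have c10 : x ^ k / 2 * x ≤ ‖k.factorial * E k - P 0 ^ k‖ * (x + y) :=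
    mul_le_mul (by linarith) (by linarith) x0 (norm_nonneg _)
  nlinarith

/-- the pointwise inequality -/
def Key (R : ℕ → ℕ → Prop) (k : ℕ) : Prop := ∃ C : ℝ, 0 < C ∧ ∀ (B : Finset ℕ) (z : ℂ),
  ‖∑ a ∈ B, z ^ a‖ ^ k ≤ C * ‖T R k B z‖ ∨
    ‖∑ a ∈ B, z ^ a‖ ^ 2 ≤ C * (1 + ∑ j ∈ range k, ‖∑ a ∈ B, (z ^ a) ^ (j + 2)‖)

lemma key_of (R : ℕ → ℕ → Prop) (k : ℕ) (s : ℂ) (hs : ‖s‖ = 1)
    (h : ∀ z B, d⁄dX ℂ (PowerSeries.mk fun k => T R k B z) =
      PowerSeries.mk (fun j => ∑ a ∈ B, s ^ j * (z ^ a) ^ (j + 1)) * PowerSeries.mk fun k => T R k B z) : Key R k := by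
  refine ⟨2 * k.factorial + (2 ^ (k + 1) * k * k.factorial) ^ 2, by positivity, fun B z => ?_⟩
  set Y := 1 + ∑ j ∈ range k, ‖∑ a ∈ B, (z ^ a) ^ (j + 2)‖
  have h0 : 0 ≤ ∑ j ∈ range k, ‖∑ a ∈ B, (z ^ a) ^ (j + 2)‖ := sum_nonneg fun _ _ => norm_nonneg _
  have h1 : 1 ≤ Y := by simp only [Y]; linarith
  rcases newt k _ _ √Y (Real.sqrt_nonneg _) (T_zero R B z) (h z B) (fun i hi => by
    rw [← mul_sum, norm_mul, norm_pow, hs, one_pow, one_mul]
    refine le_trans ?_ (pow_le_pow_right₀ (Real.one_le_sqrt.mpr h1) (by omega : 2 ≤ i + 2))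
    rw [Real.sq_sqrt (by linarith)]
    exact (single_le_sum (f := fun j => ‖∑ a ∈ B, (z ^ a) ^ (j + 2)‖) (fun _ _ => norm_nonneg _)
      (mem_range.mpr (by omega : i < k))).trans (le_add_of_nonneg_left zero_le_one)) with h | h
  · left
    simp only [pow_zero, zero_add, pow_one, one_mul] at h
    exact h.trans (mul_le_mul_of_nonneg_right (le_add_of_nonneg_right (by positivity)) (norm_nonneg _))
  · right
    simp only [pow_zero, zero_add, pow_one, one_mul] at h
    refine (pow_le_pow_left₀ (norm_nonneg _) h 2).trans ?_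
    rw [mul_pow, Real.sq_sqrt (by linarith)]
    exact mul_le_mul_of_nonneg_right (le_add_of_nonneg_left (by positivity)) (by linarith)

lemma key_le (k : ℕ) : Key (· ≤ ·) k := key_of _ k 1 norm_one newton_le

lemma key_lt (k : ℕ) : Key (· < ·) k := key_of _ k (-1) (by simp) newton_lt

lemma key_true (k : ℕ) : Key (fun _ _ => True) k := by
  refine ⟨1, one_pos, fun B z => Or.inl (le_of_eq ?_)⟩
  rw [one_mul, ← norm_pow, sum_pow', T]
  simp [tup, prod_pow_eq_pow_sum]

end Pool.Agent.H53.RepA
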