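import Mathlib
import Pool.Agent.H53.RepA

namespace Pool.Agent.H53.RepB

open Finset Filter Topology Real Pool.Agent.H53.RepA

/-- point on the circle of radius `r` -/
noncomputable def pt (r θ : ℝ) : ℂ := r * Complex.exp (θ * Complex.I)

lemma cont_pt (r : ℝ) : Continuous (pt r) := by unfold pt; fun_prop

lemma norm_pt {r : ℝ} (h : 0 ≤ r) (θ : ℝ) : ‖pt r θ‖ = r := by
  simp [pt, abs_of_nonneg h]

lemma pt_pow (r θ : ℝ) (n : ℕ) : pt r θ ^ n = pt (r ^ n) (n * θ) := by
  simp only [pt, mul_pow, ← Complex.exp_nat_mul]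
  push_cast
  rw [mul_assoc]

lemma pt_re (r θ : ℝ) : (pt r θ).re = r * cos θ := by simp [pt, Complex.exp_ofReal_mul_I_re]

lemma pt_im (r θ : ℝ) : (pt r θ).im = r * sin θ := by simp [pt, Complex.exp_ofReal_mul_I_im]

lemma int_cos (m : ℤ) : ∫ θ in (0 : ℝ)..π, cos (m * θ) = if m = 0 then π else 0 := by
  split_ifs with h
  · simp [h]
  · rw [intervalIntegral.integral_comp_mul_left cos (by exact_mod_cast h)]
    simp

lemma pars (B : Finset ℕ) (r : ℝ) (j : ℕ) (hj : j ≠ 0) :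
    ∫ θ in (0 : ℝ)..π, ‖∑ a ∈ B, (pt r θ ^ a) ^ j‖ ^ 2 = π * ∑ a ∈ B, ((r ^ a) ^ j) ^ 2 := by
  have e : ∀ θ, ‖∑ a ∈ B, (pt r θ ^ a) ^ j‖ ^ 2 = ∑ a ∈ B, ∑ b ∈ B,
      (r ^ a) ^ j * (r ^ b) ^ j * cos (((j * a - j * b : ℤ) : ℝ) * θ) := by
    intro θ
    rw [Complex.sq_norm, Complex.normSq_apply, Complex.re_sum, Complex.im_sum, sum_mul_sum,
      sum_mul_sum, ← sum_add_distrib]
    refine sum_congr rfl fun a _ => ?_
    rw [← sum_add_distrib]
    refine sum_congr rfl fun b _ => ?_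
    simp only [pt_pow, pt_re, pt_im]
    push_cast
    rw [sub_mul, cos_sub, mul_assoc (j : ℝ), mul_assoc (j : ℝ)]
    ring
  simp only [e]
  rw [intervalIntegral.integral_finset_sum fun a _ => Continuous.intervalIntegrable (by fun_prop) _ _,
    mul_sum]
  refine sum_congr rfl fun a ha => ?_
  rw [intervalIntegral.integral_finset_sum fun a _ => Continuous.intervalIntegrable (by fun_prop) _ _]
  simp only [intervalIntegral.integral_const_mul, int_cos]
  rw [sum_eq_single a]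
  · simp; ring
  · intro b _ hb
    rw [if_neg, mul_zero]
    rw [← mul_sub]
    exact mul_ne_zero (by exact_mod_cast hj) (sub_ne_zero.mpr (by exact_mod_cast hb.symm))
  · exact fun h => absurd ha h

lemma one_sub {r θ : ℝ} (h0 : 1 / 2 ≤ r) (h1 : r < 1) (h2 : 0 ≤ θ) (h3 : θ ≤ π) :
    (1 - r + θ) / 4 ≤ ‖1 - pt r θ‖ := by
  refine le_of_sq_le_sq ?_ (norm_nonneg _)
  rw [Complex.sq_norm, Complex.normSq_apply]
  simp only [Complex.sub_re, Complex.one_re, pt_re, Complex.sub_im, Complex.one_im, pt_im]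
  have a := cos_le_one_sub_mul_cos_sq (x := θ) (by rwa [abs_of_nonneg h2])
  have b : 1 / 5 ≤ 2 / π ^ 2 := by
    rw [div_le_div_iff₀ (by norm_num) (by positivity)]
    nlinarith [pi_lt_d2, pi_pos]
  have c : θ ^ 2 / 5 ≤ 1 - cos θ := by nlinarith [sq_nonneg θ]
  have d : θ ^ 2 / 5 ≤ 2 * r * (1 - cos θ) := by nlinarith [sq_nonneg θ]
  nlinarith [sin_sq_add_cos_sq θ, sq_nonneg (1 - r - θ), sq_nonneg θ, sq_nonneg (1 - r)]

lemma avg {R : ℕ → ℕ → Prop} {k : ℕ} (hk : 2 ≤ k) {C : ℝ} (hC : 0 < C) (B : Finset ℕ)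
    (h : ∀ z : ℂ, ‖∑ a ∈ B, z ^ a‖ ^ k ≤ C * ‖T R k B z‖ ∨
      ‖∑ a ∈ B, z ^ a‖ ^ 2 ≤ C * (1 + ∑ j ∈ range k, ‖∑ a ∈ B, (z ^ a) ^ (j + 2)‖))
    {r K s : ℝ} (h0 : 1 / 2 ≤ r) (h1 : r < 1) (hs : 0 < s) (hK : 0 ≤ K)
    (hT : ∀ z : ℂ, ‖z‖ = r → ‖1 - z‖ * ‖T R k B z‖ ≤ K) :
    ∑ a ∈ B, (r ^ 2) ^ a ≤ (C * K) ^ (2 / k : ℝ) * 8 * log ((1 - r + π) / (1 - r)) +
      C * (1 + k * ((∑ a ∈ B, r ^ a) / s + s)) := by
  have hk' : (2 : ℝ) ≤ k := by exact_mod_cast hk
  have hc := cont_pt r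
  have key : ∀ θ ∈ Set.Icc 0 π, ‖∑ a ∈ B, (pt r θ ^ a) ^ 1‖ ^ 2 ≤
      (C * K) ^ (2 / k : ℝ) * 8 * (1 - r + θ)⁻¹ +
        C * (1 + ∑ j ∈ range k, (s⁻¹ * ‖∑ a ∈ B, (pt r θ ^ a) ^ (j + 2)‖ ^ 2 + s)) := by
    intro θ hθ
    have t0 : 0 < 1 - r + θ := by linarith [hθ.1]
    simp only [pow_one]
    rcases h (pt r θ) with h | h
    · refine le_trans ?_ (le_add_of_nonneg_right (by positivity))
      have u1 := one_sub h0 h1 hθ.1 hθ.2
      have u2 : ‖1 - pt r θ‖ ≤ 2 := (norm_sub_le _ _).trans (by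
        rw [norm_pt (by linarith), norm_one]; linarith)
      have u3 := hT _ (norm_pt (by linarith) θ)
      set u := ‖1 - pt r θ‖
      have u0 : 0 < u := by linarith
      have a : ‖∑ a ∈ B, pt r θ ^ a‖ ^ k ≤ C * K / u := by
        rw [le_div_iff₀ u0]
        nlinarith [mul_le_mul_of_nonneg_left u3 hC.le]
      have b := rpow_le_rpow (by positivity) a (by positivity : (0 : ℝ) ≤ 2 / k)
      rw [← rpow_natCast_mul (norm_nonneg _), mul_div_cancel₀ _ (by positivity), rpow_two,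
        div_rpow (by positivity) u0.le] at b
      have c : u / 2 ≤ u ^ (2 / k : ℝ) := by
        have := rpow_le_rpow_of_exponent_ge (by positivity : 0 < u / 2) (by linarith)
          ((div_le_one (by positivity)).mpr hk')
        rw [rpow_one] at this
        exact this.trans (rpow_le_rpow (by positivity) (by linarith) (by positivity))
      refine b.trans ((div_le_div_of_nonneg_left (by positivity) (by positivity : 0 < (1 - r + θ) / 8)
        (by linarith)).trans_eq ?_)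
      field_simp
    · refine h.trans (le_trans ?_ (le_add_of_nonneg_left (by positivity)))
      refine mul_le_mul_of_nonneg_left (add_le_add_right (sum_le_sum fun j _ => ?_) _) hC.le
      set x := ‖∑ a ∈ B, (pt r θ ^ a) ^ (j + 2)‖
      rw [inv_mul_eq_div, div_add' _ _ _ hs.ne', le_div_iff₀ hs]
      nlinarith [sq_nonneg (x - s), sq_nonneg x, sq_nonneg s]
  have i1 : IntervalIntegrable (fun θ => (1 - r + θ)⁻¹) MeasureTheory.volume 0 π := by
    refine ContinuousOn.intervalIntegrable (ContinuousOn.inv₀ (by fun_prop) fun θ hθ => ?_)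
    rw [Set.uIcc_of_le pi_pos.le] at hθ
    linarith [hθ.1]
  have := intervalIntegral.integral_mono_on pi_pos.le (Continuous.intervalIntegrable (by fun_prop) _ _)
    ((i1.const_mul _).add (Continuous.intervalIntegrable (by fun_prop) _ _)) key
  rw [pars B r 1 one_ne_zero, intervalIntegral.integral_add (i1.const_mul _)
    (Continuous.intervalIntegrable (by fun_prop) _ _), intervalIntegral.integral_const_mul,
    intervalIntegral.integral_const_mul, intervalIntegral.integral_comp_add_left (fun x => x⁻¹),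
    integral_inv_of_pos (by linarith) (by linarith [pi_pos]), add_zero,
    intervalIntegral.integral_add (by simp) (Continuous.intervalIntegrable (by fun_prop) _ _),
    intervalIntegral.integral_finset_sum fun a _ => Continuous.intervalIntegrable (by fun_prop) _ _]
    at this
  have b : ∀ j ∈ range k, ∫ θ in (0 : ℝ)..π, (s⁻¹ * ‖∑ a ∈ B, (pt r θ ^ a) ^ (j + 2)‖ ^ 2 + s) ≤
      π * ((∑ a ∈ B, r ^ a) / s + s) := by
    intro j _
    rw [intervalIntegral.integral_add (Continuous.intervalIntegrable (by fun_prop) _ _) (by simp),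
      intervalIntegral.integral_const_mul, pars B r _ (by omega)]
    have : ∑ a ∈ B, ((r ^ a) ^ (j + 2)) ^ 2 ≤ ∑ a ∈ B, r ^ a := sum_le_sum fun a _ => by
      rw [← pow_mul]
      exact pow_le_of_le_one (by positivity) (pow_le_one₀ (by linarith) h1.le) (by omega)
    have := mul_le_mul_of_nonneg_left this (by positivity : 0 ≤ s⁻¹ * π)
    simp only [intervalIntegral.integral_const, sub_zero, smul_eq_mul, div_eq_inv_mul]
    linarith
  have c := sum_le_card_nsmul _ _ _ b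
  simp only [card_range, nsmul_eq_mul, intervalIntegral.integral_const, sub_zero, smul_eq_mul,
    mul_one, pow_one] at c this
  have d : 0 ≤ (C * K) ^ (2 / k : ℝ) * 8 * log ((1 - r + π) / (1 - r)) :=
    mul_nonneg (by positivity) (log_nonneg ((one_le_div (by linarith)).mpr (by linarith [pi_pos])))
  simp only [← pow_mul, mul_comm 2] at this c ⊢
  refine le_of_mul_le_mul_left (this.trans ?_) pi_pos
  nlinarith [mul_le_mul_of_nonneg_left c hC.le, pi_gt_three]

lemma abel (c : ℕ → ℝ) (hc : ∀ n, 0 ≤ c n) (n₀ : ℕ) (h : ∀ n, n₀ ≤ n → c n ≤ c (n + 1)) (z : ℂ)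
    (h1 : ‖z‖ ≤ 1) (N : ℕ) : ‖(1 - z) * ∑ n ∈ range (N + 1), c n * z ^ n + c N * z ^ (N + 1)‖ ≤
      (1 - ‖z‖) * ∑ n ∈ range (N + 1), c n * ‖z‖ ^ n + c N * ‖z‖ ^ (N + 1) +
        2 * ∑ n ∈ range (min N n₀), c n := by
  induction N with
  | zero =>
    have : (1 - z) * (c 0 : ℂ) + c 0 * z = c 0 := by ring
    simp [this, abs_of_nonneg (hc 0)]
    linarith
  | succ N ih =>
    have e : (1 - z) * ∑ n ∈ range (N + 1 + 1), c n * z ^ n + c (N + 1) * z ^ (N + 1 + 1) =
        ((1 - z) * ∑ n ∈ range (N + 1), c n * z ^ n + c N * z ^ (N + 1)) +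
          (c (N + 1) - c N : ℝ) * z ^ (N + 1) := by
      rw [sum_range_succ]; push_cast; ring
    rw [e, sum_range_succ _ (N + 1)]
    refine (norm_add_le _ _).trans ?_
    rw [norm_mul, norm_pow, Complex.norm_real, norm_eq_abs]
    rcases le_or_gt n₀ N with h2 | h2
    · rw [min_eq_right h2] at ih
      rw [min_eq_right (by omega), abs_of_nonneg (sub_nonneg.mpr (h N h2))]
      linarith [pow_succ ‖z‖ (N + 1), congrArg (c (N + 1) * ·) (pow_succ ‖z‖ (N + 1))]
    · rw [min_eq_left h2.le] at ih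
      rw [min_eq_left (by omega), sum_range_succ c]
      have a : |c (N + 1) - c N| ≤ c (N + 1) - c N + 2 * c N := by
        rw [abs_le]; constructor <;> linarith [hc N, hc (N + 1)]
      have b := mul_le_mul_of_nonneg_right a (by positivity : 0 ≤ ‖z‖ ^ (N + 1))
      have d := mul_le_of_le_one_right (hc N) (pow_le_one₀ (n := N + 1) (norm_nonneg z) h1)
      linarith [congrArg (c (N + 1) * ·) (pow_succ ‖z‖ (N + 1))]

end Pool.Agent.H53.RepB
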