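import Mathlib
import Pool.Agent.H53.RepB

namespace Pool.Agent.H53.RepC

open Finset Filter Topology Real Pool.Agent.H53.RepA Pool.Agent.H53.RepB

open Classical in
/-- elements of `A` up to `N` -/
noncomputable def BB (A : Set ℕ) (N : ℕ) : Finset ℕ := (range (N + 1)).filter (· ∈ A)

lemma mem_BB {A : Set ℕ} {N a : ℕ} : a ∈ BB A N ↔ a ≤ N ∧ a ∈ A := by
  simp [BB, Nat.lt_succ_iff]

lemma card_BB (A : Set ℕ) (N : ℕ) : (BB A N).card ≤ N + 1 := by
  classical
  exact (card_filter_le _ _).trans (card_range _).le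

lemma geo1 {r : ℝ} (h0 : 0 ≤ r) (h1 : r < 1) (s : Finset ℕ) : ∑ n ∈ s, r ^ n ≤ (1 - r)⁻¹ :=
  sum_le_hasSum s (fun _ _ => by positivity) (hasSum_geometric_of_lt_one h0 h1)

lemma geo2 {r : ℝ} (h0 : 0 ≤ r) (h1 : r < 1) (s : Finset ℕ) :
    ∑ n ∈ s, (n + 1) * r ^ n ≤ ((1 - r) ^ 2)⁻¹ := by
  have := sum_le_hasSum s (fun _ _ => by positivity) ((hasSum_coe_mul_geometric_of_norm_lt_one
    (r := r) (by rwa [norm_of_nonneg h0])).add (hasSum_geometric_of_lt_one h0 h1))
  simp only [add_mul, one_mul]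
  refine this.trans_eq ?_
  have : 1 - r ≠ 0 := by linarith
  field_simp; ring

lemma abel2 (A : Set ℕ) (r : ℝ) (N : ℕ) : ∑ a ∈ BB A N, r ^ a =
    (1 - r) * ∑ n ∈ range (N + 1), (BB A n).card * r ^ n + (BB A N).card * r ^ (N + 1) := by
  classical
  induction N with
  | zero => by_cases h : 0 ∈ A <;> simp [BB, h, filter_singleton]
  | succ N ih =>
    rw [sum_range_succ _ (N + 1)]
    by_cases h : N + 1 ∈ A
    · have : BB A (N + 1) = insert (N + 1) (BB A N) := by
        rw [BB, range_add_one, filter_insert, if_pos h, BB]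
      have h2 : N + 1 ∉ BB A N := by simp [mem_BB]
      rw [this, sum_insert h2, card_insert_of_notMem h2, ih]
      push_cast; ring
    · have : BB A (N + 1) = BB A N := by rw [BB, range_add_one, filter_insert, if_neg h, BB]
      rw [this, ih]; ring

lemma F_le (A : Set ℕ) {β D r : ℝ} (h0 : 0 ≤ β) (h1 : β ≤ 1) (hD : 0 ≤ D)
    (h : ∀ n : ℕ, ((BB A n).card : ℝ) ≤ D * (n + 1) ^ β) (r0 : 0 ≤ r) (r1 : r < 1) (N : ℕ)
    (hN : (N + 1) * r ^ (N + 1) ≤ 1) : ∑ a ∈ BB A N, r ^ a ≤ (2 * D + 1) * (1 - r) ^ (-β) := by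
  have d0 : 0 < 1 - r := by linarith
  have a : ∀ n : ℕ, ((n : ℝ) + 1) ^ β ≤ (1 - r) ^ (-β) * (1 + (1 - r) * (n + 1)) := by
    intro n
    rw [rpow_neg d0.le, ← div_eq_inv_mul, le_div_iff₀ (by positivity), ← mul_rpow (by positivity) d0.le,
      mul_comm]
    rcases le_total ((1 - r) * (n + 1)) 1 with h | h
    · exact (rpow_le_one (by positivity) h h0).trans (le_add_of_nonneg_right (by positivity))
    · exact ((rpow_le_rpow_of_exponent_le h h1).trans_eq (rpow_one _)).trans (by linarith)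
  have b : ∑ n ∈ range (N + 1), (BB A n).card * r ^ n ≤ ∑ n ∈ range (N + 1),
      D * (1 - r) ^ (-β) * (r ^ n + (1 - r) * ((n + 1) * r ^ n)) := sum_le_sum fun n _ =>
    (mul_le_mul_of_nonneg_right ((h n).trans (mul_le_mul_of_nonneg_left (a n) hD))
      (by positivity)).trans_eq (by ring)
  rw [← mul_sum, sum_add_distrib, ← mul_sum] at b
  have c := b.trans (mul_le_mul_of_nonneg_left (add_le_add (geo1 r0 r1 _)
    (mul_le_mul_of_nonneg_left (geo2 r0 r1 _) d0.le)) (by positivity))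
  have d : (1 - r) * (D * (1 - r) ^ (-β) * ((1 - r)⁻¹ + (1 - r) * ((1 - r) ^ 2)⁻¹)) =
      2 * D * (1 - r) ^ (-β) := by field_simp; ring
  have e : ((BB A N).card : ℝ) ≤ N + 1 := by exact_mod_cast card_BB A N
  have f : 1 ≤ (1 - r) ^ (-β) := one_le_rpow_of_pos_of_le_one_of_nonpos d0 (by linarith) (by linarith)
  rw [abel2]
  nlinarith [mul_le_mul_of_nonneg_left c d0.le, mul_le_mul_of_nonneg_right e
    (by positivity : 0 ≤ r ^ (N + 1))]

lemma split {S : Type*} [CommSemiring S] (R : ℕ → ℕ → Prop) (k N : ℕ) (B : Finset ℕ) (c : ℕ → ℕ)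
    (hc : ∀ n ≤ N, c n = ((tup R k B).filter (∑ j, · j = n)).card) (z : S) :
    ∑ a ∈ tup R k B, z ^ (∑ j, a j) = ∑ n ∈ range (N + 1), c n * z ^ n +
      ∑ a ∈ (tup R k B).filter (¬ ∑ j, · j ≤ N), z ^ (∑ j, a j) := by
  rw [← sum_filter_add_sum_filter_not _ (∑ j, · j ≤ N)]
  congr 1
  rw [← sum_fiberwise_of_maps_to (s := (tup R k B).filter (∑ j, · j ≤ N)) (t := range (N + 1))
    (g := fun a => ∑ j, a j) fun a ha => mem_range.mpr (Nat.lt_succ_of_le (mem_filter.mp ha).2)]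
  refine sum_congr rfl fun n hn => ?_
  have hn := Nat.le_of_lt_succ (mem_range.mp hn)
  rw [hc n hn, filter_filter, sum_congr rfl fun a ha => by rw [(mem_filter.mp ha).2.2], sum_const,
    nsmul_eq_mul]
  congr 3
  exact filter_congr fun a _ => ⟨fun h => h.2, fun h => ⟨h ▸ hn, h⟩⟩

lemma main (R : ℕ → ℕ → Prop) (k : ℕ) (hk : 2 ≤ k) (hkey : Key R k) (hR : ∀ x y, x < y → R x y)
    (A : Set ℕ) (hA : A.Infinite) (c : ℕ → ℕ)
    (hc : ∀ N, ∀ n ≤ N, c n = ((tup R k (BB A N)).filter (∑ j, · j = n)).card)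
    (n₀ : ℕ) (hm : ∀ n, n₀ ≤ n → c n ≤ c (n + 1)) (β D : ℝ) (h0 : 0 ≤ β) (h1 : β < 2 / k)
    (hD : 0 ≤ D) (h : ∀ n : ℕ, ((BB A n).card : ℝ) ≤ D * (n + 1) ^ β) : False := by
  classical
  have hk' : (2 : ℝ) ≤ k := by exact_mod_cast hk
  have hb : (2 : ℝ) / k ≤ 1 := (div_le_one (by positivity)).mpr hk'
  obtain ⟨n₁, hn⟩ : ∃ n₁, ∀ n, n₁ ≤ n → 1 ≤ c n := by
    obtain ⟨t, t1, t2⟩ := (hA.diff (Set.finite_Iio n₀)).exists_subset_card_eq k
    let a : Fin k → ℕ := t.orderEmbOfFin t2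
    have ha : ∀ i, a i ∈ A \ Set.Iio n₀ := fun i => t1 (t.orderEmbOfFin_mem t2 i)
    have hs : ∀ i, a i ≤ ∑ j, a j := fun i => single_le_sum (fun _ _ => Nat.zero_le _) (mem_univ i)
    have h2 : n₀ ≤ ∑ j, a j := (not_lt.mp (ha ⟨0, by omega⟩).2).trans (hs _)
    refine ⟨∑ j, a j, fun n hn => ?_⟩
    induction n, hn using Nat.le_induction with
    | base =>
      rw [hc _ _ le_rfl]
      exact card_pos.mpr ⟨a, mem_filter.mpr ⟨mem_tup.mpr ⟨fun i => mem_BB.mpr ⟨hs i, (ha i).1⟩,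
        fun i j h => hR _ _ ((t.orderEmbOfFin t2).strictMono h)⟩, rfl⟩⟩
    | succ n hn ih => exact ih.trans (hm n (h2.trans hn))
  obtain ⟨C, hC, hK⟩ := hkey
  obtain ⟨κ, hκ⟩ : ∃ κ : ℝ, κ = (1 / 2) ^ (n₁ + 1) := ⟨_, rfl⟩
  have k0 : 0 < κ := by rw [hκ]; positivity
  have k1 : κ ≤ 1 := hκ ▸ pow_le_one₀ (by norm_num) (by norm_num)
  obtain ⟨C₁, hC₁⟩ : ∃ C₁ : ℝ, C₁ = 1 + (4 + 2 * ∑ n ∈ range n₀, (c n : ℝ)) / κ := ⟨_, rfl⟩
  have c1 : 0 < C₁ := by rw [hC₁]; positivity
  obtain ⟨η, hη⟩ : ∃ η, η = (2 / k - β) / 2 := ⟨_, rfl⟩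
  have e0 : 0 < η := by linarith
  obtain ⟨C₂, hC₂⟩ : ∃ C₂ : ℝ, C₂ = (C * C₁) ^ (2 / k : ℝ) * (2 * D + 1) * 8 * 5 ^ η / η := ⟨_, rfl⟩
  have c2 : 0 < C₂ := by rw [hC₂]; positivity
  obtain ⟨L, hL⟩ : ∃ L : ℝ, L = 16 * (C * (1 + k * (16 * C * k))) := ⟨_, rfl⟩
  have l0 : 0 < L := by rw [hL]; positivity
  obtain ⟨δ, d0, d1, d2, d3⟩ : ∃ δ : ℝ, 0 < δ ∧ δ ≤ 1 / 2 ∧ δ ≤ (8 * C₂)⁻¹ ^ η⁻¹ ∧ δ ≤ κ / L ^ k :=
    ⟨min (1 / 2) (min ((8 * C₂)⁻¹ ^ η⁻¹) (κ / L ^ k)), by positivity, min_le_left _ _,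
      (min_le_right _ _).trans (min_le_left _ _), (min_le_right _ _).trans (min_le_right _ _)⟩
  have step : ∀ r, 1 - δ ≤ r → r < 1 → ∀ᶠ N in atTop,
      ∑ a ∈ BB A N, (r ^ 2) ^ a ≤ (∑ a ∈ BB A N, r ^ a) / 4 := by
    intro r r0 r1
    have r2 : 1 / 2 ≤ r := by linarith
    have r3 : 0 < r := by linarith
    have r4 : 0 < 1 - r := by linarith
    have t := (tendsto_add_atTop_iff_nat 1).mpr
      (tendsto_pow_const_mul_const_pow_of_abs_lt_one k (r := r) (by rwa [abs_of_pos r3]))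
    filter_upwards [t.eventually_le_const k0, eventually_ge_atTop n₁] with N hN hN1
    push_cast at hN
    set B := BB A N
    set F := ∑ a ∈ B, r ^ a with hF
    have F0 : 0 ≤ F := by positivity
    have p1 : (N + 1 : ℝ) ≤ (N + 1) ^ k := le_self_pow₀ (by linarith [(Nat.cast_nonneg N : (0 : ℝ) ≤ N)])
      (by omega)
    have p2 : (N + 1) * r ^ (N + 1) ≤ κ := (mul_le_mul_of_nonneg_right p1 (by positivity)).trans hN
    have p3 : r ^ (N + 1) ≤ κ := le_trans (le_mul_of_one_le_left (by positivity)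
      (by linarith [(Nat.cast_nonneg N : (0 : ℝ) ≤ N)])) p2
    have q0 : ∀ s ⊆ tup R k B, (s.card : ℝ) ≤ (N + 1) ^ k := by
      intro s hs
      have := (card_le_card (hs.trans (filter_subset _ _))).trans_eq (Fintype.card_piFinset _)
      simp only [prod_const, card_univ, Fintype.card_fin] at this
      exact_mod_cast this.trans (Nat.pow_le_pow_left (card_BB A N) k)
    have q1 : ∑ n ∈ range (N + 1), c n * r ^ n ≤ F ^ k := by
      refine (le_add_of_nonneg_right (by positivity)).trans ((split R k N B c (hc N) r).symm.trans_le ?_)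
      rw [hF, sum_pow']
      simp only [prod_pow_eq_pow_sum]
      exact sum_le_sum_of_subset_of_nonneg (filter_subset _ _) fun _ _ _ => by positivity
    have q2 : κ ≤ (1 - r) * F ^ k := by
      have a : ∑ n ∈ Ico n₁ (N + 1), r ^ n ≤ ∑ n ∈ range (N + 1), c n * r ^ n := by
        refine (sum_le_sum fun n hn' => ?_).trans (sum_le_sum_of_subset_of_nonneg
          (fun n hn' => mem_range.mpr (mem_Ico.mp hn').2) fun _ _ _ => by positivity)
        exact le_mul_of_one_le_left (by positivity) (by exact_mod_cast hn n (mem_Ico.mp hn').1)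
      have b := geom_sum_Ico_mul_neg r (m := n₁) (n := N + 1) (by omega)
      have d : (1 / 2) ^ n₁ ≤ r ^ n₁ := pow_le_pow_left₀ (by norm_num) r2 _
      rw [pow_succ] at hκ
      nlinarith [mul_le_mul_of_nonneg_left (a.trans q1) r4.le]
    have q3 := avg hk hC B (hK B) r2 r1 (s := 16 * C * k) (K := C₁ * ((1 - r) * F ^ k))
      (by positivity) (by positivity) (by
      intro z hz
      have a := abel (fun n => c n) (fun _ => by positivity) n₀ (fun n hn => by exact_mod_cast hm n hn)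
        z (by linarith) N
      have b : ‖∑ a ∈ (tup R k B).filter (¬ ∑ j, · j ≤ N), z ^ (∑ j, a j)‖ ≤ κ := by
        refine (norm_sum_le _ _).trans ((sum_le_card_nsmul _ _ (r ^ (N + 1)) fun a ha => ?_).trans ?_)
        · rw [norm_pow, hz]
          exact pow_le_pow_of_le_one r3.le r1.le (not_le.mp (mem_filter.mp ha).2)
        · rw [nsmul_eq_mul]
          exact (mul_le_mul_of_nonneg_right (q0 _ (filter_subset _ _)) (by positivity)).trans hN
      have d : c N * r ^ (N + 1) ≤ κ := by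
        rw [hc N N le_rfl]
        exact (mul_le_mul_of_nonneg_right (q0 _ (filter_subset _ _)) (by positivity)).trans hN
      have e : ‖1 - z‖ ≤ 2 := (norm_sub_le _ _).trans (by rw [hz, norm_one]; linarith)
      have f : ∑ n ∈ range (min N n₀), (c n : ℝ) ≤ ∑ n ∈ range n₀, (c n : ℝ) :=
        sum_le_sum_of_subset_of_nonneg (range_subset_range.mpr (min_le_right _ _))
          fun _ _ _ => by positivity
      have g := norm_sub_le ((1 - z) * ∑ n ∈ range (N + 1), c n * z ^ n + c N * z ^ (N + 1))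
        (c N * z ^ (N + 1))
      simp only [Complex.ofReal_natCast, hz] at a
      rw [add_sub_cancel_right, norm_mul (c N : ℂ), norm_pow, hz, Complex.norm_natCast] at g
      rw [← norm_mul, T, split R k N B c (hc N) z, mul_add]
      refine (norm_add_le _ _).trans ?_
      rw [norm_mul _ (∑ a ∈ filter _ _, _)]
      have i := mul_le_mul e b (norm_nonneg _) zero_le_two
      have j := mul_le_mul_of_nonneg_left q1 r4.le
      have l : 4 + 2 * ∑ n ∈ range n₀, (c n : ℝ) ≤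
          (4 + 2 * ∑ n ∈ range n₀, (c n : ℝ)) / κ * ((1 - r) * F ^ k) := by
        rw [div_mul_eq_mul_div, le_div_iff₀ k0]
        exact mul_le_mul_of_nonneg_left q2 (by positivity)
      rw [hC₁]
      linarith)
    have q4 := F_le A h0 (by linarith) hD h r3.le r1 N (p2.trans k1)
    have q5 : L ≤ F := by
      refine le_of_pow_le_pow_left₀ (n := k) (by omega) F0 ?_
      rw [le_div_iff₀ (by positivity)] at d3
      refine le_of_mul_le_mul_left (le_trans ?_ (d3.trans q2)) r4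
      exact mul_le_mul_of_nonneg_right (by linarith) (by positivity)
    have q6 : log ((1 - r + π) / (1 - r)) ≤ 5 ^ η * (1 - r) ^ (-η) / η := by
      refine (log_le_log (by positivity) (div_le_div_of_nonneg_right
        (by linarith [pi_lt_four] : 1 - r + π ≤ 5) r4.le)).trans
        ((log_le_rpow_div (by positivity) e0).trans_eq ?_)
      rw [div_rpow (by norm_num) r4.le, rpow_neg r4.le, div_eq_mul_inv ((5 : ℝ) ^ η)]
    have q7 : (C * (C₁ * ((1 - r) * F ^ k))) ^ (2 / k : ℝ) =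
        (C * C₁) ^ (2 / k : ℝ) * (1 - r) ^ (2 / k : ℝ) * (F * F) := by
      rw [← mul_assoc, mul_rpow (by positivity) (by positivity), mul_rpow r4.le (by positivity),
        ← rpow_natCast_mul F0, mul_div_cancel₀ _ (by positivity), rpow_two]
      ring
    have q8 : (1 - r) ^ η ≤ (8 * C₂)⁻¹ := by
      have := rpow_le_rpow r4.le (le_trans (by linarith) d2) e0.le
      rwa [rpow_inv_rpow (by positivity) e0.ne'] at this
    have q9 : (1 - r) ^ (2 / k : ℝ) * (1 - r) ^ (-β) * (1 - r) ^ (-η) = (1 - r) ^ η := by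
      rw [← rpow_add r4, ← rpow_add r4]; congr 1; linarith
    have q10 : (C * (C₁ * ((1 - r) * F ^ k))) ^ (2 / k : ℝ) * 8 * log ((1 - r + π) / (1 - r)) ≤
        F / 8 := by
      rw [q7]
      refine (mul_le_mul (mul_le_mul_of_nonneg_right (mul_le_mul_of_nonneg_left
        (mul_le_mul_of_nonneg_left q4 F0) (by positivity)) (by norm_num)) q6
        (log_nonneg ((one_le_div r4).mpr (by linarith [pi_pos]))) (by positivity)).trans ?_
      calc _ = F * C₂ * ((1 - r) ^ (2 / k : ℝ) * (1 - r) ^ (-β) * (1 - r) ^ (-η)) := by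
            rw [hC₂]; ring
        _ ≤ F * C₂ * (8 * C₂)⁻¹ := by rw [q9]; exact mul_le_mul_of_nonneg_left q8 (by positivity)
        _ = F / 8 := by field_simp
    have q11 : C * (1 + k * (F / (16 * C * k) + 16 * C * k)) = F / 16 + L / 16 := by
      rw [hL]; field_simp; ring
    linarith
  have iter : ∀ m : ℕ, ∀ r, 1 - δ ≤ r → r < 1 → ∀ᶠ N in atTop,
      ∑ a ∈ BB A N, r ^ a ≤ (1 / 2) ^ m / (1 - r) := by
    intro m
    induction m with
    | zero => exact fun r r0 r1 => .of_forall fun N => by simpa using geo1 (by linarith) r1 _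
    | succ m ih =>
      intro r r0 r1
      have s0 : √r ^ 2 = r := sq_sqrt (by linarith)
      have s1 : √r < 1 := (sqrt_lt' one_pos).mpr (by linarith)
      have s2 : r ≤ √r := by nlinarith [sqrt_nonneg r]
      filter_upwards [ih √r (by linarith) s1, step √r (by linarith) s1] with N a b
      rw [s0] at b
      refine b.trans ((div_le_div_of_nonneg_right a (by norm_num)).trans ?_)
      rw [div_div, pow_succ, div_le_div_iff₀ (by linarith) (by linarith), mul_assoc]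
      exact mul_le_mul_of_nonneg_left (by nlinarith) (by positivity)
  obtain ⟨a, ha⟩ := hA.nonempty
  obtain ⟨m, hm⟩ := exists_pow_lt_of_lt_one (x := (1 - δ) ^ a * δ) (y := 1 / 2)
    (mul_pos (pow_pos (by linarith) _) d0) (by norm_num)
  obtain ⟨N, a1, a2⟩ := ((iter m (1 - δ) le_rfl (by linarith)).and (eventually_ge_atTop a)).exists
  have := (single_le_sum (f := fun a => (1 - δ) ^ a) (fun _ _ => pow_nonneg (by linarith) _)
    (mem_BB.mpr ⟨a2, ha⟩)).trans a1
  rw [sub_sub_cancel, le_div_iff₀ d0] at this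
  linarith

end Pool.Agent.H53.RepC
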