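import Mathlib

namespace Pool.Agent.H53.SUnit

open Finset

/-- pigeonhole: two distinct `P`-smooth integers of size `≤ exp (B L)` with close logarithms -/
lemma pigeon (P : Finset ℕ) (hP : ∀ p ∈ P, p.Prime) (hs : 2 ≤ P.card) (B : ℕ) (hB : 1 ≤ B) :
    ∃ u w : ℕ, u ≠ w ∧ 0 < u ∧ 0 < w ∧ (∀ q, q.Prime → q ∣ u → q ∈ P) ∧
      (∀ q, q.Prime → q ∣ w → q ∈ P) ∧
      Real.log u ≤ B * ∑ p ∈ P, Real.log p ∧ Real.log w ≤ B * ∑ p ∈ P, Real.log p ∧
      |Real.log u - Real.log w| ≤ (∑ p ∈ P, Real.log p) / (B : ℝ) ^ (P.card - 1) := by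
  classical
  set L : ℝ := ∑ p ∈ P, Real.log p with hL
  set s := P.card with hsdef
  have hLpos : 0 < L := by
    apply Finset.sum_pos
    · intro p hp
      exact Real.log_pos (by exact_mod_cast (hP p hp).one_lt)
    · exact Finset.card_pos.mp (by omega)
  let N : (P → Fin (B + 1)) → ℕ := fun b => ∏ p : P, (p : ℕ) ^ (b p : ℕ)
  have hNpos : ∀ b, 0 < N b := fun b =>
    Finset.prod_pos fun p _ => pow_pos (hP p p.2).pos _
  have hNlog : ∀ b, Real.log (N b) ≤ B * L := by
    intro b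
    have : Real.log (N b) = ∑ p : P, (b p : ℕ) * Real.log (p : ℕ) := by
      simp only [N]
      push_cast
      rw [Real.log_prod]
      · simp
      · intro p _
        exact pow_ne_zero _ (by exact_mod_cast (hP p p.2).pos.ne')
    rw [this, hL, Finset.mul_sum, ← Finset.sum_coe_sort P]
    apply Finset.sum_le_sum
    intro p _
    apply mul_le_mul_of_nonneg_right
    · exact_mod_cast Nat.lt_succ_iff.mp (b p).2
    · exact Real.log_natCast_nonneg _
  have hNsm : ∀ b q, q.Prime → q ∣ N b → q ∈ P := by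
    intro b q hq hd
    obtain ⟨p, _, hp⟩ := (Prime.dvd_finsetProd_iff hq.prime _).mp hd
    have := (Nat.prime_dvd_prime_iff_eq hq (hP p p.2)).mp (hq.dvd_of_dvd_pow hp)
    rw [this]; exact p.2
  have hNinj : Function.Injective N := by
    intro b b' h
    have key : ∀ (c : P → Fin (B + 1)) (q : P), (N c).factorization q = c q := by
      intro c q
      simp only [N]
      rw [Nat.factorization_prod (fun (p : P) _ => pow_ne_zero _ (hP p p.2).pos.ne')]
      rw [Finsupp.finsetSum_apply]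
      rw [Finset.sum_eq_single q]
      · rw [(hP q q.2).factorization_pow]; simp
      · intro p _ hpq
        rw [(hP p p.2).factorization_pow]
        have : (p : ℕ) ≠ q := fun h => hpq (Subtype.ext h)
        simp [this]
      · simp
    funext q
    apply Fin.ext
    rw [← key b q, ← key b' q, h]
  have hBpos : (0 : ℝ) < B := by exact_mod_cast hB
  let f : (P → Fin (B + 1)) → ℕ := fun b => ⌊Real.log (N b) * (B : ℝ) ^ (s - 1) / L⌋₊
  have hf : ∀ b ∈ (univ : Finset (P → Fin (B + 1))), f b ∈ range (B ^ s + 1) := by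
    intro b _
    rw [mem_range, Nat.lt_succ_iff]
    apply Nat.floor_le_of_le
    rw [div_le_iff₀ hLpos]
    have h1 : ((B ^ s : ℕ) : ℝ) = B * (B : ℝ) ^ (s - 1) := by
      push_cast
      rw [← pow_succ']; congr 1; omega
    rw [h1]
    have := mul_le_mul_of_nonneg_right (hNlog b) (pow_pos hBpos (s - 1)).le
    nlinarith
  have hcard : (range (B ^ s + 1)).card < (univ : Finset (P → Fin (B + 1))).card := by
    rw [card_range, card_univ, Fintype.card_fun, Fintype.card_fin, Fintype.card_coe, ← hsdef]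
    obtain ⟨t, ht⟩ : ∃ t, s = t + 2 := ⟨s - 2, by omega⟩
    rw [ht]
    have h1 : B ^ t ≤ (B + 1) ^ t := Nat.pow_le_pow_left (by omega) t
    have h2 : 1 ≤ B ^ t := Nat.one_le_pow _ _ hB
    calc B ^ (t + 2) + 1 = B ^ t * (B * B) + 1 := by ring
      _ < B ^ t * ((B + 1) * (B + 1)) := by nlinarith
      _ ≤ (B + 1) ^ t * ((B + 1) * (B + 1)) := Nat.mul_le_mul_right _ h1
      _ = (B + 1) ^ (t + 2) := by ring
  obtain ⟨b, _, b', _, hne, hfe⟩ := Finset.exists_ne_map_eq_of_card_lt_of_maps_to hcard hf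
  refine ⟨N b, N b', fun h => hne (hNinj h), hNpos b, hNpos b', hNsm b, hNsm b', hNlog b,
    hNlog b', ?_⟩
  have hpw : (0 : ℝ) < (B : ℝ) ^ (s - 1) := pow_pos hBpos _
  have h0 : ∀ c, 0 ≤ Real.log (N c) * (B : ℝ) ^ (s - 1) / L := fun c => by
    have := Real.log_natCast_nonneg (N c)
    positivity
  have ha := Nat.floor_le (h0 b)
  have hb := Nat.lt_floor_add_one (Real.log (N b) * (B : ℝ) ^ (s - 1) / L)
  have ha' := Nat.floor_le (h0 b')
  have hb' := Nat.lt_floor_add_one (Real.log (N b') * (B : ℝ) ^ (s - 1) / L)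
  simp only [f] at hfe
  rw [hfe] at ha hb
  have hd : |Real.log (N b) * (B : ℝ) ^ (s - 1) / L - Real.log (N b') * (B : ℝ) ^ (s - 1) / L| ≤ 1 := by
    rw [abs_le]; constructor <;> linarith
  have he : Real.log (N b) * (B : ℝ) ^ (s - 1) / L - Real.log (N b') * (B : ℝ) ^ (s - 1) / L
      = (Real.log (N b) - Real.log (N b')) * ((B : ℝ) ^ (s - 1) / L) := by ring
  rw [he, abs_mul, abs_of_pos (div_pos hpw hLpos)] at hd
  rw [le_div_iff₀ hpw]
  rw [← mul_div_assoc, div_le_one hLpos] at hd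
  exact hd

/-- the nonarchimedean proximity to `∞` dominates `log den` -/
lemma log_den_le (P : Finset ℕ) (x : ℚ) (hx : ∀ q, q.Prime → q ∣ x.den → q ∈ P) :
    Real.log x.den ≤ ∑ p ∈ P, Real.log (max 1 ((padicNorm p x : ℚ) : ℝ)) := by
  classical
  rw [Real.log_nat_eq_sum_factorization, Finsupp.sum]
  have hsub : x.den.factorization.support ⊆ P := by
    intro q hq
    rw [Nat.support_factorization, Nat.mem_primeFactors] at hq
    exact hx q hq.1 hq.2.1
  refine le_trans ?_ (Finset.sum_le_sum_of_subset_of_nonneg hsub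
    (fun p _ _ => Real.log_nonneg (le_max_left _ _)))
  apply Finset.sum_le_sum
  intro q hq
  rw [Nat.support_factorization, Nat.mem_primeFactors] at hq
  have hqp : q.Prime := hq.1
  have := Fact.mk hqp
  have hx0 : x ≠ 0 := by
    rintro rfl
    have := hq.2.1
    simp at this
    exact hqp.one_lt.ne' this
  have hnum : padicValInt q x.num = 0 := by
    apply padicValInt.eq_zero_of_not_dvd
    intro h
    have h1 : q ∣ x.num.natAbs := Int.natCast_dvd.mp h
    have := Nat.dvd_gcd h1 hq.2.1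
    rw [x.reduced] at this
    exact hqp.one_lt.ne' (Nat.dvd_one.mp this)
  have hn : padicNorm q x = (q : ℚ) ^ (x.den.factorization q) := by
    rw [padicNorm.eq_zpow_of_nonzero hx0, padicValRat, hnum, Nat.factorization_def _ hqp]
    simp
  rw [hn]
  push_cast
  rw [← Real.log_pow]
  apply Real.log_le_log
  · exact pow_pos (by exact_mod_cast hqp.pos) _
  · exact le_max_right _ _


/-- main estimate for a positive `P`-unit `x` -/
lemma prox_ge (P : Finset ℕ) (x : ℚ) (hx : 0 < x)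
    (hd : ∀ q, q.Prime → q ∣ x.den → q ∈ P) (hn : ∀ q, q.Prime → q ∣ x.num.natAbs → q ∈ P) :
    2 * Height.logHeight₁ x ≤
      (Real.log (max 1 |(x : ℝ)|⁻¹) + Real.log (max 1 |(x : ℝ)|)) +
      ∑ p ∈ P, (Real.log (max 1 ((padicNorm p x : ℚ) : ℝ)⁻¹) +
        Real.log (max 1 ((padicNorm p x : ℚ) : ℝ))) := by
  have h1 := log_den_le P x hd
  have hinv : (x⁻¹).den = x.num.natAbs := by
    rw [Rat.den_inv]; simp [hx.ne']
  have h2 := log_den_le P x⁻¹ (by rw [hinv]; exact hn)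
  rw [hinv] at h2
  have h3 : ∀ p ∈ P, ((padicNorm p x⁻¹ : ℚ) : ℝ) = ((padicNorm p x : ℚ) : ℝ)⁻¹ := by
    intro p _
    have : padicNorm p x⁻¹ = (padicNorm p x)⁻¹ := by
      unfold padicNorm
      simp only [inv_eq_zero, hx.ne', if_false]
      unfold padicValRat
      rw [hinv]
      have e1 : (x⁻¹).num = (x.den : ℤ) := by
        rw [Rat.num_inv]; simp [Int.sign_eq_one_of_pos (Rat.num_pos.mpr hx)]
      rw [e1, ← zpow_neg]
      congr 1
      simp [padicValInt]
    rw [this]; push_cast; rfl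
  rw [Finset.sum_congr rfl (fun p hp => by rw [h3 p hp])] at h2
  rw [Finset.sum_add_distrib, Rat.logHeight₁_eq_log_max]
  have hxr : (0 : ℝ) < x := by exact_mod_cast hx
  rw [abs_of_pos hxr]
  have hnum : (0 : ℝ) < (x.num.natAbs : ℕ) := by
    have : x.num ≠ 0 := Rat.num_ne_zero.mpr hx.ne'
    exact_mod_cast Int.natAbs_pos.mpr this
  have hden : (0 : ℝ) < x.den := by exact_mod_cast x.den_pos
  have hxe : (x : ℝ) = (x.num.natAbs : ℕ) / x.den := by
    rw [Nat.cast_natAbs, abs_of_pos (Rat.num_pos.mpr hx)]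
    exact Rat.cast_def x
  have hlog : Real.log x = Real.log (x.num.natAbs : ℕ) - Real.log x.den := by
    rw [hxe, Real.log_div hnum.ne' hden.ne']
  have a1 : Real.log x ≤ Real.log (max 1 (x : ℝ)) := Real.log_le_log hxr (le_max_right _ _)
  have a2 : -Real.log x ≤ Real.log (max 1 (x : ℝ)⁻¹) := by
    rw [← Real.log_inv]; exact Real.log_le_log (inv_pos.mpr hxr) (le_max_right _ _)
  have a3 : 0 ≤ Real.log (max 1 (x : ℝ)) := Real.log_nonneg (le_max_left _ _)
  have a4 : 0 ≤ Real.log (max 1 (x : ℝ)⁻¹) := Real.log_nonneg (le_max_left _ _)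
  rcases le_total x.num.natAbs x.den with h | h
  · rw [max_eq_right h]; linarith
  · rw [max_eq_left h]; linarith

/-- for every `B` a positive `P`-unit `x ≠ 1` of height `≤ B L` very close to `1` -/
lemma exists_unit (P : Finset ℕ) (hP : ∀ p ∈ P, p.Prime) (hs : 2 ≤ P.card) (B : ℕ) (hB : 1 ≤ B)
    (hL : (∑ p ∈ P, Real.log p) / (B : ℝ) ^ (P.card - 1) ≤ 1) :
    ∃ x : ℚ, 0 < x ∧ x ≠ 1 ∧ (∀ q, q.Prime → q ∣ x.den → q ∈ P) ∧
      (∀ q, q.Prime → q ∣ x.num.natAbs → q ∈ P) ∧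
      Height.logHeight₁ x ≤ B * ∑ p ∈ P, Real.log p ∧
      |(x : ℝ) - 1| ≤ 2 * ((∑ p ∈ P, Real.log p) / (B : ℝ) ^ (P.card - 1)) := by
  obtain ⟨u, w, hne, hu, hw, su, sw, lu, lw, hd⟩ := pigeon P hP hs B hB
  have hden : ((u : ℚ) / w).den ∣ w := by
    have := Rat.den_dvd (u : ℤ) (w : ℤ)
    rw [Rat.divInt_eq_div] at this
    push_cast at this
    exact_mod_cast this
  have hnum : ((u : ℚ) / w).num.natAbs ∣ u := by
    have := Rat.num_dvd (u : ℤ) (b := (w : ℤ)) (by exact_mod_cast hw.ne')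
    rw [Rat.divInt_eq_div] at this
    push_cast at this
    exact Int.natAbs_dvd_natAbs.mpr this |>.trans (by simp)
  have hur : (0 : ℝ) < u := by exact_mod_cast hu
  have hwr : (0 : ℝ) < w := by exact_mod_cast hw
  have hxpos : (0 : ℚ) < (u : ℚ) / w := by positivity
  refine ⟨(u : ℚ) / w, hxpos, ?_, fun q hq h => sw q hq (h.trans hden),
    fun q hq h => su q hq (h.trans hnum), ?_, ?_⟩
  · intro h
    rw [div_eq_one_iff_eq (by exact_mod_cast hw.ne')] at h
    exact hne (by exact_mod_cast h)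
  · rw [Rat.logHeight₁_eq_log_max]
    have h1 := Nat.le_of_dvd hw hden
    have h2 := Nat.le_of_dvd hu hnum
    have hn0 : 0 < ((u : ℚ) / w).num.natAbs :=
      Int.natAbs_pos.mpr (Rat.num_ne_zero.mpr hxpos.ne')
    rcases le_total ((u : ℚ) / w).num.natAbs ((u : ℚ) / w).den with h | h
    · rw [max_eq_right h]
      refine le_trans (Real.log_le_log ?_ ?_) lw
      · exact_mod_cast Rat.den_pos _
      · exact_mod_cast h1
    · rw [max_eq_left h]
      refine le_trans (Real.log_le_log ?_ ?_) lu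
      · exact_mod_cast hn0
      · exact_mod_cast h2
  · have : (((u : ℚ) / w : ℚ) : ℝ) = Real.exp (Real.log u - Real.log w) := by
      rw [Real.exp_sub, Real.exp_log hur, Real.exp_log hwr]; push_cast; rfl
    rw [this]
    refine (Real.abs_exp_sub_one_le (hd.trans hL)).trans ?_
    linarith


/-- for each `K`, `M` a unit with `log (1/|x-1|)` beating `C log⁺ (h + M) + K` -/
lemma exists_good (C : ℝ) (hC : 0 < C) (P : Finset ℕ) (hP : ∀ p ∈ P, p.Prime)
    (hs : C + 2 ≤ P.card) (M K : ℝ) (hM : 0 ≤ M) :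
    ∃ x : ℚ, 0 < x ∧ x ≠ 1 ∧ (∀ q, q.Prime → q ∣ x.den → q ∈ P) ∧
      (∀ q, q.Prime → q ∣ x.num.natAbs → q ∈ P) ∧
      C * Real.log (max 1 (Height.logHeight₁ x + M)) + K ≤ Real.log |(x : ℝ) - 1|⁻¹ := by
  have hs2 : 2 ≤ P.card := by
    have : (2 : ℝ) ≤ P.card := by linarith
    exact_mod_cast this
  set L : ℝ := ∑ p ∈ P, Real.log p with hL
  have hLpos : 0 < L := by
    apply Finset.sum_pos
    · intro p hp
      exact Real.log_pos (by exact_mod_cast (hP p hp).one_lt)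
    · exact Finset.card_pos.mp (by omega)
  obtain ⟨B, hB⟩ := exists_nat_ge (max (max 1 L)
    (Real.exp (K + Real.log (2 * L) + C * Real.log (1 + L + M))))
  have hB1 : (1 : ℝ) ≤ B := le_trans (le_trans (le_max_left _ _) (le_max_left _ _)) hB
  have hBL : L ≤ B := le_trans (le_trans (le_max_right _ _) (le_max_left _ _)) hB
  have hBe : K + Real.log (2 * L) + C * Real.log (1 + L + M) ≤ Real.log B := by
    rw [Real.le_log_iff_exp_le (by linarith)]
    exact le_trans (le_max_right _ _) hB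
  have hpw : (B : ℝ) ≤ (B : ℝ) ^ (P.card - 1) := le_self_pow₀ hB1 (by omega)
  have hpwpos : (0 : ℝ) < (B : ℝ) ^ (P.card - 1) := by positivity
  obtain ⟨x, hx, hx1, hd, hn, hh, hc⟩ := exists_unit P hP hs2 B (by exact_mod_cast hB1)
    (by rw [div_le_one hpwpos]; linarith)
  refine ⟨x, hx, hx1, hd, hn, ?_⟩
  have hpos : 0 < |(x : ℝ) - 1| := by
    rw [abs_pos, sub_ne_zero]; exact_mod_cast hx1
  have hlogB : 0 ≤ Real.log B := Real.log_nonneg hB1
  have e1 : Real.log |(x : ℝ) - 1| ≤ Real.log (2 * L) - (P.card - 1 : ℕ) * Real.log B := by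
    rw [← Real.log_pow, ← Real.log_div (by positivity) hpwpos.ne']
    apply Real.log_le_log hpos
    rw [mul_div_assoc]; exact hc
  have e2 : Real.log (max 1 (Height.logHeight₁ x + M)) ≤ Real.log B + Real.log (1 + L + M) := by
    rw [← Real.log_mul (by positivity) (by positivity)]
    apply Real.log_le_log (lt_of_lt_of_le one_pos (le_max_left _ _))
    rw [← hL] at hh
    apply max_le <;> nlinarith
  have e3 : ((P.card - 1 : ℕ) : ℝ) = P.card - 1 := by
    rw [Nat.cast_sub (by omega)]; simp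
  rw [Real.log_inv]
  rw [e3] at e1
  have e4 := mul_le_mul_of_nonneg_left e2 hC.le
  nlinarith

lemma exists_primes (n : ℕ) : ∃ P : Finset ℕ, (∀ p ∈ P, p.Prime) ∧ P.card = n := by
  obtain ⟨P, hP, hc⟩ := Nat.infinite_setOfPred_prime.exists_subset_card_eq n
  exact ⟨P, fun p hp => hP hp, hc⟩

theorem main (C : ℝ) (hC : 0 < C) : ∃ P : Finset ℕ, (∀ p ∈ P, p.Prime) ∧
    ∀ (M : ℝ) (hK hA m : ℚ → ℝ),
      (∀ x, |hK x - (-2) * Height.logHeight₁ x| ≤ M) →
      (∀ x, |hA x - Height.logHeight₁ x| ≤ M) →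
      (∀ x, x ≠ 0 → x ≠ 1 → |m x -
        ((Real.log (max 1 |(x : ℝ)|⁻¹) + Real.log (max 1 |((x - 1 : ℚ) : ℝ)|⁻¹) +
            Real.log (max 1 |(x : ℝ)|)) +
          ∑ p ∈ P, (Real.log (max 1 ((padicNorm p x : ℚ) : ℝ)⁻¹) +
            Real.log (max 1 ((padicNorm p (x - 1) : ℚ) : ℝ)⁻¹) +
            Real.log (max 1 ((padicNorm p x : ℚ) : ℝ))))| ≤ M) →
      {x : ℚ | x ≠ 0 ∧ x ≠ 1 ∧ ¬ (hK x + m x < C * Real.log (max 1 (hA x)))}.Infinite := by
  obtain ⟨n, hn⟩ := exists_nat_ge (C + 2)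
  obtain ⟨P, hP, hc⟩ := exists_primes n
  refine ⟨P, hP, fun M hK hA m h1 h2 h3 => ?_⟩
  have hM : 0 ≤ M := le_trans (abs_nonneg _) (h1 0)
  apply Set.Infinite.of_image (fun x : ℚ => Real.log |(x : ℝ) - 1|⁻¹)
  apply Set.infinite_of_not_bddAbove
  rintro ⟨K, hKb⟩
  obtain ⟨x, hx, hx1, hd, hnn, hg⟩ := exists_good C hC P hP (by rw [hc]; exact hn) M
    (2 * M + |K| + 1) hM
  have hlp : 0 ≤ C * Real.log (max 1 (Height.logHeight₁ x + M)) :=
    mul_nonneg hC.le (Real.log_nonneg (le_max_left _ _))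
  have hmem : x ∈ {x : ℚ | x ≠ 0 ∧ x ≠ 1 ∧ ¬ (hK x + m x < C * Real.log (max 1 (hA x)))} := by
    refine ⟨hx.ne', hx1, not_lt.mpr ?_⟩
    have a1 := abs_le.mp (h1 x)
    have a2 := abs_le.mp (h2 x)
    have a3 := abs_le.mp (h3 x hx.ne' hx1)
    have a4 := prox_ge P x hx hd hnn
    have a5 : ∑ p ∈ P, (Real.log (max 1 ((padicNorm p x : ℚ) : ℝ)⁻¹) +
        Real.log (max 1 ((padicNorm p x : ℚ) : ℝ))) ≤
        ∑ p ∈ P, (Real.log (max 1 ((padicNorm p x : ℚ) : ℝ)⁻¹) +
            Real.log (max 1 ((padicNorm p (x - 1) : ℚ) : ℝ)⁻¹) +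
            Real.log (max 1 ((padicNorm p x : ℚ) : ℝ))) := by
      apply Finset.sum_le_sum
      intro p _
      have := Real.log_nonneg (le_max_left 1 ((padicNorm p (x - 1) : ℚ) : ℝ)⁻¹)
      linarith
    have a6 : Real.log |(x : ℝ) - 1|⁻¹ ≤ Real.log (max 1 |((x - 1 : ℚ) : ℝ)|⁻¹) := by
      have hpos : 0 < |(x : ℝ) - 1| := by
        rw [abs_pos, sub_ne_zero]; exact_mod_cast hx1
      push_cast
      exact Real.log_le_log (inv_pos.mpr hpos) (le_max_right _ _)
    have a7 : Real.log (max 1 (hA x)) ≤ Real.log (max 1 (Height.logHeight₁ x + M)) := by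
      apply Real.log_le_log (lt_of_lt_of_le one_pos (le_max_left _ _))
      exact max_le_max le_rfl (by linarith [a2.2])
    have a8 := mul_le_mul_of_nonneg_left a7 hC.le
    have a9 := abs_nonneg K
    linarith [a1.1, a3.1]
  have := hKb (Set.mem_image_of_mem _ hmem)
  have a10 := le_abs_self K
  linarith

end Pool.Agent.H53.SUnit
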