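import Mathlib
import Pool.Agent.H53.Kara

namespace Pool.Agent.H53.Sig2

open Finset Pool.Agent.H53.Kara

/-- the pair (product, product times sum of reciprocals) for the greedy sequence -/
def PA : ℕ → ℕ × ℕ
  | 0 => (1, 0)
  | k + 1 => ((PA k).1 * (1 + (PA k).2), (1 + (PA k).2) * (PA k).2 + (PA k).1)

/-- the greedy sequence `1, 2, 4, 15, …` indexed from `0` -/
def V (k : ℕ) : ℕ := 1 + (PA k).2

/-- reciprocals -/
noncomputable def r (x : ℕ → ℕ) : ℕ → ℝ := fun i => 1 / (x i : ℝ)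

lemma V_pos (k : ℕ) : 0 < V k := by unfold V; omega

lemma P_eq (k : ℕ) : (PA k).1 = ∏ i ∈ Ico 0 k, V i := by
  induction k with
  | zero => rfl
  | succ k ih => rw [prod_Ico_succ_top (Nat.zero_le k), ← ih]; rfl

lemma P_pos (k : ℕ) : 0 < (PA k).1 := by rw [P_eq]; exact prod_pos fun i _ => V_pos i

lemma Q_succ (f : ℕ → ℝ) (k : ℕ) :
    Q f 0 (k + 1) = Q f 0 k + 2 * (∑ i ∈ Ico 0 k, f i) * f k := by
  unfold Q
  rw [sum_Ico_succ_top (Nat.zero_le k), sum_Ico_succ_top (Nat.zero_le k)]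
  ring

lemma EQ (k : ℕ) : ∑ i ∈ Ico 0 k, r V i = (PA k).2 / (PA k).1 ∧
    Q (r V) 0 k = 2 - 2 / (PA k).1 := by
  induction k with
  | zero => simp [PA, Q]
  | succ k ih =>
    have hP : (0 : ℝ) < (PA k).1 := by exact_mod_cast P_pos k
    rw [Q_succ, sum_Ico_succ_top (Nat.zero_le k), ih.1, ih.2]
    simp only [PA, r, V]
    push_cast
    constructor <;> field_simp <;> ring

lemma int (x : ℕ → ℕ) (hx : ∀ i, 0 < x i) (k : ℕ) : ∃ a b : ℕ,
    (∑ i ∈ Ico 0 k, r x i) * (∏ i ∈ Ico 0 k, x i : ℕ) = a ∧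
    Q (r x) 0 k * (∏ i ∈ Ico 0 k, x i : ℕ) = 2 * b := by
  induction k with
  | zero => exact ⟨0, 0, by simp, by simp [Q]⟩
  | succ k ih =>
    obtain ⟨a, b, h1, h2⟩ := ih
    have hk : r x k * x k = 1 := by
      have : (x k : ℝ) ≠ 0 := by exact_mod_cast (hx k).ne'
      simp [r, this]
    refine ⟨a * x k + ∏ i ∈ Ico 0 k, x i, b * x k + a, ?_, ?_⟩
    · rw [sum_Ico_succ_top (Nat.zero_le k), prod_Ico_succ_top (Nat.zero_le k)]
      rw [Nat.cast_mul, Nat.cast_add, Nat.cast_mul]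
      linear_combination (x k : ℝ) * h1 + ((∏ i ∈ Ico 0 k, x i : ℕ) : ℝ) * hk
    · rw [Q_succ, prod_Ico_succ_top (Nat.zero_le k)]
      rw [Nat.cast_mul, Nat.cast_add, Nat.cast_mul]
      linear_combination (x k : ℝ) * h2 + 2 * h1 +
        2 * (∑ i ∈ Ico 0 k, r x i) * ((∏ i ∈ Ico 0 k, x i : ℕ) : ℝ) * hk

lemma r_pos (x : ℕ → ℕ) (hx : ∀ i, 0 < x i) (i : ℕ) : 0 < r x i := by
  have : (0 : ℝ) < x i := by exact_mod_cast hx i
  simp only [r]; positivity

lemma growth (j : ℕ) (hj : 2 ≤ j) : (PA j).1 + 1 ≤ (PA j).2 := by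
  induction j, hj using Nat.le_induction with
  | base => decide
  | succ j hj ih =>
    simp only [PA]
    nlinarith [P_pos j]

lemma tail_ge (f : ℕ → ℝ) (hf : ∀ i, 0 < f i) (j m k : ℕ) (h : j ≤ m) (h2 : m ≤ k) :
    ∑ i ∈ Ico j m, f i ≤ ∑ i ∈ Ico j k, f i :=
  sum_le_sum_of_subset_of_nonneg (Ico_subset_Ico_right h2) fun i _ _ => (hf i).le

lemma S_le (x : ℕ → ℕ) (hx : ∀ i, 0 < x i) (k : ℕ) (hm : ∀ i j, i ≤ j → j < k → x i ≤ x j)
    (h2 : Q (r x) 0 k < 2) (hQ : Q (r x) 0 k ≤ Q (r V) 0 k) :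
    ∑ i ∈ Ico 0 k, r x i ≤ ∑ i ∈ Ico 0 k, r V i := by
  classical
  by_cases hex : ∃ j, j < k ∧ x j ≠ V j
  swap
  · push Not at hex
    exact le_of_eq (sum_congr rfl fun i hi => by simp only [r, hex i (mem_Ico.mp hi).2])
  have hj := Nat.find_spec hex
  have hlt : ∀ i < Nat.find hex, x i = V i := fun i hi => by
    have := Nat.find_min hex hi
    push Not at this
    exact this (by omega)
  generalize Nat.find hex = j at hj hlt
  obtain ⟨hjk, hne⟩ := hj
  have e0 : ∀ i ∈ Ico 0 j, r x i = r V i := fun i hi => by simp only [r, hlt i (mem_Ico.mp hi).2]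
  have e1 : ∑ i ∈ Ico 0 j, r x i = ∑ i ∈ Ico 0 j, r V i := sum_congr rfl e0
  have e2 : ∑ i ∈ Ico 0 j, r x i ^ 2 = ∑ i ∈ Ico 0 j, r V i ^ 2 :=
    sum_congr rfl fun i hi => by rw [e0 i hi]
  have e3 : Q (r x) 0 j = Q (r V) 0 j := by unfold Q; rw [e1, e2]
  have hP : (0 : ℝ) < (PA j).1 := by exact_mod_cast P_pos j
  have hA : (0 : ℝ) ≤ (PA j).2 := by positivity
  have f1 := h2
  rw [Q_split _ 0 j k (Nat.zero_le _) hjk.le, e3, e1, (EQ j).1, (EQ j).2] at f1
  have f2 := Q_nonneg (r x) j k fun i => (r_pos x hx i).le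
  set t := ∑ i ∈ Ico j k, r x i with ht
  have f3 : r x j ≤ t := single_le_sum (f := r x) (fun i _ => (r_pos x hx i).le)
    (mem_Ico.mpr ⟨le_rfl, hjk⟩)
  have f4 : (PA j).2 * t + (PA j).1 * Q (r x) j k / 2 < 1 := by
    have : (2 - 2 / ((PA j).1 : ℝ) + 2 * ((PA j).2 / (PA j).1) * t + Q (r x) j k) * (PA j).1 =
        2 * (PA j).1 - 2 + 2 * ((PA j).2 * t + (PA j).1 * Q (r x) j k / 2) := by
      field_simp; ring
    nlinarith [mul_lt_mul_of_pos_right f1 hP]
  have f5 : (PA j).2 + 2 ≤ x j := by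
    have hxj : (0 : ℝ) < x j := by exact_mod_cast hx j
    have : ((PA j).2 : ℝ) * r x j < 1 := by
      nlinarith [mul_le_mul_of_nonneg_left f3 hA, mul_nonneg hP.le f2]
    rw [r, mul_one_div, div_lt_one hxj] at this
    have h3 : (PA j).2 < x j := by exact_mod_cast this
    unfold V at hne
    omega
  have f6 : ∀ i ∈ Ico j k, r x i ≤ 1 / ((PA j).2 + 2) := by
    intro i hi
    apply one_div_le_one_div_of_le (by positivity)
    exact_mod_cast f5.trans (hm j i (mem_Ico.mp hi).1 (mem_Ico.mp hi).2)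
  have f7 : ∑ i ∈ Ico j k, r x i ^ 2 ≤ t * (1 / ((PA j).2 + 2)) := by
    rw [ht, sum_mul]
    refine sum_le_sum fun i hi => ?_
    rw [pow_two]
    exact mul_le_mul_of_nonneg_left (f6 i hi) (r_pos x hx i).le
  have f8 : t ≤ (k - j : ℕ) * (1 / ((PA j).2 + 2) : ℝ) := by
    have := sum_le_card_nsmul _ _ _ f6
    rwa [Nat.card_Ico, nsmul_eq_mul] at this
  have ht0 : 0 ≤ t := (r_pos x hx j).le.trans f3
  have rV := r_pos V V_pos
  rw [← sum_Ico_consecutive (r x) (Nat.zero_le _) hjk.le,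
    ← sum_Ico_consecutive (r V) (Nat.zero_le _) hjk.le, e1, ← ht, add_le_add_iff_left]
  rcases eq_or_lt_of_le (Nat.succ_le_of_lt hjk) with h | h
  · subst h
    rw [show j.succ - j = 1 by omega] at f8
    rw [Nat.Ico_succ_singleton, sum_singleton]
    refine f8.trans ?_
    simp only [r, V]
    push_cast
    rw [one_mul]
    exact one_div_le_one_div_of_le (by positivity) (by linarith)
  rcases Nat.lt_or_ge j 2 with hj2 | hj2
  · unfold Q at f4
    rw [← ht] at f4
    interval_cases j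
    · simp only [PA] at f4 f7 f8
      rcases eq_or_lt_of_le (Nat.succ_le_of_lt h) with h' | h'
      · subst h'
        norm_num [sum_range_succ, r, V, PA] at f8 ⊢
        linarith
      · refine le_trans ?_ (tail_ge _ rV 0 3 k (by norm_num) (by omega))
        norm_num [sum_range_succ, r, V, PA] at f4 f7 ⊢
        nlinarith
    · simp only [PA] at f4 f7 f8
      rcases eq_or_lt_of_le (Nat.succ_le_of_lt h) with h' | h'
      · subst h'
        norm_num [sum_Ico_succ_top, r, V, PA] at f8 ⊢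
        linarith
      · refine le_trans ?_ (tail_ge _ rV 1 4 k (by norm_num) (by omega))
        norm_num [sum_Ico_succ_top, r, V, PA] at f4 f7 ⊢
        nlinarith
  · have g1 : ((PA j).1 : ℝ) + 1 ≤ (PA j).2 := by exact_mod_cast growth j hj2
    set A : ℝ := (((PA j).2 : ℕ) : ℝ) with hAdef
    set P : ℝ := (((PA j).1 : ℕ) : ℝ) with hPdef
    have hA1 : 1 ≤ A := by linarith
    have g2 : ∑ i ∈ Ico j k, r x i ^ 2 ≤ ∑ i ∈ Ico j k, r V i ^ 2 := by
      refine le_trans ?_ (tail_ge (fun i => r V i ^ 2) (fun i => pow_pos (rV i) 2) j (j + 2) k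
        (by omega) (by omega))
      rw [sum_Ico_succ_top (by omega), Nat.Ico_succ_singleton, sum_singleton]
      have a1 : r V j = 1 / (1 + A) := by simp [r, V, hAdef]
      have a2 : 1 / (A * (A + 2)) ≤ r V (j + 1) := by
        simp only [r, V, PA]
        push_cast
        apply one_div_le_one_div_of_le (by positivity)
        rw [← hAdef, ← hPdef]
        nlinarith
      have a3 : t ≤ 1 / A := by
        rw [le_div_iff₀ (by linarith)]
        nlinarith [mul_nonneg hP.le f2]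
      have a4 : (1 / (A * (A + 2))) ^ 2 ≤ r V (j + 1) ^ 2 :=
        pow_le_pow_left₀ (by positivity) a2 2
      have a5 : t * (1 / (A + 2)) ≤ 1 / A * (1 / (A + 2)) :=
        mul_le_mul_of_nonneg_right a3 (by positivity)
      have a6 : 1 / A * (1 / (A + 2)) ≤ (1 / (1 + A)) ^ 2 + (1 / (A * (A + 2))) ^ 2 := by
        rw [← sub_nonneg]
        have : (1 / (1 + A)) ^ 2 + (1 / (A * (A + 2))) ^ 2 - 1 / A * (1 / (A + 2)) =
            1 / ((1 + A) ^ 2 * (A * (A + 2)) ^ 2) := by field_simp; ring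
        rw [this]; positivity
      rw [a1]
      linarith
    unfold Q at hQ
    rw [← sum_Ico_consecutive (r x) (Nat.zero_le _) hjk.le,
      ← sum_Ico_consecutive (r V) (Nat.zero_le _) hjk.le,
      ← sum_Ico_consecutive (fun i => r x i ^ 2) (Nat.zero_le _) hjk.le,
      ← sum_Ico_consecutive (fun i => r V i ^ 2) (Nat.zero_le _) hjk.le, e1, e2, ← ht] at hQ
    have b1 : 0 ≤ ∑ i ∈ Ico 0 j, r V i := sum_nonneg fun i _ => (rV i).le
    have b2 : 0 ≤ ∑ i ∈ Ico j k, r V i := sum_nonneg fun i _ => (rV i).le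
    have b3 : (∑ i ∈ Ico 0 j, r V i + t) ^ 2 ≤
        (∑ i ∈ Ico 0 j, r V i + ∑ i ∈ Ico j k, r V i) ^ 2 := by linarith
    have := abs_le_of_sq_le_sq' b3 (by linarith)
    linarith [this.2]

lemma prod_r (x : ℕ → ℕ) (k : ℕ) : ∏ i ∈ Ico 0 k, r x i = 1 / (∏ i ∈ Ico 0 k, x i : ℕ) := by
  simp [r]

lemma anti (x : ℕ → ℕ) (hx : ∀ i, 0 < x i) (k : ℕ) (hm : ∀ i j, i ≤ j → j < k → x i ≤ x j) :
    ∀ i j, i ≤ j → j < k → r x j ≤ r x i := fun i j h1 h2 =>
  one_div_le_one_div_of_le (by exact_mod_cast hx i) (by exact_mod_cast hm i j h1 h2)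

lemma Q_le (x : ℕ → ℕ) (hx : ∀ i, 0 < x i) (k : ℕ) (hm : ∀ i j, i ≤ j → j < k → x i ≤ x j)
    (h2 : Q (r x) 0 k < 2) : Q (r x) 0 k ≤ Q (r V) 0 k := by
  induction k using Nat.strong_induction_on with
  | _ k ih =>
    have rx := r_pos x hx
    have rV := r_pos V V_pos
    have hP : (0 : ℝ) < (∏ i ∈ Ico 0 k, x i : ℕ) := by exact_mod_cast prod_pos fun i _ => hx i
    have hPV : (0 : ℝ) < (PA k).1 := by exact_mod_cast P_pos k
    rcases le_or_gt (∏ i ∈ Ico 0 k, x i) (∏ i ∈ Ico 0 k, V i) with h | h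
    · obtain ⟨_, b, _, hb⟩ := int x hx k
      rw [(EQ k).2]
      rw [← P_eq] at h
      have h3 : b < ∏ i ∈ Ico 0 k, x i := by
        have : (b : ℝ) < (∏ i ∈ Ico 0 k, x i : ℕ) := by nlinarith
        exact_mod_cast this
      have h4 : (b : ℝ) + 1 ≤ (∏ i ∈ Ico 0 k, x i : ℕ) := by exact_mod_cast h3
      have h5 : 2 / ((PA k).1 : ℝ) ≤ 2 / (∏ i ∈ Ico 0 k, x i : ℕ) :=
        div_le_div_of_nonneg_left (by norm_num) hP (by exact_mod_cast h)
      have h6 : Q (r x) 0 k ≤ 2 - 2 / (∏ i ∈ Ico 0 k, x i : ℕ) := by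
        rw [le_sub_iff_add_le, ← le_sub_iff_add_le', div_le_iff₀ hP]
        nlinarith
      linarith
    · obtain ⟨l, hl, a1, a2, _⟩ := split (r x) (r V) rx rV k (anti x hx k hm) (by
        rw [prod_r, prod_r, ← P_eq]
        rw [← P_eq] at h
        exact one_div_lt_one_div_of_lt hPV (by exact_mod_cast h))
      have b1 : 0 ≤ ∑ i ∈ Ico 0 l, r x i := sum_nonneg fun i _ => (rx i).le
      have b2 : 0 ≤ ∑ i ∈ Ico l k, r x i := sum_nonneg fun i _ => (rx i).le
      have b3 := Q_nonneg (r x) l k fun i => (rx i).le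
      rw [Q_split _ 0 l k (Nat.zero_le _) hl.le] at h2 ⊢
      rw [Q_split (r V) 0 l k (Nat.zero_le _) hl.le]
      have c0 : Q (r x) 0 l < 2 := by nlinarith [mul_nonneg b1 b2]
      have hm' : ∀ i j, i ≤ j → j < l → x i ≤ x j := fun i j h1 h2 => hm i j h1 (by omega)
      have c1 := ih l hl hm' c0
      have c2 := S_le x hx l hm' c0 c1
      nlinarith [mul_le_mul c2 a1.le b2 (b1.trans c2)]

theorem main (n : ℕ) (hn : 1 ≤ n) (x : ℕ → ℕ) (hx : ∀ i, 0 < x i)
    (hm : ∀ i j, i ≤ j → j < n + 1 → x i ≤ x j) (h2 : Q (r x) 0 (n + 1) = 2) :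
    ∏ i ∈ Ico 0 (n + 1), x i ≤ (PA n).1 * (PA n).2 := by
  by_contra hc
  push Not at hc
  have hA : 0 < (PA n).2 := by
    obtain ⟨m, rfl⟩ : ∃ m, n = m + 1 := ⟨n - 1, by omega⟩
    have := P_pos m
    simp only [PA]; omega
  let W : ℕ → ℕ := fun i => if i < n then V i else (PA n).2
  have hW : ∀ i, 0 < W i := fun i => by simp only [W]; split_ifs; exacts [V_pos i, hA]
  have e0 : ∀ l ≤ n, ∀ i ∈ Ico 0 l, r W i = r V i := fun l hl i hi => by
    have := (mem_Ico.mp hi).2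
    simp only [r, W, show i < n by omega, if_true]
  have e1 : ∀ l ≤ n, ∑ i ∈ Ico 0 l, r W i = ∑ i ∈ Ico 0 l, r V i :=
    fun l hl => sum_congr rfl (e0 l hl)
  have e2 : ∀ l ≤ n, Q (r W) 0 l = Q (r V) 0 l := fun l hl => by
    unfold Q
    rw [e1 l hl, sum_congr rfl (f := fun i => r W i ^ 2) (g := fun i => r V i ^ 2)
      fun i hi => by rw [e0 l hl i hi]]
  have hP : (0 : ℝ) < (PA n).1 := by exact_mod_cast P_pos n
  have hA' : (0 : ℝ) < (PA n).2 := by exact_mod_cast hA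
  have e3 : Q (r W) 0 (n + 1) = 2 := by
    rw [Q_succ, e1 n le_rfl, e2 n le_rfl, (EQ n).1, (EQ n).2]
    simp only [r, W, lt_irrefl, if_false]
    field_simp
    ring
  have e4 : ∏ i ∈ Ico 0 (n + 1), W i = (PA n).1 * (PA n).2 := by
    rw [prod_Ico_succ_top (Nat.zero_le _), P_eq]
    simp only [W, lt_irrefl, if_false]
    congr 1
    exact prod_congr rfl fun i hi => by simp [(mem_Ico.mp hi).2]
  have rx := r_pos x hx
  obtain ⟨l, hl, a1, a2, a3⟩ := split (r x) (r W) rx (r_pos W hW) (n + 1) (anti x hx _ hm) (by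
    rw [prod_r, prod_r, e4]
    exact one_div_lt_one_div_of_lt (by exact_mod_cast Nat.mul_pos (P_pos n) hA)
      (by exact_mod_cast hc))
  rcases Nat.eq_zero_or_pos l with rfl | hl0
  · have := a3 (by omega)
    linarith
  · have b1 : 0 < ∑ i ∈ Ico 0 l, r x i := sum_pos (fun i _ => rx i) (by simp; omega)
    have b2 : 0 < ∑ i ∈ Ico l (n + 1), r x i := sum_pos (fun i _ => rx i) (by simp; omega)
    have b3 := Q_nonneg (r x) l (n + 1) fun i => (rx i).le
    rw [Q_split _ 0 l (n + 1) (Nat.zero_le _) hl.le] at h2 e3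
    rw [e1 l (by omega), e2 l (by omega)] at e3
    have c0 : Q (r x) 0 l < 2 := by nlinarith [mul_pos b1 b2]
    have hm' : ∀ i j, i ≤ j → j < l → x i ≤ x j := fun i j h1 h2 => hm i j h1 (by omega)
    have c1 := Q_le x hx l hm' c0
    have c2 := S_le x hx l hm' c0 c1
    nlinarith [mul_lt_mul' c2 a1 b2.le (b1.trans_le c2)]


lemma pair_sum (f : ℕ → ℝ) (k : ℕ) :
    2 * ∑ i ∈ range k, ∑ j ∈ range k with i < j, f i * f j = Q f 0 k := by
  induction k with
  | zero => simp [Q]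
  | succ k ih =>
    rw [Q_succ, ← ih, sum_range_succ, ← range_eq_Ico]
    have e1 : (range (k + 1)).filter (fun j => k < j) = ∅ := by
      ext j; simp only [mem_filter, mem_range, notMem_empty, iff_false]; omega
    have e2 : ∀ i ∈ range k, ∑ j ∈ range (k + 1) with i < j, f i * f j =
        ∑ j ∈ range k with i < j, f i * f j + f i * f k := by
      intro i hi
      rw [sum_filter, sum_range_succ, ← sum_filter, if_pos (mem_range.mp hi)]
    rw [e1, sum_empty, sum_congr rfl e2, sum_add_distrib, ← sum_mul]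
    ring

lemma v_eq (v : ℕ → ℚ) (h1 : v 1 = 1) (h2 : v 2 = 2)
    (h3 : ∀ n, 2 ≤ n → v (n + 1) = 1 + (∑ i ∈ Icc 1 n, 1 / v i) /
      (1 - ∑ i ∈ Icc 1 n, ∑ j ∈ Icc 1 n with i < j, 1 / (v i * v j))) (k : ℕ) :
    v (k + 1) = V k := by
  induction k using Nat.strong_induction_on with
  | _ k ih =>
    rcases Nat.lt_or_ge k 2 with h | h
    · interval_cases k
      · simp [h1, V, PA]
      · simp [h2, V, PA]
    · have hI : Icc 1 k = (range k).map ⟨fun i => i + 1, add_left_injective 1⟩ := by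
        ext j
        simp only [mem_Icc, mem_map, mem_range, Function.Embedding.coeFn_mk]
        exact ⟨fun h => ⟨j - 1, by omega, by omega⟩, fun ⟨a, b, c⟩ => by omega⟩
      apply Rat.cast_injective (α := ℝ)
      rw [h3 k h, hI]
      simp only [sum_filter, sum_map, Function.Embedding.coeFn_mk, add_lt_add_iff_right]
      have e1 : ∑ i ∈ range k, 1 / v (i + 1) = ∑ i ∈ range k, 1 / (V i : ℚ) :=
        sum_congr rfl fun i hi => by rw [ih i (mem_range.mp hi)]
      have e2 : ∑ i ∈ range k, ∑ j ∈ range k, (if i < j then 1 / (v (i + 1) * v (j + 1)) else 0) =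
          ∑ i ∈ range k, ∑ j ∈ range k with i < j, 1 / (V i : ℚ) * (1 / (V j : ℚ)) :=
        sum_congr rfl fun i hi => by
          rw [sum_filter]
          refine sum_congr rfl fun j hj => ?_
          rw [ih i (mem_range.mp hi), ih j (mem_range.mp hj), one_div_mul_one_div]
      rw [e1, e2]
      have a1 := (EQ k).1
      have a2 := (EQ k).2
      rw [← pair_sum] at a2
      rw [← range_eq_Ico] at a1
      simp only [r] at a1 a2
      have hP : (0 : ℝ) < (PA k).1 := by exact_mod_cast P_pos k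
      push_cast
      rw [a1, show ∑ i ∈ range k, ∑ j ∈ range k with i < j, 1 / (V i : ℝ) * (1 / (V j : ℝ)) =
        1 - 1 / (PA k).1 by
          have : 2 / ((PA k).1 : ℝ) = 2 * (1 / (PA k).1) := by ring
          linarith]
      simp only [V]
      push_cast
      field_simp
      ring

theorem final (v : ℕ → ℚ) (h1 : v 1 = 1) (h2 : v 2 = 2)
    (h3 : ∀ n, 2 ≤ n → v (n + 1) = 1 + (∑ i ∈ Icc 1 n, 1 / v i) /
      (1 - ∑ i ∈ Icc 1 n, ∑ j ∈ Icc 1 n with i < j, 1 / (v i * v j)))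
    (n : ℕ) (hn : 2 ≤ n) (x : Fin n → ℕ) (hm : Monotone x) (hx : ∀ i, 0 < x i)
    (he : ∑ i, ∑ j with i < j, 1 / ((x i : ℚ) * x j) = 1) :
    (∏ i, x i : ℚ) ≤ (∏ i ∈ Icc 1 (n - 1), v i) * (v n - 1) := by
  obtain ⟨m, rfl⟩ : ∃ m, n = m + 1 := ⟨n - 1, by omega⟩
  let y : ℕ → ℕ := fun i => if h : i < m + 1 then x ⟨i, h⟩ else 1
  have hy : ∀ i : Fin (m + 1), y i = x i := fun i => by simp only [y, i.2, dif_pos]
  have := main m (by omega) y (fun i => by simp only [y]; split_ifs; exacts [hx _, one_pos])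
    (fun i j a b => by
      simp only [y, b, a.trans_lt b, dif_pos]
      exact hm a) (by
      rw [← pair_sum]
      have he' := congrArg (Rat.cast : ℚ → ℝ) he
      push_cast at he'
      rw [← Fin.sum_univ_eq_sum_range (fun i => ∑ j ∈ range (m + 1) with i < j, r y i * r y j)]
      have : ∀ i : Fin (m + 1), ∑ j ∈ range (m + 1) with i.val < j, r y i * r y j =
          ∑ j with i < j, 1 / ((x i : ℝ) * x j) := by
        intro i
        rw [sum_filter, sum_filter,
          ← Fin.sum_univ_eq_sum_range (fun j => if i.val < j then r y i * r y j else 0)]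
        refine sum_congr rfl fun j _ => ?_
        simp only [r, hy, Fin.lt_def, one_div_mul_one_div]
      simp only [this, he', mul_one])
  rw [← range_eq_Ico, ← Fin.prod_univ_eq_prod_range] at this
  simp only [hy] at this
  have e1 : ∏ i ∈ Icc 1 (m + 1 - 1), v i = (PA m).1 := by
    rw [P_eq, Nat.add_sub_cancel, ← Ico_add_one_right_eq_Icc, prod_Ico_eq_prod_range,
      Nat.add_sub_cancel, ← range_eq_Ico]
    push_cast
    exact prod_congr rfl fun i _ => by rw [add_comm, v_eq v h1 h2 h3]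
  rw [e1, v_eq v h1 h2 h3, V]
  push_cast
  rw [add_sub_cancel_left]
  exact_mod_cast this

end Pool.Agent.H53.Sig2
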