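import Mathlib

/-! Semigroups generated by exponentials in a filtered finite-dimensional algebra:
interior points. -/

namespace H53.Sp

open NormedSpace Filter Topology Set

variable {A : Type} [NormedRing A] [NormedAlgebra ℂ A] [NormedAlgebra ℚ A] [CompleteSpace A]

/-- the exponential as a unit -/
noncomputable def eu (a : A) : Aˣ :=
  ⟨exp a, exp (-a), by rw [← exp_add_of_commute (Commute.refl a).neg_right]; simp,
    by rw [← exp_add_of_commute (Commute.refl a).neg_left]; simp⟩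

@[simp] lemma eu_val (a : A) : (eu a : A) = exp a := rfl

lemma eu_neg (a : A) : eu (-a) = (eu a)⁻¹ := Units.ext rfl

@[simp] lemma eu_zero : eu (0 : A) = 1 := Units.ext exp_zero

lemma eu_add (α β : ℂ) (x : A) : eu ((α + β) • x) = eu (α • x) * eu (β • x) := Units.ext <| by
  rw [add_smul]; exact exp_add_of_commute (((Commute.refl x).smul_left α).smul_right β)

lemma eu_conj (U : Aˣ) (a : A) : U * eu a * U⁻¹ = eu (U * a * ↑U⁻¹) :=
  Units.ext (exp_units_conj U a).symm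

lemma eu_nsmul (n : ℕ) (a : A) : eu (n • a) = eu a ^ n := Units.ext <| by
  rw [eu_val, exp_nsmul]; simp

lemma eu_cont : Continuous (eu : A → Aˣ) :=
  Units.continuous_iff.2 ⟨exp_continuous, exp_continuous.comp continuous_neg⟩

/-- generators -/
def gens (Ω : Set ℂ) (x y : A) : Set Aˣ := {g | ∃ α ∈ Ω, g = eu (α • x) ∨ g = eu (α • y)}

/-- multiplicative filtration of length `N` -/
structure Grad (N : ℕ) (F : ℕ → Submodule ℂ A) : Prop where
  anti : Antitone F
  one : (1 : A) ∈ F 0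
  mul : ∀ {i j a b}, a ∈ F i → b ∈ F j → a * b ∈ F (i + j)
  bot : F (N + 1) = ⊥

variable {N : ℕ} {F : ℕ → Submodule ℂ A}

lemma Grad.pow (h : Grad N F) {a : A} {i : ℕ} (ha : a ∈ F i) (n : ℕ) : a ^ n ∈ F (n * i) := by
  induction n with
  | zero => simpa using h.one
  | succ n ih => rw [pow_succ, Nat.succ_mul]; exact h.mul ih ha

lemma Grad.exp_eq (h : Grad N F) {a : A} (ha : a ∈ F 1) :
    exp a = ∑ i ∈ Finset.range (N + 1), ((i.factorial : ℂ)⁻¹) • a ^ i := by
  rw [exp_eq_tsum ℂ]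
  refine tsum_eq_sum fun i hi => ?_
  have h1 : a ^ i ∈ F (N + 1) := h.anti (by simpa using hi) (h.pow ha i)
  rw [h.bot, Submodule.mem_bot] at h1
  rw [h1, smul_zero]

lemma Grad.exp_sub (h : Grad N F) {a : A} (ha : a ∈ F 1) : exp a - 1 ∈ F 1 := by
  rw [h.exp_eq ha, Finset.sum_range_succ']
  simp only [Nat.factorial_zero, Nat.cast_one, inv_one, pow_zero, one_smul, add_sub_cancel_right]
  exact Submodule.sum_mem _ fun i _ => Submodule.smul_mem _ _ (h.anti (by omega) (h.pow ha (i + 1)))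

lemma Grad.zero_of (h : Grad N F) {a : A} (ha : a - 1 ∈ F 1) : a ∈ F 0 := by
  simpa using (F 0).add_mem (h.anti zero_le_one ha) h.one

lemma Grad.unip (h : Grad N F) {x y : A} (hx : x ∈ F 1) (hy : y ∈ F 1) {g : Aˣ}
    (hg : g ∈ Subgroup.closure (gens univ x y)) : (g : A) - 1 ∈ F 1 := by
  induction hg using Subgroup.closure_induction'' with
  | mem g hg => obtain ⟨α, -, rfl | rfl⟩ := hg <;> exact h.exp_sub (Submodule.smul_mem _ _ ‹_›)
  | inv_mem g hg =>
    obtain ⟨α, -, rfl | rfl⟩ := hg <;> rw [← eu_neg] <;>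
      exact h.exp_sub (neg_mem (Submodule.smul_mem _ _ ‹_›))
  | one => simp
  | mul a b _ _ ha hb =>
    have := (F 1).add_mem (h.mul ha (h.zero_of hb)) hb
    simpa [sub_mul] using this

lemma compl (h : Grad N F) (T : Submodule ℂ A) :
    ∃ C, IsCompl T C ∧ ∀ d, F d ≤ T ⊔ (C ⊓ F d) := by
  have step : ∀ C B : Submodule ℂ A, Disjoint T C → C ≤ B →
      ∃ C', C ≤ C' ∧ Disjoint T C' ∧ C' ≤ B ∧ B ≤ T ⊔ C' := by
    intro C B hd hB
    obtain ⟨C', h1, h2⟩ := (hd.symm.mono_right (inf_le_left : T ⊓ B ≤ T)).exists_isCompl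
    refine ⟨C' ⊓ B, le_inf h1 hB, ?_, inf_le_right, fun b hb => ?_⟩
    · rw [Submodule.disjoint_def]
      exact fun a ha hb => Submodule.disjoint_def.1 h2.disjoint a hb.1 ⟨ha, hb.2⟩
    · obtain ⟨c, hc, t, ht, rfl⟩ := Submodule.mem_sup.1 (h2.sup_eq_top ▸ Submodule.mem_top (x := b))
      rw [add_comm]
      exact Submodule.add_mem_sup ht.1 ⟨hc, by simpa using B.sub_mem hb ht.2⟩
  have ind : ∀ j, ∃ C, Disjoint T C ∧ C ≤ F (N + 1 - j) ∧ ∀ e, N + 1 - j ≤ e →
      F e ≤ T ⊔ (C ⊓ F e) := by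
    intro j
    induction j with
    | zero => exact ⟨⊥, disjoint_bot_right, bot_le, fun e he => (h.bot ▸ h.anti he).trans bot_le⟩
    | succ j ih =>
      obtain ⟨C, h1, h2, h3⟩ := ih
      obtain ⟨C', h4, h5, h6, h7⟩ := step C (F (N + 1 - (j + 1))) h1 (h2.trans (h.anti (by omega)))
      refine ⟨C', h5, h6, fun e he => ?_⟩
      rcases he.eq_or_lt with rfl | he
      · rwa [inf_eq_left.2 h6]
      · exact (h3 e (by omega)).trans (by gcongr)
  obtain ⟨C, h1, -, h3⟩ := ind (N + 1)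
  obtain ⟨C', h4, h5, -, h7⟩ := step C ⊤ h1 le_top
  exact ⟨C', ⟨h5, codisjoint_iff_le_sup.2 h7⟩, fun d => (h3 d (by omega)).trans (by gcongr)⟩

lemma conj_exp {Nm x : A} (hx : Nm * x - x * Nm = x) (α : ℂ) :
    exp (-(α • x)) * Nm * exp (α • x) - Nm = α • x := by
  have hd : ∀ t : ℂ, HasDerivAt (fun t : ℂ => exp (t • -x) * Nm * exp (t • x) - t • x) 0 t := by
    intro t
    have h1 := (((hasDerivAt_exp_smul_const (-x) t).mul_const Nm).mul
      (hasDerivAt_exp_smul_const' x t)).sub ((hasDerivAt_id t).smul_const x)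
    refine h1.congr_deriv (Eq.symm ?_)
    have h2 : exp (t • -x) * exp (t • x) = 1 := by rw [smul_neg]; exact (eu (t • x)).inv_val
    have h3 : x * exp (t • x) = exp (t • x) * x :=
      (((Commute.refl x).smul_right t).exp_right).eq
    calc (0 : A) = exp (t • -x) * (x * exp (t • x)) - x := by rw [h3, ← mul_assoc, h2]; simp
      _ = exp (t • -x) * ((Nm * x - x * Nm) * exp (t • x)) - x := by rw [hx]
      _ = _ := by simp only [one_smul]; noncomm_ring
  have := is_const_of_deriv_eq_zero (fun t => (hd t).differentiableAt) (fun t => (hd t).deriv) α 0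
  simp only [zero_smul, exp_zero, one_mul, mul_one, sub_zero, smul_neg, neg_zero] at this
  rw [sub_eq_iff_eq_add] at this
  rw [this]; abel

/-- `W` is a space of directions in which `g` can be moved inside `S` -/
def Flex (S : Submonoid Aˣ) (g : Aˣ) (W : Submodule ℂ A) : Prop :=
  ∃ (E : Type) (_ : NormedAddCommGroup E) (_ : NormedSpace ℂ E) (_ : CompleteSpace E)
    (f : E → A) (f' : E →L[ℂ] A), HasStrictFDerivAt f f' 0 ∧ f 0 = g ∧
    (∀ᶠ p in 𝓝 0, ∃ u ∈ S, f p = u) ∧ ∀ w ∈ W, ∃ e, f' e = g * w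

lemma Flex.prepend {S : Submonoid Aˣ} {g s : Aˣ} {W : Submodule ℂ A} (h : Flex S g W) (hs : s ∈ S)
    {z : A} {α : ℂ} (hz : ∀ᶠ β in 𝓝 α, eu (β • z) ∈ S) :
    Flex S (eu (α • z) * s * g) (W ⊔ ℂ ∙ (↑(s * g)⁻¹ * z * ↑(s * g) : A)) := by
  obtain ⟨E, _, _, _, f, f', h1, h2, h3, h4⟩ := h
  have ha : HasStrictFDerivAt (fun p : ℂ × E => α + p.1) (ContinuousLinearMap.fst ℂ ℂ E) 0 :=
    (ContinuousLinearMap.fst ℂ ℂ E).hasStrictFDerivAt.const_add α
  have h5 := HasStrictFDerivAt.comp (0 : ℂ × E) (f := fun p : ℂ × E => α + p.1)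
    (hasStrictDerivAt_exp_smul_const z (α + (0 : ℂ × E).1)).hasStrictFDerivAt ha
  have h6 : HasStrictFDerivAt (fun p : ℂ × E => f p.2) _ 0 :=
    HasStrictFDerivAt.comp (0 : ℂ × E) (f := Prod.snd) h1
      (ContinuousLinearMap.snd ℂ ℂ E).hasStrictFDerivAt
  refine ⟨ℂ × E, inferInstance, inferInstance, inferInstance, _, _,
    h5.mul' (h6.const_mul (s : A)), by simp [h2, mul_assoc], ?_, fun w hw => ?_⟩
  · have h7 : ∀ᶠ p : ℂ × E in 𝓝 0, eu ((α + p.1) • z) ∈ S :=
      ha.continuousAt.tendsto.eventually (by simpa using hz)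
    filter_upwards [h7, continuous_snd.continuousAt.tendsto.eventually h3] with p hp ⟨u, hu, e⟩
    exact ⟨_, S.mul_mem hp (S.mul_mem hs hu), by simp [e]⟩
  · obtain ⟨w', hw', _, hv, rfl⟩ := Submodule.mem_sup.1 hw
    obtain ⟨t, rfl⟩ := Submodule.mem_span_singleton.1 hv
    obtain ⟨e, he⟩ := h4 w' hw'
    refine ⟨(t, e), ?_⟩
    simp [he, h2, mul_add, mul_assoc]

lemma le_of_gens {Ω : Set ℂ} (hΩ : IsOpen Ω) (hne : Ω.Nonempty) {x y : A} {K : Subgroup Aˣ}
    (hK : gens Ω x y ⊆ K) : Subgroup.closure (gens univ x y) ≤ K := by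
  obtain ⟨a, ha⟩ := hne
  have key : ∀ z : A, (∀ β ∈ Ω, eu (β • z) ∈ K) → ∀ α : ℂ, eu (α • z) ∈ K := by
    intro z hz α
    have h1 : Tendsto (fun n : ℕ => α / n + a) atTop (𝓝 (0 + a)) :=
      (tendsto_const_div_atTop_nhds_zero_nat α).add_const a
    rw [zero_add] at h1
    obtain ⟨n, hn, hn0⟩ := ((h1.eventually (hΩ.mem_nhds ha)).and (eventually_gt_atTop 0)).exists
    have h2 := K.mul_mem (hz _ hn) (K.inv_mem (hz _ ha))
    rw [eu_add, mul_inv_cancel_right] at h2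
    have h3 := K.pow_mem h2 n
    have : (n : ℂ) ≠ 0 := by exact_mod_cast hn0.ne'
    rwa [← eu_nsmul, ← Nat.cast_smul_eq_nsmul ℂ, smul_smul, mul_div_cancel₀ _ this] at h3
  rw [Subgroup.closure_le]
  rintro g ⟨α, -, rfl | rfl⟩
  · exact key x (fun β hβ => hK ⟨β, hβ, Or.inl rfl⟩) α
  · exact key y (fun β hβ => hK ⟨β, hβ, Or.inr rfl⟩) α

theorem interior_pt [FiniteDimensional ℂ A] (h : Grad N F) {x y Nm : A} (hx : x ∈ F 1)
    (hy : y ∈ F 1) (hNx : Nm * x - x * Nm = x) (hNy : Nm * y - y * Nm = y)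
    (hN : ∀ d, ∀ a ∈ F d, Nm * a - a * Nm - (d : ℂ) • a ∈ F (d + 1))
    {Ω : Set ℂ} (hΩ : IsOpen Ω) (hne : Ω.Nonempty) :
    ∃ g ∈ Submonoid.closure (gens Ω x y), ∀ᶠ k in 𝓝[Subgroup.closure (gens univ x y)] g,
      k ∈ Submonoid.closure (gens Ω x y) := by
  set S := Submonoid.closure (gens Ω x y) with hS
  set G := Subgroup.closure (gens univ x y) with hG
  have hSG : ∀ s ∈ S, s ∈ G := fun s hs => Submonoid.closure_le.2 (show gens Ω x y ⊆ G.toSubmonoid
    from fun g ⟨α, _, e⟩ => Subgroup.subset_closure ⟨α, trivial, e⟩) hs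
  set T : Submodule ℂ A := Submodule.span ℂ {w | ∃ s ∈ S, ∃ z, (z = x ∨ z = y) ∧ w = ↑s⁻¹ * z * s}
    with hT
  have hT1 : ∀ s ∈ S, ∀ w ∈ T, (↑s⁻¹ * w * s : A) ∈ T := by
    intro s hs w hw
    induction hw using Submodule.span_induction with
    | mem w hw =>
      obtain ⟨s', hs', z, hz, rfl⟩ := hw
      exact Submodule.subset_span ⟨s' * s, S.mul_mem hs' hs, z, hz, by simp [mul_assoc]⟩
    | zero => simp
    | add a b _ _ ha hb => simpa [mul_add, add_mul] using T.add_mem ha hb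
    | smul c a _ ha => simpa using T.smul_mem c ha
  have hT2 : ∀ s ∈ S, ∀ w : A, (↑s⁻¹ * w * s : A) ∈ T → w ∈ T := by
    intro s hs w hw
    let c : T →ₗ[ℂ] T := ((LinearMap.mulRight ℂ (s : A)).comp (LinearMap.mulLeft ℂ (↑s⁻¹ : A))).restrict
      (hT1 s hs)
    have hc : ∀ a : T, (c a : A) = ↑s⁻¹ * a * s := fun a => rfl
    have inj : ∀ a b : A, (↑s⁻¹ * a * s : A) = ↑s⁻¹ * b * s → a = b := fun a b e => by simpa using e
    obtain ⟨a, ha⟩ := LinearMap.injective_iff_surjective.1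
      (show Function.Injective c from fun a b e => Subtype.ext (inj _ _ (congrArg Subtype.val e)))
      ⟨_, hw⟩
    rw [← inj _ _ (congrArg Subtype.val ha)]; exact a.2
  let K : Subgroup Aˣ :=
    { carrier := {g | (∀ w : A, (↑g⁻¹ * w * g : A) ∈ T ↔ w ∈ T) ∧ (↑g⁻¹ * Nm * g - Nm : A) ∈ T}
      one_mem' := by simp
      mul_mem' := by
        rintro a b ⟨ha, ha'⟩ ⟨hb, hb'⟩
        refine ⟨fun w => ?_, ?_⟩
        · rw [← ha w, ← hb (↑a⁻¹ * w * a)]; simp [mul_assoc]
        · have := T.add_mem ((hb _).2 ha') hb'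
          simpa [mul_sub, sub_mul, mul_assoc] using this
      inv_mem' := by
        rintro a ⟨ha, ha'⟩
        refine ⟨fun w => ?_, ?_⟩
        · rw [← ha]; simp [mul_assoc]
        · rw [← ha]
          simpa [mul_sub, sub_mul, mul_assoc] using T.neg_mem ha' }
  have hGK : G ≤ K := le_of_gens hΩ hne fun g hg => by
    have hgS : g ∈ S := Submonoid.subset_closure hg
    refine ⟨fun w => ⟨hT2 g hgS w, hT1 g hgS w⟩, ?_⟩
    obtain ⟨α, -, rfl | rfl⟩ := hg
    · rw [← eu_neg, eu_val, eu_val, conj_exp hNx]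
      exact T.smul_mem _ (Submodule.subset_span ⟨1, S.one_mem, x, Or.inl rfl, by simp⟩)
    · rw [← eu_neg, eu_val, eu_val, conj_exp hNy]
      exact T.smul_mem _ (Submodule.subset_span ⟨1, S.one_mem, y, Or.inr rfl, by simp⟩)
  obtain ⟨C, hC, hCF⟩ := compl h T
  have inj : ∀ a ∈ G, ∀ b ∈ G, (a : A) - b ∈ C → a = b := by
    intro a ha b hb hab
    have ind : ∀ d, (a : A) - b ∈ F (d + 1) := by
      intro d
      induction d with
      | zero => simpa using (F 1).sub_mem (h.unip hx hy ha) (h.unip hx hy hb)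
      | succ d ih =>
        set k := b⁻¹ * a with hk
        have hkG : k ∈ G := G.mul_mem (G.inv_mem hb) ha
        set c : A := k - 1 with hc
        have e0 : c = ↑b⁻¹ * (a - b) := by simp [hc, hk, mul_sub]
        have h1 : c ∈ F (d + 1) := by
          rw [e0]; simpa using h.mul (h.zero_of (h.unip hx hy (G.inv_mem hb))) ih
        have h2 := h.mul (h.zero_of (h.unip hx hy (G.inv_mem hkG))) (hN _ _ h1)
        have h3 := h.mul (h.unip hx hy (G.inv_mem hkG)) h1
        have h4 := h.mul (h.unip hx hy hb) h1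
        rw [zero_add] at h2
        rw [add_comm] at h3 h4
        have h5 := (F _).sub_mem ((F _).smul_mem ((d + 1 : ℕ) : ℂ) ((F _).sub_mem h4 h3)) h2
        have e1 : (b : A) * c = a - b := by simp [e0]
        have e2 : (↑k⁻¹ : A) * (Nm * c - c * Nm) = ↑k⁻¹ * Nm * k - Nm := by
          simp [hc, mul_sub, sub_mul, mul_assoc]
        have e3 : ((d + 1 : ℕ) : ℂ) • (((b : A) - 1) * c - ((↑k⁻¹ : A) - 1) * c) -
            ↑k⁻¹ * (Nm * c - c * Nm - ((d + 1 : ℕ) : ℂ) • c) =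
            ((d + 1 : ℕ) : ℂ) • ((a : A) - b) - (↑k⁻¹ * Nm * k - Nm) := by
          rw [← e1, ← e2, mul_sub (↑k⁻¹ : A) _ (_ • c), mul_smul_comm, sub_mul, sub_mul]
          module
        rw [e3] at h5
        obtain ⟨t, ht, c', hc', e⟩ := Submodule.mem_sup.1 (hCF _ h5)
        have h6 : ((d + 1 : ℕ) : ℂ) • ((a : A) - b) - c' = 0 := by
          refine Submodule.disjoint_def.1 hC.disjoint _ ?_ (C.sub_mem (C.smul_mem _ hab) hc'.1)
          convert T.add_mem ht (hGK hkG).2 using 1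
          rw [eq_sub_iff_add_eq] at e
          rw [← e]; abel
        rw [sub_eq_zero] at h6
        exact ((F _).smul_mem_iff (by exact_mod_cast Nat.succ_ne_zero d)).1 (h6 ▸ hc'.2)
    have := ind N
    rw [h.bot, Submodule.mem_bot, sub_eq_zero] at this
    exact Units.ext this
  obtain ⟨W, ⟨g, hg, hW⟩, hmax⟩ := (wellFounded_gt (α := Submodule ℂ A)).has_min
    {W | ∃ g ∈ S, Flex S g W} ⟨⊥, 1, S.one_mem, ℂ, inferInstance, inferInstance, inferInstance,
      fun _ => 1, 0, hasStrictFDerivAt_const _ _, rfl, .of_forall fun _ => ⟨1, S.one_mem, rfl⟩,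
      fun w hw => ⟨0, by simp [(Submodule.mem_bot ℂ).1 hw]⟩⟩
  have hTW : ∀ w ∈ T, (↑g⁻¹ * w * g : A) ∈ W := by
    intro w hw
    induction hw using Submodule.span_induction with
    | mem w hw =>
      obtain ⟨s, hs, z, hz, rfl⟩ := hw
      obtain ⟨α, hα⟩ := hne
      have h1 : ∀ᶠ β in 𝓝 α, eu (β • z) ∈ S := by
        filter_upwards [hΩ.mem_nhds hα] with β hβ
        exact Submonoid.subset_closure ⟨β, hβ, hz.imp (by rintro rfl; rfl) (by rintro rfl; rfl)⟩
      have h2 := hmax _ ⟨_, S.mul_mem (S.mul_mem h1.self_of_nhds hs) hg, hW.prepend hs h1⟩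
      have h3 := (eq_of_le_of_not_lt le_sup_left h2).ge
        (Submodule.mem_sup_right (Submodule.mem_span_singleton_self _))
      simpa [mul_assoc] using h3
    | zero => simp
    | add a b _ _ ha hb => simpa [mul_add, add_mul] using W.add_mem ha hb
    | smul c a _ ha => simpa using W.smul_mem c ha
  obtain ⟨E, _, _, _, f, f', h1, h2, h3, h4⟩ := hW
  let P : A →L[ℂ] T := (T.projectionOnto C hC).toContinuousLinearMap.comp
    (ContinuousLinearMap.mul ℂ A ↑g⁻¹)
  have hP : ∀ a, P a = T.projectionOnto C hC (↑g⁻¹ * a) := fun a => rfl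
  have h5 := (P.hasStrictFDerivAt.comp 0 h1).map_nhds_eq_of_surj (by
    rw [eq_top_iff]
    rintro t -
    have h6 := hTW _ (((hGK (G.inv_mem (hSG g hg))).1 t).2 t.2)
    obtain ⟨e, he⟩ := h4 _ h6
    exact ⟨e, by simp [hP, he, mul_assoc]⟩)
  have h7 : {t : T | ∃ u ∈ S, P u = t} ∈ 𝓝 (P g) := by
    rw [← h2, ← h5, mem_map]
    filter_upwards [h3] with p ⟨u, hu, e⟩
    exact ⟨u, hu, by simp [e]⟩
  refine ⟨g, hg, ?_⟩
  filter_upwards [nhdsWithin_le_nhds ((P.continuous.comp Units.continuous_val).continuousAt h7),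
    self_mem_nhdsWithin] with k ⟨u, hu, e⟩ hk
  have := inj (g⁻¹ * u) (G.mul_mem (G.inv_mem (hSG g hg)) (hSG u hu)) (g⁻¹ * k)
    (G.mul_mem (G.inv_mem (hSG g hg)) hk) (by
      rw [← Submodule.projectionOnto_apply_eq_zero_iff hC, map_sub, sub_eq_zero]; exact e)
  rwa [← mul_left_cancel this]

end H53.Sp
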