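import Pool.Agent.H53.SpA

/-! `exp Z` is a product of exponentials of `X = Z - Y` and `Y` with coefficients of positive real
part. -/

namespace H53.Sp

open NormedSpace Filter Topology Set

variable {A : Type} [NormedRing A] [NormedAlgebra ℂ A] [NormedAlgebra ℚ A] [CompleteSpace A]
  {N : ℕ} {F H : ℕ → Submodule ℂ A}

lemma root (m : ℕ) : ∃ ζ : ℂ, ζ ^ (m + 1) = -1 ∧ ‖ζ‖ = 1 ∧ (1 ≤ m → 1 + ζ ≠ 0) := by
  refine ⟨Complex.exp ((Real.pi / (m + 1) : ℝ) * Complex.I), ?_, Complex.norm_exp_ofReal_mul_I _,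
    fun hm h => ?_⟩
  · rw [← Complex.exp_nat_mul, ← Complex.exp_pi_mul_I]
    congr 1; push_cast; field_simp
  · have h1 := congrArg Complex.im h
    rw [Complex.add_im, Complex.exp_ofReal_mul_I_im, Complex.one_im, zero_add, Complex.zero_im] at h1
    have h2 : (1 : ℝ) ≤ m := by exact_mod_cast hm
    exact (Real.sin_pos_of_pos_of_lt_pi (by positivity) (div_lt_self Real.pi_pos (by linarith))).ne' h1

lemma conj_mon {M : Submonoid Aˣ} {s : Set Aˣ} {W : Aˣ} (h : ∀ g ∈ s, W * g * W⁻¹ ∈ M) {g : Aˣ}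
    (hg : g ∈ Submonoid.closure s) : W * g * W⁻¹ ∈ M :=
  Submonoid.closure_le.2 (show s ⊆ M.comap (MulAut.conj W).toMonoidHom from h) hg

lemma conj_grp {M : Subgroup Aˣ} {s : Set Aˣ} {W : Aˣ} (h : ∀ g ∈ s, W * g * W⁻¹ ∈ M) {g : Aˣ}
    (hg : g ∈ Subgroup.closure s) : W * g * W⁻¹ ∈ M :=
  (Subgroup.closure_le (M.comap (MulAut.conj W).toMonoidHom)).2 h hg

lemma conj_eu {W : Aˣ} {x y : A} {μ ν : ℂ} (hx : W * x * ↑W⁻¹ = μ • x) (hy : W * y * ↑W⁻¹ = ν • y)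
    (a b : ℂ) : W * eu (a • x + b • y) * W⁻¹ = eu ((a * μ) • x + (b * ν) • y) := by
  rw [eu_conj, mul_add, add_mul, mul_smul_comm, smul_mul_assoc, mul_smul_comm, smul_mul_assoc, hx,
    hy, smul_smul, smul_smul]

lemma conj_eu1 {W : Aˣ} {x : A} {μ : ℂ} (hx : W * x * ↑W⁻¹ = μ • x) (a : ℂ) :
    W * eu (a • x) * W⁻¹ = eu ((a * μ) • x) := by simpa using conj_eu hx hx a 0

lemma conj_inv {W : Aˣ} {x : A} {μ : ℂ} (hμ : μ ≠ 0) (hx : W * x * ↑W⁻¹ = μ • x) :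
    ↑W⁻¹ * x * ↑W⁻¹⁻¹ = μ⁻¹ • x := by
  have : (x : A) = μ • (↑W⁻¹ * x * ↑W) := by
    rw [← smul_mul_assoc, ← mul_smul_comm, ← hx]; simp [mul_assoc]
  rw [inv_inv, eq_inv_smul_iff₀ hμ, ← this]

lemma conj_gens {W : Aˣ} {x y : A} {μ ν : ℂ} (hx : W * x * ↑W⁻¹ = μ • x) (hy : W * y * ↑W⁻¹ = ν • y)
    {Ω : Set ℂ} (h : ∀ a ∈ Ω, a * μ ∈ Ω ∧ a * ν ∈ Ω) : ∀ g ∈ gens Ω x y, W * g * W⁻¹ ∈ gens Ω x y := by
  rintro g ⟨α, hα, rfl | rfl⟩
  · exact ⟨_, (h α hα).1, Or.inl (conj_eu1 hx α)⟩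
  · exact ⟨_, (h α hα).2, Or.inr (conj_eu1 hy α)⟩

lemma Grad.exp_sub2 (h : Grad N F) {a : A} (ha : a ∈ F 1) : exp a - 1 - a ∈ F 2 := by
  have h' : Grad (N + 1) F := ⟨h.anti, h.one, h.mul, eq_bot_iff.2 (h.bot ▸ h.anti (by omega))⟩
  rw [h'.exp_eq ha, Finset.sum_range_succ', Finset.sum_range_succ']
  simp only [Nat.factorial_zero, Nat.cast_one, inv_one, pow_zero, one_smul, add_sub_cancel_right,
    zero_add, Nat.factorial_one, pow_one]
  exact Submodule.sum_mem _ fun i _ =>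
    Submodule.smul_mem _ _ (h.anti (by omega) (h.pow ha (i + 1 + 1)))

/-- dilations -/
def Dil (F : ℕ → Submodule ℂ A) (U : ℂ → Aˣ) : Prop :=
  ∀ μ ≠ 0, ∀ d, ∀ a ∈ F d, U μ * a * ↑(U μ)⁻¹ - μ ^ d • a ∈ F (d + 1)

lemma eu_mem (h : Grad N F) {U : ℂ → Aˣ} (hU : Dil F U) {x y : A} (hx : x ∈ F 1) (hy : y ∈ F 1)
    (hUx : ∀ μ ≠ 0, U μ * x * ↑(U μ)⁻¹ = μ • x) (hUy : ∀ μ ≠ 0, U μ * y * ↑(U μ)⁻¹ = μ • y)
    (a b : ℂ) : eu (a • x + b • y) ∈ Subgroup.closure (gens univ x y) := by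
  set G := Subgroup.closure (gens univ x y)
  set v := a • x + b • y with hv
  have ha := (F 1).smul_mem a hx
  have hb := (F 1).smul_mem b hy
  have hv1 : v ∈ F 1 := (F 1).add_mem ha hb
  have ind : ∀ n, ∃ g ∈ G, (g : A) - exp v ∈ F (n + 2) := by
    intro n
    induction n with
    | zero =>
      refine ⟨eu (a • x) * eu (b • y), G.mul_mem (Subgroup.subset_closure ⟨a, trivial, Or.inl rfl⟩)
        (Subgroup.subset_closure ⟨b, trivial, Or.inr rfl⟩), ?_⟩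
      convert (F 2).sub_mem ((F 2).add_mem ((F 2).add_mem (h.mul (h.exp_sub ha) (h.exp_sub hb))
        (h.exp_sub2 ha)) (h.exp_sub2 hb)) (h.exp_sub2 hv1) using 1
      simp only [Units.val_mul, eu_val, hv]; noncomm_ring
    | succ n ih =>
      obtain ⟨g, hg, hc⟩ := ih
      obtain ⟨ζ, h1, h2, h3⟩ := root (n + 1)
      have h4 := h3 (by omega)
      have hζ : ζ ≠ 0 := by rintro rfl; simp at h2
      set c : A := g - exp v with hcd
      have key : ∀ μ ≠ 0, U μ * g * (U μ)⁻¹ ∈ G ∧ ∃ r ∈ F (n + 3),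
          (↑(U μ * g * (U μ)⁻¹) : A) = exp (μ • v) + μ ^ (n + 2) • c + r := fun μ hμ => by
        refine ⟨conj_grp (fun k hk => Subgroup.subset_closure
          (conj_gens (hUx μ hμ) (hUy μ hμ) (by simp) k hk)) hg, _, hU μ hμ _ _ hc, ?_⟩
        have := congrArg Units.val (conj_eu (hUx μ hμ) (hUy μ hμ) a b)
        simp only [Units.val_mul, eu_val] at this
        rw [hv, smul_add, smul_smul, smul_smul, mul_comm μ, mul_comm μ, ← this, ← hv]
        simp [hcd, mul_sub, sub_mul]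
      obtain ⟨g1, r1, hr1, e1⟩ := key (1 + ζ)⁻¹ (inv_ne_zero h4)
      obtain ⟨g2, r2, hr2, e2⟩ := key (ζ * (1 + ζ)⁻¹) (mul_ne_zero hζ (inv_ne_zero h4))
      refine ⟨_, G.mul_mem g1 g2, ?_⟩
      have e3 : exp v = exp ((1 + ζ)⁻¹ • v) * exp ((ζ * (1 + ζ)⁻¹) • v) := by
        have := congrArg Units.val (eu_add (1 + ζ)⁻¹ (ζ * (1 + ζ)⁻¹) v)
        rwa [show (1 + ζ)⁻¹ + ζ * (1 + ζ)⁻¹ = 1 by field_simp, one_smul] at this
      have u2 := h.unip hx hy g2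
      rw [Units.val_mul (_ * _ * _), e3, e1]
      rw [e2] at u2 ⊢
      rw [mul_pow, h1, neg_one_mul, neg_smul] at u2 ⊢
      have hc' := (F _).smul_mem ((1 + ζ)⁻¹ ^ (n + 2)) hc
      set c' := (1 + ζ)⁻¹ ^ (n + 2) • c
      have u1 := h.exp_sub ((F 1).smul_mem (1 + ζ)⁻¹ hv1)
      set E1 := exp ((1 + ζ)⁻¹ • v)
      set E2 := exp ((ζ * (1 + ζ)⁻¹) • v)
      have t1 := h.mul u1 hc'
      have t2 := h.mul (h.zero_of u1) hr2
      rw [add_comm] at t1 t2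
      have t3 := h.mul hr1 (h.zero_of u2)
      rw [add_zero] at t3
      have t4 := h.mul hc' u2
      convert (F (n + 3)).add_mem ((F _).add_mem ((F _).sub_mem t2 t1) t4) t3 using 1
      noncomm_ring
  obtain ⟨g, hg, hc⟩ := ind N
  have := h.bot ▸ h.anti (Nat.le_succ _) hc
  rw [Submodule.mem_bot, sub_eq_zero] at this
  rwa [← (Units.ext this : g = eu v)]

lemma norm_pow_sub [NormOneClass A] {a b : A} {M : ℝ} (hM : 1 ≤ M) (ha : ‖a‖ ≤ M) (hb : ‖b‖ ≤ M)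
    (n : ℕ) : ‖a ^ n - b ^ n‖ ≤ n * M ^ n * ‖a - b‖ := by
  induction n with
  | zero => simp
  | succ n ih =>
    have e : a ^ (n + 1) - b ^ (n + 1) = a ^ n * (a - b) + (a ^ n - b ^ n) * b := by
      rw [pow_succ, pow_succ]; noncomm_ring
    have h1 : ‖a ^ n‖ ≤ M ^ (n + 1) := (norm_pow_le a n).trans
      ((pow_le_pow_left₀ (norm_nonneg _) ha n).trans (pow_le_pow_right₀ hM (Nat.le_succ n)))
    rw [e]
    refine (norm_add_le _ _).trans ((add_le_add (norm_mul_le _ _) (norm_mul_le _ _)).trans ?_)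
    calc _ ≤ M ^ (n + 1) * ‖a - b‖ + n * M ^ n * ‖a - b‖ * M := by gcongr
      _ = _ := by push_cast; ring

lemma trotter [NormOneClass A] {γ : ℂ → A} {v : A} (h0 : γ 0 = 1) (h : HasDerivAt γ v 0) :
    Tendsto (fun n : ℕ => γ (1 / n) ^ n) atTop (𝓝 (exp v)) := by
  have hB : HasDerivAt (fun t : ℂ => exp (t • v)) v 0 := by
    simpa using hasDerivAt_exp_smul_const v (0 : ℂ)
  have ht : Tendsto (fun n : ℕ => (1 / n : ℂ)) atTop (𝓝 0) := tendsto_one_div_atTop_nhds_zero_nat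
  have bd : ∀ β : ℂ → A, β 0 = 1 → HasDerivAt β v 0 →
      ∀ᶠ n : ℕ in atTop, ‖β (1 / n)‖ ≤ 1 + (‖v‖ + 1) / n := by
    intro β hβ0 hβ
    filter_upwards [ht.eventually (hβ.isLittleO.bound one_pos)] with n hn
    rw [hβ0, sub_zero, one_mul] at hn
    have h1 := norm_add₃_le (a := β (1 / n) - 1 - (1 / n : ℂ) • v) (b := 1) (c := (1 / n : ℂ) • v)
    rw [norm_smul, norm_one, show β (1 / n) - 1 - (1 / n : ℂ) • v + 1 + (1 / n : ℂ) • v = β (1 / n)
      by abel] at h1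
    rw [norm_div, norm_one, Complex.norm_natCast] at hn h1
    rw [add_div]
    linarith [one_div_mul_eq_div (n : ℝ) ‖v‖]
  have hd := (h.sub hB).isLittleO
  simp only [Pi.sub_apply, h0, zero_smul, exp_zero, sub_self, sub_zero, smul_zero] at hd
  rw [tendsto_iff_norm_sub_tendsto_zero]
  have h2 := (hd.comp_tendsto ht).norm_norm.tendsto_div_nhds_zero.const_mul (Real.exp (‖v‖ + 1))
  rw [mul_zero] at h2
  refine squeeze_zero' (.of_forall fun n => norm_nonneg _) ?_ h2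
  filter_upwards [bd γ h0 h, bd _ (by simp) hB, eventually_gt_atTop 0] with n h3 h4 hn
  have hn' : (n : ℂ) ≠ 0 := by exact_mod_cast hn.ne'
  have hn2 : (0 : ℝ) < n := by exact_mod_cast hn
  have e : exp v = exp ((1 / n : ℂ) • v) ^ n := by
    rw [← exp_nsmul, ← Nat.cast_smul_eq_nsmul ℂ, smul_smul, mul_one_div_cancel hn', one_smul]
  have h5 : (1 + (‖v‖ + 1) / n) ^ n ≤ Real.exp (‖v‖ + 1) := by
    calc _ ≤ Real.exp ((‖v‖ + 1) / n) ^ n := by
          gcongr; linarith [Real.add_one_le_exp ((‖v‖ + 1) / n)]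
      _ = _ := by rw [← Real.exp_nat_mul, mul_div_cancel₀ _ hn2.ne']
  rw [e]
  refine (norm_pow_sub (le_add_of_nonneg_right (by positivity)) h3 h4 n).trans ?_
  simp only [Function.comp_apply, norm_div, norm_one, Complex.norm_natCast]
  rw [div_div_eq_mul_div, div_one, mul_comm (n : ℝ), mul_assoc, mul_comm (n : ℝ)]
  gcongr

lemma near {G : Subgroup Aˣ} {M M' : Submonoid Aˣ} {g g' : Aˣ} (h : ∀ᶠ k in 𝓝[G] g, k ∈ M)
    (a b : Aˣ) (hG : ∀ k ∈ G, a * k * b ∈ G) (e : a * g' * b = g)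
    (hM : ∀ k, a * k * b ∈ M → k ∈ M') : ∀ᶠ k in 𝓝[G] g', k ∈ M' := by
  have hc : ContinuousWithinAt (fun k : Aˣ => a * k * b) G g' := by fun_prop
  have := hc.tendsto_nhdsWithin hG
  rw [e] at this
  exact (this.eventually h).mono hM

lemma Grad.exp_H (h : Grad N F) (h' : Grad N H) {a b : A} (ha : a ∈ F 1) (hb : b ∈ F 1)
    (ha' : a ∈ H 0) (hb' : b ∈ H 1) : exp a ∈ H 0 ∧ exp (a + b) - exp a ∈ H 1 := by
  rw [h.exp_eq ha, h.exp_eq ((F 1).add_mem ha hb), ← Finset.sum_sub_distrib]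
  refine ⟨Submodule.sum_mem _ fun i _ => Submodule.smul_mem _ _ (h'.pow ha' i),
    Submodule.sum_mem _ fun i _ => ?_⟩
  rw [← smul_sub]
  refine Submodule.smul_mem _ _ ?_
  induction i with
  | zero => simp
  | succ i ih =>
    have h1 := h'.mul (ih (by simp_all; omega)) ((H 0).add_mem ha' (h'.anti zero_le_one hb'))
    have h2 := h'.mul (h'.pow ha' i) hb'
    rw [mul_zero] at h2
    convert (H 1).add_mem h1 h2 using 1
    rw [pow_succ, pow_succ]; noncomm_ring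

theorem alg [NormOneClass A] [FiniteDimensional ℂ A] (h : Grad N F) (h' : Grad N H)
    {U V : ℂ → Aˣ} (hU : Dil F U) (hV : Dil H V) {Z Y Nm : A} (hZ : Z ∈ F 1) (hY : Y ∈ F 1)
    (hZ' : Z ∈ H 0) (hY' : Y ∈ H 1) (hNZ : Nm * Z - Z * Nm = Z) (hNY : Nm * Y - Y * Nm = Y)
    (hN : ∀ d, ∀ a ∈ F d, Nm * a - a * Nm - (d : ℂ) • a ∈ F (d + 1))
    (hUZ : ∀ μ ≠ 0, U μ * Z * ↑(U μ)⁻¹ = μ • Z) (hUY : ∀ μ ≠ 0, U μ * Y * ↑(U μ)⁻¹ = μ • Y)
    (hVZ : ∀ μ ≠ 0, V μ * Z * ↑(V μ)⁻¹ = (1 : ℂ) • Z) (hVY : ∀ μ ≠ 0, V μ * Y * ↑(V μ)⁻¹ = μ • Y) :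
    ∃ ε : ℂ, 0 < ε.re ∧ ∃ s ∈ Submonoid.closure (gens {α | 0 < α.re} (Z - Y) Y),
      eu Z = eu (ε • (Z - Y)) * s * eu (ε • Y) := by
  set G := Subgroup.closure (gens univ Z Y) with hG
  set S := Submonoid.closure (gens {α | 0 < α.re} (Z - Y) Y) with hS
  set P := Submonoid.closure {g : Aˣ | ∃ α β : ℂ, ‖β‖ < α.re ∧ g = eu (α • Z + β • Y)} with hP
  have mG := eu_mem h hU hZ hY hUZ hUY
  have pair : ∀ c : ℂ, Z + c • Y ∈ F 1 ∧ Nm * (Z + c • Y) - (Z + c • Y) * Nm = Z + c • Y ∧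
      (∀ μ ≠ 0, U μ * (Z + c • Y) * ↑(U μ)⁻¹ = μ • (Z + c • Y)) ∧
      ∀ α : ℂ, eu (α • (Z + c • Y)) ∈ G := fun c => by
    refine ⟨(F 1).add_mem hZ ((F 1).smul_mem c hY), ?_, fun μ hμ => ?_, fun α => ?_⟩
    · rw [mul_add, add_mul, mul_smul_comm, smul_mul_assoc, add_sub_add_comm, ← smul_sub, hNZ, hNY]
    · rw [mul_add, add_mul, mul_smul_comm, smul_mul_assoc, hUZ μ hμ, hUY μ hμ]; module
    · rw [smul_add, smul_smul]; exact mG _ _
  have mZ : ∀ α : ℂ, eu (α • Z) ∈ G := fun α => by simpa using mG α 0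
  have mY : ∀ α : ℂ, eu (α • Y) ∈ G := fun α => by simpa using mG 0 α
  have eX : Z - Y = Z + (-1 : ℂ) • Y := by module
  obtain ⟨hX, hNX, hUX, mX⟩ := pair (-1)
  obtain ⟨hW, hNW, hUW, mW⟩ := pair (1 / 2)
  rw [← eX] at hX hNX hUX mX
  have G1 : Subgroup.closure (gens univ (Z - Y) Y) = G := by
    refine le_antisymm ((Subgroup.closure_le _).2 ?_) ((Subgroup.closure_le _).2 ?_)
    · rintro g ⟨α, -, rfl | rfl⟩; exacts [mX α, mY α]
    · rintro g ⟨α, -, rfl | rfl⟩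
      · exact (show α • (Z - Y) + α • Y = α • Z by module) ▸ eu_mem h hU hX hY hUX hUY α α
      · simpa using eu_mem h hU hX hY hUX hUY 0 α
  have G2 : Subgroup.closure (gens univ Z (Z + (1 / 2 : ℂ) • Y)) = G := by
    refine le_antisymm ((Subgroup.closure_le _).2 ?_) ((Subgroup.closure_le _).2 ?_)
    · rintro g ⟨α, -, rfl | rfl⟩; exacts [mZ α, mW α]
    · rintro g ⟨α, -, rfl | rfl⟩
      · simpa using eu_mem h hU hZ hW hUZ hUW α 0
      · exact (show (-2 * α) • Z + (2 * α) • (Z + (1 / 2 : ℂ) • Y) = α • Y by module) ▸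
          eu_mem h hU hZ hW hUZ hUW (-2 * α) (2 * α)
  have cG : ∀ (W : Aˣ) (μ ν : ℂ), W * Z * ↑W⁻¹ = μ • Z → W * Y * ↑W⁻¹ = ν • Y →
      ∀ k ∈ G, W * k * W⁻¹ ∈ G := fun W μ ν h1 h2 k hk =>
    conj_grp (fun k hk => Subgroup.subset_closure (conj_gens h1 h2 (by simp) k hk)) hk
  have cP : ∀ (W : Aˣ) (μ : ℝ) (ν : ℂ), 0 < μ → ‖ν‖ ≤ μ → W * Z * ↑W⁻¹ = (μ : ℂ) • Z →
      W * Y * ↑W⁻¹ = ν • Y → ∀ k ∈ P, W * k * W⁻¹ ∈ P := fun W μ ν h3 h4 h1 h2 k hk =>
    conj_mon (by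
      rintro g ⟨α, β, hαβ, rfl⟩
      refine Submonoid.subset_closure ⟨_, _, ?_, conj_eu h1 h2 α β⟩
      rw [norm_mul, Complex.re_mul_ofReal]
      nlinarith [norm_nonneg β]) hk
  have PG : ∀ k ∈ P, k ∈ G := fun k hk => Submonoid.closure_le.2 (show _ ⊆ (G.toSubmonoid : Set Aˣ) by
    rintro g ⟨α, β, -, rfl⟩; exact mG α β) hk
  have SG : ∀ k ∈ S, k ∈ G := fun k hk => Submonoid.closure_le.2 (show _ ⊆ (G.toSubmonoid : Set Aˣ) by
    rintro g ⟨α, -, rfl | rfl⟩; exacts [mX α, mY α]) hk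
  have rmul : ∀ (M : Submonoid Aˣ) g m, (∀ᶠ k in 𝓝[G] g, k ∈ M) → m ∈ M → m ∈ G →
      ∀ᶠ k in 𝓝[G] (g * m), k ∈ M := fun M g m hg hm hmG =>
    near hg 1 m⁻¹ (fun k hk => by simpa using G.mul_mem hk (G.inv_mem hmG)) (by simp)
      fun k hk => by simpa using M.mul_mem hk hm
  have eH : ∀ s : ℂ, exp (s • Z) ∈ H 0 := fun s =>
    (h.exp_H h' ((F 1).smul_mem s hZ) hY ((H 0).smul_mem s hZ') hY').1
  have eadd : ∀ s t : ℂ, exp ((s + t) • Z) = exp (s • Z) * exp (t • Z) := fun s t =>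
    congrArg Units.val (eu_add s t Z)
  -- kill the `Y`-degree
  have R : ∀ k, ∃ g ∈ P, (∀ᶠ k in 𝓝[G] g, k ∈ P) ∧ ∃ s : ℂ, 0 ≤ s.re ∧
      (g : A) - exp (s • Z) ∈ H (k + 1) := by
    intro k
    induction k with
    | zero =>
      obtain ⟨g, hg, hg'⟩ := interior_pt h hZ hW hNZ hNW hN (Ω := {α | ‖α‖ < 2 * α.re})
        (isOpen_lt (by fun_prop) (by fun_prop)) ⟨1, by simp⟩
      have hle : Submonoid.closure (gens {α | ‖α‖ < 2 * α.re} Z (Z + (1 / 2 : ℂ) • Y)) ≤ P := by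
        refine Submonoid.closure_le.2 ?_
        rintro g ⟨α, hα : ‖α‖ < _, rfl | rfl⟩
        · exact Submonoid.subset_closure ⟨α, 0, by simp; linarith [norm_nonneg α], by simp⟩
        · exact Submonoid.subset_closure ⟨α, α * (1 / 2), by simp; linarith,
            by rw [smul_add, smul_smul]⟩
      refine ⟨g, hle hg, (G2 ▸ hg').mono fun k hk => hle hk, ?_⟩
      have := hle hg
      clear hg hg'
      induction this using Submonoid.closure_induction with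
      | mem g hg =>
        obtain ⟨α, β, hαβ, rfl⟩ := hg
        exact ⟨α, (norm_nonneg β).trans hαβ.le, (h.exp_H h' ((F 1).smul_mem α hZ)
          ((F 1).smul_mem β hY) ((H 0).smul_mem α hZ') ((H 1).smul_mem β hY')).2⟩
      | one => exact ⟨0, le_rfl, by simp⟩
      | mul a b _ _ ha hb =>
        obtain ⟨s, hs, ha⟩ := ha
        obtain ⟨t, ht, hb⟩ := hb
        refine ⟨s + t, by simp; linarith, ?_⟩
        have hb0 : (b : A) ∈ H 0 := by simpa using (H 0).add_mem (h'.anti zero_le_one hb) (eH t)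
        convert (H 1).add_mem (h'.mul ha hb0) (h'.mul (eH s) hb) using 1
        rw [eadd, Units.val_mul]; noncomm_ring
    | succ k ih =>
      obtain ⟨ζ, h1, h2, -⟩ := root k
      have hζ : ζ ≠ 0 := by rintro rfl; simp at h2
      have Q : ∀ d, ∃ g ∈ P, (∀ᶠ k in 𝓝[G] g, k ∈ P) ∧ ∃ s : ℂ, 0 ≤ s.re ∧ ∃ b ∈ H (k + 1),
          b ∈ F d ∧ (g : A) - exp (s • Z) - b ∈ H (k + 2) := by
        intro d
        induction d with
        | zero =>
          obtain ⟨g, hg, hg', s, hs, hb⟩ := ih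
          exact ⟨g, hg, hg', s, hs, _, hb, (F 0).sub_mem (h.zero_of (h.unip hZ hY (PG g hg)))
            (h.zero_of (h.exp_sub ((F 1).smul_mem s hZ))), by simp⟩
        | succ d ihd =>
          obtain ⟨g, hg, hg', s, hs, b, hb, hbF, hr⟩ := ihd
          have g2 := cP (V ζ) 1 ζ one_pos h2.le (hVZ ζ hζ) (hVY ζ hζ) g hg
          have he := h.exp_sub ((F 1).smul_mem s hZ)
          have ce := congrArg Units.val (conj_eu1 (hVZ ζ hζ) s)
          simp only [Units.val_mul, eu_val, mul_one] at ce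
          refine ⟨_, P.mul_mem hg g2, rmul P g _ hg' g2 (PG _ g2), s + s, by simp; linarith,
            b * exp (s • Z) - exp (s • Z) * b,
            (H _).sub_mem (by simpa using h'.mul hb (eH s)) (by simpa using h'.mul (eH s) hb), ?_, ?_⟩
          · have t1 := h.mul he hbF
            rw [add_comm] at t1
            convert (F (d + 1)).sub_mem (h.mul hbF he) t1 using 1
            noncomm_ring
          · rw [eadd]
            have t0 := eH s
            set e := exp (s • Z)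
            set r := (g : A) - e - b with hrd
            have t1 := hV ζ hζ _ _ hb
            have t2 := (H _).add_mem (h'.anti (Nat.le_succ _) (hV ζ hζ _ _ hr))
              ((H _).smul_mem (ζ ^ (k + 2)) hr)
            rw [h1, neg_smul, one_smul, sub_neg_eq_add] at t1
            rw [sub_add_cancel] at t2
            have t3 := (H _).add_mem t1 t2
            set r' := V ζ * b * ↑(V ζ)⁻¹ + b + V ζ * r * ↑(V ζ)⁻¹ with hr'
            have e1 : (↑(V ζ * g * (V ζ)⁻¹) : A) = e - b + r' := by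
              simp only [Units.val_mul, hr', hrd, mul_sub, sub_mul, ce]; abel
            have e2 : (g : A) = e + b + r := by rw [hrd]; abel
            have hb0 := h'.anti (Nat.zero_le _) hb
            have t4 := h'.mul ((H 0).add_mem t0 hb0) t3
            have t5 := h'.anti (show k + 2 ≤ k + 1 + (k + 1) by omega) (h'.mul hb hb)
            have t6 := h'.mul hr ((H 0).add_mem ((H 0).sub_mem t0 hb0)
              (h'.anti (Nat.zero_le _) t3))
            rw [add_zero] at t6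
            rw [zero_add] at t4
            rw [Units.val_mul g, e1]
            convert (H (k + 2)).add_mem ((H _).sub_mem t4 t5) t6 using 1
            nth_rw 1 [e2]
            noncomm_ring
      obtain ⟨g, hg, hg', s, hs, b, -, hbF, hr⟩ := Q (N + 1)
      rw [h.bot, Submodule.mem_bot] at hbF
      exact ⟨g, hg, hg', s, hs, by simpa [hbF] using hr⟩
  obtain ⟨g, hg, hg', s, hs, hb⟩ := R N
  rw [h'.bot, Submodule.mem_bot, sub_eq_zero] at hb
  obtain rfl : g = eu (s • Z) := Units.ext hb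
  have i1 := rmul P _ (eu ((1 - s.im * Complex.I) • Z)) hg'
    (Submonoid.subset_closure ⟨1 - s.im * Complex.I, 0, by simp, by simp⟩) (mZ _)
  rw [← eu_add, show s + (1 - s.im * Complex.I) = (s.re + 1 : ℝ) by
    apply Complex.ext <;> simp] at i1
  have hμ : ((s.re + 1 : ℝ) : ℂ) ≠ 0 := by exact_mod_cast (by linarith : s.re + 1 ≠ 0)
  have i2 : ∀ᶠ k in 𝓝[G] (eu Z), k ∈ P := near i1 (U _) (U _)⁻¹ (cG _ _ _ (hUZ _ hμ) (hUY _ hμ))
    (by simpa using conj_eu1 (hUZ _ hμ) 1) fun k hk => by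
      have := cP (U _)⁻¹ (s.re + 1)⁻¹ _ (by positivity) (by
        rw [norm_inv, Complex.norm_real, Real.norm_of_nonneg (by linarith)])
        (by rw [Complex.ofReal_inv]; exact conj_inv hμ (hUZ _ hμ)) (conj_inv hμ (hUY _ hμ)) _ hk
      simpa [mul_assoc] using this
  have PS : P ≤ S.topologicalClosure := by
    refine Submonoid.closure_le.2 ?_
    rintro g ⟨α, β, hαβ, rfl⟩
    have hd := (((hasDerivAt_exp_smul_const (α • (Z - Y)) (0 : ℂ))).mul
      (hasDerivAt_exp_smul_const ((α + β) • Y) (0 : ℂ)))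
    have ht := trotter (by simp) hd
    simp only [zero_smul, exp_zero, one_mul, mul_one, Pi.mul_apply] at ht
    rw [show α • (Z - Y) + (α + β) • Y = α • Z + β • Y by module] at ht
    refine mem_closure_of_tendsto (f := fun n : ℕ =>
      (eu ((1 / n : ℂ) • α • (Z - Y)) * eu ((1 / n : ℂ) • (α + β) • Y)) ^ n) (b := atTop)
      (Units.isOpenEmbedding_val.isInducing.tendsto_nhds_iff.2 (by simpa [Function.comp_def] using ht)) ?_
    filter_upwards [eventually_gt_atTop 0] with n hn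
    have hn' : (0 : ℝ) < 1 / n := by positivity
    have e : (1 / n : ℂ) = (1 / n : ℝ) := by simp
    have hβ := (abs_le.1 (Complex.abs_re_le_norm β)).1
    refine S.pow_mem (S.mul_mem (Submonoid.subset_closure ⟨_, ?_, Or.inl (by rw [smul_smul])⟩)
      (Submonoid.subset_closure ⟨_, ?_, Or.inr (by rw [smul_smul])⟩)) n <;>
      rw [mem_setOf_eq, e, Complex.re_ofReal_mul] <;> refine mul_pos hn' ?_
    · linarith [norm_nonneg β]
    · rw [Complex.add_re]; linarith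
  obtain ⟨g, hg, hg'⟩ := interior_pt h hX hY hNX hNY hN (Ω := {α | 0 < α.re})
    (isOpen_lt (by fun_prop) (by fun_prop)) ⟨1, by simp⟩
  rw [G1] at hg'
  have lim : Tendsto (fun t : ℝ => U t * g * (U t)⁻¹) (𝓝[>] 0) (𝓝 1) := by
    clear hg'
    have k1 : ∀ z : A, (∀ μ ≠ 0, U μ * z * ↑(U μ)⁻¹ = μ • z) → ∀ α : ℂ,
        Tendsto (fun t : ℝ => U t * eu (α • z) * (U t)⁻¹) (𝓝[>] 0) (𝓝 1) := fun z hz α => by
      have : Tendsto (fun t : ℝ => eu ((α * t) • z)) (𝓝 0) (𝓝 (eu ((α * (0 : ℝ)) • z))) :=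
        (eu_cont.comp (by fun_prop : Continuous fun t : ℝ => (α * t) • z)).tendsto 0
      simp only [Complex.ofReal_zero, mul_zero, zero_smul, eu_zero] at this
      refine (this.mono_left nhdsWithin_le_nhds).congr' ?_
      filter_upwards [self_mem_nhdsWithin] with t ht
      exact (conj_eu1 (hz _ (by exact_mod_cast (mem_Ioi.1 ht).ne')) α).symm
    induction hg using Submonoid.closure_induction with
    | mem g hg => obtain ⟨α, -, rfl | rfl⟩ := hg; exacts [k1 _ hUX α, k1 _ hUY α]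
    | one => simp
    | mul a b _ _ ha hb => simpa [mul_assoc] using ha.mul hb
  have l2 : Tendsto (fun t : ℝ => eu Z * (U t * g * (U t)⁻¹)⁻¹) (𝓝[>] 0) (𝓝[G] (eu Z)) := by
    refine tendsto_nhdsWithin_iff.2 ⟨by simpa using lim.inv.const_mul (eu Z), ?_⟩
    filter_upwards [self_mem_nhdsWithin] with t ht
    have ht' : (t : ℂ) ≠ 0 := by exact_mod_cast (mem_Ioi.1 ht).ne'
    exact G.mul_mem (by simpa using mZ 1) (G.inv_mem (cG _ _ _ (hUZ _ ht') (hUY _ ht') g (SG g hg)))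
  obtain ⟨t, h1, ht : 0 < t⟩ := ((l2.eventually i2).and self_mem_nhdsWithin).exists
  have ht' : (t : ℂ) ≠ 0 := by exact_mod_cast ht.ne'
  set u := U t * g * (U t)⁻¹ with hu
  have i3 : ∀ᶠ k in 𝓝[G] u, k ∈ S := near hg' (U t)⁻¹ (U t)⁻¹⁻¹
    (cG _ _ _ (conj_inv ht' (hUZ _ ht')) (conj_inv ht' (hUY _ ht'))) (by simp [hu, mul_assoc])
    fun k hk => by
      have := conj_mon (M := S) (fun k hk => Submonoid.subset_closure
        (conj_gens (hUX _ ht') (hUY _ ht') (fun a (ha : 0 < a.re) => by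
          show 0 < (a * t).re ∧ 0 < (a * t).re
          rw [Complex.re_mul_ofReal]; exact ⟨mul_pos ha ht, mul_pos ha ht⟩) k hk)) hk
      simpa [mul_assoc] using this
  have i4 : ∀ᶠ k in 𝓝[G] (eu Z), k ∈ S := by
    have h2 := eventually_nhdsWithin_iff.1 (eventually_eventually_nhdsWithin.2 i3)
    have h3 : ContinuousAt (fun s : Aˣ => s⁻¹ * eu Z) (eu Z * u⁻¹) := by fun_prop
    have h4 := h3.tendsto.eventually (by simpa using h2)
    obtain ⟨s, h5, hs⟩ := mem_closure_iff_nhds.1 (PS h1) _ h4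
    exact near (h5 (G.mul_mem (G.inv_mem (SG s hs)) (by simpa using mZ 1))) s⁻¹ 1
      (fun k hk => by simpa using G.mul_mem (G.inv_mem (SG s hs)) hk) (by simp)
      fun k hk => by simpa using S.mul_mem hs hk
  have l3 : Tendsto (fun t : ℝ => eu ((-t : ℂ) • (Z - Y)) * eu Z * eu ((-t : ℂ) • Y)) (𝓝[>] 0)
      (𝓝[G] (eu Z)) := by
    refine tendsto_nhdsWithin_iff.2 ⟨?_, .of_forall fun t =>
      G.mul_mem (G.mul_mem (mX _) (by simpa using mZ 1)) (mY _)⟩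
    have : Continuous fun t : ℝ => eu ((-t : ℂ) • (Z - Y)) * eu Z * eu ((-t : ℂ) • Y) :=
      ((eu_cont.comp (by fun_prop)).mul continuous_const).mul (eu_cont.comp (by fun_prop))
    simpa using (this.tendsto 0).mono_left nhdsWithin_le_nhds
  obtain ⟨ε, h5, hε : 0 < ε⟩ := ((l3.eventually i4).and self_mem_nhdsWithin).exists
  exact ⟨ε, hε, _, h5, by simp [eu_neg, mul_assoc]⟩

theorem alt {X Y : A} {ε : ℂ} (hε : 0 < ε.re) {s : Aˣ}
    (hs : s ∈ Submonoid.closure (gens {α | 0 < α.re} X Y)) :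
    ∃ l : List (ℂ × ℂ), l ≠ [] ∧ (∀ p ∈ l, 0 < p.1.re ∧ 0 < p.2.re) ∧
      eu (ε • X) * s * eu (ε • Y) = (l.map fun p => eu (p.1 • X) * eu (p.2 • Y)).prod := by
  let Pr : List (ℂ × ℂ) → Aˣ := fun l => (l.map fun p => eu (p.1 • X) * eu (p.2 • Y)).prod
  let B : Aˣ → Prop := fun t => ∃ l : List (ℂ × ℂ), (∀ p ∈ l, 0 < p.1.re ∧ 0 < p.2.re) ∧
    ∃ β : ℂ, 0 < β.re ∧ (t = eu (β • Y) * Pr l ∨ ∃ α : ℂ, 0 < α.re ∧
      t = eu (α • X) * (eu (β • Y) * Pr l))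
  have hX : ∀ (α : ℂ) t, 0 < α.re → B t → ∃ l : List (ℂ × ℂ), (∀ p ∈ l, 0 < p.1.re ∧ 0 < p.2.re) ∧
      ∃ β : ℂ, 0 < β.re ∧ ∃ α' : ℂ, 0 < α'.re ∧
        eu (α • X) * t = eu (α' • X) * (eu (β • Y) * Pr l) := by
    rintro α t hα ⟨l, hl, β, hβ, rfl | ⟨α', hα', rfl⟩⟩
    · exact ⟨l, hl, β, hβ, α, hα, rfl⟩
    · exact ⟨l, hl, β, hβ, α + α', by simp; linarith, by rw [eu_add, mul_assoc]⟩
  have hB : B (s * eu (ε • Y)) := by
    induction hs using Submonoid.closure_induction_left with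
    | one => exact ⟨[], by simp, ε, hε, Or.inl (by simp [Pr])⟩
    | mul_left g hg s _ ih =>
      rw [mul_assoc]
      obtain ⟨α, hα : 0 < α.re, rfl | rfl⟩ := hg
      · obtain ⟨l, hl, β, hβ, α', hα', e⟩ := hX α _ hα ih
        exact ⟨l, hl, β, hβ, Or.inr ⟨α', hα', e⟩⟩
      · obtain ⟨l, hl, β, hβ, e | ⟨α', hα', e⟩⟩ := ih
        · exact ⟨l, hl, α + β, by simp; linarith, Or.inl (by rw [e, eu_add, mul_assoc])⟩
        · exact ⟨(α', β) :: l, by simpa [hα', hβ] using hl, α, hα,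
            Or.inl (by simp [e, Pr, mul_assoc])⟩
  obtain ⟨l, hl, β, hβ, α', hα', e⟩ := hX ε _ hε hB
  exact ⟨(α', β) :: l, by simp, by simpa [hα', hβ] using hl, by simpa [Pr, mul_assoc] using e⟩

end H53.Sp
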