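import Pool.Agent.H53.SpB

/-! The truncated free algebra on two letters, as operators on words of length `≤ N`. -/

namespace H53.Sp

open NormedSpace Filter Topology Set

/-- words of length at most `N` -/
abbrev Wd (N : ℕ) := {l : List Bool // l.length ≤ N}

noncomputable instance (N : ℕ) : Fintype (Wd N) := (List.finite_length_le Bool N).fintype

instance (N : ℕ) : Nonempty (Wd N) := ⟨⟨[], Nat.zero_le _⟩⟩

/-- operators -/
abbrev Op (N : ℕ) := (Wd N → ℂ) →L[ℂ] (Wd N → ℂ)

noncomputable instance (N : ℕ) : NormedAlgebra ℚ (Op N) := NormedAlgebra.restrictScalars ℚ ℂ _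

variable {N : ℕ}

/-- basis vector -/
def sing (N : ℕ) (l : List Bool) : Wd N → ℂ := fun w => if w.1 = l then 1 else 0

/-- prepend a letter -/
noncomputable def M (N : ℕ) (i : Bool) : Op N :=
  ∑ w : Wd N, (ContinuousLinearMap.proj w).smulRight (sing N (i :: w.1))

lemma M_apply (i : Bool) (u : Wd N → ℂ) : M N i u = ∑ w : Wd N, u w • sing N (i :: w.1) := by
  simp [M]

/-- diagonal operators -/
noncomputable def Dg (N : ℕ) (χ : List Bool → ℂ) : Op N :=
  ContinuousLinearMap.pi fun w => χ w.1 • ContinuousLinearMap.proj w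

@[simp] lemma Dg_apply (χ : List Bool → ℂ) (u : Wd N → ℂ) (w : Wd N) : Dg N χ u w = χ w.1 * u w := rfl

lemma Dg_M (i : Bool) {χ χ' : List Bool → ℂ} (h : ∀ l, χ (i :: l) = χ' l) :
    Dg N χ * M N i = M N i * Dg N χ' := by
  ext1 u
  ext w
  simp only [ContinuousLinearMap.mul_apply, Dg_apply, M_apply, Finset.sum_apply, Finset.mul_sum,
    Pi.smul_apply, smul_eq_mul, sing]
  refine Finset.sum_congr rfl fun w' _ => ?_
  split_ifs with e
  · rw [e, h]; ring
  · simp

/-- filtration by a weight -/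
def Fil (N : ℕ) (ω : List Bool → ℕ) (d : ℕ) : Submodule ℂ (Op N) where
  carrier := {a | ∀ n (u : Wd N → ℂ), (∀ w, ω w.1 < n → u w = 0) → ∀ w, ω w.1 < n + d → a u w = 0}
  zero_mem' := fun _ _ _ _ _ => rfl
  add_mem' := fun ha hb n u hu w hw => by simp [ha n u hu w hw, hb n u hu w hw]
  smul_mem' := fun c a ha n u hu w hw => by simp [ha n u hu w hw]

variable {ω : List Bool → ℕ}

lemma grad (hω : ∀ l, ω l ≤ l.length) : Grad N (Fil N ω) where
  anti := fun _ _ h _ ha n u hu w hw => ha n u hu w (by omega)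
  one := fun n u hu w hw => hu w hw
  mul := fun ha hb n u hu w hw => ha _ _ (hb n u hu) w (by omega)
  bot := eq_bot_iff.2 fun a ha => by
    rw [Submodule.mem_bot]
    ext1 u; ext w
    exact ha 0 u (by simp) w (by have := hω w.1; have := w.2; omega)

lemma M_mem {i : Bool} {c : ℕ} (h : ∀ l, ω (i :: l) = ω l + c) : M N i ∈ Fil N ω c := by
  intro n u hu w hw
  simp only [M_apply, Finset.sum_apply, Pi.smul_apply, smul_eq_mul, sing]
  refine Finset.sum_eq_zero fun w' _ => ?_
  split_ifs with e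
  · rw [e, h] at hw; rw [hu w' (by omega), zero_mul]
  · simp

lemma Fil_Dg {d n : ℕ} {a : Op N} (ha : a ∈ Fil N ω d) {u : Wd N → ℂ} (hu : ∀ w, ω w.1 < n → u w = 0)
    (ψ : ℕ → ℂ) {w : Wd N} (hw : ω w.1 < n + (d + 1)) :
    a (Dg N (fun l => ψ (ω l)) u) w = ψ n * a u w ∧ (a u w = 0 ∨ ω w.1 = n + d) := by
  constructor
  · have := ha (n + 1) (Dg N (fun l => ψ (ω l)) u - ψ n • u) (fun w' hw' => by
      rcases (Nat.lt_succ_iff.1 hw').eq_or_lt with e | e
      · simp [e]
      · simp [hu w' e]) w (by omega)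
    simpa [sub_eq_zero] using this
  · rcases (show ω w.1 ≤ n + d by omega).eq_or_lt with e | e
    · exact Or.inr e
    · exact Or.inl (ha n u hu w e)

open Classical in
/-- dilation units -/
noncomputable def Ud (N : ℕ) (ω : List Bool → ℕ) (μ : ℂ) : (Op N)ˣ :=
  if h : μ = 0 then 1 else ⟨Dg N fun l => μ ^ ω l, Dg N fun l => μ⁻¹ ^ ω l,
    by ext1 u; ext w; simp [h], by ext1 u; ext w; simp [h]⟩

lemma Ud_val {μ : ℂ} (h : μ ≠ 0) : (Ud N ω μ : Op N) = Dg N (fun l => μ ^ ω l) ∧
    (↑(Ud N ω μ)⁻¹ : Op N) = Dg N fun l => μ⁻¹ ^ ω l := by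
  simp only [Ud, dif_neg h]; exact ⟨trivial, rfl⟩

lemma dil : Dil (Fil N ω) (Ud N ω) := by
  intro μ hμ d a ha n u hu w hw
  obtain ⟨h1, h2⟩ := Fil_Dg ha hu (fun k => μ⁻¹ ^ k) hw
  rw [(Ud_val hμ).1, (Ud_val hμ).2]
  simp only [ContinuousLinearMap.sub_apply, ContinuousLinearMap.mul_apply, Pi.sub_apply, Dg_apply,
    h1, ContinuousLinearMap.smul_apply, Pi.smul_apply, smul_eq_mul]
  rcases h2 with h2 | h2
  · simp [h2]
  · rw [h2, pow_add, inv_pow]; field_simp; ring

lemma Ud_M {i : Bool} {c : ℕ} (h : ∀ l, ω (i :: l) = ω l + c) {μ : ℂ} (hμ : μ ≠ 0) :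
    Ud N ω μ * M N i * ↑(Ud N ω μ)⁻¹ = μ ^ c • M N i := by
  rw [Units.mul_inv_eq_iff_eq_mul, (Ud_val hμ).1, Dg_M i (χ' := fun l => μ ^ c * μ ^ ω l)
    fun l => by rw [h, pow_add, mul_comm]]
  ext1 u
  rw [ContinuousLinearMap.mul_apply, ContinuousLinearMap.mul_apply, ContinuousLinearMap.smul_apply,
    ← map_smul]
  congr 1
  ext w; simp [mul_assoc]

theorem model (N : ℕ) : ∃ l : List (ℂ × ℂ), l ≠ [] ∧ (∀ p ∈ l, 0 < p.1.re ∧ 0 < p.2.re) ∧
    exp (M N false) = (l.map fun p =>
      exp (p.1 • (M N false - M N true)) * exp (p.2 • M N true)).prod := by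
  have hN : ∀ i, Dg N (fun l => l.length) * M N i - M N i * Dg N (fun l => l.length) = M N i := by
    intro i
    rw [Dg_M i (χ' := fun l => l.length + 1) (by simp), ← mul_sub]
    conv_rhs => rw [← mul_one (M N i)]
    congr 1
    ext1 u; ext w; simp [add_mul]
  have h1 : ∀ i l, List.length (i :: l) = List.length l + 1 := fun (i : Bool) l => rfl
  have h2 : ∀ l, List.count true (false :: l) = List.count true l + 0 := by simp
  have h3 : ∀ l, List.count true (true :: l) = List.count true l + 1 := by simp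
  obtain ⟨ε, hε, s, hs, e⟩ := alg (A := Op N) (grad (ω := List.length) fun _ => le_rfl)
    (grad (ω := List.count true) fun _ => List.count_le_length) dil dil (M_mem (h1 false))
    (M_mem (h1 true)) (M_mem h2) (M_mem h3) (hN false) (hN true)
    (fun d a ha n u hu w hw => by
      obtain ⟨h4, h5⟩ := Fil_Dg ha hu (fun k => (k : ℂ)) hw
      simp only [ContinuousLinearMap.sub_apply, ContinuousLinearMap.mul_apply, Pi.sub_apply,
        Dg_apply, h4, ContinuousLinearMap.smul_apply, Pi.smul_apply, smul_eq_mul]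
      rcases h5 with h5 | h5
      · simp [h5]
      · rw [h5]; push_cast; ring)
    (fun μ hμ => by simpa using Ud_M (h1 false) hμ) (fun μ hμ => by simpa using Ud_M (h1 true) hμ)
    (fun μ hμ => by simpa using Ud_M h2 hμ) (fun μ hμ => by simpa using Ud_M h3 hμ)
  obtain ⟨l, hl, hl', e'⟩ := alt hε hs
  refine ⟨l, hl, hl', ?_⟩
  have := congrArg Units.val (e.trans e')
  rw [← Units.coeHom_apply (List.prod _), map_list_prod] at this
  simpa [Function.comp_def] using this

end H53.Sp
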