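import Pool.Agent.H53.SpC

/-! Taylor expansion of compositions of complex-time flows. -/

namespace H53.Sp

open NormedSpace Filter Topology Set Asymptotics

variable {E : Type} [NormedAddCommGroup E] [NormedSpace ℂ E]

/-- `y = e^{τ f} x`: the value at `s = 1` of a solution of `γ' = τ f(γ)` on `[0,1]`, `γ 0 = x`. -/
def IsFlow (f : E → E) (τ : ℂ) (x y : E) : Prop :=
  ∃ γ : ℝ → E, γ 0 = x ∧ γ 1 = y ∧
    ∀ s ∈ Icc (0 : ℝ) 1, HasDerivWithinAt γ (τ • f (γ s)) (Icc 0 1) s

/-- holomorphic maps -/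
def Hol (E : Type) [NormedAddCommGroup E] [NormedSpace ℂ E] : Submodule ℂ (E → E) where
  carrier := {φ | ContDiff ℂ (⊤ : ℕ∞) φ}
  zero_mem' := show ContDiff ℂ (⊤ : ℕ∞) (fun _ : E => (0 : E)) from contDiff_const
  add_mem' := fun {a b} (ha : ContDiff ℂ (⊤ : ℕ∞) a) (hb : ContDiff ℂ (⊤ : ℕ∞) b) => ha.add hb
  smul_mem' := fun c a (h : ContDiff ℂ (⊤ : ℕ∞) a) => h.const_smul c

lemma Hol.sm (φ : Hol E) : ContDiff ℂ (⊤ : ℕ∞) φ.1 := φ.2

lemma Hol.diff (φ : Hol E) : Differentiable ℂ φ.1 := (Hol.sm φ).differentiable (by simp)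

/-- Lie derivative -/
noncomputable def Ld (f : Hol E) : Module.End ℂ (Hol E) where
  toFun φ := ⟨fun x => fderiv ℂ φ.1 x (f.1 x),
    ((Hol.sm φ).fderiv_right (m := (⊤ : ℕ∞)) (by simp)).clm_apply (Hol.sm f)⟩
  map_add' φ ψ := Subtype.ext <| funext fun x => by
    simp [fderiv_add (Hol.diff φ x) (Hol.diff ψ x)]
  map_smul' c φ := Subtype.ext <| funext fun x => by
    simp [fderiv_const_smul (Hol.diff φ x)]

lemma Ld_lin (a b : ℂ) (f g : Hol E) : Ld (a • f + b • g) = a • Ld f + b • Ld g := by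
  ext φ x; simp [Ld]

lemma path_bound [ProperSpace E] (f : Hol E) (x0 : E) : ∃ K > 0, ∀ (τ : ℂ) (γ : ℝ → E),
    ‖τ‖ * K ≤ 1 → τ ≠ 0 → ‖γ 0 - x0‖ ≤ 1 →
    (∀ s ∈ Icc (0 : ℝ) 1, HasDerivWithinAt γ (τ • f.1 (γ s)) (Icc 0 1) s) →
    ∀ s ∈ Icc (0 : ℝ) 1, ‖γ s - γ 0‖ ≤ ‖τ‖ * K := by
  obtain ⟨C, hC⟩ := (isCompact_closedBall x0 2).exists_bound_of_continuousOn
    (Hol.diff f).continuous.continuousOn
  have hC0 : 0 ≤ C := (norm_nonneg _).trans (hC x0 (by simp))
  refine ⟨C + 1, by positivity, fun τ γ hτ h0 h1 hγ s hs => ?_⟩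
  have hK : 0 ≤ ‖τ‖ * (C + 1) := by positivity
  have := image_norm_le_of_norm_deriv_right_lt_deriv_boundary' (f := fun s => γ s - γ 0)
    (f' := fun s => τ • f.1 (γ s)) (a := 0) (b := 1)
    (fun s hs => (hγ s hs).continuousWithinAt.sub continuousWithinAt_const)
    (fun s hs => ((hγ s (Ico_subset_Icc_self hs)).mono_of_mem_nhdsWithin
      (Icc_mem_nhdsGE_of_mem hs)).sub_const _)
    (B := fun s => ‖τ‖ * (C + 1) * s) (B' := fun _ => ‖τ‖ * (C + 1)) (by simp) (by fun_prop)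
    (fun s _ => by simpa using ((hasDerivAt_id s).const_mul (‖τ‖ * (C + 1))).hasDerivWithinAt)
    (fun s hs e => by
      have h2 : γ s ∈ Metric.closedBall x0 2 := by
        rw [mem_closedBall_iff_norm]
        have h3 := norm_add_le (γ s - γ 0) (γ 0 - x0)
        rw [sub_add_sub_cancel] at h3
        nlinarith [hs.2]
      rw [norm_smul]
      exact mul_lt_mul_of_pos_left (by linarith [hC _ h2]) (norm_pos_iff.2 h0)) hs
  exact this.trans (mul_le_of_le_one_right hK hs.2)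

lemma taylor [ProperSpace E] (f : Hol E) (x0 : E) (n : ℕ) (φ : Hol E) :
    ∃ C, ∀ (τ : ℂ) (γ : ℝ → E), (∀ s ∈ Icc (0 : ℝ) 1, γ s ∈ Metric.closedBall x0 2) →
    (∀ s ∈ Icc (0 : ℝ) 1, HasDerivWithinAt γ (τ • f.1 (γ s)) (Icc 0 1) s) → ∀ s ∈ Icc (0 : ℝ) 1,
    ‖φ.1 (γ s) - ∑ k ∈ Finset.range n, ((s * τ) ^ k / k.factorial) • ((Ld f ^ k) φ).1 (γ 0)‖ ≤
      C * ‖τ‖ ^ n := by
  induction n generalizing φ with
  | zero =>
    obtain ⟨C, hC⟩ := (isCompact_closedBall x0 2).exists_bound_of_continuousOn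
      (Hol.diff φ).continuous.continuousOn
    exact ⟨C, fun τ γ h1 _ s hs => by simpa using hC _ (h1 s hs)⟩
  | succ n ih =>
    obtain ⟨C, hC⟩ := ih (Ld f φ)
    refine ⟨C, fun τ γ h1 h2 s hs => ?_⟩
    have hd : ∀ s ∈ Icc (0 : ℝ) 1, HasDerivWithinAt (fun s : ℝ => φ.1 (γ s) -
        ∑ k ∈ Finset.range n, ((s * τ) ^ (k + 1) / (k + 1).factorial) • ((Ld f ^ (k + 1)) φ).1 (γ 0))
        (τ • ((Ld f φ).1 (γ s) - ∑ k ∈ Finset.range n,
          ((s * τ) ^ k / k.factorial) • ((Ld f ^ k) (Ld f φ)).1 (γ 0))) (Icc 0 1) s := by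
      intro s hs
      rw [smul_sub, Finset.smul_sum]
      refine HasDerivWithinAt.sub ?_ (HasDerivWithinAt.fun_sum fun k _ => ?_)
      · have := ((Hol.diff φ (γ s)).hasFDerivAt.restrictScalars ℝ).comp_hasDerivWithinAt s (h2 s hs)
        simpa [Ld, Function.comp_def] using this
      · have h3 : HasDerivAt (fun z : ℂ => (z * τ) ^ (k + 1) / (k + 1).factorial)
            (τ * ((s * τ) ^ k / k.factorial)) s := by
          refine ((((hasDerivAt_id (s : ℂ)).mul_const τ).pow (k + 1)).div_const _).congr_deriv ?_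
          have : (k.factorial : ℂ) ≠ 0 := by exact_mod_cast k.factorial_ne_zero
          have : (k + 1 : ℂ) ≠ 0 := by exact_mod_cast k.succ_ne_zero
          simp only [Nat.factorial_succ, id]; push_cast; field_simp
        rw [smul_smul]
        exact (h3.comp_ofReal.smul_const _).hasDerivWithinAt
    have := norm_image_sub_le_of_norm_deriv_le_segment' hd (C := ‖τ‖ * (C * ‖τ‖ ^ n))
      (fun s hs => by
        rw [norm_smul]; gcongr; exact hC τ γ h1 h2 s (Ico_subset_Icc_self hs)) s hs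
    have h4 := (norm_nonneg _).trans (hC τ γ h1 h2 s hs)
    rw [Finset.sum_range_succ']
    simp only [Complex.ofReal_zero, zero_mul, ne_eq, Nat.add_eq_zero_iff, one_ne_zero, and_false,
      not_false_eq_true, zero_pow, zero_div, zero_smul, Finset.sum_const_zero, sub_zero] at this
    simp only [pow_zero, Nat.factorial_zero, Nat.cast_one, div_one, one_smul, Module.End.one_apply]
    rw [← sub_sub, pow_succ ‖τ‖, ← mul_assoc, mul_comm _ ‖τ‖]
    exact this.trans (mul_le_of_le_one_right (by positivity) hs.2)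

variable {N : ℕ} (f : Bool → Hol E) (x0 : E)

/-- iterated Lie derivatives along a word -/
noncomputable def Lw : List Bool → Module.End ℂ (Hol E)
  | [] => 1
  | i :: w => Lw w * Ld (f i)

/-- evaluation of a formal series -/
noncomputable def ev (T : ℝ) (u : Wd N → ℂ) (φ : Hol E) : E :=
  ∑ w : Wd N, (u w * (T : ℂ) ^ w.1.length) • (Lw f w.1 φ).1 x0

/-- negligible terms -/
def Neg (N : ℕ) (r : ℝ → E) : Prop := r =O[𝓝[>] 0] fun T : ℝ => T ^ (N + 1)

lemma ev_lin (T : ℝ) (a b : ℂ) (u v : Wd N → ℂ) (φ : Hol E) :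
    ev f x0 T (a • u + b • v) φ = a • ev f x0 T u φ + b • ev f x0 T v φ := by
  simp [ev, Finset.smul_sum, smul_smul, add_mul, add_smul, Finset.sum_add_distrib, mul_assoc]

lemma ev_lin' (T : ℝ) (a b : ℂ) (u : Wd N → ℂ) (φ ψ : Hol E) :
    ev f x0 T u (a • φ + b • ψ) = a • ev f x0 T u φ + b • ev f x0 T u ψ := by
  simp [ev, Finset.smul_sum, smul_smul, Finset.sum_add_distrib, mul_comm]

lemma ev_sum {ι : Type} (s : Finset ι) (T : ℝ) (c : ι → ℂ) (u : ι → Wd N → ℂ) (φ : Hol E) :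
    ev f x0 T (∑ i ∈ s, c i • u i) φ = ∑ i ∈ s, c i • ev f x0 T (u i) φ := by
  simp only [ev, Finset.sum_apply, Pi.smul_apply, smul_eq_mul, Finset.sum_mul, Finset.sum_smul,
    Finset.smul_sum, smul_smul, mul_assoc]
  exact Finset.sum_comm

lemma ev_sing (T : ℝ) (l : List Bool) (φ : Hol E) : ev f x0 T (sing N l) φ =
    if l.length ≤ N then (T : ℂ) ^ l.length • (Lw f l φ).1 x0 else 0 := by
  unfold ev sing
  split_ifs with h
  · rw [Finset.sum_eq_single ⟨l, h⟩ (fun w _ hw => by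
      rw [if_neg fun e => hw (Subtype.ext e), zero_mul, zero_smul]) (by simp)]
    simp
  · refine Finset.sum_eq_zero fun w _ => ?_
    rw [if_neg fun e : w.1 = l => h (e ▸ w.2), zero_mul, zero_smul]

lemma ev_M (i : Bool) (u : Wd N → ℂ) (φ : Hol E) :
    Neg N fun T => ev f x0 T (M N i u) φ - (T : ℂ) • ev f x0 T u (Ld (f i) φ) := by
  simp only [M_apply, ev_sum, ev_sing]
  simp only [ev, Finset.smul_sum, ← Finset.sum_sub_distrib]
  unfold Neg
  refine (IsBigO.sum (s := Finset.univ) fun w _ => ?_).congr_left fun T => Finset.sum_apply _ _ _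
  split_ifs with h
  · refine (isBigO_zero _ _).congr_left fun T => ?_
    simp [Lw, smul_smul, pow_succ]; ring_nf; simp
  · have h1 : w.1.length = N := by have := w.2; simp at h; omega
    refine IsBigO.of_bound (‖u w‖ * ‖(Lw f w.1 (Ld (f i) φ)).1 x0‖) (.of_forall fun T => ?_)
    simp [norm_smul, h1, pow_succ]
    apply le_of_eq; ring

lemma Neg.smul {r : ℝ → E} (h : Neg N r) (c : ℂ) (k : ℕ) : Neg N fun T => (c * T) ^ k • r T := by
  have : (fun T : ℝ => (c * T) ^ k) =O[𝓝[>] 0] fun _ => (1 : ℝ) :=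
    (((by fun_prop : Continuous fun T : ℝ => (c * T) ^ k).tendsto 0).mono_left
      nhdsWithin_le_nhds).isBigO_one ℝ
  simpa [Neg] using this.smul h

lemma ev_pow (α β : ℂ) (k : ℕ) (u : Wd N → ℂ) (φ : Hol E) :
    Neg N fun T => ev f x0 T (((α • M N false + β • M N true) ^ k) u) φ -
      (T : ℂ) ^ k • ev f x0 T u ((Ld (α • f false + β • f true) ^ k) φ) := by
  induction k generalizing φ with
  | zero => simpa [Neg] using isBigO_zero _ _
  | succ k ih =>
    set v := ((α • M N false + β • M N true) ^ k) u with hv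
    refine ((((ev_M f x0 false v φ).const_smul_left α).add
      ((ev_M f x0 true v φ).const_smul_left β)).add
      ((ih (Ld (α • f false + β • f true) φ)).smul 1 1)).congr_left fun T => ?_
    have e1 : ((α • M N false + β • M N true) ^ (k + 1)) u = α • M N false v + β • M N true v := by
      rw [pow_succ']; rfl
    have e2 : ev f x0 T v (Ld (α • f false + β • f true) φ) =
        α • ev f x0 T v (Ld (f false) φ) + β • ev f x0 T v (Ld (f true) φ) := by
      rw [Ld_lin, ← ev_lin']; rfl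
    rw [e1, ev_lin, e2, pow_succ (Ld _), Module.End.mul_apply]
    simp only [Pi.smul_apply]
    module

/-- the set-valued map `R` has the expansion `u` -/
structure Good (R : ℝ → E → Prop) (u : Wd N → ℂ) : Prop where
  ex : ∀ᶠ T in 𝓝[>] 0, ∃ z, R T z
  near : ∀ ε > 0, ∀ᶠ T in 𝓝[>] 0, ∀ z, R T z → ‖z - x0‖ ≤ ε
  exp : ∀ φ : Hol E, ∃ C, ∀ᶠ T in 𝓝[>] (0 : ℝ), ∀ z, R T z →
    ‖φ.1 z - ev f x0 T u φ‖ ≤ C * T ^ (N + 1)

lemma good_start : Good f x0 (fun _ z => z = x0) (sing N []) :=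
  ⟨.of_forall fun _ => ⟨x0, rfl⟩, fun ε hε => .of_forall fun _ z e => by simp [e, hε.le],
    fun φ => ⟨0, .of_forall fun T z e => by simp [e, ev_sing, Lw]⟩⟩

lemma op_pow (c : ℂ) (a : Op N) (k : ℕ) : (c • a) ^ k = c ^ k • a ^ k := by
  induction k with
  | zero => simp
  | succ k ih => rw [pow_succ, ih]; ext1 u; simp [pow_succ, smul_smul, mul_comm]

lemma Good.step [ProperSpace E] {R : ℝ → E → Prop} {u : Wd N → ℂ} (h : Good f x0 R u) (α β : ℂ)
    {c : ℂ} (hc : c ≠ 0) :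
    Good f x0 (fun T z => ∃ v, R T v ∧ IsFlow (α • f false + β • f true).1 (c * T) v z)
      (NormedSpace.exp (c • (α • M N false + β • M N true)) u) := by
  set g := α • f false + β • f true with hg
  obtain ⟨K, hK0, hK⟩ := path_bound g x0
  have small : ∀ ε > 0, ∀ᶠ T : ℝ in 𝓝[>] 0, ‖c * T‖ * K ≤ ε := fun ε hε =>
    (((by fun_prop : Continuous fun T : ℝ => ‖c * T‖ * K).tendsto 0).mono_left
      nhdsWithin_le_nhds).eventually_le_const (by simpa using hε)
  have ne : ∀ T : ℝ, 0 < T → c * T ≠ 0 := fun T hT => mul_ne_zero hc (by exact_mod_cast hT.ne')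
  refine ⟨?_, fun ε hε => ?_, fun φ => ?_⟩
  · have h1 : ContDiffAt ℝ 1 (c • g).1 x0 :=
      (((Hol.sm (c • g)).of_le (by simp)).restrict_scalars ℝ).contDiffAt
    obtain ⟨r, hr, δ, hδ, H⟩ := h1.exists_forall_mem_closedBall_exists_eq_forall_mem_Ioo_hasDerivAt 0
    filter_upwards [h.ex, h.near r hr, Ioo_mem_nhdsGT hδ] with T ⟨v, hv⟩ h2 hT
    obtain ⟨Y, hY0, hY⟩ := H v (mem_closedBall_iff_norm.2 (h2 v hv))
    refine ⟨Y (T * 1), v, hv, fun s => Y (T * s), by simpa, rfl, fun s hs => ?_⟩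
    have := (hY (T * s) ⟨by nlinarith [hs.1, hT.1], by nlinarith [hs.2, hT.1, hT.2]⟩).scomp s
      ((hasDerivAt_id s).const_mul T)
    refine (this.congr_deriv ?_).hasDerivWithinAt
    simp only [mul_one, Submodule.coe_smul, Pi.smul_apply]
    rw [mul_comm c, mul_smul, Complex.coe_smul]
  · filter_upwards [h.near _ (half_pos hε), h.near 1 one_pos, small _ (half_pos hε), small 1 one_pos,
      self_mem_nhdsWithin] with T h1 h2 h3 h4 hT z ⟨v, hv, γ, e0, e1, hγ⟩
    have h5 := hK _ γ h4 (ne T hT) (e0 ▸ h2 v hv) hγ 1 (by simp)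
    have h6 := norm_add_le (z - v) (v - x0)
    rw [e0, e1] at h5
    rw [sub_add_sub_cancel] at h6
    linarith [h1 v hv]
  · obtain ⟨C1, hC1⟩ := taylor g x0 (N + 1) φ
    choose C2 hC2 using fun k => h.exp ((Ld g ^ k) φ)
    have hF : c • (α • M N false + β • M N true) ∈ Fil N List.length 1 :=
      Submodule.smul_mem _ _ (Submodule.add_mem _ (Submodule.smul_mem _ _ (M_mem fun _ => rfl))
        (Submodule.smul_mem _ _ (M_mem fun _ => rfl)))
    have h3 : Neg N fun T => ev f x0 T (NormedSpace.exp (c • (α • M N false + β • M N true)) u) φ -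
        ∑ k ∈ Finset.range (N + 1), ((c * T) ^ k / k.factorial) • ev f x0 T u ((Ld g ^ k) φ) := by
      rw [(grad (ω := List.length) fun _ => le_rfl).exp_eq hF]
      refine (IsBigO.sum (s := Finset.range (N + 1)) fun k _ =>
        (ev_pow f x0 α β k u φ).const_smul_left (c ^ k / k.factorial)).congr_left fun T => ?_
      simp only [ContinuousLinearMap.sum_apply, ContinuousLinearMap.smul_apply, op_pow, smul_smul,
        ev_sum, ← Finset.sum_sub_distrib, Pi.smul_apply, smul_sub, Finset.sum_apply]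
      refine Finset.sum_congr rfl fun k _ => ?_
      congr 2 <;> ring
    obtain ⟨C3, hC3⟩ := h3.bound
    refine ⟨C1 * ‖c‖ ^ (N + 1) + ∑ k ∈ Finset.range (N + 1), ‖c‖ ^ k * |C2 k| + C3, ?_⟩
    filter_upwards [h.near 1 one_pos, small 1 one_pos, Ioo_mem_nhdsGT one_pos, hC3,
      (eventually_all_finset (Finset.range (N + 1))).2 fun k _ => hC2 k]
      with T h2 h4 hT h5 h6 z ⟨v, hv, γ, e0, e1, hγ⟩
    have h7 := hC1 _ γ (fun s hs => by
      have h8 := hK _ γ h4 (ne T hT.1) (e0 ▸ h2 v hv) hγ s hs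
      have h9 := norm_add_le (γ s - γ 0) (γ 0 - x0)
      rw [sub_add_sub_cancel] at h9
      rw [mem_closedBall_iff_norm]
      linarith [e0 ▸ h2 v hv]) hγ 1 (by simp)
    rw [e0, e1, Complex.ofReal_one, norm_mul, Complex.norm_real, Real.norm_of_nonneg hT.1.le,
      mul_pow, ← mul_assoc] at h7
    simp only [one_mul] at h7
    rw [Real.norm_of_nonneg (pow_pos hT.1 _).le] at h5
    have h8 : ‖∑ k ∈ Finset.range (N + 1), ((c * T) ^ k / k.factorial) • ((Ld g ^ k) φ).1 v -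
        ∑ k ∈ Finset.range (N + 1), ((c * T) ^ k / k.factorial) • ev f x0 T u ((Ld g ^ k) φ)‖ ≤
        (∑ k ∈ Finset.range (N + 1), ‖c‖ ^ k * |C2 k|) * T ^ (N + 1) := by
      rw [← Finset.sum_sub_distrib, Finset.sum_mul]
      refine norm_sum_le_of_le _ fun k hk => ?_
      rw [← smul_sub, norm_smul, mul_assoc]
      have hT0 := hT.1
      refine mul_le_mul ?_ ((h6 k hk v hv).trans (by gcongr; exact le_abs_self _)) (norm_nonneg _)
        (by positivity)
      rw [norm_div, norm_pow, norm_mul, Complex.norm_real, Real.norm_of_nonneg hT.1.le,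
        Complex.norm_natCast]
      refine (div_le_self (by positivity) (by exact_mod_cast k.factorial_pos)).trans ?_
      gcongr
      exact mul_le_of_le_one_right (norm_nonneg _) hT.2.le
    rw [norm_sub_rev] at h5
    refine le_trans (le_of_eq ?_) ((norm_add₃_le).trans ((add_le_add_three h7 h8 h5).trans
      (le_of_eq (by ring))))
    congr 1; abel

end H53.Sp
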