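import Mathlib

namespace Pool.Agent.H53.SpecA

open Polynomial Filter

/-- the shift operator on complex sequences -/
noncomputable def S : Module.End ℂ (ℕ → ℂ) := LinearMap.funLeft ℂ ℂ Nat.succ

lemma S_pow (j : ℕ) (y : ℕ → ℂ) (n : ℕ) : (S ^ j) y n = y (n + j) := by
  induction j generalizing y with
  | zero => rfl
  | succ j ih => rw [pow_succ, Module.End.mul_apply, ih]; rfl

lemma lin_apply (α : ℂ) (y : ℕ → ℂ) (n : ℕ) : aeval S (X - C α) y n = y (n + 1) - α * y n := by
  simp [S, LinearMap.funLeft_apply]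

lemma aeval_apply (Q : ℂ[X]) (y : ℕ → ℂ) (n : ℕ) :
    aeval S Q y n = ∑ j ∈ Finset.range (Q.natDegree + 1), Q.coeff j * y (n + j) := by
  rw [aeval_eq_sum_range]
  simp [LinearMap.sum_apply, Finset.sum_apply, S_pow]

lemma kill (α : ℂ) (k : ℕ) (g : ℂ[X]) (hg : g.natDegree ≤ k) :
    aeval S ((X - C α) ^ (k + 1)) (fun n : ℕ => g.eval (n : ℂ) * α ^ n) = 0 := by
  have : ∀ (j : ℕ) (f : ℂ → ℂ), aeval S ((X - C α) ^ j) (fun n : ℕ => f n * α ^ n) =
      fun n : ℕ => α ^ j * ((fwdDiff 1)^[j] f n * α ^ n) := by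
    intro j
    induction j with
    | zero => intro f; simp
    | succ j ih =>
      intro f
      rw [pow_succ', map_mul, Module.End.mul_apply, ih]
      funext n
      rw [lin_apply, Function.iterate_succ_apply', fwdDiff]
      push_cast
      ring
  rw [this (k + 1) g.eval, fwdDiff_iter_eq_zero_of_degree_lt (by omega)]
  funext n
  simp

/-- sequences annihilated by a product of expanding linear factors -/
def Exp (y : ℕ → ℂ) : Prop :=
  ∃ t : Multiset ℂ, (∀ α ∈ t, 1 < ‖α‖) ∧ aeval S (t.map (fun α => X - C α)).prod y = 0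

lemma Exp.zero : Exp 0 := ⟨0, by simp, by simp⟩

lemma Exp.add {y z : ℕ → ℂ} (hy : Exp y) (hz : Exp z) : Exp (y + z) := by
  obtain ⟨s, hs, h1⟩ := hy
  obtain ⟨t, ht, h2⟩ := hz
  refine ⟨s + t, fun α h => (Multiset.mem_add.mp h).elim (hs α) (ht α), ?_⟩
  rw [Multiset.map_add, Multiset.prod_add, map_add]
  conv_lhs => congr; rw [mul_comm]
  rw [map_mul, map_mul, Module.End.mul_apply, Module.End.mul_apply, h1, h2]
  simp

lemma Exp.smul {y : ℕ → ℂ} (c : ℂ) (hy : Exp y) : Exp (c • y) := by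
  obtain ⟨s, hs, h1⟩ := hy
  exact ⟨s, hs, by rw [map_smul, h1, smul_zero]⟩

lemma Exp.sum {ι : Type*} (s : Finset ι) (y : ι → ℕ → ℂ) (h : ∀ i ∈ s, Exp (y i)) :
    Exp (∑ i ∈ s, y i) :=
  Finset.sum_induction _ _ (fun _ _ => Exp.add) Exp.zero h

lemma Exp.term (α : ℂ) (hα : 1 < ‖α‖) (g : ℂ[X]) :
    Exp (fun n : ℕ => g.eval (n : ℂ) * α ^ n) := by
  refine ⟨Multiset.replicate (g.natDegree + 1) α, fun β h => ?_, ?_⟩
  · rw [Multiset.eq_of_mem_replicate h]; exact hα
  · rw [Multiset.map_replicate, Multiset.prod_replicate]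
    exact kill α _ g le_rfl

lemma Exp.re_term (α : ℂ) (hα : 1 < ‖α‖) (g : ℂ[X]) :
    Exp (fun n : ℕ => (((g.eval (n : ℂ) * α ^ n).re : ℝ) : ℂ)) := by
  have h1 := Exp.term α hα g
  have h2 := Exp.term (starRingEnd ℂ α) (by simpa using hα) (g.map (starRingEnd ℂ))
  convert (h1.add h2).smul (1 / 2) using 1
  funext n
  have : (g.map (starRingEnd ℂ)).eval (n : ℂ) = starRingEnd ℂ (g.eval (n : ℂ)) := by
    rw [eval_map, ← eval₂_at_apply]
    simp [eval_map]
  simp only [Pi.smul_apply, Pi.add_apply, this, smul_eq_mul]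
  rw [Complex.re_eq_add_conj, map_mul, map_pow]
  ring

lemma Exp.eq_zero {y : ℕ → ℂ} (hy : Exp y) (B : ℝ) (hB : ∀ᶠ n in atTop, ‖y n‖ ≤ B) : y = 0 := by
  obtain ⟨t, ht, h⟩ := hy
  induction t using Multiset.induction_on generalizing y B with
  | empty => simpa using h
  | cons α t ih =>
    have hα := ht α (Multiset.mem_cons_self _ _)
    rw [Multiset.map_cons, Multiset.prod_cons, mul_comm, map_mul, Module.End.mul_apply] at h
    have h1 := ih (B + ‖α‖ * B) (by
      filter_upwards [hB, (tendsto_add_atTop_nat 1).eventually hB] with n a b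
      rw [lin_apply]
      refine (norm_sub_le _ _).trans ?_
      rw [norm_mul]
      exact add_le_add b (mul_le_mul_of_nonneg_left a (norm_nonneg _)))
      (fun β hβ => ht β (Multiset.mem_cons_of_mem hβ)) h
    have h2 : ∀ n, y n = α ^ n * y 0 := by
      intro n
      induction n with
      | zero => simp
      | succ n ihn =>
        have := congrFun h1 n
        rw [lin_apply, Pi.zero_apply, sub_eq_zero] at this
        rw [this, ihn]; ring
    have h3 : y 0 = 0 := by
      by_contra h0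
      have h4 : Tendsto (fun n : ℕ => ‖α‖ ^ n * ‖y 0‖) atTop atTop :=
        (tendsto_pow_atTop_atTop_of_one_lt hα).atTop_mul_const (norm_pos_iff.mpr h0)
      obtain ⟨n, a, b⟩ := (hB.and (h4.eventually_gt_atTop B)).exists
      rw [h2 n, norm_mul, norm_pow] at a
      linarith
    funext n
    rw [h2 n, h3]; simp

/-- `limsup ‖x n‖` -/
noncomputable def lsup (x : ℕ → ℝ) : ℝ := limsup (fun n => |x n - round (x n)|) atTop

lemma bdd (x : ℕ → ℝ) : IsBoundedUnder (· ≤ ·) atTop (fun n => |x n - round (x n)|) :=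
  isBoundedUnder_of ⟨1 / 2, fun n => abs_sub_round _⟩

lemma cobdd (x : ℕ → ℝ) : IsCoboundedUnder (· ≤ ·) atTop (fun n => |x n - round (x n)|) :=
  isCoboundedUnder_le_of_le atTop (x := 0) fun _ => abs_nonneg _

theorem countable_small (R : ℤ[X]) (hR : R.Monic) : ∃ c : ℝ, 0 < c ∧
    {x : ℕ → ℝ | (∀ n, ∑ j ∈ Finset.range (R.natDegree + 1), (R.coeff j : ℝ) * x (n + j) = 0) ∧
      Exp (fun n => (x n : ℂ)) ∧ lsup x < c}.Countable := by
  set D := R.natDegree with hD
  set L : ℝ := ∑ j ∈ Finset.range (D + 1), |(R.coeff j : ℝ)| with hL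
  have hL0 : 0 ≤ L := Finset.sum_nonneg fun _ _ => abs_nonneg _
  refine ⟨1 / (L + 1), by positivity, ?_⟩
  let Y : ℕ × (Fin D → ℤ) → Set (ℕ → ℝ) := fun w =>
    {x | (∀ n, ∑ j ∈ Finset.range (D + 1), (R.coeff j : ℝ) * x (n + j) = 0) ∧
      Exp (fun n => (x n : ℂ)) ∧ (∀ n, w.1 ≤ n → |x n - round (x n)| < 1 / (L + 1)) ∧
      ∀ i : Fin D, round (x (w.1 + i)) = w.2 i}
  have hrec : ∀ w, ∀ x ∈ Y w, ∀ n, w.1 ≤ n →
      round (x (n + D)) = -∑ j ∈ Finset.range D, R.coeff j * round (x (n + j)) := by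
    rintro w x ⟨h1, _, h3, _⟩ n hn
    have e : ((∑ j ∈ Finset.range (D + 1), R.coeff j * round (x (n + j)) : ℤ) : ℝ) =
        -∑ j ∈ Finset.range (D + 1), (R.coeff j : ℝ) * (x (n + j) - round (x (n + j))) := by
      simp only [mul_sub, Finset.sum_sub_distrib, h1 n]
      push_cast
      ring
    have e2 : |((∑ j ∈ Finset.range (D + 1), R.coeff j * round (x (n + j)) : ℤ) : ℝ)| < 1 := by
      rw [e, abs_neg]
      refine (Finset.abs_sum_le_sum_abs _ _).trans_lt ?_
      have : ∑ j ∈ Finset.range (D + 1), |(R.coeff j : ℝ) * (x (n + j) - round (x (n + j)))| ≤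
          ∑ j ∈ Finset.range (D + 1), |(R.coeff j : ℝ)| * (1 / (L + 1)) := by
        refine Finset.sum_le_sum fun j _ => ?_
        rw [abs_mul]
        exact mul_le_mul_of_nonneg_left (h3 _ (by omega)).le (abs_nonneg _)
      refine this.trans_lt ?_
      rw [← Finset.sum_mul, ← hL, mul_one_div, div_lt_one (by linarith)]
      linarith
    have e3 : ∑ j ∈ Finset.range (D + 1), R.coeff j * round (x (n + j)) = 0 := by
      have : |∑ j ∈ Finset.range (D + 1), R.coeff j * round (x (n + j))| < 1 := by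
        exact_mod_cast e2
      exact Int.abs_lt_one_iff.mp this
    rw [Finset.sum_range_succ, hD, hR.coeff_natDegree, one_mul] at e3
    linarith
  have hY : ∀ w, (Y w).Subsingleton := by
    intro w x hx x' hx'
    have h1 : ∀ m, round (x (w.1 + m)) = round (x' (w.1 + m)) := by
      intro m
      induction m using Nat.strong_induction_on with
      | _ m ih =>
        rcases Nat.lt_or_ge m D with h | h
        · rw [hx.2.2.2 ⟨m, h⟩, hx'.2.2.2 ⟨m, h⟩]
        · obtain ⟨r, rfl⟩ := Nat.exists_eq_add_of_le' h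
          rw [← add_assoc, hrec w x hx _ (by omega), hrec w x' hx' _ (by omega)]
          congr 1
          refine Finset.sum_congr rfl fun j hj => ?_
          rw [add_assoc, ih _ (by have := Finset.mem_range.mp hj; omega)]
    have h2 := (hx.2.1.add (hx'.2.1.smul (-1))).eq_zero 1 (by
      filter_upwards [eventually_ge_atTop w.1] with n hn
      obtain ⟨m, rfl⟩ := Nat.exists_eq_add_of_le hn
      have a := abs_le.mp (abs_sub_round (x (w.1 + m)))
      have b := abs_le.mp (abs_sub_round (x' (w.1 + m)))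
      rw [h1 m] at a
      simp only [Pi.add_apply, Pi.smul_apply, smul_eq_mul]
      rw [show (x (w.1 + m) : ℂ) + -1 * x' (w.1 + m) = ((x (w.1 + m) - x' (w.1 + m) : ℝ) : ℂ) by
        push_cast; ring, Complex.norm_real, Real.norm_eq_abs, abs_le]
      constructor <;> linarith)
    funext n
    have := congrFun h2 n
    simp only [Pi.add_apply, Pi.smul_apply, smul_eq_mul, Pi.zero_apply] at this
    have h3 : (x n : ℂ) = x' n := by linear_combination this
    exact_mod_cast h3
  refine (Set.countable_iUnion fun w => (hY w).countable).mono ?_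
  rintro x ⟨h1, h2, h3⟩
  obtain ⟨N, hN⟩ := eventually_atTop.mp (eventually_lt_of_limsup_lt h3 (bdd x))
  exact Set.mem_iUnion.mpr ⟨(N, fun i => round (x (N + i))), h1, h2, hN, fun _ => rfl⟩

lemma nrm_eq (t : ℤ) (e : ℝ) (he : |e| < 1 / 2) : |(t + e) - round (t + e)| = |e| := by
  have : round ((t : ℝ) + e) = t := by
    rw [round_intCast_add, round_eq_zero_iff.mpr, add_zero]
    have := abs_lt.mp he
    exact ⟨by linarith, by linarith⟩
  rw [this]; congr 1; ring

lemma lim_mul (x : ℕ → ℝ) (j : ℕ) (h : j * lsup x < 1 / 2) :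
    lsup (fun n => j * x n) = j * lsup x := by
  rcases Nat.eq_zero_or_pos j with rfl | hj
  · simp [lsup]
  have hj' : (0 : ℝ) < j := by exact_mod_cast hj
  have h1 : lsup x < 1 / 2 / j := by rw [lt_div_iff₀ hj']; linarith
  have h2 : ∀ᶠ n in atTop, |j * x n - round (j * x n)| = j * |x n - round (x n)| := by
    filter_upwards [eventually_lt_of_limsup_lt h1 (bdd x)] with n hn
    have e : (j : ℝ) * x n = ((j * round (x n) : ℤ) : ℝ) + j * (x n - round (x n)) := by
      push_cast; ring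
    rw [lt_div_iff₀ hj'] at hn
    rw [e, nrm_eq, abs_mul, abs_of_pos hj']
    rw [abs_mul, abs_of_pos hj']; linarith
  unfold lsup
  rw [limsup_congr h2]
  exact ((OrderIso.mulLeft₀ (j : ℝ) hj').limsup_apply (bdd x) (cobdd x)
    (isBoundedUnder_of ⟨j * (1 / 2), fun n =>
      mul_le_mul_of_nonneg_left (abs_sub_round _) hj'.le⟩)
    (isCoboundedUnder_le_of_le atTop (x := 0) fun _ => mul_nonneg hj'.le (abs_nonneg _))).symm

theorem not_closed (Xs : Set (ℕ → ℝ)) (h1 : ∀ x ∈ Xs, ∀ j : ℕ, (fun n => j * x n) ∈ Xs)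
    (c : ℝ) (hc : 0 < c) (h2 : {x ∈ Xs | lsup x < c}.Countable)
    (h3 : ∀ δ > 0, ∃ x ∈ Xs, 0 < lsup x ∧ lsup x < δ) : ¬ IsClosed (lsup '' Xs) := by
  intro hcl
  have hsub : Set.Ioo 0 (min c (1 / 2)) ⊆ lsup '' {x ∈ Xs | lsup x < c} := by
    rintro t ⟨ht0, ht⟩
    have : t ∈ lsup '' Xs := by
      rw [← hcl.closure_eq, Metric.mem_closure_iff]
      intro ε hε
      obtain ⟨x, hx, a, b⟩ := h3 ε hε
      have c1 := Nat.floor_le (div_pos ht0 a).le
      have c2 := Nat.lt_floor_add_one (t / lsup x)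
      rw [le_div_iff₀ a] at c1
      rw [div_lt_iff₀ a] at c2
      refine ⟨_, ⟨_, h1 x hx ⌊t / lsup x⌋₊, rfl⟩, ?_⟩
      rw [lim_mul x _ (c1.trans_lt (ht.trans_le (min_le_right _ _))), Real.dist_eq, abs_lt]
      constructor <;> linarith
    obtain ⟨x, hx, rfl⟩ := this
    exact ⟨x, ⟨hx, ht.trans_le (min_le_left _ _)⟩, rfl⟩
  have := (h2.image lsup).mono hsub
  rw [Cardinal.Real.Ioo_countable_iff] at this
  have h4 : 0 < min c (1 / 2) := lt_min hc (by norm_num)
  linarith

lemma unit_coeff {ι : Type*} [DecidableEq ι] (β : ι → ℂ) (s : Finset ι) (i0 : ι) (h0 : i0 ∉ s)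
    (hβ : ∀ i ∈ s, β i ≠ β i0) (hn : ‖β i0‖ = 1) (c : ι → ℂ)
    (h : Tendsto (fun n : ℕ => c i0 * β i0 ^ n + ∑ i ∈ s, c i * β i ^ n) atTop (nhds 0)) :
    c i0 = 0 := by
  induction s using Finset.induction_on generalizing c with
  | empty =>
    have := h.norm
    simp only [Finset.sum_empty, add_zero, norm_mul, norm_pow, hn, one_pow, mul_one,
      norm_zero] at this
    exact norm_eq_zero.mp (tendsto_nhds_unique tendsto_const_nhds this)
  | insert j s hj ih =>
    have h1 := ((tendsto_add_atTop_iff_nat 1).mpr h).sub (h.const_mul (β j))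
    have h2 := ih (fun h => h0 (Finset.mem_insert_of_mem h))
      (fun i hi => hβ i (Finset.mem_insert_of_mem hi)) (fun i => c i * (β i - β j)) (by
        convert h1 using 2 with n
        · rw [Finset.sum_insert hj, Finset.sum_insert hj]
          have : ∑ i ∈ s, c i * (β i - β j) * β i ^ n =
              ∑ i ∈ s, c i * β i ^ (n + 1) - β j * ∑ i ∈ s, c i * β i ^ n := by
            rw [Finset.mul_sum, ← Finset.sum_sub_distrib]
            exact Finset.sum_congr rfl fun i _ => by ring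
          rw [this]; ring
        · simp)
    rcases mul_eq_zero.mp h2 with h3 | h3
    · exact h3
    · exact absurd (sub_eq_zero.mp h3).symm (hβ j (Finset.mem_insert_self _ _))

end Pool.Agent.H53.SpecA
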