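import Mathlib

namespace Pool.Agent.H53.SpecDefs

open Polynomial Filter

/-- distance from `x` to the nearest integer -/
noncomputable def nrm (x : ℝ) : ℝ := |x - round x|

open Classical in
/-- the distinct complex roots of `P` of modulus `> 1` -/
noncomputable def expRoots (P : ℤ[X]) : Finset ℂ :=
  (P.aroots ℂ).toFinset.filter (fun α => 1 < ‖α‖)

/-- `Ξ_k`: families `(g α)` of complex polynomials of degree `≤ k`, indexed by the expanding roots
`α`, with `g (conj α) = conj (g α)` (for real `α` this says that `g α` has real coefficients) -/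
def Xi (P : ℤ[X]) (k : ℕ) : Set (ℂ → ℂ[X]) :=
  {g | ∀ α ∈ expRoots P,
    (g α).natDegree ≤ k ∧ g (starRingEnd ℂ α) = (g α).map (starRingEnd ℂ)}

/-- the real sequence `x_n(g) = ∑ g_α(n) α ^ n` -/
noncomputable def xseq (P : ℤ[X]) (g : ℂ → ℂ[X]) (n : ℕ) : ℝ :=
  (∑ α ∈ expRoots P, (g α).eval (n : ℂ) * α ^ n).re

/-- the multiplicative Lagrange spectrum of order `k` -/
def Lspec (P : ℤ[X]) (k : ℕ) : Set ℝ :=
  {v | ∃ g ∈ Xi P k, v = limsup (fun n : ℕ => nrm (xseq P g n)) atTop}

end Pool.Agent.H53.SpecDefs
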