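import Mathlib
import Pool.Agent.H53.SpecA
import Pool.Agent.H53.SpecDefs

namespace Pool.Agent.H53.SpecB

open Polynomial Filter NumberField IntermediateField Pool.Agent.H53.SpecA Pool.Agent.H53.SpecDefs

open Classical in
lemma small (K : Type) [Field K] [NumberField K] (a : K) (ha : IsIntegral ℤ a)
    (hinj : Function.Injective fun σ : K →+* ℂ => σ a) (σ₁ σ₂ : K →+* ℂ) (h1 : 1 < ‖σ₁ a‖)
    (h2 : ‖σ₂ a‖ = 1) (δ : ℝ) (hδ : 0 < δ) : ∃ u : K,
      0 < lsup (fun n => (∑ σ : K →+* ℂ with 1 < ‖σ a‖, σ u * σ a ^ n).re) ∧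
      lsup (fun n => (∑ σ : K →+* ℂ with 1 < ‖σ a‖, σ u * σ a ^ n).re) < δ := by
  obtain ⟨u₀, hu₀⟩ := Units.dirichletUnitTheorem.exists_unit K (InfinitePlace.mk σ₁)
  set N : Finset (K →+* ℂ) := Finset.univ.filter (fun σ => ¬ 1 < ‖σ a‖) with hN
  have hu1 : ∀ σ ∈ N, ‖σ (u₀ : 𝓞 K)‖ < 1 := by
    intro σ hσ
    have hσ' : ¬ 1 < ‖σ a‖ := (Finset.mem_filter.mp hσ).2
    have := hu₀ (InfinitePlace.mk σ) (by
      intro h
      have e := congrArg (fun w : InfinitePlace K => w a) h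
      simp only [InfinitePlace.apply] at e
      exact hσ' (e ▸ h1))
    rw [InfinitePlace.apply] at this
    exact (Real.log_neg_iff (norm_pos_iff.mpr (by simp))).mp this
  set η : ℝ := min δ (1 / 2) / (2 * (N.card + 1)) with hη
  have hmin : 0 < min δ (1 / 2) := lt_min hδ (by norm_num)
  have hη0 : 0 < η := by positivity
  obtain ⟨m, hm⟩ : ∃ m : ℕ, ∀ σ ∈ N, ‖σ (u₀ : 𝓞 K)‖ ^ m < η := by
    refine ((eventually_all_finset N).mpr fun σ hσ => ?_).exists (f := atTop)
    exact (tendsto_pow_atTop_nhds_zero_of_lt_one (norm_nonneg _) (hu1 σ hσ)).eventually_lt_const hη0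
  set u : K := ((u₀ : 𝓞 K) : K) ^ m with hu
  have hu0 : u ≠ 0 := pow_ne_zero _ (by simp)
  have hui : IsIntegral ℤ u := (RingOfIntegers.isIntegral_coe _).pow m
  refine ⟨u, ?_⟩
  let z : ℕ → ℂ := fun n => ∑ σ ∈ N, σ u * σ a ^ n
  have hz : ∀ n, ‖z n‖ ≤ min δ (1 / 2) / 2 := by
    intro n
    refine (norm_sum_le _ _).trans ?_
    have : ∀ σ ∈ N, ‖σ u * σ a ^ n‖ ≤ η := by
      intro σ hσ
      rw [norm_mul, hu, map_pow, norm_pow, norm_pow]
      have a1 := (hm σ hσ).le
      have a2 : ‖σ a‖ ^ n ≤ 1 := pow_le_one₀ (norm_nonneg _) (not_lt.mp (Finset.mem_filter.mp hσ).2)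
      exact (mul_le_mul a1 a2 (by positivity) hη0.le).trans (mul_one _).le
    refine (Finset.sum_le_card_nsmul _ _ _ this).trans ?_
    rw [nsmul_eq_mul, hη, ← mul_div_assoc, div_le_div_iff₀ (by positivity) (by norm_num)]
    nlinarith
  have hreal : ∀ n, starRingEnd ℂ (z n) = z n := by
    intro n
    simp only [z, map_sum]
    refine Finset.sum_nbij' ComplexEmbedding.conjugate ComplexEmbedding.conjugate ?_ ?_ ?_ ?_ ?_
    · intro σ hσ; simpa [hN, ComplexEmbedding.conjugate_coe_eq] using hσ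
    · intro σ hσ; simpa [hN, ComplexEmbedding.conjugate_coe_eq] using hσ
    · intro σ _; exact star_star σ
    · intro σ _; exact star_star σ
    · intro σ _; simp [ComplexEmbedding.conjugate_coe_eq]
  have htr : ∀ n, ∃ t : ℤ,
      (∑ σ : K →+* ℂ with 1 < ‖σ a‖, σ u * σ a ^ n).re = t + -(z n).re := by
    intro n
    obtain ⟨t, ht⟩ := IsIntegrallyClosed.isIntegral_iff.mp
      (Algebra.isIntegral_trace (L := ℚ) (hui.mul (ha.pow n)))
    refine ⟨t, ?_⟩
    have e := trace_eq_sum_embeddings (K := ℚ) ℂ (x := u * a ^ n)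
    rw [← ht, ← (RingHom.equivRatAlgHom K ℂ).sum_comp,
      ← Finset.sum_filter_add_sum_filter_not Finset.univ (fun σ : K →+* ℂ => 1 < ‖σ a‖)] at e
    have e2 := congrArg Complex.re e
    simp only [RingHom.equivRatAlgHom, Equiv.coe_fn_mk, RingHom.toRatAlgHom_apply, map_mul,
      map_pow, Complex.add_re] at e2
    simp only [eq_intCast, eq_ratCast, Rat.cast_intCast, Complex.intCast_re] at e2
    simp only [z, hN]
    linarith
  have hm2 : min δ (1 / 2) ≤ 1 / 2 := min_le_right _ _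
  have hm1 : min δ (1 / 2) ≤ δ := min_le_left _ _
  have hnrm : (fun n => |(∑ σ : K →+* ℂ with 1 < ‖σ a‖, σ u * σ a ^ n).re -
      round (∑ σ : K →+* ℂ with 1 < ‖σ a‖, σ u * σ a ^ n).re|) = fun n => ‖z n‖ := by
    funext n
    obtain ⟨t, ht⟩ := htr n
    have e : |(z n).re| = ‖z n‖ := by
      conv_rhs => rw [← Complex.conj_eq_iff_re.mp (hreal n)]
      simp
    rw [ht, nrm_eq, abs_neg, e]
    rw [abs_neg, e]
    linarith [hz n]
  unfold lsup
  rw [hnrm]
  have hb : IsBoundedUnder (· ≤ ·) atTop (fun n => ‖z n‖) := isBoundedUnder_of ⟨_, hz⟩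
  have hcb : IsCoboundedUnder (· ≤ ·) atTop (fun n => ‖z n‖) :=
    isCoboundedUnder_le_of_le atTop (x := 0) fun _ => norm_nonneg _
  constructor
  · by_contra hc
    push Not at hc
    have ht : Tendsto z atTop (nhds 0) := by
      rw [NormedAddGroup.tendsto_nhds_zero]
      exact fun ε hε => eventually_lt_of_limsup_lt (hc.trans_lt hε) hb
    have hσ : σ₂ ∈ N := by simp [hN, h2]
    have := unit_coeff (fun σ : K →+* ℂ => σ a) (N.erase σ₂) σ₂ (Finset.notMem_erase _ _)
      (fun i hi h => (Finset.mem_erase.mp hi).1 (hinj h)) h2 (fun σ => σ u) (by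
        convert ht using 2 with n
        exact Finset.add_sum_erase N (fun σ => σ u * σ a ^ n) hσ)
    exact hu0 (by simpa using this)
  · exact (limsup_le_of_le hcb (Eventually.of_forall hz)).trans_lt (by linarith)

theorem main (P : ℤ[X]) (hm : P.Monic) (hirr : Irreducible P) (h1 : ∃ α ∈ P.aroots ℂ, 1 < ‖α‖)
    (h2 : ∃ β ∈ P.aroots ℂ, ‖β‖ = 1) (k : ℕ) : ¬ IsClosed (Lspec P k) := by
  classical
  have hL : Lspec P k = lsup '' (xseq P '' Xi P k) := by
    ext v
    simp only [Lspec, Set.mem_ofPred_eq, Set.mem_image, exists_exists_and_eq_and, lsup, nrm]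
    exact ⟨fun ⟨g, a, b⟩ => ⟨g, a, b.symm⟩, fun ⟨g, a, b⟩ => ⟨g, a, b.symm⟩⟩
  have hE : ∀ α, α ∈ expRoots P ↔ aeval α P = 0 ∧ 1 < ‖α‖ := by
    intro α
    rw [expRoots, Finset.mem_filter, Multiset.mem_toFinset, mem_aroots]
    simp [hm.ne_zero]
  rw [hL]
  obtain ⟨c, hc, hcount⟩ := countable_small (P ^ (k + 1)) (hm.pow _)
  refine not_closed _ ?_ c hc (hcount.mono ?_) ?_
  · rintro _ ⟨g, hg, rfl⟩ j
    refine ⟨fun α => C (j : ℂ) * g α, fun α hα => ⟨?_, ?_⟩, ?_⟩
    · exact (natDegree_C_mul_le _ _).trans (hg α hα).1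
    · simp [(hg α hα).2]
    · funext n
      simp only [xseq, eval_mul, eval_C, mul_assoc, ← Finset.mul_sum]
      simp
  · rintro _ ⟨⟨g, hg, rfl⟩, hlt⟩
    refine ⟨fun n => ?_, ?_, hlt⟩
    · have e : aeval S ((P ^ (k + 1)).map (Int.castRingHom ℂ))
          (∑ α ∈ expRoots P, fun n : ℕ => (g α).eval (n : ℂ) * α ^ n) = 0 := by
        rw [map_sum]
        refine Finset.sum_eq_zero fun α hα => ?_
        have : (X - C α) ∣ P.map (Int.castRingHom ℂ) := by
          rw [dvd_iff_isRoot, IsRoot.def, eval_map]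
          exact ((hE α).mp hα).1
        obtain ⟨Q, hQ⟩ := pow_dvd_pow_of_dvd this (k + 1)
        rw [Polynomial.map_pow, hQ, mul_comm, map_mul, Module.End.mul_apply,
          kill α k _ (hg α hα).1, map_zero]
      have e2 := congrArg Complex.re (congrFun e n)
      rw [aeval_apply, (hm.pow _).natDegree_map, Complex.re_sum] at e2
      simp only [coeff_map, eq_intCast, Finset.sum_apply, Pi.zero_apply, Complex.zero_re] at e2
      rw [← e2]
      refine Finset.sum_congr rfl fun j _ => ?_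
      rw [← Complex.ofReal_intCast, Complex.re_ofReal_mul]
      rfl
    · have := Exp.sum (expRoots P) _ (fun α hα => Exp.re_term α ((hE α).mp hα).2 (g α))
      convert this using 1
      funext n
      simp only [xseq, Complex.re_sum, Finset.sum_apply]
      push_cast; rfl
  · intro δ hδ
    obtain ⟨α, hα, hα1⟩ := h1
    obtain ⟨β, hβ, hβ1⟩ := h2
    rw [mem_aroots] at hα hβ
    have hαi : IsIntegral ℤ α := ⟨P, hm, hα.2⟩
    have hαQ : IsIntegral ℚ α := hαi.tower_top
    have : FiniteDimensional ℚ ℚ⟮α⟯ := adjoin.finiteDimensional hαQ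
    have : NumberField ℚ⟮α⟯ := {}
    let a : ℚ⟮α⟯ := AdjoinSimple.gen ℚ α
    have ha : IsIntegral ℤ a := by
      rw [← isIntegral_algHom_iff (IsScalarTower.toAlgHom ℤ ℚ⟮α⟯ ℂ) Subtype.val_injective]
      exact hαi
    have hmin : minpoly ℚ a = P.map (algebraMap ℤ ℚ) := by
      refine (minpoly.eq_of_irreducible_of_monic
        ((hm.irreducible_iff_irreducible_map_fraction_map (K := ℚ)).mp hirr) ?_ (hm.map _)).symm
      rw [aeval_map_algebraMap]
      apply (algebraMap ℚ⟮α⟯ ℂ).injective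
      rw [← aeval_algebraMap_apply, map_zero]
      exact hα.2
    have hroot : ∀ γ : ℂ, (∃ σ : ℚ⟮α⟯ →+* ℂ, σ a = γ) ↔ aeval γ P = 0 := by
      intro γ
      have := Set.ext_iff.mp (Embeddings.range_eval_eq_rootSet_minpoly ℚ⟮α⟯ ℂ a) γ
      rw [hmin, mem_rootSet, aeval_map_algebraMap] at this
      exact this.trans ⟨fun h => h.2, fun h => ⟨(hm.map (algebraMap ℤ ℚ)).ne_zero, h⟩⟩
    have hinj : Function.Injective fun σ : ℚ⟮α⟯ →+* ℂ => σ a := by
      intro σ τ h
      apply (RingHom.equivRatAlgHom _ ℂ).injective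
      apply adjoin_algHom_ext
      rintro x rfl
      exact h
    obtain ⟨σ₁, e1⟩ := (hroot α).mpr hα.2
    obtain ⟨σ₂, e2⟩ := (hroot β).mpr hβ.2
    obtain ⟨u, hu⟩ := small _ a ha hinj σ₁ σ₂ (by rw [e1]; exact hα1) (by rw [e2]; exact hβ1) δ hδ
    refine ⟨_, ⟨fun γ => C (∑ σ : ℚ⟮α⟯ →+* ℂ with σ a = γ, σ u), fun γ hγ =>
      ⟨by rw [natDegree_C]; exact Nat.zero_le _, ?_⟩, ?_⟩, hu⟩
    · simp only
      rw [map_C, map_sum (starRingEnd ℂ)]
      congr 1
      refine Finset.sum_nbij' ComplexEmbedding.conjugate ComplexEmbedding.conjugate ?_ ?_ ?_ ?_ ?_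
      · intro σ hσ
        have := (Finset.mem_filter.mp hσ).2
        simp [ComplexEmbedding.conjugate_coe_eq, this]
      · intro σ hσ
        have := (Finset.mem_filter.mp hσ).2
        simp [ComplexEmbedding.conjugate_coe_eq, this]
      · intro σ _; exact star_star σ
      · intro σ _; exact star_star σ
      · intro σ _; simp [ComplexEmbedding.conjugate_coe_eq]
    · funext n
      simp only [xseq, eval_C]
      congr 1
      rw [← Finset.sum_fiberwise_of_maps_to (s := Finset.univ.filter fun σ : ℚ⟮α⟯ →+* ℂ => 1 < ‖σ a‖)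
        (t := expRoots P) (g := fun σ => σ a)
        (fun σ hσ => (hE _).mpr ⟨(hroot _).mp ⟨σ, rfl⟩, (Finset.mem_filter.mp hσ).2⟩)]
      refine Finset.sum_congr rfl fun γ hγ => ?_
      rw [Finset.sum_mul, Finset.filter_filter]
      refine Finset.sum_congr ?_ fun σ hσ => ?_
      · ext σ
        simp only [Finset.mem_filter, Finset.mem_univ, true_and]
        exact ⟨fun h => ⟨h ▸ ((hE γ).mp hγ).2, h⟩, fun h => h.2⟩
      · rw [(Finset.mem_filter.mp hσ).2.2]

end Pool.Agent.H53.SpecB
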