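import Mathlib
import Pool.Agent.H53.SpecB

namespace Pool.Agent.H53.SpecC

open Polynomial Filter NumberField IntermediateField Pool.Agent.H53.SpecDefs

theorem salem (α : ℝ) (hi : IsIntegral ℤ α) (h1 : 1 < α)
    (h2 : ∀ β ∈ (minpoly ℚ α).aroots ℂ, β ≠ α → ‖β‖ ≤ 1)
    (h3 : ∃ β ∈ (minpoly ℚ α).aroots ℂ, ‖β‖ = 1) :
    ¬ IsClosed {v : ℝ | ∃ ξ : ℝ, v = limsup (fun n : ℕ => |ξ * α ^ n - round (ξ * α ^ n)|) atTop} := by
  classical
  have hr : (minpoly ℚ α).aroots ℂ = (minpoly ℤ α).aroots ℂ := by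
    rw [minpoly.isIntegrallyClosed_eq_field_fractions' ℚ hi, aroots_map]
  rw [hr] at h2 h3
  have hn : 1 < ‖(α : ℂ)‖ := by
    rw [Complex.norm_real, Real.norm_eq_abs, abs_of_pos (by linarith)]; exact h1
  have hα : (α : ℂ) ∈ (minpoly ℤ α).aroots ℂ := by
    rw [mem_aroots]
    refine ⟨minpoly.ne_zero hi, ?_⟩
    have : (α : ℂ) = algebraMap ℝ ℂ α := rfl
    rw [this, aeval_algebraMap_apply, minpoly.aeval, map_zero]
  have hE : expRoots (minpoly ℤ α) = {(α : ℂ)} := by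
    ext β
    rw [expRoots, Finset.mem_filter, Multiset.mem_toFinset, Finset.mem_singleton]
    constructor
    · rintro ⟨a, b⟩
      by_contra h
      exact absurd (h2 β a h) (not_le.mpr b)
    · rintro rfl
      exact ⟨hα, hn⟩
  have := SpecB.main (minpoly ℤ α) (minpoly.monic hi) (minpoly.irreducible hi) ⟨_, hα, hn⟩ h3 0
  convert this using 2
  ext v
  simp only [Lspec, Xi, xseq, nrm, hE, Set.mem_ofPred_eq, Finset.mem_singleton, forall_eq,
    Finset.sum_singleton]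
  constructor
  · rintro ⟨ξ, rfl⟩
    refine ⟨fun _ => C (ξ : ℂ), ⟨by simp, by simp⟩, ?_⟩
    congr 1
    funext n
    rw [eval_C, ← Complex.ofReal_pow, ← Complex.ofReal_mul, Complex.ofReal_re]
  · rintro ⟨g, ⟨a, b⟩, rfl⟩
    refine ⟨((g α).coeff 0).re, ?_⟩
    congr 1
    funext n
    rw [eq_C_of_natDegree_le_zero a, eval_C, ← Complex.ofReal_pow, Complex.re_mul_ofReal, coeff_C_zero]

lemma quad (y : ℝ) (hy : y ^ 2 < 4) (β : ℂ) (h : β ^ 2 - y * β + 1 = 0) : ‖β‖ = 1 := by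
  have h1 := congrArg Complex.re h
  have h2 := congrArg Complex.im h
  simp [pow_two] at h1 h2
  have h3 : β.im ≠ 0 := by
    intro h0
    rw [h0] at h1
    nlinarith [sq_nonneg (2 * β.re - y)]
  have h4 : 2 * β.re = y := by
    apply mul_right_cancel₀ h3
    linarith
  have h5 : ‖β‖ ^ 2 = 1 := by
    rw [Complex.sq_norm, Complex.normSq_apply]
    rw [← h4] at h1
    linarith
  exact (pow_eq_one_iff_of_nonneg (norm_nonneg _) (by norm_num)).mp h5

theorem exists_salem : ∃ α : ℝ, IsIntegral ℤ α ∧ 1 < α ∧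
    (∀ β ∈ (minpoly ℚ α).aroots ℂ, β ≠ α → ‖β‖ ≤ 1) ∧ ∃ β ∈ (minpoly ℚ α).aroots ℂ, ‖β‖ = 1 := by
  have hs : √13 * √13 = 13 := Real.mul_self_sqrt (by norm_num)
  have hs0 : 0 < √13 := Real.sqrt_pos.mpr (by norm_num)
  have hs3 : 3 < √13 := by nlinarith
  have hs4 : √13 < 4 := by nlinarith
  set y : ℝ := (1 + √13) / 2 with hy
  set y' : ℝ := (1 - √13) / 2 with hy'
  have hd : 0 ≤ y ^ 2 - 4 := by nlinarith
  have ht : √(y ^ 2 - 4) * √(y ^ 2 - 4) = y ^ 2 - 4 := Real.mul_self_sqrt hd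
  have ht0 := Real.sqrt_nonneg (y ^ 2 - 4)
  set α : ℝ := (y + √(y ^ 2 - 4)) / 2 with hα
  have hα1 : 1 < α := by linarith
  have hq : α ^ 2 - y * α + 1 = 0 := by rw [hα]; nlinarith
  have hsum : y + y' = 1 := by rw [hy, hy']; ring
  have hprod : y * y' = -3 := by rw [hy, hy']; nlinarith
  have hy2 : y' ^ 2 < 4 := by nlinarith
  clear_value α y y'
  let P : ℤ[X] := X ^ 4 - X ^ 3 - X ^ 2 - X + 1
  have hPm : P.Monic := by simp only [P]; monicity!
  have hP : aeval α P = 0 := by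
    simp only [P, map_add, map_sub, map_pow, aeval_X, map_one]
    linear_combination (α ^ 2 - y' * α + 1) * hq + (α ^ 3 + α) * hsum - α ^ 2 * hprod
  have hi : IsIntegral ℤ α := ⟨P, hPm, hP⟩
  have hroot : ∀ β ∈ (minpoly ℚ α).aroots ℂ, β = α ∨ β = (α : ℂ)⁻¹ ∨ ‖β‖ = 1 := by
    intro β hβ
    rw [mem_aroots] at hβ
    obtain ⟨Q, hQ⟩ := minpoly.dvd ℚ α (p := P.map (algebraMap ℤ ℚ))
      (by rw [aeval_map_algebraMap]; exact hP)
    have e : aeval β P = 0 := by
      rw [← aeval_map_algebraMap ℚ, hQ, map_mul, hβ.2, zero_mul]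
    simp only [P, map_add, map_sub, map_pow, aeval_X, map_one] at e
    have c1 : (y : ℂ) + y' = 1 := by exact_mod_cast hsum
    have c2 : (y : ℂ) * y' = -3 := by exact_mod_cast hprod
    have c3 : (α : ℂ) ^ 2 - y * α + 1 = 0 := by exact_mod_cast hq
    have c4 : (α : ℂ) ≠ 0 := by exact_mod_cast (by linarith : α ≠ 0)
    have e2 : (β ^ 2 - y * β + 1) * (β ^ 2 - y' * β + 1) = 0 := by
      linear_combination e - (β ^ 3 + β) * c1 + β ^ 2 * c2
    rcases mul_eq_zero.mp e2 with h | h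
    · have e3 : (β - α) * (α * β - 1) = 0 := by linear_combination α * h - β * c3
      rcases mul_eq_zero.mp e3 with h | h
      · exact Or.inl (sub_eq_zero.mp h)
      · exact Or.inr (Or.inl (eq_inv_of_mul_eq_one_right (sub_eq_zero.mp h)))
    · exact Or.inr (Or.inr (quad y' hy2 β h))
  refine ⟨α, hi, hα1, fun β hβ hne => ?_, ?_⟩
  · rcases hroot β hβ with h | h | h
    · exact absurd h hne
    · rw [h, norm_inv, Complex.norm_real, Real.norm_eq_abs, abs_of_pos (by linarith)]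
      exact inv_le_one_of_one_le₀ hα1.le
    · exact h.le
  · by_contra hc
    push Not at hc
    have hQ : IsIntegral ℚ α := hi.tower_top
    have : FiniteDimensional ℚ ℚ⟮α⟯ := adjoin.finiteDimensional hQ
    let a : ℚ⟮α⟯ := AdjoinSimple.gen ℚ α
    have c3 : (α : ℂ) + (α : ℂ)⁻¹ = y := by
      have c4 : α + α⁻¹ = y := by field_simp; linarith
      exact_mod_cast c4
    have e := trace_eq_sum_embeddings (K := ℚ) ℂ (x := a + a⁻¹)
    have hσ : ∀ σ : ℚ⟮α⟯ →ₐ[ℚ] ℂ, σ (a + a⁻¹) = y := by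
      intro σ
      have hm : σ a ∈ (minpoly ℚ α).aroots ℂ := by
        rw [mem_aroots]
        refine ⟨minpoly.ne_zero hQ, ?_⟩
        have e0 : aeval a (minpoly ℚ α) = 0 := aeval_gen_minpoly ℚ α
        rw [aeval_algHom_apply, e0, map_zero]
      rw [map_add, map_inv₀]
      rcases hroot _ hm with h | h | h
      · rw [h, c3]
      · rw [h, inv_inv, add_comm, c3]
      · exact absurd h (hc _ hm)
    simp only [hσ, Finset.sum_const, Finset.card_univ, nsmul_eq_mul, eq_ratCast] at e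
    rw [AlgHom.card] at e
    have hd : (0 : ℝ) < Module.finrank ℚ ℚ⟮α⟯ := by exact_mod_cast Module.finrank_pos
    have e2 : ((Algebra.trace ℚ ℚ⟮α⟯ (a + a⁻¹) : ℚ) : ℝ) = Module.finrank ℚ ℚ⟮α⟯ * y := by
      exact_mod_cast e
    have irr : Irrational √13 := by
      simpa using (by norm_num : Nat.Prime 13).irrational_sqrt
    refine irr ⟨2 * Algebra.trace ℚ ℚ⟮α⟯ (a + a⁻¹) / Module.finrank ℚ ℚ⟮α⟯ - 1, ?_⟩
    push_cast
    rw [e2, hy]
    field_simp
    ring

end Pool.Agent.H53.SpecC
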