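import Mathlib

namespace Pool.Agent.H53.TbQ
open Polynomial Finset

/-- `T b c m` is the coefficient of `x^m` in `(x^2 + b x + c)^m`. -/
noncomputable def T (b c : ℤ) (m : ℕ) : ℤ := ((X ^ 2 + C b * X + C c : ℤ[X]) ^ m).coeff m

section gen
variable {R : Type*} [CommRing R]

noncomputable def a (b c : R) (m k : ℕ) : R := ((X ^ 2 + C b * X + C c : R[X]) ^ m).coeff k

lemma a_succ2 (b c : R) (m k : ℕ) :
    a b c (m + 1) (k + 2) = a b c m k + b * a b c m (k + 1) + c * a b c m (k + 2) := by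
  unfold a
  rw [pow_succ', add_mul, add_mul, coeff_add, coeff_add, mul_assoc, coeff_C_mul, coeff_C_mul,
    coeff_X_pow_mul, coeff_X_mul]

lemma a_succ1 (b c : R) (m : ℕ) :
    a b c (m + 1) 1 = b * a b c m 0 + c * a b c m 1 := by
  unfold a
  rw [pow_succ', add_mul, add_mul, coeff_add, coeff_add, mul_assoc, coeff_C_mul, coeff_C_mul,
    coeff_X_pow_mul', coeff_X_mul]
  simp

lemma a_der (b c : R) (m k : ℕ) :
    a b c (m + 1) (k + 2) * ((k : R) + 2) = (m + 1 : R) * (2 * a b c m k + b * a b c m (k + 1)) := by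
  unfold a
  have h := coeff_derivative ((X ^ 2 + C b * X + C c : R[X]) ^ (m + 1)) (k + 1)
  rw [derivative_pow_succ] at h
  have h2 : derivative (X ^ 2 + C b * X + C c : R[X]) = C 2 * X + C b := by
    simp [map_ofNat]; ring
  rw [h2, mul_assoc, coeff_C_mul, mul_comm _ (C 2 * X + C b), add_mul (C 2 * X), coeff_add, mul_assoc,
    coeff_C_mul, coeff_C_mul, coeff_X_mul] at h
  push_cast at h
  rw [show ((k : R) + 2) = k + 1 + 1 by ring, ← h]

lemma a_odd (b c : R) (m k : ℕ) : b ∣ a b c m (2 * k + 1) := by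
  induction m generalizing k with
  | zero => simp [a, coeff_one]
  | succ m ih =>
    rcases k with _ | k
    · rw [show 2 * 0 + 1 = 1 by rfl, a_succ1]
      exact dvd_add (dvd_mul_right _ _) ((ih 0).mul_left _)
    · rw [show 2 * (k + 1) + 1 = (2 * k + 1) + 2 by ring, a_succ2]
      exact dvd_add (dvd_add (ih k) (dvd_mul_right _ _)) ((ih (k + 1)).mul_left _)

lemma a_TT (b c : R) (n : ℕ) : b ∣ a b c (n + 1) (n + 1) * a b c n n := by
  rcases Nat.even_or_odd' n with ⟨k, rfl | rfl⟩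
  · exact (a_odd b c _ k).mul_right _
  · exact (a_odd b c _ k).mul_left _

variable [IsDomain R] [CharZero R]

lemma rec1 (b c : R) (m : ℕ) :
    a b c (m + 1) (m + 1) = b * a b c m m + 2 * c * a b c m (m + 1) := by
  rcases m with _ | m
  · simp [a, coeff_one, coeff_X]
  · have h1 := a_succ2 b c (m + 1) m
    have h2 := a_der b c (m + 1) m
    have hne : ((m : R) + 2) ≠ 0 := by exact_mod_cast (show m + 2 ≠ 0 by omega)
    apply mul_left_cancel₀ hne
    push_cast at h2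
    linear_combination 2 * ((m : R) + 2) * h1 - h2

lemma rec2 (b c : R) (m : ℕ) :
    ((m : R) + 2) * a b c (m + 1) (m + 2) = (m + 1 : R) * (b * a b c m (m + 1) + 2 * a b c m m) := by
  have h2 := a_der b c m m
  linear_combination h2

noncomputable def S (b c : R) (n : ℕ) : R :=
  ∑ j ∈ range n, (8 * c * j + 4 * c + b) * a b (c ^ 2) j j ^ 2 * (b - 2 * c) ^ (2 * (n - 1 - j))

omit [IsDomain R] [CharZero R] in
lemma S_succ (b c : R) (n : ℕ) :
    S b c (n + 1) = (b - 2 * c) ^ 2 * S b c n + (8 * c * n + 4 * c + b) * a b (c ^ 2) n n ^ 2 := by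
  unfold S
  rw [sum_range_succ, mul_sum]
  congr 1
  · refine sum_congr rfl fun j hj => ?_
    have := mem_range.1 hj
    rw [show 2 * (n + 1 - 1 - j) = 2 + 2 * (n - 1 - j) by omega, pow_add]; ring
  · simp

lemma closed (b c : R) (n : ℕ) :
    b * S b c (n + 1) = b * ((n : R) + 1) ^ 2 * (2 * c) * (c * a b (c ^ 2) n (n + 1) - a b (c ^ 2) n n) ^ 2
      + ((n : R) + 1) * (b + 2 * c) * (a b (c ^ 2) (n + 1) (n + 1) * a b (c ^ 2) n n) := by
  induction n with
  | zero => simp [S, a, coeff_one, coeff_X, -map_pow]; ring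
  | succ n ih =>
    rw [S_succ, rec1 b (c ^ 2) (n + 1)]
    have h1 := rec1 b (c ^ 2) n
    have h2 := rec2 b (c ^ 2) n
    set T0 := a b (c ^ 2) n n
    set B0 := a b (c ^ 2) n (n + 1)
    set T1 := a b (c ^ 2) (n + 1) (n + 1)
    set B1 := a b (c ^ 2) (n + 1) (n + 1 + 1)
    have e : ((n : R) + 2) * B1 = (n + 1 : R) * (b * B0 + 2 * T0) := h2
    have key : b * ((n : R) + 2) ^ 2 * (2 * c) * (c * B1 - T1) ^ 2
        + ((n : R) + 2) * (b + 2 * c) * ((b * T1 + 2 * c ^ 2 * B1) * T1)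
        = b * (2 * c) * (c * ((n + 1 : R) * (b * B0 + 2 * T0)) - ((n : R) + 2) * T1) ^ 2
        + (b + 2 * c) * ((((n : R) + 2) * b * T1 + 2 * c ^ 2 * ((n + 1 : R) * (b * B0 + 2 * T0))) * T1) := by
      rw [← e]; ring
    push_cast
    rw [show (n : R) + 1 + 1 = n + 2 by ring, key, mul_add, mul_left_comm b, ih, h1]
    ring
end gen

lemma map_a {R S : Type*} [CommRing R] [CommRing S] (φ : R →+* S) (b c : R) (m k : ℕ) :
    φ (a b c m k) = a (φ b) (φ c) m k := by
  unfold a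
  rw [← coeff_map]; simp [Polynomial.map_pow]

lemma q1 (b c : ℤ) (n : ℕ) : ((n + 1 : ℕ) : ℤ) ∣ S b c (n + 1) := by
  have h := closed (X : ℤ[X]) (C c) n
  obtain ⟨w, hw⟩ := a_TT (X : ℤ[X]) (C c ^ 2) n
  rw [hw] at h
  have h2 : S (X : ℤ[X]) (C c) (n + 1) = ((n : ℤ[X]) + 1) * (((n : ℤ[X]) + 1) * (2 * C c) *
      (C c * a X (C c ^ 2) n (n + 1) - a X (C c ^ 2) n n) ^ 2 + (X + 2 * C c) * w) := by
    apply mul_left_cancel₀ (X_ne_zero (R := ℤ))
    rw [h]; ring
  have h3 : evalRingHom b (S (X : ℤ[X]) (C c) (n + 1)) = S b c (n + 1) := by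
    unfold S
    rw [map_sum]
    refine sum_congr rfl fun j _ => ?_
    simp only [map_mul, map_pow, map_add, map_sub, map_a, map_ofNat, map_natCast, coe_evalRingHom,
      eval_X, eval_C]
  rw [← h3, h2, map_mul]
  refine Dvd.dvd.mul_right ?_ _
  simp

section modp
variable {K : Type*} [Field K] (p : ℕ) [hp : Fact p.Prime] [CharP K p]

lemma pw (α : K) : (X - C α : K[X]) ^ (p - 1) = ∑ i ∈ range p, X ^ i * C α ^ (p - 1 - i) := by
  apply mul_right_cancel₀ (X_sub_C_ne_zero α)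
  rw [geom_sum₂_mul, ← pow_succ, Nat.sub_add_cancel hp.out.one_le, sub_pow_char]

lemma pw_coeff (α : K) (i : ℕ) (hi : i < p) :
    ((X - C α : K[X]) ^ (p - 1)).coeff i = α ^ (p - 1 - i) := by
  rw [pw, finset_sum_coeff, sum_eq_single i]
  · rw [← C_pow, coeff_mul_C]; simp
  · intro j _ hj; rw [← C_pow, coeff_mul_C, coeff_X_pow, if_neg (Ne.symm hj), zero_mul]
  · intro h; exact absurd (mem_range.2 hi) h

lemma mid (α β : K) : a (-(α + β)) (α * β) (p - 1) (p - 1) = (β - α) ^ (p - 1) := by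
  have h : (X ^ 2 + C (-(α + β)) * X + C (α * β) : K[X]) = (X - C β) * (X - C α) := by
    simp only [map_neg, map_add, map_mul]; ring
  have hp1 := hp.out.one_le
  unfold a
  rw [h, mul_pow, coeff_mul, Finset.Nat.sum_antidiagonal_eq_sum_range_succ_mk]
  have h2 := congrArg (eval β) (pw p α)
  simp only [eval_pow, eval_sub, eval_X, eval_C, eval_finset_sum, eval_mul] at h2
  rw [h2, Nat.succ_eq_add_one, Nat.sub_add_cancel hp1, ← sum_range_reflect]
  refine sum_congr rfl fun j hj => ?_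
  have := mem_range.1 hj
  rw [pw_coeff p _ _ (by omega), pw_coeff p _ _ (by omega)]
  congr 2 <;> omega

lemma top (b c : K) : a b c p p = b ^ p := by
  unfold a
  have h0 := hp.out.pos
  rw [add_pow_char, add_pow_char, mul_pow, ← C_pow, ← C_pow, ← pow_mul, coeff_add, coeff_add,
    coeff_C_mul, coeff_X_pow, coeff_X_pow, coeff_C, if_neg (by omega), if_pos rfl, if_neg (by omega)]
  simp
end modp

lemma q2aux (K : Type*) [Field K] [IsAlgClosed K] (b c : ℤ) (p : ℕ) [hp : Fact p.Prime] [CharP K p]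
    (h2 : p ≠ 2) (hm : ¬ (p : ℤ) ∣ b - 2 * c) :
    (p : ℤ) ∣ a b (c ^ 2) p p * a b (c ^ 2) (p - 1) (p - 1)
      - b * legendreSym p (b ^ 2 - 4 * c ^ 2) * (b - 2 * c) ^ (2 * (p - 1)) := by
  let φ : ZMod p →+* K := ZMod.castHom (dvd_refl p) K
  rw [← CharP.intCast_eq_zero_iff K p]
  have h2K : (2 : K) ≠ 0 := by
    intro h
    have : ((2 : ℕ) : K) = 0 := by exact_mod_cast h
    rw [CharP.cast_eq_zero_iff K p] at this
    exact h2 ((Nat.prime_dvd_prime_iff_eq hp.out Nat.prime_two).1 this)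
  obtain ⟨s, hs⟩ := IsAlgClosed.exists_pow_nat_eq ((b : K) ^ 2 - 4 * (c : K) ^ 2) two_pos
  have e1 : ((a b (c ^ 2) p p : ℤ) : K) = (b : K) := by
    have := map_a (Int.castRingHom K) b (c ^ 2) p p
    simp only [eq_intCast] at this
    rw [this, top]
    have h3 : ((b : ZMod p)) ^ p = b := ZMod.pow_card _
    have := congrArg φ h3
    rwa [map_pow, map_intCast] at this
  have hodd : p - 1 = 2 * (p / 2) := by
    have := hp.out.eq_two_or_odd.resolve_left h2
    omega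
  have e2 : ((a b (c ^ 2) (p - 1) (p - 1) : ℤ) : K) = ((b : K) ^ 2 - 4 * (c : K) ^ 2) ^ (p / 2) := by
    have := map_a (Int.castRingHom K) b (c ^ 2) (p - 1) (p - 1)
    simp only [eq_intCast] at this
    have h4 := mid p ((-(b : K) - s) / 2) ((-(b : K) + s) / 2)
    have i1 : -((-(b : K) - s) / 2 + (-(b : K) + s) / 2) = b := by field_simp; ring
    have i2 : (-(b : K) - s) / 2 * ((-(b : K) + s) / 2) = ((c ^ 2 : ℤ) : K) := by
      push_cast; field_simp; linear_combination -hs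
    have i3 : (-(b : K) + s) / 2 - (-(b : K) - s) / 2 = s := by field_simp; ring
    rw [i1, i2, i3] at h4
    rw [this, h4, hodd, pow_mul, hs]
  have e3 : ((legendreSym p (b ^ 2 - 4 * c ^ 2) : ℤ) : K) = ((b : K) ^ 2 - 4 * (c : K) ^ 2) ^ (p / 2) := by
    have := congrArg φ (legendreSym.eq_pow p (b ^ 2 - 4 * c ^ 2))
    rw [map_pow, map_intCast, map_intCast] at this
    rw [this]; push_cast; rfl
  have e4 : ((b : K) - 2 * c) ^ (p - 1) = 1 := by
    have h5 : ((b - 2 * c : ℤ) : ZMod p) ≠ 0 := by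
      rwa [Ne, ZMod.intCast_zmod_eq_zero_iff_dvd]
    have := congrArg φ (ZMod.pow_card_sub_one_eq_one h5)
    rw [map_pow, map_intCast, map_one] at this
    rw [← this]; push_cast; rfl
  push_cast
  rw [e1, e2, e3, mul_comm 2 (p - 1), pow_mul, e4]
  ring

theorem main :
    (∀ (b c : ℤ) (n : ℕ), 1 ≤ n →
      (n : ℤ) ∣ ∑ j ∈ range n,
        (8 * c * j + 4 * c + b) * T b (c ^ 2) j ^ 2 * (b - 2 * c) ^ (2 * (n - 1 - j))) ∧
    (∀ (b c : ℤ) (p : ℕ) [Fact p.Prime], p ≠ 2 → ¬ (p : ℤ) ∣ b * (b - 2 * c) →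
      ∃ u v : ℤ, ¬ (p : ℤ) ∣ v ∧
        (∑ j ∈ range p, ((8 * c * j + 4 * c + b : ℤ) : ℚ) * (T b (c ^ 2) j : ℚ) ^ 2
            / ((b - 2 * c : ℤ) : ℚ) ^ (2 * j))
          - (p : ℚ) * ((b + 2 * c : ℤ) : ℚ) * (legendreSym p (b ^ 2 - 4 * c ^ 2) : ℚ)
          = (p : ℚ) ^ 2 * (u : ℚ) / (v : ℚ)) := by
  constructor
  · intro b c n hn
    obtain ⟨n, rfl⟩ : ∃ k, n = k + 1 := ⟨n - 1, by omega⟩
    exact q1 b c n
  · intro b c p hp h2 hd
    have hb : ¬ (p : ℤ) ∣ b := fun h => hd (h.mul_right _)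
    have hm : ¬ (p : ℤ) ∣ b - 2 * c := fun h => hd (h.mul_left _)
    have hpi : Prime (p : ℤ) := Nat.prime_iff_prime_int.1 hp.out
    obtain ⟨w, hw⟩ := q2aux (AlgebraicClosure (ZMod p)) b c p h2 hm
    have hp1 := hp.out.one_le
    have hc := closed b c (p - 1)
    rw [Nat.sub_add_cancel hp1] at hc
    have hcast : ((p - 1 : ℕ) : ℤ) + 1 = p := by omega
    rw [hcast] at hc
    set Y := (c * a b (c ^ 2) (p - 1) p - a b (c ^ 2) (p - 1) (p - 1)) ^ 2
    refine ⟨b * (2 * c) * Y + (b + 2 * c) * w, b * (b - 2 * c) ^ (2 * (p - 1)), ?_, ?_⟩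
    · intro h
      rcases hpi.dvd_or_dvd h with h | h
      · exact hb h
      · exact hm (hpi.dvd_of_dvd_pow h)
    · have hb0 : (b : ℚ) ≠ 0 := by
        intro h; apply hb; rw [show b = 0 by exact_mod_cast h]; exact dvd_zero _
      have hm0 : ((b - 2 * c : ℤ) : ℚ) ≠ 0 := by
        intro h; apply hm; rw [show b - 2 * c = 0 by exact_mod_cast h]; exact dvd_zero _
      have hS : (∑ j ∈ range p, ((8 * c * j + 4 * c + b : ℤ) : ℚ) * (T b (c ^ 2) j : ℚ) ^ 2
            / ((b - 2 * c : ℤ) : ℚ) ^ (2 * j)) * ((b - 2 * c : ℤ) : ℚ) ^ (2 * (p - 1))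
            = ((S b c p : ℤ) : ℚ) := by
        unfold S
        rw [sum_mul, Int.cast_sum]
        refine sum_congr rfl fun j hj => ?_
        have := mem_range.1 hj
        rw [show 2 * (p - 1) = 2 * j + 2 * (p - 1 - j) by omega, pow_add, Int.cast_mul, Int.cast_mul,
          Int.cast_pow, Int.cast_pow]
        have : T b (c ^ 2) j = a b (c ^ 2) j j := rfl
        rw [this]
        field_simp
      have hZ : b * S b c p - p * (b + 2 * c) * legendreSym p (b ^ 2 - 4 * c ^ 2)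
          * (b * (b - 2 * c) ^ (2 * (p - 1))) = (p : ℤ) ^ 2 * (b * (2 * c) * Y + (b + 2 * c) * w) := by
        linear_combination hc + p * (b + 2 * c) * hw
      have hQ := congrArg (Int.cast : ℤ → ℚ) hZ
      rw [eq_div_iff (by rw [Int.cast_mul, Int.cast_pow]; exact mul_ne_zero hb0 (pow_ne_zero _ hm0))]
      generalize (∑ j ∈ range p, ((8 * c * j + 4 * c + b : ℤ) : ℚ) * (T b (c ^ 2) j : ℚ) ^ 2
            / ((b - 2 * c : ℤ) : ℚ) ^ (2 * j)) = Z at hS ⊢
      generalize S b c p = S0 at hS hQ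
      push_cast at hS hQ ⊢
      linear_combination hQ + b * hS

end Pool.Agent.H53.TbQ
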