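import Mathlib

/-! Abstract form of the asteroidal triple theorem for the consecutive ones property. -/

namespace Pool.Agent.H53.Tk

open Classical

variable {X : Type*}

/-- `L a b c` means: `c` may not lie between `a` and `b`. -/
structure Sys (L : X → X → X → Prop) : Prop where
  refl : ∀ a c, a ≠ c → L a a c
  symm : ∀ a b c, L a b c → L b a c
  trans : ∀ a b d c, L a b c → L b d c → L a d c
  split : ∀ a b c d, L a b c → L a d c ∨ L a b d
  irr : ∀ a c, ¬ L a c c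
  noAT : ∀ a b c, L a b c → L b c a → L a c b → False

def Valid (L : X → X → X → Prop) (Y : Finset X) (r : X → ℝ) : Prop :=
  Set.InjOn r Y ∧ (∀ y ∈ Y, 0 < r y ∧ r y < 1) ∧
    ∀ a ∈ Y, ∀ b ∈ Y, ∀ c ∈ Y, r a < r c → r c < r b → ¬ L a b c

def Endable (L : X → X → X → Prop) (Y : Finset X) (e : X) : Prop :=
  ∀ b ∈ Y, ∀ c ∈ Y, L e b c → L e c b → False

def PA (L : X → X → X → Prop) (Y : Finset X) : Prop := ∃ r, Valid L Y r

def PB (L : X → X → X → Prop) (Y : Finset X) : Prop :=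
  ∀ e ∈ Y, Endable L Y e → ∃ r, Valid L Y r ∧ ∀ y ∈ Y, y ≠ e → r e < r y

variable {L : X → X → X → Prop}

theorem Sys.ne_left (h : Sys L) {a b c : X} (H : L a b c) : a ≠ c := by
  rintro rfl
  exact h.irr b a (h.symm _ _ _ H)

theorem Sys.ne_right (h : Sys L) {a b c : X} (H : L a b c) : b ≠ c := by
  rintro rfl
  exact h.irr a b H

theorem Valid.rev (h : Sys L) {Y : Finset X} {r : X → ℝ} (hr : Valid L Y r) :
    Valid L Y (fun y => 1 - r y) := by
  obtain ⟨h1, h2, h3⟩ := hr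
  refine ⟨fun a ha b hb hab => h1 ha hb (by simpa using hab), fun y hy => ?_, ?_⟩
  · have := h2 y hy
    constructor <;> linarith [this.1, this.2]
  · intro a ha b hb c hc hac hcb H
    exact h3 b hb a ha c hc (by linarith) (by linarith) (h.symm _ _ _ H)

theorem Valid.mono {Y Z : Finset X} {r : X → ℝ} (hr : Valid L Y r) (hZ : Z ⊆ Y) :
    Valid L Z r :=
  ⟨hr.1.mono (by exact_mod_cast hZ), fun y hy => hr.2.1 y (hZ hy),
    fun a ha b hb c hc => hr.2.2 a (hZ ha) b (hZ hb) c (hZ hc)⟩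

theorem glue (h : Sys L) {Y L1 : Finset X} {e : X} (he : e ∉ L1)
    {r1 r2 : X → ℝ} (h1 : Valid L L1 r1) (h2 : Valid L (Y \ L1) r2) (heY : e ∈ Y)
    (hmin : ∀ y ∈ Y \ L1, y ≠ e → r2 e < r2 y)
    (hlow : ∀ c ∈ L1, ∀ b ∈ Y, b ≠ e → ¬ L e b c)
    (hup : ∀ a ∈ L1, ∀ c ∈ Y \ L1, c ≠ e → L e a c)
    (hP : ∀ a ∈ L1, ∀ c ∈ L1, ∀ b ∈ Y \ L1, b ≠ e → r1 a < r1 c → ¬ L a b c) :
    ∃ r, Valid L Y r ∧ ∀ y ∈ Y, y ≠ e → r e < r y := by
  let r : X → ℝ := fun y => if y = e then 1/8 else if y ∈ L1 then (1 + r1 y)/4 else (1 + r2 y)/2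
  have re : r e = 1/8 := by simp [r]
  have rL : ∀ y ∈ L1, r y = (1 + r1 y)/4 := by
    intro y hy
    have : y ≠ e := fun h => he (h ▸ hy)
    simp [r, this, hy]
  have rR : ∀ y, y ∉ L1 → y ≠ e → r y = (1 + r2 y)/2 := by
    intro y hy hye
    simp [r, hye, hy]
  have heR : e ∈ Y \ L1 := Finset.mem_sdiff.2 ⟨heY, he⟩
  have cs : ∀ y ∈ Y, (y = e ∧ r y = 1/8) ∨
      (y ∈ L1 ∧ r y = (1 + r1 y)/4 ∧ 0 < r1 y ∧ r1 y < 1) ∨
      (y ∈ Y \ L1 ∧ y ≠ e ∧ r y = (1 + r2 y)/2 ∧ 0 < r2 y ∧ r2 y < 1) := by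
    intro y hy
    by_cases hye : y = e
    · exact Or.inl ⟨hye, hye ▸ re⟩
    by_cases hyL : y ∈ L1
    · exact Or.inr (Or.inl ⟨hyL, rL y hyL, h1.2.1 y hyL⟩)
    · have : y ∈ Y \ L1 := Finset.mem_sdiff.2 ⟨hy, hyL⟩
      exact Or.inr (Or.inr ⟨this, hye, rR y hyL hye, h2.2.1 y this⟩)
  refine ⟨r, ⟨?_, ?_, ?_⟩, ?_⟩
  · intro a ha b hb hab
    rcases cs a ha with ⟨a1, a2⟩ | ⟨a1, a2, a3, a4⟩ | ⟨a1, a2, a3, a4, a5⟩ <;>
    rcases cs b hb with ⟨b1, b2⟩ | ⟨b1, b2, b3, b4⟩ | ⟨b1, b2, b3, b4, b5⟩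
    · rw [a1, b1]
    · exfalso; linarith
    · exfalso; linarith
    · exfalso; linarith
    · exact h1.1 a1 b1 (by linarith)
    · exfalso; linarith
    · exfalso; linarith
    · exfalso; linarith
    · exact h2.1 a1 b1 (by linarith)
  · intro y hy
    rcases cs y hy with ⟨a1, a2⟩ | ⟨a1, a2, a3, a4⟩ | ⟨a1, a2, a3, a4, a5⟩ <;>
    constructor <;> linarith
  · intro a ha b hb c hc hac hcb H
    rcases cs a ha with ⟨a1, a2⟩ | ⟨a1, a2, a3, a4⟩ | ⟨a1, a2, a3, a4, a5⟩ <;>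
    rcases cs b hb with ⟨b1, b2⟩ | ⟨b1, b2, b3, b4⟩ | ⟨b1, b2, b3, b4, b5⟩ <;>
    rcases cs c hc with ⟨c1, c2⟩ | ⟨c1, c2, c3, c4⟩ | ⟨c1, c2, c3, c4, c5⟩ <;>
    first
      | linarith
      | exact hlow c c1 b hb (fun hbe => he (hbe ▸ b1)) (a1 ▸ H)
      | exact hlow c c1 b hb b2 (a1 ▸ H)
      | exact h2.2.2 e heR b b1 c c1 (hmin c c1 c2) (by linarith) (a1 ▸ H)
      | exact h1.2.2 a a1 b b1 c c1 (by linarith) (by linarith) H
      | exact hP a a1 c c1 b b1 b2 (by linarith) H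
      | exact h2.2.2 e heR b b1 c c1 (hmin c c1 c2) (by linarith)
          (h.trans _ _ _ _ (hup a a1 c c1 c2) H)
      | exact h2.2.2 a a1 b b1 c c1 (by linarith) (by linarith) H
  · intro y hy hye
    rcases cs y hy with ⟨a1, a2⟩ | ⟨a1, a2, a3, a4⟩ | ⟨a1, a2, a3, a4, a5⟩
    · exact absurd a1 hye
    · linarith
    · linarith

theorem stepB (h : Sys L) (Y : Finset X)
    (ih : ∀ Z : Finset X, Z.card < Y.card → PA L Z ∧ PB L Z) : PB L Y := by
  intro e he hend
  by_cases hne : (Y.erase e).Nonempty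
  swap
  · have hY : ∀ y ∈ Y, y = e := by
      intro y hy
      by_contra hye
      exact hne ⟨y, Finset.mem_erase.2 ⟨hye, hy⟩⟩
    refine ⟨fun _ => 1/2, ⟨?_, ?_, ?_⟩, ?_⟩
    · intro a ha b hb _
      rw [hY a ha, hY b hb]
    · intro y _; norm_num
    · intro a _ b _ c _ hac; simp at hac
    · intro y hy hye; exact absurd (hY y hy) hye
  let L1 := (Y.erase e).filter (fun c => ∀ b ∈ Y, b ≠ e → ¬ L e b c)
  have hL1 : ∀ c, c ∈ L1 ↔ (c ≠ e ∧ c ∈ Y) ∧ ∀ b ∈ Y, b ≠ e → ¬ L e b c := by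
    intro c; simp only [L1, Finset.mem_filter, Finset.mem_erase]
  have heL : e ∉ L1 := fun H => ((hL1 e).1 H).1.1 rfl
  have hLY : L1 ⊆ Y := fun c hc => ((hL1 c).1 hc).1.2
  have hL1ne : L1.Nonempty := by
    obtain ⟨c, hc, hcm⟩ := Finset.exists_min_image (Y.erase e)
      (fun c => (Y.filter (fun d => L e d c)).card) hne
    have hc' := Finset.mem_erase.1 hc
    refine ⟨c, (hL1 c).2 ⟨hc', fun b hb hbe H => ?_⟩⟩
    have h1 := hcm b (Finset.mem_erase.2 ⟨hbe, hb⟩)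
    have h2 : Y.filter (fun d => L e d b) ⊂ Y.filter (fun d => L e d c) := by
      refine Finset.ssubset_iff_subset_ne.2 ⟨?_, ?_⟩
      · intro d hd
        rw [Finset.mem_filter] at hd ⊢
        refine ⟨hd.1, ?_⟩
        rcases h.split _ _ _ c hd.2 with H2 | H2
        · exact (hend b hb c hc'.2 H H2).elim
        · exact H2
      · intro heq
        have : b ∈ Y.filter (fun d => L e d c) := Finset.mem_filter.2 ⟨hb, H⟩
        rw [← heq, Finset.mem_filter] at this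
        exact h.irr _ _ this.2
    have := Finset.card_lt_card h2
    omega
  have hup : ∀ a ∈ L1, ∀ c ∈ Y \ L1, c ≠ e → L e a c := by
    intro a ha c hc hce
    have hc' := Finset.mem_sdiff.1 hc
    have : ¬ ∀ b ∈ Y, b ≠ e → ¬ L e b c := fun H => hc'.2 ((hL1 c).2 ⟨⟨hce, hc'.1⟩, H⟩)
    push Not at this
    obtain ⟨b, hb, hbe, H⟩ := this
    rcases h.split _ _ _ a H with H2 | H2
    · exact H2
    · exact (((hL1 a).1 ha).2 b hb hbe H2).elim
  have heR : e ∈ Y \ L1 := Finset.mem_sdiff.2 ⟨he, heL⟩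
  have hRcard : (Y \ L1).card < Y.card := by
    apply Finset.card_lt_card
    refine Finset.ssubset_iff_subset_ne.2 ⟨Finset.sdiff_subset, fun heq => ?_⟩
    obtain ⟨c, hc⟩ := hL1ne
    have : c ∈ Y \ L1 := heq.symm ▸ hLY hc
    exact (Finset.mem_sdiff.1 this).2 hc
  obtain ⟨r2, hr2, hmin⟩ := (ih _ hRcard).2 e heR
    (fun b hb c hc => hend b (Finset.mem_sdiff.1 hb).1 c (Finset.mem_sdiff.1 hc).1)
  by_cases hR : ((Y \ L1).erase e).Nonempty
  · obtain ⟨b', hb', hbm⟩ := Finset.exists_min_image _ r2 hR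
    have hb'' := Finset.mem_erase.1 hb'
    have hb'Y := Finset.mem_sdiff.1 hb''.2
    have hcard : (insert b' L1).card < Y.card := by
      apply Finset.card_lt_card
      refine Finset.ssubset_iff_subset_ne.2 ⟨Finset.insert_subset hb'Y.1 hLY, fun heq => ?_⟩
      have : e ∈ insert b' L1 := heq.symm ▸ he
      rcases Finset.mem_insert.1 this with H | H
      · exact hb''.1 H.symm
      · exact heL H
    have hend' : Endable L (insert b' L1) b' := by
      intro a ha c hc H1 H2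
      have ha' : a ∈ L1 := (Finset.mem_insert.1 ha).resolve_left (h.ne_left H2).symm
      have hc' : c ∈ L1 := (Finset.mem_insert.1 hc).resolve_left (h.ne_left H1).symm
      exact h.noAT b' a c H1
        (h.trans _ _ _ _ (h.symm _ _ _ (hup a ha' b' hb''.2 hb''.1)) (hup c hc' b' hb''.2 hb''.1))
        H2
    obtain ⟨r1, hr1, hm1⟩ := (ih _ hcard).2 b' (Finset.mem_insert_self _ _) hend'
    have hr1' := hr1.rev h
    refine glue h heL (hr1'.mono (Finset.subset_insert _ _)) hr2 he hmin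
      (fun c hc => ((hL1 c).1 hc).2) hup ?_
    intro a ha c hc b hb hbe hac H
    have hcb' : c ≠ b' := fun H => hb'Y.2 (H ▸ hc)
    have H1 : L a b' c := by
      rcases h.split _ _ _ b' H with H2 | H2
      · exact H2
      · exfalso
        have H3 : L e b b' := h.trans _ _ _ _ (hup a ha b' hb''.2 hb''.1) H2
        have hlt : r2 b' < r2 b := by
          refine lt_of_le_of_ne (hbm b (Finset.mem_erase.2 ⟨hbe, hb⟩)) (fun heq => ?_)
          exact h.ne_right H2 (hr2.1 hb''.2 hb heq).symm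
        exact hr2.2.2 e heR b hb b' hb''.2 (hmin b' hb''.2 hb''.1) hlt H3
    refine hr1'.2.2 a (Finset.mem_insert_of_mem ha) b' (Finset.mem_insert_self _ _) c
      (Finset.mem_insert_of_mem hc) hac ?_ H1
    have := hm1 c (Finset.mem_insert_of_mem hc) hcb'
    show 1 - r1 c < 1 - r1 b'
    linarith
  · have hcard : L1.card < Y.card := by
      apply Finset.card_lt_card
      exact Finset.ssubset_iff_subset_ne.2 ⟨hLY, fun heq => heL (heq.symm ▸ he)⟩
    obtain ⟨r1, hr1⟩ := (ih _ hcard).1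
    refine glue h heL hr1 hr2 he hmin (fun c hc => ((hL1 c).1 hc).2) hup ?_
    intro a _ c _ b hb hbe
    exact (hR ⟨b, Finset.mem_erase.2 ⟨hbe, hb⟩⟩).elim

theorem exists_end (h : Sys L) (Y : Finset X) (hY : Y.Nonempty)
    (ih : ∀ Z : Finset X, Z.card < Y.card → PB L Z) : ∃ e ∈ Y, Endable L Y e := by
  by_cases h2 : ∃ p ∈ Y, ∃ x ∈ Y, p ≠ x
  swap
  · push Not at h2
    obtain ⟨e, he⟩ := hY
    exact ⟨e, he, fun b _ c hc H _ => h.ne_left H (h2 e he c hc)⟩
  obtain ⟨p0, hp0, x0, hx0, hpx0⟩ := h2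
  obtain ⟨⟨p, x⟩, hpx, hmax⟩ := Finset.exists_max_image (Y ×ˢ Y)
    (fun q : X × X => (Y.filter (fun a => L q.1 a q.2)).card)
    ⟨(p0, x0), Finset.mem_product.2 ⟨hp0, hx0⟩⟩
  have hx : x ∈ Y := (Finset.mem_product.1 hpx).2
  set K := Y.filter (fun a => L p a x) with hK
  have hKm : ∀ a, a ∈ K ↔ a ∈ Y ∧ L p a x := fun a => Finset.mem_filter
  have hKne : K.Nonempty := by
    have := hmax (p0, x0) (Finset.mem_product.2 ⟨hp0, hx0⟩)
    have h3 : 0 < (Y.filter (fun a => L p0 a x0)).card :=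
      Finset.card_pos.2 ⟨p0, Finset.mem_filter.2 ⟨hp0, h.refl _ _ hpx0⟩⟩
    exact Finset.card_pos.1 (lt_of_lt_of_le h3 this)
  have hxend : Endable L (insert x K) x := by
    intro b hb c hc H1 H2
    have hb' : b ∈ K := (Finset.mem_insert.1 hb).resolve_left (h.ne_left H2).symm
    have hc' : c ∈ K := (Finset.mem_insert.1 hc).resolve_left (h.ne_left H1).symm
    exact h.noAT x b c H1
      (h.trans _ _ _ _ (h.symm _ _ _ ((hKm b).1 hb').2) ((hKm c).1 hc').2) H2
  have hsub : insert x K ⊆ Y := Finset.insert_subset hx (Finset.filter_subset _ _)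
  by_cases hall : insert x K = Y
  · exact ⟨x, hx, hall ▸ hxend⟩
  have hcard : (insert x K).card < Y.card :=
    Finset.card_lt_card (Finset.ssubset_iff_subset_ne.2 ⟨hsub, hall⟩)
  obtain ⟨r, hr, hm⟩ := ih _ hcard x (Finset.mem_insert_self _ _) hxend
  obtain ⟨e, he, hem⟩ := Finset.exists_max_image K r hKne
  have he' := (hKm e).1 he
  have heI : e ∈ insert x K := Finset.mem_insert_of_mem he
  have hlt : ∀ b ∈ insert x K, b ≠ e → r b < r e := by
    intro b hb hbe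
    rcases Finset.mem_insert.1 hb with H | H
    · rw [H]; exact hm e heI (h.ne_right he'.2)
    · exact lt_of_le_of_ne (hem b H) (fun heq => hbe (hr.1 hb heI heq))
  have out : ∀ b ∈ Y, ∀ c ∈ Y, L e b c → b ∉ insert x K → False := by
    intro b hb c hc H hbK
    have hbK' : b ∉ K := fun H => hbK (Finset.mem_insert_of_mem H)
    have hcK : c ∈ K := by
      by_contra hcK
      have hss : K ⊂ Y.filter (fun a => L e a c) := by
        refine Finset.ssubset_iff_subset_ne.2 ⟨?_, fun heq => ?_⟩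
        · intro a ha
          have ha' := (hKm a).1 ha
          refine Finset.mem_filter.2 ⟨ha'.1, ?_⟩
          have H1 : L e a x := h.trans _ _ _ _ (h.symm _ _ _ he'.2) ha'.2
          rcases h.split _ _ _ c H1 with H2 | H2
          · exact (hcK ((hKm c).2 ⟨hc, h.trans _ _ _ _ he'.2 H2⟩)).elim
          · exact H2
        · exact hbK' (heq ▸ Finset.mem_filter.2 ⟨hb, H⟩)
      have h3 := Finset.card_lt_card hss
      have h4 := hmax (e, c) (Finset.mem_product.2 ⟨he'.1, hc⟩)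
      exact absurd h3 (not_lt.2 h4)
    have H1 : L e x c := by
      rcases h.split _ _ _ x H with H2 | H2
      · exact H2
      · exact (hbK' ((hKm b).2 ⟨hb, h.trans _ _ _ _ he'.2 H2⟩)).elim
    have hcI : c ∈ insert x K := Finset.mem_insert_of_mem hcK
    exact hr.2.2 x (Finset.mem_insert_self _ _) e heI c hcI
      (hm c hcI (h.ne_right H1).symm) (hlt c hcI (h.ne_left H).symm) (h.symm _ _ _ H1)
  refine ⟨e, he'.1, fun b hb c hc H1 H2 => ?_⟩
  by_cases hbI : b ∈ insert x K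
  swap
  · exact out b hb c hc H1 hbI
  by_cases hcI : c ∈ insert x K
  swap
  · exact out c hc b hb H2 hcI
  have hbc : r b ≠ r c := fun heq => h.ne_right H1 (hr.1 hbI hcI heq)
  rcases lt_or_gt_of_ne hbc with hl | hl
  · exact hr.2.2 b hbI e heI c hcI hl (hlt c hcI (h.ne_left H1).symm) (h.symm _ _ _ H1)
  · exact hr.2.2 c hcI e heI b hbI hl (hlt b hbI (h.ne_left H2).symm) (h.symm _ _ _ H2)

theorem finite_order (h : Sys L) (Y : Finset X) : PA L Y ∧ PB L Y := by
  induction' hn : Y.card using Nat.strong_induction_on with n ih generalizing Y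
  have ih' : ∀ Z : Finset X, Z.card < Y.card → PA L Z ∧ PB L Z :=
    fun Z hZ => ih Z.card (hn ▸ hZ) Z rfl
  have hB := stepB h Y ih'
  refine ⟨?_, hB⟩
  rcases Y.eq_empty_or_nonempty with hY | hY
  · subst hY
    exact ⟨fun _ => 0, by simp [Valid]⟩
  · obtain ⟨e, he, hend⟩ := exists_end h Y hY (fun Z hZ => (ih' Z hZ).2)
    obtain ⟨r, hr, _⟩ := hB e he hend
    exact ⟨r, hr⟩

/-- Compactness: a strict total order on the whole type. -/
theorem exists_order (h : Sys L) : ∃ lt : X → X → Prop,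
    (∀ a b c, lt a b → lt b c → lt a c) ∧ (∀ a b, a ≠ b → lt a b ∨ lt b a) ∧
    (∀ a, ¬ lt a a) ∧ ∀ a b c, lt a c → lt c b → ¬ L a b c := by
  choose r hr using fun Y : Finset X => (finite_order h Y).1
  let U : Ultrafilter (Finset X) := Ultrafilter.of Filter.atTop
  have hU : ∀ a : X, ∀ᶠ Y in (U : Filter (Finset X)), a ∈ Y := by
    intro a
    apply (Ultrafilter.of_le _ : (U : Filter (Finset X)) ≤ Filter.atTop)
    filter_upwards [Filter.eventually_ge_atTop ({a} : Finset X)] with Y hY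
    exact hY (Finset.mem_singleton_self a)
  refine ⟨fun a b => ∀ᶠ Y in (U : Filter (Finset X)), r Y a < r Y b, ?_, ?_, ?_, ?_⟩
  · intro a b c h1 h2
    filter_upwards [h1, h2] with Y h1 h2 using h1.trans h2
  · intro a b hab
    rw [← Ultrafilter.eventually_or]
    filter_upwards [hU a, hU b] with Y ha hb
    exact lt_or_gt_of_ne (fun heq => hab ((hr Y).1 ha hb heq))
  · intro a H
    obtain ⟨Y, hY⟩ := H.exists
    exact lt_irrefl _ hY
  · intro a b c h1 h2 H
    obtain ⟨Y, hY⟩ := (h1.and (h2.and ((hU a).and ((hU b).and (hU c))))).exists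
    exact (hr Y).2.2 a hY.2.2.1 b hY.2.2.2.1 c hY.2.2.2.2 hY.1 hY.2.1 H

end Pool.Agent.H53.Tk
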