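import Mathlib
import Pool.Agent.H53.BsB

open Set Finset

namespace Pool.Agent.H53.Ul
open Pool.Agent.H53.Ms Pool.Agent.H53.Bs

/-- core dichotomy for two dangerous points in the same class -/
lemma core (R ε a b Q W h τ η Z T : ℝ) (k : ℕ) (R1 : 200 ≤ R) (ε0 : 0 < ε) (a0 : 0 < a) (b0 : 0 < b) (W1 : 1 ≤ W)
    (hab : a * b = Q) (h0 : 0 < h) (τ0 : 0 ≤ τ) (hτ : h * τ = 2 * ε * R ^ k) (ha : ε / R ^ 8 ≤ a)
    (x1 y1 x2 y2 : ℝ) (A1 B1 C1 A2 B2 C2 p1 r1 p2 r2 : ℤ) (q1 q2 : ℕ) (hq1 : 1 ≤ q1) (hq : q1 ≤ q2)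
    (n1 : A1 ≠ 0 ∨ B1 ≠ 0) (n2 : A2 ≠ 0 ∨ B2 ≠ 0)
    (a1 : |(A1:ℝ)| ≤ a / W) (a2 : |(A2:ℝ)| ≤ a / W) (b1 : |(B1:ℝ)| ≤ b / W) (b2 : |(B2:ℝ)| ≤ b / W)
    (l1 : (A1:ℝ) * p1 + B1 * r1 + C1 * q1 = 0) (l2 : (A2:ℝ) * p2 + B2 * r2 + C2 * q2 = 0)
    (c1 : |q1 * x1 - p1| ≤ ε / a) (c2 : |q2 * x2 - p2| ≤ ε / a) (d1 : |q1 * y1 - r1| ≤ ε / b)
    (d2 : |q2 * y2 - r2| ≤ ε / b) (e1 : |x2 - x1| ≤ τ) (e2 : |y2 - y1| ≤ τ)
    (g1 : Q ≤ R ^ 8 * W ^ 2 * q1) (g2 : q2 * W ^ 2 ≤ Q)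
    (H1 : q1 * max |(A1:ℝ)| |(B1:ℝ)| * W ≤ R * h) (H2 : q2 * max |(A2:ℝ)| |(B2:ℝ)| * W ≤ R * h)
    (η0 : 0 < η) (hη : h * (R ^ 9 * W ^ 2) ≤ η * (Q * b)) (hη' : η * (Q * b) ≤ h * (R ^ 17 * W ^ 2))
    (hZ : Z = R ^ (k + 18)) (ZT : Z ≤ T)
    (hc : 8 * ε * R ^ (k + 9) < W ∨ η * Z * T ≤ 1) :
    (A1:ℝ) * p2 + B1 * r2 + C1 * q2 = 0 ∨ ∃ (p0 r0 : ℤ) (q0 : ℕ), 1 ≤ q0 ∧ q0 ≤ Q ∧ |q0 * x1 - p0| ≤ ε / (a * T) ∧
      |q0 * y1 - r0| ≤ ε / (b / T) ∧ q0 * (a * T) * R ^ k ≤ h ∧ q0 * (b / T) * R ^ k ≤ h ∧ 1 ≤ b / T := by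
  have R0 : 0 < R := by linarith
  have R1' : 1 ≤ R := by linarith
  have W0 : 0 < W := by linarith
  have Q0 : 0 < Q := by rw [← hab]; positivity
  have q10 : (0:ℝ) < q1 := by exact_mod_cast hq1
  have q12 : (q1:ℝ) ≤ q2 := by exact_mod_cast hq
  have q20 : (0:ℝ) < q2 := by linarith
  have ml : ∀ A a : ℝ, 0 < a → |A| ≤ a / W → |A| * (ε / a) ≤ ε / W := fun A a h1 h2 =>
    (mul_le_mul_of_nonneg_right h2 (by positivity)).trans_eq (by field_simp)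
  have Rk : 1 ≤ R ^ (k + 1) := one_le_pow₀ R1'
  have εW : 0 < ε / W := by positivity
  have Hτ : ∀ q m : ℝ, q * m * W ≤ R * h → q * m * τ ≤ 2 * (ε / W) * R ^ (k + 1) := fun q m h1 => by
    have := mul_le_mul_of_nonneg_right h1 τ0
    rw [mul_assoc R, hτ] at this
    rw [mul_div_assoc', div_mul_eq_mul_div, le_div_iff₀ W0, pow_succ]
    linarith
  rcases hc with hc | hc
  · left
    have := small (ε / W) τ x1 y1 x2 y2 _ _ _ _ A1 B1 C1 _ _ _ _ _ _ 1 (one_dvd _) one_pos hq1 hq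
      (ml _ _ a0 a1) (ml _ _ a0 a1) (ml _ _ b0 b1) (ml _ _ b0 b1) c1 c2 d1 d2 e1 e2
      (by rwa [Nat.cast_one, div_one]) ?_
    · rwa [Nat.cast_one, div_one] at this
    have ρ : (q2:ℝ) ≤ R ^ 8 * q1 := le_of_mul_le_mul_right (by linarith) (show 0 < W ^ 2 by positivity)
    have x4 : 4 * (ε / W) + 2 * (q1 * max |(A1:ℝ)| |(B1:ℝ)| * τ) ≤ 8 * (ε / W) * R ^ (k + 1) := by
      linarith [mul_le_mul_of_nonneg_left Rk εW.le, Hτ _ _ H1]
    calc q2 * (4 * (ε / W) + 2 * (q1 * max |(A1:ℝ)| |(B1:ℝ)| * τ)) ≤ (R ^ 8 * q1) * (8 * (ε / W) * R ^ (k + 1)) :=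
          mul_le_mul ρ x4 (by positivity) (by positivity)
      _ = q1 * (8 * ε * R ^ (k + 9) / W) := by ring
      _ < q1 := mul_lt_of_lt_one_right q10 ((div_lt_one W0).2 hc)
  set M := b * η / W with hM
  have M0 : 0 < M := by positivity
  have mx : ∀ m q : ℝ, q1 ≤ q → 0 ≤ m → q * m * W ≤ R * h → m ≤ M := by
    intro m q y0 y1 y2
    rw [hM, le_div_iff₀ W0]
    refine le_of_mul_le_mul_left ?_ Q0
    have y3 := mul_le_mul_of_nonneg_right (g1.trans (mul_le_mul_of_nonneg_left y0 (by positivity)))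
      (mul_nonneg y1 W0.le)
    linarith [mul_le_mul_of_nonneg_left y2 (show 0 ≤ R ^ 8 * W ^ 2 by positivity)]
  have m1 := mx _ _ le_rfl (by positivity) H1
  have m2 := mx _ _ q12 (by positivity) H2
  set F := 6 * (ε / W) * R ^ (k + 1) / q1 with hF
  have F0 : 0 < F := by positivity
  have f1 : |A1 * x1 + B1 * y1 + (C1 : ℝ) / (1:ℕ)| ≤ F := by
    rw [Nat.cast_one, div_one, hF, le_div_iff₀ q10]
    refine (onL (ε / W) _ _ _ _ _ _ _ _ _ _ (ml _ _ a0 a1) (ml _ _ b0 b1) c1 d1 q10 l1).trans ?_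
    linarith [mul_le_mul_of_nonneg_left Rk εW.le]
  have f2 : |A2 * x1 + B2 * y1 + (C2 : ℝ) / (1:ℕ)| ≤ F := by
    rw [Nat.cast_one, div_one]
    have y1' := onL (ε / W) _ _ _ _ _ _ _ _ _ _ (ml _ _ a0 a2) (ml _ _ b0 b2) c2 d2 q20 l2
    have y2' := Hτ _ _ H2
    have y3 : |(A2 : ℝ) * (x2 - x1)| ≤ max |(A2 : ℝ)| |(B2 : ℝ)| * τ := by
      rw [abs_mul]; exact mul_le_mul (le_max_left _ _) e1 (abs_nonneg _) (by positivity)
    have y4 : |(B2 : ℝ) * (y2 - y1)| ≤ max |(A2 : ℝ)| |(B2 : ℝ)| * τ := by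
      rw [abs_mul]; exact mul_le_mul (le_max_right _ _) e2 (abs_nonneg _) (by positivity)
    have y5 : |A2 * x1 + B2 * y1 + C2| ≤ |A2 * x2 + B2 * y2 + C2| + 2 * (max |(A2 : ℝ)| |(B2 : ℝ)| * τ) := by
      have e : (A2 : ℝ) * x1 + B2 * y1 + C2 = (A2 * x2 + B2 * y2 + C2) - (A2 * (x2 - x1) + B2 * (y2 - y1)) := by ring
      rw [e]
      linarith [abs_sub ((A2 : ℝ) * x2 + B2 * y2 + C2) (A2 * (x2 - x1) + B2 * (y2 - y1)),
        abs_add_le ((A2 : ℝ) * (x2 - x1)) (B2 * (y2 - y1))]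
    have y6 := mul_le_mul_of_nonneg_right y5 q20.le
    rw [hF, le_div_iff₀ q10]
    refine (mul_le_mul_of_nonneg_left q12 (abs_nonneg _)).trans (y6.trans ?_)
    linarith [mul_le_mul_of_nonneg_left Rk εW.le]
  obtain ⟨z1, z2, z3⟩ := cross x1 y1 F (min (a / W) M) M _ _ _ _ _ _ 1 one_pos f1 f2
    (le_min a1 ((le_max_left _ _).trans m1)) (le_min a2 ((le_max_left _ _).trans m2)) ((le_max_right _ _).trans m1)
    ((le_max_right _ _).trans m2)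
  simp only [Nat.cast_one, one_mul, mul_one] at z1 z2
  have Z2 : 2 * (R ^ 17 * R ^ k) ≤ Z := by
    rw [hZ, ← pow_add, show k + 18 = 17 + k + 1 by ring, pow_succ' _ (17 + k)]
    exact mul_le_mul_of_nonneg_right (by linarith) (by positivity)
  have Z8 : R ^ 8 < Z := by rw [hZ]; exact pow_lt_pow_right₀ (by linarith) (by omega)
  have Z1 : 2 ≤ Z := by
    have : 1 ≤ R ^ 17 * R ^ k := by rw [← pow_add]; exact one_le_pow₀ R1'
    linarith
  have T0 : 0 < T := by linarith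
  have uF : 2 * F * Q / W ≤ Z * ε := by
    calc 2 * F * Q / W = 12 * ε * R ^ (k + 1) * (Q / (W ^ 2 * q1)) := by rw [hF]; field_simp; norm_num
      _ ≤ 12 * ε * R ^ (k + 1) * R ^ 8 :=
          mul_le_mul_of_nonneg_left ((div_le_iff₀ (by positivity)).2 (by linarith)) (by positivity)
      _ = 12 * (R ^ (k + 9) * ε) := by ring
      _ ≤ R ^ 9 * (R ^ (k + 9) * ε) := mul_le_mul_of_nonneg_right
          (le_trans (by linarith) (le_self_pow₀ R1' (by omega))) (by positivity)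
      _ = _ := by rw [hZ]; ring
  have w1 : 2 * M * F ≤ η * Z * ε / a := by
    calc 2 * M * F = η * (2 * F * Q / W) / a := by rw [hM, ← hab]; field_simp
      _ ≤ η * (Z * ε) / a := by gcongr
      _ = _ := by ring
  have w2 : 2 * min (a / W) M * F ≤ Z * ε / b := by
    calc 2 * min (a / W) M * F ≤ 2 * (a / W) * F := by gcongr; exact min_le_left _ _
      _ = (2 * F * Q / W) / b := by rw [← hab]; field_simp
      _ ≤ _ := by gcongr
  by_cases hm : A1 * B2 - A2 * B1 = 0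
  · left
    rw [hm, Int.cast_zero, zero_mul, zero_sub, abs_neg] at z1 z2
    have y1' : 2 * M * F < 1 := by
      refine w1.trans_lt ?_
      rw [div_le_iff₀ (by positivity)] at ha
      rw [div_lt_one a0]
      have y : 0 < η * Z := by positivity
      linarith [mul_le_mul_of_nonneg_left ha y.le, mul_lt_mul_of_pos_left (Z8.trans_le ZT) (mul_pos y a0),
        mul_le_mul_of_nonneg_right hc a0.le]
    have y2' : 2 * min (a / W) M * F < 1 := lt_of_le_of_lt (by gcongr; exact min_le_right _ _) y1'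
    have y3 : B1 * C2 - B2 * C1 = 0 := Int.abs_lt_one_iff.1 (by exact_mod_cast z1.trans_lt y1')
    have y4 : A2 * C1 - A1 * C2 = 0 := Int.abs_lt_one_iff.1 (by exact_mod_cast z2.trans_lt y2')
    have hm' : (A1 : ℝ) * B2 - A2 * B1 = 0 := by exact_mod_cast hm
    have y3' : (B1 : ℝ) * C2 - B2 * C1 = 0 := by exact_mod_cast y3
    have y4' : (A2 : ℝ) * C1 - A1 * C2 = 0 := by exact_mod_cast y4
    rcases n2 with n2 | n2
    · refine (mul_eq_zero.1 ?_).resolve_left (show (A2 : ℝ) ≠ 0 by exact_mod_cast n2)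
      linear_combination (A1 : ℝ) * l2 - r2 * hm' + q2 * y4'
    · refine (mul_eq_zero.1 ?_).resolve_left (show (B2 : ℝ) ≠ 0 by exact_mod_cast n2)
      linear_combination (B1 : ℝ) * l2 + p2 * hm' - q2 * y3'
  right
  obtain ⟨p0, r0, y1', y2'⟩ := sgn _ _ _ _ _ _ _ (z1.trans w1) (z2.trans w2)
  have q0a : ((A1 * B2 - A2 * B1).natAbs : ℝ) ≤ 2 * min (a / W) M * M := by
    rw [Nat.cast_natAbs, Int.cast_abs]; exact z3
  set q0 := (A1 * B2 - A2 * B1).natAbs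
  have q0b : (q0:ℝ) ≤ 2 * η * Q / W ^ 2 := by
    refine q0a.trans (le_trans (b := 2 * (a / W) * M) (by gcongr; exact min_le_left _ _) (le_of_eq ?_))
    rw [hM, ← hab]; field_simp
  have q0c : (q0:ℝ) ≤ 2 * M * M := q0a.trans (by gcongr; exact min_le_right _ _)
  have ηT : 2 * (η * T) ≤ 1 := by linarith [mul_le_mul_of_nonneg_left Z1 (show 0 ≤ η * T by positivity)]
  have W2 : 1 ≤ W ^ 2 := one_le_pow₀ W1
  refine ⟨p0, r0, q0, Int.natAbs_pos.2 hm, q0b.trans ((div_le_self (by positivity) W2).trans ?_), y1'.trans ?_,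
    y2'.trans ?_, ?_, ?_, ?_⟩
  · have : 2 * η ≤ 1 := by linarith [mul_le_mul_of_nonneg_left (show 1 ≤ T by linarith) η0.le]
    exact mul_le_of_le_one_left Q0.le this
  · rw [div_le_div_iff₀ a0 (by positivity)]
    linarith [mul_le_mul_of_nonneg_right hc (mul_pos ε0 a0).le]
  · rw [div_div_eq_mul_div, mul_comm Z]; gcongr
  · calc q0 * (a * T) * R ^ k ≤ 2 * M * M * (a * T) * R ^ k := by gcongr
      _ = 2 * (η * T * R ^ k / W ^ 2) * (η * (Q * b)) := by rw [hM, ← hab]; field_simp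
      _ ≤ 2 * (η * T * R ^ k / W ^ 2) * (h * (R ^ 17 * W ^ 2)) := by gcongr
      _ = h * (η * (2 * (R ^ 17 * R ^ k)) * T) := by field_simp
      _ ≤ h * (η * Z * T) := by gcongr
      _ ≤ h := mul_le_of_le_one_right h0.le hc
  · calc q0 * (b / T) * R ^ k ≤ 2 * η * Q / W ^ 2 * (b / T) * R ^ k := by gcongr
      _ = 2 * (R ^ k / (T * W ^ 2)) * (η * (Q * b)) := by field_simp
      _ ≤ 2 * (R ^ k / (T * W ^ 2)) * (h * (R ^ 17 * W ^ 2)) := by gcongr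
      _ = h * (2 * (R ^ 17 * R ^ k) / T) := by field_simp
      _ ≤ h := mul_le_of_le_one_right h0.le ((div_le_one T0).2 (Z2.trans ZT))
  · have y := ((one_le_max n1).trans m1).trans (div_le_self (by positivity) W1)
    rw [le_div_iff₀ T0]
    linarith [mul_le_mul_of_nonneg_right y T0.le, mul_le_mul_of_nonneg_left ηT b0.le]

end Pool.Agent.H53.Ul
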