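import Mathlib
import Pool.Agent.H53.UlA

open Set Finset

namespace Pool.Agent.H53.Ul
open Pool.Agent.H53.Ms Pool.Agent.H53.Bs

/-- dangerous point for the level `R ^ (2 m)` and box number `u` -/
def Dq (R : ℝ) (m u : ℕ) (P : ℤ × ℤ × ℕ) (z : ℝ × ℝ) : Prop :=
  1 ≤ P.2.2 ∧ (P.2.2 : ℝ) ≤ R ^ (2 * m) ∧ 1 / (2 * R ^ 41) / R ^ 8 ≤ R ^ m / R ^ (8 * u) ∧
    |P.2.2 * z.1 - P.1| ≤ 1 / (2 * R ^ 41) / (R ^ m / R ^ (8 * u)) ∧
    |P.2.2 * z.2 - P.2.1| ≤ 1 / (2 * R ^ 41) / (R ^ m * R ^ (8 * u))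

lemma lines2 (X Y : ℝ) (hX : 0 ≤ X) (hY : 0 ≤ Y) (P : ℤ × ℤ × ℕ) : ∃ A B C : ℤ, 1 ≤ P.2.2 → P.2.2 ≤ X * Y →
    (A ≠ 0 ∨ B ≠ 0) ∧ |(A:ℝ)| ≤ X ∧ |(B:ℝ)| ≤ Y ∧ (A:ℝ) * P.1 + B * P.2.1 + C * P.2.2 = 0 := by
  by_cases h : 1 ≤ P.2.2 ∧ P.2.2 ≤ X * Y
  · obtain ⟨A, B, C, a1, a2, a3, a4⟩ := pigeon P.1 P.2.1 P.2.2 h.1 X Y hX hY h.2
    exact ⟨A, B, C, fun _ _ => ⟨a1, a2, a3, by exact_mod_cast a4⟩⟩
  · exact ⟨0, 0, 0, fun h1 h2 => absurd ⟨h1, h2⟩ h⟩

theorem famQ (R : ℕ) (hR : 200 ≤ R) (mm : ℕ → ℕ) (m60 : ∀ n, 60 ≤ mm n) (m5 : ∀ n n', n < n' → 5 * mm n ≤ mm n') :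
    ∃ Bad : ℕ → ℕ → ℕ → Set (ℝ × ℝ), HT R Bad ∧
    ∀ n u P z, Dq R (mm n) u P z ∨ Dq R (mm n) u P z.swap → ∃ t g k, 1 ≤ k ∧ k ≤ g ∧ t ≤ k ∧ z ∈ Bad t g k := by
  classical
  have hRr : (200:ℝ) ≤ R := by exact_mod_cast hR
  have R1 : (1:ℝ) < R := by linarith
  have R0 : (0:ℝ) < R := by linarith
  choose A B C hL using fun m u i => lines2 ((R:ℝ) ^ m / R ^ (8 * u) / R ^ (4 * i)) ((R:ℝ) ^ m * R ^ (8 * u) / R ^ (4 * i))
    (by positivity) (by positivity)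
  have hL' := fun m u i (P : ℤ × ℤ × ℕ) (h1 : 1 ≤ P.2.2) (h2 : (P.2.2 : ℝ) * (R ^ (4 * i)) ^ 2 ≤ R ^ (2 * m)) =>
    hL m u i P h1 (((le_div_iff₀ (by positivity)).2 h2).trans_eq (by field_simp; ring))
  set h : ℕ → ℝ := fun g => R ^ g / R ^ 41 with hh
  have h0 : ∀ g, 0 < h g := fun g => by positivity
  have hs : ∀ g, h (g + 1) = R * h g := fun g => by simp only [hh]; ring
  set H : ℕ → ℕ → ℕ → ℤ × ℤ × ℕ → ℝ := fun m u i P => P.2.2 * max |(A m u i P : ℝ)| |(B m u i P : ℝ)| * R ^ (4 * i) with hH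
  set Cl : ℕ → ℕ → ℕ → ℕ → ℕ → ℤ × ℤ × ℕ → Prop := fun m u i j g P =>
    (P.2.2 : ℝ) * (R ^ (4 * i)) ^ 2 ≤ R ^ (2 * m) ∧ (R:ℝ) ^ (2 * m) < R ^ 8 * (R ^ (4 * i)) ^ 2 * P.2.2 ∧
    h g ≤ H m u i P ∧ H m u i P < R * h g ∧ (R ^ 8) ^ j * h g ≤ R ^ (2 * m) * (R ^ m * R ^ (8 * u)) ∧
    R ^ (2 * m) * (R ^ m * R ^ (8 * u)) < (R ^ 8) ^ (j + 1) * h g with hCl
  have win : ∀ m u i j g P z, Dq R m u P z → Cl m u i j g P → m + 36 < g ∧ 8 * j + g ≤ 3 * m + 8 * u + 41 ∧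
      3 * m + 8 * u + 41 < 8 * (j + 1) + g ∧ 8 * u ≤ m + 50 := by
    intro m u i j g P z hD hC
    have q1 : (1:ℝ) ≤ P.2.2 := by exact_mod_cast hD.1
    refine ⟨?_, ?_, ?_, ?_⟩
    · have a1 := one_le_max (hL' m u i P hD.1 hC.1).1
      have a2 : (P.2.2 : ℝ) * R ^ (4 * i) < R * h g := lt_of_le_of_lt (mul_le_mul_of_nonneg_right
        (le_mul_of_one_le_right (by linarith) a1) (by positivity)) hC.2.2.2.1
      have a3 := pow_lt_pow_left₀ a2 (by positivity) (show 2 ≠ 0 by omega)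
      have a4 : (R:ℝ) ^ (2 * m) < R ^ 8 * (R * h g) ^ 2 := by
        refine hC.2.1.trans_le ?_
        rw [mul_assoc]
        refine mul_le_mul_of_nonneg_left (le_trans ?_ a3.le) (by positivity)
        rw [mul_pow, mul_comm]
        exact mul_le_mul_of_nonneg_right (le_self_pow₀ q1 (by omega)) (by positivity)
      have a5 : (R:ℝ) ^ (2 * m + 82) < R ^ (2 * g + 10) := by
        rw [pow_add]
        refine (mul_lt_mul_of_pos_right a4 (by positivity)).trans_eq ?_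
        simp only [hh]; field_simp; ring
      have := (pow_lt_pow_iff_right₀ R1).1 a5
      omega
    · refine (pow_le_pow_iff_right₀ R1).1 ?_
      have := mul_le_mul_of_nonneg_right hC.2.2.2.2.1 (show (0:ℝ) ≤ R ^ 41 by positivity)
      refine le_of_eq_of_le ?_ (this.trans_eq (by ring))
      simp only [hh]; field_simp; ring
    · refine (pow_lt_pow_iff_right₀ R1).1 ?_
      have := mul_lt_mul_of_pos_right hC.2.2.2.2.2 (show (0:ℝ) < R ^ 41 by positivity)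
      refine lt_of_eq_of_lt (by ring) (this.trans_eq ?_)
      simp only [hh]; field_simp; ring
    · refine (pow_le_pow_iff_right₀ R1).1 ?_
      have := hD.2.2.1
      rw [div_div, div_le_div_iff₀ (by positivity) (by positivity), one_mul] at this
      refine this.trans ?_
      calc (R:ℝ) ^ m * (2 * R ^ 41 * R ^ 8) = 2 * R ^ (m + 49) := by ring
        _ ≤ R * R ^ (m + 49) := mul_le_mul_of_nonneg_right (by linarith) (by positivity)
        _ = _ := by ring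
  set Bad0 : ℕ → ℕ → ℕ → Set (ℝ × ℝ) := fun i g k =>
    {z | ∃ n u j P, k = 2 * j + 2 ∧ Dq R (mm n) u P z ∧ Cl (mm n) u i j g P} with hBad0
  have cover : ∀ n u P z, Dq R (mm n) u P z → ∃ i g k, 2 * i + 1 ≤ k ∧ k ≤ g ∧ z ∈ Bad0 i g k ∧
      h g ≤ P.2.2 * (R ^ mm n * R ^ (8 * u)) := by
    intro n u P z hD
    set m := mm n
    have q1 : (1:ℝ) ≤ P.2.2 := by exact_mod_cast hD.1
    have S1 : (1:ℝ) < R ^ 8 := one_lt_pow₀ R1 (by omega)
    obtain ⟨i, i1, i2⟩ := exists_nat_pow_near (x := (R:ℝ) ^ (2 * m) / P.2.2)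
      (by rw [one_le_div (by linarith)]; exact hD.2.1) S1
    rw [le_div_iff₀ (by linarith)] at i1
    rw [div_lt_iff₀ (by linarith)] at i2
    have i3 : (P.2.2 : ℝ) * (R ^ (4 * i)) ^ 2 ≤ R ^ (2 * m) := le_of_eq_of_le (by ring) i1
    obtain ⟨n1, a1, b1, _⟩ := hL' m u i P hD.1 i3
    have W1 : (1:ℝ) ≤ R ^ (4 * i) := one_le_pow₀ R1.le
    obtain ⟨g, g1, g2⟩ := exists_nat_pow_near (x := H m u i P * R ^ 41) (one_le_mul_of_one_le_of_one_le
      (one_le_mul_of_one_le_of_one_le (one_le_mul_of_one_le_of_one_le q1 (one_le_max n1)) W1) (one_le_pow₀ R1.le)) R1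
    rw [← div_le_iff₀ (by positivity)] at g1
    rw [← lt_div_iff₀ (by positivity)] at g2
    have U1 : (1:ℝ) ≤ R ^ (8 * u) := one_le_pow₀ R1.le
    have a3 : h g ≤ P.2.2 * (R ^ m * R ^ (8 * u)) := by
      refine g1.trans ?_
      simp only [hH]
      rw [mul_assoc]
      refine mul_le_mul_of_nonneg_left ((le_div_iff₀ (by positivity)).1 (max_le (a1.trans ?_) b1)) (by linarith)
      exact div_le_div_of_nonneg_right ((div_le_self (by positivity) U1).trans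
        (le_mul_of_one_le_right (by positivity) U1)) (by positivity)
    obtain ⟨j, j1, j2⟩ := exists_nat_pow_near (x := R ^ (2 * m) * (R ^ m * R ^ (8 * u)) / h g) (by
      rw [one_le_div (h0 g)]; exact a3.trans (mul_le_mul_of_nonneg_right hD.2.1 (by positivity))) S1
    rw [le_div_iff₀ (h0 g)] at j1
    rw [div_lt_iff₀ (h0 g)] at j2
    have hC : Cl m u i j g P := ⟨i3, i2.trans_eq (by ring), g1, hs g ▸ g2, j1, j2⟩
    have w := win m u i j g P z hD hC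
    refine ⟨i, g, 2 * j + 2, ?_, by omega, ⟨n, u, j, P, rfl, hD, hC⟩, a3⟩
    have : ((R:ℝ) ^ 8) ^ i * h g < (R ^ 8) ^ (j + 1) * h g := by
      refine lt_of_le_of_lt ?_ j2
      refine (mul_le_mul_of_nonneg_left a3 (by positivity)).trans ?_
      rw [← mul_assoc]
      exact mul_le_mul_of_nonneg_right i1 (by positivity)
    have := (pow_lt_pow_iff_right₀ S1).1 (lt_of_mul_lt_mul_right this (h0 g).le)
    omega
  have main : ∀ i n' k (S : Set (ℝ × ℝ)), (∀ z ∈ S, ∀ z' ∈ S, |z.1 - z'.1| ≤ 1 / R ^ n' ∧ |z.2 - z'.2| ≤ 1 / R ^ n') →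
      (∀ i g k, 2 * i + 1 ≤ k → k ≤ g → g ≤ n' → ∀ z ∈ S, z ∉ Bad0 i g k ∧ z.swap ∉ Bad0 i g k) →
      ∃ A B C : ℝ, (A ≠ 0 ∨ B ≠ 0) ∧ ∀ z ∈ S, z ∈ Bad0 i (n' + k) k →
        |A * z.1 + B * z.2 + C| ≤ 1 / R ^ (n' + k) * max |A| |B| := by
    intro i n' k S hS hav
    by_cases hex : ∃ z ∈ S, z ∈ Bad0 i (n' + k) k
    swap
    · exact ⟨1, 0, 0, Or.inl one_ne_zero, fun z hz hb => absurd ⟨z, hz, hb⟩ hex⟩
    obtain ⟨z0, hz0, n, u, j, P0, hk, hD0, hC0⟩ := hex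
    set g := n' + k with hg
    have hex : ∃ q, ∃ P z, P.2.2 = q ∧ z ∈ S ∧ Dq R (mm n) u P z ∧ Cl (mm n) u i j g P := ⟨_, P0, z0, rfl, hz0, hD0, hC0⟩
    obtain ⟨P1, z1, e1, hz1, hD1, hC1⟩ := Nat.find_spec hex
    obtain ⟨n1, a1, b1, l1⟩ := hL' _ u i P1 hD1.1 hC1.1
    refine ⟨A (mm n) u i P1, B (mm n) u i P1, C (mm n) u i P1, by exact_mod_cast n1, ?_⟩
    rintro z2 hz2 ⟨n2, u2, j2, P2, hk2, hD2, hC2⟩
    have w1 := win _ _ _ _ _ _ _ hD1 hC1
    have w2 := win _ _ _ _ _ _ _ hD2 hC2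
    obtain rfl : j = j2 := by omega
    obtain rfl : n = n2 := by
      have := m60 n
      have := m60 n2
      rcases lt_trichotomy n n2 with c | c | c
      · have := m5 _ _ c; omega
      · exact c
      · have := m5 _ _ c; omega
    obtain rfl : u = u2 := by omega
    have hq : P1.2.2 ≤ P2.2.2 := by rw [e1]; exact Nat.find_min' hex ⟨P2, z2, rfl, hz2, hD2, hC2⟩
    obtain ⟨n2, a2, b2, l2⟩ := hL' _ u i P2 hD2.1 hC2.1
    set m := mm n with hm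
    have ej : (R:ℝ) ^ (8 * j) = (R ^ 8) ^ j := pow_mul _ _ _
    have q10 : (0:ℝ) < P1.2.2 := by exact_mod_cast hD1.1
    have q12 : (P1.2.2 : ℝ) ≤ P2.2.2 := by exact_mod_cast hq
    have gn : ∀ g0 (x : ℝ), h g0 ≤ x → x * R ^ k ≤ h g → g0 ≤ n' := fun g0 x y1 y2 => by
      have := (mul_le_mul_of_nonneg_right y1 (by positivity)).trans y2
      simp only [hh] at this
      rw [div_mul_eq_mul_div, div_le_div_iff_of_pos_right (by positivity), ← pow_add] at this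
      have := (pow_le_pow_iff_right₀ R1).1 this
      omega
    rcases core R (1 / (2 * R ^ 41)) (R ^ m / R ^ (8 * u)) (R ^ m * R ^ (8 * u)) (R ^ (2 * m)) (R ^ (4 * i)) (h g)
      (1 / R ^ n') (R ^ 9 * (R ^ (4 * i)) ^ 2 / R ^ (8 * j)) (R ^ (k + 18)) (R ^ (8 * ((k + 18) / 8 + 1))) k hRr
      (by positivity) (by positivity) (by positivity) (one_le_pow₀ R1.le) (by field_simp; ring) (h0 g) (by positivity)
      (by simp only [hh, hg]; field_simp; ring) hD1.2.2.1 z1.1 z1.2 z2.1 z2.2 _ _ _ _ _ _ _ _ _ _ _ _ hD1.1 hq n1 n2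
      a1 a2 b1 b2 l1 l2 hD1.2.2.2.1 hD2.2.2.2.1 hD1.2.2.2.2 hD2.2.2.2.2 (hS _ hz2 _ hz1).1 (hS _ hz2 _ hz1).2
      hC1.2.1.le hC2.1 hC1.2.2.2.1.le hC2.2.2.2.1.le (by positivity) (by
        rw [div_mul_eq_mul_div _ ((R:ℝ) ^ (8 * j)), le_div_iff₀ (by positivity), ej]
        linarith [mul_le_mul_of_nonneg_left hC1.2.2.2.2.1 (show (0:ℝ) ≤ R ^ 9 * (R ^ (4 * i)) ^ 2 by positivity)])
      (by
        have := hC1.2.2.2.2.2.le
        rw [pow_succ _ j] at this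
        rw [div_mul_eq_mul_div, div_le_iff₀ (by positivity), ej]
        linarith [mul_le_mul_of_nonneg_left this (show (0:ℝ) ≤ R ^ 9 * (R ^ (4 * i)) ^ 2 by positivity)])
      rfl (pow_le_pow_right₀ R1.le (by omega)) (by
        rcases le_or_gt (2 * j + 12) (4 * i + 41) with c | c
        · left
          calc 8 * (1 / (2 * (R:ℝ) ^ 41)) * (R:ℝ) ^ (k + 9) = 4 * (R:ℝ) ^ (k + 9) / R ^ 41 := by ring
            _ < R * (R:ℝ) ^ (k + 9) / R ^ 41 := by gcongr; linarith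
            _ ≤ _ := by
              rw [div_le_iff₀ (by positivity), ← pow_succ', ← pow_add]
              exact pow_le_pow_right₀ R1.le (by omega)
        · right
          rw [div_mul_eq_mul_div, div_mul_eq_mul_div, div_le_one (by positivity), ← pow_mul, ← pow_add, ← pow_add,
            ← pow_add]
          exact pow_le_pow_right₀ R1.le (by omega)) with key | ⟨p0, r0, q0, y1, y2, y3, y4, y5, y6, y7⟩
    · have ml : ∀ A a : ℝ, 0 < a → |A| ≤ a / R ^ (4 * i) → |A| * (1 / (2 * R ^ 41) / a) ≤ 1 / (2 * R ^ 41) / R ^ (4 * i) :=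
        fun A a h1 h2 => (mul_le_mul_of_nonneg_right h2 (by positivity)).trans_eq (by field_simp)
      have fin := onL _ _ _ _ _ _ _ _ _ _ _ (ml _ _ (by positivity) a1) (ml _ _ (by positivity) b1) hD2.2.2.2.1
        hD2.2.2.2.2 (by linarith) key
      refine le_of_mul_le_mul_right ((mul_le_mul_of_nonneg_left q12 (abs_nonneg _)).trans (fin.trans ?_)) q10
      have e3 := mul_le_mul_of_nonneg_left hC1.2.2.1 (show (0:ℝ) ≤ 1 / R ^ g / R ^ (4 * i) by positivity)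
      refine le_of_eq_of_le ?_ (e3.trans_eq ?_)
      · simp only [hh]; field_simp
      · simp only [hH]; field_simp
    exfalso
    set c := (k + 18) / 8 + 1
    rcases le_total c u with hc | hc
    · obtain ⟨v, rfl⟩ := Nat.exists_eq_add_of_le hc
      have ea : (R:ℝ) ^ m / R ^ (8 * (c + v)) * R ^ (8 * c) = R ^ m / R ^ (8 * v) := by field_simp; ring
      have eb : (R:ℝ) ^ m * R ^ (8 * (c + v)) / R ^ (8 * c) = R ^ m * R ^ (8 * v) := by field_simp; ring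
      rw [ea] at y3
      rw [eb] at y4 y6
      obtain ⟨i0, g0, k0, x1, x2, x3, x4⟩ := cover n v (p0, r0, q0) z1 ⟨y1, y2, hD1.2.2.1.trans (by
        rw [← ea]; exact le_mul_of_one_le_right (by positivity) (one_le_pow₀ R1.le)), y3, y4⟩
      exact (hav i0 g0 k0 x1 x2 (gn _ _ x4 y6) z1 hz1).1 x3
    · obtain ⟨v, hv⟩ := Nat.exists_eq_add_of_le hc
      have ea : (R:ℝ) ^ m / R ^ (8 * u) * R ^ (8 * c) = R ^ m * R ^ (8 * v) := by rw [hv]; field_simp; ring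
      have eb : (R:ℝ) ^ m * R ^ (8 * u) / R ^ (8 * c) = R ^ m / R ^ (8 * v) := by rw [hv]; field_simp; ring
      rw [ea] at y3 y5
      rw [eb] at y4 y7
      obtain ⟨i0, g0, k0, x1, x2, x3, x4⟩ := cover n v (r0, p0, q0) z1.swap ⟨y1, y2, le_trans (by
        rw [div_div, div_le_one (by positivity)]
        exact one_le_mul_of_one_le_of_one_le (one_le_mul_of_one_le_of_one_le one_le_two (one_le_pow₀ R1.le))
          (one_le_pow₀ R1.le)) y7, y4, y3⟩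
      exact (hav i0 g0 k0 x1 x2 (gn _ _ x4 y5) z1 hz1).2 x3
  refine ⟨fun t g k => {z | (t % 2 = 0 ∧ z ∈ Bad0 (t / 2) g k) ∨ (t % 2 = 1 ∧ z.swap ∈ Bad0 (t / 2) g k)}, ?_, ?_⟩
  · intro t g k hk1 hkg S hS hav
    obtain ⟨n', rfl⟩ : ∃ n, g = n + k := ⟨g - k, by omega⟩
    rw [Nat.add_sub_cancel] at hS hav
    have hav' : ∀ i g k, 2 * i + 1 ≤ k → k ≤ g → g ≤ n' → ∀ z ∈ S, z ∉ Bad0 i g k ∧ z.swap ∉ Bad0 i g k :=
      fun i g k a b c z hz => ⟨fun d => hav (2 * i) g k (by omega) b (by omega) c z hz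
        (Or.inl ⟨by omega, by rwa [show 2 * i / 2 = i by omega]⟩), fun d => hav (2 * i + 1) g k (by omega) b a c z hz
        (Or.inr ⟨by omega, by rwa [show (2 * i + 1) / 2 = i by omega]⟩)⟩
    rcases Nat.mod_two_eq_zero_or_one t with ht | ht
    · obtain ⟨A, B, C, a1, a2⟩ := main (t / 2) n' k S hS hav'
      exact ⟨A, B, C, a1, fun z hz hb => a2 z hz (hb.resolve_right (by omega)).2⟩
    · obtain ⟨A, B, C, a1, a2⟩ := main (t / 2) n' k (Prod.swap ⁻¹' S) (fun z hz z' hz' => (hS _ hz _ hz').symm)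
        fun i g k a b c z hz => (hav' i g k a b c _ hz).symm
      refine ⟨B, A, C, a1.symm, fun z hz hb => ?_⟩
      have := a2 z.swap hz (hb.resolve_left (by omega)).2
      simp only [Prod.fst_swap, Prod.snd_swap] at this
      rwa [add_comm (B * z.1), max_comm]
  · rintro n u P z (hD | hD)
    · obtain ⟨i, g, k, a, b, c, _⟩ := cover n u P _ hD
      exact ⟨2 * i, g, k, by omega, b, by omega, Or.inl ⟨by omega, by rwa [show 2 * i / 2 = i by omega]⟩⟩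
    · obtain ⟨i, g, k, a, b, c, _⟩ := cover n u P _ hD
      exact ⟨2 * i + 1, g, k, by omega, b, a, Or.inr ⟨by omega, by rwa [show (2 * i + 1) / 2 = i by omega]⟩⟩

end Pool.Agent.H53.Ul
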