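import Mathlib
import Pool.Agent.H53.UlB

open Set Finset
open scoped ENNReal NNReal

namespace Pool.Agent.H53.Ul
open Pool.Agent.H53.Ms Pool.Agent.H53.Bs

lemma one (R : ℝ) (hR : 200 ≤ R) (n : ℕ) (y1 y2 : ℝ) (r1 r2 : ℤ) (q1 q2 : ℕ) (a1 : 1 ≤ q1) (b1 : 1 ≤ q2)
    (a2 : |q1 * y1 - r1| ≤ 1 / R ^ 3 / q1) (b2 : |q2 * y2 - r2| ≤ 1 / R ^ 3 / q2)
    (a3 : R ^ (n + 1) / R ^ 3 ≤ q1 ^ 2) (a4 : q1 ^ 2 < R ^ (n + 1 + 1) / R ^ 3)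
    (b3 : R ^ (n + 1) / R ^ 3 ≤ q2 ^ 2) (b4 : q2 ^ 2 < R ^ (n + 1 + 1) / R ^ 3) (h : |y1 - y2| ≤ 1 / R ^ n) :
    |y2 - r1 / q1| ≤ 1 / R ^ (n + 1) := by
  have R0 : 0 < R := by linarith
  have q10 : (0:ℝ) < q1 := by exact_mod_cast a1
  have q20 : (0:ℝ) < q2 := by exact_mod_cast b1
  have aux : ∀ (y r q : ℝ), 0 < q → |q * y - r| ≤ 1 / R ^ 3 / q → R ^ (n + 1) / R ^ 3 ≤ q ^ 2 →
      |y - r / q| ≤ 1 / R ^ (n + 1) := by
    intro y r q c1 c2 c3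
    have e : y - r / q = (q * y - r) / q := by field_simp
    rw [e, abs_div, abs_of_pos c1]
    refine (div_le_div_of_nonneg_right c2 c1.le).trans ?_
    rw [div_le_iff₀ (by positivity)] at c3
    rw [div_div, div_div, div_le_div_iff₀ (by positivity) (by positivity)]
    linarith
  have c1 := aux _ _ _ q10 a2 a3
  have c2 := aux _ _ _ q20 b2 b3
  have c3 : |(r1:ℝ) / q1 - r2 / q2| ≤ 3 * (1 / R ^ n) := by
    have d1 : 1 / R ^ (n + 1) ≤ 1 / R ^ n :=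
      one_div_le_one_div_of_le (by positivity) (pow_le_pow_right₀ (by linarith) (by omega))
    rw [abs_le] at c1 c2 h ⊢
    constructor <;> linarith
  have c4 : (q1:ℝ) * q2 < R ^ (n + 1 + 1) / R ^ 3 := by linarith [sq_nonneg ((q1:ℝ) - q2)]
  have c5 : ((r1 * q2 - r2 * q1 : ℤ) : ℝ) = (r1 / q1 - r2 / q2) * (q1 * q2) := by push_cast; field_simp
  have c6 : |((r1 * q2 - r2 * q1 : ℤ) : ℝ)| < 1 := by
    rw [c5, abs_mul, abs_of_pos (mul_pos q10 q20)]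
    refine (mul_le_mul c3 c4.le (by positivity) (by positivity)).trans_lt ?_
    calc 3 * (1 / R ^ n) * (R ^ (n + 1 + 1) / R ^ 3) = 3 / R := by field_simp; ring
      _ < 1 := (div_lt_one R0).2 (by linarith)
  have c7 : r1 * q2 - r2 * q1 = 0 := Int.abs_lt_one_iff.1 (by exact_mod_cast c6)
  rw [c7, Int.cast_zero, eq_comm, mul_eq_zero, sub_eq_zero] at c5
  rwa [c5.resolve_right (by positivity)]

theorem famB (R : ℕ) (hR : 200 ≤ R) : ∃ Bad : ℕ → ℕ → ℕ → Set (ℝ × ℝ), HT R Bad ∧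
    ∀ (z : ℝ × ℝ) (r : ℤ) (q : ℕ), 1 ≤ q → |q * z.1 - r| ≤ 1 / R ^ 3 / q ∨ |q * z.2 - r| ≤ 1 / R ^ 3 / q →
      ∃ t g k, 1 ≤ k ∧ k ≤ g ∧ t ≤ k ∧ z ∈ Bad t g k := by
  have hRr : (200:ℝ) ≤ R := by exact_mod_cast hR
  have R1 : (1:ℝ) < R := by linarith
  refine ⟨fun t g k => {z | k = 1 ∧ ∃ (r : ℤ) (q : ℕ), 1 ≤ q ∧ |q * (if t = 0 then z.1 else z.2) - r| ≤ 1 / R ^ 3 / q ∧
    (R:ℝ) ^ g / R ^ 3 ≤ q ^ 2 ∧ (q:ℝ) ^ 2 < R ^ (g + 1) / R ^ 3}, ?_, fun z r q hq h => ?_⟩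
  · intro t g k hk1 hkg S hS _
    by_cases hex : ∃ z ∈ S, k = 1 ∧ ∃ (r : ℤ) (q : ℕ), 1 ≤ q ∧ |q * (if t = 0 then z.1 else z.2) - r| ≤ 1 / R ^ 3 / q ∧
      (R:ℝ) ^ g / R ^ 3 ≤ q ^ 2 ∧ (q:ℝ) ^ 2 < R ^ (g + 1) / R ^ 3
    swap
    · exact ⟨1, 0, 0, Or.inl one_ne_zero, fun z hz hb => absurd ⟨z, hz, hb⟩ hex⟩
    obtain ⟨z1, hz1, rfl, r1, q1, a1, a2, a3, a4⟩ := hex
    obtain ⟨n, rfl⟩ : ∃ n, g = n + 1 := ⟨g - 1, by omega⟩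
    rw [Nat.add_sub_cancel] at hS
    by_cases ht : t = 0
    · refine ⟨1, 0, -(r1 / q1), Or.inl one_ne_zero, fun z hz ⟨_, r2, q2, b1, b2, b3, b4⟩ => ?_⟩
      rw [if_pos ht] at a2 b2
      simpa [sub_eq_add_neg] using one R hRr n _ _ _ _ _ _ a1 b1 a2 b2 a3 a4 b3 b4 (hS _ hz1 _ hz).1
    · refine ⟨0, 1, -(r1 / q1), Or.inr one_ne_zero, fun z hz ⟨_, r2, q2, b1, b2, b3, b4⟩ => ?_⟩
      rw [if_neg ht] at a2 b2
      simpa [sub_eq_add_neg] using one R hRr n _ _ _ _ _ _ a1 b1 a2 b2 a3 a4 b3 b4 (hS _ hz1 _ hz).2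
  · have q1 : (1:ℝ) ≤ (q:ℝ) ^ 2 := one_le_pow₀ (by exact_mod_cast hq)
    have R3 : (R:ℝ) ^ 1 ≤ R ^ 3 := pow_le_pow_right₀ R1.le (by omega)
    have R4 : (R:ℝ) ^ 3 ≤ q ^ 2 * R ^ 3 := le_mul_of_one_le_left (by positivity) q1
    obtain ⟨g, g1, g2⟩ := exists_nat_pow_near (x := (q:ℝ) ^ 2 * R ^ 3) ((one_le_pow₀ R1.le).trans R4) R1
    have g0 : 1 ≤ g := by
      have := (pow_lt_pow_iff_right₀ R1).1 (R4.trans_lt g2)
      omega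
    rw [← div_le_iff₀ (by positivity)] at g1
    rw [← lt_div_iff₀ (by positivity)] at g2
    rcases h with h | h
    · exact ⟨0, g, 1, le_rfl, g0, by omega, rfl, r, q, hq, h, g1, g2⟩
    · exact ⟨1, g, 1, le_rfl, g0, le_rfl, rfl, r, q, hq, h, g1, g2⟩

lemma box (R : ℝ) (R1 : 1 < R) (m q : ℕ) (hq : 1 ≤ q) (hQ : (q:ℝ) ≤ R ^ (2 * m)) (x y : ℝ) (p r : ℤ)
    (hx : |q * x - p| ≤ 1) (hV : |q * y - r| ≤ |q * x - p|)
    (h : R ^ (2 * m) * (|q * x - p| * |q * y - r|) < (1 / (2 * R ^ 41)) ^ 2 / R ^ 8) : ∃ u, Dq R m u (p, r, q) (x, y) := by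
  classical
  have R0 : 0 < R := by linarith
  unfold Dq
  set ε : ℝ := 1 / (2 * R ^ 41) with hε
  have ε0 : 0 < ε := by positivity
  have ε1 : ε ≤ 1 := (div_le_one (by positivity)).2 (one_le_mul_of_one_le_of_one_le one_le_two (one_le_pow₀ R1.le))
  clear_value ε
  have hex : ∃ u : ℕ, |q * x - p| ≤ ε / (R ^ m / R ^ (8 * u)) := by
    obtain ⟨n, hn⟩ := pow_unbounded_of_one_lt (R ^ m / ε) R1
    refine ⟨n, hx.trans ?_⟩
    rw [one_le_div (by positivity), div_le_iff₀ (by positivity), mul_comm, ← div_le_iff₀ ε0]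
    exact hn.le.trans (pow_le_pow_right₀ R1.le (by omega))
  refine ⟨Nat.find hex, hq, hQ, ?_⟩
  have h1 := Nat.find_spec hex
  rcases Nat.eq_zero_or_pos (Nat.find hex) with h0 | h0
  · rw [h0] at h1 ⊢
    simp only [mul_zero, pow_zero, div_one, mul_one] at h1 ⊢
    exact ⟨((div_le_self ε0.le (one_le_pow₀ R1.le)).trans ε1).trans (one_le_pow₀ R1.le), h1, hV.trans h1⟩
  · obtain ⟨i, hi⟩ : ∃ i, Nat.find hex = i + 1 := ⟨Nat.find hex - 1, by omega⟩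
    have a1 := not_le.1 (Nat.find_min hex (m := i) (by omega))
    rw [hi] at h1 ⊢
    refine ⟨?_, h1, ?_⟩
    · have := (div_le_one (by positivity)).1 (a1.le.trans hx)
      rw [mul_add, pow_add, ← div_div]
      exact div_le_div_of_nonneg_right this (by positivity)
    · by_contra hc
      refine absurd h (not_lt.2 (le_of_eq_of_le ?_ (mul_le_mul_of_nonneg_left
        (mul_le_mul a1.le (not_le.1 hc).le (by positivity) (abs_nonneg _)) (by positivity))))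
      field_simp; ring

theorem famU (R : ℕ) (hR : 200 ≤ R) : ∃ Bad : ℕ → ℕ → ℕ → Set (ℝ × ℝ), HT R Bad ∧
    ∀ z : ℝ × ℝ, (∀ t g k, 1 ≤ k → k ≤ g → t ≤ k → z ∉ Bad t g k) →
      ∃ ε : ℝ, 0 < ε ∧ ∀ N : ℕ, ∃ Q : ℕ, N ≤ Q ∧ 0 < Q ∧ ∀ q : ℕ, 0 < q → q ≤ Q →
        ε ≤ (Q : ℝ) * (|(q : ℝ) * z.1 - (round ((q : ℝ) * z.1) : ℝ)| * |(q : ℝ) * z.2 - (round ((q : ℝ) * z.2) : ℝ)|) := by
  have hRr : (200:ℝ) ≤ R := by exact_mod_cast hR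
  obtain ⟨Bad, h1, h2⟩ := famQ R hR (fun n => 60 * 5 ^ n) (fun n => Nat.le_mul_of_pos_right _ (by positivity))
    (fun n n' h => by have := Nat.pow_le_pow_right (show 0 < 5 by omega) h; rw [pow_succ] at this; omega)
  refine ⟨Bad, h1, fun z hz => ⟨(1 / (2 * R ^ 41)) ^ 2 / R ^ 8, by positivity, fun N => ⟨R ^ (2 * (60 * 5 ^ N)), ?_,
    by positivity, fun q hq hQ => not_lt.1 fun hc => ?_⟩⟩⟩
  · have := Nat.lt_pow_self (n := N) (show 1 < 5 by omega)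
    exact le_trans (by omega) (Nat.lt_pow_self (show 1 < R by omega)).le
  have rd : ∀ x : ℝ, |x - round x| ≤ 1 := fun x => (abs_sub_round x).trans (by norm_num)
  rw [Nat.cast_pow] at hc
  have hQ' : (q:ℝ) ≤ R ^ (2 * (60 * 5 ^ N)) := by exact_mod_cast hQ
  rcases le_total |q * z.2 - round (q * z.2)| |q * z.1 - round (q * z.1)| with h | h
  · obtain ⟨u, hu⟩ := box R (by linarith) _ q hq hQ' _ _ _ _ (rd _) h hc
    obtain ⟨t, g, k, a1, a2, a3, a4⟩ := h2 N u _ z (Or.inl hu)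
    exact hz t g k a1 a2 a3 a4
  · obtain ⟨u, hu⟩ := box R (by linarith) _ q hq hQ' _ _ _ _ (rd _) h (by rwa [mul_comm |_|])
    obtain ⟨t, g, k, a1, a2, a3, a4⟩ := h2 N u _ z (Or.inr hu)
    exact hz t g k a1 a2 a3 a4

theorem bad2 : ∃ ξ ζ : ℝ,
      (∃ ε : ℝ, 0 < ε ∧ ∀ N : ℕ, ∃ Q : ℕ, N ≤ Q ∧ 0 < Q ∧
        ∀ q : ℕ, 0 < q → q ≤ Q →
          ε ≤ (Q : ℝ) * (|(q : ℝ) * ξ - (round ((q : ℝ) * ξ) : ℝ)| *
                          |(q : ℝ) * ζ - (round ((q : ℝ) * ζ) : ℝ)|)) ∧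
      (∃ c : ℝ, 0 < c ∧ ∀ q : ℕ, 0 < q →
        c ≤ Real.sqrt (q : ℝ) *
          max |(q : ℝ) * ξ - (round ((q : ℝ) * ξ) : ℝ)|
              |(q : ℝ) * ζ - (round ((q : ℝ) * ζ) : ℝ)|) := by
  obtain ⟨B1, h1, h2⟩ := fam 200 3 le_rfl le_rfl
  obtain ⟨B2, h3, h4⟩ := famU 200 le_rfl
  obtain ⟨z, hz, _⟩ := Bs.cantor 200 le_rfl ![B1, B2] (fun b => by
    fin_cases b
    · exact h1
    · exact h3) (fun _ _ => False) (fun g X hX => by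
      rw [Finset.eq_empty_of_forall_notMem hX, Finset.card_empty, Nat.cast_zero]; positivity)
  refine ⟨z.1, z.2, h4 z (hz 1), 1 / (200:ℕ) ^ 13, by positivity, fun q hq => not_lt.1 fun hc => ?_⟩
  have u0 : 0 < √(q:ℝ) := Real.sqrt_pos.2 (by exact_mod_cast hq)
  rw [mul_comm, ← lt_div_iff₀ u0, max_lt_iff] at hc
  obtain ⟨t, g, k, a1, a2, a3, a4⟩ := h2 0 (round (q * z.1), round (q * z.2), q) z
    ⟨hq, by simpa using hc.1.le, by simpa [div_div] using hc.2.le⟩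
  exact hz 0 t g k a1 a2 a3 a4

theorem dimBB : 2 ≤ dimH {z : ℝ × ℝ | (∃ c : ℝ, 0 < c ∧ ∀ q : ℕ, 1 ≤ q → c ≤ q * |q * z.1 - round (q * z.1)|) ∧
    (∃ c : ℝ, 0 < c ∧ ∀ q : ℕ, 1 ≤ q → c ≤ q * |q * z.2 - round (q * z.2)|) ∧
    ∃ ε : ℝ, 0 < ε ∧ ∀ N : ℕ, ∃ Q : ℕ, N ≤ Q ∧ 0 < Q ∧ ∀ q : ℕ, 0 < q → q ≤ Q →
      ε ≤ (Q : ℝ) * (|(q : ℝ) * z.1 - (round ((q : ℝ) * z.1) : ℝ)| * |(q : ℝ) * z.2 - (round ((q : ℝ) * z.2) : ℝ)|)} := by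
  refine le_of_forall_lt_imp_le_of_dense fun d hd => ?_
  rcases eq_or_ne d 0 with rfl | d0
  · exact zero_le
  lift d to ℝ≥0 using hd.ne_top
  have d2 : (d:ℝ) < 2 := by exact_mod_cast hd
  obtain ⟨R, hR⟩ := exists_nat_ge (max 200 ((2:ℝ) ^ (2 - (d:ℝ))⁻¹))
  have hRr : (200:ℝ) ≤ R := (le_max_left _ _).trans hR
  have R0 : (0:ℝ) < R := by linarith
  obtain ⟨B1, h1, h2⟩ := famB R (by exact_mod_cast hRr)
  obtain ⟨B2, h3, h4⟩ := famU R (by exact_mod_cast hRr)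
  refine dim_ge R (by exact_mod_cast hRr) ![B1, B2] (fun b => by
    fin_cases b
    · exact h1
    · exact h3) d (pos_iff_ne_zero.2 (by simpa using d0)) ?_ _ fun z hz => ?_
  · have a1 := Real.rpow_le_rpow (by positivity) ((le_max_right _ _).trans hR) (show 0 ≤ 2 - (d:ℝ) by linarith)
    rw [Real.rpow_inv_rpow (by norm_num) (by linarith), Real.rpow_sub R0, le_div_iff₀ (by positivity),
      Real.rpow_two] at a1
    linarith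
  · refine ⟨⟨1 / R ^ 3, by positivity, fun q hq => not_lt.1 fun hc => ?_⟩,
      ⟨1 / R ^ 3, by positivity, fun q hq => not_lt.1 fun hc => ?_⟩, h4 z (hz 1)⟩
    all_goals rw [mul_comm, ← lt_div_iff₀ (by exact_mod_cast hq)] at hc
    · obtain ⟨t, g, k, a1, a2, a3, a4⟩ := h2 z _ q hq (Or.inl hc.le)
      exact hz 0 t g k a1 a2 a3 a4
    · obtain ⟨t, g, k, a1, a2, a3, a4⟩ := h2 z _ q hq (Or.inr hc.le)
      exact hz 0 t g k a1 a2 a3 a4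

end Pool.Agent.H53.Ul
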