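import Mathlib
import Pool.Agent.H53.VertA

open MeasureTheory Filter Set Topology Metric

namespace Pool.Agent.H53.Vert

/-- gcd of `q` and the integer nearest to `q α` -/
noncomputable def gg (α : ℝ) (q : ℕ) : ℕ := Int.gcd q (round (q * α))

/-- admissible numerators -/
noncomputable def RR (α : ℝ) (q : ℕ) : Finset ℕ := (Finset.Ioc 0 q).filter fun r => Nat.Coprime (gg α q) r

/-- one interval -/
def II (q r : ℕ) (t : ℝ) : Set ℝ := Ioo ((r - t) / q) ((r + t) / q)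

/-- target set -/
def EE (α : ℝ) (ψ : ℕ → ℝ) (q : ℕ) : Set ℝ := ⋃ r ∈ RR α q, II q r (ψ q)

/-- weight of nontrivial divisors -/
noncomputable def ww (α : ℝ) (q : ℕ) : ℝ := ∑ d ∈ Finset.Icc 2 q, if d ∣ gg α q then (1 / d : ℝ) else 0

lemma gg_dvd (α : ℝ) (q : ℕ) : gg α q ∣ q := by
  have : ((gg α q : ℕ) : ℤ) ∣ (q : ℤ) := Int.gcd_dvd_left _ _
  exact_mod_cast this

lemma II_vol (q r : ℕ) (t : ℝ) (hq : 1 ≤ q) (ht : 0 ≤ t) : volume.real (II q r t) = 2 * t / q := by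
  have hq0 : (0:ℝ) < q := by exact_mod_cast hq
  unfold II
  rw [Real.volume_real_Ioo_of_le]
  · ring
  · exact div_le_div_of_nonneg_right (by linarith) hq0.le

lemma II_mem (q r : ℕ) (t x : ℝ) (hq : 1 ≤ q) : x ∈ II q r t ↔ |q * x - r| < t := by
  have hq0 : (0:ℝ) < q := by exact_mod_cast hq
  unfold II
  rw [mem_Ioo, div_lt_iff₀ hq0, lt_div_iff₀ hq0, abs_lt]
  constructor <;> rintro ⟨h1, h2⟩ <;> constructor <;> linarith

lemma II_fin (q r : ℕ) (t : ℝ) : volume (II q r t) ≠ ⊤ := by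
  unfold II; simp

lemma EE_meas (α : ℝ) (ψ : ℕ → ℝ) (q : ℕ) : MeasurableSet (EE α ψ q) :=
  Finset.measurableSet_biUnion _ fun _ _ => measurableSet_Ioo

lemma EE_sub (α : ℝ) (ψ : ℕ → ℝ) (hψ : ∀ q, ψ q ≤ 1 / 2) (q : ℕ) : EE α ψ q ⊆ Ioc 0 2 := by
  intro x hx
  simp only [EE, RR, mem_iUnion, Finset.mem_filter, Finset.mem_Ioc] at hx
  obtain ⟨r, ⟨⟨h1, h2⟩, _⟩, h3⟩ := hx
  have hq : 1 ≤ q := by omega
  have hq1 : (1:ℝ) ≤ q := by exact_mod_cast hq
  rw [II_mem _ _ _ _ hq, abs_lt] at h3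
  have a1 : (1:ℝ) ≤ r := by exact_mod_cast h1
  have a2 : (r:ℝ) ≤ q := by exact_mod_cast h2
  have := hψ q
  constructor
  · by_contra hc
    nlinarith [h3.1, not_lt.1 hc]
  · by_contra hc
    nlinarith [h3.2, not_le.1 hc]

lemma EE_nd (α : ℝ) (ψ : ℕ → ℝ) (q : ℕ) (x : ℝ) (hx : x ∈ EE α ψ q) : nd (q * x) < ψ q := by
  simp only [EE, RR, mem_iUnion, Finset.mem_filter, Finset.mem_Ioc] at hx
  obtain ⟨r, ⟨⟨h1, h2⟩, _⟩, h3⟩ := hx
  rw [II_mem _ _ _ _ (by omega)] at h3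
  have := round_le (q * x) (r : ℤ)
  push_cast at this
  exact this.trans_lt h3

lemma RR_card (α : ℝ) (q : ℕ) (hq : 1 ≤ q) : (q:ℝ) * (1 - ww α q) ≤ (RR α q).card := by
  classical
  set D := (Finset.Icc 2 q).filter fun d => d ∣ gg α q with hD
  have hsub : Finset.Ioc 0 q ⊆ RR α q ∪ D.biUnion fun d => (Finset.Ioc 0 q).filter fun r => d ∣ r := by
    intro r hr
    rw [Finset.mem_union]
    by_cases hc : Nat.Coprime (gg α q) r
    · exact Or.inl (Finset.mem_filter.2 ⟨hr, hc⟩)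
    · right
      rw [Finset.mem_biUnion]
      refine ⟨Nat.gcd (gg α q) r, ?_, Finset.mem_filter.2 ⟨hr, Nat.gcd_dvd_right _ _⟩⟩
      rw [hD, Finset.mem_filter, Finset.mem_Icc]
      have hr' := Finset.mem_Ioc.1 hr
      have h1 : 0 < Nat.gcd (gg α q) r := Nat.gcd_pos_of_pos_right _ hr'.1
      have h2 : Nat.gcd (gg α q) r ≤ r := Nat.gcd_le_right _ hr'.1
      have h3 : Nat.gcd (gg α q) r ≠ 1 := hc
      exact ⟨⟨by omega, by omega⟩, Nat.gcd_dvd_left _ _⟩
  have h1 := (Finset.card_le_card hsub).trans ((Finset.card_union_le _ _).trans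
    (Nat.add_le_add_left Finset.card_biUnion_le _))
  simp only [Nat.Ioc_filter_dvd_card_eq_div, Nat.card_Ioc, Nat.sub_zero] at h1
  have h2 : (q:ℝ) ≤ (RR α q).card + ∑ d ∈ D, ((q / d : ℕ) : ℝ) := by exact_mod_cast h1
  have h3 : ∑ d ∈ D, ((q / d : ℕ) : ℝ) ≤ q * ww α q := by
    rw [ww, ← Finset.sum_filter, Finset.mul_sum]
    refine Finset.sum_le_sum fun d _ => ?_
    rw [mul_one_div]
    exact Nat.cast_div_le
  linarith

lemma EE_vol (α : ℝ) (ψ : ℕ → ℝ) (q : ℕ) (hq : 1 ≤ q) (h0 : 0 ≤ ψ q) (h1 : ψ q ≤ 1 / 2)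
    (hw : ww α q ≤ 7 / 8) : 1 / 4 * ψ q ≤ volume.real (EE α ψ q) := by
  have hq0 : (0:ℝ) < q := by exact_mod_cast hq
  unfold EE
  rw [measureReal_biUnion_finset (f := fun r => II q r (ψ q)) _ (fun _ _ => measurableSet_Ioo)
    (fun r _ => II_fin _ _ _)]
  · simp only [II_vol _ _ _ hq h0, Finset.sum_const, nsmul_eq_mul]
    have h2 := RR_card α q hq
    have h3 : (q:ℝ) / 8 ≤ (RR α q).card := by nlinarith
    calc 1 / 4 * ψ q = (q / 8) * (2 * ψ q / q) := by field_simp; ring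
      _ ≤ _ := mul_le_mul_of_nonneg_right h3 (by positivity)
  · intro r _ r' _ hne
    rw [Function.onFun, Set.disjoint_left]
    intro x hx hx'
    rw [II_mem _ _ _ _ hq, abs_lt] at hx hx'
    have a1 : (r:ℝ) < r' + 1 := by linarith [hx.1, hx'.2]
    have a2 : (r':ℝ) < r + 1 := by linarith [hx.2, hx'.1]
    have b1 : r < r' + 1 := by exact_mod_cast a1
    have b2 : r' < r + 1 := by exact_mod_cast a2
    omega

lemma prim_dvd (q q' r r' : ℕ) (p p' : ℤ) (hc : Nat.Coprime (Int.gcd q p) r)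
    (h1 : (r:ℤ) * q' = r' * q) (h2 : p * q' = p' * q) : q ∣ q' := by
  have e1 := Int.gcd_eq_gcd_ab (q:ℤ) p
  have e2 := Nat.gcd_eq_gcd_ab (Int.gcd q p) r
  rw [hc, e1] at e2
  have : (q:ℤ) ∣ q' := by
    refine ⟨(q' * Int.gcdA q p + p' * Int.gcdB q p) * Nat.gcdA (Int.gcd q p) r + r' * Nat.gcdB (Int.gcd q p) r, ?_⟩
    push_cast at e2
    linear_combination (q':ℤ) * e2 + (Int.gcdB q p * Nat.gcdA (Int.gcd q p) r) * h2 + (Nat.gcdB (Int.gcd q p) r) * h1
  exact_mod_cast this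

lemma pair_card (q q' : ℕ) (hq : 1 ≤ q) (hq' : 1 ≤ q') (Δ : ℝ) (hg : (Nat.gcd q q' : ℝ) < Δ)
    (P : Finset (ℕ × ℕ)) (hP : ∀ x ∈ P, 0 < x.1 ∧ x.1 ≤ q ∧ |(x.1:ℝ) * q' - x.2 * q| < Δ) :
    (P.card : ℝ) ≤ 3 * Δ := by
  set g := Nat.gcd q q' with hgd
  have hg0 : 0 < g := Nat.gcd_pos_of_pos_left _ hq
  obtain ⟨a, ha⟩ : g ∣ q := Nat.gcd_dvd_left _ _
  obtain ⟨b, hb⟩ : g ∣ q' := Nat.gcd_dvd_right _ _
  have hab : Nat.Coprime a b := by
    have := Nat.coprime_div_gcd_div_gcd (m := q) (n := q') hg0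
    rw [← hgd] at this
    have e1 : q / g = a := by rw [ha]; exact Nat.mul_div_cancel_left _ hg0
    have e2 : q' / g = b := by rw [hb]; exact Nat.mul_div_cancel_left _ hg0
    rwa [e1, e2] at this
  have ha0 : 0 < a := by
    rcases Nat.eq_zero_or_pos a with h | h
    · rw [h] at ha; omega
    · exact h
  have hg0' : (0:ℝ) < g := by exact_mod_cast hg0
  set m := ⌊Δ / g⌋₊ with hm
  have hm1 : (m:ℝ) * g ≤ Δ := by
    rw [← le_div_iff₀ hg0']
    exact Nat.floor_le (by apply div_nonneg <;> linarith)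
  have hcard : P.card ≤ ((Finset.Icc (-(m:ℤ)) m) ×ˢ (Finset.range g)).card := by
    refine Finset.card_le_card_of_injOn (fun x => ((x.1:ℤ) * b - x.2 * a, (x.1 - 1) / a)) ?_ ?_
    · intro x hx
      obtain ⟨h1, h2, h3⟩ := hP x hx
      rw [Finset.mem_coe, Finset.mem_product, Finset.mem_range, Finset.mem_Icc, ← abs_le]
      constructor
      · have e : (x.1:ℝ) * q' - x.2 * q = g * (x.1 * b - x.2 * a) := by
          rw [ha, hb]; push_cast; ring
        rw [e, abs_mul, abs_of_pos hg0'] at h3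
        have h4 : |(x.1:ℝ) * b - x.2 * a| ≤ Δ / g := by
          rw [le_div_iff₀ hg0']; linarith
        have h5 : ((((x.1:ℤ) * b - x.2 * a).natAbs : ℕ) : ℝ) ≤ Δ / g := by
          rw [Nat.cast_natAbs]; push_cast; exact h4
        have h6 := Nat.le_floor h5
        rw [← hm] at h6
        show |(x.1:ℤ) * b - x.2 * a| ≤ m
        rw [Int.abs_eq_natAbs]
        exact_mod_cast h6
      · show (x.1 - 1) / a < g
        rw [Nat.div_lt_iff_lt_mul ha0]
        omega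
    · intro x hx y hy hxy
      obtain ⟨h1, h2, h3⟩ := hP x hx
      obtain ⟨h1', h2', h3'⟩ := hP y hy
      simp only [Prod.mk.injEq] at hxy
      obtain ⟨e1, e2⟩ := hxy
      have hd : (a:ℤ) ∣ ((x.1:ℤ) - y.1) * b := ⟨x.2 - y.2, by linear_combination e1⟩
      have hd' : (a:ℤ) ∣ (x.1:ℤ) - y.1 := (Nat.isCoprime_iff_coprime.2 hab).dvd_of_dvd_mul_right hd
      have hmod : (y.1 - 1) % a = (x.1 - 1) % a := by
        have : (y.1 - 1) ≡ (x.1 - 1) [MOD a] := by
          rw [Nat.modEq_iff_dvd]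
          have : (((x.1 - 1 : ℕ) : ℤ) - ((y.1 - 1 : ℕ) : ℤ)) = (x.1:ℤ) - y.1 := by
            rw [Nat.cast_sub h1, Nat.cast_sub h1']; ring
          rwa [this]
        exact this
      have e3 : x.1 = y.1 := by
        have f1 := Nat.div_add_mod (x.1 - 1) a
        have f2 := Nat.div_add_mod (y.1 - 1) a
        rw [e2, ← hmod] at f1
        omega
      have e4 : x.2 = y.2 := by
        rw [e3] at e1
        have : (x.2:ℤ) * a = y.2 * a := by linarith
        have ha' : (a:ℤ) ≠ 0 := by exact_mod_cast ha0.ne'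
        exact_mod_cast mul_right_cancel₀ ha' this
      exact Prod.ext e3 e4
  rw [Finset.card_product, Int.card_Icc, Finset.card_range] at hcard
  have e : ((m:ℤ) + 1 - -m).toNat = 2 * m + 1 := by omega
  rw [e] at hcard
  have : (P.card : ℝ) ≤ (2 * m + 1) * g := by exact_mod_cast hcard
  nlinarith

lemma EE_inter (α : ℝ) (ψ : ℕ → ℝ) (q q' : ℕ) (hq : 1 ≤ q) (hq' : 1 ≤ q') (hne : q ≠ q')
    (h : nd (q * α) < ψ q) (h' : nd (q' * α) < ψ q') :
    volume.real (EE α ψ q ∩ EE α ψ q') ≤ 12 * (ψ q * ψ q') := by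
  classical
  have hq0 : (0:ℝ) < q := by exact_mod_cast hq
  have hq0' : (0:ℝ) < q' := by exact_mod_cast hq'
  have t0 : 0 < ψ q := (abs_nonneg _).trans_lt h
  have t0' : 0 < ψ q' := (abs_nonneg _).trans_lt h'
  set Δ := ψ q * q' + ψ q' * q with hΔ
  have close : ∀ (x u v : ℝ), |q * x - u| < ψ q → |q' * x - v| < ψ q' → |u * q' - v * q| < Δ := by
    intro x u v h1 h2
    have e : u * q' - v * q = (q' * x - v) * q - (q * x - u) * q' := by ring
    rw [e]
    refine (abs_sub _ _).trans_lt ?_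
    rw [abs_mul, abs_mul, abs_of_pos hq0, abs_of_pos hq0']
    nlinarith [mul_lt_mul_of_pos_right h1 hq0', mul_lt_mul_of_pos_right h2 hq0]
  set P := (RR α q ×ˢ RR α q').filter fun x => |(x.1:ℝ) * q' - x.2 * q| < Δ with hP
  have hsub : EE α ψ q ∩ EE α ψ q' ⊆ ⋃ x ∈ P, (II q x.1 (ψ q) ∩ II q' x.2 (ψ q')) := by
    rintro y ⟨h1, h2⟩
    simp only [EE, mem_iUnion] at h1 h2
    obtain ⟨r, hr, h1⟩ := h1
    obtain ⟨r', hr', h2⟩ := h2
    simp only [mem_iUnion]
    refine ⟨(r, r'), Finset.mem_filter.2 ⟨Finset.mem_product.2 ⟨hr, hr'⟩, ?_⟩, h1, h2⟩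
    exact close y r r' ((II_mem _ _ _ _ hq).1 h1) ((II_mem _ _ _ _ hq').1 h2)
  have hcard : (P.card : ℝ) ≤ 3 * Δ := by
    by_cases hg : (Nat.gcd q q' : ℝ) < Δ
    · refine pair_card q q' hq hq' Δ hg P fun x hx => ?_
      obtain ⟨h1, h2⟩ := Finset.mem_filter.1 hx
      have h3 := Finset.mem_Ioc.1 (Finset.mem_filter.1 (Finset.mem_product.1 h1).1).1
      exact ⟨h3.1, h3.2, h2⟩
    · have zero : ∀ u v : ℤ, |(u:ℝ) * q' - v * q| < Δ → u * q' = v * q := by
        intro u v huv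
        have hd : ((Nat.gcd q q' : ℕ) : ℤ) ∣ u * q' - v * q :=
          dvd_sub (Dvd.dvd.mul_left (Int.natCast_dvd_natCast.2 (Nat.gcd_dvd_right _ _)) _)
            (Dvd.dvd.mul_left (Int.natCast_dvd_natCast.2 (Nat.gcd_dvd_left _ _)) _)
        have hl : |u * q' - v * q| < ((Nat.gcd q q' : ℕ) : ℤ) := by
          have : |(u:ℝ) * q' - v * q| < (Nat.gcd q q' : ℝ) := huv.trans_le (not_lt.1 hg)
          exact_mod_cast this
        exact sub_eq_zero.1 (Int.eq_zero_of_abs_lt_dvd hd hl)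
      have hp := zero _ _ (close α (round (q * α)) (round (q' * α)) h h')
      have : P = ∅ := by
        rw [Finset.eq_empty_iff_forall_notMem]
        intro x hx
        obtain ⟨h1, h2⟩ := Finset.mem_filter.1 hx
        obtain ⟨h3, h4⟩ := Finset.mem_product.1 h1
        have hr := zero x.1 x.2 (by exact_mod_cast h2)
        exact hne (Nat.dvd_antisymm (prim_dvd q q' _ _ _ _ (Finset.mem_filter.1 h3).2 hr hp)
          (prim_dvd q' q _ _ _ _ (Finset.mem_filter.1 h4).2 hr.symm hp.symm))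
      rw [this]
      simp only [Finset.card_empty, Nat.cast_zero]
      positivity
  set μ := min (2 * ψ q / q) (2 * ψ q' / q') with hμ
  have h1 : volume.real (EE α ψ q ∩ EE α ψ q') ≤ P.card * μ := by
    refine (measureReal_mono hsub ?_).trans ((measureReal_biUnion_finset_le _ _).trans ?_)
    · exact (measure_biUnion_lt_top P.finite_toSet fun x _ =>
        lt_of_le_of_lt (measure_mono inter_subset_left) (II_fin _ _ _).lt_top).ne
    · rw [← nsmul_eq_mul]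
      refine Finset.sum_le_card_nsmul _ _ _ fun x _ => le_min ?_ ?_
      · rw [← II_vol q x.1 _ hq t0.le]
        exact measureReal_mono inter_subset_left (II_fin _ _ _)
      · rw [← II_vol q' x.2 _ hq' t0'.le]
        exact measureReal_mono inter_subset_right (II_fin _ _ _)
  have m0 : 0 ≤ μ := le_min (by positivity) (by positivity)
  have m1 : μ * q ≤ 2 * ψ q := by rw [← le_div_iff₀ hq0]; exact min_le_left _ _
  have m2 : μ * q' ≤ 2 * ψ q' := by rw [← le_div_iff₀ hq0']; exact min_le_right _ _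
  calc _ ≤ P.card * μ := h1
    _ ≤ 3 * Δ * μ := mul_le_mul_of_nonneg_right hcard m0
    _ = 3 * (ψ q * (μ * q') + ψ q' * (μ * q)) := by rw [hΔ]; ring
    _ ≤ 3 * (ψ q * (2 * ψ q') + ψ q' * (2 * ψ q)) := by gcongr
    _ = _ := by ring

end Pool.Agent.H53.Vert
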