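import Mathlib
import Pool.Agent.H53.VertB

open MeasureTheory Filter Set Topology Metric

namespace Pool.Agent.H53.Vert

open Classical in
/-- Bohr set -/
noncomputable def KK (α δ : ℝ) (Q : ℕ) : Finset ℕ := (Finset.Icc 1 Q).filter fun q => nd (q * α) < δ

lemma KK_card (α δ : ℝ) (Q : ℕ) (h0 : 0 < δ) (h1 : δ ≤ 1) : Q * δ / 2 - 1 ≤ (KK α δ Q).card := by
  classical
  set M := ⌈1 / δ⌉₊ with hM
  have hM1 : 1 / δ ≤ M := Nat.le_ceil _
  have hM2 : (M:ℝ) < 1 / δ + 1 := Nat.ceil_lt_add_one (by positivity)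
  have hM0 : (0:ℝ) < M := lt_of_lt_of_le (by positivity) hM1
  have hM3 : 1 ≤ M * δ := by rwa [div_le_iff₀ h0] at hM1
  have hM4 : M * δ ≤ 2 := by
    have : (M:ℝ) * δ < (1 / δ + 1) * δ := mul_lt_mul_of_pos_right hM2 h0
    rw [add_mul, one_div_mul_cancel h0.ne'] at this
    linarith
  set f : ℕ → ℕ := fun q => ⌊Int.fract (q * α) * M⌋₊ with hf
  have hfm : ∀ q ∈ Finset.range (Q + 1), f q ∈ Finset.range M := by
    intro q _
    rw [Finset.mem_range, hf, Nat.floor_lt (mul_nonneg (Int.fract_nonneg _) hM0.le)]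
    nlinarith [Int.fract_lt_one (q * α)]
  obtain ⟨y, _, hy⟩ := Finset.exists_le_card_fiber_of_nsmul_le_card_of_maps_to (M := ℝ)
    (b := Q * δ / 2) hfm ⟨0, Finset.mem_range.2 (by exact_mod_cast hM0)⟩ (by
      rw [Finset.card_range, Finset.card_range, nsmul_eq_mul]
      push_cast
      nlinarith [Nat.cast_nonneg (α := ℝ) Q])
  set F := (Finset.range (Q + 1)).filter fun q => f q = y with hF
  rcases F.eq_empty_or_nonempty with he | hne
  · rw [he] at hy
    simp only [Finset.card_empty, Nat.cast_zero] at hy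
    linarith [Nat.cast_nonneg (α := ℝ) (KK α δ Q).card]
  · set q0 := F.min' hne with hq0
    have hq0F : q0 ∈ F := F.min'_mem hne
    have hc : (F.erase q0).card ≤ (KK α δ Q).card := by
      refine Finset.card_le_card_of_injOn (fun q => q - q0) ?_ ?_
      · intro q hq
        obtain ⟨h2, h3⟩ := Finset.mem_erase.1 hq
        have h4 : q0 ≤ q := F.min'_le q h3
        obtain ⟨h5, h6⟩ := Finset.mem_filter.1 h3
        obtain ⟨_, h7⟩ := Finset.mem_filter.1 hq0F
        rw [Finset.mem_range] at h5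
        rw [Finset.mem_coe, KK, Finset.mem_filter, Finset.mem_Icc]
        beta_reduce
        refine ⟨⟨by omega, by omega⟩, ?_⟩
        have a1 := Nat.floor_le (mul_nonneg (Int.fract_nonneg (q * α)) hM0.le)
        have a2 := Nat.lt_floor_add_one (Int.fract (q * α) * M)
        have a3 := Nat.floor_le (mul_nonneg (Int.fract_nonneg (q0 * α)) hM0.le)
        have a4 := Nat.lt_floor_add_one (Int.fract (q0 * α) * M)
        simp only [hf] at h6 h7
        rw [h6] at a1 a2
        rw [h7] at a3 a4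
        have a5 : |Int.fract (q * α) - Int.fract (q0 * α)| < δ := by
          rw [abs_lt]
          constructor <;> nlinarith
        refine lt_of_le_of_lt ((round_le _ (⌊q * α⌋ - ⌊q0 * α⌋)).trans_eq ?_) a5
        congr 1
        simp only [Int.fract]
        push_cast [Nat.cast_sub h4]
        ring
      · intro q hq q' hq' h
        have h4 : q0 ≤ q := F.min'_le q (Finset.mem_erase.1 hq).2
        have h4' : q0 ≤ q' := F.min'_le q' (Finset.mem_erase.1 hq').2
        simp only at h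
        omega
    rw [Finset.card_erase_of_mem hq0F] at hc
    have : F.card ≤ (KK α δ Q).card + 1 := by omega
    have : (F.card : ℝ) ≤ (KK α δ Q).card + 1 := by exact_mod_cast this
    linarith

lemma scale (α δ : ℝ) (h1 : δ ≤ 1 / 2) (q : ℕ) (hq : 1 ≤ q) (h : nd (q * α) < δ) (b : ℕ)
    (hb : b ≤ gg α q) :
    nd ((b * (q / gg α q) : ℕ) * α) < δ ∧ gg α (b * (q / gg α q)) = b := by
  set g := gg α q with hg
  have hg0 : 0 < g := Int.gcd_pos_of_ne_zero_left _ (by exact_mod_cast (by omega : q ≠ 0))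
  obtain ⟨u, hu⟩ : g ∣ q := gg_dvd α q
  obtain ⟨v, hv⟩ : (g:ℤ) ∣ round (q * α) := Int.gcd_dvd_right _ _
  have huv : Int.gcd u v = 1 := by
    have : g = Int.gcd ((g:ℤ) * u) (g * v) := by
      rw [← hv]
      conv_lhs => rw [hg, gg]
      congr 1
      exact_mod_cast hu
    rw [Int.gcd_mul_left, Int.natAbs_natCast] at this
    exact (Nat.mul_left_cancel hg0 (by rw [mul_one]; exact this)).symm
  have e : q / g = u := by rw [hu]; exact Nat.mul_div_cancel_left _ hg0
  rw [e]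
  have h2 : (g:ℝ) * |u * α - v| < δ := by
    unfold nd at h
    rw [hv] at h
    have : (q:ℝ) * α - ((g * v : ℤ) : ℝ) = g * (u * α - v) := by
      rw [show (q:ℝ) = g * u by exact_mod_cast hu]; push_cast; ring
    rwa [this, abs_mul, Nat.abs_cast] at h
  have h3 : |((b * u : ℕ) : ℝ) * α - ((b * v : ℤ) : ℝ)| < δ := by
    have : ((b * u : ℕ) : ℝ) * α - ((b * v : ℤ) : ℝ) = b * (u * α - v) := by push_cast; ring
    rw [this, abs_mul, Nat.abs_cast]
    exact lt_of_le_of_lt (mul_le_mul_of_nonneg_right (by exact_mod_cast hb) (abs_nonneg _)) h2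
  have h4 : round (((b * u : ℕ) : ℝ) * α) = b * v := by
    rw [round_eq_iff, mem_Ico]
    rw [abs_lt] at h3
    constructor <;> linarith [h3.1, h3.2]
  refine ⟨by unfold nd; rw [h4]; exact h3, ?_⟩
  rw [gg, h4]
  push_cast
  rw [Int.gcd_mul_left, huv]
  simp

lemma dvd_card (α δ : ℝ) (h1 : δ ≤ 1 / 2) (Q d : ℕ) (hd : 0 < d) :
    ((KK α δ Q).filter fun q => d ∣ gg α q).card * d ≤ (KK α δ Q).card := by
  classical
  have hc : (((KK α δ Q).filter fun q => d ∣ gg α q) ×ˢ Finset.range d).card ≤ (KK α δ Q).card := by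
    have aux : ∀ x ∈ ((KK α δ Q).filter fun q => d ∣ gg α q) ×ˢ Finset.range d,
        1 ≤ x.1 ∧ x.1 ≤ Q ∧ nd (x.1 * α) < δ ∧ d ∣ gg α x.1 ∧ x.2 < d ∧ d ≤ gg α x.1 := by
      intro x hx
      obtain ⟨h2, h3⟩ := Finset.mem_product.1 hx
      obtain ⟨h4, h5⟩ := Finset.mem_filter.1 h2
      obtain ⟨h6, h7⟩ := Finset.mem_filter.1 h4
      obtain ⟨h8, h9⟩ := Finset.mem_Icc.1 h6
      have hg0 : 0 < gg α x.1 := Int.gcd_pos_of_ne_zero_left _ (by exact_mod_cast (by omega : x.1 ≠ 0))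
      exact ⟨h8, h9, h7, h5, Finset.mem_range.1 h3, Nat.le_of_dvd hg0 h5⟩
    refine Finset.card_le_card_of_injOn (fun x => (gg α x.1 - x.2) * (x.1 / gg α x.1)) ?_ ?_
    · intro x hx
      obtain ⟨a1, a2, a3, a4, a5, a6⟩ := aux x hx
      rw [Finset.mem_coe, KK, Finset.mem_filter, Finset.mem_Icc]
      refine ⟨⟨?_, ?_⟩, (scale α δ h1 x.1 a1 a3 _ (Nat.sub_le _ _)).1⟩
      · exact Nat.mul_pos (by omega) (Nat.div_pos (Nat.le_of_dvd a1 (gg_dvd α _)) (by omega))
      · calc (gg α x.1 - x.2) * (x.1 / gg α x.1) ≤ gg α x.1 * (x.1 / gg α x.1) :=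
              Nat.mul_le_mul_right _ (Nat.sub_le _ _)
          _ ≤ x.1 := Nat.mul_div_le _ _
          _ ≤ Q := a2
    · intro x hx y hy hxy
      obtain ⟨a1, a2, a3, a4, a5, a6⟩ := aux x hx
      obtain ⟨b1, b2, b3, b4, b5, b6⟩ := aux y hy
      simp only at hxy
      have e1 := (scale α δ h1 x.1 a1 a3 _ (Nat.sub_le _ x.2)).2
      have e2 := (scale α δ h1 y.1 b1 b3 _ (Nat.sub_le _ y.2)).2
      rw [hxy, e2] at e1
      rw [← e1] at hxy
      have e3 : x.1 / gg α x.1 = y.1 / gg α y.1 := Nat.eq_of_mul_eq_mul_left (by omega) hxy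
      have e4 : gg α x.1 = gg α y.1 := by
        obtain ⟨s, hs⟩ := a4
        obtain ⟨t, ht⟩ := b4
        rw [hs, ht] at e1 ⊢
        rw [hs] at a6
        rw [ht] at b6
        congr 1
        rcases lt_trichotomy s t with h | h | h
        · have : d * (s + 1) ≤ d * t := Nat.mul_le_mul_left _ h
          rw [mul_add] at this
          omega
        · exact h
        · have : d * (t + 1) ≤ d * s := Nat.mul_le_mul_left _ h
          rw [mul_add] at this
          omega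
      have e5 : x.1 = y.1 := by
        rw [← Nat.mul_div_cancel' (gg_dvd α x.1), ← Nat.mul_div_cancel' (gg_dvd α y.1), e3, e4]
      exact Prod.ext e5 (by omega)
  rwa [Finset.card_product, Finset.card_range] at hc

lemma sq_sum (Q : ℕ) : ∑ d ∈ Finset.Icc 2 Q, (1 / (d:ℝ)) ^ 2 ≤ (3 / 4 : ℝ) := by
  have : ∀ n : ℕ, ∑ d ∈ Finset.Icc (2:ℕ) (n + 2), (1 / (d:ℝ)) ^ 2 ≤ (3 / 4 : ℝ) - 1 / ((n:ℝ) + 2) := by
    intro n
    induction n with
    | zero => norm_num
    | succ n ih =>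
      rw [show n + 1 + 2 = (n + 2) + 1 by ring, Finset.sum_Icc_succ_top (by omega)]
      push_cast
      have h0 : (0:ℝ) ≤ n := Nat.cast_nonneg n
      have : (1 / ((n:ℝ) + 2 + 1)) ^ 2 ≤ 1 / (n + 2) - 1 / (n + 1 + 2) := by
        rw [div_sub_div _ _ (by positivity) (by positivity), div_pow, div_le_div_iff₀ (by positivity) (by positivity)]
        nlinarith
      linarith
  rcases Nat.lt_or_ge Q 2 with h | h
  · rw [Finset.Icc_eq_empty (by omega)]; norm_num
  · obtain ⟨n, rfl⟩ : ∃ n, Q = n + 2 := ⟨Q - 2, by omega⟩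
    have h1 := this n
    have : (0:ℝ) ≤ 1 / (n + 2) := by positivity
    linarith

open Classical in
lemma good_card (α δ : ℝ) (h1 : δ ≤ 1 / 2) (Q : ℕ) :
    ((KK α δ Q).card : ℝ) / 7 ≤ ((KK α δ Q).filter fun q => ww α q ≤ 7 / 8).card := by
  set K := KK α δ Q with hK
  have s1 : ∑ q ∈ K, ww α q ≤ 3 / 4 * K.card := by
    calc ∑ q ∈ K, ww α q ≤ ∑ q ∈ K, ∑ d ∈ Finset.Icc 2 Q, if d ∣ gg α q then (1 / d : ℝ) else 0 := by
          refine Finset.sum_le_sum fun q hq => ?_
          have := (Finset.mem_Icc.1 (Finset.mem_filter.1 hq).1).2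
          refine Finset.sum_le_sum_of_subset_of_nonneg (Finset.Icc_subset_Icc_right this) fun d _ _ => ?_
          split_ifs <;> positivity
      _ = ∑ d ∈ Finset.Icc 2 Q, ∑ q ∈ K, if d ∣ gg α q then (1 / d : ℝ) else 0 := Finset.sum_comm
      _ ≤ ∑ d ∈ Finset.Icc 2 Q, (1 / (d:ℝ)) ^ 2 * K.card := by
          refine Finset.sum_le_sum fun d hd => ?_
          have hd0 : 0 < d := by have := (Finset.mem_Icc.1 hd).1; omega
          have hd1 : (0:ℝ) < d := by exact_mod_cast hd0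
          rw [← Finset.sum_filter, Finset.sum_const, nsmul_eq_mul]
          have h2 : (((K.filter fun q => d ∣ gg α q).card : ℕ) : ℝ) * d ≤ K.card := by
            exact_mod_cast dvd_card α δ h1 Q d hd0
          calc _ = (1 / (d:ℝ)) ^ 2 * ((((K.filter fun q => d ∣ gg α q).card : ℕ) : ℝ) * d) := by field_simp
            _ ≤ _ := by gcongr
      _ ≤ _ := by
          rw [← Finset.sum_mul]
          exact mul_le_mul_of_nonneg_right (sq_sum Q) (Nat.cast_nonneg _)
  have w0 : ∀ q, 0 ≤ ww α q := fun q => Finset.sum_nonneg fun d _ => by split_ifs <;> positivity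
  have s2 : 7 / 8 * ((K.filter fun q => ¬ ww α q ≤ 7 / 8).card : ℝ) ≤ ∑ q ∈ K, ww α q := by
    calc _ = ∑ q ∈ K.filter fun q => ¬ ww α q ≤ 7 / 8, (7 / 8 : ℝ) := by
          rw [Finset.sum_const, nsmul_eq_mul, mul_comm]
      _ ≤ ∑ q ∈ K.filter fun q => ¬ ww α q ≤ 7 / 8, ww α q :=
          Finset.sum_le_sum fun q hq => (not_le.1 (Finset.mem_filter.1 hq).2).le
      _ ≤ _ := Finset.sum_le_sum_of_subset_of_nonneg (Finset.filter_subset _ _) fun q _ _ => w0 q
  have s3 := Finset.card_filter_add_card_filter_not (s := K) (fun q => ww α q ≤ 7 / 8)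
  have s4 : ((K.filter fun q => ww α q ≤ 7 / 8).card : ℝ) + (K.filter fun q => ¬ ww α q ≤ 7 / 8).card = K.card := by
    exact_mod_cast s3
  linarith

lemma abel (ψ a : ℕ → ℝ) (hanti : Antitone ψ) (h0 : ∀ q, 0 ≤ ψ q)
    (hF : ∀ N : ℕ, N * ψ N / 14 - 1 / 7 ≤ ∑ q ∈ Finset.range (N + 1), a q) (ha : a 0 = 0) (N : ℕ) :
    (∑ q ∈ Finset.range N, ψ (q + 1) ^ 2) / 28 - ψ 0 / 7 ≤ ∑ q ∈ Finset.range (N + 1), a q * ψ q := by
  have key : ∀ N : ℕ, (∑ q ∈ Finset.range N, ψ (q + 1) ^ 2 - N * ψ N ^ 2) / 28 - (ψ 0 - ψ N) / 7 ≤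
      ∑ q ∈ Finset.range (N + 1), a q * ψ q - (∑ q ∈ Finset.range (N + 1), a q) * ψ N := by
    intro N
    induction N with
    | zero => simp [ha]
    | succ N ih =>
      rw [Finset.sum_range_succ _ (N + 1), Finset.sum_range_succ _ (N + 1), Finset.sum_range_succ _ N]
      have h1 := hF N
      have h2 : 0 ≤ ψ N - ψ (N + 1) := sub_nonneg.2 (hanti (Nat.le_succ N))
      have h3 := mul_le_mul_of_nonneg_right h1 h2
      have h4 : (0:ℝ) ≤ N := Nat.cast_nonneg N
      have h5 := mul_nonneg h4 (mul_nonneg h2 h2)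
      push_cast
      nlinarith
  have h1 := key N
  have h2 := mul_le_mul_of_nonneg_right (hF N) (h0 N)
  have h3 : 0 ≤ N * ψ N ^ 2 := by positivity
  nlinarith

theorem core (α : ℝ) (ψ : ℕ → ℝ) (hanti : Antitone ψ) (h0 : ∀ q, 0 < ψ q) (h1 : ∀ q, ψ q ≤ 1 / 200)
    (hdiv : ¬ Summable fun q => ψ (q + 1) ^ 2) :
    volume ({β : ℝ | ∃ᶠ q : ℕ in atTop, (1 ≤ q ∧ nd (q * α) < ψ q) ∧ nd (q * β) < ψ q} ∩ Ioc 0 1) = 1 := by
  classical
  have h2 : ∀ q, ψ q ≤ 1 / 2 := fun q => (h1 q).trans (by norm_num)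
  refine cassels _ (fun q h => h.1) ψ (fun q => by rw [abs_of_pos (h0 q)]; linarith [h2 q]) ?_
  set G : ℕ → Prop := fun q => 1 ≤ q ∧ nd (q * α) < ψ q ∧ ww α q ≤ 7 / 8 with hG
  have hb := bc (EE α ψ) ψ G (EE_meas α ψ) (EE_sub α ψ h2)
    (fun q h => EE_vol α ψ q h.1 (h0 q).le (h2 q) h.2.2)
    (fun q q' h h' hne => EE_inter α ψ q q' h.1 h'.1 hne h.2.1 h'.2.1) (fun q => (h0 q).le) h1 (by
      rw [← tendsto_add_atTop_iff_nat 1]
      have ht := (not_summable_iff_tendsto_nat_atTop_of_nonneg (fun q => sq_nonneg _)).1 hdiv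
      have ht2 := tendsto_atTop_add_const_right _ (-(ψ 0 / 7)) (ht.atTop_div_const (by norm_num : (0:ℝ) < 28))
      refine tendsto_atTop_mono (fun N => ?_) ht2
      have := abel ψ (fun q => if G q then 1 else 0) hanti (fun q => (h0 q).le) (fun N => by
        rw [Finset.sum_boole]
        have c1 := KK_card α (ψ N) N (h0 N) (by linarith [h2 N])
        have c2 := good_card α (ψ N) (h2 N) N
        have c3 : ((KK α (ψ N) N).filter fun q => ww α q ≤ 7 / 8).card ≤ ((Finset.range (N + 1)).filter G).card := by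
          refine Finset.card_le_card fun q hq => ?_
          obtain ⟨d1, d2⟩ := Finset.mem_filter.1 hq
          obtain ⟨d3, d4⟩ := Finset.mem_filter.1 d1
          obtain ⟨d5, d6⟩ := Finset.mem_Icc.1 d3
          exact Finset.mem_filter.2 ⟨Finset.mem_range.2 (by omega), d5, d4.trans_le (hanti d6), d2⟩
        have c4 : (((KK α (ψ N) N).filter fun q => ww α q ≤ 7 / 8).card : ℝ) ≤
            ((Finset.range (N + 1)).filter G).card := by exact_mod_cast c3
        linarith) (by simp [hG]) N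
      simp only [ite_mul, one_mul, zero_mul] at this
      linarith)
  intro hz
  refine hb (measure_mono_null (inter_subset_inter_left _ fun β hβ => ?_) hz)
  exact Filter.Frequently.mono hβ fun q h => ⟨⟨h.1.1, h.1.2.1⟩, EE_nd α ψ q β h.2⟩

end Pool.Agent.H53.Vert
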