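import Mathlib

set_option autoImplicit false

namespace Pool.Agent.H53.Zh

open Filter Topology MeasureTheory

/-- multi-indices of total degree at most `k` -/
abbrev Ix (n k : ℕ) := {α : Fin n → Fin (k+1) // ∑ i, (α i : ℕ) ≤ k}

/-- along a lattice ray a subadditive function of linear growth has a slope -/
theorem ray_tendsto {n : ℕ} (f : (Fin n → ℕ) → ℝ) (D : ℝ) (hD0 : 0 ≤ D)
    (hD : ∀ α, |f α| ≤ D * ∑ i, (α i : ℝ))
    (hsub : ∀ α β, f (α + β) ≤ f α + f β) (x : Fin n → ℝ) (hx : ∀ i, 0 ≤ x i) :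
    ∃ L, Tendsto (fun k : ℕ => f (fun i => ⌊(k:ℝ) * x i⌋₊) / k) atTop (𝓝 L) := by
  set u : ℕ → ℝ := fun k => f (fun i => ⌊(k:ℝ) * x i⌋₊) + D * n with hu
  have hsu : Subadditive u := by
    intro a b
    have h1 : ∀ i, ⌊(a:ℝ) * x i⌋₊ + ⌊(b:ℝ) * x i⌋₊ ≤ ⌊((a+b : ℕ):ℝ) * x i⌋₊ := by
      intro i
      apply Nat.le_floor
      push_cast
      have ha := Nat.floor_le (mul_nonneg (Nat.cast_nonneg a : (0:ℝ) ≤ a) (hx i))
      have hb := Nat.floor_le (mul_nonneg (Nat.cast_nonneg b : (0:ℝ) ≤ b) (hx i))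
      linarith [add_mul (a:ℝ) b (x i)]
    have h2 : ∀ i, ⌊((a+b : ℕ):ℝ) * x i⌋₊ ≤ ⌊(a:ℝ) * x i⌋₊ + ⌊(b:ℝ) * x i⌋₊ + 1 := by
      intro i
      have ha := Nat.lt_floor_add_one ((a:ℝ) * x i)
      have hb := Nat.lt_floor_add_one ((b:ℝ) * x i)
      have : ⌊((a+b : ℕ):ℝ) * x i⌋₊ < ⌊(a:ℝ) * x i⌋₊ + ⌊(b:ℝ) * x i⌋₊ + 2 := by
        apply (Nat.floor_lt (mul_nonneg (Nat.cast_nonneg _) (hx i))).2
        push_cast
        linarith [add_mul (a:ℝ) b (x i)]
      omega
    set β : Fin n → ℕ := fun i => ⌊((a+b : ℕ):ℝ) * x i⌋₊ - (⌊(a:ℝ) * x i⌋₊ + ⌊(b:ℝ) * x i⌋₊)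
      with hβ
    have h3 : (fun i => ⌊((a+b : ℕ):ℝ) * x i⌋₊) =
        ((fun i => ⌊(a:ℝ) * x i⌋₊) + (fun i => ⌊(b:ℝ) * x i⌋₊)) + β := by
      funext i
      have := h1 i
      simp only [Pi.add_apply, hβ]
      omega
    have h4 : f β ≤ D * n := by
      refine (le_abs_self _).trans ((hD β).trans (mul_le_mul_of_nonneg_left ?_ hD0))
      have : ∀ i, (β i : ℝ) ≤ 1 := by
        intro i
        have := h2 i
        have h5 : β i ≤ 1 := by simp only [hβ]; omega
        exact_mod_cast h5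
      calc ∑ i, (β i : ℝ) ≤ ∑ _i : Fin n, (1:ℝ) := Finset.sum_le_sum fun i _ => this i
        _ = n := by simp
    simp only [hu]
    rw [h3]
    have h5 := hsub ((fun i => ⌊(a:ℝ) * x i⌋₊) + (fun i => ⌊(b:ℝ) * x i⌋₊)) β
    have h6 := hsub (fun i => ⌊(a:ℝ) * x i⌋₊) (fun i => ⌊(b:ℝ) * x i⌋₊)
    linarith
  have hb : BddBelow (Set.range fun k : ℕ => u k / k) := by
    refine ⟨-(D * ∑ i, x i), ?_⟩
    rintro _ ⟨k, rfl⟩
    have hS : 0 ≤ D * ∑ i, x i := mul_nonneg hD0 (Finset.sum_nonneg fun i _ => hx i)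
    rcases Nat.eq_zero_or_pos k with rfl | hk
    · simp only [Nat.cast_zero, div_zero]; linarith
    · have hk' : (0:ℝ) < k := by exact_mod_cast hk
      simp only
      rw [le_div_iff₀ hk']
      have h1 := (abs_le.1 (hD (fun i => ⌊(k:ℝ) * x i⌋₊))).1
      have h2 : ∑ i, ((⌊(k:ℝ) * x i⌋₊ : ℕ) : ℝ) ≤ k * ∑ i, x i := by
        rw [Finset.mul_sum]
        exact Finset.sum_le_sum fun i _ => Nat.floor_le (mul_nonneg hk'.le (hx i))
      have h3 := mul_le_mul_of_nonneg_left h2 hD0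
      have h4 : 0 ≤ D * n := mul_nonneg hD0 (Nat.cast_nonneg n)
      simp only [hu]
      nlinarith
  have h1 := hsu.tendsto_lim hb
  have h2 : Tendsto (fun k : ℕ => D * n / (k:ℝ)) atTop (𝓝 0) :=
    tendsto_const_div_atTop_nhds_zero_nat _
  refine ⟨hsu.lim - 0, ?_⟩
  refine (h1.sub h2).congr fun k => ?_
  simp only [hu]
  ring

/-- the half-open cube of side `1/k` with corner `α/k` -/
def box {n : ℕ} (k : ℕ) (α : Fin n → ℕ) : Set (Fin n → ℝ) :=
  Set.pi Set.univ fun i => Set.Ico ((α i : ℝ) / k) (((α i : ℝ) + 1) / k)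

theorem mem_box {n k : ℕ} (hk : 0 < k) (α : Fin n → ℕ) (x : Fin n → ℝ) :
    x ∈ box k α ↔ ∀ i, 0 ≤ x i ∧ ⌊(k:ℝ) * x i⌋₊ = α i := by
  have hk' : (0:ℝ) < k := by exact_mod_cast hk
  simp only [box, Set.mem_pi, Set.mem_univ, true_imp_iff, Set.mem_Ico]
  refine forall_congr' fun i => ?_
  rw [div_le_iff₀ hk', lt_div_iff₀ hk']
  constructor
  · rintro ⟨h1, h2⟩
    have h0 : 0 ≤ x i * k := le_trans (Nat.cast_nonneg _) h1
    refine ⟨nonneg_of_mul_nonneg_left h0 hk', ?_⟩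
    rw [Nat.floor_eq_iff (by linarith [mul_comm (x i) k])]
    constructor <;> linarith [mul_comm (x i) k]
  · rintro ⟨h1, h2⟩
    rw [Nat.floor_eq_iff (mul_nonneg hk'.le h1)] at h2
    constructor <;> linarith [mul_comm (x i) k, h2.1, h2.2]

theorem measurableSet_box {n : ℕ} (k : ℕ) (α : Fin n → ℕ) : MeasurableSet (box k α) :=
  MeasurableSet.univ_pi fun _ => measurableSet_Ico

theorem volume_box {n k : ℕ} (hk : 0 < k) (α : Fin n → ℕ) :
    volume.real (box k α) = 1 / (k:ℝ) ^ n := by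
  have hk' : (0:ℝ) < k := by exact_mod_cast hk
  rw [Measure.real, box, Real.volume_pi_Ico_toReal]
  · have : ∀ i, ((α i : ℝ) + 1) / k - (α i : ℝ) / k = 1 / k := fun i => by ring
    simp only [this]
    simp
  · intro i
    exact div_le_div_of_nonneg_right (by linarith) hk'.le

theorem volume_box_lt {n : ℕ} (k : ℕ) (α : Fin n → ℕ) : volume (box k α) < ⊤ := by
  rw [box, Real.volume_pi_Ico]
  exact ENNReal.prod_lt_top fun _ _ => ENNReal.ofReal_lt_top

/-- step function whose integral is the normalised lattice sum -/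
noncomputable def stepF {n : ℕ} (f : (Fin n → ℕ) → ℝ) (k : ℕ) (x : Fin n → ℝ) : ℝ :=
  ∑ a : Ix n k, (box k (fun i => (a.1 i : ℕ))).indicator (fun _ => f (fun i => (a.1 i : ℕ)) / k) x

theorem stepF_eq {n k : ℕ} (hk : 0 < k) (f : (Fin n → ℕ) → ℝ) (x : Fin n → ℝ)
    (hx : ∀ i, 0 ≤ x i) (hs : ∑ i, ⌊(k:ℝ) * x i⌋₊ ≤ k) :
    stepF f k x = f (fun i => ⌊(k:ℝ) * x i⌋₊) / k := by
  have hlt : ∀ i, ⌊(k:ℝ) * x i⌋₊ < k + 1 := fun i =>
    Nat.lt_succ_of_le ((Finset.single_le_sum (f := fun i => ⌊(k:ℝ) * x i⌋₊)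
      (fun _ _ => Nat.zero_le _) (Finset.mem_univ i)).trans hs)
  let a0 : Ix n k := ⟨fun i => ⟨⌊(k:ℝ) * x i⌋₊, hlt i⟩, hs⟩
  unfold stepF
  rw [Finset.sum_eq_single a0]
  · rw [Set.indicator_of_mem]
    rw [mem_box hk]
    exact fun i => ⟨hx i, rfl⟩
  · intro b _ hb
    rw [Set.indicator_of_notMem]
    rw [mem_box hk]
    intro h
    apply hb
    apply Subtype.ext
    funext i
    apply Fin.ext
    exact (h i).2.symm
  · simp

theorem stepF_zero {n k : ℕ} (hk : 0 < k) (f : (Fin n → ℕ) → ℝ) (x : Fin n → ℝ)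
    (h : ¬ ((∀ i, 0 ≤ x i) ∧ ∑ i, ⌊(k:ℝ) * x i⌋₊ ≤ k)) : stepF f k x = 0 := by
  unfold stepF
  refine Finset.sum_eq_zero fun a _ => ?_
  rw [Set.indicator_of_notMem]
  rw [mem_box hk]
  intro h'
  apply h
  refine ⟨fun i => (h' i).1, ?_⟩
  simp only [fun i => (h' i).2]
  exact a.2

theorem integrable_ind {n : ℕ} (k : ℕ) (α : Fin n → ℕ) (c : ℝ) :
    Integrable ((box k α).indicator (fun _ => c)) volume :=
  (integrableOn_const (volume_box_lt k α).ne).integrable_indicator (measurableSet_box k α)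

theorem integral_stepF {n k : ℕ} (hk : 0 < k) (f : (Fin n → ℕ) → ℝ) :
    ∫ x, stepF f k x = (∑ a : Ix n k, f (fun i => (a.1 i : ℕ))) / (k:ℝ) ^ (n+1) := by
  unfold stepF
  rw [integral_finset_sum _ fun a _ => integrable_ind k _ _]
  simp only [integral_indicator_const _ (measurableSet_box k _), volume_box hk, smul_eq_mul]
  rw [Finset.sum_div]
  refine Finset.sum_congr rfl fun a _ => ?_
  have hk' : (k:ℝ) ≠ 0 := by exact_mod_cast hk.ne'
  field_simp
  ring

/-- normalised sums of a subadditive function over the lattice simplex converge -/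
theorem sum_tendsto {n : ℕ} (f : (Fin n → ℕ) → ℝ) (D : ℝ) (hD0 : 0 ≤ D)
    (hD : ∀ α, |f α| ≤ D * ∑ i, (α i : ℝ))
    (hsub : ∀ α β, f (α + β) ≤ f α + f β) :
    ∃ L, Tendsto (fun k : ℕ => (∑ a : Ix n k, f (fun i => (a.1 i : ℕ))) / (k:ℝ) ^ (n+1))
      atTop (𝓝 L) := by
  have hlim : ∀ x : Fin n → ℝ, ∃ L, Tendsto (fun k : ℕ => stepF f k x) atTop (𝓝 L) := by
    intro x
    by_cases hx : ∀ i, 0 ≤ x i
    · by_cases hs : ∑ i, x i ≤ 1
      · obtain ⟨L, hL⟩ := ray_tendsto f D hD0 hD hsub x hx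
        refine ⟨L, hL.congr' ?_⟩
        filter_upwards [eventually_gt_atTop 0] with k hk
        have hk' : (0:ℝ) < k := by exact_mod_cast hk
        rw [stepF_eq hk f x hx]
        have h2 : ∑ i, ((⌊(k:ℝ) * x i⌋₊ : ℕ) : ℝ) ≤ k * ∑ i, x i := by
          rw [Finset.mul_sum]
          exact Finset.sum_le_sum fun i _ => Nat.floor_le (mul_nonneg hk'.le (hx i))
        have h3 : ((∑ i, ⌊(k:ℝ) * x i⌋₊ : ℕ) : ℝ) ≤ k := by
          push_cast
          nlinarith
        exact_mod_cast h3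
      · refine ⟨0, tendsto_const_nhds.congr' ?_⟩
        push Not at hs
        have he : ∀ᶠ k : ℕ in atTop, (n:ℝ) / (∑ i, x i - 1) < k :=
          tendsto_natCast_atTop_atTop.eventually_gt_atTop _
        filter_upwards [eventually_gt_atTop 0, he] with k hk hk2
        rw [stepF_zero hk]
        rintro ⟨-, h⟩
        rw [div_lt_iff₀ (by linarith)] at hk2
        have h2 : ∑ i, ((k:ℝ) * x i - 1) ≤ ∑ i, ((⌊(k:ℝ) * x i⌋₊ : ℕ) : ℝ) :=
          Finset.sum_le_sum fun i _ => by linarith [Nat.lt_floor_add_one ((k:ℝ) * x i)]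
        rw [Finset.sum_sub_distrib, ← Finset.mul_sum] at h2
        have h3 : ((∑ i, ⌊(k:ℝ) * x i⌋₊ : ℕ) : ℝ) ≤ k := by exact_mod_cast h
        push_cast at h3
        simp only [Finset.sum_const, Finset.card_univ, Fintype.card_fin, nsmul_eq_mul,
          mul_one] at h2
        nlinarith
    · refine ⟨0, tendsto_const_nhds.congr' ?_⟩
      filter_upwards [eventually_gt_atTop 0] with k hk
      rw [stepF_zero hk]
      exact fun h => hx h.1
  choose G hG using hlim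
  refine ⟨∫ x, G x, ?_⟩
  have key := tendsto_integral_filter_of_dominated_convergence (μ := volume)
    (l := (atTop : Filter ℕ)) (F := fun k => stepF f k) (f := G)
    ((Set.Icc (0 : Fin n → ℝ) (fun _ => 2)).indicator fun _ => D) ?_ ?_ ?_ (ae_of_all _ hG)
  · refine key.congr' ?_
    filter_upwards [eventually_gt_atTop 0] with k hk
    exact integral_stepF hk f
  · refine Eventually.of_forall fun k => ?_
    exact (integrable_finset_sum _ fun a _ => integrable_ind k _ _).aestronglyMeasurable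
  · filter_upwards [eventually_gt_atTop 0] with k hk
    refine ae_of_all _ fun x => ?_
    have hk' : (0:ℝ) < k := by exact_mod_cast hk
    by_cases h : (∀ i, 0 ≤ x i) ∧ ∑ i, ⌊(k:ℝ) * x i⌋₊ ≤ k
    · rw [stepF_eq hk f x h.1 h.2, Set.indicator_of_mem]
      · rw [Real.norm_eq_abs, abs_div, abs_of_pos hk', div_le_iff₀ hk']
        refine (hD _).trans (mul_le_mul_of_nonneg_left ?_ hD0)
        exact_mod_cast h.2
      · refine ⟨fun i => h.1 i, fun i => ?_⟩
        have h1 : ⌊(k:ℝ) * x i⌋₊ ≤ k := (Finset.single_le_sum (f := fun i => ⌊(k:ℝ) * x i⌋₊)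
          (fun _ _ => Nat.zero_le _) (Finset.mem_univ i)).trans h.2
        have h2 : ((⌊(k:ℝ) * x i⌋₊ : ℕ) : ℝ) ≤ k := by exact_mod_cast h1
        have h3 := Nat.lt_floor_add_one ((k:ℝ) * x i)
        have h4 : (1:ℝ) ≤ k := by exact_mod_cast hk
        by_contra h5
        push Not at h5
        nlinarith
    · rw [stepF_zero hk f x h, norm_zero]
      exact Set.indicator_nonneg (fun _ _ => hD0) x
  · exact (integrableOn_const (isCompact_Icc.measure_lt_top).ne).integrable_indicator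
      measurableSet_Icc

/-- number of monomials -/
noncomputable def NN (n k : ℕ) : ℝ := (Fintype.card (Ix n k) : ℝ)

/-- sum of the degrees of the monomials -/
noncomputable def ll (n k : ℕ) : ℝ := ∑ a : Ix n k, ∑ i, ((a.1 i : ℕ) : ℝ)

instance (n k : ℕ) : Nonempty (Ix n k) := ⟨⟨fun _ => 0, by simp⟩⟩

theorem one_le_NN (n k : ℕ) : 1 ≤ NN n k := by
  unfold NN
  exact_mod_cast Fintype.card_pos

theorem NN_le (n k : ℕ) : NN n k ≤ ((k:ℝ) + 1) ^ n := by
  unfold NN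
  have := Fintype.card_subtype_le (fun α : Fin n → Fin (k+1) => ∑ i, (α i : ℕ) ≤ k)
  simp only [Fintype.card_pi, Fintype.card_fin, Finset.prod_const, Finset.card_univ] at this
  exact_mod_cast this

theorem ll_le (n k : ℕ) : ll n k ≤ k * NN n k := by
  unfold ll NN
  calc ∑ a : Ix n k, ∑ i, ((a.1 i : ℕ) : ℝ) ≤ ∑ _a : Ix n k, (k:ℝ) :=
        Finset.sum_le_sum fun a _ => by exact_mod_cast a.2
    _ = k * (Fintype.card (Ix n k) : ℝ) := by simp [mul_comm]

theorem le_ll {n : ℕ} (hn : 1 ≤ n) (k j : ℕ) (hj : 2 * n * j ≤ k) : (j:ℝ) ^ (n+1) ≤ ll n k := by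
  have hb : ∀ β : Fin n → Fin j, ∑ i, ((β i : ℕ) + j) ≤ k := by
    intro β
    calc ∑ i, ((β i : ℕ) + j) ≤ ∑ _i : Fin n, 2 * j :=
          Finset.sum_le_sum fun i _ => by have := (β i).2; omega
      _ = 2 * n * j := by simp; ring
      _ ≤ k := hj
  let φ : (Fin n → Fin j) → Ix n k := fun β =>
    ⟨fun i => ⟨β i + j, Nat.lt_succ_of_le ((Finset.single_le_sum
      (f := fun i => (β i : ℕ) + j) (fun _ _ => Nat.zero_le _) (Finset.mem_univ i)).trans (hb β))⟩,
      hb β⟩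
  have hφ : Function.Injective φ := by
    intro β γ h
    funext i
    have := congrArg (fun a : Ix n k => (a.1 i : ℕ)) h
    simp only [φ] at this
    exact Fin.ext (by omega)
  unfold ll
  calc (j:ℝ) ^ (n+1) = ∑ _β : Fin n → Fin j, (j:ℝ) := by simp [pow_succ]
    _ ≤ ∑ β : Fin n → Fin j, ∑ i, (((φ β).1 i : ℕ) : ℝ) := by
        refine Finset.sum_le_sum fun β _ => ?_
        refine le_trans ?_ (Finset.single_le_sum (f := fun i => (((φ β).1 i : ℕ) : ℝ))
          (fun _ _ => Nat.cast_nonneg _) (Finset.mem_univ (⟨0, hn⟩ : Fin n)))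
        simp only [φ]
        push_cast
        linarith [(Nat.cast_nonneg (β ⟨0, hn⟩ : ℕ) : (0:ℝ) ≤ _)]
    _ = ∑ a ∈ Finset.univ.map ⟨φ, hφ⟩, ∑ i, ((a.1 i : ℕ) : ℝ) := by
        rw [Finset.sum_map]; rfl
    _ ≤ _ := Finset.sum_le_sum_of_subset_of_nonneg (Finset.subset_univ _)
        fun _ _ _ => Finset.sum_nonneg fun _ _ => Nat.cast_nonneg _

theorem le_ll' {n : ℕ} (hn : 1 ≤ n) :
    ∀ᶠ k : ℕ in atTop, (k:ℝ) ^ (n+1) / (4 * n) ^ (n+1) ≤ ll n k := by
  filter_upwards [eventually_ge_atTop (4 * n)] with k hk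
  have h1 := le_ll hn k (k / (2 * n)) (Nat.mul_div_le _ _)
  refine le_trans ?_ h1
  rw [← div_pow]
  have hn' : (0:ℝ) < n := by exact_mod_cast hn
  apply pow_le_pow_left₀ (by positivity)
  rw [div_le_iff₀ (by positivity)]
  have h2 : k < 2 * n * (k / (2 * n) + 1) := Nat.lt_mul_div_succ k (by omega)
  have h3 : k ≤ k / (2 * n) * (4 * n) := by nlinarith
  exact_mod_cast h3

theorem ll_pos {n : ℕ} (hn : 1 ≤ n) : ∀ᶠ k : ℕ in atTop, 0 < ll n k := by
  filter_upwards [le_ll' hn, eventually_gt_atTop 0] with k hk hk0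
  have hn' : (0:ℝ) < n := by exact_mod_cast hn
  have hk' : (0:ℝ) < k := by exact_mod_cast hk0
  exact lt_of_lt_of_le (by positivity) hk

/-- `k N_k / l_k` is bounded -/
theorem kN_div_le {n : ℕ} (hn : 1 ≤ n) :
    ∀ᶠ k : ℕ in atTop, k * NN n k / ll n k ≤ 2 ^ n * (4 * n) ^ (n+1) := by
  filter_upwards [le_ll' hn, ll_pos hn, eventually_gt_atTop 0] with k hk hl hk0
  have hn' : (0:ℝ) < n := by exact_mod_cast hn
  have hk' : (1:ℝ) ≤ k := by exact_mod_cast hk0
  rw [div_le_iff₀ hl]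
  rw [div_le_iff₀ (by positivity)] at hk
  have h1 : NN n k ≤ (2 * k) ^ n :=
    (NN_le n k).trans (pow_le_pow_left₀ (by positivity) (by linarith) _)
  calc k * NN n k ≤ k * (2 * k) ^ n := by gcongr
    _ = 2 ^ n * (k:ℝ) ^ (n+1) := by ring
    _ ≤ 2 ^ n * (ll n k * (4 * n) ^ (n+1)) := by gcongr
    _ = _ := by ring

/-- the error terms are negligible -/
theorem err_tendsto {n : ℕ} (hn : 1 ≤ n) :
    Tendsto (fun k : ℕ => NN n k * (Real.log (NN n k) + 1) / ll n k) atTop (𝓝 0) := by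
  have h0 : Tendsto (fun k : ℕ => Real.log ((k:ℝ) + 1) / ((k:ℝ) + 1)) atTop (𝓝 0) := by
    have := Real.isLittleO_log_id_atTop.tendsto_div_nhds_zero
    exact this.comp (tendsto_atTop_add_const_right _ 1 tendsto_natCast_atTop_atTop)
  have h1 : Tendsto (fun k : ℕ => (1:ℝ) / (k:ℝ)) atTop (𝓝 0) :=
    tendsto_const_div_atTop_nhds_zero_nat _
  have h2 := ((h0.const_mul (2 * (n:ℝ))).add h1).const_mul ((2:ℝ) ^ n * (4 * (n:ℝ)) ^ (n+1))
  simp only [mul_zero, add_zero] at h2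
  refine squeeze_zero' ?_ ?_ h2
  · filter_upwards [ll_pos hn] with k hl
    have := one_le_NN n k
    have := Real.log_nonneg this
    positivity
  · filter_upwards [kN_div_le hn, ll_pos hn, eventually_gt_atTop 0] with k hk hl hk0
    have hk' : (1:ℝ) ≤ k := by exact_mod_cast hk0
    have hN := one_le_NN n k
    have hlog := Real.log_nonneg hN
    have h3 : Real.log (NN n k) ≤ n * Real.log ((k:ℝ) + 1) := by
      rw [← Real.log_pow]
      exact Real.log_le_log (by linarith) (NN_le n k)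
    have h4 : 0 ≤ Real.log ((k:ℝ) + 1) := Real.log_nonneg (by linarith)
    have h5 : (Real.log (NN n k) + 1) / k ≤
        2 * n * (Real.log ((k:ℝ) + 1) / ((k:ℝ) + 1)) + 1 / k := by
      rw [add_div]
      gcongr
      rw [div_le_iff₀ (by linarith)]
      refine h3.trans ?_
      have h6 : Real.log ((k:ℝ) + 1) ≤ 2 * (Real.log ((k:ℝ) + 1) / ((k:ℝ) + 1)) * k := by
        rw [mul_assoc, div_mul_eq_mul_div, ← mul_div_assoc, le_div_iff₀ (by linarith)]
        nlinarith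
      calc n * Real.log ((k:ℝ) + 1)
          ≤ n * (2 * (Real.log ((k:ℝ) + 1) / ((k:ℝ) + 1)) * k) := by gcongr
        _ = _ := by ring
    calc NN n k * (Real.log (NN n k) + 1) / ll n k
        = (k * NN n k / ll n k) * ((Real.log (NN n k) + 1) / k) := by field_simp
      _ ≤ _ := mul_le_mul hk h5 (by positivity) (by positivity)

/-- the sum of a subadditive function divided by the sum of degrees converges -/
theorem ratio_tendsto {n : ℕ} (hn : 1 ≤ n) (f : (Fin n → ℕ) → ℝ) (D : ℝ) (hD0 : 0 ≤ D)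
    (hD : ∀ α, |f α| ≤ D * ∑ i, (α i : ℝ))
    (hsub : ∀ α β, f (α + β) ≤ f α + f β) :
    ∃ L, Tendsto (fun k : ℕ => (∑ a : Ix n k, f (fun i => (a.1 i : ℕ))) / ll n k)
      atTop (𝓝 L) := by
  obtain ⟨L, hL⟩ := sum_tendsto f D hD0 hD hsub
  obtain ⟨L', hL'⟩ := sum_tendsto (n := n) (fun α => ∑ i, (α i : ℝ)) 1 zero_le_one
    (fun α => by
      rw [one_mul, abs_of_nonneg (Finset.sum_nonneg fun _ _ => Nat.cast_nonneg _)])
    (fun α β => by simp [Finset.sum_add_distrib])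
  have hn' : (0:ℝ) < n := by exact_mod_cast hn
  have hpos : 0 < L' := by
    refine lt_of_lt_of_le (show (0:ℝ) < 1 / (4 * n) ^ (n+1) by positivity) ?_
    refine ge_of_tendsto hL' ?_
    filter_upwards [le_ll' hn, eventually_gt_atTop 0] with k hk hk0
    have hk' : (0:ℝ) < k := by exact_mod_cast hk0
    rw [le_div_iff₀ (by positivity)]
    refine le_trans (le_of_eq ?_) hk
    ring
  refine ⟨L / L', (hL.div hL' hpos.ne').congr' ?_⟩
  filter_upwards [eventually_gt_atTop 0] with k hk0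
  have hk' : (0:ℝ) < k := by exact_mod_cast hk0
  simp only [Pi.div_apply, ll]
  rw [div_div_div_cancel_right₀ (by positivity)]

end Pool.Agent.H53.Zh
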