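import Mathlib

set_option autoImplicit false

namespace Pool.Agent.H53.Zh

open Polynomial

theorem sq_sum_le (p : ℂ[X]) (B : ℝ) (hB : ∀ t : ℂ, ‖t‖ = 1 → ‖p.eval t‖ ≤ B) :
    ∑ i ∈ p.support, ‖p.coeff i‖ ^ 2 ≤ B ^ 2 := by
  rw [p.sum_sq_norm_coeff_eq_circleAverage]
  apply Real.circleAverage_mono_on_of_le_circle
  · exact (Continuous.continuousOn (by fun_prop)).circleIntegrable zero_le_one
  · intro x hx
    have : ‖x‖ = 1 := by simpa using hx
    exact pow_le_pow_left₀ (norm_nonneg _) (hB x this) 2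

theorem mahler_le (p : ℂ[X]) (B : ℝ) (hB : ∀ t : ℂ, ‖t‖ = 1 → ‖p.eval t‖ ≤ B) :
    p.mahlerMeasure ≤ B := by
  have hB0 : 0 ≤ B := (norm_nonneg _).trans (hB 1 (by simp))
  refine p.mahlerMeasure_le_sqrt_sum_sq_norm_coeff.trans ?_
  rw [Real.sqrt_le_left hB0]
  exact sq_sum_le p B hB

theorem coeff_le (p : ℂ[X]) (B : ℝ) (hB : ∀ t : ℂ, ‖t‖ = 1 → ‖p.eval t‖ ≤ B) (i : ℕ) :
    ‖p.coeff i‖ ≤ B := by
  have hB0 : 0 ≤ B := (norm_nonneg _).trans (hB 1 (by simp))
  by_cases hi : i ∈ p.support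
  · have h1 : ‖p.coeff i‖ ^ 2 ≤ B ^ 2 :=
      (Finset.single_le_sum (f := fun i => ‖p.coeff i‖ ^ 2) (fun _ _ => by positivity) hi).trans
        (sq_sum_le p B hB)
    exact (pow_le_pow_iff_left₀ (norm_nonneg _) hB0 two_ne_zero).1 h1
  · rw [notMem_support_iff.1 hi, norm_zero]; exact hB0

theorem eval_le_mahler (q : ℂ[X]) (m : ℕ) (hq : q.natDegree ≤ m) (t : ℂ) :
    ‖q.eval t‖ ≤ (1 + ‖t‖) ^ m * q.mahlerMeasure := by
  have hM := q.mahlerMeasure_nonneg
  rw [eval_eq_sum_range]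
  calc ‖∑ i ∈ Finset.range (q.natDegree + 1), q.coeff i * t ^ i‖
      ≤ ∑ i ∈ Finset.range (q.natDegree + 1),
          ‖t‖ ^ i * 1 ^ (q.natDegree - i) * (q.natDegree.choose i : ℝ) * q.mahlerMeasure := by
        refine (norm_sum_le _ _).trans (Finset.sum_le_sum fun i _ => ?_)
        rw [norm_mul, norm_pow]
        have := norm_coeff_le_choose_mul_mahlerMeasure i q
        have h2 : 0 ≤ ‖t‖ ^ i := by positivity
        rw [one_pow, mul_one]
        nlinarith
    _ = (‖t‖ + 1) ^ q.natDegree * q.mahlerMeasure := by rw [add_pow, Finset.sum_mul]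
    _ ≤ (1 + ‖t‖) ^ m * q.mahlerMeasure := by
        rw [add_comm]
        exact mul_le_mul_of_nonneg_right
          (pow_le_pow_right₀ (by linarith [norm_nonneg t]) hq) hM

theorem two_factor (P Q : ℂ[X]) (m : ℕ) (hQ : Q.natDegree ≤ m) (B : ℝ)
    (hB : ∀ t : ℂ, ‖t‖ = 1 → ‖(P * Q).eval t‖ ≤ B) (t : ℂ) :
    ‖P.eval 0‖ * ‖Q.eval t‖ ≤ (1 + ‖t‖) ^ m * B := by
  have h1 : ‖P.eval 0‖ ≤ P.mahlerMeasure := by
    have := norm_coeff_le_choose_mul_mahlerMeasure 0 P
    rw [coeff_zero_eq_eval_zero] at this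
    simpa using this
  have h2 := eval_le_mahler Q m hQ t
  have h3 := mahler_le _ B hB
  rw [mahlerMeasure_mul] at h3
  have h4 : 0 ≤ (1 + ‖t‖) ^ m := by positivity
  calc ‖P.eval 0‖ * ‖Q.eval t‖ ≤ P.mahlerMeasure * ((1 + ‖t‖) ^ m * Q.mahlerMeasure) :=
        mul_le_mul h1 h2 (norm_nonneg _) P.mahlerMeasure_nonneg
    _ = (1 + ‖t‖) ^ m * (P.mahlerMeasure * Q.mahlerMeasure) := by ring
    _ ≤ _ := mul_le_mul_of_nonneg_left h3 h4

/-- Cauchy estimate in several variables -/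
theorem mv_coeff_le : ∀ (n : ℕ) (p : MvPolynomial (Fin n) ℂ) (B : ℝ),
    (∀ z : Fin n → ℂ, (∀ i, ‖z i‖ = 1) → ‖MvPolynomial.eval z p‖ ≤ B) →
    ∀ α, ‖MvPolynomial.coeff α p‖ ≤ B := by
  intro n
  induction n with
  | zero =>
    intro p B hB α
    have h := hB (fun _ => 1) (fun i => by simp)
    have hα : α = 0 := Subsingleton.elim _ _
    rw [hα]
    rw [MvPolynomial.eq_C_of_isEmpty p] at h
    simpa using h
  | succ n ih =>
    intro p B hB α
    rw [← Finsupp.cons_tail α, ← MvPolynomial.finSuccEquiv_coeff_coeff]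
    apply ih
    intro s hs
    have := coeff_le (Polynomial.map (MvPolynomial.eval s) (MvPolynomial.finSuccEquiv ℂ n p)) B
      (fun t ht => by
        rw [← MvPolynomial.eval_eq_eval_mv_eval']
        apply hB
        intro i
        refine Fin.cases ?_ (fun j => ?_) i
        · simpa using ht
        · simpa using hs j) (α 0)
    rwa [coeff_map] at this

/-- restriction to a complex line -/
noncomputable def onLine {n : ℕ} (a w : Fin n → ℂ) (p : MvPolynomial (Fin n) ℂ) : ℂ[X] :=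
  MvPolynomial.aeval (fun i => C (w i) * X + C (a i)) p

theorem eval_onLine {n : ℕ} (a w : Fin n → ℂ) (p : MvPolynomial (Fin n) ℂ) (t : ℂ) :
    (onLine a w p).eval t = MvPolynomial.eval (a + t • w) p := by
  unfold onLine
  induction p using MvPolynomial.induction_on with
  | C c => simp
  | add p q hp hq => simp only [map_add, eval_add, hp, hq]
  | mul_X p i hp =>
    simp only [map_mul, eval_mul, hp, MvPolynomial.aeval_X, MvPolynomial.eval_X]
    simp
    left; ring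

theorem natDegree_onLine {n : ℕ} (a w : Fin n → ℂ) (p : MvPolynomial (Fin n) ℂ) (m : ℕ)
    (hp : p.totalDegree ≤ m) : (onLine a w p).natDegree ≤ m := by
  have := MvPolynomial.aeval_natDegree_le p hp (fun i => C (w i) * X + C (a i))
    (n := 1) (fun i => natDegree_linear_le)
  simpa [onLine] using this

theorem mv_two_factor {n : ℕ} (p q : MvPolynomial (Fin n) ℂ) (m : ℕ) (hq : q.totalDegree ≤ m)
    (a y : Fin n → ℂ) (ρ R : ℝ) (hρ : 0 < ρ) (hR : 0 < R) (hy : ‖y - a‖ ≤ R) (B : ℝ)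
    (hB : ∀ z ∈ Metric.closedBall a ρ, ‖MvPolynomial.eval z (p * q)‖ ≤ B) :
    ‖MvPolynomial.eval a p‖ * ‖MvPolynomial.eval y q‖ ≤ (1 + R / ρ) ^ m * B := by
  set w : Fin n → ℂ := ((ρ / R : ℝ) : ℂ) • (y - a) with hw
  have h := two_factor (onLine a w p) (onLine a w q) m (natDegree_onLine a w q m hq) B
    (fun t ht => by
      rw [eval_mul, eval_onLine, eval_onLine, ← map_mul]
      apply hB
      rw [Metric.mem_closedBall, dist_eq_norm, add_sub_cancel_left, norm_smul, ht, one_mul, hw,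
        norm_smul, Complex.norm_real, Real.norm_eq_abs, abs_of_pos (by positivity),
        div_mul_eq_mul_div, div_le_iff₀ hR]
      exact mul_le_mul_of_nonneg_left hy hρ.le) ((R / ρ : ℝ) : ℂ)
  rw [eval_onLine, eval_onLine] at h
  have h1 : a + ((R / ρ : ℝ) : ℂ) • w = y := by
    rw [hw, smul_smul, ← Complex.ofReal_mul]
    have : R / ρ * (ρ / R) = 1 := by field_simp
    rw [this]; simp
  rw [h1, Complex.norm_real, Real.norm_eq_abs, abs_of_pos (by positivity)] at h
  simpa using h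

end Pool.Agent.H53.Zh
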