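import Mathlib

set_option autoImplicit false

namespace Pool.Agent.H53.Zh

open Matrix MeasureTheory

section det
variable {ι X : Type*} [Fintype ι] [DecidableEq ι]

theorem norm_det_le_sum (M : Matrix ι ι ℂ) :
    ‖M.det‖ ≤ ∑ σ : Equiv.Perm ι, ∏ a, ‖M a (σ a)‖ := by
  rw [← det_transpose, det_apply']
  refine (norm_sum_le _ _).trans (Finset.sum_le_sum fun σ _ => ?_)
  rw [norm_mul, norm_prod]
  have : ‖((Equiv.Perm.sign σ : ℤ) : ℂ)‖ = 1 := by
    rcases Int.units_eq_one_or (Equiv.Perm.sign σ) with h | h <;> simp [h]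
  rw [this, one_mul]
  rfl

theorem norm_det_le_prod (M : Matrix ι ι ℂ) (t : ι → ℝ) (ht : ∀ a j, ‖M a j‖ ≤ t j) :
    ‖M.det‖ ≤ ((Fintype.card ι).factorial : ℝ) * ∏ j, t j := by
  refine (norm_det_le_sum M).trans ?_
  calc ∑ σ : Equiv.Perm ι, ∏ a, ‖M a (σ a)‖ ≤ ∑ _σ : Equiv.Perm ι, ∏ j, t j := by
        refine Finset.sum_le_sum fun σ _ => ?_
        rw [← Equiv.prod_comp σ t]
        exact Finset.prod_le_prod (fun _ _ => norm_nonneg _) fun a _ => ht a _
    _ = _ := by simp [Fintype.card_perm]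

/-- Lagrange interpolation at extremal points -/
theorem lagrange (K : Set X) (e : ι → X → ℂ) (z : ι → X) (hz : ∀ a, z a ∈ K)
    (hmax : ∀ y : ι → X, (∀ a, y a ∈ K) →
      ‖(of fun a b => e b (y a)).det‖ ≤ ‖(of fun a b => e b (z a)).det‖)
    (hne : (of fun a b => e b (z a)).det ≠ 0) (c : ι → ℂ) (x : X) (hx : x ∈ K) :
    ‖∑ b, c b * e b x‖ ≤ ∑ a, ‖∑ b, c b * e b (z a)‖ := by
  set A : Matrix ι ι ℂ := of fun a b => e b (z a) with hA
  set r : ι → ℂ := fun b => e b x with hr
  have h1 : ∀ a, ‖(Aᵀ.cramer r) a‖ ≤ ‖A.det‖ := by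
    intro a
    rw [cramer_transpose_apply]
    have := hmax (Function.update z a x) (fun b => by
      by_cases h : b = a
      · subst h; simpa using hx
      · simpa [h] using hz b)
    convert this using 3
    ext i j
    by_cases h : i = a
    · subst h; simp [hr]
    · simp [h, hA]
  have h2 : Aᵀ *ᵥ (Aᵀ.cramer r) = A.det • r := by rw [mulVec_cramer, det_transpose]
  have h3 : A.det * ∑ b, c b * e b x = ∑ a, (Aᵀ.cramer r) a * ∑ b, c b * e b (z a) := by
    simp only [Finset.mul_sum]
    rw [Finset.sum_comm]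
    refine Finset.sum_congr rfl fun b _ => ?_
    have := congrFun h2 b
    simp only [mulVec, dotProduct, transpose_apply, hA, of_apply, Pi.smul_apply, smul_eq_mul,
      hr] at this
    simp only [hA, hr]
    calc _ = c b * ((of fun a b => e b (z a)).det * e b x) := by ring
      _ = _ := by
        rw [← this, Finset.mul_sum]
        exact Finset.sum_congr rfl fun a _ => by ring
  have hpos : 0 < ‖A.det‖ := norm_pos_iff.2 hne
  have h4 : ‖A.det‖ * ‖∑ b, c b * e b x‖ ≤ ‖A.det‖ * ∑ a, ‖∑ b, c b * e b (z a)‖ := by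
    rw [← norm_mul, h3, Finset.mul_sum]
    refine (norm_sum_le _ _).trans (Finset.sum_le_sum fun a _ => ?_)
    rw [norm_mul]
    exact mul_le_mul_of_nonneg_right (h1 a) (norm_nonneg _)
  exact le_of_mul_le_mul_left h4 hpos

/-- a unitary matrix with `r` columns in a given subspace -/
theorem unitary_adapted (W : Submodule ℂ (EuclideanSpace ℂ ι)) :
    ∃ (U : Matrix ι ι ℂ) (s : Finset ι), s.card = Module.finrank ℂ W ∧ ‖U.det‖ = 1 ∧
      (∀ a j, ‖U a j‖ ≤ 1) ∧ ∀ j ∈ s, (WithLp.toLp 2 fun a => U a j) ∈ W := by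
  have hle : Module.finrank ℂ W ≤ (Finset.univ : Finset ι).card := by
    have := W.finrank_le
    simpa using this
  obtain ⟨s, -, hs⟩ := Finset.exists_subset_card_eq hle
  let φ : s ≃ Fin (Module.finrank ℂ W) := Finset.equivFinOfCardEq hs
  let b0 := stdOrthonormalBasis ℂ W
  let v : ι → EuclideanSpace ℂ ι := fun j => if h : j ∈ s then (b0 (φ ⟨j, h⟩) : _) else 0
  have hv : Orthonormal ℂ ((s : Set ι).domRestrict v) := by
    have h1 : Orthonormal ℂ (fun j : (s : Set ι) => ((b0 (φ ⟨j.1, j.2⟩) : W) : EuclideanSpace ℂ ι)) := by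
      have h2 := (b0.orthonormal.comp_linearIsometry W.subtypeₗᵢ).comp
        (fun j : (s : Set ι) => φ ⟨j.1, j.2⟩) (fun i j hij => by
          have := φ.injective hij
          exact Subtype.ext (congrArg Subtype.val this))
      exact h2
    convert h1 using 1
    funext j
    have hj : j.1 ∈ s := j.2
    simp [v, Set.domRestrict, hj]
  obtain ⟨b, hb⟩ := hv.exists_orthonormalBasis_extension_of_card_eq (by simp)
  refine ⟨(EuclideanSpace.basisFun ι ℂ).toBasis.toMatrix b, s, hs, ?_, ?_, ?_⟩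
  · have := (EuclideanSpace.basisFun ι ℂ).det_to_matrix_orthonormalBasis b
    rwa [Module.Basis.det_apply] at this
  · intro a j
    have h1 : ‖b j‖ = 1 := b.orthonormal.1 j
    have h2 := PiLp.norm_apply_le (b j) a
    rw [h1] at h2
    simpa [Module.Basis.toMatrix_apply] using h2
  · intro j hj
    have h1 : (WithLp.toLp 2 fun a => (EuclideanSpace.basisFun ι ℂ).toBasis.toMatrix b a j)
        = b j := by
      ext a
      simp [Module.Basis.toMatrix_apply]
    rw [h1, hb j hj]
    simp [v, hj]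

theorem int_det_le [MeasurableSpace X] (ν : Measure X) [SigmaFinite ν] (f : ι → X → ℂ)
    (hf : ∀ j, Integrable (fun x => ‖f j x‖ ^ 2) ν) :
    ∫ y, ‖(of fun a j => f j (y a)).det‖ ^ 2 ∂(Measure.pi fun _ : ι => ν) ≤
      ((Fintype.card ι).factorial : ℝ) ^ 2 * ∏ j, ∫ x, ‖f j x‖ ^ 2 ∂ν := by
  have hint : ∀ σ : Equiv.Perm ι, Integrable (fun y : ι → X => ∏ a, ‖f (σ a) (y a)‖ ^ 2)
      (Measure.pi fun _ : ι => ν) := fun σ =>
    Integrable.fintype_prod (f := fun a x => ‖f (σ a) x‖ ^ 2) fun a => hf (σ a)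
  calc ∫ y, ‖(of fun a j => f j (y a)).det‖ ^ 2 ∂(Measure.pi fun _ : ι => ν)
      ≤ ∫ y, ((Fintype.card ι).factorial : ℝ) * ∑ σ : Equiv.Perm ι, ∏ a, ‖f (σ a) (y a)‖ ^ 2
          ∂(Measure.pi fun _ : ι => ν) := by
        refine integral_mono_of_nonneg (ae_of_all _ fun y => by positivity)
          ((integrable_finset_sum _ fun σ _ => hint σ).const_mul _) (ae_of_all _ fun y => ?_)
        have h1 := norm_det_le_sum (of fun a j => f j (y a))
        have h2 := sq_sum_le_card_mul_sum_sq (s := (Finset.univ : Finset (Equiv.Perm ι)))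
          (f := fun σ => ∏ a, ‖f (σ a) (y a)‖)
        simp only [Finset.card_univ, Fintype.card_perm, ← Finset.prod_pow] at h2
        exact (pow_le_pow_left₀ (norm_nonneg _) h1 2).trans h2
    _ = ((Fintype.card ι).factorial : ℝ) * ∑ _σ : Equiv.Perm ι, ∏ j, ∫ x, ‖f j x‖ ^ 2 ∂ν := by
        rw [integral_const_mul, integral_finset_sum _ fun σ _ => hint σ]
        congr 1
        refine Finset.sum_congr rfl fun σ _ => ?_
        rw [integral_fintype_prod_eq_prod (fun a x => ‖f (σ a) x‖ ^ 2)]
        exact Equiv.prod_comp σ (fun j => ∫ x, ‖f j x‖ ^ 2 ∂ν)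
    _ = _ := by simp [Fintype.card_perm]; ring

/-- iterating a one-variable estimate over all coordinates -/
theorem le_lintegral_pi [MeasurableSpace X] (ν : Measure X) [SigmaFinite ν] (K : Set X)
    (hK : ν Kᶜ = 0) (F : (ι → X) → ENNReal) (hF : Measurable F) (M : ENNReal) (hM : M ≠ ⊤)
    (h : ∀ z : ι → X, (∀ a, z a ∈ K) → ∀ a, F z ≤ M * ∫⁻ y, F (Function.update z a y) ∂ν)
    (z : ι → X) (hz : ∀ a, z a ∈ K) :
    F z ≤ M ^ Fintype.card ι * ∫⁻ y, F y ∂(Measure.pi fun _ : ι => ν) := by
  have key : ∀ s : Finset ι, ∀ z : ι → X, (∀ a, z a ∈ K) →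
      F z ≤ M ^ s.card * (lmarginal (fun _ : ι => ν) s F) z := by
    intro s
    induction s using Finset.induction_on with
    | empty => intro z _; simp
    | insert a s ha ih =>
      intro z hz
      rw [lmarginal_insert F hF ha, Finset.card_insert_of_notMem ha, pow_succ', mul_assoc]
      refine (h z hz a).trans (mul_le_mul_right ?_ _)
      rw [← lintegral_const_mul' _ _ (ENNReal.pow_ne_top hM)]
      refine lintegral_mono_ae ?_
      have hae : ∀ᵐ y ∂ν, y ∈ K := hK
      filter_upwards [hae] with y hy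
      apply ih
      intro b
      by_cases hb : b = a
      · subst hb; simpa using hy
      · simpa [hb] using hz b
  have := key Finset.univ z hz
  rwa [lmarginal_univ, Finset.card_univ] at this

end det

/-- greedy choice of points -/
theorem greedy {X : Type*} (K : Set X) : ∀ (N : ℕ) (e : Fin N → X → ℂ) (T : Fin N → ℝ),
    (∀ i, 0 ≤ T i) →
    (∀ (i : Fin N) (c : Fin N → ℂ), c i = 1 → (∀ j, i < j → c j = 0) →
      ∃ x ∈ K, T i ≤ ‖∑ j, c j * e j x‖) →
    ∃ z : Fin N → X, (∀ a, z a ∈ K) ∧ ∏ i, T i ≤ ‖(of fun a b => e b (z a)).det‖ := by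
  intro N
  induction N with
  | zero => intro e T _ _; exact ⟨Fin.elim0, fun a => a.elim0, by simp⟩
  | succ N ih =>
    intro e T hT h
    obtain ⟨z, hz, hD⟩ := ih (fun j => e j.castSucc) (fun j => T j.castSucc) (fun j => hT _)
      (fun i c hc1 hc0 => by
        obtain ⟨x, hx, hx2⟩ := h i.castSucc (Fin.snoc (α := fun _ => ℂ) c 0) (by simpa using hc1)
          (fun j hj => by
            refine Fin.lastCases (motive := fun j => i.castSucc < j →
              (Fin.snoc (α := fun _ => ℂ) c 0 : Fin (N+1) → ℂ) j = 0) ?_ (fun j hj => ?_) j hj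
            · intro _; simp
            · simpa using hc0 j (by simpa using hj))
        refine ⟨x, hx, ?_⟩
        rw [Fin.sum_univ_castSucc] at hx2
        simpa using hx2)
    set D := (of fun a b => e (Fin.castSucc b) (z a)).det with hDdef
    have hmem : ∀ x ∈ K, ∀ a, (Fin.snoc (α := fun _ => X) z x : Fin (N+1) → X) a ∈ K := by
      intro x hx a
      refine Fin.lastCases ?_ (fun a => ?_) a
      · simpa using hx
      · simpa using hz a
    by_cases hD0 : D = 0
    · obtain ⟨x, hx, -⟩ := h (Fin.last N) (Pi.single (Fin.last N) 1) (by simp)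
        (fun j hj => absurd hj (not_lt.2 (Fin.le_last j)))
      refine ⟨Fin.snoc (α := fun _ => X) z x, hmem x hx, ?_⟩
      rw [Fin.prod_univ_castSucc]
      rw [hD0, norm_zero] at hD
      have h0 : ∏ i : Fin N, T i.castSucc = 0 :=
        le_antisymm hD (Finset.prod_nonneg fun _ _ => hT _)
      rw [h0, zero_mul]
      exact norm_nonneg _
    · let cof : Fin (N+1) → ℂ := fun j => (-1) ^ ((Fin.last N : ℕ) + (j : ℕ)) *
        (of fun a b => e (j.succAbove b) (z a)).det
      have hcof : cof (Fin.last N) = D := by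
        simp only [cof, Fin.succAbove_last, hDdef, Fin.val_last]
        rw [← two_mul, pow_mul]; simp
      obtain ⟨x, hx, hx2⟩ := h (Fin.last N) (fun j => cof j / D) (by rw [hcof]; exact div_self hD0)
        (fun j hj => absurd hj (not_lt.2 (Fin.le_last j)))
      refine ⟨Fin.snoc (α := fun _ => X) z x, hmem x hx, ?_⟩
      have h1 : (of fun a b => e b ((Fin.snoc (α := fun _ => X) z x : Fin (N+1) → X) a)).det
          = D * ∑ j, cof j / D * e j x := by
        rw [det_succ_row _ (Fin.last N), Finset.mul_sum]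
        refine Finset.sum_congr rfl fun j _ => ?_
        have h2 : (of fun a b => e b ((Fin.snoc (α := fun _ => X) z x : Fin (N+1) → X) a)).submatrix
            (Fin.last N).succAbove j.succAbove = of fun a b => e (j.succAbove b) (z a) := by
          ext a b
          simp [Fin.succAbove_last]
        rw [h2]
        simp only [cof, of_apply, Fin.snoc_last]
        field_simp
      rw [h1, norm_mul, Fin.prod_univ_castSucc]
      exact mul_le_mul hD hx2 (hT _) (norm_nonneg _)

end Pool.Agent.H53.Zh
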