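import Pool.Agent.H53.ZhA
import Pool.Agent.H53.ZhB
import Pool.Agent.H53.ZhC

set_option autoImplicit false

namespace Pool.Agent.H53.Zh

open Matrix MvPolynomial Filter Topology MonomialOrder

variable {n k : ℕ}

/-- the monomial function -/
noncomputable def mono (b : Ix n k) (x : Fin n → ℂ) : ℂ := ∏ i, x i ^ ((b.1 i : ℕ))

/-- Vandermonde determinant -/
noncomputable def vdm (n k : ℕ) (z : Ix n k → Fin n → ℂ) : ℂ :=
  (of fun a b : Ix n k => mono b (z a)).det

/-- maximal Vandermonde determinant -/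
noncomputable def VV (n k : ℕ) (K : Set (Fin n → ℂ)) : ℝ :=
  sSup {s : ℝ | ∃ z : Ix n k → (Fin n → ℂ), (∀ a, z a ∈ K) ∧ s = ‖vdm n k z‖}

noncomputable def toF (b : Ix n k) : Fin n →₀ ℕ :=
  Finsupp.equivFunOnFinite.symm fun i => (b.1 i : ℕ)

theorem toF_apply (b : Ix n k) (i : Fin n) : toF b i = b.1 i := rfl

theorem toF_injective : Function.Injective (toF : Ix n k → _) := by
  intro a b h
  apply Subtype.ext
  funext i
  exact Fin.ext (congrArg (fun β : Fin n →₀ ℕ => β i) h)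

theorem degree_toF_le (b : Ix n k) : (toF b).degree ≤ k := by
  rw [Finsupp.degree_eq_sum]; exact b.2

theorem exists_toF (β : Fin n →₀ ℕ) (h : β.degree ≤ k) : ∃ b : Ix n k, toF b = β := by
  rw [Finsupp.degree_eq_sum] at h
  refine ⟨⟨fun i => ⟨β i, Nat.lt_succ_of_le ((Finset.single_le_sum (f := fun i => β i)
    (fun _ _ => Nat.zero_le _) (Finset.mem_univ i)).trans h)⟩, h⟩, ?_⟩
  ext i; rfl

noncomputable def polyOf (c : Ix n k → ℂ) : MvPolynomial (Fin n) ℂ :=
  ∑ b, monomial (toF b) (c b)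

theorem eval_polyOf (c : Ix n k → ℂ) (x : Fin n → ℂ) :
    eval x (polyOf c) = ∑ b, c b * mono b x := by
  unfold polyOf
  rw [map_sum]
  refine Finset.sum_congr rfl fun b _ => ?_
  rw [eval_monomial, Finsupp.prod_fintype _ _ (by simp)]
  rfl

theorem coeff_polyOf (c : Ix n k → ℂ) (b : Ix n k) : coeff (toF b) (polyOf c) = c b := by
  unfold polyOf
  rw [coeff_sum, Finset.sum_eq_single b]
  · simp
  · intro a _ ha
    rw [coeff_monomial, if_neg (fun h => ha (toF_injective h))]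
  · simp

theorem coeff_polyOf_of_ne (c : Ix n k → ℂ) (β : Fin n →₀ ℕ) (h : ∀ b : Ix n k, toF b ≠ β) :
    coeff β (polyOf c) = 0 := by
  unfold polyOf
  rw [coeff_sum]
  exact Finset.sum_eq_zero fun a _ => by rw [coeff_monomial, if_neg (h a)]

theorem totalDegree_polyOf (c : Ix n k → ℂ) : (polyOf c).totalDegree ≤ k := by
  unfold polyOf
  refine totalDegree_finsetSum_le fun b _ => (totalDegree_monomial_le _ _).trans ?_
  exact degree_toF_le b

theorem polyOf_coeff (p : MvPolynomial (Fin n) ℂ) (hp : p.totalDegree ≤ k) :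
    polyOf (fun b : Ix n k => coeff (toF b) p) = p := by
  ext β
  by_cases h : β.degree ≤ k
  · obtain ⟨b, rfl⟩ := exists_toF β h
    rw [coeff_polyOf]
  · rw [coeff_polyOf_of_ne _ _ (fun b hb => h (by rw [← hb]; exact degree_toF_le b))]
    symm
    by_contra h2
    exact h ((le_totalDegree (mem_support_iff.2 h2)).trans hp)

theorem eval_eq_sum (p : MvPolynomial (Fin n) ℂ) (hp : p.totalDegree ≤ k) (x : Fin n → ℂ) :
    eval x p = ∑ b : Ix n k, coeff (toF b) p * mono b x := by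
  rw [← eval_polyOf, polyOf_coeff p hp]

theorem continuous_mono (b : Ix n k) : Continuous (mono b) := by
  unfold mono; fun_prop

theorem continuous_vdm : Continuous (vdm n k) := by
  unfold vdm
  refine Continuous.matrix_det ?_
  refine continuous_matrix fun a b => ?_
  exact (continuous_mono b).comp (continuous_apply a)

theorem exists_fekete (n k : ℕ) {K : Set (Fin n → ℂ)} (hK : IsCompact K) (hne : K.Nonempty) :
    ∃ z : Ix n k → Fin n → ℂ, (∀ a, z a ∈ K) ∧ ‖vdm n k z‖ = VV n k K ∧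
      ∀ y : Ix n k → Fin n → ℂ, (∀ a, y a ∈ K) → ‖vdm n k y‖ ≤ VV n k K := by
  have hc : IsCompact (Set.pi Set.univ fun _ : Ix n k => K) := isCompact_univ_pi fun _ => hK
  obtain ⟨x, hx⟩ := hne
  obtain ⟨z, hz, hmax⟩ := hc.exists_isMaxOn ⟨fun _ => x, fun _ _ => hx⟩
    (continuous_vdm.norm).continuousOn
  have hz' : ∀ a, z a ∈ K := fun a => hz a trivial
  have hg : IsGreatest {s : ℝ | ∃ z : Ix n k → (Fin n → ℂ), (∀ a, z a ∈ K) ∧ s = ‖vdm n k z‖}
      ‖vdm n k z‖ := by
    refine ⟨⟨z, hz', rfl⟩, ?_⟩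
    rintro _ ⟨y, hy, rfl⟩
    exact hmax (fun a _ => hy a)
  have he : VV n k K = ‖vdm n k z‖ := hg.csSup_eq
  exact ⟨z, hz', he.symm, fun y hy => he ▸ hg.2 ⟨y, hy, rfl⟩⟩

/-- local growth bound for polynomials bounded on `K` -/
def LocB (K : Set (Fin n → ℂ)) (a : Fin n → ℂ) (ρ u : ℝ) : Prop :=
  ∀ (k : ℕ) (p : MvPolynomial (Fin n) ℂ) (B : ℝ), p.totalDegree ≤ k →
    (∀ x ∈ K, ‖eval x p‖ ≤ B) → ∀ z ∈ Metric.closedBall a ρ, ‖eval z p‖ ≤ B * Real.exp (u * k)

/-- coefficient bound for polynomials bounded on `K` -/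
def Coer (K : Set (Fin n → ℂ)) (D : ℝ) : Prop :=
  ∀ (k : ℕ) (p : MvPolynomial (Fin n) ℂ) (B : ℝ), p.totalDegree ≤ k →
    (∀ x ∈ K, ‖eval x p‖ ≤ B) → ∀ α, ‖coeff α p‖ ≤ B * Real.exp (D * k)

theorem Coer.nonempty {K : Set (Fin n → ℂ)} {D : ℝ} (h : Coer K D) : K.Nonempty := by
  by_contra hK
  have := h 0 1 0 (by simp) (fun x hx => absurd ⟨x, hx⟩ hK) 0
  simp at this
  linarith

theorem LocB.coer {K : Set (Fin n → ℂ)} {a : Fin n → ℂ} {ρ u : ℝ} (hρ : 0 < ρ)
    (h : LocB K a ρ u) : ∃ D, 0 ≤ D ∧ Coer K D := by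
  have hR : 0 < 1 + ‖a‖ := by positivity
  have h1 : 0 < 1 + (1 + ‖a‖) / ρ := by positivity
  refine ⟨max 0 (u + Real.log (1 + (1 + ‖a‖) / ρ)), le_max_left _ _, ?_⟩
  intro k p B hp hB
  have hB0 : 0 ≤ B := by
    have := (norm_nonneg _).trans (h k p B hp hB a (Metric.mem_closedBall_self hρ.le))
    exact nonneg_of_mul_nonneg_left this (Real.exp_pos _)
  apply mv_coeff_le
  intro y hy
  have hy1 : ‖y‖ ≤ 1 := (pi_norm_le_iff_of_nonneg zero_le_one).2 fun i => (hy i).le
  have := mv_two_factor 1 p k hp a y ρ (1 + ‖a‖) hρ hR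
    ((norm_sub_le _ _).trans (by linarith)) (B * Real.exp (u * k))
    (fun z hz => by rw [one_mul]; exact h k p B hp hB z hz)
  rw [map_one, norm_one, one_mul] at this
  refine this.trans ?_
  rw [← Real.exp_log h1, ← Real.exp_nat_mul, mul_left_comm, ← Real.exp_add, Real.exp_log h1]
  refine mul_le_mul_of_nonneg_left (Real.exp_le_exp.2 ?_) hB0
  have := le_max_right 0 (u + Real.log (1 + (1 + ‖a‖) / ρ))
  nlinarith [(Nat.cast_nonneg k : (0:ℝ) ≤ k)]

/-- admissible bounds for monic polynomials with leading exponent `α` -/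
def SS (K : Set (Fin n → ℂ)) (α : Fin n →₀ ℕ) : Set ℝ :=
  {t | ∃ p : MvPolynomial (Fin n) ℂ, degLex.degree p = α ∧ degLex.Monic p ∧
    ∀ x ∈ K, ‖eval x p‖ ≤ t}

/-- Chebyshev constant -/
noncomputable def TT (K : Set (Fin n → ℂ)) (α : Fin n →₀ ℕ) : ℝ := sInf (SS K α)

theorem SS_lower {K : Set (Fin n → ℂ)} {D : ℝ} (h : Coer K D) (α : Fin n →₀ ℕ) (t : ℝ)
    (ht : t ∈ SS K α) : Real.exp (-(D * α.degree)) ≤ t := by
  obtain ⟨p, hp, hm, hb⟩ := ht
  have hd : p.totalDegree ≤ α.degree := by rw [← hp, degree_degLexDegree]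
  have := h _ p t hd hb α
  rw [← hp, hm.coeff_degree, norm_one, hp] at this
  rw [Real.exp_neg, inv_le_iff_one_le_mul₀ (Real.exp_pos _)]
  exact this

theorem SS_mem {K : Set (Fin n → ℂ)} {R : ℝ} (hR : ∀ x ∈ K, ‖x‖ ≤ R) (α : Fin n →₀ ℕ) :
    R ^ α.degree ∈ SS K α := by
  classical
  refine ⟨monomial α 1, by rw [degree_monomial]; simp, monic_monomial_one, fun x hx => ?_⟩
  rw [eval_monomial, one_mul, Finsupp.prod_fintype _ _ (by simp), norm_prod,
    Finsupp.degree_eq_sum, ← Finset.prod_pow_eq_pow_sum]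
  refine Finset.prod_le_prod (fun _ _ => norm_nonneg _) fun i _ => ?_
  rw [norm_pow]
  exact pow_le_pow_left₀ (norm_nonneg _) ((norm_le_pi_norm x i).trans (hR x hx)) _

theorem SS_mul {K : Set (Fin n → ℂ)} {α β : Fin n →₀ ℕ} {s t : ℝ} (hs : s ∈ SS K α)
    (ht : t ∈ SS K β) : s * t ∈ SS K (α + β) := by
  obtain ⟨p, hp, hm, hb⟩ := hs
  obtain ⟨q, hq, hm', hb'⟩ := ht
  refine ⟨p * q, ?_, hm.mul hm', fun x hx => ?_⟩
  · rw [degree_mul_of_mul_leadingCoeff_ne_zero, hp, hq]
    rw [hm, hm']; simp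
  · rw [map_mul, norm_mul]
    exact mul_le_mul (hb x hx) (hb' x hx) (norm_nonneg _) ((norm_nonneg _).trans (hb x hx))

section T
variable {K : Set (Fin n → ℂ)} {D R : ℝ}

theorem TT_lower (h : Coer K D) (hR : ∀ x ∈ K, ‖x‖ ≤ R) (α : Fin n →₀ ℕ) :
    Real.exp (-(D * α.degree)) ≤ TT K α :=
  le_csInf ⟨_, SS_mem hR α⟩ (SS_lower h α)

theorem TT_pos (h : Coer K D) (hR : ∀ x ∈ K, ‖x‖ ≤ R) (α : Fin n →₀ ℕ) : 0 < TT K α :=
  (Real.exp_pos _).trans_le (TT_lower h hR α)

theorem TT_le (h : Coer K D) (α : Fin n →₀ ℕ) {t : ℝ} (ht : t ∈ SS K α) : TT K α ≤ t :=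
  csInf_le ⟨_, SS_lower h α⟩ ht

theorem TT_add (h : Coer K D) (hR : ∀ x ∈ K, ‖x‖ ≤ R) (α β : Fin n →₀ ℕ) :
    TT K (α + β) ≤ TT K α * TT K β := by
  have hb := TT_pos h hR β
  rw [← div_le_iff₀ hb]
  refine le_csInf ⟨_, SS_mem hR α⟩ fun s hs => ?_
  have hs0 : 0 < s := (Real.exp_pos _).trans_le (SS_lower h α s hs)
  rw [div_le_iff₀ hb, mul_comm, ← div_le_iff₀ hs0]
  refine le_csInf ⟨_, SS_mem hR β⟩ fun t ht => ?_
  rw [div_le_iff₀ hs0, mul_comm]
  exact TT_le h _ (SS_mul hs ht)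

/-- the graded order on multi-indices -/
@[reducible] noncomputable def ixOrder (n k : ℕ) : LinearOrder (Ix n k) :=
  LinearOrder.lift' (fun b => (degLex : MonomialOrder (Fin n)).toSyn (toF b))
    (fun _ _ h => toF_injective ((degLex : MonomialOrder (Fin n)).toSyn.injective h))

theorem VV_le (hK : IsCompact K) (h : Coer K D) (hR : ∀ x ∈ K, ‖x‖ ≤ R) (k : ℕ) :
    VV n k K ≤ ((Fintype.card (Ix n k)).factorial : ℝ) * ∏ a : Ix n k, (2 * TT K (toF a)) := by
  obtain ⟨z, hz, he, -⟩ := exists_fekete n k hK h.nonempty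
  have hex : ∀ a : Ix n k, ∃ t ∈ SS K (toF a), t < 2 * TT K (toF a) := fun a =>
    exists_lt_of_csInf_lt ⟨_, SS_mem hR _⟩ (by have := TT_pos h hR (toF a); unfold TT at *; linarith)
  choose t ht htlt using hex
  choose p hp hm hb using ht
  have hdeg : ∀ a, (p a).totalDegree ≤ k := fun a => by
    rw [← degree_degLexDegree, hp a]; exact degree_toF_le a
  let Cm : Matrix (Ix n k) (Ix n k) ℂ := of fun b a => coeff (toF b) (p a)
  have hdet : Cm.det = 1 := by
    letI := ixOrder n k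
    rw [det_of_isUpperTriangular]
    · refine Finset.prod_eq_one fun a _ => ?_
      have := (hm a).coeff_degree
      rw [hp a] at this
      exact this
    · intro b a hab
      apply coeff_eq_zero_of_lt (m := degLex)
      rw [hp a]
      exact hab
  have hprod : (of fun i b : Ix n k => mono b (z i)) * Cm = of fun i a => eval (z i) (p a) := by
    ext i a
    rw [mul_apply, of_apply, eval_eq_sum _ (hdeg a)]
    exact Finset.sum_congr rfl fun b _ => by simp [Cm, mul_comm]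
  have : vdm n k z = (of fun i a => eval (z i) (p a)).det := by
    rw [← hprod, det_mul, hdet, mul_one]; rfl
  rw [← he, this]
  exact norm_det_le_prod _ _ fun i a => (hb a _ (hz i)).trans (htlt a).le

theorem exists_mono_equiv (ι : Type*) [Fintype ι] [LinearOrder ι] :
    ∃ φ : Fin (Fintype.card ι) ≃ ι, ∀ i j, i ≤ j → φ i ≤ φ j :=
  ⟨(monoEquivOfFin ι rfl).toEquiv, fun _ _ h => (monoEquivOfFin ι rfl).monotone h⟩

theorem le_VV (hK : IsCompact K) (h : Coer K D) (hR : ∀ x ∈ K, ‖x‖ ≤ R) (k : ℕ) :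
    ∏ a : Ix n k, TT K (toF a) ≤ VV n k K := by
  obtain ⟨-, -, -, hmax⟩ := exists_fekete n k hK h.nonempty
  obtain ⟨φ, hφ⟩ := @exists_mono_equiv (Ix n k) _ (ixOrder n k)
  obtain ⟨z, hz, hle⟩ := greedy K _ (fun j => mono (φ j)) (fun j => TT K (toF (φ j)))
    (fun j => (TT_pos h hR _).le) (fun i c hc1 hc0 => by
      let q := polyOf (fun b => c (φ.symm b))
      obtain ⟨x, hx, hxm⟩ := hK.exists_isMaxOn h.nonempty
        ((MvPolynomial.continuous_eval q).norm).continuousOn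
      have hc : coeff (toF (φ i)) q = 1 := by simp [q, coeff_polyOf, hc1]
      have hd : degLex.degree q = toF (φ i) := by
        apply (degLex : MonomialOrder (Fin n)).toSyn.injective
        apply le_antisymm
        · rw [degree_le_iff]
          intro β hβ
          rw [mem_support_iff] at hβ
          by_cases hb : ∃ b : Ix n k, toF b = β
          · obtain ⟨b, rfl⟩ := hb
            rw [coeff_polyOf] at hβ
            have h1 : φ.symm b ≤ i := not_lt.1 fun hlt => hβ (hc0 _ hlt)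
            have h2 := hφ _ _ h1
            rw [Equiv.apply_symm_apply] at h2
            exact h2
          · exact absurd (coeff_polyOf_of_ne _ _ (fun b hb' => hb ⟨b, hb'⟩)) hβ
        · exact le_degree (mem_support_iff.2 (by rw [hc]; exact one_ne_zero))
      refine ⟨x, hx, (TT_le h _ (t := ‖eval x q‖) ⟨q, hd, ?_, fun y hy => hxm hy⟩).trans
        (le_of_eq ?_)⟩
      · rw [MonomialOrder.Monic, MonomialOrder.leadingCoeff, hd, hc]
      · rw [eval_polyOf, ← Equiv.sum_comp φ]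
        simp)
  have h1 : ∏ a : Ix n k, TT K (toF a) = ∏ j, TT K (toF (φ j)) :=
    (Equiv.prod_comp φ (fun a => TT K (toF a))).symm
  rw [h1]
  refine hle.trans (le_trans (le_of_eq ?_) (hmax (fun a => z (φ.symm a)) fun a => hz _))
  unfold vdm
  rw [← det_submatrix_equiv_self φ]
  congr 2
  ext a b
  simp

theorem VV_pos (hK : IsCompact K) (h : Coer K D) (k : ℕ) : 0 < VV n k K := by
  obtain ⟨R, hR⟩ := hK.isBounded.exists_norm_le
  exact (Finset.prod_pos fun a _ => TT_pos h hR _).trans_le (le_VV hK h hR k)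

theorem log_factorial_le (N : ℕ) : Real.log (N.factorial : ℝ) ≤ N * Real.log N := by
  rw [← Real.log_pow]
  refine Real.log_le_log (by exact_mod_cast N.factorial_pos) ?_
  exact_mod_cast Nat.factorial_le_pow N

/-- existence of the transfinite diameter -/
theorem logVV_tendsto (hn : 1 ≤ n) (hK : IsCompact K) (hD : 0 ≤ D) (h : Coer K D) :
    ∃ L, Tendsto (fun k : ℕ => Real.log (VV n k K) / ll n k) atTop (𝓝 L) := by
  obtain ⟨R0, hR0⟩ := hK.isBounded.exists_norm_le
  have hR : ∀ x ∈ K, ‖x‖ ≤ max 1 R0 := fun x hx => (hR0 x hx).trans (le_max_right _ _)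
  have hR1 : 1 ≤ max 1 R0 := le_max_left _ _
  set R := max 1 R0
  have hdeg : ∀ α : Fin n → ℕ, (((Finsupp.equivFunOnFinite.symm α).degree : ℕ) : ℝ)
      = ∑ i, (α i : ℝ) := fun α => by
    rw [Finsupp.degree_eq_sum]; push_cast; rfl
  obtain ⟨L, hL⟩ := ratio_tendsto hn (fun α => Real.log (TT K (Finsupp.equivFunOnFinite.symm α)))
    (max D (Real.log R)) (hD.trans (le_max_left _ _))
    (fun α => by
      have hs : 0 ≤ ∑ i, (α i : ℝ) := Finset.sum_nonneg fun _ _ => Nat.cast_nonneg _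
      have hp := TT_pos h hR (Finsupp.equivFunOnFinite.symm α)
      rw [abs_le]
      constructor
      · rw [Real.le_log_iff_exp_le hp]
        refine le_trans (Real.exp_le_exp.2 ?_) (TT_lower h hR _)
        rw [hdeg]
        exact neg_le_neg (mul_le_mul_of_nonneg_right (le_max_left _ _) hs)
      · refine (Real.log_le_log hp (TT_le h _ (SS_mem hR _))).trans ?_
        rw [Real.log_pow, hdeg, mul_comm]
        exact mul_le_mul_of_nonneg_right (le_max_right _ _) hs)
    (fun α β => by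
      rw [← Real.log_mul (TT_pos h hR _).ne' (TT_pos h hR _).ne']
      refine Real.log_le_log (TT_pos h hR _) (le_trans (le_of_eq ?_) (TT_add h hR _ _))
      congr 1
      ext i; simp)
  refine ⟨L, tendsto_of_tendsto_of_tendsto_of_le_of_le' hL
    (by simpa using hL.add (err_tendsto hn)) ?_ ?_⟩
  · filter_upwards [ll_pos hn] with k hk
    refine div_le_div_of_nonneg_right ?_ hk.le
    rw [← Real.log_prod (fun a _ => (TT_pos h hR _).ne')]
    exact Real.log_le_log (Finset.prod_pos fun a _ => TT_pos h hR _) (le_VV hK h hR k)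
  · filter_upwards [ll_pos hn] with k hk
    rw [← add_div]
    refine div_le_div_of_nonneg_right ?_ hk.le
    refine (Real.log_le_log (VV_pos hK h k) (VV_le hK h hR k)).trans ?_
    have hp : ∀ a : Ix n k, 0 < TT K (toF a) := fun a => TT_pos h hR _
    rw [Real.log_mul (by exact_mod_cast (Nat.factorial_pos _).ne')
      (Finset.prod_pos fun a _ => by have := hp a; positivity).ne',
      Real.log_prod (fun a _ => by have := hp a; positivity)]
    have h1 := log_factorial_le (Fintype.card (Ix n k))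
    have h2 : ∑ a : Ix n k, Real.log (2 * TT K (toF a)) ≤
        ∑ a : Ix n k, (Real.log (TT K (toF a)) + 1) := Finset.sum_le_sum fun a _ => by
      rw [Real.log_mul two_ne_zero (hp a).ne']
      have := Real.log_two_lt_d9
      linarith
    rw [Finset.sum_add_distrib] at h2
    simp only [Finset.sum_const, Finset.card_univ, nsmul_eq_mul, mul_one] at h2
    unfold NN
    have h3 : ∑ a : Ix n k, Real.log (TT K (toF a)) = ∑ a : Ix n k,
        Real.log (TT K (Finsupp.equivFunOnFinite.symm fun i => (a.1 i : ℕ))) := rfl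
    linarith

end T

end Pool.Agent.H53.Zh
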