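import Pool.Agent.H53.ZhD

set_option autoImplicit false

namespace Pool.Agent.H53.Zh

open Matrix MvPolynomial Filter Topology MeasureTheory

variable {n : ℕ} {K : Set (Fin n → ℂ)} {D : ℝ}

/-- the integral of the squared Vandermonde determinant -/
noncomputable def ZZ (n k : ℕ) (ν : Measure (Fin n → ℂ)) : ℝ :=
  ∫ z, ‖vdm n k z‖ ^ 2 ∂(Measure.pi fun _ : Ix n k => ν)

theorem ZZ_nonneg (k : ℕ) (ν : Measure (Fin n → ℂ)) : 0 ≤ ZZ n k ν :=
  integral_nonneg fun _ => by positivity

theorem integrable_of_cont {X : Type*} [TopologicalSpace X] [T2Space X] [MeasurableSpace X]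
    [OpensMeasurableSpace X] {S : Set X} (hS : IsCompact S) (ν : Measure X) [IsFiniteMeasure ν]
    (hν : ∀ᵐ x ∂ν, x ∈ S) {g : X → ℝ} (hg : Continuous g) : Integrable g ν := by
  have := hg.continuousOn.integrableOn_compact (μ := ν) hS
  rwa [IntegrableOn, Measure.restrict_eq_self_of_ae_mem hν] at this

theorem integrable_poly (hK : IsCompact K) (ν : Measure (Fin n → ℂ)) [IsFiniteMeasure ν]
    (hν : ν Kᶜ = 0) (p : MvPolynomial (Fin n) ℂ) : Integrable (fun y => ‖eval y p‖ ^ 2) ν :=
  integrable_of_cont hK ν hν (((MvPolynomial.continuous_eval p).norm).pow 2)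

theorem integrable_vdm (hK : IsCompact K) (ν : Measure (Fin n → ℂ)) [IsFiniteMeasure ν]
    (hν : ν Kᶜ = 0) (k : ℕ) :
    Integrable (fun z => ‖vdm n k z‖ ^ 2) (Measure.pi fun _ : Ix n k => ν) := by
  refine integrable_of_cont (isCompact_univ_pi fun _ : Ix n k => hK) _ ?_
    ((continuous_vdm.norm).pow 2)
  have h : ∀ a : Ix n k, ∀ᵐ z ∂(Measure.pi fun _ : Ix n k => ν), z a ∈ K := fun a =>
    (Measure.tendsto_eval_ae_ae (μ := fun _ : Ix n k => ν) (i := a)).eventually
      (show ∀ᵐ x ∂ν, x ∈ K from hν)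
  filter_upwards [ae_all_iff.2 h] with z hz a _ using hz a

theorem int_le_of_bound (ν : Measure (Fin n → ℂ)) [IsFiniteMeasure ν]
    (hν : ν Kᶜ = 0) (g : (Fin n → ℂ) → ℂ) (B : ℝ) (hB : ∀ x ∈ K, ‖g x‖ ≤ B) :
    ∫ x, ‖g x‖ ^ 2 ∂ν ≤ ν.real Set.univ * B ^ 2 := by
  have := integral_mono_of_nonneg (μ := ν) (f := fun x => ‖g x‖ ^ 2) (g := fun _ => B ^ 2)
    (ae_of_all _ fun _ => by positivity) (integrable_const _) (by
      filter_upwards [show ∀ᵐ x ∂ν, x ∈ K from hν] with x hx
      exact pow_le_pow_left₀ (norm_nonneg _) (hB x hx) 2)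
  simpa using this

/-- lower bound from a sup norm versus `L²` norm comparison -/
theorem VV_sq_le (hK : IsCompact K) (hne : K.Nonempty) (ν : Measure (Fin n → ℂ))
    [IsFiniteMeasure ν] (hν : ν Kᶜ = 0) (k : ℕ) (M : ℝ) (hM : 0 ≤ M)
    (h : ∀ p : MvPolynomial (Fin n) ℂ, p.totalDegree ≤ k → ∀ x ∈ K,
      ‖eval x p‖ ^ 2 ≤ M * ∫ y, ‖eval y p‖ ^ 2 ∂ν) :
    VV n k K ^ 2 ≤ M ^ Fintype.card (Ix n k) * ZZ n k ν := by
  obtain ⟨z0, hz0, he, -⟩ := exists_fekete n k hK hne
  have key := le_lintegral_pi ν K hν (fun z : Ix n k → Fin n → ℂ => ENNReal.ofReal (‖vdm n k z‖ ^ 2))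
    (((continuous_vdm.norm).pow 2).measurable.ennreal_ofReal) (ENNReal.ofReal M)
    ENNReal.ofReal_ne_top (fun z hz a => by
      let A : Matrix (Ix n k) (Ix n k) ℂ := of fun a b => mono b (z a)
      let p := polyOf fun b : Ix n k => Aᵀ.cramer (fun j => if b = j then 1 else 0) a
      have hp : ∀ y, vdm n k (Function.update z a y) = eval y p := by
        intro y
        rw [eval_polyOf]
        have h1 : vdm n k (Function.update z a y) = Aᵀ.cramer (fun b => mono b y) a := by
          rw [cramer_transpose_apply]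
          unfold vdm
          congr 1
          ext i j
          by_cases hi : i = a
          · subst hi; simp
          · simp [hi, A]
        rw [h1, LinearMap.pi_apply_eq_sum_univ, Finset.sum_apply]
        exact Finset.sum_congr rfl fun b _ => by simp [mul_comm]
      have h2 := h p (totalDegree_polyOf _) (z a) (hz a)
      rw [← hp, Function.update_eq_self] at h2
      simp only [hp]
      rw [← ofReal_integral_eq_lintegral_ofReal (integrable_poly hK ν hν p)
        (ae_of_all _ fun _ => by positivity), ← ENNReal.ofReal_mul hM]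
      exact ENNReal.ofReal_le_ofReal h2) z0 hz0
  rw [← ofReal_integral_eq_lintegral_ofReal (integrable_vdm hK ν hν k)
    (ae_of_all _ fun _ => by positivity), ← ENNReal.ofReal_pow hM,
    ← ENNReal.ofReal_mul (pow_nonneg hM _), he] at key
  exact (ENNReal.ofReal_le_ofReal_iff (mul_nonneg (pow_nonneg hM _) (ZZ_nonneg k ν))).1 key

/-- upper bound using a subspace on which the `L²` norm is small -/
theorem ZZ_le_sub (hK : IsCompact K) (h : Coer K D) (ν : Measure (Fin n → ℂ))
    [IsFiniteMeasure ν] (hν : ν Kᶜ = 0) (k : ℕ) {κ : Type} [Fintype κ]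
    (Φ : (κ → ℂ) →ₗ[ℂ] MvPolynomial (Fin n) ℂ) (hinj : Function.Injective Φ)
    (hdeg : ∀ c, (Φ c).totalDegree ≤ k) (θ : ℝ)
    (hsm : ∀ c B, (∀ x ∈ K, ‖eval x (Φ c)‖ ≤ B) → ∫ y, ‖eval y (Φ c)‖ ^ 2 ∂ν ≤ θ ^ 2 * B ^ 2) :
    ZZ n k ν ≤ VV n k K ^ 2 * (((Fintype.card (Ix n k)).factorial : ℝ) ^ 2 *
      ((max 1 (ν.real Set.univ) * NN n k ^ 2) ^ Fintype.card (Ix n k) *
        (θ ^ 2) ^ Fintype.card κ)) := by
  obtain ⟨z, hz, he, hmax⟩ := exists_fekete n k hK h.nonempty
  have hV := VV_pos hK h k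
  set A : Matrix (Ix n k) (Ix n k) ℂ := of fun a b => mono b (z a) with hA
  have hdA : A.det = vdm n k z := rfl
  have hne : A.det ≠ 0 := by
    rw [hdA, ← norm_pos_iff, he]; exact hV
  have hlag := lagrange K (fun b : Ix n k => mono b) z hz (fun y hy => by
    have := hmax y hy
    rw [← he] at this
    exact this) hne
  let Ψ : (κ → ℂ) →ₗ[ℂ] EuclideanSpace ℂ (Ix n k) :=
    { toFun := fun c => WithLp.toLp 2 fun a => eval (z a) (Φ c)
      map_add' := fun c d => by ext a; simp
      map_smul' := fun t c => by ext a; simp }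
  have hΨ : Function.Injective Ψ := by
    rw [injective_iff_map_eq_zero]
    intro c hc
    apply hinj
    rw [map_zero]
    have h0 : ∀ a, eval (z a) (Φ c) = 0 := fun a => by
      have := congrArg (fun v : EuclideanSpace ℂ (Ix n k) => v a) hc
      simpa [Ψ] using this
    have h1 := h k (Φ c) 0 (hdeg c) (fun x hx => by
      rw [eval_eq_sum _ (hdeg c)]
      refine (hlag _ x hx).trans (le_of_eq (Finset.sum_eq_zero fun a _ => ?_))
      rw [← eval_eq_sum _ (hdeg c), h0, norm_zero])
    ext α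
    have := h1 α
    rw [zero_mul] at this
    simpa using this
  obtain ⟨U, s, hs, hU1, hU2, hUs⟩ := unitary_adapted (LinearMap.range Ψ)
  rw [LinearMap.finrank_range_of_inj hΨ, Module.finrank_fintype_fun_eq_card] at hs
  have hAu : IsUnit A.det := isUnit_iff_ne_zero.2 hne
  set Cm := A⁻¹ * U with hCm
  have hAC : A * Cm = U := by rw [hCm, ← Matrix.mul_assoc, mul_nonsing_inv _ hAu, Matrix.one_mul]
  let f : Ix n k → (Fin n → ℂ) → ℂ := fun j x => ∑ b, Cm b j * mono b x
  have hfz : ∀ j a, f j (z a) = U a j := fun j a => by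
    rw [← hAC, mul_apply]
    exact Finset.sum_congr rfl fun b _ => by simp [hA, mul_comm]
  have hfK : ∀ j, ∀ x ∈ K, ‖f j x‖ ≤ NN n k := fun j x hx => by
    refine (hlag _ x hx).trans ?_
    calc ∑ a, ‖∑ b, Cm b j * mono b (z a)‖ ≤ ∑ _a : Ix n k, (1:ℝ) :=
          Finset.sum_le_sum fun a _ => by
            have := hU2 a j
            rwa [← hfz] at this
      _ = NN n k := by simp [NN]
  have hfp : ∀ j x, f j x = eval x (polyOf fun b => Cm b j) := fun j x => (eval_polyOf _ _).symm
  set m := max 1 (ν.real Set.univ) with hm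
  have hm1 : 1 ≤ m := le_max_left _ _
  have hN := one_le_NN n k
  have hI : ∀ j, ∫ x, ‖f j x‖ ^ 2 ∂ν ≤ (m * NN n k ^ 2) * (if j ∈ s then θ ^ 2 else 1) := by
    intro j
    split_ifs with hj
    · obtain ⟨c, hc⟩ := hUs j hj
      have h0 : ∀ a, eval (z a) (Φ c) = U a j := fun a => by
        have := congrArg (fun v : EuclideanSpace ℂ (Ix n k) => v a) hc
        simpa [Ψ] using this
      have h1 : (fun b : Ix n k => coeff (toF b) (Φ c)) = fun b => Cm b j := by
        have h2 : A *ᵥ (fun b : Ix n k => coeff (toF b) (Φ c)) = A *ᵥ fun b => Cm b j := by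
          funext a
          have h3 := hfz j a
          rw [← h0, eval_eq_sum _ (hdeg c)] at h3
          simp only [mulVec, dotProduct, hA, of_apply, mul_comm (mono _ _)]
          exact h3.symm
        have h4 := congrArg (fun v => A⁻¹ *ᵥ v) h2
        simpa only [mulVec_mulVec, nonsing_inv_mul _ hAu, one_mulVec] using h4
      have h5 : ∀ x, f j x = eval x (Φ c) := fun x => by
        rw [hfp, ← h1, polyOf_coeff _ (hdeg c)]
      simp only [h5]
      refine (hsm c (NN n k) fun x hx => by rw [← h5]; exact hfK j x hx).trans ?_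
      have : 0 ≤ θ ^ 2 * NN n k ^ 2 := by positivity
      nlinarith
    · refine (int_le_of_bound ν hν _ _ (hfK j)).trans ?_
      rw [mul_one]
      exact mul_le_mul_of_nonneg_right (le_max_right _ _) (by positivity)
  have hvd : ∀ y : Ix n k → Fin n → ℂ,
      ‖vdm n k y‖ ^ 2 = VV n k K ^ 2 * ‖(of fun a j => f j (y a)).det‖ ^ 2 := by
    intro y
    have h1 : (of fun a j => f j (y a)) = (of fun a b : Ix n k => mono b (y a)) * Cm := by
      ext a j
      rw [mul_apply]
      exact Finset.sum_congr rfl fun b _ => by simp [mul_comm]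
    have h2 : ‖A.det‖ * ‖Cm.det‖ = 1 := by rw [← norm_mul, ← det_mul, hAC, hU1]
    rw [h1, det_mul, norm_mul, ← mul_pow, ← he, ← hdA, mul_left_comm, h2, mul_one]
    rfl
  unfold ZZ
  simp only [hvd]
  rw [integral_const_mul]
  refine mul_le_mul_of_nonneg_left ?_ (by positivity)
  refine (int_det_le ν f fun j => by
    simp only [hfp]; exact integrable_poly hK ν hν _).trans ?_
  refine mul_le_mul_of_nonneg_left ?_ (by positivity)
  refine (Finset.prod_le_prod (fun j _ => integral_nonneg fun _ => by positivity)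
    fun j _ => hI j).trans (le_of_eq ?_)
  rw [Finset.prod_mul_distrib, Finset.prod_ite_mem, Finset.univ_inter]
  simp [hs]

/-- logarithmic form -/
theorem logZZ_le (hK : IsCompact K) (h : Coer K D) (ν : Measure (Fin n → ℂ))
    [IsFiniteMeasure ν] (hν : ν Kᶜ = 0) (k : ℕ) {κ : Type} [Fintype κ]
    (Φ : (κ → ℂ) →ₗ[ℂ] MvPolynomial (Fin n) ℂ) (hinj : Function.Injective Φ)
    (hdeg : ∀ c, (Φ c).totalDegree ≤ k) (τ : ℝ)
    (hsm : ∀ c B, (∀ x ∈ K, ‖eval x (Φ c)‖ ≤ B) →
      ∫ y, ‖eval y (Φ c)‖ ^ 2 ∂ν ≤ Real.exp (-τ) ^ 2 * B ^ 2)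
    (hZ : 0 < ZZ n k ν) (hl : 0 < ll n k) :
    Real.log (ZZ n k ν) / (2 * ll n k) ≤ Real.log (VV n k K) / ll n k +
      (2 + Real.log (max 1 (ν.real Set.univ))) * (NN n k * (Real.log (NN n k) + 1) / ll n k)
      - τ * Fintype.card κ / ll n k := by
  have h1 := Real.log_le_log hZ (ZZ_le_sub hK h ν hν k Φ hinj hdeg _ hsm)
  have hV := VV_pos hK h k
  set m := max 1 (ν.real Set.univ) with hm
  have hm1 : 1 ≤ m := le_max_left _ _
  have hN := one_le_NN n k
  have hf : (0:ℝ) < (Fintype.card (Ix n k)).factorial := by exact_mod_cast Nat.factorial_pos _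
  rw [Real.log_mul (by positivity) (by positivity), Real.log_mul (by positivity) (by positivity),
    Real.log_mul (by positivity) (by positivity), Real.log_pow, Real.log_pow, Real.log_pow,
    Real.log_pow, Real.log_pow, Real.log_exp, Real.log_mul (by positivity) (by positivity),
    Real.log_pow] at h1
  have h2 := log_factorial_le (Fintype.card (Ix n k))
  have h3 := Real.log_nonneg hm1
  have h4 := Real.log_nonneg hN
  have h5 : ((Fintype.card (Ix n k) : ℕ) : ℝ) = NN n k := rfl
  rw [h5] at h1 h2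
  rw [← mul_div_assoc, ← add_div, ← sub_div, div_le_div_iff₀ (by positivity) hl, mul_comm 2,
    ← mul_assoc, mul_right_comm]
  refine mul_le_mul_of_nonneg_right ?_ hl.le
  push_cast at h1
  have h6 : 0 ≤ NN n k * Real.log m := by positivity
  have h7 : 0 ≤ NN n k * Real.log m * Real.log (NN n k) := by positivity
  nlinarith

end Pool.Agent.H53.Zh
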