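import Pool.Agent.H53.ZhE

set_option autoImplicit false

namespace Pool.Agent.H53.Zh

open Matrix MvPolynomial Filter Topology MeasureTheory

variable {n : ℕ} {K : Set (Fin n → ℂ)} {D : ℝ}

/-- Bernstein-Markov property -/
def BM (K : Set (Fin n → ℂ)) (ν : Measure (Fin n → ℂ)) : Prop :=
  ∀ ε : ℝ, 0 < ε → ∃ C : ℝ, ∀ (k : ℕ) (p : MvPolynomial (Fin n) ℂ), p.totalDegree ≤ k →
    ∀ x ∈ K, ‖eval x p‖ ^ 2 ≤ C * (1 + ε) ^ (2 * k) * ∫ y, ‖eval y p‖ ^ 2 ∂ν

theorem BM.bound (hK : IsCompact K) (hne : K.Nonempty) {ν : Measure (Fin n → ℂ)}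
    [IsFiniteMeasure ν] (hν : ν Kᶜ = 0) (hB : BM K ν) (ε : ℝ) (hε : 0 < ε) :
    ∃ c : ℝ, 1 ≤ c ∧ ∀ k, VV n k K ^ 2 ≤ (c * (1 + ε) ^ (2 * k)) ^ Fintype.card (Ix n k) *
      ZZ n k ν := by
  obtain ⟨C0, hC⟩ := hB ε hε
  refine ⟨max 1 C0, le_max_left _ _, fun k => VV_sq_le hK hne ν hν k _ (by positivity) ?_⟩
  intro p hp x hx
  refine (hC k p hp x hx).trans (mul_le_mul_of_nonneg_right ?_ (integral_nonneg fun _ => by
    positivity))
  exact mul_le_mul_of_nonneg_right (le_max_right _ _) (by positivity)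

theorem BM.ZZ_pos (hK : IsCompact K) (h : Coer K D) {ν : Measure (Fin n → ℂ)}
    [IsFiniteMeasure ν] (hν : ν Kᶜ = 0) (hB : BM K ν) (k : ℕ) : 0 < ZZ n k ν := by
  obtain ⟨c, hc, hk⟩ := hB.bound hK h.nonempty hν 1 one_pos
  have h1 := (pow_pos (VV_pos hK h k) 2).trans_le (hk k)
  exact (pos_iff_pos_of_mul_pos h1).1 (by positivity)

theorem logZZ_le' (hK : IsCompact K) (h : Coer K D) (ν : Measure (Fin n → ℂ))
    [IsFiniteMeasure ν] (hν : ν Kᶜ = 0) (k : ℕ) (hZ : 0 < ZZ n k ν) (hl : 0 < ll n k) :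
    Real.log (ZZ n k ν) / (2 * ll n k) ≤ Real.log (VV n k K) / ll n k +
      (2 + Real.log (max 1 (ν.real Set.univ))) * (NN n k * (Real.log (NN n k) + 1) / ll n k) := by
  have := logZZ_le hK h ν hν k (κ := Fin 0) 0 (fun a b _ => Subsingleton.elim a b)
    (fun c => by simp) 0 (fun c B _ => by simp; positivity) hZ hl
  simpa using this

theorem BM.tendsto (hn : 1 ≤ n) (hK : IsCompact K) (h : Coer K D) {ν : Measure (Fin n → ℂ)}
    [IsFiniteMeasure ν] (hν : ν Kᶜ = 0) (hB : BM K ν) {L : ℝ}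
    (hL : Tendsto (fun k : ℕ => Real.log (VV n k K) / ll n k) atTop (𝓝 L)) :
    Tendsto (fun k : ℕ => Real.log (ZZ n k ν) / (2 * ll n k)) atTop (𝓝 L) := by
  rw [tendsto_order]
  constructor
  · intro a ha
    have hn' : (0:ℝ) < n := by exact_mod_cast hn
    set Cn : ℝ := 2 ^ n * (4 * n) ^ (n+1) with hCn
    have hCn0 : 0 < Cn := by positivity
    set ε := (L - a) / 2 / Cn with hε
    have hε0 : 0 < ε := by have : 0 < L - a := by linarith
                           positivity
    obtain ⟨c, hc, hk⟩ := hB.bound hK h.nonempty hν ε hε0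
    have h1 := hL.sub ((err_tendsto hn).const_mul (Real.log c))
    rw [mul_zero, sub_zero] at h1
    have h2 := h1.eventually (lt_mem_nhds (show a + (L - a) / 2 < L by linarith))
    filter_upwards [h2, kN_div_le hn, ll_pos hn] with k hk1 hk2 hl
    have hV := VV_pos hK h k
    have hZ := hB.ZZ_pos hK h hν k
    have h3 := Real.log_le_log (by positivity) (hk k)
    rw [Real.log_mul (by positivity) hZ.ne', Real.log_pow, Real.log_pow,
      Real.log_mul (by positivity) (by positivity), Real.log_pow] at h3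
    have h5 : ((Fintype.card (Ix n k) : ℕ) : ℝ) = NN n k := rfl
    rw [h5] at h3
    push_cast at h3
    have hN := one_le_NN n k
    have h4 := Real.log_nonneg hN
    have h6 := Real.log_nonneg hc
    have h7 : Real.log (1 + ε) ≤ ε := by
      have := Real.log_le_sub_one_of_pos (show 0 < 1 + ε by linarith)
      linarith
    have h8 : ε * (k * NN n k / ll n k) ≤ (L - a) / 2 := by
      calc ε * (k * NN n k / ll n k) ≤ ε * Cn := mul_le_mul_of_nonneg_left hk2 hε0.le
        _ = (L - a) / 2 := by rw [hε]; field_simp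
    have h9 : Real.log (VV n k K) / ll n k -
        Real.log c * (NN n k * (Real.log (NN n k) + 1) / ll n k) - ε * (k * NN n k / ll n k) ≤
        Real.log (ZZ n k ν) / (2 * ll n k) := by
      rw [← mul_div_assoc, ← mul_div_assoc, ← sub_div, ← sub_div,
        div_le_div_iff₀ hl (by positivity), ← mul_assoc]
      refine mul_le_mul_of_nonneg_right ?_ hl.le
      have h10 : 0 ≤ NN n k * Real.log c := by positivity
      have h11 : 0 ≤ NN n k * Real.log c * Real.log (NN n k) := by positivity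
      have h12 : k * NN n k * Real.log (1 + ε) ≤ k * NN n k * ε :=
        mul_le_mul_of_nonneg_left h7 (by positivity)
      nlinarith
    linarith
  · intro a ha
    have h1 := hL.add ((err_tendsto hn).const_mul (2 + Real.log (max 1 (ν.real Set.univ))))
    rw [mul_zero, add_zero] at h1
    filter_upwards [h1.eventually (gt_mem_nhds ha), ll_pos hn] with k hk hl
    exact (logZZ_le' hK h ν hν k (hB.ZZ_pos hK h hν k) hl).trans_lt hk

/-- multiplication by a fixed polynomial -/
noncomputable def mulPoly (p : MvPolynomial (Fin n) ℂ) (m : ℕ) :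
    (Ix n m → ℂ) →ₗ[ℂ] MvPolynomial (Fin n) ℂ where
  toFun c := p * polyOf c
  map_add' c d := by simp [polyOf, Finset.sum_add_distrib, mul_add]
  map_smul' t c := by
    simp only [polyOf, Pi.smul_apply, RingHom.id_apply, ← smul_monomial, ← Finset.smul_sum,
      mul_smul_comm]

theorem mulPoly_injective {p : MvPolynomial (Fin n) ℂ} (hp : p ≠ 0) (m : ℕ) :
    Function.Injective (mulPoly p m) := by
  intro c d h
  have h1 : polyOf c = polyOf d := mul_left_cancel₀ hp h
  funext b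
  rw [← coeff_polyOf c b, h1, coeff_polyOf]

/-- the asymptotics of `ZZ` force pointwise growth bounds in terms of the `L²` norm -/
theorem main_bound (hn : 1 ≤ n) (hK : IsCompact K) (h : Coer K D) {ν : Measure (Fin n → ℂ)}
    [IsFiniteMeasure ν] (hν : ν Kᶜ = 0) {L : ℝ}
    (hL : Tendsto (fun k : ℕ => Real.log (VV n k K) / ll n k) atTop (𝓝 L))
    (hZ : Tendsto (fun k : ℕ => Real.log (ZZ n k ν) / (2 * ll n k)) atTop (𝓝 L))
    (hZ0 : ∀ᶠ k : ℕ in atTop, 0 < ZZ n k ν) (ρ R u b : ℝ) (hρ : 0 < ρ) (hR : 0 < R)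
    (hu : 0 ≤ u) (hb : u < b) :
    ∀ᶠ k : ℕ in atTop, ∀ a, LocB K a ρ u → (∀ y ∈ K, ‖y - a‖ ≤ R) →
      ∀ p : MvPolynomial (Fin n) ℂ, p.totalDegree ≤ k →
        ‖eval a p‖ ^ 2 ≤ Real.exp (b * k) ^ 2 * ∫ y, ‖eval y p‖ ^ 2 ∂ν := by
  have hn' : (0:ℝ) < n := by exact_mod_cast hn
  set g := b - u with hg
  have hg0 : 0 < g := by linarith
  have h1R : 1 ≤ 1 + R / ρ := by have : 0 < R / ρ := by positivity
                                 linarith
  set lam := Real.log (1 + R / ρ) with hlam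
  have hlam0 : 0 ≤ lam := Real.log_nonneg h1R
  obtain ⟨M, hM⟩ := exists_nat_gt (4 * n * (lam + u) / g)
  have hM0 : (0:ℝ) < M := lt_of_le_of_lt (by positivity) hM
  have hM1 : 0 < M := by exact_mod_cast hM0
  set c : ℝ := g / 2 * ((1 / (2 * M)) ^ n / (2 * n)) / ((2 * n + 1) * (2 * (2 * n + 1)) ^ n)
    with hc
  have hc0 : 0 < c := by positivity
  have h1 := (hZ.sub hL).sub
    ((err_tendsto hn).const_mul (2 + Real.log (max 1 (ν.real Set.univ))))
  rw [mul_zero, sub_zero, sub_self] at h1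
  have h2 := (h1.eventually (lt_mem_nhds (show -c < 0 by linarith))).and (hZ0.and (ll_pos hn))
  obtain ⟨k0, hk0⟩ := eventually_atTop.1 h2
  filter_upwards [eventually_ge_atTop k0, eventually_ge_atTop M] with k hk hkM
  intro a ha haR p hp
  by_contra hbad
  push Not at hbad
  set j := k / M with hj
  set m := 2 * n * j with hm
  have hj0 : 0 < j := Nat.div_pos hkM hM1
  have hjr : (0:ℝ) < j := by exact_mod_cast hj0
  have hkr : (1:ℝ) ≤ k := by exact_mod_cast hM1.trans_le hkM
  have hjM : (j:ℝ) * M ≤ k := by exact_mod_cast Nat.div_mul_le_self k M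
  have hjM' : (k:ℝ) ≤ 2 * M * j := by
    have h3 : k < M * (j + 1) := Nat.lt_mul_div_succ k hM1
    have h4 : k ≤ 2 * M * j := by nlinarith
    exact_mod_cast h4
  have hjk : j ≤ k := Nat.div_le_self _ _
  obtain ⟨hG, hZk, hl⟩ := hk0 (k + m) (by omega)
  have hI : 0 ≤ ∫ y, ‖eval y p‖ ^ 2 ∂ν := integral_nonneg fun _ => by positivity
  have hpa : 0 < ‖eval a p‖ ^ 2 := lt_of_le_of_lt (mul_nonneg (sq_nonneg _) hI) hbad
  have hp0 : p ≠ 0 := by rintro rfl; simp at hpa
  have key := logZZ_le hK h ν hν (k + m) (mulPoly p m) (mulPoly_injective hp0 m)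
    (fun c => (totalDegree_mul _ _).trans (add_le_add hp (totalDegree_polyOf c))) (g / 2 * k)
    (fun c B hB => by
      have hB0 : 0 ≤ B := by
        obtain ⟨x, hx⟩ := h.nonempty
        exact (norm_nonneg _).trans (hB x hx)
      set q := polyOf c
      set S := (1 + R / ρ) ^ m * (B * Real.exp (u * ((k + m : ℕ) : ℝ))) with hS
      have h3 : ∀ y ∈ K, ‖eval a p‖ * ‖eval y q‖ ≤ S := fun y hy =>
        mv_two_factor p q m (totalDegree_polyOf c) a y ρ R hρ hR (haR y hy) _
          (ha (k + m) (p * q) B ((totalDegree_mul _ _).trans (add_le_add hp (totalDegree_polyOf c)))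
            hB)
      have h4 : ‖eval a p‖ ^ 2 * ∫ y, ‖eval y (p * q)‖ ^ 2 ∂ν ≤ S ^ 2 * ∫ y, ‖eval y p‖ ^ 2 ∂ν := by
        rw [← integral_const_mul, ← integral_const_mul]
        refine integral_mono_of_nonneg (ae_of_all _ fun _ => by positivity)
          ((integrable_poly hK ν hν p).const_mul _) ?_
        filter_upwards [show ∀ᵐ x ∂ν, x ∈ K from hν] with y hy
        rw [map_mul, norm_mul]
        have h5 := pow_le_pow_left₀ (by positivity) (h3 y hy) 2
        calc ‖eval a p‖ ^ 2 * (‖eval y p‖ * ‖eval y q‖) ^ 2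
            = (‖eval a p‖ * ‖eval y q‖) ^ 2 * ‖eval y p‖ ^ 2 := by ring
          _ ≤ _ := mul_le_mul_of_nonneg_right h5 (by positivity)
      have h6 : S ≤ Real.exp (-(g / 2 * k)) * B * Real.exp (b * k) := by
        rw [hS, ← Real.exp_log (show 0 < 1 + R / ρ by linarith), ← hlam, ← Real.exp_nat_mul,
          mul_left_comm, ← Real.exp_add, mul_comm (Real.exp _) B, mul_assoc, ← Real.exp_add]
        refine mul_le_mul_of_nonneg_left (Real.exp_le_exp.2 ?_) hB0
        rw [div_lt_iff₀ hg0] at hM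
        have h7 : (m:ℝ) * (lam + u) ≤ g / 2 * k := by
          have h8 : (m:ℝ) = 2 * n * j := by rw [hm]; push_cast; ring
          rw [h8]
          have h9 := mul_le_mul_of_nonneg_right hM.le hjr.le
          have h10 := mul_le_mul_of_nonneg_left hjM hg0.le
          nlinarith
        push_cast
        have h11 : b = g + u := by rw [hg]; ring
        rw [h11]
        nlinarith
      have hS0 : 0 ≤ S := by positivity
      have h7 := pow_le_pow_left₀ hS0 h6 2
      have h8 : S ^ 2 * ∫ y, ‖eval y p‖ ^ 2 ∂ν ≤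
          ‖eval a p‖ ^ 2 * (Real.exp (-(g / 2 * k)) ^ 2 * B ^ 2) := by
        calc S ^ 2 * ∫ y, ‖eval y p‖ ^ 2 ∂ν
            ≤ (Real.exp (-(g / 2 * k)) * B * Real.exp (b * k)) ^ 2 * ∫ y, ‖eval y p‖ ^ 2 ∂ν :=
              mul_le_mul_of_nonneg_right h7 hI
          _ = (Real.exp (b * k) ^ 2 * ∫ y, ‖eval y p‖ ^ 2 ∂ν) *
              (Real.exp (-(g / 2 * k)) ^ 2 * B ^ 2) := by ring
          _ ≤ _ := mul_le_mul_of_nonneg_right hbad.le (by positivity)
      exact le_of_mul_le_mul_left (h4.trans h8) hpa) hZk hl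
  have h3 : c ≤ g / 2 * k * Fintype.card (Ix n m) / ll n (k + m) := by
    have h4 : (1 / (2 * M) : ℝ) ^ n / (2 * n) * (k:ℝ) ^ n ≤ Fintype.card (Ix n m) := by
      have h5 := (le_ll hn m j le_rfl).trans (ll_le n m)
      have h8 : (m:ℝ) = 2 * n * j := by rw [hm]; push_cast; ring
      rw [h8, pow_succ, mul_assoc, mul_assoc, mul_comm (j:ℝ) (NN n m), ← mul_assoc, ← mul_assoc]
        at h5
      have h6 := le_of_mul_le_mul_right h5 hjr
      rw [div_mul_eq_mul_div, div_le_iff₀ (by positivity), ← mul_pow]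
      have h7 : 1 / (2 * (M:ℝ)) * k ≤ j := by
        rw [one_div_mul_eq_div, div_le_iff₀ (by positivity)]; linarith
      refine (pow_le_pow_left₀ (by positivity) h7 n).trans (h6.trans (le_of_eq ?_))
      unfold NN; ring
    have h9 : ll n (k + m) ≤ (2 * n + 1) * (2 * (2 * n + 1)) ^ n * (k * (k:ℝ) ^ n) := by
      have h10 : ((k + m : ℕ) : ℝ) ≤ (2 * n + 1) * k := by
        have : k + m ≤ (2 * n + 1) * k := by
          have := Nat.mul_le_mul_left (2 * n) hjk
          nlinarith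
        exact_mod_cast this
      have h11 : NN n (k + m) ≤ (2 * (2 * n + 1) * k) ^ n := by
        refine (NN_le _ _).trans (pow_le_pow_left₀ (by positivity) ?_ _)
        nlinarith
      have h12 := one_le_NN n (k + m)
      calc ll n (k + m) ≤ ((k + m : ℕ) : ℝ) * NN n (k + m) := ll_le _ _
        _ ≤ ((2 * n + 1) * k) * (2 * (2 * n + 1) * k) ^ n :=
          mul_le_mul h10 h11 (by linarith) (by positivity)
        _ = _ := by rw [mul_pow]; ring
    rw [le_div_iff₀ hl]
    calc c * ll n (k + m) ≤ c * ((2 * n + 1) * (2 * (2 * n + 1)) ^ n * (k * (k:ℝ) ^ n)) :=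
          mul_le_mul_of_nonneg_left h9 hc0.le
      _ = g / 2 * k * ((1 / (2 * M) : ℝ) ^ n / (2 * n) * (k:ℝ) ^ n) := by
          rw [hc]; field_simp
      _ ≤ _ := mul_le_mul_of_nonneg_left h4 (by positivity)
  linarith

theorem rpow_eq_exp {x l : ℝ} (hx : 0 < x) : x ^ ((1:ℝ) / l) = Real.exp (Real.log x / l) := by
  rw [Real.rpow_def_of_pos hx, mul_one_div]

/-- passing between roots and logarithms -/
theorem tendsto_log_of_rpow {x l : ℕ → ℝ} {L : ℝ} (hx : ∀ k, 0 ≤ x k)
    (hl : ∀ᶠ k in atTop, 0 < l k)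
    (h : Tendsto (fun k => x k ^ ((1:ℝ) / l k)) atTop (𝓝 (Real.exp L))) :
    (∀ᶠ k in atTop, 0 < x k) ∧ Tendsto (fun k => Real.log (x k) / l k) atTop (𝓝 L) := by
  have h1 : ∀ᶠ k in atTop, 0 < x k := by
    filter_upwards [h.eventually (lt_mem_nhds (Real.exp_pos L)), hl] with k hk hlk
    refine lt_of_le_of_ne (hx k) fun h0 => ?_
    rw [← h0, Real.zero_rpow (by positivity)] at hk
    exact lt_irrefl _ hk
  refine ⟨h1, ?_⟩
  have h2 := h.log (Real.exp_pos L).ne'
  rw [Real.log_exp] at h2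
  refine h2.congr' ?_
  filter_upwards [h1] with k hk
  rw [rpow_eq_exp hk, Real.log_exp]

end Pool.Agent.H53.Zh
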