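import Pool.Agent.H53.ZhF

set_option autoImplicit false

namespace Pool.Agent.H53.Zh

open Matrix MvPolynomial Filter Topology MeasureTheory

variable {n : ℕ} {K : Set (Fin n → ℂ)}

/-- the set whose supremum is the extremal function -/
def extSet (K : Set (Fin n → ℂ)) (z : Fin n → ℂ) : Set ℝ :=
  {t : ℝ | ∃ k : ℕ, 1 ≤ k ∧ ∃ p : MvPolynomial (Fin n) ℂ, p.totalDegree ≤ k ∧
    (∀ x ∈ K, ‖eval x p‖ ≤ 1) ∧ t = Real.log ‖eval z p‖ / (k : ℝ)}

theorem nonempty_of_bdd {z : Fin n → ℂ} {v : ℝ} (h : v ∈ upperBounds (extSet K z)) :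
    K.Nonempty := by
  by_contra hK
  have := h ⟨1, le_rfl, C ((Real.exp (v + 1) : ℝ) : ℂ), by simp,
    fun x hx => absurd ⟨x, hx⟩ hK, rfl⟩
  rw [eval_C, Complex.norm_real, Real.norm_eq_abs, abs_of_pos (Real.exp_pos _),
    Real.log_exp] at this
  simp at this
  linarith

theorem bw_of_bdd {z : Fin n → ℂ} {v : ℝ} (h : v ∈ upperBounds (extSet K z))
    (k : ℕ) (p : MvPolynomial (Fin n) ℂ) (B : ℝ) (hp : p.totalDegree ≤ k)
    (hB : ∀ x ∈ K, ‖eval x p‖ ≤ B) : ‖eval z p‖ ≤ B * Real.exp (v * k) := by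
  obtain ⟨x0, hx0⟩ := nonempty_of_bdd h
  rcases Nat.eq_zero_or_pos k with rfl | hk
  · have h0 := totalDegree_eq_zero_iff_eq_C.1 (Nat.le_zero.1 hp)
    have := hB x0 hx0
    rw [h0] at this ⊢
    simpa using this
  have hB0 : 0 ≤ B := (norm_nonneg _).trans (hB x0 hx0)
  have key : ∀ B' : ℝ, B < B' → ‖eval z p‖ ≤ B' * Real.exp (v * k) := by
    intro B' hB'
    have hB'0 : 0 < B' := lt_of_le_of_lt hB0 hB'
    have hn : ∀ x, ‖eval x (C ((B'⁻¹ : ℝ) : ℂ) * p)‖ = ‖eval x p‖ / B' := fun x => by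
      rw [map_mul, eval_C, norm_mul, Complex.norm_real, Real.norm_eq_abs,
        abs_of_pos (inv_pos.2 hB'0), inv_mul_eq_div]
    have h1 := h ⟨k, hk, C ((B'⁻¹ : ℝ) : ℂ) * p,
      (totalDegree_mul _ _).trans (by simpa using hp), fun x hx => by
        rw [hn, div_le_one hB'0]; exact (hB x hx).trans hB'.le, rfl⟩
    rw [hn, div_le_iff₀ (by exact_mod_cast hk)] at h1
    rcases (norm_nonneg (eval z p)).eq_or_lt with h0 | h0
    · rw [← h0]; positivity
    · rw [Real.log_le_iff_le_exp (by positivity), div_le_iff₀ hB'0] at h1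
      linarith
  refine le_of_forall_pos_le_add fun ε hε => ?_
  have hE := Real.exp_pos (v * k)
  refine (key (B + ε / Real.exp (v * k)) (by linarith [div_pos hε hE])).trans (le_of_eq ?_)
  field_simp

theorem locB_of_bdd {a : Fin n → ℂ} {ρ u : ℝ}
    (h : ∀ z ∈ Metric.closedBall a ρ, u ∈ upperBounds (extSet K z)) : LocB K a ρ u :=
  fun k p B hp hB z hz => bw_of_bdd (h z hz) k p B hp hB

theorem regular_iff (hn : 1 ≤ n) (hK : IsCompact K) (V : (Fin n → ℂ) → ℝ) (hVc : Continuous V)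
    (hV : ∀ z, IsLUB (extSet K z) (V z)) {ν : Measure (Fin n → ℂ)} [IsFiniteMeasure ν]
    (hν : ν Kᶜ = 0) :
    BM K ν ↔ ∃ d : ℝ,
      Tendsto (fun k : ℕ => VV n k K ^ ((1:ℝ) / ll n k)) atTop (𝓝 d) ∧
      Tendsto (fun k : ℕ => ZZ n k ν ^ ((1:ℝ) / (2 * ll n k))) atTop (𝓝 d) := by
  have hloc : ∀ u : ℝ, 0 < u → ∃ ρ, 0 < ρ ∧ ∀ a ∈ K, LocB K a ρ u := by
    intro u hu
    have hsub : K ⊆ {z | V z < u} := fun x hx => by
      refine lt_of_le_of_lt ((hV x).2 ?_) hu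
      rintro _ ⟨k, hk, p, hp, hb, rfl⟩
      exact div_nonpos_of_nonpos_of_nonneg (Real.log_nonpos (norm_nonneg _) (hb x hx))
        (Nat.cast_nonneg _)
    obtain ⟨ρ, hρ, hs⟩ := hK.exists_cthickening_subset_open
      (isOpen_lt hVc continuous_const) hsub
    refine ⟨ρ, hρ, fun a ha => locB_of_bdd fun z hz t ht => ?_⟩
    exact ((hV z).1 ht).trans (le_of_lt (hs (Metric.closedBall_subset_cthickening ha ρ hz)))
  obtain ⟨x0, hx0⟩ := nonempty_of_bdd (hV 0).1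
  obtain ⟨D, hD, h⟩ : ∃ D, 0 ≤ D ∧ Coer K D := by
    obtain ⟨ρ, hρ, h⟩ := hloc 1 one_pos
    exact (h x0 hx0).coer hρ
  obtain ⟨L, hL⟩ := logVV_tendsto hn hK hD h
  have hVV : Tendsto (fun k : ℕ => VV n k K ^ ((1:ℝ) / ll n k)) atTop (𝓝 (Real.exp L)) :=
    ((Real.continuous_exp.tendsto L).comp hL).congr fun k => (rpow_eq_exp (VV_pos hK h k)).symm
  constructor
  · intro hB
    exact ⟨Real.exp L, hVV, ((Real.continuous_exp.tendsto L).comp
      (hB.tendsto hn hK h hν hL)).congr fun k => (rpow_eq_exp (hB.ZZ_pos hK h hν k)).symm⟩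
  · rintro ⟨d, hd1, hd2⟩ ε hε
    rw [tendsto_nhds_unique hd1 hVV] at hd2
    obtain ⟨hZ0, hZ⟩ := tendsto_log_of_rpow (fun k => ZZ_nonneg k ν)
      ((ll_pos hn).mono fun k hk => by positivity) hd2
    have hb : 0 < Real.log (1 + ε) := Real.log_pos (by linarith)
    obtain ⟨ρ, hρ, hl⟩ := hloc (Real.log (1 + ε) / 2) (by positivity)
    obtain ⟨R0, hR0⟩ := hK.isBounded.exists_norm_le
    have hR00 : 0 ≤ R0 := (norm_nonneg _).trans (hR0 x0 hx0)
    obtain ⟨k0, hk0⟩ := eventually_atTop.1 (main_bound hn hK h hν hL hZ hZ0 ρ (2 * R0 + 1)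
      (Real.log (1 + ε) / 2) (Real.log (1 + ε)) hρ (by positivity) (by positivity) (by linarith))
    refine ⟨(1 + ε) ^ (2 * k0), fun k p hp x hx => ?_⟩
    have := hk0 (k0 + k) (by omega) x (hl x hx) (fun y hy => by
      have := norm_sub_le y x
      linarith [hR0 y hy, hR0 x hx]) p (by omega)
    rw [mul_comm (Real.log _), Real.exp_nat_mul, Real.exp_log (by linarith), ← pow_mul] at this
    rw [← pow_add]
    convert this using 3
    ring

end Pool.Agent.H53.Zh
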